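import Mathlib

/-! Kneser's addition theorem for finite abelian groups (DeVos' proof). -/

namespace Pool.Agent.H2.Kneser

open Finset Pointwise

set_option linter.unusedSectionVars false

variable {G : Type*} [AddCommGroup G] [DecidableEq G]

/-- K is a finite subgroup. -/
structure Sg (K : Finset G) : Prop where
  zero : (0 : G) ∈ K
  sub : ∀ x ∈ K, ∀ y ∈ K, x - y ∈ K

/-- X is K-periodic. -/
def Per (K X : Finset G) : Prop := ∀ x ∈ X, ∀ k ∈ K, x + k ∈ X

theorem Sg.neg {K : Finset G} (h : Sg K) {x : G} (hx : x ∈ K) : -x ∈ K := by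
  simpa using h.sub 0 h.zero x hx

theorem Sg.add {K : Finset G} (h : Sg K) {x y : G} (hx : x ∈ K) (hy : y ∈ K) : x + y ∈ K := by
  simpa using h.sub x hx _ (h.neg hy)

theorem Sg.pos {K : Finset G} (h : Sg K) : 0 < #K := card_pos.2 ⟨0, h.zero⟩

theorem Sg.subset_add {K : Finset G} (h : Sg K) (X : Finset G) : X ⊆ X + K :=
  fun x hx => mem_add.2 ⟨x, hx, 0, h.zero, add_zero x⟩

theorem Per.add_eq {K X : Finset G} (hK : Sg K) (h : Per K X) : X + K = X :=
  Subset.antisymm (add_subset_iff.2 h) (hK.subset_add X)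

theorem Sg.per_add {K : Finset G} (h : Sg K) (X : Finset G) : Per K (X + K) := by
  intro x hx k hk
  obtain ⟨a, ha, b, hb, rfl⟩ := mem_add.1 hx
  exact mem_add.2 ⟨a, ha, b + k, h.add hb hk, (add_assoc _ _ _).symm⟩

theorem Per.add_right {K X : Finset G} (h : Per K X) (Y : Finset G) : Per K (X + Y) := by
  intro x hx k hk
  obtain ⟨a, ha, b, hb, rfl⟩ := mem_add.1 hx
  exact mem_add.2 ⟨a + k, h a ha k hk, b, hb, by abel⟩

theorem Sg.mem_coset {K : Finset G} (_h : Sg K) {u x : G} : x ∈ u +ᵥ K ↔ x - u ∈ K := by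
  rw [← neg_vadd_mem_iff, vadd_eq_add, neg_add_eq_sub]

theorem Per.card_dvd {K X : Finset G} (hK : Sg K) (h : Per K X) : #K ∣ #X := by
  induction X using Finset.strongInduction with
  | H X ih =>
    rcases X.eq_empty_or_nonempty with rfl | ⟨x, hx⟩
    · simp
    have h1 : x +ᵥ K ⊆ X := fun y hy => by simpa using h x hx _ (hK.mem_coset.1 hy)
    have h2 := ih (X \ (x +ᵥ K)) (sdiff_ssubset h1 ⟨x, hK.mem_coset.2 (by simpa using hK.zero)⟩)
      fun y hy k hk => mem_sdiff.2 ⟨h y (mem_sdiff.1 hy).1 k hk, fun e => (mem_sdiff.1 hy).2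
        (hK.mem_coset.2 (by convert hK.sub _ (hK.mem_coset.1 e) _ hk using 1; abel))⟩
    rw [← card_sdiff_add_card_eq_card h1, card_vadd_finset]
    exact dvd_add h2 dvd_rfl

theorem coset_bound {H H' U : Finset G} (hH : Sg H) (hs : H' ⊆ H) {u : G} (hu : u ∈ U + H) :
    #(U + H') + #H ≤ #(U + H) + #(U ∩ (u +ᵥ H) + H') := by
  have h1 : u +ᵥ H ⊆ U + H := fun y hy => by simpa using hH.per_add U u hu _ (hH.mem_coset.1 hy)
  have h2 : U + H' ⊆ (U + H) \ (u +ᵥ H) ∪ (U ∩ (u +ᵥ H) + H') := by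
    intro y hy
    obtain ⟨a, ha, b, hb, rfl⟩ := mem_add.1 hy
    by_cases e : a + b ∈ u +ᵥ H
    · refine mem_union_right _ (add_mem_add (mem_inter.2 ⟨ha, hH.mem_coset.2 ?_⟩) hb)
      convert hH.sub _ (hH.mem_coset.1 e) _ (hs hb) using 1; abel
    · exact mem_union_left _ (mem_sdiff.2 ⟨add_mem_add ha (hs hb), e⟩)
  have h3 := (card_le_card h2).trans (card_union_le _ _)
  have h4 := card_sdiff_add_card_eq_card h1
  rw [card_vadd_finset] at h4
  omega

variable [Fintype G]

/-- The stabiliser (period) of a finite set. -/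
def st (C : Finset G) : Finset G := univ.filter fun x => ∀ c ∈ C, c + x ∈ C

theorem mem_st {C : Finset G} {x : G} : x ∈ st C ↔ ∀ c ∈ C, c + x ∈ C := by simp [st]

theorem per_st (C : Finset G) : Per (st C) C := fun x hx _ hk => mem_st.1 hk x hx

theorem Per.subset_st {K X : Finset G} (h : Per K X) : K ⊆ st X :=
  fun k hk => mem_st.2 fun x hx => h x hx k hk

theorem sg_st (C : Finset G) : Sg (st C) := by
  refine ⟨mem_st.2 (by simp), fun x hx y hy => mem_st.2 fun c hc => ?_⟩
  have h1 : C.image (· + y) = C := eq_of_subset_of_card_le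
    (fun z hz => by obtain ⟨w, hw, rfl⟩ := mem_image.1 hz; exact mem_st.1 hy w hw)
    (by rw [card_image_of_injective _ (add_left_injective y)])
  obtain ⟨w, hw, e⟩ := mem_image.1 (h1.ge (mem_st.1 hx c hc))
  rwa [show c + (x - y) = w by rw [← add_sub_assoc, ← e]; simp]

theorem add_st (C : Finset G) : C + st C = C := (per_st C).add_eq (sg_st C)

/-- The conclusion of Kneser's theorem. -/
def Kn (A B : Finset G) : Prop :=
  #(A + st (A + B)) + #(B + st (A + B)) ≤ #(A + B) + #(st (A + B))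

theorem key {K A B C : Finset G} (hA : Per K A) (hB : Per K B)
    (ih : ∀ A' B' : Finset G, Per K A' → Per K B' → A'.Nonempty → B'.Nonempty →
      #(A' + B') + #A' < #(A + B) + #A → Kn A' B')
    (hC : C ⊆ A + B) (hCK : Per K C) (hC0 : C.Nonempty)
    (hconv : #(A ∩ B) + #(A ∪ B + st C) ≤ #C + #(st C))
    (hmin : ∀ D ⊆ A + B, Per K D → D.Nonempty → #(st D) < #(st C) →
      #D + #(st D) < #(A ∩ B) + #(A ∪ B + st D))
    {u v w : G} (hw : w - (u + v) ∈ st C) (hw' : w ∉ A + B)
    (hu : (A ∩ (u +ᵥ st C)).Nonempty) (hv : (B ∩ (v +ᵥ st C)).Nonempty) :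
    ∃ H' d, Sg H' ∧ H' ⊆ st C ∧ #(A ∪ B + st C) + #(A ∩ (u +ᵥ st C) + H') +
      #(B ∩ (v +ᵥ st C) + H') < #(st C) + #(A ∪ B + H') ∧
      #(A ∩ (u +ᵥ st C)) + #(B ∩ (v +ᵥ st C)) ≤ d + #H' ∧ #C + d ≤ #(A + B) := by
  set H := st C with hH
  have sH : Sg H := sg_st C
  have KH : K ⊆ H := hCK.subset_st
  have pc : ∀ {X : Finset G} (u : G), Per K X → Per K (X ∩ (u +ᵥ H)) := fun u hX x hx k hk =>
    mem_inter.2 ⟨hX x (mem_inter.1 hx).1 k hk, sH.mem_coset.2 (by
      convert sH.add (sH.mem_coset.1 (mem_inter.1 hx).2) (KH hk) using 1; abel)⟩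
  set A' := A ∩ (u +ᵥ H)
  set B' := B ∩ (v +ᵥ H)
  set D := A' + B' with hD
  have hDs : D ⊆ A + B := add_subset_add inter_subset_left inter_subset_left
  have hDw : ∀ d ∈ D, w - d ∈ H := by
    intro d hd
    obtain ⟨a, ha, b, hb, rfl⟩ := mem_add.1 hd
    convert sH.sub _ (sH.sub _ hw _ (sH.mem_coset.1 (mem_inter.1 ha).2)) _
      (sH.mem_coset.1 (mem_inter.1 hb).2) using 1
    abel
  have hCw : ∀ c ∈ C, w - c ∉ H := fun c hc e => hw' (hC (by simpa using per_st C c hc _ e))
  have hdis : Disjoint C D := disjoint_left.2 fun x hx hx' => hCw x hx (hDw x hx')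
  have hcard : #(C ∪ D) = #C + #D := card_union_of_disjoint hdis
  have hle : #C + #D ≤ #(A + B) := hcard ▸ card_le_card (union_subset hC hDs)
  obtain ⟨d, hd⟩ : D.Nonempty := hu.add hv
  have hH'H : st D ⊆ H := fun x hx => by
    convert sH.sub _ (hDw d hd) _ (hDw _ (mem_st.1 hx d hd)) using 1; abel
  have hst : st (C ∪ D) = st D := by
    refine Subset.antisymm (fun x hx => ?_) fun x hx => mem_st.2 fun c hc => ?_
    · have hxH : x ∈ H := by
        by_contra hxH
        rcases mem_union.1 (mem_st.1 hx d (mem_union_right _ hd)) with e | e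
        · have e2 := mem_st.1 ((sg_st _).neg hx) _
            (mem_union_left _ (per_st C _ e _ (hDw d hd)))
          rw [show d + x + (w - d) + -x = w by abel] at e2
          exact hw' (union_subset hC hDs e2)
        · exact hxH (by convert sH.sub _ (hDw d hd) _ (hDw _ e) using 1; abel)
      refine mem_st.2 fun c hc => ?_
      rcases mem_union.1 (mem_st.1 hx c (mem_union_right _ hc)) with e | e
      · exact absurd (by convert sH.sub _ (hDw c hc) _ hxH using 1; abel) (hCw _ e)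
      · exact e
    · rcases mem_union.1 hc with e | e
      · exact mem_union_left _ (per_st C c e x (hH'H hx))
      · exact mem_union_right _ (mem_st.1 hx c e)
  have hlt : #(st D) < #H := card_lt_card ⟨hH'H, fun e =>
    hw' (hDs (by simpa using mem_st.1 (e (hDw d hd)) d hd))⟩
  have pD : Per K D := (pc u hA).add_right _
  have h1 := hmin (C ∪ D) (union_subset hC hDs)
    (fun x hx k hk => (mem_union.1 hx).elim (fun e => mem_union_left _ (hCK x e k hk))
      fun e => mem_union_right _ (pD x e k hk)) (hC0.mono subset_union_left) (hst ▸ hlt)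
  rw [hst, hcard] at h1
  have h2 : Kn A' B' := ih A' B' (pc u hA) (pc v hB) hu hv (by
    have : #A' ≤ #A := card_le_card inter_subset_left
    have := card_pos.2 hC0
    rw [← hD]; omega)
  unfold Kn at h2
  rw [← hD] at h2
  have h3 := card_le_card ((sg_st D).subset_add A')
  have h4 := card_le_card ((sg_st D).subset_add B')
  exact ⟨st D, #D, sg_st D, hH'H, by omega, by omega, hle⟩

theorem step2 {K A B : Finset G} (hA : Per K A) (hB : Per K B) (hK : st (A + B) = K)
    (ih : ∀ A' B' : Finset G, Per K A' → Per K B' → A'.Nonempty → B'.Nonempty →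
      #(A' + B') + #A' < #(A + B) + #A → Kn A' B')
    (h0 : (A ∩ B).Nonempty) (h1 : ¬ A ⊆ B) : #A + #B ≤ #(A + B) + #K := by
  by_contra hcon
  have sK : Sg K := hK ▸ sg_st _
  have pI : Per K (A ∩ B) := fun x hx k hk =>
    mem_inter.2 ⟨hA x (mem_inter.1 hx).1 k hk, hB x (mem_inter.1 hx).2 k hk⟩
  have pU : Per K (A ∪ B) := fun x hx k hk => (mem_union.1 hx).elim
    (fun e => mem_union_left _ (hA x e k hk)) fun e => mem_union_right _ (hB x e k hk)
  have hU0 : (A ∪ B).Nonempty := h0.mono inter_subset_union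
  have hIU := card_union_add_card_inter A B
  obtain ⟨C, ⟨hC, hCK, hC0, hconv⟩, hmin⟩ := exists_minimalFor_of_wellFoundedLT
    (fun C : Finset G => C ⊆ A + B ∧ Per K C ∧ C.Nonempty ∧
      #(A ∩ B) + #(A ∪ B + st C) ≤ #C + #(st C)) (fun C => #(st C)) (by
    have hs : A ∩ B + (A ∪ B) ⊆ A + B := inter_add_union_subset
    refine ⟨A ∩ B + (A ∪ B), hs, pI.add_right _, h0.add hU0, ?_⟩
    have h2 := ih _ _ pI pU h0 hU0 (by
      have := card_le_card hs
      have := card_lt_card (⟨inter_subset_left, fun e => h1 (e.trans inter_subset_right)⟩ :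
        A ∩ B ⊂ A)
      omega)
    exact le_trans (by gcongr; exact (sg_st _).subset_add _) h2)
  have hmin' : ∀ D ⊆ A + B, Per K D → D.Nonempty → #(st D) < #(st C) →
      #D + #(st D) < #(A ∩ B) + #(A ∪ B + st D) := fun D h1 h2 h3 h4 => by
    by_contra h5
    have := hmin (j := D) ⟨h1, h2, h3, not_lt.1 h5⟩ h4.le
    simp only at this
    omega
  have hCc := card_le_card hC
  set H := st C with hH
  have sH : Sg H := sg_st C
  have hUH := card_le_card (sH.subset_add (A ∪ B))
  obtain ⟨x, hx, hxK⟩ : ∃ x ∈ H, x ∉ K := by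
    by_contra hc
    push Not at hc
    have := card_le_card (show H ⊆ K from hc)
    omega
  rw [← hK, mem_st] at hxK
  push Not at hxK
  obtain ⟨z, hz, hw⟩ := hxK
  obtain ⟨a, ha, b, hb, rfl⟩ := mem_add.1 hz
  have self : ∀ u : G, u ∈ u +ᵥ H := fun u => sH.mem_coset.2 (by simpa using sH.zero)
  obtain ⟨H1, d1, s1, t1, p1, q1, r1⟩ := key hA hB ih hC hCK hC0 hconv hmin' (u := a) (v := b)
    (by simpa using hx) hw ⟨a, mem_inter.2 ⟨ha, self a⟩⟩ ⟨b, mem_inter.2 ⟨hb, self b⟩⟩
  rw [← hH] at t1 p1 q1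
  have haU : a ∈ A ∪ B + H := sH.subset_add _ (mem_union_left _ ha)
  have hbU : b ∈ A ∪ B + H := sH.subset_add _ (mem_union_right _ hb)
  have ca := coset_bound sH t1 haU
  have cb := coset_bound sH t1 hbU
  rw [union_inter_distrib_right] at ca cb
  have n1 : (B ∩ (a +ᵥ H)).Nonempty := by
    by_contra e
    rw [not_nonempty_iff_eq_empty.1 e, union_empty] at ca
    omega
  have n2 : (A ∩ (b +ᵥ H)).Nonempty := by
    by_contra e
    rw [not_nonempty_iff_eq_empty.1 e, empty_union] at cb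
    omega
  have hab : Disjoint (a +ᵥ H) (b +ᵥ H) := disjoint_left.2 fun y h1 h2 => by
    have e : a +ᵥ H = b +ᵥ H := by
      have := sH.sub _ (sH.mem_coset.1 h1) _ (sH.mem_coset.1 h2)
      ext t
      rw [sH.mem_coset, sH.mem_coset]
      exact ⟨fun h => by convert sH.sub _ h _ this using 1; abel,
        fun h => by convert sH.add h this using 1; abel⟩
    rw [union_add (s₁ := A ∩ (a +ᵥ H))] at ca
    have := card_union_le (A ∩ (a +ᵥ H) + H1) (B ∩ (a +ᵥ H) + H1)
    rw [← e] at p1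
    omega
  obtain ⟨H2, d2, s2, t2, p2, q2, r2⟩ := key hA hB ih hC hCK hC0 hconv hmin' (u := b) (v := a)
    (w := a + b + x) (by simpa [add_comm b a] using hx) hw n2 n1
  rw [← hH] at t2 p2 q2
  have two : ∀ {H' X Y : Finset G}, Sg H' → H' ⊆ H →
      #(A ∪ B + H) + #(X + H') + #(Y + H') < #H + #(A ∪ B + H') → #X + #Y + #H' ≤ #H := by
    intro H' X Y s t p
    have := card_le_card (add_subset_add_left t : A ∪ B + H' ⊆ A ∪ B + H)
    have := card_le_card (s.subset_add X)
    have := card_le_card (s.subset_add Y)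
    have d := Nat.le_of_lt_add_of_dvd (a := #(X + H') + #(Y + H') + #H') (b := #H) (n := #H')
      (by omega) (dvd_add (dvd_add ((s.per_add X).card_dvd s) ((s.per_add Y).card_dvd s)) dvd_rfl)
      (Per.card_dvd s fun x hx k hk => sH.add hx (t hk))
    omega
  have u1 := two s1 t1 p1
  have u2 := two s2 t2 p2
  have hS : ∀ u : G, #H ≤ #((u +ᵥ H) \ (A ∪ B)) + #(A ∩ (u +ᵥ H)) + #(B ∩ (u +ᵥ H)) := by
    intro u
    have := card_sdiff_add_card_inter (u +ᵥ H) (A ∪ B)
    rw [card_vadd_finset, inter_comm, union_inter_distrib_right] at this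
    have := card_union_le (A ∩ (u +ᵥ H)) (B ∩ (u +ᵥ H))
    omega
  have hSa := hS a
  have hSb := hS b
  have hT : #(A ∪ B) + #((a +ᵥ H) \ (A ∪ B)) + #((b +ᵥ H) \ (A ∪ B)) ≤ #(A ∪ B + H) := by
    have c : ∀ u ∈ A ∪ B + H, (u +ᵥ H) \ (A ∪ B) ⊆ A ∪ B + H := fun u hu y hy => by
      simpa using sH.per_add _ u hu _ (sH.mem_coset.1 (mem_sdiff.1 hy).1)
    rw [add_assoc, ← card_union_of_disjoint (hab.mono sdiff_subset sdiff_subset),
      ← card_union_of_disjoint (disjoint_union_right.2 ⟨disjoint_sdiff, disjoint_sdiff⟩)]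
    exact card_le_card (union_subset (sH.subset_add _) (union_subset (c a haU) (c b hbU)))
  omega

theorem step {K A B : Finset G} (hA : Per K A) (hB : Per K B) (hK : st (A + B) = K)
    (ih : ∀ A' B' : Finset G, Per K A' → Per K B' → A'.Nonempty → B'.Nonempty →
      #(A' + B') + #A' < #(A + B) + #A → Kn A' B')
    (hA0 : A.Nonempty) (hB0 : B.Nonempty) : #A + #B ≤ #(A + B) + #K := by
  have sK : Sg K := hK ▸ sg_st _
  obtain ⟨a, ha⟩ := hA0
  by_cases h : A ⊆ a +ᵥ K
  · have := card_le_card h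
    have := card_le_card_add_left (t := B) ⟨a, ha⟩
    rw [card_vadd_finset] at *
    omega
  obtain ⟨a', ha', h⟩ := not_subset.1 h
  obtain ⟨b, hb, hb'⟩ : ∃ b ∈ B, b + (a' - a) ∉ B := by
    by_contra hc
    push Not at hc
    refine h (sK.mem_coset.2 (hK ▸ mem_st.2 fun c hc' => ?_))
    obtain ⟨x, hx, y, hy, rfl⟩ := mem_add.1 hc'
    exact add_assoc x y _ ▸ add_mem_add hx (hc y hy)
  have e : A + ((a - b) +ᵥ B) = (a - b) +ᵥ (A + B) := add_vadd_comm _ _ _
  have hm : ∀ (X : Finset G) y, y ∈ (a - b) +ᵥ X ↔ y - (a - b) ∈ X := fun X y => by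
    rw [← neg_vadd_mem_iff, vadd_eq_add, neg_add_eq_sub]
  have := step2 (B := (a - b) +ᵥ B) hA
    (fun x hx k hk => (hm _ _).2 (by convert hB _ ((hm _ _).1 hx) k hk using 1; abel))
    (by
      rw [e, ← hK]
      ext x
      simp only [mem_st, hm]
      exact ⟨fun h c hc => by simpa [add_right_comm] using h (c + (a - b)) (by simpa using hc),
        fun h c hc => by convert h _ hc using 1; abel⟩)
    (by rw [e, card_vadd_finset]; exact ih) ⟨a, mem_inter.2 ⟨ha, (hm _ _).2 (by simpa using hb)⟩⟩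
    fun hs => hb' (by convert (hm _ _).1 (hs ha') using 1; abel)
  rwa [e, card_vadd_finset, card_vadd_finset] at this

theorem aux (n : ℕ) : ∀ K : Finset G, Fintype.card G - #K < n → ∀ m, ∀ A B : Finset G,
    #(A + B) + #A < m → Per K A → Per K B → A.Nonempty → B.Nonempty → Kn A B := by
  induction n with
  | zero => simp
  | succ n ihn =>
    intro K hK m
    induction m with
    | zero => simp
    | succ m ihm =>
      intro A B hm hA hB hA0 hB0
      have s := sg_st (A + B)
      by_cases e : st (A + B) = K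
      · have := step hA hB e (fun A' B' h1 h2 h3 h4 h5 => ihm A' B' (by omega) h1 h2 h3 h4) hA0 hB0
        unfold Kn
        rwa [e, hA.add_eq (e ▸ s), hB.add_eq (e ▸ s)]
      · have h1 := card_lt_card (ssubset_of_ne_of_subset (Ne.symm e) (hA.add_right B).subset_st)
        have h2 := card_le_univ (st (A + B))
        have := ihn (st (A + B)) (by omega) _ _ _ (Nat.lt_succ_self _) (s.per_add A) (s.per_add B)
          (hA0.mono (s.subset_add _)) (hB0.mono (s.subset_add _))
        have e2 : A + st (A + B) + (B + st (A + B)) = A + B := by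
          rw [add_add_add_comm, ← add_assoc, add_st, add_st]
        unfold Kn at this ⊢
        rwa [e2, (s.per_add A).add_eq s, (s.per_add B).add_eq s] at this

/-- Kneser's theorem. -/
theorem kneser {A B : Finset G} (hA : A.Nonempty) (hB : B.Nonempty) :
    #(A + st (A + B)) + #(B + st (A + B)) ≤ #(A + B) + #(st (A + B)) :=
  aux _ ∅ (Nat.lt_succ_self _) _ A B (Nat.lt_succ_self _) (by simp [Per]) (by simp [Per]) hA hB

end Pool.Agent.H2.Kneser
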