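import Mathlib
import Pool.Agent.H2.Kneser

/-! Kneser's theorem for h-fold sumsets. -/

namespace Pool.Agent.H2.Kneser

open Finset Pointwise

variable {G : Type*} [AddCommGroup G] [DecidableEq G] [Fintype G]

theorem st_mono (X Y : Finset G) : st X ⊆ st (X + Y) := ((per_st X).add_right Y).subset_st

theorem Sg.nsmul_add {K : Finset G} (s : Sg K) (A : Finset G) (j : ℕ) :
    (j + 1) • (A + K) = (j + 1) • A + K := by
  have : ∀ j : ℕ, (j + 1) • K = K := fun j => by
    induction j with
    | zero => simp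
    | succ j ih => rw [succ_nsmul, ih]; exact Per.add_eq s fun x hx k hk => s.add hx hk
  rw [_root_.nsmul_add, this]

theorem kneser_nsmul {A : Finset G} (hA : A.Nonempty) (h : ℕ) :
    (h + 1) * #(A + st ((h + 1) • A)) ≤ #((h + 1) • A) + h * #(st ((h + 1) • A)) := by
  set H := st ((h + 1) • A) with hH
  have s : Sg H := sg_st _
  have e : (h + 1) • (A + H) = (h + 1) • A := by rw [s.nsmul_add, add_st]
  have hA' := hA.mono (s.subset_add A)
  have key : ∀ j ≤ h, (j + 1) * #(A + H) ≤ #((j + 1) • (A + H)) + j * #H := by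
    intro j hj
    induction j with
    | zero => simp
    | succ j ih =>
      have h1 := kneser (hA'.nsmul (n := j + 1)) hA'
      have p : ∀ i : ℕ, Per H ((i + 1) • (A + H)) := fun i => by
        rw [s.nsmul_add]; exact s.per_add _
      have h2 : st ((j + 1 + 1) • (A + H)) = H := by
        refine Subset.antisymm ?_ (p _).subset_st
        obtain ⟨i, rfl⟩ := Nat.exists_eq_add_of_le hj
        nth_rw 2 [hH]
        rw [← e, show j + 1 + i + 1 = j + 1 + 1 + i by ring, add_nsmul _ _ i]
        exact st_mono _ _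
      rw [← succ_nsmul, h2, (p j).add_eq s, (s.per_add A).add_eq s] at h1
      have := ih (by omega)
      nlinarith
  simpa [e] using key h le_rfl

/-- Numerical form: if the h-fold sumset is not everything. -/
theorem kneser_num {A : Finset G} (hA : A.Nonempty) (h : ℕ) (hne : (h + 1) • A ≠ univ) :
    ∃ d k : ℕ, Fintype.card G = d * #(st ((h + 1) • A)) ∧
      #(A + st ((h + 1) • A)) = k * #(st ((h + 1) • A)) ∧ 0 < k ∧ (h + 1) * k + 1 ≤ d + h := by
  have kn := kneser_nsmul hA h
  set H := st ((h + 1) • A) with hH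
  have s : Sg H := sg_st _
  obtain ⟨d, hd⟩ := Per.card_dvd s (fun x hx k hk => mem_univ _ : Per H univ)
  obtain ⟨k, hk⟩ := (s.per_add A).card_dvd s
  obtain ⟨c, hc⟩ := (per_st ((h + 1) • A)).card_dvd s
  have h1 := card_lt_card (ssubset_univ_iff.2 hne)
  have h2 := card_pos.2 (hA.mono (s.subset_add A))
  rw [card_univ] at hd h1
  rw [hd, hc] at h1
  have h3 := Nat.lt_of_mul_lt_mul_left h1
  refine ⟨d, k, by rw [hd, mul_comm], by rw [hk, mul_comm], Nat.pos_of_mul_pos_left (hk ▸ h2), ?_⟩
  rw [hk, hc] at kn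
  have : (h + 1) * k ≤ c + h := Nat.le_of_mul_le_mul_left (c := #H) (by nlinarith) s.pos
  omega

end Pool.Agent.H2.Kneser
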