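import Pool.Agent.H2.AcoT

set_option autoImplicit false

namespace Pool.Agent.H2.Aco

open Finset
open scoped ENNReal

instance : Infinite K := Infinite.of_injective (fun m : ℕ => (⟨m, fun _ => true⟩ : K))
  (fun a b h => congrArg Sigma.fst h)

/-- The unit vectors of the domain space, as elements of the subspace. -/
noncomputable def eX (n : I) : X W W_pos := ⟨e W W_pos n, e_mem W W_pos n⟩

lemma near_of_dense {A B : Type} [NormedAddCommGroup A] [NormedSpace ℝ A] [NormedAddCommGroup B]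
    [NormedSpace ℝ B] {s : Set (A →L[ℝ] B)} (hd : Dense s) (R : A →L[ℝ] B) :
    ∃ S ∈ s, ‖S - R‖ < 1 / 2 := by
  obtain ⟨S, h1, h2⟩ := Metric.dense_iff.mp hd R (1 / 2) (by norm_num)
  exact ⟨S, h2, mem_ball_iff_norm.mp h1⟩

theorem not_dense (F : ℕ → Type) [∀ n, NormedAddCommGroup (F n)] [∀ n, NormedSpace ℝ (F n)]
    [∀ n, Nontrivial (F n)] :
    ¬ Dense {S : X W W_pos →L[ℝ] lp F 1 | ∃ x : X W W_pos, ‖x‖ ≤ 1 ∧ ‖S x‖ = ‖S‖} := by
  classical
  intro hd
  obtain ⟨q⟩ : Nonempty (ℕ ≃ K) := nonempty_equiv_of_countable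
  have hu : ∀ k, ∃ u : F k, ‖u‖ = 1 := fun k => exists_norm_eq (F k) zero_le_one
  choose u hu using hu
  have hf : ∀ k, ∃ g : StrongDual ℝ (F k), ‖g‖ = 1 ∧ g (u k) = ‖u k‖ :=
    fun k => exists_dual_vector' ℝ (u k)
  choose f hf1 hf2 using hf
  have hfle : ∀ k (z : F k), |f k z| ≤ ‖z‖ := by
    intro k z
    have := (f k).le_opNorm z
    rwa [hf1, one_mul, Real.norm_eq_abs] at this
  obtain ⟨S, ⟨x, hx1, hx2⟩, hS⟩ := near_of_dense hd (T F u hu q)
  -- each unit vector has a large image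
  have hlarge : ∀ n : I, ∃ s : Finset ℕ, 1 / 2 ≤ ∑ k ∈ s, |f k ((S (eX n)) k)| := by
    rintro ⟨m, i⟩
    let s : Finset ℕ := (Finset.univ : Finset (Fin (4 ^ m) → Bool)).map
      ⟨fun σ => q.symm ⟨m, σ⟩, fun a b h => by simpa using h⟩
    refine ⟨s, ?_⟩
    have h1 : ∑ k ∈ s, |f k ((T F u hu q (eX ⟨m, i⟩)) k)| = 1 := by
      have h2 : ∀ k, |f k ((T F u hu q (eX ⟨m, i⟩)) k)|
          = |val (Pi.single (⟨m, i⟩ : I) (1:ℝ)) (q k)| := by
        intro k
        rw [T_apply, map_smul, hf2, hu]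
        simp only [eX, co_e, smul_eq_mul]
        simp
      simp only [h2, s, Finset.sum_map, Function.Embedding.coeFn_mk, Equiv.apply_symm_apply,
        val_single, Finset.sum_const, Finset.card_univ, Fintype.card_fun, Fintype.card_bool,
        Fintype.card_fin, nsmul_eq_mul]
      push_cast
      field_simp
    have h3 : ∑ k ∈ s, ‖((S - T F u hu q) (eX ⟨m, i⟩)) k‖ ≤ 1 / 2 := by
      refine le_trans (sum_le_norm F _ s) (le_trans ((S - T F u hu q).le_opNorm _) ?_)
      have h4 : ‖eX ⟨m, i⟩‖ ≤ 1 := norm_e W W_pos _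
      have h5 := (S - T F u hu q).opNorm_nonneg
      have h6 := norm_nonneg (eX ⟨m, i⟩)
      nlinarith
    have h7 : ∀ k, |f k ((T F u hu q (eX ⟨m, i⟩)) k)|
        ≤ |f k ((S (eX ⟨m, i⟩)) k)| + ‖((S - T F u hu q) (eX ⟨m, i⟩)) k‖ := by
      intro k
      have h8 : ((S - T F u hu q) (eX ⟨m, i⟩)) k
          = (S (eX ⟨m, i⟩)) k - (T F u hu q (eX ⟨m, i⟩)) k := rfl
      have h9 := hfle k (((S - T F u hu q) (eX ⟨m, i⟩)) k)
      rw [h8, map_sub] at h9
      rw [h8]
      have := abs_sub_abs_le_abs_sub (f k ((T F u hu q (eX ⟨m, i⟩)) k)) (f k ((S (eX ⟨m, i⟩)) k))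
      rw [abs_sub_comm] at this
      linarith
    have h10 := Finset.sum_le_sum fun k (_ : k ∈ s) => h7 k
    rw [Finset.sum_add_distrib] at h10
    linarith
  choose s hs using hlarge
  obtain ⟨G, hG, hc⟩ := key W W_pos W_div x.2 hx1 (4 * ‖S‖ + 1)
  -- coordinatewise bound
  have hcoord : ∀ k, ∑ n ∈ G, W n / 2 * |f k ((S (eX n)) k)| ≤ ‖(S x) k‖ := by
    intro k
    let c : I → ℝ := fun n => if 0 ≤ f k ((S (eX n)) k) then 1 / 2 else -(1 / 2)
    have hc1 : ∀ n, |c n| ≤ 1 / 2 := by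
      intro n
      simp only [c]
      split_ifs
      · rw [abs_of_pos (by norm_num)]
      · rw [abs_neg, abs_of_pos (by norm_num)]
    let z : X W W_pos := ∑ n ∈ G, (c n * W n) • eX n
    have hz : (z : E I) = ∑ n ∈ G, (c n * W n) • e W W_pos n := by
      simp only [z, eX, Submodule.coe_sum, Submodule.coe_smul]
    have hp : ‖x + z‖ ≤ 1 := by
      have := hc c hc1
      rw [← hz] at this
      exact this
    have hm : ‖x - z‖ ≤ 1 := by
      have := hc (fun n => - c n) (fun n => by rw [abs_neg]; exact hc1 n)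
      simp only [neg_mul, neg_smul, Finset.sum_neg_distrib] at this
      rw [← hz, ← sub_eq_add_neg] at this
      exact this
    have h1 : ‖S x + S z‖ ≤ ‖S x‖ := by
      rw [← map_add, hx2]
      exact le_trans (S.le_opNorm _) (mul_le_of_le_one_right S.opNorm_nonneg hp)
    have h2 : ‖S x - S z‖ ≤ ‖S x‖ := by
      rw [← map_sub, hx2]
      exact le_trans (S.le_opNorm _) (mul_le_of_le_one_right S.opNorm_nonneg hm)
    have h3 := face F (S x) (S z) h1 h2 k
    refine le_trans ?_ h3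
    refine le_trans ?_ (le_trans (le_abs_self _) (hfle k _))
    have h4 : (S z) k = ∑ n ∈ G, (c n * W n) • (S (eX n)) k := by
      have h5 : S z = ∑ n ∈ G, (c n * W n) • S (eX n) := by
        simp only [z, map_sum, map_smul]
      rw [h5, lp.coeFn_sum, Finset.sum_apply]
      rfl
    rw [h4, map_sum]
    refine le_of_eq (Finset.sum_congr rfl fun n _ => ?_)
    rw [map_smul, smul_eq_mul]
    simp only [c]
    split_ifs with h
    · rw [abs_of_nonneg h]; ring
    · rw [abs_of_neg (not_le.mp h)]; ring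
  let U : Finset ℕ := G.biUnion s
  have h1 : ∑ k ∈ U, ∑ n ∈ G, W n / 2 * |f k ((S (eX n)) k)| ≤ ‖S‖ := by
    rw [← hx2]
    exact le_trans (Finset.sum_le_sum fun k _ => hcoord k) (sum_le_norm F _ U)
  rw [Finset.sum_comm] at h1
  have h2 : ∑ n ∈ G, W n / 4 ≤ ∑ n ∈ G, ∑ k ∈ U, W n / 2 * |f k ((S (eX n)) k)| := by
    refine Finset.sum_le_sum fun n hn => ?_
    rw [← Finset.mul_sum]
    have h3 : ∑ k ∈ s n, |f k ((S (eX n)) k)| ≤ ∑ k ∈ U, |f k ((S (eX n)) k)| :=
      Finset.sum_le_sum_of_subset_of_nonneg (Finset.subset_biUnion_of_mem s hn)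
        fun _ _ _ => abs_nonneg _
    have h4 := hs n
    have h5 := W_pos n
    nlinarith
  rw [← Finset.sum_div] at h2
  linarith

end Pool.Agent.H2.Aco
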