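import Pool.Agent.H2.AcoX

set_option autoImplicit false

namespace Pool.Agent.H2.Aco

open Finset
open scoped ENNReal

def sg (b : Bool) : ℝ := if b then 1 else -1

lemma sg_not (b : Bool) : sg (!b) = - sg b := by cases b <;> simp [sg]

lemma sg_sq (b : Bool) : sg b * sg b = 1 := by cases b <;> simp [sg]

lemma abs_sg (b : Bool) : |sg b| = 1 := by cases b <;> simp [sg]

lemma orth {N : ℕ} {i j : Fin N} (hij : i ≠ j) :
    ∑ σ : Fin N → Bool, sg (σ i) * sg (σ j) = 0 := by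
  refine Finset.sum_involution (fun σ _ => Function.update σ i (!σ i)) ?_ ?_ ?_ ?_
  · intro σ _
    simp only [Function.update_self, Function.update_of_ne hij.symm, sg_not]
    ring
  · intro σ _ _ h
    have := congrFun h i
    simp at this
  · intro σ _
    exact Finset.mem_univ _
  · intro σ _
    funext k
    by_cases hk : k = i
    · subst hk; simp
    · simp [Function.update_of_ne hk]

lemma rad {N : ℕ} (b : Fin N → ℝ) :
    ∑ σ : Fin N → Bool, (∑ i, b i * sg (σ i)) ^ 2 = 2 ^ N * ∑ i, b i ^ 2 := by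
  have h1 : ∀ σ : Fin N → Bool, (∑ i, b i * sg (σ i)) ^ 2
      = ∑ i, ∑ j, b i * b j * (sg (σ i) * sg (σ j)) := by
    intro σ
    rw [sq, Finset.sum_mul_sum]
    refine Finset.sum_congr rfl fun i _ => Finset.sum_congr rfl fun j _ => by ring
  simp only [h1]
  rw [Finset.sum_comm, Finset.mul_sum]
  refine Finset.sum_congr rfl fun i _ => ?_
  rw [Finset.sum_comm, Finset.sum_eq_single i]
  · simp only [sg_sq, mul_one, Finset.sum_const, Finset.card_univ, Fintype.card_fun,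
      Fintype.card_bool, Fintype.card_fin, nsmul_eq_mul]
    push_cast
    ring
  · intro j _ hj
    rw [← Finset.mul_sum, orth hj.symm, mul_zero]
  · intro h; exact absurd (Finset.mem_univ _) h

lemma rad_abs {N : ℕ} (b : Fin N → ℝ) {r : ℝ} (hr : 0 ≤ r) (hb : ∑ i, b i ^ 2 ≤ r ^ 2) :
    ∑ σ : Fin N → Bool, |∑ i, b i * sg (σ i)| ≤ 2 ^ N * r := by
  have h1 := sq_sum_le_card_mul_sum_sq (s := (Finset.univ : Finset (Fin N → Bool)))
    (f := fun σ => |∑ i, b i * sg (σ i)|)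
  simp only [sq_abs, rad, Finset.card_univ, Fintype.card_fun, Fintype.card_bool,
    Fintype.card_fin] at h1
  push_cast at h1
  have h2 : (0:ℝ) < 2 ^ N := by positivity
  refine abs_le_of_sq_le_sq' ?_ (by positivity) |>.2
  calc _ ≤ 2 ^ N * (2 ^ N * ∑ i, b i ^ 2) := h1
    _ ≤ 2 ^ N * (2 ^ N * r ^ 2) := by gcongr
    _ = (2 ^ N * r) ^ 2 := by ring

abbrev I : Type := Σ m : ℕ, Fin (4 ^ m)

abbrev K : Type := Σ m : ℕ, (Fin (4 ^ m) → Bool)

noncomputable def W (n : I) : ℝ := 1 / 4 ^ n.1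

lemma W_pos (n : I) : 0 < W n := by unfold W; positivity

lemma W_div (M : ℝ) : ∃ F : Finset I, M ≤ ∑ n ∈ F, W n := by
  obtain ⟨N, hN⟩ := exists_nat_ge M
  refine ⟨(Finset.range N).sigma (fun _ => Finset.univ), ?_⟩
  rw [Finset.sum_sigma]
  have : ∀ m ∈ Finset.range N, ∑ i : Fin (4 ^ m), W ⟨m, i⟩ = 1 := by
    intro m _
    simp only [W, Finset.sum_const, Finset.card_univ, Fintype.card_fin, nsmul_eq_mul]
    push_cast
    field_simp
  rw [Finset.sum_congr rfl this]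
  simpa using hN

noncomputable def val (ξ : I → ℝ) (κ : K) : ℝ :=
  (∑ i, ξ ⟨κ.1, i⟩ * sg (κ.2 i)) / 2 ^ (4 ^ κ.1)

lemma val_block (a b : I → ℝ) {t : ℝ} (ht : 0 ≤ t) (hb : ∀ n, |b n| ≤ t * W n) (m : ℕ) :
    ∑ σ : Fin (4 ^ m) → Bool, |val (fun n => a n + b n) ⟨m, σ⟩|
      ≤ ∑ i : Fin (4 ^ m), |a ⟨m, i⟩| + t * (1 / 2) ^ m := by
  have hp : (0:ℝ) < 2 ^ (4 ^ m) := by positivity
  have h1 : ∀ σ : Fin (4 ^ m) → Bool, |val (fun n => a n + b n) ⟨m, σ⟩|
      ≤ (∑ i : Fin (4 ^ m), |a ⟨m, i⟩| + |∑ i, b ⟨m, i⟩ * sg (σ i)|) / 2 ^ (4 ^ m) := by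
    intro σ
    unfold val
    rw [abs_div, abs_of_pos hp]
    refine div_le_div_of_nonneg_right ?_ hp.le
    simp only [add_mul, Finset.sum_add_distrib]
    refine le_trans (abs_add_le _ _) (add_le_add ?_ le_rfl)
    refine le_trans (Finset.abs_sum_le_sum_abs _ _) (le_of_eq ?_)
    refine Finset.sum_congr rfl fun i _ => ?_
    rw [abs_mul, abs_sg, mul_one]
  have h2 : ∑ i : Fin (4 ^ m), b ⟨m, i⟩ ^ 2 ≤ (t * (1 / 2) ^ m) ^ 2 := by
    have h3 : ∀ i : Fin (4 ^ m), b ⟨m, i⟩ ^ 2 ≤ (t * (1 / 4 ^ m)) ^ 2 := by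
      intro i
      have := hb ⟨m, i⟩
      rw [← sq_abs]
      exact pow_le_pow_left₀ (abs_nonneg _) this 2
    refine le_trans (Finset.sum_le_sum fun i _ => h3 i) (le_of_eq ?_)
    simp only [Finset.sum_const, Finset.card_univ, Fintype.card_fin, nsmul_eq_mul]
    push_cast
    have h4 : (4:ℝ) ^ m = 2 ^ m * 2 ^ m := by rw [← mul_pow]; norm_num
    rw [one_div_pow, h4]
    field_simp
  have h5 := rad_abs (fun i => b ⟨m, i⟩) (by positivity) h2
  refine le_trans (Finset.sum_le_sum fun σ _ => h1 σ) ?_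
  rw [← Finset.sum_div, div_le_iff₀ hp, Finset.sum_add_distrib]
  simp only [Finset.sum_const, Finset.card_univ, Fintype.card_fun, Fintype.card_bool,
    Fintype.card_fin, nsmul_eq_mul]
  push_cast
  linarith

lemma val_bound (a b : I → ℝ) {t : ℝ} (ht : 0 ≤ t) (hb : ∀ n, |b n| ≤ t * W n)
    (ha : ∀ F : Finset I, ∑ n ∈ F, |a n| ≤ t) (s : Finset K) :
    ∑ κ ∈ s, |val (fun n => a n + b n) κ| ≤ 3 * t := by
  classical
  set M := s.sup (fun κ => κ.1) + 1 with hM
  have hsub : s ⊆ (Finset.range M).sigma (fun _ => Finset.univ) := by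
    intro κ hκ
    rw [Finset.mem_sigma]
    refine ⟨Finset.mem_range.mpr ?_, Finset.mem_univ _⟩
    have := Finset.le_sup (f := fun κ : K => κ.1) hκ
    simp only [hM]
    omega
  refine le_trans (Finset.sum_le_sum_of_subset_of_nonneg hsub fun _ _ _ => abs_nonneg _) ?_
  rw [Finset.sum_sigma]
  refine le_trans (Finset.sum_le_sum fun m _ => val_block a b ht hb m) ?_
  rw [Finset.sum_add_distrib, ← Finset.mul_sum]
  have h1 := ha ((Finset.range M).sigma (fun _ => Finset.univ))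
  rw [Finset.sum_sigma] at h1
  have h2 := sum_geometric_two_le M
  nlinarith

lemma val_co {x : E I} (hx : x ∈ X W W_pos) (s : Finset K) :
    ∑ κ ∈ s, |val (fun n => co W n x) κ| ≤ 3 * ‖x‖ := by
  obtain ⟨a, b, hab, hb, ha⟩ := split W W_pos hx
  simp only [hab]
  exact val_bound a b (norm_nonneg _) hb ha s

lemma val_add (ξ η : I → ℝ) (κ : K) : val (fun n => ξ n + η n) κ = val ξ κ + val η κ := by
  simp only [val, add_mul, Finset.sum_add_distrib, add_div]

lemma val_smul (c : ℝ) (ξ : I → ℝ) (κ : K) : val (fun n => c * ξ n) κ = c * val ξ κ := by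
  simp only [val, mul_assoc, ← Finset.mul_sum, mul_div_assoc]

lemma val_single (m : ℕ) (i : Fin (4 ^ m)) (σ : Fin (4 ^ m) → Bool) :
    |val (Pi.single (⟨m, i⟩ : I) (1:ℝ)) ⟨m, σ⟩| = 1 / 2 ^ (4 ^ m) := by
  unfold val
  rw [abs_div, abs_of_pos (by positivity : (0:ℝ) < 2 ^ (4 ^ m))]
  congr 1
  rw [Finset.sum_eq_single i]
  · simp [abs_sg]
  · intro j _ hj
    have : (⟨m, j⟩ : I) ≠ ⟨m, i⟩ := by
      intro h
      apply hj
      simpa using h
    simp [Pi.single_apply, this]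
  · intro h; exact absurd (Finset.mem_univ _) h

section Op

variable (F : ℕ → Type) [∀ n, NormedAddCommGroup (F n)] [∀ n, NormedSpace ℝ (F n)]

lemma sum_le_norm (y : lp F 1) (s : Finset ℕ) : ∑ k ∈ s, ‖y k‖ ≤ ‖y‖ := by
  have := lp.sum_rpow_le_norm_rpow (p := 1) (by simp) y s
  simpa using this

lemma sum_eqv (q : ℕ ≃ K) (g : K → ℝ) (s : Finset ℕ) :
    ∑ k ∈ s, g (q k) = ∑ κ ∈ s.map q.toEmbedding, g κ := by
  rw [Finset.sum_map]
  rfl

lemma T_sum (u : ∀ k, F k) (hu : ∀ k, ‖u k‖ = 1) (q : ℕ ≃ K) (x : X W W_pos) (s : Finset ℕ) :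
    ∑ k ∈ s, ‖val (fun n => co W n x.1) (q k) • u k‖ ^ (1 : ℝ≥0∞).toReal ≤ 3 * ‖x‖ := by
  simp only [ENNReal.toReal_one, Real.rpow_one, norm_smul, hu, mul_one, Real.norm_eq_abs]
  rw [sum_eqv q (fun κ => |val (fun n => co W n x.1) κ|)]
  exact val_co x.2 _

noncomputable def Tlin (u : ∀ k, F k) (hu : ∀ k, ‖u k‖ = 1) (q : ℕ ≃ K) :
    X W W_pos →ₗ[ℝ] lp F 1 where
  toFun x := ⟨fun k => val (fun n => co W n x.1) (q k) • u k, memℓp_gen' (T_sum F u hu q x)⟩
  map_add' x y := by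
    apply lp.ext
    funext k
    show val (fun n => co W n (x.1 + y.1)) (q k) • u k
      = val (fun n => co W n x.1) (q k) • u k + val (fun n => co W n y.1) (q k) • u k
    simp only [map_add, val_add, add_smul]
  map_smul' c x := by
    apply lp.ext
    funext k
    show val (fun n => co W n (c • x.1)) (q k) • u k
      = c • (val (fun n => co W n x.1) (q k) • u k)
    simp only [map_smul, smul_eq_mul, val_smul, mul_smul]

noncomputable def T (u : ∀ k, F k) (hu : ∀ k, ‖u k‖ = 1) (q : ℕ ≃ K) :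
    X W W_pos →L[ℝ] lp F 1 :=
  (Tlin F u hu q).mkContinuous 3 fun x => by
    refine lp.norm_le_of_forall_sum_le (by simp) (by positivity) fun s => ?_
    have := T_sum F u hu q x s
    simp only [ENNReal.toReal_one, Real.rpow_one] at this ⊢
    exact this

lemma T_apply (u : ∀ k, F k) (hu : ∀ k, ‖u k‖ = 1) (q : ℕ ≃ K) (x : X W W_pos) (k : ℕ) :
    (T F u hu q x) k = val (fun n => co W n x.1) (q k) • u k := rfl

/-- In a sum of spaces with the summable norm, a segment inside a sphere is small coordinatewise. -/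
lemma face (y v : lp F 1) (h1 : ‖y + v‖ ≤ ‖y‖) (h2 : ‖y - v‖ ≤ ‖y‖) (k : ℕ) : ‖v k‖ ≤ ‖y k‖ := by
  have hs : ∀ z : lp F 1, HasSum (fun k => ‖z k‖) ‖z‖ := by
    intro z
    have := lp.hasSum_norm (p := 1) (by simp) z
    simpa using this
  have h3 : HasSum (fun k => ‖(y + v) k‖ + ‖(y - v) k‖ - 2 * ‖y k‖)
      (‖y + v‖ + ‖y - v‖ - 2 * ‖y‖) := ((hs _).add (hs _)).sub ((hs y).mul_left 2)
  have h4 : ∀ k, 0 ≤ ‖(y + v) k‖ + ‖(y - v) k‖ - 2 * ‖y k‖ := by
    intro k
    have h5 : (y + v) k + (y - v) k = (2:ℝ) • y k := by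
      show (y k + v k) + (y k - v k) = _
      rw [two_smul]; abel
    have h6 := norm_add_le ((y + v) k) ((y - v) k)
    rw [h5, norm_smul] at h6
    simp only [Real.norm_ofNat] at h6
    linarith
  have h7 := le_hasSum h3 k fun j _ => h4 j
  have h8 : (y + v) k - (y - v) k = (2:ℝ) • v k := by
    show (y k + v k) - (y k - v k) = _
    rw [two_smul]; abel
  have h9 := norm_sub_le ((y + v) k) ((y - v) k)
  rw [h8, norm_smul] at h9
  simp only [Real.norm_ofNat] at h9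
  linarith

end Op

end Pool.Agent.H2.Aco
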