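import Mathlib

set_option autoImplicit false

namespace Pool.Agent.H2.Aco

open Finset
open scoped ENNReal

variable {ι : Type} [DecidableEq ι]

/-- Test pairs: a finite set of indices and a choice of coefficients in the unit interval. -/
def J (ι : Type) : Type := {p : Finset ι × (ι → ℝ) // ∀ i, |p.2 i| ≤ 1}

abbrev E (ι : Type) := lp (fun _ : J ι => ℝ) ∞

noncomputable def phi (w ξ : ι → ℝ) (p : J ι) : ℝ :=
  (∑ n ∈ p.1.1, p.1.2 n * ξ n) / (1 + ∑ n ∈ p.1.1, w n)

omit [DecidableEq ι] in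
lemma den_ge (w : ι → ℝ) (hw : ∀ n, 0 < w n) (F : Finset ι) : 1 ≤ 1 + ∑ n ∈ F, w n := by
  have : 0 ≤ ∑ n ∈ F, w n := Finset.sum_nonneg fun n _ => (hw n).le
  linarith

lemma abs_phi_single (w : ι → ℝ) (hw : ∀ n, 0 < w n) (m : ι) (p : J ι) :
    |phi w (Pi.single m 1) p| ≤ 1 := by
  unfold phi
  have hd := den_ge w hw p.1.1
  rw [abs_div, abs_of_pos (by linarith : (0:ℝ) < 1 + ∑ n ∈ p.1.1, w n), div_le_one (by linarith)]
  refine le_trans ?_ hd
  have : ∑ n ∈ p.1.1, p.1.2 n * (Pi.single m (1:ℝ) : ι → ℝ) n = if m ∈ p.1.1 then p.1.2 m else 0 := by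
    simp [Pi.single_apply]
  rw [this]
  split_ifs
  · exact p.2 m
  · simp

noncomputable def e (w : ι → ℝ) (hw : ∀ n, 0 < w n) (m : ι) : E ι :=
  ⟨phi w (Pi.single m 1), memℓp_infty ⟨1, by
    rintro _ ⟨p, rfl⟩
    exact abs_phi_single w hw m p⟩⟩

lemma e_apply (w : ι → ℝ) (hw : ∀ n, 0 < w n) (m : ι) (p : J ι) :
    (e w hw m) p = phi w (Pi.single m 1) p := rfl

lemma norm_e (w : ι → ℝ) (hw : ∀ n, 0 < w n) (m : ι) : ‖e w hw m‖ ≤ 1 :=
  lp.norm_le_of_forall_le zero_le_one fun p => abs_phi_single w hw m p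

noncomputable def X (w : ι → ℝ) (hw : ∀ n, 0 < w n) : Submodule ℝ (E ι) :=
  (Submodule.span ℝ (Set.range (e w hw))).topologicalClosure

instance (w : ι → ℝ) (hw : ∀ n, 0 < w n) : CompleteSpace (X w hw) :=
  (Submodule.isClosed_topologicalClosure _).completeSpace_coe

lemma e_mem (w : ι → ℝ) (hw : ∀ n, 0 < w n) (m : ι) : e w hw m ∈ X w hw :=
  Submodule.le_topologicalClosure _ (Submodule.subset_span ⟨m, rfl⟩)

def pt (n : ι) : J ι := ⟨({n}, fun _ => 1), by simp⟩

noncomputable def ev (p : J ι) : E ι →L[ℝ] ℝ := lp.evalCLM ℝ (fun _ : J ι => ℝ) ∞ p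

omit [DecidableEq ι] in
lemma ev_apply (p : J ι) (x : E ι) : ev p x = x p := rfl

noncomputable def co (w : ι → ℝ) (n : ι) : E ι →L[ℝ] ℝ := (1 + w n) • ev (pt n)

lemma co_e (w : ι → ℝ) (hw : ∀ n, 0 < w n) (m n : ι) :
    co w n (e w hw m) = (Pi.single m (1:ℝ) : ι → ℝ) n := by
  have h1 : (1 + w n) ≠ 0 := by have := hw n; linarith
  simp only [co, ContinuousLinearMap.smul_apply, ev_apply, e_apply, phi, pt, smul_eq_mul,
    Finset.sum_singleton, one_mul]
  field_simp

lemma rel (w : ι → ℝ) (hw : ∀ n, 0 < w n) {x : E ι} (hx : x ∈ X w hw) (p : J ι) :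
    x p = phi w (fun n => co w n x) p := by
  let L : E ι →L[ℝ] ℝ := ev p - (1 / (1 + ∑ n ∈ p.1.1, w n)) • ∑ n ∈ p.1.1, p.1.2 n • co w n
  have hL : ∀ y : E ι, L y = y p - phi w (fun n => co w n y) p := by
    intro y
    simp only [L, ContinuousLinearMap.sub_apply, ContinuousLinearMap.smul_apply, ev_apply,
      ContinuousLinearMap.sum_apply, smul_eq_mul, phi]
    ring
  have hle : X w hw ≤ LinearMap.ker (L : E ι →ₗ[ℝ] ℝ) := by
    apply Submodule.topologicalClosure_minimal
    · rw [Submodule.span_le]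
      rintro _ ⟨m, rfl⟩
      show L (e w hw m) = 0
      rw [hL, e_apply]
      simp only [co_e, sub_self]
    · exact ContinuousLinearMap.isClosed_ker L
  have := hle hx
  have h2 : L x = 0 := this
  rw [hL] at h2
  linarith

lemma norm_le (w : ι → ℝ) (hw : ∀ n, 0 < w n) {x : E ι} (hx : x ∈ X w hw) {t : ℝ} (ht : 0 ≤ t)
    (h : ∀ F : Finset ι, ∑ n ∈ F, |co w n x| ≤ t * (1 + ∑ n ∈ F, w n)) : ‖x‖ ≤ t := by
  refine lp.norm_le_of_forall_le ht fun p => ?_
  rw [rel w hw hx p, Real.norm_eq_abs]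
  unfold phi
  have hd := den_ge w hw p.1.1
  rw [abs_div, abs_of_pos (by linarith : (0:ℝ) < 1 + ∑ n ∈ p.1.1, w n), div_le_iff₀ (by linarith)]
  refine le_trans (Finset.abs_sum_le_sum_abs _ _) (le_trans ?_ (h p.1.1))
  refine Finset.sum_le_sum fun n _ => ?_
  rw [abs_mul]
  exact mul_le_of_le_one_left (abs_nonneg _) (p.2 n)

lemma le_norm (w : ι → ℝ) (hw : ∀ n, 0 < w n) {x : E ι} (hx : x ∈ X w hw) (F : Finset ι) :
    ∑ n ∈ F, |co w n x| ≤ ‖x‖ * (1 + ∑ n ∈ F, w n) := by
  let p : J ι := ⟨(F, fun n => if 0 ≤ co w n x then 1 else -1), fun n => by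
    dsimp only
    split_ifs <;> simp⟩
  have h1 : ‖x p‖ ≤ ‖x‖ := lp.norm_apply_le_norm (by simp) x p
  rw [rel w hw hx p, Real.norm_eq_abs] at h1
  have hd := den_ge w hw F
  have h2 : phi w (fun n => co w n x) p = (∑ n ∈ F, |co w n x|) / (1 + ∑ n ∈ F, w n) := by
    unfold phi
    congr 1
    refine Finset.sum_congr rfl fun n _ => ?_
    show (if 0 ≤ co w n x then (1:ℝ) else -1) * co w n x = _
    split_ifs with h
    · rw [abs_of_nonneg h, one_mul]
    · rw [abs_of_neg (not_le.mp h)]; ring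
  rw [h2] at h1
  have h3 := le_trans (le_abs_self _) h1
  rwa [div_le_iff₀ (by linarith)] at h3

lemma span_fin (w : ι → ℝ) (hw : ∀ n, 0 < w n) {y : E ι}
    (hy : y ∈ Submodule.span ℝ (Set.range (e w hw))) :
    ∃ G : Finset ι, ∀ n, n ∉ G → co w n y = 0 := by
  induction hy using Submodule.span_induction with
  | mem x hx =>
    obtain ⟨m, rfl⟩ := hx
    refine ⟨{m}, fun n hn => ?_⟩
    rw [co_e]
    have : n ≠ m := by simpa using hn
    simp [Pi.single_apply, this]
  | zero => exact ⟨∅, fun n _ => map_zero _⟩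
  | add x y _ _ hx hy =>
    obtain ⟨G, hG⟩ := hx
    obtain ⟨H, hH⟩ := hy
    refine ⟨G ∪ H, fun n hn => ?_⟩
    rw [Finset.mem_union, not_or] at hn
    rw [map_add, hG n hn.1, hH n hn.2, add_zero]
  | smul a x _ hx =>
    obtain ⟨G, hG⟩ := hx
    refine ⟨G, fun n hn => ?_⟩
    rw [map_smul, hG n hn, smul_zero]

lemma tail (w : ι → ℝ) (hw : ∀ n, 0 < w n) {x : E ι} (hx : x ∈ X w hw) :
    ∃ G : Finset ι, ∀ F : Finset ι, Disjoint F G →
      ∑ n ∈ F, |co w n x| ≤ (1 / 4) * (1 + ∑ n ∈ F, w n) := by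
  have hx' : x ∈ closure (Submodule.span ℝ (Set.range (e w hw)) : Set (E ι)) := hx
  obtain ⟨y, hy, hxy⟩ := Metric.mem_closure_iff.mp hx' (1 / 4) (by norm_num)
  obtain ⟨G, hG⟩ := span_fin w hw hy
  refine ⟨G, fun F hF => ?_⟩
  have hmem : x - y ∈ X w hw := (X w hw).sub_mem hx (Submodule.le_topologicalClosure _ hy)
  have h1 := le_norm w hw hmem F
  have h2 : ∑ n ∈ F, |co w n x| = ∑ n ∈ F, |co w n (x - y)| := by
    refine Finset.sum_congr rfl fun n hn => ?_
    rw [map_sub, hG n (Finset.disjoint_left.mp hF hn), sub_zero]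
  rw [h2]
  refine le_trans h1 (mul_le_mul_of_nonneg_right ?_ ?_)
  · rw [dist_eq_norm] at hxy; exact hxy.le
  · have := den_ge w hw F; linarith

/-- Each point of the unit ball can be moved freely in a set of directions of infinite weight. -/
lemma key (w : ι → ℝ) (hw : ∀ n, 0 < w n) (hdiv : ∀ M : ℝ, ∃ F : Finset ι, M ≤ ∑ n ∈ F, w n)
    {x : E ι} (hx : x ∈ X w hw) (hx1 : ‖x‖ ≤ 1) (M : ℝ) :
    ∃ F : Finset ι, M ≤ ∑ n ∈ F, w n ∧ ∀ c : ι → ℝ, (∀ n, |c n| ≤ 1 / 2) →
      ‖x + ∑ n ∈ F, (c n * w n) • e w hw n‖ ≤ 1 := by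
  classical
  obtain ⟨G, hG⟩ := tail w hw hx
  obtain ⟨F₀, hF₀⟩ := hdiv (M + 1 + ∑ n ∈ G, w n)
  refine ⟨F₀.filter (fun n => |co w n x| ≤ w n / 2), ?_, fun c hc => ?_⟩
  · -- weight of the bad part is at most 1 + w(G)
    set A := F₀.filter (fun n => ¬ |co w n x| ≤ w n / 2) with hA
    have hsplit := Finset.sum_filter_add_sum_filter_not F₀ (fun n => |co w n x| ≤ w n / 2) w
    have h1 := hG (A \ G) Finset.sdiff_disjoint
    have h2 : ∑ n ∈ A \ G, w n / 2 ≤ ∑ n ∈ A \ G, |co w n x| := by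
      refine Finset.sum_le_sum fun n hn => ?_
      have := (Finset.mem_filter.mp (Finset.mem_sdiff.mp hn).1).2
      exact (not_le.mp this).le
    rw [← Finset.sum_div] at h2
    have h3 : ∑ n ∈ A, w n ≤ ∑ n ∈ A \ G, w n + ∑ n ∈ G, w n := by
      rw [← Finset.sum_union Finset.sdiff_disjoint]
      refine Finset.sum_le_sum_of_subset_of_nonneg ?_ fun n _ _ => (hw n).le
      intro n hn
      by_cases h : n ∈ G
      · exact Finset.mem_union_right _ h
      · exact Finset.mem_union_left _ (Finset.mem_sdiff.mpr ⟨hn, h⟩)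
    linarith
  · set F := F₀.filter (fun n => |co w n x| ≤ w n / 2) with hF
    have hmem : x + ∑ n ∈ F, (c n * w n) • e w hw n ∈ X w hw :=
      (X w hw).add_mem hx (Submodule.sum_mem _ fun n _ => Submodule.smul_mem _ _ (e_mem w hw n))
    refine norm_le w hw hmem zero_le_one fun H => ?_
    have hco : ∀ n, co w n (x + ∑ m ∈ F, (c m * w m) • e w hw m)
        = co w n x + if n ∈ F then c n * w n else 0 := by
      intro n
      rw [map_add, map_sum]
      simp only [map_smul, co_e, smul_eq_mul]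
      simp [Pi.single_apply]
    have hsplit := Finset.sum_filter_add_sum_filter_not H (fun n => n ∈ F) w
    rw [← Finset.sum_filter_add_sum_filter_not H (fun n => n ∈ F)]
    have h1 : ∑ n ∈ H.filter (fun n => n ∈ F), |co w n (x + ∑ m ∈ F, (c m * w m) • e w hw m)|
        ≤ ∑ n ∈ H.filter (fun n => n ∈ F), w n := by
      refine Finset.sum_le_sum fun n hn => ?_
      have hn' := (Finset.mem_filter.mp hn).2
      rw [hco, if_pos hn']
      have h4 := (Finset.mem_filter.mp hn').2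
      have h5 : |c n * w n| ≤ w n / 2 := by
        rw [abs_mul, abs_of_pos (hw n)]
        have := hc n
        have := hw n
        nlinarith
      have := abs_add_le (co w n x) (c n * w n)
      linarith
    have h2 : ∑ n ∈ H.filter (fun n => ¬ n ∈ F), |co w n (x + ∑ m ∈ F, (c m * w m) • e w hw m)|
        ≤ 1 + ∑ n ∈ H.filter (fun n => ¬ n ∈ F), w n := by
      have h6 := le_norm w hw hx (H.filter (fun n => ¬ n ∈ F))
      have h7 := den_ge w hw (H.filter (fun n => ¬ n ∈ F))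
      have h8 : ∑ n ∈ H.filter (fun n => ¬ n ∈ F), |co w n (x + ∑ m ∈ F, (c m * w m) • e w hw m)|
          = ∑ n ∈ H.filter (fun n => ¬ n ∈ F), |co w n x| := by
        refine Finset.sum_congr rfl fun n hn => ?_
        rw [hco, if_neg (Finset.mem_filter.mp hn).2, add_zero]
      rw [h8]
      nlinarith
    linarith

/-- Splitting of the coordinates into an absolutely summable part and a part below the weights. -/
lemma split (w : ι → ℝ) (hw : ∀ n, 0 < w n) {x : E ι} (hx : x ∈ X w hw) :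
    ∃ a b : ι → ℝ, (∀ n, co w n x = a n + b n) ∧ (∀ n, |b n| ≤ ‖x‖ * w n) ∧
      ∀ F : Finset ι, ∑ n ∈ F, |a n| ≤ ‖x‖ := by
  classical
  let b : ι → ℝ := fun n => max (-(‖x‖ * w n)) (min (‖x‖ * w n) (co w n x))
  have hnn : ∀ n, 0 ≤ ‖x‖ * w n := fun n => mul_nonneg (norm_nonneg _) (hw n).le
  refine ⟨fun n => co w n x - b n, b, fun n => by ring, fun n => ?_, fun F => ?_⟩
  · rw [abs_le]
    refine ⟨le_max_left _ _, max_le (by have := hnn n; linarith) (min_le_left _ _)⟩
  · set A := F.filter (fun n => ‖x‖ * w n < |co w n x|) with hA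
    have h1 : ∑ n ∈ F, |co w n x - b n| = ∑ n ∈ A, (|co w n x| - ‖x‖ * w n) := by
      rw [hA, Finset.sum_filter]
      refine Finset.sum_congr rfl fun n _ => ?_
      have h0 := hnn n
      split_ifs with h
      · rcases le_total 0 (co w n x) with h2 | h2
        · rw [abs_of_nonneg h2] at h ⊢
          have : b n = ‖x‖ * w n := by
            simp only [b]
            rw [min_eq_left h.le, max_eq_right (by linarith)]
          rw [this, abs_of_nonneg (by linarith)]
        · rw [abs_of_nonpos h2] at h ⊢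
          have : b n = -(‖x‖ * w n) := by
            simp only [b]
            rw [min_eq_right (by linarith), max_eq_left (by linarith)]
          rw [this, abs_of_nonpos (by linarith)]
          ring
      · have h2 := abs_le.mp (not_lt.mp h)
        have : b n = co w n x := by
          simp only [b]
          rw [min_eq_right h2.2, max_eq_right h2.1]
        rw [this, sub_self, abs_zero]
    rw [h1, Finset.sum_sub_distrib, ← Finset.mul_sum]
    have := le_norm w hw hx A
    linarith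

end Pool.Agent.H2.Aco
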