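import Mathlib
import Pool.Agent.H2.Kneser

/-! Hamidoune's 2-atom theorem: structure of sets in a critical pair. -/

namespace Pool.Agent.H2.Kneser

open Finset Pointwise

set_option linter.unusedSectionVars false

variable {G : Type*} [AddCommGroup G] [DecidableEq G] [Fintype G]

/-- Distinct translates meet in at most one point. -/
def Sidon (H : Finset G) : Prop := ∀ a ∈ H, ∀ b ∈ H, ∀ c ∈ H, ∀ d ∈ H, a - b = c - d → a = b ∨ a = c

theorem atom {S X₀ : Finset G} (h1 : 2 ≤ #X₀) (h2 : #(X₀ + S) + 2 ≤ Fintype.card G)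
    (hS : S.Nonempty) : ∃ H : Finset G, 2 ≤ #H ∧ #(H + S) + 2 ≤ Fintype.card G ∧
      #(H + S) + #X₀ ≤ #(X₀ + S) + #H ∧
      (∀ X : Finset G, 2 ≤ #X → #(X + S) ≤ #X → #X + 2 ≤ Fintype.card G → #(H + S) ≤ #H → #H ≤ #X) ∧
      (Sg H ∨ Sidon H) := by
  set n := Fintype.card G
  have hle : ∀ X : Finset G, #X ≤ #(X + S) := fun X => card_le_card_add_right hS
  obtain ⟨Y, ⟨y1, y2⟩, ymin⟩ := exists_minimalFor_of_wellFoundedLT
    (fun X : Finset G => 2 ≤ #X ∧ #(X + S) + 2 ≤ n) (fun X => #(X + S) - #X) ⟨X₀, h1, h2⟩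
  set κ := #(Y + S) - #Y with hκ
  have hk : ∀ X : Finset G, 2 ≤ #X → #(X + S) + 2 ≤ n → #X + κ ≤ #(X + S) := fun X a b => by
    by_contra c
    have := ymin (j := X) ⟨a, b⟩
    have := hle X
    simp only at *
    omega
  obtain ⟨H₀, ⟨z1, z2, z3⟩, zmin⟩ := exists_minimalFor_of_wellFoundedLT
    (fun X : Finset G => 2 ≤ #X ∧ #(X + S) + 2 ≤ n ∧ #(X + S) ≤ #X + κ) (fun X => #X)
    ⟨Y, y1, y2, by omega⟩
  obtain ⟨h₀, hh₀⟩ := card_pos.1 (show 0 < #H₀ by omega)
  have tr : ∀ (x : G) (X : Finset G), #((x +ᵥ X) + S) = #(X + S) := fun x X => by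
    rw [vadd_add_assoc, card_vadd_finset]
  obtain ⟨H, a0, a1, a2, a3, hmin⟩ : ∃ H : Finset G, 0 ∈ H ∧ 2 ≤ #H ∧ #(H + S) + 2 ≤ n ∧
      #(H + S) ≤ #H + κ ∧ ∀ X : Finset G, 2 ≤ #X → #(X + S) + 2 ≤ n → #(X + S) ≤ #X + κ →
        #H ≤ #X := by
    refine ⟨-h₀ +ᵥ H₀, mem_vadd_finset.2 ⟨h₀, hh₀, by simp⟩, by simpa using z1, by rwa [tr],
      by rwa [tr, card_vadd_finset], fun X a b c => ?_⟩
    rw [card_vadd_finset]
    by_contra e
    have := zmin (j := X) ⟨a, b, c⟩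
    simp only at this
    omega
  have dual : #H + #(H + S) ≤ n := by
    have e1 : #(-(H + S)ᶜ) = n - #(H + S) := by rw [card_neg, card_compl]
    have e2 : #(-(H + S)ᶜ + S) ≤ n - #H := by
      rw [← card_compl, ← card_neg Hᶜ]
      refine card_le_card fun x hx => ?_
      obtain ⟨z, hz, s, hs, rfl⟩ := mem_add.1 hx
      exact mem_neg'.2 (mem_compl.2 fun e => mem_compl.1 (mem_neg'.1 hz)
        (mem_add.2 ⟨_, e, s, hs, by abel⟩))
    have := hle H
    have := hk H a1 a2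
    have := hmin (-(H + S)ᶜ) (by omega) (by omega) (by omega)
    omega
  have inter : ∀ x : G, 2 ≤ #(H ∩ (x +ᵥ H)) → x ∈ st H := fun x hx => by
    have s1 : #(H ∪ (x +ᵥ H) + S) + #(H ∩ (x +ᵥ H) + S) ≤ #(H + S) + #((x +ᵥ H) + S) := by
      rw [union_add, ← card_union_add_card_inter (H + S)]
      exact Nat.add_le_add_left (card_le_card inter_add_subset) _
    have s2 := card_union_add_card_inter H (x +ᵥ H)
    have s3 : #(H ∩ (x +ᵥ H) + S) ≤ #(H + S) := card_le_card (add_subset_add_right inter_subset_left)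
    have s4 : #H ≤ #(H ∪ (x +ᵥ H)) := card_le_card subset_union_left
    rw [tr] at s1
    rw [card_vadd_finset] at s2
    have s5 := hk _ hx (by omega)
    have s6 := hk (H ∪ (x +ᵥ H)) (by omega) (by omega)
    have s7 := hmin _ hx (by omega) (by omega)
    have s8 : H ∩ (x +ᵥ H) = x +ᵥ H := eq_of_subset_of_card_le inter_subset_right (by simpa using s7)
    refine mem_st.2 fun c hc => ?_
    exact (mem_inter.1 (s8.ge (mem_vadd_finset.2 ⟨c, hc, add_comm x c⟩))).1
  have := hk X₀ h1 h2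
  refine ⟨H, a1, a2, by omega, fun X b1 b2 b3 b4 => hmin X b1 (by omega) (by omega), ?_⟩
  by_cases hs : Sidon H
  · exact Or.inr hs
  left
  simp only [Sidon, not_forall, not_or] at hs
  obtain ⟨a, ha, b, hb, c, hc, d, hd, e, n1, n2⟩ := hs
  have m1 : a - b ∈ st H := inter _ (one_lt_card.2 ⟨a, mem_inter.2 ⟨ha, mem_vadd_finset.2
    ⟨b, hb, by simp⟩⟩, c, mem_inter.2 ⟨hc, mem_vadd_finset.2 ⟨d, hd, by simp [e]⟩⟩, n2⟩)
  have e2 : H = st H := Subset.antisymm (fun x hx => inter x (one_lt_card.2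
    ⟨x, mem_inter.2 ⟨hx, mem_vadd_finset.2 ⟨0, a0, by simp⟩⟩, x + (a - b), mem_inter.2
      ⟨mem_st.1 m1 x hx, mem_vadd_finset.2 ⟨_, by simpa using mem_st.1 m1 0 a0, rfl⟩⟩,
      by simpa [sub_eq_zero] using n1⟩)) fun x hx => by simpa using mem_st.1 hx 0 a0
  rw [e2]
  exact sg_st H

theorem Sidon.card_add {X : Finset G} (h : Sidon X) (Y : Finset G) :
    2 * #Y * #X + #Y ≤ 2 * #(X + Y) + #Y * #Y := by
  induction Y using Finset.induction_on with
  | empty => simp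
  | insert y Y hy ih =>
    have h1 : #((X + {y}) ∩ (X + Y)) ≤ #Y := by
      have : ∀ z : G, ∃ w, z ∈ X + Y → w ∈ Y ∧ z - w ∈ X := fun z => by
        by_cases e : z ∈ X + Y
        · obtain ⟨a, ha, b, hb, rfl⟩ := mem_add.1 e
          exact ⟨b, fun _ => ⟨hb, by simpa using ha⟩⟩
        · exact ⟨0, fun h => absurd h e⟩
      choose w hw using this
      refine card_le_card_of_injOn w (fun z hz => (hw z (mem_inter.1 hz).2).1) fun z hz z' hz' e => ?_
      obtain ⟨p1, p2⟩ := mem_inter.1 hz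
      obtain ⟨q1, q2⟩ := mem_inter.1 hz'
      obtain ⟨a, ha, b, hb, rfl⟩ := mem_add.1 p1
      obtain ⟨a', ha', b', hb', rfl⟩ := mem_add.1 q1
      rw [mem_singleton] at hb hb'
      subst b b'
      rcases h a ha _ (hw _ p2).2 a' ha' _ (hw _ q2).2 (by rw [e]; abel) with e2 | e2
      · refine absurd (hw _ p2).1 ?_
        rwa [show w (a + y) = y by rw [eq_sub_iff_add_eq, add_right_inj] at e2; exact e2]
      · rw [e2]
    have h2 := card_union_add_card_inter (X + {y}) (X + Y)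
    rw [insert_eq, add_union, ← insert_eq, card_insert_of_notMem hy]
    rw [card_add_singleton] at h2
    nlinarith

theorem Sidon.card_lt {X Y : Finset G} (h : Sidon X) (h1 : 2 ≤ #Y) (h2 : #Y ≤ #X) (h3 : 3 ≤ #X) :
    #X + #Y ≤ #(X + Y) := by
  have := h.card_add Y
  generalize #X = x at *
  generalize #Y = y at *
  obtain ⟨l, rfl⟩ := Nat.exists_eq_add_of_le h1
  obtain ⟨m, rfl⟩ := Nat.exists_eq_add_of_le h2
  rcases l with _ | l <;> nlinarith

theorem Sidon.cosets {H K : Finset G} (h : Sidon H) (s : Sg K) :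
    ∃ t, t * #K ≤ #(H + K) ∧ 2 * #H + 1 ≤ 2 * t + #K ∧
      (t ≤ 1 → ∀ a ∈ H, ∀ b ∈ H, a - b ∈ K) := by
  let r : G → G := fun a => Classical.epsilon fun x => x ∈ H ∧ a - x ∈ K
  have r1 : ∀ a ∈ H, r a ∈ H ∧ a - r a ∈ K := fun a ha =>
    Classical.epsilon_spec (p := fun x => x ∈ H ∧ a - x ∈ K) ⟨a, ha, by simpa using s.zero⟩
  have r2 : ∀ a b, a - b ∈ K → r a = r b := fun a b e => by
    simp only [r]
    congr 1
    ext x
    exact and_congr_right fun _ => ⟨fun f => by convert s.sub _ f _ e using 1; abel,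
      fun f => by convert s.add f e using 1; abel⟩
  set R := H.image r with hR
  have RH : R ⊆ H := fun x hx => by obtain ⟨a, ha, rfl⟩ := mem_image.1 hx; exact (r1 a ha).1
  refine ⟨#R, ?_, ?_, fun e a ha b hb => ?_⟩
  · rw [← (card_add_iff (s := R) (t := K)).2]
    · exact card_le_card (add_subset_add_right RH)
    rintro ⟨x, k⟩ ⟨hx, hk⟩ ⟨y, l⟩ ⟨hy, hl⟩ e
    obtain ⟨a, ha, rfl⟩ := mem_image.1 hx
    obtain ⟨b, hb, rfl⟩ := mem_image.1 hy
    simp only at e hk hl
    have : r a = r b := r2 a b (by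
      convert s.sub _ (s.add (r1 a ha).2 (s.sub _ hl _ hk)) _ (r1 b hb).2 using 1
      linear_combination (norm := abel) e)
    simpa [this] using e
  · have hn : ∀ a ∈ H \ R, a ≠ r a := fun a ha e =>
      (mem_sdiff.1 ha).2 (e ▸ mem_image_of_mem _ (mem_sdiff.1 ha).1)
    let D := (H \ R).image fun a => a - r a
    have d1 : #D = #(H \ R) := card_image_of_injOn fun a ha b hb e =>
      (h a (mem_sdiff.1 ha).1 _ (r1 a (mem_sdiff.1 ha).1).1 b (mem_sdiff.1 hb).1 _
        (r1 b (mem_sdiff.1 hb).1).1 e).resolve_left (hn a ha)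
    have d2 : Disjoint D (-D) := disjoint_left.2 fun x hx hx' => by
      obtain ⟨a, ha, rfl⟩ := mem_image.1 hx
      obtain ⟨b, hb, e⟩ := mem_image.1 (mem_neg'.1 hx')
      have := (h a (mem_sdiff.1 ha).1 _ (r1 a (mem_sdiff.1 ha).1).1 _ (r1 b (mem_sdiff.1 hb).1).1
        b (mem_sdiff.1 hb).1 (by rw [← neg_sub b, e, neg_neg])).resolve_left (hn a ha)
      exact (mem_sdiff.1 ha).2 (this ▸ mem_image_of_mem _ (mem_sdiff.1 hb).1)
    have d3 : ∀ x ∈ D, x ∈ K.erase 0 := fun x hx => by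
      obtain ⟨a, ha, rfl⟩ := mem_image.1 hx
      exact mem_erase.2 ⟨sub_ne_zero.2 (hn a ha), (r1 a (mem_sdiff.1 ha).1).2⟩
    have d4 := card_le_card (union_subset (u := K.erase 0) d3 fun x hx => by
      have := mem_erase.1 (d3 _ (mem_neg'.1 hx))
      exact mem_erase.2 ⟨by simpa using this.1, by simpa using s.neg this.2⟩)
    rw [card_union_of_disjoint d2, card_neg, d1] at d4
    have := card_erase_add_one s.zero
    have := card_sdiff_add_card_eq_card RH
    omega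
  · have := card_le_one.1 e _ (mem_image_of_mem r ha) _ (mem_image_of_mem r hb)
    convert s.sub _ (r1 a ha).2 _ (r1 b hb).2 using 1
    rw [this]; abel

theorem card_eq_sum_cosets {L : Finset G} (s : Sg L) (X : Finset G) :
    ∑ x : G, #(X ∩ (x +ᵥ L)) = #X * #L := by
  simp only [← filter_mem_eq_inter, card_filter]
  rw [sum_comm]
  refine sum_const_nat fun a _ => ?_
  rw [← card_filter]
  refine card_bijective (a - ·) (Equiv.subLeft a).bijective fun x => ?_
  simp [s.mem_coset]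

theorem critical {S X : Finset G} (hS : 2 ≤ #S) (h1 : 2 ≤ #X) (h2 : #(X + S) + 2 ≤ Fintype.card G)
    (h3 : #(X + S) + 1 ≤ #X + #S) :
    (∃ K, Sg K ∧ 2 ≤ #K ∧ #K < Fintype.card G ∧ #(S + K) + 1 ≤ #S + #K) ∨
      ∃ u, u ≠ 0 ∧ #(S + {0, u}) ≤ #S + 1 := by
  have hS0 : S.Nonempty := card_pos.1 (by omega)
  obtain ⟨H, a1, a2, a3, -, a4 | a4⟩ := atom h1 h2 hS0
  · have : #H ≤ #(H + S) := card_le_card_add_right hS0
    exact Or.inl ⟨H, a4, a1, by omega, by rw [add_comm S]; omega⟩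
  by_cases q : #H = 2
  · obtain ⟨x, y, hxy, rfl⟩ := card_eq_two.1 q
    refine Or.inr ⟨y - x, sub_ne_zero.2 hxy.symm, ?_⟩
    have : ({x, y} : Finset G) + S = x +ᵥ (S + {0, y - x}) := by
      rw [add_comm S, ← vadd_add_assoc, vadd_finset_insert, vadd_finset_singleton]; simp
    rw [this, card_vadd_finset] at a3
    omega
  have hH0 : H.Nonempty := card_pos.1 (by omega)
  obtain ⟨L, b1, b2, b3, b4, b5 | b5⟩ := atom hS (by rwa [add_comm S]) hH0
  swap
  · rw [add_comm S] at b3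
    rcases le_total #L #H with e | e
    · have := a4.card_lt b1 e (by omega)
      rw [add_comm H] at this; omega
    · have := b5.card_lt a1 e (by omega)
      omega
  rw [add_comm S, add_comm L] at b3
  rw [add_comm L] at b2 b4
  have hL : #L ≤ #(H + L) := card_le_card_add_left hH0
  refine Or.inl ⟨L, b5, b1, by omega, ?_⟩
  obtain ⟨t, c1, c2, c3⟩ := a4.cosets b5
  replace c3 := c3 (by
    by_contra e
    obtain ⟨t, rfl⟩ := Nat.exists_eq_add_of_le (show 2 ≤ t by omega)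
    have := Nat.mul_le_mul_left t b1
    rw [add_mul] at c1
    omega)
  obtain ⟨h, hh⟩ := hH0
  have one : ∀ K : Finset G, Sg K → (∀ a ∈ H, ∀ b ∈ H, a - b ∈ K) → #(K + H) ≤ #K ∧ #H ≤ #K :=
    fun K sK e => ⟨(card_le_card fun x hx => by
      obtain ⟨a, ha, b, hb, rfl⟩ := mem_add.1 hx
      exact sK.mem_coset.2 (add_sub_assoc a b h ▸ sK.add ha (e b hb h hh))).trans_eq
      (card_vadd_finset h K),
      (card_le_card fun x hx => sK.mem_coset.2 (e x hx h hh)).trans_eq (card_vadd_finset h K)⟩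
  have piece : ∀ x : G, (S ∩ (x +ᵥ L)).Nonempty → #(S ∩ (x +ᵥ L)) + #H ≤ #(S ∩ (x +ᵥ L) + H) + 1 ∨
      #L ≤ #(S ∩ (x +ᵥ L) + H) := fun x hx => by
    have kn := kneser hx ⟨h, hh⟩
    set K := st (S ∩ (x +ᵥ L) + H)
    have sK : Sg K := sg_st _
    have := card_le_card (sK.subset_add (S ∩ (x +ᵥ L)))
    obtain ⟨t, d1, d2, d3⟩ := a4.cosets sK
    by_cases e : t ≤ 1
    · right
      obtain ⟨z, hz⟩ := hx.add ⟨h, hh⟩
      have KL : K ⊆ L := fun k hk => by
        obtain ⟨a, ha, b, hb, rfl⟩ := mem_add.1 hz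
        obtain ⟨a', ha', b', hb', e⟩ := mem_add.1 (mem_st.1 hk _ hz)
        convert b5.add (b5.sub _ (b5.mem_coset.1 (mem_inter.1 ha').2) _
          (b5.mem_coset.1 (mem_inter.1 ha).2)) (c3 b' hb' b hb) using 1
        linear_combination (norm := abel) -e
      have := card_le_card KL
      have o := one K sK (d3 e)
      have := b4 K (by omega) o.1 (by omega) (add_comm L H ▸ (one L b5 c3).1)
      have := Nat.le_of_dvd (card_pos.2 ⟨z, hz⟩) ((per_st _).card_dvd sK)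
      omega
    · left
      obtain ⟨t, rfl⟩ := Nat.exists_eq_add_of_le (show 2 ≤ t by omega)
      obtain ⟨k, hk⟩ := Nat.exists_eq_add_one.2 sK.pos
      rw [hk] at d1 d2 kn
      have : 0 ≤ t * k := Nat.zero_le _
      linarith
  have hsub : ∀ x : G, S ∩ (x +ᵥ L) + H ⊆ (H + S) ∩ ((x + h) +ᵥ L) := fun x z hz => by
    obtain ⟨a, ha, b, hb, rfl⟩ := mem_add.1 hz
    refine mem_inter.2 ⟨add_comm b a ▸ add_mem_add hb (mem_inter.1 ha).1, b5.mem_coset.2 ?_⟩
    convert b5.add (b5.mem_coset.1 (mem_inter.1 ha).2) (c3 b hb h hh) using 1; abel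
  have hsum : ∑ x : G, #(S ∩ (x +ᵥ L) + H) ≤ #(H + S) * #L := by
    rw [← card_eq_sum_cosets b5,
      ← Equiv.sum_comp (Equiv.addRight h) fun x => #((H + S) ∩ (x +ᵥ L))]
    exact sum_le_sum fun x _ => card_le_card (hsub x)
  have hful : ∀ x : G, #((S + L) ∩ (x +ᵥ L)) ≤ if (S ∩ (x +ᵥ L)).Nonempty then #L else 0 := fun x => by
    split_ifs with e
    · exact (card_le_card inter_subset_right).trans_eq (card_vadd_finset _ _)
    · refine (card_eq_zero.2 (eq_empty_of_forall_notMem fun z hz => e ?_)).le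
      obtain ⟨a, ha, b, hb, rfl⟩ := mem_add.1 (mem_inter.1 hz).1
      refine ⟨a, mem_inter.2 ⟨ha, b5.mem_coset.2 ?_⟩⟩
      convert b5.sub _ (b5.mem_coset.1 (mem_inter.1 hz).2) _ hb using 1; abel
  have hHL := (one L b5 c3).2
  by_cases all : ∀ x : G, (S ∩ (x +ᵥ L)).Nonempty → #L ≤ #(S ∩ (x +ᵥ L) + H)
  · have : #(S + L) * #L ≤ #(H + S) * #L := by
      rw [← card_eq_sum_cosets b5]
      refine (sum_le_sum fun x _ => (hful x).trans ?_).trans hsum
      split_ifs with e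
      exacts [all x e, Nat.zero_le _]
    have := Nat.le_of_mul_le_mul_right this b5.pos
    omega
  push Not at all
  obtain ⟨x₀, ⟨s₀, hs₀⟩, hx₀⟩ := all
  suffices per : S + L ⊆ S \ (x₀ +ᵥ L) ∪ (x₀ +ᵥ L) by
    have := (card_le_card per).trans (card_union_le _ _)
    have := card_sdiff_add_card_inter S (x₀ +ᵥ L)
    have := card_pos.2 ⟨s₀, hs₀⟩
    rw [card_vadd_finset] at *
    omega
  intro z hz
  by_contra hc
  simp only [mem_union, mem_sdiff, not_or, not_and, not_not] at hc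
  have hzS : z ∉ S := fun e => hc.2 (hc.1 e)
  obtain ⟨a, ha, b, hb, rfl⟩ := mem_add.1 hz
  have cos : ∀ {x y : G}, x - y ∈ L → x +ᵥ L = y +ᵥ L := fun {x y} e => by
    ext w
    rw [b5.mem_coset, b5.mem_coset]
    exact ⟨fun f => by convert b5.add f e using 1; abel, fun f => by
      convert b5.sub _ f _ e using 1; abel⟩
  have big : ∀ x : G, #(S ∩ (x +ᵥ L)) + (if x ∈ x₀ +ᵥ L then #H - 1 else 0) +
      (if x ∈ (a + b) +ᵥ L then 1 else 0) ≤ #(S ∩ (x +ᵥ L) + H) := fun x => by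
    split_ifs with e1 e2 e2
    · exact absurd (b5.mem_coset.2 (by
        convert b5.sub _ (b5.mem_coset.1 e1) _ (b5.mem_coset.1 e2) using 1; abel)) hc.2
    · rw [cos (b5.mem_coset.1 e1)]
      have := piece x₀ ⟨s₀, hs₀⟩
      omega
    · rw [cos (b5.mem_coset.1 e2)]
      have := piece (a + b) ⟨a, mem_inter.2 ⟨ha, b5.mem_coset.2 (by simpa using b5.neg hb)⟩⟩
      have : #(S ∩ ((a + b) +ᵥ L)) < #((a + b) +ᵥ L) := card_lt_card ⟨inter_subset_right, fun e =>
        hzS (mem_inter.1 (e (b5.mem_coset.2 (by simpa using b5.zero)))).1⟩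
      rw [card_vadd_finset] at this
      omega
    · exact card_le_card_add_right ⟨h, hh⟩
  have := (sum_le_sum fun x (_ : x ∈ univ) => big x).trans hsum
  simp only [sum_add_distrib, card_eq_sum_cosets b5, sum_ite_mem, univ_inter, sum_const,
    card_vadd_finset, smul_eq_mul] at this
  have : #S + #H ≤ #(H + S) := Nat.le_of_mul_le_mul_right (c := #L) (by
    obtain ⟨w, hw⟩ := Nat.exists_eq_add_of_le' (show 1 ≤ #H by omega)
    rw [hw, Nat.add_sub_cancel] at this
    rw [hw]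
    linarith) b5.pos
  omega

end Pool.Agent.H2.Kneser
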