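import Mathlib

set_option autoImplicit false

namespace Pool.Agent.H2.Au

open Finset
open scoped Classical

/-- Nodes of the ternary tree; the head of the list is the last letter. -/
abbrev Nd : Type := List (Option Bool)

/-- Ancestor at level j. -/
def anc (v : Nd) (j : ℕ) : Nd := v.drop (v.length - j)

lemma len_anc {v : Nd} {j : ℕ} (h : j ≤ v.length) : (anc v j).length = j := by
  simp only [anc, List.length_drop]; omega

lemma anc_anc {v : Nd} {j l : ℕ} (h : j ≤ l) (hl : l ≤ v.length) : anc (anc v l) j = anc v j := by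
  simp only [anc, List.length_drop, List.drop_drop]
  congr 1; omega

lemma anc_self (v : Nd) : anc v v.length = v := by simp [anc]

lemma anc_of_len {v : Nd} {j : ℕ} (h : v.length = j) : anc v j = v := by
  subst h; exact anc_self v

lemma anc_cons (a : Option Bool) {v : Nd} {j : ℕ} (h : j ≤ v.length) :
    anc (a :: v) j = anc v j := by
  simp only [anc, List.length_cons]
  rw [show v.length + 1 - j = (v.length - j) + 1 by omega, List.drop_succ_cons]

/-- Nodes of a level. -/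
noncomputable def lev (j : ℕ) : Finset Nd := (List.finite_length_eq (Option Bool) j).toFinset

lemma mem_lev {v : Nd} {j : ℕ} : v ∈ lev j ↔ v.length = j := by simp [lev]

/-- Segments: a node and a half-open interval of levels. -/
abbrev Sg : Type := Nd × ℕ × ℕ

/-- Sum along a segment. -/
def ev (z : Nd → ℝ) (σ : Sg) : ℝ := ∑ j ∈ Ioc σ.2.1 σ.2.2, z (anc σ.1 j)

/-- Disjoint segments. -/
def Dj (σ τ : Sg) : Prop :=
  ∀ j, σ.2.1 < j → j ≤ σ.2.2 → τ.2.1 < j → j ≤ τ.2.2 → anc σ.1 j ≠ anc τ.1 j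

/-- Families of pairwise disjoint segments. -/
def Fam (F : Finset Sg) : Prop :=
  (∀ σ ∈ F, σ.2.2 ≤ σ.1.length) ∧ ∀ σ ∈ F, ∀ τ ∈ F, σ ≠ τ → Dj σ τ

/-- James tree bound. -/
def Bd (z : Nd → ℝ) (c : ℝ) : Prop := ∀ F, Fam F → ∑ σ ∈ F, (ev z σ) ^ 2 ≤ c ^ 2

lemma ev_add (z w : Nd → ℝ) (σ : Sg) : ev (z + w) σ = ev z σ + ev w σ := by
  simp [ev, sum_add_distrib]

lemma ev_smul (c : ℝ) (z : Nd → ℝ) (σ : Sg) : ev (c • z) σ = c * ev z σ := by
  simp [ev, mul_sum]

lemma ev_zero (σ : Sg) : ev 0 σ = 0 := by simp [ev]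

lemma mink {ι : Type} (F : Finset ι) (a b : ι → ℝ) {A B : ℝ} (hA : 0 ≤ A) (hB : 0 ≤ B)
    (ha : ∑ i ∈ F, a i ^ 2 ≤ A ^ 2) (hb : ∑ i ∈ F, b i ^ 2 ≤ B ^ 2) :
    ∑ i ∈ F, (a i + b i) ^ 2 ≤ (A + B) ^ 2 := by
  have h1 := Finset.sum_mul_sq_le_sq_mul_sq F a b
  have h2 : (∑ i ∈ F, a i * b i) ^ 2 ≤ (A * B) ^ 2 := by
    refine h1.trans ?_
    rw [mul_pow]
    exact mul_le_mul ha hb (sum_nonneg fun i _ => sq_nonneg _) (sq_nonneg _)
  have h3 : ∑ i ∈ F, a i * b i ≤ A * B := (abs_le_of_sq_le_sq' h2 (mul_nonneg hA hB)).2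
  have h4 : ∑ i ∈ F, (a i + b i) ^ 2 =
      ∑ i ∈ F, a i ^ 2 + 2 * ∑ i ∈ F, a i * b i + ∑ i ∈ F, b i ^ 2 := by
    rw [mul_sum, ← sum_add_distrib, ← sum_add_distrib]
    exact sum_congr rfl fun i _ => by ring
  nlinarith

lemma Bd.add {z w : Nd → ℝ} {a b : ℝ} (hz : Bd z a) (hw : Bd w b) (ha : 0 ≤ a) (hb : 0 ≤ b) :
    Bd (z + w) (a + b) := by
  intro F hF
  simp only [ev_add]
  exact mink F _ _ ha hb (hz F hF) (hw F hF)

lemma Bd.smul {z : Nd → ℝ} {a : ℝ} (hz : Bd z a) (c : ℝ) : Bd (c • z) (|c| * a) := by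
  intro F hF
  simp only [ev_smul, mul_pow, sq_abs, ← mul_sum]
  exact mul_le_mul_of_nonneg_left (hz F hF) (sq_nonneg _)

lemma Bd.idx {z : Nd → ℝ} {c : ℝ} (hz : Bd z c) {ι : Type} (I : Finset ι) (σ : ι → Sg)
    (h1 : ∀ i ∈ I, (σ i).2.2 ≤ (σ i).1.length)
    (h2 : ∀ i ∈ I, ∀ k ∈ I, i ≠ k → Dj (σ i) (σ k)) :
    ∑ i ∈ I, (ev z (σ i)) ^ 2 ≤ c ^ 2 := by
  set I' := I.filter fun i => (σ i).2.1 < (σ i).2.2 with hI'
  have e1 : ∑ i ∈ I, (ev z (σ i)) ^ 2 = ∑ i ∈ I', (ev z (σ i)) ^ 2 := by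
    rw [hI', sum_filter]
    refine sum_congr rfl fun i _ => ?_
    split_ifs with h
    · rfl
    · simp [ev, Finset.Ioc_eq_empty h]
  have hinj : ∀ i ∈ I', ∀ k ∈ I', σ i = σ k → i = k := by
    intro i hi k hk e
    by_contra hne
    rw [hI', mem_filter] at hi hk
    exact h2 i hi.1 k hk.1 hne (σ i).2.2 hi.2 le_rfl (by rw [← e]; exact hi.2)
      (by rw [← e]) (by rw [← e])
  rw [e1, ← sum_image (f := fun s => (ev z s) ^ 2) hinj]
  refine hz _ ⟨?_, ?_⟩
  · intro s hs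
    obtain ⟨i, hi, rfl⟩ := mem_image.mp hs
    exact h1 i (mem_filter.mp hi).1
  · intro s hs t ht hne
    obtain ⟨i, hi, rfl⟩ := mem_image.mp hs
    obtain ⟨k, hk, rfl⟩ := mem_image.mp ht
    exact h2 i (mem_filter.mp hi).1 k (mem_filter.mp hk).1 fun e => hne (by rw [e])

lemma Bd.one {z : Nd → ℝ} {c : ℝ} (hz : Bd z c) (hc : 0 ≤ c) {σ : Sg} (h : σ.2.2 ≤ σ.1.length) :
    |ev z σ| ≤ c := by
  have := hz {σ} ⟨by simpa using h, by simp⟩
  rw [sum_singleton] at this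
  exact abs_le.mpr (abs_le_of_sq_le_sq' this hc)

/-- Restriction to an interval of levels. -/
noncomputable def cut (a b : ℕ) (z : Nd → ℝ) : Nd → ℝ :=
  fun v => if a < v.length ∧ v.length ≤ b then z v else 0

lemma ev_cut (a b : ℕ) (z : Nd → ℝ) {σ : Sg} (h : σ.2.2 ≤ σ.1.length) :
    ev (cut a b z) σ = ev z (σ.1, max σ.2.1 a, min σ.2.2 b) := by
  simp only [ev, cut]
  rw [← Finset.Ioc_inter_Ioc, ← Finset.filter_mem_eq_inter, sum_filter]
  refine sum_congr rfl fun j hj => ?_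
  rw [len_anc ((mem_Ioc.mp hj).2.trans h)]
  simp only [mem_Ioc]

lemma Bd.cut {z : Nd → ℝ} {c : ℝ} (hz : Bd z c) (a b : ℕ) : Bd (cut a b z) c := by
  intro F hF
  rw [sum_congr rfl fun σ hσ => by rw [ev_cut a b z (hF.1 σ hσ)]]
  refine hz.idx F (fun σ => (σ.1, max σ.2.1 a, min σ.2.2 b)) ?_ ?_
  · intro σ hσ
    exact (min_le_left _ _).trans (hF.1 σ hσ)
  · intro σ hσ τ hτ hne j h1 h2 h3 h4
    exact hF.2 σ hσ τ hτ hne j (lt_of_le_of_lt (le_max_left _ _) h1) (h2.trans (min_le_left _ _))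
      (lt_of_le_of_lt (le_max_left _ _) h3) (h4.trans (min_le_left _ _))

lemma cross {F : Finset Sg} (hF : Fam F) (j : ℕ) (f : Nd → ℝ) (hf : ∀ v, 0 ≤ f v) :
    ∑ σ ∈ F, (if σ.2.1 < j ∧ j ≤ σ.2.2 then f (anc σ.1 j) else 0) ≤ ∑ s ∈ lev j, f s := by
  rw [← sum_filter]
  have hinj : ∀ σ ∈ F.filter (fun σ => σ.2.1 < j ∧ j ≤ σ.2.2),
      ∀ τ ∈ F.filter (fun σ => σ.2.1 < j ∧ j ≤ σ.2.2), anc σ.1 j = anc τ.1 j → σ = τ := by
    intro σ hσ τ hτ e
    by_contra hne
    rw [mem_filter] at hσ hτ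
    exact hF.2 σ hσ.1 τ hτ.1 hne j hσ.2.1 hσ.2.2 hτ.2.1 hτ.2.2 e
  rw [← sum_image (f := f) (g := fun σ : Sg => anc σ.1 j) hinj]
  refine sum_le_sum_of_subset_of_nonneg ?_ fun v _ _ => hf v
  intro v hv
  obtain ⟨σ, hσ, rfl⟩ := mem_image.mp hv
  rw [mem_filter] at hσ
  exact mem_lev.mpr (len_anc (hσ.2.2.trans (hF.1 σ hσ.1)))

lemma ev_lvl {g : Nd → ℝ} {j : ℕ} (hg : ∀ v, v.length ≠ j → g v = 0) {σ : Sg}
    (h : σ.2.2 ≤ σ.1.length) :
    ev g σ = if σ.2.1 < j ∧ j ≤ σ.2.2 then g (anc σ.1 j) else 0 := by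
  simp only [ev]
  have := Finset.sum_ite_eq' (Ioc σ.2.1 σ.2.2) j (fun i => g (anc σ.1 i))
  simp only [mem_Ioc] at this
  rw [← this]
  refine sum_congr rfl fun i hi => ?_
  split_ifs with h'
  · rfl
  · exact hg _ (by rw [len_anc ((mem_Ioc.mp hi).2.trans h)]; exact h')

lemma bd_lvl {g : Nd → ℝ} {j : ℕ} (hg : ∀ v, v.length ≠ j → g v = 0) {c : ℝ}
    (hc : ∑ s ∈ lev j, g s ^ 2 ≤ c ^ 2) : Bd g c := by
  intro F hF
  refine le_trans (le_of_eq ?_) ((cross hF j (fun v => g v ^ 2) fun v => sq_nonneg _).trans hc)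
  refine sum_congr rfl fun σ hσ => ?_
  rw [ev_lvl hg (hF.1 σ hσ)]
  split_ifs <;> simp

lemma exists_bd (N : ℕ) : ∀ z : Nd → ℝ, (∀ v, N ≤ v.length → z v = 0) → ∃ c, 0 ≤ c ∧ Bd z c := by
  induction N with
  | zero =>
    intro z hz
    have : z = 0 := funext fun v => hz v (Nat.zero_le _)
    exact ⟨0, le_rfl, fun F _ => by simp [this, ev_zero]⟩
  | succ N ih =>
    intro z hz
    obtain ⟨c, hc, h⟩ := ih (fun v => if v.length = N then 0 else z v) (by
      intro v hv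
      split_ifs with h
      · rfl
      · exact hz v (by omega))
    have h2 : Bd (fun v => if v.length = N then z v else 0)
        (Real.sqrt (∑ s ∈ lev N, (if s.length = N then z s else 0) ^ 2)) :=
      bd_lvl (j := N) (fun v hv => by simp [hv])
        (by rw [Real.sq_sqrt (sum_nonneg fun _ _ => sq_nonneg _)])
    have h3 := h.add h2 hc (Real.sqrt_nonneg _)
    refine ⟨c + Real.sqrt (∑ s ∈ lev N, (if s.length = N then z s else 0) ^ 2),
      add_nonneg hc (Real.sqrt_nonneg _), ?_⟩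
    convert h3 using 1
    funext v
    simp only [Pi.add_apply]
    split_ifs <;> simp

lemma ev_pt (z : Nd → ℝ) {v : Nd} (hv : v ≠ []) : ev z (v, v.length - 1, v.length) = z v := by
  have : 0 < v.length := List.length_pos_iff.mpr hv
  simp only [ev]
  rw [show Ioc (v.length - 1) v.length = {v.length} by ext j; simp; omega, sum_singleton, anc_self]

lemma Bd.pts {z : Nd → ℝ} {c : ℝ} (hz : Bd z c) {ι : Type} (I : Finset ι) (n : ι → Nd)
    (h0 : ∀ i, n i ≠ []) (hn : Function.Injective n) : ∑ i ∈ I, z (n i) ^ 2 ≤ c ^ 2 := by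
  rw [sum_congr rfl fun i _ => by rw [← ev_pt z (h0 i)]]
  refine hz.idx I (fun i => (n i, (n i).length - 1, (n i).length)) (fun _ _ => le_rfl) ?_
  intro i _ k _ hne j h1 h2 h3 h4 e
  dsimp only at h1 h2 h3 h4 e
  rw [anc_of_len (by omega), anc_of_len (by omega)] at e
  exact hne (hn e)

lemma Bd.par {z : Nd → ℝ} {c : ℝ} (hz : Bd z c) {ι : Type} (I : Finset ι) (n : ι → Nd) {L L' : ℕ}
    (h0 : ∀ i ∈ I, (n i).length = L')
    (hn : ∀ i ∈ I, ∀ k ∈ I, anc (n i) L = anc (n k) L → i = k) :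
    ∑ i ∈ I, ev z (n i, L, L') ^ 2 ≤ c ^ 2 := by
  refine hz.idx I (fun i => (n i, L, L')) (fun i hi => (h0 i hi).ge) ?_
  intro i hi k hk hne j h1 h2 _ _ e
  dsimp only at h1 h2 e
  refine hne (hn i hi k hk ?_)
  rw [← anc_anc h1.le (h2.trans (h0 i hi).ge), e, anc_anc h1.le (h2.trans (h0 k hk).ge)]

/-- The twin of a node. -/
def tw : Nd → Nd
  | [] => []
  | none :: v => none :: tw v
  | some b :: v => some (!b) :: v

lemma tw_tw : ∀ v : Nd, tw (tw v) = v
  | [] => rfl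
  | none :: v => by simp [tw, tw_tw v]
  | some b :: v => by simp [tw]

lemma len_tw : ∀ v : Nd, (tw v).length = v.length
  | [] => rfl
  | none :: v => by simp [tw, len_tw v]
  | some b :: v => by simp [tw]

/-- The last m letters are all the continuation letter. -/
def allC : ℕ → Nd → Prop
  | 0, _ => True
  | _ + 1, [] => False
  | m + 1, none :: v => allC m v
  | _ + 1, some _ :: _ => False

/-- The antisymmetry constraint on twin spines. -/
def Anti (z : Nd → ℝ) : Prop := ∀ v, z (none :: tw v) = -z (none :: v)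

lemma allC_tw : ∀ (m : ℕ) (v : Nd), allC m v → allC m (tw v)
  | 0, _, _ => trivial
  | _ + 1, [], h => h
  | m + 1, none :: v, h => allC_tw m v h
  | _ + 1, some _ :: _, h => h.elim

lemma allC_ev {z : Nd → ℝ} (hz : Anti z) (L : ℕ) : ∀ (m : ℕ) (v : Nd), allC m v →
    v.length = L + m → ev z (tw v, L, L + m) = -ev z (v, L, L + m)
  | 0, _, _, _ => by simp [ev]
  | _ + 1, [], h, _ => h.elim
  | m + 1, none :: v, h, hl => by
    have hl' : v.length = L + m := by simp at hl; omega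
    have ih := allC_ev hz L m v h hl'
    simp only [ev] at ih ⊢
    rw [← add_assoc, Finset.sum_Ioc_succ_top (by omega), Finset.sum_Ioc_succ_top (by omega)]
    rw [anc_of_len (v := tw (none :: v)) (by rw [len_tw]; simpa using hl'),
      anc_of_len (v := none :: v) (by simpa using hl')]
    simp only [tw]
    rw [hz v, sum_congr rfl fun j hj => by
      rw [anc_cons none (by rw [len_tw, hl']; exact (mem_Ioc.mp hj).2)], ih,
      sum_congr rfl (f := fun j => z (anc (none :: v) j)) fun j hj => by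
      rw [anc_cons none (by rw [hl']; exact (mem_Ioc.mp hj).2)]]
    ring
  | _ + 1, some _ :: _, h, _ => h.elim

lemma not_allC (L : ℕ) : ∀ (m : ℕ) (v : Nd), ¬ allC m v → v.length = L + m →
    anc (tw v) L = anc v L ∧ tw v ≠ v
  | 0, _, h, _ => (h trivial).elim
  | _ + 1, [], _, hl => by simp at hl
  | m + 1, none :: v, h, hl => by
    have hl' : v.length = L + m := by simp at hl; omega
    obtain ⟨h1, h2⟩ := not_allC L m v h hl'
    refine ⟨?_, fun e => h2 (by simpa [tw] using e)⟩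
    simp only [tw]
    rw [anc_cons _ (by rw [len_tw]; omega), anc_cons _ (by omega), h1]
  | m + 1, some b :: v, _, hl => by
    have hl' : v.length = L + m := by simp at hl; omega
    refine ⟨?_, fun e => by simp [tw] at e⟩
    simp only [tw]
    rw [anc_cons _ (by omega), anc_cons _ (by omega)]

lemma allC_eq (L : ℕ) : ∀ (m : ℕ) (v w : Nd), allC m v → allC m w → v.length = L + m →
    w.length = L + m → anc v L = anc w L → v = w
  | 0, v, w, _, _, h1, h2, e => by rwa [anc_of_len (j := L) h1, anc_of_len (j := L) h2] at e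
  | _ + 1, [], _, h, _, _, _, _ => h.elim
  | _ + 1, some _ :: _, _, h, _, _, _, _ => h.elim
  | _ + 1, none :: _, [], _, h, _, _, _ => h.elim
  | _ + 1, none :: _, some _ :: _, _, h, _, _, _ => h.elim
  | m + 1, none :: v, none :: w, hv, hw, h1, h2, e => by
    have h1' : v.length = L + m := by simp at h1; omega
    have h2' : w.length = L + m := by simp at h2; omega
    rw [anc_cons _ (by omega), anc_cons _ (by omega)] at e
    rw [allC_eq L m v w hv hw h1' h2' e]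

end Pool.Agent.H2.Au
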