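import Pool.Agent.H2.AuA

set_option autoImplicit false

namespace Pool.Agent.H2.Au

open Finset
open scoped Classical

lemma ev_low {w : Nd → ℝ} {L : ℕ} (hw : ∀ v, v.length ≤ L → w v = 0) {σ : Sg}
    (h : σ.2.2 ≤ σ.1.length) (h' : σ.2.2 ≤ L) : ev w σ = 0 :=
  sum_eq_zero fun j hj => hw _ (by
    rw [len_anc ((mem_Ioc.mp hj).2.trans h)]; exact (mem_Ioc.mp hj).2.trans h')

lemma ev_high {w : Nd → ℝ} {L : ℕ} (hw : ∀ v, L < v.length → w v = 0) {σ : Sg}
    (h : σ.2.2 ≤ σ.1.length) (h' : L ≤ σ.2.1) : ev w σ = 0 :=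
  sum_eq_zero fun j hj => hw _ (by
    rw [len_anc ((mem_Ioc.mp hj).2.trans h)]; exact lt_of_le_of_lt h' (mem_Ioc.mp hj).1)

lemma sq_step {n p q : ℝ} (hn : 0 ≤ n) (hq : 0 ≤ q) :
    |p| + Real.sqrt (n * q) ≤ Real.sqrt ((n + 1) * (p ^ 2 + q)) := by
  have h1 := Real.sq_sqrt (mul_nonneg hn hq)
  have h0 := Real.sqrt_nonneg (n * q)
  set r := Real.sqrt (n * q)
  have ha := abs_nonneg p
  apply Real.le_sqrt_of_sq_le
  rw [← sq_abs p]
  set a := |p|
  have h2 : 2 * a * r ≤ n * a ^ 2 + q := by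
    rcases hn.eq_or_lt with h | h
    · subst h
      have : r = 0 := by nlinarith
      rw [this]; nlinarith
    · by_contra hc
      push Not at hc
      nlinarith [sq_nonneg (n * a - r)]
  nlinarith

lemma sq_one {n p q : ℝ} (hn : 1 ≤ n) (hq : 0 ≤ q) : |p| ≤ Real.sqrt (n * (p ^ 2 + q)) := by
  apply Real.le_sqrt_of_sq_le
  rw [sq_abs]
  nlinarith [sq_nonneg p]

lemma sq_mono {n p q : ℝ} (hn : 0 ≤ n) : Real.sqrt (n * q) ≤ Real.sqrt (n * (p ^ 2 + q)) :=
  Real.sqrt_le_sqrt (by nlinarith [sq_nonneg p])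

/-- Invariant for a functional made of k corrected blocks above level L. -/
def G (k L : ℕ) (w : Nd → ℝ) : Prop :=
  (∀ v, v.length ≤ L → w v = 0) ∧ ∃ (V : Nd → ℝ) (q T : Sg → ℝ), (∀ v, 0 ≤ V v) ∧
    (∀ σ, 0 ≤ q σ) ∧ (∀ σ, 0 ≤ T σ) ∧ ∑ s ∈ lev L, V s ^ 2 ≤ k ∧
    (∀ F, Fam F → ∑ σ ∈ F, q σ ≤ 16 * k) ∧ (∀ F, Fam F → ∑ σ ∈ F, T σ ^ 2 ≤ (k : ℝ) ^ 2) ∧
    (∀ (J : ℕ) (σ : Sg), σ.2.2 ≤ σ.1.length → σ.2.1 ≤ L →
      |ev w σ| ≤ Real.sqrt ((J + 1) * q σ) + 12 * (3 / 4) ^ J * V (anc σ.1 L)) ∧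
    (∀ (J : ℕ) (σ : Sg), σ.2.2 ≤ σ.1.length →
      |ev w σ| ≤ Real.sqrt ((J + 2) * q σ) + 12 * (3 / 4) ^ J * T σ)

lemma G_zero (L : ℕ) : G 0 L 0 :=
  ⟨fun _ _ => rfl, 0, 0, 0, fun _ => le_rfl, fun _ => le_rfl, fun _ => le_rfl, by simp,
    fun _ _ => by simp, fun _ _ => by simp, fun _ _ _ _ => by simp [ev_zero],
    fun _ _ _ => by simp [ev_zero]⟩

lemma G.bd {k L : ℕ} {w : Nd → ℝ} (h : G k L w) (J : ℕ) :
    Bd w (Real.sqrt (32 * (J + 2) * k + 288 * (9 / 16) ^ J * (k : ℝ) ^ 2)) := by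
  obtain ⟨-, V, q, T, -, hq, hT, -, h1, h2, -, h3⟩ := h
  intro F hF
  rw [Real.sq_sqrt (by positivity)]
  have e : ((9 : ℝ) / 16) ^ J = ((3 / 4) ^ J) ^ 2 := by
    rw [← pow_mul, mul_comm, pow_mul]; norm_num
  have h4 : ∀ σ ∈ F, ev w σ ^ 2 ≤ 2 * (J + 2) * q σ + 288 * (9 / 16) ^ J * T σ ^ 2 := by
    intro σ hσ
    have h5 := h3 J σ (hF.1 σ hσ)
    have h6 := Real.sq_sqrt (mul_nonneg (show (0 : ℝ) ≤ J + 2 by positivity) (hq σ))
    rw [← sq_abs, e]
    set a := Real.sqrt ((J + 2) * q σ)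
    set b := 12 * (3 / 4) ^ J * T σ with hb
    have h7 : |ev w σ| ^ 2 ≤ (a + b) ^ 2 := pow_le_pow_left₀ (abs_nonneg _) h5 2
    have h8 : b ^ 2 = 144 * ((3 / 4) ^ J) ^ 2 * T σ ^ 2 := by rw [hb]; ring
    nlinarith [sq_nonneg (a - b)]
  refine (sum_le_sum h4).trans ?_
  rw [sum_add_distrib, ← mul_sum, ← mul_sum]
  have h9 := mul_le_mul_of_nonneg_left (h1 F hF) (show (0 : ℝ) ≤ 2 * (J + 2) by positivity)
  have h10 := mul_le_mul_of_nonneg_left (h2 F hF)
    (show (0 : ℝ) ≤ 288 * (9 / 16) ^ J by positivity)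
  nlinarith

lemma exists_arg (Ch : Nd → Finset Nd) (f : Nd → ℝ) :
    ∃ h : Nd → Nd, ∀ s, ∀ u ∈ Ch s, h s ∈ Ch s ∧ f u ≤ f (h s) := by
  have : ∀ s, ∃ c, ∀ u ∈ Ch s, c ∈ Ch s ∧ f u ≤ f c := by
    intro s
    rcases (Ch s).eq_empty_or_nonempty with h | h
    · exact ⟨[], by simp [h]⟩
    · obtain ⟨c, hc, h'⟩ := Finset.exists_max_image (Ch s) f h
      exact ⟨c, fun u hu => ⟨hc, h' u hu⟩⟩
  choose h hh using this
  exact ⟨h, hh⟩

lemma exists_corr {L m : ℕ} {z : Nd → ℝ} (hz : Anti z) (hb : Bd z 1) (h : Nd → Nd) :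
    ∃ (g α : Nd → ℝ), Anti g ∧ (∀ v, v.length ≠ L + m → g v = 0) ∧ Bd g 3 ∧ (∀ v, 0 ≤ α v) ∧
      ∑ s ∈ lev L, α s ^ 2 ≤ 1 ∧ ∀ u, u.length = L + m →
        (u = h (anc u L) → ev z (u, L, L + m) + g u = 0) ∧
        |ev z (u, L, L + m) + g u| ≤ 3 * α (anc u L) := by
  set δ : Nd → ℝ := fun u => ev z (u, L, L + m) with hδ
  set Ch : Nd → Finset Nd := fun s => (lev (L + m)).filter fun u => anc u L = s with hCh
  obtain ⟨c, hc⟩ := exists_arg Ch fun u => |δ u|
  set α : Nd → ℝ := fun s => if c s ∈ Ch s then |δ (c s)| else 0 with hα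
  set r : Nd → ℝ := fun u =>
    if u.length = L + m ∧ u = h (anc u L) ∧ ¬ allC m u then -δ u else 0 with hr
  set a : Nd → ℝ := fun u => if u.length = L + m ∧ allC m u then -δ u else 0 with ha
  have hα0 : ∀ v, 0 ≤ α v := by
    intro v; simp only [hα]; split_ifs
    · exact abs_nonneg _
    · exact le_rfl
  have hαδ : ∀ u, u.length = L + m → |δ u| ≤ α (anc u L) := by
    intro u hu
    have h1 : u ∈ Ch (anc u L) := mem_filter.mpr ⟨mem_lev.mpr hu, rfl⟩
    obtain ⟨h2, h3⟩ := hc _ u h1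
    simp only [hα, if_pos h2]
    exact h3
  have hatw : ∀ u, a (tw u) = -a u := by
    intro u
    simp only [ha, len_tw]
    by_cases h1 : u.length = L + m ∧ allC m u
    · rw [if_pos h1, if_pos ⟨h1.1, allC_tw m u h1.2⟩]
      simp only [hδ]
      rw [allC_ev hz L m u h1.2 h1.1]
    · rw [if_neg h1, if_neg, neg_zero]
      intro h2
      exact h1 ⟨h2.1, by simpa [tw_tw] using allC_tw m _ h2.2⟩
  have hsq : ∀ (P : Nd → Prop), (∀ u w, u.length = L + m → w.length = L + m → P u → P w →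
      anc u L = anc w L → u = w) →
      ∑ u ∈ lev (L + m), (if u.length = L + m ∧ P u then -δ u else 0) ^ 2 ≤ 1 ^ 2 := by
    intro P hP
    refine le_trans (le_of_eq ?_) (hb.par ((lev (L + m)).filter P) id (L := L) (L' := L + m)
      (fun i hi => mem_lev.mp (mem_filter.mp hi).1) fun i hi k hk e =>
        hP i k (mem_lev.mp (mem_filter.mp hi).1) (mem_lev.mp (mem_filter.mp hk).1)
          (mem_filter.mp hi).2 (mem_filter.mp hk).2 e)
    rw [sum_filter]
    refine sum_congr rfl fun u hu => ?_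
    by_cases h1 : P u
    · simp [h1, mem_lev.mp hu, hδ]
    · simp [h1]
  have hr2 : ∑ u ∈ lev (L + m), r u ^ 2 ≤ 1 ^ 2 := by
    convert hsq (fun u => u = h (anc u L) ∧ ¬ allC m u) fun u w _ _ h1 h2 e => by
      rw [h1.1, h2.1, ← e, ← h1.1] using 3
    simp only [hr]
    congr
  have ha2 : ∑ u ∈ lev (L + m), a u ^ 2 ≤ 1 ^ 2 :=
    hsq (allC m) fun u w h1 h2 h3 h4 e => allC_eq L m u w h3 h4 h1 h2 e
  have hr3 : ∑ u ∈ lev (L + m), (-r (tw u)) ^ 2 ≤ 1 ^ 2 := by
    refine le_trans (le_of_eq ?_) hr2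
    refine sum_nbij' tw tw ?_ ?_ (fun u _ => tw_tw u) (fun u _ => tw_tw u) fun u _ => by ring
    · intro u hu; rw [mem_lev] at *; rwa [len_tw]
    · intro u hu; rw [mem_lev] at *; rwa [len_tw]
  refine ⟨fun u => r u + -r (tw u) + a u, α, ?_, ?_, ?_, hα0, ?_, ?_⟩
  · intro v
    have : (none :: tw v : Nd) = tw (none :: v) := rfl
    rw [this]
    simp only [tw_tw, hatw]
    ring
  · intro v hv
    simp [hr, ha, len_tw, hv]
  · refine bd_lvl (j := L + m) (fun v hv => by simp [hr, ha, len_tw, hv]) ?_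
    have h1 := mink _ _ _ zero_le_one zero_le_one hr2 hr3
    have h2 := mink _ _ _ (by norm_num) zero_le_one h1 ha2
    refine h2.trans (by norm_num)
  · refine le_trans (le_of_eq ?_) ((hb.par ((lev L).filter fun s => c s ∈ Ch s) c (L := L)
      (L' := L + m) (fun i hi => mem_lev.mp (mem_filter.mp (mem_filter.mp hi).2).1)
      fun i hi k hk e => ?_).trans (by norm_num))
    · rw [sum_filter]
      refine sum_congr rfl fun s _ => ?_
      simp only [hα]
      split_ifs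
      · simp [hδ]
      · simp
    · rw [(mem_filter.mp (mem_filter.mp hi).2).2, (mem_filter.mp (mem_filter.mp hk).2).2] at e
      exact e
  · intro u hu
    have h0 := hα0 (anc u L)
    by_cases hA : allC m u
    · have e : δ u + (r u + -r (tw u) + a u) = 0 := by
        simp [hr, ha, hA, allC_tw m u hA, hu]
      exact ⟨fun _ => e, by rw [show ev z (u, L, L + m) = δ u from rfl, e, abs_zero]; positivity⟩
    · obtain ⟨h1, h2⟩ := not_allC L m u hA hu
      have ha0 : a u = 0 := by simp [ha, hA]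
      constructor
      · intro hh
        have e1 : r u = -δ u := by simp only [hr]; rw [if_pos ⟨hu, hh, hA⟩]
        have e2 : r (tw u) = 0 := by
          simp only [hr]; rw [if_neg]
          intro h3
          rw [h1, ← hh] at h3
          exact h2 h3.2.1
        show δ u + (r u + -r (tw u) + a u) = 0
        rw [e1, e2, ha0]; ring
      · have hru : ∀ w, w.length = L + m → |r w| ≤ α (anc w L) := by
          intro w hw
          simp only [hr]
          split_ifs
          · rw [abs_neg]; exact hαδ w hw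
          · simpa using hα0 _
        have b1 := hαδ u hu
        have b2 := hru u hu
        have b3 := hru (tw u) (by rw [len_tw, hu])
        rw [h1] at b3
        show |δ u + (r u + -r (tw u) + a u)| ≤ _
        rw [ha0]
        rw [abs_le] at *
        constructor <;> linarith [b1.1, b1.2, b2.1, b2.2, b3.1, b3.2]

lemma G.step {k L m : ℕ} {w z : Nd → ℝ} (hw : G k (L + m) w) (hm : 0 < m) (hz : Anti z)
    (hb : Bd z 1) (hz1 : ∀ v, v.length ≤ L → z v = 0) (hz2 : ∀ v, L + m < v.length → z v = 0) :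
    ∃ g : Nd → ℝ, Anti g ∧ (∀ v, v.length ≠ L + m → g v = 0) ∧ Bd g 3 ∧
      G (k + 1) L (z + g + w) := by
  obtain ⟨hw0, V, q, T, hV, hq, hT, hV1, hq1, hT1, hB, hC⟩ := hw
  set Ch : Nd → Finset Nd := fun s => (lev (L + m)).filter fun u => anc u L = s with hCh
  obtain ⟨h, hh⟩ := exists_arg Ch V
  obtain ⟨g, α, hg1, hg2, hg3, hα0, hα1, hK⟩ := exists_corr (L := L) (m := m) hz hb h
  refine ⟨g, hg1, hg2, hg3, ?_, fun s => Real.sqrt (α s ^ 2 + ∑ u ∈ Ch s, V u ^ 2),
    fun σ => ev (z + g) σ ^ 2 + q σ,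
    fun σ => if σ.2.1 < L + m ∧ L + m ≤ σ.2.2 then V (anc σ.1 (L + m)) else T σ,
    fun _ => Real.sqrt_nonneg _, fun σ => add_nonneg (sq_nonneg _) (hq σ), ?_, ?_, ?_, ?_, ?_, ?_⟩
  · intro v hv
    simp [hz1 v hv, hg2 v (by omega), hw0 v (by omega)]
  · intro σ
    dsimp only
    split_ifs
    · exact hV _
    · exact hT _
  · rw [sum_congr rfl fun s _ => Real.sq_sqrt
      (add_nonneg (sq_nonneg _) (sum_nonneg fun _ _ => sq_nonneg _)), sum_add_distrib]
    rw [sum_fiberwise_of_maps_to (s := lev (L + m)) (t := lev L) (g := fun u => anc u L)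
      (fun u hu => mem_lev.mpr (len_anc (by rw [mem_lev.mp hu]; omega)))]
    push_cast
    linarith
  · intro F hF
    rw [sum_add_distrib]
    have h1 := (hb.add hg3 zero_le_one (by norm_num)) F hF
    have h2 := hq1 F hF
    push_cast
    linarith
  · intro F hF
    have h1 := cross hF (L + m) (fun v => V v ^ 2) fun _ => sq_nonneg _
    have h2 := hT1 F hF
    have h3 : ∑ σ ∈ F, (if σ.2.1 < L + m ∧ L + m ≤ σ.2.2 then V (anc σ.1 (L + m)) else T σ) ^ 2 ≤
        ∑ σ ∈ F, ((if σ.2.1 < L + m ∧ L + m ≤ σ.2.2 then V (anc σ.1 (L + m)) ^ 2 else 0) +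
          T σ ^ 2) := by
      refine sum_le_sum fun σ _ => ?_
      split_ifs
      · nlinarith [sq_nonneg (T σ)]
      · simp
    rw [sum_add_distrib] at h3
    have h4 : (0 : ℝ) ≤ k := Nat.cast_nonneg k
    push_cast
    nlinarith
  · intro J σ hσ ha
    have hJ : (0 : ℝ) ≤ J := Nat.cast_nonneg J
    have hV' := Real.sqrt_nonneg (α (anc σ.1 L) ^ 2 + ∑ u ∈ Ch (anc σ.1 L), V u ^ 2)
    have hV2 := Real.sq_sqrt (add_nonneg (sq_nonneg (α (anc σ.1 L)))
      (sum_nonneg (s := Ch (anc σ.1 L)) fun u _ => sq_nonneg (V u)))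
    dsimp only
    set W := Real.sqrt (α (anc σ.1 L) ^ 2 + ∑ u ∈ Ch (anc σ.1 L), V u ^ 2)
    rw [ev_add (z + g) w]
    by_cases hl : L + m ≤ σ.2.2
    · set u := anc σ.1 (L + m) with hu
      have hul : u.length = L + m := len_anc (hl.trans hσ)
      have hpar : anc u L = anc σ.1 L := anc_anc (by omega) (hl.trans hσ)
      have huC : u ∈ Ch (anc σ.1 L) := mem_filter.mpr ⟨mem_lev.mpr hul, hpar⟩
      have e1 : ev (z + g) σ = ev z (u, L, L + m) + g u := by
        rw [ev_add, ev_lvl hg2 hσ, if_pos ⟨by omega, hl⟩]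
        congr 1
        have e2 : z = cut L (L + m) z := by
          funext v
          simp only [cut]
          split_ifs with h1
          · rfl
          · by_cases h2 : v.length ≤ L
            · exact hz1 v h2
            · exact hz2 v (by omega)
        rw [e2, ev_cut _ _ _ hσ, ← e2, max_eq_right ha, min_eq_right hl]
        simp only [ev]
        refine sum_congr rfl fun j hj => ?_
        rw [hu, anc_anc (mem_Ioc.mp hj).2 (hl.trans hσ)]
      obtain ⟨k1, k2⟩ := hK u hul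
      rw [hpar, ← e1] at k1 k2
      obtain ⟨k3, k4⟩ := hh _ u huC
      by_cases hH : u = h (anc σ.1 L)
      · rw [k1 hH, zero_add]
        have h1 := hB J σ hσ (by omega)
        have h2 : V u ^ 2 ≤ ∑ u ∈ Ch (anc σ.1 L), V u ^ 2 :=
          single_le_sum (f := fun u => V u ^ 2) (fun _ _ => sq_nonneg _) huC
        have h3 : V u ≤ W := by
          apply Real.le_sqrt_of_sq_le
          nlinarith [sq_nonneg (α (anc σ.1 L))]
        have h4 : 12 * (3 / 4 : ℝ) ^ J * V u ≤ 12 * (3 / 4) ^ J * W :=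
          mul_le_mul_of_nonneg_left h3 (by positivity)
        have h5 := sq_mono (n := J + 1) (p := 0) (q := q σ) (by positivity)
        exact h1.trans (add_le_add h5 h4)
      · have h2 : V u ^ 2 + V (h (anc σ.1 L)) ^ 2 ≤ ∑ u ∈ Ch (anc σ.1 L), V u ^ 2 := by
          rw [← sum_pair (f := fun u => V u ^ 2) hH]
          refine sum_le_sum_of_subset_of_nonneg ?_ fun _ _ _ => sq_nonneg _
          intro x hx
          rcases mem_insert.mp hx with rfl | hx
          · exact huC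
          · rw [mem_singleton.mp hx]; exact k3
        have h3 : V u ≤ 3 / 4 * W := by
          have := hV u
          have h5 : V u ^ 2 ≤ V (h (anc σ.1 L)) ^ 2 := pow_le_pow_left₀ this k4 2
          refine (abs_le_of_sq_le_sq' ?_ (by positivity)).2
          nlinarith [sq_nonneg (α (anc σ.1 L))]
        have h4 : α (anc σ.1 L) ≤ W := by
          apply Real.le_sqrt_of_sq_le
          have := sum_nonneg (s := Ch (anc σ.1 L)) fun u _ => sq_nonneg (V u)
          linarith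
        refine (abs_add_le _ _).trans ?_
        rcases J with _ | J
        · have h1 := hB 0 σ hσ (by omega)
          have h5 := sq_mono (n := ((0 : ℕ) : ℝ) + 1) (p := ev (z + g) σ) (q := q σ) (by positivity)
          rw [← hu] at h1
          simp only [pow_zero] at h1 ⊢
          linarith
        · have h1 := hB J σ hσ (by omega)
          have h5 := sq_step (n := (J : ℝ) + 1) (p := ev (z + g) σ) (by positivity) (hq σ)
          rw [← hu] at h1
          have h6 : 12 * (3 / 4 : ℝ) ^ J * V u ≤ 12 * (3 / 4) ^ J * (3 / 4 * W) :=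
            mul_le_mul_of_nonneg_left h3 (by positivity)
          push_cast
          rw [pow_succ (3 / 4 : ℝ)]
          linarith
    · rw [ev_low hw0 hσ (by omega), add_zero]
      have h1 := sq_one (n := (J : ℝ) + 1) (p := ev (z + g) σ) (by linarith) (hq σ)
      have h2 : 0 ≤ 12 * (3 / 4 : ℝ) ^ J * W := by positivity
      linarith
  · intro J σ hσ
    have hJ : (0 : ℝ) ≤ J := Nat.cast_nonneg J
    dsimp only
    rw [ev_add (z + g) w]
    by_cases ha : σ.2.1 < L + m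
    · by_cases hl : L + m ≤ σ.2.2
      · rw [if_pos ⟨ha, hl⟩]
        have h1 := hB J σ hσ ha.le
        have h5 := sq_step (n := (J : ℝ) + 1) (p := ev (z + g) σ) (by positivity) (hq σ)
        rw [show (J : ℝ) + 1 + 1 = J + 2 by ring] at h5
        linarith [abs_add_le (ev (z + g) σ) (ev w σ)]
      · rw [ev_low hw0 hσ (by omega), add_zero, if_neg fun h => hl h.2]
        have h1 := sq_one (n := (J : ℝ) + 2) (p := ev (z + g) σ) (by linarith) (hq σ)
        have h2 : 0 ≤ 12 * (3 / 4 : ℝ) ^ J * T σ := by have := hT σ; positivity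
        linarith
    · rw [if_neg fun h => ha h.1]
      have e : ev (z + g) σ = 0 := ev_high (L := L + m)
        (fun v hv => by simp [hz2 v hv, hg2 v (by omega)]) hσ (by omega)
      rw [e, zero_add]
      have h1 := hC J σ hσ
      have h5 := sq_mono (n := J + 2) (p := 0) (q := q σ) (by positivity)
      exact h1.trans (add_le_add h5 le_rfl)

end Pool.Agent.H2.Au
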