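import Pool.Agent.H2.AuB

set_option autoImplicit false

namespace Pool.Agent.H2.Au

open Finset Filter Topology
open scoped Classical

/-- Finitely supported functions with the twin constraint. -/
def ZS : Submodule ℝ (Nd → ℝ) where
  carrier := {z | (∃ N, ∀ v, N ≤ v.length → z v = 0) ∧ z [] = 0 ∧ Anti z}
  add_mem' := by
    rintro a b ⟨⟨N, h1⟩, h2, h3⟩ ⟨⟨M, k1⟩, k2, k3⟩
    refine ⟨⟨max N M, fun v hv => ?_⟩, by simp [h2, k2], fun v => ?_⟩
    · simp [h1 v (le_of_max_le_left hv), k1 v (le_of_max_le_right hv)]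
    · simp only [Pi.add_apply, h3 v, k3 v]; ring
  zero_mem' := ⟨⟨0, fun _ _ => rfl⟩, rfl, fun v => by simp⟩
  smul_mem' := by
    rintro c a ⟨⟨N, h1⟩, h2, h3⟩
    refine ⟨⟨N, fun v hv => by simp [h1 v hv]⟩, by simp [h2], fun v => ?_⟩
    simp only [Pi.smul_apply, h3 v, smul_eq_mul]; ring

/-- The James tree norm. -/
noncomputable def nrm (z : Nd → ℝ) : ℝ :=
  sSup {x | ∃ F, Fam F ∧ x = Real.sqrt (∑ σ ∈ F, ev z σ ^ 2)}

lemma nrm_nonneg (z : Nd → ℝ) : 0 ≤ nrm z :=
  Real.sSup_nonneg (by rintro x ⟨F, -, rfl⟩; exact Real.sqrt_nonneg _)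

lemma nrm_le {z : Nd → ℝ} {c : ℝ} (h : Bd z c) (hc : 0 ≤ c) : nrm z ≤ c :=
  Real.sSup_le (by
    rintro x ⟨F, hF, rfl⟩
    exact Real.sqrt_le_iff.mpr ⟨hc, h F hF⟩) hc

lemma bd_nrm {z : Nd → ℝ} (hz : z ∈ ZS) : Bd z (nrm z) := by
  obtain ⟨⟨N, hN⟩, -⟩ := hz
  obtain ⟨c, hc, h⟩ := exists_bd N z hN
  intro F hF
  have h1 : Real.sqrt (∑ σ ∈ F, ev z σ ^ 2) ≤ nrm z := by
    refine le_csSup ⟨c, ?_⟩ ⟨F, hF, rfl⟩
    rintro x ⟨F, hF, rfl⟩
    exact Real.sqrt_le_iff.mpr ⟨hc, h F hF⟩
  exact (Real.sqrt_le_iff.mp h1).2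

/-- The normed space of finitely supported functions. -/
def ZZ : Type := ZS

noncomputable instance : AddCommGroup ZZ := inferInstanceAs (AddCommGroup ZS)
noncomputable instance : Module ℝ ZZ := inferInstanceAs (Module ℝ ZS)

/-- Underlying function. -/
def val : ZZ →ₗ[ℝ] (Nd → ℝ) := ZS.subtype

lemma val_mem (z : ZZ) : val z ∈ ZS := z.2

lemma val_inj : Function.Injective val := Subtype.val_injective

/-- Build an element. -/
def mkZ (z : Nd → ℝ) (h : z ∈ ZS) : ZZ := ⟨z, h⟩

@[simp] lemma val_mkZ (z : Nd → ℝ) (h : z ∈ ZS) : val (mkZ z h) = z := rfl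

lemma abs_le_nrm {z : Nd → ℝ} (hz : z ∈ ZS) (v : Nd) : |z v| ≤ nrm z := by
  by_cases hv : v = []
  · rw [hv, hz.2.1, abs_zero]; exact nrm_nonneg z
  · rw [← ev_pt z hv]
    exact (bd_nrm hz).one (nrm_nonneg z) le_rfl

noncomputable instance : NormedAddCommGroup ZZ :=
  AddGroupNorm.toNormedAddCommGroup
    { toFun := fun z => nrm (val z)
      map_zero' := le_antisymm (nrm_le (fun F _ => by simp [ev_zero]) le_rfl) (nrm_nonneg _)
      add_le' := fun a b => by
        rw [map_add]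
        exact nrm_le ((bd_nrm (val_mem a)).add (bd_nrm (val_mem b)) (nrm_nonneg _) (nrm_nonneg _))
          (add_nonneg (nrm_nonneg _) (nrm_nonneg _))
      neg' := fun a => by
        have key : ∀ b : ZZ, nrm (val (-b)) ≤ nrm (val b) := by
          intro b
          have := (bd_nrm (val_mem b)).smul (-1)
          simp only [neg_smul, one_smul, abs_neg, abs_one, one_mul] at this
          rw [map_neg]
          exact nrm_le this (nrm_nonneg _)
        refine le_antisymm (key a) ?_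
        simpa using key (-a)
      eq_zero_of_map_eq_zero' := fun a ha => by
        apply val_inj
        funext v
        have := abs_le_nrm (val_mem a) v
        rw [ha] at this
        simpa using this }

lemma norm_def (z : ZZ) : ‖z‖ = nrm (val z) := rfl

noncomputable instance : NormedSpace ℝ ZZ where
  norm_smul_le c z := by
    rw [norm_def, norm_def, map_smul]
    exact nrm_le ((bd_nrm (val_mem z)).smul c) (mul_nonneg (abs_nonneg _) (nrm_nonneg _))

lemma bd_norm (z : ZZ) : Bd (val z) ‖z‖ := bd_nrm (val_mem z)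

lemma cut_mem (a b : ℕ) {z : Nd → ℝ} (hz : z ∈ ZS) : cut a b z ∈ ZS := by
  refine ⟨⟨b + 1, fun v hv => by simp only [cut]; rw [if_neg (by omega)]⟩, by simp [cut], ?_⟩
  intro v
  simp only [cut, List.length_cons, len_tw]
  split_ifs
  · exact hz.2.2 v
  · simp

/-- Level restriction. -/
noncomputable def cutZ (a b : ℕ) (z : ZZ) : ZZ := mkZ (cut a b (val z)) (cut_mem a b (val_mem z))

lemma norm_cutZ (a b : ℕ) (z : ZZ) : ‖cutZ a b z‖ ≤ ‖z‖ :=
  nrm_le ((bd_norm z).cut a b) (norm_nonneg z)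

/-- The predual type space. -/
def XS : Submodule ℝ (ZZ →L[ℝ] ℝ) where
  carrier := {x | ∀ ε : ℝ, 0 < ε → ∃ N, ∀ z : ZZ, (∀ v, v.length ≤ N → val z v = 0) →
    |x z| ≤ ε * ‖z‖}
  add_mem' := by
    intro a b ha hb ε hε
    obtain ⟨N, hN⟩ := ha (ε / 2) (by positivity)
    obtain ⟨M, hM⟩ := hb (ε / 2) (by positivity)
    refine ⟨max N M, fun z hz => ?_⟩
    have h1 := hN z fun v hv => hz v (le_max_of_le_left hv)
    have h2 := hM z fun v hv => hz v (le_max_of_le_right hv)
    rw [ContinuousLinearMap.add_apply]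
    linarith [abs_add_le (a z) (b z)]
  zero_mem' := fun ε hε => ⟨0, fun z _ => by simp; positivity⟩
  smul_mem' := by
    intro c a ha ε hε
    have hc := abs_nonneg c
    obtain ⟨N, hN⟩ := ha (ε / (|c| + 1)) (by positivity)
    refine ⟨N, fun z hz => ?_⟩
    have h1 := hN z hz
    rw [ContinuousLinearMap.smul_apply, smul_eq_mul, abs_mul]
    rw [div_mul_eq_mul_div, le_div_iff₀ (by positivity)] at h1
    nlinarith [abs_nonneg (a z)]

lemma XS_closed : IsClosed (XS : Set (ZZ →L[ℝ] ℝ)) := by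
  refine isClosed_of_closure_subset fun x hx ε hε => ?_
  obtain ⟨y, hy, hxy⟩ := Metric.mem_closure_iff.mp hx (ε / 2) (by positivity)
  obtain ⟨N, hN⟩ := hy (ε / 2) (by positivity)
  refine ⟨N, fun z hz => ?_⟩
  have h1 := hN z hz
  have h2 := (x - y).le_opNorm z
  rw [dist_eq_norm] at hxy
  rw [ContinuousLinearMap.sub_apply, Real.norm_eq_abs] at h2
  have h3 : ‖x - y‖ * ‖z‖ ≤ ε / 2 * ‖z‖ := mul_le_mul_of_nonneg_right hxy.le (norm_nonneg z)
  have h4 := abs_sub_abs_le_abs_sub (x z) (y z)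
  linarith

/-- The counterexample space. -/
def XX : Type := XS

noncomputable instance : NormedAddCommGroup XX := inferInstanceAs (NormedAddCommGroup XS)
noncomputable instance : NormedSpace ℝ XX := inferInstanceAs (NormedSpace ℝ XS)
instance : CompleteSpace XX := XS_closed.completeSpace_coe

/-- The underlying functional. -/
noncomputable def xv : XX →L[ℝ] (ZZ →L[ℝ] ℝ) where
  toFun x := x.1
  map_add' _ _ := rfl
  map_smul' _ _ := rfl
  cont := continuous_subtype_val

lemma norm_xv (x : XX) : ‖xv x‖ = ‖x‖ := rfl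

lemma xv_mem (x : XX) : xv x ∈ XS := x.2

lemma xv_inj : Function.Injective xv := Subtype.val_injective

/-- Tail subspaces. -/
def YS (L : ℕ) : Submodule ℝ XX where
  carrier := {x | ∀ z : ZZ, (∀ v, L < v.length → val z v = 0) → xv x z = 0}
  add_mem' := by
    intro a b ha hb z hz
    simp [ha z hz, hb z hz]
  zero_mem' := fun z _ => by simp
  smul_mem' := by
    intro c a ha z hz
    simp [ha z hz]

lemma YS_closed (L : ℕ) : IsClosed (YS L : Set XX) := by
  have : (YS L : Set XX) = ⋂ z : ZZ, ⋂ _ : (∀ v, L < v.length → val z v = 0),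
      {x : XX | xv x z = 0} := by
    ext x; simp only [Set.mem_iInter]; rfl
  rw [this]
  refine isClosed_iInter fun z => isClosed_iInter fun _ => isClosed_eq ?_ continuous_const
  exact (ContinuousLinearMap.apply ℝ ℝ z).continuous.comp xv.continuous

lemma YS_fin (L : ℕ) : FiniteDimensional ℝ (XX ⧸ YS L) := by
  let ZL : Submodule ℝ ZZ :=
    { carrier := {z | ∀ v, L < v.length → val z v = 0}
      add_mem' := fun {a b} ha hb v hv => by simp [ha v hv, hb v hv]
      zero_mem' := fun v _ => by simp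
      smul_mem' := fun c a ha v hv => by simp [ha v hv] }
  have : Finite {v : Nd // v.length ≤ L} := (List.finite_length_le (Option Bool) L).to_subtype
  let ρ : ZL →ₗ[ℝ] ({v : Nd // v.length ≤ L} → ℝ) :=
    { toFun := fun z v => val z.1 v.1
      map_add' := fun a b => by funext v; simp
      map_smul' := fun c a => by funext v; simp }
  have : FiniteDimensional ℝ ZL := by
    refine Module.Finite.of_injective ρ fun a b h => ?_
    refine Subtype.ext (val_inj (funext fun v => ?_))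
    by_cases hv : v.length ≤ L
    · exact congrFun h ⟨v, hv⟩
    · rw [a.2 v (by omega), b.2 v (by omega)]
  let Φ : XX →ₗ[ℝ] Module.Dual ℝ ZL :=
    { toFun := fun x => (xv x : ZZ →ₗ[ℝ] ℝ).comp ZL.subtype
      map_add' := fun a b => by ext; simp
      map_smul' := fun c a => by ext; simp }
  have hk : LinearMap.ker Φ = YS L := by
    ext x
    rw [LinearMap.mem_ker]
    constructor
    · intro h z hz
      exact LinearMap.congr_fun h ⟨z, hz⟩
    · intro h
      ext z
      exact h z.1 z.2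
  rw [← hk]
  exact Module.Finite.equiv (LinearMap.quotKerEquivRange Φ).symm

/-- The higher order moduli. -/
noncomputable def dl {X : Type} [NormedAddCommGroup X] [NormedSpace ℝ X] (N : X → ℝ) :
    ℕ → ℝ → X → EReal
  | 0, _, z => ((N z - 1 : ℝ) : EReal)
  | k + 1, t, z => ⨆ (Y : Submodule ℝ X) (_ : IsClosed (Y : Set X))
      (_ : FiniteDimensional ℝ (X ⧸ Y)), ⨅ (y : X) (_ : y ∈ Y) (_ : N y = 1), dl N k t (z + t • y)

lemma game (t : ℝ) (k : ℕ) : ∀ (L : ℕ) (x : XX),
    (∀ (s : XX) (w : ZZ), G k L (val w) → s ∈ YS L → (k : ℝ) / 2 ≤ xv s w → 2 ≤ ‖x + t • s‖) →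
    (1 : EReal) ≤ dl (fun v : XX => ‖v‖) k t x := by
  induction k with
  | zero =>
    intro L x h
    have := h 0 0 (by rw [map_zero]; exact G_zero L) (zero_mem _) (by simp)
    rw [smul_zero, add_zero] at this
    simp only [dl]
    exact_mod_cast (show (1 : ℝ) ≤ ‖x‖ - 1 by linarith)
  | succ k ih =>
    intro L x h
    simp only [dl]
    refine le_iSup_of_le (YS L) (le_iSup_of_le (YS_closed L) (le_iSup_of_le (YS_fin L) ?_))
    refine le_iInf fun y => le_iInf fun hy => le_iInf fun hy1 => ?_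
    set B := Real.sqrt (32 * ((0 : ℕ) + 2) * k + 288 * (9 / 16) ^ 0 * (k : ℝ) ^ 2) with hB
    have hB0 : 0 ≤ B := Real.sqrt_nonneg _
    set η : ℝ := 1 / (4 * (6 + B)) with hη
    have hη0 : 0 < η := by positivity
    have hη1 : η * (6 + B) = 1 / 4 := by rw [hη]; field_simp
    obtain ⟨z, hz1, hz2⟩ : ∃ z : ZZ, ‖z‖ ≤ 1 ∧ 3 / 4 ≤ xv y z := by
      have h1 : (3 / 4 : ℝ) < ‖xv y‖ := by
        have : ‖xv y‖ = 1 := hy1
        rw [this]; norm_num
      obtain ⟨z, hz, hz'⟩ := (xv y).exists_lt_apply_of_lt_opNorm h1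
      rw [Real.norm_eq_abs] at hz'
      rcases le_total 0 (xv y z) with h2 | h2
      · exact ⟨z, hz.le, by rw [abs_of_nonneg h2] at hz'; exact hz'.le⟩
      · exact ⟨-z, by simpa using hz.le, by rw [abs_of_nonpos h2] at hz'; simpa using hz'.le⟩
    obtain ⟨N, hN⟩ := xv_mem y η hη0
    set z1 := cutZ L (L + N) z with hz1d
    have hz1n : ‖z1‖ ≤ 1 := (norm_cutZ _ _ _).trans hz1
    have hy0 : xv y (cutZ 0 L z) = 0 := hy _ fun v hv => by
      simp only [cutZ, val_mkZ, cut]; rw [if_neg (by omega)]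
    have hy2 : |xv y (z - cutZ 0 L z - z1)| ≤ η * 3 := by
      refine (hN _ fun v hv => ?_).trans (mul_le_mul_of_nonneg_left ?_ hη0.le)
      · simp only [map_sub, hz1d, cutZ, val_mkZ, cut, Pi.sub_apply]
        by_cases h0 : v = []
        · simp [h0, (val_mem z).2.1]
        · have : 0 < v.length := List.length_pos_iff.mpr h0
          by_cases h1 : v.length ≤ L
          · rw [if_pos ⟨this, h1⟩, if_neg (by omega)]; ring
          · rw [if_neg (by omega), if_pos (by omega)]; ring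
      · have h1 := norm_sub_le (z - cutZ 0 L z) z1
        have h2 := norm_sub_le z (cutZ 0 L z)
        have h3 := norm_cutZ 0 L z
        linarith
    rw [map_sub, map_sub, hy0] at hy2
    refine ih (L + (N + 1)) _ fun s w hG hs hk => ?_
    have hb1 : Bd (val z1) 1 := fun F hF => (bd_norm z1 F hF).trans
      (pow_le_pow_left₀ (norm_nonneg _) hz1n 2)
    have hz3 : ∀ v : Nd, L + N < v.length → val z1 v = 0 := fun v hv => by
      simp only [hz1d, cutZ, val_mkZ, cut]; rw [if_neg (by omega)]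
    obtain ⟨g, hg1, hg2, hg3, hG'⟩ := hG.step (Nat.succ_pos N) (val_mem z1).2.2 hb1
      (fun v hv => by simp only [hz1d, cutZ, val_mkZ, cut]; rw [if_neg (by omega)])
      (fun v hv => hz3 v (by omega))
    have hgm : g ∈ ZS := ⟨⟨L + (N + 1) + 1, fun v hv => hg2 v (by omega)⟩,
      hg2 _ (by simp only [List.length_nil]; omega), hg1⟩
    have hgn : ‖mkZ g hgm‖ ≤ 3 := nrm_le hg3 (by norm_num)
    have hwn : ‖w‖ ≤ B := nrm_le (hG.bd 0) hB0
    have hy3 : |xv y (mkZ g hgm + w)| ≤ η * (3 + B) := by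
      refine (hN _ fun v hv => ?_).trans (mul_le_mul_of_nonneg_left ?_ hη0.le)
      · simp [hg2 v (by omega), hG.1 v (by omega)]
      · linarith [norm_add_le (mkZ g hgm) w]
    have hs0 : xv s (z1 + mkZ g hgm) = 0 := hs _ fun v hv => by
      simp [hg2 v (by omega), hz3 v (by omega)]
    have key := h (y + s) (z1 + mkZ g hgm + w) (by simpa using hG')
      (add_mem hy fun z hz => hs z fun v hv => hz v (by omega)) (by
        have e1 : xv (y + s) (z1 + mkZ g hgm + w) = xv y z1 + xv y (mkZ g hgm + w) +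
            (xv s (z1 + mkZ g hgm) + xv s w) := by
          simp only [ContinuousLinearMap.add_apply, map_add]; ring
        rw [e1, hs0]
        rw [abs_le] at hy2 hy3
        push_cast
        nlinarith [hy2.1, hy2.2, hy3.1, hy3.2])
    rwa [smul_add, ← add_assoc] at key

lemma hyp (t : ℝ) (ht : 0 < t) :
    ∃ n₀ : ℕ, 0 < ⨅ (x : XX) (_ : ‖x‖ = 1), dl (fun v : XX => ‖v‖) n₀ t x := by
  obtain ⟨J, hJ⟩ := exists_pow_lt_of_lt_one (show 0 < t ^ 2 / 72 / 288 by positivity)
    (show (9 / 16 : ℝ) < 1 by norm_num)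
  obtain ⟨k, hk⟩ := exists_nat_gt (32 * (J + 2) * 72 / t ^ 2)
  have hk0 : (0 : ℝ) < k := lt_of_le_of_lt (by positivity) hk
  refine ⟨k, lt_of_lt_of_le zero_lt_one (le_iInf fun x => le_iInf fun hx => ?_)⟩
  refine game t k 0 x fun s w hG _ hs => ?_
  have h1 : ‖w‖ ≤ t * k / 6 := by
    refine (nrm_le (hG.bd J) (Real.sqrt_nonneg _)).trans ?_
    refine Real.sqrt_le_iff.mpr ⟨by positivity, ?_⟩
    rw [div_lt_iff₀ (by positivity)] at hk
    have h2 : 288 * (9 / 16 : ℝ) ^ J ≤ t ^ 2 / 72 := by linarith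
    have h3 := mul_le_mul_of_nonneg_right h2 (sq_nonneg (k : ℝ))
    have h4 := mul_le_mul_of_nonneg_right hk.le hk0.le
    nlinarith
  have h2 : xv s w ≤ ‖s‖ * ‖w‖ := (le_abs_self _).trans ((xv s).le_opNorm w)
  have h3 : ‖s‖ * ‖w‖ ≤ ‖s‖ * (t * k / 6) := mul_le_mul_of_nonneg_left h1 (norm_nonneg _)
  have h4 : 3 ≤ t * ‖s‖ := by
    by_contra hc
    push Not at hc
    nlinarith
  have h5 : ‖t • s‖ ≤ ‖x + t • s‖ + ‖x‖ := by
    simpa using norm_sub_le (x + t • s) x
  rw [norm_smul, Real.norm_eq_abs, abs_of_pos ht] at h5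
  linarith

end Pool.Agent.H2.Au
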