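import Pool.Agent.H2.AuC

set_option autoImplicit false

namespace Pool.Agent.H2.Au

open Finset Filter Topology
open scoped Classical

section abs
variable {X : Type} [NormedAddCommGroup X] [NormedSpace ℝ X]

lemma near (Y : Submodule ℝ X) (hY : IsClosed (Y : Set X)) (hf : FiniteDimensional ℝ (X ⧸ Y))
    (D : ℕ → X) (hD : ∀ φ : X →L[ℝ] ℝ, Tendsto (fun k => φ (D k)) atTop (𝓝 0)) {ε : ℝ}
    (hε : 0 < ε) : ∃ k, ∃ y ∈ Y, ‖D k - y‖ < ε := by
  let b := Module.finBasis ℝ (X ⧸ Y)
  let π : X →L[ℝ] X ⧸ Y := ⟨Y.mkQ, continuous_quot_mk⟩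
  have h1 : Tendsto (fun k => π (D k)) atTop (𝓝 0) := by
    have h2 : ∀ i, Tendsto (fun k => b.coord i (π (D k)) • b i) atTop (𝓝 0) := by
      intro i
      have := (hD ((LinearMap.toContinuousLinearMap (b.coord i)).comp π)).smul_const (b i)
      simpa using this
    have h3 := tendsto_finset_sum univ fun i _ => h2 i
    simp only [sum_const_zero] at h3
    refine h3.congr fun k => ?_
    simp
  obtain ⟨k, hk⟩ := (Metric.tendsto_atTop.mp h1 (ε / 2) (by positivity))
  have h4 := hk k le_rfl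
  rw [dist_zero_right] at h4
  obtain ⟨m, hm, hm'⟩ := Submodule.Quotient.norm_mk_lt (π (D k)) (show 0 < ε / 2 by positivity)
  refine ⟨k, D k - m, ?_, by simp only [sub_sub_cancel]; linarith⟩
  exact (Submodule.Quotient.eq Y).mp hm.symm

lemma not_auc {ι : Type} [Nonempty ι] (y : ι → X) {c : ℝ} (hc : 0 < c) (hy : ∀ w, ‖y w‖ ≤ 1)
    (h : ∀ w, ∃ D : ℕ → X, (∀ k, c ≤ ‖D k‖) ∧
      (∀ φ : X →L[ℝ] ℝ, Tendsto (fun k => φ (D k)) atTop (𝓝 0)) ∧
      ∀ k, ∃ w1 w2, y w + D k = (1 / 2 : ℝ) • (y w1 + y w2))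
    (p : Seminorm ℝ X) {a b : ℝ} (ha : 0 < a) (hb : 0 < b)
    (hp : ∀ x : X, a * ‖x‖ ≤ p x ∧ p x ≤ b * ‖x‖) :
    ¬ ∀ t : ℝ, 0 < t → 0 < ⨅ (x : X) (_ : p x = 1), dl (fun v => p v) 1 t x := by
  intro H
  have hbd : BddAbove (Set.range fun w => p (y w)) := by
    refine ⟨b, ?_⟩
    rintro _ ⟨w, rfl⟩
    exact (hp _).2.trans (by nlinarith [hy w])
  set M := ⨆ w, p (y w) with hM
  have hle : ∀ w, p (y w) ≤ M := fun w => le_ciSup hbd w
  have hmid : ∀ w1 w2, p ((1 / 2 : ℝ) • (y w1 + y w2)) ≤ M := by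
    intro w1 w2
    rw [map_smul_eq_mul]
    have := map_add_le_add p (y w1) (y w2)
    norm_num
    linarith [hle w1, hle w2]
  have hM0 : 0 < M := by
    obtain ⟨w⟩ := (inferInstance : Nonempty ι)
    obtain ⟨D, h1, -, h3⟩ := h w
    obtain ⟨w1, w2, e⟩ := h3 0
    have h4 := hmid w1 w2
    rw [← e] at h4
    have h5 := map_sub_le_add p (y w + D 0) (y w)
    rw [add_sub_cancel_left] at h5
    have h6 := (hp (D 0)).1
    have h7 := mul_le_mul_of_nonneg_left (h1 0) ha.le
    have := mul_pos ha hc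
    linarith [hle w]
  obtain ⟨δ, hδ0, hδ⟩ := EReal.lt_iff_exists_real_btwn.mp (H (a * c / (2 * M)) (by positivity))
  have hδ0' : 0 < δ := by exact_mod_cast hδ0
  obtain ⟨w, hw⟩ := exists_lt_of_lt_ciSup (show M - min (M / 2) (M * δ / 4) < ⨆ w, p (y w) by
    have : 0 < min (M / 2) (M * δ / 4) := by positivity
    linarith)
  have hw1 := min_le_left (M / 2) (M * δ / 4)
  have hw2 := min_le_right (M / 2) (M * δ / 4)
  set m := p (y w) with hm
  have hm0 : 0 < m := by linarith
  have hx : p (m⁻¹ • y w) = 1 := by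
    rw [map_smul_eq_mul, Real.norm_eq_abs, abs_of_pos (inv_pos.mpr hm0), inv_mul_cancel₀ hm0.ne']
  have h1 := lt_of_lt_of_le hδ (iInf₂_le (f := fun (x : X) (_ : p x = 1) =>
    dl (fun v => p v) 1 (a * c / (2 * M)) x) _ hx)
  simp only [dl, lt_iSup_iff] at h1
  obtain ⟨Y, hY, hf, h1⟩ := h1
  obtain ⟨D, hD1, hD2, hD3⟩ := h w
  have hε1 := min_le_left (a * c / (2 * b)) (M * δ / (4 * b))
  have hε2 := min_le_right (a * c / (2 * b)) (M * δ / (4 * b))
  obtain ⟨k, u, hu, hk⟩ := near Y hY hf D hD2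
    (show 0 < min (a * c / (2 * b)) (M * δ / (4 * b)) by positivity)
  have hk1 : p (D k - u) ≤ a * c / 2 := by
    refine (hp _).2.trans ?_
    have := hk.le.trans hε1
    rw [le_div_iff₀ (by positivity)] at this
    linarith
  have hk2 : p (D k - u) ≤ M * δ / 4 := by
    refine (hp _).2.trans ?_
    have := hk.le.trans hε2
    rw [le_div_iff₀ (by positivity)] at this
    linarith
  have hn1 : a * c / 2 ≤ p u := by
    have h5 := map_add_le_add p (D k - u) u
    rw [sub_add_cancel] at h5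
    have h6 := (hp (D k)).1
    have h7 := mul_le_mul_of_nonneg_left (hD1 k) ha.le
    linarith
  set n := p u with hn
  have hn0 : 0 < n := lt_of_lt_of_le (by positivity) hn1
  have hu1 : p (n⁻¹ • u) = 1 := by
    rw [map_smul_eq_mul, Real.norm_eq_abs, abs_of_pos (inv_pos.mpr hn0), inv_mul_cancel₀ hn0.ne']
  have h2 := lt_of_lt_of_le h1 ((iInf_le _ (n⁻¹ • u)).trans
    ((iInf_le _ (Y.smul_mem _ hu)).trans (iInf_le _ hu1)))
  have h3 : δ < p (m⁻¹ • y w + (a * c / (2 * M)) • n⁻¹ • u) - 1 := by exact_mod_cast h2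
  set θ := a * c / (2 * M) * m / n with hθ
  have hθ0 : 0 ≤ θ := by positivity
  have hθ1 : θ ≤ 1 := by
    rw [hθ, div_le_one hn0, div_mul_eq_mul_div, div_le_iff₀ (by positivity)]
    have := mul_le_mul_of_nonneg_left (hle w) (mul_pos ha hc).le
    nlinarith
  have e1 : m⁻¹ • y w + (a * c / (2 * M)) • n⁻¹ • u =
      m⁻¹ • ((1 - θ) • y w + θ • (y w + u)) := by
    have : a * c / (2 * M) * n⁻¹ = m⁻¹ * θ := by rw [hθ]; field_simp
    rw [smul_smul, this]
    module
  rw [e1, map_smul_eq_mul, Real.norm_eq_abs, abs_of_pos (inv_pos.mpr hm0)] at h3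
  have h4 := map_add_le_add p ((1 - θ) • y w) (θ • (y w + u))
  rw [map_smul_eq_mul, map_smul_eq_mul, Real.norm_eq_abs, Real.norm_eq_abs, abs_of_nonneg hθ0,
    abs_of_nonneg (sub_nonneg.mpr hθ1)] at h4
  have h5 : p (y w + u) ≤ M + M * δ / 4 := by
    obtain ⟨w1, w2, e⟩ := hD3 k
    have h6 := hmid w1 w2
    rw [← e] at h6
    have h7 := map_sub_le_add p (y w + D k) (D k - u)
    rw [show y w + D k - (D k - u) = y w + u by abel] at h7
    linarith
  have h6 : m * (1 + δ) < p ((1 - θ) • y w + θ • (y w + u)) := by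
    have : 1 + δ < m⁻¹ * p ((1 - θ) • y w + θ • (y w + u)) := by linarith
    rwa [lt_inv_mul_iff₀ hm0] at this
  have h7 : θ * p (y w + u) ≤ θ * (M + M * δ / 4) := mul_le_mul_of_nonneg_left h5 hθ0
  have h8 : θ * (M + M * δ / 4 - m) ≤ 1 * (M + M * δ / 4 - m) :=
    mul_le_mul_of_nonneg_right hθ1 (by have := mul_pos hM0 hδ0'; linarith [hle w])
  have h9 : M / 2 * δ ≤ m * δ := mul_le_mul_of_nonneg_right (by linarith) hδ0'.le
  nlinarith

end abs

/-- Evaluation at a node. -/
noncomputable def eX (v : Nd) : XX :=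
  ⟨LinearMap.mkContinuous ((LinearMap.proj v).comp val) 1 fun z => by
      rw [one_mul]; exact abs_le_nrm (val_mem z) v,
    fun ε hε => ⟨v.length, fun z hz => by
      have : val z v = 0 := hz v le_rfl
      show |val z v| ≤ _
      rw [this, abs_zero]; positivity⟩⟩

@[simp] lemma eX_apply (v : Nd) (z : ZZ) : xv (eX v) z = val z v := rfl

/-- Sum along the path to a node. -/
noncomputable def sX : Nd → XX
  | [] => 0
  | a :: v => sX v + eX (a :: v)

lemma sX_apply (z : ZZ) : ∀ v : Nd, xv (sX v) z = ev (val z) (v, 0, v.length)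
  | [] => by simp [sX, ev]
  | a :: v => by
    have ih := sX_apply z v
    simp only [sX, map_add, ContinuousLinearMap.add_apply, ih, eX_apply, ev, List.length_cons]
    rw [Finset.sum_Ioc_succ_top (Nat.zero_le _), anc_of_len (v := a :: v) (j := v.length + 1) rfl]
    congr 1
    exact sum_congr rfl fun j hj => by rw [anc_cons a (mem_Ioc.mp hj).2]

lemma norm_sX (v : Nd) : ‖sX v‖ ≤ 1 := by
  rw [← norm_xv]
  refine ContinuousLinearMap.opNorm_le_bound _ zero_le_one fun z => ?_
  rw [sX_apply, one_mul]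
  exact (bd_norm z).one (norm_nonneg z) le_rfl

lemma eX_tw (v : Nd) : eX (none :: tw v) = -eX (none :: v) := by
  apply xv_inj
  ext z
  simpa using (val_mem z).2.2 v

/-- Spine nodes. -/
def sp (b : Bool) (w : Nd) : ℕ → Nd
  | 0 => some b :: w
  | k + 1 => none :: sp b w k

lemma tw_sp (w : Nd) : ∀ k, tw (sp true w k) = sp false w k
  | 0 => rfl
  | k + 1 => by simp [sp, tw, tw_sp w k]

lemma len_sp (b : Bool) (w : Nd) : ∀ k, (sp b w k).length = w.length + 1 + k
  | 0 => rfl
  | k + 1 => by simp [sp, len_sp b w k]; omega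

lemma sX_sp (w : Nd) : ∀ k, sX (sp true w k) + sX (sp false w k) =
    sX (some true :: w) + sX (some false :: w)
  | 0 => rfl
  | k + 1 => by
    have ih := sX_sp w k
    have e := eX_tw (sp true w k)
    rw [tw_sp] at e
    simp only [sp]
    rw [← ih]
    simp only [sX]
    rw [e]; abel

lemma eX_null (n : ℕ → Nd) (h0 : ∀ i, n i ≠ []) (hn : Function.Injective n) (φ : XX →L[ℝ] ℝ) :
    Tendsto (fun k => φ (eX (n k))) atTop (𝓝 0) := by
  have h1 : ∀ m, ∑ k ∈ range m, φ (eX (n k)) ^ 2 ≤ ‖φ‖ ^ 2 := by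
    intro m
    set S := ∑ k ∈ range m, φ (eX (n k)) ^ 2 with hS
    have hS0 : 0 ≤ S := sum_nonneg fun _ _ => sq_nonneg _
    have h2 : ‖∑ k ∈ range m, φ (eX (n k)) • eX (n k)‖ ≤ Real.sqrt S := by
      rw [← norm_xv]
      refine ContinuousLinearMap.opNorm_le_bound _ (Real.sqrt_nonneg _) fun z => ?_
      simp only [map_sum, map_smul, ContinuousLinearMap.sum_apply, ContinuousLinearMap.smul_apply,
        eX_apply, smul_eq_mul, Real.norm_eq_abs]
      have h3 := Finset.sum_mul_sq_le_sq_mul_sq (range m) (fun k => φ (eX (n k)))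
        fun k => val z (n k)
      have h4 := (bd_norm z).pts (range m) n h0 hn
      refine abs_le.mpr (abs_le_of_sq_le_sq' (h3.trans ?_) (by positivity))
      rw [mul_pow, Real.sq_sqrt hS0]
      exact mul_le_mul_of_nonneg_left h4 hS0
    have h3 : φ (∑ k ∈ range m, φ (eX (n k)) • eX (n k)) = S := by
      simp only [map_sum, map_smul, smul_eq_mul, hS, sq]
    have h4 := φ.le_opNorm (∑ k ∈ range m, φ (eX (n k)) • eX (n k))
    rw [h3, Real.norm_eq_abs, abs_of_nonneg hS0] at h4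
    have h5 := mul_le_mul_of_nonneg_left h2 (norm_nonneg φ)
    have h6 := Real.sq_sqrt hS0
    nlinarith [sq_nonneg (Real.sqrt S - ‖φ‖)]
  have h2 : Summable fun k => φ (eX (n k)) ^ 2 :=
    summable_of_sum_range_le (fun _ => sq_nonneg _) h1
  have h3 := h2.tendsto_atTop_zero.sqrt
  simp only [Real.sqrt_sq_eq_abs, Real.sqrt_zero] at h3
  exact tendsto_zero_iff_abs_tendsto_zero _ |>.mpr h3

lemma bush (w : Nd) : ∃ D : ℕ → XX, (∀ k, (1 / 4 : ℝ) ≤ ‖D k‖) ∧
    (∀ φ : XX →L[ℝ] ℝ, Tendsto (fun k => φ (D k)) atTop (𝓝 0)) ∧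
    ∀ k, ∃ w1 w2 : Nd, (1 / 2 : ℝ) • (sX (some true :: w) + sX (some false :: w)) + D k =
      (1 / 2 : ℝ) • ((1 / 2 : ℝ) • (sX (some true :: w1) + sX (some false :: w1)) +
        (1 / 2 : ℝ) • (sX (some true :: w2) + sX (some false :: w2))) := by
  refine ⟨fun k => (1 / 4 : ℝ) • (eX (some true :: sp true w k) + eX (some false :: sp true w k) +
    eX (some true :: sp false w k) + eX (some false :: sp false w k)), ?_, ?_, ?_⟩
  · intro k
    set v : Nd := some true :: sp true w k with hv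
    have hne : sp false w k ≠ sp true w k := by
      induction k with
      | zero => simp [sp]
      | succ k ih => simpa [sp] using ih rfl
    have hm : (fun u => if u = v then (1 : ℝ) else 0) ∈ ZS := by
      refine ⟨⟨v.length + 1, fun u hu => if_neg fun e => by rw [e] at hu; omega⟩,
        by simp [hv], fun u => by simp [hv]⟩
    have h1 : ‖mkZ _ hm‖ ≤ 1 := by
      refine nrm_le (bd_lvl (j := v.length) (fun u hu => if_neg fun e => hu (by rw [e])) ?_)
        zero_le_one
      simp [mem_lev]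
    have h2 := (xv ((1 / 4 : ℝ) • (eX v + eX (some false :: sp true w k) +
      eX (some true :: sp false w k) + eX (some false :: sp false w k)))).le_opNorm (mkZ _ hm)
    rw [norm_xv] at h2
    have h3 := mul_le_mul_of_nonneg_left h1 (norm_nonneg ((1 / 4 : ℝ) • (eX v +
      eX (some false :: sp true w k) + eX (some true :: sp false w k) +
      eX (some false :: sp false w k))))
    refine le_trans (le_of_eq ?_) (h2.trans (h3.trans (mul_one _).le))
    simp [hv, hne]
  · intro φ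
    have key : ∀ a b : Bool, Tendsto (fun k => φ (eX (some a :: sp b w k))) atTop (𝓝 0) := by
      intro a b
      refine eX_null (fun k => some a :: sp b w k) (fun _ => by simp) (fun i j e => ?_) φ
      have := congrArg List.length e
      simpa [len_sp] using this
    have := ((((key true true).add (key false true)).add (key true false)).add
      (key false false)).const_mul (1 / 4 : ℝ)
    simpa [mul_add] using this
  · intro k
    refine ⟨sp true w k, sp false w k, ?_⟩
    rw [← sX_sp w k]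
    simp only [sX]
    module

theorem main : ¬ ∃ p : Seminorm ℝ XX,
    (∃ a b : ℝ, 0 < a ∧ 0 < b ∧ ∀ x : XX, a * ‖x‖ ≤ p x ∧ p x ≤ b * ‖x‖) ∧
      ∀ t : ℝ, 0 < t → 0 < ⨅ (x : XX) (_ : p x = 1), dl (fun v => p v) 1 t x := by
  rintro ⟨p, ⟨a, b, ha, hb, hp⟩, H⟩
  refine not_auc (fun w : Nd => (1 / 2 : ℝ) • (sX (some true :: w) + sX (some false :: w)))
    (show (0 : ℝ) < 1 / 4 by norm_num) (fun w => ?_) bush p ha hb hp H
  rw [norm_smul]
  have := norm_add_le (sX (some true :: w)) (sX (some false :: w))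
  norm_num
  linarith [norm_sX (some true :: w), norm_sX (some false :: w)]

end Pool.Agent.H2.Au
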