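import Mathlib

set_option autoImplicit false

open Filter Topology Set
open scoped ENNReal Nat

namespace Pool.Agent.H2.BlA

/-- abstract maximality principle -/
theorem maximal {X : Type*} [MetricSpace X] [CompleteSpace X] (r : X → X → Prop) (ph : X → ℝ)
    (hph : Continuous ph) (hrefl : ∀ x, r x x) (htr : ∀ x y z, r x y → r y z → r x z)
    (hcl : ∀ x, IsClosed {y | r x y}) (x0 : X) (B : ℝ) (hB : ∀ y, r x0 y → ph y ≤ B)
    (hmod : ∀ ε > 0, ∃ δ > 0, ∀ x y, r x y → ph y - ph x < δ → dist x y < ε) :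
    ∃ x, r x0 x ∧ ∀ y, r x y → ph y ≤ ph x := by
  have step : ∀ (k : ℕ) (x : X), ∃ x', r x0 x → (r x x' ∧
      ∀ y, r x y → ph y ≤ ph x' + 1 / ((k : ℝ) + 1)) := by
    intro k x
    by_cases hx : r x0 x
    · have hbd : BddAbove (ph '' {y | r x y}) :=
        ⟨B, by rintro _ ⟨y, hy, rfl⟩; exact hB y (htr _ _ _ hx hy)⟩
      have hne : (ph '' {y | r x y}).Nonempty := ⟨_, x, hrefl x, rfl⟩
      have hpos : (0 : ℝ) < 1 / ((k : ℝ) + 1) := by positivity
      obtain ⟨_, ⟨x', hx', rfl⟩, h2⟩ := exists_lt_of_lt_csSup hne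
        (show sSup (ph '' {y | r x y}) - 1 / ((k : ℝ) + 1) < sSup (ph '' {y | r x y}) by linarith)
      refine ⟨x', fun _ => ⟨hx', fun y hy => ?_⟩⟩
      have := le_csSup hbd ⟨y, hy, rfl⟩
      linarith
    · exact ⟨x, fun h => absurd h hx⟩
  choose f hf using step
  let u : ℕ → X := fun k => Nat.rec x0 (fun k x => f k x) k
  have hu : ∀ k, u (k + 1) = f k (u k) := fun k => rfl
  have h0 : ∀ k, r x0 (u k) := by
    intro k
    induction k with
    | zero => exact hrefl _
    | succ k ih => rw [hu]; exact htr _ _ _ ih (hf k _ ih).1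
  have h1 : ∀ k l, k ≤ l → r (u k) (u l) := by
    intro k l hkl
    induction l, hkl using Nat.le_induction with
    | base => exact hrefl _
    | succ l _ ih => rw [hu]; exact htr _ _ _ ih (hf l _ (h0 l)).1
  have h2 : ∀ k y, r (u k) y → ph y ≤ ph (u (k + 1)) + 1 / ((k : ℝ) + 1) :=
    fun k y hy => by rw [hu]; exact (hf k _ (h0 k)).2 y hy
  have hlim := tendsto_one_div_add_atTop_nhds_zero_nat (𝕜 := ℝ)
  have hc : CauchySeq u := by
    rw [Metric.cauchySeq_iff']
    intro ε hε
    obtain ⟨δ, hδ, h⟩ := hmod ε hε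
    obtain ⟨k, hk⟩ := (hlim.eventually (gt_mem_nhds hδ)).exists
    refine ⟨k + 1, fun n hn => ?_⟩
    rw [dist_comm]
    refine h _ _ (h1 _ _ hn) ?_
    have := h2 k _ (h1 k n (by omega))
    linarith
  obtain ⟨x, hx⟩ := cauchySeq_tendsto_of_complete hc
  have h3 : ∀ k, r (u k) x := fun k =>
    (hcl (u k)).mem_of_tendsto hx (eventually_atTop.2 ⟨k, fun l hl => h1 k l hl⟩)
  refine ⟨x, h3 0, fun y hy => ?_⟩
  have h4 : Tendsto (fun k : ℕ => ph (u (k + 1)) + 1 / ((k : ℝ) + 1)) atTop (𝓝 (ph x + 0)) :=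
    ((hph.tendsto x).comp (hx.comp (tendsto_add_atTop_nat 1))).add hlim
  rw [add_zero] at h4
  exact ge_of_tendsto' h4 fun k => h2 k y (htr _ _ _ (h3 k) hy)

variable {p : ℝ≥0∞} [Fact (1 ≤ p)]

/-- the sequence space -/
abbrev X (p : ℝ≥0∞) := lp (fun _ : ℕ => ℝ) p

/-- unit vectors -/
noncomputable def e (p : ℝ≥0∞) (n : ℕ) : X p := lp.single p n (1 : ℝ)

theorem q_ge (hp : p ≠ ⊤) : 1 ≤ p.toReal := by
  have h : (1 : ℝ≥0∞) ≤ p := Fact.out
  simpa using ENNReal.toReal_mono hp h

theorem norm_e (n : ℕ) : ‖e p n‖ = 1 := by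
  have h : (1 : ℝ≥0∞) ≤ p := Fact.out
  unfold e
  rw [lp.norm_single (lt_of_lt_of_le one_pos h)]
  simp

theorem e_apply (n i : ℕ) : e p n i = if i = n then 1 else 0 := by
  unfold e
  rw [lp.coeFn_single, Pi.single_apply]

theorem norm_add_e (hp : p ≠ ⊤) (x : X p) (t : ℝ) (n : ℕ) :
    ‖x + t • e p n‖ ^ p.toReal - ‖x‖ ^ p.toReal = |x n + t| ^ p.toReal - |x n| ^ p.toReal := by
  have hq : 0 < p.toReal := lt_of_lt_of_le one_pos (q_ge hp)
  have h1 := (lp.hasSum_norm hq (x + t • e p n)).sub (lp.hasSum_norm hq x)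
  refine h1.unique ?_
  have h2 := hasSum_single (f := fun i => ‖(x + t • e p n : X p) i‖ ^ p.toReal - ‖x i‖ ^ p.toReal)
    n (fun i hi => by simp [e_apply, hi])
  simpa [e_apply] using h2

theorem coord_tendsto (hp : p ≠ ⊤) (x : X p) : Tendsto (fun n => x n) atTop (𝓝 0) := by
  have hq : 0 < p.toReal := lt_of_lt_of_le one_pos (q_ge hp)
  have h1 := (lp.hasSum_norm hq x).summable.tendsto_atTop_zero
  have h2 := h1.rpow_const (p := p.toReal⁻¹) (Or.inr (by positivity))
  rw [Real.zero_rpow (by positivity)] at h2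
  rw [tendsto_zero_iff_norm_tendsto_zero]
  refine h2.congr fun n => ?_
  exact Real.rpow_rpow_inv (norm_nonneg _) hq.ne'

/-- multilinear forms of low degree vanish asymptotically on the unit vectors -/
theorem poly_aux (hp : p ≠ ⊤) {ι : Type} [Fintype ι] [DecidableEq ι]
    (A : ContinuousMultilinearMap ℝ (fun _ : ι => X p) ℝ) (j : ℕ) :
    ∀ (s : Finset ι) (v : ι → X p), s.card ≤ j → 0 < s.card → (s.card : ℝ) < p.toReal →
      Tendsto (fun n => A (s.piecewise (fun _ => e p n) v)) atTop (𝓝 0) := by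
  have hq : 0 < p.toReal := lt_of_lt_of_le one_pos (q_ge hp)
  induction j with
  | zero => intro s v h1 h2; omega
  | succ j ih =>
    intro s v h1 h2 h3
    have key : ∀ (σ δ : ℝ), 0 < δ → |σ| = 1 →
        ∀ᶠ n in atTop, σ * A (s.piecewise (fun _ => e p n) v) < δ := by
      intro σ δ hδ hσ
      by_contra hcon
      have hfr : ∃ᶠ n in atTop, δ ≤ σ * A (s.piecewise (fun _ => e p n) v) := by
        rw [Filter.not_eventually] at hcon
        exact hcon.mono fun n hn => not_lt.mp hn
      have hk : ∀ k : ℕ, ∃ x : X p, ‖x‖ ^ p.toReal ≤ k * 2 ^ p.toReal ∧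
          k * (δ / 2) ≤ σ * A (s.piecewise (fun _ => x) v) := by
        intro k
        induction k with
        | zero =>
          refine ⟨0, by simp [Real.zero_rpow hq.ne'], ?_⟩
          obtain ⟨i, hi⟩ := Finset.card_pos.mp h2
          rw [A.map_coord_zero i (by simp [hi])]
          simp
        | succ k ihk =>
          obtain ⟨x, hx1, hx2⟩ := ihk
          set v' := s.piecewise (fun _ => x) v with hv'
          have hexp : ∀ n, A (s.piecewise (fun _ => x + (1 : ℝ) • e p n) v) =
              ∑ s' ∈ s.powerset, A (s'.piecewise (fun _ => e p n) v') := by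
            intro n
            rw [← A.map_piecewise_add]
            congr 1
            ext1 i
            by_cases hi : i ∈ s
            · simp [hi, hv', add_comm]
            · simp [hi, hv']
          have hmid : Tendsto (fun n => ∑ s' ∈ (s.powerset.erase s).erase ∅,
              A (s'.piecewise (fun _ => e p n) v')) atTop (𝓝 0) := by
            have := tendsto_finset_sum ((s.powerset.erase s).erase ∅)
              (f := fun s' n => A (s'.piecewise (fun _ => e p n) v')) (a := fun _ => (0 : ℝ))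
              (x := atTop) (fun s' hs' => ?_)
            · simpa using this
            · simp only [Finset.mem_erase, Finset.mem_powerset] at hs'
              have hlt : s'.card < s.card :=
                Finset.card_lt_card (Finset.ssubset_iff_subset_ne.mpr ⟨hs'.2.2, hs'.2.1⟩)
              refine ih s' v' (by omega) (Finset.card_pos.mpr
                (Finset.nonempty_iff_ne_empty.mpr hs'.1)) ?_
              exact lt_trans (by exact_mod_cast hlt) h3
          have hev1 : ∀ᶠ n in atTop, |∑ s' ∈ (s.powerset.erase s).erase ∅,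
              A (s'.piecewise (fun _ => e p n) v')| < δ / 2 := by
            have := hmid.abs
            rw [abs_zero] at this
            exact this.eventually (gt_mem_nhds (by positivity))
          have hev2 : ∀ᶠ n in atTop, |x n| < 1 := by
            have := (coord_tendsto hp x).abs
            rw [abs_zero] at this
            exact this.eventually (gt_mem_nhds one_pos)
          obtain ⟨n, hn1, hn2, hn3⟩ := (hfr.and_eventually (hev1.and hev2)).exists
          refine ⟨x + (1 : ℝ) • e p n, ?_, ?_⟩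
          · have h5 := norm_add_e hp x 1 n
            have h6 : |x n + 1| ^ p.toReal ≤ 2 ^ p.toReal := by
              refine Real.rpow_le_rpow (abs_nonneg _) ?_ hq.le
              have := abs_add_le (x n) 1
              rw [abs_one] at this
              linarith
            have h7 : 0 ≤ |x n| ^ p.toReal := by positivity
            push_cast
            linarith
          · have hne : (∅ : Finset ι) ∈ s.powerset.erase s := by
              simp only [Finset.mem_erase, Finset.mem_powerset, Finset.empty_subset, and_true]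
              exact (Finset.nonempty_iff_ne_empty.mp (Finset.card_pos.mp h2)).symm
            rw [hexp, ← Finset.add_sum_erase _ _ (Finset.mem_powerset_self s),
              ← Finset.add_sum_erase _ _ hne]
            have e1 : s.piecewise (fun _ => e p n) v' = s.piecewise (fun _ => e p n) v := by
              ext1 i
              by_cases hi : i ∈ s
              · simp [hi]
              · simp [hi, hv']
            rw [e1, Finset.piecewise_empty, mul_add, mul_add]
            have h8 : |σ * ∑ s' ∈ (s.powerset.erase s).erase ∅,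
              A (s'.piecewise (fun _ => e p n) v')| < δ / 2 := by rwa [abs_mul, hσ, one_mul]
            have h9 := (abs_lt.mp h8).1
            push_cast
            linarith
      set D := ‖A‖ * ∏ i ∈ sᶜ, ‖v i‖ with hD
      have hD0 : 0 ≤ D := by positivity
      have hb : ∀ x : X p, σ * A (s.piecewise (fun _ => x) v) ≤ D * ‖x‖ ^ s.card := by
        intro x
        have h5 := A.le_opNorm (s.piecewise (fun _ => x) v)
        have h6 : ∏ i, ‖s.piecewise (fun _ => x) v i‖ = ‖x‖ ^ s.card * ∏ i ∈ sᶜ, ‖v i‖ := by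
          rw [← Finset.prod_mul_prod_compl s]
          congr 1
          · rw [← Finset.prod_const]
            exact Finset.prod_congr rfl fun i hi => by simp [hi]
          · exact Finset.prod_congr rfl fun i hi => by
              rw [Finset.piecewise_eq_of_notMem _ _ _ (Finset.mem_compl.mp hi)]
        calc _ ≤ |σ * A (s.piecewise (fun _ => x) v)| := le_abs_self _
          _ = ‖A (s.piecewise (fun _ => x) v)‖ := by rw [abs_mul, hσ, one_mul]; rfl
          _ ≤ _ := by rw [h6] at h5; rw [hD]; linarith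
      set θ : ℝ := s.card / p.toReal with hθ
      have hθ1 : θ < 1 := by rw [hθ, div_lt_one hq]; exact h3
      have hθ0 : 0 ≤ θ := by positivity
      have hk2 : ∀ k : ℕ, 0 < k → δ / 2 ≤ D * 2 ^ s.card * (k : ℝ) ^ (-(1 - θ)) := by
        intro k hk0
        obtain ⟨x, hx1, hx2⟩ := hk k
        have hkp : (0 : ℝ) < k := by exact_mod_cast hk0
        have h5 : ‖x‖ ^ s.card ≤ (k : ℝ) ^ θ * 2 ^ s.card := by
          have h6 := Real.rpow_le_rpow (by positivity) hx1 hθ0
          rw [← Real.rpow_mul (norm_nonneg _), Real.mul_rpow hkp.le (by positivity),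
            ← Real.rpow_mul (by norm_num)] at h6
          have e2 : p.toReal * θ = s.card := by rw [hθ]; field_simp
          rwa [e2, Real.rpow_natCast, Real.rpow_natCast] at h6
        have h7 : (k : ℝ) * (δ / 2) ≤ D * ((k : ℝ) ^ θ * 2 ^ s.card) :=
          le_trans hx2 (le_trans (hb x) (mul_le_mul_of_nonneg_left h5 hD0))
        have e3 : (k : ℝ) ^ θ = k * (k : ℝ) ^ (-(1 - θ)) := by
          rw [show θ = 1 + -(1 - θ) by ring, Real.rpow_add hkp, Real.rpow_one]
          congr 2
          ring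
        rw [e3] at h7
        have h8 : (k : ℝ) * (δ / 2) ≤ k * (D * 2 ^ s.card * (k : ℝ) ^ (-(1 - θ))) := by
          linarith
        exact le_of_mul_le_mul_left h8 hkp
      have hl := ((tendsto_rpow_neg_atTop (y := 1 - θ) (by linarith)).comp
        tendsto_natCast_atTop_atTop).const_mul (D * 2 ^ s.card)
      rw [mul_zero] at hl
      have := ge_of_tendsto hl (eventually_atTop.2 ⟨1, fun k hk0 => hk2 k hk0⟩)
      linarith
    rw [Metric.tendsto_nhds]
    intro δ hδ
    filter_upwards [key 1 δ hδ abs_one, key (-1) δ hδ (by simp)] with n h4 h5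
    rw [Real.dist_eq, sub_zero, abs_lt]
    constructor <;> linarith

theorem poly (hp : p ≠ ⊤) (k : ℕ) (hk : 0 < k) (hkp : (k : ℝ) < p.toReal)
    (A : ContinuousMultilinearMap ℝ (fun _ : Fin k => X p) ℝ) :
    Tendsto (fun n => A (fun _ => e p n)) atTop (𝓝 0) := by
  have := poly_aux hp A k Finset.univ (fun _ => 0) (by simp) (by simpa using hk) (by simpa using hkp)
  simpa using this

/-- even part of the Taylor expansion along the unit vectors -/
theorem even_taylor (hp : p ≠ ⊤) (m : ℕ) (hm : ((2 * m : ℕ) : ℝ) < p.toReal) {Y : Type*}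
    [NormedAddCommGroup Y] [NormedSpace ℝ Y] [CompleteSpace Y] (F : X p → Y)
    (hF : ContDiff ℝ ((⊤ : ℕ∞) : WithTop ℕ∞) F) (x : X p) :
    ∃ C : ℝ, 0 ≤ C ∧ ∃ δ > 0, ∀ t : ℝ, 0 < t → t < δ → ∃ W : ℕ → Y,
      (∀ ph : Y →L[ℝ] ℝ, Tendsto (fun n => ph (W n)) atTop (𝓝 0)) ∧
      ∀ n, ‖F (x + t • e p n) + F (x + (-t) • e p n) - (2 : ℝ) • F x - W n‖
        ≤ C * t ^ (2 * m + 2) := by
  have hle : ∀ k : ℕ, ((k : ℕ∞) : WithTop ℕ∞) ≤ ((⊤ : ℕ∞) : WithTop ℕ∞) := fun k => WithTop.coe_le_coe.mpr le_top
  have hc : Continuous (iteratedFDeriv ℝ (2 * m + 1 + 1) F) :=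
    hF.continuous_iteratedFDeriv (hle _)
  set C0 := ‖iteratedFDeriv ℝ (2 * m + 1 + 1) F x‖ + 1 with hC0
  obtain ⟨δ, hδ, hball⟩ : ∃ δ > 0, ∀ y, dist y x < δ →
      ‖iteratedFDeriv ℝ (2 * m + 1 + 1) F y‖ ≤ C0 := by
    have := (hc.norm.tendsto x).eventually (gt_mem_nhds (lt_add_one _))
    obtain ⟨δ, hδ, h⟩ := Metric.eventually_nhds_iff.mp this
    exact ⟨δ, hδ, fun y hy => (h hy).le⟩
  have hC00 : 0 ≤ C0 := by positivity
  have tay : ∀ y : X p, ‖y‖ < δ → ‖F (x + y) - ∑ k ∈ Finset.range (2 * m + 1 + 1),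
      (k ! : ℝ)⁻¹ • iteratedFDeriv ℝ k F x (fun _ => y)‖ ≤ C0 * ‖y‖ ^ (2 * m + 2) := by
    intro y hy
    rw [map_add_eq_sum_add_integral_iteratedFDeriv (n := 2 * m + 1) (f := F) (x := x) (y := y)
      (fun t _ => (hF.of_le (hle (2 * m + 1 + 1))).contDiffAt), add_sub_cancel_left,
      norm_smul]
    have h1 : ‖(((2 * m + 1)! : ℕ) : ℝ)⁻¹‖ ≤ 1 := by
      rw [norm_inv, Real.norm_natCast]
      exact inv_le_one_of_one_le₀ (by exact_mod_cast Nat.factorial_pos _)
    have h2 := intervalIntegral.norm_integral_le_of_norm_le_const (a := 0) (b := 1)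
      (f := fun t : ℝ => (1 - t) ^ (2 * m + 1) •
        iteratedFDeriv ℝ (2 * m + 1 + 1) F (x + t • y) (fun _ => y))
      (C := C0 * ‖y‖ ^ (2 * m + 2)) (fun t ht => by
        rw [uIoc_of_le zero_le_one] at ht
        rw [norm_smul]
        have h3 : ‖(1 - t) ^ (2 * m + 1)‖ ≤ 1 := by
          rw [norm_pow]
          exact pow_le_one₀ (norm_nonneg _) (by
            rw [Real.norm_eq_abs, abs_le]; constructor <;> linarith [ht.1, ht.2])
        have h4 := (iteratedFDeriv ℝ (2 * m + 1 + 1) F (x + t • y)).le_opNorm (fun _ => y)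
        rw [Finset.prod_const, Finset.card_univ, Fintype.card_fin] at h4
        have h5 := hball (x + t • y) (by
          rw [dist_eq_norm, add_sub_cancel_left, norm_smul, Real.norm_eq_abs, abs_of_pos ht.1]
          nlinarith [ht.1, ht.2, norm_nonneg y])
        calc _ ≤ 1 * (C0 * ‖y‖ ^ (2 * m + 2)) :=
              mul_le_mul h3 (le_trans h4 (mul_le_mul_of_nonneg_right h5 (by positivity)))
                (norm_nonneg _) zero_le_one
          _ = _ := one_mul _)
    simp only [sub_zero, abs_one, mul_one] at h2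
    calc _ ≤ 1 * (C0 * ‖y‖ ^ (2 * m + 2)) := mul_le_mul h1 h2 (norm_nonneg _) zero_le_one
      _ = _ := one_mul _
  refine ⟨2 * C0, by positivity, δ, hδ, fun t ht htδ => ?_⟩
  let c : ℕ → ℝ := fun k => (k ! : ℝ)⁻¹ * (t ^ k + (-t) ^ k)
  refine ⟨fun n => ∑ k ∈ Finset.range (2 * m + 1),
    c (k + 1) • iteratedFDeriv ℝ (k + 1) F x (fun _ => e p n), fun ph => ?_, fun n => ?_⟩
  · simp only [map_sum, map_smul, smul_eq_mul]
    have := tendsto_finset_sum (Finset.range (2 * m + 1))
      (f := fun k n => c (k + 1) * ph (iteratedFDeriv ℝ (k + 1) F x (fun _ => e p n)))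
      (a := fun _ => (0 : ℝ)) (x := atTop) (fun k hk => ?_)
    · simpa using this
    · rw [Finset.mem_range] at hk
      by_cases hk2 : k = 2 * m
      · have : c (k + 1) = 0 := by
          simp only [c]
          rw [Odd.neg_pow ⟨m, by omega⟩]
          simp
        simp [this]
      · have h6 := poly hp (k + 1) (by omega)
          (lt_of_le_of_lt (by exact_mod_cast (by omega : k + 1 ≤ 2 * m)) hm)
          (ph.compContinuousMultilinearMap (iteratedFDeriv ℝ (k + 1) F x))
        have := h6.const_mul (c (k + 1))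
        simpa using this
  · have hn : ∀ s : ℝ, |s| = t → ‖s • e p n‖ = t := fun s hs => by
      rw [norm_smul, norm_e, mul_one, Real.norm_eq_abs, hs]
    have h1 := tay (t • e p n) (by rw [hn t (abs_of_pos ht)]; exact htδ)
    have h2 := tay ((-t) • e p n) (by rw [hn (-t) (by rw [abs_neg, abs_of_pos ht])]; exact htδ)
    rw [hn t (abs_of_pos ht)] at h1
    rw [hn (-t) (by rw [abs_neg, abs_of_pos ht])] at h2
    have hs : ∀ (s : ℝ) (k : ℕ), iteratedFDeriv ℝ k F x (fun _ => s • e p n) =
        s ^ k • iteratedFDeriv ℝ k F x (fun _ => e p n) := by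
      intro s k
      rw [(iteratedFDeriv ℝ k F x).map_smul_univ (fun _ => s) (fun _ => e p n)]
      simp
    have e1 : ∑ k ∈ Finset.range (2 * m + 1 + 1),
        (k ! : ℝ)⁻¹ • iteratedFDeriv ℝ k F x (fun _ => t • e p n) +
        ∑ k ∈ Finset.range (2 * m + 1 + 1),
        (k ! : ℝ)⁻¹ • iteratedFDeriv ℝ k F x (fun _ => (-t) • e p n) =
        (2 : ℝ) • F x + ∑ k ∈ Finset.range (2 * m + 1),
          c (k + 1) • iteratedFDeriv ℝ (k + 1) F x (fun _ => e p n) := by
      rw [← Finset.sum_add_distrib]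
      have : ∀ k ∈ Finset.range (2 * m + 1 + 1),
          (k ! : ℝ)⁻¹ • iteratedFDeriv ℝ k F x (fun _ => t • e p n) +
          (k ! : ℝ)⁻¹ • iteratedFDeriv ℝ k F x (fun _ => (-t) • e p n) =
          c k • iteratedFDeriv ℝ k F x (fun _ => e p n) := by
        intro k _
        rw [hs, hs, smul_smul, smul_smul, ← add_smul]
        congr 1
        simp only [c]
        ring
      rw [Finset.sum_congr rfl this, Finset.sum_range_succ', add_comm]
      congr 1
      simp [c]
      norm_num
    have h3 := norm_add_le_of_le h1 h2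
    calc _ = ‖(F (x + t • e p n) - ∑ k ∈ Finset.range (2 * m + 1 + 1),
        (k ! : ℝ)⁻¹ • iteratedFDeriv ℝ k F x (fun _ => t • e p n)) +
        (F (x + (-t) • e p n) - ∑ k ∈ Finset.range (2 * m + 1 + 1),
        (k ! : ℝ)⁻¹ • iteratedFDeriv ℝ k F x (fun _ => (-t) • e p n))‖ := by
          congr 1
          rw [sub_add_sub_comm, e1]
          abel
      _ ≤ _ := by linarith

end Pool.Agent.H2.BlA
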