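import Pool.Agent.H2.SmA

set_option autoImplicit false

namespace Pool.Agent.H2.Sm

open Filter Topology

section Lur

variable {Z : Type} [NormedAddCommGroup Z] [NormedSpace ℝ Z]

/-- Local uniform rotundity, along ultrafilters on the natural numbers. -/
def LUR (L : Seminorm ℝ Z) : Prop :=
  ∀ (U : Ultrafilter ℕ) (a : Z) (b : ℕ → Z),
    Tendsto (fun i => D L a (b i)) U (𝓝 0) → Tendsto b U (𝓝 a)

lemma continuous_of_bound (ρ : Seminorm ℝ Z) {C : ℝ} (h : ∀ z, ρ z ≤ C * ‖z‖) : Continuous ρ := by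
  refine Seminorm.continuous_of_le (q := C.toNNReal • normSeminorm ℝ Z) ?_ fun z => ?_
  · show Continuous fun z : Z => (C.toNNReal : ℝ) * ‖z‖
    fun_prop
  · show ρ z ≤ (C.toNNReal : ℝ) * ‖z‖
    exact le_trans (h z) (mul_le_mul_of_nonneg_right (Real.le_coe_toNNReal C) (norm_nonneg _))

/-- The absolute value of a linear form, as a seminorm. -/
noncomputable def absSN {V : Type} [AddCommGroup V] [Module ℝ V] (g : V →ₗ[ℝ] ℝ) : Seminorm ℝ V :=
  (normSeminorm ℝ ℝ).comp g

lemma absSN_apply {V : Type} [AddCommGroup V] [Module ℝ V] (g : V →ₗ[ℝ] ℝ) (v : V) :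
    absSN g v = |g v| := rfl

lemma D_absSN {V : Type} [AddCommGroup V] [Module ℝ V] (g : V →ₗ[ℝ] ℝ) (a b : V) :
    D (absSN g) a b = (g a - g b) ^ 2 := by
  unfold D
  simp only [absSN_apply, sq_abs, map_add]
  ring

theorem exists_lur [TopologicalSpace.SeparableSpace Z] {r : ℝ} (hr : 0 < r) :
    ∃ L : Seminorm ℝ Z, LUR L ∧ (∀ z, L z ≤ r * ‖z‖) ∧ ∀ z, r * ‖z‖ ≤ 2 * L z := by
  haveI : Nonempty Z := ⟨0⟩
  obtain ⟨v, hv⟩ := TopologicalSpace.exists_dense_seq Z
  choose g hg1 hg2 using fun n => exists_dual_vector'' ℝ (v n)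
  have hgle : ∀ n z, |g n z| ≤ ‖z‖ := by
    intro n z
    have := (g n).le_opNorm z
    rw [Real.norm_eq_abs] at this
    exact le_trans this (mul_le_of_le_one_left (norm_nonneg _) (hg1 n))
  let P : ℕ → Z →ₗ[ℝ] Z := fun n => ((‖v n‖⁻¹ • (g n : Z →ₗ[ℝ] ℝ))).smulRight (v n)
  have hP : ∀ n z, P n z = (‖v n‖⁻¹ * g n z) • v n := fun n z => rfl
  have hPle : ∀ n z, ‖P n z‖ ≤ |g n z| := by
    intro n z
    rw [hP, norm_smul, Real.norm_eq_abs, abs_mul, abs_inv, abs_norm]
    by_cases h : ‖v n‖ = 0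
    · simp [h]
    · rw [mul_comm, ← mul_assoc, mul_inv_cancel₀ h, one_mul]
  have hPv : ∀ n, P n (v n) = v n := by
    intro n
    rw [hP, hg2]
    by_cases h : ‖v n‖ = 0
    · have : v n = 0 := norm_eq_zero.mp h
      simp [this]
    · simp only [RCLike.ofReal_real_eq_id, id]
      rw [inv_mul_cancel₀ h, one_smul]
  let ρ : ℕ → Seminorm ℝ Z := fun j =>
    match (Nat.unpair j).1 with
    | 0 => (normSeminorm ℝ Z).comp (r • LinearMap.id)
    | 1 => (normSeminorm ℝ Z).comp ((r / 2) • (LinearMap.id - P (Nat.unpair j).2))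
    | _ => absSN (r • (g (Nat.unpair j).2 : Z →ₗ[ℝ] ℝ))
  have hQ : ∀ n z, ‖z - P n z‖ ≤ 2 * ‖z‖ := by
    intro n z
    have := norm_sub_le z (P n z)
    have := hPle n z
    have := hgle n z
    linarith
  have hρ : ∀ j z, ρ j z ≤ r * ‖z‖ := by
    intro j z
    simp only [ρ]
    split
    · show ‖r • z‖ ≤ _
      rw [norm_smul, Real.norm_eq_abs, abs_of_pos hr]
    · show ‖(r / 2) • (z - P _ z)‖ ≤ _
      rw [norm_smul, Real.norm_eq_abs, abs_of_pos (by positivity)]
      have := hQ (Nat.unpair j).2 z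
      nlinarith
    · show |r * g _ z| ≤ _
      rw [abs_mul, abs_of_pos hr]
      exact mul_le_mul_of_nonneg_left (hgle _ _) hr.le
  have hB : Bd ρ := fun z => ⟨r * ‖z‖, fun j => hρ j z⟩
  refine ⟨l2 ρ hB, ?_, fun z => l2_le hB fun j => hρ j z, fun z => ?_⟩
  · intro U a b hD
    rw [Metric.tendsto_nhds]
    intro ε hε
    obtain ⟨n, hn⟩ := hv.exists_dist_lt a (show 0 < ε / 8 by positivity)
    rw [dist_eq_norm] at hn
    have h1 := tendsto_of_D _ _ _ (tendsto_D_comp hB a b hD (Nat.pair 1 n))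
    have h2 := tendsto_D_comp hB a b hD (Nat.pair 2 n)
    have e1 : ∀ z, ρ (Nat.pair 1 n) z = r / 2 * ‖z - P n z‖ := by
      intro z
      simp only [ρ, Nat.unpair_pair]
      show ‖(r / 2) • (z - P _ z)‖ = _
      rw [norm_smul, Real.norm_eq_abs, abs_of_pos (by positivity)]
    have e2 : ρ (Nat.pair 2 n) = absSN (r • (g n : Z →ₗ[ℝ] ℝ)) := by
      simp only [ρ, Nat.unpair_pair]
    simp only [e1] at h1
    simp only [e2, D_absSN] at h2
    have h3 : Tendsto (fun i => r * g n (b i)) U (𝓝 (r * g n a)) :=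
      tendsto_of_sq_le (fun i => le_of_eq rfl) h2
    have h4 : ‖a - P n a‖ < ε / 4 := by
      have h5 : a - P n a = (a - v n) - P n (a - v n) := by rw [map_sub, hPv]; abel
      rw [h5]
      have := hQ n (a - v n)
      linarith
    have h6 : ∀ᶠ i in U, r / 2 * ‖b i - P n (b i)‖ < r / 2 * (ε / 4) :=
      h1.eventually (gt_mem_nhds (mul_lt_mul_of_pos_left h4 (by positivity)))
    have h7 : ∀ᶠ i in U, dist (r * g n (b i)) (r * g n a) < r * (ε / 4) :=
      Metric.tendsto_nhds.mp h3 _ (by positivity)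
    filter_upwards [h6, h7] with i hi1 hi2
    have h8 : ‖b i - P n (b i)‖ < ε / 4 := lt_of_mul_lt_mul_left hi1 (by positivity)
    rw [Real.dist_eq, ← mul_sub, abs_mul, abs_of_pos hr] at hi2
    have h9 : |g n (b i) - g n a| < ε / 4 := lt_of_mul_lt_mul_left hi2 hr.le
    have h10 := hPle n (b i - a)
    rw [map_sub (g n)] at h10
    have h11 : b i - a = (b i - P n (b i)) - (a - P n a) + P n (b i - a) := by
      rw [map_sub]; abel
    rw [dist_eq_norm, h11]
    have h12 := norm_add_le ((b i - P n (b i)) - (a - P n a)) (P n (b i - a))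
    have h13 := norm_sub_le (b i - P n (b i)) (a - P n a)
    linarith
  · have h1 := term_le_l2 hB z 0
    have e0 : ρ 0 z = r * ‖z‖ := by
      simp only [ρ, Nat.unpair_zero]
      show ‖r • z‖ = _
      rw [norm_smul, Real.norm_eq_abs, abs_of_pos hr]
    rw [e0] at h1
    refine (abs_le_of_sq_le_sq' ?_ (by have := apply_nonneg (l2 ρ hB) z; linarith)).2
    nlinarith [sq_nonneg (l2 ρ hB z)]

lemma LUR.eq_of_D {L : Seminorm ℝ Z} (h : LUR L) {a b : Z} (hD : D L a b ≤ 0) : a = b := by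
  have h0 : D L a b = 0 := le_antisymm hD (D_nonneg _ _ _)
  have := h (Filter.hyperfilter ℕ) a (fun _ => b) (by simp only [h0]; exact tendsto_const_nhds)
  exact (tendsto_nhds_unique this tendsto_const_nhds)

end Lur

section Smul

variable {E : Type} [NormedAddCommGroup E] [NormedSpace ℝ E]

lemma tendsto_inv_U (U : Ultrafilter ℕ) (hU : (U : Filter ℕ) ≤ atTop) :
    Tendsto (fun k : ℕ => 1 / ((k:ℝ) + 1)) U (𝓝 0) :=
  tendsto_one_div_add_atTop_nhds_zero_nat.mono_left hU

lemma hyper_le : ((Filter.hyperfilter ℕ : Ultrafilter ℕ) : Filter ℕ) ≤ atTop := by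
  rw [← Nat.cofinite_eq_atTop]
  exact Filter.hyperfilter_le_cofinite

/-- Strong exposedness implies differentiability of the support function. -/
lemma S1 (K : Set (StrongDual ℝ E)) (R : ℝ) (hR : ∀ z ∈ K, ‖z‖ ≤ R) (f : E → ℝ)
    (hle : ∀ z ∈ K, ∀ x, z x ≤ f x) (hge : ∀ x c, (∀ z ∈ K, z x ≤ c) → f x ≤ c)
    (x0 : E) (z0 : StrongDual ℝ E) (hz0 : z0 ∈ K) (h0 : z0 x0 = f x0)
    (hexp : ∀ (U : Ultrafilter ℕ) (z : ℕ → StrongDual ℝ E), (∀ k, z k ∈ K) →
      Tendsto (fun k => z k x0) U (𝓝 (f x0)) → Tendsto z U (𝓝 z0)) :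
    HasFDerivAt f z0 x0 := by
  have hδ : ∀ ε > 0, ∃ δ > 0, ∀ z ∈ K, f x0 - δ < z x0 → ‖z - z0‖ ≤ ε := by
    intro ε hε
    by_contra hcon
    push Not at hcon
    choose z hz1 hz2 hz3 using fun k : ℕ => hcon (1 / ((k:ℝ) + 1)) (by positivity)
    have h1 : Tendsto (fun k => z k x0) (Filter.hyperfilter ℕ) (𝓝 (f x0)) := by
      have h2 := (tendsto_inv_U _ hyper_le).const_sub (f x0)
      rw [sub_zero] at h2
      exact tendsto_of_tendsto_of_tendsto_of_le_of_le h2 tendsto_const_nhds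
        (fun k => (hz2 k).le) (fun k => hle _ (hz1 k) x0)
    have h3 := Metric.tendsto_nhds.mp (hexp _ z hz1 h1) ε hε
    obtain ⟨k, hk⟩ := h3.exists
    rw [dist_eq_norm] at hk
    exact absurd (hz3 k) (not_lt.mpr hk.le)
  rw [hasFDerivAt_iff_isLittleO_nhds_zero, Asymptotics.isLittleO_iff]
  intro ε hε
  obtain ⟨δ, hδ0, hδ⟩ := hδ ε hε
  have hR0 : 0 ≤ R := le_trans (norm_nonneg _) (hR z0 hz0)
  have hb : ∀ᶠ h in 𝓝 (0:E), ‖h‖ < δ / (2 * R + 1) := by
    have := Metric.ball_mem_nhds (0:E) (show 0 < δ / (2 * R + 1) by positivity)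
    filter_upwards [this] with h hh
    simpa using hh
  filter_upwards [hb] with h hh
  have h1 : 0 ≤ f (x0 + h) - f x0 - z0 h := by
    have := hle z0 hz0 (x0 + h)
    rw [map_add, h0] at this
    linarith
  rw [Real.norm_eq_abs, abs_of_nonneg h1]
  have h2 : f (x0 + h) ≤ f x0 + z0 h + ε * ‖h‖ := by
    refine hge _ _ fun z hz => ?_
    rw [map_add]
    have hn := norm_nonneg h
    by_cases hc : f x0 - δ < z x0
    · have h3 := hδ z hz hc
      have h4 := (z - z0).le_opNorm h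
      rw [Real.norm_eq_abs, ContinuousLinearMap.sub_apply] at h4
      have h5 := le_abs_self (z h - z0 h)
      have h6 := hle z hz x0
      nlinarith
    · have h3 := z.le_opNorm h
      have h4 := z0.le_opNorm h
      rw [Real.norm_eq_abs] at h3 h4
      have h5 := le_abs_self (z h)
      have h6 := neg_abs_le (z0 h)
      have h7 := mul_le_mul_of_nonneg_right (hR z hz) hn
      have h8 := mul_le_mul_of_nonneg_right (hR z0 hz0) hn
      rw [lt_div_iff₀ (by positivity)] at hh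
      nlinarith
  linarith

/-- Differentiability implies strong exposedness. -/
lemma S2' {ι : Type} {l : Filter ι} (f : E → ℝ) (x0 : E) (z0 : StrongDual ℝ E)
    (hf : HasFDerivAt f z0 x0) (z : ι → StrongDual ℝ E) (hz : ∀ᶠ k in l, ∀ x, z k x ≤ f x)
    (hlim : Tendsto (fun k => z k x0) l (𝓝 (f x0))) : Tendsto z l (𝓝 z0) := by
  rw [Metric.tendsto_nhds]
  intro ε hε
  rw [hasFDerivAt_iff_isLittleO_nhds_zero, Asymptotics.isLittleO_iff] at hf
  obtain ⟨r, hr, hball⟩ := Metric.eventually_nhds_iff.mp (hf (show 0 < ε / 8 by positivity))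
  have h1 : ∀ᶠ k in l, f x0 - ε * r / 16 < z k x0 :=
    hlim.eventually (lt_mem_nhds (by have : 0 < ε * r / 16 := by positivity
                                     linarith))
  filter_upwards [hz, h1] with k hk1 hk2
  rw [dist_eq_norm]
  have key : ∀ h : E, ‖h‖ = r / 2 → (z k - z0) h ≤ ε / 4 * (r / 2) := by
    intro h hh
    have h2 := hball (y := h) (by rw [dist_zero_right, hh]; linarith)
    rw [Real.norm_eq_abs, hh] at h2
    have h3 := le_abs_self (f (x0 + h) - f x0 - z0 h)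
    have h4 := hk1 (x0 + h)
    rw [map_add] at h4
    rw [ContinuousLinearMap.sub_apply]
    nlinarith
  have h5 : ‖z k - z0‖ ≤ ε / 4 := by
    refine ContinuousLinearMap.opNorm_le_bound _ (by positivity) fun x => ?_
    by_cases hx : x = 0
    · simp [hx]
    have hxn : 0 < ‖x‖ := norm_pos_iff.mpr hx
    have hs : ‖(r / 2 / ‖x‖) • x‖ = r / 2 := by
      rw [norm_smul, Real.norm_eq_abs, abs_of_pos (by positivity)]
      field_simp
    have h6 := key _ hs
    have h7 := key (-((r / 2 / ‖x‖) • x)) (by rw [norm_neg, hs])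
    rw [map_neg] at h7
    rw [map_smul, smul_eq_mul] at h6 h7
    have h8 : |r / 2 / ‖x‖ * (z k - z0) x| ≤ ε / 4 * (r / 2) := abs_le.mpr ⟨by linarith, h6⟩
    rw [abs_mul, abs_of_pos (by positivity), div_mul_eq_mul_div, div_le_iff₀ hxn] at h8
    rw [Real.norm_eq_abs]
    have h9 : r / 2 * |(z k - z0) x| ≤ r / 2 * (ε / 4 * ‖x‖) := by linarith
    exact le_of_mul_le_mul_left h9 (by positivity)
  linarith

lemma S2t {ι : Type} {l : Filter ι} (f : E → ℝ) (x0 : E) (z0 : StrongDual ℝ E)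
    (hf : HasFDerivAt f z0 x0) (z : ι → StrongDual ℝ E) (t : ι → ℝ) (ht : Tendsto t l (𝓝 1))
    (hz : ∀ k x, z k x ≤ t k * f x)
    (hlim : Tendsto (fun k => z k x0) l (𝓝 (f x0))) : Tendsto z l (𝓝 z0) := by
  have hpos : ∀ᶠ k in l, 0 < t k := ht.eventually (lt_mem_nhds one_pos)
  have hinv : Tendsto (fun k => (t k)⁻¹) l (𝓝 1) := by
    simpa using ht.inv₀ one_ne_zero
  have h1 : Tendsto (fun k => (t k)⁻¹ • z k) l (𝓝 z0) := by
    refine S2' f x0 z0 hf _ ?_ ?_
    · filter_upwards [hpos] with k hk x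
      rw [ContinuousLinearMap.smul_apply, smul_eq_mul, inv_mul_le_iff₀ hk]
      exact hz k x
    · have := hinv.mul hlim
      rw [one_mul] at this
      exact this
  have h2 := ht.smul h1
  rw [one_smul] at h2
  refine h2.congr' ?_
  filter_upwards [hpos] with k hk
  rw [smul_smul, mul_inv_cancel₀ hk.ne', one_smul]

/-- The derivative of a seminorm is a supporting form. -/
lemma deriv_support (q : Seminorm ℝ E) (y : E) (w : StrongDual ℝ E) (h : HasFDerivAt q w y) :
    (∀ x, w x ≤ q x) ∧ w y = q y := by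
  have hline : ∀ x : E, Tendsto (fun t : ℝ => t⁻¹ * (q (y + t • x) - q y)) (𝓝[>] 0) (𝓝 (w x)) := by
    intro x
    have h1 : HasDerivAt (fun t : ℝ => y + t • x) x 0 := by
      simpa using ((hasDerivAt_id (0:ℝ)).smul_const x).const_add y
    have h2 : HasFDerivAt q w (y + (0:ℝ) • x) := by simpa using h
    have h3 := h2.comp_hasDerivAt (0:ℝ) h1
    have h4 := h3.tendsto_slope_zero_right
    simpa [Function.comp] using h4
  constructor
  · intro x
    refine le_of_tendsto (hline x) (eventually_nhdsWithin_of_forall fun t ht => ?_)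
    have ht' : (0:ℝ) < t := ht
    rw [inv_mul_le_iff₀ ht']
    have := map_add_le_add q y (t • x)
    rw [map_smul_eq_mul, Real.norm_eq_abs, abs_of_pos ht'] at this
    linarith
  · refine tendsto_nhds_unique (hline y) (tendsto_const_nhds.congr' ?_)
    refine eventually_nhdsWithin_of_forall fun t ht => ?_
    have ht' : (0:ℝ) < t := ht
    have : y + t • y = (1 + t) • y := by rw [add_smul, one_smul]
    show q y = t⁻¹ * (q (y + t • y) - q y)
    rw [this, map_smul_eq_mul, Real.norm_eq_abs, abs_of_pos (by linarith)]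
    field_simp
    ring

/-- Pointwise ultralimit of a bounded sequence of continuous linear forms. -/
lemma limit_form (U : Ultrafilter ℕ) (z : ℕ → StrongDual ℝ E) (R : ℝ) (hR : ∀ k, ‖z k‖ ≤ R) :
    ∃ z' : StrongDual ℝ E, ∀ x, Tendsto (fun k => z k x) U (𝓝 (z' x)) := by
  have hc := ContinuousLinearMap.isCompact_image_coe_closedBall (0 : StrongDual ℝ E) R
  have hm : ((U.map fun k => (z k : E → ℝ) : Ultrafilter (E → ℝ)) : Filter (E → ℝ)) ≤
      𝓟 (((↑) : StrongDual ℝ E → E → ℝ) '' Metric.closedBall 0 R) := by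
    rw [le_principal_iff, Ultrafilter.coe_map, mem_map]
    refine Eventually.of_forall fun k => ⟨z k, by simpa using hR k, rfl⟩
  obtain ⟨_, ⟨z', _, rfl⟩, hlim⟩ := hc.ultrafilter_le_nhds _ hm
  exact ⟨z', fun x => (tendsto_pi_nhds.mp hlim) x⟩

end Smul

section Refl

variable {X : Type} [NormedAddCommGroup X] [NormedSpace ℝ X]

lemma mem_of_limit (hJ : Function.Surjective (NormedSpace.inclusionInDoubleDual ℝ X))
    (U : Ultrafilter ℕ) (z : ℕ → StrongDual ℝ X) (z' : StrongDual ℝ X)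
    (h : ∀ x, Tendsto (fun k => z k x) U (𝓝 (z' x))) (B : Set (StrongDual ℝ X))
    (hc : Convex ℝ B) (hB : IsClosed B) (hz : ∀ᶠ k in U, z k ∈ B) : z' ∈ B := by
  by_contra hcon
  obtain ⟨f, u, h1, h2⟩ := geometric_hahn_banach_point_closed hc hB hcon
  obtain ⟨x, rfl⟩ := hJ f
  have h3 : u ≤ z' x := ge_of_tendsto (h x) (hz.mono fun k hk => (h2 _ hk).le)
  exact absurd h1 (not_lt.mpr h3)

lemma attain (hJ : Function.Surjective (NormedSpace.inclusionInDoubleDual ℝ X))
    (C : Set X) (hc : Convex ℝ C) (hC : IsClosed C) (R : ℝ) (hR : ∀ x ∈ C, ‖x‖ ≤ R)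
    (u : StrongDual ℝ X) (m : ℝ) (h : ∀ ε > 0, ∃ x ∈ C, m - ε < u x) : ∃ x ∈ C, m ≤ u x := by
  choose x hx1 hx2 using fun k : ℕ => h (1 / ((k:ℝ) + 1)) (by positivity)
  obtain ⟨ξ, hξ⟩ := limit_form (Filter.hyperfilter ℕ)
    (fun k => NormedSpace.inclusionInDoubleDual ℝ X (x k)) R
    (fun k => le_trans (NormedSpace.double_dual_bound ℝ X (x k)) (hR _ (hx1 k)))
  obtain ⟨y, rfl⟩ := hJ ξ
  have hξ' : ∀ f : StrongDual ℝ X, Tendsto (fun k => f (x k)) (Filter.hyperfilter ℕ) (𝓝 (f y)) := hξ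
  refine ⟨y, ?_, ?_⟩
  · by_contra hcon
    obtain ⟨f, v, h1, h2⟩ := geometric_hahn_banach_point_closed hc hC hcon
    have h3 : v ≤ f y := ge_of_tendsto' (hξ' f) (fun k => (h2 _ (hx1 k)).le)
    exact absurd h1 (not_lt.mpr h3)
  · have h2 := (tendsto_inv_U _ hyper_le).const_sub m
    rw [sub_zero] at h2
    exact le_of_tendsto_of_tendsto' h2 (hξ' u) fun k => (hx2 k).le

lemma separable_dual [TopologicalSpace.SeparableSpace X]
    (hJ : Function.Surjective (NormedSpace.inclusionInDoubleDual ℝ X)) :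
    TopologicalSpace.SeparableSpace (StrongDual ℝ X) := by
  haveI : Nonempty X := ⟨0⟩
  obtain ⟨v, hv⟩ := TopologicalSpace.exists_dense_seq X
  choose g hg1 hg2 using fun n => exists_dual_vector'' ℝ (v n)
  let S : Submodule ℝ (StrongDual ℝ X) := (Submodule.span ℝ (Set.range g)).topologicalClosure
  have hsep : TopologicalSpace.IsSeparable (S : Set (StrongDual ℝ X)) :=
    ((Set.countable_range g).isSeparable.span (R := ℝ)).closure
  rw [← TopologicalSpace.isSeparable_univ_iff]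
  refine hsep.mono fun z _ => ?_
  by_contra hcon
  obtain ⟨f, u, h1, h2⟩ := geometric_hahn_banach_point_closed S.convex
    (Submodule.isClosed_topologicalClosure _) hcon
  obtain ⟨x, rfl⟩ := hJ f
  have h1' : z x < u := h1
  have h2' : ∀ b ∈ S, u < b x := h2
  have hu : u < 0 := by simpa using h2' 0 S.zero_mem
  have hzero : ∀ n, g n x = 0 := by
    intro n
    by_contra hne
    have hm : g n ∈ S := Submodule.le_topologicalClosure _ (Submodule.subset_span ⟨n, rfl⟩)
    have := h2' _ (S.smul_mem (u / g n x) hm)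
    rw [ContinuousLinearMap.smul_apply, smul_eq_mul, div_mul_cancel₀ _ hne] at this
    exact lt_irrefl _ this
  have hx : x ≠ 0 := by
    rintro rfl
    rw [map_zero] at h1'
    linarith
  have hxn : 0 < ‖x‖ := norm_pos_iff.mpr hx
  obtain ⟨n, hn⟩ := hv.exists_dist_lt x (show 0 < ‖x‖ / 2 by positivity)
  rw [dist_eq_norm] at hn
  have h3 := (g n).le_opNorm (x - v n)
  have h4 : g n (v n) = ‖v n‖ := hg2 n
  rw [map_sub, hzero, h4, zero_sub, norm_neg, norm_norm] at h3
  have h5 := mul_le_of_le_one_left (norm_nonneg (x - v n)) (hg1 n)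
  have h6 : ‖x‖ ≤ ‖x - v n‖ + ‖v n‖ := by
    simpa using norm_add_le (x - v n) (v n)
  linarith

end Refl

end Pool.Agent.H2.Sm
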