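import Pool.Agent.H2.BlA
import Pool.Agent.H2.SmB

set_option autoImplicit false

open Filter Topology Set
open scoped ENNReal

namespace Pool.Agent.H2.BlB

open Pool.Agent.H2.BlA

theorem pw {q : ℝ} (hq : 1 ≤ q) (M : ℝ) : ∃ L : ℝ, 0 ≤ L ∧ ∀ s a b ε : ℝ, 0 ≤ a → 0 ≤ b →
    0 ≤ s → s ≤ M → 0 ≤ ε → s - ε ≤ (a + b) / 2 → s ^ q - L * ε ≤ (a ^ q + b ^ q) / 2 := by
  have h1 : ContDiff ℝ (1 : ℕ) fun x : ℝ => x ^ q :=
    Real.contDiff_rpow_const_of_le (by simpa using hq)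
  obtain ⟨K, hK⟩ := (h1.locallyLipschitz.locallyLipschitzOn
    (s := Icc 0 M)).exists_lipschitzOnWith_of_compact isCompact_Icc
  refine ⟨K, K.2, fun s a b ε ha hb hs hsM hε h => ?_⟩
  have h2 := (convexOn_rpow hq).2 (mem_Ici.mpr ha) (mem_Ici.mpr hb)
    (show (0 : ℝ) ≤ 1 / 2 by norm_num) (show (0 : ℝ) ≤ 1 / 2 by norm_num) (by norm_num)
  simp only [smul_eq_mul] at h2
  rw [show 1 / 2 * a + 1 / 2 * b = (a + b) / 2 by ring] at h2
  have hK0 : (0 : ℝ) ≤ K := K.2
  by_cases hc : s ≤ (a + b) / 2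
  · have := Real.rpow_le_rpow hs hc (by linarith : 0 ≤ q)
    nlinarith [mul_nonneg hK0 hε]
  · push Not at hc
    have h3 := hK.dist_le_mul s ⟨hs, hsM⟩ ((a + b) / 2) ⟨by positivity, by linarith⟩
    rw [Real.dist_eq, Real.dist_eq, abs_of_pos (by linarith : 0 < s - (a + b) / 2)] at h3
    have h4 := le_abs_self (s ^ q - ((a + b) / 2) ^ q)
    have h5 : (K : ℝ) * (s - (a + b) / 2) ≤ K * ε := mul_le_mul_of_nonneg_left (by linarith) hK0
    linarith

variable {p : ℝ≥0∞} [Fact (1 ≤ p)]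

/-- evaluation -/
noncomputable def ev (p : ℝ≥0∞) [Fact (1 ≤ p)] (i : ℕ) : X p →L[ℝ] ℝ :=
  lp.evalCLM ℝ (fun _ : ℕ => ℝ) p i

theorem ev_apply (i : ℕ) (w : X p) : ev p i w = w i := rfl

/-- head projection -/
noncomputable def P (p : ℝ≥0∞) [Fact (1 ≤ p)] (N : ℕ) : X p →L[ℝ] X p :=
  ∑ i ∈ Finset.range N, (ev p i).smulRight (e p i)

theorem P_apply (N : ℕ) (w : X p) : P p N w = ∑ i ∈ Finset.range N, w i • e p i := by
  simp [P, ev_apply]

theorem P_norm (hp : p ≠ ⊤) (N : ℕ) (w : X p) :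
    ‖P p N w‖ ^ p.toReal = ∑ i ∈ Finset.range N, ‖w i‖ ^ p.toReal := by
  have hq : 0 < p.toReal := lt_of_lt_of_le one_pos (q_ge hp)
  rw [← lp.norm_sum_single hq (fun i => w i), P_apply]
  congr 2
  refine Finset.sum_congr rfl fun i _ => ?_
  unfold e
  rw [← lp.single_smul]
  simp

theorem P_add (hp : p ≠ ⊤) {N n : ℕ} (h : N ≤ n) (w : X p) :
    ‖P p N w‖ ^ p.toReal + |w n| ^ p.toReal ≤ ‖w‖ ^ p.toReal := by
  have hq : 0 < p.toReal := lt_of_lt_of_le one_pos (q_ge hp)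
  have := lp.sum_rpow_le_norm_rpow hq w (insert n (Finset.range N))
  rw [Finset.sum_insert (by simpa using h), ← P_norm hp] at this
  simpa [add_comm] using this

theorem P_le (hp : p ≠ ⊤) (N : ℕ) (w : X p) : ‖P p N w‖ ≤ ‖w‖ := by
  have hq : 0 < p.toReal := lt_of_lt_of_le one_pos (q_ge hp)
  have h := P_add hp (le_refl N) w
  have h2 : 0 ≤ |w N| ^ p.toReal := by positivity
  exact (Real.rpow_le_rpow_iff (norm_nonneg _) (norm_nonneg _) hq).mp (by linarith)

theorem step (hp : p ≠ ⊤) (m : ℕ) (hm : ((2 * m : ℕ) : ℝ) < p.toReal)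
    (hm2 : p.toReal < ((2 * m + 2 : ℕ) : ℝ)) (H : X p → X p)
    (hH : ContDiff ℝ ((⊤ : ℕ∞) : WithTop ℕ∞) H) (M : ℝ) (hM : ∀ y, ‖H y‖ ≤ M) (b : X p → ℝ)
    (hb : ContDiff ℝ ((⊤ : ℕ∞) : WithTop ℕ∞) b) (x : X p)
    (hx : ∃ᶠ n in atTop, 3 / 8 ≤ fderiv ℝ H x (e p n) n) :
    ∃ (n : ℕ) (s : ℝ), 2 * |x n| ≤ |x n + s| ∧ |x n| < |x n + s| ∧
      1 / (2 * 16 ^ p.toReal) * (|x n + s| ^ p.toReal - |x n| ^ p.toReal) ≤
        (‖H (x + s • e p n)‖ ^ p.toReal - b (x + s • e p n)) - (‖H x‖ ^ p.toReal - b x) := by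
  have hq1 := q_ge hp
  set q := p.toReal with hqd
  have hq : 0 < q := lt_of_lt_of_le one_pos hq1
  obtain ⟨L, hL0, hL⟩ := pw hq1 M
  obtain ⟨C1, hC1, δ1, hδ1, T1⟩ := even_taylor hp m hm H hH x
  obtain ⟨C2, hC2, δ2, hδ2, T2⟩ := even_taylor hp m hm b hb x
  have hd := ((hH.differentiable (by simp)) x).hasFDerivAt
  rw [hasFDerivAt_iff_isLittleO_nhds_zero] at hd
  obtain ⟨δ3, hδ3, T3⟩ := Metric.eventually_nhds_iff.mp (hd.def (show (0 : ℝ) < 1 / 8 by norm_num))
  have hsm : ∀ᶠ t : ℝ in 𝓝[>] 0, (L * C1 + C2) * t ^ (((2 * m + 2 : ℕ) : ℝ) - q) <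
      (1 / 8) ^ q / 4 := by
    have h1 : Tendsto (fun t : ℝ => t ^ (((2 * m + 2 : ℕ) : ℝ) - q)) (𝓝 0) (𝓝 0) := by
      have := (Real.continuousAt_rpow_const 0 (((2 * m + 2 : ℕ) : ℝ) - q)
        (Or.inr (by linarith))).tendsto
      rwa [Real.zero_rpow (by linarith)] at this
    have h2 := (h1.const_mul (L * C1 + C2)).mono_left (nhdsWithin_le_nhds (s := Ioi 0))
    rw [mul_zero] at h2
    exact h2.eventually (gt_mem_nhds (by positivity))
  have hlt : ∀ δ : ℝ, 0 < δ → ∀ᶠ t : ℝ in 𝓝[>] 0, t < δ := fun δ hδ =>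
    nhdsWithin_le_nhds (gt_mem_nhds hδ)
  obtain ⟨t, ht0, ht1, ht2, ht3, ht4⟩ := (eventually_mem_nhdsWithin.and ((hlt _ hδ1).and
    ((hlt _ hδ2).and ((hlt _ hδ3).and hsm)))).exists
  replace ht0 : 0 < t := ht0
  set g := (t / 8) ^ q with hg
  have hg0 : 0 < g := by positivity
  have ht5 : (L * C1 + C2) * t ^ (2 * m + 2) ≤ g / 4 := by
    have e1 : t ^ (2 * m + 2) = t ^ (((2 * m + 2 : ℕ) : ℝ) - q) * t ^ q := by
      rw [← Real.rpow_add ht0, sub_add_cancel, Real.rpow_natCast]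
    have e2 : g = (1 / 8) ^ q * t ^ q := by
      rw [hg, ← Real.mul_rpow (by norm_num) ht0.le]
      congr 1
      ring
    rw [e1, e2, ← mul_assoc]
    have : 0 < t ^ q := by positivity
    nlinarith
  obtain ⟨W1, hW1, hR1⟩ := T1 t ht0 ht1
  obtain ⟨W2, hW2, hR2⟩ := T2 t ht0 ht2
  obtain ⟨N, hN⟩ : ∃ N, ‖H x‖ ^ q - g / 8 < ‖P p N (H x)‖ ^ q := by
    have h1 := (lp.hasSum_norm hq (H x)).tendsto_sum_nat
    obtain ⟨N, hN⟩ := (h1.eventually (lt_mem_nhds
      (show ‖H x‖ ^ q - g / 8 < ‖H x‖ ^ q by linarith))).exists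
    exact ⟨N, by rw [P_norm hp]; exact hN⟩
  have hev1 : ∀ᶠ n in atTop, L * ‖P p N (W1 n)‖ + |W2 n| < g / 4 := by
    have h1 : Tendsto (fun n => P p N (W1 n)) atTop (𝓝 0) := by
      simp only [P_apply]
      have := tendsto_finset_sum (Finset.range N) (f := fun i n => W1 n i • e p i)
        (a := fun i => (0 : ℝ) • e p i) (x := atTop) fun i _ => (hW1 (ev p i)).smul_const _
      simpa using this
    have h2 := (h1.norm.const_mul L).add (hW2 (ContinuousLinearMap.id ℝ ℝ)).abs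
    simp only [norm_zero, mul_zero, abs_zero, add_zero] at h2
    exact h2.eventually (gt_mem_nhds (by positivity))
  have hev2 : ∀ (z : X p) (η : ℝ), 0 < η → ∀ᶠ n in atTop, |z n| < η := fun z η hη => by
    have := (coord_tendsto hp z).abs
    rw [abs_zero] at this
    exact this.eventually (gt_mem_nhds hη)
  obtain ⟨n, hn1, hn2, hn3, hn4, hn5⟩ := (hx.and_eventually (hev1.and
    ((hev2 (H x) (t / 8) (by positivity)).and ((hev2 x (t / 3) (by positivity)).and
      (eventually_ge_atTop N))))).exists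
  have hp0 : p ≠ 0 := (lt_of_lt_of_le one_pos (Fact.out : 1 ≤ p)).ne'
  have tail : ∀ s : ℝ, |s| = t → g ≤ |H (x + s • e p n) n| ^ q := by
    intro s hs
    have hn : ‖s • e p n‖ = t := by rw [norm_smul, norm_e, mul_one, Real.norm_eq_abs, hs]
    have h1 := T3 (y := s • e p n) (by rw [dist_zero_right, hn]; exact ht3)
    rw [hn] at h1
    have h2 := le_trans (lp.norm_apply_le_norm hp0 _ n) h1
    rw [map_smul] at h2
    simp only [lp.coeFn_sub, lp.coeFn_smul, Pi.sub_apply, Pi.smul_apply, smul_eq_mul,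
      Real.norm_eq_abs] at h2
    refine Real.rpow_le_rpow (by positivity) ?_ hq.le
    have h3 : |s * fderiv ℝ H x (e p n) n| ≥ t * (3 / 8) := by
      rw [abs_mul, hs]
      exact mul_le_mul_of_nonneg_left (le_trans hn1 (le_abs_self _)) ht0.le
    have h4 := abs_sub_abs_le_abs_sub (s * fderiv ℝ H x (e p n) n)
      (H (x + s • e p n) n - H x n)
    rw [abs_sub_comm (s * fderiv ℝ H x (e p n) n)] at h4
    have h5 := abs_sub (H (x + s • e p n) n) (H x n)
    linarith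
  have head := hL ‖P p N (H x)‖ ‖P p N (H (x + t • e p n))‖ ‖P p N (H (x + (-t) • e p n))‖
    ((‖P p N (W1 n)‖ + C1 * t ^ (2 * m + 2)) / 2) (norm_nonneg _) (norm_nonneg _) (norm_nonneg _)
    (le_trans (P_le hp _ _) (hM _)) (by positivity) (by
      have h1 := le_trans (P_le hp N _) (hR1 n)
      simp only [map_sub, map_add, map_smul] at h1
      have h2 : ‖(2 : ℝ) • P p N (H x)‖ = 2 * ‖P p N (H x)‖ := by rw [norm_smul]; simp
      have h3 : (2 : ℝ) • P p N (H x) = (P p N (H (x + t • e p n)) + P p N (H (x + (-t) • e p n)))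
          - (P p N (H (x + t • e p n)) + P p N (H (x + (-t) • e p n)) - (2 : ℝ) • P p N (H x)
            - P p N (W1 n)) - P p N (W1 n) := by abel
      have h4 := norm_sub_le ((P p N (H (x + t • e p n)) + P p N (H (x + (-t) • e p n)))
          - (P p N (H (x + t • e p n)) + P p N (H (x + (-t) • e p n)) - (2 : ℝ) • P p N (H x)
            - P p N (W1 n))) (P p N (W1 n))
      rw [← h3, h2] at h4
      have h5 := norm_sub_le (P p N (H (x + t • e p n)) + P p N (H (x + (-t) • e p n)))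
          (P p N (H (x + t • e p n)) + P p N (H (x + (-t) • e p n)) - (2 : ℝ) • P p N (H x)
            - P p N (W1 n))
      have h6 := norm_add_le (P p N (H (x + t • e p n))) (P p N (H (x + (-t) • e p n)))
      linarith)
  have a1 := P_add hp hn5 (H (x + t • e p n))
  have a2 := P_add hp hn5 (H (x + (-t) • e p n))
  have a3 := tail t (abs_of_pos ht0)
  have a4 := tail (-t) (by rw [abs_neg, abs_of_pos ht0])
  have a5 := hR2 n
  rw [Real.norm_eq_abs, smul_eq_mul] at a5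
  have a6 := (abs_le.mp a5).2
  have a7 := le_abs_self (W2 n)
  have fin : ∀ s : ℝ, |s| = t → g / 2 ≤ (‖H (x + s • e p n)‖ ^ q - b (x + s • e p n)) -
      (‖H x‖ ^ q - b x) → ∃ (n : ℕ) (s : ℝ), 2 * |x n| ≤ |x n + s| ∧ |x n| < |x n + s| ∧
      1 / (2 * 16 ^ q) * (|x n + s| ^ q - |x n| ^ q) ≤
        (‖H (x + s • e p n)‖ ^ q - b (x + s • e p n)) - (‖H x‖ ^ q - b x) := by
    intro s hs h
    have h1 := abs_sub_abs_le_abs_sub s (-x n)
    rw [abs_neg, sub_neg_eq_add, add_comm s, hs] at h1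
    have h2 := abs_add_le (x n) s
    refine ⟨n, s, by linarith, by linarith, le_trans ?_ h⟩
    have h3 : |x n + s| ^ q ≤ (16 * (t / 8)) ^ q :=
      Real.rpow_le_rpow (abs_nonneg _) (by linarith) hq.le
    rw [Real.mul_rpow (by norm_num) (by positivity)] at h3
    have h4 : 0 ≤ |x n| ^ q := by positivity
    have h5 : (0 : ℝ) < 16 ^ q := by positivity
    rw [one_div, inv_mul_le_iff₀ (by positivity)]
    nlinarith
  by_cases hc : g / 2 ≤ (‖H (x + t • e p n)‖ ^ q - b (x + t • e p n)) - (‖H x‖ ^ q - b x)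
  · exact fin t (abs_of_pos ht0) hc
  · refine fin (-t) (by rw [abs_neg, abs_of_pos ht0]) ?_
    push Not at hc
    nlinarith

theorem main (hp : p ≠ ⊤) (hev : ∀ k : ℕ, p ≠ 2 * k) (H : X p → X p)
    (hH : ContDiff ℝ ((⊤ : ℕ∞) : WithTop ℕ∞) H) (M : ℝ) (hM : ∀ y, ‖H y‖ ≤ M)
    (hid : ∀ᶠ y in 𝓝 (0 : X p), H y = y) : False := by
  have hq1 := q_ge hp
  have hq : 0 < p.toReal := lt_of_lt_of_le one_pos hq1
  have hp0 : p ≠ 0 := (lt_of_lt_of_le one_pos (Fact.out : 1 ≤ p)).ne'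
  obtain ⟨m, hm, hm2⟩ : ∃ m : ℕ, ((2 * m : ℕ) : ℝ) < p.toReal ∧
      p.toReal < ((2 * m + 2 : ℕ) : ℝ) := by
    refine ⟨⌊p.toReal / 2⌋₊, lt_of_le_of_ne ?_ fun h => hev ⌊p.toReal / 2⌋₊ ?_, ?_⟩
    · have := Nat.floor_le (show 0 ≤ p.toReal / 2 by positivity)
      push_cast
      linarith
    · rw [← ENNReal.ofReal_toReal hp, ← h, ENNReal.ofReal_natCast]
      simp
    · have := Nat.lt_floor_add_one (p.toReal / 2)
      push_cast
      linarith
  let z : ℕ → StrongDual ℝ (X p →L[ℝ] X p) := fun n =>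
    (ev p n).comp (ContinuousLinearMap.apply ℝ (X p) (e p n))
  have hz : ∀ n T, z n T = T (e p n) n := fun _ _ => rfl
  obtain ⟨Lm, hLm⟩ := Sm.limit_form (Filter.hyperfilter ℕ) z 1 fun n =>
    ContinuousLinearMap.opNorm_le_bound _ zero_le_one fun T => by
      rw [hz, one_mul]
      refine le_trans (lp.norm_apply_le_norm hp0 _ n) ?_
      simpa [norm_e] using T.le_opNorm (e p n)
  let a : X p → ℝ := fun y => Lm (fderiv ℝ H y)
  have ha : ContDiff ℝ ((⊤ : ℕ∞) : WithTop ℕ∞) a :=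
    Lm.contDiff.comp (hH.fderiv_right (by simp))
  have ha0 : a 0 = 1 := by
    have h1 : fderiv ℝ H 0 = ContinuousLinearMap.id ℝ (X p) := by
      rw [Filter.EventuallyEq.fderiv_eq (f := id) hid, fderiv_id]
    refine tendsto_nhds_unique (hLm _) ?_
    rw [h1]
    simp [hz, e_apply]
  have hH0 : H 0 = 0 := hid.self_of_nhds
  set q := p.toReal with hqd
  set K := 4 * M ^ q + 4 with hK
  have hM0 : 0 ≤ M := le_trans (norm_nonneg _) (hM 0)
  have hMq : 0 ≤ M ^ q := by positivity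
  let b : X p → ℝ := fun y => K * (a y - 1) ^ 2
  have hb : ContDiff ℝ ((⊤ : ℕ∞) : WithTop ℕ∞) b :=
    contDiff_const.mul ((ha.sub contDiff_const).pow 2)
  let Ψ : X p → ℝ := fun y => ‖H y‖ ^ q - b y
  have hΨc : Continuous Ψ :=
    (hH.continuous.norm.rpow_const fun _ => Or.inr hq.le).sub hb.continuous
  have hΨ0 : Ψ 0 = 0 := by simp [Ψ, b, ha0, hH0, Real.zero_rpow hq.ne']
  have hnc : Continuous fun y : X p => ‖y‖ ^ q := continuous_norm.rpow_const fun _ => Or.inr hq.le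
  set c : ℝ := 1 / (2 * 16 ^ q) with hc
  have hc0 : 0 < c := by positivity
  have hHq : ∀ y, ‖H y‖ ^ q ≤ M ^ q := fun y => Real.rpow_le_rpow (norm_nonneg _) (hM y) hq.le
  let r : X p → X p → Prop := fun x y => (∀ i, y i = x i ∨ 2 * |x i| ≤ |y i|) ∧
    c * (‖y‖ ^ q - ‖x‖ ^ q) ≤ Ψ y - Ψ x
  have hr0 : ∀ y, r 0 y → c * ‖y‖ ^ q + b y ≤ M ^ q := by
    intro y hy
    have h1 := hy.2
    rw [hΨ0, norm_zero, Real.zero_rpow hq.ne'] at h1
    have := hHq y
    simp only [Ψ] at h1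
    linarith
  obtain ⟨x, hx0, hx⟩ := maximal r (fun y => ‖y‖ ^ q) hnc
    (fun x => ⟨fun i => Or.inl rfl, by simp⟩)
    (fun x y w h1 h2 => ⟨fun i => by
      rcases h1.1 i with h3 | h3 <;> rcases h2.1 i with h4 | h4
      · exact Or.inl (h4.trans h3)
      · exact Or.inr (h3 ▸ h4)
      · exact Or.inr (h4 ▸ h3)
      · exact Or.inr (by linarith [abs_nonneg (y i)]), by linarith [h1.2, h2.2]⟩)
    (fun x => by
      refine IsClosed.inter (s₁ := {y : X p | ∀ i, y i = x i ∨ 2 * |x i| ≤ |y i|}) ?_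
        (isClosed_le (continuous_const.mul (hnc.sub continuous_const))
          (hΨc.sub continuous_const))
      rw [setOf_forall]
      exact isClosed_iInter fun i => IsClosed.union
        (isClosed_eq (ev p i).continuous continuous_const)
        (isClosed_le continuous_const (ev p i).continuous.abs))
    0 (M ^ q / c) (fun y hy => by
      have h1 := hr0 y hy
      have h2 : 0 ≤ b y := by positivity
      rw [le_div_iff₀ hc0]
      linarith)
    (fun ε hε => ⟨ε ^ q / (2 * 2 ^ q), by positivity, fun x y hxy h => by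
      have h1 : ‖y - x‖ ^ q ≤ 2 * 2 ^ q * (‖y‖ ^ q - ‖x‖ ^ q) := by
        refine hasSum_le (fun i => ?_) (lp.hasSum_norm hq (y - x))
          (((lp.hasSum_norm hq y).sub (lp.hasSum_norm hq x)).mul_left _)
        simp only [lp.coeFn_sub, Pi.sub_apply, Real.norm_eq_abs]
        rcases hxy.1 i with h3 | h3
        · rw [h3, sub_self, abs_zero, Real.zero_rpow hq.ne']
          simp
        · have h4 : |y i - x i| ^ q ≤ (2 * |y i|) ^ q :=
            Real.rpow_le_rpow (abs_nonneg _)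
              (by linarith [abs_sub (y i) (x i), abs_nonneg (x i)]) hq.le
          have h5 := Real.rpow_le_rpow (by positivity) h3 hq.le
          rw [Real.mul_rpow (by norm_num) (abs_nonneg _)] at h4 h5
          have h6 : (2 : ℝ) ≤ 2 ^ q := by
            simpa using Real.rpow_le_rpow_of_exponent_le (by norm_num : (1 : ℝ) ≤ 2) hq1
          have h7 : 0 ≤ |x i| ^ q := by positivity
          have h8 : 2 * |x i| ^ q ≤ |y i| ^ q := by nlinarith
          nlinarith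
      rw [lt_div_iff₀ (by positivity)] at h
      rw [dist_comm, dist_eq_norm]
      exact (Real.rpow_lt_rpow_iff (norm_nonneg _) hε.le hq).mp (by linarith)⟩)
  have hax : 3 / 8 < a x := by
    have h1 := hr0 x hx0
    have h2 : 0 ≤ c * ‖x‖ ^ q := by positivity
    by_contra h
    push Not at h
    have h3 : (1 / 4 : ℝ) ≤ (a x - 1) ^ 2 := by nlinarith
    simp only [b] at h1
    nlinarith
  have hfr : ∃ᶠ n in atTop, 3 / 8 ≤ fderiv ℝ H x (e p n) n :=
    (((hLm (fderiv ℝ H x)).eventually (lt_mem_nhds hax)).mono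
      fun n hn => le_of_lt hn).frequently.filter_mono Sm.hyper_le
  obtain ⟨n, s, h1, h2, h3⟩ := step hp m hm hm2 H hH M hM b hb x hfr
  have h4 := norm_add_e hp x s n
  have h5 := hx (x + s • e p n) ⟨fun i => by
    by_cases hi : i = n
    · subst hi
      right
      simpa [e_apply] using h1
    · left
      simp [e_apply, hi], by rw [h4]; exact h3⟩
  have h6 := Real.rpow_lt_rpow (abs_nonneg _) h2 hq
  linarith

end Pool.Agent.H2.BlB
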