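import Mathlib

set_option autoImplicit false

namespace Pool.Agent.H2.Com

open Finset

/-- weighted count of solutions of `4a + d = 4b + c` in `[0,n)`. -/
noncomputable def T (n : ℕ) (g0 g1 g2 g3 : ℕ → ℝ) : ℝ :=
  ∑ a ∈ range n, ∑ b ∈ range n, ∑ c ∈ range n, ∑ d ∈ range n,
    if 4 * a + d = 4 * b + c then g0 a * g1 b * g2 c * g3 d else 0

noncomputable def U (n : ℕ) (g h : ℕ → ℝ) (v : ℕ) : ℝ :=
  ∑ a ∈ range n, ∑ d ∈ range n, if 4 * a + d = v then g a * h d else 0

theorem T_eq_U (n : ℕ) (g0 g1 g2 g3 : ℕ → ℝ) :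
    T n g0 g1 g2 g3 = ∑ v ∈ range (5 * n), U n g0 g3 v * U n g1 g2 v := by
  unfold T U
  simp only [sum_mul_sum]
  rw [sum_comm (s := range (5 * n))]
  refine sum_congr rfl fun a ha => ?_
  rw [sum_comm (s := range (5 * n))]
  refine sum_congr rfl fun b _ => ?_
  rw [sum_comm (s := range (5 * n))]
  rw [sum_comm (s := range n) (t := range n)]
  refine sum_congr rfl fun d hd => ?_
  rw [sum_comm (s := range (5 * n))]
  refine sum_congr rfl fun c _ => ?_
  rw [sum_eq_single (4 * a + d)]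
  · by_cases h : 4 * a + d = 4 * b + c
    · rw [if_pos h, if_pos rfl, if_pos h.symm]; ring
    · rw [if_neg h, if_pos rfl, if_neg (fun e => h e.symm)]; ring
  · intro v _ hv
    rw [if_neg (fun e => hv e.symm)]; ring
  · intro h
    exfalso; apply h
    rw [mem_range] at ha hd ⊢; omega

theorem T_reflect (n : ℕ) (g0 g1 g2 g3 : ℕ → ℝ) :
    T n g0 g1 g2 g3 = T n g0 g1 (fun y => g3 (n - 1 - y)) (fun y => g2 (n - 1 - y)) := by
  unfold T
  refine sum_congr rfl fun a _ => sum_congr rfl fun b _ => ?_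
  rw [sum_comm, ← sum_range_reflect]
  refine sum_congr rfl fun c hc => ?_
  rw [← sum_range_reflect]
  refine sum_congr rfl fun d hd => ?_
  rw [mem_range] at hc hd
  by_cases h : 4 * a + d = 4 * b + c
  · rw [if_pos h, if_pos (by omega)]; ring
  · rw [if_neg h, if_neg (by omega)]

theorem sum_range_mul' (F : ℕ → ℝ) (K M : ℕ) :
    ∑ x ∈ range (K * M), F x = ∑ q ∈ range M, ∑ t ∈ range K, F (K * q + t) := by
  induction M with
  | zero => simp
  | succ M ih => rw [Nat.mul_succ, sum_range_add, ih, sum_range_succ]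

theorem U_eq (n : ℕ) (g h : ℕ → ℝ) (hg : ∀ y, n ≤ y → g y = 0) (hh : ∀ y, n ≤ y → h y = 0)
    (j i : ℕ) (hi : i < 4) :
    U n g h (4 * j + i) = ∑ a ∈ range (j + 1), g a * h (4 * (j - a) + i) := by
  unfold U
  have h1 : ∀ a, (∑ d ∈ range n, if 4 * a + d = 4 * j + i then g a * h d else 0)
      = if a ≤ j then g a * h (4 * (j - a) + i) else 0 := by
    intro a
    by_cases ha : a ≤ j
    · rw [if_pos ha, sum_eq_single (4 * (j - a) + i)]
      · rw [if_pos (by omega)]
      · intro d _ hd; rw [if_neg (by omega)]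
      · intro hd; rw [mem_range] at hd; rw [hh _ (by omega)]; simp
    · rw [if_neg ha]; exact sum_eq_zero fun d _ => if_neg (by omega)
  simp only [h1]
  have h2 : ∑ a ∈ range n, (if a ≤ j then g a * h (4 * (j - a) + i) else 0)
      = ∑ a ∈ range (n + (j + 1)), (if a ≤ j then g a * h (4 * (j - a) + i) else 0) := by
    refine sum_subset (range_subset_range.2 (by omega)) fun a _ ha => ?_
    rw [mem_range] at ha; rw [hg a (by omega)]; simp
  have h3 : ∑ a ∈ range (j + 1), g a * h (4 * (j - a) + i)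
      = ∑ a ∈ range (n + (j + 1)), (if a ≤ j then g a * h (4 * (j - a) + i) else 0) := by
    have e : ∑ a ∈ range (j + 1), g a * h (4 * (j - a) + i)
        = ∑ a ∈ range (j + 1), (if a ≤ j then g a * h (4 * (j - a) + i) else 0) := by
      refine sum_congr rfl fun a ha => ?_
      rw [mem_range] at ha; rw [if_pos (by omega)]
    rw [e]
    refine sum_subset (range_subset_range.2 (by omega)) fun a _ ha => ?_
    rw [mem_range] at ha; rw [if_neg (by omega)]
  rw [h2, h3]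

/-- indicator of `[0,n)`. -/
noncomputable def I (n : ℕ) (y : ℕ) : ℝ := if y < n then 1 else 0

theorem I_zero (n y : ℕ) (h : n ≤ y) : I n y = 0 := if_neg (by omega)

/-- prefix sums. -/
noncomputable def P (f : ℕ → ℝ) (u : ℕ) : ℝ := ∑ y ∈ range u, f y

theorem win (φ : ℕ → ℝ) (M j : ℕ) :
    ∑ b ∈ range (j + 1), φ b * (if j - b < M then 1 else 0) = P φ (j + 1) - P φ (j + 1 - M) := by
  unfold P
  have : j + 1 = (j + 1 - M) + (j + 1 - (j + 1 - M)) := by omega
  conv_lhs => rw [this]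
  conv_rhs => rw [this]
  rw [sum_range_add, sum_range_add]
  have e1 : ∑ x ∈ range (j + 1 - M), φ x * (if j - x < M then (1:ℝ) else 0) = 0 :=
    sum_eq_zero fun x hx => by rw [mem_range] at hx; rw [if_neg (by omega)]; ring
  have e2 : ∑ x ∈ range (j + 1 - (j + 1 - M)),
      φ (j + 1 - M + x) * (if j - (j + 1 - M + x) < M then (1:ℝ) else 0)
      = ∑ x ∈ range (j + 1 - (j + 1 - M)), φ (j + 1 - M + x) :=
    sum_congr rfl fun x hx => by rw [mem_range] at hx; rw [if_pos (by omega)]; ring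
  rw [e1, e2, ← this]; ring

theorem U_fI (L : ℕ) (f : ℕ → ℝ) (hf : ∀ y, 4 * L ≤ y → f y = 0) (j i : ℕ) (hi : i < 4) :
    U (4 * L) f (I (4 * L)) (4 * j + i) = P f (j + 1) - P f (j + 1 - L) := by
  rw [U_eq _ _ _ hf (I_zero _) j i hi, ← win]
  refine sum_congr rfl fun a _ => ?_
  unfold I
  by_cases h : j - a < L
  · rw [if_pos h, if_pos (by omega)]
  · rw [if_neg h, if_neg (by omega)]

theorem P_four (h : ℕ → ℝ) (x : ℕ) :
    P (fun b => h (4 * b) + h (4 * b + 1) + h (4 * b + 2) + h (4 * b + 3)) x = P h (4 * x) := by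
  unfold P
  rw [sum_range_mul']
  refine sum_congr rfl fun q _ => ?_
  simp [sum_range_succ]

theorem U_Ih (n : ℕ) (h : ℕ → ℝ) (hh : ∀ y, n ≤ y → h y = 0) (j : ℕ) :
    U n (I n) h (4 * j + 0) + U n (I n) h (4 * j + 1) + U n (I n) h (4 * j + 2)
      + U n (I n) h (4 * j + 3) = P h (4 * (j + 1)) - P h (4 * (j + 1 - n)) := by
  rw [U_eq _ _ _ (I_zero _) hh j 0 (by omega), U_eq _ _ _ (I_zero _) hh j 1 (by omega),
    U_eq _ _ _ (I_zero _) hh j 2 (by omega), U_eq _ _ _ (I_zero _) hh j 3 (by omega),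
    ← P_four, ← P_four, ← win, ← sum_add_distrib, ← sum_add_distrib, ← sum_add_distrib,
    ← sum_range_reflect]
  refine sum_congr rfl fun a ha => ?_
  rw [mem_range] at ha
  have e1 : j + 1 - 1 - a = j - a := by omega
  have e2 : j - (j - a) = a := by omega
  rw [e1, e2]; unfold I; simp only [Nat.add_zero]; ring

theorem pointwise (m p0 p1 p2 p3 q : ℝ) :
    0 ≤ (4 * p0 ^ 2 + q ^ 2 / 4 + 4 * (p0 * q))
      + (4 * (p1 - p0) ^ 2 + m ^ 2 / 4 + 4 * ((p1 - p0) * m))
      + (4 * (p2 - p1) ^ 2 + m ^ 2 / 4 + 4 * ((p2 - p1) * m))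
      + (4 * (p3 - p2) ^ 2 + m ^ 2 / 4 + 4 * ((p3 - p2) * m))
      + (4 * (m - p3) ^ 2 + (m - q) ^ 2 / 4 + 4 * ((m - p3) * (m - q)))
      + 3 / 4 * (4 * (q - m / 2) ^ 2 - ((p0 - m / 2) ^ 2 + (p1 - m / 2) ^ 2 + (p2 - m / 2) ^ 2
          + (p3 - m / 2) ^ 2)) := by
  have h1 := sq_nonneg (7 * (q - m / 2) + 4 * (p0 + p3 - m))
  have h2 := sq_nonneg (13 * (p1 + p2 - m) - 16 * (p0 + p3 - m))
  have h3 := sq_nonneg (p0 + p3 - m)
  have h4 := sq_nonneg (p0 - p3)
  have h5 := sq_nonneg (p1 - p2)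
  have h6 := sq_nonneg (m + (p0 - p3))
  have h7 := sq_nonneg (m - (p0 - p3))
  have h8 := sq_nonneg ((p0 - p3) - 2 * (p1 - p2))
  have h9 := sq_nonneg m
  nlinarith

theorem P_top (f : ℕ → ℝ) (n u : ℕ) (hf : ∀ y, n ≤ y → f y = 0) (hu : n ≤ u) : P f u = P f n := by
  unfold P
  symm
  refine sum_subset (range_subset_range.2 hu) fun a _ ha => ?_
  rw [mem_range] at ha; exact hf a (by omega)

theorem P_lip (f : ℕ → ℝ) (hf : ∀ y, |f y| ≤ 1) (u i : ℕ) : |P f (u + i) - P f u| ≤ i := by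
  unfold P
  rw [sum_range_add, add_sub_cancel_left]
  refine (abs_sum_le_sum_abs _ _).trans ?_
  refine (sum_le_sum fun y _ => hf (u + y)).trans ?_
  simp

theorem P_zero (f : ℕ → ℝ) : P f 0 = 0 := by simp [P]

/-- symmetrisation. -/
noncomputable def sy (n : ℕ) (f : ℕ → ℝ) (y : ℕ) : ℝ := if y < n then (f y + f (n - 1 - y)) / 2 else 0

theorem P_sy (n : ℕ) (f : ℕ → ℝ) (u : ℕ) (hu : u ≤ n) :
    P (sy n f) u = (P f u + (P f n - P f (n - u))) / 2 := by
  induction u with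
  | zero => simp [P_zero]
  | succ u ih =>
    have e : n - u = (n - (u + 1)) + 1 := by omega
    have e' : n - 1 - u = n - (u + 1) := by omega
    have h1 : P (sy n f) (u + 1) = P (sy n f) u + sy n f u := by unfold P; rw [sum_range_succ]
    have h2 : P f (u + 1) = P f u + f u := by unfold P; rw [sum_range_succ]
    have h3 : P f (n - u) = P f (n - (u + 1)) + f (n - (u + 1)) := by
      unfold P; rw [e, sum_range_succ]
    rw [h1, ih (by omega), h2, h3]; unfold sy; rw [if_pos (by omega), e']; ring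

theorem sq_sy (n : ℕ) (f : ℕ → ℝ) :
    ∑ u ∈ range n, (P (sy n f) u - P f n / 2) ^ 2 ≤ ∑ u ∈ range n, (P f u - P f n / 2) ^ 2 := by
  have h1 : ∑ u ∈ range n, (P f (n - u) - P f n / 2) ^ 2 = ∑ u ∈ range n, (P f u - P f n / 2) ^ 2 := by
    have a1 := sum_range_reflect (fun u => (P f u - P f n / 2) ^ 2) (n + 1)
    rw [sum_range_succ, sum_range_succ] at a1
    simp only [Nat.add_sub_cancel, Nat.sub_self, P_zero] at a1
    have : (P f n - P f n / 2) ^ 2 = (0 - P f n / 2) ^ 2 := by ring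
    linarith
  have h2 : ∑ u ∈ range n, (P (sy n f) u - P f n / 2) ^ 2 ≤
      ∑ u ∈ range n, ((P f u - P f n / 2) ^ 2 + (P f (n - u) - P f n / 2) ^ 2) / 2 := by
    refine sum_le_sum fun u hu => ?_
    rw [mem_range] at hu
    rw [P_sy n f u hu.le]
    nlinarith [sq_nonneg (P f u + P f (n - u) - P f n)]
  rw [← sum_div, sum_add_distrib, h1] at h2
  linarith

theorem sample (L : ℕ) (h : ℕ → ℝ) (hh : ∀ y, |h y| ≤ 1) (m : ℝ) (hm : |m| ≤ 4 * L) :
    ∑ t ∈ range L, 4 * (P h (4 * t) - m / 2) ^ 2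
      ≤ ∑ u ∈ range (4 * L), (P h u - m / 2) ^ 2 + 72 * (L : ℝ) ^ 2 := by
  rw [sum_range_mul']
  have : (72 : ℝ) * (L : ℝ) ^ 2 = ∑ _t ∈ range L, 72 * (L : ℝ) := by simp; ring
  rw [this, ← sum_add_distrib]
  refine sum_le_sum fun t ht => ?_
  rw [mem_range] at ht
  simp only [sum_range_succ, range_zero, sum_empty, zero_add, Nat.add_zero]
  have b0 := P_lip h hh 0 (4 * t)
  rw [zero_add, P_zero, sub_zero] at b0
  have b1 := P_lip h hh (4 * t) 1
  have b2 := P_lip h hh (4 * t) 2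
  have b3 := P_lip h hh (4 * t) 3
  have ht' : (t : ℝ) ≤ L := by exact_mod_cast ht.le
  push_cast at b0 b1 b2 b3
  rw [abs_le] at b0 b1 b2 b3 hm
  set x := P h (4 * t) - m / 2 with hx
  have hx1 : x ≤ 6 * L := by rw [hx]; linarith
  have hx2 : -(6 * L) ≤ x := by rw [hx]; linarith
  have key : ∀ (y k : ℝ), -k ≤ y - P h (4 * t) → y - P h (4 * t) ≤ k →
      x ^ 2 - 12 * k * L ≤ (y - m / 2) ^ 2 := by
    intro y k h1 h2
    have e : y - m / 2 = x + (y - P h (4 * t)) := by rw [hx]; ring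
    rw [e]
    set w := y - P h (4 * t)
    nlinarith [sq_nonneg w, mul_nonneg (by linarith : 0 ≤ 6 * L - x) (by linarith : 0 ≤ k - w),
      mul_nonneg (by linarith : 0 ≤ 6 * L + x) (by linarith : 0 ≤ k + w)]
  have k1 := key _ 1 b1.1 b1.2
  have k2 := key _ 2 b2.1 b2.2
  have k3 := key _ 3 b3.1 b3.2
  linarith

theorem U_add (n : ℕ) (g h1 h2 h : ℕ → ℝ) (e : ∀ y, y < n → h y = (h1 y + h2 y) / 2) (v : ℕ) :
    U n g h v = (U n g h1 v + U n g h2 v) / 2 := by
  unfold U
  rw [← sum_add_distrib, sum_div]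
  refine sum_congr rfl fun a _ => ?_
  rw [← sum_add_distrib, sum_div]
  refine sum_congr rfl fun d hd => ?_
  rw [mem_range] at hd
  rw [e d hd]
  split_ifs <;> ring

theorem T_congr (n : ℕ) (g0 g1 g2 g3 g2' g3' : ℕ → ℝ) (e2 : ∀ y, y < n → g2 y = g2' y)
    (e3 : ∀ y, y < n → g3 y = g3' y) : T n g0 g1 g2 g3 = T n g0 g1 g2' g3' := by
  unfold T
  refine sum_congr rfl fun a _ => sum_congr rfl fun b _ => sum_congr rfl fun c hc =>
    sum_congr rfl fun d hd => ?_
  rw [mem_range] at hc hd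
  rw [e2 c hc, e3 d hd]

theorem Q_lower (L : ℕ) (f : ℕ → ℝ) (hf : ∀ y, 4 * L ≤ y → f y = 0) (hb : ∀ y, |f y| ≤ 1) :
    -(54 * (L : ℝ) ^ 2) ≤ T (4 * L) f f (I (4 * L)) (I (4 * L)) + T (4 * L) (I (4 * L)) (I (4 * L)) f f
      + T (4 * L) f (I (4 * L)) f (I (4 * L)) + T (4 * L) f (I (4 * L)) (I (4 * L)) f
      + T (4 * L) (I (4 * L)) f f (I (4 * L)) + T (4 * L) (I (4 * L)) f (I (4 * L)) f := by
  set n := 4 * L with hn
  set g : ℕ → ℝ := fun y => f (n - 1 - y) with hg
  set h := sy n f with hh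
  have hI : ∀ y, y < n → I n (n - 1 - y) = I n y := fun y hy => by
    unfold I; rw [if_pos hy, if_pos (by omega)]
  have e1 : T n f (I n) (I n) f = T n f (I n) g (I n) := by
    rw [T_reflect]; exact T_congr _ _ _ _ _ _ _ (fun _ _ => rfl) hI
  have e2 : T n (I n) f f (I n) = T n (I n) f (I n) g := by
    rw [T_reflect]; exact T_congr _ _ _ _ _ _ _ hI (fun _ _ => rfl)
  have e3 : T n (I n) (I n) f f = T n (I n) (I n) g g := T_reflect _ _ _ _ _
  have e4 : T n (I n) (I n) f f = (T n (I n) (I n) f f + T n (I n) (I n) g g) / 2 := by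
    rw [← e3]; ring
  have hU : ∀ v, U n (I n) h v = (U n (I n) f v + U n (I n) g v) / 2 :=
    U_add n _ f g h fun y hy => by rw [hh]; unfold sy; rw [if_pos hy]
  have hh0 : ∀ y, n ≤ y → h y = 0 := fun y hy => by rw [hh]; unfold sy; rw [if_neg (by omega)]
  have hh1 : ∀ y, |h y| ≤ 1 := fun y => by
    rw [hh]; unfold sy; split_ifs
    · have a1 := abs_le.1 (hb y); have a2 := abs_le.1 (hb (n - 1 - y))
      rw [abs_le]; constructor <;> linarith
    · simp
  have s1 : ∑ v ∈ range (5 * n), (U n f (I n) v ^ 2 + U n (I n) h v ^ 2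
        + 4 * (U n f (I n) v * U n (I n) h v))
      ≤ T n f f (I n) (I n) + T n (I n) (I n) f f + T n f (I n) f (I n) + T n f (I n) (I n) f
        + T n (I n) f f (I n) + T n (I n) f (I n) f := by
    rw [e1, e2, e4]
    simp only [T_eq_U]
    rw [← sum_add_distrib, sum_div, ← sum_add_distrib, ← sum_add_distrib, ← sum_add_distrib,
      ← sum_add_distrib, ← sum_add_distrib]
    refine sum_le_sum fun v _ => ?_
    rw [hU]
    nlinarith [sq_nonneg (U n (I n) f v - U n (I n) g v)]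
  refine le_trans ?_ s1
  set ψ : ℕ → ℝ := fun j => 4 * (P f j - P f (j - L)) ^ 2 + (P h (4 * j) - P h (4 * (j - n))) ^ 2 / 4
    + 4 * ((P f j - P f (j - L)) * (P h (4 * j) - P h (4 * (j - n)))) with hψ
  have s2 : ∑ j ∈ range (L * 5), ψ (j + 1) ≤ ∑ v ∈ range (5 * n), (U n f (I n) v ^ 2
        + U n (I n) h v ^ 2 + 4 * (U n f (I n) v * U n (I n) h v)) := by
    have : 5 * n = 4 * (L * 5) := by omega
    rw [this, sum_range_mul' _ 4 (L * 5)]
    refine sum_le_sum fun j _ => ?_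
    simp only [sum_range_succ, range_zero, sum_empty, zero_add]
    rw [hn, U_fI L f hf j 0 (by omega), U_fI L f hf j 1 (by omega), U_fI L f hf j 2 (by omega),
      U_fI L f hf j 3 (by omega), ← hn]
    simp only [hψ]
    rw [← U_Ih n h hh0 j]
    set a0 := U n (I n) h (4 * j + 0)
    set a1 := U n (I n) h (4 * j + 1)
    set a2 := U n (I n) h (4 * j + 2)
    set a3 := U n (I n) h (4 * j + 3)
    nlinarith [sq_nonneg (a0 - a1), sq_nonneg (a0 - a2), sq_nonneg (a0 - a3), sq_nonneg (a1 - a2),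
      sq_nonneg (a1 - a3), sq_nonneg (a2 - a3)]
  refine le_trans ?_ s2
  have hm : P h n = P f n := by
    rw [hh, P_sy n f n le_rfl, Nat.sub_self, P_zero]; ring
  have s3 : ∑ j ∈ range (L * 5), ψ (j + 1) = ∑ j ∈ range (L * 5), ψ j := by
    have a1 := sum_range_succ' ψ (L * 5)
    rw [sum_range_succ] at a1
    have z0 : ψ 0 = 0 := by simp [hψ, P_zero]
    have z1 : ψ (L * 5) = 0 := by
      simp only [hψ]
      rw [P_top f n (L * 5) hf (by omega), P_top f n (L * 5 - L) hf (by omega),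
        P_top h n (4 * (L * 5)) hh0 (by omega), P_top h n (4 * (L * 5 - n)) hh0 (by omega)]
      ring
    linarith
  rw [s3, sum_range_mul', sum_comm]
  set m := P f n with hmdef
  have hmb : |m| ≤ 4 * L := by
    have := P_lip f hb 0 n
    rw [zero_add, P_zero, sub_zero, hn] at this
    push_cast at this; exact this
  have s4 := sample L h hh1 m hmb
  have s5 := sq_sy n f
  rw [← hn] at s4
  rw [← hh, ← hmdef] at s5
  have s6 : ∑ u ∈ range n, (P f u - m / 2) ^ 2
      = ∑ t ∈ range L, ∑ i ∈ range 4, (P f (L * i + t) - m / 2) ^ 2 := by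
    rw [hn, mul_comm 4 L, sum_range_mul', sum_comm]
  have s7 : 0 ≤ ∑ t ∈ range L, (∑ i ∈ range 5, ψ (L * i + t)
      + 3 / 4 * (4 * (P h (4 * t) - m / 2) ^ 2 - ∑ i ∈ range 4, (P f (L * i + t) - m / 2) ^ 2)) := by
    refine sum_nonneg fun t ht => ?_
    rw [mem_range] at ht
    simp only [sum_range_succ, range_zero, sum_empty, zero_add, hψ]
    have c0 : L * 0 + t - L = 0 := by omega
    have c1 : L * 1 + t - L = L * 0 + t := by omega
    have c2 : L * 2 + t - L = L * 1 + t := by omega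
    have c3 : L * 3 + t - L = L * 2 + t := by omega
    have c4 : L * 4 + t - L = L * 3 + t := by omega
    have d0 : 4 * (L * 0 + t - n) = 0 := by omega
    have d1 : 4 * (L * 1 + t - n) = 0 := by omega
    have d2 : 4 * (L * 2 + t - n) = 0 := by omega
    have d3 : 4 * (L * 3 + t - n) = 0 := by omega
    have d4 : 4 * (L * 4 + t - n) = 4 * t := by omega
    have d5 : 4 * (L * 0 + t) = 4 * t := by omega
    rw [c0, c1, c2, c3, c4, d0, d1, d2, d3, d4, d5, P_zero, P_zero,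
      P_top h n (4 * (L * 1 + t)) hh0 (by omega), P_top h n (4 * (L * 2 + t)) hh0 (by omega),
      P_top h n (4 * (L * 3 + t)) hh0 (by omega), P_top h n (4 * (L * 4 + t)) hh0 (by omega),
      P_top f n (L * 4 + t) hf (by omega), hm, ← hmdef]
    have := pointwise m (P f (L * 0 + t)) (P f (L * 1 + t)) (P f (L * 2 + t)) (P f (L * 3 + t))
      (P h (4 * t))
    simp only [sub_zero]
    linarith
  rw [sum_add_distrib, ← mul_sum, sum_sub_distrib, ← s6] at s7
  linarith

end Pool.Agent.H2.Com
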