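import Pool.Agent.H2.ComA

set_option autoImplicit false

namespace Pool.Agent.H2.Com

open Finset

noncomputable def hc (u : ℕ → ℝ) (q : ℕ) : ℝ := ∑ a ∈ range (q + 1), u (a / 4) * u (q - a)

noncomputable def hp (u : ℕ → ℝ) : ℕ → ℝ
  | 0 => 0
  | q + 1 => hc u q

theorem hp_eq (u : ℕ → ℝ) (q : ℕ) : hp u q = ∑ a ∈ range q, u (a / 4) * u (q - 1 - a) := by
  cases q with
  | zero => simp [hp]
  | succ q => simp [hp, hc]

theorem sum_ite_le (K t : ℕ) (ht : t < K) (A B : ℝ) :
    ∑ s ∈ range K, (if s ≤ t then A else B) = (t + 1) * A + (K - 1 - t) * B := by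
  obtain ⟨e, rfl⟩ : ∃ e, K = (t + 1) + e := ⟨K - (t + 1), by omega⟩
  rw [sum_range_add]
  have e1 : ∑ s ∈ range (t + 1), (if s ≤ t then A else B) = ∑ _s ∈ range (t + 1), A :=
    sum_congr rfl fun s hs => by rw [mem_range] at hs; rw [if_pos (by omega)]
  have e2 : ∑ s ∈ range e, (if t + 1 + s ≤ t then A else B) = ∑ _s ∈ range e, B :=
    sum_congr rfl fun s _ => by rw [if_neg (by omega)]
  rw [e1, e2, sum_const, sum_const, card_range, card_range, nsmul_eq_mul, nsmul_eq_mul]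
  push_cast; ring

theorem div1 (K a s : ℕ) (hs : s < K) : (K * a + s) / K = a := by
  rw [Nat.mul_add_div (by omega), Nat.div_eq_of_lt hs]; rfl

theorem div2 (K a s : ℕ) (hs : s < K) : (K * a + s) / (4 * K) = a / 4 := by
  rw [mul_comm 4 K, ← Nat.div_div_eq_div_mul, div1 K a s hs]

theorem div3 (K x i : ℕ) (hi : i < 4) : (4 * x + i) / (4 * K) = x / K := by
  rw [← Nat.div_div_eq_div_mul]; congr 1; omega

theorem U_blow (u : ℕ → ℝ) (N K : ℕ) (hu : ∀ i, N ≤ i → u i = 0) (q t i : ℕ) (ht : t < K)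
    (hi : i < 4) :
    U (4 * K * N) (fun y => u (y / (4 * K))) (fun y => u (y / (4 * K))) (4 * (K * q + t) + i)
      = (t + 1) * hc u q + (K - 1 - t) * hp u q := by
  have hz : ∀ y, 4 * K * N ≤ y → u (y / (4 * K)) = 0 := fun y hy =>
    hu _ ((Nat.le_div_iff_mul_le (by omega)).2 (by rw [mul_comm]; exact hy))
  rw [U_eq _ _ _ hz hz _ i hi, add_assoc, sum_range_add, sum_range_mul']
  simp only [div3 K _ i hi]
  have e1 : ∑ a ∈ range q, ∑ s ∈ range K, u ((K * a + s) / (4 * K)) * u ((K * q + t - (K * a + s)) / K)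
      = ∑ a ∈ range q, ((t + 1) * (u (a / 4) * u (q - a)) + (K - 1 - t) * (u (a / 4) * u (q - 1 - a))) := by
    refine sum_congr rfl fun a ha => ?_
    rw [mem_range] at ha
    rw [← sum_ite_le K t ht]
    refine sum_congr rfl fun s hs => ?_
    rw [mem_range] at hs
    obtain ⟨e, rfl⟩ : ∃ e, q = a + e + 1 := ⟨q - a - 1, by omega⟩
    rw [div2 K a s hs]
    have m1 : K * (a + e + 1) = K * a + K * e + K := by ring
    have m2 : K * (e + 1) = K * e + K := by ring
    split_ifs with h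
    · have : K * (a + e + 1) + t - (K * a + s) = K * (e + 1) + (t - s) := by omega
      rw [this, div1 K _ _ (by omega)]; congr 2; omega
    · have : K * (a + e + 1) + t - (K * a + s) = K * e + (K + t - s) := by omega
      rw [this, div1 K _ _ (by omega)]; congr 2; omega
  have e2 : ∑ s ∈ range (t + 1), u ((K * q + s) / (4 * K)) * u ((K * q + t - (K * q + s)) / K)
      = ∑ _s ∈ range (t + 1), u (q / 4) * u 0 := by
    refine sum_congr rfl fun s hs => ?_
    rw [mem_range] at hs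
    rw [div2 K q s (by omega), Nat.div_eq_of_lt (a := K * q + t - (K * q + s)) (by omega)]
  rw [e1, e2, hp_eq, hc, sum_range_succ (fun a => u (a / 4) * u (q - a)), sum_add_distrib,
    ← mul_sum, ← mul_sum]
  simp; ring

theorem quad_sum (K : ℕ) (A B : ℝ) :
    ∑ t ∈ range K, ((t + 1) * A + (K - 1 - t) * B) ^ 2
      = K * (K + 1) * (2 * K + 1) / 6 * A ^ 2 + (K - 1) * K * (2 * K - 1) / 6 * B ^ 2
        + (K ^ 3 - K) / 3 * (A * B) := by
  have h : ∀ (M : ℕ) (x d : ℝ), ∑ t ∈ range M, (x + t * d) ^ 2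
      = M * x ^ 2 + M * (M - 1) * x * d + (M - 1) * M * (2 * M - 1) / 6 * d ^ 2 := by
    intro M x d
    induction M with
    | zero => simp
    | succ M ih => rw [sum_range_succ, ih]; push_cast; ring
  have := h K (A + (K - 1) * B) (A - B)
  rw [← sub_eq_zero] at this ⊢
  rw [← this]
  congr 1
  · exact sum_congr rfl fun t _ => by ring
  · ring

noncomputable def H0 (N : ℕ) (u : ℕ → ℝ) : ℝ := ∑ q ∈ range (5 * N), hc u q ^ 2
noncomputable def H1 (N : ℕ) (u : ℕ → ℝ) : ℝ := ∑ q ∈ range (5 * N), hc u q * hp u q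

theorem T_blow (u : ℕ → ℝ) (N K : ℕ) (hu : ∀ i, N ≤ i → u i = 0) :
    T (4 * K * N) (fun y => u (y / (4 * K))) (fun y => u (y / (4 * K))) (fun y => u (y / (4 * K)))
      (fun y => u (y / (4 * K)))
      = 4 / 3 * ((2 * K ^ 3 + K) * H0 N u + (K ^ 3 - K) * H1 N u) := by
  have e0 : 5 * (4 * K * N) = 4 * (K * (5 * N)) := by ring
  rw [T_eq_U, e0, sum_range_mul' _ 4, sum_range_mul' _ K]
  have e1 : ∑ q ∈ range (5 * N), hp u q ^ 2 = H0 N u := by
    unfold H0
    rcases N with _ | N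
    · simp
    have : 5 * (N + 1) = (5 * N + 4) + 1 := by ring
    rw [this, sum_range_succ', sum_range_succ (fun q => hc u q ^ 2)]
    have z : hc u (5 * N + 4) = 0 := by
      unfold hc
      refine sum_eq_zero fun a ha => ?_
      rw [mem_range] at ha
      by_cases h : N + 1 ≤ a / 4
      · rw [hu _ h]; ring
      · rw [hu (5 * N + 4 - a) (by omega)]; ring
    rw [z]; simp [hp]
  have e2 : ∀ q ∈ range (5 * N), ∑ t ∈ range K, ∑ i ∈ range 4,
      U (4 * K * N) (fun y => u (y / (4 * K))) (fun y => u (y / (4 * K))) (4 * (K * q + t) + i) *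
      U (4 * K * N) (fun y => u (y / (4 * K))) (fun y => u (y / (4 * K))) (4 * (K * q + t) + i)
      = 4 * (K * (K + 1) * (2 * K + 1) / 6 * hc u q ^ 2 + (K - 1) * K * (2 * K - 1) / 6 * hp u q ^ 2
        + (K ^ 3 - K) / 3 * (hc u q * hp u q)) := by
    intro q _
    rw [← quad_sum, mul_sum]
    refine sum_congr rfl fun t ht => ?_
    rw [mem_range] at ht
    simp only [sum_range_succ, range_zero, sum_empty, zero_add]
    rw [U_blow u N K hu q t 0 ht (by omega), U_blow u N K hu q t 1 ht (by omega),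
      U_blow u N K hu q t 2 ht (by omega), U_blow u N K hu q t 3 ht (by omega)]
    ring
  rw [sum_congr rfl e2, ← mul_sum, sum_add_distrib, sum_add_distrib, ← mul_sum, ← mul_sum,
    ← mul_sum, e1]
  unfold H0 H1
  ring

/-- number of solutions. -/
noncomputable def S (n : ℕ) : ℝ :=
  ∑ a ∈ range n, ∑ b ∈ range n, ∑ c ∈ range n, ∑ d ∈ range n,
    if 4 * a + d = 4 * b + c then 1 else 0

theorem T_congr4 (n : ℕ) (g g' : ℕ → ℝ) (e : ∀ y, y < n → g y = g' y) :
    T n g g g g = T n g' g' g' g' := by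
  unfold T
  refine sum_congr rfl fun a ha => sum_congr rfl fun b hb => sum_congr rfl fun c hc =>
    sum_congr rfl fun d hd => ?_
  rw [mem_range] at ha hb hc hd
  rw [e a ha, e b hb, e c hc, e d hd]

theorem S_eq_T (n : ℕ) : S n = T n (fun _ => 1) (fun _ => 1) (fun _ => 1) (fun _ => 1) := by
  unfold S T; simp only [mul_one]

theorem S_four (K : ℕ) : S (4 * K) = (44 * K ^ 3 + 4 * K) / 3 := by
  have h := T_blow (I 1) 1 K (I_zero 1)
  rw [mul_one] at h
  rw [S_eq_T, T_congr4 _ _ (fun y => I 1 (y / (4 * K))), h]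
  · have a0 : H0 1 (I 1) = 4 := by
      simp [H0, hc, I, sum_range_succ]; norm_num
    have a1 : H1 1 (I 1) = 3 := by
      simp [H1, hc, hp, I, sum_range_succ]; norm_num
    rw [a0, a1]; ring
  · intro y hy
    rw [Nat.div_eq_of_lt hy]; simp [I]

theorem mono4 (F : ℕ → ℕ → ℕ → ℕ → ℝ) (hF : ∀ a b c d, 0 ≤ F a b c d) (n n' : ℕ) (h : n ≤ n') :
    ∑ a ∈ range n, ∑ b ∈ range n, ∑ c ∈ range n, ∑ d ∈ range n, F a b c d
      ≤ ∑ a ∈ range n', ∑ b ∈ range n', ∑ c ∈ range n', ∑ d ∈ range n', F a b c d := by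
  have hs := range_subset_range.2 h
  refine le_trans (sum_le_sum fun a _ => ?_) (sum_le_sum_of_subset_of_nonneg hs fun a _ _ =>
    sum_nonneg fun b _ => sum_nonneg fun c _ => sum_nonneg fun d _ => hF a b c d)
  refine le_trans (sum_le_sum fun b _ => ?_) (sum_le_sum_of_subset_of_nonneg hs fun b _ _ =>
    sum_nonneg fun c _ => sum_nonneg fun d _ => hF a b c d)
  refine le_trans (sum_le_sum fun c _ => ?_) (sum_le_sum_of_subset_of_nonneg hs fun c _ _ =>
    sum_nonneg fun d _ => hF a b c d)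
  exact sum_le_sum_of_subset_of_nonneg hs fun d _ _ => hF a b c d

/-- number of monochromatic solutions. -/
noncomputable def Mo {r : ℕ} (n : ℕ) (χ : ℕ → Fin r) : ℝ :=
  ∑ a ∈ range n, ∑ b ∈ range n, ∑ c ∈ range n, ∑ d ∈ range n,
    if 4 * a + d = 4 * b + c ∧ χ a = χ b ∧ χ a = χ c ∧ χ a = χ d then 1 else 0

theorem Mo_four (L : ℕ) (χ : ℕ → Fin 2) : S (4 * L) - 54 * (L : ℝ) ^ 2 ≤ 8 * Mo (4 * L) χ := by
  set n := 4 * L with hn
  set f : ℕ → ℝ := fun y => if y < n then (if χ y = 0 then 1 else -1) else 0 with hf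
  have h1 := Q_lower L f (fun y hy => by simp only [hf]; rw [if_neg (by omega)])
    (fun y => by simp only [hf]; split_ifs <;> simp)
  rw [← hn] at h1
  have h2 : 0 ≤ T n f f f f := by
    rw [T_eq_U]; exact sum_nonneg fun v _ => mul_self_nonneg _
  have h3 : 8 * Mo n χ = S n + (T n f f (I n) (I n) + T n (I n) (I n) f f
      + T n f (I n) f (I n) + T n f (I n) (I n) f + T n (I n) f f (I n) + T n (I n) f (I n) f)
      + T n f f f f := by
    unfold Mo S T
    simp only [mul_sum, ← sum_add_distrib]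
    refine sum_congr rfl fun a ha => sum_congr rfl fun b hb => sum_congr rfl fun c hc =>
      sum_congr rfl fun d hd => ?_
    rw [mem_range] at ha hb hc hd
    simp only [hf, I, if_pos ha, if_pos hb, if_pos hc, if_pos hd]
    by_cases h : 4 * a + d = 4 * b + c
    · simp only [h, true_and, if_true]
      generalize χ a = x0
      generalize χ b = x1
      generalize χ c = x2
      generalize χ d = x3
      fin_cases x0 <;> fin_cases x1 <;> fin_cases x2 <;> fin_cases x3 <;> simp <;> norm_num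
    · simp [h]
  linarith

theorem two_common (ε : ℝ) (hε : 0 < ε) :
    ∃ N : ℕ, ∀ n : ℕ, N ≤ n → ∀ χ : ℕ → Fin 2, (1 / 8 - ε) * S n ≤ Mo n χ := by
  obtain ⟨M, hM⟩ := exists_nat_gt (2 / ε)
  refine ⟨4 * (M + 1), fun n hn χ => ?_⟩
  set L := n / 4 with hL
  have h1 : Mo (4 * L) χ ≤ Mo n χ :=
    mono4 _ (fun a b c d => by split_ifs <;> norm_num) _ _ (by omega)
  have h2 : S (4 * L) ≤ S n := mono4 _ (fun a b c d => by split_ifs <;> norm_num) _ _ (by omega)
  have h3 : S n ≤ S (4 * (L + 1)) :=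
    mono4 _ (fun a b c d => by split_ifs <;> norm_num) _ _ (by omega)
  have h4 := Mo_four L χ
  rw [S_four] at h2 h3 h4
  push_cast at h3
  have hL1 : (M : ℝ) + 1 ≤ L := by exact_mod_cast (by omega : M + 1 ≤ L)
  have hM0 : (0 : ℝ) ≤ M := Nat.cast_nonneg _
  have h5 : 2 < ε * L := by
    rw [div_lt_iff₀ hε] at hM; nlinarith
  have hL0 : (1 : ℝ) ≤ L := by linarith
  have h6 : 2 * (L : ℝ) ^ 2 ≤ ε * L ^ 3 := by nlinarith [sq_nonneg (L : ℝ)]
  have h7 : ε * ((44 * (L : ℝ) ^ 3 + 4 * L) / 3) ≤ ε * S n := mul_le_mul_of_nonneg_left h2 hε.le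
  have h8 : (L : ℝ) ≤ L ^ 2 := by nlinarith
  have h9 : 0 ≤ ε * L := by linarith
  nlinarith

end Pool.Agent.H2.Com
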