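import Pool.Agent.H2.ComB

set_option autoImplicit false

namespace Pool.Agent.H2.Com

open Finset

def ext {r n : ℕ} (j0 : Fin r) (c : Fin n → Fin r) (y : ℕ) : Fin r :=
  if h : y < n then c ⟨y, h⟩ else j0

theorem avg_one {r : ℕ} (n : ℕ) (p : ℕ → Fin r → ℝ) (h1 : ∀ y, ∑ j, p y j = 1) :
    ∑ c : Fin n → Fin r, ∏ y : Fin n, p y (c y) = 1 := by
  rw [← Fintype.piFinset_univ, ← prod_univ_sum (fun _ => univ) (fun (y : Fin n) j => p y j)]
  simp [h1]

theorem avg_set {r : ℕ} (n : ℕ) (j0 : Fin r) (p : ℕ → Fin r → ℝ) (h1 : ∀ y, ∑ j, p y j = 1)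
    (s : Finset ℕ) (hs : s ⊆ range n) (j : Fin r) :
    ∑ c : Fin n → Fin r, (∏ y : Fin n, p y (c y)) * (if ∀ y ∈ s, ext j0 c y = j then 1 else 0)
      = ∏ y ∈ s, p y j := by
  have e1 : ∀ c : Fin n → Fin r,
      (∏ y : Fin n, p y (c y)) * (if ∀ y ∈ s, ext j0 c y = j then (1:ℝ) else 0)
      = ∏ y : Fin n, (p y (c y) * (if (y : ℕ) ∈ s then (if c y = j then 1 else 0) else 1)) := by
    intro c
    rw [prod_mul_distrib]
    congr 1
    split_ifs with h
    · symm
      refine prod_eq_one fun y _ => ?_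
      split_ifs with h2 h3
      · rfl
      · exfalso; apply h3
        have := h y h2
        simpa [ext] using this
      · rfl
    · symm
      push Not at h
      obtain ⟨y, hy, hne⟩ := h
      have hyn : y < n := mem_range.1 (hs hy)
      refine prod_eq_zero (mem_univ ⟨y, hyn⟩) ?_
      rw [if_pos hy, if_neg]
      simpa [ext, hyn] using hne
  simp only [e1]
  rw [← Fintype.piFinset_univ, ← prod_univ_sum (fun _ => univ)
    (fun (y : Fin n) i => p y i * (if (y : ℕ) ∈ s then (if i = j then (1:ℝ) else 0) else 1))]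
  have e2 : ∀ y : Fin n, ∑ i, p y i * (if (y : ℕ) ∈ s then (if i = j then (1:ℝ) else 0) else 1)
      = if (y : ℕ) ∈ s then p y j else 1 := by
    intro y
    split_ifs with h
    · simp
    · simp [h1]
  simp only [e2]
  rw [Fin.prod_univ_eq_prod_range (fun y => if y ∈ s then p y j else 1) n, prod_ite_mem,
    inter_eq_right.2 hs]

theorem one_le (n k l : ℕ) : ∑ c ∈ range n, (if c + k = l then (1:ℝ) else 0) ≤ 1 := by
  by_cases h : ∃ c ∈ range n, c + k = l
  · obtain ⟨c, hc, e⟩ := h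
    rw [sum_eq_single c]
    · rw [if_pos e]
    · intro b _ hb; rw [if_neg (by omega)]
    · intro h; exact absurd hc h
  · push Not at h
    rw [sum_eq_zero fun c hc => if_neg (h c hc)]; norm_num

theorem deg_le (n : ℕ) :
    ∑ a ∈ range n, ∑ b ∈ range n, ∑ c ∈ range n, ∑ d ∈ range n,
      (if 4 * a + d = 4 * b + c ∧ (a = b ∨ a = c ∨ a = d ∨ b = c ∨ b = d ∨ c = d) then (1:ℝ) else 0)
      ≤ 5 * (n : ℝ) ^ 2 := by
  have h1 : ∀ a b c, ∑ d ∈ range n,
      (if 4 * a + d = 4 * b + c ∧ (a = b ∨ a = c ∨ a = d ∨ b = c ∨ b = d ∨ c = d) then (1:ℝ) else 0)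
      ≤ (if b + 0 = a then 1 else 0) + ((if c + 0 = a then 1 else 0) + (if c + 0 = b then 1 else 0)
        + (if c + 4 * b = 5 * a then 1 else 0) + (if c + 3 * b = 4 * a then 1 else 0)) := by
    intro a b c
    by_cases h : b + 0 = a ∨ c + 0 = a ∨ c + 0 = b ∨ c + 4 * b = 5 * a ∨ c + 3 * b = 4 * a
    · refine le_trans (le_trans (sum_le_sum fun d _ => ?_) (one_le n (4 * a) (4 * b + c))) ?_
      · split_ifs with h2 h3
        · exact le_rfl
        · exfalso; omega
        · norm_num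
        · exact le_rfl
      · split_ifs <;> first | (exfalso; omega) | norm_num
    · rw [sum_eq_zero fun d _ => if_neg (by omega)]
      split_ifs <;> norm_num
  refine le_trans (sum_le_sum fun a _ => sum_le_sum fun b _ => sum_le_sum fun c _ => h1 a b c) ?_
  have h2 : ∀ a, ∑ b ∈ range n, ∑ c ∈ range n,
      ((if b + 0 = a then (1:ℝ) else 0) + ((if c + 0 = a then 1 else 0) + (if c + 0 = b then 1 else 0)
        + (if c + 4 * b = 5 * a then 1 else 0) + (if c + 3 * b = 4 * a then 1 else 0))) ≤ 5 * n := by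
    intro a
    simp only [sum_add_distrib]
    have b1 : ∑ b ∈ range n, ∑ _c ∈ range n, (if b + 0 = a then (1:ℝ) else 0) ≤ n := by
      rw [sum_comm]
      refine le_trans (sum_le_sum fun c _ => one_le n 0 a) (by simp)
    have b2 : ∑ _b ∈ range n, ∑ c ∈ range n, (if c + 0 = a then (1:ℝ) else 0) ≤ n :=
      le_trans (sum_le_sum fun b _ => one_le n 0 a) (by simp)
    have b3 : ∑ b ∈ range n, ∑ c ∈ range n, (if c + 0 = b then (1:ℝ) else 0) ≤ n :=
      le_trans (sum_le_sum fun b _ => one_le n 0 b) (by simp)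
    have b4 : ∑ b ∈ range n, ∑ c ∈ range n, (if c + 4 * b = 5 * a then (1:ℝ) else 0) ≤ n :=
      le_trans (sum_le_sum fun b _ => one_le n _ _) (by simp)
    have b5 : ∑ b ∈ range n, ∑ c ∈ range n, (if c + 3 * b = 4 * a then (1:ℝ) else 0) ≤ n :=
      le_trans (sum_le_sum fun b _ => one_le n _ _) (by simp)
    linarith
  refine le_trans (sum_le_sum fun a _ => h2 a) ?_
  simp; nlinarith

theorem rounding {r : ℕ} (n : ℕ) (j0 : Fin r) (p : ℕ → Fin r → ℝ) (h0 : ∀ y j, 0 ≤ p y j)
    (h1 : ∀ y, ∑ j, p y j = 1) :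
    ∃ c : Fin n → Fin r, Mo n (ext j0 c) ≤
      ∑ j, T n (fun y => p y j) (fun y => p y j) (fun y => p y j) (fun y => p y j)
        + 5 * (n : ℝ) ^ 2 := by
  set w : (Fin n → Fin r) → ℝ := fun c => ∏ y : Fin n, p y (c y) with hw
  have hw0 : ∀ c, 0 ≤ w c := fun c => prod_nonneg fun y _ => h0 _ _
  have hw1 : ∑ c, w c = 1 := avg_one n p h1
  have key : ∑ c, w c * Mo n (ext j0 c) ≤
      ∑ j, T n (fun y => p y j) (fun y => p y j) (fun y => p y j) (fun y => p y j)
        + 5 * (n : ℝ) ^ 2 := by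
    refine le_trans ?_ (add_le_add_right (deg_le n) _)
    unfold Mo T
    simp only [mul_sum]
    rw [sum_comm, sum_comm (s := univ), ← sum_add_distrib]
    refine sum_le_sum fun a ha => ?_
    rw [sum_comm, sum_comm (s := univ), ← sum_add_distrib]
    refine sum_le_sum fun b hb => ?_
    rw [sum_comm, sum_comm (s := univ), ← sum_add_distrib]
    refine sum_le_sum fun c hc => ?_
    rw [sum_comm, sum_comm (s := univ), ← sum_add_distrib]
    refine sum_le_sum fun d hd => ?_
    by_cases he : 4 * a + d = 4 * b + c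
    swap
    · simp [he]
    simp only [he, true_and, if_true]
    by_cases hd' : a = b ∨ a = c ∨ a = d ∨ b = c ∨ b = d ∨ c = d
    · rw [if_pos hd']
      have g1 : 0 ≤ ∑ j, p a j * p b j * p c j * p d j :=
        sum_nonneg fun j _ => mul_nonneg (mul_nonneg (mul_nonneg (h0 _ _) (h0 _ _)) (h0 _ _)) (h0 _ _)
      have g2 : ∑ χ : Fin n → Fin r, w χ * (if ext j0 χ a = ext j0 χ b ∧ ext j0 χ a = ext j0 χ c ∧
          ext j0 χ a = ext j0 χ d then (1:ℝ) else 0) ≤ ∑ χ, w χ :=
        sum_le_sum fun χ _ => by split_ifs <;> simp [hw0]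
      linarith
    · rw [if_neg hd', add_zero]
      push Not at hd'
      obtain ⟨n1, n2, n3, n4, n5, n6⟩ := hd'
      have g1 : ∀ j, p a j * p b j * p c j * p d j = ∑ χ : Fin n → Fin r, w χ *
          (if ∀ y ∈ ({a, b, c, d} : Finset ℕ), ext j0 χ y = j then 1 else 0) := by
        intro j
        rw [avg_set n j0 p h1 _ _ j, prod_insert, prod_insert, prod_insert, prod_singleton]
        · ring
        · simp [n6]
        · simp [n4, n5]
        · simp [n1, n2, n3]
        · intro y hy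
          simp only [mem_insert, mem_singleton] at hy
          rcases hy with rfl | rfl | rfl | rfl <;> assumption
      simp only [g1]
      rw [sum_comm]
      refine sum_le_sum fun χ _ => ?_
      rw [← mul_sum]
      refine mul_le_mul_of_nonneg_left ?_ (hw0 χ)
      split_ifs with h
      · refine le_trans ?_ (single_le_sum (f := fun j =>
          if ∀ y ∈ ({a, b, c, d} : Finset ℕ), ext j0 χ y = j then (1:ℝ) else 0)
          (fun j _ => by split_ifs <;> norm_num) (mem_univ (ext j0 χ a)))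
        rw [if_pos]
        intro y hy
        simp only [mem_insert, mem_singleton] at hy
        rcases hy with rfl | rfl | rfl | rfl
        · rfl
        · exact h.1.symm
        · exact h.2.1.symm
        · exact h.2.2.symm
      · exact sum_nonneg fun j _ => by split_ifs <;> norm_num
  by_contra hcon
  push Not at hcon
  set B := ∑ j, T n (fun y => p y j) (fun y => p y j) (fun y => p y j) (fun y => p y j)
        + 5 * (n : ℝ) ^ 2
  obtain ⟨c0, -, hc0⟩ : ∃ c ∈ (univ : Finset (Fin n → Fin r)), 0 < w c := by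
    by_contra h
    push Not at h
    have := sum_nonpos h
    linarith
  have : ∑ c, w c * B < ∑ c, w c * Mo n (ext j0 c) :=
    sum_lt_sum (fun c _ => mul_le_mul_of_nonneg_left (hcon c).le (hw0 c))
      ⟨c0, mem_univ _, mul_lt_mul_of_pos_left (hcon c0) hc0⟩
  rw [← sum_mul, hw1] at this
  linarith

theorem sum_fin4 (n : ℕ) (F : ℕ → ℕ → ℕ → ℕ → ℝ) :
    ∑ x : Fin 4 → Fin n, F (x 0) (x 1) (x 2) (x 3)
      = ∑ a ∈ range n, ∑ b ∈ range n, ∑ c ∈ range n, ∑ d ∈ range n, F a b c d := by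
  let e : (Fin 4 → Fin n) ≃ Fin n × Fin n × Fin n × Fin n :=
    { toFun := fun x => (x 0, x 1, x 2, x 3)
      invFun := fun q => ![q.1, q.2.1, q.2.2.1, q.2.2.2]
      left_inv := fun x => by funext i; fin_cases i <;> rfl
      right_inv := fun q => rfl }
  rw [Fintype.sum_equiv e (fun x => F (x 0) (x 1) (x 2) (x 3))
    (fun q => F q.1 q.2.1 q.2.2.1 q.2.2.2) (fun x => rfl)]
  simp only [Fintype.sum_prod_type]
  rw [← Fin.sum_univ_eq_sum_range (fun a => ∑ b ∈ range n, ∑ c ∈ range n, ∑ d ∈ range n, F a b c d)]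
  refine sum_congr rfl fun a _ => ?_
  rw [← Fin.sum_univ_eq_sum_range (fun b => ∑ c ∈ range n, ∑ d ∈ range n, F a b c d)]
  refine sum_congr rfl fun b _ => ?_
  rw [← Fin.sum_univ_eq_sum_range (fun c => ∑ d ∈ range n, F a b c d)]
  refine sum_congr rfl fun c _ => ?_
  rw [← Fin.sum_univ_eq_sum_range (fun d => F a b c d)]

theorem eqn_iff (n : ℕ) (x : Fin 4 → Fin n) :
    ∑ i, (![4, -4, -1, 1] : Fin 4 → ℤ) i * (((x i : ℕ) : ℤ) + 1) = 0
      ↔ 4 * (x 0 : ℕ) + (x 3 : ℕ) = 4 * (x 1 : ℕ) + (x 2 : ℕ) := by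
  simp only [Fin.sum_univ_four, Matrix.cons_val_zero, Matrix.cons_val_one, Matrix.cons_val]
  omega

theorem card_S (n : ℕ) :
    ((univ.filter (fun x : Fin 4 → Fin n =>
      ∑ i, (![4, -4, -1, 1] : Fin 4 → ℤ) i * (((x i : ℕ) : ℤ) + 1) = 0)).card : ℝ) = S n := by
  unfold S
  rw [← sum_fin4 n (fun a b c d => if 4 * a + d = 4 * b + c then 1 else 0), card_filter]
  push_cast
  refine sum_congr rfl fun x _ => ?_
  simp only [eqn_iff]

theorem card_Mo {r : ℕ} (n : ℕ) (j0 : Fin r) (c : Fin n → Fin r) :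
    ((univ.filter (fun x : Fin 4 → Fin n =>
      ∑ i, (![4, -4, -1, 1] : Fin 4 → ℤ) i * (((x i : ℕ) : ℤ) + 1) = 0 ∧
        ∀ i j : Fin 4, c (x i) = c (x j))).card : ℝ) = Mo n (ext j0 c) := by
  unfold Mo
  rw [← sum_fin4 n (fun a b c' d => if 4 * a + d = 4 * b + c' ∧ ext j0 c a = ext j0 c b ∧
    ext j0 c a = ext j0 c c' ∧ ext j0 c a = ext j0 c d then 1 else 0), card_filter]
  push_cast
  refine sum_congr rfl fun x _ => ?_
  have e : ∀ y : Fin n, ext j0 c y = c y := fun y => by simp [ext]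
  simp only [eqn_iff, e]
  congr 1
  apply propext
  refine and_congr_right fun _ => ⟨fun h => ⟨h _ _, h _ _, h _ _⟩, fun h i j => ?_⟩
  have : ∀ i, c (x 0) = c (x i) := fun i => by
    fin_cases i
    · rfl
    · exact h.1
    · exact h.2.1
    · exact h.2.2
  rw [← this i, ← this j]

end Pool.Agent.H2.Com
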