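import Pool.Agent.H2.ComD
import Pool.Agent.H2.ComData

set_option autoImplicit false

namespace Pool.Agent.H2.Com

def wLL : List (List ℕ) := uLL.map (fun l => l.map (fun x => 2 ^ 27 - x))

theorem chkU : Vc uLL = 32718451933399518697430504172 := by decide +kernel

theorem chkW : Vc wLL = 147279176643317639879633615068070289089549036 := by decide +kernel

theorem chkL : uLL.flatten.length = 3456 := by decide +kernel

theorem chkB : uLL.flatten.all (fun x => decide (x ≤ 2 ^ 27)) = true := by decide +kernel

end Pool.Agent.H2.Com
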