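import Pool.Agent.H2.ComC

set_option autoImplicit false

namespace Pool.Agent.H2.Com

open Finset

def ev (B : ℕ) (l : List ℕ) : ℕ := l.foldr (fun x acc => x + B * acc) 0

def ev2 (B : ℕ) (ll : List (List ℕ)) : ℕ := ll.foldr (fun l acc => ev B l + B ^ l.length * acc) 0

theorem ev_append (B : ℕ) (l1 l2 : List ℕ) : ev B (l1 ++ l2) = ev B l1 + B ^ l1.length * ev B l2 := by
  induction l1 with
  | nil => simp [ev]
  | cons x l ih =>
    have : ev B (x :: l ++ l2) = x + B * ev B (l ++ l2) := rfl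
    rw [this, ih]
    have : ev B (x :: l) = x + B * ev B l := rfl
    rw [this, List.length_cons]; ring

theorem ev2_eq (B : ℕ) (ll : List (List ℕ)) : ev2 B ll = ev B ll.flatten := by
  induction ll with
  | nil => rfl
  | cons l ll ih =>
    have : ev2 B (l :: ll) = ev B l + B ^ l.length * ev2 B ll := rfl
    rw [this, ih, List.flatten_cons, ev_append]

theorem ev_eq (B : ℕ) (l : List ℕ) : ev B l = ∑ i ∈ range l.length, l.getD i 0 * B ^ i := by
  induction l with
  | nil => rfl
  | cons x l ih =>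
    have : ev B (x :: l) = x + B * ev B l := rfl
    rw [this, ih, List.length_cons, sum_range_succ', mul_sum]
    simp only [List.getD_cons_succ, List.getD_cons_zero, pow_zero, mul_one]
    rw [add_comm]; congr 1
    exact sum_congr rfl fun i _ => by ring

theorem stretch (B N : ℕ) (x : ℕ → ℕ) :
    (1 + B + B ^ 2 + B ^ 3) * ∑ i ∈ range N, x i * (B ^ 4) ^ i
      = ∑ a ∈ range (4 * N), x (a / 4) * B ^ a := by
  induction N with
  | zero => simp
  | succ N ih =>
    have : 4 * (N + 1) = 4 * N + 1 + 1 + 1 + 1 := by ring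
    rw [this, sum_range_succ, sum_range_succ, sum_range_succ, sum_range_succ, sum_range_succ,
      mul_add, ih]
    have e0 : 4 * N / 4 = N := by omega
    have e1 : (4 * N + 1) / 4 = N := by omega
    have e2 : (4 * N + 1 + 1) / 4 = N := by omega
    have e3 : (4 * N + 1 + 1 + 1) / 4 = N := by omega
    rw [e0, e1, e2, e3]; ring

theorem cauchy (B M1 M2 : ℕ) (x y : ℕ → ℕ) (hx : ∀ a, M1 ≤ a → x a = 0) (hy : ∀ a, M2 ≤ a → y a = 0) :
    (∑ a ∈ range M1, x a * B ^ a) * (∑ i ∈ range M2, y i * B ^ i)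
      = ∑ q ∈ range (M1 + M2), (∑ a ∈ range (q + 1), x a * y (q - a)) * B ^ q := by
  have e1 : ∀ q ∈ range (M1 + M2), (∑ a ∈ range (q + 1), x a * y (q - a)) * B ^ q
      = ∑ a ∈ range (q + 1), (fun a i => x a * B ^ a * (y i * B ^ i)) a (q - a) := by
    intro q _
    rw [sum_mul]
    refine sum_congr rfl fun a ha => ?_
    rw [mem_range] at ha
    have : B ^ q = B ^ a * B ^ (q - a) := by rw [← pow_add]; congr 1; omega
    rw [this]; ring
  rw [sum_congr rfl e1, sum_range_diag_flip (M1 + M2) (fun a i => x a * B ^ a * (y i * B ^ i)),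
    sum_mul_sum, sum_range_add]
  have e2 : ∑ a ∈ range M2, ∑ k ∈ range (M1 + M2 - (M1 + a)),
      x (M1 + a) * B ^ (M1 + a) * (y k * B ^ k) = 0 :=
    sum_eq_zero fun a _ => sum_eq_zero fun k _ => by rw [hx _ (by omega)]; ring
  rw [e2, add_zero]
  refine sum_congr rfl fun a ha => ?_
  rw [mem_range] at ha
  refine sum_subset (range_subset_range.2 (by omega)) fun k _ hk => ?_
  rw [mem_range] at hk; rw [hy k (by omega)]; ring

theorem dig_lt (B : ℕ) (h : ℕ → ℕ) (q : ℕ) (hb : ∀ i, i < q → h i < B) :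
    ∑ i ∈ range q, h i * B ^ i < B ^ q := by
  induction q with
  | zero => simp
  | succ q ih =>
    rw [sum_range_succ, pow_succ]
    have h1 := ih fun i hi => hb i (by omega)
    have h2 : h q + 1 ≤ B := hb q (by omega)
    nlinarith [Nat.mul_le_mul_left (B ^ q) h2]

def dg (B X q : ℕ) : ℕ := X / B ^ q % B

theorem dg_eq (B M : ℕ) (h : ℕ → ℕ) (hb : ∀ i, i < M → h i < B) (q : ℕ) (hq : q < M) :
    dg B (∑ i ∈ range M, h i * B ^ i) q = h q := by
  obtain ⟨e, rfl⟩ : ∃ e, M = q + (e + 1) := ⟨M - q - 1, by omega⟩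
  have hB : 0 < B := lt_of_le_of_lt (Nat.zero_le _) (hb q hq)
  have e1 : ∑ i ∈ range (q + (e + 1)), h i * B ^ i = ∑ i ∈ range q, h i * B ^ i
      + B ^ q * (h q + B * ∑ i ∈ range e, h (q + (i + 1)) * B ^ i) := by
    rw [sum_range_add, sum_range_succ', mul_add, mul_sum, mul_sum]
    congr 1
    rw [add_comm]; congr 1
    · ring
    · exact sum_congr rfl fun i _ => by ring
  unfold dg
  rw [e1, Nat.add_mul_div_left _ _ (pow_pos hB q),
    Nat.div_eq_of_lt (dig_lt B h q fun i hi => hb i (by omega)), zero_add, Nat.add_mul_mod_self_left,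
    Nat.mod_eq_of_lt (hb q hq)]

def dp (B X prev : ℕ) : ℕ → ℕ
  | 0 => prev
  | q + 1 => dg B X q

def go (B : ℕ) : ℕ → ℕ → ℕ → ℕ → ℕ
  | 0, _, _, acc => acc
  | k + 1, X, prev, acc => go B k (X / B) (X % B) (acc + X % B * (2 * (X % B) + prev))

theorem dg_div (B X c q : ℕ) : dg B (X / B ^ c) q = dg B X (c + q) := by
  unfold dg; rw [Nat.div_div_eq_div_mul, pow_add]

theorem go_eq (B k X prev acc : ℕ) :
    go B k X prev acc = acc + ∑ q ∈ range k, dg B X q * (2 * dg B X q + dp B X prev q) := by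
  induction k generalizing X prev acc with
  | zero => simp [go]
  | succ k ih =>
    rw [go, ih, sum_range_succ']
    have e0 : dg B X 0 = X % B := by simp [dg]
    have e1 : ∀ q, dg B (X / B) q = dg B X (q + 1) := fun q => by
      have := dg_div B X 1 q
      rwa [pow_one, add_comm] at this
    have e2 : ∀ q, dp B (X / B) (X % B) q = dp B X prev (q + 1) := fun q => by
      cases q with
      | zero => simp [dp, e0]
      | succ q => simp [dp, e1]
    simp only [e1, e2, e0]
    have e3 : dp B X prev 0 = prev := rfl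
    rw [e3]; ring

theorem dg_mod (B X c q : ℕ) (hq : q < c) : dg B (X % B ^ c) q = dg B X q := by
  obtain ⟨e, rfl⟩ : ∃ e, c = q + (e + 1) := ⟨c - q - 1, by omega⟩
  unfold dg
  rw [pow_add, Nat.mod_mul_right_div_self, Nat.mod_mod_of_dvd _ (dvd_pow_self B (by omega))]

def outer (B c : ℕ) : ℕ → ℕ → ℕ → ℕ → ℕ
  | 0, _, _, acc => acc
  | k + 1, X, prev, acc =>
    outer B c k (X / B ^ (c + 1)) (X % B ^ (c + 1) / B ^ c % B)
      (go B (c + 1) (X % B ^ (c + 1)) prev acc)

theorem outer_eq (B c k X prev acc : ℕ) :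
    outer B c k X prev acc
      = acc + ∑ q ∈ range ((c + 1) * k), dg B X q * (2 * dg B X q + dp B X prev q) := by
  induction k generalizing X prev acc with
  | zero => simp [outer]
  | succ k ih =>
    have : (c + 1) * (k + 1) = (c + 1) + (c + 1) * k := by ring
    rw [outer, ih, go_eq, this, sum_range_add _ (c + 1) ((c + 1) * k), add_assoc]
    refine congrArg₂ (· + ·) rfl (congrArg₂ (· + ·) ?_ ?_)
    · refine sum_congr rfl fun q hq => ?_
      rw [mem_range] at hq
      rw [dg_mod B X (c + 1) q hq]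
      cases q with
      | zero => rfl
      | succ q => simp only [dp]; rw [dg_mod B X (c + 1) q (by omega)]
    · refine sum_congr rfl fun q _ => ?_
      rw [dg_div]
      cases q with
      | zero =>
        have := dg_mod B X (c + 1) c (by omega)
        unfold dg at this
        simp only [dp, this]; rfl
      | succ q => simp only [dp]; rw [dg_div]; rfl

/-- the computed quantity. -/
def Vc (ll : List (List ℕ)) : ℕ :=
  outer (2 ^ 72) 127 135 ((1 + 2 ^ 72 + (2 ^ 72) ^ 2 + (2 ^ 72) ^ 3) * ev2 ((2 ^ 72) ^ 4) ll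
    * ev2 (2 ^ 72) ll) 0 0

theorem Vc_eq (ll : List (List ℕ)) (hl : ll.flatten.length = 3456)
    (hb : ∀ i, ll.flatten.getD i 0 ≤ 2 ^ 27) :
    (Vc ll : ℝ) = 2 * H0 3456 (fun i => (ll.flatten.getD i 0 : ℝ))
      + H1 3456 (fun i => (ll.flatten.getD i 0 : ℝ)) := by
  set x : ℕ → ℕ := fun i => ll.flatten.getD i 0 with hx
  have hx0 : ∀ i, 3456 ≤ i → x i = 0 := fun i hi => List.getD_eq_default _ _ (by omega)
  set h : ℕ → ℕ := fun q => ∑ a ∈ range (q + 1), x (a / 4) * x (q - a) with hh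
  have hlt : ∀ q, q < 4 * 3456 + 3456 → h q < 2 ^ 72 := by
    intro q hq
    have : h q ≤ ∑ _a ∈ range (q + 1), 2 ^ 27 * 2 ^ 27 :=
      sum_le_sum fun a _ => Nat.mul_le_mul (hb _) (hb _)
    rw [sum_const, card_range, smul_eq_mul] at this
    omega
  have e : (1 + 2 ^ 72 + (2 ^ 72) ^ 2 + (2 ^ 72) ^ 3) * ev2 ((2 ^ 72) ^ 4) ll * ev2 (2 ^ 72) ll
      = ∑ q ∈ range (4 * 3456 + 3456), h q * (2 ^ 72) ^ q := by
    rw [ev2_eq, ev2_eq, ev_eq, ev_eq, hl, stretch _ _ x,
      cauchy _ _ _ (fun a => x (a / 4)) x (fun a ha => hx0 _ (by omega)) hx0]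
  have ec : ∀ q, (h q : ℝ) = hc (fun i => (x i : ℝ)) q := fun q => by
    simp only [hh, hc]; push_cast; rfl
  unfold Vc H0 H1
  rw [e, outer_eq, zero_add, mul_sum, ← sum_add_distrib, Nat.cast_sum]
  refine sum_congr rfl fun q hq => ?_
  rw [mem_range] at hq
  rw [dg_eq _ _ h hlt q (by omega)]
  have : ((dp (2 ^ 72) (∑ q ∈ range (4 * 3456 + 3456), h q * (2 ^ 72) ^ q) 0 q : ℕ) : ℝ)
      = hp (fun i => (x i : ℝ)) q := by
    cases q with
    | zero => simp [dp, hp]
    | succ q => simp only [dp, hp]; rw [dg_eq _ _ h hlt q (by omega), ec]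
  rw [Nat.cast_mul, Nat.cast_add, Nat.cast_mul, this, ec]
  push_cast
  ring

end Pool.Agent.H2.Com
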