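import Pool.Agent.H2.ComChk

set_option autoImplicit false

namespace Pool.Agent.H2.Com

open Finset

theorem T_smul (n : ℕ) (g : ℕ → ℝ) (l : ℝ) :
    T n (fun y => g y / l) (fun y => g y / l) (fun y => g y / l) (fun y => g y / l)
      = T n g g g g / l ^ 4 := by
  unfold T
  simp only [sum_div]
  refine sum_congr rfl fun a _ => sum_congr rfl fun b _ => sum_congr rfl fun c _ =>
    sum_congr rfl fun d _ => ?_
  split_ifs
  · ring
  · simp

theorem T_blow_le (u : ℕ → ℝ) (N K : ℕ) (hu : ∀ i, N ≤ i → u i = 0) (h0 : ∀ i, 0 ≤ u i) :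
    T (4 * K * N) (fun y => u (y / (4 * K))) (fun y => u (y / (4 * K))) (fun y => u (y / (4 * K)))
      (fun y => u (y / (4 * K))) ≤ 4 / 3 * ((K ^ 3 + K) * (2 * H0 N u + H1 N u)) := by
  rw [T_blow u N K hu]
  have a0 : 0 ≤ H0 N u := sum_nonneg fun q _ => sq_nonneg _
  have hc0 : ∀ q, 0 ≤ hc u q := fun q => sum_nonneg fun a _ => mul_nonneg (h0 _) (h0 _)
  have a1 : 0 ≤ H1 N u := sum_nonneg fun q _ => mul_nonneg (hc0 q) (by
    cases q with
    | zero => exact le_rfl
    | succ q => exact hc0 q)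
  have hK : (0 : ℝ) ≤ K := Nat.cast_nonneg _
  nlinarith [mul_nonneg hK a0, mul_nonneg hK a1]

theorem u_le (i : ℕ) : uLL.flatten.getD i 0 ≤ 2 ^ 27 := by
  by_cases h : i < uLL.flatten.length
  · rw [List.getD_eq_getElem _ _ h]
    have := List.all_eq_true.1 chkB _ (List.getElem_mem h)
    exact of_decide_eq_true this
  · rw [List.getD_eq_default _ _ (by omega)]; exact Nat.zero_le _

theorem w_flat : wLL.flatten = uLL.flatten.map (fun x => 2 ^ 27 - x) := by
  unfold wLL; rw [List.map_flatten]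

theorem w_len : wLL.flatten.length = 3456 := by rw [w_flat, List.length_map, chkL]

theorem getD_map' (l : List ℕ) (f : ℕ → ℕ) (i : ℕ) (hi : i < l.length) :
    (l.map f).getD i 0 = f (l.getD i 0) := by
  rw [List.getD_eq_getElem _ _ (by rw [List.length_map]; exact hi), List.getD_eq_getElem _ _ hi,
    List.getElem_map]

theorem w_eq (i : ℕ) (hi : i < 3456) : wLL.flatten.getD i 0 = 2 ^ 27 - uLL.flatten.getD i 0 := by
  rw [w_flat, getD_map' _ _ _ (by rw [chkL]; exact hi)]

theorem w_le (i : ℕ) : wLL.flatten.getD i 0 ≤ 2 ^ 27 := by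
  by_cases h : i < 3456
  · rw [w_eq i h]; exact Nat.sub_le _ _
  · rw [List.getD_eq_default _ _ (by rw [w_len]; omega)]; exact Nat.zero_le _

theorem uncommon : ∃ ε : ℝ, 0 < ε ∧ ∀ N : ℕ, ∃ n : ℕ, N ≤ n ∧ ∃ c : Fin n → Fin 8192,
    Mo n (ext 0 c) < ((((8192 : ℕ) : ℝ) ^ 3)⁻¹ - ε) * S n := by
  set u : ℕ → ℝ := fun i => (uLL.flatten.getD i 0 : ℝ) with hu
  set w : ℕ → ℝ := fun i => (wLL.flatten.getD i 0 : ℝ) with hw
  have hVu := Vc_eq uLL chkL u_le
  have hVw := Vc_eq wLL w_len w_le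
  rw [chkU, ← hu] at hVu
  rw [chkW, ← hw] at hVw
  have hu0 : ∀ i, 3456 ≤ i → u i = 0 := fun i hi => by
    simp only [hu]; rw [List.getD_eq_default _ _ (by rw [chkL]; exact hi)]; simp
  have hw0 : ∀ i, 3456 ≤ i → w i = 0 := fun i hi => by
    simp only [hw]; rw [List.getD_eq_default _ _ (by rw [w_len]; exact hi)]; simp
  have hule : ∀ i, u i ≤ 2 ^ 27 := fun i => by
    simp only [hu]; exact_mod_cast u_le i
  have hwe : ∀ i, i < 3456 → w i = 2 ^ 27 - u i := fun i hi => by
    simp only [hu, hw]; rw [w_eq i hi, Nat.cast_sub (u_le i)]; norm_num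
  refine ⟨1 / 10 ^ 28, by norm_num, fun N => ?_⟩
  obtain ⟨K, hK1, hK2⟩ : ∃ K : ℕ, N ≤ K ∧ 1000000000000000000000000000000 ≤ K :=
    ⟨_, le_max_left _ _, le_max_right _ _⟩
  refine ⟨4 * K * 3456, by omega, ?_⟩
  set p : ℕ → Fin 8192 → ℝ := fun y j =>
    if j = 0 then u (y / (4 * K)) / 2 ^ 27 else (2 ^ 27 - u (y / (4 * K))) / (2 ^ 27 * 8191) with hp
  have s1 : ∀ (A B : ℝ), ∑ j : Fin 8192, (if j = 0 then A else B) = A + 8191 * B := by
    intro A B
    rw [← add_sum_erase _ _ (mem_univ (0 : Fin 8192)), if_pos rfl,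
      sum_congr rfl (fun j hj => if_neg (ne_of_mem_erase hj)), sum_const, card_erase_of_mem (mem_univ _),
      card_univ, Fintype.card_fin, nsmul_eq_mul]
    norm_num
  obtain ⟨c, hc⟩ := rounding (4 * K * 3456) 0 p
    (fun y j => by
      simp only [hp]
      split_ifs
      · exact div_nonneg (Nat.cast_nonneg _) (by norm_num)
      · exact div_nonneg (sub_nonneg.2 (hule _)) (by norm_num))
    (fun y => by simp only [hp]; rw [s1]; ring)
  refine ⟨c, lt_of_le_of_lt hc ?_⟩
  have hK0 : 0 < K := by omega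
  have e1 : ∑ j, T (4 * K * 3456) (fun y => p y j) (fun y => p y j) (fun y => p y j) (fun y => p y j)
      = T (4 * K * 3456) (fun y => u (y / (4 * K))) (fun y => u (y / (4 * K)))
          (fun y => u (y / (4 * K))) (fun y => u (y / (4 * K))) / (2 ^ 27) ^ 4
        + 8191 * (T (4 * K * 3456) (fun y => w (y / (4 * K))) (fun y => w (y / (4 * K)))
          (fun y => w (y / (4 * K))) (fun y => w (y / (4 * K))) / (2 ^ 27 * 8191) ^ 4) := by
    rw [← s1]
    refine sum_congr rfl fun j _ => ?_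
    split_ifs with h
    · rw [← T_smul]; simp only [hp, if_pos h]
    · rw [← T_smul]
      refine T_congr4 _ _ _ fun y hy => ?_
      simp only [hp, if_neg h]
      have h4 : 0 < 4 * K := by omega
      have h5 : y < 3456 * (4 * K) := by rw [mul_comm]; exact hy
      rw [hwe _ ((Nat.div_lt_iff_lt_mul h4).2 h5)]
  have b1 := T_blow_le u 3456 K hu0 (fun i => Nat.cast_nonneg _)
  have b2 := T_blow_le w 3456 K hw0 (fun i => Nat.cast_nonneg _)
  rw [← hVu] at b1
  rw [← hVw] at b2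
  have e2 : 4 * K * 3456 = 4 * (K * 3456) := by ring
  rw [e1]
  have e3 : S (4 * K * 3456) = (44 * ((K : ℝ) * 3456) ^ 3 + 4 * (K * 3456)) / 3 := by
    rw [e2, S_four]; push_cast; ring
  rw [e3]
  have hKR : (1000000000000000000000000000000 : ℝ) ≤ K := by exact_mod_cast hK2
  push_cast at b1 b2 ⊢
  generalize T (4 * K * 3456) (fun y => u (y / (4 * K))) (fun y => u (y / (4 * K)))
          (fun y => u (y / (4 * K))) (fun y => u (y / (4 * K))) = Tu at b1 ⊢
  generalize T (4 * K * 3456) (fun y => w (y / (4 * K))) (fun y => w (y / (4 * K)))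
          (fun y => w (y / (4 * K))) (fun y => w (y / (4 * K))) = Tw at b2 ⊢
  generalize (K : ℝ) = k at hKR b1 b2 ⊢
  have k3 : 0 < k := by linarith
  have k1 : 1000000000000000000000000000000 * k ^ 2 ≤ k ^ 3 := by nlinarith [sq_nonneg k]
  have k2 : k ≤ k ^ 2 := by nlinarith
  linarith

end Pool.Agent.H2.Com
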