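import Mathlib

/-! Extreme points of compact convex sets: Milman's theorem, a Baire property, uniform averages. -/

set_option autoImplicit false

namespace Pool.Agent.H2.Dn

open Filter Topology Set

section general

variable {W : Type} [AddCommGroup W] [Module ℝ W] [TopologicalSpace W] [IsTopologicalAddGroup W]
  [ContinuousSMul ℝ W]

lemma join_compact {A B : Set W} (hA : IsCompact A) (hB : IsCompact B) :
    IsCompact (convexJoin ℝ A B) := by
  have h := ((isCompact_Icc (a := (0 : ℝ)) (b := 1)).prod (hA.prod hB)).image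
    (f := fun p : ℝ × W × W => (1 - p.1) • p.2.1 + p.1 • p.2.2) (by fun_prop)
  convert h using 1
  ext y
  rw [mem_convexJoin]
  constructor
  · rintro ⟨a, ha, b, hb, hy⟩
    rw [segment_eq_image] at hy
    obtain ⟨t, ht, rfl⟩ := hy
    exact ⟨(t, a, b), ⟨ht, ha, hb⟩, rfl⟩
  · rintro ⟨⟨t, a, b⟩, ⟨ht, ha, hb⟩, rfl⟩
    refine ⟨a, ha, b, hb, ?_⟩
    rw [segment_eq_image]
    exact ⟨t, ht, rfl⟩

variable [T2Space W]

lemma hull_union {C A B : Set W} (hC : IsCompact C) (hC' : Convex ℝ C) (hA : A ⊆ C) (hB : B ⊆ C)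
    (a0 : A.Nonempty) (b0 : B.Nonempty) :
    closure (convexHull ℝ (A ∪ B)) ⊆
      convexJoin ℝ (closure (convexHull ℝ A)) (closure (convexHull ℝ B)) := by
  have sub : ∀ S ⊆ C, closure (convexHull ℝ S) ⊆ C := fun S hS =>
    closure_minimal (convexHull_min hS hC') hC.isClosed
  have inc : ∀ S : Set W, S ⊆ closure (convexHull ℝ S) := fun S =>
    (subset_convexHull ℝ S).trans subset_closure
  refine closure_minimal (convexHull_min (union_subset ?_ ?_) ?_) ?_
  · exact (inc A).trans (subset_convexJoin_left (b0.mono (inc B)))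
  · exact (inc B).trans (subset_convexJoin_right (a0.mono (inc A)))
  · exact (convex_convexHull ℝ A).closure.convexJoin (convex_convexHull ℝ B).closure
  · exact (join_compact (hC.of_isClosed_subset isClosed_closure (sub A hA))
      (hC.of_isClosed_subset isClosed_closure (sub B hB))).isClosed

lemma milman [LocallyConvexSpace ℝ W] {C A : Set W} (hC : IsCompact C) (hC' : Convex ℝ C)
    (hA : A ⊆ C) {e : W} (he : e ∈ C.extremePoints ℝ) (h : e ∉ closure A) :
    e ∉ closure (convexHull ℝ A) := by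
  have sub : ∀ S ⊆ C, closure (convexHull ℝ S) ⊆ C := fun S hS =>
    closure_minimal (convexHull_min hS hC') hC.isClosed
  have hA' : IsCompact (closure A) :=
    hC.of_isClosed_subset isClosed_closure (closure_minimal hA hC.isClosed)
  have key : e ∉ closure (convexHull ℝ (closure A ∩ C)) := by
    refine hA'.induction_on (p := fun s => e ∉ closure (convexHull ℝ (s ∩ C))) (by simp) ?_ ?_ ?_
    · intro s t hst ht hs
      exact ht (closure_mono (convexHull_mono (inter_subset_inter_left _ hst)) hs)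
    · intro s t hs ht hst
      rw [union_inter_distrib_right] at hst
      rcases (s ∩ C).eq_empty_or_nonempty with h1 | h1
      · rw [h1, empty_union] at hst; exact ht hst
      rcases (t ∩ C).eq_empty_or_nonempty with h2 | h2
      · rw [h2, union_empty] at hst; exact hs hst
      obtain ⟨a, ha, b, hb, hab⟩ := mem_convexJoin.mp
        (hull_union hC hC' inter_subset_right inter_subset_right h1 h2 hst)
      have ha' : a ≠ e := fun h => hs (h ▸ ha)
      have hb' : b ≠ e := fun h => ht (h ▸ hb)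
      exact ha' (he.2 (sub _ inter_subset_right ha) (sub _ inter_subset_right hb)
        (mem_openSegment_of_ne_left_right ha' hb' hab))
    · intro a ha
      obtain ⟨f, hf⟩ := geometric_hahn_banach_point_point (x := a) (y := e) fun h' => h (h' ▸ ha)
      refine ⟨{y | f y ≤ (f a + f e) / 2}, mem_nhdsWithin_of_mem_nhds ?_, fun h' => ?_⟩
      · exact f.continuous.continuousAt.preimage_mem_nhds (Iic_mem_nhds (by linarith))
      · have : e ∈ {y | f y ≤ (f a + f e) / 2} :=
          closure_minimal (convexHull_min inter_subset_left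
            (convex_halfSpace_le (f : W →ₗ[ℝ] ℝ).isLinear _))
            (isClosed_le f.continuous continuous_const) h'
        simp only [mem_setOf_eq] at this
        linarith
  exact fun h' => key (closure_mono (convexHull_mono (subset_inter subset_closure hA)) h')

lemma baire {C : Set W} (hC : IsCompact C) (d : ℕ → W → ℝ) (hd : ∀ j, Continuous (d j))
    (hsep : ∀ a b, (∀ j, d j a = d j b) → a = b) {ι : Type} [Countable ι] (F : ι → Set W)
    (hF : ∀ i, IsClosed (F i)) {V : Set W} (hV : IsOpen V) (hne : (V ∩ C.extremePoints ℝ).Nonempty)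
    (hcov : V ∩ C.extremePoints ℝ ⊆ ⋃ i, F i) :
    ∃ i V', IsOpen V' ∧ (V' ∩ C.extremePoints ℝ).Nonempty ∧ V' ∩ C.extremePoints ℝ ⊆ F i := by
  set E := C.extremePoints ℝ with hE
  have hEC : closure E ⊆ C := closure_minimal extremePoints_subset hC.isClosed
  have : CompactSpace (closure E) :=
    isCompact_iff_compactSpace.mp (hC.of_isClosed_subset isClosed_closure hEC)
  let N : ℕ × ℕ → Set W := fun q => (fun p : ℝ × W × W => (1 - p.1) • p.2.1 + p.1 • p.2.2) ''
    ((Icc (1 / ((q.2 : ℝ) + 2)) (1 - 1 / ((q.2 : ℝ) + 2)) ×ˢ (C ×ˢ C)) ∩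
      {p | 1 / ((q.2 : ℝ) + 2) ≤ |d q.1 p.2.1 - d q.1 p.2.2|})
  have hN : ∀ q, IsClosed (N q) := fun q => by
    have := hd q.1
    exact (((isCompact_Icc.prod (hC.prod hC)).inter_right
      (isClosed_le continuous_const (by fun_prop))).image (by fun_prop)).isClosed
  have hNE : ∀ q, ∀ z ∈ N q, z ∉ E := by
    rintro q _ ⟨⟨t, a, b⟩, ⟨⟨ht, ha, hb⟩, h⟩, rfl⟩ hz
    have h0 : (0 : ℝ) < 1 / ((q.2 : ℝ) + 2) := by positivity
    have hs : (1 - t) • a + t • b ∈ openSegment ℝ a b := by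
      rw [openSegment_eq_image]
      exact ⟨t, ⟨by linarith [ht.1], by linarith [ht.2]⟩, rfl⟩
    obtain ⟨h1, h2⟩ := (mem_extremePoints.mp hz).2 a ha b hb hs
    simp only [mem_setOf_eq] at h
    rw [h1.trans h2.symm, sub_self, abs_zero] at h
    linarith
  have hEN : ∀ z ∈ C, z ∉ E → ∃ q, z ∈ N q := by
    intro z hz hz'
    rw [hE, mem_extremePoints] at hz'
    push Not at hz'
    obtain ⟨a, ha, b, hb, hs, hne⟩ := hz' hz
    have hab : a ≠ b := by
      rintro rfl
      rw [openSegment_same] at hs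
      exact hne hs.symm hs.symm
    obtain ⟨j, hj⟩ : ∃ j, d j a ≠ d j b := by
      by_contra hc
      push Not at hc
      exact hab (hsep a b hc)
    rw [openSegment_eq_image] at hs
    obtain ⟨t, ht, rfl⟩ := hs
    obtain ⟨n, hn⟩ := exists_nat_one_div_lt (lt_min (lt_min ht.1 (sub_pos.mpr ht.2))
      (abs_pos.mpr (sub_ne_zero.mpr hj)))
    have h1 : 1 / ((n : ℝ) + 2) ≤ 1 / ((n : ℝ) + 1) :=
      one_div_le_one_div_of_le (by positivity) (by linarith)
    simp only [lt_min_iff] at hn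
    exact ⟨(j, n), (t, a, b), ⟨⟨⟨by simp only; linarith [hn.1.1], by simp only; linarith [hn.1.2]⟩,
      ha, hb⟩, by simp only [mem_setOf_eq]; linarith [hn.2]⟩, rfl⟩
  let G : Option (ι ⊕ ℕ × ℕ) → Set W := fun o => o.elim Vᶜ (Sum.elim F N)
  have hG : ∀ o, IsClosed (G o) := by
    rintro (_ | i | q)
    exacts [hV.isClosed_compl, hF i, hN q]
  have hden := dense_iUnion_interior_of_closed
    (f := fun o => (Subtype.val ⁻¹' G o : Set (closure E)))
    (fun o => (hG o).preimage continuous_subtype_val) (by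
      refine eq_univ_of_forall fun z => mem_iUnion.mpr ?_
      by_cases h1 : z.1 ∈ V
      · by_cases h2 : z.1 ∈ E
        · obtain ⟨i, hi⟩ := mem_iUnion.mp (hcov ⟨h1, h2⟩)
          exact ⟨some (Sum.inl i), hi⟩
        · obtain ⟨q, hq⟩ := hEN _ (hEC z.2) h2
          exact ⟨some (Sum.inr q), hq⟩
      · exact ⟨none, h1⟩)
  obtain ⟨e, he⟩ := hne
  obtain ⟨z, hz1, hz2⟩ := hden.inter_open_nonempty _ (hV.preimage continuous_subtype_val)
    ⟨⟨e, subset_closure he.2⟩, he.1⟩
  obtain ⟨o, ho⟩ := mem_iUnion.mp hz2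
  obtain ⟨U, hU1, hU2, hU3⟩ := mem_interior.mp ho
  obtain ⟨V', hV', rfl⟩ := isOpen_induced_iff.mp hU2
  obtain ⟨e', he1, he2⟩ := mem_closure_iff.mp z.2 V' hV' hU3
  have hs : V' ∩ E ⊆ G o := fun y hy => hU1 (show (⟨y, subset_closure hy.2⟩ : closure E) ∈ _ from hy.1)
  rcases o with _ | i | q
  · exact (hU1 hU3 hz1).elim
  · exact ⟨i, V', hV', ⟨e', he1, he2⟩, hs⟩
  · exact (hNE q e' (hs ⟨he1, he2⟩) he2).elim

end general

lemma unif {Z : Type} [NormedAddCommGroup Z] [NormedSpace ℝ Z] {S : Set Z} {e : Z}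
    (he : e ∈ closure (convexHull ℝ S)) {θ : ℝ} (hθ : 0 < θ) :
    ∃ (m : ℕ) (y : Fin (m + 1) → Z), (∀ i, y i ∈ S) ∧
      ‖((m : ℝ) + 1)⁻¹ • ∑ i, y i - e‖ < θ := by
  classical
  obtain ⟨v, hv, hve⟩ := Metric.mem_closure_iff.mp he (θ / 2) (by positivity)
  obtain ⟨ι, _, w, z, w0, w1, hz, rfl⟩ := mem_convexHull_iff_exists_fintype.mp hv
  have h1 : ∀ i, Tendsto (fun x : ℝ => (⌈w i * x⌉₊ : ℝ) / x) atTop (𝓝 (w i)) := fun i =>
    tendsto_nat_ceil_mul_div_atTop (w0 i)
  have h2 : Tendsto (fun x : ℝ => ∑ i, (⌈w i * x⌉₊ : ℝ) / x) atTop (𝓝 1) :=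
    w1 ▸ tendsto_finset_sum _ fun i _ => h1 i
  have h3 := (h2.inv₀ one_ne_zero).smul (tendsto_finset_sum Finset.univ fun i _ =>
    (h1 i).smul_const (z i))
  rw [inv_one, one_smul] at h3
  obtain ⟨x, hx1, hx2, hx3⟩ := ((Metric.tendsto_nhds.mp h3 (θ / 2) (by positivity)).and
    ((h2.eventually (lt_mem_nhds (show (0 : ℝ) < 1 by norm_num))).and
      (eventually_gt_atTop (0 : ℝ)))).exists
  let n : ι → ℕ := fun i => ⌈w i * x⌉₊
  have hn : 0 < ∑ i, n i := by
    rw [← Finset.sum_div] at hx2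
    have := (div_pos_iff_of_pos_right hx3).mp hx2
    exact_mod_cast this
  obtain ⟨m, hm⟩ := Nat.exists_eq_add_one_of_ne_zero hn.ne'
  let q : (Σ i, Fin (n i)) ≃ Fin (m + 1) := Fintype.equivFinOfCardEq (by simp [hm])
  refine ⟨m, fun j => z (q.symm j).1, fun j => hz _, ?_⟩
  have e1 : ∑ j, z (q.symm j).1 = ∑ i, (n i : ℝ) • z i := by
    rw [q.symm.sum_comp (fun s => z s.1), Fintype.sum_sigma]
    simp [Nat.cast_smul_eq_nsmul]
  have e2 : ((m : ℝ) + 1) = ∑ i, (n i : ℝ) := by exact_mod_cast hm.symm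
  have e3 : (∑ i, (n i : ℝ))⁻¹ • ∑ i, (n i : ℝ) • z i =
      (∑ i, (n i : ℝ) / x)⁻¹ • ∑ i, ((n i : ℝ) / x) • z i := by
    simp only [div_eq_inv_mul, mul_smul, ← Finset.smul_sum, ← Finset.mul_sum, mul_inv, inv_inv]
    rw [smul_comm (∑ i, (n i : ℝ))⁻¹, smul_smul x, mul_inv_cancel₀ hx3.ne', one_smul]
  rw [e1, e2, e3, ← dist_eq_norm]
  have := dist_triangle ((∑ i, (n i : ℝ) / x)⁻¹ • ∑ i, ((n i : ℝ) / x) • z i) (∑ i, w i • z i) e
  rw [dist_comm] at hve
  linarith

end Pool.Agent.H2.Dn
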