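import Pool.Agent.H2.SmB

/-! A bounded sequence correlated with a weakly null sequence has an independent subsequence. -/

set_option autoImplicit false

namespace Pool.Agent.H2.Dn

open Filter Topology Set MeasureTheory

variable {Ω : Type} [MeasurableSpace Ω] (μ : Measure Ω) [IsProbabilityMeasure μ]

omit [IsProbabilityMeasure μ] in
lemma indep (φ : ℕ → Ω → ℝ) (hφ : ∀ k, Measurable (φ k)) (U : Filter ℕ) [U.NeBot] {α β : ℝ}
    (P : Set Ω) (hP : MeasurableSet P) (hP0 : μ P ≠ 0)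
    (h : ∀ Q ⊆ P, MeasurableSet Q → μ Q ≠ 0 →
      ∀ᶠ k in U, μ (Q ∩ {ω | φ k ω < α}) ≠ 0 ∧ μ (Q ∩ {ω | β < φ k ω}) ≠ 0)
    (A : Set ℕ) (hA : A ∈ U) :
    ∃ s : ℕ → ℕ, (∀ j, s j ∈ A) ∧ ∀ (ρ : ℕ → Prop) (n : ℕ), ∃ ω, ∀ j < n,
      (ρ j → β < φ (s j) ω) ∧ (¬ ρ j → φ (s j) ω < α) := by
  let Gd : Set (Set Ω) → Prop := fun 𝒬 => 𝒬.Finite ∧ ∀ Q ∈ 𝒬, Q ⊆ P ∧ MeasurableSet Q ∧ μ Q ≠ 0
  have hk : ∀ 𝒬 : {𝒬 // Gd 𝒬}, ∃ k ∈ A, ∀ Q ∈ 𝒬.1,
      μ (Q ∩ {ω | φ k ω < α}) ≠ 0 ∧ μ (Q ∩ {ω | β < φ k ω}) ≠ 0 := fun 𝒬 =>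
    (Eventually.and hA ((eventually_all_finite 𝒬.2.1).mpr fun Q hQ =>
      h Q (𝒬.2.2 Q hQ).1 (𝒬.2.2 Q hQ).2.1 (𝒬.2.2 Q hQ).2.2)).exists
  choose k k1 k2 using hk
  let nx : {𝒬 // Gd 𝒬} → {𝒬 // Gd 𝒬} := fun 𝒬 =>
    ⟨(fun Q => Q ∩ {ω | φ (k 𝒬) ω < α}) '' 𝒬.1 ∪ (fun Q => Q ∩ {ω | β < φ (k 𝒬) ω}) '' 𝒬.1,
      (𝒬.2.1.image _).union (𝒬.2.1.image _), by
        rintro _ (⟨Q, hQ, rfl⟩ | ⟨Q, hQ, rfl⟩)
        · exact ⟨inter_subset_left.trans (𝒬.2.2 Q hQ).1, (𝒬.2.2 Q hQ).2.1.inter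
            (measurableSet_lt (hφ _) measurable_const), (k2 𝒬 Q hQ).1⟩
        · exact ⟨inter_subset_left.trans (𝒬.2.2 Q hQ).1, (𝒬.2.2 Q hQ).2.1.inter
            (measurableSet_lt measurable_const (hφ _)), (k2 𝒬 Q hQ).2⟩⟩
  let S : ℕ → {𝒬 // Gd 𝒬} := fun n => nx^[n] ⟨{P}, finite_singleton _, by
    rintro _ rfl; exact ⟨subset_rfl, hP, hP0⟩⟩
  have hS : ∀ n, S (n + 1) = nx (S n) := fun n => Function.iterate_succ_apply' _ _ _
  refine ⟨fun j => k (S j), fun j => k1 _, fun ρ n => ?_⟩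
  have key : ∃ Q ∈ (S n).1, ∀ ω ∈ Q, ∀ j < n,
      (ρ j → β < φ (k (S j)) ω) ∧ (¬ ρ j → φ (k (S j)) ω < α) := by
    induction n with
    | zero => exact ⟨P, rfl, by simp⟩
    | succ n ih =>
      obtain ⟨Q, hQ, h1⟩ := ih
      rw [hS]
      by_cases hρ : ρ n
      · refine ⟨_, Or.inr ⟨Q, hQ, rfl⟩, fun ω hω j hj => ?_⟩
        rcases Nat.lt_succ_iff_lt_or_eq.mp hj with h2 | rfl
        · exact h1 ω hω.1 j h2
        · exact ⟨fun _ => hω.2, fun h => (h hρ).elim⟩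
      · refine ⟨_, Or.inl ⟨Q, hQ, rfl⟩, fun ω hω j hj => ?_⟩
        rcases Nat.lt_succ_iff_lt_or_eq.mp hj with h2 | rfl
        · exact h1 ω hω.1 j h2
        · exact ⟨fun h => (hρ h).elim, fun _ => hω.2⟩
  obtain ⟨Q, hQ, h1⟩ := key
  obtain ⟨ω, hω⟩ := nonempty_of_measure_ne_zero ((S n).2.2 Q hQ).2.2
  exact ⟨ω, h1 ω hω⟩

omit [IsProbabilityMeasure μ] in
lemma bisect (φ : ℕ → Ω → ℝ) (U : Ultrafilter ℕ) {D : ℝ} (hD : 0 < D) (hb : ∀ k ω, |φ k ω| ≤ D)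
    (h : ∀ α β : ℝ, α < β → ∀ P, MeasurableSet P → μ P ≠ 0 → ∃ Q ⊆ P, MeasurableSet Q ∧ μ Q ≠ 0 ∧
      ¬ ∀ᶠ k in U, μ (Q ∩ {ω | φ k ω < α}) ≠ 0 ∧ μ (Q ∩ {ω | β < φ k ω}) ≠ 0)
    (P : Set Ω) (hP : MeasurableSet P) (hP0 : μ P ≠ 0) (n : ℕ) :
    ∃ Q ⊆ P, MeasurableSet Q ∧ μ Q ≠ 0 ∧ ∃ a : ℝ, ∀ᶠ k in U, ∀ᵐ ω ∂μ, ω ∈ Q →
      a ≤ φ k ω ∧ φ k ω ≤ a + 2 * D * (2 / 3) ^ n := by
  induction n with
  | zero =>
    refine ⟨P, subset_rfl, hP, hP0, -D, Eventually.of_forall fun k => ae_of_all _ fun ω _ => ?_⟩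
    have := abs_le.mp (hb k ω)
    constructor <;> linarith [this.1, this.2]
  | succ n ih =>
    obtain ⟨Q, h1, h2, h3, a, h4⟩ := ih
    have hL : 0 < 2 * D * (2 / 3 : ℝ) ^ n := by positivity
    set L := 2 * D * (2 / 3 : ℝ) ^ n with hL'
    have e : 2 * D * (2 / 3 : ℝ) ^ (n + 1) = L * (2 / 3) := by rw [hL', pow_succ]; ring
    obtain ⟨Q', g1, g2, g3, g4⟩ := h (a + L / 3) (a + 2 * L / 3) (by linarith) Q h2 h3
    rw [← Ultrafilter.eventually_not] at g4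
    simp only [not_and_or, not_not, ne_eq] at g4
    refine ⟨Q', g1.trans h1, g2, g3, ?_⟩
    rcases Ultrafilter.eventually_or.mp g4 with g5 | g5
    · refine ⟨a + L / 3, ?_⟩
      filter_upwards [h4, g5] with k k1 k2
      filter_upwards [k1, measure_eq_zero_iff_ae_notMem.mp k2] with ω w1 w2 w3
      have w4 : ¬ φ k ω < a + L / 3 := fun h => w2 ⟨w3, h⟩
      rw [e]
      constructor <;> linarith [(w1 (g1 w3)).2]
    · refine ⟨a, ?_⟩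
      filter_upwards [h4, g5] with k k1 k2
      filter_upwards [k1, measure_eq_zero_iff_ae_notMem.mp k2] with ω w1 w2 w3
      have w4 : ¬ a + 2 * L / 3 < φ k ω := fun h => w2 ⟨w3, h⟩
      rw [e]
      constructor <;> linarith [(w1 (g1 w3)).1]

lemma mem2 {f : Ω → ℝ} (hf : Measurable f) {D : ℝ} (hb : ∀ ω, |f ω| ≤ D) : MemLp f 2 μ :=
  MemLp.of_bound hf.aestronglyMeasurable D (ae_of_all _ hb)

lemma ind_inner {Q : Set Ω} (hQ : MeasurableSet Q) {f : Ω → ℝ} (hf : MemLp f 2 μ) :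
    inner ℝ (indicatorConstLp 2 hQ (measure_ne_top μ Q) (1 : ℝ)) (hf.toLp f) = ∫ ω in Q, f ω ∂μ := by
  rw [L2.inner_indicatorConstLp_one]
  exact integral_congr_ae (ae_restrict_of_ae hf.coeFn_toLp)

lemma rl (r : ℕ → Ω → ℝ) (hr : ∀ k, Measurable (r k)) (h1 : ∀ k ω, |r k ω| ≤ 1)
    (ho : ∀ k l, ∫ ω, r k ω * r l ω ∂μ = if k = l then 1 else 0) {Q : Set Ω}
    (hQ : MeasurableSet Q) : Tendsto (fun k => ∫ ω in Q, r k ω ∂μ) atTop (𝓝 0) := by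
  have hon : Orthonormal ℝ fun k => (mem2 μ (hr k) (h1 k)).toLp (r k) := by
    rw [orthonormal_iff_ite]
    intro k l
    rw [← ho, L2.inner_def]
    refine integral_congr_ae ?_
    filter_upwards [(mem2 μ (hr k) (h1 k)).coeFn_toLp, (mem2 μ (hr l) (h1 l)).coeFn_toLp]
      with ω a b
    rw [a, b]
    simp [mul_comm]
  have h2 := (hon.inner_products_summable
    (indicatorConstLp 2 hQ (measure_ne_top μ Q) (1 : ℝ))).tendsto_atTop_zero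
  simp only [real_inner_comm (indicatorConstLp 2 hQ (measure_ne_top μ Q) (1 : ℝ)), ind_inner] at h2
  rw [tendsto_zero_iff_norm_tendsto_zero]
  simpa [Real.sqrt_sq_eq_abs] using h2.sqrt

theorem core (φ r : ℕ → Ω → ℝ) (hφ : ∀ k, Measurable (φ k)) (hr : ∀ k, Measurable (r k)) {D : ℝ}
    (hD : 0 < D) (hb : ∀ k ω, |φ k ω| ≤ D) (h1 : ∀ k ω, |r k ω| ≤ 1)
    (ho : ∀ k l, ∫ ω, r k ω * r l ω ∂μ = if k = l then 1 else 0) {δ : ℝ} (hδ : 0 < δ)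
    (hfr : ∃ᶠ k in atTop, δ ≤ ∫ ω, φ k ω * r k ω ∂μ) :
    ∃ α β : ℝ, α < β ∧ ∀ N, ∃ s : ℕ → ℕ, (∀ j, N ≤ s j) ∧ ∀ (ρ : ℕ → Prop) (n : ℕ), ∃ ω, ∀ j < n,
      (ρ j → β < φ (s j) ω) ∧ (¬ ρ j → φ (s j) ω < α) := by
  obtain ⟨U, hU⟩ := Ultrafilter.exists_le (atTop ⊓ 𝓟 {k | δ ≤ ∫ ω, φ k ω * r k ω ∂μ})
    (h := frequently_iff_neBot.mp hfr)
  have hU1 : (U : Filter ℕ) ≤ atTop := hU.trans inf_le_left
  have hU2 : ∀ᶠ k in U, δ ≤ ∫ ω, φ k ω * r k ω ∂μ := le_principal_iff.mp (hU.trans inf_le_right)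
  by_cases H : ∃ α β : ℝ, α < β ∧ ∃ P, MeasurableSet P ∧ μ P ≠ 0 ∧
      ∀ Q ⊆ P, MeasurableSet Q → μ Q ≠ 0 →
        ∀ᶠ k in U, μ (Q ∩ {ω | φ k ω < α}) ≠ 0 ∧ μ (Q ∩ {ω | β < φ k ω}) ≠ 0
  · obtain ⟨α, β, hαβ, P, p1, p2, p3⟩ := H
    exact ⟨α, β, hαβ, fun N => indep μ φ hφ U P p1 p2 p3 _ (hU1 (Ici_mem_atTop N))⟩
  exfalso
  have hb2 : ∀ k ω, |φ k ω * r k ω| ≤ D := fun k ω => by
    rw [abs_mul]
    exact (mul_le_of_le_one_right (abs_nonneg _) (h1 k ω)).trans (hb k ω)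
  have hm : ∀ k, MemLp (fun ω => φ k ω * r k ω) 2 μ := fun k => mem2 μ ((hφ k).mul (hr k)) (hb2 k)
  obtain ⟨z, hz⟩ := Sm.limit_form U (fun k => innerSL ℝ ((hm k).toLp _)) D fun k => by
    rw [innerSL_apply_norm]
    have := Lp.norm_le_of_ae_bound (f := (hm k).toLp _) hD.le (by
      filter_upwards [(hm k).coeFn_toLp] with ω a
      rw [a]; exact hb2 k ω)
    simpa [measureUnivNNReal] using this
  obtain ⟨g, rfl⟩ := (InnerProductSpace.toDual ℝ (Lp ℝ 2 μ)).surjective z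
  have hlim : ∀ Q, MeasurableSet Q →
      Tendsto (fun k => ∫ ω in Q, φ k ω * r k ω ∂μ) U (𝓝 (∫ ω in Q, g ω ∂μ)) := by
    intro Q hQ
    have := hz (indicatorConstLp 2 hQ (measure_ne_top μ Q) (1 : ℝ))
    simp only [innerSL_apply_apply, InnerProductSpace.toDual_apply_apply,
      ← real_inner_comm _ (indicatorConstLp 2 hQ (measure_ne_top μ Q) (1 : ℝ)), ind_inner] at this
    rwa [L2.inner_indicatorConstLp_one] at this
  have gi : Integrable g μ := (Lp.memLp g).integrable (by norm_num)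
  have hP : MeasurableSet {ω | δ / 2 < g ω} :=
    measurableSet_lt measurable_const (Lp.stronglyMeasurable g).measurable
  have hP0 : μ {ω | δ / 2 < g ω} ≠ 0 := by
    intro h0
    have a1 : δ ≤ ∫ ω, g ω ∂μ := by
      have := hlim univ MeasurableSet.univ
      simp only [Measure.restrict_univ] at this
      exact ge_of_tendsto this hU2
    have a2 : ∫ ω, g ω ∂μ ≤ ∫ _ : Ω, δ / 2 ∂μ := integral_mono_ae gi (integrable_const _) (by
      filter_upwards [measure_eq_zero_iff_ae_notMem.mp h0] with ω h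
      exact not_lt.mp h)
    simp only [integral_const, probReal_univ, smul_eq_mul, one_mul] at a2
    linarith
  obtain ⟨n, hn⟩ := exists_pow_lt_of_lt_one (show 0 < δ / 4 / (2 * D) by positivity)
    (show (2 / 3 : ℝ) < 1 by norm_num)
  rw [lt_div_iff₀ (by positivity)] at hn
  obtain ⟨Q, q1, q2, q3, a, q4⟩ := bisect μ φ U hD hb (fun α β hαβ P p1 p2 => by
    by_contra hc
    refine H ⟨α, β, hαβ, P, p1, p2, fun Q a b c => ?_⟩
    by_contra hd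
    exact hc ⟨Q, a, b, c, hd⟩) _ hP hP0 n
  have a1 : ∫ ω in Q, g ω ∂μ ≤ a * 0 + δ / 4 * μ.real Q := by
    refine le_of_tendsto_of_tendsto (hlim Q q2)
      ((((rl μ r hr h1 ho q2).mono_left hU1).const_mul a).add_const _) ?_
    filter_upwards [q4] with k hk
    have ri : Integrable (fun ω => a * r k ω) (μ.restrict Q) :=
      (((mem2 μ (hr k) (h1 k)).integrable (by norm_num)).const_mul a).restrict
    have b1 : ∫ ω in Q, φ k ω * r k ω ∂μ ≤ ∫ ω in Q, (a * r k ω + δ / 4) ∂μ := by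
      refine integral_mono_ae ((hm k).integrable (by norm_num)).restrict
        (ri.add (integrable_const _)) ?_
      filter_upwards [ae_restrict_of_ae hk, ae_restrict_mem q2] with ω w1 w2
      have w3 := w1 w2
      have w4 := abs_le.mp (h1 k ω)
      nlinarith [w3.1, w3.2, w4.2]
    rw [integral_add ri (integrable_const _), integral_const_mul] at b1
    simpa [mul_comm] using b1
  have a2 : ∫ _ in Q, δ / 2 ∂μ ≤ ∫ ω in Q, g ω ∂μ :=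
    integral_mono_ae (integrable_const _) gi.restrict (by
      filter_upwards [ae_restrict_mem q2] with ω h
      exact (q1 h).le)
  have a3 : 0 < μ.real Q := ENNReal.toReal_pos q3 (measure_ne_top _ _)
  simp only [integral_const, MeasurableSet.univ, measureReal_restrict_apply, univ_inter,
    smul_eq_mul] at a2
  nlinarith

end Pool.Agent.H2.Dn
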