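import Pool.Agent.H2.DnB

/-! Random subcubes of a finitely branching tree. -/

set_option autoImplicit false

namespace Pool.Agent.H2.Dn

open Filter Topology Set MeasureTheory

/-- Sequences with bounded entries. -/
abbrev GG (n : ℕ → ℕ) : Type := ∀ j, Fin (n j + 1)

/-- The uniform measure. -/
noncomputable def hm (n : ℕ → ℕ) : Measure (GG n) := Measure.addHaarMeasure ⊤

instance (n : ℕ → ℕ) : IsProbabilityMeasure (hm n) :=
  ⟨Measure.addHaarMeasure_self (K₀ := ⊤)⟩

instance (n : ℕ → ℕ) : (hm n).IsAddLeftInvariant := by unfold hm; infer_instance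

/-- Dependence on the first `k` entries only. -/
def Dep {n : ℕ → ℕ} (k : ℕ) (f : GG n → ℝ) : Prop := ∀ a b, (∀ j < k, a j = b j) → f a = f b

lemma Dep.cont {n : ℕ → ℕ} {k : ℕ} {f : GG n → ℝ} (h : Dep k f) : Continuous f := by
  refine IsLocallyConstant.continuous ((IsLocallyConstant.iff_eventually_eq _).mpr fun a => ?_)
  have : ∀ᶠ b in 𝓝 a, ∀ j ∈ Finset.range k, b j = a j :=
    (eventually_all_finset _).mpr fun j _ =>
      (continuous_apply j).continuousAt.preimage_mem_nhds (t := {a j})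
        ((isOpen_discrete _).mem_nhds rfl)
  filter_upwards [this] with b hb
  exact h b a fun j hj => hb j (Finset.mem_range.mpr hj)

lemma Dep.int {n : ℕ → ℕ} {k : ℕ} {f : GG n → ℝ} (h : Dep k f) : Integrable f (hm n) :=
  h.cont.integrable_of_hasCompactSupport (HasCompactSupport.of_compactSpace _)

lemma avg {n : ℕ → ℕ} (k : ℕ) (H : GG n → Fin (n k + 1) → ℝ) (hH : ∀ i, Dep k fun w => H w i) :
    ∫ w, H w (w k) ∂hm n = ((n k : ℝ) + 1)⁻¹ * ∑ i, ∫ w, H w i ∂hm n := by
  have h1 : ∀ i, ∫ w, H w (w k) ∂hm n = ∫ w, H w (i + w k) ∂hm n := by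
    intro i
    rw [← integral_add_left_eq_self _ (Pi.single k i)]
    refine integral_congr_ae (ae_of_all _ fun w => ?_)
    simp only [Pi.add_apply, Pi.single_eq_same]
    exact hH _ _ _ fun j hj => by simp [Pi.single_eq_of_ne hj.ne]
  have h2 : ∀ i, Dep (k + 1) fun w => H w (i + w k) := fun i a b h => by
    simp only [h k (Nat.lt_succ_self k)]
    exact hH _ _ _ fun j hj => h j (hj.trans (Nat.lt_succ_self k))
  have h3 : ∑ i, ∫ w, H w (i + w k) ∂hm n = ∑ i, ∫ w, H w i ∂hm n := by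
    rw [← integral_finset_sum _ fun i _ => (h2 i).int, ← integral_finset_sum _ fun i _ => (hH i).int]
    exact integral_congr_ae (ae_of_all _ fun w => Equiv.sum_comp (Equiv.addRight (w k)) (H w))
  rw [← h3, ← Finset.sum_congr rfl fun i _ => h1 i]
  simp only [Finset.sum_const, Finset.card_univ, Fintype.card_fin, nsmul_eq_mul]
  push_cast
  field_simp

/-- The first `k` entries, last one first. -/
def pre : ℕ → (ℕ → ℕ) → List ℕ
  | 0, _ => []
  | k + 1, w => w k :: pre k w

lemma pre_congr {a b : ℕ → ℕ} : ∀ k, (∀ j < k, a j = b j) → pre k a = pre k b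
  | 0, _ => rfl
  | k + 1, h => by
    simp only [pre]
    rw [h k (Nat.lt_succ_self k), pre_congr k fun j hj => h j (hj.trans (Nat.lt_succ_self k))]

/-- The word selected by the labels `c` and the coin tosses `σ`. -/
def wd {m : ℕ → ℕ} (c : GG m) (σ : GG fun _ => 1) : ℕ → ℕ :=
  fun j => if σ j = 0 then 0 else c j + 1

lemma dep1 {m : ℕ → ℕ} (k : ℕ) (g : List ℕ → ℝ) (c : GG m) : Dep k fun σ => g (pre k (wd c σ)) :=
  fun a b h => congrArg g (pre_congr k fun j hj => show wd c a j = wd c b j by simp [wd, h j hj])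

lemma dep2 {m : ℕ → ℕ} (k : ℕ) (g : List ℕ → ℝ) :
    Dep k fun c : GG m => ∫ σ, g (pre k (wd c σ)) ∂hm _ := fun a b h => by
  refine integral_congr_ae (ae_of_all _ fun σ => ?_)
  simp only
  rw [pre_congr k fun j hj => show wd a σ j = wd b σ j by simp [wd, h j hj]]

/-- The mean over random words. -/
noncomputable def JJ (m : ℕ → ℕ) (k : ℕ) (g : List ℕ → ℝ) : ℝ :=
  ∫ c, ∫ σ, g (pre k (wd c σ)) ∂hm _ ∂hm m

lemma jrec (m : ℕ → ℕ) (k : ℕ) (H : List ℕ → Fin (m k + 1) → Fin 2 → ℝ) :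
    ∫ c, ∫ σ, H (pre k (wd c σ)) (c k) (σ k) ∂hm _ ∂hm m =
      ((m k : ℝ) + 1)⁻¹ * ∑ i, 2⁻¹ * (JJ m k (fun u => H u i 0) + JJ m k fun u => H u i 1) := by
  have h1 : ∀ c : GG m, ∫ σ, H (pre k (wd c σ)) (c k) (σ k) ∂hm _ =
      2⁻¹ * (∫ σ, H (pre k (wd c σ)) (c k) 0 ∂hm _ + ∫ σ, H (pre k (wd c σ)) (c k) 1 ∂hm _) := by
    intro c
    rw [avg k (fun σ b => H (pre k (wd c σ)) (c k) b) fun b => dep1 k (fun u => H u (c k) b) c,
      Fin.sum_univ_two]
    norm_num
  simp only [h1]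
  rw [avg k (fun c i => 2⁻¹ * (∫ σ, H (pre k (wd c σ)) i 0 ∂hm _ +
    ∫ σ, H (pre k (wd c σ)) i 1 ∂hm _)) fun i a b h => by
      have a1 := dep2 k (fun u => H u i 0) a b h
      have a2 := dep2 k (fun u => H u i 1) a b h
      simp only at a1 a2 ⊢
      rw [a1, a2]]
  congr 1
  refine Finset.sum_congr rfl fun i _ => ?_
  rw [integral_const_mul, integral_add (dep2 k fun u => H u i 0).int (dep2 k fun u => H u i 1).int]
  rfl

lemma jj0 (m : ℕ → ℕ) (g : List ℕ → ℝ) : JJ m 0 g = g [] := by simp [JJ, pre]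

lemma jjs (m : ℕ → ℕ) (k : ℕ) (g : List ℕ → ℝ) : JJ m (k + 1) g = ((m k : ℝ) + 1)⁻¹ *
    ∑ i : Fin (m k + 1), 2⁻¹ * (JJ m k (fun u => g (0 :: u)) + JJ m k fun u => g ((i + 1) :: u)) :=
  jrec m k fun u i b => g ((if b = 0 then 0 else i + 1) :: u)

/-- The sign of a coin toss. -/
def sg (b : Fin 2) : ℝ := if b = 0 then -1 else 1

lemma sg_abs (b : Fin 2) : |sg b| = 1 := by unfold sg; split_ifs <;> simp

lemma sg_dep (k : ℕ) : Dep (k + 1) fun σ : GG fun _ => 1 => sg (σ k) := fun a b h => by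
  simp only [h k (Nat.lt_succ_self k)]

lemma sg_orth (k l : ℕ) :
    ∫ σ : GG fun _ => 1, sg (σ k) * sg (σ l) ∂hm _ = if k = l then 1 else 0 := by
  have key : ∀ k l, k < l → ∫ σ : GG fun _ => 1, sg (σ k) * sg (σ l) ∂hm _ = 0 := by
    intro k l h
    rw [avg (n := fun _ => 1) l (fun σ b => sg (σ k) * sg b)
      fun b x y hxy => by simp only [hxy k h], Fin.sum_univ_two]
    simp [sg, integral_neg]
  split_ifs with h
  · subst h
    simp [← sq, ← sq_abs (sg _), sg_abs]
  · rcases lt_or_gt_of_ne h with h | h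
    · exact key k l h
    · rw [← key l k h]
      exact integral_congr_ae (ae_of_all _ fun σ => mul_comm _ _)

theorem cube (m : ℕ → ℕ) (g : ∀ k, Fin (m k + 1) → List ℕ → ℝ) {D δ : ℝ} (hD : 0 < D) (hδ : 0 < δ)
    (hb : ∀ k i u, |g k i u| ≤ D)
    (h : ∀ k, δ ≤ ((m k : ℝ) + 1)⁻¹ * ∑ i : Fin (m k + 1),
      2⁻¹ * (JJ m k (fun u => g k i ((i + 1) :: u)) - JJ m k fun u => g k i (0 :: u))) :
    ∃ (c : GG m) (α β : ℝ), α < β ∧ ∀ N, ∃ s : ℕ → ℕ, (∀ j, N ≤ s j) ∧ ∀ (ρ : ℕ → Prop) (n : ℕ),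
      ∃ σ, ∀ j < n, (ρ j → β < g (s j) (c (s j)) (pre (s j + 1) (wd c σ))) ∧
        (¬ ρ j → g (s j) (c (s j)) (pre (s j + 1) (wd c σ)) < α) := by
  let cr : ℕ → GG m → ℝ := fun k c => ∫ σ, g k (c k) (pre (k + 1) (wd c σ)) * sg (σ k) ∂hm _
  have h1 : ∀ k, δ ≤ ∫ c, cr k c ∂hm m := by
    intro k
    refine (h k).trans_eq ?_
    refine Eq.trans ?_ (jrec m k fun u i b => g k i ((if b = 0 then 0 else i + 1) :: u) * sg b).symm
    congr 1
    refine Finset.sum_congr rfl fun i _ => ?_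
    simp [sg, JJ, integral_neg]
    ring
  have h2 : ∀ k, Dep (k + 1) (cr k) := fun k a b hab => by
    refine integral_congr_ae (ae_of_all _ fun σ => ?_)
    simp only
    rw [pre_congr (k + 1) fun j hj => show wd a σ j = wd b σ j by simp [wd, hab j hj],
      hab k (Nat.lt_succ_self k)]
  have h3 : ∀ k c, |cr k c| ≤ D := fun k c => by
    have := norm_integral_le_of_norm_le_const (μ := hm _) (C := D)
      (f := fun σ => g k (c k) (pre (k + 1) (wd c σ)) * sg (σ k)) (ae_of_all _ fun σ => by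
        rw [Real.norm_eq_abs, abs_mul, sg_abs, mul_one]; exact hb _ _ _)
    simpa using this
  obtain ⟨c, hc⟩ : ∃ c, ∃ᶠ k in atTop, δ / 2 ≤ cr k c := by
    by_contra hc
    simp only [not_exists, not_frequently, not_le] at hc
    have a1 := tendsto_integral_of_dominated_convergence (μ := hm m)
      (F := fun k c => max (cr k c - δ / 2) 0) (f := fun _ => 0) (fun _ => D)
      (fun k => (((h2 k).cont.sub continuous_const).max continuous_const).aestronglyMeasurable)
      (integrable_const _) (fun k => ae_of_all _ fun c => by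
        rw [Real.norm_eq_abs, abs_of_nonneg (le_max_right _ _)]
        exact max_le (by linarith [(abs_le.mp (h3 k c)).2]) hD.le)
      (ae_of_all _ fun c => tendsto_const_nhds.congr' (by
        filter_upwards [hc c] with k hk
        rw [max_eq_right (by linarith)]))
    have a2 : ∀ k, δ / 2 ≤ ∫ c, max (cr k c - δ / 2) 0 ∂hm m := by
      intro k
      have b1 : ∫ c, (cr k c - δ / 2) ∂hm m ≤ ∫ c, max (cr k c - δ / 2) 0 ∂hm m :=
        integral_mono ((h2 k).int.sub (integrable_const _))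
          ((h2 k).int.sub (integrable_const _)).pos_part fun c => le_max_left _ _
      rw [integral_sub (h2 k).int (integrable_const _)] at b1
      simp only [integral_const, probReal_univ, smul_eq_mul, one_mul] at b1
      linarith [h1 k]
    have a3 := ge_of_tendsto' a1 a2
    simp only [integral_zero] at a3
    linarith
  exact ⟨c, core (hm _) (fun k σ => g k (c k) (pre (k + 1) (wd c σ))) (fun k σ => sg (σ k))
    (fun k => (dep1 (k + 1) (g k (c k)) c).cont.measurable) (fun k => (sg_dep k).cont.measurable) hD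
    (fun _ _ => hb _ _ _) (fun k σ => (sg_abs _).le) sg_orth (half_pos hδ) hc⟩

end Pool.Agent.H2.Dn
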