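import Pool.Agent.H2.DnA
import Pool.Agent.H2.DnC

/-! Trees of points of a compact convex set, built by the Baire property of the extreme points. -/

set_option autoImplicit false
set_option linter.unusedSectionVars false

namespace Pool.Agent.H2.Dn

open Filter Topology Set

/-- The mean of finitely many reals. -/
noncomputable def av {m : ℕ} (f : Fin (m + 1) → ℝ) : ℝ := ((m : ℝ) + 1)⁻¹ * ∑ i, f i

lemma av_mono {m : ℕ} {f g : Fin (m + 1) → ℝ} (h : ∀ i, f i ≤ g i) : av f ≤ av g :=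
  mul_le_mul_of_nonneg_left (Finset.sum_le_sum fun i _ => h i) (by positivity)

lemma av_lin {m : ℕ} (f g : Fin (m + 1) → ℝ) (a b c : ℝ) :
    av (fun i => a * f i + b * g i + c) = a * av f + b * av g + c := by
  simp only [av, Finset.sum_add_distrib, ← Finset.mul_sum, Finset.sum_const, Finset.card_univ,
    Fintype.card_fin, nsmul_eq_mul]
  push_cast
  field_simp

lemma av_le {m : ℕ} {f g h : Fin (m + 1) → ℝ} {a b c : ℝ} (H : ∀ i, f i ≤ a * g i + b * h i + c) :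
    av f ≤ a * av g + b * av h + c := (av_mono H).trans_eq (av_lin _ _ _ _ _)

lemma le_av {m : ℕ} {f g h : Fin (m + 1) → ℝ} {a b c : ℝ} (H : ∀ i, a * g i + b * h i + c ≤ f i) :
    a * av g + b * av h + c ≤ av f := (av_lin _ _ _ _ _).symm.trans_le (av_mono H)

/-- Closed and convex. -/
def CC {Z : Type} [AddCommGroup Z] [Module ℝ Z] [TopologicalSpace Z] (S : Set Z) : Prop :=
  IsClosed S ∧ Convex ℝ S

section
variable {Z Y : Type} [AddCommGroup Z] [Module ℝ Z] [TopologicalSpace Z] [AddCommGroup Y]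
  [Module ℝ Y] [TopologicalSpace Y]

lemma CC.and {p q : Z → Prop} (h : CC {z | p z}) (h' : CC {z | q z}) : CC {z | p z ∧ q z} :=
  ⟨h.1.inter h'.1, h.2.inter h'.2⟩

lemma CC.all {ι : Type} {p : ι → Z → Prop} (h : ∀ i, CC {z | p i z}) : CC {z | ∀ i, p i z} := by
  rw [setOf_forall]
  exact ⟨isClosed_iInter fun i => (h i).1, convex_iInter fun i => (h i).2⟩

lemma CC.pre {S : Set Y} (h : CC S) (L : Z →L[ℝ] Y) : CC {z | L z ∈ S} :=
  ⟨h.1.preimage L.continuous, h.2.linear_preimage (L : Z →ₗ[ℝ] Y)⟩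

end

variable {W : Type} [AddCommGroup W] [Module ℝ W] [TopologicalSpace W] [IsTopologicalAddGroup W]
  [ContinuousSMul ℝ W] [T2Space W] [LocallyConvexSpace ℝ W]

/-- A compact convex set whose extreme points are approximate means of far points. -/
structure Setup (C : Set W) (d : ℕ → W →L[ℝ] ℝ) (D ε : ℝ) : Prop where
  cp : IsCompact C
  cv : Convex ℝ C
  sep : ∀ a b, (∀ j, d j a = d j b) → a = b
  pos : 0 < D
  bd : ∀ j, ∀ f ∈ C, |d j f| ≤ D
  ep : 0 < ε
  dec : ∀ e ∈ C.extremePoints ℝ, ∀ θ > 0, ∃ (m : ℕ) (y : Fin (m + 1) → W) (n : Fin (m + 1) → ℕ),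
    (∀ i, y i ∈ C) ∧ (∀ j, |av (fun i => d j (y i)) - d j e| ≤ θ) ∧
      ∀ i, ε ≤ d (n i) (y i) - d (n i) e

variable {C : Set W} {d : ℕ → W →L[ℝ] ℝ} {D ε : ℝ}

lemma far (h : Setup C d D ε) {Z : Set W} (hZ : IsCompact Z) {e : W} (he : e ∉ Z) :
    ∃ θ > 0, ∀ z, (∀ j, |d j z - d j e| ≤ θ) → z ∉ Z := by
  by_contra hc
  push Not at hc
  let t : ℕ → Set W := fun n => Z ∩ {z | ∀ j, |d j z - d j e| ≤ 1 / ((n : ℝ) + 1)}
  have hcl : ∀ n, IsClosed (t n) := fun n => hZ.isClosed.inter (by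
    rw [setOf_forall]
    exact isClosed_iInter fun j => isClosed_le (by fun_prop) continuous_const)
  obtain ⟨z, hz⟩ := IsCompact.nonempty_iInter_of_sequence_nonempty_isCompact_isClosed t
    (fun n z hz => ⟨hz.1, fun j => (hz.2 j).trans (by
      push_cast
      exact one_div_le_one_div_of_le (by positivity) (by linarith))⟩)
    (fun n => by
      obtain ⟨z, a, b⟩ := hc (1 / ((n : ℝ) + 1)) (by positivity)
      exact ⟨z, b, a⟩) (hZ.of_isClosed_subset (hcl 0) inter_subset_left) hcl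
  rw [mem_iInter] at hz
  have : z = e := h.sep _ _ fun j => sub_eq_zero.mp (abs_nonpos_iff.mp
    (ge_of_tendsto' tendsto_one_div_add_atTop_nhds_zero_nat fun n => (hz n).2 j))
  exact he (this ▸ (hz 0).1)

lemma decomp (h : Setup C d D ε) {G V : Set W} (hG : CC G) (hV : IsOpen V)
    (hVG : V ∩ C.extremePoints ℝ ⊆ G) {e : W} (he : e ∈ V ∩ C.extremePoints ℝ) {δ : ℝ}
    (hδ : 0 < δ) : ∃ (m : ℕ) (p : Fin (m + 1) → W) (n : Fin (m + 1) → ℕ), (∀ i, p i ∈ G) ∧
      (∀ j, |av (fun i => d j (p i)) - d j e| ≤ δ) ∧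
        ε / 2 ≤ av fun i => d (n i) (p i) - d (n i) e := by
  have hε := h.ep
  have hD := h.pos
  set E := C.extremePoints ℝ with hE
  have hEC : E ⊆ C := extremePoints_subset
  have km : closure (convexHull ℝ E) = C := closure_convexHull_extremePoints h.cp h.cv
  rcases (E \ V).eq_empty_or_nonempty with h0 | h0
  · obtain ⟨m, y, n, y1, y2, y3⟩ := h.dec e he.2 δ hδ
    have : C ⊆ G := km ▸ closure_minimal (convexHull_min
      (fun x hx => hVG ⟨diff_eq_empty.mp h0 hx, hx⟩) hG.2) hG.1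
    refine ⟨m, y, n, fun i => this (y1 i), y2, ?_⟩
    have := le_av (g := fun _ => 0) (h := fun _ => 0) (a := 0) (b := 0) (c := ε)
      (f := fun i => d (n i) (y i) - d (n i) e) fun i => by simpa using y3 i
    linarith
  set H := closure (convexHull ℝ (E \ V)) with hH
  have hHC : H ⊆ C := closure_minimal (convexHull_min (diff_subset.trans hEC) h.cv) h.cp.isClosed
  have heH : e ∉ H := milman h.cp h.cv (diff_subset.trans hEC) he.2 fun h' =>
    closure_minimal (fun x (hx : x ∈ E \ V) => (hx.2 : x ∈ Vᶜ)) hV.isClosed_compl h' he.1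
  have hJ : ∀ y ∈ C, ∃ s ∈ Icc (0 : ℝ) 1, ∃ p ∈ G ∩ C, ∃ q ∈ H, y = (1 - s) • p + s • q := by
    intro y hy
    have h1 := hull_union h.cp h.cv (inter_subset_right.trans hEC) (diff_subset.trans hEC)
      ⟨e, he⟩ h0 (show y ∈ closure (convexHull ℝ (V ∩ E ∪ E \ V)) by
        rwa [inter_comm, inter_union_diff, km])
    obtain ⟨p, hp, q, hq, h2⟩ := mem_convexJoin.mp h1
    rw [segment_eq_image] at h2
    obtain ⟨s, hs, rfl⟩ := h2
    exact ⟨s, hs, p, closure_minimal (convexHull_min (subset_inter hVG (inter_subset_right.trans hEC))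
      (hG.2.inter h.cv)) (hG.1.inter h.cp.isClosed) hp, q, hq, rfl⟩
  set θ := min (ε / 2) (δ / 2) / (2 * D) with hθ
  have θ0 : 0 < θ := by positivity
  have θ1 : 2 * D * θ = min (ε / 2) (δ / 2) := by rw [hθ]; field_simp
  let Y : Set (ℝ × W) := convexJoin ℝ ({0} ×ˢ C) ({1} ×ˢ H)
  have Y1 : IsCompact Y := join_compact (isCompact_singleton.prod h.cp)
    (isCompact_singleton.prod (h.cp.of_isClosed_subset isClosed_closure hHC))
  have Y2 : Convex ℝ Y := ((convex_singleton _).prod h.cv).convexJoin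
    ((convex_singleton _).prod (convex_convexHull ℝ _).closure)
  obtain ⟨θ', θ2, θ3⟩ := far h (e := e) ((Y1.inter_right (isClosed_le
    (continuous_const (y := θ)) continuous_fst)).image continuous_snd) (by
      rintro ⟨⟨s, y⟩, ⟨h1, h2⟩, h3⟩
      obtain ⟨⟨_, p⟩, ⟨rfl, hp⟩, ⟨_, q⟩, ⟨rfl, hq⟩, h4⟩ := mem_convexJoin.mp h1
      rw [segment_eq_image] at h4
      obtain ⟨t, ht, h5⟩ := h4
      simp only [Prod.smul_mk, Prod.mk_add_mk, smul_eq_mul, mul_zero, mul_one, zero_add,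
        Prod.mk.injEq] at h5
      obtain ⟨rfl, rfl⟩ := h5
      simp only [mem_setOf_eq] at h2 h3
      rcases ht.2.eq_or_lt with rfl | h6
      · rw [sub_self, zero_smul, one_smul, zero_add] at h3
        exact heH (h3 ▸ hq)
      · have h7 : e ∈ openSegment ℝ p q := by
          rw [openSegment_eq_image]
          exact ⟨t, ⟨by linarith, h6⟩, h3⟩
        exact heH (((mem_extremePoints.mp he.2).2 p hp q (hHC hq) h7).2 ▸ hq))
  obtain ⟨m, y, n, y1, y2, y3⟩ := h.dec e he.2 (min θ' (δ / 2)) (by positivity)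
  choose s hs p hp q hq hy using fun i => hJ (y i) (y1 i)
  have a1 : ∑ i, ((m : ℝ) + 1)⁻¹ • (s i, y i) ∈ Y := Y2.sum_mem (fun _ _ => by positivity)
    (by simp; field_simp) fun i _ => mem_convexJoin.mpr ⟨(0, p i), ⟨rfl, (hp i).2⟩, (1, q i),
      ⟨rfl, hq i⟩, by
        rw [segment_eq_image]
        exact ⟨s i, hs i, by simp [hy i]⟩⟩
  have a2 : av s ≤ θ := by
    by_contra hc
    refine θ3 (∑ i, ((m : ℝ) + 1)⁻¹ • (s i, y i)).2 (fun j => ?_) ⟨_, ⟨a1, ?_⟩, rfl⟩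
    · refine le_trans (le_of_eq ?_) ((y2 j).trans (min_le_left _ _))
      simp [av, Prod.snd_sum, Finset.mul_sum]
    · refine (not_le.mp hc).le.trans_eq ?_
      simp [av, Prod.fst_sum, Finset.mul_sum]
  have a3 : ∀ j i, |d j (y i) - d j (p i)| ≤ 2 * D * s i := by
    intro j i
    have b1 := abs_le.mp (h.bd j _ (hp i).2)
    have b2 := abs_le.mp (h.bd j _ (hHC (hq i)))
    have b3 := (hs i).1
    rw [hy i, map_add, map_smul, map_smul, smul_eq_mul, smul_eq_mul, abs_le]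
    constructor <;> nlinarith [b1.1, b1.2, b2.1, b2.2]
  have a4 : 2 * D * av s ≤ min (ε / 2) (δ / 2) := θ1 ▸ mul_le_mul_of_nonneg_left a2 (by positivity)
  refine ⟨m, p, n, fun i => (hp i).1, fun j => ?_, ?_⟩
  · have b1 := abs_le.mp ((y2 j).trans (min_le_right _ _))
    have b2 := av_le (f := fun i => d j (p i)) (g := fun i => d j (y i)) (h := s) (a := 1)
      (b := 2 * D) (c := 0) fun i => by linarith [(abs_le.mp (a3 j i)).1]
    have b3 := le_av (f := fun i => d j (p i)) (g := fun i => d j (y i)) (h := s) (a := 1)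
      (b := -(2 * D)) (c := 0) fun i => by linarith [(abs_le.mp (a3 j i)).2]
    rw [abs_le]
    constructor <;> linarith [min_le_right (ε / 2) (δ / 2), b1.1, b1.2]
  · have b3 := le_av (f := fun i => d (n i) (p i) - d (n i) e) (g := s) (h := s) (a := 0)
      (b := -(2 * D)) (c := ε) fun i => by linarith [(abs_le.mp (a3 (n i) i)).2, y3 i]
    linarith [min_le_left (ε / 2) (δ / 2)]

/-- A closed convex set of trees whose roots fill a relatively open set of extreme points. -/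
structure Good (C : Set W) (o : List ℕ) (T : Set (List ℕ → W)) : Prop where
  cc : CC T
  sub : ∀ t ∈ T, ∀ u, t u ∈ C
  big : ∃ V, IsOpen V ∧ (V ∩ C.extremePoints ℝ).Nonempty ∧ V ∩ C.extremePoints ℝ ⊆ (· o) '' T

lemma root_cc (h : Setup C d D ε) (o : List ℕ) {T : Set (List ℕ → W)} (h1 : CC T)
    (h2 : ∀ t ∈ T, ∀ u, t u ∈ C) : CC ((· o) '' T) :=
  ⟨(((isCompact_univ_pi fun _ => h.cp).of_isClosed_subset h1.1 fun t ht u _ => h2 t ht u).image
    (continuous_apply o)).isClosed, h1.2.linear_image (LinearMap.proj o : (List ℕ → W) →ₗ[ℝ] W)⟩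

lemma pick (h : Setup C d D ε) (o : List ℕ) {ι : Type} [Countable ι] (T : ι → Set (List ℕ → W))
    (h1 : ∀ i, CC (T i)) (h2 : ∀ i, ∀ t ∈ T i, ∀ u, t u ∈ C) {V : Set W} (hV : IsOpen V)
    (hne : (V ∩ C.extremePoints ℝ).Nonempty)
    (hcov : ∀ e ∈ V ∩ C.extremePoints ℝ, ∃ i, ∃ t ∈ T i, t o = e) : ∃ i, Good C o (T i) := by
  obtain ⟨i, hi⟩ := baire h.cp (fun j => d j) (fun j => (d j).continuous) h.sep
    (fun i => (· o) '' T i) (fun i => (root_cc h o (h1 i) (h2 i)).1) hV hne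
    fun e he => by
      obtain ⟨i, hi⟩ := hcov e he
      exact mem_iUnion.mpr ⟨i, hi⟩
  exact ⟨i, h1 i, h2 i, hi⟩

lemma shrink (h : Setup C d D ε) (o : List ℕ) {η : ℝ} (hη : 0 < η) (A : Finset (ℕ × List ℕ))
    {T : Set (List ℕ → W)} (hT : Good C o T) : ∃ T' ⊆ T, Good C o T' ∧
      ∀ a ∈ A, ∀ t ∈ T', ∀ t' ∈ T', d a.1 (t a.2) - d a.1 (t' a.2) ≤ η := by
  classical
  induction A using Finset.induction_on with
  | empty => exact ⟨T, subset_rfl, hT, by simp⟩
  | insert a A _ ih =>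
    obtain ⟨T1, s1, g1, k1⟩ := ih
    obtain ⟨V, v1, v2, v3⟩ := g1.big
    obtain ⟨r, hr⟩ := pick h o (fun r : ℚ => {t | t ∈ T1 ∧ d a.1 (t a.2) ∈ Icc (r : ℝ) (r + η)})
      (fun r => CC.and g1.cc (CC.pre ⟨isClosed_Icc, convex_Icc _ _⟩
        ((d a.1).comp (ContinuousLinearMap.proj (φ := fun _ : List ℕ => W) a.2))))
      (fun r t ht => g1.sub t ht.1) v1 v2
      fun e he => by
        obtain ⟨t, ht, rfl⟩ := v3 he
        obtain ⟨r, r1, r2⟩ := exists_rat_btwn (show d a.1 (t a.2) - η < d a.1 (t a.2) by linarith)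
        exact ⟨r, t, ⟨ht, r2.le, by linarith⟩, rfl⟩
    refine ⟨_, fun t ht => s1 ht.1, hr, fun b hb t ht t' ht' => ?_⟩
    rcases Finset.mem_insert.mp hb with rfl | hb
    · linarith [ht.2.2, ht'.2.1]
    · exact k1 b hb t ht.1 t' ht'.1

lemma step (h : Setup C d D ε) (o : List ℕ) {δ η : ℝ} (hδ : 0 < δ) (hη : 0 < η)
    (A : Finset (List ℕ)) {T : Set (List ℕ → W)} (hT : Good C o T) :
    ∃ (m : ℕ) (n : Fin (m + 1) → ℕ) (T' : Set (List ℕ → W)), Good C (0 :: o) T' ∧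
      (∀ t ∈ T', (∀ a, (fun u => t (a :: u)) ∈ T) ∧
        (∀ j, |av (fun i : Fin (m + 1) => d j (t ((i + 1) :: o))) - d j (t (0 :: o))| ≤ δ) ∧
        ε / 2 ≤ av fun i => d (n i) (t ((i + 1) :: o)) - d (n i) (t (0 :: o))) ∧
      ∀ i, ∀ a ≤ m + 1, ∀ u ∈ A, ∀ t ∈ T', ∀ t' ∈ T',
        d (n i) (t (a :: u)) - d (n i) (t' (a :: u)) ≤ η := by
  classical
  obtain ⟨V, v1, v2, v3⟩ := hT.big
  let pj : List ℕ → (List ℕ → W) →L[ℝ] W := fun u => ContinuousLinearMap.proj u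
  obtain ⟨⟨m, n⟩, hr⟩ := pick h (0 :: o) (fun r : Σ m : ℕ, (Fin (m + 1) → ℕ) =>
    {t | (∀ u, t u ∈ C) ∧ (∀ a, (fun u => t (a :: u)) ∈ T) ∧
      (∀ j, av (fun i : Fin (r.1 + 1) => d j (t ((i + 1) :: o))) - d j (t (0 :: o)) ∈ Icc (-δ) δ) ∧
        av (fun i => d (r.2 i) (t ((i + 1) :: o)) - d (r.2 i) (t (0 :: o))) ∈ Ici (ε / 2)})
    (fun r => by
      refine CC.and (CC.all fun u => CC.pre ⟨h.cp.isClosed, h.cv⟩ (pj u)) (CC.and (CC.all fun a =>
        CC.pre hT.cc (ContinuousLinearMap.pi fun u => pj (a :: u))) (CC.and (CC.all fun j => ?_) ?_))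
      · convert CC.pre ⟨isClosed_Icc (a := -δ) (b := δ), convex_Icc _ _⟩
          (((r.1 : ℝ) + 1)⁻¹ • ∑ i : Fin (r.1 + 1), (d j).comp (pj ((i + 1) :: o)) -
            (d j).comp (pj (0 :: o))) using 4
        simp [av, pj]
      · convert CC.pre ⟨isClosed_Ici (a := ε / 2), convex_Ici _⟩
          (((r.1 : ℝ) + 1)⁻¹ • ∑ i : Fin (r.1 + 1), ((d (r.2 i)).comp (pj ((i + 1) :: o)) -
            (d (r.2 i)).comp (pj (0 :: o)))) using 4
        simp [av, pj])
    (fun r t ht => ht.1) v1 v2 fun e he => by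
      obtain ⟨m, p, n, p1, p2, p3⟩ := decomp h (root_cc h o hT.cc hT.sub) v1 v3 he hδ
      choose τ τ1 τ2 using p1
      obtain ⟨τ0, τ3, τ4⟩ := v3 he
      let κ : ℕ → List ℕ → W := fun a =>
        Nat.casesOn a τ0 fun b => if hb : b < m + 1 then τ ⟨b, hb⟩ else τ0
      have κ1 : ∀ a, κ a ∈ T := by
        rintro (_ | b)
        · exact τ3
        · simp only [κ]
          split_ifs
          exacts [τ1 _, τ3]
      have κ2 : ∀ i : Fin (m + 1), κ (i + 1) o = p i := fun i => by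
        simp only [κ, i.2, dif_pos]
        exact τ2 i
      have κ3 : κ 0 o = e := τ4
      refine ⟨⟨m, n⟩, fun l => List.casesOn l e fun a u => κ a u, ⟨?_, κ1, fun j => ?_, ?_⟩, κ3⟩
      · rintro (_ | ⟨a, u⟩)
        exacts [extremePoints_subset he.2, hT.sub _ (κ1 a) u]
      · simp only [κ2, κ3]
        exact abs_le.mp (p2 j)
      · simp only [κ2, κ3]
        exact p3
  obtain ⟨T', s1, g1, k1⟩ := shrink h (0 :: o) hη ((Finset.univ.image n) ×ˢ
    (Finset.image₂ List.cons (Finset.range (m + 2)) A)) hr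
  refine ⟨m, n, T', g1, fun t ht => ⟨(s1 ht).2.1, fun j => abs_le.mpr ((s1 ht).2.2.1 j),
    (s1 ht).2.2.2⟩, fun i a ha u hu => k1 (n i, a :: u) (Finset.mem_product.mpr
      ⟨Finset.mem_image_of_mem _ (Finset.mem_univ i), Finset.mem_image₂_of_mem
        (Finset.mem_range.mpr (by omega)) hu⟩)⟩

end Pool.Agent.H2.Dn
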