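import Pool.Agent.H2.DnD
import Pool.Agent.H87.L1R

/-! Weak-star compact sets in the dual of a separable space without `ℓ¹` are dentable. -/

set_option autoImplicit false
set_option linter.unusedSectionVars false

namespace Pool.Agent.H2.Dn

open Filter Topology Set

section
variable {W : Type} [AddCommGroup W] [Module ℝ W] [TopologicalSpace W] [IsTopologicalAddGroup W]
  [ContinuousSMul ℝ W] [T2Space W] [LocallyConvexSpace ℝ W]
  {C : Set W} {d : ℕ → W →L[ℝ] ℝ} {D ε : ℝ}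

lemma levels (h : Setup C d D ε) (hne : C.Nonempty) :
    ∃ (m : ℕ → ℕ) (n : ∀ k, Fin (m k + 1) → ℕ) (T : ℕ → Set (List ℕ → W)),
      (∀ k, Good C (pre k 0) (T k)) ∧
      (∀ k, ∀ t ∈ T (k + 1), (∀ a, (fun u => t (a :: u)) ∈ T k) ∧
        (∀ j, |av (fun i : Fin (m k + 1) => d j (t ((i + 1) :: pre k 0))) - d j (t (0 :: pre k 0))|
          ≤ ε / 16 * (1 / 2) ^ k) ∧
        ε / 2 ≤ av fun i => d (n k i) (t ((i + 1) :: pre k 0)) - d (n k i) (t (0 :: pre k 0))) ∧
      ∀ k i (c : GG m) σ, ∀ t ∈ T (k + 1), ∀ t' ∈ T (k + 1),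
        d (n k i) (t (pre (k + 1) (wd c σ))) - d (n k i) (t' (pre (k + 1) (wd c σ))) ≤
          1 / ((k : ℝ) + 1) := by
  classical
  have hε := h.ep
  choose m n T' g1 g2 g3 using fun (k : ℕ)
    (p : {p : Set (List ℕ → W) × Finset (List ℕ) // Good C (pre k 0) p.1}) =>
      step h (pre k 0) (show 0 < ε / 16 * (1 / 2) ^ k by positivity)
        (show 0 < 1 / ((k : ℝ) + 1) by positivity) p.1.2 p.2
  have g0 : Good C (pre 0 0) {t | ∀ u, t u ∈ C} :=
    ⟨CC.all fun u => CC.pre ⟨h.cp.isClosed, h.cv⟩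
      (ContinuousLinearMap.proj (φ := fun _ : List ℕ => W) u), fun t ht => ht, univ, isOpen_univ,
      by simpa using h.cp.extremePoints_nonempty hne,
      fun e he => ⟨fun _ => e, fun _ => extremePoints_subset he.2, rfl⟩⟩
  let S : ∀ k, {p : Set (List ℕ → W) × Finset (List ℕ) // Good C (pre k 0) p.1} := fun k =>
    Nat.rec ⟨(_, {[]}), g0⟩ (fun k p =>
      ⟨(T' k p, Finset.image₂ List.cons (Finset.range (m k p + 2)) p.1.2), g1 k p⟩) k
  have hw : ∀ (c : GG fun k => m k (S k)) σ k, wd c σ k ≤ m k (S k) + 1 := fun c σ k => by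
    unfold wd
    split_ifs
    exacts [Nat.zero_le _, (c k).2]
  have hA : ∀ (c : GG fun k => m k (S k)) σ k, pre k (wd c σ) ∈ (S k).1.2 := by
    intro c σ k
    induction k with
    | zero => exact Finset.mem_singleton_self _
    | succ k ih =>
      exact Finset.mem_image₂_of_mem (Finset.mem_range.mpr (Nat.lt_succ_of_le (hw c σ k))) ih
  exact ⟨fun k => m k (S k), fun k => n k (S k), fun k => (S k).1.1, fun k => (S k).2,
    fun k => g2 k (S k), fun k i c σ => g3 k (S k) i _ (hw c σ k) _ (hA c σ k)⟩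

theorem tree (h : Setup C d D ε) (hne : C.Nonempty) :
    ∃ (s : ℕ → ℕ) (γ : ℝ), 0 < γ ∧ ∀ (ρ : ℕ → Prop) (n : ℕ), ∃ f ∈ C, ∃ g ∈ C, ∀ j < n,
      (ρ j → γ ≤ d (s j) f - d (s j) g) ∧ (¬ ρ j → γ ≤ d (s j) g - d (s j) f) := by
  have hε := h.ep
  obtain ⟨m, n, T, g1, g2, g3⟩ := levels h hne
  have hτ : ∀ k, (T k).Nonempty := fun k => by
    obtain ⟨V, -, ⟨e, he⟩, v3⟩ := (g1 k).big
    obtain ⟨t, ht, -⟩ := v3 he
    exact ⟨t, ht⟩
  choose τ hτ using hτ
  have hJ : ∀ k, ∀ t ∈ T k, ∀ j,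
      |JJ m k (fun u => d j (t u)) - d j (t (pre k 0))| ≤ ε / 8 * (1 - (1 / 2) ^ k) := by
    intro k
    induction k with
    | zero => intro t _ j; simp [jj0, pre]
    | succ k ih =>
      intro t ht j
      obtain ⟨a1, a2, -⟩ := g2 k t ht
      have b0 := abs_le.mp (ih _ (a1 0) j)
      have b1 := fun i : Fin (m k + 1) => abs_le.mp (ih _ (a1 (i + 1)) j)
      have b2 := abs_le.mp (a2 j)
      have b3 : (0 : ℝ) < ε * (1 / 2) ^ k := by positivity
      have c1 := av_le (f := fun i : Fin (m k + 1) => 2⁻¹ * (JJ m k (fun u => d j (t (0 :: u))) +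
        JJ m k fun u => d j (t ((i + 1) :: u)))) (g := fun i => d j (t ((i + 1) :: pre k 0)))
        (h := fun _ => 0) (a := 2⁻¹) (b := 0)
        (c := 2⁻¹ * d j (t (0 :: pre k 0)) + ε / 8 * (1 - (1 / 2) ^ k))
        fun i => by linarith [b0.2, (b1 i).2]
      have c2 := le_av (f := fun i : Fin (m k + 1) => 2⁻¹ * (JJ m k (fun u => d j (t (0 :: u))) +
        JJ m k fun u => d j (t ((i + 1) :: u)))) (g := fun i => d j (t ((i + 1) :: pre k 0)))
        (h := fun _ => 0) (a := 2⁻¹) (b := 0)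
        (c := 2⁻¹ * d j (t (0 :: pre k 0)) - ε / 8 * (1 - (1 / 2) ^ k))
        fun i => by linarith [b0.1, (b1 i).1]
      rw [jjs, pow_succ, abs_le]
      change _ ≤ av _ - d j (t (0 :: pre k 0)) ∧ av _ - d j (t (0 :: pre k 0)) ≤ _
      constructor <;> linarith [b2.1, b2.2]
  obtain ⟨c, α, β, hαβ, hc⟩ := cube m (fun k i u => d (n k i) (τ (k + 1) u)) h.pos
    (show 0 < ε / 8 by positivity) (fun k i u => h.bd _ _ ((g1 _).sub _ (hτ _) u)) fun k => by
      obtain ⟨a1, -, a3⟩ := g2 k _ (hτ (k + 1))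
      have b3 : (0 : ℝ) < ε * (1 / 2) ^ k := by positivity
      have c2 := le_av (f := fun i : Fin (m k + 1) => 2⁻¹ *
        (JJ m k (fun u => d (n k i) (τ (k + 1) ((i + 1) :: u))) -
          JJ m k fun u => d (n k i) (τ (k + 1) (0 :: u))))
        (g := fun i => d (n k i) (τ (k + 1) ((i + 1) :: pre k 0)) -
          d (n k i) (τ (k + 1) (0 :: pre k 0))) (h := fun _ => 0) (a := 2⁻¹) (b := 0) (c := -(ε / 8))
        fun i => by
          linarith [(abs_le.mp (hJ k _ (a1 0) (n k i))).2, (abs_le.mp (hJ k _ (a1 (i + 1)) (n k i))).1]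
      change _ ≤ av _
      linarith
  obtain ⟨N, hN⟩ := exists_nat_one_div_lt (show 0 < (β - α) / 4 by linarith)
  obtain ⟨s, s1, s2⟩ := hc N
  have hsub : ∀ (w : ℕ → ℕ) (k M : ℕ), k ≤ M → ∀ t ∈ T M, ∃ t' ∈ T k, t' (pre k w) = t (pre M w) := by
    intro w k M hM
    induction M, hM using Nat.le_induction with
    | base => exact fun t ht => ⟨t, ht, rfl⟩
    | succ M _ ih => exact fun t ht => ih _ ((g2 M t ht).1 (w M))
  have key : ∀ (ρ : ℕ → Prop) (M : ℕ), ∃ f ∈ C, ∀ j < M,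
      (ρ j → β - (β - α) / 4 ≤ d (n (s j) (c (s j))) f) ∧
        (¬ ρ j → d (n (s j) (c (s j))) f ≤ α + (β - α) / 4) := by
    intro ρ M
    obtain ⟨σ, hσ⟩ := s2 ρ M
    refine ⟨τ ((Finset.range M).sup s + 1) (pre ((Finset.range M).sup s + 1) (wd c σ)),
      (g1 _).sub _ (hτ _) _, fun j hj => ?_⟩
    obtain ⟨t, t1, t2⟩ := hsub (wd c σ) (s j + 1) ((Finset.range M).sup s + 1)
      (Nat.succ_le_succ (Finset.le_sup (f := s) (Finset.mem_range.mpr hj))) _ (hτ _)
    have a1 := g3 (s j) (c (s j)) c σ t t1 _ (hτ _)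
    have a2 := g3 (s j) (c (s j)) c σ _ (hτ _) t t1
    have a3 : 1 / ((s j : ℝ) + 1) ≤ 1 / ((N : ℝ) + 1) := Nat.one_div_le_one_div (s1 j)
    rw [← t2]
    exact ⟨fun h => by linarith [(hσ j hj).1 h], fun h => by linarith [(hσ j hj).2 h]⟩
  refine ⟨fun j => n (s j) (c (s j)), (β - α) / 2, by linarith, fun ρ M => ?_⟩
  obtain ⟨f, f1, f2⟩ := key ρ M
  obtain ⟨g, k1, k2⟩ := key (fun j => ¬ ρ j) M
  exact ⟨f, f1, g, k1, fun j hj => ⟨fun h => by
    linarith [(f2 j hj).1 h, (k2 j hj).2 (not_not.mpr h)],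
    fun h => by linarith [(f2 j hj).2 h, (k2 j hj).1 h]⟩⟩

end

variable {X : Type} [NormedAddCommGroup X] [NormedSpace ℝ X] [CompleteSpace X]

theorem ell1 (x : ℕ → X) (M : ℝ) (hx : ∀ n, ‖x n‖ ≤ M) {c : ℝ} (hc : 0 < c)
    (h : ∀ (n : ℕ) (a : ℕ → ℝ), c * ∑ i ∈ Finset.range n, ‖a i‖ ≤
      ‖∑ i ∈ Finset.range n, a i • x i‖) :
    ∃ T : (lp (fun _ : ℕ => ℝ) 1) →L[ℝ] X, ∃ c : ℝ, 0 < c ∧ ∀ a, c * ‖a‖ ≤ ‖T a‖ :=
  ⟨H87.L1R.lift x M hx, c, hc, fun a => le_of_tendsto_of_tendsto'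
    ((H87.L1R.hasSum_norm a).tendsto_sum_nat.const_mul c)
    (H87.L1R.summ x M hx a).of_norm.hasSum.tendsto_sum_nat.norm fun n => h n _⟩

lemma norming [TopologicalSpace.SeparableSpace X] : ∃ x : ℕ → X, (∀ j, ‖x j‖ ≤ 1) ∧
    ∀ (f : StrongDual ℝ X) (a : ℝ), 0 ≤ a → (∀ j, f (x j) ≤ a) → ‖f‖ ≤ a := by
  have := UniformSpace.secondCountable_of_separable X
  obtain ⟨x, hx⟩ := TopologicalSpace.exists_dense_seq (Metric.closedBall (0 : X) 1)
  refine ⟨fun j => x j, fun j => mem_closedBall_zero_iff.mp (x j).2, fun f a ha h => ?_⟩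
  have h1 : ∀ y : Metric.closedBall (0 : X) 1, f y ≤ a := fun y =>
    hx.induction_on y (isClosed_le (by fun_prop) continuous_const) h
  refine ContinuousLinearMap.opNorm_le_of_unit_norm ha fun y hy => abs_le.mpr ⟨?_, ?_⟩
  · have := h1 ⟨-y, by simp [hy]⟩
    simp only [map_neg] at this
    linarith
  · exact h1 ⟨y, by simp [hy]⟩

/-- Evaluation as a weak-star continuous functional. -/
noncomputable def evw (x : X) : WeakDual ℝ X →L[ℝ] ℝ :=
  ⟨⟨⟨fun f => f x, fun _ _ => rfl⟩, fun _ _ => rfl⟩, WeakDual.eval_continuous x⟩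

theorem main [TopologicalSpace.SeparableSpace X] (K : Set (WeakDual ℝ X)) (hK : IsCompact K)
    (hne : K.Nonempty) {ε : ℝ} (hε : 0 < ε)
    (h : ∀ f ∈ K, WeakDual.toStrongDual f ∈ closure (convexHull ℝ
      (WeakDual.toStrongDual '' K \ Metric.ball (WeakDual.toStrongDual f) ε))) :
    ∃ T : (lp (fun _ : ℕ => ℝ) 1) →L[ℝ] X, ∃ c : ℝ, 0 < c ∧ ∀ a, c * ‖a‖ ≤ ‖T a‖ := by
  have : LocallyConvexSpace ℝ (WeakDual ℝ X) := (WeakDual.withSeminorms ℝ X).toLocallyConvexSpace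
  obtain ⟨x, x1, x2⟩ := norming (X := X)
  obtain ⟨D0, hD0⟩ := banach_steinhaus (g := fun f : K => WeakDual.toStrongDual f.1) fun y => by
    obtain ⟨M, hM⟩ := hK.exists_bound_of_continuousOn (WeakDual.eval_continuous y).continuousOn
    exact ⟨M, fun f => hM f.1 f.2⟩
  set D := max D0 1 with hD
  have D1 : 0 < D := lt_max_of_lt_right one_pos
  set C := closure (convexHull ℝ K) with hC
  have hKC : K ⊆ C := (subset_convexHull ℝ K).trans subset_closure
  have hCB : C ⊆ WeakDual.toStrongDual ⁻¹' Metric.closedBall 0 D :=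
    closure_minimal (convexHull_min (fun f hf => mem_closedBall_zero_iff.mpr
      ((hD0 ⟨f, hf⟩).trans (le_max_left _ _))) ((convex_closedBall _ _).linear_preimage
        (WeakDual.toStrongDual (𝕜 := ℝ) (E := X)).toLinearMap)) (WeakDual.isClosed_closedBall _ _)
  have C1 : IsCompact C := (WeakDual.isCompact_closedBall _ _).of_isClosed_subset isClosed_closure hCB
  have C2 : Convex ℝ C := (convex_convexHull ℝ K).closure
  have C3 : ∀ f ∈ C, ∀ y : X, |f y| ≤ D * ‖y‖ := fun f hf y =>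
    (WeakDual.toStrongDual f).le_of_opNorm_le (mem_closedBall_zero_iff.mp (hCB hf)) y
  have hS : Setup C (fun j => evw (x j)) D (ε / 2) := by
    refine ⟨C1, C2, fun a b hab => ?_, D1, fun j f hf =>
      (C3 f hf _).trans (mul_le_of_le_one_right D1.le (x1 j)), half_pos hε, fun e he θ hθ => ?_⟩
    · refine WeakDual.toStrongDual.injective (sub_eq_zero.mp (norm_le_zero_iff.mp
        (x2 _ 0 le_rfl fun j => ?_)))
      exact (sub_eq_zero.mpr (hab j)).le
    · have heK : e ∈ K := by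
        by_contra hc
        exact milman C1 C2 hKC he (by rwa [hK.isClosed.closure_eq]) he.1
      obtain ⟨m, y, y1, y2⟩ := unif (h e heK) hθ
      choose z z1 z2 using fun i => (y1 i).1
      have y3 : ∀ i, ∃ n, ε / 2 < (y i - WeakDual.toStrongDual e) (x n) := fun i => by
        by_contra hc
        push Not at hc
        exact (y1 i).2 (mem_ball_iff_norm.mpr ((x2 _ _ (by positivity) hc).trans_lt (by linarith)))
      choose n hn using y3
      refine ⟨m, z, n, fun i => hKC (z1 i), fun j => ?_, fun i => ?_⟩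
      · refine le_trans (le_of_eq ?_) ((ContinuousLinearMap.le_of_opNorm_le _ y2.le (x j)).trans
          (mul_le_of_le_one_right hθ.le (x1 j)))
        simp only [← z2, av, ContinuousLinearMap.sub_apply, ContinuousLinearMap.smul_apply,
          ContinuousLinearMap.sum_apply, smul_eq_mul]
        rfl
      · have := hn i
        rw [← z2] at this
        exact this.le
  obtain ⟨s, γ, hγ, hs⟩ := tree hS (hne.mono hKC)
  refine ell1 (fun j => x (s j)) 1 (fun j => x1 _) (c := γ / (2 * D)) (by positivity) fun n a => ?_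
  obtain ⟨f, f1, g, g1, k⟩ := hs (fun j => 0 ≤ a j) n
  have a1 := abs_le.mp (C3 f f1 (∑ i ∈ Finset.range n, a i • x (s i)))
  have a2 := abs_le.mp (C3 g g1 (∑ i ∈ Finset.range n, a i • x (s i)))
  have a3 : γ * ∑ i ∈ Finset.range n, ‖a i‖ ≤ f (∑ i ∈ Finset.range n, a i • x (s i)) -
      g (∑ i ∈ Finset.range n, a i • x (s i)) := by
    rw [map_sum, map_sum, ← Finset.sum_sub_distrib, Finset.mul_sum]
    refine Finset.sum_le_sum fun i hi => ?_
    have b := k i (Finset.mem_range.mp hi)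
    rw [map_smul, map_smul, smul_eq_mul, smul_eq_mul, Real.norm_eq_abs]
    rcases le_or_gt 0 (a i) with h0 | h0
    · have b1 : γ ≤ f (x (s i)) - g (x (s i)) := b.1 h0
      rw [abs_of_nonneg h0]
      nlinarith
    · have b1 : γ ≤ g (x (s i)) - f (x (s i)) := b.2 (not_le.mpr h0)
      rw [abs_of_neg h0]
      nlinarith
  rw [div_mul_eq_mul_div, div_le_iff₀ (by positivity)]
  linarith [a1.2, a2.1]

end Pool.Agent.H2.Dn
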