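import Pool.Agent.H2.EntNum

set_option autoImplicit false
set_option linter.unusedSectionVars false
open Real Finset

namespace Pool.Agent.H2.Ent

variable {V : Type} [Fintype V] [DecidableEq V] (G : SimpleGraph V) [DecidableRel G.Adj] (ρ : ℝ)

noncomputable def aw (v u : V) : ℝ := wt ρ (decide (G.degree v = 2 ∨ G.degree u = 2))

noncomputable def Aw (v : V) : ℝ := ∑ u ∈ G.neighborFinset v, aw G ρ v u

noncomputable def tau (u v x : V) : ℝ := aw G ρ v u + aw G ρ v x - Aw G ρ v / 2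

noncomputable def Ev (v : V) : ℝ :=
  ∑ u ∈ G.neighborFinset v, ∑ x ∈ (G.neighborFinset v).erase u, g (aw G ρ v u) (tau G ρ u v x)

noncomputable def Jv (v : V) : ℝ := ∑ u ∈ G.neighborFinset v, ind (decide (G.degree u = 2))

theorem aw_symm (u v : V) : aw G ρ u v = aw G ρ v u := by
  unfold aw; simp only [or_comm]

theorem aw2 {v : V} (h : G.degree v = 2) (u : V) : aw G ρ v u = ρ + 2 := by
  simp [aw, wt, h]

theorem Aw2 {v : V} (h : G.degree v = 2) : Aw G ρ v = 2 * (ρ + 2) := by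
  simp [Aw, aw2 G ρ h, h]
  ring

theorem swap_dart (F : V → V → ℝ) :
    ∑ v, ∑ x ∈ G.neighborFinset v, F v x = ∑ x, ∑ v ∈ G.neighborFinset x, F v x := by
  refine Finset.sum_comm' fun v x => ?_
  simp [G.adj_comm]

variable {ρ}

theorem row (hd : ∀ v, G.degree v = 2 ∨ G.degree v = 3) {u v : V} (hu : u ∈ G.neighborFinset v) :
    ∑ x ∈ (G.neighborFinset v).erase u, tau G ρ u v x = aw G ρ v u := by
  have e : ∑ x ∈ (G.neighborFinset v).erase u, tau G ρ u v x =
      ((G.neighborFinset v).erase u).card * (aw G ρ v u - Aw G ρ v / 2) + (Aw G ρ v - aw G ρ v u) := by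
    rw [← nsmul_eq_mul, ← Finset.sum_const]
    conv_rhs => rw [Aw, ← Finset.sum_erase_eq_sub hu, ← Aw, ← Finset.sum_add_distrib]
    exact Finset.sum_congr rfl fun x _ => by unfold tau; ring
  rw [e, Finset.card_erase_of_mem hu, SimpleGraph.card_neighborFinset_eq_degree]
  rcases hd v with h | h
  · rw [Aw2 G ρ h, aw2 G ρ h, h]; norm_num; ring
  · rw [h]; norm_num; ring

theorem tau_gt (h : ρ ^ 3 - ρ - 2 = 0) (hd : ∀ v, G.degree v = 2 ∨ G.degree v = 3) {u v x : V}
    (hu : u ∈ G.neighborFinset v) (hx : x ∈ (G.neighborFinset v).erase u) : 0 < tau G ρ u v x := by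
  obtain ⟨a, b⟩ := rho_bd h
  have bd : ∀ y, 3 ≤ aw G ρ v y ∧ aw G ρ v y ≤ 4 := by
    intro y; unfold aw wt; split_ifs <;> constructor <;> linarith
  have e : Aw G ρ v = aw G ρ v u + (aw G ρ v x + ∑ y ∈ ((G.neighborFinset v).erase u).erase x, aw G ρ v y) := by
    rw [Finset.add_sum_erase _ _ hx, Finset.add_sum_erase _ _ hu, Aw]
  have c : (((G.neighborFinset v).erase u).erase x).card ≤ 1 := by
    rw [Finset.card_erase_of_mem hx, Finset.card_erase_of_mem hu, SimpleGraph.card_neighborFinset_eq_degree]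
    rcases hd v with h | h <;> omega
  have s := Finset.sum_le_card_nsmul (((G.neighborFinset v).erase u).erase x) (aw G ρ v) 4 (fun y _ => (bd y).2)
  rw [nsmul_eq_mul] at s
  have c2 : ((((G.neighborFinset v).erase u).erase x).card : ℝ) ≤ 1 := by exact_mod_cast c
  unfold tau
  linarith [(bd u).1, (bd x).1]

theorem vert2 {v : V} (h : G.degree v = 2) : Ev G ρ v = 0 := by
  refine Finset.sum_eq_zero fun u _ => Finset.sum_eq_zero fun x _ => ?_
  unfold tau g
  rw [aw2 G ρ h, aw2 G ρ h, Aw2 G ρ h, show ρ + 2 + (ρ + 2) - 2 * (ρ + 2) / 2 = ρ + 2 by ring]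
  by_cases e : ρ + 2 = 0
  · rw [e, zero_mul]
  · rw [div_self e, log_one, mul_zero]

theorem vert3 (h : ρ ^ 3 - ρ - 2 = 0) {v : V} (h3 : G.degree v = 3) :
    2 * log ρ * (ρ + 2) + cc ρ * (2 - Jv G v) + log ρ * Aw G ρ v ≤ Ev G ρ v := by
  have e : ∀ u, aw G ρ v u = wt ρ (decide (G.degree u = 2)) := by
    intro u; simp [aw, h3]
  obtain ⟨x, y, z, xy, xz, yz, hs⟩ := Finset.card_eq_three.1
    ((SimpleGraph.card_neighborFinset_eq_degree G v).trans h3)
  have sm : ∀ F : V → ℝ, ∑ u ∈ G.neighborFinset v, F u = F x + (F y + F z) := by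
    intro F
    rw [hs, Finset.sum_insert (by simp [xy, xz]), Finset.sum_pair yz]
  have hA : Aw G ρ v = wt ρ (decide (G.degree x = 2)) + (wt ρ (decide (G.degree y = 2)) +
      wt ρ (decide (G.degree z = 2))) := by
    rw [Aw, sm, e, e, e]
  have k := key h _ _ _ _ hA
  have e2 : Ev G ρ v = ∑ u ∈ G.neighborFinset v, (∑ w ∈ G.neighborFinset v, g (aw G ρ v u) (tau G ρ u v w) -
      g (aw G ρ v u) (tau G ρ u v u)) :=
    Finset.sum_congr rfl fun u hu => Finset.sum_erase_eq_sub hu
  rw [e2, sm, sm, sm, sm, Jv, sm]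
  simp only [tau, e]
  linarith

theorem total (h : ρ ^ 3 - ρ - 2 = 0) (hd : ∀ v, G.degree v = 2 ∨ G.degree v = 3)
    (hc : 2 * (univ.filter (fun v => G.degree v = 2)).card = Fintype.card V) :
    log ρ * ∑ v, Aw G ρ v ≤ ∑ v, Ev G ρ v := by
  have c0 := cc_nonneg h
  set i : V → ℝ := fun v => ind (decide (G.degree v = 2)) with hi
  have J0 : ∀ v, 0 ≤ Jv G v := fun v => Finset.sum_nonneg fun u _ => by unfold ind; split_ifs <;> norm_num
  have pv : ∀ v, log ρ * Aw G ρ v + (2 * log ρ * (ρ + 2) * (1 - 2 * i v) + cc ρ * (2 * (1 - i v) - Jv G v)) ≤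
      Ev G ρ v := by
    intro v
    rcases hd v with h2 | h3
    · have : i v = 1 := by simp [hi, ind, h2]
      rw [vert2 G h2, Aw2 G ρ h2, this]
      nlinarith [mul_nonneg c0 (J0 v)]
    · have : i v = 0 := by simp [hi, ind, h3]
      rw [this]
      have := vert3 G h h3
      linarith
  have si : 2 * ∑ v, i v = Fintype.card V := by
    have : ∑ v, i v = ((univ.filter (fun v => G.degree v = 2)).card : ℝ) := by
      simp [hi, ind]
    rw [this]; exact_mod_cast hc
  have sJ : ∑ v, Jv G v = 2 * ∑ v, i v := by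
    unfold Jv
    rw [swap_dart G (fun v u => ind (decide (G.degree u = 2))), Finset.mul_sum]
    refine Finset.sum_congr rfl fun u _ => ?_
    rw [Finset.sum_const, SimpleGraph.card_neighborFinset_eq_degree, nsmul_eq_mul]
    by_cases h2 : G.degree u = 2
    · simp [hi, h2]
    · simp [hi, ind, h2]
  have s := Finset.sum_le_sum (fun v (_ : v ∈ (univ : Finset V)) => pv v)
  simp only [Finset.sum_add_distrib, ← Finset.mul_sum, Finset.sum_sub_distrib, Finset.sum_const, Finset.card_univ,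
    nsmul_eq_mul, mul_one] at s
  rw [sJ, ← si] at s
  linarith

noncomputable def Phi (N : V → V → ℝ) : ℝ := ∑ v, ∑ u ∈ G.neighborFinset v, aw G ρ v u * log (N u v)

theorem step (h : ρ ^ 3 - ρ - 2 = 0) (hd : ∀ v, G.degree v = 2 ∨ G.degree v = 3) (N M : V → V → ℝ)
    (hN : ∀ u v, G.Adj u v → 1 ≤ N u v)
    (hM : ∀ u v, G.Adj u v → ∑ x ∈ (G.neighborFinset v).erase u, N v x ≤ M u v) :
    (∀ u v, G.Adj u v → 1 ≤ M u v) ∧ Phi G (ρ := ρ) N + ∑ v, Ev G ρ v ≤ Phi G (ρ := ρ) M := by
  have hN' : ∀ u v x, x ∈ (G.neighborFinset v).erase u → 1 ≤ N v x := fun u v x hx =>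
    hN _ _ (by simpa using (Finset.mem_of_mem_erase hx))
  have h1 : ∀ u v, G.Adj u v → 1 ≤ M u v := by
    intro u v huv
    have hu : u ∈ G.neighborFinset v := by simpa using huv.symm
    have s := Finset.card_nsmul_le_sum _ _ 1 (fun x hx => hN' u v x hx)
    rw [Finset.card_erase_of_mem hu, SimpleGraph.card_neighborFinset_eq_degree, nsmul_eq_mul, mul_one] at s
    have : (1 : ℝ) ≤ ((G.degree v - 1 : ℕ) : ℝ) := by
      have : 1 ≤ G.degree v - 1 := by rcases hd v with h | h <;> omega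
      exact_mod_cast this
    linarith [hM u v huv]
  refine ⟨h1, ?_⟩
  have e1 : Phi G (ρ := ρ) N = ∑ v, ∑ u ∈ G.neighborFinset v, ∑ x ∈ (G.neighborFinset v).erase u,
      tau G ρ u v x * log (N v x) := by
    unfold Phi
    rw [← swap_dart G (fun v x => aw G ρ x v * log (N v x))]
    refine Finset.sum_congr rfl fun v _ => ?_
    rw [Finset.sum_comm' (t' := G.neighborFinset v) (s' := fun x => (G.neighborFinset v).erase x)
      (fun u x => by simp only [Finset.mem_erase]; tauto)]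
    refine Finset.sum_congr rfl fun x hx => ?_
    rw [← Finset.sum_mul, aw_symm, ← row G hd hx]
    congr 1
    exact Finset.sum_congr rfl fun u _ => by unfold tau; ring
  rw [e1, ← Finset.sum_add_distrib]
  refine Finset.sum_le_sum fun v _ => ?_
  rw [Ev, ← Finset.sum_add_distrib]
  refine Finset.sum_le_sum fun u hu => ?_
  have huv : G.Adj u v := (by simpa using hu : G.Adj v u).symm
  have S1 := h1 u v huv
  have ap : 0 < aw G ρ v u := wt_pos h _
  rw [← Finset.sum_add_distrib]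
  refine (Finset.sum_le_sum fun x hx => gibbs _ _ _ (M u v) (tau_gt G h hd hu hx) ap
    (by linarith [hN' u v x hx]) (by linarith)).trans ?_
  rw [Finset.sum_add_distrib, Finset.sum_sub_distrib, ← Finset.sum_mul, row G hd hu, ← Finset.sum_div,
    ← Finset.mul_sum]
  have : aw G ρ v u * (∑ x ∈ (G.neighborFinset v).erase u, N v x) / M u v ≤ aw G ρ v u := by
    rw [div_le_iff₀ (by linarith)]
    exact mul_le_mul_of_nonneg_left (hM u v huv) ap.le
  linarith

theorem growth (h : ρ ^ 3 - ρ - 2 = 0) (hd : ∀ v, G.degree v = 2 ∨ G.degree v = 3)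
    (hc : 2 * (univ.filter (fun v => G.degree v = 2)).card = Fintype.card V) [Nonempty V]
    (R : ℕ) (N : ℕ → V → V → ℝ) (h0 : ∀ u v, G.Adj u v → 1 ≤ N 0 u v)
    (hs : ∀ r, r < R → ∀ u v, G.Adj u v → ∑ x ∈ (G.neighborFinset v).erase u, N r v x ≤ N (r + 1) u v)
    (C : ℝ) (hC : ∀ u v, G.Adj u v → N R u v ≤ C) : ρ ^ R ≤ C := by
  have key : ∀ r, r ≤ R → (∀ u v, G.Adj u v → 1 ≤ N r u v) ∧
      r * (log ρ * ∑ v, Aw G ρ v) ≤ Phi G (ρ := ρ) (N r) := by
    intro r
    induction r with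
    | zero =>
      refine fun _ => ⟨h0, ?_⟩
      rw [Nat.cast_zero, zero_mul]
      refine Finset.sum_nonneg fun v _ => Finset.sum_nonneg fun u hu => mul_nonneg (wt_pos h _).le ?_
      exact log_nonneg (h0 u v (by simpa using hu : G.Adj v u).symm)
    | succ r ih =>
      intro hr
      obtain ⟨a, b⟩ := ih (by omega)
      obtain ⟨c, d⟩ := step G h hd (N r) (N (r + 1)) a (hs r (by omega))
      refine ⟨c, ?_⟩
      have := total G h hd hc
      push_cast
      linarith
  obtain ⟨a, b⟩ := key R le_rfl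
  have ne : ∀ v, (G.neighborFinset v).Nonempty := fun v => by
    rw [← Finset.card_pos, SimpleGraph.card_neighborFinset_eq_degree]
    rcases hd v with h | h <;> omega
  have Z : 0 < ∑ v, Aw G ρ v :=
    Finset.sum_pos (fun v _ => Finset.sum_pos (fun u _ => wt_pos h _) (ne v)) univ_nonempty
  have c : Phi G (ρ := ρ) (N R) ≤ log C * ∑ v, Aw G ρ v := by
    rw [Finset.mul_sum]
    refine Finset.sum_le_sum fun v _ => ?_
    rw [Aw, Finset.mul_sum]
    refine Finset.sum_le_sum fun u hu => ?_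
    have huv : G.Adj u v := (by simpa using hu : G.Adj v u).symm
    rw [mul_comm (log C)]
    exact mul_le_mul_of_nonneg_left (log_le_log (by linarith [a u v huv]) (hC u v huv)) (wt_pos h _).le
  have d : R * log ρ ≤ log C := by
    refine le_of_mul_le_mul_right ?_ Z
    linarith
  obtain ⟨v⟩ := (inferInstance : Nonempty V)
  obtain ⟨u, hu⟩ := ne v
  have huv : G.Adj u v := (by simpa using hu : G.Adj v u).symm
  have C0 : 0 < C := by linarith [a u v huv, hC u v huv]
  have r0 : 0 < ρ := by linarith [(rho_bd h).1]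
  rw [← log_pow] at d
  exact (log_le_log_iff (by positivity) C0).1 d

end Pool.Agent.H2.Ent
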