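import Mathlib

set_option autoImplicit false
open scoped Classical

namespace Pool.Agent.H2.Ent

/-- Non-backtracking matrix on directed edges: `B e f = 1` iff `h(e) = t(f)` and `f` is not the reverse of `e`. -/
noncomputable def B {V : Type} [Fintype V] (G : SimpleGraph V) : Matrix G.Dart G.Dart ℂ :=
  Matrix.of fun e f => if e.snd = f.fst ∧ f ≠ e.symm then 1 else 0

/-- `ρ(G)`: the spectral radius (Perron eigenvalue) of the non-backtracking matrix. -/
noncomputable def rho {V : Type} [Fintype V] (G : SimpleGraph V) : ENNReal := spectralRadius ℂ (B G)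

/-- The class `G_{2,3}`: connected, all degrees 2 or 3, exactly half of the vertices of degree 2. -/
def InClass {V : Type} [Fintype V] (G : SimpleGraph V) : Prop :=
  G.Connected ∧ (∀ v, G.degree v = 2 ∨ G.degree v = 3) ∧
    2 * (Finset.univ.filter (fun v => G.degree v = 2)).card = Fintype.card V

/-- `K_4` with one edge deleted. -/
def K4m : SimpleGraph (Fin 4) := (⊤ : SimpleGraph (Fin 4)).deleteEdges {s(0, 1)}

end Pool.Agent.H2.Ent
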