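import Pool.Agent.H2.EntCore

set_option autoImplicit false
open Real Finset

namespace Pool.Agent.H2.Ent

variable {V : Type} [Fintype V] [DecidableEq V] (G : SimpleGraph V) [DecidableRel G.Adj]

open Classical in
noncomputable def Sr (r : ℕ) (u v : V) : Finset V :=
  univ.filter (fun y => ∃ p : G.Walk v y, p.IsPath ∧ p.length = r ∧ u ∉ p.support)

theorem two_paths {gg : ℕ} (hg : (gg : ℕ∞) ≤ G.egirth) {v y x x' : V} (h : G.Adj v x) (h' : G.Adj v x')
    (hx : x ≠ x') (p : G.Walk x y) (q : G.Walk x' y) (hp : p.IsPath) (hq : q.IsPath) (vp : v ∉ p.support)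
    (vq : v ∉ q.support) : gg ≤ p.length + q.length + 2 := by
  have a : (SimpleGraph.Walk.cons h p).IsPath := (SimpleGraph.Walk.cons_isPath_iff _ _).2 ⟨hp, vp⟩
  have b : (SimpleGraph.Walk.cons h' q).IsPath := (SimpleGraph.Walk.cons_isPath_iff _ _).2 ⟨hq, vq⟩
  obtain ⟨w, -, -, c, hc, hl⟩ := a.exists_isCycle_length_le_add_of_ne b (fun e => hx (by
    have := congrArg (fun t : G.Walk v y => t.getVert 1) e
    simpa using this))
  have := hg.trans (SimpleGraph.egirth_le_length hc)
  have h2 : gg ≤ c.length := by exact_mod_cast this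
  simp only [SimpleGraph.Walk.length_cons] at hl
  omega

theorem Sr_step {gg : ℕ} (hg : (gg : ℕ∞) ≤ G.egirth) (r : ℕ) (hr : 2 * r + 2 < gg) (u v : V) (huv : G.Adj u v) :
    ∑ x ∈ (G.neighborFinset v).erase u, (Sr G r v x).card ≤ (Sr G (r + 1) u v).card := by
  rw [← Finset.card_biUnion]
  · refine Finset.card_le_card fun y hy => ?_
    obtain ⟨x, hx, hy⟩ := Finset.mem_biUnion.1 hy
    obtain ⟨xu, hx⟩ := Finset.mem_erase.1 hx
    have vx : G.Adj v x := by simpa using hx
    simp only [Sr, Finset.mem_filter, Finset.mem_univ, true_and] at hy ⊢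
    obtain ⟨p, hp, hl, vp⟩ := hy
    refine ⟨SimpleGraph.Walk.cons vx p, (SimpleGraph.Walk.cons_isPath_iff _ _).2 ⟨hp, vp⟩, by simp [hl], ?_⟩
    simp only [SimpleGraph.Walk.support_cons, List.mem_cons, not_or]
    refine ⟨huv.ne, fun hu => ?_⟩
    have := two_paths G hg vx huv.symm xu (p.takeUntil u hu) SimpleGraph.Walk.nil (hp.takeUntil hu)
      SimpleGraph.Walk.IsPath.nil (fun h => vp (p.support_takeUntil_subset hu h)) (by simpa using huv.ne.symm)
    have h2 := p.length_takeUntil_le hu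
    simp only [SimpleGraph.Walk.length_nil] at this
    omega
  · intro x hx x' hx' hne
    have vx : G.Adj v x := by simpa using (Finset.mem_of_mem_erase hx)
    have vx' : G.Adj v x' := by simpa using (Finset.mem_of_mem_erase hx')
    refine Finset.disjoint_left.2 fun y hy hy' => ?_
    simp only [Sr, Finset.mem_filter, Finset.mem_univ, true_and] at hy hy'
    obtain ⟨p, hp, hl, vp⟩ := hy
    obtain ⟨q, hq, hl', vq⟩ := hy'
    have := two_paths G hg vx vx' hne p q hp hq vp vq
    omega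

theorem moore {ρ : ℝ} (h : ρ ^ 3 - ρ - 2 = 0) (hd : ∀ v, G.degree v = 2 ∨ G.degree v = 3)
    (hc : 2 * (univ.filter (fun v => G.degree v = 2)).card = Fintype.card V) [Nonempty V]
    {gg : ℕ} (hg : (gg : ℕ∞) ≤ G.egirth) (R : ℕ) (hR : 2 * R < gg) : ρ ^ R ≤ Fintype.card V := by
  refine growth G h hd hc R (fun r u v => ((Sr G r u v).card : ℝ)) (fun u v huv => ?_)
    (fun r hr u v huv => ?_) _ (fun u v _ => ?_)
  · have : v ∈ Sr G 0 u v := by
      simp only [Sr, Finset.mem_filter, Finset.mem_univ, true_and]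
      exact ⟨SimpleGraph.Walk.nil, SimpleGraph.Walk.IsPath.nil, rfl, by simpa using huv.ne⟩
    exact_mod_cast Finset.card_pos.2 ⟨v, this⟩
  · exact_mod_cast Sr_step G hg r (by omega) u v huv
  · exact_mod_cast Finset.card_le_univ _

end Pool.Agent.H2.Ent
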