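import Mathlib

set_option autoImplicit false
open Real

namespace Pool.Agent.H2.Ent

noncomputable def g (a t : ℝ) : ℝ := t * log (a / t)

variable {ρ : ℝ}

theorem rho_bd (h : ρ ^ 3 - ρ - 2 = 0) : 1.5213 < ρ ∧ ρ < 1.5214 := by
  constructor
  · by_contra hc
    push Not at hc
    nlinarith [sq_nonneg (ρ + 0.76), sq_nonneg ρ, mul_nonneg (sub_nonneg.2 hc) (sq_nonneg (ρ + 0.76065))]
  · by_contra hc
    push Not at hc
    nlinarith [mul_nonneg (sub_nonneg.2 hc) (sq_nonneg (ρ + 0.7607))]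

theorem G1 (t : ℝ) (e : t = 2) : g 4 t = 2 * log 2 := by
  subst e; unfold g; norm_num

theorem G2 (h : ρ ^ 3 - ρ - 2 = 0) (t : ℝ) (e : t = (ρ + 2) / 2) : g (ρ + 2) t = (ρ + 2) / 2 * log 2 := by
  have := (rho_bd h).1
  subst e; unfold g
  congr 2
  field_simp

theorem lW (h : ρ ^ 3 - ρ - 2 = 0) : log (ρ + 2) = 3 * log ρ := by
  rw [show ρ + 2 = ρ ^ 3 by linarith, log_pow]; norm_num

theorem G3 (h : ρ ^ 3 - ρ - 2 = 0) (t : ℝ) (e : t = 2) : g (ρ + 2) t = 2 * (3 * log ρ - log 2) := by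
  have := (rho_bd h).1
  subst e; unfold g
  rw [log_div (by linarith) (by norm_num), lW h]

theorem G4 (h : ρ ^ 3 - ρ - 2 = 0) (t : ℝ) (e : t = ρ) : g (ρ + 2) t = ρ * (2 * log ρ) := by
  have := (rho_bd h).1
  rw [e]; unfold g
  rw [log_div (by linarith) (by linarith), lW h]; ring

theorem l4 : log 4 = 2 * log 2 := by
  rw [show (4 : ℝ) = 2 ^ 2 by norm_num, log_pow]; norm_num

theorem G5 (h : ρ ^ 3 - ρ - 2 = 0) (t : ℝ) (e : t = 3 - ρ / 2) :
    g 4 t = (3 - ρ / 2) * (2 * log 2 - log (3 - ρ / 2)) := by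
  have := (rho_bd h).2
  subst e; unfold g
  rw [log_div (by norm_num) (by linarith), l4]

theorem G6 (h : ρ ^ 3 - ρ - 2 = 0) (t : ℝ) (e : t = (ρ + 2) / 2) :
    g 4 t = (ρ + 2) / 2 * (3 * log 2 - 3 * log ρ) := by
  have := (rho_bd h).1
  subst e; unfold g
  rw [log_div (by norm_num) (by linarith), log_div (by linarith) (by norm_num), l4, lW h]; ring

theorem log_le_of (x y : ℝ) (hx : 0 < x) (hy : 0 ≤ y)
    (h : x ≤ 1 + y + y ^ 2 / 2 + y ^ 3 / 6 + y ^ 4 / 24 + y ^ 5 / 120) : log x ≤ y := by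
  rw [log_le_iff_le_exp hx]
  have := Real.sum_le_exp_of_nonneg hy 6
  simp only [Finset.sum_range_succ, Finset.sum_range_zero, Nat.factorial] at this
  norm_num at this
  linarith

theorem L_bd (h : ρ ^ 3 - ρ - 2 = 0) : log ρ ≤ 0.42 ∧ log (3 - ρ / 2) ≤ 0.81 ∧ 3 * log 2 ≤ 5 * log ρ := by
  obtain ⟨a, b⟩ := rho_bd h
  refine ⟨log_le_of _ _ (by linarith) (by norm_num) (by norm_num at b ⊢; linarith),
    log_le_of _ _ (by linarith) (by norm_num) (by norm_num at a ⊢; linarith), ?_⟩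
  have h1 : (2 : ℝ) ^ 3 ≤ ρ ^ 5 := by
    have : ρ ^ 5 = ρ ^ 2 * (ρ + 2) := by rw [show ρ + 2 = ρ ^ 3 by linarith]; ring
    rw [this]; nlinarith
  have h2 := log_le_log (by norm_num) h1
  rw [log_pow, log_pow] at h2
  exact_mod_cast h2

noncomputable def cc (ρ : ℝ) : ℝ := (ρ + 2) * (5 * log ρ - 3 * log 2)

theorem cc_nonneg (h : ρ ^ 3 - ρ - 2 = 0) : 0 ≤ cc ρ := by
  have := (rho_bd h).1
  have := (L_bd h).2.2
  unfold cc
  exact mul_nonneg (by linarith) (by linarith)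

def wt (ρ : ℝ) (s : Bool) : ℝ := if s = true then ρ + 2 else 4

def ind (s : Bool) : ℝ := if s = true then 1 else 0

theorem key (h : ρ ^ 3 - ρ - 2 = 0) (x y z : Bool) (A : ℝ) (hA : A = wt ρ x + (wt ρ y + wt ρ z)) :
    2 * log ρ * (ρ + 2) + cc ρ * (2 - (ind x + (ind y + ind z))) + log ρ * A ≤
      (g (wt ρ x) (wt ρ x + wt ρ y - A / 2) + g (wt ρ x) (wt ρ x + wt ρ z - A / 2)) +
      ((g (wt ρ y) (wt ρ y + wt ρ x - A / 2) + g (wt ρ y) (wt ρ y + wt ρ z - A / 2)) +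
      (g (wt ρ z) (wt ρ z + wt ρ x - A / 2) + g (wt ρ z) (wt ρ z + wt ρ y - A / 2))) := by
  obtain ⟨a, b⟩ := rho_bd h
  obtain ⟨c, d, e⟩ := L_bd h
  have l2 := Real.log_two_gt_d9
  have p1 : 0 ≤ (0.42 - log ρ) * ρ := mul_nonneg (by linarith) (by linarith)
  have p2 : 0 ≤ (0.81 - log (3 - ρ / 2)) * (3 - ρ / 2) := mul_nonneg (by linarith) (by linarith)
  have p3 : 0 ≤ (log 2 - 0.6931) * ρ := mul_nonneg (by linarith) (by linarith)
  subst hA
  unfold cc
  cases x <;> cases y <;> cases z <;>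
    simp only [wt, ind, Bool.false_eq_true, if_false, if_true] <;>
    simp (disch := ring1) only [G1, G2 h, G3 h, G4 h, G5 h, G6 h] <;>
    nlinarith

theorem tau_pos (h : ρ ^ 3 - ρ - 2 = 0) (x y z : Bool) :
    0 < wt ρ x + wt ρ y - (wt ρ x + (wt ρ y + wt ρ z)) / 2 := by
  obtain ⟨a, b⟩ := rho_bd h
  cases x <;> cases y <;> cases z <;> simp only [wt, Bool.false_eq_true, if_false, if_true] <;> linarith

theorem wt_pos (h : ρ ^ 3 - ρ - 2 = 0) (x : Bool) : 0 < wt ρ x := by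
  obtain ⟨a, b⟩ := rho_bd h
  cases x <;> simp only [wt, Bool.false_eq_true, if_false, if_true] <;> linarith

theorem gibbs (t w N S : ℝ) (ht : 0 < t) (hw : 0 < w) (hN : 0 < N) (hS : 0 < S) :
    t * log N + g w t ≤ t * log S + (w * N / S - t) := by
  have h := Real.log_le_sub_one_of_pos (show 0 < N * (w / t) / S by positivity)
  rw [log_div (by positivity) hS.ne', log_mul hN.ne' (by positivity)] at h
  have h2 := mul_le_mul_of_nonneg_left h ht.le
  have e : t * (N * (w / t) / S - 1) = w * N / S - t := by field_simp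
  unfold g
  rw [e] at h2
  linarith

end Pool.Agent.H2.Ent
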