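import Mathlib

set_option autoImplicit false
open scoped Classical
open Finset

namespace Pool.Agent.H2.NB

variable {V : Type} [Fintype V] (G : SimpleGraph V)

noncomputable def Bm : Matrix G.Dart G.Dart ℂ :=
  Matrix.of (fun d e : G.Dart => if d.snd = e.fst ∧ e.snd ≠ d.fst then (1 : ℂ) else 0)

noncomputable def out (x : G.Dart → ℂ) (v : V) : ℂ := ∑ e : G.Dart, if e.fst = v then x e else 0

def VE (z : ℂ) (f : V → ℂ) : Prop :=
  ∀ v, (1 - z ^ 2) * f v = ∑ w, if G.Adj v w then z * f w - z ^ 2 * f v else 0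

theorem sum_out (g : V → ℂ) (v : V) :
    (∑ e : G.Dart, if e.fst = v then g e.snd else 0) = ∑ w, if G.Adj v w then g w else 0 := by
  have h1 : (∑ e : G.Dart, if e.fst = v then g e.snd else 0) =
      ∑ p : V × V, if G.Adj p.1 p.2 then (if p.1 = v then g p.2 else 0) else 0 := by
    refine Fintype.sum_of_injective (fun e : G.Dart => e.toProd) (fun a b h => SimpleGraph.Dart.ext _ _ h) _ _ ?_ ?_
    · intro p hp
      rw [if_neg]
      intro h
      exact hp ⟨⟨p, h⟩, rfl⟩
    · intro e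
      rw [if_pos e.adj]
  rw [h1, Fintype.sum_prod_type, Finset.sum_eq_single v]
  · simp
  · intro u _ hu
    simp [hu]
  · simp

theorem mulVec_apply (x : G.Dart → ℂ) (d : G.Dart) :
    (Bm G).mulVec x d = out G x d.snd - x d.symm := by
  have h : x d.symm = ∑ e : G.Dart, if e = d.symm then x e else 0 := by simp
  rw [h, out, ← Finset.sum_sub_distrib]
  simp only [Matrix.mulVec, dotProduct, Bm, Matrix.of_apply]
  refine Finset.sum_congr rfl fun e _ => ?_
  by_cases h1 : e = d.symm
  · subst h1; simp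
  · by_cases h2 : e.fst = d.snd
    · have h3 : e.snd ≠ d.fst := by
        intro h3
        apply h1
        apply SimpleGraph.Dart.ext
        ext
        · simpa using h2
        · simpa using h3
      simp [h1, h2, h3]
    · have : ¬ (d.snd = e.fst) := fun h => h2 h.symm
      simp [h1, h2, this]

theorem eig_dart {x : G.Dart → ℂ} {l : ℂ} (hl : l ≠ 0) (hx : (Bm G).mulVec x = l • x) (d : G.Dart) :
    (1 - l⁻¹ ^ 2) * x d = l⁻¹ * out G x d.snd - l⁻¹ ^ 2 * out G x d.fst := by
  have h1 := congrFun hx d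
  have h2 := congrFun hx d.symm
  rw [mulVec_apply] at h1 h2
  simp only [Pi.smul_apply, smul_eq_mul, SimpleGraph.Dart.symm_symm] at h1 h2
  have h3 : d.symm.snd = d.fst := by simp
  rw [h3] at h2
  field_simp
  linear_combination (-l) * h1 + h2

theorem eig_VE {x : G.Dart → ℂ} {l : ℂ} (hl : l ≠ 0) (hx : (Bm G).mulVec x = l • x) :
    VE G l⁻¹ (out G x) := by
  intro v
  rw [← sum_out G (fun w => l⁻¹ * out G x w - l⁻¹ ^ 2 * out G x v) v]
  conv_lhs => rw [out, Finset.mul_sum]
  refine Finset.sum_congr rfl fun e _ => ?_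
  by_cases h : e.fst = v
  · rw [if_pos h, if_pos h, eig_dart G hl hx, h]
  · simp [h]

theorem VE_eig {f : V → ℂ} (hf : VE G (1 / 2) f) :
    (Bm G).mulVec (fun d => 2 * f d.snd - f d.fst) = (2 : ℂ) • (fun d : G.Dart => 2 * f d.snd - f d.fst) := by
  funext d
  rw [mulVec_apply]
  have h1 : out G (fun d => 2 * f d.snd - f d.fst) d.snd = 3 * f d.snd := by
    have h2 := hf d.snd
    rw [← sum_out G (fun w => 1 / 2 * f w - (1 / 2) ^ 2 * f d.snd) d.snd] at h2
    have h3 : out G (fun d => 2 * f d.snd - f d.fst) d.snd =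
        4 * ∑ e : G.Dart, if e.fst = d.snd then 1 / 2 * f e.snd - (1 / 2) ^ 2 * f d.snd else 0 := by
      rw [out, Finset.mul_sum]
      refine Finset.sum_congr rfl fun e _ => ?_
      by_cases h : e.fst = d.snd
      · rw [if_pos h, if_pos h, h]; ring
      · simp [h]
    rw [h3, ← h2]; ring
  rw [h1]
  simp only [Pi.smul_apply, smul_eq_mul, SimpleGraph.Dart.symm_toProd, Prod.snd_swap, Prod.fst_swap]
  ring

theorem left_eig {x y : G.Dart → ℂ} (hx : (Bm G).mulVec x = (2 : ℂ) • x) :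
    ∑ d, x d.symm * (Bm G).mulVec y d = 2 * ∑ d, x d.symm * y d := by
  have h1 : ∀ d e : G.Dart, Bm G d e = Bm G e.symm d.symm := by
    intro d e
    simp only [Bm, Matrix.of_apply, SimpleGraph.Dart.symm_toProd, Prod.snd_swap, Prod.fst_swap]
    by_cases h2 : d.snd = e.fst <;> by_cases h3 : e.snd = d.fst <;> simp [h2, h3, eq_comm]
    all_goals tauto
  have h2 : ∀ e : G.Dart, ∑ d, x d.symm * Bm G d e = 2 * x e.symm := by
    intro e
    have h3 := congrFun hx e.symm
    simp only [Matrix.mulVec, dotProduct, Pi.smul_apply, smul_eq_mul] at h3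
    rw [← h3]
    refine Fintype.sum_bijective (fun d : G.Dart => d.symm) SimpleGraph.Dart.symm_involutive.bijective _ _ ?_
    intro d
    rw [h1 d e]; ring
  simp only [Matrix.mulVec, dotProduct, Finset.mul_sum]
  rw [Finset.sum_comm]
  refine Finset.sum_congr rfl fun e _ => ?_
  rw [← mul_assoc, ← h2 e, Finset.sum_mul]
  refine Finset.sum_congr rfl fun d _ => by ring

theorem gen (o : V) (s : ℝ) (hs : 1 < s) (hs2 : s ≤ 2)
    (H1 : ∀ z : ℂ, z ≠ 0 → ‖z‖ ≤ s⁻¹ → ∀ f : V → ℂ, VE G z f → (f o = 0 → f = 0) ∧ (f o ≠ 0 → z = 1 / 2))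
    (f0 : V → ℝ) (h0 : VE G (1 / 2) (fun v => (f0 v : ℂ))) (hpos : ∀ u v, G.Adj u v → f0 u < 2 * f0 v)
    (d0 : G.Dart) :
    ((∃ z ∈ (Bm G).charpoly.roots, ‖z‖ = 2) ∧ ∀ z ∈ (Bm G).charpoly.roots, ‖z‖ ≤ 2) ∧
      ((Bm G).charpoly.roots.filter (fun z : ℂ => s ≤ ‖z‖)).card ≤ 1 := by
  set A : Module.End ℂ (G.Dart → ℂ) := (Bm G).toLin' with hA
  have hch : A.charpoly = (Bm G).charpoly := Matrix.charpoly_toLin' _
  have hne : (Bm G).charpoly ≠ 0 := (Matrix.charpoly_monic _).ne_zero
  set x0 : G.Dart → ℂ := fun d => 2 * (f0 d.snd : ℂ) - f0 d.fst with hx0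
  have e0 : (Bm G).mulVec x0 = (2 : ℂ) • x0 := VE_eig G h0
  have hp : ∀ d : G.Dart, 0 < 2 * f0 d.snd - f0 d.fst := fun d => by
    have := hpos _ _ d.adj; linarith
  have hx : ∀ d, x0 d = ((2 * f0 d.snd - f0 d.fst : ℝ) : ℂ) := fun d => by simp [hx0]
  have hx0ne : x0 ≠ 0 := by
    intro h
    have h1 := congrFun h d0
    rw [hx, Pi.zero_apply] at h1
    exact (hp d0).ne' (by exact_mod_cast h1)
  have key : ∀ (l : ℂ) (x : G.Dart → ℂ), s ≤ ‖l‖ → (Bm G).mulVec x = l • x →
      (out G x o = 0 → x = 0) ∧ (x ≠ 0 → l = 2) := by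
    intro l x hl hx
    have hl0 : l ≠ 0 := by
      intro h; rw [h, norm_zero] at hl; linarith
    have hz : ‖l⁻¹‖ ≤ s⁻¹ := by
      rw [norm_inv]; exact inv_anti₀ (by linarith) hl
    have hz1 : ‖l⁻¹‖ < 1 := lt_of_le_of_lt hz (inv_lt_one_of_one_lt₀ hs)
    have hz2 : 1 - l⁻¹ ^ 2 ≠ 0 := by
      intro h
      have h1 : l⁻¹ ^ 2 = 1 := by linear_combination -h
      have h2 := congrArg norm h1
      rw [norm_pow, norm_one] at h2
      nlinarith [norm_nonneg l⁻¹]
    obtain ⟨a, b⟩ := H1 l⁻¹ (inv_ne_zero hl0) hz _ (eig_VE G hl0 hx)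
    have c : out G x o = 0 → x = 0 := by
      intro h
      funext d
      have h1 := eig_dart G hl0 hx d
      rw [a h] at h1
      simp only [Pi.zero_apply, mul_zero, sub_zero] at h1
      exact (mul_eq_zero.1 h1).resolve_left hz2
    refine ⟨c, fun h => ?_⟩
    have h1 := b (fun h2 => h (c h2))
    have : l = (l⁻¹)⁻¹ := (inv_inv l).symm
    rw [this, h1]; norm_num
  have root : ∀ l ∈ (Bm G).charpoly.roots, s ≤ ‖l‖ → l = 2 := by
    intro l hl hs'
    rw [Polynomial.mem_roots hne, ← hch, ← Module.End.hasEigenvalue_iff_isRoot_charpoly] at hl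
    obtain ⟨x, hx⟩ := hl.exists_hasEigenvector
    refine (key l x hs' ?_).2 hx.2
    have := hx.apply_eq_smul
    simpa [hA] using this
  have s2 : s ≤ ‖(2 : ℂ)‖ := by simpa using hs2
  refine ⟨⟨⟨2, ?_, by simp⟩, fun z hz => ?_⟩, ?_⟩
  · rw [Polynomial.mem_roots hne, ← hch, ← Module.End.hasEigenvalue_iff_isRoot_charpoly]
    refine Module.End.hasEigenvalue_of_hasEigenvector (x := x0) ⟨?_, hx0ne⟩
    rw [Module.End.mem_eigenspace_iff]
    simpa [hA] using e0
  · by_cases h : s ≤ ‖z‖
    · rw [root z hz h]; simp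
    · linarith [not_le.1 h]
  · have h1 : ((Bm G).charpoly.roots.filter (fun z : ℂ => s ≤ ‖z‖)) =
        (Bm G).charpoly.roots.filter (fun z : ℂ => 2 = z) := by
      refine Multiset.filter_congr fun z hz => ⟨fun h => (root z hz h).symm, fun h => ?_⟩
      rw [← h]; exact s2
    rw [h1, ← Multiset.count_eq_card_filter_eq, Polynomial.count_roots, ← hch,
      ← LinearMap.finrank_maxGenEigenspace_eq]
    have o0 : out G x0 o ≠ 0 := fun h => hx0ne ((key 2 x0 s2 e0).1 h)
    have span1 : ∀ x : G.Dart → ℂ, (Bm G).mulVec x = (2 : ℂ) • x → ∃ c : ℂ, x = c • x0 := by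
      intro x hx
      refine ⟨out G x o / out G x0 o, ?_⟩
      have h2 : (Bm G).mulVec (x - (out G x o / out G x0 o) • x0) =
          (2 : ℂ) • (x - (out G x o / out G x0 o) • x0) := by
        rw [Matrix.mulVec_sub, Matrix.mulVec_smul, hx, e0, smul_sub, smul_comm]
      have h3 := (key 2 _ s2 h2).1 (by
        have h4 : out G (x - (out G x o / out G x0 o) • x0) o =
            out G x o - (out G x o / out G x0 o) * out G x0 o := by
          simp only [out, Finset.mul_sum, ← Finset.sum_sub_distrib]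
          refine Finset.sum_congr rfl fun e _ => ?_
          by_cases h : e.fst = o <;> simp [h]
        rw [h4]; field_simp; ring)
      exact sub_eq_zero.1 h3
    have pair : ∑ d, x0 d.symm * x0 d ≠ 0 := by
      have h2 : ∑ d, x0 d.symm * x0 d =
          ((∑ d : G.Dart, (2 * f0 d.symm.snd - f0 d.symm.fst) * (2 * f0 d.snd - f0 d.fst) : ℝ) : ℂ) := by
        push_cast
        refine Finset.sum_congr rfl fun d _ => ?_
        rw [hx, hx]; push_cast; ring
      rw [h2]
      have h3 : 0 < ∑ d : G.Dart, (2 * f0 d.symm.snd - f0 d.symm.fst) * (2 * f0 d.snd - f0 d.fst) :=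
        Finset.sum_pos (fun d _ => mul_pos (hp _) (hp _)) ⟨d0, mem_univ _⟩
      exact_mod_cast h3.ne'
    have step : ∀ k : ℕ, ∀ y : G.Dart → ℂ, ((A - (2 : ℂ) • (1 : Module.End ℂ (G.Dart → ℂ))) ^ k) y = 0 →
        (Bm G).mulVec y = (2 : ℂ) • y := by
      intro k
      induction k with
      | zero => intro y hy; simp at hy; simp [hy]
      | succ k ih =>
        intro y hy
        rw [pow_succ, Module.End.mul_apply] at hy
        obtain ⟨c, hc⟩ := span1 _ (ih _ hy)
        have h2 : (Bm G).mulVec y = (2 : ℂ) • y + c • x0 := by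
          rw [← hc]; simp [hA]
        have h3 := left_eig G (y := y) e0
        rw [h2] at h3
        simp only [Pi.add_apply, Pi.smul_apply, smul_eq_mul, mul_add, Finset.sum_add_distrib] at h3
        have h4 : c * ∑ d, x0 d.symm * x0 d = 0 := by
          have h5 : ∑ d, x0 d.symm * (2 * y d) = 2 * ∑ d, x0 d.symm * y d := by
            rw [Finset.mul_sum]; exact Finset.sum_congr rfl fun d _ => by ring
          have h6 : ∑ d, x0 d.symm * (c * x0 d) = c * ∑ d, x0 d.symm * x0 d := by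
            rw [Finset.mul_sum]; exact Finset.sum_congr rfl fun d _ => by ring
          rw [h5, h6] at h3
          linear_combination h3
        have h5 : c = 0 := (mul_eq_zero.1 h4).resolve_right pair
        rw [h2, h5]; simp
    have hle : A.maxGenEigenspace 2 ≤ Submodule.span ℂ {x0} := by
      intro y hy
      rw [Module.End.mem_maxGenEigenspace] at hy
      obtain ⟨k, hk⟩ := hy
      obtain ⟨c, hc⟩ := span1 y (step k y hk)
      rw [Submodule.mem_span_singleton]
      exact ⟨c, hc.symm⟩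
    calc _ ≤ Module.finrank ℂ (Submodule.span ℂ {x0}) := Submodule.finrank_mono hle
      _ = 1 := finrank_span_singleton hx0ne

theorem deg2 (v a b : V) (ha : G.Adj v a) (hb : G.Adj v b) (hab : a ≠ b) : 2 ≤ G.degree v := by
  rw [← SimpleGraph.card_neighborFinset_eq_degree]
  exact Finset.one_lt_card.2 ⟨a, by simpa using ha, b, by simpa using hb, hab⟩

end Pool.Agent.H2.NB
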