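import Pool.Agent.H2.EntDefs
import Pool.Agent.H2.EntCore
import Pool.Agent.H2.NBGen

set_option autoImplicit false
open scoped Classical
open Real Finset Filter Topology

namespace Pool.Agent.H2.Ent

variable {V : Type} [Fintype V] (G : SimpleGraph V)

theorem B_eq : B G = NB.Bm G := by
  ext e f
  simp only [B, NB.Bm, Matrix.of_apply]
  congr 1
  apply propext
  refine and_congr_right fun h => not_congr ⟨fun h2 => by rw [h2]; simp, fun h2 => ?_⟩
  apply SimpleGraph.Dart.ext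
  ext
  · simpa using h.symm
  · simpa using h2

theorem B_mul (Y : V → V → ℝ) (d : G.Dart) : (B G).mulVec (fun e => (Y e.fst e.snd : ℂ)) d =
    ((∑ x ∈ (G.neighborFinset d.snd).erase d.fst, Y d.snd x : ℝ) : ℂ) := by
  have hu : d.fst ∈ G.neighborFinset d.snd := by simpa using d.adj.symm
  rw [B_eq, NB.mulVec_apply, Finset.sum_erase_eq_sub hu]
  have h1 : NB.out G (fun e => (Y e.fst e.snd : ℂ)) d.snd = ∑ x ∈ G.neighborFinset d.snd, (Y d.snd x : ℂ) := by
    rw [SimpleGraph.neighborFinset_eq_filter, Finset.sum_filter, ← NB.sum_out G (fun x => (Y d.snd x : ℂ))]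
    refine Finset.sum_congr rfl fun e _ => ?_
    by_cases h : e.fst = d.snd
    · rw [if_pos h, if_pos h, ← h]
    · rw [if_neg h, if_neg h]
  rw [h1]
  simp

noncomputable def Nw : ℕ → V → V → ℝ
  | 0, _, _ => 1
  | r + 1, u, v => ∑ x ∈ (G.neighborFinset v).erase u, Nw r v x

theorem pow_one_vec (r : ℕ) : ((B G) ^ r).mulVec (fun _ => 1) = fun e => (Nw G r e.fst e.snd : ℂ) := by
  induction r with
  | zero => funext e; simp [Nw]
  | succ r ih =>
    funext e
    rw [pow_succ', ← Matrix.mulVec_mulVec, ih, B_mul, Nw]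

open scoped Matrix.Norms.Operator in
theorem lower {ρ : ℝ} (h : ρ ^ 3 - ρ - 2 = 0) (hG : InClass G) : ENNReal.ofReal ρ ≤ rho G := by
  obtain ⟨c, hd, hc⟩ := hG
  have : Nonempty V := c.nonempty
  have r0 : 0 < ρ := by linarith [(rho_bd h).1]
  have key : ∀ r : ℕ, ρ ^ r ≤ ‖(B G) ^ r‖ := by
    intro r
    refine growth G h hd hc r (Nw G) (fun _ _ _ => le_rfl) (fun _ _ _ _ _ => le_rfl) _ fun u v huv => ?_
    have h1 := Matrix.linfty_opNorm_mulVec ((B G) ^ r) (fun _ => (1 : ℂ))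
    have h2 := norm_le_pi_norm (((B G) ^ r).mulVec (fun _ => (1 : ℂ))) ⟨(u, v), huv⟩
    have h3 : ‖(fun _ : G.Dart => (1 : ℂ))‖ ≤ 1 := (pi_norm_le_iff_of_nonneg zero_le_one).2 fun _ => by simp
    rw [pow_one_vec] at h1 h2
    rw [Complex.norm_real, Real.norm_eq_abs] at h2
    have h4 := mul_le_mul_of_nonneg_left h3 (norm_nonneg ((B G) ^ r))
    linarith [le_abs_self (Nw G r u v)]
  refine ge_of_tendsto (spectrum.pow_norm_pow_one_div_tendsto_nhds_spectralRadius (B G)) ?_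
  filter_upwards [eventually_gt_atTop 0] with r hr
  refine ENNReal.ofReal_le_ofReal ?_
  have h1 := Real.rpow_le_rpow (by positivity) (key r) (show (0 : ℝ) ≤ 1 / r by positivity)
  rwa [one_div, Real.pow_rpow_inv_natCast r0.le hr.ne', ← one_div] at h1

theorem upper {ρ : ℝ} (Y : V → V → ℝ) (hY : ∀ u v, 0 < Y u v)
    (he : ∀ u v, G.Adj u v → ∑ x ∈ G.neighborFinset v, Y v x - Y v u = ρ * Y u v) :
    rho G ≤ ENNReal.ofReal ρ := by
  refine iSup₂_le fun l hl => ?_
  rw [← Matrix.spectrum_toLin', ← Module.End.hasEigenvalue_iff_mem_spectrum] at hl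
  obtain ⟨x, hx⟩ := hl.exists_hasEigenvector
  have e : (B G).mulVec x = l • x := by simpa using hx.apply_eq_smul
  obtain ⟨d0, hd0⟩ := Function.ne_iff.1 hx.2
  obtain ⟨d, -, hd⟩ := Finset.exists_max_image univ (fun d : G.Dart => ‖x d‖ / Y d.fst d.snd) ⟨d0, mem_univ _⟩
  set c := ‖x d‖ / Y d.fst d.snd with hc
  have c0 : 0 < c := lt_of_lt_of_le (div_pos (norm_pos_iff.2 hd0) (hY _ _)) (hd d0 (mem_univ _))
  have hxd : ‖x d‖ = c * Y d.fst d.snd := by rw [hc, div_mul_cancel₀ _ (hY _ _).ne']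
  have h1 := B_mul G Y d
  rw [Finset.sum_erase_eq_sub (by simpa using d.adj.symm), he _ _ d.adj] at h1
  have h2 : ∑ f : G.Dart, ‖B G d f‖ * Y f.fst f.snd = ρ * Y d.fst d.snd := by
    apply Complex.ofReal_injective
    rw [← h1]
    simp only [Matrix.mulVec, dotProduct]
    push_cast
    refine Finset.sum_congr rfl fun f _ => ?_
    simp only [B, Matrix.of_apply]
    split_ifs <;> simp
  have h3 : ‖l‖ * ‖x d‖ ≤ c * (ρ * Y d.fst d.snd) := by
    rw [← norm_mul, ← h2, Finset.mul_sum]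
    have h4 := congrFun e d
    simp only [Matrix.mulVec, dotProduct, Pi.smul_apply, smul_eq_mul] at h4
    rw [← h4]
    refine (norm_sum_le _ _).trans (Finset.sum_le_sum fun f _ => ?_)
    have h5 := hd f (mem_univ _)
    rw [div_le_iff₀ (hY _ _)] at h5
    rw [norm_mul]
    nlinarith [norm_nonneg (B G d f)]
  have h6 : ‖l‖ ≤ ρ := by
    rw [hxd] at h3
    have := mul_pos c0 (hY d.fst d.snd)
    nlinarith
  rw [← ENNReal.ofReal_coe_nnreal]
  exact ENNReal.ofReal_le_ofReal h6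

theorem K_adj (u v : Fin 4) : K4m.Adj u v ↔ u ≠ v ∧ ¬ (u = 0 ∧ v = 1) ∧ ¬ (u = 1 ∧ v = 0) := by
  simp [K4m, not_or]

theorem K_nb (v : Fin 4) : K4m.neighborFinset v =
    if v = 0 ∨ v = 1 then {2, 3} else if v = 2 then {0, 1, 3} else {0, 1, 2} := by
  ext u
  rw [SimpleGraph.mem_neighborFinset, K_adj]
  fin_cases v <;> fin_cases u <;> simp

theorem K_deg (v : Fin 4) : K4m.degree v = if v = 0 ∨ v = 1 then 2 else 3 := by
  rw [← SimpleGraph.card_neighborFinset_eq_degree, K_nb]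
  fin_cases v <;> simp

theorem K_class : InClass K4m := by
  refine ⟨?_, fun v => ?_, ?_⟩
  · have k : ∀ v, K4m.Reachable 2 v := by
      intro v
      by_cases h : v = 2
      · rw [h]
      · refine SimpleGraph.Adj.reachable ((K_adj _ _).2 ⟨Ne.symm h, by simp, by simp⟩)
    exact { preconnected := fun u v => (k u).symm.trans (k v), nonempty := ⟨0⟩ }
  · rw [K_deg]; split_ifs <;> simp
  · have : (Finset.univ.filter (fun v => K4m.degree v = 2)) = {0, 1} := by
      ext v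
      simp only [Finset.mem_filter, Finset.mem_univ, true_and, K_deg]
      fin_cases v <;> simp
    rw [this]; simp

theorem K_upper {ρ : ℝ} (h : ρ ^ 3 - ρ - 2 = 0) : rho K4m ≤ ENNReal.ofReal ρ := by
  have r0 : 0 < ρ := by linarith [(rho_bd h).1]
  refine upper K4m (fun u v => if u = 0 ∨ u = 1 then ρ ^ 2 else if v = 0 ∨ v = 1 then ρ else 2)
    (fun u v => by split_ifs <;> positivity) fun u v huv => ?_
  rw [K_nb]
  rw [K_adj] at huv
  fin_cases u <;> fin_cases v <;> simp at huv ⊢ <;> linarith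

theorem ex_root : ∃ ρ : ℝ, ρ ^ 3 - ρ - 2 = 0 := by
  have := intermediate_value_Icc (show (1 : ℝ) ≤ 2 by norm_num)
    (f := fun x : ℝ => x ^ 3 - x - 2) (by fun_prop)
  obtain ⟨x, -, hx⟩ := this (show (0 : ℝ) ∈ _ by constructor <;> norm_num)
  exact ⟨x, hx⟩

end Pool.Agent.H2.Ent
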