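import Pool.Agent.H2.GsD

set_option autoImplicit false

namespace Pool.Agent.H2.Ev

open Filter Topology Pool.Agent.H2.Sm Pool.Agent.H2.Gs

variable {X : Type} [NormedAddCommGroup X] [NormedSpace ℝ X]

/-- Along the filter, pairs of forms are nearly maximised on the set at a common point. -/
def Good (l : Filter (StrongDual ℝ X)) (W : Set X) : Prop :=
  ∃ π : ℝ, ∀ ε > 0, (∀ᶠ μ in l, ∀ w ∈ W, μ w ≤ π + ε) ∧
    ∀ᶠ μ in l, ∀ᶠ ν in l, ∃ w ∈ W, π - ε ≤ μ w ∧ π - ε ≤ ν w

/-- The values at a point are Cauchy along the filter. -/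
def Cau (l : Filter (StrongDual ℝ X)) (x : X) : Prop :=
  ∀ ε > 0, ∃ c : ℝ, ∀ᶠ μ in l, |μ x - c| ≤ ε

/-- A subset of the unit ball containing the origin. -/
def Adm (W : Set X) : Prop := (0:X) ∈ W ∧ ∀ w ∈ W, ‖w‖ ≤ 1

noncomputable def pp (W : Set X) (f : StrongDual ℝ X) : ℝ := sSup ((fun w => f w) '' W)

lemma le_norm {W : Set X} (h : Adm W) (f : StrongDual ℝ X) {w : X} (hw : w ∈ W) : f w ≤ ‖f‖ :=
  le_trans (le_abs_self _) (le_trans (abs_apply_le f w)
    (mul_le_of_le_one_right (norm_nonneg _) (h.2 w hw)))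

lemma le_pp {W : Set X} (h : Adm W) (f : StrongDual ℝ X) {w : X} (hw : w ∈ W) : f w ≤ pp W f :=
  le_csSup ⟨‖f‖, by rintro _ ⟨v, hv, rfl⟩; exact le_norm h f hv⟩ ⟨w, hw, rfl⟩

lemma pp_le {W : Set X} (h : Adm W) {f : StrongDual ℝ X} {c : ℝ} (hc : ∀ w ∈ W, f w ≤ c) :
    pp W f ≤ c :=
  csSup_le ⟨_, 0, h.1, rfl⟩ (by rintro _ ⟨v, hv, rfl⟩; exact hc v hv)

lemma lt_pp {W : Set X} (h : Adm W) {f : StrongDual ℝ X} {c : ℝ} (hc : c < pp W f) :
    ∃ w ∈ W, c < f w := by
  by_contra hcon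
  push Not at hcon
  exact absurd (pp_le h hcon) (not_le.mpr hc)

lemma pp_nonneg {W : Set X} (h : Adm W) (f : StrongDual ℝ X) : 0 ≤ pp W f := by
  simpa using le_pp h f h.1

lemma pp_le_norm {W : Set X} (h : Adm W) (f : StrongDual ℝ X) : pp W f ≤ ‖f‖ :=
  pp_le h fun _ hw => le_norm h f hw

noncomputable def DD (W : Set X) (f g : StrongDual ℝ X) : ℝ :=
  2 * pp W f ^ 2 + 2 * pp W g ^ 2 - pp W (f + g) ^ 2

lemma sq_le_DD {W : Set X} (h : Adm W) (f g : StrongDual ℝ X) :
    (pp W f - pp W g) ^ 2 ≤ DD W f g := by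
  have h1 : pp W (f + g) ≤ pp W f + pp W g :=
    pp_le h fun w hw => add_le_add (le_pp h f hw) (le_pp h g hw)
  have h2 := pow_le_pow_left₀ (pp_nonneg h _) h1 2
  unfold DD
  nlinarith

lemma good_of_DD {W : Set X} (h : Adm W) (l : Filter (StrongDual ℝ X)) [l.NeBot]
    (hD : Tendsto (fun q : StrongDual ℝ X × StrongDual ℝ X => DD W q.1 q.2) (l ×ˢ l) (𝓝 0)) :
    Good l W := by
  have h1 : Cauchy (l.map (pp W)) := by
    rw [cauchy_map_iff']
    refine tendsto_uniformity_iff_dist_tendsto_zero.mpr ?_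
    have h2 := hD.sqrt
    rw [Real.sqrt_zero] at h2
    refine squeeze_zero (fun _ => dist_nonneg) (fun q => ?_) h2
    rw [Real.dist_eq]
    exact Real.abs_le_sqrt (sq_le_DD h _ _)
  obtain ⟨π, hπ⟩ := cauchy_map_iff_exists_tendsto.mp h1
  have hπ0 : 0 ≤ π := ge_of_tendsto' hπ (pp_nonneg h)
  have ha : Tendsto (fun q : StrongDual ℝ X × StrongDual ℝ X => pp W q.1) (l ×ˢ l) (𝓝 π) :=
    hπ.comp tendsto_fst
  have hb : Tendsto (fun q : StrongDual ℝ X × StrongDual ℝ X => pp W q.2) (l ×ˢ l) (𝓝 π) :=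
    hπ.comp tendsto_snd
  have h3 := ((((ha.pow 2).const_mul 2).add ((hb.pow 2).const_mul 2)).sub hD).sqrt
  have h4 : √(2 * π ^ 2 + 2 * π ^ 2 - 0) = 2 * π := by
    rw [show 2 * π ^ 2 + 2 * π ^ 2 - 0 = (2 * π) ^ 2 by ring, Real.sqrt_sq (by positivity)]
  rw [h4] at h3
  have h5 : Tendsto (fun q : StrongDual ℝ X × StrongDual ℝ X => pp W (q.1 + q.2)) (l ×ˢ l)
      (𝓝 (2 * π)) := by
    refine h3.congr fun q => ?_
    unfold DD
    rw [sub_sub_cancel, Real.sqrt_sq (pp_nonneg h _)]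
  refine ⟨π, fun ε hε => ⟨?_, Eventually.curry (p := fun q : StrongDual ℝ X × StrongDual ℝ X =>
    ∃ w ∈ W, π - ε ≤ q.1 w ∧ π - ε ≤ q.2 w) ?_⟩⟩
  · filter_upwards [hπ.eventually (gt_mem_nhds (show π < π + ε by linarith))] with μ hμ w hw
    exact le_trans (le_pp h μ hw) hμ.le
  · filter_upwards [ha.eventually (gt_mem_nhds (show π < π + ε / 2 by linarith)),
      hb.eventually (gt_mem_nhds (show π < π + ε / 2 by linarith)),
      h5.eventually (lt_mem_nhds (show 2 * π - ε / 2 < 2 * π by linarith))] with q q1 q2 q3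
    obtain ⟨w, hw, hw'⟩ := lt_pp h q3
    have := le_pp h q.1 hw
    have := le_pp h q.2 hw
    rw [ContinuousLinearMap.add_apply] at hw'
    exact ⟨w, hw, by linarith, by linarith⟩

noncomputable def tm (W : ℕ → Set X) (f : StrongDual ℝ X) (n : ℕ) : ℝ :=
  (1 / 2 : ℝ) ^ (n + 1) * (pp (W n) f ^ 2 + pp (W n) (-f) ^ 2)

lemma tm_nonneg (W : ℕ → Set X) (f : StrongDual ℝ X) (n : ℕ) : 0 ≤ tm W f n := by
  unfold tm
  positivity

lemma tm_le {W : ℕ → Set X} (h : ∀ n, Adm (W n)) (f : StrongDual ℝ X) (n : ℕ) :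
    tm W f n ≤ (1 / 2 : ℝ) ^ (n + 1) * (2 * ‖f‖ ^ 2) := by
  have h1 := pow_le_pow_left₀ (pp_nonneg (h n) f) (pp_le_norm (h n) f) 2
  have h2 := pow_le_pow_left₀ (pp_nonneg (h n) (-f)) (pp_le_norm (h n) (-f)) 2
  rw [norm_neg] at h2
  exact mul_le_mul_of_nonneg_left (by linarith) (by positivity)

lemma tm_summable {W : ℕ → Set X} (h : ∀ n, Adm (W n)) (f : StrongDual ℝ X) :
    Summable (tm W f) :=
  Summable.of_nonneg_of_le (tm_nonneg W f) (tm_le h f) (hasSum_w.summable.mul_right _)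

theorem renorm (W : ℕ → Set X) (h : ∀ n, Adm (W n)) (h0 : W 0 = Metric.closedBall 0 1)
    (H : ∀ l : Filter (StrongDual ℝ X), l.NeBot → (∀ᶠ μ in l, ‖μ‖ ≤ 2) → (∀ n, Good l (W n)) →
      (∀ n, Good (l.map fun μ => -μ) (W n)) → ∀ x, Cau l x) :
    ∃ N : Seminorm ℝ X, (∀ x, 1 / 2 * ‖x‖ ≤ N x ∧ N x ≤ 2 * ‖x‖) ∧
      ∀ (Y : Submodule ℝ (StrongDual ℝ X)) (x : X),
        0 < sSup {r : ℝ | ∃ f ∈ Y, (∀ z : X, f z ≤ N z) ∧ f x = r} →
        ∃ g, GD (fun x => sSup {r : ℝ | ∃ f ∈ Y, (∀ z : X, f z ≤ N z) ∧ f x = r}) x g := by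
  classical
  let S : StrongDual ℝ X → ℝ := fun f => ∑' n, tm W f n
  have hSneg : ∀ f, S (-f) = S f := by
    intro f
    refine tsum_congr fun n => ?_
    unfold tm
    rw [neg_neg, add_comm (pp (W n) f ^ 2)]
  have hSle : ∀ f, S f ≤ 2 * ‖f‖ ^ 2 := by
    intro f
    have := hasSum_le (tm_le h f) (tm_summable h f).hasSum (hasSum_w.mul_right _)
    rwa [one_mul] at this
  have hSb : ∀ f, S f ≤ 1 → ‖f‖ ≤ 2 := by
    intro f hf
    have h1 : tm W f 0 ≤ S f := (tm_summable h f).le_tsum 0 fun n _ => tm_nonneg W f n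
    have h2 : ‖f‖ ≤ pp (W 0) f := by
      refine ContinuousLinearMap.opNorm_le_of_unit_norm (pp_nonneg (h 0) f) fun x hx => ?_
      rw [Real.norm_eq_abs, abs_le]
      have a1 := le_pp (h 0) f (w := x) (by rw [h0]; simp [hx])
      have a2 := le_pp (h 0) f (w := -x) (by rw [h0]; simp [hx])
      rw [map_neg] at a2
      constructor <;> linarith
    have h3 := pow_le_pow_left₀ (norm_nonneg _) h2 2
    unfold tm at h1
    have h4 := sq_nonneg (pp (W 0) (-f))
    refine (abs_le_of_sq_le_sq' ?_ (by norm_num)).2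
    norm_num at h1 ⊢
    linarith
  obtain ⟨N, hN1, hN2⟩ := exists_polarX {f | S f ≤ 1} 2 hSb
  have hNup : ∀ x, N x ≤ 2 * ‖x‖ := fun x => hN2 x _ (by positivity) fun z hz =>
    le_trans (abs_apply_le z x) (mul_le_mul_of_nonneg_right (hSb z hz) (norm_nonneg _))
  have hpol : ∀ f : StrongDual ℝ X, (∀ z, f z ≤ N z) → S f ≤ 1 := by
    intro f hf
    refine (tm_summable h f).tsum_le_of_sum_le fun s => ?_
    refine le_of_small (k := 4 * ‖f‖) (by positivity) fun η hη => ?_
    choose u hu1 hu2 using fun n => lt_pp (h n) (show pp (W n) f - η < pp (W n) f by linarith)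
    choose v hv1 hv2 using fun n =>
      lt_pp (h n) (show pp (W n) (-f) - η < pp (W n) (-f) by linarith)
    set x : X := ∑ n ∈ s, (1 / 2 : ℝ) ^ (n + 1) • (pp (W n) f • u n - pp (W n) (-f) • v n) with hx
    have hval : ∀ g : StrongDual ℝ X, g x = ∑ n ∈ s, (1 / 2 : ℝ) ^ (n + 1) *
        (pp (W n) f * g (u n) + pp (W n) (-f) * (-g) (v n)) := by
      intro g
      rw [hx, map_sum]
      refine Finset.sum_congr rfl fun n _ => ?_
      simp only [map_smul, map_sub, smul_eq_mul, ContinuousLinearMap.neg_apply]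
      ring
    have h1 : ∀ g : StrongDual ℝ X, S g ≤ 1 → g x ≤ (∑ n ∈ s, tm W f n + 1) / 2 := by
      intro g hg
      have a1 : ∑ n ∈ s, tm W g n ≤ S g :=
        (tm_summable h g).sum_le_tsum s fun n _ => tm_nonneg W g n
      have a2 : g x ≤ ∑ n ∈ s, (tm W f n + tm W g n) / 2 := by
        rw [hval]
        refine Finset.sum_le_sum fun n _ => ?_
        have b1 := mul_le_mul_of_nonneg_left (le_pp (h n) g (hu1 n)) (pp_nonneg (h n) f)
        have b2 := mul_le_mul_of_nonneg_left (le_pp (h n) (-g) (hv1 n)) (pp_nonneg (h n) (-f))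
        unfold tm
        rw [← mul_add, mul_div_assoc]
        refine mul_le_mul_of_nonneg_left ?_ (by positivity)
        nlinarith [sq_nonneg (pp (W n) f - pp (W n) g), sq_nonneg (pp (W n) (-f) - pp (W n) (-g))]
      rw [← Finset.sum_div, Finset.sum_add_distrib] at a2
      linarith
    have h2 : N x ≤ (∑ n ∈ s, tm W f n + 1) / 2 := by
      refine hN2 x _ (by have := Finset.sum_nonneg fun n (_ : n ∈ s) => tm_nonneg W f n
                         positivity) fun g hg => abs_le.mpr ⟨?_, h1 g hg⟩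
      have := h1 (-g) (by rw [hSneg]; exact hg)
      rw [ContinuousLinearMap.neg_apply] at this
      linarith
    have h3 : ∑ n ∈ s, (tm W f n - (1 / 2 : ℝ) ^ (n + 1) * (η * (2 * ‖f‖))) ≤ f x := by
      rw [hval]
      refine Finset.sum_le_sum fun n _ => ?_
      have b1 := mul_le_mul_of_nonneg_left (hu2 n).le (pp_nonneg (h n) f)
      have b2 := mul_le_mul_of_nonneg_left (hv2 n).le (pp_nonneg (h n) (-f))
      have b3 := mul_le_mul_of_nonneg_left (pp_le_norm (h n) f) hη.le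
      have b4 := mul_le_mul_of_nonneg_left (pp_le_norm (h n) (-f)) hη.le
      rw [norm_neg] at b4
      unfold tm
      rw [← mul_sub]
      refine mul_le_mul_of_nonneg_left ?_ (by positivity)
      nlinarith
    rw [Finset.sum_sub_distrib, ← Finset.sum_mul] at h3
    have h4 : ∑ n ∈ s, (1 / 2 : ℝ) ^ (n + 1) ≤ 1 :=
      sum_le_hasSum s (fun n _ => by positivity) hasSum_w
    have h5 := mul_le_mul_of_nonneg_right h4 (show 0 ≤ η * (2 * ‖f‖) by positivity)
    have h6 := hf x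
    linarith
  refine ⟨N, fun x => ⟨?_, hNup x⟩, fun Y x hs => ?_⟩
  · obtain ⟨g, hg1, hg2⟩ := exists_dual_vector'' ℝ x
    have hg2' : g x = ‖x‖ := hg2
    have h1 : ‖(1 / 2 : ℝ) • g‖ ≤ 1 / 2 := by
      rw [norm_smul]
      norm_num
      linarith
    have h2 := hN1 ((1 / 2 : ℝ) • g) (le_trans (hSle _) (by
      have := pow_le_pow_left₀ (norm_nonneg _) h1 2
      linarith)) x
    rw [ContinuousLinearMap.smul_apply, smul_eq_mul, hg2'] at h2
    exact le_trans (le_abs_self _) h2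
  · set env : X → ℝ := fun x => sSup {r : ℝ | ∃ f ∈ Y, (∀ z : X, f z ≤ N z) ∧ f x = r} with henv
    have hs' : 0 < env x := hs
    let K : Set (StrongDual ℝ X) := {f | f ∈ Y ∧ ∀ z, f z ≤ N z}
    have hK0 : (0 : StrongDual ℝ X) ∈ K := ⟨Y.zero_mem, fun z => apply_nonneg N z⟩
    have hle : ∀ f ∈ K, ∀ z, f z ≤ env z := fun f hf z =>
      le_csSup ⟨N z, by rintro _ ⟨g, -, hg, rfl⟩; exact hg z⟩ ⟨f, hf.1, hf.2, rfl⟩
    have hge : ∀ z c, (∀ f ∈ K, f z ≤ c) → env z ≤ c := fun z c hc =>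
      csSup_le ⟨_, 0, hK0.1, hK0.2, rfl⟩ (by rintro _ ⟨g, hg1, hg2, rfl⟩; exact hc g ⟨hg1, hg2⟩)
    have hKb : ∀ f ∈ K, ‖f‖ ≤ 2 := fun f hf => hSb f (hpol f hf.2)
    have hseq : ∀ k : ℕ, ∃ f ∈ K, env x - 1 / ((k:ℝ) + 1) < f x := by
      intro k
      by_contra hcon
      push Not at hcon
      have := hge _ _ hcon
      have : (0:ℝ) < 1 / ((k:ℝ) + 1) := by positivity
      linarith
    choose z hz1 hz2 using hseq
    let l : Filter (StrongDual ℝ X) := comap (fun f => f x) (𝓝 (env x)) ⊓ 𝓟 K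
    have hzx : Tendsto (fun k => z k x) (Filter.hyperfilter ℕ) (𝓝 (env x)) := by
      have h2 := (tendsto_inv_U _ hyper_le).const_sub (env x)
      rw [sub_zero] at h2
      exact tendsto_of_tendsto_of_tendsto_of_le_of_le h2 tendsto_const_nhds
        (fun k => (hz2 k).le) (fun k => hle _ (hz1 k) x)
    have hzl : Tendsto z (Filter.hyperfilter ℕ) l :=
      tendsto_inf.mpr ⟨tendsto_comap_iff.mpr hzx, tendsto_principal.mpr (Eventually.of_forall hz1)⟩
    have : l.NeBot := hzl.neBot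
    have hlK : ∀ᶠ μ in l, μ ∈ K := mem_inf_of_right (mem_principal_self K)
    have hlx : Tendsto (fun f : StrongDual ℝ X => f x) l (𝓝 (env x)) :=
      tendsto_comap.mono_left inf_le_left
    have hscale : ∀ g ∈ Y, ∀ r : ℝ, 0 < r → S g ≤ r ^ 2 → g x ≤ r * env x := by
      intro g hg r hr hS
      have hp : ∀ n (g : StrongDual ℝ X), pp (W n) (r⁻¹ • g) ^ 2 ≤ r⁻¹ ^ 2 * pp (W n) g ^ 2 := by
        intro n g
        rw [← mul_pow]
        refine pow_le_pow_left₀ (pp_nonneg (h n) _) (pp_le (h n) fun w hw => ?_) 2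
        exact mul_le_mul_of_nonneg_left (le_pp (h n) g hw) (by positivity)
      have h1 : S (r⁻¹ • g) ≤ r⁻¹ ^ 2 * S g := by
        refine hasSum_le (fun n => ?_) (tm_summable h _).hasSum
          ((tm_summable h g).hasSum.mul_left _)
        unfold tm
        have e1 : -(r⁻¹ • g) = r⁻¹ • -g := by
          ext y
          simp
        rw [mul_left_comm, e1]
        refine mul_le_mul_of_nonneg_left ?_ (by positivity)
        have := hp n g
        have := hp n (-g)
        linarith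
      have h2 : S (r⁻¹ • g) ≤ 1 := by
        refine le_trans h1 ?_
        rw [inv_pow, inv_mul_le_iff₀ (by positivity), mul_one]
        exact hS
      have h3 := hle (r⁻¹ • g) ⟨Y.smul_mem _ hg, fun z =>
        le_trans (le_abs_self _) (hN1 _ h2 z)⟩ x
      rwa [ContinuousLinearMap.smul_apply, smul_eq_mul, inv_mul_le_iff₀ hr] at h3
    have hDD : ∀ n, Tendsto (fun q : StrongDual ℝ X × StrongDual ℝ X =>
        DD (W n) q.1 q.2 + DD (W n) (-q.1) (-q.2)) (l ×ˢ l) (𝓝 0) := by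
      intro n
      have hx2 : Tendsto (fun q : StrongDual ℝ X × StrongDual ℝ X => (q.1 x + q.2 x) / env x)
          (l ×ˢ l) (𝓝 2) := by
        have := ((hlx.comp (tendsto_fst (g := l))).add (hlx.comp (tendsto_snd (f := l)))).div_const
          (env x)
        rwa [show (env x + env x) / env x = 2 by field_simp; ring] at this
      have hx3 := ((hx2.pow 2).const_sub 4).const_mul ((2:ℝ) ^ (n + 1))
      rw [show (2:ℝ) ^ (n + 1) * (4 - 2 ^ 2) = 0 by norm_num] at hx3
      have hnn : ∀ m (f g : StrongDual ℝ X), 0 ≤ DD (W m) f g + DD (W m) (-f) (-g) := fun m f g =>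
        add_nonneg (le_trans (sq_nonneg _) (sq_le_DD (h m) _ _))
          (le_trans (sq_nonneg _) (sq_le_DD (h m) _ _))
      refine squeeze_zero' (Eventually.of_forall fun q => hnn n _ _) ?_ hx3
      filter_upwards [(tendsto_fst (g := l)).eventually hlK, (tendsto_snd (f := l)).eventually hlK,
        hx2.eventually (lt_mem_nhds (show (0:ℝ) < 2 by norm_num))] with q q1 q2 q3
      have a1 : HasSum (fun m => (1 / 2 : ℝ) ^ (m + 1) *
          (DD (W m) q.1 q.2 + DD (W m) (-q.1) (-q.2))) (2 * S q.1 + 2 * S q.2 - S (q.1 + q.2)) := by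
        have := (((tm_summable h q.1).hasSum.mul_left 2).add
          ((tm_summable h q.2).hasSum.mul_left 2)).sub (tm_summable h (q.1 + q.2)).hasSum
        refine this.congr_fun fun m => ?_
        unfold tm DD
        rw [neg_add]
        ring
      have a2 := le_hasSum a1 n fun m _ => mul_nonneg (by positivity) (hnn m _ _)
      have a3 := hpol _ q1.2
      have a4 := hpol _ q2.2
      have a5 : ((q.1 x + q.2 x) / env x) ^ 2 ≤ S (q.1 + q.2) := by
        by_contra hcon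
        obtain ⟨r, hr1, hr2⟩ := exists_between (show max 0 √(S (q.1 + q.2)) <
          (q.1 x + q.2 x) / env x from max_lt q3 ((Real.sqrt_lt' q3).mpr (not_le.mp hcon)))
        have hr0 : 0 < r := lt_of_le_of_lt (le_max_left _ _) hr1
        have := hscale _ (Y.add_mem q1.1 q2.1) r hr0
          ((Real.sqrt_lt' hr0).mp (lt_of_le_of_lt (le_max_right _ _) hr1)).le
        rw [lt_div_iff₀ hs'] at hr2
        rw [ContinuousLinearMap.add_apply] at this
        linarith
      have h3 : (2:ℝ) ^ (n + 1) * (1 / 2) ^ (n + 1) = 1 := by rw [← mul_pow]; norm_num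
      have a6 := mul_le_mul_of_nonneg_left (show (1 / 2 : ℝ) ^ (n + 1) *
        (DD (W n) q.1 q.2 + DD (W n) (-q.1) (-q.2)) ≤ 4 - ((q.1 x + q.2 x) / env x) ^ 2 by linarith)
        (show (0:ℝ) ≤ 2 ^ (n + 1) by positivity)
      rwa [← mul_assoc, h3, one_mul] at a6
    have hcau := H l inferInstance (hlK.mono hKb) (fun n => good_of_DD (h n) l ?_)
      fun n => good_of_DD (h n) _ ?_
    · obtain ⟨z0, hz0⟩ := limit_form (Filter.hyperfilter ℕ) z 2 fun k => hKb _ (hz1 k)
      have hz0b : ‖z0‖ ≤ 2 := ContinuousLinearMap.opNorm_le_bound _ (by norm_num) fun y =>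
        le_of_tendsto' (hz0 y).abs fun k => le_trans (abs_apply_le _ _)
          (mul_le_mul_of_nonneg_right (hKb _ (hz1 k)) (norm_nonneg _))
      refine ⟨z0, S1G (insert z0 K) 2 ?_ env ?_ ?_ x z0 (Set.mem_insert _ _)
        (tendsto_nhds_unique (hz0 x) hzx) fun U w hw hwx y => ?_⟩
      · rintro f (rfl | hf)
        exacts [hz0b, hKb f hf]
      · rintro f (rfl | hf) y
        exacts [le_of_tendsto' (hz0 y) fun k => hle _ (hz1 k) y, hle f hf y]
      · exact fun y c hc => hge y c fun f hf => hc f (Set.mem_insert_of_mem _ hf)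
      · rw [Metric.tendsto_nhds]
        intro ε hε
        obtain ⟨c, hc⟩ := hcau y (ε / 3) (by positivity)
        have b1 : |z0 y - c| ≤ ε / 3 :=
          le_of_tendsto ((hz0 y).sub_const c).abs (hzl.eventually hc)
        have b2 := (tendsto_comap_iff.mpr hwx : Tendsto w U (comap (fun f => f x)
          (𝓝 (env x)))).eventually (eventually_inf_principal.mp hc)
        filter_upwards [b2] with k hk
        rcases hw k with h1 | h1
        · rw [h1, dist_self]; exact hε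
        · have b3 := abs_le.mp (hk h1)
          have b4 := abs_le.mp b1
          rw [Real.dist_eq, abs_lt]
          constructor <;> linarith
    · refine squeeze_zero (fun q => le_trans (sq_nonneg _) (sq_le_DD (h n) _ _)) (fun q => ?_)
        (hDD n)
      exact le_add_of_nonneg_right (le_trans (sq_nonneg _) (sq_le_DD (h n) _ _))
    · rw [prod_map_map_eq, tendsto_map'_iff]
      refine squeeze_zero (fun q => le_trans (sq_nonneg _) (sq_le_DD (h n) _ _)) (fun q => ?_)
        (hDD n)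
      exact le_add_of_nonneg_left (le_trans (sq_nonneg _) (sq_le_DD (h n) _ _))

end Pool.Agent.H2.Ev
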