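import Pool.Agent.H2.EvA

set_option autoImplicit false

namespace Pool.Agent.H2.Ev

open Filter Topology Pool.Agent.H2.Sm Pool.Agent.H2.Gs
open scoped Classical

/-- Two branches agree below a level. -/
def ag (k : ℕ) (x y : ℕ → Bool) : Prop := ∀ i, i < k → x i = y i

lemma ag.symm {k : ℕ} {x y : ℕ → Bool} (h : ag k x y) : ag k y x := fun i hi => (h i hi).symm

lemma ag.trans {k l : ℕ} {x y z : ℕ → Bool} (h : ag l x y) (h' : ag k y z) (hk : k ≤ l) :
    ag k x z := fun i hi => (h i (lt_of_lt_of_le hi hk)).trans (h' i hi)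

lemma ag.mono {k l : ℕ} {x y : ℕ → Bool} (h : ag l x y) (hk : k ≤ l) : ag k x y :=
  fun i hi => h i (lt_of_lt_of_le hi hk)

lemma ag_congr {k m : ℕ} {b c : ℕ → Bool} (h : ag m c b) (hk : k ≤ m) (y : ℕ → Bool) :
    ag k y c ↔ ag k y b :=
  ⟨fun h' => h'.trans (h.mono hk) le_rfl, fun h' => h'.trans (h.symm.mono hk) le_rfl⟩

lemma exists_not_ag {x y : ℕ → Bool} (h : x ≠ y) : ∃ k, ∀ l, k ≤ l → ¬ ag l x y := by
  obtain ⟨i, hi⟩ := Function.ne_iff.mp h
  exact ⟨i + 1, fun l hl h' => hi (h' i hl)⟩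

/-- A normed space of bounded functions on the dyadic tree spanned by tails of branches. -/
structure Tr (X : Type) [NormedAddCommGroup X] [NormedSpace ℝ X] where
  ev : ℕ → (ℕ → Bool) → StrongDual ℝ X
  τ : (ℕ → Bool) → ℕ → X
  hτ : ∀ l y b k, ev l y (τ b k) = if k ≤ l ∧ ag l y b then 1 else 0
  hev : ∀ l y x, |ev l y x| ≤ ‖x‖
  hn : ∀ x c, 0 ≤ c → (∀ l y, |ev l y x| ≤ c) → ‖x‖ ≤ c
  hd : Dense (Submodule.span ℝ (Set.range fun p : (ℕ → Bool) × ℕ => τ p.1 p.2) : Set X)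

variable {X : Type} [NormedAddCommGroup X] [NormedSpace ℝ X]

lemma Cau.add {l : Filter (StrongDual ℝ X)} {x y : X} (hx : Cau l x) (hy : Cau l y) :
    Cau l (x + y) := by
  intro ε hε
  obtain ⟨a, ha⟩ := hx (ε / 2) (by positivity)
  obtain ⟨b, hb⟩ := hy (ε / 2) (by positivity)
  refine ⟨a + b, ?_⟩
  filter_upwards [ha, hb] with μ h1 h2
  rw [map_add]
  rw [abs_le] at *
  constructor <;> linarith [h1.1, h1.2, h2.1, h2.2]

lemma Cau.smul {l : Filter (StrongDual ℝ X)} {x : X} (hx : Cau l x) (t : ℝ) : Cau l (t • x) := by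
  intro ε hε
  have ht := abs_nonneg t
  obtain ⟨a, ha⟩ := hx (ε / (|t| + 1)) (by positivity)
  refine ⟨t * a, ha.mono fun μ h1 => ?_⟩
  rw [map_smul, smul_eq_mul, ← mul_sub, abs_mul]
  rw [le_div_iff₀ (by positivity)] at h1
  nlinarith [abs_nonneg (μ x - a)]

lemma cau_of_pair {l : Filter (StrongDual ℝ X)} [l.NeBot] {x : X} (h1 : Good l {0, x})
    (h2 : Good (l.map fun μ => -μ) {0, x}) : Cau l x := by
  intro ε hε
  obtain ⟨a, ha⟩ := h1
  obtain ⟨b, hb⟩ := h2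
  obtain ⟨a1, a2⟩ := ha (ε / 2) (by positivity)
  obtain ⟨b1, b2⟩ := hb (ε / 2) (by positivity)
  rw [eventually_map] at b1 b2
  refine ⟨a - b, ?_⟩
  filter_upwards [a1, a2, b1, b2] with μ c1 c2 c3 c4
  obtain ⟨ν, v, hv, c5, -⟩ := c2.exists
  obtain ⟨ν', w, hw, c6, -⟩ := c4.exists
  have d1 := c1 0 (by simp)
  have d2 := c1 x (by simp)
  have d3 := c3 0 (by simp)
  have d4 := c3 x (by simp)
  simp only [map_zero, ContinuousLinearMap.neg_apply] at d1 d3 d4 c6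
  rw [abs_le]
  rcases hv with rfl | rfl <;> rcases hw with rfl | hw
  all_goals try rw [Set.mem_singleton_iff.mp hw] at c6
  all_goals try simp only [map_zero] at c5
  all_goals try simp only [map_zero, neg_zero] at c6
  all_goals constructor <;> linarith

namespace Tr

variable (T : Tr X)

lemma inv {l : ℕ} {y y' : ℕ → Bool} (h : ag l y y') : T.ev l y = T.ev l y' := by
  refine ContinuousLinearMap.ext_on T.hd ?_
  rintro _ ⟨p, rfl⟩
  show T.ev l y (T.τ p.1 p.2) = T.ev l y' (T.τ p.1 p.2)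
  rw [T.hτ, T.hτ]
  congr 2
  exact propext ⟨fun h' => h.symm.trans h' le_rfl, fun h' => h.trans h' le_rfl⟩

def Iv (b : ℕ → Bool) (k : ℕ) : Set X :=
  {f | ∀ l y, 0 ≤ T.ev l y f ∧ T.ev l y f ≤ if k ≤ l ∧ ag l y b then 1 else 0}

def W1 (k : ℕ) (b : ℕ → Bool) : Set X := {f | ∃ b', ag k b' b ∧ f ∈ T.Iv b' k}

def WR (k J : ℕ) (b : ℕ → Bool) : Set X :=
  {w | ∀ l y, |T.ev l y w| ≤ 1 ∧ (T.ev l y w ≠ 0 → (k ≤ l ∧ ag k y b) ∧ ¬ (J ≤ l ∧ ag J y b))}

lemma zero_Iv (b : ℕ → Bool) (k : ℕ) : (0:X) ∈ T.Iv b k := by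
  intro l y
  rw [map_zero]
  split_ifs <;> norm_num

lemma Iv_abs {b : ℕ → Bool} {k : ℕ} {f : X} (h : f ∈ T.Iv b k) (l : ℕ) (y : ℕ → Bool) :
    |T.ev l y f| ≤ 1 := by
  obtain ⟨h1, h2⟩ := h l y
  rw [abs_of_nonneg h1]
  split_ifs at h2 <;> linarith

lemma Iv_ne {b : ℕ → Bool} {k : ℕ} {f : X} (h : f ∈ T.Iv b k) {l : ℕ} {y : ℕ → Bool}
    (h0 : T.ev l y f ≠ 0) : k ≤ l ∧ ag l y b := by
  by_contra hcon
  obtain ⟨h1, h2⟩ := h l y
  rw [if_neg hcon] at h2
  exact h0 (le_antisymm h2 h1)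

lemma adm_W1 (k : ℕ) (b : ℕ → Bool) : Adm (T.W1 k b) :=
  ⟨⟨b, fun _ _ => rfl, T.zero_Iv b k⟩, fun _ ⟨_, _, h⟩ => T.hn _ _ zero_le_one (T.Iv_abs h)⟩

lemma adm_WR (k J : ℕ) (b : ℕ → Bool) : Adm (T.WR k J b) :=
  ⟨fun l y => by simp, fun _ h => T.hn _ _ zero_le_one fun l y => (h l y).1⟩

lemma adm_seg (k J : ℕ) (b : ℕ → Bool) : Adm ({0, T.τ b k - T.τ b J} : Set X) := by
  refine ⟨by simp, ?_⟩
  rintro w (rfl | rfl)
  · simp
  · refine T.hn _ _ zero_le_one fun l y => ?_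
    rw [map_sub, T.hτ, T.hτ]
    split_ifs <;> norm_num

lemma chain (l : Filter (StrongDual ℝ X)) [l.NeBot] (R : ℝ) (hR : ∀ᶠ μ in l, ‖μ‖ ≤ R)
    (b : ℕ → Bool) {ε : ℝ} (hε : 0 < ε)
    (h : ∀ k J, k ≤ J → (∃ᶠ μ in l, ∃ w ∈ T.WR k J b, ε < μ w) →
      ∀ᶠ μ in l, ∃ w ∈ T.WR k J b, ε / 2 ≤ μ w) (k0 : ℕ) :
    ∃ k, k0 ≤ k ∧ ∀ J, k ≤ J → ∀ᶠ μ in l, ∀ w ∈ T.WR k J b, μ w ≤ ε := by
  by_contra hcon
  have key : ∀ N : ℕ, ∃ k, k0 ≤ k ∧ ∀ᶠ μ in l, ∃ w ∈ T.WR k0 k b, N * (ε / 2) ≤ μ w := by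
    intro N
    induction N with
    | zero => exact ⟨k0, le_rfl, Eventually.of_forall fun μ => ⟨0, (T.adm_WR _ _ _).1, by simp⟩⟩
    | succ N ih =>
      obtain ⟨k, hk, ih⟩ := ih
      have h1 : ∃ J, k ≤ J ∧ ∃ᶠ μ in l, ∃ w ∈ T.WR k J b, ε < μ w := by
        by_contra h2
        refine hcon ⟨k, hk, fun J hJ => ?_⟩
        have h3 : ¬ ∃ᶠ μ in l, ∃ w ∈ T.WR k J b, ε < μ w := fun h3 => h2 ⟨J, hJ, h3⟩
        rw [not_frequently] at h3
        exact h3.mono fun μ hμ w hw => not_lt.mp fun h4 => hμ ⟨w, hw, h4⟩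
      obtain ⟨J, hJ, h1⟩ := h1
      refine ⟨J, hk.trans hJ, ?_⟩
      filter_upwards [ih, h k J hJ h1] with μ ⟨w, hw, a1⟩ ⟨v, hv, a2⟩
      refine ⟨w + v, fun m y => ?_, by rw [map_add]; push_cast; linarith⟩
      rw [map_add]
      by_cases h0 : T.ev m y v = 0
      · rw [h0, add_zero]
        refine ⟨(hw m y).1, fun h2 => ⟨((hw m y).2 h2).1, fun h3 => ((hw m y).2 h2).2 ?_⟩⟩
        exact ⟨hJ.trans h3.1, h3.2.mono hJ⟩
      · have h3 := (hv m y).2 h0
        have h2 : T.ev m y w = 0 := by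
          by_contra h2
          exact ((hw m y).2 h2).2 h3.1
        rw [h2, zero_add]
        exact ⟨(hv m y).1, fun _ => ⟨⟨hk.trans h3.1.1, h3.1.2.mono hk⟩, h3.2⟩⟩
  obtain ⟨N, hN⟩ := exists_nat_gt (R / (ε / 2))
  obtain ⟨k, -, hk⟩ := key N
  obtain ⟨μ, ⟨w, hw, h1⟩, h2⟩ := (hk.and hR).exists
  have h3 := le_norm (T.adm_WR _ _ _) μ hw
  rw [div_lt_iff₀ (by positivity)] at hN
  linarith

lemma split {b b' : ℕ → Bool} {k J J' : ℕ} {f : X} (hf : f ∈ T.Iv b' k) (h1 : ag J b' b)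
    (h2 : ¬ ag J' b' b) : ∃ f1 ∈ T.Iv b k, f - f1 ∈ T.WR J J' b := by
  have hv : ∀ l y, T.ev l y (∑ m ∈ Finset.range J, T.ev m b' f • (T.τ b' m - T.τ b' (m + 1)))
      = if l < J then T.ev l y f else 0 := by
    intro l y
    have h3 : ∀ m, T.ev l y (T.ev m b' f • (T.τ b' m - T.τ b' (m + 1)))
        = if m = l then T.ev l y f else 0 := by
      intro m
      simp only [map_smul, map_sub, T.hτ, smul_eq_mul]
      by_cases hy : ag l y b'
      · rcases lt_trichotomy m l with h3 | h3 | h3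
        · simp [hy, h3.le, Nat.succ_le_of_lt h3, h3.ne]
        · subst h3
          simp [hy, T.inv hy]
        · simp [not_le.mpr h3, not_le.mpr (Nat.lt_succ_of_lt h3), h3.ne']
      · have h0 : T.ev l y f = 0 := by
          by_contra h0
          exact hy (T.Iv_ne hf h0).2
        simp [hy, h0]
    rw [map_sum]
    simp only [h3, Finset.sum_ite_eq', Finset.mem_range]
  refine ⟨∑ m ∈ Finset.range J, T.ev m b' f • (T.τ b' m - T.τ b' (m + 1)), fun l y => ?_,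
    fun l y => ?_⟩
  · rw [hv]
    split_ifs with h3 h4 h4
    · exact ⟨(hf l y).1, le_trans (le_abs_self _) (T.Iv_abs hf l y)⟩
    · refine ⟨(hf l y).1, le_of_eq ?_⟩
      by_contra h0
      have := T.Iv_ne hf h0
      exact h4 ⟨this.1, this.2.trans (h1.mono h3.le) le_rfl⟩
    · norm_num
    · norm_num
  · rw [map_sub, hv]
    split_ifs with h3
    · simp
    · rw [sub_zero]
      refine ⟨T.Iv_abs hf l y, fun h0 => ?_⟩
      have h4 := (T.Iv_ne hf h0).2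
      exact ⟨⟨not_lt.mp h3, h4.trans h1 (not_lt.mp h3)⟩,
        fun h5 => h2 (h4.symm.trans h5.2 h5.1)⟩

lemma claim (l : Filter (StrongDual ℝ X)) [l.NeBot] (b : ℕ → Bool) (k : ℕ) {ε : ℝ} (hε : 0 < ε)
    (hG : Good l (T.W1 k b)) (hB : ∀ J, k ≤ J → ∀ᶠ μ in l, ∀ w ∈ T.WR k J b, μ w ≤ ε) :
    ∃ π : ℝ, ∀ᶠ μ in l, (∀ f ∈ T.Iv b k, μ f ≤ π + ε) ∧ ∃ f ∈ T.Iv b k, π - 2 * ε ≤ μ f := by
  obtain ⟨π, hπ⟩ := hG
  obtain ⟨h1, h2⟩ := hπ ε hε
  refine ⟨π, ?_⟩
  filter_upwards [h1, h2] with μ a1 a2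
  refine ⟨fun f hf => a1 f ⟨b, fun _ _ => rfl, hf⟩, ?_⟩
  obtain ⟨J, hJ, hA⟩ := T.chain (pure μ) ‖μ‖ (by simp) b hε (fun k J _ h => by
    rw [frequently_pure] at h
    obtain ⟨w, hw, h3⟩ := h
    exact eventually_pure.mpr ⟨w, hw, by linarith⟩) k
  obtain ⟨ν, ⟨f, ⟨b', hb', hf⟩, c1, c2⟩, c3⟩ := (a2.and (hB J hJ)).exists
  by_cases h3 : ag J b' b
  · by_cases h4 : b' = b
    · exact ⟨f, h4 ▸ hf, by linarith⟩
    · obtain ⟨J', hJ'⟩ := exists_not_ag h4
      obtain ⟨f1, d1, d2⟩ := T.split hf h3 (hJ' (max J J') (le_max_right _ _))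
      have := eventually_pure.mp (hA _ (le_max_left J J')) _ d2
      rw [map_sub] at this
      exact ⟨f1, d1, by linarith⟩
  · have := c3 f fun m y => ⟨T.Iv_abs hf m y, fun h0 => by
      have h4 := T.Iv_ne hf h0
      exact ⟨⟨h4.1, h4.2.trans hb' h4.1⟩, fun h5 => h3 (h4.2.symm.trans h5.2 h5.1)⟩⟩
    exact ⟨0, T.zero_Iv b k, by rw [map_zero]; linarith⟩

lemma sub_Iv {b : ℕ → Bool} {k : ℕ} {f : X} (hf : f ∈ T.Iv b k) : T.τ b k - f ∈ T.Iv b k := by
  intro l y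
  rw [map_sub, T.hτ]
  have := hf l y
  constructor <;> linarith [this.1, this.2]

theorem cau (l : Filter (StrongDual ℝ X)) [l.NeBot] (hR : ∀ᶠ μ in l, ‖μ‖ ≤ 2)
    (h1 : ∀ k b, Good l (T.W1 k b)) (h1' : ∀ k b, Good (l.map fun μ => -μ) (T.W1 k b))
    (h2 : ∀ k J b, k ≤ J → Good l (T.WR k J b))
    (h3 : ∀ k J b, k ≤ J → Cau l (T.τ b k - T.τ b J)) (x : X) : Cau l x := by
  have hτ : ∀ b k0, Cau l (T.τ b k0) := by
    intro b k0 ε hε
    obtain ⟨k, hk, hB⟩ := T.chain l 2 hR b (show 0 < ε / 4 by positivity) (fun k J hJ h => by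
      obtain ⟨π, hπ⟩ := h2 k J b hJ
      obtain ⟨a1, a2⟩ := hπ (ε / 16) (by positivity)
      obtain ⟨μ, ⟨w, hw, a3⟩, a4⟩ := (h.and_eventually a1).exists
      have a5 := a4 w hw
      filter_upwards [a2] with ν a6
      obtain ⟨_, v, hv, a7, -⟩ := a6.exists
      exact ⟨v, hv, by linarith⟩) k0
    obtain ⟨π, hπ⟩ := T.claim l b k (show 0 < ε / 4 by positivity) (h1 k b) hB
    obtain ⟨π', hπ'⟩ := T.claim (l.map fun μ => -μ) b k (show 0 < ε / 4 by positivity) (h1' k b)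
      fun J hJ => by
        rw [eventually_map]
        filter_upwards [hB J hJ] with μ hμ w hw
        have := hμ (-w) fun m y => by
          rw [map_neg, abs_neg, neg_ne_zero]
          exact hw m y
        rwa [map_neg] at this
    rw [eventually_map] at hπ'
    obtain ⟨c, hc⟩ := h3 k0 k b hk (ε / 4) (by positivity)
    refine ⟨c + (π - π'), ?_⟩
    filter_upwards [hπ, hπ', hc] with μ ⟨a1, f, hf, a2⟩ ⟨a3, g, hg, a4⟩ a5
    have b1 := a1 _ (T.sub_Iv hg)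
    have b2 := a3 _ (T.sub_Iv hf)
    simp only [ContinuousLinearMap.neg_apply, map_sub] at a4 a5 b1 b2
    rw [abs_le] at a5 ⊢
    constructor <;> linarith [a5.1, a5.2]
  have hsp : ∀ y ∈ Submodule.span ℝ (Set.range fun p : (ℕ → Bool) × ℕ => T.τ p.1 p.2),
      Cau l y := by
    intro y hy
    induction hy using Submodule.span_induction with
    | mem _ h => obtain ⟨p, rfl⟩ := h; exact hτ _ _
    | zero => exact fun ε hε => ⟨0, Eventually.of_forall fun μ => by simpa using hε.le⟩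
    | add _ _ _ _ a b => exact a.add b
    | smul t _ _ a => exact a.smul t
  intro ε hε
  obtain ⟨y, hy, hxy⟩ := T.hd.exists_dist_lt x (show 0 < ε / 4 by positivity)
  obtain ⟨c, hc⟩ := hsp y hy (ε / 2) (by positivity)
  refine ⟨c, ?_⟩
  filter_upwards [hc, hR] with μ a1 a2
  rw [dist_eq_norm] at hxy
  have a3 := le_trans (abs_apply_le μ (x - y)) (mul_le_mul a2 hxy.le (norm_nonneg _) zero_le_two)
  rw [map_sub] at a3
  rw [abs_le] at *
  constructor <;> linarith [a1.1, a1.2, a3.1, a3.2]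

include T in
theorem renormed : ∃ N : Seminorm ℝ X, (∀ x, 1 / 2 * ‖x‖ ≤ N x ∧ N x ≤ 2 * ‖x‖) ∧
      ∀ (Y : Submodule ℝ (StrongDual ℝ X)) (x : X),
        0 < sSup {r : ℝ | ∃ f ∈ Y, (∀ z : X, f z ≤ N z) ∧ f x = r} →
        ∃ g, GD (fun x => sSup {r : ℝ | ∃ f ∈ Y, (∀ z : X, f z ≤ N z) ∧ f x = r}) x g := by
  obtain ⟨σ, hσ⟩ := exists_surjective_nat (Fin 3 × ℕ × ℕ × Finset ℕ)
  let c : Finset ℕ → ℕ → Bool := fun A i => decide (i ∈ A)
  have hc : ∀ m b, ∃ A, ag m (c A) b := fun m b =>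
    ⟨(Finset.range m).filter fun i => b i = true, fun i hi => by simp [c, hi]⟩
  let V : Fin 3 × ℕ × ℕ × Finset ℕ → Set X := fun i =>
    ![T.W1 i.2.1 (c i.2.2.2), T.WR i.2.1 i.2.2.1 (c i.2.2.2),
      {0, T.τ (c i.2.2.2) i.2.1 - T.τ (c i.2.2.2) i.2.2.1}] i.1
  have hV : ∀ i, Adm (V i) := by
    rintro ⟨j, k, J, A⟩
    fin_cases j
    exacts [T.adm_W1 _ _, T.adm_WR _ _ _, T.adm_seg _ _ _]
  let W : ℕ → Set X := fun n => Nat.casesOn n (Metric.closedBall 0 1) fun m => V (σ m)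
  refine renorm W (fun n => ?_) rfl fun l hl hR h h' => ?_
  · cases n with
    | zero => exact ⟨Metric.mem_closedBall_self zero_le_one, fun w hw => by simpa [W] using hw⟩
    | succ m => exact hV _
  · have e1 : ∀ k b, ∃ n, W n = T.W1 k b := by
      intro k b
      obtain ⟨A, hA⟩ := hc k b
      obtain ⟨m, hm⟩ := hσ (0, k, k, A)
      refine ⟨m + 1, ?_⟩
      show V (σ m) = _
      rw [hm]
      show T.W1 k (c A) = _
      simp only [W1, ag_congr hA le_rfl]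
    have e2 : ∀ k J b, k ≤ J → ∃ n, W n = T.WR k J b := by
      intro k J b hJ
      obtain ⟨A, hA⟩ := hc J b
      obtain ⟨m, hm⟩ := hσ (1, k, J, A)
      refine ⟨m + 1, ?_⟩
      show V (σ m) = _
      rw [hm]
      show T.WR k J (c A) = _
      simp only [WR, ag_congr hA le_rfl, ag_congr hA hJ]
    have e3 : ∀ k J b, k ≤ J → ∃ n, W n = {0, T.τ b k - T.τ b J} := by
      intro k J b hJ
      obtain ⟨A, hA⟩ := hc J b
      obtain ⟨m, hm⟩ := hσ (2, k, J, A)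
      refine ⟨m + 1, ?_⟩
      show V (σ m) = _
      rw [hm]
      show ({0, T.τ (c A) k - T.τ (c A) J} : Set X) = _
      congr 2
      refine sub_eq_zero.mp (norm_le_zero_iff.mp (T.hn _ _ le_rfl fun l y => ?_))
      simp only [map_sub, T.hτ]
      by_cases h1 : J ≤ l
      · simp [h1, hJ.trans h1]
      · simp [h1, ag_congr hA (not_le.mp h1).le]
    refine T.cau l hR (fun k b => ?_) (fun k b => ?_) (fun k J b hJ => ?_) fun k J b hJ => ?_
    · obtain ⟨n, hn⟩ := e1 k b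
      exact hn ▸ h n
    · obtain ⟨n, hn⟩ := e1 k b
      exact hn ▸ h' n
    · obtain ⟨n, hn⟩ := e2 k J b hJ
      exact hn ▸ h n
    · obtain ⟨n, hn⟩ := e3 k J b hJ
      exact cau_of_pair (hn ▸ h n) (hn ▸ h' n)

include T in
theorem not_wcg (Z : Type) [NormedAddCommGroup Z] [NormedSpace ℝ Z] (K : Set Z)
    (hK : IsCompact ((toWeakSpace ℝ Z) '' K)) (hD : Dense (Submodule.span ℝ K : Set Z))
    (S : X →L[ℝ] Z) (c : ℝ) (hc : 0 < c) (hS : ∀ x, c * ‖x‖ ≤ ‖S x‖) : False := by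
  have hinj : Function.Injective (S : X →ₗ[ℝ] Z) := by
    rw [injective_iff_map_eq_zero]
    intro x hx
    have h1 := hS x
    rw [show S x = 0 from hx, norm_zero] at h1
    exact norm_le_zero_iff.mp (nonpos_of_mul_nonpos_right h1 hc |> fun h => h)
  have hext : ∀ l y, ∃ g : StrongDual ℝ Z, ‖g‖ ≤ c⁻¹ ∧ ∀ x, g (S x) = T.ev l y x := by
    intro l y
    let e := LinearEquiv.ofInjective (S : X →ₗ[ℝ] Z) hinj
    have hb : ∀ v, ‖((T.ev l y : X →ₗ[ℝ] ℝ).comp e.symm.toLinearMap) v‖ ≤ c⁻¹ * ‖v‖ := by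
      intro v
      obtain ⟨x, rfl⟩ := e.surjective v
      have h1 : ‖e x‖ = ‖S x‖ := rfl
      rw [LinearMap.comp_apply, LinearEquiv.coe_coe, e.symm_apply_apply, h1, le_inv_mul_iff₀ hc]
      exact le_trans (mul_le_mul_of_nonneg_left (T.hev l y x) hc.le) (hS x)
    obtain ⟨g, hg1, hg2⟩ := exists_extension_norm_eq (LinearMap.range (S : X →ₗ[ℝ] Z))
      (LinearMap.mkContinuous _ _ hb)
    refine ⟨g, hg2 ▸ LinearMap.mkContinuous_norm_le _ (by positivity) hb, fun x => ?_⟩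
    have := hg1 (e x)
    rw [LinearMap.mkContinuous_apply, LinearMap.comp_apply, LinearEquiv.coe_coe,
      e.symm_apply_apply] at this
    exact this
  let E : ℕ × ℕ → Set (ℕ → Bool) := fun p => {b | ∃ (a : Fin p.1 → ℝ) (k : Fin p.1 → K),
    (∀ i, |a i| ≤ p.2) ∧ ‖S (T.τ b 0) - ∑ i, a i • (k i : Z)‖ ≤ c / 4}
  have hE : ∃ p, (E p).Infinite := by
    by_contra hcon
    push Not at hcon
    have h1 : (⋃ p, E p).Countable := Set.countable_iUnion fun p => (hcon p).countable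
    have hu : Uncountable (ℕ → Bool) := by
      refine not_countable_iff.mp fun _ => ?_
      obtain ⟨F, hF⟩ := exists_surjective_nat (ℕ → Bool)
      obtain ⟨m, hm⟩ := hF fun i => !(F i i)
      have := congrFun hm m
      simp at this
    refine Set.not_countable_univ (α := ℕ → Bool) (h1.mono fun b _ => ?_)
    obtain ⟨v, hv, hd⟩ := hD.exists_dist_lt (S (T.τ b 0)) (show 0 < c / 4 by positivity)
    obtain ⟨n, a, k, rfl⟩ := Submodule.mem_span_set'.mp hv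
    obtain ⟨M, hM⟩ := exists_nat_ge (∑ i, |a i|)
    refine Set.mem_iUnion.mpr ⟨(n, M), a, k, fun i => le_trans ?_ hM, ?_⟩
    · exact Finset.single_le_sum (f := fun i => |a i|) (fun _ _ => abs_nonneg _) (Finset.mem_univ i)
    · rw [dist_eq_norm] at hd
      exact hd.le
  obtain ⟨⟨n, M⟩, hp⟩ := hE
  let b : ℕ → ℕ → Bool := fun i => (hp.natEmbedding _ i).1
  have hbinj : Function.Injective b := Subtype.val_injective.comp (hp.natEmbedding _).injective
  choose a k ha hk using fun i => (hp.natEmbedding _ i).2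
  let U : Ultrafilter ℕ := Filter.hyperfilter ℕ
  obtain ⟨b0, -, hb0⟩ := isCompact_univ.ultrafilter_le_nhds (U.map b) (by simp)
  have hb1 : ∀ m, ∀ᶠ i in U, ag m b0 (b i) := by
    intro m
    have h1 : ∀ᶠ i in U, ∀ j ∈ Finset.range m, b i j = b0 j := by
      rw [Filter.eventually_all_finset]
      intro j _
      have := tendsto_pi_nhds.mp (show Tendsto b U (𝓝 b0) from hb0) j
      rw [nhds_discrete Bool] at this
      exact tendsto_pure.mp this
    exact h1.mono fun i hi j hj => (hi j (Finset.mem_range.mpr hj)).symm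
  have hb2 : ∀ᶠ i in U, b0 ≠ b i := by
    refine Filter.hyperfilter_le_cofinite ?_
    refine Set.Subsingleton.finite fun i hi j hj => hbinj ?_
    simp only [Set.mem_compl_iff, Set.mem_setOf_eq, not_not] at hi hj
    exact hi.symm.trans hj
  have ha1 : ∀ r, ∃ t, Tendsto (fun i => a i r) U (𝓝 t) := by
    intro r
    obtain ⟨t, -, ht⟩ := (isCompact_Icc (a := -(M:ℝ)) (b := M)).ultrafilter_le_nhds
      (U.map fun i => a i r) (by
        rw [le_principal_iff, Ultrafilter.coe_map, mem_map]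
        exact Eventually.of_forall fun i => abs_le.mp (ha i r))
    exact ⟨t, ht⟩
  have hk1 : ∀ r, ∃ v : Z, ∀ g : StrongDual ℝ Z, Tendsto (fun i => g (k i r)) U (𝓝 (g v)) := by
    intro r
    obtain ⟨v, -, hv⟩ := hK.ultrafilter_le_nhds (U.map fun i => toWeakSpace ℝ Z (k i r)) (by
      rw [le_principal_iff, Ultrafilter.coe_map, mem_map]
      exact Eventually.of_forall fun i => ⟨_, (k i r).2, rfl⟩)
    refine ⟨(toWeakSpace ℝ Z).symm v, fun g => ?_⟩
    exact ((WeakBilin.eval_continuous (topDualPairing ℝ Z).flip g).tendsto v).comp hv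
  choose t ht using ha1
  choose v hv using hk1
  have hlim : ∀ g : StrongDual ℝ Z,
      Tendsto (fun i => g (∑ r, a i r • (k i r : Z))) U (𝓝 (g (∑ r, t r • v r))) := by
    intro g
    simp only [map_sum, map_smul, smul_eq_mul]
    exact tendsto_finset_sum _ fun r _ => (ht r).mul (hv r g)
  have hnear : ∀ g : StrongDual ℝ Z, ‖g‖ ≤ c⁻¹ → ∀ i,
      |g (S (T.τ (b i) 0)) - g (∑ r, a i r • (k i r : Z))| ≤ 1 / 4 := by
    intro g hg i
    rw [← map_sub]
    refine le_trans (abs_apply_le g _) (le_trans (mul_le_mul hg (hk i) (norm_nonneg _)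
      (by positivity)) (le_of_eq ?_))
    field_simp
  choose g hg1 hg2 using fun m => hext m b0
  obtain ⟨g0, hg0⟩ := limit_form U g c⁻¹ hg1
  have hg0b : ‖g0‖ ≤ c⁻¹ := ContinuousLinearMap.opNorm_le_bound _ (by positivity) fun y =>
    le_of_tendsto' (hg0 y).abs fun m => le_trans (abs_apply_le _ _)
      (mul_le_mul_of_nonneg_right (hg1 m) (norm_nonneg _))
  have h1 : 3 / 4 ≤ g0 (∑ r, t r • v r) := by
    refine ge_of_tendsto' (hg0 _) fun m => ge_of_tendsto (hlim (g m)) ?_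
    filter_upwards [hb1 m] with i hi
    have := abs_le.mp (hnear (g m) (hg1 m) i)
    rw [hg2, T.hτ, if_pos ⟨Nat.zero_le _, hi⟩] at this
    linarith [this.2]
  have h2 : g0 (∑ r, t r • v r) ≤ 1 / 4 := by
    refine le_of_tendsto (hlim g0) ?_
    filter_upwards [hb2] with i hi
    obtain ⟨m, hm⟩ := exists_not_ag hi
    have h3 : g0 (S (T.τ (b i) 0)) = 0 := by
      refine tendsto_nhds_unique (hg0 _) (tendsto_const_nhds.congr' ?_)
      filter_upwards [hyper_le (eventually_ge_atTop m)] with l hl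
      rw [hg2, T.hτ, if_neg fun h => hm l hl h.2]
    have := abs_le.mp (hnear g0 hg0b i)
    rw [h3] at this
    linarith [this.1]
  linarith

end Tr

/-- The indicator of a tail of a branch as a bounded function. -/
noncomputable def tau (p : (ℕ → Bool) × ℕ) : lp (fun _ : ℕ × (ℕ → Bool) => ℝ) ⊤ :=
  ⟨fun q => if p.2 ≤ q.1 ∧ ag q.1 q.2 p.1 then 1 else 0, memℓp_infty ⟨1, by
    rintro _ ⟨q, rfl⟩
    dsimp only
    split_ifs <;> simp⟩⟩

noncomputable def JL : Submodule ℝ (lp (fun _ : ℕ × (ℕ → Bool) => ℝ) ⊤) :=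
  (Submodule.span ℝ (Set.range tau)).topologicalClosure

instance : CompleteSpace JL := (Submodule.isClosed_topologicalClosure _).completeSpace_coe

lemma tau_mem (p : (ℕ → Bool) × ℕ) : tau p ∈ JL :=
  Submodule.le_topologicalClosure _ (Submodule.subset_span ⟨p, rfl⟩)

lemma coord_le (q : ℕ × (ℕ → Bool)) (x : JL) : ‖x.1 q‖ ≤ 1 * ‖x‖ := by
  rw [one_mul]
  exact lp.norm_apply_le_norm ENNReal.top_ne_zero x.1 q

noncomputable def jl : Tr JL where
  ev l y := LinearMap.mkContinuous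
    { toFun := fun x => x.1 (l, y)
      map_add' := fun _ _ => rfl
      map_smul' := fun _ _ => rfl } 1 (coord_le (l, y))
  τ b k := ⟨tau (b, k), tau_mem _⟩
  hτ _ _ _ _ := rfl
  hev l y x := by simpa using coord_le (l, y) x
  hn x c hc h := lp.norm_le_of_forall_le hc fun q => h q.1 q.2
  hd := by
    intro x
    rw [Topology.IsEmbedding.subtypeVal.closure_eq_preimage_closure_image]
    have h1 : x.1 ∈ closure (Submodule.span ℝ (Set.range tau) : Set _) := x.2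
    refine closure_mono ?_ h1
    intro v hv
    have h2 : v ∈ Submodule.map JL.subtype (Submodule.span ℝ (Set.range
        fun p : (ℕ → Bool) × ℕ => (⟨tau (p.1, p.2), tau_mem _⟩ : JL))) := by
      rw [Submodule.map_span, ← Set.range_comp]
      exact hv
    exact h2

end Pool.Agent.H2.Ev
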