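import Mathlib

/-! Block decomposition of Lebesgue spaces on the line along dilation invariant sets. -/

namespace Pool.Agent.H2.Fb

open Set Filter Topology MeasureTheory
open scoped ENNReal

noncomputable abbrev L (p : ℝ≥0∞) := Lp ℝ p (volume : Measure ℝ)

variable {p : ℝ≥0∞} [Fact (1 ≤ p)]

lemma exOp (Φ : L p → ℝ → ℝ) (C : ℝ) (hC : 0 ≤ C) (hm : ∀ f, AEStronglyMeasurable (Φ f) volume)
    (hb : ∀ f, eLpNorm (Φ f) p volume ≤ ENNReal.ofReal C * ‖f‖ₑ)
    (hadd : ∀ f g, Φ (f + g) =ᵐ[volume] Φ f + Φ g)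
    (hsm : ∀ (c : ℝ) f, Φ (c • f) =ᵐ[volume] c • Φ f) :
    ∃ A : L p →L[ℝ] L p, (∀ f, A f =ᵐ[volume] Φ f) ∧ ‖A‖ ≤ C := by
  have mem : ∀ f, MemLp (Φ f) p volume := fun f =>
    ⟨hm f, (hb f).trans_lt (ENNReal.mul_lt_top ENNReal.ofReal_lt_top enorm_lt_top)⟩
  let A : L p →ₗ[ℝ] L p :=
    { toFun := fun f => (mem f).toLp _
      map_add' := fun f g => by
        rw [← MemLp.toLp_add]; exact MemLp.toLp_congr _ _ (hadd f g)
      map_smul' := fun c f => by
        rw [RingHom.id_apply, ← MemLp.toLp_const_smul]; exact MemLp.toLp_congr _ _ (hsm c f) }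
  have bd : ∀ f, ‖A f‖ ≤ C * ‖f‖ := by
    intro f
    show ‖(mem f).toLp _‖ ≤ _
    rw [Lp.norm_toLp]
    refine (ENNReal.toReal_mono (ENNReal.mul_ne_top ENNReal.ofReal_ne_top enorm_ne_top)
      (hb f)).trans_eq ?_
    rw [ENNReal.toReal_mul, ENNReal.toReal_ofReal hC, toReal_enorm]
  exact ⟨A.mkContinuous C bd, fun f => (mem f).coeFn_toLp, A.mkContinuous_norm_le hC bd⟩

noncomputable def N (x : ℝ) : ℕ := ⌊1 / Int.fract (Real.logb 4 x)⌋₊

lemma N_meas : Measurable N := by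
  unfold N Real.logb
  exact Nat.measurable_floor.comp (measurable_const.div
    (measurable_fract.comp (Real.measurable_log.div_const _)))

lemma N_mul (x : ℝ) : N (4 * x) = N x := by
  by_cases h : x = 0
  · simp [h]
  · unfold N
    rw [Real.logb_mul (by norm_num) h, Real.logb_self_eq_one (by norm_num), Int.fract_one_add]

lemma N_div (x : ℝ) : N (4⁻¹ * x) = N x := by
  rw [← N_mul]; congr 1; ring

def B (n : ℕ) : Set ℝ := N ⁻¹' {n}

lemma B_meas (n : ℕ) : MeasurableSet (B n) := N_meas (measurableSet_singleton n)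

lemma B_big (n : ℕ) (hn : 0 < n) : ∃ a b : ℝ, a < b ∧ Ioo a b ⊆ B n := by
  have hn' : (1 : ℝ) ≤ n := by exact_mod_cast hn
  refine ⟨4 ^ (1 / (n + 1) : ℝ), 4 ^ (1 / n : ℝ), Real.rpow_lt_rpow_of_exponent_lt (by norm_num)
    (one_div_lt_one_div_of_lt (by linarith) (by linarith)), fun x hx => ?_⟩
  have hx0 : 0 < x := lt_trans (by positivity) hx.1
  have h1 : 1 / (n + 1 : ℝ) < Real.logb 4 x :=
    (Real.lt_logb_iff_rpow_lt (by norm_num) hx0).2 hx.1
  have h2 : Real.logb 4 x < 1 / (n : ℝ) := (Real.logb_lt_iff_lt_rpow (by norm_num) hx0).2 hx.2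
  have h0 : 0 < Real.logb 4 x := lt_trans (by positivity) h1
  have h3 : Real.logb 4 x < 1 := h2.trans_le ((div_le_one (by linarith)).2 hn')
  show N x = n
  unfold N
  rw [Int.fract_eq_self.2 ⟨h0.le, h3⟩, Nat.floor_eq_iff (by positivity)]
  rw [div_lt_iff₀ (by linarith)] at h1
  rw [lt_div_iff₀ (by linarith)] at h2
  constructor
  · rw [le_div_iff₀ h0]; linarith
  · rw [div_lt_iff₀ h0]; linarith

lemma lint_split (g : ℝ → ℝ≥0∞) : ∫⁻ x, g x = ∑' n, ∫⁻ x in B n, g x := by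
  rw [← lintegral_iUnion B_meas (fun i j h => Disjoint.preimage N (disjoint_singleton.2 h))]
  have : ⋃ n, B n = univ := eq_univ_of_forall fun x => mem_iUnion.2 ⟨N x, rfl⟩
  rw [this, Measure.restrict_univ]

lemma r_pos (hp : p ≠ ∞) : 0 < p.toReal :=
  ENNReal.toReal_pos (zero_lt_one.trans_le Fact.out).ne' hp

lemma pow_eq (hp : p ≠ ∞) (g : ℝ → ℝ) (μ : Measure ℝ) :
    eLpNorm g p μ ^ p.toReal = ∫⁻ x, ‖g x‖ₑ ^ p.toReal ∂μ := by
  rw [eLpNorm_eq_lintegral_rpow_enorm_toReal (zero_lt_one.trans_le Fact.out).ne' hp,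
    ← ENNReal.rpow_mul, one_div, inv_mul_cancel₀ (r_pos hp).ne', ENNReal.rpow_one]

lemma raw_split (hp : p ≠ ∞) (g : ℝ → ℝ) : eLpNorm g p volume ^ p.toReal =
    ∑' n, eLpNorm ((B n).indicator g) p volume ^ p.toReal := by
  rw [pow_eq hp, lint_split]
  congr 1; funext n
  rw [eLpNorm_indicator_eq_eLpNorm_restrict (B_meas n), pow_eq hp]

lemma exE (n : ℕ) : ∃ A : L p →L[ℝ] L p, (∀ f, A f =ᵐ[volume] (B n).indicator f) ∧ ‖A‖ ≤ 1 := by
  refine exOp (fun f => (B n).indicator f) 1 zero_le_one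
    (fun f => (Lp.aestronglyMeasurable f).indicator (B_meas n)) (fun f => ?_) (fun f g => ?_)
    (fun c f => ?_)
  · simpa [Lp.enorm_def] using eLpNorm_indicator_le _
  · filter_upwards [Lp.coeFn_add f g] with x hx
    by_cases h : x ∈ B n
    · simp only [indicator_of_mem h, Pi.add_apply, hx]
    · simp [h]
  · filter_upwards [Lp.coeFn_smul c f] with x hx
    by_cases h : x ∈ B n <;> simp [h, hx]

noncomputable def E (n : ℕ) : L p →L[ℝ] L p := (exE n).choose

lemma E_coe (n : ℕ) (f : L p) : E n f =ᵐ[volume] (B n).indicator f := (exE n).choose_spec.1 f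

lemma E_le (n : ℕ) (f : L p) : ‖E n f‖ ≤ ‖f‖ :=
  ((E n).le_opNorm f).trans (mul_le_of_le_one_left (norm_nonneg _) (exE n).choose_spec.2)

lemma E_E (m n : ℕ) (f : L p) : E m (E n f) = if m = n then E n f else 0 := by
  ext1
  split_ifs with h
  · subst h
    filter_upwards [E_coe m (E m f), E_coe m f] with x h1 h2
    by_cases h : x ∈ B m <;> simp [h, h1, h2]
  · filter_upwards [E_coe m (E n f), E_coe n f, Lp.coeFn_zero ℝ p volume] with x h1 h2 h3
    rw [h1, h3]
    by_cases hm : x ∈ B m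
    · have : x ∉ B n := fun hn => h ((show N x = m from hm).symm.trans hn)
      simp [hm, h2, this]
    · simp [hm]

lemma ae_of_blocks {f g : ℝ → ℝ}
    (h : ∀ n, (B n).indicator f =ᵐ[volume] (B n).indicator g) : f =ᵐ[volume] g := by
  filter_upwards [ae_all_iff.2 h] with x hx
  have : x ∈ B (N x) := rfl
  simpa [this] using hx (N x)

lemma E_ext {f g : L p} (h : ∀ n, E n f = E n g) : f = g :=
  Lp.ext (ae_of_blocks fun n => (E_coe n f).symm.trans (h n ▸ E_coe n g))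

lemma E_split (hp : p ≠ ∞) (f : L p) : ‖f‖ₑ ^ p.toReal = ∑' n, ‖E n f‖ₑ ^ p.toReal := by
  rw [Lp.enorm_def, raw_split hp]
  congr 1; funext n
  rw [Lp.enorm_def, eLpNorm_congr_ae (E_coe n f)]

lemma E_hasSum (hp : p ≠ ∞) (f : L p) :
    HasSum (fun n => ‖E n f‖ ^ p.toReal) (‖f‖ ^ p.toReal) := by
  have h := E_split hp f
  have h1 : ∑' n, ‖E n f‖ₑ ^ p.toReal ≠ ∞ := by
    rw [← h]; exact ENNReal.rpow_ne_top_of_nonneg (r_pos hp).le enorm_ne_top
  have h2 := ENNReal.hasSum_toReal h1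
  rw [← ENNReal.tsum_toReal_eq (fun n => ENNReal.rpow_ne_top_of_nonneg (r_pos hp).le enorm_ne_top),
    ← h] at h2
  simpa [← ENNReal.toReal_rpow] using h2

lemma blockwise (hp : p ≠ ∞) {ι : Type*} {l : Filter ι} (g : ι → L p) (f : L p) (C : ℝ)
    (hC : 0 ≤ C) (h0 : ∀ n, Tendsto (fun t => E n (g t)) l (𝓝 0))
    (hb : ∀ᶠ t in l, ∀ n, ‖E n (g t)‖ ≤ C * ‖E n f‖) : Tendsto g l (𝓝 0) := by
  have r := r_pos hp
  have h1 : Tendsto (fun t => ∑' n, ‖E n (g t)‖ ^ p.toReal) l (𝓝 (∑' _ : ℕ, (0 : ℝ))) := by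
    refine tendsto_tsum_of_dominated_convergence
      (bound := fun n => C ^ p.toReal * ‖E n f‖ ^ p.toReal)
      ((E_hasSum hp f).summable.mul_left _) (fun n => ?_) ?_
    · have := (h0 n).norm.rpow_const (Or.inr r.le)
      rwa [norm_zero, Real.zero_rpow r.ne'] at this
    · filter_upwards [hb] with t ht n
      rw [Real.norm_of_nonneg (by positivity), ← Real.mul_rpow hC (norm_nonneg _)]
      exact Real.rpow_le_rpow (norm_nonneg _) (ht n) r.le
  simp only [(E_hasSum hp _).tsum_eq, tsum_zero] at h1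
  have h2 := h1.rpow_const (p := p.toReal⁻¹) (Or.inr (by positivity))
  rw [Real.zero_rpow (by positivity)] at h2
  rw [tendsto_zero_iff_norm_tendsto_zero]
  simpa [Real.rpow_rpow_inv (norm_nonneg _) r.ne'] using h2

lemma E_sum (hp : p ≠ ∞) (f : L p) : HasSum (fun n => E n f) f := by
  classical
  have key : ∀ (S : Finset ℕ) m, E m (∑ n ∈ S, E n f - f) = if m ∈ S then 0 else -E m f := by
    intro S m
    simp only [map_sub, map_sum, E_E, Finset.sum_ite_eq]
    split_ifs <;> simp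
  have := blockwise hp (l := atTop) (fun S : Finset ℕ => ∑ n ∈ S, E n f - f) f 1 zero_le_one
    (fun m => tendsto_const_nhds.congr' (by
      filter_upwards [eventually_ge_atTop {m}] with S hS
      rw [key, if_pos (hS (Finset.mem_singleton_self m))]))
    (Eventually.of_forall fun S m => by rw [key]; split_ifs <;> simp)
  exact tendsto_sub_nhds_zero_iff.1 this

lemma exGlue (hp : p ≠ ∞) (A : ℕ → L p →L[ℝ] L p) (C : ℝ) (hC : 0 ≤ C) (hA : ∀ n, ‖A n‖ ≤ C)
    (hc : ∀ n, Commute (E n) (A n)) : ∃ G : L p →L[ℝ] L p,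
      (∀ n f, E n (G f) = A n (E n f)) ∧ ‖G‖ ≤ C := by
  have hc' : ∀ n f, E n (A n f) = A n (E n f) := fun n f => congrArg (· f) (hc n).eq
  have ind : ∀ n (f : L p), (B n).indicator (fun x => A (N x) f x) = (B n).indicator (A n f) :=
    fun n f => indicator_congr fun x hx => by rw [show N x = n from hx]
  refine Exists.imp (fun G hG => ⟨fun n f => ?_, hG.2⟩)
    (exOp (fun f x => A (N x) f x) C hC (fun f => ?_) (fun f => ?_)
    (fun f g => ?_) (fun c f => ?_))
  · have h1 := hG.1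
    rw [← hc']
    refine Lp.ext ((E_coe _ _).trans (EventuallyEq.trans ?_ (E_coe _ _).symm))
    rw [← ind]
    filter_upwards [h1 f] with x hx
    by_cases h : x ∈ B n <;> simp [h, hx]
  · have : Measurable fun y : ℝ × ℕ => A y.2 f y.1 :=
      measurable_from_prod_countable_left fun n => (Lp.stronglyMeasurable (A n f)).measurable
    exact (this.comp (measurable_id.prodMk N_meas)).aestronglyMeasurable
  · refine (ENNReal.rpow_le_rpow_iff (r_pos hp)).1 ?_
    rw [raw_split hp, ENNReal.mul_rpow_of_nonneg _ _ (r_pos hp).le, E_split hp,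
      ← ENNReal.tsum_mul_left]
    refine ENNReal.tsum_le_tsum fun n => ?_
    rw [← ENNReal.mul_rpow_of_nonneg _ _ (r_pos hp).le, ind, ← eLpNorm_congr_ae (E_coe n _),
      ← Lp.enorm_def, hc']
    refine ENNReal.rpow_le_rpow ?_ (r_pos hp).le
    rw [← ofReal_norm_eq_enorm, ← ofReal_norm_eq_enorm, ← ENNReal.ofReal_mul hC]
    exact ENNReal.ofReal_le_ofReal (((A n).le_opNorm _).trans
      (mul_le_mul_of_nonneg_right (hA n) (norm_nonneg _)))
  · filter_upwards [ae_all_iff.2 fun n => Lp.coeFn_add (A n f) (A n g)] with x hx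
    simpa using hx (N x)
  · filter_upwards [ae_all_iff.2 fun n => Lp.coeFn_smul c (A n f)] with x hx
    simpa using hx (N x)

end Pool.Agent.H2.Fb
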