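import Pool.Agent.H2.FbA

/-! The biased dilation walk and its semigroup. -/

namespace Pool.Agent.H2.Fb

open Set Filter Topology MeasureTheory
open scoped ENNReal RealInnerProductSpace Nat

variable {p : ℝ≥0∞} [Fact (1 ≤ p)]

lemma qmp {a : ℝ} (ha : 0 < a) :
    Measure.QuasiMeasurePreserving (fun x : ℝ => a * x) volume volume :=
  ⟨measurable_const_mul a, by
    rw [Real.map_volume_mul_left ha.ne']; exact Measure.smul_absolutelyContinuous⟩

lemma exD {a : ℝ} (ha : 0 < a) : ∃ A : L p →L[ℝ] L p,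
    (∀ f, A f =ᵐ[volume] fun x => f (a * x)) ∧ ‖A‖ ≤ a⁻¹ ^ (1 / p).toReal := by
  refine exOp (fun f x => f (a * x)) _ (by positivity)
    (fun f => (Lp.aestronglyMeasurable f).comp_quasiMeasurePreserving (qmp ha)) (fun f => ?_)
    (fun f g => (qmp ha).ae_eq_comp (Lp.coeFn_add f g))
    (fun c f => (qmp ha).ae_eq_comp (Lp.coeFn_smul c f))
  have := eLpNorm_map_measure (p := p) (μ := volume) (f := fun x : ℝ => a * x) (g := f)
    (Lp.stronglyMeasurable f).aestronglyMeasurable (measurable_const_mul a).aemeasurable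
  rw [show (fun x => f (a * x)) = f ∘ fun x : ℝ => a * x from rfl, ← this,
    Real.map_volume_mul_left ha.ne', eLpNorm_smul_measure_of_ne_zero (by simpa using ha.ne'),
    abs_of_pos (inv_pos.2 ha), ENNReal.ofReal_rpow_of_pos (inv_pos.2 ha), Lp.enorm_def,
    smul_eq_mul]

noncomputable def D (a : ℝ) (ha : 0 < a) : L p →L[ℝ] L p := (exD ha).choose

lemma D_coe {a : ℝ} (ha : 0 < a) (f : L p) : D a ha f =ᵐ[volume] fun x => f (a * x) :=
  (exD ha).choose_spec.1 f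

lemma D_norm {a : ℝ} (ha : 0 < a) : ‖(D a ha : L p →L[ℝ] L p)‖ ≤ a⁻¹ ^ (1 / p).toReal :=
  (exD ha).choose_spec.2

lemma h4 : (0 : ℝ) < 4 := by norm_num
lemma h4' : (0 : ℝ) < 4⁻¹ := by norm_num

noncomputable def P : L p →L[ℝ] L p := (4/5 : ℝ) • D 4 h4 + (1/5 : ℝ) • D 4⁻¹ h4'

lemma P_coe (f : L p) : P f =ᵐ[volume] fun x => 4/5 * f (4 * x) + 1/5 * f (4⁻¹ * x) := by
  have h1 := D_coe h4 f
  have h2 := D_coe h4' f
  unfold P
  set A : L p →L[ℝ] L p := D 4 h4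
  set A' : L p →L[ℝ] L p := D 4⁻¹ h4'
  filter_upwards [h1, h2, Lp.coeFn_add ((4/5 : ℝ) • A f) ((1/5 : ℝ) • A' f),
    Lp.coeFn_smul (4/5 : ℝ) (A f), Lp.coeFn_smul (1/5 : ℝ) (A' f)] with x a1 a2 a3 a4 a5
  rw [ContinuousLinearMap.add_apply, ContinuousLinearMap.smul_apply,
    ContinuousLinearMap.smul_apply, a3, Pi.add_apply, a4, a5, Pi.smul_apply, Pi.smul_apply, a1, a2]
  rfl

lemma P_norm : ‖(P : L p →L[ℝ] L p)‖ ≤
    4/5 * (4 ^ (1 / p).toReal)⁻¹ + 1/5 * 4 ^ (1 / p).toReal := by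
  have h1 := D_norm (p := p) h4
  have h2 := D_norm (p := p) h4'
  rw [Real.inv_rpow (by norm_num)] at h1
  rw [inv_inv] at h2
  refine (norm_add_le _ _).trans ?_
  rw [norm_smul, norm_smul, Real.norm_of_nonneg (by norm_num), Real.norm_of_nonneg (by norm_num)]
  gcongr

lemma P_le : ‖(P : L p →L[ℝ] L p)‖ ≤ 1 := by
  refine P_norm.trans ?_
  set y := (4 : ℝ) ^ (1 / p).toReal
  have h1 : 1 ≤ y := Real.one_le_rpow (by norm_num) ENNReal.toReal_nonneg
  have h2 : y ≤ 4 := by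
    have : (1 / p).toReal ≤ 1 := by
      refine ENNReal.toReal_le_of_le_ofReal zero_le_one ?_
      simpa using (Fact.out : 1 ≤ p)
    exact (Real.rpow_le_rpow_of_exponent_le (by norm_num : (1 : ℝ) ≤ 4) this).trans_eq
      (Real.rpow_one 4)
  have : 4/5 * y⁻¹ ≤ 1 - 1/5 * y := by
    rw [← div_eq_mul_inv, div_le_iff₀ (by linarith)]; nlinarith
  linarith

lemma P_two : ‖(P : L 2 →L[ℝ] L 2)‖ ≤ 4/5 := by
  refine P_norm.trans ?_
  have : (4 : ℝ) ^ (1 / (2 : ℝ≥0∞)).toReal = 2 := by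
    rw [show (1 / (2 : ℝ≥0∞)).toReal = 1 / 2 by simp, ← Real.sqrt_eq_rpow,
      show (4 : ℝ) = 2 ^ 2 by norm_num, Real.sqrt_sq (by norm_num)]
  rw [this]; norm_num

lemma q4 : Measure.QuasiMeasurePreserving (fun x : ℝ => 4 * x) volume volume := qmp (by norm_num)
lemma q4' : Measure.QuasiMeasurePreserving (fun x : ℝ => 4⁻¹ * x) volume volume :=
  qmp (by norm_num)

lemma E_P (n : ℕ) : Commute (E n : L p →L[ℝ] L p) P := by
  ext1 f
  refine Lp.ext ?_
  filter_upwards [E_coe n (P f), P_coe f, P_coe (E n f), q4.ae (E_coe n f), q4'.ae (E_coe n f)]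
    with x h1 h2 h3 h4 h5
  show E n (P f) x = P (E n f) x
  rw [h1, h3, h4, h5]
  have a1 : 4 * x ∈ B n ↔ x ∈ B n := by simp only [B, mem_preimage, N_mul]
  have a2 : 4⁻¹ * x ∈ B n ↔ x ∈ B n := by simp only [B, mem_preimage, N_div]
  by_cases h : x ∈ B n
  · rw [indicator_of_mem h, indicator_of_mem (a1.2 h), indicator_of_mem (a2.2 h), h2]
  · rw [indicator_of_notMem h, indicator_of_notMem (mt a1.1 h), indicator_of_notMem (mt a2.1 h)]
    simp

lemma P_int (f : L 1) : ∫ x, P f x = ∫ x, f x := by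
  have hf := L1.integrable_coeFn f
  rw [integral_congr_ae (P_coe f), integral_add ((hf.comp_mul_left' (by norm_num)).const_mul _)
    ((hf.comp_mul_left' (by norm_num)).const_mul _), integral_const_mul, integral_const_mul,
    Measure.integral_comp_mul_left, Measure.integral_comp_mul_left]
  norm_num
  ring

lemma D_adj {a : ℝ} (ha : 0 < a) (A A' : L 2 →L[ℝ] L 2)
    (hA : ∀ f, A f =ᵐ[volume] fun x => f (a * x)) (hA' : ∀ f, A' f =ᵐ[volume] fun x => f (a⁻¹ * x))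
    (f g : L 2) : ⟪A f, g⟫ = a⁻¹ * ⟪f, A' g⟫ := by
  rw [L2.inner_def, L2.inner_def]
  have h1 : ∫ x, ⟪A f x, g x⟫ = ∫ x, (fun y => f y * g (a⁻¹ * y)) (a * x) := by
    refine integral_congr_ae ?_
    filter_upwards [hA f] with x hx
    simp only [hx, inv_mul_cancel_left₀ ha.ne']
    simp [mul_comm]
  have h2 : ∫ x, ⟪f x, A' g x⟫ = ∫ y, f y * g (a⁻¹ * y) := by
    refine integral_congr_ae ?_
    filter_upwards [hA' g] with x hx
    simp [hx, mul_comm]
  rw [h1, h2, Measure.integral_comp_mul_left (fun y => f y * g (a⁻¹ * y)),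
    abs_of_pos (inv_pos.2 ha), smul_eq_mul]

lemma P_sa : IsSelfAdjoint (P : L 2 →L[ℝ] L 2) := by
  rw [ContinuousLinearMap.isSelfAdjoint_iff_isSymmetric]
  intro f g
  have h1 := D_coe (p := 2) h4
  have h2 := D_coe (p := 2) h4'
  have a1 := D_adj (by norm_num) _ _ h1 h2 f g
  have a2 := D_adj (by norm_num) _ _ h2 (by simpa using h1) f g
  simp only [P, ContinuousLinearMap.coe_coe, ContinuousLinearMap.add_apply,
    ContinuousLinearMap.smul_apply, inner_add_left, inner_add_right, real_inner_smul_left,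
    real_inner_smul_right, a1, a2]
  ring

lemma E_sym (n : ℕ) (f g : L 2) : ⟪E n f, g⟫ = ⟪f, E n g⟫ := by
  rw [L2.inner_def, L2.inner_def]
  refine integral_congr_ae ?_
  filter_upwards [E_coe n f, E_coe n g] with x h1 h2
  rw [h1, h2]
  by_cases h : x ∈ B n <;> simp [h]

noncomputable def X (s : ℝ) : L p →L[ℝ] L p := NormedSpace.exp (s • P)

lemma X_sum (s : ℝ) : HasSum (fun k : ℕ => (s ^ k / k !) • (P : L p →L[ℝ] L p) ^ k) (X s) := by
  have := NormedSpace.exp_series_hasSum_exp' (𝕂 := ℝ) (s • (P : L p →L[ℝ] L p))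
  simp only [smul_pow, smul_smul, ← div_eq_inv_mul] at this
  exact this

lemma exp_sum (s : ℝ) : HasSum (fun k : ℕ => s ^ k / k !) (Real.exp s) := by
  rw [Real.exp_eq_exp_ℝ]; exact NormedSpace.expSeries_div_hasSum_exp s

lemma X_norm {s c : ℝ} (hs : 0 ≤ s) (hc : ‖(P : L p →L[ℝ] L p)‖ ≤ c) :
    ‖(X s : L p →L[ℝ] L p)‖ ≤ Real.exp (s * c) := by
  refine (X_sum s).norm_le_of_bounded (exp_sum (s * c)) fun k => ?_
  rw [norm_smul, Real.norm_of_nonneg (by positivity), mul_pow, mul_div_right_comm]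
  refine mul_le_mul_of_nonneg_left ?_ (by positivity)
  rcases Nat.eq_zero_or_pos k with rfl | hk
  · rw [pow_zero, pow_zero]; exact ContinuousLinearMap.norm_id_le
  · exact (norm_pow_le' _ hk).trans (pow_le_pow_left₀ (norm_nonneg _) hc k)

lemma X_lim (s : ℝ) (f : L p) : Tendsto (fun K => ∑ k ∈ Finset.range K,
    (s ^ k / k !) • ((P : L p →L[ℝ] L p) ^ k) f) atTop (𝓝 (X s f)) := by
  simpa using ((X_sum s).mapL (ContinuousLinearMap.apply ℝ (L p) f)).tendsto_sum_nat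

lemma part_coe (s : ℝ) (f : L p) (K : ℕ) : (∑ k ∈ Finset.range K,
    (s ^ k / k !) • ((P : L p →L[ℝ] L p) ^ k) f : L p) =ᵐ[volume]
    fun x => ∑ k ∈ Finset.range K, (s ^ k / k !) * ((P : L p →L[ℝ] L p) ^ k) f x := by
  induction K with
  | zero => exact Lp.coeFn_zero ℝ p volume
  | succ K ih =>
    simp only [Finset.sum_range_succ]
    filter_upwards [ih, Lp.coeFn_add (∑ k ∈ Finset.range K,
      (s ^ k / k !) • ((P : L p →L[ℝ] L p) ^ k) f) ((s ^ K / K !) • ((P : L p →L[ℝ] L p) ^ K) f),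
      Lp.coeFn_smul (s ^ K / K !) (((P : L p →L[ℝ] L p) ^ K) f)] with x h1 h2 h3
    rw [h2, Pi.add_apply, h1, h3]; rfl

lemma X_cons {q : ℝ≥0∞} [Fact (1 ≤ q)] (s : ℝ) (f : L p) (g : L q) (h : f =ᵐ[volume] g) :
    X s f =ᵐ[volume] X s g := by
  have hk : ∀ k : ℕ, ((P : L p →L[ℝ] L p) ^ k) f =ᵐ[volume] ((P : L q →L[ℝ] L q) ^ k) g := by
    intro k
    induction k with
    | zero => exact h
    | succ k ih =>
      rw [pow_succ', pow_succ']
      filter_upwards [P_coe ((P ^ k) f), P_coe ((P ^ k) g), q4.ae ih, q4'.ae ih] with x a b c d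
      rw [ContinuousLinearMap.mul_apply, ContinuousLinearMap.mul_apply, a, b, c, d]
  refine tendstoInMeasure_ae_unique (tendstoInMeasure_of_tendsto_Lp (X_lim s f))
    ((tendstoInMeasure_of_tendsto_Lp (X_lim s g)).congr_left fun K => ?_)
  filter_upwards [part_coe s f K, part_coe s g K, ae_all_iff.2 hk] with x a b c
  rw [a, b]; simp only [c]

lemma X_bd {s : ℝ} (hs : 0 ≤ s) (f : L p) (a b : ℝ) (ha : a ≤ 0) (hb : 0 ≤ b)
    (h : ∀ᵐ x, a ≤ f x ∧ (0 < b → f x ≤ b)) :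
    ∀ᵐ x, Real.exp s * a ≤ X s f x ∧ (0 < b → X s f x ≤ Real.exp s * b) := by
  have hk : ∀ k : ℕ, ∀ᵐ x, a ≤ ((P : L p →L[ℝ] L p) ^ k) f x ∧
      (0 < b → ((P : L p →L[ℝ] L p) ^ k) f x ≤ b) := by
    intro k
    induction k with
    | zero => exact h
    | succ k ih =>
      rw [pow_succ']
      filter_upwards [P_coe ((P ^ k) f), q4.ae ih, q4'.ae ih] with x a b c
      rw [ContinuousLinearMap.mul_apply, a]
      exact ⟨by linarith [b.1, c.1], fun h => by linarith [b.2 h, c.2 h]⟩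
  obtain ⟨ns, -, hns⟩ := (tendstoInMeasure_of_tendsto_Lp (X_lim s f)).exists_seq_tendsto_ae
  filter_upwards [hns, ae_all_iff.2 (part_coe s f), ae_all_iff.2 hk] with x h1 h2 h3
  have e : ∀ K, ∑ k ∈ Finset.range K, s ^ k / k ! ≤ Real.exp s := fun K =>
    sum_le_hasSum _ (fun _ _ => by positivity) (exp_sum s)
  refine ⟨ge_of_tendsto' h1 fun K => ?_, fun hb' => le_of_tendsto' h1 fun K => ?_⟩
  · rw [h2]
    refine (mul_le_mul_of_nonpos_right (e (ns K)) ha).trans ?_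
    rw [Finset.sum_mul]
    exact Finset.sum_le_sum fun k _ => mul_le_mul_of_nonneg_left (h3 k).1 (by positivity)
  · rw [h2]
    refine le_trans ?_ (mul_le_mul_of_nonneg_right (e (ns K)) hb)
    rw [Finset.sum_mul]
    exact Finset.sum_le_sum fun k _ => mul_le_mul_of_nonneg_left ((h3 k).2 hb') (by positivity)

noncomputable def S (s : ℝ) : L p →L[ℝ] L p := Real.exp (-2 * s) • X s

lemma S_zero : (S 0 : L p →L[ℝ] L p) = 1 := by simp [S, X]

lemma S_add (s t : ℝ) : (S (s + t) : L p →L[ℝ] L p) = S s * S t := by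
  let _ : NormedAlgebra ℚ (L p →L[ℝ] L p) := NormedAlgebra.restrictScalars ℚ ℝ _
  simp only [S, X, add_smul, mul_add, Real.exp_add]
  rw [NormedSpace.exp_add_of_commute (((Commute.refl P).smul_left s).smul_right t),
    smul_mul_smul_comm]

lemma S_norm {s c : ℝ} (hs : 0 ≤ s) (hc : ‖(P : L p →L[ℝ] L p)‖ ≤ c) :
    ‖(S s : L p →L[ℝ] L p)‖ ≤ Real.exp (-((2 - c) * s)) := by
  rw [S, norm_smul, Real.norm_of_nonneg (Real.exp_pos _).le]
  refine (mul_le_mul_of_nonneg_left (X_norm hs hc) (Real.exp_pos _).le).trans_eq ?_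
  rw [← Real.exp_add]; congr 1; ring

lemma S_le {s : ℝ} (hs : 0 ≤ s) : ‖(S s : L p →L[ℝ] L p)‖ ≤ 1 :=
  (S_norm hs P_le).trans (Real.exp_le_one_iff.2 (by linarith))

lemma E_S (n : ℕ) (s : ℝ) : Commute (E n : L p →L[ℝ] L p) (S s) :=
  (((E_P n).smul_right s).exp_right).smul_right _

lemma S_sa (s : ℝ) : IsSelfAdjoint (S s : L 2 →L[ℝ] L 2) :=
  (IsSelfAdjoint.all _).smul ((IsSelfAdjoint.all s).smul P_sa).exp

lemma S_deriv (s : ℝ) : HasDerivAt (S : ℝ → L p →L[ℝ] L p) ((P - 2) * S s) s := by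
  have h1 : HasDerivAt (fun s : ℝ => Real.exp (-2 * s)) (Real.exp (-2 * s) * -2) s := by
    simpa using ((hasDerivAt_id s).const_mul (-2)).exp
  refine (h1.smul (hasDerivAt_exp_smul_const' (𝕂 := ℝ) (P : L p →L[ℝ] L p) s)).congr_deriv ?_
  simp only [S, X, sub_mul, mul_smul_comm, two_mul]
  module

lemma S_lip {s : ℝ} (hs : 0 ≤ s) : ‖(S s : L p →L[ℝ] L p) - 1‖ ≤ 3 * s := by
  have := (convex_Ici (0 : ℝ)).norm_image_sub_le_of_norm_hasDerivWithin_le (C := 3)
    (fun x _ => (S_deriv (p := p) x).hasDerivWithinAt) (fun x hx => ?_) (le_refl (0 : ℝ)) hs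
  · simpa [S_zero, abs_of_nonneg hs] using this
  · refine (norm_mul_le _ _).trans ((mul_le_of_le_one_right (norm_nonneg _) (S_le hx)).trans ?_)
    refine (norm_sub_le _ _).trans ?_
    have h2 : ‖(2 : L p →L[ℝ] L p)‖ ≤ 2 := by
      rw [← one_add_one_eq_two]
      have : ‖(1 : L p →L[ℝ] L p)‖ ≤ 1 := ContinuousLinearMap.norm_id_le
      linarith [norm_add_le (1 : L p →L[ℝ] L p) 1]
    linarith [P_le (p := p)]

end Pool.Agent.H2.Fb
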