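import Pool.Agent.H2.FbB

/-! The time changed semigroup, its generator, resolvent and form. -/

namespace Pool.Agent.H2.Fb

open Set Filter Topology MeasureTheory
open scoped ENNReal RealInnerProductSpace

noncomputable def U (p : ℝ≥0∞) [Fact (1 ≤ p)] (t : ℝ) : L p →L[ℝ] L p :=
  if h : p ≠ ∞ ∧ 0 ≤ t then (exGlue h.1 (fun n => S (n * t)) 1 zero_le_one
    (fun n => S_le (mul_nonneg n.cast_nonneg h.2)) fun n => E_S n _).choose else 0

variable {p : ℝ≥0∞} [Fact (1 ≤ p)]

lemma U_spec (hp : p ≠ ∞) {t : ℝ} (ht : 0 ≤ t) :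
    (∀ n f, E n (U p t f) = S (n * t) (E n f)) ∧ ‖U p t‖ ≤ 1 := by
  unfold U
  rw [dif_pos ⟨hp, ht⟩]
  exact (exGlue hp (fun n => S (n * t)) 1 zero_le_one
    (fun n => S_le (mul_nonneg n.cast_nonneg ht)) fun n => E_S n _).choose_spec

lemma EU (hp : p ≠ ∞) {t : ℝ} (ht : 0 ≤ t) (n : ℕ) (f : L p) :
    E n (U p t f) = S (n * t) (E n f) := (U_spec hp ht).1 n f

lemma ES (n : ℕ) (s : ℝ) (f : L p) : E n (S s f) = S s (E n f) := congrArg (· f) (E_S n s).eq

lemma U_coe (hp : p ≠ ∞) {t : ℝ} (ht : 0 ≤ t) (f : L p) :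
    U p t f =ᵐ[volume] fun x => Real.exp (-2 * (N x * t)) * X (N x * t) f x := by
  refine ae_of_blocks fun n => ?_
  have h1 := E_coe n (U p t f)
  rw [EU hp ht, ← ES] at h1
  filter_upwards [h1, E_coe n (S (n * t) f),
    Lp.coeFn_smul (Real.exp (-2 * (n * t))) (X (n * t) f)] with x a b c
  rw [← a, b]
  by_cases h : x ∈ B n
  · rw [indicator_of_mem h, indicator_of_mem h, show N x = n from h]
    exact c
  · simp [h]

lemma U_cons {q : ℝ≥0∞} [Fact (1 ≤ q)] (hp : p ≠ ∞) (hq : q ≠ ∞) {t : ℝ} (ht : 0 ≤ t) (f : L p)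
    (g : L q) (h : f =ᵐ[volume] g) : U p t f =ᵐ[volume] U q t g := by
  filter_upwards [U_coe hp ht f, U_coe hq ht g,
    ae_all_iff.2 fun n : ℕ => X_cons (n * t) f g h] with x a b c
  rw [a, b, c]

lemma U_zero (hp : p ≠ ∞) : U p 0 = 1 := by
  ext1 f
  exact E_ext fun n => by rw [EU hp le_rfl, mul_zero, S_zero]; rfl

lemma U_add (hp : p ≠ ∞) {s t : ℝ} (hs : 0 ≤ s) (ht : 0 ≤ t) : U p (s + t) = U p s * U p t := by
  ext1 f
  refine E_ext fun n => ?_
  rw [ContinuousLinearMap.mul_apply, EU hp (add_nonneg hs ht), EU hp hs, EU hp ht, mul_add, S_add]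
  rfl

lemma U_bd (hp : p ≠ ∞) {t : ℝ} (ht : 0 ≤ t) (f : L p) (a b : ℝ) (ha : a ≤ 0) (hb : 0 ≤ b)
    (h : ∀ᵐ x, a ≤ f x ∧ (0 < b → f x ≤ b)) :
    ∀ᵐ x, a ≤ U p t f x ∧ (0 < b → U p t f x ≤ b) := by
  filter_upwards [U_coe hp ht f, ae_all_iff.2 fun n : ℕ =>
    X_bd (mul_nonneg n.cast_nonneg ht) f a b ha hb h] with x h1 h2
  obtain ⟨h3, h4⟩ := h2 (N x)
  set s : ℝ := N x * t
  have hs : 0 ≤ s := mul_nonneg (N x).cast_nonneg ht
  have e0 := Real.exp_pos (-2 * s)
  have e1 : Real.exp (-2 * s) * Real.exp s ≤ 1 := by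
    rw [← Real.exp_add]; exact Real.exp_le_one_iff.2 (by linarith)
  rw [h1]
  refine ⟨?_, fun hb' => ?_⟩
  · nlinarith [mul_le_mul_of_nonneg_left h3 e0.le]
  · nlinarith [mul_le_mul_of_nonneg_left (h4 hb') e0.le]

lemma U_pos (hp : p ≠ ∞) {t : ℝ} (ht : 0 ≤ t) (f : L p) (hf : 0 ≤ f) : 0 ≤ U p t f := by
  rw [← Lp.coeFn_nonneg] at hf ⊢
  filter_upwards [U_bd hp ht f 0 0 le_rfl le_rfl (by
    filter_upwards [hf] with x hx using ⟨hx, fun h => absurd h (lt_irrefl _)⟩)] with x hx using hx.1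

lemma U_top (hp : p ≠ ∞) {t : ℝ} (ht : 0 ≤ t) (f : L p) (c : ℝ) (hc : 0 < c)
    (hf : ∀ᵐ x, |f x| ≤ c) : ∀ᵐ x, |U p t f x| ≤ c := by
  filter_upwards [U_bd hp ht f (-c) c (by linarith) hc.le (by
    filter_upwards [hf] with x hx using ⟨(abs_le.1 hx).1, fun _ => (abs_le.1 hx).2⟩)]
    with x hx using abs_le.2 ⟨hx.1, hx.2 hc⟩

lemma S_app {s : ℝ} (hs : 0 ≤ s) (f : L p) : ‖S s f‖ ≤ ‖f‖ :=
  ((S s).le_opNorm f).trans (mul_le_of_le_one_left (norm_nonneg _) (S_le hs))

lemma U_cont (hp : p ≠ ∞) (f : L p) : ContinuousOn (fun t => U p t f) (Ici 0) := by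
  intro t0 ht0
  refine tendsto_sub_nhds_zero_iff.1 (blockwise hp _ f 2 zero_le_two (fun n => ?_) ?_)
  · have c : Continuous fun t : ℝ => S (n * t) (E n f) - S (n * t0) (E n f) := by
      have : Continuous (S : ℝ → L p →L[ℝ] L p) :=
        continuous_iff_continuousAt.2 fun s => (S_deriv s).continuousAt
      fun_prop
    have := (c.tendsto t0).mono_left (nhdsWithin_le_nhds (s := Ici 0))
    rw [sub_self] at this
    refine this.congr' ?_
    filter_upwards [self_mem_nhdsWithin] with t ht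
    rw [map_sub, EU hp ht, EU hp ht0]
  · filter_upwards [self_mem_nhdsWithin] with t ht n
    rw [map_sub, EU hp ht, EU hp ht0]
    linarith [norm_sub_le (S (n * t) (E n f)) (S (n * t0) (E n f)),
      S_app (mul_nonneg n.cast_nonneg ht) (E n f), S_app (mul_nonneg n.cast_nonneg ht0) (E n f)]

lemma two_ne : (2 : ℝ≥0∞) ≠ ∞ := ENNReal.ofNat_ne_top

lemma U_sa {t : ℝ} (ht : 0 ≤ t) : IsSelfAdjoint (U 2 t) := by
  rw [ContinuousLinearMap.isSelfAdjoint_iff_isSymmetric]
  intro f g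
  have h1 := (E_sum two_ne (U 2 t f)).mapL (innerSL ℝ g)
  have h2 := (E_sum two_ne (U 2 t g)).mapL (innerSL ℝ f)
  simp only [innerSL_apply_apply] at h1 h2
  show ⟪U 2 t f, g⟫ = ⟪f, U 2 t g⟫
  rw [real_inner_comm]
  refine h1.unique ?_
  convert h2 using 2 with n
  have := (ContinuousLinearMap.isSelfAdjoint_iff_isSymmetric.1 (S_sa (n * t))) (E n f) g
  simp only [ContinuousLinearMap.coe_coe] at this
  rw [EU two_ne ht, EU two_ne ht, real_inner_comm, this, E_sym, ES]

lemma slope (n : ℕ) (h : L p) : Tendsto (fun t : ℝ => t⁻¹ • (S (n * t) h - h)) (𝓝[>] 0)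
    (𝓝 ((n : ℝ) • (P h - (2 : ℝ) • h))) := by
  have d1 : HasDerivAt (fun t : ℝ => (S (n * t) : L p →L[ℝ] L p)) ((n : ℝ) • ((P - 2) * S (n * 0)))
      0 := by
    have := (S_deriv (p := p) (n * 0)).scomp (0 : ℝ) ((hasDerivAt_id (0 : ℝ)).const_mul (n : ℝ))
    rw [mul_one] at this
    exact this
  have d2 := ((ContinuousLinearMap.apply ℝ (L p) h).hasFDerivAt.comp_hasDerivAt 0
    d1).tendsto_slope_zero_right
  rw [two_smul]
  simpa [S_zero, ← one_add_one_eq_two] using d2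

lemma gen_block (hp : p ≠ ∞) {f g : L p}
    (h : Tendsto (fun t : ℝ => t⁻¹ • (U p t f - f)) (𝓝[>] 0) (𝓝 g)) (n : ℕ) :
    E n g = (n : ℝ) • (P (E n f) - (2 : ℝ) • E n f) := by
  refine tendsto_nhds_unique (((E n).continuous.tendsto g).comp h) ((slope n (E n f)).congr' ?_)
  filter_upwards [self_mem_nhdsWithin] with t ht
  simp only [Function.comp, map_smul, map_sub, EU hp (le_of_lt ht)]

lemma P_app (f : L p) : ‖P f‖ ≤ ‖f‖ :=
  (P.le_opNorm f).trans (mul_le_of_le_one_left (norm_nonneg _) P_le)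

lemma low (lam : ℝ) (hl : 0 ≤ lam) (n : ℕ) (h : L p) :
    (lam + n) * ‖h‖ ≤ ‖lam • h - (n : ℝ) • (P h - (2 : ℝ) • h)‖ := by
  have e : lam • h - (n : ℝ) • (P h - (2 : ℝ) • h) = (lam + 2 * n) • h - (n : ℝ) • P h := by module
  have h1 := norm_sub_norm_le ((lam + 2 * n) • h) ((n : ℝ) • P h)
  rw [norm_smul, norm_smul, Real.norm_of_nonneg (by positivity),
    Real.norm_of_nonneg n.cast_nonneg] at h1
  rw [e]
  nlinarith [mul_le_mul_of_nonneg_left (P_app h) (n.cast_nonneg (α := ℝ))]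

lemma V_ind (n : ℕ) (f : L p) :
    (B n).indicator (fun x => (N x : ℝ) * f x) =ᵐ[volume] ((n : ℝ) • E n f : L p) := by
  filter_upwards [Lp.coeFn_smul (n : ℝ) (E n f), E_coe n f] with x a b
  rw [a, Pi.smul_apply, b]
  by_cases h : x ∈ B n
  · rw [indicator_of_mem h, indicator_of_mem h, show N x = n from h]; rfl
  · simp [h]

lemma V_mem (hp : p ≠ ∞) {f g : L p}
    (h : Tendsto (fun t : ℝ => t⁻¹ • (U p t f - f)) (𝓝[>] 0) (𝓝 g)) :
    MemLp (fun x => (N x : ℝ) * f x) p volume := by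
  refine ⟨((measurable_from_top.comp N_meas).aestronglyMeasurable).mul
    (Lp.aestronglyMeasurable f), lt_of_le_of_lt ?_ (enorm_lt_top (x := g))⟩
  refine (ENNReal.rpow_le_rpow_iff (r_pos hp)).1 ?_
  rw [raw_split hp, E_split hp]
  refine ENNReal.tsum_le_tsum fun n => ENNReal.rpow_le_rpow ?_ (r_pos hp).le
  rw [eLpNorm_congr_ae (V_ind n f), ← Lp.enorm_def, ← ofReal_norm_eq_enorm, ← ofReal_norm_eq_enorm]
  refine ENNReal.ofReal_le_ofReal ?_
  have := low 0 le_rfl n (E n f)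
  rw [zero_smul, zero_sub, norm_neg, zero_add, ← gen_block hp h] at this
  rwa [norm_smul, Real.norm_of_nonneg n.cast_nonneg]

lemma exR (lam : ℝ) (hl : 0 < lam) (n : ℕ) : ∃ R : L p →L[ℝ] L p,
    (∀ g, lam • R g - (n : ℝ) • (P (R g) - (2 : ℝ) • R g) = g) ∧
    (∀ h, R (lam • h - (n : ℝ) • (P h - (2 : ℝ) • h)) = h) := by
  have hc : 0 < lam + 2 * n := by positivity
  have hx : ‖(n / (lam + 2 * n) : ℝ) • (P : L p →L[ℝ] L p)‖ < 1 := by
    rw [norm_smul, Real.norm_of_nonneg (by positivity)]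
    refine (mul_le_of_le_one_right (by positivity) P_le).trans_lt ?_
    rw [div_lt_one hc]; linarith [n.cast_nonneg (α := ℝ)]
  set u := Units.oneSub _ hx
  have hu : ∀ h, lam • h - (n : ℝ) • (P h - (2 : ℝ) • h) = (lam + 2 * n) • u.val h := by
    intro h
    show _ = (lam + 2 * n) • (h - (n / (lam + 2 * n) : ℝ) • P h)
    rw [smul_sub (lam + 2 * n), smul_smul, mul_div_cancel₀ _ hc.ne']
    module
  refine ⟨(lam + 2 * n)⁻¹ • u.inv, fun g => ?_, fun h => ?_⟩
  · rw [hu, ContinuousLinearMap.smul_apply, map_smul, smul_smul, mul_inv_cancel₀ hc.ne', one_smul]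
    exact congrArg (· g) u.val_inv
  · rw [hu, ContinuousLinearMap.smul_apply, map_smul, smul_smul, inv_mul_cancel₀ hc.ne', one_smul]
    exact congrArg (· h) u.inv_val

theorem resolvent (lam : ℝ) (hl : 0 < lam) : ∃ W : L 1 →L[ℝ] L 1,
    (∀ g, ∃ f h : L 1, Tendsto (fun t : ℝ => t⁻¹ • (U 1 t f - f)) (𝓝[>] 0) (𝓝 h) ∧
      lam • f - h = g) ∧
    (∀ f h : L 1, Tendsto (fun t : ℝ => t⁻¹ • (U 1 t f - f)) (𝓝[>] 0) (𝓝 h) →
      W (lam • f - h) =ᵐ[volume] fun x => (N x : ℝ) * f x) ∧ ∀ k : ℕ, ‖W ^ k‖ = 1 := by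
  have hp : (1 : ℝ≥0∞) ≠ ∞ := ENNReal.one_ne_top
  choose R hR1 hR2 using exR (p := 1) lam hl
  have Rb : ∀ n g, (lam + n) * ‖R n g‖ ≤ ‖g‖ := fun n g => by
    have := low lam hl.le n (R n g)
    rwa [hR1] at this
  have EP : ∀ n (f : L 1), E n (P f) = P (E n f) := fun n f => congrArg (· f) (E_P n).eq
  have ER : ∀ m n g, E m (R n g) = R n (E m g) := by
    intro m n g
    conv_rhs => rw [← hR1 n g]
    simp only [map_sub (E m), map_smul (E m), EP]
    rw [hR2]
  have nR : ∀ (n : ℕ) g, ‖(n : ℝ) • R n g‖ ≤ ‖g‖ := fun n g => by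
    rw [norm_smul, Real.norm_of_nonneg n.cast_nonneg]
    nlinarith [Rb n g, norm_nonneg (R n g)]
  obtain ⟨G, hG, -⟩ := exGlue hp R lam⁻¹ (by positivity)
    (fun n => ContinuousLinearMap.opNorm_le_bound _ (by positivity) fun g => by
      rw [le_inv_mul_iff₀ hl]
      nlinarith [Rb n g, norm_nonneg (R n g), n.cast_nonneg (α := ℝ)])
    (fun n => ContinuousLinearMap.ext fun g => ER n n g)
  obtain ⟨W, hW, hWn⟩ := exGlue hp (fun n => (n : ℝ) • R n) 1 zero_le_one
    (fun n => ContinuousLinearMap.opNorm_le_bound _ zero_le_one fun g => by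
      rw [one_mul]; exact nR n g)
    (fun n => Commute.smul_right (ContinuousLinearMap.ext fun g => ER n n g) _)
  simp only [ContinuousLinearMap.smul_apply] at hW
  refine ⟨W, fun g => ⟨G g, lam • G g - g, ?_, by abel⟩, fun f h hf => ?_, fun k => ?_⟩
  · have key : ∀ n, E n (lam • G g - g) = (n : ℝ) • (P (E n (G g)) - (2 : ℝ) • E n (G g)) := by
      intro n
      rw [map_sub, map_smul, hG]
      conv_lhs => rw [← hR1 n (E n g)]
      rw [hR2]; abel
    refine tendsto_sub_nhds_zero_iff.1 (blockwise hp _ g 6 (by norm_num) (fun n => ?_) ?_)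
    · refine (tendsto_sub_nhds_zero_iff.2 (slope n (E n (G g)))).congr' ?_
      filter_upwards [self_mem_nhdsWithin] with t ht
      rw [map_sub, key, map_smul, map_sub, EU hp (le_of_lt ht)]
    · filter_upwards [self_mem_nhdsWithin] with t ht n
      have ht' : 0 < t := ht
      rw [map_sub, key, map_smul, map_sub, EU hp ht'.le]
      set h := E n (G g) with hh
      have b0 : (n : ℝ) * ‖h‖ ≤ ‖E n g‖ := by
        have := nR n (E n g)
        rwa [norm_smul, Real.norm_of_nonneg n.cast_nonneg, ← hG] at this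
      have b1 : ‖t⁻¹ • (S (n * t) h - h)‖ ≤ 3 * (n * ‖h‖) := by
        rw [norm_smul, Real.norm_of_nonneg (by positivity), inv_mul_le_iff₀ ht']
        have := ((S (n * t) : L 1 →L[ℝ] L 1) - 1).le_opNorm h
        have h2 := mul_le_mul_of_nonneg_right (S_lip (p := 1) (mul_nonneg n.cast_nonneg ht'.le))
          (norm_nonneg h)
        exact (this.trans h2).trans_eq (by ring)
      have b2 : ‖(n : ℝ) • (P h - (2 : ℝ) • h)‖ ≤ 3 * (n * ‖h‖) := by
        rw [norm_smul, Real.norm_of_nonneg n.cast_nonneg]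
        have := norm_sub_le (P h) ((2 : ℝ) • h)
        rw [norm_smul, Real.norm_of_nonneg zero_le_two] at this
        nlinarith [P_app h, n.cast_nonneg (α := ℝ)]
      linarith [norm_sub_le (t⁻¹ • (S (n * t) h - h)) ((n : ℝ) • (P h - (2 : ℝ) • h))]
  · refine ae_of_blocks fun n => (E_coe n _).symm.trans (EventuallyEq.trans ?_ (V_ind n f).symm)
    rw [hW, map_sub, map_smul, gen_block hp hf, hR2]
  · have up : ‖W ^ k‖ ≤ 1 := by
      rcases Nat.eq_zero_or_pos k with rfl | hk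
      · rw [pow_zero]; exact ContinuousLinearMap.norm_id_le
      · exact (norm_pow_le' _ hk).trans (pow_le_one₀ (norm_nonneg _) hWn)
    refine le_antisymm up ?_
    set I : L 1 →L[ℝ] ℝ := L1.integralCLM with hI
    have Iv : ∀ f : L 1, I f = ∫ x, f x := fun f => by
      rw [hI, ← L1.integral_eq, L1.integral_eq_integral]
    have lowb : ∀ n : ℕ, 0 < n → ((n : ℝ) / (lam + n)) ^ k ≤ ‖W ^ k‖ := by
      intro n hn
      have hn' : (0 : ℝ) < n := by exact_mod_cast hn
      obtain ⟨a, b, hab, hB⟩ := B_big n hn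
      have hμ : volume (Ioo a b) ≠ ∞ := by simp
      set f : L 1 := indicatorConstLp 1 measurableSet_Ioo hμ (1 : ℝ) with hf
      have f1 : ‖f‖ = b - a := by
        rw [hf, norm_indicatorConstLp one_ne_zero hp]; simp [hab.le]
      have f2 : I f = b - a := by
        rw [Iv, hf, integral_indicatorConstLp]; simp [hab.le]
      have f3 : E n f = f := by
        refine Lp.ext ?_
        filter_upwards [E_coe n f, indicatorConstLp_coeFn (p := 1) (hs := measurableSet_Ioo)
          (hμs := hμ) (c := (1 : ℝ))] with x h1 h2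
        rw [h1]
        by_cases h : x ∈ B n
        · exact indicator_of_mem h _
        · rw [indicator_of_notMem h, h2, indicator_of_notMem fun h' => h (hB h')]
      have IR : ∀ g, (lam + n) * I (R n g) = I g := by
        intro g
        conv_rhs => rw [← hR1 n g]
        simp only [map_sub, map_smul, smul_eq_mul]
        rw [Iv (P _), P_int, ← Iv]; ring
      have it : ∀ k : ℕ, E n ((W ^ k) f) = (W ^ k) f ∧
          I ((W ^ k) f) = ((n : ℝ) / (lam + n)) ^ k * (b - a) := by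
        intro k
        induction k with
        | zero => exact ⟨f3, by simpa using f2⟩
        | succ k ih =>
          set g := (W ^ k) f
          have e : W g = (n : ℝ) • R n g := E_ext fun m => by
            rw [hW, map_smul, ER, ← ih.1, E_E]
            split_ifs with h
            · rw [h]
            · simp
          rw [pow_succ', ContinuousLinearMap.mul_apply, e]
          refine ⟨by rw [map_smul, ER, ih.1], ?_⟩
          have := IR g
          rw [ih.2] at this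
          rw [map_smul, smul_eq_mul, pow_succ, (eq_div_iff (by positivity)).2
            ((mul_comm _ _).trans this)]
          field_simp
      have h1 : I ((W ^ k) f) ≤ ‖W ^ k‖ * (b - a) := by
        rw [← f1, Iv]
        refine le_trans ?_ ((W ^ k).le_opNorm f)
        rw [L1.norm_eq_integral_norm]
        exact (le_abs_self _).trans (norm_integral_le_integral_norm fun x => (W ^ k) f x)
      rw [(it k).2] at h1
      exact le_of_mul_le_mul_right h1 (by linarith)
    have lim : Tendsto (fun n : ℕ => ((n : ℝ) / (lam + n)) ^ k) atTop (𝓝 (1 ^ k)) := by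
      simpa [add_comm] using (tendsto_natCast_div_add_atTop lam).pow k
    rw [one_pow] at lim
    exact le_of_tendsto lim (eventually_atTop.2 ⟨1, fun n hn => lowb n hn⟩)

theorem formb (φ : L 2) (Q : ℝ≥0∞)
    (hQ : ∀ t : ℝ, 0 < t → ENNReal.ofReal (t⁻¹ * ⟪φ - U 2 t φ, φ⟫) ≤ Q) (hQ' : Q ≠ ∞) :
    ∫⁻ x, ENNReal.ofReal ((N x : ℝ) * φ x ^ 2) ≤ ENNReal.ofReal (5/6) * Q := by
  have fin : ∀ S : Finset ℕ, ∑ n ∈ S, (n : ℝ) * ‖E n φ‖ ^ 2 ≤ 5/6 * Q.toReal := by
    intro S
    have h1 : ∀ t : ℝ, 0 < t →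
        ∑ n ∈ S, (n : ℝ) / (1 + 6/5 * (n * t)) * ‖E n φ‖ ^ 2 ≤ 5/6 * Q.toReal := by
      intro t ht
      have a1 := (ENNReal.ofReal_le_iff_le_toReal hQ').1 (hQ t ht)
      have a2 := (E_sum two_ne (φ - U 2 t φ)).mapL (innerSL ℝ φ)
      simp only [innerSL_apply_apply] at a2
      have a3 : ∀ n : ℕ, 6/5 * t * ((n : ℝ) / (1 + 6/5 * (n * t)) * ‖E n φ‖ ^ 2) ≤
          ⟪φ, E n (φ - U 2 t φ)⟫ := by
        intro n
        have hs : 0 ≤ (n : ℝ) * t := mul_nonneg n.cast_nonneg ht.le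
        have b0 : E n (φ - U 2 t φ) = E n (E n (φ - U 2 t φ)) := by rw [E_E, if_pos rfl]
        rw [b0, ← E_sym, map_sub, EU two_ne ht.le, inner_sub_right, real_inner_self_eq_norm_sq]
        have b1 := real_inner_le_norm (E n φ) (Fb.S (n * t) (E n φ))
        have b2 := ((Fb.S (n * t)).le_opNorm (E n φ)).trans (mul_le_mul_of_nonneg_right
          (S_norm hs P_two) (norm_nonneg _))
        have b3 : Real.exp (-((2 - 4/5) * (n * t))) ≤ 1 - 6/5 * t * (n / (1 + 6/5 * (n * t))) := by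
          have : 1 - 6/5 * t * (n / (1 + 6/5 * (n * t))) = (1 + 6/5 * ((n : ℝ) * t))⁻¹ := by
            field_simp; ring
          rw [this, Real.exp_neg]
          refine inv_anti₀ (by positivity) ?_
          linarith [Real.add_one_le_exp ((2 - 4/5) * (n * t))]
        have b4 := mul_le_mul_of_nonneg_left (b2.trans (mul_le_mul_of_nonneg_right b3
          (norm_nonneg _))) (norm_nonneg (E n φ))
        nlinarith
      have a4 := sum_le_hasSum S (fun n _ => le_trans (by positivity) (a3 n)) a2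
      have a5 := (Finset.sum_le_sum fun n (_ : n ∈ S) => a3 n).trans a4
      rw [← Finset.mul_sum, real_inner_comm] at a5
      rw [inv_mul_le_iff₀ ht] at a1
      refine le_of_mul_le_mul_left (a := 6/5 * t) ?_ (by positivity)
      linarith
    have c : ContinuousAt (fun t : ℝ =>
        ∑ n ∈ S, (n : ℝ) / (1 + 6/5 * (n * t)) * ‖E n φ‖ ^ 2) 0 :=
      tendsto_finset_sum _ fun n _ => (ContinuousAt.div continuousAt_const (by fun_prop)
        (by simp)).mul continuousAt_const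
    have := le_of_tendsto (c.tendsto.mono_left (nhdsWithin_le_nhds (s := Ioi 0)))
      (eventually_nhdsWithin_of_forall h1)
    simpa using this
  have blk : ∀ n : ℕ, ∫⁻ x in B n, ENNReal.ofReal ((N x : ℝ) * φ x ^ 2) =
      ENNReal.ofReal ((n : ℝ) * ‖E n φ‖ ^ 2) := by
    intro n
    have e1 := pow_eq two_ne (φ : ℝ → ℝ) (volume.restrict (B n))
    rw [← eLpNorm_indicator_eq_eLpNorm_restrict (B_meas n), ← eLpNorm_congr_ae (E_coe n φ),
      ← Lp.enorm_def] at e1
    simp only [ENNReal.toReal_ofNat, ENNReal.rpow_ofNat] at e1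
    rw [ENNReal.ofReal_mul n.cast_nonneg, ENNReal.ofReal_pow (norm_nonneg _), ofReal_norm_eq_enorm,
      e1, ← lintegral_const_mul' _ _ ENNReal.ofReal_ne_top]
    refine setLIntegral_congr_fun (B_meas n) fun x hx => ?_
    rw [show N x = n from hx, ENNReal.ofReal_mul n.cast_nonneg, ← ofReal_norm_eq_enorm,
      ← ENNReal.ofReal_pow (norm_nonneg _), Real.norm_eq_abs, sq_abs]
  rw [lint_split, ENNReal.tsum_eq_iSup_sum]
  refine iSup_le fun S => ?_
  simp only [blk]
  rw [← ENNReal.ofReal_sum_of_nonneg fun n _ => by positivity, ← ENNReal.ofReal_toReal hQ',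
    ← ENNReal.ofReal_mul (by norm_num)]
  exact ENNReal.ofReal_le_ofReal (fin S)

end Pool.Agent.H2.Fb
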