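import Mathlib
open Finset
set_option linter.unusedSectionVars false
namespace Pool.Agent.H2.Fc

variable {V : Type} [Fintype V] [DecidableEq V]

def Om (k : ℕ) (V : Type) [Fintype V] [DecidableEq V] : Finset (Fin k → V) :=
  univ.filter Function.Injective

def ed {k : ℕ} (v : Fin k → V) (i : Fin k) : Sym2 V := s(v i, v (finRotate k i))

def X {k : ℕ} (v : Fin k → V) : Finset (Sym2 V) := univ.image (ed v)

def N (k : ℕ) (e f : Sym2 V) : ℕ := ((Om k V).filter fun v => e ∈ X v ∧ f ∈ X v).card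

lemma dc {α β : Type} (s : Finset α) (t : Finset β) (r : α → β → Prop)
    [∀ a b, Decidable (r a b)] :
    ∑ a ∈ s, (t.filter (fun b => r a b)).card = ∑ b ∈ t, (s.filter (fun a => r a b)).card := by
  simp only [card_filter]; exact sum_comm

lemma rot_ne (j : ℕ) (i : Fin (j+3)) : finRotate (j+3) i ≠ i := by
  rw [finRotate_succ_apply]
  intro h
  have : (1 : Fin (j+3)) = 0 := by simpa using h
  exact absurd this (by simp)

lemma rot_rot_ne (j : ℕ) (i : Fin (j+3)) : finRotate (j+3) (finRotate (j+3) i) ≠ i := by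
  rw [finRotate_succ_apply, finRotate_succ_apply, add_assoc]
  intro h
  have h2 : (1 + 1 : Fin (j+3)) = 0 := by simpa using h
  have := congrArg Fin.val h2
  simp [Fin.val_add] at this
  rw [Nat.mod_eq_of_lt (by omega)] at this
  omega

lemma ed_inj {j : ℕ} {v : Fin (j+3) → V} (hv : Function.Injective v) :
    Function.Injective (ed v) := by
  intro i i' h
  unfold ed at h
  rcases Sym2.eq_iff.1 h with ⟨h1, _⟩ | ⟨h1, h2⟩
  · exact hv h1
  · have h1 := hv h1
    have h2 := hv h2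
    exfalso
    apply rot_rot_ne j i
    rw [h2, ← h1]

lemma card_X_le {k : ℕ} (v : Fin k → V) : (X v).card ≤ k := by
  unfold X
  exact card_image_le.trans (by simp)

lemma sum_le (k : ℕ) (T : Finset (Fin k → V)) (F : Finset (Sym2 V)) :
    ∑ f ∈ F, (T.filter fun v => f ∈ X v).card ≤ k * T.card := by
  rw [dc F T (fun f v => f ∈ X v)]
  calc _ ≤ ∑ v ∈ T, k := sum_le_sum fun v _ =>
          (card_le_card (fun f hf => (mem_filter.1 hf).2)).trans (card_X_le v)
    _ = _ := by simp [mul_comm]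

lemma sumN_le (k : ℕ) (e : Sym2 V) (F : Finset (Sym2 V)) :
    ∑ f ∈ F, N k e f ≤ k * N k e e := by
  have := sum_le k ((Om k V).filter fun v => e ∈ X v ∧ e ∈ X v) F
  refine le_trans (le_of_eq ?_) this
  refine sum_congr rfl fun f _ => ?_
  unfold N
  rw [filter_filter]
  congr 1
  ext v; simp only [mem_filter]; tauto

lemma sumN1_le (k : ℕ) (F : Finset (Sym2 V)) :
    ∑ f ∈ F, N k f f ≤ k * (Om k V).card := by
  have := sum_le k (Om k V) F
  refine le_trans (le_of_eq ?_) this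
  refine sum_congr rfl fun f _ => ?_
  unfold N
  congr 1
  ext v; simp only [mem_filter]; tauto

lemma N_map_le (k : ℕ) (σ : Equiv.Perm V) (e f : Sym2 V) :
    N k e f ≤ N k (e.map σ) (f.map σ) := by
  unfold N
  refine card_le_card_of_injOn (fun v => σ ∘ v) ?_ ?_
  · intro v hv
    simp only [coe_filter, Om, mem_filter, mem_univ, true_and, Set.mem_setOf_eq, X,
      mem_image] at hv ⊢
    obtain ⟨h0, ⟨i, hi⟩, ⟨i', hi'⟩⟩ := hv
    refine ⟨σ.injective.comp h0, ⟨i, ?_⟩, ⟨i', ?_⟩⟩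
    · rw [← hi]; simp [ed]
    · rw [← hi']; simp [ed]
  · intro v _ w _ h
    funext i
    exact σ.injective (congrFun h i)

lemma N_le2 (k : ℕ) {a b a' b' : V} (h : a ≠ b) (h' : a' ≠ b') :
    N k s(a, b) s(a, b) ≤ N k s(a', b') s(a', b') := by
  obtain ⟨σ, hσ⟩ := Equiv.Perm.exists_extending_pair (f := ![a, b]) (g := ![a', b'])
    (by intro i j; fin_cases i <;> fin_cases j <;> simp <;> tauto)
    (by intro i j; fin_cases i <;> fin_cases j <;> simp <;> tauto)
  have h0 := hσ 0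
  have h1 := hσ 1
  simp at h0 h1
  have := N_map_le k σ s(a, b) s(a, b)
  simpa [h0, h1] using this

lemma N_le3 (k : ℕ) {a b c a' b' c' : V} (h : a ≠ b) (h1 : a ≠ c) (h2 : b ≠ c)
    (h' : a' ≠ b') (h1' : a' ≠ c') (h2' : b' ≠ c') :
    N k s(a, b) s(a, c) ≤ N k s(a', b') s(a', c') := by
  obtain ⟨σ, hσ⟩ := Equiv.Perm.exists_extending_pair (f := ![a, b, c]) (g := ![a', b', c'])
    (by intro i j; fin_cases i <;> fin_cases j <;> simp <;> tauto)
    (by intro i j; fin_cases i <;> fin_cases j <;> simp <;> tauto)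
  have h0 := hσ 0
  have h1 := hσ 1
  have h2 := hσ 2
  simp at h0 h1 h2
  have := N_map_le k σ s(a, b) s(a, c)
  simpa [h0, h1, h2] using this

lemma N_le4 (k : ℕ) {a b c d c' d' : V} (h : a ≠ b) (h1 : a ≠ c) (h2 : b ≠ c)
    (h3 : a ≠ d) (h4 : b ≠ d) (h5 : c ≠ d) (h1' : a ≠ c') (h2' : b ≠ c')
    (h3' : a ≠ d') (h4' : b ≠ d') (h5' : c' ≠ d') :
    N k s(a, b) s(c, d) ≤ N k s(a, b) s(c', d') := by
  obtain ⟨σ, hσ⟩ := Equiv.Perm.exists_extending_pair (f := ![a, b, c, d])
    (g := ![a, b, c', d'])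
    (by intro i j; fin_cases i <;> fin_cases j <;> simp <;> tauto)
    (by intro i j; fin_cases i <;> fin_cases j <;> simp <;> tauto)
  have h0 := hσ 0
  have h1 := hσ 1
  have h2 := hσ 2
  have h3 := hσ 3
  simp at h0 h1 h2 h3
  have := N_map_le k σ s(a, b) s(c, d)
  simpa [h0, h1, h2, h3] using this

/-- every cycle through `ab` has a second edge at `a`. -/
lemma second {j : ℕ} {v : Fin (j+3) → V} (hv : Function.Injective v) {a b : V}
    (h : s(a, b) ∈ X v) : ∃ c, c ≠ a ∧ c ≠ b ∧ s(a, c) ∈ X v := by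
  simp only [X, mem_image, mem_univ, true_and] at h ⊢
  obtain ⟨i, hi⟩ := h
  unfold ed at hi
  rcases Sym2.eq_iff.1 hi with ⟨h1, h2⟩ | ⟨h1, h2⟩
  · refine ⟨v ((finRotate (j+3)).symm i), ?_, ?_, (finRotate (j+3)).symm i, ?_⟩
    · rw [← h1]; intro h
      have := hv h
      apply rot_ne j ((finRotate (j+3)).symm i)
      rw [Equiv.apply_symm_apply]; exact this.symm
    · rw [← h2]; intro h
      have := hv h
      apply rot_rot_ne j ((finRotate (j+3)).symm i)
      rw [Equiv.apply_symm_apply]; exact this.symm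
    · unfold ed; rw [Equiv.apply_symm_apply, h1, Sym2.eq_swap]
  · refine ⟨v (finRotate (j+3) (finRotate (j+3) i)), ?_, ?_, finRotate (j+3) i, ?_⟩
    · rw [← h2]; intro h
      exact rot_ne j _ (hv h)
    · rw [← h1]; intro h
      exact rot_rot_ne j _ (hv h)
    · unfold ed; rw [h2]

lemma N1_le_N2 (j : ℕ) {a b c : V} (h : a ≠ b) (h1 : a ≠ c) (h2 : b ≠ c) :
    N (j+3) s(a, b) s(a, b) ≤ (Fintype.card V - 2) * N (j+3) s(a, b) s(a, c) := by
  have hc : (univ \ {a, b} : Finset V).card = Fintype.card V - 2 := by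
    rw [card_univ_diff, card_pair h]
  calc N (j+3) s(a, b) s(a, b)
      ≤ ((univ \ {a, b} : Finset V).biUnion fun d =>
          (Om (j+3) V).filter fun v => s(a, b) ∈ X v ∧ s(a, d) ∈ X v).card := by
        refine card_le_card fun v hv => ?_
        simp only [mem_filter, Om, mem_univ, true_and] at hv
        obtain ⟨d, hd1, hd2, hd⟩ := second hv.1 hv.2.1
        simp only [mem_biUnion, mem_filter, Om, mem_univ, true_and]
        exact ⟨d, by simp [hd1, hd2], hv.1, hv.2.1, hd⟩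
    _ ≤ ∑ d ∈ (univ \ {a, b} : Finset V), N (j+3) s(a, b) s(a, d) := card_biUnion_le
    _ ≤ ∑ d ∈ (univ \ {a, b} : Finset V), N (j+3) s(a, b) s(a, c) := by
        refine sum_le_sum fun d hd => ?_
        simp only [mem_sdiff, mem_univ, mem_insert, mem_singleton, true_and, not_or] at hd
        exact N_le3 _ h (Ne.symm hd.1) (Ne.symm hd.2) h h1 h2
    _ = _ := by rw [sum_const, hc, smul_eq_mul]

lemma N2_le_N1 (k : ℕ) {a b c : V} (h : a ≠ b) (h1 : a ≠ c) (h2 : b ≠ c) :
    (Fintype.card V - 2) * N k s(a, b) s(a, c) ≤ k * N k s(a, b) s(a, b) := by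
  have hc : (univ \ {a, b} : Finset V).card = Fintype.card V - 2 := by
    rw [card_univ_diff, card_pair h]
  have := sumN_le k s(a, b) ((univ \ {a, b} : Finset V).image fun d => s(a, d))
  rw [sum_image (by intro x _ y _ hxy; exact Sym2.congr_right.1 hxy)] at this
  refine le_trans ?_ this
  rw [← hc, ← smul_eq_mul, ← sum_const]
  refine sum_le_sum fun d hd => ?_
  simp only [mem_sdiff, mem_univ, mem_insert, mem_singleton, true_and, not_or] at hd
  exact N_le3 _ h h1 h2 h (Ne.symm hd.1) (Ne.symm hd.2)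

lemma N3_le_N1 (k : ℕ) {a b c d : V} (h : a ≠ b) (h1 : a ≠ c) (h2 : b ≠ c)
    (h3 : a ≠ d) (h4 : b ≠ d) (h5 : c ≠ d) :
    (Fintype.card V - 2).choose 2 * N k s(a, b) s(c, d) ≤ k * N k s(a, b) s(a, b) := by
  have hc : (univ \ {a, b} : Finset V).card = Fintype.card V - 2 := by
    rw [card_univ_diff, card_pair h]
  have := sumN_le k s(a, b) ((univ \ {a, b} : Finset V).offDiag.image Sym2.mk.uncurry)
  refine le_trans ?_ this
  rw [← hc, ← Sym2.card_image_offDiag, ← smul_eq_mul, ← sum_const]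
  refine sum_le_sum fun f hf => ?_
  obtain ⟨⟨x, y⟩, hxy, rfl⟩ := mem_image.1 hf
  simp only [mem_offDiag, mem_sdiff, mem_univ, mem_insert, mem_singleton, true_and,
    not_or] at hxy
  exact N_le4 _ h h1 h2 h3 h4 h5 (Ne.symm hxy.1.1) (Ne.symm hxy.1.2) (Ne.symm hxy.2.1.1)
    (Ne.symm hxy.2.1.2) hxy.2.2

lemma N1_le_Om (k : ℕ) {a b : V} (h : a ≠ b) :
    (Fintype.card V).choose 2 * N k s(a, b) s(a, b) ≤ k * (Om k V).card := by
  have := sumN1_le k ((univ : Finset V).offDiag.image Sym2.mk.uncurry)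
  refine le_trans ?_ this
  rw [← card_univ, ← Sym2.card_image_offDiag, ← smul_eq_mul, ← sum_const]
  refine sum_le_sum fun f hf => ?_
  obtain ⟨⟨x, y⟩, hxy, rfl⟩ := mem_image.1 hf
  simp only [mem_offDiag, mem_univ, true_and] at hxy
  exact N_le2 _ h hxy

/-- any two distinct pairs lie on at most as many cycles as an adjacent couple. -/
lemma N_le_N2 (j : ℕ) (hn : 2 * (j+3) + 3 ≤ Fintype.card V) {a b c : V}
    (h : a ≠ b) (h1 : a ≠ c) (h2 : b ≠ c) {e f : Sym2 V} (he : ¬ e.IsDiag) (hf : ¬ f.IsDiag)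
    (hef : e ≠ f) : N (j+3) e f ≤ N (j+3) s(a, b) s(a, c) := by
  induction e using Sym2.ind with
  | h x y =>
  induction f using Sym2.ind with
  | h z w =>
  simp only [Sym2.mk_isDiag_iff] at he hf
  by_cases hxz : x = z
  · subst hxz
    exact N_le3 _ he hf (fun h => hef (by rw [h])) h h1 h2
  by_cases hxw : x = w
  · subst hxw
    rw [Sym2.eq_swap (a := z)] at hef ⊢
    exact N_le3 _ he (Ne.symm hf) (fun h => hef (by rw [h])) h h1 h2
  by_cases hyz : y = z
  · subst hyz
    rw [Sym2.eq_swap (a := x)]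
    exact N_le3 _ (Ne.symm he) hf hxw h h1 h2
  by_cases hyw : y = w
  · subst hyw
    rw [Sym2.eq_swap (a := x), Sym2.eq_swap (a := z)]
    exact N_le3 _ (Ne.symm he) (Ne.symm hf) hxz h h1 h2
  have A := N3_le_N1 (j+3) he hxz hyz hxw hyw hf
  have B := N1_le_N2 j h h1 h2
  have C := N_le2 (j+3) he h
  obtain ⟨m, hm⟩ : ∃ m, Fintype.card V = m + 3 := ⟨Fintype.card V - 3, by omega⟩
  rw [hm] at A B
  have e1 : m + 3 - 2 = m + 1 := by omega
  rw [e1] at A B
  have e2 : 2 * (m+1).choose 2 = (m+1) * m := by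
    rw [Nat.choose_two_right]
    simp only [Nat.add_sub_cancel]
    exact Nat.mul_div_cancel' (by rw [mul_comm]; exact (Nat.even_mul_succ_self m).two_dvd)
  set P := N (j+3) s(x, y) s(z, w)
  set Q := N (j+3) s(a, b) s(a, c)
  have hk : 2 * (j+3) ≤ m := by omega
  have : (m+1) * m * P ≤ (m+1) * m * Q := by
    calc (m+1) * m * P = 2 * ((m+1).choose 2 * P) := by rw [← e2]; ring
      _ ≤ 2 * ((j+3) * ((m+1) * Q)) :=
          Nat.mul_le_mul_left 2 (A.trans (Nat.mul_le_mul_left _ (C.trans B)))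
      _ = (m+1) * (2 * (j+3)) * Q := by ring
      _ ≤ _ := by gcongr
  exact Nat.le_of_mul_le_mul_left this (Nat.mul_pos (by omega) (by omega))

end Pool.Agent.H2.Fc
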