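import Pool.Agent.H2.FcA
open Finset
set_option linter.unusedSectionVars false
namespace Pool.Agent.H2.Fc

variable {V : Type} [Fintype V] [DecidableEq V]

def cc {k : ℕ} (E : Finset (Sym2 V)) (v : Fin k → V) : ℕ := (E.filter fun e => e ∈ X v).card

def F (k : ℕ) (E : Finset (Sym2 V)) : ℕ := ((Om k V).filter fun v => Odd (cc E v)).card

lemma sum_cc (k : ℕ) (E : Finset (Sym2 V)) :
    ∑ v ∈ Om k V, cc E v = ∑ e ∈ E, N k e e := by
  unfold cc
  rw [dc (Om k V) E (fun v e => e ∈ X v)]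
  refine sum_congr rfl fun e _ => ?_
  unfold N; congr 1; ext v; simp

lemma sum_cc2 (k : ℕ) (E : Finset (Sym2 V)) :
    ∑ v ∈ Om k V, (cc E v * cc E v - cc E v) = ∑ p ∈ E.offDiag, N k p.1 p.2 := by
  unfold N
  rw [← dc (Om k V) E.offDiag (fun v p => p.1 ∈ X v ∧ p.2 ∈ X v)]
  refine sum_congr rfl fun v _ => ?_
  unfold cc
  rw [← offDiag_card]
  congr 1
  ext p; simp only [mem_offDiag, mem_filter]; tauto

lemma sum_N1 (k : ℕ) {a b : V} (h : a ≠ b) (E : Finset (Sym2 V)) (hE : ∀ e ∈ E, ¬ e.IsDiag) :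
    ∑ e ∈ E, N k e e = E.card * N k s(a, b) s(a, b) := by
  rw [← smul_eq_mul, ← sum_const]
  refine sum_congr rfl fun e he => ?_
  have := hE e he
  induction e using Sym2.ind with
  | h x y =>
  simp only [Sym2.mk_isDiag_iff] at this
  exact le_antisymm (N_le2 _ this h) (N_le2 _ h this)

lemma F_eq (k : ℕ) (E : Finset (Sym2 V)) :
    F k E = ∑ v ∈ Om k V, if Odd (cc E v) then 1 else 0 := by
  unfold F; rw [card_filter]

lemma F_le (k : ℕ) {a b : V} (h : a ≠ b) (E : Finset (Sym2 V)) (hE : ∀ e ∈ E, ¬ e.IsDiag) :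
    F k E ≤ E.card * N k s(a, b) s(a, b) := by
  rw [← sum_N1 k h E hE, ← sum_cc, F_eq]
  refine sum_le_sum fun v _ => ?_
  split_ifs with ho
  · exact ho.pos
  · exact Nat.zero_le _

lemma F_lower (j : ℕ) (hn : 2 * (j+3) + 3 ≤ Fintype.card V) {a b c : V}
    (h : a ≠ b) (h1 : a ≠ c) (h2 : b ≠ c) (E : Finset (Sym2 V)) (hE : ∀ e ∈ E, ¬ e.IsDiag) :
    E.card * N (j+3) s(a, b) s(a, b) ≤
      F (j+3) E + (E.card * E.card - E.card) * N (j+3) s(a, b) s(a, c) := by
  have A : ∑ p ∈ E.offDiag, N (j+3) p.1 p.2 ≤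
      (E.card * E.card - E.card) * N (j+3) s(a, b) s(a, c) := by
    rw [← offDiag_card, ← smul_eq_mul, ← sum_const]
    refine sum_le_sum fun p hp => ?_
    rw [mem_offDiag] at hp
    exact N_le_N2 j hn h h1 h2 (hE _ hp.1) (hE _ hp.2.1) hp.2.2
  rw [← sum_N1 _ h E hE, ← sum_cc, F_eq]
  refine le_trans ?_ (Nat.add_le_add_left A _)
  rw [← sum_cc2, ← sum_add_distrib]
  refine sum_le_sum fun v _ => ?_
  generalize cc E v = c
  rcases c with _ | _ | c
  · simp
  · simp
  · have : (c+1+1) * (c+1+1) = (c+1+1) + (c+1+1) + c * (c+1+1) := by ring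
    omega

lemma cc_star {k : ℕ} {v : Fin k → V} (hv : Function.Injective v) (a : V) (E : Finset (Sym2 V))
    (hE : ∀ e ∈ E, a ∈ e) : cc E v ≤ 2 := by
  unfold cc
  have h1 : (univ.filter fun i => v i = a).card ≤ 1 := by
    refine card_le_one.2 fun i hi i' hi' => hv ?_
    simp only [mem_filter, mem_univ, true_and] at hi hi'
    rw [hi, hi']
  have h2 : (univ.filter fun i => v (finRotate k i) = a).card ≤ 1 := by
    refine card_le_one.2 fun i hi i' hi' => (finRotate k).injective (hv ?_)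
    simp only [mem_filter, mem_univ, true_and] at hi hi'
    rw [hi, hi']
  calc _ ≤ (((univ.filter fun i => v i = a) ∪
        (univ.filter fun i => v (finRotate k i) = a)).image (ed v)).card := by
        refine card_le_card fun e he => ?_
        rw [mem_filter] at he
        obtain ⟨i, -, hi⟩ := mem_image.1 he.2
        refine mem_image.2 ⟨i, ?_, hi⟩
        have := hE e he.1
        rw [← hi, ed, Sym2.mem_iff] at this
        simp only [mem_union, mem_filter, mem_univ, true_and]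
        tauto
    _ ≤ _ := card_image_le.trans ((card_union_le _ _).trans (by omega))

lemma F_star (k : ℕ) {a b c : V} (h : a ≠ b) (h1 : a ≠ c) (h2 : b ≠ c) (E : Finset (Sym2 V))
    (hE : ∀ e ∈ E, ¬ e.IsDiag) (ha : ∀ e ∈ E, a ∈ e) :
    F k E + (E.card * E.card - E.card) * N k s(a, b) s(a, c) ≤
      E.card * N k s(a, b) s(a, b) := by
  have A : (E.card * E.card - E.card) * N k s(a, b) s(a, c) ≤
      ∑ p ∈ E.offDiag, N k p.1 p.2 := by
    rw [← offDiag_card, ← smul_eq_mul, ← sum_const]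
    refine sum_le_sum fun p hp => ?_
    rw [mem_offDiag] at hp
    obtain ⟨x, hx⟩ := Sym2.mem_iff_exists.1 (ha _ hp.1)
    obtain ⟨y, hy⟩ := Sym2.mem_iff_exists.1 (ha _ hp.2.1)
    have e1 := hE _ hp.1
    have e2 := hE _ hp.2.1
    have e3 := hp.2.2
    rw [hx] at e1 e3
    rw [hy] at e2 e3
    rw [hx, hy]
    simp only [Sym2.mk_isDiag_iff] at e1 e2
    exact N_le3 _ h h1 h2 e1 e2 (fun h => e3 (by rw [h]))
  rw [← sum_N1 _ h E hE, ← sum_cc, F_eq]
  refine le_trans (Nat.add_le_add_left A _) ?_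
  rw [← sum_cc2, ← sum_add_distrib]
  refine sum_le_sum fun v hv => ?_
  have := cc_star (mem_filter.1 hv).2 a E ha
  generalize cc E v = c at this
  interval_cases c <;> simp

/-- exact comparison with the star for a bounded number of edges. -/
lemma few (j t M : ℕ) (hn : 2 * (j+3) + 3 + (j+3) * (2 * M + 2 * t + 2) ≤ Fintype.card V)
    {a b c : V} (h : a ≠ b) (h1 : a ≠ c) (h2 : b ≠ c) (S E : Finset (Sym2 V))
    (hS : ∀ e ∈ S, ¬ e.IsDiag) (ha : ∀ e ∈ S, a ∈ e) (hSc : S.card = t + 1)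
    (hE : ∀ e ∈ E, ¬ e.IsDiag) (hM : E.card ≤ M) (hlt : F (j+3) E < F (j+3) S) :
    E.card ≤ t := by
  by_contra hc
  obtain ⟨d, hd⟩ : ∃ d, E.card = t + 1 + d := ⟨E.card - (t+1), by omega⟩
  have A := F_lower j (by omega) h h1 h2 E hE
  have B := F_star (j+3) h h1 h2 S hS ha
  have C := N2_le_N1 (j+3) h h1 h2
  rw [hSc] at B
  rw [hd] at A hM
  set P := N (j+3) s(a, b) s(a, b)
  set Q := N (j+3) s(a, b) s(a, c)
  have D : (2 * M + 2 * t + 2) * Q ≤ P := by
    have : (j+3) * ((2 * M + 2 * t + 2) * Q) ≤ (j+3) * P := by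
      refine le_trans ?_ C
      rw [← mul_assoc]
      exact Nat.mul_le_mul_right _ (by omega)
    exact Nat.le_of_mul_le_mul_left this (by omega)
  have e1 : (t+1+d) * (t+1+d) - (t+1+d) = (t+1) * t + d * (2 * t + 1 + d) := by
    have : (t+1+d) * (t+1+d) = (t+1) * t + d * (2 * t + 1 + d) + (t+1+d) := by ring
    omega
  have e2 : (t+1) * (t+1) - (t+1) = (t+1) * t := by
    have : (t+1) * (t+1) = (t+1) * t + (t+1) := by ring
    omega
  rw [e1] at A
  rw [e2] at B
  have G : d * (2 * t + 1 + d) * Q ≤ d * P := by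
    rw [mul_assoc]
    refine Nat.mul_le_mul_left _ (le_trans (Nat.mul_le_mul_right _ (by omega)) D)
  nlinarith

end Pool.Agent.H2.Fc
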