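import Pool.Agent.H2.FcB
open Finset
set_option linter.unusedSectionVars false
namespace Pool.Agent.H2.Fc

variable {V : Type} [Fintype V] [DecidableEq V]

def T {k : ℕ} (g : V → V → ZMod 2) (v : Fin k → V) : ZMod 2 :=
  ∑ i, g (v i) (v (finRotate k i))

def Fr (k : ℕ) (g : V → V → ZMod 2) : ℕ := ((Om k V).filter fun v => T g v = 1).card

def c2 {j : ℕ} (x y : V) (Q : Fin (j+1) → V) : Fin (j+3) → V := Fin.cons x (Fin.cons y Q)

lemma T_c2 {j : ℕ} (g : V → V → ZMod 2) (Q : Fin (j+1) → V) :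
    ∃ s, ∀ x y, T g (c2 x y Q) = g x y + g y (Q 0) + s + g (Q (Fin.last j)) x := by
  refine ⟨∑ i : Fin j, g (Q i.castSucc) (Q i.succ), fun x y => ?_⟩
  unfold T
  rw [Fin.sum_univ_succ, Fin.sum_univ_succ, Fin.sum_univ_castSucc]
  have h0 : finRotate (j+3) 0 = Fin.succ 0 := by
    rw [finRotate_apply]; rfl
  have h1 : finRotate (j+3) (Fin.succ 0) = Fin.succ (Fin.succ 0) := by
    apply Fin.ext
    rw [coe_finRotate_of_ne_last]
    · rfl
    · intro h; have := congrArg Fin.val h; simp at this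
  have h2 : ∀ i : Fin j, finRotate (j+3) (Fin.succ (Fin.succ i.castSucc)) =
      Fin.succ (Fin.succ i.succ) := by
    intro i
    apply Fin.ext
    rw [coe_finRotate_of_ne_last]
    · simp
    · intro h; have := congrArg Fin.val h; simp at this; omega
  have h3 : finRotate (j+3) (Fin.succ (Fin.succ (Fin.last j))) = 0 := by
    have : (Fin.succ (Fin.succ (Fin.last j))) = Fin.last (j+2) := rfl
    rw [this, finRotate_last]
  simp only [h0, h1, h2, h3, c2, Fin.cons_zero, Fin.cons_succ]
  ring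

def QS (j : ℕ) (S : Finset V) : Finset (Fin (j+1) → V) :=
  univ.filter fun Q => Function.Injective Q ∧ ∀ i, Q i ∉ S

def bad {j : ℕ} (g : V → V → ZMod 2) (Q : Fin (j+1) → V) : Finset (V × V) :=
  (univ \ univ.image Q).offDiag.filter fun p => T g (c2 p.1 p.2 Q) = 1

lemma sum_bad (j : ℕ) (g : V → V → ZMod 2) (S : Finset V) :
    ∑ Q ∈ QS j S, (bad g Q).card ≤ Fr (j+3) g := by
  rw [← card_sigma]
  unfold Fr
  refine card_le_card_of_injOn (fun p => c2 p.2.1 p.2.2 p.1) ?_ ?_
  · rintro ⟨Q, x, y⟩ hp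
    simp only [coe_sigma, Set.mem_sigma_iff, mem_coe, QS, bad, mem_filter, mem_univ, true_and,
      mem_offDiag, mem_sdiff, mem_image, not_exists, coe_filter, Set.mem_setOf_eq, Om] at hp ⊢
    obtain ⟨⟨hQ, -⟩, ⟨hx, hy, hxy⟩, hT⟩ := hp
    refine ⟨?_, hT⟩
    unfold c2
    rw [Fin.cons_injective_iff, Fin.cons_injective_iff]
    refine ⟨?_, ?_, hQ⟩
    · rw [Fin.range_cons]
      rintro (h | ⟨i, hi⟩)
      · exact hxy h
      · exact hx i hi
    · rintro ⟨i, hi⟩
      exact hy i hi
  · rintro ⟨Q, x, y⟩ _ ⟨Q', x', y'⟩ _ h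
    simp only [c2, Fin.cons_inj] at h
    obtain ⟨rfl, rfl, rfl⟩ := h
    rfl

lemma card_QS (j : ℕ) (S : Finset V) :
    (Fintype.card V - S.card + 1 - (j+1)) ^ (j+1) ≤ (QS j S).card := by
  refine (Nat.pow_sub_le_descFactorial _ _).trans ?_
  have : (Fintype.card V - S.card).descFactorial (j+1) =
      (univ : Finset (Fin (j+1) ↪ (Sᶜ : Finset V))).card := by
    rw [card_univ, Fintype.card_embedding_eq, Fintype.card_coe, card_compl, Fintype.card_fin]
  rw [this]
  refine card_le_card_of_injOn (fun Q i => (Q i : V)) ?_ ?_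
  · intro Q _
    simp only [QS, coe_filter, mem_univ, true_and, Set.mem_setOf_eq]
    refine ⟨fun i i' h => Q.injective (Subtype.ext h), fun i => ?_⟩
    exact mem_compl.1 (Q i).2
  · intro Q _ Q' _ h
    ext i
    exact congrFun h i

lemma const1 (W : Finset V) (φ : V → ZMod 2) (B : Finset (V × V))
    (h : ∀ x ∈ W, ∀ y ∈ W, φ x ≠ φ y → (x, y) ∈ B) (hB : B.card < W.card) :
    ∀ x ∈ W, ∀ y ∈ W, φ x = φ y := by
  intro x hx y hy
  by_contra hne
  refine absurd hB (not_lt.2 ?_)
  refine card_le_card_of_injOn (fun z => (z, if φ z = φ x then y else x)) ?_ ?_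
  · intro z hz
    simp only [mem_coe] at hz ⊢
    split_ifs with hh
    · exact h z hz y hy (by rw [hh]; exact hne)
    · exact h z hz x hx hh
  · intro z _ w _ hh
    exact congrArg Prod.fst hh

lemma const2 [Nonempty V] (W : Finset V) (φ : V → ZMod 2) (B : Finset (V × V))
    (h : ∀ x ∈ W, ∀ y ∈ W, x ≠ y → φ x = φ y → (x, y) ∈ B) : W.card ≤ B.card + 2 := by
  set r := Function.invFunOn φ (W : Set V)
  have A : (W \ univ.image r).card ≤ B.card := by
    refine card_le_card_of_injOn (fun z => (z, r (φ z))) ?_ ?_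
    · intro z hz
      simp only [coe_sdiff, Set.mem_diff, mem_coe, mem_image, mem_univ, true_and,
        not_exists] at hz ⊢
      have e : ∃ a ∈ (W : Set V), φ a = φ z := ⟨z, hz.1, rfl⟩
      exact h z hz.1 _ (Function.invFunOn_mem e) (fun hh => hz.2 _ hh.symm)
        (Function.invFunOn_eq e).symm
    · intro z _ w _ hh
      exact congrArg Prod.fst hh
  have B1 : (univ.image r).card ≤ 2 := card_image_le.trans (by simp)
  have := le_card_sdiff (univ.image r) W
  omega

lemma z2 (a : ZMod 2) : a + a = 0 := by revert a; decide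
lemma z2a (a : ZMod 2) (h : a ≠ 1) : a = 0 := by revert a; decide

lemma loc (j C : ℕ) (g : V → V → ZMod 2) (hg : ∀ x y, g x y = g y x) (S : Finset V)
    (hne : (QS j S).Nonempty) (hC : Fr (j+3) g ≤ C * (QS j S).card)
    (hn : 2 * C + (j+1) < Fintype.card V) :
    ∃ R : Finset V, (∀ x ∈ R, x ∉ S) ∧ R.card ≤ j + 1 ∧ ∃ B : Finset (V × V), B.card ≤ C ∧
      ∃ (s : ZMod 2) (α : V → ZMod 2), ∀ x y, x ∉ R → y ∉ R → x ≠ y → (x, y) ∉ B →
        g x y = s + α x + α y := by
  obtain ⟨Q, hQ, hb⟩ := exists_le_of_sum_le hne (f := fun Q => (bad g Q).card)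
    (g := fun _ => C) ((sum_bad j g S).trans (by rw [sum_const, smul_eq_mul, mul_comm]; exact hC))
  obtain ⟨s, hs⟩ := T_c2 g Q
  have hR : (univ.image Q).card ≤ j + 1 := card_image_le.trans (by simp)
  have key : ∀ x y, x ∉ univ.image Q → y ∉ univ.image Q → x ≠ y → (x, y) ∉ bad g Q →
      g x y = s + g y (Q 0) + g (Q (Fin.last j)) x := by
    intro x y hx hy hxy hb
    have : T g (c2 x y Q) ≠ 1 := by
      intro hT
      exact hb (mem_filter.2 ⟨mem_offDiag.2 ⟨by simp [hx], by simp [hy], hxy⟩, hT⟩)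
    have h0 := z2a _ this
    rw [hs] at h0
    linear_combination h0 - z2 (g y (Q 0)) - z2 s - z2 (g (Q (Fin.last j)) x)
  have hW : j + 1 + 2 * C < Fintype.card V := by omega
  have hWc := le_card_sdiff (univ.image Q) univ
  rw [card_univ] at hWc
  have hc := const1 (univ \ univ.image Q) (fun x => g x (Q 0) + g (Q (Fin.last j)) x)
    (bad g Q ∪ (bad g Q).image Prod.swap) (by
      intro x hx y hy hne
      have hx' := (mem_sdiff.1 hx).2
      have hy' := (mem_sdiff.1 hy).2
      have hxy : x ≠ y := fun h => hne (by rw [h])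
      by_contra hh
      rw [mem_union, not_or] at hh
      have e1 := key x y hx' hy' hxy hh.1
      have e2 := key y x hy' hx' hxy.symm (fun h => hh.2 (mem_image.2 ⟨_, h, rfl⟩))
      apply hne
      rw [hg y x] at e2
      linear_combination e1 - e2 + z2 (g (Q (Fin.last j)) x) - z2 (g (Q (Fin.last j)) y)
        + z2 (g x (Q 0)) - z2 (g x (Q 0)) + z2 (g y (Q 0)) - z2 (g y (Q 0)))
    (by
      have := card_union_le (bad g Q) ((bad g Q).image Prod.swap)
      have := card_image_le (s := bad g Q) (f := Prod.swap)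
      omega)
  obtain ⟨x0, hx0⟩ : (univ \ univ.image Q).Nonempty := card_pos.1 (by omega)
  refine ⟨univ.image Q, ?_, hR, bad g Q, hb, s + (g x0 (Q 0) + g (Q (Fin.last j)) x0),
    fun x => g x (Q 0), fun x y hx hy hxy hb => ?_⟩
  · intro x hx
    obtain ⟨i, -, rfl⟩ := mem_image.1 hx
    exact (mem_filter.1 hQ).2.2 i
  · have e1 := key x y hx hy hxy hb
    have e2 := hc x (by simp [hx]) x0 hx0
    linear_combination e1 + e2 - z2 (g x (Q 0))

lemma glob (j C : ℕ) (g : V → V → ZMod 2) (hg : ∀ x y, g x y = g y x)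
    (hne : ∀ S : Finset V, S.card ≤ j + 1 → (QS j S).Nonempty)
    (hC : ∀ S : Finset V, S.card ≤ j + 1 → Fr (j+3) g ≤ C * (QS j S).card)
    (hn : 2 * C + 2 * (j+1) + 2 < Fintype.card V) :
    ∃ B : Finset (V × V), B.card ≤ 2 * C + 2 * ((j+1) * (j+1)) ∧
      ∃ (s : ZMod 2) (a : V → ZMod 2), ∀ x y, x ≠ y → (x, y) ∉ B →
        g x y = s + a x + a y := by
  have : Nonempty V := Fintype.card_pos_iff.1 (by omega)
  obtain ⟨R, -, hR, B, hB, s, α, h⟩ := loc j C g hg ∅ (hne _ (by simp)) (hC _ (by simp))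
    (by omega)
  obtain ⟨R', hd, hR', B', hB', s', α', h'⟩ := loc j C g hg R (hne _ hR) (hC _ hR) (by omega)
  set W := univ \ (R ∪ R') with hW
  have hWc : Fintype.card V - (R ∪ R').card ≤ W.card := by
    have := le_card_sdiff (R ∪ R') univ
    rwa [card_univ] at this
  have hRR := card_union_le R R'
  have hBB := card_union_le B B'
  have key : ∀ x ∈ W, ∀ y ∈ W, x ≠ y → (x, y) ∉ B ∪ B' →
      s + s' = (α x + α' x) + (α y + α' y) := by
    intro x hx y hy hxy hb
    simp only [hW, mem_sdiff, mem_univ, mem_union, true_and, not_or] at hx hy hb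
    have e1 := h x y hx.1 hy.1 hxy hb.1
    have e2 := h' x y hx.2 hy.2 hxy hb.2
    linear_combination e2 - e1 + z2 s' - z2 (α x) - z2 (α y)
  have hs : s + s' = 0 := by
    by_contra hs
    have := const2 W (fun x => α x + α' x) (B ∪ B') (by
      intro x hx y hy hxy he
      by_contra hb
      apply hs
      rw [key x hx y hy hxy hb, he]
      exact z2 _)
    omega
  have hc := const1 W (fun x => α x + α' x) (B ∪ B') (by
      intro x hx y hy hne
      by_contra hb
      apply hne
      have := key x hx y hy (fun h => hne (by rw [h])) hb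
      rw [hs] at this
      linear_combination -this - z2 (α y + α' y)) (by omega)
  obtain ⟨x0, hx0⟩ : W.Nonempty := card_pos.1 (by omega)
  refine ⟨B ∪ B' ∪ (R ×ˢ R' ∪ R' ×ˢ R), ?_, s,
    fun x => if x ∈ R then α' x + (α x0 + α' x0) else α x, fun x y hxy hb => ?_⟩
  · have := card_union_le (B ∪ B') (R ×ˢ R' ∪ R' ×ˢ R)
    have := card_union_le (R ×ˢ R') (R' ×ˢ R)
    rw [card_product, card_product] at this
    have := Nat.mul_le_mul hR hR'
    have := Nat.mul_le_mul hR' hR
    omega
  · simp only [mem_union, mem_product, not_or, not_and] at hb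
    have ha : ∀ z, z ∉ R' → (if z ∈ R then α' z + (α x0 + α' x0) else α z) =
        α' z + (α x0 + α' x0) := by
      intro z hz
      split_ifs with hz'
      · rfl
      · have := hc z (by simp [hW, hz, hz']) x0 hx0
        linear_combination this - z2 (α' z)
    by_cases hxy' : x ∉ R ∧ y ∉ R
    · simp only [hxy'.1, hxy'.2, if_false]
      exact h x y hxy'.1 hxy'.2 hxy hb.1.1
    · have hx : x ∉ R' := by
        intro hx
        exact hxy' ⟨hd x hx, hb.2.2 hx⟩
      have hy : y ∉ R' := by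
        intro hy
        exact hxy' ⟨fun hx => hb.2.1 hx hy, hd y hy⟩
      have e := h' x y hx hy hxy hb.1.2
      beta_reduce
      rw [ha x hx, ha y hy]
      linear_combination e + hs - z2 s - z2 (α x0 + α' x0)

end Pool.Agent.H2.Fc
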