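import Mathlib
namespace Pool.Agent.H2.Fc

/-- Number of frustrated `k`-cycles of `G`, counted as ordered sequences of `k` distinct vertices
read cyclically, with an odd number of consecutive adjacent pairs. -/
noncomputable def fr (k : ℕ) {n : ℕ} (G : SimpleGraph (Fin n)) : ℕ :=
  {v : Fin k → Fin n | Function.Injective v ∧
    Odd {i : Fin k | G.Adj (v i) (v (finRotate k i))}.ncard}.ncard

/-- The `(t+1)`-star on `n` vertices: centre `0`, leaves `1, …, t+1`, other vertices isolated. -/
def star (n t : ℕ) : SimpleGraph (Fin n) :=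
  SimpleGraph.fromRel fun a b => a.val = 0 ∧ b.val ≤ t + 1

/-- The complete bipartite graph with parts `A` and its complement (a part may be empty). -/
def cb {n : ℕ} (A : Set (Fin n)) : SimpleGraph (Fin n) :=
  SimpleGraph.fromRel fun a b => a ∈ A ∧ b ∉ A

/-- `G` and `H` differ in the adjacency of at most `t` pairs. -/
def Within {n : ℕ} (t : ℕ) (G H : SimpleGraph (Fin n)) : Prop :=
  (symmDiff G.edgeSet H.edgeSet).ncard ≤ t

end Pool.Agent.H2.Fc
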