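import Pool.Agent.H2.FcC
import Pool.Agent.H2.FcDefs
open Finset
set_option linter.unusedSectionVars false
namespace Pool.Agent.H2.Fc
open Classical

noncomputable def ind {n : ℕ} (G : SimpleGraph (Fin n)) (x y : Fin n) : ZMod 2 :=
  if G.Adj x y then 1 else 0

lemma cc_eq {V : Type} [Fintype V] [DecidableEq V] {j : ℕ} {v : Fin (j+3) → V}
    (hv : Function.Injective v) (E : Finset (Sym2 V)) :
    cc E v = (univ.filter fun i => ed v i ∈ E).card := by
  unfold cc
  rw [← card_image_of_injective _ (ed_inj hv)]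
  congr 1
  ext e
  simp only [X, mem_filter, mem_image, mem_univ, true_and]
  constructor
  · rintro ⟨h, i, rfl⟩; exact ⟨i, h, rfl⟩
  · rintro ⟨i, h, rfl⟩; exact ⟨h, i, rfl⟩

lemma fr_eq_F {n j : ℕ} (G : SimpleGraph (Fin n)) : fr (j+3) G = F (j+3) G.edgeFinset := by
  unfold fr F
  rw [← Set.ncard_coe_finset]
  congr 1
  ext v
  simp only [Set.mem_setOf_eq, coe_filter, Om, mem_filter, mem_univ, true_and]
  refine and_congr_right fun hv => ?_
  rw [cc_eq hv, ← Set.ncard_coe_finset]
  have : {i | G.Adj (v i) (v (finRotate (j+3) i))} =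
      ((univ.filter fun i => ed v i ∈ G.edgeFinset : Finset _) : Set _) := by
    ext i; simp [ed]
  rw [this]

lemma odd_cc {n j : ℕ} {v : Fin (j+3) → Fin n} (hv : Function.Injective v)
    (E : Finset (Sym2 (Fin n))) (g : Fin n → Fin n → ZMod 2)
    (h : ∀ x y, x ≠ y → (s(x, y) ∈ E ↔ g x y = 1)) : Odd (cc E v) ↔ T g v = 1 := by
  rw [cc_eq hv, ← ZMod.natCast_eq_one_iff_odd, card_filter]
  push_cast
  unfold T
  rw [sum_congr rfl]
  intro i _
  have hne : v i ≠ v (finRotate (j+3) i) := fun h => rot_ne j i (hv h).symm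
  have := h _ _ hne
  unfold ed
  split_ifs with hh
  · exact (this.1 hh).symm
  · exact (z2a _ (fun h => hh (this.2 h))).symm

lemma F_eq_Fr {n j : ℕ} (E : Finset (Sym2 (Fin n))) (g : Fin n → Fin n → ZMod 2)
    (h : ∀ x y, x ≠ y → (s(x, y) ∈ E ↔ g x y = 1)) : F (j+3) E = Fr (j+3) g := by
  unfold F Fr
  congr 1
  refine filter_congr fun v hv => odd_cc (mem_filter.1 hv).2 E g h

lemma T_sw {V : Type} {k : ℕ} (g : V → V → ZMod 2) (s : ZMod 2) (a : V → ZMod 2)
    (v : Fin k → V) : T (fun x y => g x y + (s + a x + a y)) v = T g v + k * s := by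
  unfold T
  simp only [sum_add_distrib, sum_const, card_univ, Fintype.card_fin, nsmul_eq_mul]
  rw [Equiv.sum_comp (finRotate k) (fun i => a (v i))]
  linear_combination z2 (∑ i, a (v i))

lemma star_edges {n t : ℕ} (hn : t + 2 ≤ n) :
    (star n t).edgeFinset.card = t + 1 ∧
      ∀ e ∈ (star n t).edgeFinset, (⟨0, by omega⟩ : Fin n) ∈ e := by
  have : (star n t).edgeFinset = univ.image fun i : Fin (t+1) =>
      s((⟨0, by omega⟩ : Fin n), (⟨i.val + 1, by omega⟩ : Fin n)) := by
    ext e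
    induction e using Sym2.ind with
    | h x y =>
    simp only [SimpleGraph.mem_edgeFinset, SimpleGraph.mem_edgeSet, star,
      SimpleGraph.fromRel_adj, mem_image, mem_univ, true_and, Sym2.eq_iff, ne_eq, Fin.ext_iff]
    constructor
    · rintro ⟨h0, ⟨h1, h2⟩ | ⟨h1, h2⟩⟩
      · exact ⟨⟨y.val - 1, by omega⟩, Or.inl ⟨h1.symm, by simp; omega⟩⟩
      · exact ⟨⟨x.val - 1, by omega⟩, Or.inr ⟨h1.symm, by simp; omega⟩⟩
    · rintro ⟨i, h | h⟩ <;> omega
  rw [this]
  refine ⟨?_, ?_⟩
  · rw [card_image_of_injective, card_univ, Fintype.card_fin]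
    intro i i' h
    have := Sym2.congr_right.1 h
    simp only [Fin.mk.injEq] at this
    exact Fin.ext (by omega)
  · intro e he
    obtain ⟨i, -, rfl⟩ := mem_image.1 he
    simp

lemma choose_ge (n : ℕ) : n * n ≤ 4 * n.choose 2 + 2 * n - n * 0 ∧ n * (n - 1) = 2 * n.choose 2 := by
  have e2 : n * (n - 1) = 2 * n.choose 2 := by
    rw [Nat.choose_two_right]
    exact (Nat.mul_div_cancel' (Nat.even_mul_pred_self n).two_dvd).symm
  refine ⟨?_, e2⟩
  rcases n with _ | n
  · simp
  · simp only [Nat.add_sub_cancel] at e2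
    simp only [Nat.mul_zero, Nat.sub_zero]
    nlinarith

lemma N1_bound (j n : ℕ) (hn : 4 * (j+1) + 2 ≤ n) {a b : Fin n} (h : a ≠ b) (S : Finset (Fin n))
    (hS : S.card ≤ j + 1) :
    N (j+3) s(a, b) s(a, b) ≤ (4 * (j+3) * 2 ^ (j+1)) * (QS j S).card ∧ (QS j S).Nonempty := by
  have A := N1_le_Om (j+3) h
  have B : (Om (j+3) (Fin n)).card ≤ n ^ (j+3) :=
    (card_filter_le _ _).trans (by simp)
  have C := card_QS j S
  rw [Fintype.card_fin] at A C
  have D : n ≤ 2 * (n - S.card + 1 - (j+1)) := by omega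
  have E : n ^ (j+1) ≤ 2 ^ (j+1) * (QS j S).card := by
    calc n ^ (j+1) ≤ (2 * (n - S.card + 1 - (j+1))) ^ (j+1) := Nat.pow_le_pow_left D _
      _ = 2 ^ (j+1) * (n - S.card + 1 - (j+1)) ^ (j+1) := by rw [mul_pow]
      _ ≤ _ := Nat.mul_le_mul_left _ C
  have G : n * n ≤ 4 * n.choose 2 := by
    have := (choose_ge n).2
    obtain ⟨m, rfl⟩ : ∃ m, n = m + 2 := ⟨n - 2, by omega⟩
    have e : m + 2 - 1 = m + 1 := by omega
    rw [e] at this
    nlinarith
  have hpos : 0 < n * n := Nat.mul_pos (by omega) (by omega)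
  refine ⟨Nat.le_of_mul_le_mul_left ?_ hpos, ?_⟩
  · calc n * n * N (j+3) s(a, b) s(a, b) ≤ 4 * n.choose 2 * N (j+3) s(a, b) s(a, b) :=
          Nat.mul_le_mul_right _ G
      _ = 4 * (n.choose 2 * N (j+3) s(a, b) s(a, b)) := by ring
      _ ≤ 4 * ((j+3) * n ^ (j+3)) :=
          Nat.mul_le_mul_left _ (A.trans (Nat.mul_le_mul_left _ B))
      _ = n * n * (4 * (j+3) * n ^ (j+1)) := by ring
      _ ≤ n * n * (4 * (j+3) * (2 ^ (j+1) * (QS j S).card)) :=
          Nat.mul_le_mul_left _ (Nat.mul_le_mul_left _ E)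
      _ = _ := by ring
  · refine card_pos.1 (lt_of_lt_of_le ?_ C)
    exact Nat.pow_pos (by omega)

theorem main (j t : ℕ) : ∃ n0, ∀ n ≥ n0, ∀ G : SimpleGraph (Fin n),
    fr (j+3) G < fr (j+3) (star n t) →
      ∃ A : Set (Fin n), Within t G (cb A) ∨ Within t Gᶜ (cb A) := by
  obtain ⟨C, hC⟩ : ∃ C, C = (t+1) * (4 * (j+3) * 2 ^ (j+1)) := ⟨_, rfl⟩
  obtain ⟨M, hM⟩ : ∃ M, M = 2 * C + 2 * ((j+1) * (j+1)) := ⟨_, rfl⟩
  refine ⟨2 * (j+3) + 3 + (j+3) * (2 * M + 2 * t + 2) + 2 * C + 4 * (j+1) + 3 + t,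
    fun n hn G hlt => ?_⟩
  have hn3 : 3 ≤ n := by omega
  set a : Fin n := ⟨0, by omega⟩
  set b : Fin n := ⟨1, by omega⟩
  set c : Fin n := ⟨2, by omega⟩
  have hab : a ≠ b := by simp [a, b]
  have hac : a ≠ c := by simp [a, c]
  have hbc : b ≠ c := by simp [b, c]
  obtain ⟨hS1, hS2⟩ := star_edges (n := n) (t := t) (by omega)
  have hSd : ∀ e ∈ (star n t).edgeFinset, ¬ e.IsDiag := fun e he =>
    SimpleGraph.not_isDiag_of_mem_edgeSet _ (SimpleGraph.mem_edgeFinset.1 he)
  rw [fr_eq_F, fr_eq_F] at hlt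
  have hG : F (j+3) G.edgeFinset = Fr (j+3) (ind G) := F_eq_Fr _ _ (by
    intro x y _; simp [ind])
  have hle := F_le (j+3) hab _ hSd
  rw [hS1] at hle
  obtain ⟨B, hB, s, α, h⟩ := glob j C (ind G) (by intro x y; simp [ind, G.adj_comm])
    (fun S hS => (N1_bound j n (by omega) hab S hS).2)
    (fun S hS => by
      have := (N1_bound j n (by omega) hab S hS).1
      rw [← hG, hC, mul_assoc]
      exact hlt.le.trans (hle.trans (Nat.mul_le_mul_left _ this)))
    (by rw [Fintype.card_fin]; omega)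
  rw [← hM] at hB
  set g' : Fin n → Fin n → ZMod 2 := fun x y => ind G x y + (s + α x + α y) with hg'
  have hsym : ∀ x y, g' x y = g' y x := by
    intro x y; simp only [hg', ind, G.adj_comm]; ring
  let K : SimpleGraph (Fin n) := SimpleGraph.fromRel fun x y => g' x y = 1
  have hK : ∀ x y, x ≠ y → (s(x, y) ∈ K.edgeFinset ↔ g' x y = 1) := by
    intro x y hxy
    simp [K, hxy, hsym y x]
  have hKd : ∀ e ∈ K.edgeFinset, ¬ e.IsDiag := fun e he =>
    SimpleGraph.not_isDiag_of_mem_edgeSet _ (SimpleGraph.mem_edgeFinset.1 he)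
  have hKM : K.edgeFinset.card ≤ M := by
    refine le_trans (card_le_card ?_) ((card_image_le (s := B) (f := Sym2.mk.uncurry)).trans hB)
    intro e he
    have hd := hKd e he
    induction e using Sym2.ind with
    | h x y =>
    simp only [Sym2.mk_isDiag_iff] at hd
    refine mem_image.2 ⟨(x, y), ?_, rfl⟩
    by_contra hb
    have e1 := (hK x y hd).1 he
    simp only [hg'] at e1
    rw [h x y hd hb, z2] at e1
    exact zero_ne_one e1
  have hFK := F_eq_Fr (j := j) _ _ hK
  by_cases hks : ((j+3 : ℕ) : ZMod 2) * s = 1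
  · exfalso
    have e1 : Fr (j+3) g' + Fr (j+3) (ind G) = (Om (j+3) (Fin n)).card := by
      unfold Fr
      rw [← card_filter_add_card_filter_not (s := Om (j+3) (Fin n)) (fun v => T g' v = 1)]
      congr 2
      refine filter_congr fun v _ => ?_
      rw [hg', T_sw, hks]
      generalize T (ind G) v = z
      revert z; decide
    have e2 := F_le (j+3) hab _ hKd
    have e3 := N1_le_Om (j+3) hab
    have e4 : 0 < (Om (j+3) (Fin n)).card :=
      card_pos.2 ⟨Fin.castLE (by omega), mem_filter.2 ⟨mem_univ _, Fin.castLE_injective _⟩⟩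
    rw [Fintype.card_fin] at e3
    have e5 := (choose_ge n).2
    set P := N (j+3) s(a, b) s(a, b)
    set O := (Om (j+3) (Fin n)).card
    have e6 : O ≤ (M + t + 1) * P := by
      have := Nat.mul_le_mul_right P hKM
      nlinarith
    have e7 : n.choose 2 * O ≤ (M + t + 1) * (j+3) * O := by
      calc _ ≤ n.choose 2 * ((M + t + 1) * P) := Nat.mul_le_mul_left _ e6
        _ = (M + t + 1) * (n.choose 2 * P) := by ring
        _ ≤ (M + t + 1) * ((j+3) * O) := Nat.mul_le_mul_left _ e3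
        _ = _ := by ring
    have e8 := Nat.le_of_mul_le_mul_right e7 e4
    have e9 : n * 1 ≤ n * (n - 1) := Nat.mul_le_mul_left _ (by omega)
    have e10 : (j+3) * (2 * M + 2 * t + 2) = 2 * ((M + t + 1) * (j+3)) := by ring
    omega
  · have hks := z2a _ hks
    have e1 : Fr (j+3) g' = Fr (j+3) (ind G) := by
      unfold Fr
      congr 1
      refine filter_congr fun v _ => ?_
      rw [hg', T_sw, hks, add_zero]
    have hf := few j t M (by rw [Fintype.card_fin]; omega) hab hac hbc _ K.edgeFinset hSd hS2 hS1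
      hKd hKM (by rw [hFK, e1, ← hG]; exact hlt)
    refine ⟨{x | α x = 1}, ?_⟩
    have fin : ∀ H : SimpleGraph (Fin n), (∀ x y, x ≠ y → ind H x y = ind G x y + s) →
        Within t H (cb {x | α x = 1}) := by
      intro H hH
      unfold Within
      rw [← Set.ncard_coe_finset] at hf
      refine le_trans (le_of_eq ?_) hf
      congr 1
      ext e
      induction e using Sym2.ind with
      | h x y =>
      by_cases hxy : x = y
      · subst hxy
        simp [Set.mem_symmDiff]
      · rw [mem_coe, hK x y hxy]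
        have e : g' x y = ind H x y + α x + α y := by rw [hH x y hxy, hg']; ring
        rw [e]
        simp only [Set.mem_symmDiff, SimpleGraph.mem_edgeSet, cb, SimpleGraph.fromRel_adj,
          Set.mem_setOf_eq, ne_eq, hxy, not_false_eq_true, true_and, ind]
        generalize α x = p
        generalize α y = q
        by_cases hA : H.Adj x y <;> simp only [hA, if_true, if_false] <;> revert p q <;> decide
    by_cases hs : s = 1
    · refine Or.inr (fin _ fun x y hxy => ?_)
      simp only [ind, SimpleGraph.compl_adj, ne_eq, hxy, not_false_eq_true, true_and, hs]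
      by_cases hA : G.Adj x y <;> simp only [hA, if_true, if_false] <;> decide
    · exact Or.inl (fin _ fun x y hxy => by rw [z2a _ hs, add_zero])

end Pool.Agent.H2.Fc
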