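import Mathlib

set_option autoImplicit false

namespace Pool.Agent.H2.Ft
open Finset

variable {V : Type*} [Fintype V] [DecidableEq V]

structure Valid (a : V → V → ℤ) : Prop where
  symm : ∀ x y, a x y = a y x
  diag : ∀ x, a x x = 0
  bin : ∀ x y, a x y = 0 ∨ a x y = 1

def E (a : V → V → ℤ) : ℤ := ∑ x, ∑ y, a x y
def S2 (a : V → V → ℤ) : ℤ := ∑ x, (∑ y, a x y) ^ 2
def T (a : V → V → ℤ) : ℤ := ∑ x, ∑ y, ∑ z, a x y * a y z * a x z
def W3 (a : V → V → ℤ) : ℤ := 3 * S2 a - 2 * T a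
def st (b : V → V → ℤ) (v : V) (l : V → ℤ) : V → V → ℤ :=
  fun x y => b x y + (if x = v then l y else 0) + (if y = v then l x else 0)
def cut (b : V → V → ℤ) (l : V → ℤ) : ℤ := ∑ x, ∑ y, l x * (1 - l y) * b x y

theorem split (v : V) (f : V → ℤ) : ∑ x, f x = f v + ∑ x ∈ univ.erase v, f x :=
  (Finset.add_sum_erase _ _ (mem_univ v)).symm

theorem E_st {b : V → V → ℤ} {v : V} {l : V → ℤ} : E (st b v l) = E b + 2 * ∑ x, l x := by
  unfold E st
  simp only [sum_add_distrib]
  have h1 : ∑ x, ∑ y, (if x = v then l y else 0) = ∑ y, l y := by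
    rw [sum_comm]; simp
  have h2 : ∑ x, ∑ y, (if y = v then l x else 0) = ∑ y, l y := by simp
  rw [h1, h2]; ring

theorem row_st {b : V → V → ℤ} {v : V} {l : V → ℤ} (x : V) :
    ∑ y, st b v l x y = ∑ y, b x y + (if x = v then ∑ y, l y else 0) + l x := by
  unfold st
  simp only [sum_add_distrib]
  by_cases h : x = v <;> simp [h]

theorem S2_st {b : V → V → ℤ} {v : V} {l : V → ℤ} (hv : ∀ y, b v y = 0) (hl : l v = 0)
    (hb : ∀ x, l x = 0 ∨ l x = 1) :
    S2 (st b v l) = S2 b + (∑ x, l x) ^ 2 + ∑ x, l x + 2 * ∑ x, ∑ y, l x * b x y := by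
  unfold S2
  have : ∀ x, (∑ y, st b v l x y) ^ 2 = (∑ y, b x y) ^ 2 + (if x = v then (∑ y, l y) ^ 2 else 0)
      + l x + 2 * ∑ y, l x * b x y := by
    intro x
    rw [row_st, ← mul_sum]
    by_cases h : x = v
    · subst h; simp [hv, hl]
    · simp only [h, if_false]
      rcases hb x with h0 | h0 <;> rw [h0] <;> ring
  simp only [this, sum_add_distrib, ← mul_sum]
  simp

theorem T_st {b : V → V → ℤ} {v : V} {l : V → ℤ} (hs : ∀ x y, b x y = b y x)
    (hv : ∀ y, b v y = 0) (hl : l v = 0) :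
    T (st b v l) = T b + 3 * ∑ x, ∑ y, l x * l y * b x y := by
  have hv' : ∀ y, b y v = 0 := fun y => by rw [hs, hv]
  unfold T
  have : ∀ x y z, st b v l x y * st b v l y z * st b v l x z = b x y * b y z * b x z
      + (if x = v then l y * l z * b y z else 0) + (if y = v then l x * l z * b x z else 0)
      + (if z = v then l x * l y * b x y else 0) := by
    intro x y z
    unfold st
    by_cases hx : x = v <;> by_cases hy : y = v <;> by_cases hz : z = v <;>
      simp [hx, hy, hz, hv, hv', hl] <;> ring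
  simp only [this, sum_add_distrib]
  have h1 : ∑ x, ∑ y, ∑ z, (if x = v then l y * l z * b y z else 0)
      = ∑ x, ∑ y, l x * l y * b x y := by
    rw [split v]; simp only [if_true]
    rw [sum_eq_zero (s := univ.erase v), add_zero]
    intro x hx; simp [(mem_erase.1 hx).1]
  have h2 : ∑ x, ∑ y, ∑ z, (if y = v then l x * l z * b x z else 0)
      = ∑ x, ∑ y, l x * l y * b x y := by
    refine sum_congr rfl fun x _ => ?_
    rw [sum_comm]; simp
  have h3 : ∑ x, ∑ y, ∑ z, (if z = v then l x * l y * b x y else 0)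
      = ∑ x, ∑ y, l x * l y * b x y := by simp
  rw [h1, h2, h3]; ring

theorem W3_st {b : V → V → ℤ} {v : V} {l : V → ℤ} (hs : ∀ x y, b x y = b y x)
    (hv : ∀ y, b v y = 0) (hl : l v = 0) (hb : ∀ x, l x = 0 ∨ l x = 1) :
    W3 (st b v l) = W3 b + 3 * ((∑ x, l x) ^ 2 + ∑ x, l x) + 6 * cut b l := by
  unfold W3
  rw [S2_st hv hl hb, T_st hs hv hl]
  have : cut b l = ∑ x, ∑ y, l x * b x y - ∑ x, ∑ y, l x * l y * b x y := by
    unfold cut
    rw [← sum_sub_distrib]
    refine sum_congr rfl fun x _ => ?_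
    rw [← sum_sub_distrib]
    refine sum_congr rfl fun y _ => by ring
  rw [this]; ring

theorem valid_st {b : V → V → ℤ} {v : V} {l : V → ℤ} (h : Valid b)
    (hv : ∀ y, b v y = 0) (hl : l v = 0) (hb : ∀ x, l x = 0 ∨ l x = 1) : Valid (st b v l) := by
  have hv' : ∀ y, b y v = 0 := fun y => by rw [h.symm, hv]
  refine ⟨fun x y => ?_, fun x => ?_, fun x y => ?_⟩
  · unfold st; rw [h.symm x y]; ring
  · unfold st; by_cases hx : x = v <;> simp [hx, hl, h.diag]
  · unfold st
    by_cases hx : x = v <;> by_cases hy : y = v <;> simp [hx, hy, hv, hv', hl, hb, h.bin]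

theorem cut_bounds {b : V → V → ℤ} {l : V → ℤ} (h : Valid b) (hb : ∀ x, l x = 0 ∨ l x = 1) :
    0 ≤ cut b l ∧ 2 * cut b l ≤ E b := by
  constructor
  · refine sum_nonneg fun x _ => sum_nonneg fun y _ => ?_
    rcases hb x with h1 | h1 <;> rcases hb y with h2 | h2 <;> rcases h.bin x y with h3 | h3 <;>
      simp [h1, h2, h3]
  · have h1 : cut b l = ∑ x, ∑ y, l y * (1 - l x) * b x y := by
      unfold cut; rw [sum_comm]
      exact sum_congr rfl fun x _ => sum_congr rfl fun y _ => by rw [h.symm]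
    have h2 : 2 * cut b l = ∑ x, ∑ y, (l x * (1 - l y) * b x y + l y * (1 - l x) * b x y) := by
      simp only [sum_add_distrib]; rw [← h1]; unfold cut; ring
    rw [h2]
    refine sum_le_sum fun x _ => sum_le_sum fun y _ => ?_
    rcases hb x with h1 | h1 <;> rcases hb y with h2 | h2 <;> rcases h.bin x y with h3 | h3 <;>
      simp [h1, h2, h3]

def del (a : V → V → ℤ) (v : V) : V → V → ℤ := fun x y => if x = v ∨ y = v then 0 else a x y

theorem del_spec {a : V → V → ℤ} (h : Valid a) (v : V) :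
    Valid (del a v) ∧ (∀ y, del a v v y = 0) ∧ a = st (del a v) v (a v) := by
  refine ⟨⟨fun x y => ?_, fun x => ?_, fun x y => ?_⟩, fun y => by simp [del], ?_⟩
  · unfold del; rw [h.symm x y]; simp only [or_comm]
  · unfold del; simp [h.diag]
  · unfold del; split_ifs; simp; exact h.bin x y
  · funext x y
    unfold st del
    by_cases hx : x = v <;> by_cases hy : y = v <;> simp [hx, hy, h.diag, h.symm x v]

theorem nonneg {a : V → V → ℤ} (h : Valid a) (x y : V) : 0 ≤ a x y := by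
  rcases h.bin x y with h1 | h1 <;> simp [h1]

theorem E_nonneg {a : V → V → ℤ} (h : Valid a) : 0 ≤ E a :=
  sum_nonneg fun x _ => sum_nonneg fun y _ => nonneg h x y

theorem gen (N : ℕ) : ∀ (a : V → V → ℤ), Valid a → E a ≤ N →
    ∃ t D : ℤ, E a = 2 * t ∧ W3 a = 6 * (t + D) ∧ 0 ≤ D ∧ 2 * D ≤ t * (t - 1) := by
  induction N with
  | zero =>
    intro a h hE
    have h0 : ∀ x y, a x y = 0 := by
      intro x y
      have h1 : E a = 0 := le_antisymm (by simpa using hE) (E_nonneg h)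
      have h2 := (sum_eq_zero_iff_of_nonneg
        (fun x _ => sum_nonneg fun y _ => nonneg h x y)).1 h1 x (mem_univ _)
      exact (sum_eq_zero_iff_of_nonneg (fun y _ => nonneg h x y)).1 h2 y (mem_univ _)
    exact ⟨0, 0, by simp [E, h0], by simp [W3, S2, T, h0], le_rfl, by simp⟩
  | succ N ih =>
    intro a h hE
    by_cases h0 : ∀ x y, a x y = 0
    · exact ⟨0, 0, by simp [E, h0], by simp [W3, S2, T, h0], le_rfl, by simp⟩
    push Not at h0
    obtain ⟨v, w, hvw⟩ := h0
    obtain ⟨hd, hv, he⟩ := del_spec h v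
    have hd1 : 1 ≤ ∑ y, a v y := by
      have := single_le_sum (f := a v) (fun y _ => nonneg h v y) (mem_univ w)
      rcases h.bin v w with h1 | h1
      · exact absurd h1 hvw
      · omega
    have hE' : E a = E (del a v) + 2 * ∑ y, a v y := by
      conv_lhs => rw [he]
      exact E_st
    have hW : W3 a = W3 (del a v) + 3 * ((∑ x, a v x) ^ 2 + ∑ x, a v x) + 6 * cut (del a v) (a v) := by
      conv_lhs => rw [he]
      exact W3_st hd.symm hv (h.diag v) (h.bin v)
    obtain ⟨s, D, hs, hW', hD0, hD1⟩ := ih (del a v) hd (by push_cast at hE; omega)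
    obtain ⟨hc0, hc1⟩ := cut_bounds hd (h.bin v)
    have hs0 := E_nonneg hd
    set d := ∑ y, a v y
    obtain ⟨u, hu⟩ : ∃ u, d * (d - 1) = 2 * u := (Int.even_mul_pred_self d).two_dvd
    refine ⟨s + d, D + u + cut (del a v) (a v), by omega, by rw [hW, hW']; nlinarith, by nlinarith, ?_⟩
    nlinarith [mul_nonneg (show 0 ≤ s by omega) (show 0 ≤ d - 1 by omega)]

/-- bounds through a vertex of degree d -/
theorem vert {a : V → V → ℤ} (h : Valid a) (v : V) {t D : ℤ} (ht : E a = 2 * t)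
    (hW : W3 a = 6 * (t + D)) :
    (∑ y, a v y) * ((∑ y, a v y) - 1) ≤ 2 * D ∧ (∑ y, a v y) ≤ t ∧
    2 * D ≤ (∑ y, a v y) * ((∑ y, a v y) - 1) + (t - ∑ y, a v y) * (t - ∑ y, a v y + 1) := by
  obtain ⟨hd, hv, he⟩ := del_spec h v
  have hE' : E a = E (del a v) + 2 * ∑ y, a v y := by
    conv_lhs => rw [he]
    exact E_st
  have hW2 : W3 a = W3 (del a v) + 3 * ((∑ x, a v x) ^ 2 + ∑ x, a v x) + 6 * cut (del a v) (a v) := by
    conv_lhs => rw [he]
    exact W3_st hd.symm hv (h.diag v) (h.bin v)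
  have hs0 := E_nonneg hd
  obtain ⟨s, D', hs, hW', hD0, hD1⟩ := gen (E (del a v)).toNat (del a v) hd (by omega)
  obtain ⟨hc0, hc1⟩ := cut_bounds hd (h.bin v)
  set d := ∑ y, a v y
  have : t = s + d := by omega
  subst this
  refine ⟨by nlinarith, by omega, by nlinarith⟩

theorem maxdeg {a : V → V → ℤ} (h : Valid a) {d t D : ℤ} (hd : ∀ x, ∑ y, a x y ≤ d)
    (ht : E a = 2 * t) (hW : W3 a = 6 * (t + D)) : t + D ≤ d * t := by
  have h1 : S2 a ≤ d * E a := by
    unfold S2 E; rw [mul_sum]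
    refine sum_le_sum fun x _ => ?_
    have := sum_nonneg (s := univ) fun y _ => nonneg h x y
    nlinarith [hd x]
  have h2 : 0 ≤ T a := sum_nonneg fun x _ => sum_nonneg fun y _ => sum_nonneg fun z _ =>
    mul_nonneg (mul_nonneg (nonneg h _ _) (nonneg h _ _)) (nonneg h _ _)
  unfold W3 at hW
  rw [ht] at h1
  nlinarith

end Pool.Agent.H2.Ft
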