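import Pool.Agent.H2.FtA

set_option autoImplicit false
set_option linter.unusedSectionVars false

namespace Pool.Agent.H2.Ft
open Finset

variable {V : Type*} [Fintype V] [DecidableEq V]

def ind (L : Finset V) : V → ℤ := fun x => if x ∈ L then 1 else 0

theorem sum_ind (L : Finset V) : ∑ x, ind L x = L.card := by simp [ind]
theorem ind_bin (L : Finset V) (x : V) : ind L x = 0 ∨ ind L x = 1 := by
  unfold ind; split_ifs <;> simp

theorem iso_st {b : V → V → ℤ} {I L : Finset V} {v : V} (hI : ∀ x ∈ I, ∀ y, b x y = 0) :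
    ∀ x ∈ I \ insert v L, ∀ y, st b v (ind L) x y = 0 := by
  intro x hx y
  simp only [mem_sdiff, mem_insert, not_or] at hx
  simp [st, ind, hI x hx.1, hx.2.1, hx.2.2]

theorem freeStar {b : V → V → ℤ} (h : Valid b) {I : Finset V} (hI : ∀ x ∈ I, ∀ y, b x y = 0)
    (r : ℕ) (hr : r + 1 ≤ I.card) :
    ∃ v ∈ I, ∃ R ⊆ I.erase v, R.card = r ∧ Valid (st b v (ind R)) ∧
      E (st b v (ind R)) = E b + 2 * r ∧ W3 (st b v (ind R)) = W3 b + 3 * ((r : ℤ) ^ 2 + r) ∧
      I.card ≤ (I \ insert v R).card + r + 1 := by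
  obtain ⟨v, hv⟩ : I.Nonempty := card_pos.1 (by omega)
  obtain ⟨R, hR, hRc⟩ := exists_subset_card_eq (s := I.erase v) (n := r)
    (by rw [card_erase_of_mem hv]; omega)
  have hvR : ind R v = 0 := by
    have : v ∉ R := fun hh => by simpa using hR hh
    simp [ind, this]
  refine ⟨v, hv, R, hR, hRc, valid_st h (hI v hv) hvR (ind_bin R), by rw [E_st, sum_ind, hRc], ?_, ?_⟩
  · rw [W3_st h.symm (hI v hv) hvR (ind_bin R), sum_ind, hRc]
    have : cut b (ind R) = 0 := by
      refine sum_eq_zero fun x _ => sum_eq_zero fun y _ => ?_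
      by_cases hx : x ∈ R
      · rw [hI x (mem_of_mem_erase (hR hx))]; simp
      · simp [ind, hx]
    rw [this]; ring
  · have h1 := le_card_sdiff (insert v R) I
    have h2 := card_insert_le v R
    omega

theorem matching (m : ℕ) : 2 * m ≤ Fintype.card V → ∃ (b : V → V → ℤ) (I : Finset V), Valid b ∧
    E b = 2 * m ∧ W3 b = 6 * m ∧ Fintype.card V ≤ I.card + 2 * m ∧ ∀ x ∈ I, ∀ y, b x y = 0 := by
  induction m with
  | zero =>
    intro _
    exact ⟨fun _ _ => 0, univ, ⟨by simp, by simp, by simp⟩, by simp [E], by simp [W3, S2, T],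
      by simp, by simp⟩
  | succ m ih =>
    intro hm
    obtain ⟨b, I, h, hE, hW, hc, hI⟩ := ih (by omega)
    obtain ⟨v, hv, R, hR, hRc, h1, h2, h3, h4⟩ := freeStar h hI 1 (by omega)
    refine ⟨_, I \ insert v R, h1, by rw [h2, hE]; push_cast; ring, by rw [h3, hW]; push_cast; ring,
      by omega, iso_st hI⟩

theorem constr (m r c d : ℕ) (hc : c ≤ r) (hcd : c ≤ d)
    (hn : 2 * m + r + d + 2 ≤ Fintype.card V) : ∃ a : V → V → ℤ, Valid a ∧
    E a = 2 * (m + r + d) ∧ W3 a = 6 * m + 3 * ((r : ℤ) ^ 2 + r) + 3 * ((d : ℤ) ^ 2 + d) + 6 * c := by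
  obtain ⟨b, I, h, hE, hW, hcard, hI⟩ := matching (V := V) m (by omega)
  obtain ⟨w, hw, R, hR, hRc, h1, h2, h3, h4⟩ := freeStar h hI r (by omega)
  have hI' := iso_st (L := R) (v := w) hI
  obtain ⟨v, hv⟩ : (I \ insert w R).Nonempty := card_pos.1 (by omega)
  obtain ⟨L, hL, hLc⟩ := exists_subset_card_eq (s := (I \ insert w R).erase v) (n := d - c)
    (by rw [card_erase_of_mem hv]; omega)
  obtain ⟨C, hC, hCc⟩ := exists_subset_card_eq (s := R) (n := c) (by omega)
  have hdis : Disjoint C L := by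
    rw [disjoint_left]; intro x hx hx'
    have := mem_of_mem_erase (hL hx')
    simp only [mem_sdiff, mem_insert, not_or] at this
    exact this.2.2 (hC hx)
  have hvL : ind (C ∪ L) v = 0 := by
    have h5 : v ∉ L := fun hh => by simpa using hL hh
    have h6 : v ∉ C := fun hh => by
      simp only [mem_sdiff, mem_insert, not_or] at hv
      exact hv.2.2 (hC hh)
    simp [ind, h5, h6]
  have hwL : ind (C ∪ L) w = 0 := by
    have h5 : w ∉ L := fun hh => by simpa using mem_of_mem_erase (hL hh)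
    have h6 : w ∉ C := fun hh => by simpa using hR (hC hh)
    simp [ind, h5, h6]
  have hsum : ∑ x, ind (C ∪ L) x = d := by
    rw [sum_ind, card_union_of_disjoint hdis, hCc, hLc]; push_cast [hcd]; ring
  refine ⟨_, valid_st h1 (hI' v hv) hvL (ind_bin _), by rw [E_st, hsum, h2, hE]; ring, ?_⟩
  rw [W3_st h1.symm (hI' v hv) hvL (ind_bin _), hsum, h3, hW]
  have : cut (st b w (ind R)) (ind (C ∪ L)) = c := by
    rw [← hCc, ← sum_ind]
    refine sum_congr rfl fun x _ => ?_
    by_cases hxC : x ∈ C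
    · have hxR := hC hxC
      have hxw : x ≠ w := (mem_erase.1 (hR hxR)).1
      have hb := hI x (mem_of_mem_erase (hR hxR))
      have : ∀ y, ind (C ∪ L) x * (1 - ind (C ∪ L) y) * st b w (ind R) x y
          = if y = w then 1 else 0 := by
        intro y
        by_cases hy : y = w
        · subst hy; rw [hwL]; simp [st, ind, hb, hxw, hxR, hxC]
        · simp [st, hb, hxw, hy]
      simp only [this]; simp [ind, hxC]
    · by_cases hxL : x ∈ L
      · have := hI' x (mem_of_mem_erase (hL hxL))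
        simp only [this]; simp [ind, hxC]
      · simp [ind, hxC, hxL]
  rw [this]

/-- every j up to s(s+1)/2 is r(r-1)/2 + c with c ≤ r ≤ s -/
theorem tri (s : ℕ) : ∀ j : ℕ, 2 * j ≤ s * (s + 1) →
    ∃ r c : ℕ, c ≤ r ∧ r ≤ s ∧ c ≤ j ∧ 2 * (j : ℤ) = r * (r - 1) + 2 * c := by
  induction s with
  | zero => intro j hj; exact ⟨0, 0, le_rfl, le_rfl, by omega, by simp; omega⟩
  | succ s ih =>
    intro j hj
    by_cases h : 2 * j ≤ s * (s + 1)
    · obtain ⟨r, c, h1, h2, h3, h4⟩ := ih j h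
      exact ⟨r, c, h1, by omega, h3, h4⟩
    · obtain ⟨u, hu⟩ : ∃ u, s * (s + 1) = 2 * u := (Nat.even_mul_succ_self s).two_dvd
      refine ⟨s + 1, j - u, by nlinarith [Nat.sub_add_cancel (show u ≤ j by omega)], le_rfl,
        by omega, ?_⟩
      have : (s : ℤ) * (s + 1) = 2 * u := by exact_mod_cast hu
      rw [Nat.cast_sub (by omega)]; push_cast; linarith

/-- the gap condition, in terms of the degree parameter -/
def Gap (t D : ℤ) : Prop :=
  ∃ d : ℤ, 1 ≤ d ∧ d ≤ t ∧ 2 * D < d * (d - 1) ∧ (d - 1) * (d - 2) + (t - d + 1) * (t - d + 2) < 2 * D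

theorem no_gap [Nonempty V] {a : V → V → ℤ} (h : Valid a) {t D : ℤ} (ht : E a = 2 * t)
    (hW : W3 a = 6 * (t + D)) : ¬ Gap t D := by
  rintro ⟨d, hd1, hdt, h1, h2⟩
  obtain ⟨v, -, hv⟩ := exists_max_image univ (fun x => ∑ y, a x y) univ_nonempty
  obtain ⟨k1, k2, k3⟩ := vert h v ht hW
  have k4 := maxdeg h (fun x => hv x (mem_univ x)) ht hW
  have k0 := sum_nonneg (s := univ) fun y _ => nonneg h v y
  set e := ∑ y, a v y
  obtain ⟨s, rfl⟩ : ∃ s, t = d + s := ⟨t - d, by ring⟩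
  have hs : 0 ≤ s := by omega
  have hbig : (s + 1) * (s + 2) + 2 ≤ 2 * (d - 1) := by
    obtain ⟨u, hu⟩ : ∃ u, d * (d - 1) = 2 * u := (Int.even_mul_pred_self d).two_dvd
    obtain ⟨u', hu'⟩ : ∃ u, (s + 1) * (s + 1 + 1) = 2 * u := (Int.even_mul_succ_self (s + 1)).two_dvd
    have e1 : (d - 1) * (d - 2) = 2 * u - 2 * (d - 1) := by linarith
    have e2 : (d + s - d + 1) * (d + s - d + 2) = 2 * u' := by linarith
    have e3 : (s + 1) * (s + 2) = 2 * u' := by linarith
    omega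
  by_cases he : d ≤ e
  · nlinarith
  by_cases he2 : s + 2 ≤ e
  · nlinarith [mul_nonneg (show 0 ≤ d - 1 - e by omega) (show 0 ≤ e - s - 2 by omega)]
  · have : D ≤ s * (d + s) := by nlinarith
    have h5 : 0 ≤ (s - 1) * (s - 2) := by
      by_cases hs2 : s ≤ 1
      · exact mul_nonneg_of_nonpos_of_nonpos (by omega) (by omega)
      · exact mul_nonneg (by omega) (by omega)
    nlinarith [mul_nonneg (show 0 ≤ d - 1 by omega) (show 0 ≤ 2 * (d - 1) - (s + 1) * (s + 2) - 2 by omega),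
      mul_nonneg (show 0 ≤ d - 1 by omega) h5, mul_nonneg hs hs]

theorem realize (t D : ℕ) (hn : 2 * t + 2 ≤ Fintype.card V) (hD : 2 * (D : ℤ) ≤ t * (t - 1))
    (hg : ¬ Gap t D) : ∃ a : V → V → ℤ, Valid a ∧ E a = 2 * t ∧ W3 a = 6 * (t + D) := by
  classical
  have hex : ∃ d : ℕ, 2 * (D : ℤ) < (d + 1) * d := ⟨D + 1, by push_cast; nlinarith⟩
  obtain ⟨d, hd, hmin⟩ : ∃ d : ℕ, 2 * (D : ℤ) < (d + 1) * d ∧ d * ((d : ℤ) - 1) ≤ 2 * D := by
    refine ⟨Nat.find hex, Nat.find_spec hex, ?_⟩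
    rcases Nat.eq_zero_or_pos (Nat.find hex) with h0 | h0
    · rw [h0]; simp
    · have := Nat.find_min hex (Nat.sub_lt h0 one_pos)
      rw [Nat.cast_sub (show 1 ≤ Nat.find hex from h0)] at this; push_cast at this; nlinarith
  by_cases ht0 : t = 0
  · subst ht0
    have : D = 0 := by simp at hD; omega
    subst this
    exact ⟨fun _ _ => 0, ⟨by simp, by simp, by simp⟩, by simp [E], by simp [W3, S2, T]⟩
  have hdt : d ≤ t := by
    by_contra hh
    have : (t : ℤ) + 1 ≤ d := by omega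
    have : (1 : ℤ) ≤ t := by omega
    nlinarith
  obtain ⟨s, rfl⟩ := Nat.exists_eq_add_of_le hdt
  obtain ⟨u, hu⟩ : ∃ u : ℕ, (d : ℤ) * (d - 1) = 2 * u := by
    obtain ⟨u, hu⟩ : ∃ u, (d : ℤ) * (d - 1) = 2 * u := (Int.even_mul_pred_self d).two_dvd
    have : 0 ≤ u := by
      rcases Nat.eq_zero_or_pos d with h0 | h0
      · subst h0; simp at hu; omega
      · have : (1 : ℤ) ≤ d := by omega
        nlinarith
    exact ⟨u.toNat, by rw [Int.toNat_of_nonneg this]; exact hu⟩
  obtain ⟨j, rfl⟩ := Nat.exists_eq_add_of_le (show u ≤ D by omega)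
  have hj : 2 * j ≤ s * (s + 1) := by
    by_contra hh
    have hh' : (s : ℤ) * (s + 1) < 2 * j := by exact_mod_cast not_le.1 hh
    rcases Nat.eq_zero_or_pos s with h0 | h0
    · subst h0; push_cast at hD hh'; nlinarith
    · refine hg ⟨d + 1, by omega, by push_cast; omega, by push_cast at hd ⊢; nlinarith, ?_⟩
      push_cast; nlinarith
  obtain ⟨r, c, h1, h2, h3, h4⟩ := tri s j hj
  have hjd : j ≤ d := by push_cast at hd; nlinarith
  obtain ⟨m, rfl⟩ := Nat.exists_eq_add_of_le h2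
  obtain ⟨a, ha, hE, hW⟩ := constr (V := V) m r c d h1 (by omega) (by omega)
  refine ⟨a, ha, by rw [hE]; push_cast; ring, by rw [hW]; push_cast; nlinarith⟩

end Pool.Agent.H2.Ft
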