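import Pool.Agent.H2.FtB

set_option autoImplicit false
set_option linter.unusedSectionVars false

namespace Pool.Agent.H2.Ft
open Finset

def par {n : ℕ} (a : Fin n → Fin n → ℤ) (x y z : Fin n) : ℤ :=
  a x y + a y z + a x z - 2 * (a x y * a y z + a x y * a x z + a y z * a x z)
    + 4 * (a x y * a y z * a x z)

def hh {n : ℕ} (a : Fin n → Fin n → ℤ) (x y z : Fin n) : ℤ :=
  if x < y ∧ y < z then par a x y z else 0

theorem par_six {n : ℕ} {a : Fin n → Fin n → ℤ} (h : Valid a) (x y z : Fin n) :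
    par a x y z = hh a x y z + hh a x z y + hh a y x z + hh a y z x + hh a z x y + hh a z y x := by
  have e1 : par a x z y = par a x y z := by unfold par; rw [h.symm z y]; ring
  have e2 : par a y x z = par a x y z := by unfold par; rw [h.symm y x]; ring
  have e3 : par a y z x = par a x y z := by unfold par; rw [h.symm y x, h.symm z x]; ring
  have e4 : par a z x y = par a x y z := by unfold par; rw [h.symm z x, h.symm z y]; ring
  have e5 : par a z y x = par a x y z := by
    unfold par; rw [h.symm z x, h.symm z y, h.symm y x]; ring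
  have d1 : x = y → par a x y z = 0 := by
    rintro rfl; unfold par; rw [h.diag]; rcases h.bin x z with h1 | h1 <;> rw [h1] <;> ring
  have d2 : y = z → par a x y z = 0 := by
    rintro rfl; unfold par; rw [h.diag]; rcases h.bin x y with h1 | h1 <;> rw [h1] <;> ring
  have d3 : x = z → par a x y z = 0 := by
    rintro rfl; unfold par; rw [h.diag, h.symm y x]
    rcases h.bin x y with h1 | h1 <;> rw [h1] <;> ring
  unfold hh
  rw [e1, e2, e3, e4, e5]
  by_cases c1 : x = y
  · simp [d1 c1]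
  by_cases c2 : y = z
  · simp [d2 c2]
  by_cases c3 : x = z
  · simp [d3 c3]
  have c1' : (x : ℕ) ≠ y := fun hh => c1 (Fin.ext hh)
  have c2' : (y : ℕ) ≠ z := fun hh => c2 (Fin.ext hh)
  have c3' : (x : ℕ) ≠ z := fun hh => c3 (Fin.ext hh)
  simp only [Fin.lt_def]
  split_ifs <;> first | omega | ring

theorem sw23 {n : ℕ} (f : Fin n → Fin n → Fin n → ℤ) :
    ∑ x, ∑ y, ∑ z, f x z y = ∑ x, ∑ y, ∑ z, f x y z :=
  sum_congr rfl fun _ _ => sum_comm

theorem sw12 {n : ℕ} (f : Fin n → Fin n → Fin n → ℤ) :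
    ∑ x, ∑ y, ∑ z, f y x z = ∑ x, ∑ y, ∑ z, f x y z := sum_comm

theorem six {n : ℕ} {a : Fin n → Fin n → ℤ} (h : Valid a) :
    6 * ∑ x, ∑ y, ∑ z, hh a x y z = 3 * n * E a - 2 * W3 a := by
  have s1 : ∑ x, ∑ y, ∑ z, par a x y z = 6 * ∑ x, ∑ y, ∑ z, hh a x y z := by
    simp only [par_six h, sum_add_distrib]
    have a3 : ∑ x, ∑ y, ∑ z, hh a y z x = ∑ x, ∑ y, ∑ z, hh a x y z := by
      rw [sw12 (fun y x z => hh a y z x), sw23 (hh a)]
    have a4 : ∑ x, ∑ y, ∑ z, hh a z x y = ∑ x, ∑ y, ∑ z, hh a x y z := by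
      rw [sw23 (fun x z y => hh a z x y), sw12 (hh a)]
    have a5 : ∑ x, ∑ y, ∑ z, hh a z y x = ∑ x, ∑ y, ∑ z, hh a x y z := by
      rw [sw12 (fun y x z => hh a z y x), a4]
    rw [sw23 (hh a), sw12 (hh a), a3, a4, a5]; ring
  rw [← s1]
  have b1 : ∑ x, ∑ y, ∑ _z : Fin n, a x y = n * E a := by
    simp [E, mul_sum]
  have b2 : ∑ _x : Fin n, ∑ y, ∑ z, a y z = n * E a := by simp [E]
  have b3 : ∑ x, ∑ _y : Fin n, ∑ z, a x z = n * E a := by
    rw [← b1]; exact sw23 (fun x y _ => a x y)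
  have c2 : ∑ x, ∑ y, ∑ z, a x y * a x z = S2 a := by
    unfold S2; refine sum_congr rfl fun x _ => ?_
    rw [sq, sum_mul_sum]
  have c1 : ∑ x, ∑ y, ∑ z, a x y * a y z = S2 a := by
    rw [← c2, ← sw12 (fun x y z => a x y * a x z)]
    exact sum_congr rfl fun x _ => sum_congr rfl fun y _ => sum_congr rfl fun z _ => by
      rw [h.symm x y]
  have c3 : ∑ x, ∑ y, ∑ z, a y z * a x z = S2 a := by
    rw [← c1, ← sw23 (fun x y z => a x y * a y z)]
    exact sum_congr rfl fun x _ => sum_congr rfl fun y _ => sum_congr rfl fun z _ => by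
      rw [h.symm y z, mul_comm]
  unfold par W3
  simp only [sum_add_distrib, sum_sub_distrib, ← mul_sum]
  simp only [mul_sum] at *
  rw [b1, b2, b3, c1, c2, c3]
  unfold T
  simp only [← mul_sum]
  ring

end Pool.Agent.H2.Ft
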