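import Mathlib

namespace Pool.Agent.H2.Geo

abbrev E2 := EuclideanSpace ℝ (Fin 2)

noncomputable def pt (x : ℤ × ℤ × ℤ) : E2 := !₂[(x.1 : ℝ) / x.2.2, (x.2.1 : ℝ) / x.2.2]

def ln (a : ℤ × ℤ × ℤ) : AffineSubspace ℝ E2 where
  carrier := {u | a.1 * u 0 + a.2.1 * u 1 + a.2.2 = 0}
  smul_vsub_vadd_mem' := fun c p q r hp hq hr => by
    simp only [Set.mem_setOf_eq, vsub_eq_sub, vadd_eq_add, PiLp.add_apply, PiLp.smul_apply,
      PiLp.sub_apply, smul_eq_mul] at *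
    linear_combination c * hp - c * hq + hr

theorem mem_ln (a : ℤ × ℤ × ℤ) (u : E2) : u ∈ ln a ↔ a.1 * u 0 + a.2.1 * u 1 + a.2.2 = 0 := Iff.rfl

def dot (x a : ℤ × ℤ × ℤ) : ℤ := a.1 * x.1 + a.2.1 * x.2.1 + a.2.2 * x.2.2

theorem pt_mem {x : ℤ × ℤ × ℤ} (a : ℤ × ℤ × ℤ) (h : x.2.2 ≠ 0) : pt x ∈ ln a ↔ dot x a = 0 := by
  have : (x.2.2 : ℝ) ≠ 0 := by exact_mod_cast h
  rw [mem_ln, ← @Int.cast_inj ℝ]
  simp only [pt, dot, PiLp.toLp_apply, Matrix.cons_val_zero, Matrix.cons_val_one]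
  push_cast
  constructor <;> intro e <;> field_simp at * <;> linarith

theorem rank_ln {a : ℤ × ℤ × ℤ} {u w : E2} (hu : u ∈ ln a) (hw : w ∉ ln a) :
    Module.finrank ℝ (ln a).direction = 1 := by
  have h : (a.1 : ℝ) ≠ 0 ∨ (a.2.1 : ℝ) ≠ 0 := by
    by_contra h
    push Not at h
    simp [mem_ln, h] at hu hw
    exact hw hu
  have : (ln a).direction = Submodule.span ℝ {!₂[(a.2.1 : ℝ), -a.1]} := by
    ext v
    rw [AffineSubspace.mem_direction_iff_eq_vsub_right hu, Submodule.mem_span_singleton]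
    constructor
    · rintro ⟨p, hp, rfl⟩
      rw [mem_ln] at hu hp
      rcases h with h | h
      · refine ⟨-(p 1 - u 1) / a.1, ?_⟩
        ext i; fin_cases i <;> simp <;> field_simp <;> linarith
      · refine ⟨(p 0 - u 0) / a.2.1, ?_⟩
        ext i; fin_cases i <;> simp <;> field_simp <;> linarith
    · rintro ⟨t, rfl⟩
      refine ⟨t • !₂[(a.2.1 : ℝ), -a.1] + u, ?_, by simp⟩
      rw [mem_ln] at *
      simp
      linarith
  rw [this, finrank_span_singleton]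
  intro e
  have e0 := congrArg (fun v : E2 => v 0) e
  have e1 := congrArg (fun v : E2 => v 1) e
  simp at e0 e1
  simp [e0, e1] at h

end Pool.Agent.H2.Geo
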