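import Pool.Agent.H2.SmB

set_option autoImplicit false

namespace Pool.Agent.H2.Gs

open Filter Topology Pool.Agent.H2.Sm

def sg (b : Bool) : ℝ := if b then 1 else -1

variable {Z : Type} [NormedAddCommGroup Z] [NormedSpace ℝ Z]

/-- Subsets of the dual unit ball that are closed under pointwise ultralimits. -/
def Good (C : Set (StrongDual ℝ Z)) : Prop :=
  (∀ φ ∈ C, ‖φ‖ ≤ 1) ∧ ∀ (U : Ultrafilter ℕ) (φ : ℕ → StrongDual ℝ Z) (ψ : StrongDual ℝ Z),
    (∀ x, Tendsto (fun k => φ k x) U (𝓝 (ψ x))) → (∀ᶠ k in U, φ k ∈ C) → ψ ∈ C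

/-- Every sign sequence extending the first `n` signs of `u` is realised by a member of `C`. -/
def Cov (e : ℕ → Z) (C : Set (StrongDual ℝ Z)) (n : ℕ) (u : ℕ → Bool) : Prop :=
  ∀ t : ℕ → Bool, (∀ i < n, t i = u i) → ∃ φ ∈ C, ∀ i, φ (e i) = sg (t i)

def Osc (C : Set (StrongDual ℝ Z)) (z : Z) (η : ℝ) : Prop :=
  ∀ φ ∈ C, ∀ ψ ∈ C, |φ z - ψ z| ≤ η

lemma Cov.mono {e : ℕ → Z} {C : Set (StrongDual ℝ Z)} {n n' : ℕ} {u u' : ℕ → Bool}
    (h : Cov e C n u) (hn : n ≤ n') (hu : ∀ i < n, u' i = u i) : Cov e C n' u' :=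
  fun t ht => h t fun i hi => by rw [ht i (lt_of_lt_of_le hi hn), hu i hi]

lemma Good.inter_le {C : Set (StrongDual ℝ Z)} (h : Good C) (z : Z) (c : ℝ) :
    Good (C ∩ {φ | φ z ≤ c}) :=
  ⟨fun φ hφ => h.1 φ hφ.1, fun U φ ψ hl hev => ⟨h.2 U φ ψ hl (hev.mono fun _ hk => hk.1),
    le_of_tendsto (hl z) (hev.mono fun _ hk => hk.2)⟩⟩

lemma Good.inter_ge {C : Set (StrongDual ℝ Z)} (h : Good C) (z : Z) (c : ℝ) :
    Good (C ∩ {φ | c ≤ φ z}) :=
  ⟨fun φ hφ => h.1 φ hφ.1, fun U φ ψ hl hev => ⟨h.2 U φ ψ hl (hev.mono fun _ hk => hk.1),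
    ge_of_tendsto (hl z) (hev.mono fun _ hk => hk.2)⟩⟩

lemma good_ball : Good {φ : StrongDual ℝ Z | ‖φ‖ ≤ 1} := by
  refine ⟨fun φ hφ => hφ, fun U φ ψ hl hev => ?_⟩
  refine ContinuousLinearMap.opNorm_le_bound _ zero_le_one fun x => ?_
  refine le_of_tendsto (hl x).norm (hev.mono fun k hk => ?_)
  exact le_trans ((φ k).le_opNorm x) (mul_le_mul_of_nonneg_right hk (norm_nonneg _))

/-- A sign sequence that is not realised has a neighbourhood of such sequences. -/
lemma Good.isolate {e : ℕ → Z} {C : Set (StrongDual ℝ Z)} (h : Good C) {t : ℕ → Bool}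
    (ht : ¬ ∃ φ ∈ C, ∀ i, φ (e i) = sg (t i)) :
    ∃ n, ∀ t' : ℕ → Bool, (∀ i < n, t' i = t i) → ¬ ∃ φ ∈ C, ∀ i, φ (e i) = sg (t' i) := by
  by_contra hcon
  push Not at hcon
  choose t' ht' φ hφ1 hφ2 using hcon
  obtain ⟨ψ, hψ⟩ := limit_form (Filter.hyperfilter ℕ) φ 1 fun k => h.1 _ (hφ1 k)
  refine ht ⟨ψ, h.2 _ φ ψ hψ (Eventually.of_forall hφ1), fun i => ?_⟩
  refine tendsto_nhds_unique (hψ (e i)) (tendsto_const_nhds.congr' ?_)
  filter_upwards [hyper_le (eventually_gt_atTop i)] with k hk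
  rw [hφ2, ht' k i hk]

lemma single_aux (e : ℕ → Z) (z : Z) {η : ℝ} (hη : 0 ≤ η) (m : ℕ) :
    ∀ (a : ℝ) (C : Set (StrongDual ℝ Z)) (n : ℕ) (u : ℕ → Bool), Good C → Cov e C n u →
      (∀ φ ∈ C, a ≤ φ z ∧ φ z ≤ a + (m + 1) * η) →
      ∃ n' u' C', n ≤ n' ∧ (∀ i < n, u' i = u i) ∧ C' ⊆ C ∧ Good C' ∧ Cov e C' n' u' ∧
        Osc C' z η := by
  induction m with
  | zero =>
    intro a C n u hG hC hr
    refine ⟨n, u, C, le_rfl, fun _ _ => rfl, le_rfl, hG, hC, fun φ hφ ψ hψ => ?_⟩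
    have h1 := hr φ hφ
    have h2 := hr ψ hψ
    rw [abs_le]
    constructor <;> simp only [Nat.cast_zero, zero_add, one_mul] at h1 h2 <;> linarith
  | succ m ih =>
    intro a C n u hG hC hr
    by_cases hc : Cov e (C ∩ {φ | φ z ≤ a + η}) n u
    · refine ⟨n, u, _, le_rfl, fun _ _ => rfl, Set.inter_subset_left, hG.inter_le z _, hc,
        fun φ hφ ψ hψ => ?_⟩
      have h1 := (hr φ hφ.1).1
      have h2 := (hr ψ hψ.1).1
      have h3 : φ z ≤ a + η := hφ.2
      have h4 : ψ z ≤ a + η := hψ.2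
      rw [abs_le]
      constructor <;> linarith
    · unfold Cov at hc
      push Not at hc
      obtain ⟨t, ht1, ht2⟩ := hc
      obtain ⟨n1, hn1⟩ := (hG.inter_le z (a + η)).isolate (e := e) (t := t) (by
        rintro ⟨φ, hφ1, hφ2⟩
        obtain ⟨i, hi⟩ := ht2 φ hφ1
        exact hi (hφ2 i))
      have hcov : Cov e (C ∩ {φ | a + η ≤ φ z}) (max n n1) t := by
        intro t' ht'
        obtain ⟨φ, hφ1, hφ2⟩ := hC t' fun i hi => by
          rw [ht' i (lt_of_lt_of_le hi (le_max_left _ _)), ht1 i hi]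
        refine ⟨φ, ⟨hφ1, ?_⟩, hφ2⟩
        by_contra hlt
        refine hn1 t' (fun i hi => ht' i (lt_of_lt_of_le hi (le_max_right _ _))) ⟨φ, ⟨hφ1, ?_⟩, hφ2⟩
        have hlt' : ¬ (a + η ≤ φ z) := hlt
        exact (not_le.mp hlt').le
      obtain ⟨n', u', C', h1, h2, h3, h4, h5, h6⟩ := ih (a + η) _ _ t (hG.inter_ge z _) hcov
        (fun φ hφ => ⟨hφ.2, by
          have := (hr φ hφ.1).2
          push_cast at this
          linarith⟩)
      refine ⟨n', u', C', le_trans (le_max_left _ _) h1, fun i hi => ?_,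
        h3.trans Set.inter_subset_left, h4, h5, h6⟩
      rw [h2 i (lt_of_lt_of_le hi (le_max_left _ _)), ht1 i hi]

lemma single (e : ℕ → Z) (z : Z) {η : ℝ} (hη : 0 < η) (C : Set (StrongDual ℝ Z)) (n : ℕ)
    (u : ℕ → Bool) (hG : Good C) (hC : Cov e C n u) :
    ∃ n' u' C', n ≤ n' ∧ (∀ i < n, u' i = u i) ∧ C' ⊆ C ∧ Good C' ∧ Cov e C' n' u' ∧
      Osc C' z η := by
  obtain ⟨m, hm⟩ := exists_nat_ge (2 * ‖z‖ / η)
  refine single_aux e z hη.le m (-‖z‖) C n u hG hC fun φ hφ => ?_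
  have h1 : |φ z| ≤ ‖z‖ := le_trans (φ.le_opNorm z)
    (mul_le_of_le_one_left (norm_nonneg _) (hG.1 φ hφ))
  rw [div_le_iff₀ hη] at hm
  have h2 := abs_le.mp h1
  constructor
  · exact h2.1
  · nlinarith [h2.2]

def glue (n : ℕ) (u w : ℕ → Bool) : ℕ → Bool := fun i => if i < n then u i else w i

lemma multi (e : ℕ → Z) (z : Z) {η : ℝ} (hη : 0 < η) {κ : Type} (C : κ → Set (StrongDual ℝ Z))
    (n : ℕ) (u : κ → ℕ → Bool) (hG : ∀ a, Good (C a)) (hC : ∀ a, Cov e (C a) n (u a))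
    (s : Finset κ) :
    ∃ n' w, n < n' ∧ ∀ a ∈ s, ∃ C', C' ⊆ C a ∧ Good C' ∧ Cov e C' n' (glue n (u a) w) ∧
      Osc C' z η := by
  classical
  induction s using Finset.induction_on with
  | empty => exact ⟨n + 1, fun _ => true, Nat.lt_succ_self n, fun a ha => absurd ha (by simp)⟩
  | insert b s hb ih =>
    obtain ⟨n', w, hn, h⟩ := ih
    obtain ⟨n'', u', C', h1, h2, h3, h4, h5, h6⟩ := single e z hη (C b) n' (glue n (u b) w) (hG b)
      ((hC b).mono hn.le fun i hi => by simp [glue, hi])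
    refine ⟨n'', u', lt_of_lt_of_le hn h1, fun a ha => ?_⟩
    rcases Finset.mem_insert.mp ha with rfl | ha
    · refine ⟨C', h3, h4, h5.mono le_rfl fun i _ => ?_, h6⟩
      unfold glue
      split_ifs with hi
      · rw [h2 i (lt_trans hi hn)]; simp [glue, hi]
      · rfl
    · obtain ⟨C'', g1, g2, g3, g4⟩ := h a ha
      refine ⟨C'', g1, g2, g3.mono h1 fun i hi => ?_, g4⟩
      unfold glue
      split_ifs with hi'
      · rfl
      · rw [h2 i hi]; simp [glue, hi']

/-- The state of the recursive construction. -/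
structure St (e : ℕ → Z) where
  n : ℕ
  lab : ℕ → Bool
  ω : ℕ → Bool
  C : Bool → (ℕ → Bool) → Set (StrongDual ℝ Z)
  good : ∀ b t, Good (C b t)
  cov : ∀ b t, Cov e (C b t) n (fun i => if lab i = b then ω i else t i)
  dep : ∀ b t t', (∀ i < n, t i = t' i) → C b t = C b t'

def Step {e : ℕ → Z} (S S' : St e) (b0 : Bool) (z : Z) (η : ℝ) : Prop :=
  S.n < S'.n ∧ (∀ i < S.n, S'.lab i = S.lab i ∧ S'.ω i = S.ω i) ∧
    (∀ b t, S'.C b t ⊆ S.C b t) ∧ ∀ t, Osc (S'.C b0 t) z η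

lemma exists_step {e : ℕ → Z} (S : St e) (b0 : Bool) (z : Z) {η : ℝ} (hη : 0 < η) :
    ∃ S', Step S S' b0 z η := by
  classical
  let ext : (Fin S.n → Bool) → ℕ → Bool := fun a i => if h : i < S.n then a ⟨i, h⟩ else true
  let res : (ℕ → Bool) → Fin S.n → Bool := fun t i => t i
  have hext : ∀ t, ∀ i < S.n, ext (res t) i = t i := fun t i hi => by simp [ext, res, hi]
  obtain ⟨n', w, hn, h⟩ := multi e z hη (fun a => S.C b0 (ext a)) S.n
    (fun a i => if S.lab i = b0 then S.ω i else ext a i) (fun a => S.good _ _)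
    (fun a => S.cov _ _) Finset.univ
  choose C' h1 h2 h3 h4 using fun a => h a (Finset.mem_univ a)
  refine ⟨⟨n', glue S.n S.lab (fun _ => b0), glue S.n S.ω w,
    fun b t => if b = b0 then C' (res t) else S.C b t, ?_, ?_, ?_⟩, hn, ?_, ?_, ?_⟩
  · intro b t
    split_ifs
    · exact h2 _
    · exact S.good _ _
  · intro b t
    split_ifs with hb
    · subst hb
      refine (h3 (res t)).mono le_rfl fun i _ => ?_
      by_cases hi : i < S.n
      · simp [glue, hi, hext t i hi]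
      · simp [glue, hi]
    · refine (S.cov b t).mono hn.le fun i hi => ?_
      simp [glue, hi]
  · intro b t t' htt
    split_ifs with hb
    · congr 1
      funext i
      exact htt i (lt_trans i.2 hn)
    · exact S.dep b t t' fun i hi => htt i (lt_trans hi hn)
  · intro i hi
    simp [glue, hi]
  · intro b t
    show (if b = b0 then C' (res t) else S.C b t) ⊆ _
    split_ifs with hb
    · subst hb
      rw [S.dep b t (ext (res t)) fun i hi => (hext t i hi).symm]
      exact h1 _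
    · exact le_rfl
  · intro t
    show Osc (if b0 = b0 then C' (res t) else S.C b0 t) z η
    rw [if_pos rfl]
    exact h4 _

/-- A bounded selection on sign sequences that is continuous for pointwise convergence. -/
theorem exists_sign_selection [TopologicalSpace.SeparableSpace Z] (e : ℕ → Z)
    (he : ∀ t : ℕ → Bool, ∃ φ : StrongDual ℝ Z, ‖φ‖ ≤ 1 ∧ ∀ i, φ (e i) = sg (t i)) :
    ∃ s : (ℕ → Bool) → StrongDual ℝ Z, (∀ t, ‖s t‖ ≤ 2) ∧ (∀ t i, s t (e i) = sg (t i)) ∧
      ∀ z, ∀ η > 0, ∃ n, ∀ t t', (∀ i < n, t i = t' i) → |s t z - s t' z| ≤ η := by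
  have : Nonempty Z := ⟨0⟩
  obtain ⟨v, hv⟩ := TopologicalSpace.exists_dense_seq Z
  let S0 : St e := ⟨0, fun _ => true, fun _ => true, fun _ _ => {φ | ‖φ‖ ≤ 1},
    fun _ _ => good_ball, fun _ _ t _ => he t, fun _ _ _ _ => rfl⟩
  let bb : ℕ → Bool := fun k => decide ((Nat.unpair (Nat.unpair k).1).1 = 0)
  let jj : ℕ → ℕ := fun k => (Nat.unpair (Nat.unpair k).1).2
  choose nx hnx using fun (k : ℕ) (S : St e) => exists_step S (bb k) (v (jj k))
    (show (0:ℝ) < 1 / ((k:ℝ) + 1) by positivity)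
  let S : ℕ → St e := fun k => Nat.rec S0 nx k
  have hS : ∀ k, Step (S k) (S (k + 1)) (bb k) (v (jj k)) (1 / ((k:ℝ) + 1)) := fun k => hnx k (S k)
  have hn : ∀ k, k ≤ (S k).n := by
    intro k
    induction k with
    | zero => exact Nat.zero_le _
    | succ k ih => exact lt_of_le_of_lt ih (hS k).1
  have hmono : ∀ k m, k ≤ m → (S k).n ≤ (S m).n ∧
      (∀ i < (S k).n, (S m).lab i = (S k).lab i ∧ (S m).ω i = (S k).ω i) ∧
      ∀ b t, (S m).C b t ⊆ (S k).C b t := by
    intro k m hkm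
    induction m, hkm using Nat.le_induction with
    | base => exact ⟨le_rfl, fun _ _ => ⟨rfl, rfl⟩, fun _ _ => le_rfl⟩
    | succ m hkm ih =>
      obtain ⟨h1, h2, h3, -⟩ := hS m
      refine ⟨le_trans ih.1 h1.le, fun i hi => ?_, fun b t => (h3 b t).trans (ih.2.2 b t)⟩
      have h4 := h2 i (lt_of_lt_of_le hi ih.1)
      have h5 := ih.2.1 i hi
      exact ⟨h4.1.trans h5.1, h4.2.trans h5.2⟩
  let lab : ℕ → Bool := fun i => (S (i + 1)).lab i
  let ω : ℕ → Bool := fun i => (S (i + 1)).ω i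
  have hσ : ∀ b t, ∃ ψ : StrongDual ℝ Z, (∀ k, ψ ∈ (S k).C b t) ∧
      ∀ i, ψ (e i) = sg (if lab i = b then ω i else t i) := by
    intro b t
    choose φ hφ1 hφ2 using fun k => (S k).cov b t _ fun _ _ => rfl
    obtain ⟨ψ, hψ⟩ := limit_form (Filter.hyperfilter ℕ) φ 1 fun k => ((S k).good b t).1 _ (hφ1 k)
    refine ⟨ψ, fun k => ((S k).good b t).2 _ φ ψ hψ ?_, fun i => ?_⟩
    · filter_upwards [hyper_le (eventually_ge_atTop k)] with m hm
      exact (hmono k m hm).2.2 b t (hφ1 m)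
    · refine tendsto_nhds_unique (hψ (e i)) (tendsto_const_nhds.congr' ?_)
      filter_upwards [hyper_le (eventually_ge_atTop (i + 1))] with m hm
      have := (hmono (i + 1) m hm).2.1 i (hn (i + 1))
      rw [hφ2, this.1, this.2]
  choose σ hσ1 hσ2 using hσ
  have hσn : ∀ b t, ‖σ b t‖ ≤ 1 := fun b t => ((S 0).good b t).1 _ (hσ1 b t 0)
  have hσc : ∀ b z, ∀ η > 0, ∃ n, ∀ t t', (∀ i < n, t i = t' i) → |σ b t z - σ b t' z| ≤ η := by
    intro b z η hη
    obtain ⟨j, hj⟩ := hv.exists_dist_lt z (show 0 < η / 3 by positivity)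
    obtain ⟨m, hm⟩ := exists_nat_one_div_lt (show 0 < η / 3 by positivity)
    let k := Nat.pair (Nat.pair (if b then 0 else 1) j) m
    have hb : bb k = b := by cases b <;> simp [bb, k, Nat.unpair_pair]
    have hj' : jj k = j := by simp [jj, k, Nat.unpair_pair]
    have hk : 1 / ((k:ℝ) + 1) ≤ 1 / ((m:ℝ) + 1) := by
      have : (m:ℝ) ≤ k := by exact_mod_cast Nat.right_le_pair _ _
      exact one_div_le_one_div_of_le (by positivity) (by linarith)
    refine ⟨(S (k + 1)).n, fun t t' htt => ?_⟩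
    have h1 := (hS k).2.2.2 t
    rw [hb, hj'] at h1
    have h2 := h1 _ (hσ1 b t (k + 1)) (σ b t') (by
      rw [(S (k + 1)).dep b t t' htt]; exact hσ1 b t' (k + 1))
    rw [dist_eq_norm] at hj
    have h3 : ∀ t, |σ b t z - σ b t (v j)| ≤ η / 3 := by
      intro t
      rw [← map_sub]
      exact le_trans ((σ b t).le_opNorm _)
        (le_trans (mul_le_of_le_one_left (norm_nonneg _) (hσn b t)) hj.le)
    have h4 := abs_le.mp (h3 t)
    have h5 := abs_le.mp (h3 t')
    have h6 := abs_le.mp h2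
    rw [abs_le]
    constructor <;> linarith
  refine ⟨fun t => (1 / 2 : ℝ) • (σ true t - σ true (fun i => !t i)) +
    (1 / 2 : ℝ) • (σ false t - σ false (fun i => !t i)), fun t => ?_, fun t i => ?_, ?_⟩
  · refine le_trans (norm_add_le _ _) ?_
    rw [norm_smul, norm_smul, Real.norm_eq_abs, abs_of_pos (by norm_num)]
    have h1 := norm_sub_le (σ true t) (σ true (fun i => !t i))
    have h2 := norm_sub_le (σ false t) (σ false (fun i => !t i))
    have := hσn true t
    have := hσn false t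
    have := hσn true (fun i => !t i)
    have := hσn false (fun i => !t i)
    linarith
  · simp only [ContinuousLinearMap.add_apply, ContinuousLinearMap.smul_apply,
      ContinuousLinearMap.sub_apply, hσ2, smul_eq_mul]
    cases lab i <;> cases t i <;> cases ω i <;> simp [sg] <;> norm_num
  · intro z η hη
    obtain ⟨n1, h1⟩ := hσc true z (η / 2) (by positivity)
    obtain ⟨n2, h2⟩ := hσc false z (η / 2) (by positivity)
    refine ⟨max n1 n2, fun t t' htt => ?_⟩
    have a1 := abs_le.mp (h1 t t' fun i hi => htt i (lt_of_lt_of_le hi (le_max_left _ _)))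
    have a2 := abs_le.mp (h2 t t' fun i hi => htt i (lt_of_lt_of_le hi (le_max_right _ _)))
    have a3 := abs_le.mp (h1 (fun i => !t i) (fun i => !t' i) fun i hi => by
      rw [htt i (lt_of_lt_of_le hi (le_max_left _ _))])
    have a4 := abs_le.mp (h2 (fun i => !t i) (fun i => !t' i) fun i hi => by
      rw [htt i (lt_of_lt_of_le hi (le_max_right _ _))])
    simp only [ContinuousLinearMap.add_apply, ContinuousLinearMap.smul_apply,
      ContinuousLinearMap.sub_apply, smul_eq_mul]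
    rw [abs_le]
    constructor <;> linarith

end Pool.Agent.H2.Gs
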