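import Pool.Agent.H2.GsA

set_option autoImplicit false

namespace Pool.Agent.H2.Gs

open Filter Topology Pool.Agent.H2.Sm

variable {Z : Type} [NormedAddCommGroup Z] [NormedSpace ℝ Z]

/-- Average of `s` over the first `n` signs, for the product weights with means `a`. -/
noncomputable def avg (s : (ℕ → Bool) → StrongDual ℝ Z) (a : ℕ → ℝ) :
    ℕ → (ℕ → Bool) → StrongDual ℝ Z
  | 0, t => s t
  | n + 1, t => ((1 + a n) / 2) • avg s a n (Function.update t n true) +
      ((1 - a n) / 2) • avg s a n (Function.update t n false)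

lemma avg_succ (s : (ℕ → Bool) → StrongDual ℝ Z) (a : ℕ → ℝ) (n : ℕ) (t : ℕ → Bool) (z : Z) :
    avg s a (n + 1) t z = (1 + a n) / 2 * avg s a n (Function.update t n true) z +
      (1 - a n) / 2 * avg s a n (Function.update t n false) z := rfl

lemma comb_le {x p q p' q' η : ℝ} (hx : |x| ≤ 1) (h1 : |p - p'| ≤ η) (h2 : |q - q'| ≤ η) :
    |((1 + x) / 2 * p + (1 - x) / 2 * q) - ((1 + x) / 2 * p' + (1 - x) / 2 * q')| ≤ η := by
  have hx' := abs_le.mp hx
  have a1 := abs_le.mp h1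
  have a2 := abs_le.mp h2
  have b1 : 0 ≤ (1 + x) / 2 := by linarith
  have b2 : 0 ≤ (1 - x) / 2 := by linarith
  rw [abs_le]
  constructor
  · nlinarith [mul_le_mul_of_nonneg_left a1.1 b1, mul_le_mul_of_nonneg_left a2.1 b2]
  · nlinarith [mul_le_mul_of_nonneg_left a1.2 b1, mul_le_mul_of_nonneg_left a2.2 b2]

lemma avg_bound (s : (ℕ → Bool) → StrongDual ℝ Z) (a : ℕ → ℝ) (ha : ∀ i, |a i| ≤ 1) (z : Z) (c : ℝ)
    (hs : ∀ t, |s t z| ≤ c) (n : ℕ) : ∀ t, |avg s a n t z| ≤ c := by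
  induction n with
  | zero => exact hs
  | succ n ih =>
    intro t
    have := comb_le (p := avg s a n (Function.update t n true) z)
      (q := avg s a n (Function.update t n false) z) (p' := 0) (q' := 0) (η := c) (ha n)
      (by rw [sub_zero]; exact ih _) (by rw [sub_zero]; exact ih _)
    rw [avg_succ]
    simpa using this

lemma avg_e (s : (ℕ → Bool) → StrongDual ℝ Z) (a : ℕ → ℝ) (e : ℕ → Z)
    (hs : ∀ t i, s t (e i) = sg (t i)) (n : ℕ) :
    ∀ t i, avg s a n t (e i) = if i < n then a i else sg (t i) := by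
  induction n with
  | zero => intro t i; simp [avg, hs]
  | succ n ih =>
    intro t i
    rw [avg_succ, ih, ih]
    rcases lt_trichotomy i n with h | h | h
    · rw [if_pos h, if_pos h, if_pos (Nat.lt_succ_of_lt h)]; ring
    · subst h
      simp [sg]; ring
    · rw [if_neg (not_lt.mpr h.le), if_neg (not_lt.mpr h.le), if_neg (by omega),
        Function.update_of_ne h.ne', Function.update_of_ne h.ne']
      ring

lemma avg_osc (s : (ℕ → Bool) → StrongDual ℝ Z) (a : ℕ → ℝ) (ha : ∀ i, |a i| ≤ 1) (z : Z) (η : ℝ)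
    (m : ℕ) (hs : ∀ t t', (∀ i < m, t i = t' i) → |s t z - s t' z| ≤ η) (n : ℕ) :
    ∀ t t', (∀ i < m, n ≤ i → t i = t' i) → |avg s a n t z - avg s a n t' z| ≤ η := by
  induction n with
  | zero => exact fun t t' h => hs t t' fun i hi => h i hi (Nat.zero_le _)
  | succ n ih =>
    intro t t' h
    have key : ∀ b, ∀ i < m, n ≤ i → Function.update t n b i = Function.update t' n b i := by
      intro b i hi hn
      rcases hn.eq_or_lt with rfl | hlt
      · simp
      · rw [Function.update_of_ne hlt.ne', Function.update_of_ne hlt.ne', h i hi hlt]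
    rw [avg_succ, avg_succ]
    exact comb_le (ha n) (ih _ _ (key true)) (ih _ _ (key false))

lemma avg_cauchy (s : (ℕ → Bool) → StrongDual ℝ Z) (a : ℕ → ℝ) (ha : ∀ i, |a i| ≤ 1) (z : Z)
    (η : ℝ) (m : ℕ) (hs : ∀ t t', (∀ i < m, t i = t' i) → |s t z - s t' z| ≤ η) (n : ℕ)
    (hn : m ≤ n) : ∀ t t', |avg s a n t z - avg s a m t' z| ≤ η := by
  induction n, hn using Nat.le_induction with
  | base => exact fun t t' => avg_osc s a ha z η m hs m t t' fun i hi h => absurd hi (not_lt.mpr h)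
  | succ n hn ih =>
    intro t t'
    have := comb_le (ha n) (ih (Function.update t n true) t') (ih (Function.update t n false) t')
    rw [avg_succ]
    convert this using 2
    ring

lemma avg_cont (s : (ℕ → Bool) → StrongDual ℝ Z) {l : Filter ℕ} (a : ℕ → ℕ → ℝ) (a0 : ℕ → ℝ)
    (h : ∀ i, Tendsto (fun k => a k i) l (𝓝 (a0 i))) (z : Z) (n : ℕ) :
    ∀ t, Tendsto (fun k => avg s (a k) n t z) l (𝓝 (avg s a0 n t z)) := by
  induction n with
  | zero => exact fun t => tendsto_const_nhds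
  | succ n ih =>
    intro t
    simp only [avg_succ]
    exact ((((h n).const_add 1).div_const 2).mul (ih _)).add
      ((((h n).const_sub 1).div_const 2).mul (ih _))

/-- An odd bounded selection on the cube that is continuous for pointwise convergence. -/
theorem exists_cube_selection [TopologicalSpace.SeparableSpace Z] (e : ℕ → Z)
    (he : ∀ t : ℕ → Bool, ∃ φ : StrongDual ℝ Z, ‖φ‖ ≤ 1 ∧ ∀ i, φ (e i) = sg (t i)) :
    ∃ S : (ℕ → ℝ) → StrongDual ℝ Z, (∀ a, S (-a) = -S a) ∧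
      (∀ a, (∀ i, |a i| ≤ 1) → ‖S a‖ ≤ 2 ∧ ∀ i, S a (e i) = a i) ∧
      ∀ (l : Filter ℕ) (a : ℕ → ℕ → ℝ) (a0 : ℕ → ℝ), (∀ k i, |a k i| ≤ 1) → (∀ i, |a0 i| ≤ 1) →
        (∀ i, Tendsto (fun k => a k i) l (𝓝 (a0 i))) →
        ∀ z, Tendsto (fun k => S (a k) z) l (𝓝 (S a0 z)) := by
  classical
  obtain ⟨s, hs1, hs2, hs3⟩ := exists_sign_selection e he
  have hb : ∀ a : ℕ → ℝ, (∀ i, |a i| ≤ 1) → ∀ n z, |avg s a n (fun _ => true) z| ≤ 2 * ‖z‖ :=
    fun a ha n z => avg_bound s a ha z _ (fun t => le_trans ((s t).le_opNorm z)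
      (mul_le_mul_of_nonneg_right (hs1 t) (norm_nonneg _))) n _
  have hex : ∀ a : ℕ → ℝ, ∃ ψ : StrongDual ℝ Z, (∀ i, |a i| ≤ 1) →
      ∀ z, Tendsto (fun n => avg s a n (fun _ => true) z) (Filter.hyperfilter ℕ) (𝓝 (ψ z)) := by
    intro a
    by_cases ha : ∀ i, |a i| ≤ 1
    · obtain ⟨ψ, hψ⟩ := limit_form (Filter.hyperfilter ℕ) (fun n => avg s a n (fun _ => true)) 2
        fun n => ContinuousLinearMap.opNorm_le_bound _ (by norm_num) (hb a ha n)
      exact ⟨ψ, fun _ => hψ⟩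
    · exact ⟨0, fun h => absurd h ha⟩
  choose T hT using hex
  have hT1 : ∀ a, (∀ i, |a i| ≤ 1) → ‖T a‖ ≤ 2 := fun a ha =>
    ContinuousLinearMap.opNorm_le_bound _ (by norm_num) fun z =>
      le_of_tendsto' (hT a ha z).abs fun n => hb a ha n z
  have hT2 : ∀ a, (∀ i, |a i| ≤ 1) → ∀ i, T a (e i) = a i := by
    intro a ha i
    refine tendsto_nhds_unique (hT a ha (e i)) (tendsto_const_nhds.congr' ?_)
    filter_upwards [hyper_le (eventually_gt_atTop i)] with n hn
    rw [avg_e s a e hs2, if_pos hn]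
  have hT3 : ∀ z, ∀ η > 0, ∃ m, ∀ a, (∀ i, |a i| ≤ 1) →
      |T a z - avg s a m (fun _ => true) z| ≤ η := by
    intro z η hη
    obtain ⟨m, hm⟩ := hs3 z η hη
    refine ⟨m, fun a ha => le_of_tendsto ((hT a ha z).sub_const _).abs ?_⟩
    filter_upwards [hyper_le (eventually_ge_atTop m)] with n hn
    exact avg_cauchy s a ha z η m hm n hn _ _
  have hT4 : ∀ (l : Filter ℕ) (a : ℕ → ℕ → ℝ) (a0 : ℕ → ℝ), (∀ k i, |a k i| ≤ 1) →
      (∀ i, |a0 i| ≤ 1) → (∀ i, Tendsto (fun k => a k i) l (𝓝 (a0 i))) →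
      ∀ z, Tendsto (fun k => T (a k) z) l (𝓝 (T a0 z)) := by
    intro l a a0 ha ha0 h z
    rw [Metric.tendsto_nhds]
    intro ε hε
    obtain ⟨m, hm⟩ := hT3 z (ε / 4) (by positivity)
    filter_upwards [Metric.tendsto_nhds.mp (avg_cont s a a0 h z m (fun _ => true)) (ε / 4)
      (by positivity)] with k hk
    rw [Real.dist_eq] at hk ⊢
    have h1 := abs_le.mp (hm (a k) (ha k))
    have h2 := abs_le.mp (hm a0 ha0)
    have h3 := abs_lt.mp hk
    rw [abs_lt]
    constructor <;> linarith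
  refine ⟨fun a => (1 / 2 : ℝ) • (T a - T (-a)), fun a => ?_, fun a ha => ⟨?_, fun i => ?_⟩,
    fun l a a0 ha ha0 h z => ?_⟩
  · ext z
    simp only [neg_neg, ContinuousLinearMap.smul_apply, ContinuousLinearMap.sub_apply,
      ContinuousLinearMap.neg_apply, smul_eq_mul]
    ring
  · rw [norm_smul, Real.norm_eq_abs, abs_of_pos (by norm_num)]
    have h1 := norm_sub_le (T a) (T (-a))
    have h2 := hT1 a ha
    have h3 := hT1 (-a) fun i => by simpa using ha i
    linarith
  · simp only [ContinuousLinearMap.smul_apply, ContinuousLinearMap.sub_apply, smul_eq_mul]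
    rw [hT2 a ha, hT2 (-a) fun i => by simpa using ha i]
    simp only [Pi.neg_apply]
    ring
  · simp only [ContinuousLinearMap.smul_apply, ContinuousLinearMap.sub_apply, smul_eq_mul]
    refine ((hT4 l a a0 ha ha0 h z).sub (hT4 l (fun k => -a k) (-a0) (fun k i => by simpa using ha k i)
      (fun i => by simpa using ha0 i) (fun i => (h i).neg) z)).const_mul _

end Pool.Agent.H2.Gs
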