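import Pool.Agent.H2.SmD

set_option autoImplicit false

namespace Pool.Agent.H2.Gs

open Filter Topology Pool.Agent.H2.Sm

section Gat

variable {E : Type} [NormedAddCommGroup E] [NormedSpace ℝ E]

/-- Directional differentiability with a continuous linear derivative. -/
def GD (f : E → ℝ) (x0 : E) (z0 : StrongDual ℝ E) : Prop :=
  ∀ h, HasDerivAt (fun t : ℝ => f (x0 + t • h)) (z0 h) 0

lemma S1G (K : Set (StrongDual ℝ E)) (R : ℝ) (hR : ∀ z ∈ K, ‖z‖ ≤ R) (f : E → ℝ)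
    (hle : ∀ z ∈ K, ∀ x, z x ≤ f x) (hge : ∀ x c, (∀ z ∈ K, z x ≤ c) → f x ≤ c)
    (x0 : E) (z0 : StrongDual ℝ E) (hz0 : z0 ∈ K) (h0 : z0 x0 = f x0)
    (hexp : ∀ (U : Ultrafilter ℕ) (z : ℕ → StrongDual ℝ E), (∀ k, z k ∈ K) →
      Tendsto (fun k => z k x0) U (𝓝 (f x0)) → ∀ h, Tendsto (fun k => z k h) U (𝓝 (z0 h))) :
    GD f x0 z0 := by
  intro h
  have hδ : ∀ ε > 0, ∃ δ > 0, ∀ z ∈ K, f x0 - δ < z x0 → |z h - z0 h| ≤ ε := by
    intro ε hε
    by_contra hcon
    push Not at hcon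
    choose z hz1 hz2 hz3 using fun k : ℕ => hcon (1 / ((k:ℝ) + 1)) (by positivity)
    have h1 : Tendsto (fun k => z k x0) (Filter.hyperfilter ℕ) (𝓝 (f x0)) := by
      have h2 := (tendsto_inv_U _ hyper_le).const_sub (f x0)
      rw [sub_zero] at h2
      exact tendsto_of_tendsto_of_tendsto_of_le_of_le h2 tendsto_const_nhds
        (fun k => (hz2 k).le) (fun k => hle _ (hz1 k) x0)
    have h3 := Metric.tendsto_nhds.mp (hexp _ z hz1 h1 h) ε hε
    obtain ⟨k, hk⟩ := h3.exists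
    rw [Real.dist_eq] at hk
    exact absurd (hz3 k) (not_lt.mpr hk.le)
  rw [hasDerivAt_iff_isLittleO_nhds_zero, Asymptotics.isLittleO_iff]
  intro ε hε
  obtain ⟨δ, hδ0, hδ⟩ := hδ ε hε
  have hR0 : 0 ≤ R := le_trans (norm_nonneg _) (hR z0 hz0)
  have hn := norm_nonneg h
  have hb : ∀ᶠ t in 𝓝 (0:ℝ), |t| < δ / (2 * R * ‖h‖ + 1) := by
    have := Metric.ball_mem_nhds (0:ℝ) (show 0 < δ / (2 * R * ‖h‖ + 1) by positivity)
    filter_upwards [this] with t ht
    simpa using ht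
  filter_upwards [hb] with t ht
  simp only [zero_add, zero_smul, add_zero, smul_eq_mul, Real.norm_eq_abs]
  have h1 : 0 ≤ f (x0 + t • h) - f x0 - t * z0 h := by
    have := hle z0 hz0 (x0 + t • h)
    rw [map_add, h0, map_smul, smul_eq_mul] at this
    linarith
  rw [abs_of_nonneg h1]
  have h2 : f (x0 + t • h) ≤ f x0 + t * z0 h + ε * |t| := by
    refine hge _ _ fun z hz => ?_
    rw [map_add, map_smul, smul_eq_mul]
    have h4 : t * z h - t * z0 h ≤ |t| * |z h - z0 h| := by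
      rw [← mul_sub, ← abs_mul]; exact le_abs_self _
    have ht0 := abs_nonneg t
    by_cases hc : f x0 - δ < z x0
    · have h3 := mul_le_mul_of_nonneg_left (hδ z hz hc) ht0
      have h6 := hle z hz x0
      nlinarith
    · have h3 : |z h - z0 h| ≤ 2 * R * ‖h‖ := by
        have a1 := abs_sub (z h) (z0 h)
        have a2 := abs_apply_le z h
        have a3 := abs_apply_le z0 h
        have a4 := mul_le_mul_of_nonneg_right (hR z hz) hn
        have a5 := mul_le_mul_of_nonneg_right (hR z0 hz0) hn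
        linarith
      rw [lt_div_iff₀ (by positivity)] at ht
      have h5 := mul_le_mul_of_nonneg_left h3 ht0
      nlinarith
  linarith

lemma GD.slope {f : E → ℝ} {x0 : E} {z0 : StrongDual ℝ E} (hf : GD f x0 z0) (h : E) :
    Tendsto (fun t : ℝ => t⁻¹ * (f (x0 + t • h) - f x0)) (𝓝[>] 0) (𝓝 (z0 h)) := by
  have h4 := (hf h).tendsto_slope_zero_right
  simpa using h4

lemma S2G {ι : Type} {l : Filter ι} (f : E → ℝ) (x0 : E) (z0 : StrongDual ℝ E)
    (hf : GD f x0 z0) (z : ι → StrongDual ℝ E) (hz : ∀ᶠ k in l, ∀ x, z k x ≤ f x)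
    (hlim : Tendsto (fun k => z k x0) l (𝓝 (f x0))) (h : E) :
    Tendsto (fun k => z k h) l (𝓝 (z0 h)) := by
  have key : ∀ h : E, ∀ ε > 0, ∀ᶠ k in l, z k h < z0 h + ε := by
    intro h ε hε
    obtain ⟨t, ht1, ht2⟩ := (((hf.slope h).eventually (gt_mem_nhds
      (show z0 h < z0 h + ε / 2 by linarith))).and self_mem_nhdsWithin).exists
    have ht : (0:ℝ) < t := ht2
    rw [inv_mul_lt_iff₀ ht] at ht1
    filter_upwards [hz, hlim.eventually (lt_mem_nhds
      (show f x0 - t * ε / 2 < f x0 by have : 0 < t * ε / 2 := by positivity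
                                       linarith))] with k hk1 hk2
    have h1 := hk1 (x0 + t • h)
    rw [map_add, map_smul, smul_eq_mul] at h1
    have h2 : t * z k h < t * (z0 h + ε) := by linarith
    exact lt_of_mul_lt_mul_left h2 ht.le
  rw [Metric.tendsto_nhds]
  intro ε hε
  filter_upwards [key h ε hε, key (-h) ε hε] with k h1 h2
  rw [map_neg, map_neg] at h2
  rw [Real.dist_eq, abs_lt]
  constructor <;> linarith

lemma GD.unique {f : E → ℝ} {x0 : E} {z0 : StrongDual ℝ E} (hf : GD f x0 z0) {z : StrongDual ℝ E}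
    (hz : ∀ x, z x ≤ f x) (h0 : z x0 = f x0) : z = z0 := by
  ext h
  have := S2G (l := (atTop : Filter ℕ)) f x0 z0 hf (fun _ => z) (Eventually.of_forall fun _ => hz)
    (h0 ▸ tendsto_const_nhds) h
  exact tendsto_nhds_unique tendsto_const_nhds this

lemma GD.support {q : Seminorm ℝ E} {y : E} {w : StrongDual ℝ E} (h : GD q y w) :
    (∀ x, w x ≤ q x) ∧ w y = q y := by
  constructor
  · intro x
    refine le_of_tendsto (h.slope x) (eventually_nhdsWithin_of_forall fun t ht => ?_)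
    have ht' : (0:ℝ) < t := ht
    rw [inv_mul_le_iff₀ ht']
    have := map_add_le_add q y (t • x)
    rw [map_smul_eq_mul, Real.norm_eq_abs, abs_of_pos ht'] at this
    linarith
  · refine tendsto_nhds_unique (h.slope y) (tendsto_const_nhds.congr' ?_)
    refine eventually_nhdsWithin_of_forall fun t ht => ?_
    have ht' : (0:ℝ) < t := ht
    have : y + t • y = (1 + t) • y := by rw [add_smul, one_smul]
    show q y = t⁻¹ * (q (y + t • y) - q y)
    rw [this, map_smul_eq_mul, Real.norm_eq_abs, abs_of_pos (by linarith)]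
    field_simp
    ring

lemma abs_le_of_le (q : Seminorm ℝ E) {w : StrongDual ℝ E} (h : ∀ x, w x ≤ q x) (x : E) :
    |w x| ≤ q x := by
  refine abs_le.mpr ⟨?_, h x⟩
  have := h (-x)
  rw [map_neg, map_neg_eq_map] at this
  linarith

/-- Lower semicontinuity for pointwise ultralimits. -/
def Lsc (ρ : Seminorm ℝ (StrongDual ℝ E)) : Prop :=
  ∀ (U : Ultrafilter ℕ) (z : ℕ → StrongDual ℝ E) (z' : StrongDual ℝ E),
    (∀ x, Tendsto (fun k => z k x) U (𝓝 (z' x))) → ∀ c, (∀ᶠ k in U, ρ (z k) ≤ c) → ρ z' ≤ c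

lemma Lsc.sup {μ M : Seminorm ℝ (StrongDual ℝ E)} (h1 : Lsc μ) (h2 : Lsc M) : Lsc (μ ⊔ M) :=
  fun U z z' hl c hc => sup_le (h1 U z z' hl c (hc.mono fun _ hk => le_trans le_sup_left hk))
    (h2 U z z' hl c (hc.mono fun _ hk => le_trans le_sup_right hk))

lemma lsc_abs (x : E) : Lsc (absSN (evl x)) :=
  fun _ _ _ hl _ hc => le_of_tendsto (hl x).abs hc

lemma lsc_polar {S : Set E} {N : Seminorm ℝ (StrongDual ℝ E)}
    (h1 : ∀ x ∈ S, ∀ z : StrongDual ℝ E, |z x| ≤ N z)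
    (h2 : ∀ (z : StrongDual ℝ E) c, 0 ≤ c → (∀ x ∈ S, |z x| ≤ c) → N z ≤ c) : Lsc N := by
  intro U z z' hl c hc
  obtain ⟨k, hk⟩ := hc.exists
  exact h2 z' c (le_trans (apply_nonneg _ _) hk) fun x hx =>
    le_of_tendsto (hl x).abs (hc.mono fun k hk => le_trans (h1 x hx _) hk)

lemma lsc_l2 {ρ : ℕ → Seminorm ℝ (StrongDual ℝ E)} (hB : Bd ρ) (h : ∀ n, Lsc (ρ n)) :
    Lsc (l2 ρ hB) := by
  intro U z z' hl c hc
  obtain ⟨k0, hk0⟩ := hc.exists
  have hc0 : 0 ≤ c := le_trans (apply_nonneg _ _) hk0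
  have hr : ∀ n, ∃ r, Tendsto (fun k => ρ n (z k)) U (𝓝 r) := by
    intro n
    have hm : ((U.map fun k => ρ n (z k) : Ultrafilter ℝ) : Filter ℝ) ≤
        𝓟 (Set.Icc 0 (2 ^ (n + 1) * c ^ 2 + 1)) := by
      rw [le_principal_iff, Ultrafilter.coe_map, mem_map]
      filter_upwards [hc] with k hk
      refine ⟨apply_nonneg _ _, ?_⟩
      have h1 := term_le_l2 hB (z k) n
      have h2 := pow_le_pow_left₀ (apply_nonneg _ _) hk 2
      have h3 : (2:ℝ) ^ (n + 1) * (1 / 2) ^ (n + 1) = 1 := by rw [← mul_pow]; norm_num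
      have h4 : (0:ℝ) ≤ 2 ^ (n + 1) := by positivity
      have h5 := mul_le_mul_of_nonneg_left (h1.trans h2) h4
      rw [← mul_assoc, h3, one_mul] at h5
      show ρ n (z k) ≤ _
      nlinarith [sq_nonneg (ρ n (z k) - 1)]
    obtain ⟨r, -, hr⟩ := isCompact_Icc.ultrafilter_le_nhds _ hm
    exact ⟨r, hr⟩
  choose r hr using hr
  have h1 : ∀ n, ρ n z' ≤ r n := fun n => le_of_forall_pos_le_add fun ε hε =>
    h n U z z' hl _ (((hr n).eventually (gt_mem_nhds (show r n < r n + ε by linarith))).mono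
      fun _ hk => hk.le)
  refine (abs_le_of_sq_le_sq' ?_ hc0).2
  rw [l2_sq]
  refine (hB.summable z').tsum_le_of_sum_le fun s => ?_
  have h2 : Tendsto (fun k => ∑ n ∈ s, (1 / 2 : ℝ) ^ (n + 1) * ρ n (z k) ^ 2) U
      (𝓝 (∑ n ∈ s, (1 / 2 : ℝ) ^ (n + 1) * r n ^ 2)) :=
    tendsto_finset_sum s fun n _ => ((hr n).pow 2).const_mul _
  refine le_trans (Finset.sum_le_sum fun n _ => ?_) (le_of_tendsto h2 ?_)
  · exact mul_le_mul_of_nonneg_left (pow_le_pow_left₀ (apply_nonneg _ _) (h1 n) 2) (by positivity)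
  · filter_upwards [hc] with k hk
    exact le_trans (sum_le_l2 hB _ s) (pow_le_pow_left₀ (apply_nonneg _ _) hk 2)

end Gat

section Def0

variable {V : Type} [AddCommGroup V] [Module ℝ V]

lemma D_comp_zero {ρ : ℕ → Seminorm ℝ V} (hB : Bd ρ) {a b : V} (h : D (l2 ρ hB) a b ≤ 0) (n : ℕ) :
    D (ρ n) a b ≤ 0 := by
  have h1 := le_trans (D_le_l2 hB a b n) h
  by_contra hcon
  have : 0 < (1 / 2 : ℝ) ^ (n + 1) * D (ρ n) a b := mul_pos (by positivity) (not_le.mp hcon)
  linarith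

lemma D_sup_zero (μ M : Seminorm ℝ V) {a b : V} (hlt : μ a < M a) (h : D (μ ⊔ M) a b ≤ 0) :
    D M a b ≤ 0 := by
  have h0 : D (μ ⊔ M) a b = 0 := le_antisymm h (D_nonneg _ _ _)
  have := tendsto_D_sup (l := (atTop : Filter ℕ)) μ M a (fun _ => b) hlt
    (by simp only [h0]; exact tendsto_const_nhds)
  exact le_of_eq (tendsto_nhds_unique tendsto_const_nhds this)

lemma D_comm (ρ : Seminorm ℝ V) (a b : V) : D ρ a b = D ρ b a := by
  unfold D
  rw [add_comm a b]
  ring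

/-- The Euclidean combination of two seminorms. -/
noncomputable def euc (p d : Seminorm ℝ V) : Seminorm ℝ V :=
  Seminorm.of (fun v => √(p v ^ 2 + d v ^ 2))
    (fun a b => by
      rw [Real.sqrt_le_iff]
      refine ⟨by positivity, ?_⟩
      have h1 := pow_le_pow_left₀ (apply_nonneg _ _) (map_add_le_add p a b) 2
      have h2 := pow_le_pow_left₀ (apply_nonneg _ _) (map_add_le_add d a b) 2
      have h3 := Real.sq_sqrt (show 0 ≤ p a ^ 2 + d a ^ 2 by positivity)
      have h4 := Real.sq_sqrt (show 0 ≤ p b ^ 2 + d b ^ 2 by positivity)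
      have h5 : p a * p b + d a * d b ≤ √(p a ^ 2 + d a ^ 2) * √(p b ^ 2 + d b ^ 2) := by
        rw [← Real.sqrt_mul (by positivity)]
        refine Real.le_sqrt_of_sq_le ?_
        nlinarith [sq_nonneg (p a * d b - d a * p b)]
      nlinarith)
    (fun c v => by
      rw [map_smul_eq_mul, map_smul_eq_mul, mul_pow, mul_pow, ← mul_add,
        Real.sqrt_mul (sq_nonneg _), Real.sqrt_sq (norm_nonneg _)])

lemma euc_apply (p d : Seminorm ℝ V) (v : V) : euc p d v = √(p v ^ 2 + d v ^ 2) := rfl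

end Def0

variable {X Z : Type} [NormedAddCommGroup X] [NormedSpace ℝ X] [NormedAddCommGroup Z]
  [NormedSpace ℝ Z]

theorem stage1G (ι : X →ₗᵢ[ℝ] Z) (q : Seminorm ℝ X) (c : ℝ) (hc : 0 < c)
    (hq : ∀ y, c * ‖y‖ ≤ q y) (hd : ∀ y, y ≠ 0 → ∃ w, GD q y w)
    (sel : StrongDual ℝ X → StrongDual ℝ Z) (R : ℝ) (hR : 0 ≤ R) (hodd : ∀ w, sel (-w) = -sel w)
    (hsel : ∀ w : StrongDual ℝ X, (∀ x, w x ≤ q x) → ‖sel w‖ ≤ R ∧ ∀ x, sel w (ι x) = w x)
    (hcont : ∀ (U : Ultrafilter ℕ) (w : ℕ → StrongDual ℝ X) (w0 : StrongDual ℝ X),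
      (∀ k x, w k x ≤ q x) → (∀ x, w0 x ≤ q x) → (∀ x, Tendsto (fun k => w k x) U (𝓝 (w0 x))) →
      ∀ z, Tendsto (fun k => sel (w k) z) U (𝓝 (sel w0 z))) :
    ∃ p : Seminorm ℝ Z, (∀ x, c / 2 * ‖x‖ ≤ p x ∧ p x ≤ (R + c) * ‖x‖) ∧
      (∀ y, p (ι y) = q y) ∧ ∀ y, y ≠ 0 → ∃ z0, GD p (ι y) z0 := by
  classical
  let K : Set (StrongDual ℝ Z) := {z | (∃ w : StrongDual ℝ X, (∀ x, w x ≤ q x) ∧ z = sel w) ∨
    ‖z‖ ≤ c / 2}
  have hKR : ∀ z ∈ K, ‖z‖ ≤ R + c := by
    rintro z (⟨w, hw, rfl⟩ | hz)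
    · have := (hsel w hw).1
      linarith
    · linarith
  have hball : ∀ z : StrongDual ℝ Z, ‖z‖ ≤ c / 2 → ∀ y, |z (ι y)| ≤ q y / 2 := by
    intro z hz y
    have h3 := abs_apply_le z (ι y)
    have h4 := hq y
    rw [ι.norm_map] at h3
    have := mul_le_mul_of_nonneg_right hz (norm_nonneg y)
    linarith
  have hKq : ∀ z ∈ K, ∀ y, |z (ι y)| ≤ q y := by
    rintro z (⟨w, hw, rfl⟩ | hz) y
    · rw [(hsel w hw).2]; exact abs_le_of_le q hw y
    · have := hball z hz y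
      have := apply_nonneg q y
      linarith
  have hKneg : ∀ z ∈ K, -z ∈ K := by
    rintro z (⟨w, hw, rfl⟩ | hz)
    · refine Or.inl ⟨-w, fun x => ?_, (hodd w).symm⟩
      rw [ContinuousLinearMap.neg_apply]
      exact le_trans (neg_le_abs _) (abs_le_of_le q hw x)
    · exact Or.inr (by rwa [norm_neg])
  have hK0 : (0 : StrongDual ℝ Z) ∈ K := Or.inr (by rw [norm_zero]; positivity)
  obtain ⟨p, hp1, hp2⟩ := exists_polarX K _ hKR
  have hext : ∀ y, p (ι y) = q y := by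
    intro y
    refine le_antisymm (hp2 _ _ (apply_nonneg _ _) fun z hz => hKq z hz y) ?_
    by_cases hy : y = 0
    · rw [hy, map_zero q]; exact apply_nonneg _ _
    · obtain ⟨w, hw⟩ := hd y hy
      rw [← hw.support.2, ← (hsel w hw.support.1).2]
      exact le_trans (le_abs_self _) (hp1 _ (Or.inl ⟨w, hw.support.1, rfl⟩) _)
  refine ⟨p, fun x => ⟨?_, ?_⟩, hext, fun y hy => ?_⟩
  · obtain ⟨g, hg1, hg2⟩ := exists_dual_vector'' ℝ x
    have hg2' : g x = ‖x‖ := hg2
    have h3 := hp1 ((c / 2) • g) (Or.inr (by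
      rw [norm_smul, Real.norm_eq_abs, abs_of_pos (by positivity)]
      exact mul_le_of_le_one_right (by positivity) hg1)) x
    rw [ContinuousLinearMap.smul_apply, hg2', smul_eq_mul] at h3
    exact le_trans (le_abs_self _) h3
  · refine hp2 _ _ (by positivity) fun z hz => le_trans (abs_apply_le z x) ?_
    exact mul_le_mul_of_nonneg_right (hKR z hz) (norm_nonneg _)
  · obtain ⟨w0, hw0⟩ := hd y hy
    have hqy : 0 < q y := lt_of_lt_of_le (mul_pos hc (norm_pos_iff.mpr hy)) (hq y)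
    refine ⟨sel w0, S1G K _ hKR p (fun z hz x => le_trans (le_abs_self _) (hp1 z hz x)) ?_ (ι y) _
      (Or.inl ⟨w0, hw0.support.1, rfl⟩)
      (by rw [(hsel w0 hw0.support.1).2, hw0.support.2, hext]) ?_⟩
    · intro x a ha
      refine hp2 x a (by simpa using ha 0 hK0) fun z hz => abs_le.mpr ⟨?_, ha z hz⟩
      have := ha _ (hKneg z hz)
      rw [ContinuousLinearMap.neg_apply] at this
      linarith
    · intro U z hzK hlim h
      rw [hext] at hlim
      have hw : ∀ k, ∃ w : StrongDual ℝ X, (∀ x, w x ≤ q x) ∧ (q y / 2 < z k (ι y) → z k = sel w) := by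
        intro k
        rcases hzK k with ⟨w, hw, h⟩ | h
        · exact ⟨w, hw, fun _ => h⟩
        · exact ⟨w0, hw0.support.1, fun hk =>
            absurd hk (not_lt.mpr (le_trans (le_abs_self _) (hball _ h y)))⟩
      choose w hw1 hw2 using hw
      have hev : ∀ᶠ k in U, z k = sel (w k) :=
        (hlim.eventually (lt_mem_nhds (show q y / 2 < q y by linarith))).mono fun k hk => hw2 k hk
      have hlim' : Tendsto (fun k => w k y) U (𝓝 (q y)) := by
        refine hlim.congr' ?_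
        filter_upwards [hev] with k hk
        rw [hk, (hsel _ (hw1 k)).2]
      have := hcont U w w0 hw1 hw0.support.1
        (S2G q y w0 hw0 w (Eventually.of_forall hw1) hlim') h
      refine this.congr' ?_
      filter_upwards [hev] with k hk
      rw [hk]

end Pool.Agent.H2.Gs
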