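import Pool.Agent.H2.GsC

set_option autoImplicit false

namespace Pool.Agent.H2.Gs

open Filter Topology Pool.Agent.H2.Sm

variable {Z : Type} [NormedAddCommGroup Z] [NormedSpace ℝ Z]

lemma exists_MG (L N : Seminorm ℝ (StrongDual ℝ Z)) (hL : ∀ a b, D L a b ≤ 0 → a = b)
    (hLc : Lsc L) (hLN : ∀ z, L z ≤ N z) (x : Z) (hg : ∀ z : StrongDual ℝ Z, |z x| ≤ N z) (m : ℕ) :
    ∃ M : Seminorm ℝ (StrongDual ℝ Z), (∀ a b, D M a b ≤ 0 → a = b) ∧ Lsc M ∧ (∀ z, M z ≤ N z) ∧
      ∀ z : StrongDual ℝ Z, (1 - (1 / 2) ^ m) * z x ^ 2 ≤ M z ^ 2 := by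
  let ρ : ℕ → Seminorm ℝ (StrongDual ℝ Z) := fun j => if j < m then absSN (evl x) else L
  have hρ : ∀ j z, ρ j z ≤ N z := by
    intro j z
    simp only [ρ]
    split_ifs
    · exact hg z
    · exact hLN z
  have hB : Bd ρ := fun z => ⟨N z, fun j => hρ j z⟩
  refine ⟨l2 ρ hB, fun a b hD => ?_, lsc_l2 hB fun j => ?_, fun z => l2_le hB fun j => hρ j z,
    fun z => ?_⟩
  · have h1 := D_comp_zero hB hD m
    have : ρ m = L := by simp [ρ]
    rw [this] at h1
    exact hL a b h1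
  · simp only [ρ]
    split_ifs
    · exact lsc_abs x
    · exact hLc
  · refine le_trans (le_of_eq ?_) (sum_le_l2 hB z (Finset.range m))
    rw [← geo_sum, Finset.sum_mul]
    refine Finset.sum_congr rfl fun j hj => ?_
    have : ρ j = absSN (evl x) := by simp [ρ, Finset.mem_range.mp hj]
    rw [this, absSN_apply, sq_abs]
    rfl

lemma le_of_small {a b k : ℝ} (hk : 0 ≤ k) (h : ∀ t : ℝ, 0 < t → a ≤ b + t * k) : a ≤ b := by
  refine le_of_forall_pos_le_add fun ε hε => ?_
  have := h (ε / (k + 1)) (by positivity)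
  have h2 : ε / (k + 1) * k ≤ ε := by
    rw [div_mul_eq_mul_div, div_le_iff₀ (by positivity)]
    nlinarith
  linarith

lemma sqrt_le_aux {a b A B : ℝ} (ha : 0 ≤ a) (hb : 0 ≤ b) (h1 : a ≤ A) (h2 : b ≤ B) (hA : 1 ≤ A) :
    √(a ^ 2 + b ^ 2) ≤ A + B ^ 2 / 2 := by
  refine Real.sqrt_le_iff.mpr ⟨by positivity, ?_⟩
  have := pow_le_pow_left₀ ha h1 2
  have := pow_le_pow_left₀ hb h2 2
  nlinarith [sq_nonneg B, sq_nonneg (B ^ 2), mul_le_mul_of_nonneg_right hA (sq_nonneg B)]

theorem stage2G [TopologicalSpace.SeparableSpace Z]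
    (Y : Submodule ℝ Z) (hY : IsClosed (Y : Set Z)) (p1 : Seminorm ℝ Z) (c C : ℝ) (hc : 0 < c)
    (hC : 0 < C) (hp : ∀ x, c * ‖x‖ ≤ p1 x ∧ p1 x ≤ C * ‖x‖)
    (hd : ∀ y ∈ Y, y ≠ 0 → ∃ z0, GD p1 y z0) :
    ∃ p : Seminorm ℝ Z, (∃ c C : ℝ, 0 < c ∧ ∀ x : Z, c * ‖x‖ ≤ p x ∧ p x ≤ C * ‖x‖) ∧
      (∀ x : Z, x ≠ 0 → ∃ z0, GD p x z0) ∧ ∀ y ∈ Y, p y = p1 y := by
  obtain ⟨d, hd1, hd2⟩ := exists_polarX {v : StrongDual ℝ Z | (∀ y ∈ Y, v y = 0) ∧ ‖v‖ ≤ 1} 1
    fun v hv => hv.2
  have hdY : ∀ y ∈ Y, d y = 0 := fun y hy => le_antisymm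
    (hd2 y 0 le_rfl fun v hv => by rw [hv.1 y hy, abs_zero]) (apply_nonneg _ _)
  have hdle : ∀ x, d x ≤ ‖x‖ := fun x => hd2 x _ (norm_nonneg _) fun v hv =>
    le_trans (abs_apply_le v x) (mul_le_of_le_one_left (norm_nonneg _) hv.2)
  set p2 := euc p1 d with hp2def
  have h12 : ∀ x, p1 x ≤ p2 x := fun x => by
    rw [hp2def, euc_apply]
    exact Real.le_sqrt_of_sq_le (by nlinarith [sq_nonneg (d x)])
  have h2Y : ∀ y ∈ Y, p2 y = p1 y := fun y hy => by
    rw [hp2def, euc_apply, hdY y hy]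
    simp [Real.sqrt_sq (apply_nonneg p1 y)]
  have h2up : ∀ x, p2 x ≤ (C + 1) * ‖x‖ := fun x => by
    rw [hp2def, euc_apply]
    refine Real.sqrt_le_iff.mpr ⟨by positivity, ?_⟩
    have h1 := pow_le_pow_left₀ (apply_nonneg _ _) (hp x).2 2
    have h2 := pow_le_pow_left₀ (apply_nonneg _ _) (hdle x) 2
    nlinarith [mul_nonneg hC.le (sq_nonneg ‖x‖)]
  have hball : ∀ x, p1 x ≤ 1 → ‖x‖ ≤ 1 / c := by
    intro x hx
    rw [le_div_iff₀ hc]
    have := (hp x).1
    linarith
  obtain ⟨μ, hμ1, hμ2⟩ := exists_polarZ {x | x ∈ Y ∧ p1 x ≤ 1} (1 / c) fun x hx => hball x hx.2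
  obtain ⟨N2, hN1, hN2⟩ := exists_polarZ {x | p2 x ≤ 1} (1 / c)
    fun x hx => hball x (le_trans (h12 x) hx)
  have hμN : ∀ z, μ z ≤ N2 z := fun z => hμ2 z _ (apply_nonneg _ _) fun x hx =>
    hN1 x (by show p2 x ≤ 1; rw [h2Y x hx.1]; exact hx.2) z
  have hN2p : ∀ (z : StrongDual ℝ Z) x, |z x| ≤ N2 z * p2 x := fun z x =>
    scale p2 (z : Z →ₗ[ℝ] ℝ) _ (fun v hv => hN1 v hv z) x
  have hN2low : ∀ z : StrongDual ℝ Z, ‖z‖ ≤ (C + 1) * N2 z := by
    intro z
    refine ContinuousLinearMap.opNorm_le_bound _ (mul_nonneg (by positivity) (apply_nonneg _ _))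
      fun x => ?_
    have h1 := hN2p z x
    have h2 := mul_le_mul_of_nonneg_left (h2up x) (apply_nonneg N2 z)
    rw [Real.norm_eq_abs]
    linarith
  have hN2up : ∀ z : StrongDual ℝ Z, N2 z ≤ 1 / c * ‖z‖ := by
    intro z
    refine hN2 z _ (by positivity) fun x hx => le_trans (abs_apply_le z x) ?_
    rw [mul_comm]
    exact mul_le_mul_of_nonneg_right (hball x (le_trans (h12 x) hx)) (norm_nonneg _)
  have hμp : ∀ (z : StrongDual ℝ Z), ∀ y ∈ Y, |z y| ≤ μ z * p1 y := by
    intro z y hy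
    exact scale (p1.comp Y.subtype) ((z : Z →ₗ[ℝ] ℝ).comp Y.subtype) _
      (fun v hv => hμ1 v ⟨v.2, hv⟩ z) ⟨y, hy⟩
  obtain ⟨t, ht1, ht2, ht3⟩ := (TopologicalSpace.IsSeparable.of_separableSpace
    {x : Z | p2 x ≤ 1}).exists_countable_dense_subset
  have htne : t.Nonempty := by
    have : (0:Z) ∈ closure t := ht3 (by simp)
    exact closure_nonempty_iff.mp ⟨0, this⟩
  obtain ⟨u, rfl⟩ := ht2.exists_eq_range htne
  have hu : ∀ n, p2 (u n) ≤ 1 := fun n => ht1 ⟨n, rfl⟩
  have hdense : ∀ (z : StrongDual ℝ Z) (a : ℝ), 0 ≤ a → (∀ n, |z (u n)| ≤ a) → N2 z ≤ a := by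
    intro z a ha h
    refine hN2 z _ ha fun v hv => ?_
    have hcl : IsClosed {v : Z | |z v| ≤ a} := isClosed_le (by fun_prop) continuous_const
    exact closure_minimal (by rintro _ ⟨n, rfl⟩; exact h n) hcl (ht3 hv)
  have hBA : Bd (fun n => absSN (evl (u n))) := fun z => ⟨N2 z, fun n => hN1 _ (hu n) z⟩
  have hL : ∀ a b, D (l2 _ hBA) a b ≤ 0 → a = b := by
    intro a b h
    have h1 : N2 (a - b) ≤ 0 := hdense _ 0 le_rfl fun n => by
      have h2 := D_comp_zero hBA h n
      rw [D_absSN] at h2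
      have h3 : evl (u n) a - evl (u n) b = 0 := by nlinarith [sq_nonneg (evl (u n) a - evl (u n) b)]
      have h4 : (a - b) (u n) = 0 := h3
      rw [h4, abs_zero]
    have h5 := hN2low (a - b)
    have h6 : ‖a - b‖ ≤ 0 := by nlinarith
    exact sub_eq_zero.mp (norm_le_zero_iff.mp h6)
  choose M hM1 hMc hM2 hM3 using fun (a m : ℕ) => exists_MG (l2 _ hBA) N2 hL
    (lsc_l2 hBA fun n => lsc_abs _) (fun z => l2_le hBA fun n => hN1 _ (hu n) z) (u a)
    (fun z => hN1 _ (hu a) z) m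
  let ρ : ℕ → Seminorm ℝ (StrongDual ℝ Z) := fun j =>
    match j with
    | 0 => N2
    | n + 1 => μ ⊔ M (Nat.unpair n).1 (Nat.unpair n).2
  have hρ1 : ∀ j z, ρ j z ≤ N2 z := by
    intro j z
    match j with
    | 0 => exact le_rfl
    | n + 1 => exact sup_le (hμN z) (hM2 _ _ z)
  have hρ2 : ∀ j z, μ z ≤ ρ j z := by
    intro j z
    match j with
    | 0 => exact hμN z
    | n + 1 => exact le_sup_left
  have hρc : ∀ j, Lsc (ρ j) := by
    intro j
    match j with
    | 0 => exact lsc_polar hN1 hN2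
    | n + 1 => exact (lsc_polar hμ1 hμ2).sup (hMc _ _)
  have hB : Bd ρ := fun z => ⟨N2 z, fun j => hρ1 j z⟩
  set N := l2 ρ hB with hN
  have hNc : Lsc N := lsc_l2 hB hρc
  have hNN : ∀ z, N z ≤ N2 z := fun z => l2_le hB fun j => hρ1 j z
  have hμN' : ∀ z, μ z ≤ N z := fun z => le_l2 hB (apply_nonneg _ _) fun j => hρ2 j z
  have hN2N : ∀ z, N2 z ≤ 2 * N z := by
    intro z
    have h1 : (1 / 2 : ℝ) ^ (0 + 1) * N2 z ^ 2 ≤ N z ^ 2 := term_le_l2 hB z 0
    refine (abs_le_of_sq_le_sq' ?_ (by have := apply_nonneg N z; linarith)).2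
    nlinarith [sq_nonneg (N z)]
  let B : Set (StrongDual ℝ Z) := {z | N z ≤ 1}
  have hBR : ∀ z ∈ B, ‖z‖ ≤ 2 * (C + 1) := by
    intro z hz
    have h1 := hN2low z
    have h2 := hN2N z
    have h3 : N z ≤ 1 := hz
    nlinarith
  have hBneg : ∀ z ∈ B, -z ∈ B := fun z hz => by
    show N (-z) ≤ 1
    rw [map_neg_eq_map]; exact hz
  obtain ⟨p, hp1, hp2⟩ := exists_polarX B _ hBR
  have hpN : ∀ (z : StrongDual ℝ Z) x, |z x| ≤ p x * N z := fun z x =>
    scale N (evl x) _ (fun v hv => hp1 v hv x) z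
  have hlow : ∀ x, c * ‖x‖ ≤ p x := by
    intro x
    obtain ⟨g, hg1, hg2⟩ := exists_dual_vector'' ℝ x
    have hg2' : g x = ‖x‖ := hg2
    have h3 := hp1 (c • g) (by
      show N (c • g) ≤ 1
      refine le_trans (hNN _) (le_trans (hN2up _) ?_)
      rw [norm_smul, Real.norm_eq_abs, abs_of_pos hc, ← mul_assoc, one_div_mul_cancel hc.ne',
        one_mul]
      exact hg1) x
    rw [ContinuousLinearMap.smul_apply, hg2', smul_eq_mul] at h3
    exact le_trans (le_abs_self _) h3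
  have hge : ∀ x a, (∀ z ∈ B, z x ≤ a) → p x ≤ a := by
    intro x a ha
    refine hp2 x a (by simpa using ha 0 (by simp [B])) fun z hz => abs_le.mpr ⟨?_, ha z hz⟩
    have := ha _ (hBneg z hz)
    rw [ContinuousLinearMap.neg_apply] at this
    linarith
  have hext : ∀ y ∈ Y, p y = p1 y := by
    intro y hy
    refine le_antisymm (hp2 _ _ (apply_nonneg _ _) fun z hz => le_trans (hμp z y hy) ?_) ?_
    · exact mul_le_of_le_one_left (apply_nonneg _ _) (le_trans (hμN' z) hz)
    · by_cases hy0 : y = 0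
      · rw [hy0, map_zero]; exact apply_nonneg _ _
      · obtain ⟨w, hw⟩ := hd y hy hy0
        rw [← hw.support.2]
        refine le_trans (le_abs_self _) (hp1 _ ?_ y)
        exact le_trans (hNN _) (hN2 _ _ zero_le_one fun v hv =>
          le_trans (abs_le_of_le p1 hw.support.1 v) (le_trans (h12 v) hv))
  -- forms on the cone are dominated by the first seminorm
  have hcone : ∀ z : StrongDual ℝ Z, N2 z ≤ 1 → 1 ≤ μ z → ∀ x, z x ≤ p1 x := by
    intro z hz1 hz2 x
    refine le_of_small (k := d x ^ 2 / 2) (by positivity) fun s hs => ?_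
    have key : ∀ ε > 0, 1 - ε + s * z x ≤ 1 + s * p1 x + (s * d x) ^ 2 / 2 := by
      intro ε hε
      have hy : ∃ y ∈ Y, p1 y ≤ 1 ∧ 1 - ε ≤ z y := by
        by_contra hcon
        push Not at hcon
        have h0 := hcon 0 Y.zero_mem (by simp)
        rw [map_zero] at h0
        have := hμ2 z _ h0.le fun v hv => abs_le.mpr ⟨by
          have := hcon (-v) (Y.neg_mem hv.1) (by rw [map_neg_eq_map]; exact hv.2)
          rw [map_neg] at this
          linarith, (hcon v hv.1 hv.2).le⟩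
        linarith
      obtain ⟨y, hy1, hy2, hy3⟩ := hy
      have h1 := le_trans (le_abs_self _) (hN2p z (y + s • x))
      have h2 : N2 z * p2 (y + s • x) ≤ p2 (y + s • x) :=
        mul_le_of_le_one_left (apply_nonneg _ _) hz1
      have h3 : p1 (y + s • x) ≤ 1 + s * p1 x := by
        have := map_add_le_add p1 y (s • x)
        rw [map_smul_eq_mul, Real.norm_eq_abs, abs_of_pos hs] at this
        linarith
      have h4 : d (y + s • x) ≤ s * d x := by
        have := map_add_le_add d y (s • x)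
        rw [map_smul_eq_mul, Real.norm_eq_abs, abs_of_pos hs, hdY y hy1] at this
        linarith
      have h5 : p2 (y + s • x) ≤ 1 + s * p1 x + (s * d x) ^ 2 / 2 :=
        sqrt_le_aux (apply_nonneg _ _) (apply_nonneg _ _) h3 h4
          (by have := mul_nonneg hs.le (apply_nonneg p1 x); linarith)
      rw [map_add, map_smul, smul_eq_mul] at h1
      linarith
    have h6 : 1 + s * z x ≤ 1 + s * p1 x + (s * d x) ^ 2 / 2 :=
      le_of_forall_pos_le_add fun ε hε => by have := key ε hε; linarith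
    have h7 : s * z x ≤ s * (p1 x + s * (d x ^ 2 / 2)) := by nlinarith
    exact le_of_mul_le_mul_left h7 hs
  refine ⟨p, ⟨c, 2 * (C + 1), hc, fun x => ⟨hlow x, ?_⟩⟩, fun x hx => ?_, hext⟩
  · refine hp2 _ _ (by positivity) fun z hz => le_trans (abs_apply_le z x) ?_
    exact mul_le_mul_of_nonneg_right (hBR z hz) (norm_nonneg _)
  · have hpx : 0 < p x := lt_of_lt_of_le (mul_pos hc (norm_pos_iff.mpr hx)) (hlow x)
    have hone : ∀ z : StrongDual ℝ Z, z x = p x → 1 ≤ N z := by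
      intro z hz
      have := le_trans (le_abs_self _) (hpN z x)
      rw [hz] at this
      by_contra hcon
      have := mul_lt_mul_of_pos_left (not_le.mp hcon) hpx
      linarith
    have hoff : ∀ a b : StrongDual ℝ Z, D N a b ≤ 0 → μ a < N2 a → a = b := by
      intro a b hD hcase
      have hex : ∃ n, μ a < |a (u n)| := by
        by_contra hcon
        push Not at hcon
        exact absurd (hdense a _ (apply_nonneg _ _) hcon) (not_le.mpr hcase)
      obtain ⟨n, hn⟩ := hex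
      have ha2 : μ a ^ 2 < a (u n) ^ 2 := by
        rw [← sq_abs (a (u n))]
        exact pow_lt_pow_left₀ hn (apply_nonneg _ _) two_ne_zero
      have hm : ∃ m : ℕ, μ a ^ 2 < (1 - (1 / 2) ^ m) * a (u n) ^ 2 := by
        have h1 : Tendsto (fun m : ℕ => (1 - (1 / 2 : ℝ) ^ m) * a (u n) ^ 2) atTop
            (𝓝 ((1 - 0) * a (u n) ^ 2)) :=
          ((tendsto_pow_atTop_nhds_zero_of_lt_one (by norm_num) (by norm_num)).const_sub 1).mul_const _
        rw [sub_zero, one_mul] at h1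
        exact (h1.eventually (lt_mem_nhds ha2)).exists
      obtain ⟨m, hm⟩ := hm
      have hlt : μ a < M n m a :=
        lt_of_pow_lt_pow_left₀ 2 (apply_nonneg _ _) (lt_of_lt_of_le hm (hM3 n m a))
      have h1 := D_comp_zero hB hD (Nat.pair n m + 1)
      have h2 : ρ (Nat.pair n m + 1) = μ ⊔ M n m := by simp only [ρ, Nat.unpair_pair]
      rw [h2] at h1
      exact hM1 n m a b (D_sup_zero μ _ hlt h1)
    have hon : ∀ a ∈ B, a x = p x → ¬ μ a < N2 a → (∀ v, a v ≤ p1 v) ∧ x ∈ Y := by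
      intro a haB hax hcase
      have h1 := hone a hax
      have h2 := hμN' a
      have h3 := hNN a
      have h4 : N a ≤ 1 := haB
      have h5 := not_lt.mp hcase
      have h6 := hcone a (by linarith) (by linarith)
      refine ⟨h6, ?_⟩
      have hperp : ∀ v : StrongDual ℝ Z, (∀ y ∈ Y, v y = 0) → ‖v‖ ≤ 1 → v x ≤ 0 := by
        intro v hv1 hv2
        refine le_of_small (k := p x / 2) (by positivity) fun s hs => ?_
        have h7 : N2 (a + s • v) ≤ 1 + s ^ 2 / 2 := by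
          refine hN2 _ _ (by positivity) fun w hw => ?_
          have hw' : √(p1 w ^ 2 + d w ^ 2) ≤ 1 := hw
          have h8 : p1 w ^ 2 + d w ^ 2 ≤ 1 := by
            have := (Real.sqrt_le_iff.mp hw').2
            linarith
          have h9 := abs_le_of_le p1 h6 w
          have h10 := hd1 v ⟨hv1, hv2⟩ w
          rw [ContinuousLinearMap.add_apply, ContinuousLinearMap.smul_apply, smul_eq_mul]
          have h11 := abs_add_le (a w) (s * v w)
          rw [abs_mul, abs_of_pos hs] at h11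
          have h12 := mul_le_mul_of_nonneg_left h10 hs.le
          nlinarith [sq_nonneg (p1 w - 1), sq_nonneg (s - d w)]
        have h13 := le_trans (le_abs_self _) (hpN (a + s • v) x)
        rw [ContinuousLinearMap.add_apply, ContinuousLinearMap.smul_apply, smul_eq_mul, hax] at h13
        have h14 := mul_le_mul_of_nonneg_left (le_trans (hNN _) h7) hpx.le
        have h15 : s * v x ≤ s * (0 + s * (p x / 2)) := by nlinarith
        exact le_of_mul_le_mul_left h15 hs
      by_contra hxY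
      obtain ⟨f, r, hf1, hf2⟩ := geometric_hahn_banach_closed_point Y.convex hY hxY
      have hr : 0 < r := by simpa using hf1 0 Y.zero_mem
      have hf0 : ∀ y ∈ Y, f y = 0 := by
        intro y hy
        by_contra hne
        have := hf1 _ (Y.smul_mem (r / f y) hy)
        rw [map_smul, smul_eq_mul, div_mul_cancel₀ _ hne] at this
        exact lt_irrefl _ this
      have hfn : 0 < ‖f‖ + 1 := by positivity
      have := hperp ((‖f‖ + 1)⁻¹ • f) (fun y hy => by
        rw [ContinuousLinearMap.smul_apply, hf0 y hy, smul_zero]) (by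
        rw [norm_smul, Real.norm_eq_abs, abs_of_pos (by positivity), inv_mul_le_iff₀ hfn]
        linarith)
      rw [ContinuousLinearMap.smul_apply, smul_eq_mul, inv_mul_le_iff₀ hfn] at this
      linarith
    have huniq : ∀ a ∈ B, ∀ b ∈ B, a x = p x → b x = p x → a = b := by
      intro a ha b hb hax hbx
      have hD : D N a b ≤ 0 := by
        have h1 := le_trans (le_abs_self _) (hpN (a + b) x)
        rw [ContinuousLinearMap.add_apply, hax, hbx] at h1
        have h2 : 2 ≤ N (a + b) := by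
          by_contra hcon
          have := mul_lt_mul_of_pos_left (not_le.mp hcon) hpx
          linarith
        have h4 := pow_le_pow_left₀ (apply_nonneg _ _) (show N a ≤ 1 from ha) 2
        have h5 := pow_le_pow_left₀ (apply_nonneg _ _) (show N b ≤ 1 from hb) 2
        unfold D
        nlinarith
      by_cases h1 : μ a < N2 a
      · exact hoff a b hD h1
      by_cases h2 : μ b < N2 b
      · exact (hoff b a (D_comm N a b ▸ hD) h2).symm
      obtain ⟨h3, hxY⟩ := hon a ha hax h1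
      obtain ⟨h4, -⟩ := hon b hb hbx h2
      obtain ⟨w, hw⟩ := hd x hxY hx
      rw [hw.unique h3 (by rw [hax, hext x hxY]), hw.unique h4 (by rw [hbx, hext x hxY])]
    have hlimit : ∀ (U : Ultrafilter ℕ) (z : ℕ → StrongDual ℝ Z), (∀ k, z k ∈ B) →
        Tendsto (fun k => z k x) U (𝓝 (p x)) →
        ∃ z' ∈ B, z' x = p x ∧ ∀ h, Tendsto (fun k => z k h) U (𝓝 (z' h)) := by
      intro U z hz hlim
      obtain ⟨z', hz'⟩ := limit_form U z _ fun k => hBR _ (hz k)
      exact ⟨z', hNc U z z' hz' 1 (Eventually.of_forall hz), tendsto_nhds_unique (hz' x) hlim, hz'⟩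
    have hk : ∀ k : ℕ, ∃ z ∈ B, p x - 1 / ((k:ℝ) + 1) < z x := by
      intro k
      by_contra hcon
      push Not at hcon
      have := hge x _ hcon
      have : (0:ℝ) < 1 / ((k:ℝ) + 1) := by positivity
      linarith
    choose z hz1 hz2 using hk
    obtain ⟨z0, hz0B, hz0, -⟩ := hlimit (Filter.hyperfilter ℕ) z hz1 (by
      have h2 := (tendsto_inv_U _ hyper_le).const_sub (p x)
      rw [sub_zero] at h2
      exact tendsto_of_tendsto_of_tendsto_of_le_of_le h2 tendsto_const_nhds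
        (fun k => (hz2 k).le) (fun k => le_trans (le_abs_self _) (hp1 _ (hz1 k) x)))
    refine ⟨z0, S1G B _ hBR p (fun z hz x => le_trans (le_abs_self _) (hp1 z hz x)) hge x z0 hz0B
      hz0 fun U z hz hlim => ?_⟩
    obtain ⟨z', h1, h2, h3⟩ := hlimit U z hz hlim
    rw [huniq z0 hz0B z' h1 hz0 h2]
    exact h3

end Pool.Agent.H2.Gs
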