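import Pool.Agent.H2.GsB
import Pool.Agent.H2.GsD

set_option autoImplicit false

namespace Pool.Agent.H2.Gs

open Filter Topology Pool.Agent.H2.Sm
open scoped ZeroAtInfty

abbrev L1 : Type := lp (fun _ : ℕ => ℝ) 1

noncomputable def ee (n : ℕ) : L1 := lp.single 1 n (1:ℝ)

lemma norm_ee (n : ℕ) : ‖ee n‖ = 1 := by
  unfold ee
  rw [lp.norm_single (by norm_num)]
  simp

lemma hasSum_ee (x : L1) : HasSum (fun n => x n • ee n) x := by
  have := lp.hasSum_single (p := 1) (by simp) x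
  refine this.congr_fun ?_ |> id
  intro n
  unfold ee
  rw [← lp.single_smul]
  simp

lemma hasSum_abs (x : L1) : HasSum (fun n => |x n|) ‖x‖ := by
  have := lp.hasSum_norm (p := 1) (by simp) x
  simpa using this

lemma ext_ee {f g : StrongDual ℝ L1} (h : ∀ n, f (ee n) = g (ee n)) (x : L1) : f x = g x := by
  have h1 := f.hasSum (hasSum_ee x)
  have h2 := g.hasSum (hasSum_ee x)
  simp only [map_smul, h] at h1 h2
  exact h1.unique h2

instance : TopologicalSpace.SeparableSpace L1 := by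
  rw [← TopologicalSpace.isSeparable_univ_iff]
  refine (((Set.countable_range ee).isSeparable.span (R := ℝ)).closure).mono fun x _ => ?_
  refine mem_closure_of_tendsto (hasSum_ee x) (Eventually.of_forall fun s => ?_)
  exact Submodule.sum_mem _ fun n _ => Submodule.smul_mem _ _ (Submodule.subset_span ⟨n, rfl⟩)

lemma not_fin : ¬ FiniteDimensional ℝ L1 := by
  intro h
  refine Module.Finite.not_linearIndependent_of_infinite (R := ℝ) ee ?_
  rw [linearIndependent_iff']
  intro s g hg i hi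
  have h1 := congrArg (fun x : L1 => x i) hg
  simp only [lp.coeFn_sum, Finset.sum_apply, lp.coeFn_smul, Pi.smul_apply, ee, lp.single_apply,
    smul_eq_mul, lp.coeFn_zero, Pi.zero_apply] at h1
  rw [Finset.sum_eq_single i] at h1
  · simpa using h1
  · intro j _ hj
    simp [Pi.single_apply, hj.symm]
  · intro h; exact absurd hi h

lemma exists_form (a : ℕ → ℝ) (ha : ∀ i, |a i| ≤ 1) :
    ∃ φ : StrongDual ℝ L1, ‖φ‖ ≤ 1 ∧ ∀ i, φ (ee i) = a i := by
  have hs : ∀ x : L1, Summable fun i => ‖a i * x i‖ := fun x =>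
    Summable.of_nonneg_of_le (fun _ => norm_nonneg _) (fun i => by
      rw [Real.norm_eq_abs, abs_mul]
      exact mul_le_of_le_one_left (abs_nonneg _) (ha i)) (hasSum_abs x).summable
  let f : L1 →ₗ[ℝ] ℝ :=
    { toFun := fun x => ∑' i, a i * x i
      map_add' := fun x y => by
        rw [← Summable.tsum_add (hs x).of_norm (hs y).of_norm]
        refine tsum_congr fun i => ?_
        rw [lp.coeFn_add, Pi.add_apply, mul_add]
      map_smul' := fun c x => by
        simp only [RingHom.id_apply, smul_eq_mul]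
        rw [← tsum_mul_left]
        refine tsum_congr fun i => ?_
        rw [lp.coeFn_smul, Pi.smul_apply, smul_eq_mul]
        ring }
  have hf : ∀ x, ‖f x‖ ≤ 1 * ‖x‖ := by
    intro x
    rw [one_mul]
    refine tsum_of_norm_bounded (hasSum_abs x) fun i => ?_
    rw [Real.norm_eq_abs, abs_mul]
    exact mul_le_of_le_one_left (abs_nonneg _) (ha i)
  refine ⟨f.mkContinuous 1 hf, LinearMap.mkContinuous_norm_le _ zero_le_one _, fun i => ?_⟩
  show ∑' j, a j * (ee i) j = a i
  rw [tsum_eq_single i]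
  · simp [ee]
  · intro j hj
    simp [ee, lp.single_apply, Pi.single_apply, hj]

lemma extend_form {X Z : Type} [NormedAddCommGroup X] [NormedSpace ℝ X] [NormedAddCommGroup Z]
    [NormedSpace ℝ Z] (ι : X →ₗᵢ[ℝ] Z) (φ : StrongDual ℝ X) (hφ : ‖φ‖ ≤ 1) :
    ∃ ψ : StrongDual ℝ Z, ‖ψ‖ ≤ 1 ∧ ∀ x, ψ (ι x) = φ x := by
  let g : StrongDual ℝ (LinearMap.range ι.toLinearMap) :=
    φ.comp (ι.equivRange.symm.toContinuousLinearEquiv : LinearMap.range ι.toLinearMap →L[ℝ] X)
  obtain ⟨ψ, h1, h2⟩ := exists_extension_norm_eq _ g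
  refine ⟨ψ, ?_, fun x => ?_⟩
  · rw [h2]
    refine ContinuousLinearMap.opNorm_le_bound _ zero_le_one fun y => ?_
    have : g y = φ (ι.equivRange.symm y) := rfl
    rw [this]
    refine le_trans (φ.le_opNorm _) ?_
    rw [LinearIsometryEquiv.norm_map]
    exact mul_le_mul_of_nonneg_right hφ (norm_nonneg _)
  · have h3 := h1 (ι.equivRange x)
    have h4 : g (ι.equivRange x) = φ x := by
      show φ (ι.equivRange.symm (ι.equivRange x)) = φ x
      rw [LinearIsometryEquiv.symm_apply_apply]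
    rw [h4] at h3
    exact h3

theorem extend_l1 (Z : Type) [NormedAddCommGroup Z] [NormedSpace ℝ Z]
    [TopologicalSpace.SeparableSpace Z] (ι : L1 →ₗᵢ[ℝ] Z) (q : Seminorm ℝ L1) (a b : ℝ) (ha : 0 < a)
    (hq : ∀ x, a * ‖x‖ ≤ q x ∧ q x ≤ b * ‖x‖) (hd : ∀ x, x ≠ 0 → ∃ w, GD q x w) :
    ∃ p : Seminorm ℝ Z, (∃ c C : ℝ, 0 < c ∧ ∀ x : Z, c * ‖x‖ ≤ p x ∧ p x ≤ C * ‖x‖) ∧
      (∀ x : Z, x ≠ 0 → ∃ z0, GD p x z0) ∧ ∀ y, p (ι y) = q y := by
  have hb : 0 < b := by
    have := hq (ee 0)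
    rw [norm_ee] at this
    linarith
  obtain ⟨S, hS1, hS2, hS3⟩ := exists_cube_selection (fun n => ι (ee n)) fun t => by
    obtain ⟨φ, h1, h2⟩ := exists_form (fun i => sg (t i)) fun i => by
      cases t i <;> simp [sg]
    obtain ⟨ψ, h3, h4⟩ := extend_form ι φ h1
    exact ⟨ψ, h3, fun i => by rw [h4, h2]⟩
  have hco : ∀ w : StrongDual ℝ L1, (∀ x, w x ≤ q x) → ∀ i, |w (ee i) / b| ≤ 1 := by
    intro w hw i
    rw [abs_div, abs_of_pos hb, div_le_one hb]
    have h1 := abs_le_of_le q hw (ee i)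
    have h2 := (hq (ee i)).2
    rw [norm_ee] at h2
    linarith
  obtain ⟨p1, h1, h2, h3⟩ := stage1G ι q a ha (fun y => (hq y).1) hd
    (fun w => b • S (fun i => w (ee i) / b)) (2 * b) (by positivity) (fun w => by
      have : (fun i => (-w) (ee i) / b) = -(fun i => w (ee i) / b) := by
        funext i
        simp [neg_div]
      rw [this, hS1]
      ext z
      simp) (fun w hw => by
      obtain ⟨g1, g2⟩ := hS2 _ (hco w hw)
      refine ⟨?_, fun x => ?_⟩
      · rw [norm_smul, Real.norm_eq_abs, abs_of_pos hb]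
        nlinarith
      · refine ext_ee (f := (b • S (fun i => w (ee i) / b)).comp ι.toContinuousLinearMap)
          (g := w) (fun n => ?_) x
        show b * S (fun i => w (ee i) / b) (ι (ee n)) = _
        rw [g2]
        field_simp) (fun U w w0 hw hw0 hl z =>
      (hS3 U (fun k i => w k (ee i) / b) _ (fun k => hco _ (hw k)) (hco _ hw0)
        (fun i => (hl (ee i)).div_const b) z).const_mul b)
  obtain ⟨p, g1, g2, g3⟩ := stage2G (LinearMap.range ι.toLinearMap)
    ι.isometry.isClosedEmbedding.isClosed_range p1 (a / 2) (2 * b + a) (by positivity)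
    (by positivity) h1 (by
      rintro _ ⟨y, rfl⟩ hy
      exact h3 y fun h => hy (by rw [h, map_zero]))
  exact ⟨p, g1, g2, fun y => (g3 (ι y) ⟨y, rfl⟩).trans (h2 y)⟩

noncomputable def cc (n : ℕ) : C₀(ℕ, ℝ) where
  toFun := Pi.single n 1
  continuous_toFun := continuous_of_discreteTopology
  zero_at_infty' := by
    rw [cocompact_eq_cofinite]
    refine tendsto_const_nhds.congr' ?_
    filter_upwards [(Set.finite_singleton n).compl_mem_cofinite] with m hm
    have : m ≠ n := hm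
    simp [Pi.single_apply, this]

lemma c0_apply_le (f : C₀(ℕ, ℝ)) (i : ℕ) : |f i| ≤ ‖f‖ := by
  rw [← ZeroAtInftyContinuousMap.norm_toBCF_eq_norm]
  exact f.toBCF.norm_coe_le_norm i

lemma c0_norm_le (f : C₀(ℕ, ℝ)) (h : ∀ i, |f i| ≤ 1) : ‖f‖ ≤ 1 := by
  rw [← ZeroAtInftyContinuousMap.norm_toBCF_eq_norm]
  exact (BoundedContinuousFunction.norm_le zero_le_one).mpr h

lemma c0_sum_apply (s : Finset ℕ) (c : ℕ → ℝ) (i : ℕ) :
    (∑ n ∈ s, c n • cc n) i = if i ∈ s then c i else 0 := by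
  classical
  induction s using Finset.induction_on with
  | empty => simp
  | insert a s ha ih =>
    rw [Finset.sum_insert ha, ZeroAtInftyContinuousMap.add_apply, ih]
    have : (c a • cc a) i = c a * (Pi.single a (1:ℝ) : ℕ → ℝ) i := rfl
    rw [this]
    by_cases h : i = a
    · subst h; simp [ha]
    · simp [Pi.single_apply, h]

lemma c0_sum_le (s : Finset ℕ) (c : ℕ → ℝ) (hc : ∀ n, |c n| ≤ 1) : ‖∑ n ∈ s, c n • cc n‖ ≤ 1 := by
  refine c0_norm_le _ fun i => ?_
  rw [c0_sum_apply]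
  split_ifs
  · exact hc i
  · simp

lemma hump (y : L1) (x : ℕ → L1) (hx : ∀ i, Tendsto (fun n => x n i) atTop (𝓝 0)) {δ : ℝ}
    (hδ : 0 < δ) : ∀ᶠ n in atTop, ‖y‖ + ‖x n‖ - δ ≤ ‖y + x n‖ := by
  obtain ⟨A, hA⟩ : ∃ A : Finset ℕ, ‖y‖ - δ / 4 < ∑ i ∈ A, |y i| :=
    (Tendsto.eventually (hasSum_abs y) (lt_mem_nhds (show ‖y‖ - δ / 4 < ‖y‖ by linarith))).exists
  have h1 : Tendsto (fun n => ∑ i ∈ A, |x n i|) atTop (𝓝 (∑ i ∈ A, |(0:ℝ)|)) :=
    tendsto_finset_sum A fun i _ => (hx i).abs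
  simp only [abs_zero, Finset.sum_const_zero] at h1
  filter_upwards [h1.eventually (gt_mem_nhds (show (0:ℝ) < δ / 4 by positivity))] with n hn
  have h2 : HasSum (fun i => if i ∈ A then 2 * |y i| - 2 * |x n i| else 0)
      (∑ i ∈ A, (2 * |y i| - 2 * |x n i|)) := by
    have := hasSum_sum_of_ne_finset_zero (f := fun i => if i ∈ A then 2 * |y i| - 2 * |x n i| else 0)
      (s := A) (L := SummationFilter.unconditional ℕ) (fun i hi => if_neg hi)
    rwa [Finset.sum_congr rfl fun i hi => if_pos hi] at this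
  have h3 := hasSum_le (fun i => (?_ : |x n i| - |y i| + (if i ∈ A then 2 * |y i| - 2 * |x n i|
    else 0) ≤ |(y + x n) i|)) (((hasSum_abs (x n)).sub (hasSum_abs y)).add h2) (hasSum_abs (y + x n))
  · rw [Finset.sum_sub_distrib, ← Finset.mul_sum, ← Finset.mul_sum] at h3
    linarith
  · rw [lp.coeFn_add, Pi.add_apply]
    have a1 := abs_sub_abs_le_abs_add (y i) (x n i)
    have a2 := abs_sub_abs_le_abs_add (x n i) (y i)
    rw [add_comm (x n i)] at a2
    split_ifs <;> linarith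

theorem not_iso : ¬ Nonempty (L1 ≃L[ℝ] C₀(ℕ, ℝ)) := by
  classical
  rintro ⟨T⟩
  let P : L1 →L[ℝ] C₀(ℕ, ℝ) := T
  let Q : C₀(ℕ, ℝ) →L[ℝ] L1 := T.symm
  let x : ℕ → L1 := fun n => Q (cc n)
  have hsum : ∀ (s : Finset ℕ) (c : ℕ → ℝ), (∀ n, |c n| ≤ 1) → ‖∑ n ∈ s, c n • x n‖ ≤ ‖Q‖ := by
    intro s c hc
    have : ∑ n ∈ s, c n • x n = Q (∑ n ∈ s, c n • cc n) := by simp only [x, map_sum, map_smul]
    rw [this]
    exact le_trans (Q.le_opNorm _) (mul_le_of_le_one_right Q.opNorm_nonneg (c0_sum_le s c hc))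
  have hlow : ∀ n, 1 / (‖P‖ + 1) ≤ ‖x n‖ := by
    intro n
    have h1 : P (x n) = cc n := T.apply_symm_apply _
    have h2 := P.le_opNorm (x n)
    have h3 := c0_apply_le (cc n) n
    have h4 : cc n n = 1 := by
      show (Pi.single n (1:ℝ) : ℕ → ℝ) n = 1
      simp
    rw [h1] at h2
    rw [h4, abs_one] at h3
    have h5 := P.opNorm_nonneg
    rw [div_le_iff₀ (by positivity)]
    nlinarith [norm_nonneg (x n)]
  have hnull : ∀ i, Tendsto (fun n => x n i) atTop (𝓝 0) := by
    intro i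
    refine Summable.tendsto_atTop_zero (Summable.of_abs (summable_of_sum_le (c := ‖Q‖)
      (fun _ => abs_nonneg _) fun s => ?_))
    let c : ℕ → ℝ := fun n => if 0 ≤ x n i then 1 else -1
    have h1 := hsum s c fun n => by
      simp only [c]
      split_ifs <;> simp
    have h2 := lp.norm_apply_le_norm (p := 1) (by simp) (∑ n ∈ s, c n • x n) i
    refine le_trans (le_of_eq ?_) (le_trans (le_abs_self _) (le_trans h2 h1))
    rw [lp.coeFn_sum, Finset.sum_apply]
    refine Finset.sum_congr rfl fun n _ => ?_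
    show _ = c n * x n i
    simp only [c]
    split_ifs with h
    · rw [abs_of_nonneg h, one_mul]
    · rw [abs_of_neg (not_le.mp h)]; ring
  set η := 1 / (‖P‖ + 1) with hη
  have hη0 : 0 < η := by have := P.opNorm_nonneg; positivity
  have key : ∀ N : ℕ, ∃ s : Finset ℕ, N * (η / 2) ≤ ‖∑ n ∈ s, x n‖ := by
    intro N
    induction N with
    | zero => exact ⟨∅, by simp⟩
    | succ N ih =>
      obtain ⟨s, hs⟩ := ih
      obtain ⟨n, hn1, hn2⟩ := ((hump (∑ n ∈ s, x n) x hnull (show 0 < η / 2 by positivity)).and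
        (eventually_gt_atTop (s.sup id))).exists
      have hn : n ∉ s := fun h => absurd (Finset.le_sup (f := id) h) (not_le.mpr hn2)
      refine ⟨insert n s, ?_⟩
      rw [Finset.sum_insert hn, add_comm (x n)]
      have := hlow n
      push_cast
      linarith
  obtain ⟨N, hN⟩ := exists_nat_gt (‖Q‖ / (η / 2))
  obtain ⟨s, hs⟩ := key N
  have h1 := hsum s (fun _ => 1) (by simp)
  simp only [one_smul] at h1
  rw [div_lt_iff₀ (by positivity)] at hN
  linarith

end Pool.Agent.H2.Gs
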