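import Mathlib
import Pool.Agent.H2.HadData

namespace Pool.Agent.H2.Had

open Finset Matrix

abbrev V := Fin 4096

noncomputable def ch (p x : ℕ) : ℝ := e (p &&& x)

theorem ch_xor (p x y : ℕ) : ch p (x ^^^ y) = ch p x * ch p y := by
  simp only [ch, e]
  rw [← Int.cast_mul, ← prod_mul_distrib]
  congr 1
  refine prod_congr rfl fun i _ => ?_
  simp only [Nat.testBit_and, Nat.testBit_xor]
  cases p.testBit i <;> cases x.testBit i <;> cases y.testBit i <;> simp

theorem ch_comm (p x : ℕ) : ch p x = ch x p := by simp [ch, Nat.and_comm]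

theorem ch_zero (p : ℕ) : ch p 0 = 1 := by simp [ch, e]

theorem ch' {p : ℕ} (w : ℕ) (hp : p < 4096) : ch p w = e' (p &&& w) := by
  rw [ch, ee _ (Nat.and_le_left.trans_lt hp)]

def xr (y : V) : V ≃ V := Function.Involutive.toPerm
  (fun x => ⟨x ^^^ y, Nat.xor_lt_two_pow (n := 12) x.2 y.2⟩) fun x => by
    ext; simp [Nat.xor_assoc]

theorem xr_val (x y : V) : (xr y x).1 = x.1 ^^^ y.1 := rfl

theorem orth (x y : V) : ∑ p : V, ch p x * ch p y = if x = y then 4096 else 0 := by
  simp only [← ch_xor]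
  split_ifs with h
  · simp [h, ch_zero]
  obtain ⟨i, hi⟩ := Nat.exists_testBit_of_ne_zero (x := x.1 ^^^ y.1) (by simpa [Fin.ext_iff] using h)
  have i12 : i < 12 := by
    by_contra f
    rw [Nat.testBit_lt_two_pow ((Nat.xor_lt_two_pow (n := 12) x.2 y.2).trans_le
      (Nat.pow_le_pow_right (by omega) (by omega)))] at hi
    simp at hi
  have b : ch (x ^^^ y) (2 ^ i) = -1 := by
    rw [ch, e, Nat.and_two_pow, hi, prod_eq_single ⟨i, i12⟩] <;>
      simp +contextual [Nat.testBit_two_pow, Fin.ext_iff, eq_comm]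
  have := (xr ⟨2 ^ i, Nat.pow_lt_pow_right (m := i) (n := 12) one_lt_two i12⟩).sum_comp
    fun p : V => ch (x ^^^ y) p
  simp only [xr_val, ch_xor, b, mul_neg, mul_one, sum_neg_distrib] at this
  simp only [ch_comm _ (x.1 ^^^ y.1)]
  linarith

noncomputable def a (z : ℕ) : ℝ :=
  if z = 0 then 1 else if z ∈ S0 then 1 / 91 else if z ∈ S1 then 11 / 104 else 0

theorem lsum (S : List ℕ) (h : S.Nodup) (h2 : ∀ w ∈ S, w < 4096) (f : ℕ → ℝ) :
    ∑ z : V, (if z.1 ∈ S then f z else 0) = (S.map f).sum := by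
  rw [Fin.sum_univ_eq_sum_range fun z => if z ∈ S then f z else 0, ← sum_filter,
    ← List.sum_toFinset _ h]
  refine sum_congr (Finset.ext fun z => ?_) fun _ _ => rfl
  rw [mem_filter, mem_range, List.mem_toFinset]
  exact and_iff_right_of_imp (h2 z)

theorem eig (g : ℝ → ℝ) (g0 : g 0 = 0) (p : ℕ) (y : V) : ∑ x : V, ch p x * g (a (x ^^^ y)) =
    (g 1 + g (1 / 91) * (S0.map (ch p)).sum + g (11 / 104) * (S1.map (ch p)).sum) * ch p y := by
  obtain ⟨n0, n1, -, -, b, d, -⟩ := bas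
  rw [← (xr y).sum_comp, ← lsum _ n0 fun w h => (b w (by simp [h])).1,
    ← lsum _ n1 fun w h => (b w (by simp [h])).1,
    show g 1 = ∑ z : V, if z = 0 then g 1 else 0 by simp]
  simp only [mul_sum, ← sum_add_distrib, sum_mul]
  refine sum_congr rfl fun z _ => ?_
  have z0 : 0 ∉ S0 := fun h => (b 0 (by simp [h])).2.1 rfl
  have z1 : 0 ∉ S1 := fun h => (b 0 (by simp [h])).2.1 rfl
  simp only [xr_val, Nat.xor_assoc, Nat.xor_self, Nat.xor_zero, ch_xor, a, Fin.ext_iff, Fin.val_zero]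
  by_cases h : z.1 = 0
  · simp [h, z0, z1, ch_zero, mul_comm]
  by_cases h0 : z.1 ∈ S0
  · simp only [h, h0, d _ h0, if_true, if_false]; ring
  by_cases h1 : z.1 ∈ S1 <;> simp only [h, h0, h1, if_true, if_false, g0] <;> ring

theorem cnt (p : ℕ) (hp : p < 4096) (S : List ℕ) : (S.map (ch p)).sum =
    S.length - 2 * (S.countP (fun w => PAR.testBit (p &&& w)) : ℕ) := by
  induction S with
  | nil => simp
  | cons w S ih =>
    rw [List.map_cons, List.sum_cons, ih, List.countP_cons, ch' _ hp, e']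
    split_ifs <;> simp <;> ring

noncomputable def A : Matrix V V ℝ := fun x y => a (x ^^^ y)

theorem psd : A.PosSemidef := by
  let H : Matrix V V ℝ := fun p x => ch p x
  let d : V → ℝ := fun p => 1 + 1 / 91 * (S0.map (ch p)).sum + 11 / 104 * (S1.map (ch p)).sum
  have e1 : H * A = diagonal d * H := Matrix.ext fun p y => by
    rw [diagonal_mul, mul_apply]
    exact eig id rfl p y
  have e2 : Hᴴ * H = (4096 : ℝ) • 1 := by
    ext x y
    simpa [mul_apply, H, one_apply] using orth x y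
  have e3 : A = (1 / 4096 : ℝ) • (Hᴴ * diagonal d * H) := by
    rw [Matrix.mul_assoc, ← e1, ← Matrix.mul_assoc, e2]; simp [smul_smul]
  rw [e3]
  refine (PosSemidef.conjTranspose_mul_mul_same (.diagonal fun p => ?_) H).smul (by norm_num)
  have := (Nat.cast_le (α := ℝ)).2 (four p p.2)
  simp only [d, cnt _ p.2, bas.2.2.1, bas.2.2.2.1, Pi.zero_apply]
  push_cast at this ⊢
  linarith

theorem npsd : ¬ (A.map fun x : ℝ => x ^ (9 / 8 : ℝ)).PosSemidef := by
  intro h
  have := h.transpose.dotProduct_mulVec_nonneg fun x : V => ch 2048 x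
  have t0 : (S0.map (ch 2048)).sum = 140 := by
    have := congrArg (Int.cast (R := ℝ)) top.1
    rw [Int.cast_list_sum, List.map_map] at this
    exact (congrArg _ (List.map_congr_left fun w _ => ch' w (by norm_num))).trans this
  have t1 : (S1.map (ch 2048)).sum = -24 := by
    have := congrArg (Int.cast (R := ℝ)) top.2
    rw [Int.cast_list_sum, List.map_map] at this
    exact (congrArg _ (List.map_congr_left fun w _ => ch' w (by norm_num))).trans
      (this.trans (by norm_num))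
  have e := eig (fun x => x ^ (9 / 8 : ℝ)) (Real.zero_rpow (by norm_num)) 2048
  simp only [dotProduct, mulVec, transpose_apply, map_apply, A, star_trivial, mul_comm _ (ch 2048 _),
    e, t0, t1, ← mul_assoc, ← ch_xor, Nat.xor_self, ch_zero, Real.one_rpow] at this
  have pw : ∀ x : ℝ, 0 ≤ x → (x ^ (9 / 8 : ℝ)) ^ 8 = x ^ 9 := fun x hx => by
    rw [← Real.rpow_natCast, ← Real.rpow_mul hx, ← Real.rpow_natCast]; norm_num
  have b1 : (1 / 91 : ℝ) ^ (9 / 8 : ℝ) < 626 / 100000 :=
    lt_of_pow_lt_pow_left₀ 8 (by norm_num) (by rw [pw _ (by norm_num)]; norm_num)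
  have b2 : 798 / 10000 < (11 / 104 : ℝ) ^ (9 / 8 : ℝ) :=
    lt_of_pow_lt_pow_left₀ 8 (by positivity) (by rw [pw _ (by norm_num)]; norm_num)
  rw [sum_const, nsmul_eq_mul] at this
  have := nonneg_of_mul_nonneg_right this (by simp)
  linarith

def G : SimpleGraph V where
  Adj x y := x.1 ^^^ y.1 ∈ S0 ++ S1
  symm := ⟨fun x y h => by rwa [Nat.xor_comm]⟩
  loopless := ⟨fun x h => (bas.2.2.2.2.1 _ h).2.1 (Nat.xor_self _)⟩

theorem tri {x y z : V} (h1 : G.Adj x y) (h2 : G.Adj y z) (h3 : G.Adj x z) : False := by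
  have := bas.2.2.2.2.2.2 _ h1 _ h2
  rw [Nat.xor_assoc, ← Nat.xor_assoc y, Nat.xor_self, Nat.zero_xor,
    (bas.2.2.2.2.1 _ h3).2.2] at this
  simp at this

end Pool.Agent.H2.Had
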