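import Mathlib
import Pool.Agent.H2.Geo
import Pool.Agent.H2.HamData

namespace Pool.Agent.H2.Ham

open Geo

def nb (u : ℕ) : List ℕ := [0, 1, 2, 3].map fun k => T >>> (10 * (4 * u + k)) % 1024

theorem geo : (X.zipIdx.all fun x => (Y.zipIdx.filter fun y => dot x.1 y.1 == 0).map
    (fun y => 2 * y.2 + 1) == nb (2 * x.2)) = true := by decide +kernel

theorem lens : X.length = 330 ∧ Y.length = 330 ∧ F.length = 656 ∧ ∀ x ∈ X, x.2.2 ≠ 0 := by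
  decide +kernel

abbrev B (g h : ℕ) : Prop := Nat.testBit 370407995736938041276459529984224204444290 (12 * g + h) = true

theorem loc : ∀ u < 660, (nb u).Nodup ∧ (∀ v ∈ nb u, v < 660 ∧ u ∈ nb v ∧ (u + v) % 2 = 1 ∧
    (u % 55 % 2 = 1 → v / 55 = u / 55) ∧ (v / 55 = u / 55 ∨ B (u / 55) (v / 55))) ∧
    ∀ a ∈ nb u, ∀ b ∈ nb u, a ≠ b → ∀ w ∈ nb a, w ∈ nb b → w = u := by
  decide +kernel

def path : ℕ → List ℕ → Bool
  | _, [] => true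
  | u, w :: l => (nb u).contains w && path w l

theorem fans : ∀ f ∈ F.zipIdx, f.1.length = 4 ∧ f.1.flatten.Nodup ∧
    ∀ p ∈ f.1, path (f.2 + 4) p = true ∧ p.getLastD (f.2 + 4) < f.2 + 4 := by
  decide +kernel

theorem pairs : ∀ a < 4, ∀ b < a, ∃ q ∈ Q, q.2.2.length = 4 ∧ q.2.2.flatten.Nodup ∧
    ∀ p ∈ q.2.2, path a (p ++ [b]) = true := by
  decide +kernel

set_option synthInstance.maxSize 4000 in
theorem search : ∀ t0 : Fin 12, B 0 t0 → ∀ t1 : Fin 12, B 1 t1 → [t0, t1].Nodup →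
    ∀ t2 : Fin 12, B 2 t2 → [t0, t1, t2].Nodup →
    ∀ t3 : Fin 12, B 3 t3 → [t0, t1, t2, t3].Nodup →
    ∀ t4 : Fin 12, B 4 t4 → [t0, t1, t2, t3, t4].Nodup →
    ∀ t5 : Fin 12, B 5 t5 → [t0, t1, t2, t3, t4, t5].Nodup →
    ∀ t6 : Fin 12, B 6 t6 → [t0, t1, t2, t3, t4, t5, t6].Nodup →
    ∀ t7 : Fin 12, B 7 t7 → [t0, t1, t2, t3, t4, t5, t6, t7].Nodup →
    ∀ t8 : Fin 12, B 8 t8 → [t0, t1, t2, t3, t4, t5, t6, t7, t8].Nodup →
    ∀ t9 : Fin 12, B 9 t9 → [t0, t1, t2, t3, t4, t5, t6, t7, t8, t9].Nodup →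
    ∀ t10 : Fin 12, B 10 t10 → [t0, t1, t2, t3, t4, t5, t6, t7, t8, t9, t10].Nodup →
    ∀ t11 : Fin 12, B 11 t11 → [t0, t1, t2, t3, t4, t5, t6, t7, t8, t9, t10, t11].Nodup →
    ∃ k : Fin 11, (![t0, t1, t2, t3, t4, t5, t6, t7, t8, t9, t10, t11])^[k + 1] 0 = 0 := by
  decide +kernel

end Pool.Agent.H2.Ham
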