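import Mathlib

namespace Pool.Agent.H2.Ham

/-- The Euclidean plane. -/
abbrev Pt := EuclideanSpace ℝ (Fin 2)

/-- Affine subspaces of the plane. -/
abbrev Sub := AffineSubspace ℝ Pt

/-- A straight line: an affine subspace with one-dimensional direction. -/
def IsLine (l : Sub) : Prop := Module.finrank ℝ l.direction = 1

/-- Incidence. -/
def On (p : Pt) (l : Sub) : Prop := p ∈ l

/-- The Levi graph of the points P and the lines L. -/
def levi (P : Finset Pt) (L : Finset Sub) : SimpleGraph (P ⊕ L) :=
  SimpleGraph.fromRel fun a b => ∃ p l, a = Sum.inl p ∧ b = Sum.inr l ∧ On p.1 l.1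

/-- k-connected: more than k vertices, and connected after deleting any fewer than k vertices. -/
def KConn {V : Type} (G : SimpleGraph V) (k : ℕ) : Prop :=
  k < Nat.card V ∧ ∀ S : Finset V, S.card < k → (G.induce ((↑S : Set V)ᶜ)).Connected

end Pool.Agent.H2.Ham
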