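import Mathlib
import Pool.Agent.H2.HamChk

namespace Pool.Agent.H2.Ham

open Geo SimpleGraph

theorem succ_of_ham {V : Type*} [Fintype V] [DecidableEq V] {G : SimpleGraph V}
    (h : G.IsHamiltonian) (h1 : Fintype.card V ≠ 1) : ∃ σ : V → V, σ.Injective ∧
    (∀ v, G.Adj v (σ v)) ∧ ∀ S : Set V, S.Nonempty → (∀ v ∈ S, σ v ∈ S) → ∀ v, v ∈ S := by
  obtain ⟨a, p, hp⟩ := h h1
  have n := hp.isCycle.three_le_length
  have : ∀ v, ∃ i < p.length, p.getVert i = v := fun v => by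
    obtain ⟨i, e, hi⟩ := Walk.mem_support_iff_exists_getVert.1 (hp.mem_support v)
    rcases hi.lt_or_eq with l | rfl
    · exact ⟨i, l, e⟩
    · exact ⟨0, by omega, by simpa using e⟩
  choose x x1 x2 using this
  refine ⟨fun v => p.getVert (x v + 1), fun u v e => ?_, fun v => ?_, fun S ⟨u, hu⟩ hS v => ?_⟩
  · have := hp.isCycle.getVert_injOn (x₁ := x u + 1) (x₂ := x v + 1) ⟨by omega, x1 u⟩
      ⟨by omega, x1 v⟩ e
    rw [← x2 u, ← x2 v, show x u = x v by omega]
  · simpa [x2] using p.adj_getVert_succ (x1 v)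
  have k : ∀ i, p.getVert i ∈ S → ∀ j, i ≤ j → j ≤ p.length → p.getVert j ∈ S := by
    intro i hi j l
    induction j, l using Nat.le_induction with
    | base => exact fun _ => hi
    | succ j l ih =>
      intro f
      have e : x (p.getVert j) = j := hp.isCycle.getVert_injOn'
        (Nat.le_sub_one_of_lt (x1 _)) (Nat.le_sub_one_of_lt f) (x2 _)
      simpa [e] using hS _ (ih (by omega))
  have := k _ ((x2 u).symm ▸ hu) _ (x1 u).le le_rfl
  exact x2 v ▸ k 0 (by simpa using this) _ (by omega) (x1 v).le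

theorem nonham {V : Type*} [Fintype V] [DecidableEq V] {G : SimpleGraph V} (E : Fin 660 ≃ V)
    (hA : ∀ u v, G.Adj (E u) (E v) ↔ v.1 ∈ nb u.1) : ¬ G.IsHamiltonian := by
  intro h
  obtain ⟨σ, s1, s2, s3⟩ := succ_of_ham h (by rw [← Fintype.card_congr E]; simp)
  let s := Equiv.ofBijective (fun u => E.symm (σ (E u)))
    (Finite.injective_iff_bijective.1 (E.symm.injective.comp (s1.comp E.injective)))
  have a : ∀ u, (s u).1 ∈ nb u.1 := fun u => (hA _ _).1 (by simpa [s] using s2 (E u))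
  let γ : Fin 660 → Fin 12 := fun u => ⟨u / 55, by omega⟩
  have L := fun u : Fin 660 => (loc u u.2).2.1 _ (a u)
  have one : ∀ u w, γ u = γ w → γ (s u) ≠ γ u → γ (s w) ≠ γ w → u = w := by
    intro u w e hu hw
    by_contra n
    obtain ⟨c1, c2⟩ := (by decide +kernel : ∀ g : Fin 12,
      (Finset.univ.filter fun x : Fin 660 => x.1 / 55 = g ∧ x.1 % 55 % 2 = 1).card = 27 ∧
      (Finset.univ.filter fun x : Fin 660 => x.1 / 55 = g ∧ x.1 % 55 % 2 = 0).card = 28) (γ u)
    have := Finset.card_le_card (show insert u (insert w ((Finset.univ.filter fun x : Fin 660 =>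
      x.1 / 55 = γ u ∧ x.1 % 55 % 2 = 1).map s.symm.toEmbedding)) ⊆
      Finset.univ.filter fun x : Fin 660 => x.1 / 55 = γ u ∧ x.1 % 55 % 2 = 0 from fun x hx => by
        simp only [Finset.mem_insert, Finset.mem_map_equiv, Finset.mem_filter, Finset.mem_univ,
          true_and, Equiv.symm_symm, γ, Fin.ext_iff, ne_eq] at *
        have l := L x
        have := (L u).2.2.2.1
        have := (L w).2.2.2.1
        rcases hx with hx | hx | hx
        · omega
        · omega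
        · have := ((loc _ (s x).2).2.1 _ l.2.1).2.2.2.1
          omega)
    rw [Finset.card_insert_of_notMem, Finset.card_insert_of_notMem, Finset.card_map, c1, c2] at this
    · omega
    all_goals
      simp only [Finset.mem_insert, Finset.mem_map_equiv, Finset.mem_filter, Finset.mem_univ,
        true_and, Equiv.symm_symm, γ, Fin.ext_iff, ne_eq] at *
      omega
  have : ∀ g, ∃ t, (t = g ∨ B g.1 t.1) ∧ ∀ u, γ u = g → γ (s u) = g ∨ γ (s u) = t := fun g => by
    by_cases c : ∃ u, γ u = g ∧ γ (s u) ≠ g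
    · obtain ⟨u, rfl, hu⟩ := c
      refine ⟨γ (s u), .inr ((L u).2.2.2.2.resolve_left fun e => hu (Fin.ext e)), fun w e => ?_⟩
      by_cases f : γ (s w) = γ w
      · exact .inl (f.trans e)
      · exact .inr (by rw [one u w e.symm hu f])
    · push Not at c
      exact ⟨g, .inl rfl, fun u e => .inl (c u e)⟩
  choose τ t1 t2 using this
  have inv : ∀ S : Set (Fin 12), S.Nonempty → (∀ g ∈ S, τ g ∈ S) → ∀ g, g ∈ S := by
    have sj : γ.Surjective := fun g => ⟨⟨55 * g, by omega⟩, Fin.ext (by simp [γ])⟩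
    intro S ⟨g, hg⟩ hS k
    obtain ⟨u, rfl⟩ := sj g
    obtain ⟨w, rfl⟩ := sj k
    simpa using s3 {v | γ (E.symm v) ∈ S} ⟨E u, by simpa using hg⟩ (fun v hv => by
      obtain ⟨x, rfl⟩ := E.surjective v
      have hv : γ x ∈ S := by simpa using hv
      change γ (s x) ∈ S
      rcases t2 _ x rfl with e | e <;> rw [e]
      exacts [hv, hS _ hv]) (E w)
  have b : ∀ g, B g.1 (τ g).1 := fun g => (t1 g).resolve_left fun e => by
    have := inv {g} ⟨g, rfl⟩ (by rintro _ rfl; exact e) (g + 1)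
    simp at this
  have i : τ.Injective := Finite.injective_iff_surjective.2
    (inv (Set.range τ) ⟨_, 0, rfl⟩ fun g _ => ⟨g, rfl⟩)
  obtain ⟨k, hk⟩ := search _ (b 0) _ (b 1) (by simp [i.eq_iff]) _ (b 2) (by simp [i.eq_iff]) _ (b 3)
    (by simp [i.eq_iff]) _ (b 4) (by simp [i.eq_iff]) _ (b 5) (by simp [i.eq_iff]) _ (b 6)
    (by simp [i.eq_iff]) _ (b 7) (by simp [i.eq_iff]) _ (b 8) (by simp [i.eq_iff]) _ (b 9)
    (by simp [i.eq_iff]) _ (b 10) (by simp [i.eq_iff]) _ (b 11) (by simp [i.eq_iff])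
  rw [show ![τ 0, τ 1, τ 2, τ 3, τ 4, τ 5, τ 6, τ 7, τ 8, τ 9, τ 10, τ 11] = τ from
    funext fun i => by fin_cases i <;> rfl] at hk
  have := Fintype.card_le_of_surjective (fun j : Fin (k + 1) => τ^[j] 0)
    (inv (Set.range _) ⟨_, 0, rfl⟩ (by
      rintro _ ⟨j, rfl⟩
      rw [← Function.iterate_succ_apply' τ]
      rcases (Nat.le_of_lt_succ j.2).lt_or_eq with l | l
      · exact ⟨⟨j + 1, by omega⟩, rfl⟩
      · exact ⟨0, by rw [l]; exact hk.symm⟩))
  simp at this
  omega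

theorem pigeon (ps : List (List ℕ)) (S : Finset ℕ) (h : S.card < ps.length)
    (hn : ps.flatten.Nodup) : ∃ p ∈ ps, ∀ w ∈ p, w ∉ S := by
  induction ps generalizing S with
  | nil => simp at h
  | cons p ps ih =>
    by_cases c : ∀ w ∈ p, w ∉ S
    · exact ⟨p, by simp, c⟩
    push Not at c
    obtain ⟨w, w1, w2⟩ := c
    rw [List.flatten_cons, List.nodup_append] at hn
    have := Finset.card_pos.2 ⟨w, w2⟩
    obtain ⟨q, q1, q2⟩ := ih (S.erase w) (by rw [Finset.card_erase_of_mem w2]; simp at h; omega)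
      hn.2.1
    exact ⟨q, by simp [q1], fun x hx f => q2 x hx (Finset.mem_erase.2
      ⟨fun e => hn.2.2 w w1 x (List.mem_flatten.2 ⟨q, q1, hx⟩) e.symm, f⟩)⟩

theorem conn {V : Type*} {G : SimpleGraph V} (E : Fin 660 ≃ V)
    (hA : ∀ u v, G.Adj (E u) (E v) ↔ v.1 ∈ nb u.1) (S : Finset V) (hS : S.card < 4) :
    (G.induce ((↑S : Set V)ᶜ)).Connected := by
  let S' : Finset ℕ := S.image fun v => (E.symm v).1
  have c : S'.card < 4 := Finset.card_image_le.trans_lt hS
  have m : ∀ u : Fin 660, u.1 ∉ S' ↔ E u ∈ (↑S : Set V)ᶜ := fun u => by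
    simp only [S', Finset.mem_image, Fin.val_inj, Equiv.symm_apply_eq]; simp
  let R : ℕ → ℕ → Prop := fun u v => ∃ (hu : u < 660) (hv : v < 660) (a : u ∉ S') (b : v ∉ S'),
    (G.induce ((↑S : Set V)ᶜ)).Reachable ⟨E ⟨u, hu⟩, (m _).1 a⟩ ⟨E ⟨v, hv⟩, (m _).1 b⟩
  have tr : ∀ u v w, R u v → R v w → R u w := fun u v w ⟨a, _, b, _, r⟩ ⟨_, c, _, d, r'⟩ =>
    ⟨a, c, b, d, r.trans r'⟩
  have sy : ∀ u v, R u v → R v u := fun u v ⟨a, c, b, d, r⟩ => ⟨c, a, d, b, r.symm⟩
  have P : ∀ (p : List ℕ) u, u < 660 → u ∉ S' → (∀ w ∈ p, w ∉ S') → path u p = true →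
      R u (p.getLastD u) := by
    intro p
    induction p with
    | nil => exact fun u a b _ _ => ⟨a, a, b, b, .refl _⟩
    | cons w p ih =>
      intro u a b c d
      simp only [path, Bool.and_eq_true, List.contains_iff_mem] at d
      have l := ((loc u a).2.1 w d.1).1
      rw [List.getLastD_cons]
      exact tr _ _ _ ⟨a, l, b, c w (by simp), Adj.reachable ((hA _ _).2 d.1)⟩
        (ih w l (c w (by simp)) (fun x hx => c x (by simp [hx])) d.2)
  have low : ∀ u, u < 660 → u ∉ S' → ∃ w < 4, R u w := by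
    intro u
    induction u using Nat.strong_induction_on with
    | _ u ih =>
      intro a b
      by_cases l : u < 4
      · exact ⟨u, l, a, a, b, b, .refl _⟩
      have e : u - 4 < F.length := by rw [lens.2.2.1]; omega
      obtain ⟨f1, f2, f3⟩ := fans (F[u - 4], u - 4) (by simp [List.mem_zipIdx_iff_getElem?, e])
      obtain ⟨p, p1, p2⟩ := pigeon _ S' (c.trans_eq f1.symm) f2
      have := f3 p p1
      rw [show u - 4 + 4 = u by omega] at this
      have r := P p u a b p2 this.1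
      obtain ⟨w, w1, w2⟩ := ih _ this.2 r.2.1 r.2.2.2.1
      exact ⟨w, w1, tr _ _ _ r w2⟩
  have pr : ∀ a < 4, ∀ b < a, a ∉ S' → b ∉ S' → R a b := fun a ha b hb x y => by
    obtain ⟨q, -, f1, f2, f3⟩ := pairs a ha b hb
    obtain ⟨p, p1, p2⟩ := pigeon _ S' (c.trans_eq f1.symm) f2
    simpa using P (p ++ [b]) a (by omega) x (by simpa [or_imp, forall_and] using ⟨p2, y⟩) (f3 p p1)
  have : Nonempty ((↑S : Set V)ᶜ : Set V) := by
    obtain ⟨u, u1, u2⟩ := Finset.exists_mem_notMem_of_card_lt_card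
      (show S'.card < (Finset.range 4).card by simpa using c)
    exact ⟨⟨E ⟨u, by simp at u1; omega⟩, (m _).1 u2⟩⟩
  refine ⟨fun ⟨x, hx⟩ ⟨y, hy⟩ => ?_⟩
  obtain ⟨u, rfl⟩ := E.surjective x
  obtain ⟨v, rfl⟩ := E.surjective y
  obtain ⟨a, a1, a2⟩ := low u u.2 ((m _).2 hx)
  obtain ⟨b, b1, b2⟩ := low v v.2 ((m _).2 hy)
  have : R a b := by
    rcases lt_trichotomy a b with l | rfl | l
    · exact sy _ _ (pr b b1 a l b2.2.2.2.1 a2.2.2.2.1)
    · exact tr _ _ _ (sy _ _ a2) a2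
    · exact pr a a1 b l a2.2.2.2.1 b2.2.2.2.1
  exact (tr _ _ _ a2 (tr _ _ _ this (sy _ _ b2))).2.2.2.2

noncomputable def pp (i : Fin 330) : E2 := pt (X[i.1]'(i.2.trans_eq lens.1.symm))

def ll (j : Fin 330) : AffineSubspace ℝ E2 := ln (Y[j.1]'(j.2.trans_eq lens.2.1.symm))

theorem inc (i j : Fin 330) : pp i ∈ ll j ↔ 2 * j.1 + 1 ∈ nb (2 * i.1) := by
  have := List.all_eq_true.1 geo (X[i.1]'(i.2.trans_eq lens.1.symm), i) (by simp [List.mem_zipIdx_iff_getElem?])
  rw [pp, ll, pt_mem _ (lens.2.2.2 _ (List.getElem_mem _)), ← beq_iff_eq.1 this]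
  simp only [List.mem_map, List.mem_filter, List.mem_zipIdx_iff_getElem?, beq_iff_eq]
  constructor
  · exact fun h => ⟨(Y[j.1]'(j.2.trans_eq lens.2.1.symm), j), ⟨by simp, h⟩, rfl⟩
  · rintro ⟨⟨y, k⟩, ⟨h1, h2⟩, h3⟩
    obtain rfl : k = j := by simp at h3; omega
    obtain ⟨_, e⟩ := List.getElem?_eq_some_iff.1 h1
    exact (congrArg _ e).trans h2

theorem sym {u v : ℕ} (hu : u < 660) (hv : v < 660) : v ∈ nb u ↔ u ∈ nb v :=
  ⟨fun h => ((loc u hu).2.1 v h).2.1, fun h => ((loc v hv).2.1 u h).2.1⟩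

theorem uniq {u w : ℕ} (hu : u < 660) (hw : w < 660) (h : ∀ a ∈ nb u, a ∈ nb w) : w = u := by
  obtain ⟨n, l, k⟩ := loc u hu
  obtain ⟨a, b, c, d, e⟩ : ∃ a b c d, nb u = [a, b, c, d] := ⟨_, _, _, _, rfl⟩
  have x : a ∈ nb u := by simp [e]
  have y : b ∈ nb u := by simp [e]
  exact k a x b y (by rw [e] at n; simp at n; tauto) w ((sym hw (l a x).1).1 (h a x))
    ((sym hw (l b y).1).1 (h b y))

theorem inc' (i j : Fin 330) : pp i ∈ ll j ↔ 2 * i.1 ∈ nb (2 * j.1 + 1) :=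
  (inc i j).trans (sym (by omega) (by omega))

theorem pinj : pp.Injective := fun i k e => by
  have := uniq (u := 2 * i) (w := 2 * k) (by omega) (by omega) fun a ha => by
    have := (loc _ (by omega)).2.1 a ha
    obtain ⟨j, rfl⟩ : ∃ j : Fin 330, a = 2 * j.1 + 1 := ⟨⟨a / 2, by omega⟩, by simp; omega⟩
    rwa [← inc, ← e, inc]
  omega

theorem linj : ll.Injective := fun i k e => by
  have := uniq (u := 2 * i + 1) (w := 2 * k + 1) (by omega) (by omega) fun a ha => by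
    have := (loc _ (by omega)).2.1 a ha
    obtain ⟨j, rfl⟩ : ∃ j : Fin 330, a = 2 * j.1 := ⟨⟨a / 2, by omega⟩, by simp; omega⟩
    rwa [← inc', ← e, inc']
  omega

theorem cnt {α : Type*} {f : Fin 330 → α} (hf : f.Injective) (P : α → Prop) [DecidablePred P]
    {u r : ℕ} (hu : u < 660) (hr : (u + r) % 2 = 1) (r1 : r ≤ 1)
    (h : ∀ j, P (f j) ↔ 2 * j.1 + r ∈ nb u) :
    ((Finset.univ.map ⟨f, hf⟩).filter P).card = 4 := by
  rw [Finset.filter_map, Finset.card_map, show 4 = (nb u).length from rfl,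
    ← List.toFinset_card_of_nodup (loc u hu).1]
  refine Finset.card_bij (fun j _ => 2 * j.1 + r) (fun j hj => by simpa [h] using hj)
    (fun i _ j _ e => by omega) fun a ha => ?_
  have ha := List.mem_toFinset.1 ha
  have := (loc u hu).2.1 a ha
  have e : 2 * (a / 2) + r = a := by omega
  exact ⟨⟨a / 2, by omega⟩, by simpa [h, e] using ha, e⟩

open Classical in
theorem main : ∃ (P : Finset E2) (L : Finset (AffineSubspace ℝ E2)), P.Nonempty ∧
    (∀ l ∈ L, Module.finrank ℝ l.direction = 1) ∧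
    (∀ p ∈ P, (L.filter (fun l => p ∈ l)).card = 4) ∧
    (∀ l ∈ L, (P.filter (fun p => p ∈ l)).card = 4) ∧
    ∃ G : SimpleGraph ({p // p ∈ P} ⊕ {l // l ∈ L}),
      G = SimpleGraph.fromRel (fun a b : {p // p ∈ P} ⊕ {l // l ∈ L} =>
        ∃ p l, a = Sum.inl p ∧ b = Sum.inr l ∧ (p : E2) ∈ (l : AffineSubspace ℝ E2)) ∧
      4 < Fintype.card ({p // p ∈ P} ⊕ {l // l ∈ L}) ∧
      (∀ S : Finset ({p // p ∈ P} ⊕ {l // l ∈ L}), S.card < 4 →
        (G.induce ((↑S : Set ({p // p ∈ P} ⊕ {l // l ∈ L}))ᶜ)).Connected) ∧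
      ¬ G.IsHamiltonian := by
  let P := Finset.univ.map ⟨pp, pinj⟩
  let L := Finset.univ.map ⟨ll, linj⟩
  let e : Fin 660 → {p // p ∈ P} ⊕ {l // l ∈ L} := fun u => if u.1 % 2 = 0 then
    .inl ⟨pp ⟨u / 2, by omega⟩, by simp [P]⟩ else .inr ⟨ll ⟨u / 2, by omega⟩, by simp [L]⟩
  have c : Fintype.card ({p // p ∈ P} ⊕ {l // l ∈ L}) = 660 := by simp [P, L]
  have b : e.Bijective := (Fintype.bijective_iff_injective_and_card e).2 ⟨fun u v h => by
    simp only [e] at h
    split_ifs at h <;> simp [pinj.eq_iff, linj.eq_iff] at h <;> omega, by simp [c]⟩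
  have hA : ∀ u v, (SimpleGraph.fromRel (fun a b : {p // p ∈ P} ⊕ {l // l ∈ L} =>
      ∃ p l, a = Sum.inl p ∧ b = Sum.inr l ∧ (p : E2) ∈ (l : AffineSubspace ℝ E2))).Adj
      (Equiv.ofBijective e b u) (Equiv.ofBijective e b v) ↔ v.1 ∈ nb u.1 := fun u v => by
    have x := (loc u u.2).2.1 v
    simp only [Equiv.ofBijective_apply, e, fromRel_adj]
    split_ifs with h1 h2 h2
    · simpa using fun f => by have := x f; omega
    · simp [inc, show 2 * (u.1 / 2) = u by omega, show 2 * (v.1 / 2) + 1 = v by omega]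
    · simp [inc', show 2 * (v.1 / 2) = v by omega, show 2 * (u.1 / 2) + 1 = u by omega]
    · simpa using fun f => by have := x f; omega
  refine ⟨P, L, by simp [P], ?_, ?_, ?_, _, rfl, by omega, conn _ hA, nonham _ hA⟩
  · simp only [L, Finset.mem_map, Finset.mem_univ, true_and]
    rintro _ ⟨j, rfl⟩
    have := cnt pinj (· ∈ ll j) (u := 2 * j + 1) (r := 0) (by omega) (by omega) (by omega)
      (inc' · j)
    obtain ⟨x, hx⟩ := Finset.card_pos.1 (this ▸ zero_lt_four)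
    obtain ⟨y, y1, y2⟩ := Finset.exists_mem_notMem_of_card_lt_card (s := P.filter (· ∈ ll j)) (t := P)
      (by rw [this]; simp [P])
    exact rank_ln (Finset.mem_filter.1 hx).2 fun f => y2 (Finset.mem_filter.2 ⟨y1, f⟩)
  · simp only [P, Finset.mem_map, Finset.mem_univ, true_and]
    rintro _ ⟨i, rfl⟩
    exact cnt linj _ (u := 2 * i) (r := 1) (by omega) (by omega) le_rfl (inc i)
  · simp only [L, Finset.mem_map, Finset.mem_univ, true_and]
    rintro _ ⟨j, rfl⟩
    exact cnt pinj _ (u := 2 * j + 1) (r := 0) (by omega) (by omega) (by omega) (inc' · j)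

end Pool.Agent.H2.Ham
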