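import Mathlib

set_option autoImplicit false
open Filter Topology Finset

namespace Pool.Agent.H2.HhA

variable {𝕜 : Type*} [RCLike 𝕜]

lemma lim (m : ℕ) : Tendsto (fun n : ℕ => (n.choose m : 𝕜) / (n : 𝕜) ^ m) atTop
    (𝓝 ((m.factorial : 𝕜)⁻¹)) := by
  have h0 : ∀ᶠ n : ℕ in atTop, ((n : ℝ) ^ m / m.factorial) ≠ 0 := by
    filter_upwards [eventually_ge_atTop 1] with n hn
    have : (0 : ℝ) < n := by exact_mod_cast hn
    positivity
  have h1 := (Asymptotics.isEquivalent_iff_tendsto_one h0).mp (isEquivalent_choose m)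
  have h2 := h1.mul_const ((m.factorial : ℝ)⁻¹)
  have h3 : Tendsto (fun n : ℕ => (n.choose m : ℝ) / (n : ℝ) ^ m) atTop
      (𝓝 ((m.factorial : ℝ)⁻¹)) := by
    rw [one_mul] at h2
    refine h2.congr' ?_
    filter_upwards [eventually_ge_atTop 1] with n hn
    have : (0 : ℝ) < n := by exact_mod_cast hn
    have : (0 : ℝ) < m.factorial := by positivity
    simp only [Pi.div_apply]
    field_simp
  have h4 := (RCLike.continuous_ofReal (K := 𝕜)).continuousAt.tendsto.comp h3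
  simpa [Function.comp_def] using h4

lemma lim0 (k b : ℕ) (h : k < b) :
    Tendsto (fun n : ℕ => (n : 𝕜) ^ k / (n : 𝕜) ^ b) atTop (𝓝 0) := by
  have h1 : Tendsto (fun n : ℕ => (n : ℝ) ^ k / (n : ℝ) ^ b) atTop (𝓝 0) :=
    (tendsto_pow_div_pow_atTop_zero h).comp tendsto_natCast_atTop_atTop
  have h4 := (RCLike.continuous_ofReal (K := 𝕜)).continuousAt.tendsto.comp h1
  simpa [Function.comp_def] using h4

lemma lim1 (k : ℕ) : ∃ a : 𝕜, Tendsto (fun n : ℕ => ((n : 𝕜) ^ k)⁻¹) atTop (𝓝 a) := by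
  rcases Nat.eq_zero_or_pos k with h | h
  · subst h; exact ⟨1, by simp⟩
  · exact ⟨0, by simpa using lim0 (𝕜 := 𝕜) 0 k h⟩

open Polynomial in
lemma det_ne (b : ℕ) :
    (Matrix.of fun k l : Fin b => (((b + l - k : ℕ).factorial : 𝕜))⁻¹).det ≠ 0 := by
  intro h
  obtain ⟨v, hv, h0⟩ := Matrix.exists_mulVec_eq_zero_iff.mpr h
  apply hv
  have hb : 0 < b := by
    by_contra hb
    have : b = 0 := by omega
    subst this
    exact hv (Subsingleton.elim _ _)
  set P : 𝕜[X] := ∑ l : Fin b, (v l / ((b + l : ℕ).factorial : 𝕜)) • X ^ (b + l : ℕ) with hP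
  have hP0 : P = 0 := by
    by_contra hne
    have h1 : b - 1 < P.rootMultiplicity 1 := by
      refine lt_rootMultiplicity_of_isRoot_iterate_derivative hne fun m hm => ?_
      have h2 := congrFun h0 ⟨m, by omega⟩
      simp only [Matrix.mulVec, dotProduct, Matrix.of_apply, Pi.zero_apply] at h2
      rw [IsRoot.def, hP, iterate_derivative_sum, eval_finset_sum, ← h2]
      refine Finset.sum_congr rfl fun l _ => ?_
      rw [iterate_derivative_smul, iterate_derivative_X_pow_eq_smul]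
      have h3 : (((b + l - m : ℕ).factorial : 𝕜)) * ((b + l : ℕ).descFactorial m : 𝕜) =
          ((b + l : ℕ).factorial : 𝕜) := by
        exact_mod_cast Nat.factorial_mul_descFactorial (by omega : m ≤ b + l)
      have h4 : (((b + l - m : ℕ).factorial : 𝕜)) ≠ 0 := by
        exact_mod_cast Nat.factorial_ne_zero _
      have h5 : (((b + l : ℕ).descFactorial m : 𝕜)) ≠ 0 := by
        intro h5
        rw [h5, mul_zero] at h3
        exact (Nat.cast_ne_zero.mpr (Nat.factorial_ne_zero _)) h3.symm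
      rw [← h3]
      simp only [eval_smul, eval_pow, eval_X, one_pow, smul_eq_mul, mul_one]
      field_simp
    have h2 : (X - C (1 : 𝕜)) ^ b ∣ P :=
      (pow_dvd_pow _ (by omega)).trans (pow_rootMultiplicity_dvd P 1)
    have h3 : (X - C (0 : 𝕜)) ^ b ∣ P := by
      rw [map_zero, sub_zero, hP]
      refine Finset.dvd_sum fun l _ => ?_
      rw [smul_eq_C_mul, pow_add]
      exact Dvd.dvd.mul_left (Dvd.intro _ rfl) _
    have h4 : IsCoprime ((X - C (1 : 𝕜)) ^ b) ((X - C (0 : 𝕜)) ^ b) :=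
      (isCoprime_X_sub_C_of_isUnit_sub (by simp)).pow
    have h5 := natDegree_le_of_dvd (h4.mul_dvd h2 h3) hne
    rw [natDegree_mul (pow_ne_zero _ (X_sub_C_ne_zero _)) (pow_ne_zero _ (X_sub_C_ne_zero _)),
      natDegree_pow, natDegree_pow, natDegree_X_sub_C, natDegree_X_sub_C] at h5
    have h6 : P.natDegree ≤ b + b - 1 := by
      rw [hP]
      refine natDegree_sum_le_of_forall_le _ _ fun l _ => ?_
      refine (natDegree_smul_le _ _).trans ?_
      rw [natDegree_X_pow]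
      have := l.2
      omega
    omega
  funext l
  have h1 := congrArg (fun p : 𝕜[X] => p.coeff (b + l)) hP0
  simp only [hP, finset_sum_coeff, coeff_smul, coeff_X_pow, coeff_zero] at h1
  rw [Finset.sum_eq_single l] at h1
  · have h4 : (((b + l : ℕ).factorial : 𝕜)) ≠ 0 := by
      exact_mod_cast Nat.factorial_ne_zero _
    simpa [h4] using h1
  · intro l' _ hl
    rw [if_neg, smul_zero]
    intro h
    exact hl (Fin.ext (by omega))
  · simp

lemma solve (b : ℕ) (r : ℕ → Fin b → 𝕜)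
    (hr : ∀ k : Fin b, Tendsto (fun n : ℕ => r n k * ((n : 𝕜) ^ (k : ℕ) / (n : 𝕜) ^ b)) atTop (𝓝 0)) :
    ∃ c : ℕ → Fin b → 𝕜, (∀ l, Tendsto (fun n => c n l) atTop (𝓝 0)) ∧
      ∀ᶠ n : ℕ in atTop, ∀ k : Fin b,
        ∑ l : Fin b, (n.choose (b + l - k) : 𝕜) * (c n l / (n : 𝕜) ^ (l : ℕ)) = r n k := by
  let M : ℕ → Matrix (Fin b) (Fin b) 𝕜 := fun n =>
    Matrix.of fun k l : Fin b => (n.choose (b + l - k) : 𝕜) / (n : 𝕜) ^ (b + l - k : ℕ)
  let M' : Matrix (Fin b) (Fin b) 𝕜 :=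
    Matrix.of fun k l : Fin b => (((b + l - k : ℕ).factorial : 𝕜))⁻¹
  have hM : Tendsto M atTop (𝓝 M') :=
    tendsto_pi_nhds.mpr fun k => tendsto_pi_nhds.mpr fun l => lim _
  have hd : M'.det ≠ 0 := det_ne b
  have hI : Tendsto (fun n => (M n)⁻¹) atTop (𝓝 M'⁻¹) := by
    refine (continuousAt_matrix_inv M' ?_).tendsto.comp hM
    rw [Ring.inverse_eq_inv']
    exact continuousAt_inv₀ hd
  have hdet : ∀ᶠ n in atTop, (M n).det ≠ 0 :=
    ((continuous_id.matrix_det.tendsto M').comp hM).eventually_ne hd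
  let ρ : ℕ → Fin b → 𝕜 := fun n k => r n k * ((n : 𝕜) ^ (k : ℕ) / (n : 𝕜) ^ b)
  refine ⟨fun n => (M n)⁻¹.mulVec (ρ n), fun l => ?_, ?_⟩
  · simp only [Matrix.mulVec, dotProduct]
    have := tendsto_finset_sum (Finset.univ : Finset (Fin b)) fun k _ =>
      ((tendsto_pi_nhds.mp (tendsto_pi_nhds.mp hI l) k).mul (hr k))
    simpa using this
  · filter_upwards [hdet, eventually_ge_atTop 1] with n hn h1 k
    have hn0 : (n : 𝕜) ≠ 0 := by exact_mod_cast (by omega : n ≠ 0)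
    have h2 : (M n).mulVec ((M n)⁻¹.mulVec (ρ n)) = ρ n := by
      rw [Matrix.mulVec_mulVec, Matrix.mul_nonsing_inv _ (Ne.isUnit hn), Matrix.one_mulVec]
    have h3 := congrFun h2 k
    generalize (M n)⁻¹.mulVec (ρ n) = c at h3
    simp only [Matrix.mulVec, dotProduct, M, Matrix.of_apply, ρ] at h3
    have h4 : r n k = (r n k * ((n : 𝕜) ^ (k : ℕ) / (n : 𝕜) ^ b)) * ((n : 𝕜) ^ b / (n : 𝕜) ^ (k : ℕ)) := by
      field_simp
    rw [h4, ← h3, Finset.sum_mul]
    refine Finset.sum_congr rfl fun l _ => ?_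
    have h5 : (n : 𝕜) ^ (b + l - k : ℕ) = (n : 𝕜) ^ b * (n : 𝕜) ^ (l : ℕ) / (n : 𝕜) ^ (k : ℕ) := by
      rw [eq_div_iff (pow_ne_zero _ hn0), ← pow_add, ← pow_add]
      congr 1
      have := k.2
      omega
    rw [h5]
    field_simp

def co (n l k : ℕ) : ℕ := if k ≤ l then n.choose (l - k) else 0

variable {V : Type*} [AddCommGroup V] [Module 𝕜 V]

lemma pow_chain (S : Module.End 𝕜 V) (g : ℕ → V) (h0 : S (g 0) = 0)
    (h1 : ∀ l, S (g (l + 1)) = g l) (n l : ℕ) :
    ((1 + S) ^ n) (g l) = ∑ k ∈ range (l + 1), (n.choose (l - k) : 𝕜) • g k := by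
  induction n generalizing l with
  | zero =>
    rw [Finset.sum_range_succ, Finset.sum_eq_zero]
    · simp
    · intro k hk
      rw [Nat.choose_eq_zero_of_lt (by have := mem_range.mp hk; omega)]
      simp
  | succ n ih =>
    rw [pow_succ, Module.End.mul_apply]
    cases l with
    | zero =>
      have := ih 0
      simpa [h0] using this
    | succ l =>
      rw [LinearMap.add_apply, Module.End.one_apply, h1, map_add, ih, ih,
        Finset.sum_range_succ _ (l + 1), Finset.sum_range_succ _ (l + 1), add_right_comm,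
        ← Finset.sum_add_distrib]
      congr 1
      · refine Finset.sum_congr rfl fun k hk => ?_
        have hk' := mem_range.mp hk
        rw [show l + 1 - k = (l - k) + 1 by omega, Nat.choose_succ_succ', ← add_smul]
        push_cast
        rw [add_comm]
      · simp

lemma pow_chain' (S : Module.End 𝕜 V) (g : ℕ → V) (h0 : S (g 0) = 0)
    (h1 : ∀ l, S (g (l + 1)) = g l) (n l b : ℕ) (hl : l < b + b) :
    ((1 + S) ^ n) (g l) = ∑ k : Fin b, (co n l k : 𝕜) • g k +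
      ∑ k : Fin b, (co n l (b + k) : 𝕜) • g (b + k) := by
  rw [pow_chain S g h0 h1, Fin.sum_univ_eq_sum_range (fun k => (co n l k : 𝕜) • g k),
    Fin.sum_univ_eq_sum_range (fun k => (co n l (b + k) : 𝕜) • g (b + k)),
    ← Finset.sum_range_add (fun k => (co n l k : 𝕜) • g k)]
  rw [← Finset.sum_subset (s₁ := range (l + 1)) (s₂ := range (b + b))
    (Finset.range_subset_range.mpr (by omega))]
  · refine Finset.sum_congr rfl fun k hk => ?_
    rw [co, if_pos (by have := mem_range.mp hk; omega)]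
  · intro k _ hk
    rw [co, if_neg (by simp at hk; omega)]
    simp

variable {Y : Type*} [NormedAddCommGroup Y] [NormedSpace 𝕜 Y]

lemma chain (S : Module.End 𝕜 V) (g : ℕ → V) (h0 : S (g 0) = 0)
    (h1 : ∀ l, S (g (l + 1)) = g l) (ι : Y →ₗ[𝕜] V) (K : Submodule 𝕜 Y) (i b : ℕ) (hi : i < b)
    (hK : ∀ l, b ≤ l → g l ∈ K.map ι) (α β : 𝕜) :
    ∃ u v : ℕ → Y, Tendsto u atTop (𝓝 0) ∧ Tendsto v atTop (𝓝 0) ∧ (∀ n, u n ∈ K) ∧
      ∀ᶠ n in atTop, ((1 + S) ^ n) (α • g i + ι (u n)) = β • g i + ι (v n) := by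
  classical
  choose x hx1 hx2 using fun l : Fin b => hK (b + l) (by omega)
  obtain ⟨c, hc1, hc2⟩ := solve (𝕜 := 𝕜) b
    (fun n k => (if (k : ℕ) = i then β else 0) - α * (co n i k : 𝕜)) (by
      intro k
      have h2 := (lim0 (𝕜 := 𝕜) k b k.2).const_mul (if (k : ℕ) = i then β else 0)
      by_cases hk : (k : ℕ) ≤ i
      · have h3 := ((lim (𝕜 := 𝕜) (i - k)).mul (lim0 (𝕜 := 𝕜) i b hi)).const_mul α
        have h4 := h2.sub h3
        simp only [mul_zero, sub_zero] at h4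
        refine h4.congr' ?_
        filter_upwards [eventually_ge_atTop 1] with n hn
        have hn0 : (n : 𝕜) ≠ 0 := by exact_mod_cast (by omega : n ≠ 0)
        have h5 : (n : 𝕜) ^ i = (n : 𝕜) ^ (i - k) * (n : 𝕜) ^ (k : ℕ) := by
          rw [← pow_add]; congr 1; omega
        rw [co, if_pos hk, h5]
        field_simp
      · simpa [co, hk] using h2)
  refine ⟨fun n => ∑ l, (c n l / (n : 𝕜) ^ (l : ℕ)) • x l,
    fun n => ∑ k : Fin b, (∑ l : Fin b, (co n (b + l) (b + k) : 𝕜) * (c n l / (n : 𝕜) ^ (l : ℕ))) • x k,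
    ?_, ?_, fun n => Submodule.sum_mem _ fun l _ => K.smul_mem _ (hx1 l), ?_⟩
  · have := tendsto_finset_sum (Finset.univ : Finset (Fin b)) fun l _ =>
      (((hc1 l).mul (lim1 (𝕜 := 𝕜) l).choose_spec).smul_const (x l))
    simpa [div_eq_mul_inv] using this
  · have h2 : ∀ k l : Fin b, Tendsto (fun n : ℕ =>
        (co n (b + l) (b + k) : 𝕜) * (c n l / (n : 𝕜) ^ (l : ℕ))) atTop (𝓝 0) := by
      intro k l
      by_cases hk : (k : ℕ) ≤ l
      · have h3 := (lim (𝕜 := 𝕜) (l - k)).mul ((hc1 l).mul (lim1 (𝕜 := 𝕜) k).choose_spec)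
        simp only [zero_mul, mul_zero] at h3
        refine h3.congr' ?_
        filter_upwards [eventually_ge_atTop 1] with n hn
        have hn0 : (n : 𝕜) ≠ 0 := by exact_mod_cast (by omega : n ≠ 0)
        have h5 : (n : 𝕜) ^ (l : ℕ) = (n : 𝕜) ^ ((l : ℕ) - k) * (n : 𝕜) ^ (k : ℕ) := by
          rw [← pow_add]; congr 1; omega
        rw [co, if_pos (by omega), h5, show b + l - (b + k) = l - k by omega]
        field_simp
      · simp [co, hk]
    have := tendsto_finset_sum (Finset.univ : Finset (Fin b)) fun k _ =>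
      ((tendsto_finset_sum (Finset.univ : Finset (Fin b)) fun l _ => h2 k l).smul_const (x k))
    simpa using this
  · filter_upwards [hc2] with n hn
    simp only [map_add, map_smul, map_sum, hx2]
    rw [pow_chain' S g h0 h1 n i b (by omega)]
    have h3 : ∀ l : Fin b, ((1 + S) ^ n) (g (b + l)) = ∑ k : Fin b, (co n (b + l) k : 𝕜) • g k +
      ∑ k : Fin b, (co n (b + l) (b + k) : 𝕜) • g (b + k) := fun l =>
        pow_chain' S g h0 h1 n _ b (by have := l.2; omega)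
    have h4 : ∑ k : Fin b, (co n i (b + k) : 𝕜) • g (b + k) = 0 := by
      refine Finset.sum_eq_zero fun k _ => ?_
      rw [co, if_neg (by omega)]; simp
    simp only [h3, smul_add, Finset.sum_add_distrib, h4, add_zero, smul_zero]
    rw [← add_assoc]
    congr 1
    · have h5 : β • g i = ∑ k : Fin b, (if (k : ℕ) = i then β else 0) • g k := by
        rw [Finset.sum_eq_single ⟨i, hi⟩]
        · simp
        · intro k _ hk
          rw [if_neg (fun h => hk (Fin.ext h)), zero_smul]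
        · simp
      simp only [Finset.smul_sum, smul_smul]
      rw [Finset.sum_comm, ← Finset.sum_add_distrib, h5]
      refine Finset.sum_congr rfl fun k _ => ?_
      rw [← Finset.sum_smul, ← add_smul]
      congr 1
      have h6 := hn k
      have h7 : ∑ l : Fin b, c n l / (n : 𝕜) ^ (l : ℕ) * (co n (b + l) k : 𝕜) =
          ∑ l : Fin b, (n.choose (b + l - k) : 𝕜) * (c n l / (n : 𝕜) ^ (l : ℕ)) := by
        refine Finset.sum_congr rfl fun l _ => ?_
        rw [co, if_pos (by have := k.2; omega), mul_comm]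
      rw [h7, h6]
      ring
    · simp only [Finset.smul_sum, smul_smul]
      rw [Finset.sum_comm]
      refine Finset.sum_congr rfl fun k _ => ?_
      rw [Finset.sum_smul]
      refine Finset.sum_congr rfl fun l _ => ?_
      rw [mul_comm]

/-- `x` has a backward orbit that is eventually deep. -/
def Fwd (S : Module.End 𝕜 V) (ι : Y →ₗ[𝕜] V) (K : ℕ → Submodule 𝕜 Y) : Submodule 𝕜 V where
  carrier := {x | (∃ a, (S ^ (a + 1)) x = 0) ∧ ∃ h : ℕ → V, h 0 = x ∧ (∀ l, S (h (l + 1)) = h l) ∧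
    ∀ M, ∀ᶠ l in atTop, h l ∈ (K M).map ι}
  add_mem' := by
    rintro x y ⟨⟨a, ha⟩, h, h0, h1, h2⟩ ⟨⟨b, hb⟩, g, g0, g1, g2⟩
    refine ⟨⟨a + b, ?_⟩, h + g, by simp [h0, g0], fun l => by simp [h1, g1], fun M => ?_⟩
    · rw [map_add, show a + b + 1 = b + (a + 1) by ring, pow_add, Module.End.mul_apply, ha,
        ← pow_add, show b + (a + 1) = a + (b + 1) by ring, pow_add, Module.End.mul_apply, hb]
      simp
    · filter_upwards [h2 M, g2 M] with l h3 g3 using Submodule.add_mem _ h3 g3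
  zero_mem' := ⟨⟨0, by simp⟩, 0, rfl, fun l => by simp, fun M => by simp⟩
  smul_mem' := by
    rintro c x ⟨⟨a, ha⟩, h, h0, h1, h2⟩
    refine ⟨⟨a, by rw [map_smul, ha, smul_zero]⟩, c • h, by simp [h0], fun l => by simp [h1],
      fun M => ?_⟩
    filter_upwards [h2 M] with l h3 using Submodule.smul_mem _ _ h3

lemma one (S : Module.End 𝕜 V) (ι : Y →ₗ[𝕜] V) (K : ℕ → Submodule 𝕜 Y) (x : V)
    (hx : x ∈ Fwd S ι K) (M : ℕ) (α β : 𝕜) :
    ∃ u v : ℕ → Y, Tendsto u atTop (𝓝 0) ∧ Tendsto v atTop (𝓝 0) ∧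
      (∀ n, u n ∈ K M ⊓ (Fwd S ι K).comap ι) ∧
      ∀ᶠ n in atTop, ((1 + S) ^ n) (α • x + ι (u n)) = β • x + ι (v n) := by
  obtain ⟨⟨a, ha⟩, h, h0, h1, h2⟩ := hx
  obtain ⟨c, hc⟩ := eventually_atTop.mp (h2 M)
  have h3 : ∀ m l, (S ^ m) (h (l + m)) = h l := by
    intro m
    induction m with
    | zero => simp
    | succ m ih => intro l; rw [pow_succ, Module.End.mul_apply, ← add_assoc, h1, ih]
  have h6 : ∀ m, h m ∈ Fwd S ι K := by
    intro m
    refine ⟨⟨a + m, ?_⟩, fun l => h (l + m), by simp, fun l => ?_, fun M' => ?_⟩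
    · have := h3 m 0
      rw [zero_add] at this
      rw [show a + m + 1 = (a + 1) + m by ring, pow_add, Module.End.mul_apply, this, h0, ha]
    · show S (h (l + 1 + m)) = h (l + m)
      rw [show l + 1 + m = l + m + 1 by ring, h1]
    · exact (tendsto_add_atTop_nat m).eventually (h2 M')
  have h4 := chain S (fun l => (S ^ a) (h l))
    (by rw [h0, ← Module.End.mul_apply, ← pow_succ', ha])
    (fun l => by rw [← Module.End.mul_apply, ← pow_succ', pow_succ, Module.End.mul_apply, h1])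
    ι (K M ⊓ (Fwd S ι K).comap ι) a (a + c + 1) (by omega) (fun l hl => by
      obtain ⟨m, rfl⟩ : ∃ m, l = m + a := ⟨l - a, by omega⟩
      rw [h3]
      obtain ⟨w, hw1, hw2⟩ := hc m (by omega)
      exact ⟨w, ⟨hw1, by rw [SetLike.mem_coe, Submodule.mem_comap, hw2]; exact h6 m⟩, hw2⟩) α β
  have h5 : (S ^ a) (h a) = x := by simpa [h0] using h3 a 0
  simpa only [h5] using h4

lemma two (S : Module.End 𝕜 V) (ι : Y →ₗ[𝕜] V) (K : ℕ → Submodule 𝕜 Y) (z y : V)
    (hz : z ∈ Fwd S ι K) (hy : y ∈ Fwd S ι K) (M : ℕ) :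
    ∃ u v : ℕ → Y, Tendsto u atTop (𝓝 0) ∧ Tendsto v atTop (𝓝 0) ∧
      (∀ n, u n ∈ K M ⊓ (Fwd S ι K).comap ι) ∧
      ∀ᶠ n in atTop, ((1 + S) ^ n) (z + ι (u n)) = y + ι (v n) := by
  obtain ⟨u, v, h1, h2, h3, h4⟩ := one S ι K z hz M 1 0
  obtain ⟨u', v', g1, g2, g3, g4⟩ := one S ι K y hy M 0 1
  refine ⟨fun n => u n + u' n, fun n => v n + v' n, by simpa using h1.add g1,
    by simpa using h2.add g2, fun n => Submodule.add_mem _ (h3 n) (g3 n), ?_⟩
  filter_upwards [h4, g4] with n hn gn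
  simp only [one_smul, zero_smul, zero_add] at hn gn
  rw [map_add ι, map_add ι, ← add_assoc, map_add, hn, gn]
  abel

/-- The main construction: every target of a sequence is approached along a subsequence of `B`. -/
lemma build [CompleteSpace Y] (S : Module.End 𝕜 V) (ι : Y →ₗ[𝕜] V) (K : ℕ → Submodule 𝕜 Y)
    (T : Y →L[𝕜] Y) (hK : ∀ M, IsClosed (K M : Set Y)) (hK' : Antitone K)
    (hT : ∀ M, ∀ u ∈ K M, ((1 + S) ^ M) (ι u) = ι ((T ^ M) u))
    (y : ℕ → V) (hy : ∀ j, y j ∈ Fwd S ι K) (B : Set ℕ) (hB : B.Infinite) :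
    ∃ (x : V) (n : ℕ → ℕ) (r : ℕ → Y), (∀ j, n j ∈ B) ∧ Tendsto r atTop (𝓝 0) ∧
      ∀ j, ((1 + S) ^ (n j)) x = y j + ι (r j) := by
  have step : ∀ (j m : ℕ) (z : Fwd S ι K), ∃ (n : ℕ) (u v : Y), n ∈ B ∧ m ≤ n ∧
      u ∈ K m ∧ ι u ∈ Fwd S ι K ∧ ‖u‖ * (‖T‖ + 1) ^ m ≤ (1 / 2) ^ j ∧ ‖v‖ ≤ (1 / 2) ^ j ∧
      ((1 + S) ^ n) (z + ι u) = y j + ι v := by
    intro j m z
    obtain ⟨u, v, h1, h2, h3, h4⟩ := two S ι K z (y j) z.2 (hy j) m
    have e1 : ∀ᶠ n in atTop, ‖u n‖ * (‖T‖ + 1) ^ m ≤ (1 / 2) ^ j := by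
      have := h1.norm.mul_const ((‖T‖ + 1) ^ m)
      rw [norm_zero, zero_mul] at this
      exact this.eventually_le_const (by positivity)
    have e2 : ∀ᶠ n in atTop, ‖v n‖ ≤ (1 / 2) ^ j := by
      have := h2.norm
      rw [norm_zero] at this
      exact this.eventually_le_const (by positivity)
    obtain ⟨N, hN⟩ := eventually_atTop.mp (e1.and (e2.and (h4.and (eventually_ge_atTop m))))
    obtain ⟨n, hn, hn'⟩ := hB.exists_gt N
    obtain ⟨q1, q2, q3, q4⟩ := hN n hn'.le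
    exact ⟨n, u n, v n, hn, q4, (h3 n).1, (h3 n).2, q1, q2, q3⟩
  choose n u v s1 s2 s3 s4 s5 s6 s7 using step
  obtain ⟨s, hs0, hs⟩ : ∃ s : ℕ → ℕ × Fwd S ι K, s 0 = (0, 0) ∧ ∀ j, s (j + 1) =
      (n j (s j).1 (s j).2, (s j).2 + ⟨ι (u j (s j).1 (s j).2), s4 _ _ _⟩) :=
    ⟨fun j => Nat.rec (0, 0) (fun j sj =>
      (n j sj.1 sj.2, sj.2 + ⟨ι (u j sj.1 sj.2), s4 _ _ _⟩)) j, rfl, fun _ => rfl⟩
  set U : ℕ → Y := fun j => u j (s j).1 (s j).2 with hU
  have hz : ∀ j, ((s j).2 : V) = ι (∑ i ∈ range j, U i) := by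
    intro j
    induction j with
    | zero => simp [hs0]
    | succ j ih => rw [hs, Finset.sum_range_succ, map_add, ← ih]; rfl
  have hmono : Monotone fun j => (s j).1 := monotone_nat_of_le_succ fun j => by
    show (s j).1 ≤ (s (j + 1)).1
    rw [hs]; exact s2 _ _ _
  have hT1 : (1 : ℝ) ≤ ‖T‖ + 1 := by linarith [norm_nonneg T]
  have hU1 : ∀ j m, m ≤ (s j).1 → ‖(T ^ m) (U j)‖ ≤ (1 / 2) ^ j := by
    intro j m hm
    refine le_trans ?_ (s5 j (s j).1 (s j).2)
    refine ((T ^ m).le_opNorm _).trans ?_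
    rw [mul_comm]
    refine mul_le_mul_of_nonneg_left ?_ (norm_nonneg _)
    refine le_trans ?_ (pow_le_pow_right₀ hT1 hm)
    rcases Nat.eq_zero_or_pos m with h | h
    · subst h
      rw [pow_zero, pow_zero]
      exact ContinuousLinearMap.norm_id_le
    · exact (norm_pow_le' T h).trans (pow_le_pow_left₀ (norm_nonneg _) (by linarith) _)
  have hsum : Summable U := Summable.of_norm_bounded summable_geometric_two fun j => by
    simpa using hU1 j 0 (Nat.zero_le _)
  let W : ℕ → Y := fun j => ∑' i, U (i + (j + 1))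
  have hW : ∀ j, Summable fun i => U (i + (j + 1)) := fun j =>
    (summable_nat_add_iff (j + 1)).mpr hsum
  have hW1 : ∀ j, W j ∈ K (s (j + 1)).1 := by
    intro j
    refine (hK _).mem_of_tendsto (hW j).hasSum.tendsto_sum_nat (Eventually.of_forall fun N => ?_)
    exact Submodule.sum_mem _ fun i _ => hK' (hmono (by omega : j + 1 ≤ i + (j + 1))) (s3 _ _ _)
  have hW2 : ∀ j, ‖(T ^ (s (j + 1)).1) (W j)‖ ≤ (1 / 2) ^ j := by
    intro j
    rw [ContinuousLinearMap.map_tsum _ (hW j)]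
    have h1 : HasSum (fun i : ℕ => (1 / 2 : ℝ) ^ (i + (j + 1))) ((1 / 2) ^ j) := by
      have := hasSum_geometric_two.mul_right ((1 / 2 : ℝ) ^ (j + 1))
      rw [show 2 * (1 / 2 : ℝ) ^ (j + 1) = (1 / 2) ^ j by rw [pow_succ]; ring] at this
      simpa only [pow_add (1 / 2 : ℝ) _ (j + 1)] using this
    exact tsum_of_norm_bounded h1 fun i => hU1 _ _ (hmono (by omega : j + 1 ≤ i + (j + 1)))
  refine ⟨ι (∑' i, U i), fun j => (s (j + 1)).1,
    fun j => v j (s j).1 (s j).2 + (T ^ (s (j + 1)).1) (W j), fun j => ?_, ?_, fun j => ?_⟩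
  · beta_reduce
    rw [hs]; exact s1 _ _ _
  · have h1 : Tendsto (fun j : ℕ => (1 / 2 : ℝ) ^ j + (1 / 2) ^ j) atTop (𝓝 0) := by
      have := tendsto_pow_atTop_nhds_zero_of_lt_one (r := (1 / 2 : ℝ)) (by norm_num) (by norm_num)
      simpa using this.add this
    exact squeeze_zero_norm (fun j => (norm_add_le _ _).trans (add_le_add (s6 _ _ _) (hW2 j))) h1
  · rw [← hsum.sum_add_tsum_nat_add (j + 1), map_add ι, map_add, hT _ _ (hW1 j), map_add ι,
      ← add_assoc, Finset.sum_range_succ, map_add ι, ← hz]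
    congr 1
    have := s7 j (s j).1 (s j).2
    beta_reduce
    rw [hs]
    exact this

end Pool.Agent.H2.HhA
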