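import Mathlib
import Pool.Agent.H2.HhA

set_option autoImplicit false
open Filter Topology

namespace Pool.Agent.H2.HhB

variable {𝕂 : Type*} [RCLike 𝕂] {X : Type*} [NormedAddCommGroup X] [NormedSpace 𝕂 X]

def Inv (n : ℕ) (x : ℕ → X) (f : ℕ → X →L[𝕂] 𝕂) : Prop :=
  (∀ i < n, ∀ j < n, i ≠ j → f i (x j) = 0) ∧ ∀ i < n, (x i = 0 ∧ f i = 0) ∨ f i (x i) = 1

lemma step (d : X) (n : ℕ) (x : ℕ → X) (f : ℕ → X →L[𝕂] 𝕂) :
    ∃ g : X →L[𝕂] 𝕂, Inv n x f →
      Inv (n + 1) (Function.update x n (d - ∑ i ∈ Finset.range n, f i d • x i))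
        (Function.update f n g) := by
  classical
  set v := d - ∑ i ∈ Finset.range n, f i d • x i with hv
  have key : ∀ g : X →L[𝕂] 𝕂, Inv n x f → (∀ j < n, g (x j) = 0) → ((v = 0 ∧ g = 0) ∨ g v = 1) →
      Inv (n + 1) (Function.update x n v) (Function.update f n g) := by
    intro g h h1 h2
    have h3 : ∀ i < n, f i v = 0 := by
      intro i hi
      rw [hv, map_sub, map_sum, Finset.sum_eq_single i]
      · rcases h.2 i hi with h4 | h4
        · simp [h4.2]
        · simp [h4]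
      · intro j hj hji
        rw [map_smul, h.1 i hi j (Finset.mem_range.mp hj) hji.symm, smul_zero]
      · intro h; exact absurd (Finset.mem_range.mpr hi) h
    constructor
    · intro i hi j hj hij
      by_cases hin : i = n
      · subst hin
        rw [Function.update_self, Function.update_of_ne hij.symm]
        exact h1 j (by omega)
      · rw [Function.update_of_ne hin]
        by_cases hjn : j = n
        · subst hjn
          rw [Function.update_self]
          exact h3 i (by omega)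
        · rw [Function.update_of_ne hjn]
          exact h.1 i (by omega) j (by omega) hij
    · intro i hi
      by_cases hin : i = n
      · subst hin
        simpa using h2
      · rw [Function.update_of_ne hin, Function.update_of_ne hin]
        exact h.2 i (by omega)
  by_cases hv0 : v = 0
  · exact ⟨0, fun h => key 0 h (by simp) (Or.inl ⟨hv0, rfl⟩)⟩
  · obtain ⟨g0, -, hg0⟩ := exists_dual_vector 𝕂 v (norm_ne_zero_iff.mpr hv0)
    have hn : ((‖v‖ : ℝ) : 𝕂) ≠ 0 := by exact_mod_cast norm_ne_zero_iff.mpr hv0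
    let g1 : X →L[𝕂] 𝕂 := ((‖v‖ : ℝ) : 𝕂)⁻¹ • g0
    have hg1 : g1 v = 1 := by simp [g1, hg0, hn]
    refine ⟨g1 - ∑ i ∈ Finset.range n, g1 (x i) • f i, fun h => key _ h ?_ (Or.inr ?_)⟩
    · intro j hj
      rw [ContinuousLinearMap.sub_apply, ContinuousLinearMap.sum_apply, Finset.sum_eq_single j]
      · rcases h.2 j hj with h4 | h4
        · simp [h4.1]
        · simp [h4]
      · intro i hi hij
        rw [ContinuousLinearMap.smul_apply, h.1 i (Finset.mem_range.mp hi) j hj hij, smul_zero]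
      · intro h; exact absurd (Finset.mem_range.mpr hj) h
    · have h3 := (key 0 h (by simp))
      rw [ContinuousLinearMap.sub_apply, ContinuousLinearMap.sum_apply, hg1,
        Finset.sum_eq_zero, sub_zero]
      intro i hi
      have hi' := Finset.mem_range.mp hi
      have : f i v = 0 := by
        rw [hv, map_sub, map_sum, Finset.sum_eq_single i]
        · rcases h.2 i hi' with h4 | h4
          · simp [h4.2]
          · simp [h4]
        · intro j hj hji
          rw [map_smul, h.1 i hi' j (Finset.mem_range.mp hj) hji.symm, smul_zero]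
        · intro h; exact absurd hi h
      rw [ContinuousLinearMap.smul_apply, this, smul_zero]

lemma biorth (d : ℕ → X) : ∃ (x : ℕ → X) (f : ℕ → X →L[𝕂] 𝕂),
    (∀ i j, i ≠ j → f i (x j) = 0) ∧ (∀ i, x i = 0 ∨ f i (x i) = 1) ∧
    ∀ i, d i ∈ Submodule.span 𝕂 (Set.range x) := by
  classical
  choose g hg using fun n (s : (ℕ → X) × (ℕ → X →L[𝕂] 𝕂)) => step (d n) n s.1 s.2
  obtain ⟨s, hs⟩ : ∃ s : ℕ → (ℕ → X) × (ℕ → X →L[𝕂] 𝕂), ∀ n, s (n + 1) =
      (Function.update (s n).1 n (d n - ∑ i ∈ Finset.range n, (s n).2 i (d n) • (s n).1 i),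
        Function.update (s n).2 n (g n (s n))) :=
    ⟨fun n => Nat.rec (0, 0) (fun n sn =>
      (Function.update sn.1 n (d n - ∑ i ∈ Finset.range n, sn.2 i (d n) • sn.1 i),
        Function.update sn.2 n (g n sn))) n, fun _ => rfl⟩
  have hinv : ∀ n, Inv n (s n).1 (s n).2 := by
    intro n
    induction n with
    | zero => exact ⟨by simp, by simp⟩
    | succ n ih => rw [hs]; exact hg n (s n) ih
  have hst : ∀ n i, i < n → (s n).1 i = (s (i + 1)).1 i ∧ (s n).2 i = (s (i + 1)).2 i := by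
    intro n
    induction n with
    | zero => intro i hi; omega
    | succ n ih =>
      intro i hi
      rcases Nat.lt_succ_iff_lt_or_eq.mp hi with h | h
      · rw [hs n]
        simp only [Function.update_of_ne h.ne]
        exact ih i h
      · rw [h]; exact ⟨rfl, rfl⟩
  refine ⟨fun i => (s (i + 1)).1 i, fun i => (s (i + 1)).2 i, fun i j hij => ?_, fun i => ?_,
    fun n => ?_⟩
  · have := (hinv (i + j + 1)).1 i (by omega) j (by omega) hij
    rwa [(hst _ i (by omega)).2, (hst _ j (by omega)).1] at this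
  · rcases (hinv (i + 1)).2 i (by omega) with h | h
    · exact Or.inl h.1
    · exact Or.inr h
  · have h1 : d n = (s (n + 1)).1 n + ∑ i ∈ Finset.range n, (s n).2 i (d n) • (s n).1 i := by
      simp only [hs n, Function.update_self]
      abel
    rw [h1]
    refine Submodule.add_mem _ (Submodule.subset_span ⟨n, rfl⟩) (Submodule.sum_mem _ fun i hi =>
      Submodule.smul_mem _ _ (Submodule.subset_span ⟨i, ?_⟩))
    exact (hst n i (Finset.mem_range.mp hi)).1.symm

lemma biorth' [TopologicalSpace.SeparableSpace X] (hX : ¬ FiniteDimensional 𝕂 X) :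
    ∃ (x : ℕ → X) (f : ℕ → X →L[𝕂] 𝕂),
    (∀ i j, i ≠ j → f i (x j) = 0) ∧ (∀ i, f i (x i) = 1) ∧
    ∀ i, TopologicalSpace.denseSeq X i ∈ Submodule.span 𝕂 (Set.range x) := by
  obtain ⟨x, f, h1, h2, h3⟩ := biorth (𝕂 := 𝕂) (TopologicalSpace.denseSeq X)
  have hinf : {i | x i ≠ 0}.Infinite := by
    intro hf
    apply hX
    have h4 : (Set.range x).Finite := by
      refine ((hf.image x).insert 0).subset ?_
      rintro _ ⟨i, rfl⟩
      by_cases h : x i = 0
      · exact Or.inl h
      · exact Or.inr ⟨i, h, rfl⟩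
    have := FiniteDimensional.span_of_finite 𝕂 h4
    have h5 := (Submodule.span 𝕂 (Set.range x)).closed_of_finiteDimensional
    have h6 : Submodule.span 𝕂 (Set.range x) = ⊤ := by
      rw [eq_top_iff]
      intro z _
      exact closure_minimal (Set.range_subset_iff.mpr h3) h5
        (TopologicalSpace.denseRange_denseSeq X z)
    rw [h6] at this
    exact (Submodule.topEquiv : (⊤ : Submodule 𝕂 X) ≃ₗ[𝕂] X).finiteDimensional
  refine ⟨fun i => x (Nat.nth (fun i => x i ≠ 0) i), fun i => f (Nat.nth (fun i => x i ≠ 0) i),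
    fun i j hij => h1 _ _ fun h => hij (Nat.nth_injective hinf h),
    fun i => (h2 _).resolve_left (Nat.nth_mem_of_infinite hinf i), fun i => ?_⟩
  refine Submodule.span_le.mpr ?_ (h3 i)
  rintro _ ⟨j, rfl⟩
  by_cases h : x j = 0
  · rw [h]; exact Submodule.zero_mem _
  · obtain ⟨k, hk⟩ := Nat.subset_range_nth (p := fun i => x i ≠ 0) h
    exact Submodule.subset_span ⟨k, by simp only [hk]⟩

lemma shift {Y : Type*} [NormedAddCommGroup Y] [NormedSpace 𝕂 Y] [CompleteSpace Y]
    (x : ℕ → X) (f : ℕ → X →L[𝕂] 𝕂) (h1 : ∀ i j, i ≠ j → f i (x j) = 0) (h2 : ∀ i, f i (x i) = 1)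
    (y : ℕ → Y) (σ : ℕ → ℕ) (hσ : Function.Injective σ) :
    ∃ (A : X →L[𝕂] Y) (w : ℕ → 𝕂), (∀ m, w m ≠ 0) ∧ (∀ m, A (x (σ m)) = w m • y m) ∧
      ∀ q, (∀ m, σ m ≠ q) → A (x q) = 0 := by
  let δ : ℕ → ℝ := fun m => (1 / 2 : ℝ) ^ m / (‖(f (σ m)).smulRight (y m)‖ + 1)
  have hδ : ∀ m, 0 < δ m := fun m => by positivity
  have hK : Summable fun m => ((δ m : ℝ) : 𝕂) • (f (σ m)).smulRight (y m) := by
    refine Summable.of_norm_bounded summable_geometric_two fun m => ?_
    rw [norm_smul, RCLike.norm_ofReal, abs_of_pos (hδ m)]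
    simp only [δ]
    rw [div_mul_eq_mul_div, div_le_iff₀ (by positivity)]
    have : (0 : ℝ) < (1 / 2) ^ m := by positivity
    nlinarith
  have hA : ∀ z, (∑' m, ((δ m : ℝ) : 𝕂) • (f (σ m)).smulRight (y m)) z =
      ∑' m, ((δ m : ℝ) : 𝕂) • f (σ m) z • y m := fun z => by
    have := (ContinuousLinearMap.apply 𝕂 Y z).map_tsum hK
    simpa using this
  refine ⟨∑' m, ((δ m : ℝ) : 𝕂) • (f (σ m)).smulRight (y m), fun m => δ m,
    fun m => RCLike.ofReal_ne_zero.mpr (hδ m).ne', fun m => ?_, fun q hq => ?_⟩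
  · rw [hA, tsum_eq_single m]
    · rw [h2, one_smul]
    · intro m' hm
      rw [h1 _ _ fun h => hm (hσ h)]; simp
  · rw [hA]
    simp [fun m => h1 _ _ (hq m)]

/-- The decreasing closed subspaces of deep vectors. -/
def KK {Y : Type*} [NormedAddCommGroup Y] [NormedSpace 𝕂 Y] (A : X →L[𝕂] Y) (D : X →L[𝕂] X) :
    ℕ → Submodule 𝕂 X
  | 0 => ⊤
  | M + 1 => LinearMap.ker (A : X →ₗ[𝕂] Y) ⊓ (KK A D M).comap (D : X →ₗ[𝕂] X)

lemma KK_closed {Y : Type*} [NormedAddCommGroup Y] [NormedSpace 𝕂 Y] (A : X →L[𝕂] Y)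
    (D : X →L[𝕂] X) (M : ℕ) : IsClosed (KK A D M : Set X) := by
  induction M with
  | zero => exact isClosed_univ
  | succ M ih => exact A.isClosed_ker.inter (ih.preimage D.continuous)

lemma KK_anti {Y : Type*} [NormedAddCommGroup Y] [NormedSpace 𝕂 Y] (A : X →L[𝕂] Y)
    (D : X →L[𝕂] X) : Antitone (KK A D) := by
  refine antitone_nat_of_succ_le fun M => ?_
  induction M with
  | zero => exact le_top
  | succ M ih => exact inf_le_inf le_rfl (Submodule.comap_mono ih)

section main

variable {E : ℕ → Type*} [∀ n, NormedAddCommGroup (E n)] [∀ n, NormedSpace 𝕂 (E n)]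

/-- The part of the operator that starts from the `n`-th summand. -/
noncomputable def comp (A : ∀ n, E n →L[𝕂] E (n + 1)) (D : E 0 →L[𝕂] E 0) :
    ∀ n, E n →ₗ[𝕂] Π₀ n, E n
  | 0 => (DFinsupp.lsingle 1).comp (A 0 : E 0 →ₗ[𝕂] E 1) +
      (DFinsupp.lsingle 0).comp (D : E 0 →ₗ[𝕂] E 0)
  | n + 1 => (DFinsupp.lsingle (n + 2)).comp (A (n + 1) : E (n + 1) →ₗ[𝕂] E (n + 2))

noncomputable def SS (A : ∀ n, E n →L[𝕂] E (n + 1)) (D : E 0 →L[𝕂] E 0) :
    Module.End 𝕂 (Π₀ n, E n) := DFinsupp.lsum ℕ (comp A D)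

lemma SS0 (A : ∀ n, E n →L[𝕂] E (n + 1)) (D : E 0 →L[𝕂] E 0) (u : E 0) :
    SS A D (DFinsupp.single 0 u) = DFinsupp.single 1 (A 0 u) + DFinsupp.single 0 (D u) := by
  simp [SS, comp]

lemma SS1 (A : ∀ n, E n →L[𝕂] E (n + 1)) (D : E 0 →L[𝕂] E 0) (n : ℕ) (u : E (n + 1)) :
    SS A D (DFinsupp.single (n + 1) u) = DFinsupp.single (n + 2) (A (n + 1) u) := by
  simp [SS, comp]

lemma SS_pow (A : ∀ n, E n →L[𝕂] E (n + 1)) (D : E 0 →L[𝕂] E 0) (M : ℕ) :
    ∀ u ∈ KK (A 0) D M, ((1 + SS A D) ^ M) (DFinsupp.lsingle (R := 𝕂) 0 u) =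
      DFinsupp.lsingle (R := 𝕂) 0 (((1 + D) ^ M) u) := by
  induction M with
  | zero => simp
  | succ M ih =>
    intro u hu
    have h1 : A 0 u = 0 := hu.1
    have h2 : (1 + D) u ∈ KK (A 0) D M :=
      Submodule.add_mem _ (KK_anti _ _ (Nat.le_succ M) hu) hu.2
    rw [pow_succ, pow_succ, Module.End.mul_apply, ContinuousLinearMap.mul_apply, ← ih _ h2]
    congr 1
    simp [SS0, h1]

theorem exists_op [∀ n, CompleteSpace (E n)] [∀ n, TopologicalSpace.SeparableSpace (E n)]
    (hE : ∀ n, ¬ FiniteDimensional 𝕂 (E n)) :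
    ∃ (A : ∀ n, E n →L[𝕂] E (n + 1)) (D : E 0 →L[𝕂] E 0), ∀ n i,
      DFinsupp.single n (TopologicalSpace.denseSeq (E n) i) ∈
        HhA.Fwd (SS A D) (DFinsupp.lsingle (R := 𝕂) 0) (KK (A 0) D) := by
  choose e f h1 h2 h3 using fun n => biorth' (𝕂 := 𝕂) (hE n)
  choose A w a1 a2 a3 using fun n => shift (e n) (f n) (h1 n) (h2 n) (e (n + 1))
    (fun j => 2 * j + 1) (fun a b h => by simpa using h)
  obtain ⟨D, ω, d1, d2, d3⟩ := shift (e 0) (f 0) (h1 0) (h2 0) (e 0)
    (fun j => 2 * j + 2) (fun a b h => by simpa using h)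
  have a4 : ∀ n j, A n (e n (2 * j)) = 0 := fun n j => a3 n _ fun m => by omega
  have d4 : ∀ j, D (e 0 (2 * j + 1)) = 0 := fun j => d3 _ fun m => by omega
  have d5 : D (e 0 0) = 0 := d3 _ fun m => by omega
  have s1 : ∀ n j, SS A D (DFinsupp.single n (e n (2 * j + 1))) =
      w n j • DFinsupp.single (n + 1) (e (n + 1) j) := by
    intro n j
    cases n with
    | zero => rw [SS0, a2, d4]; simp [DFinsupp.single_smul]
    | succ n => rw [SS1, a2]; simp [DFinsupp.single_smul]
  have s2 : ∀ j, SS A D (DFinsupp.single 0 (e 0 (2 * j + 2))) =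
      ω j • DFinsupp.single 0 (e 0 j) := by
    intro j
    rw [SS0, d2, show 2 * j + 2 = 2 * (j + 1) by ring, a4]; simp [DFinsupp.single_smul]
  have nil : ∀ j n, (SS A D ^ (j + 1)) (DFinsupp.single n (e n j)) = 0 := by
    intro j
    induction j using Nat.strong_induction_on with
    | _ j ih =>
      intro n
      have hp : ∀ i < j, ∀ m, (SS A D ^ j) (DFinsupp.single m (e m i)) = 0 := by
        intro i hi m
        rw [show j = (j - (i + 1)) + (i + 1) by omega, pow_add, Module.End.mul_apply, ih i hi,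
          map_zero]
      rw [pow_succ, Module.End.mul_apply]
      rcases Nat.even_or_odd' j with ⟨k, hk | hk⟩
      · cases n with
        | zero =>
          cases k with
          | zero =>
            have : e 0 j = e 0 (2 * 0) := by rw [hk]
            rw [this, SS0, a4, d5]; simp
          | succ k =>
            have : e 0 j = e 0 (2 * k + 2) := by rw [hk]; rfl
            rw [this, s2, map_smul, hp k (by omega), smul_zero]
        | succ n =>
          have : e (n + 1) j = e (n + 1) (2 * k) := by rw [hk]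
          rw [this, SS1, a4]; simp
      · have : e n j = e n (2 * k + 1) := by rw [hk]
        rw [this, s1, map_smul, hp k (by omega), smul_zero]
  have deep : ∀ M m, e 0 ((fun j => 2 * j + 2)^[M] m) ∈ KK (A 0) D M := by
    intro M m
    induction M with
    | zero => trivial
    | succ M ih =>
      rw [Function.iterate_succ_apply']
      refine ⟨?_, ?_⟩
      · exact a3 0 _ fun m => by omega
      · show D _ ∈ KK (A 0) D M
        rw [d2]
        exact Submodule.smul_mem _ _ ih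
  have fw : ∀ n j, DFinsupp.single n (e n j) ∈
      HhA.Fwd (SS A D) (DFinsupp.lsingle (R := 𝕂) 0) (KK (A 0) D) := by
    intro n
    induction n with
    | zero =>
      intro m
      refine ⟨⟨m, nil _ _⟩, fun l => (∏ i ∈ Finset.range l, ω ((fun j => 2 * j + 2)^[i] m))⁻¹ •
        DFinsupp.single 0 (e 0 ((fun j => 2 * j + 2)^[l] m)), by simp, fun l => ?_, fun M => ?_⟩
      · simp only [Function.iterate_succ_apply', map_smul, s2, smul_smul, Finset.prod_range_succ]
        congr 1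
        have := d1 ((fun j => 2 * j + 2)^[l] m)
        rw [mul_inv, mul_assoc, inv_mul_cancel₀ this, mul_one]
      · filter_upwards [eventually_ge_atTop M] with l hl
        exact Submodule.smul_mem _ _ ⟨_, KK_anti _ _ hl (deep l m), rfl⟩
    | succ n ih =>
      intro j
      obtain ⟨-, h, g0, g1, g2⟩ := Submodule.smul_mem _ (w n j)⁻¹ (ih (2 * j + 1))
      refine ⟨⟨j, nil _ _⟩, fun l => Nat.casesOn l (DFinsupp.single (n + 1) (e (n + 1) j)) h, rfl,
        fun l => ?_, fun M => ?_⟩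
      · cases l with
        | zero =>
          show SS A D (h 0) = DFinsupp.single (n + 1) (e (n + 1) j)
          rw [g0, map_smul, s1, smul_smul, inv_mul_cancel₀ (a1 n j), one_smul]
        | succ l => exact g1 l
      · obtain ⟨c, hc⟩ := eventually_atTop.mp (g2 M)
        filter_upwards [eventually_ge_atTop (c + 1)] with l hl
        obtain ⟨l, rfl⟩ : ∃ k, l = k + 1 := ⟨l - 1, by omega⟩
        exact hc l (by omega)
  refine ⟨A, D, fun n i => ?_⟩
  have : Submodule.span 𝕂 (Set.range (e n)) ≤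
      (HhA.Fwd (SS A D) (DFinsupp.lsingle (R := 𝕂) 0) (KK (A 0) D)).comap
        (DFinsupp.lsingle (R := 𝕂) n) := by
    rw [Submodule.span_le]
    rintro _ ⟨j, rfl⟩
    exact fw n j
  exact this (h3 n i)

theorem orbit [∀ n, CompleteSpace (E n)] [∀ n, TopologicalSpace.SeparableSpace (E n)]
    (hE : ∀ n, ¬ FiniteDimensional 𝕂 (E n)) :
    ∃ (A : ∀ n, E n →L[𝕂] E (n + 1)) (D : E 0 →L[𝕂] E 0),
      ∀ [TopologicalSpace (Π₀ n, E n)] [IsTopologicalAddGroup (Π₀ n, E n)],
      (∀ n, Continuous (DFinsupp.single n : E n → Π₀ n, E n)) → ∀ B : Set ℕ, B.Infinite →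
        ∃ x, Dense ((fun n => ((1 + SS A D) ^ n) x) '' B) := by
  obtain ⟨A, D, h⟩ := exists_op hE
  refine ⟨A, D, fun hc B hB => ?_⟩
  let Y : List (ℕ × ℕ) → Π₀ n, E n := fun L =>
    (L.map fun p => DFinsupp.single p.1 (TopologicalSpace.denseSeq (E p.1) p.2)).sum
  have hY : ∀ L, Y L ∈ HhA.Fwd (SS A D) (DFinsupp.lsingle (R := 𝕂) 0) (KK (A 0) D) := by
    intro L
    refine list_sum_mem fun y hy => ?_
    obtain ⟨p, -, rfl⟩ := List.mem_map.mp hy
    exact h _ _
  have hD : Dense (Set.range Y) := by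
    let C : AddSubmonoid (Π₀ n, E n) :=
      { carrier := Set.range Y
        add_mem' := by
          rintro _ _ ⟨L, rfl⟩ ⟨L', rfl⟩
          exact ⟨L ++ L', by simp [Y]⟩
        zero_mem' := ⟨[], rfl⟩ }
    intro z
    show z ∈ C.topologicalClosure
    induction z using DFinsupp.induction with
    | h0 => exact zero_mem _
    | ha n b z _ _ ih =>
      refine add_mem ?_ ih
      refine map_mem_closure (hc n) (TopologicalSpace.denseRange_denseSeq (E n) b) ?_
      rintro _ ⟨i, rfl⟩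
      exact ⟨[(n, i)], by simp [Y]⟩
  obtain ⟨φ, hφ⟩ := exists_surjective_nat (List (ℕ × ℕ))
  obtain ⟨x, n, r, h1, h2, h3⟩ := HhA.build (SS A D) (DFinsupp.lsingle (R := 𝕂) 0) (KK (A 0) D)
    (1 + D) (KK_closed _ _) (KK_anti _ _) (SS_pow A D) (fun j => Y (φ j.unpair.1))
    (fun j => hY _) B hB
  refine ⟨x, Dense.of_closure (hD.mono ?_)⟩
  rintro _ ⟨L, rfl⟩
  obtain ⟨a, rfl⟩ := hφ L
  have h4 : Tendsto (fun k => Nat.pair a k) atTop atTop :=
    tendsto_atTop_mono (fun k => Nat.right_le_pair a k) tendsto_id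
  have h5 := (((hc 0).tendsto 0).comp (h2.comp h4)).const_add (Y (φ a))
  rw [DFinsupp.single_zero, add_zero] at h5
  refine mem_closure_of_tendsto h5 (Eventually.of_forall fun k => ⟨n (Nat.pair a k), h1 _, ?_⟩)
  simp [h3]

end main

end Pool.Agent.H2.HhB
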