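import Mathlib

namespace Pool.Agent.H2.Indep

/-- A is t-independent: no signed sum of between 1 and t terms from A vanishes. -/
def Indep {n : ℕ} (t : ℕ) (A : Finset (ZMod n)) : Prop :=
  ∀ l : ZMod n → ℤ, 1 ≤ ∑ a ∈ A, |l a| → ∑ a ∈ A, |l a| ≤ t → ∑ a ∈ A, l a • a ≠ 0

/-- The maximum size of a t-independent subset of the cyclic group of order n. -/
noncomputable def tau (n t : ℕ) : ℕ :=
  sSup {m | ∃ A : Finset (ZMod n), Indep t A ∧ A.card = m}

end Pool.Agent.H2.Indep
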