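import Mathlib

/-! A Fourier bound for symmetric sets with no five-term zero sums in odd cyclic groups. -/

namespace Pool.Agent.H2.Indep

open Finset

variable {n : ℕ} [NeZero n]

noncomputable def E (y : ZMod n) : ℝ := (ZMod.stdAddChar y).re

theorem E_int (j : ℤ) : E (j : ZMod n) = Real.cos (2 * Real.pi * j / n) := by
  rw [E, ZMod.stdAddChar_coe, ← Complex.exp_ofReal_mul_I_re]
  congr 2
  push_cast; ring

theorem E_two (y : ZMod n) : E (2 * y) = 2 * E y ^ 2 - 1 := by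
  obtain ⟨j, rfl⟩ := ZMod.intCast_surjective y
  rw [E_int, ← Real.cos_two_mul, show (2 * j : ZMod n) = ((2 * j : ℤ) : ZMod n) by push_cast; rfl,
    E_int]
  congr 1
  push_cast; ring

theorem E_le (y : ZMod n) : |E y| ≤ 1 := by
  obtain ⟨j, rfl⟩ := ZMod.intCast_surjective y
  rw [E_int]; exact Real.abs_cos_le_one _

theorem orth (z : ZMod n) : ∑ r, ZMod.stdAddChar (r * z) = if z = 0 then (n : ℂ) else 0 := by
  rw [AddChar.sum_mulShift z (ZMod.isPrimitive_stdAddChar n)]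
  simp

theorem conj_eq (y : ZMod n) :
    (starRingEnd ℂ) (ZMod.stdAddChar y) = ZMod.stdAddChar (-y) := (AddChar.map_neg_eq_conj _ _).symm

noncomputable def C (B : Finset (ZMod n)) (r : ZMod n) : ℝ := ∑ x ∈ B, E (r * x)

theorem C_neg (B : Finset (ZMod n)) (r : ZMod n) : C B (-r) = C B r :=
  sum_congr rfl fun x _ => by rw [E, E, neg_mul, ← conj_eq, Complex.conj_re]

theorem C_eq {B : Finset (ZMod n)} (sym : ∀ x ∈ B, -x ∈ B) (r : ZMod n) :
    ∑ x ∈ B, ZMod.stdAddChar (r * x) = C B r := by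
  have : (starRingEnd ℂ) (∑ x ∈ B, ZMod.stdAddChar (r * x)) = ∑ x ∈ B, ZMod.stdAddChar (r * x) := by
    rw [map_sum]
    exact sum_bijective (fun x => -x) neg_involutive.bijective
      (fun x => ⟨sym x, fun h => by simpa using sym _ h⟩) fun x _ => by rw [conj_eq, mul_neg]
  rw [← Complex.conj_eq_iff_re.1 this, Complex.re_sum]
  rfl

theorem five {B : Finset (ZMod n)} (sym : ∀ x ∈ B, -x ∈ B)
    (h5 : ∀ f : Fin 5 → ZMod n, (∀ i, f i ∈ B) → ∑ i, f i ≠ 0) : ∑ r, C B r ^ 5 = 0 := by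
  refine Complex.ofReal_injective ?_
  push_cast
  simp only [← C_eq sym, sum_pow']
  rw [sum_comm]
  refine sum_eq_zero fun f hf => ?_
  rw [← if_neg (h5 f (Fintype.mem_piFinset.1 hf)) (t := (n : ℂ)) (e := 0), ← orth]
  refine sum_congr rfl fun r _ => ?_
  simp only [Fin.prod_univ_five, Fin.sum_univ_five, mul_add, AddChar.map_add_eq_mul]

noncomputable def W (V : Finset (ZMod n)) (r : ZMod n) : ℝ := ∑ x ∈ V, ∑ y ∈ V, E (r * (x - y))

theorem W_eq (V : Finset (ZMod n)) (r : ZMod n) :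
    (W V r : ℂ) = ∑ x ∈ V, ∑ y ∈ V, ZMod.stdAddChar (r * (x - y)) ∧
      W V r = Complex.normSq (∑ x ∈ V, ZMod.stdAddChar (r * x)) := by
  have h : ∑ x ∈ V, ∑ y ∈ V, ZMod.stdAddChar (r * (x - y)) =
      (Complex.normSq (∑ x ∈ V, ZMod.stdAddChar (r * x)) : ℂ) := by
    rw [← Complex.mul_conj, map_sum, sum_mul_sum]
    simp only [conj_eq, ← AddChar.map_add_eq_mul, sub_eq_add_neg, mul_add, mul_neg]
  have h2 : W V r = Complex.normSq (∑ x ∈ V, ZMod.stdAddChar (r * x)) := by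
    have := congrArg Complex.re h
    simpa only [Complex.re_sum, Complex.ofReal_re, W, E] using this
  exact ⟨by rw [h2, h], h2⟩

theorem key {B : Finset (ZMod n)} (sym : ∀ x ∈ B, -x ∈ B)
    (h2 : ∀ z ≠ 0, #{p ∈ B ×ˢ B | p.1 + p.2 = z} ≤ 2) (V : Finset (ZMod n)) :
    ∑ r, C B r ^ 2 * W V r ≤ n * (2 * #V ^ 2 + #B * #V) := by
  have h1 : ∑ r, C B r ^ 2 * W V r =
      ∑ x ∈ V, ∑ y ∈ V, (n : ℝ) * #{p ∈ B ×ˢ B | p.1 + p.2 = y - x} := by
    refine Complex.ofReal_injective ?_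
    push_cast
    simp only [← C_eq sym, (W_eq V _).1, mul_sum]
    rw [sum_comm]
    refine sum_congr rfl fun x _ => ?_
    rw [sum_comm]
    refine sum_congr rfl fun y _ => ?_
    have : ∀ r : ZMod n, (∑ s ∈ B, ZMod.stdAddChar (r * s)) ^ 2 * ZMod.stdAddChar (r * (x - y)) =
        ∑ p ∈ B ×ˢ B, ZMod.stdAddChar (r * (p.1 + p.2 + (x - y))) := fun r => by
      rw [sq, sum_mul_sum, ← sum_product', sum_mul]
      simp only [mul_add, AddChar.map_add_eq_mul]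
    simp only [this]
    rw [sum_comm, card_filter]
    push_cast
    rw [mul_sum]
    refine sum_congr rfl fun p _ => ?_
    rw [orth]
    simp only [mul_ite, mul_one, mul_zero]
    exact if_congr (by rw [← sub_eq_zero (a := p.1 + p.2), sub_sub_eq_add_sub, add_sub_assoc]) rfl rfl
  have h3 : ∀ z, (#{p ∈ B ×ˢ B | p.1 + p.2 = z} : ℝ) ≤ 2 + if z = 0 then (#B : ℝ) else 0 := by
    intro z
    split_ifs with e
    · have : #{p ∈ B ×ˢ B | p.1 + p.2 = z} ≤ #B := card_le_card_of_injOn Prod.fst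
        (fun p hp => (mem_product.1 (mem_filter.1 hp).1).1) fun p hp q hq f => Prod.ext f (by
          have := (mem_filter.1 hp).2.trans (mem_filter.1 hq).2.symm
          rwa [f, add_right_inj] at this)
      have : (#{p ∈ B ×ˢ B | p.1 + p.2 = z} : ℝ) ≤ #B := by exact_mod_cast this
      linarith
    · rw [add_zero]; exact_mod_cast h2 z e
  rw [h1]
  simp only [← mul_sum]
  gcongr
  refine (sum_le_sum fun x _ => sum_le_sum fun y _ => h3 (y - x)).trans_eq ?_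
  simp only [sum_add_distrib, sum_const, nsmul_eq_mul, sub_eq_zero, sum_ite_eq']
  rw [sum_congr rfl fun x hx => if_pos hx]
  simp only [sum_const, nsmul_eq_mul]
  ring

theorem bohr (Γ : Finset (ZMod n)) : ∃ U : Finset (ZMod n), (n : ℝ) ≤ 1000 ^ #Γ * #U ∧
    ∀ r ∈ Γ, 0.9999 * (#U : ℝ) ^ 2 ≤ W U r := by
  have hn := NeZero.pos n
  let f : ZMod n → Γ → Fin 1000 := fun x r => ⟨1000 * (r.1 * x).val / n,
    Nat.div_lt_of_lt_mul (by have := ZMod.val_lt (r.1 * x); omega)⟩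
  obtain ⟨y, hy⟩ := Fintype.exists_le_card_fiber_of_nsmul_le_card f (b := (n : ℝ) / 1000 ^ #Γ)
    (by simp; field_simp; rfl)
  refine ⟨_, by rwa [div_le_iff₀' (by positivity)] at hy, fun r hr => ?_⟩
  have : ∀ x ∈ ({x | f x = y} : Finset _), ∀ x' ∈ ({x | f x = y} : Finset _),
      (0.9999 : ℝ) ≤ E (r * (x - x')) := fun x hx x' hx' => by
    have e := congrArg (fun g => (g ⟨r, hr⟩).1) ((mem_filter.1 hx).2.trans (mem_filter.1 hx').2.symm)
    simp only [f] at e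
    rw [mul_sub, ← ZMod.natCast_zmod_val (r * x), ← ZMod.natCast_zmod_val (r * x'),
      ← Int.cast_natCast, ← Int.cast_natCast (r * x').val, ← Int.cast_sub, E_int]
    generalize (r * x).val = a at *
    generalize (r * x').val = b at *
    have h1 := Nat.div_add_mod (1000 * a) n
    have h2 := Nat.div_add_mod (1000 * b) n
    have h3 := Nat.mod_lt (1000 * a) hn
    have h4 := Nat.mod_lt (1000 * b) hn
    rw [e] at h1
    have h5 : 1000 * a ≤ 1000 * b + n ∧ 1000 * b ≤ 1000 * a + n := by omega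
    have h6 : (1000 : ℝ) * a ≤ 1000 * b + n ∧ (1000 : ℝ) * b ≤ 1000 * a + n := by exact_mod_cast h5
    refine le_trans ?_ Real.one_sub_sq_div_two_le_cos
    have hn' : (0 : ℝ) < n := by exact_mod_cast hn
    have h7 : |((a : ℝ) - b) / n| ≤ 1 / 1000 := by
      rw [abs_le, le_div_iff₀ hn', div_le_iff₀ hn']; constructor <;> linarith
    have h8 := sq_le_sq' (abs_le.1 h7).1 (abs_le.1 h7).2
    have h9 : Real.pi ^ 2 ≤ 4 ^ 2 := pow_le_pow_left₀ Real.pi_pos.le Real.pi_le_four 2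
    push_cast
    rw [mul_div_assoc, mul_pow, mul_pow]
    nlinarith [mul_le_mul h9 h8 (sq_nonneg _) (by norm_num)]
  refine le_trans (le_of_eq ?_) (sum_le_sum fun x hx => sum_le_sum fun x' hx' => this x hx x' hx')
  simp only [sum_const, nsmul_eq_mul]
  ring

theorem poly {ρ : ℝ} (h0 : 0 ≤ ρ) : ρ ^ 5 - ρ ^ 7 ≤ 0.1233 ∨ 1 < ρ := by
  refine or_iff_not_imp_right.2 fun h => ?_
  have := sq_nonneg (ρ - 0.845)
  nlinarith [mul_nonneg this h0, mul_nonneg this (pow_nonneg h0 2), mul_nonneg this (pow_nonneg h0 3),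
    mul_nonneg this (pow_nonneg h0 4), mul_nonneg this (pow_nonneg h0 5)]

theorem final (hn : Odd n) (g : ZMod n → ℝ) (g0 : g 0 = 1) (g1 : ∀ r, -1 ≤ g r)
    (g2 : ∀ r, 2 * g r ^ 2 - 1 ≤ g (2 * r)) (g3 : ∀ r, g (-r) = g r) (s5 : ∑ r, g r ^ 5 = 0)
    (s4 : ∑ r, g r ^ 4 ≤ 4.52) (s2 : ∑ r with 0.001 < |g r|, g r ^ 2 ≤ 3.0085) : False := by
  obtain ⟨r₀, -, hr₀⟩ := exists_min_image univ g univ_nonempty
  obtain ⟨N, hN⟩ : ∃ N : Finset (ZMod n), ∀ r, r ∈ N ↔ g r < -0.001 := 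
    ⟨univ.filter fun r => g r < -0.001, by simp⟩
  have low : ∀ ρ : ℝ, 0 ≤ ρ → (∀ r, -ρ ≤ g r) → 0.9954 ≤ ρ ^ 3 * ∑ r ∈ N, g r ^ 2 := by
    intro ρ r0 hρ
    have : ∀ r, (if r = 0 then 1 else 0) - ρ ^ 3 * (if r ∈ N then g r ^ 2 else 0) -
        0.001 * g r ^ 4 ≤ g r ^ 5 := fun r => by
      have p4 : 0 ≤ g r ^ 4 := by positivity
      split_ifs with e1 e2 e2
      · rw [e1, hN, g0] at e2; norm_num at e2
      · rw [e1, g0]; norm_num
      · have : (-ρ) ^ 3 ≤ g r ^ 3 := (by decide : Odd 3).pow_le_pow.2 (hρ r)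
        have := mul_le_mul_of_nonneg_left this (sq_nonneg (g r))
        linarith
      · have := mul_le_mul_of_nonneg_left (not_lt.1 (mt (hN r).2 e2)) p4
        linarith
    have := sum_le_sum fun r (_ : r ∈ univ) => this r
    simp only [sum_sub_distrib, sum_add_distrib, ← mul_sum, s5, sum_ite_mem, univ_inter,
      sum_ite_eq', mem_univ, if_true] at this
    linarith
  have part : ∀ T : Finset (ZMod n), (∀ r ∈ T, 0.001 < g r) →
      ∑ r ∈ N, g r ^ 2 + ∑ r ∈ T, g r ^ 2 ≤ 3.0085 := fun T hT => by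
    rw [← sum_union (disjoint_left.2 fun r h1 h2 => by
      have := (hN r).1 h1; have := hT r h2; linarith)]
    refine le_trans (sum_le_sum_of_subset_of_nonneg (union_subset (fun r hr => mem_filter.2
      ⟨mem_univ _, lt_of_lt_of_le (by have := (hN r).1 hr; linarith) (neg_le_abs _)⟩) fun r hr =>
      mem_filter.2 ⟨mem_univ _, (hT r hr).trans_le (le_abs_self _)⟩) fun _ _ _ => sq_nonneg _) s2
  by_cases c : -0.75 ≤ g r₀
  · have e1 := low 0.75 (by norm_num) fun r => c.trans (hr₀ r (mem_univ _))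
    have e2 := part {0} (by simp [g0]; norm_num)
    rw [sum_singleton, g0] at e2
    norm_num at e1 e2
    linarith
  have e1 := low (-g r₀) (by linarith) fun r => by simpa using hr₀ r (mem_univ _)
  have e3 := g2 r₀
  have u2 : IsUnit (2 : ZMod n) := by
    simpa using (ZMod.isUnit_iff_coprime 2 n).2 hn.coprime_two_left
  have n0 : r₀ ≠ 0 := fun e => c (by rw [e, g0]; norm_num)
  have n1 : 2 * r₀ ≠ 0 := fun e => n0 (u2.mul_right_eq_zero.1 e)
  have n2 : 2 * r₀ ≠ -(2 * r₀) := fun e => n1 (u2.mul_right_eq_zero.1 (by linear_combination e))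
  have e7 := g1 r₀
  have e5 : 0.125 ≤ 2 * g r₀ ^ 2 - 1 := by nlinarith only [not_le.1 c]
  have e2 := part {0, 2 * r₀, -(2 * r₀)} (by
    simp only [mem_insert, mem_singleton, forall_eq_or_imp, forall_eq, g0, g3]
    refine ⟨by norm_num, by linarith, by linarith⟩)
  rw [sum_insert (by simp [n1, n1.symm]), sum_pair n2, g0, g3] at e2
  have e6 : (2 * g r₀ ^ 2 - 1) ^ 2 ≤ g (2 * r₀) ^ 2 := pow_le_pow_left₀ (by linarith) e3 2
  have e8 := (poly (ρ := -g r₀) (by linarith)).resolve_right (by linarith)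
  have e9 : 0 ≤ (-g r₀) ^ 3 := pow_nonneg (by linarith) 3
  have e10 : (-g r₀) ^ 3 ≤ 1 := pow_le_one₀ (by linarith) (by linarith)
  have e11 : ∑ r ∈ N, g r ^ 2 ≤ 2.0085 - 2 * (2 * g r₀ ^ 2 - 1) ^ 2 := by linarith
  have := mul_le_mul_of_nonneg_left e11 e9
  linarith

theorem fourier (hn : Odd n) {B : Finset (ZMod n)} (sym : ∀ x ∈ B, -x ∈ B)
    (h5 : ∀ f : Fin 5 → ZMod n, (∀ i, f i ∈ B) → ∑ i, f i ≠ 0)
    (h2 : ∀ z ≠ 0, #{p ∈ B ×ˢ B | p.1 + p.2 = z} ≤ 2) (hb : 0.665 * (n : ℝ) ≤ #B ^ 2)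
    (big : ∀ k : ℕ, (k : ℝ) ≤ 5 * 10 ^ 12 → 2000 * 1000 ^ k ≤ (#B : ℝ)) : False := by
  have hb0 : (0 : ℝ) < #B := lt_of_lt_of_le (by positivity) (big 0 (by norm_num))
  have hn0 : (0 : ℝ) < n := by exact_mod_cast NeZero.pos n
  obtain ⟨b, hbB⟩ : ∃ b : ℝ, b = #B := ⟨_, rfl⟩
  rw [← hbB] at hb big hb0
  obtain ⟨g, gC⟩ : ∃ g : ZMod n → ℝ, ∀ r, C B r = b * g r :=
    ⟨fun r => C B r / b, fun r => by field_simp⟩
  have s4 : ∑ r, g r ^ 4 ≤ 4.52 := by
    have := key sym h2 B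
    simp only [(W_eq B _).2, C_eq sym, Complex.normSq_ofReal, gC, ← hbB] at this
    rw [sum_congr rfl fun r _ => show (b * g r) ^ 2 * (b * g r * (b * g r)) = b ^ 2 * (b ^ 2 * g r ^ 4)
      by ring, ← mul_sum, ← mul_sum] at this
    have : b ^ 2 * ∑ r, g r ^ 4 ≤ 3 * n := le_of_mul_le_mul_left (by linarith) (pow_pos hb0 2)
    exact le_of_mul_le_mul_left (by linarith) (pow_pos hb0 2)
  refine final hn g (mul_left_cancel₀ hb0.ne' (by rw [← gC]; simp [C, E, hbB])) (fun r => ?_)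
    (fun r => ?_) (fun r => mul_left_cancel₀ hb0.ne' (by rw [← gC, ← gC, C_neg]))
    (mul_left_cancel₀ (pow_pos hb0 5).ne' (by
      simp only [mul_sum, ← mul_pow, ← gC, five sym h5, mul_zero])) s4 ?_
  · refine le_of_mul_le_mul_left ?_ hb0
    rw [← gC, hbB, C]
    simpa using sum_le_sum fun x (_ : x ∈ B) => (abs_le.1 (E_le (r * x))).1
  · have e1 : C B (2 * r) = 2 * ∑ x ∈ B, E (r * x) ^ 2 - b := by
      simp only [C, mul_assoc, E_two, sum_sub_distrib, ← mul_sum]; simp [hbB]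
    have e2 : C B r ^ 2 ≤ b * ∑ x ∈ B, E (r * x) ^ 2 := hbB ▸ sq_sum_le_card_mul_sum_sq
    rw [gC] at e1 e2
    refine le_of_mul_le_mul_left ?_ hb0
    have : b * g r ^ 2 ≤ ∑ x ∈ B, E (r * x) ^ 2 := le_of_mul_le_mul_left (by linarith) hb0
    linarith
  set Γ : Finset (ZMod n) := {r | 0.001 < |g r|}
  have cΓ : (#Γ : ℝ) ≤ 5 * 10 ^ 12 := by
    have e1 : (#Γ : ℝ) * 0.001 ^ 4 ≤ ∑ r ∈ Γ, g r ^ 4 := by
      rw [← nsmul_eq_mul, ← sum_const]
      refine sum_le_sum fun r hr => ?_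
      rw [← (by decide : Even 4).pow_abs (g r)]
      exact pow_le_pow_left₀ (by norm_num) (mem_filter.1 hr).2.le 4
    have e2 : ∑ r ∈ Γ, g r ^ 4 ≤ ∑ r, g r ^ 4 :=
      sum_le_sum_of_subset_of_nonneg (subset_univ _) fun _ _ _ => by positivity
    linarith
  obtain ⟨U, u1, u2⟩ := bohr Γ
  have u3 : 2000 * (n : ℝ) ≤ b * #U := by
    have := mul_le_mul_of_nonneg_right (big _ cΓ) (Nat.cast_nonneg #U)
    linarith
  have hU : (0 : ℝ) < #U := (mul_pos_iff_of_pos_left hb0).1 (lt_of_lt_of_le (by linarith) u3)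
  have e1 := key sym h2 U
  have e2 : ∑ r ∈ Γ, C B r ^ 2 * W U r ≤ ∑ r, C B r ^ 2 * W U r :=
    sum_le_sum_of_subset_of_nonneg (subset_univ _) fun r _ _ =>
      mul_nonneg (sq_nonneg _) ((W_eq U r).2 ▸ Complex.normSq_nonneg _)
  have e3 : b ^ 2 * (0.9999 * (#U : ℝ) ^ 2) * ∑ r ∈ Γ, g r ^ 2 ≤ ∑ r ∈ Γ, C B r ^ 2 * W U r := by
    rw [mul_sum]
    refine sum_le_sum fun r hr => ?_
    have := mul_le_mul_of_nonneg_left (u2 r hr) (sq_nonneg (b * g r))
    rw [gC]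
    linarith
  have e4 := mul_le_mul_of_nonneg_right u3 (mul_pos hb0 hU).le
  have e5 : 0.665 * n * (#U : ℝ) ^ 2 ≤ b ^ 2 * (#U : ℝ) ^ 2 := by gcongr
  have e6 : 0 < b ^ 2 * (#U : ℝ) ^ 2 := by positivity
  refine le_of_mul_le_mul_left (a := 0.9999 * (b ^ 2 * (#U : ℝ) ^ 2)) ?_ (by positivity)
  rw [← hbB] at e1
  linarith

end Pool.Agent.H2.Indep
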