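import Mathlib
import Pool.Agent.H2.IndepDefs
import Pool.Agent.H2.IndepFourier

namespace Pool.Agent.H2.Indep

open Finset Pointwise Filter Topology

variable {n : ℕ}

theorem Indep.disj {A : Finset (ZMod n)} (h : Indep 5 A) {a : ZMod n} (ha : a ∈ A) : -a ∉ A :=
  fun hb => h (fun c => (if c = a then 1 else 0) + if c = -a then 1 else 0)
    (by rw [sum_congr rfl fun c _ => abs_of_nonneg (by positivity)]; simp [sum_add_distrib, *])
    (by rw [sum_congr rfl fun c _ => abs_of_nonneg (by positivity)]; simp [sum_add_distrib, *])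
    (by simp [add_smul, sum_add_distrib, *])

theorem Indep.rel {A : Finset (ZMod n)} (h : Indep 5 A) {k : ℕ} (hk : k ≤ 5) (f : Fin k → ZMod n)
    (hf : ∀ i, f i ∈ A ∪ -A) (h0 : ∑ i, f i = 0) :
    ∀ a ∈ A, ∑ i, ((if f i = a then 1 else 0) - (if f i = -a then 1 else 0) : ℤ) = 0 := by
  let d : ZMod n → ZMod n → ℤ := fun x a => (if x = a then 1 else 0) - (if x = -a then 1 else 0)
  have hd : ∀ x ∈ A ∪ -A, ∑ a ∈ A, |d x a| ≤ 1 ∧ ∑ a ∈ A, d x a • a = x := fun x hx => by
    have e : ∀ a, x = -a ↔ -x = a := fun a => by rw [neg_eq_iff_eq_neg]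
    simp only [d, e, sub_smul, sum_sub_distrib, ite_smul, one_smul, zero_smul, sum_ite_eq]
    refine ⟨(sum_le_sum fun a _ => abs_sub _ _).trans ?_, ?_⟩ <;>
      rcases mem_union.1 hx with hx | hx
    · simp [sum_add_distrib, apply_ite abs, hx, h.disj hx]
    · have := mem_neg'.1 hx
      simp [sum_add_distrib, apply_ite abs, this, show x ∉ A by simpa using h.disj this]
    · simp [hx, h.disj hx]
    · have := mem_neg'.1 hx
      simp [this, show x ∉ A by simpa using h.disj this]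
  by_contra hc
  push Not at hc
  obtain ⟨a, ha, hc⟩ := hc
  refine h (fun a => ∑ i, d (f i) a) ((Int.one_le_abs hc).trans (single_le_sum
    (f := fun a => |∑ i, d (f i) a|) (fun _ _ => abs_nonneg _) ha)) ?_ ?_
  · refine (sum_le_sum fun a _ => abs_sum_le_sum_abs _ _).trans ?_
    rw [sum_comm]
    refine (sum_le_sum fun i _ => (hd _ (hf i)).1).trans ?_
    simpa using hk
  · simp only [sum_smul]
    rw [sum_comm, sum_congr rfl fun i _ => (hd _ (hf i)).2, h0]

theorem upper [NeZero n] (hn : Odd n) {A : Finset (ZMod n)} (h : Indep 5 A)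
    (hb : 0.16625 * (n : ℝ) ≤ #A ^ 2)
    (big : ∀ k : ℕ, (k : ℝ) ≤ 5 * 10 ^ 12 → 2000 * 1000 ^ k ≤ (#A : ℝ)) : False := by
  have c : (#(A ∪ -A) : ℝ) = 2 * #A := by
    rw [card_union_of_disjoint (disjoint_left.2 fun a ha hb => h.disj ha (mem_neg'.1 hb)), card_neg]
    push_cast; ring
  have sym : ∀ x ∈ A ∪ -A, -x ∈ A ∪ -A := fun x hx => by
    simp only [mem_union, mem_neg', neg_neg] at *; tauto
  refine fourier hn sym (fun f hf h0 => ?_) (fun z hz => ?_) (by rw [c]; linarith)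
    fun k hk => (big k hk).trans (by rw [c]; linarith [Nat.cast_nonneg (α := ℝ) #A])
  · have h1 := sum_eq_zero (h.rel le_rfl f hf h0)
    rw [sum_comm] at h1
    have : ∀ i, Odd (∑ a ∈ A, ((if f i = a then 1 else 0) - (if f i = -a then 1 else 0) : ℤ)) := by
      intro i
      have e : ∀ a, f i = -a ↔ -f i = a := fun a => by rw [neg_eq_iff_eq_neg]
      simp only [e, sum_sub_distrib, sum_ite_eq]
      rcases mem_union.1 (hf i) with hx | hx
      · simp [hx, h.disj hx]
      · have := mem_neg'.1 hx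
        simp [this, show f i ∉ A by simpa using h.disj this]
    rw [Fin.sum_univ_five] at h1
    have := (((((this 0).add_odd (this 1)).add_odd (this 2)).add_odd (this 3)).add_odd (this 4))
    rw [h1] at this
    simp at this
  rcases ({p ∈ (A ∪ -A) ×ˢ (A ∪ -A) | p.1 + p.2 = z}).eq_empty_or_nonempty with e | ⟨⟨s, t⟩, hp⟩
  · rw [e]; simp
  refine (card_le_card (t := {(s, t), (t, s)}) ?_).trans card_le_two
  rintro ⟨s', t'⟩ hq
  simp only [mem_filter, mem_product] at hp hq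
  have h1 := h.rel (by norm_num) ![s, t, -s', -t']
    (fun i => by fin_cases i; exacts [hp.1.1, hp.1.2, sym _ hq.1.1, sym _ hq.1.2])
    (by simp [Fin.sum_univ_four]; linear_combination hp.2 - hq.2)
  have n1 : ∀ a ∈ A, a ≠ -a := fun a ha e => h.disj ha (e ▸ ha)
  have n2 : t ≠ -s := fun e => hz (by rw [← hp.2, e, add_neg_cancel])
  have : s' = s ∨ t' = s := by
    by_contra hc
    push Not at hc
    rcases mem_union.1 hp.1.1 with hs | hs
    · have := h1 s hs
      rw [Fin.sum_univ_four] at this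
      simp [n1 s hs, n2, hc.1, hc.2] at this
      split_ifs at this <;> omega
    · have hs := mem_neg'.1 hs
      have := h1 _ hs
      have n3 : s ≠ -s := by simpa using (n1 _ hs).symm
      rw [Fin.sum_univ_four] at this
      simp [n3, n2, hc.1, hc.2] at this
      split_ifs at this <;> omega
  have e := hp.2.trans hq.2.symm
  rcases this with rfl | rfl
  · simp [add_left_cancel e]
  · rw [add_comm] at e
    simp [add_right_cancel e]

theorem two_eq {F : Type*} [Field F] {P Q : Multiset F} (hc : P.card = Q.card) (h2 : P.card ≤ 2)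
    (hs : P.sum = Q.sum) (hp : P.prod = Q.prod) : P = Q := by
  obtain h | h | h : P.card = 0 ∨ P.card = 1 ∨ P.card = 2 := by omega
  · rw [Multiset.card_eq_zero.1 h, Multiset.card_eq_zero.1 (hc.symm.trans h)]
  · obtain ⟨a, rfl⟩ := Multiset.card_eq_one.1 h
    obtain ⟨b, rfl⟩ := Multiset.card_eq_one.1 (hc ▸ h)
    simpa using hs
  obtain ⟨a, b, rfl⟩ := Multiset.card_eq_two.1 h
  obtain ⟨c, d, rfl⟩ := Multiset.card_eq_two.1 (hc ▸ h)
  simp only [Multiset.insert_eq_cons, Multiset.sum_cons, Multiset.sum_singleton, Multiset.prod_cons,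
    Multiset.prod_singleton] at hs hp
  have : (a - c) * (a - d) = 0 := by linear_combination a * hs - hp
  rcases mul_eq_zero.1 this with e | e <;> obtain rfl := sub_eq_zero.1 e
  · rw [add_left_cancel hs]
  · rw [add_comm c] at hs
    rw [add_left_cancel hs, Multiset.pair_comm]

theorem lower (p : ℕ) [Fact p.Prime] :
    ∃ A : Finset (ZMod (6 * (p * (p - 1)))), Indep 5 A ∧ #A = p - 1 := by
  have hp : p.Prime := Fact.out
  obtain ⟨g, hg⟩ := IsCyclic.exists_ofOrder_eq_natCard (α := (ZMod p)ˣ)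
  rw [Nat.card_eq_fintype_card, ZMod.card_units] at hg
  have cop : Nat.Coprime (p - 1) p := by
    have := hp.pos
    exact (Nat.coprime_self_sub_left (by omega : 1 ≤ p)).2 (by simp)
  have p2 := hp.two_le
  let s : ℕ → ℕ := fun i => Nat.chineseRemainder cop i ((g ^ i : (ZMod p)ˣ) : ZMod p).val
  have s1 : ∀ i, g ^ s i = g ^ i := fun i => pow_eq_pow_iff_modEq.2
    (hg ▸ (Nat.chineseRemainder cop _ _).2.1)
  have s2 : ∀ i, (s i : ZMod p) = (g ^ i : (ZMod p)ˣ) := fun i => by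
    rw [(ZMod.natCast_eq_natCast_iff _ _ _).2 (Nat.chineseRemainder cop _ _).2.2,
      ZMod.natCast_zmod_val]
  have s3 : ∀ i, s i < (p - 1) * p := fun i =>
    Nat.chineseRemainder_lt_mul cop _ _ (by omega) (by omega)
  have gi : Set.InjOn (fun i => ((g ^ i : (ZMod p)ˣ) : ZMod p)) (range (p - 1)) := by
    intro i hi j hj e
    exact pow_injOn_Iio_orderOf (by simpa [hg] using hi) (by simpa [hg] using hj) (Units.ext e)
  have inj : Set.InjOn (fun i => ((1 + 6 * s i : ℕ) : ZMod (6 * (p * (p - 1))))) (range (p - 1)) := by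
    intro i hi j hj e
    have := congrArg ZMod.val e
    rw [ZMod.val_cast_of_lt (by have := s3 i; nlinarith),
      ZMod.val_cast_of_lt (by have := s3 j; nlinarith)] at this
    exact gi hi hj (by simp only [← s2]; rw [show s i = s j by omega])
  refine ⟨(range (p - 1)).image fun i => ((1 + 6 * s i : ℕ) : ZMod _), fun l h1 h2 h3 => ?_,
    by rw [card_image_of_injOn inj, card_range]⟩
  rw [sum_image inj] at h1 h2 h3
  set I := range (p - 1)
  obtain ⟨m, hm⟩ : ∃ m : ℕ → ℤ, ∀ i, m i = l ((1 + 6 * s i : ℕ) : ZMod _) := ⟨_, fun _ => rfl⟩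
  simp only [← hm] at h1 h2 h3
  have h4 : ((6 * (p * (p - 1)) : ℕ) : ℤ) ∣ ∑ i ∈ I, m i + 6 * ∑ i ∈ I, m i * s i := by
    rw [← ZMod.intCast_zmod_eq_zero_iff_dvd, ← h3, mul_sum, ← sum_add_distrib, Int.cast_sum]
    exact sum_congr rfl fun i _ => by push_cast; ring
  have h5 : ∑ i ∈ I, m i = 0 := by
    have := (abs_sum_le_sum_abs m I).trans h2
    have := (Int.natCast_dvd_natCast.2 (dvd_mul_right 6 _)).trans h4
    rw [abs_le] at *
    omega
  rw [h5, zero_add, Nat.cast_mul, Nat.cast_ofNat, mul_dvd_mul_iff_left (by norm_num)] at h4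
  have sp : ∀ i, m i = (m i).toNat - (-m i).toNat := fun i => by omega
  have sa : ∀ i, |m i| = (m i).toNat + (-m i).toNat := fun i => by
    rcases abs_cases (m i) with e | e <;> omega
  have q : ∀ (w : ℕ → ℕ), ((∑ i ∈ I, w i • ({((g ^ i : (ZMod p)ˣ) : ZMod p)} : Multiset _)).card =
      ∑ i ∈ I, w i) ∧ ((∑ i ∈ I, w i • ({((g ^ i : (ZMod p)ˣ) : ZMod p)} : Multiset _)).sum =
      ((∑ i ∈ I, w i * s i : ℕ) : ZMod p)) ∧
      (∑ i ∈ I, w i • ({((g ^ i : (ZMod p)ˣ) : ZMod p)} : Multiset _)).prod =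
      (g ^ (∑ i ∈ I, w i * s i) : (ZMod p)ˣ) := fun w =>
    ⟨by simp [Multiset.card_sum], by simp [Multiset.sum_sum, Multiset.sum_nsmul, s2], by
      simp only [Multiset.prod_sum, Multiset.prod_nsmul, Multiset.prod_singleton,
        ← prod_pow_eq_pow_sum, pow_mul', s1]
      simp⟩
  obtain ⟨a1, a2, a3⟩ := q fun i => (m i).toNat
  obtain ⟨b1, b2, b3⟩ := q fun i => (-m i).toNat
  have c1 : ∑ i ∈ I, (m i).toNat = ∑ i ∈ I, (-m i).toNat := by
    rw [sum_congr rfl fun i _ => sp i, sum_sub_distrib, sub_eq_zero] at h5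
    exact_mod_cast h5
  have c2 : ∑ i ∈ I, (m i).toNat + ∑ i ∈ I, (-m i).toNat ≤ 5 := by
    rw [sum_congr rfl fun i _ => sa i, sum_add_distrib] at h2
    exact_mod_cast h2
  have c3 : ∑ i ∈ I, (-m i).toNat * s i ≡ ∑ i ∈ I, (m i).toNat * s i [MOD p * (p - 1)] := by
    rw [Nat.modEq_iff_dvd]
    refine h4.trans (dvd_of_eq (Eq.symm ?_))
    push_cast
    rw [← sum_sub_distrib]
    exact sum_congr rfl fun i _ => by rw [← sub_mul, ← sp]
  have := two_eq (a1.trans (c1.trans b1.symm)) (by omega)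
    (by rw [a2, b2]; exact ((ZMod.natCast_eq_natCast_iff _ _ _).2 (c3.of_mul_right _)).symm)
    (by rw [a3, b3, pow_eq_pow_iff_modEq.2 (hg ▸ (c3.of_mul_left _).symm)])
  have z : ∀ i ∈ I, |m i| = 0 := fun i hi => by
    have := congrArg (Multiset.count ((g ^ i : (ZMod p)ˣ) : ZMod p)) this
    simp only [Multiset.count_sum', Multiset.count_nsmul, Multiset.count_singleton] at this
    rw [sum_eq_single_of_mem i hi fun j hj e => by rw [if_neg fun f => e (gi hi hj f).symm, mul_zero],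
      sum_eq_single_of_mem i hi fun j hj e => by
        rw [if_neg fun f => e (gi hi hj f).symm, mul_zero]] at this
    simp only [if_true, mul_one] at this
    rw [abs_eq_zero]; omega
  rw [sum_eq_zero z] at h1
  omega

theorem bdd [NeZero n] : BddAbove {m | ∃ A : Finset (ZMod n), Indep 5 A ∧ A.card = m} :=
  ⟨Fintype.card (ZMod n), by rintro _ ⟨A, -, rfl⟩; exact card_le_univ A⟩

theorem main : ¬ ∃ L : ℝ, Tendsto (fun n : ℕ => (tau n 5 : ℝ) / √n) atTop (𝓝 L) := by
  rintro ⟨L, hL⟩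
  have h2 : Tendsto (fun n : ℕ => (tau n 5 : ℝ) ^ 2 / n) atTop (𝓝 (L ^ 2)) := by
    simpa [div_pow] using hL.pow 2
  by_cases c : L ^ 2 < 0.1664
  · obtain ⟨N, hN⟩ := eventually_atTop.1 (h2.eventually (gt_mem_nhds c))
    obtain ⟨p, hp1, hp⟩ := Nat.exists_infinite_primes (N + 1000)
    have : Fact p.Prime := ⟨hp⟩
    have p2 := hp.two_le
    have h0 : p * 1 ≤ p * (p - 1) := Nat.mul_le_mul_left _ (by omega)
    have : NeZero (6 * (p * (p - 1))) := ⟨by omega⟩
    have h3 : p - 1 ≤ tau (6 * (p * (p - 1))) 5 := le_csSup bdd (lower p)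
    have h4 := hN (6 * (p * (p - 1))) (by omega)
    rw [div_lt_iff₀ (Nat.cast_pos.2 (by omega))] at h4
    have h7 := pow_le_pow_left₀ (by positivity) ((Nat.cast_le (α := ℝ)).2 h3) 2
    have h6 : ((1000 : ℕ) : ℝ) ≤ p := Nat.cast_le.2 (by omega)
    generalize (tau (6 * (p * (p - 1))) 5 : ℝ) = t at *
    push_cast [hp.one_le] at h4 h6 h7
    nlinarith only [h4, h6, h7]
  obtain ⟨N, hN⟩ := eventually_atTop.1 (h2.eventually (lt_mem_nhds
    (show (0.16625 : ℝ) < L ^ 2 by linarith)))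
  obtain ⟨Q, hQ⟩ : ∃ Q : ℕ, ∀ k : ℕ, (k : ℝ) ≤ 5 * 10 ^ 12 → 2000 * 1000 ^ k ≤ (Q : ℝ) := by
    obtain ⟨K, hK⟩ := exists_nat_ge (5 * 10 ^ 12 : ℝ)
    refine ⟨2000 * 1000 ^ K, fun k hk => ?_⟩
    push_cast
    gcongr
    · norm_num
    · exact_mod_cast hk.trans hK
  obtain ⟨n, n1, n2, n3⟩ : ∃ n, Odd n ∧ N ≤ n ∧ 10 * Q ^ 2 ≤ n :=
    ⟨2 * (N + 10 * Q ^ 2) + 1, odd_two_mul_add_one _, by omega, by omega⟩
  have : NeZero n := ⟨n1.pos.ne'⟩
  obtain ⟨A, a1, a2⟩ := Nat.sSup_mem (s := {m | ∃ A : Finset (ZMod n), Indep 5 A ∧ A.card = m})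
    ⟨0, ∅, fun l h => by simp at h, rfl⟩ bdd
  have h4 := hN n n2
  rw [lt_div_iff₀ (by exact_mod_cast n1.pos), tau, ← a2] at h4
  refine upper n1 a1 h4.le fun k hk => (hQ k hk).trans (abs_le_of_sq_le_sq' ?_ (by positivity)).2
  have : (10 : ℝ) * Q ^ 2 ≤ n := by exact_mod_cast n3
  nlinarith

end Pool.Agent.H2.Indep
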