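import Mathlib

namespace Pool.Agent.H2.Kir

open Finset LaurentPolynomial

theorem main (A b : ℕ → ℕ → ℤ[T;T⁻¹]) (a0 : A 0 0 = 1) (a1 : ∀ r, A 0 (r + 1) = 0)
    (a2 : ∀ n, A (n + 1) 0 = A n 0)
    (a3 : ∀ n r : ℕ, A (n + 1) (r + 1) = T (r + 1) * A n (r + 1) + (T (n - r) - T r) * A n r)
    (b0 : b 0 0 = 1) (b1 : ∀ l : ℕ, b 0 (l + 1) = T (l + 1) * b l 0)
    (b2 : ∀ k l : ℕ, b (k + 1) l = T (-1) * b k (l + 1) + (T (l + 1) - T l) * b l k) (n : ℕ) :
    b n 0 = ∑ r ∈ range (n + 2), A (n + 1) r := by
  have z : ∀ n r, n < r → A n r = 0 := by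
    intro n
    induction n with
    | zero => rintro (_ | r) h; exacts [absurd h (by omega), a1 r]
    | succ n ih =>
      rintro (_ | r) h
      · omega
      · rw [a3, ih _ (by omega), ih _ (by omega)]; simp
  have S : ∀ (n : ℕ) (φ : ℕ → ℤ[T;T⁻¹]), ∑ r ∈ range (n + 2), A (n + 1) r * φ r =
      ∑ r ∈ range (n + 1), A n r * (T r * φ r + (T (n - r) - T r) * φ (r + 1)) := fun n φ => by
    simp only [mul_add, sum_add_distrib]
    rw [sum_range_succ', sum_range_succ' (fun r => A n r * (T r * φ r))]
    simp only [a3, a2, add_mul, sum_add_distrib]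
    rw [sum_range_succ, z n (n + 1) (by omega), add_right_comm]
    congr 1
    · simp only [mul_zero, zero_mul, add_zero, Nat.cast_zero, T_zero, one_mul]
      congr 1
      exact sum_congr rfl fun r _ => by push_cast; ring
    · exact sum_congr rfl fun r _ => by ring
  let e : ℕ → ℕ → ℕ → ℕ → ℤ[T;T⁻¹] := fun k a l c => T ((k - a) * (l - c) + a * c + (k - a) + l)
  let B : ℕ → ℕ → ℤ[T;T⁻¹] := fun k l =>
    ∑ a ∈ range (k + 1), A k a * ∑ c ∈ range (l + 1), A l c * e k a l c
  have B0 : ∀ k, B k 0 = ∑ r ∈ range (k + 2), A (k + 1) r := fun k => by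
    simpa [B, e, a0] using (S k fun _ => 1).symm
  have key : ∀ N k l, k + l = N → b k l = B k l := by
    intro N
    induction N with
    | zero => intro k l h; obtain ⟨rfl, rfl⟩ := Nat.add_eq_zero_iff.1 h; simp [B, e, a0, b0]
    | succ N ih =>
      intro k
      induction k with
      | zero =>
        intro l h
        obtain rfl : l = N + 1 := by omega
        rw [b1, ih _ _ (by omega), B0, mul_sum]
        simp only [B, e, zero_add, sum_range_one, a0, one_mul]
        exact sum_congr rfl fun c _ => by rw [mul_comm]; simp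
      | succ k ik =>
        intro l h
        rw [b2, ik _ (by omega), ih _ _ (by omega)]
        simp only [B]
        rw [S]
        simp only [S]
        simp only [mul_sum, ← sum_add_distrib]
        rw [sum_comm (s := range (l + 1)), ← sum_add_distrib]
        refine sum_congr rfl fun a _ => ?_
        rw [← sum_add_distrib]
        refine sum_congr rfl fun c _ => ?_
        have : T (-1) * (T c * e k a (l + 1) c + (T (l - c) - T c) * e k a (l + 1) (c + 1)) +
            (T (l + 1) - T l) * e l c k a =
            T a * e (k + 1) a l c + (T (k - a) - T a) * e (k + 1) (a + 1) l c := by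
          simp only [e, mul_add, sub_mul, mul_sub, ← T_add]
          push_cast
          ring_nf
        linear_combination (A k a * A l c) * this
  rw [key _ n 0 rfl, B0]

end Pool.Agent.H2.Kir
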