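import Mathlib

set_option autoImplicit false

open Filter Topology Set Metric

namespace Pool.Agent.H2.LfA

variable {M : Type} [MetricSpace M]

theorem struct {S E : Type} [NormedAddCommGroup E] (m : S → E) (hm : TotallyBounded (range m))
    (u v : S → M) (c : S → ℝ) (ε : ℝ) (hε : 0 < ε) (hc : ∀ a, 0 < c a)
    (hd : ∀ a, ε < c a * dist (u a) (v a))
    (H : ∀ a b (g : M → ℝ), LipschitzWith 1 g →
      |c a * (g (u a) - g (v a)) - c b * (g (u b) - g (v b))| ≤ ‖m a - m b‖) :
    (∃ δ > 0, ∀ a, δ ≤ dist (u a) (v a)) ∧ TotallyBounded (range u) := by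
  have net : ∀ η > 0, ∃ t : Set S, t.Finite ∧ ∀ a, ∃ b ∈ t, ‖m a - m b‖ < η := by
    intro η hη
    obtain ⟨t, ht1, ht2, ht3⟩ := Metric.finite_approx_of_totallyBounded hm η hη
    obtain ⟨t', -, ht', rfl⟩ := ht2.exists_subset_finite_image_eq (s := univ) (f := m)
      (by simpa using ht1)
    refine ⟨t', ht', fun a => ?_⟩
    obtain ⟨_, ⟨b, hb, rfl⟩, h⟩ := mem_iUnion₂.mp (ht3 ⟨a, rfl⟩)
    exact ⟨b, hb, by rwa [mem_ball, dist_eq_norm] at h⟩
  have dpos : ∀ a, 0 < dist (u a) (v a) := fun a =>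
    (mul_pos_iff_of_pos_left (hc a)).mp (hε.trans (hd a))
  have A : ∀ a b, ‖m a - m b‖ < ε / 2 → dist (u a) (v a) / 4 ≤ dist (u b) (v b) := by
    intro a b hab
    by_contra hlt
    push Not at hlt
    set ρ := min (dist (u b) (v a)) (dist (v b) (v a)) with hρ
    set e := dist (u b) (v b) with he
    have hρ0 : 0 ≤ ρ := le_min dist_nonneg dist_nonneg
    have he0 : 0 ≤ e := dist_nonneg
    let ph : ℝ → ℝ := fun s => min s ρ + max (s - ρ - e) 0
    have hph : LipschitzWith 1 ph := by
      refine LipschitzWith.of_le_add fun s t => ?_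
      simp only [ph, Real.dist_eq]
      rcases le_total s ρ with h1 | h1 <;> rcases le_total t ρ with h2 | h2 <;>
        rcases le_total (s - ρ - e) 0 with h3 | h3 <;>
        rcases le_total (t - ρ - e) 0 with h4 | h4 <;>
        simp only [min_eq_left, min_eq_right, max_eq_left, max_eq_right, h1, h2, h3, h4] <;>
        linarith [le_abs_self (s - t), abs_nonneg (s - t)]
    have h1 := H a b (fun t => ph (dist t (v a))) (by
      have := hph.comp (LipschitzWith.dist_left (v a))
      rw [one_mul] at this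
      exact this)
    have t1 := abs_le.mp (abs_dist_sub_le (u b) (v b) (v a))
    have h2 : ∀ s, ρ ≤ s → s ≤ ρ + e → ph s = ρ := fun s hs1 hs2 => by
      simp only [ph]
      rw [min_eq_right hs1, max_eq_right (by linarith), add_zero]
    have h3 : ph (dist (u b) (v a)) = ρ := h2 _ (min_le_left _ _) (by
      rcases le_total (dist (u b) (v a)) (dist (v b) (v a)) with h | h
      · rw [hρ, min_eq_left h]; linarith
      · rw [hρ, min_eq_right h]; linarith)
    have h4 : ph (dist (v b) (v a)) = ρ := h2 _ (min_le_right _ _) (by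
      rcases le_total (dist (u b) (v a)) (dist (v b) (v a)) with h | h
      · rw [hρ, min_eq_left h]; linarith
      · rw [hρ, min_eq_right h]; linarith)
    have h5 : ph 0 = 0 := by
      simp only [ph]
      rw [min_eq_left hρ0, max_eq_right (by linarith), add_zero]
    have h6 : dist (u a) (v a) - e ≤ ph (dist (u a) (v a)) := by
      simp only [ph]
      rcases le_total (dist (u a) (v a)) ρ with h | h
      · rw [min_eq_left h]
        linarith [le_max_right (dist (u a) (v a) - ρ - e) 0]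
      · rw [min_eq_right h]
        linarith [le_max_left (dist (u a) (v a) - ρ - e) 0]
    simp only [dist_self, h3, h4, h5, sub_self, mul_zero, sub_zero] at h1
    have h7 := le_abs_self (c a * ph (dist (u a) (v a)))
    have h8 := hd a
    have h9 := hc a
    nlinarith
  obtain ⟨t, ht, hnet⟩ := net (ε / 2) (by positivity)
  obtain ⟨δ, hδ, R, hR, hδR⟩ : ∃ δ > 0, ∃ R > 0, ∀ a, δ ≤ dist (u a) (v a) ∧
      dist (u a) (v a) ≤ R := by
    obtain ⟨R, hR⟩ := (ht.image fun b => dist (u b) (v b)).bddAbove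
    obtain ⟨R', hR'⟩ := (ht.image fun b => (dist (u b) (v b))⁻¹).bddAbove
    refine ⟨(|R'| + 1)⁻¹ / 4, by positivity, 4 * (|R| + 1), by positivity, fun a => ?_⟩
    obtain ⟨b, hb, hab⟩ := hnet a
    have h1 := A a b hab
    have h2 := A b a (by rwa [norm_sub_rev])
    have h3 := hR ⟨b, hb, rfl⟩
    have h4 : (|R'| + 1)⁻¹ ≤ dist (u b) (v b) :=
      inv_le_of_inv_le₀ (dpos b) ((hR' ⟨b, hb, rfl⟩).trans (by linarith [le_abs_self R']))
    constructor <;> linarith [le_abs_self R]
  refine ⟨⟨δ, hδ, fun a => (hδR a).1⟩, Metric.totallyBounded_iff.mpr fun r hr => ?_⟩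
  set r' := min r δ with hr'
  have hr0 : 0 < r' := lt_min hr hδ
  obtain ⟨t', ht', hnet'⟩ := net (ε * r' / R) (by positivity)
  refine ⟨u '' t' ∪ v '' t', (ht'.image _).union (ht'.image _), ?_⟩
  rintro _ ⟨a, rfl⟩
  obtain ⟨b, hb, hab⟩ := hnet' a
  by_contra hn
  simp only [mem_iUnion, not_exists, mem_ball, not_lt] at hn
  have h1 := hn (u b) (Or.inl ⟨b, hb, rfl⟩)
  have h2 := hn (v b) (Or.inr ⟨b, hb, rfl⟩)
  have h3 := H a b (fun t => min (dist (u a) t) r') ((LipschitzWith.dist_right _).min_const _)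
  have e1 : min (dist (u a) (u b)) r' = r' := min_eq_right ((min_le_left r δ).trans h1)
  have e2 : min (dist (u a) (v b)) r' = r' := min_eq_right ((min_le_left r δ).trans h2)
  have e3 : min (dist (u a) (v a)) r' = r' := min_eq_right ((min_le_right r δ).trans (hδR a).1)
  simp only [dist_self, min_eq_left hr0.le, e1, e2, e3,
    sub_self, mul_zero, sub_zero, zero_sub, mul_neg, abs_neg] at h3
  have h4 := le_abs_self (c a * r')
  have h5 : c a * r' < ε * r' / R := by linarith
  rw [lt_div_iff₀ hR] at h5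
  have h6 := hd a
  have h7 := mul_le_mul_of_nonneg_left (hδR a).2 (hc a).le
  nlinarith

theorem dyn [CompleteSpace M] (o : M) (f : M → M) (L : ℝ) (hL0 : 0 ≤ L)
    (hL : ∀ x y, dist (f x) (f y) ≤ L * dist x y) (h0 : f o = o) (ε δ : ℝ) (hε : 0 < ε)
    (hε1 : ε < 1) (hδ : 0 < δ) (K : Set M) (hK : IsCompact K)
    (H : ∀ x y, ε * dist x y < dist (f x) (f y) → δ ≤ dist (f x) (f y) ∧ f x ∈ K) :
    (Function.periodicPts f).Finite ∧ ∃ C : ℝ, 0 ≤ C ∧ ∀ n x y,
      dist (f^[n] x) (f^[n] y) ≤ ε ^ n * dist x y ∨ ∃ p ∈ Function.periodicPts f,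
        ∃ q ∈ Function.periodicPts f,
          dist (f^[n] x) p + dist (f^[n] y) q ≤ C * ε ^ n * dist x y := by
  set P := Function.periodicPts f with hP
  set d0 := δ / (L + 1) with hd0
  have hd00 : 0 < d0 := by positivity
  have hfc : Continuous f := (LipschitzWith.of_dist_le' hL).continuous
  have loc : ∀ x y, dist x y < d0 → dist (f x) (f y) ≤ ε * dist x y := by
    intro x y h
    by_contra hc
    have h1 := (H x y (not_le.mp hc)).1
    rw [hd0, lt_div_iff₀ (by positivity)] at h
    nlinarith [hL x y, dist_nonneg (x := x) (y := y)]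
  have loci : ∀ k x y, dist x y < d0 → dist (f^[k] x) (f^[k] y) ≤ ε ^ k * dist x y := by
    intro k x y h
    induction k with
    | zero => simp
    | succ k ih =>
      rw [Function.iterate_succ_apply', Function.iterate_succ_apply', pow_succ']
      have h1 : ε ^ k ≤ 1 := pow_le_one₀ hε.le hε1.le
      have h2 := loc _ _ (lt_of_le_of_lt ih (lt_of_le_of_lt
        (mul_le_of_le_one_left dist_nonneg h1) h))
      nlinarith
  have hoP : o ∈ P := Function.mk_mem_periodicPts one_pos h0
  have out : ∀ x k, (∀ i < k, f^[i + 1] x ∉ K) → dist (f^[k] x) o ≤ ε ^ k * dist x o := by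
    intro x k
    induction k with
    | zero => simp
    | succ k ih =>
      intro h
      have h1 := ih fun i hi => h i (by omega)
      have h2 : dist (f (f^[k] x)) (f o) ≤ ε * dist (f^[k] x) o := by
        by_contra hc
        have := (H _ _ (not_le.mp hc)).2
        rw [← Function.iterate_succ_apply' f] at this
        exact h k (by omega) this
      rw [h0] at h2
      rw [Function.iterate_succ_apply', pow_succ']
      nlinarith
  have hpow := tendsto_pow_atTop_nhds_zero_of_lt_one hε.le hε1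
  have ptw : ∀ u, ∃ j, ∃ p ∈ P, dist (f^[j] u) p < d0 := by
    intro u
    by_cases hfr : ∃ᶠ k in atTop, f^[k] u ∈ K
    · obtain ⟨z, -, ψ, hψ, hz⟩ := hK.tendsto_subseq' hfr
      obtain ⟨N, hN⟩ := Metric.cauchySeq_iff'.mp hz.cauchySeq d0 hd00
      have h1 := hN (N + 1) (by omega)
      obtain ⟨n, hn⟩ := Nat.exists_eq_add_of_lt (hψ (Nat.lt_succ_self N))
      set w := f^[ψ N] u with hw
      have h2 : dist w (f^[n + 1] w) < d0 := by
        rw [dist_comm, hw, ← Function.iterate_add_apply,
          show n + 1 + ψ N = ψ (N + 1) by rw [Nat.succ_eq_add_one] at hn; omega]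
        exact h1
      have h3 : CauchySeq fun t => (f^[n + 1])^[t] w := by
        refine cauchySeq_of_le_geometric ε d0 hε1 fun t => ?_
        rw [Function.iterate_succ_apply, ← Function.iterate_mul]
        have h4 := loci ((n + 1) * t) _ _ h2
        have h5 : ε ^ ((n + 1) * t) ≤ ε ^ t :=
          pow_le_pow_of_le_one hε.le hε1.le (by nlinarith)
        calc _ ≤ _ := h4
          _ ≤ ε ^ t * d0 := mul_le_mul h5 h2.le dist_nonneg (by positivity)
          _ = _ := mul_comm _ _
      obtain ⟨p, hp⟩ := cauchySeq_tendsto_of_complete h3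
      have h6 : Function.IsFixedPt (f^[n + 1]) p :=
        isFixedPt_of_tendsto_iterate hp (hfc.iterate _).continuousAt
      obtain ⟨t, ht⟩ := (Metric.tendsto_nhds.mp hp d0 hd00).exists
      refine ⟨(n + 1) * t + ψ N, p, Function.mk_mem_periodicPts (Nat.succ_pos n) h6, ?_⟩
      rwa [Function.iterate_add_apply, Function.iterate_mul]
    · rw [not_frequently, eventually_atTop] at hfr
      obtain ⟨N, hN⟩ := hfr
      have h1 := hpow.mul_const (dist (f^[N] u) o)
      rw [zero_mul] at h1
      obtain ⟨k, hk⟩ := (h1.eventually (gt_mem_nhds hd00)).exists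
      refine ⟨k + N, o, hoP, ?_⟩
      rw [Function.iterate_add_apply]
      refine lt_of_le_of_lt (out _ k fun i _ => ?_) hk
      rw [← Function.iterate_add_apply]
      exact hN _ (by omega)
  have small : ∀ (n : ℕ) (r : ℝ), 0 < n → 0 ≤ r → r ≤ ε ^ n * r → r = 0 := by
    intro n r hn hr h
    have := pow_lt_one₀ hε.le hε1 hn.ne'
    nlinarith
  have hPK : (P ∩ K).Finite := by
    obtain ⟨t, ht, hc⟩ := Metric.totallyBounded_iff.mp hK.totallyBounded (d0 / 2) (by positivity)
    refine (ht.biUnion (t := fun y => P ∩ ball y (d0 / 2)) fun y _ =>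
      Set.Subsingleton.finite ?_).subset fun p hp => ?_
    · rintro p ⟨⟨n, hn, hp⟩, hp2⟩ q ⟨⟨n', hn', hq⟩, hq2⟩
      have h1 : dist p q < d0 := by
        have := dist_triangle_right p q y
        rw [mem_ball] at hp2 hq2
        linarith
      have h2 := loci (n * n') p q h1
      rw [(hp.mul_const n').eq, (hq.const_mul n).eq] at h2
      exact dist_eq_zero.mp (small _ _ (Nat.mul_pos hn hn') dist_nonneg h2)
    · obtain ⟨y, hy, h⟩ := mem_iUnion₂.mp (hc hp.2)
      exact mem_iUnion₂.mpr ⟨y, hy, hp.1, h⟩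
  have hPf : ∀ k, ∀ p ∈ P, f^[k] p ∈ P := by
    rintro k p ⟨n, hn, hp⟩
    exact ⟨n, hn, hp.apply_iterate k⟩
  refine ⟨((hPK.biUnion (t := fun q => range fun j => f^[j] q) ?_).insert o).subset ?_, ?_⟩
  · rintro q ⟨⟨n, hn, hq⟩, -⟩
    refine ((finite_Iio n).image fun j => f^[j] q).subset ?_
    rintro _ ⟨j, rfl⟩
    exact ⟨j % n, Nat.mod_lt _ hn, hq.iterate_mod_apply j⟩
  · rintro p ⟨n, hn, hp⟩
    by_cases h : ∀ i < n, f^[i + 1] p ∉ K
    · have h1 := out p n h
      rw [hp.eq] at h1
      exact Or.inl (dist_eq_zero.mp (small _ _ hn dist_nonneg h1))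
    · push Not at h
      obtain ⟨i, hi, h⟩ := h
      refine Or.inr (mem_iUnion₂.mpr ⟨_, ⟨hPf _ p ⟨n, hn, hp⟩, h⟩, n - (i + 1), ?_⟩)
      simp only
      rw [← Function.iterate_add_apply, show n - (i + 1) + (i + 1) = n by omega, hp.eq]
  obtain ⟨J, hJ⟩ : ∃ J, K ⊆ {u | ∃ p ∈ P, dist (f^[J] u) p < d0} := by
    refine hK.elim_directed_cover (fun j : ℕ => {u | ∃ p ∈ P, dist (f^[j] u) p < d0})
      (fun j => ?_) (fun u _ => mem_iUnion.mpr (ptw u)) (Monotone.directed_le
        (monotone_nat_of_le_succ fun j u ⟨p, hp, h⟩ => ⟨f^[1] p, hPf 1 p hp, ?_⟩))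
    · have : {u | ∃ p ∈ P, dist (f^[j] u) p < d0} = ⋃ p ∈ P, {u | dist (f^[j] u) p < d0} := by
        ext u
        simp
      rw [this]
      exact isOpen_biUnion fun p _ =>
        isOpen_lt ((hfc.iterate j).dist continuous_const) continuous_const
    · rw [Function.iterate_succ_apply', Function.iterate_one]
      have := loc _ _ h
      nlinarith [dist_nonneg (x := f^[j] u) (y := p)]
  obtain ⟨R, hR⟩ := hK.isBounded.subset_closedBall o
  have grow : ∀ j u, dist (f^[j] u) o ≤ (L + 1) ^ j * dist u o := by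
    intro j u
    induction j with
    | zero => simp
    | succ j ih =>
      have h1 := hL (f^[j] u) o
      rw [h0] at h1
      rw [Function.iterate_succ_apply', pow_succ', mul_assoc]
      nlinarith [dist_nonneg (x := f^[j] u) (y := o)]
  set C := (d0 + (L + 1) ^ J * |R|) / ε ^ J with hC
  have hC0 : 0 ≤ C := by positivity
  have uni : ∀ u ∈ K, ∀ j, ∃ p ∈ P, dist (f^[j] u) p ≤ C * ε ^ j := by
    intro u hu j
    have hJ0 : 0 < ε ^ J := by positivity
    have hX : 0 ≤ (L + 1) ^ J * |R| := by positivity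
    by_cases hj : J ≤ j
    · obtain ⟨i, rfl⟩ := Nat.exists_eq_add_of_le' hj
      obtain ⟨p, hp, h⟩ := hJ hu
      refine ⟨f^[i] p, hPf i p hp, ?_⟩
      rw [Function.iterate_add_apply, pow_add, hC, mul_comm (ε ^ i), ← mul_assoc,
        div_mul_cancel₀ _ hJ0.ne']
      have h1 := loci i _ _ h
      have h2 : 0 < ε ^ i := by positivity
      nlinarith
    · refine ⟨o, hoP, (grow j u).trans ?_⟩
      have h1 : (L + 1) ^ j ≤ (L + 1) ^ J := pow_le_pow_right₀ (by linarith) (by omega)
      have h2 : ε ^ J ≤ ε ^ j := pow_le_pow_of_le_one hε.le hε1.le (by omega)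
      have h3 : dist u o ≤ |R| := (mem_closedBall.mp (hR hu)).trans (le_abs_self R)
      calc _ ≤ (L + 1) ^ J * |R| := mul_le_mul h1 h3 dist_nonneg (by positivity)
        _ ≤ C * ε ^ J := by rw [hC, div_mul_cancel₀ _ hJ0.ne']; linarith
        _ ≤ _ := mul_le_mul_of_nonneg_left h2 hC0
  refine ⟨2 * C * L / (δ * ε), by positivity, fun n => ?_⟩
  induction n with
  | zero => intro x y; simp
  | succ n ih =>
    intro x y
    rw [Function.iterate_succ_apply, Function.iterate_succ_apply]
    have hn : 0 < ε ^ n := by positivity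
    by_cases hc : dist (f x) (f y) ≤ ε * dist x y
    · rcases ih (f x) (f y) with h | ⟨p, hp, q, hq, h⟩
      · left
        rw [pow_succ, mul_assoc]
        exact h.trans (mul_le_mul_of_nonneg_left hc hn.le)
      · refine Or.inr ⟨p, hp, q, hq, h.trans ?_⟩
        rw [pow_succ, mul_assoc _ (ε ^ n * ε), mul_assoc (ε ^ n), ← mul_assoc _ (ε ^ n)]
        exact mul_le_mul_of_nonneg_left hc (by positivity)
    · obtain ⟨h1, h2⟩ := H x y (not_le.mp hc)
      obtain ⟨-, h3⟩ := H y x (by rw [dist_comm y, dist_comm (f y)]; exact not_le.mp hc)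
      obtain ⟨p, hp, h4⟩ := uni _ h2 n
      obtain ⟨q, hq, h5⟩ := uni _ h3 n
      refine Or.inr ⟨p, hp, q, hq, ?_⟩
      have h6 : 2 * C * L / (δ * ε) * ε ^ (n + 1) * dist x y =
          2 * C * ε ^ n * (L * dist x y / δ) := by
        field_simp
        ring
      have h7 : 1 ≤ L * dist x y / δ := (one_le_div hδ).mpr (h1.trans (hL x y))
      rw [h6]
      nlinarith [mul_nonneg hC0 hn.le]

end Pool.Agent.H2.LfA
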