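import Pool.Agent.H2.LfDefs
import Pool.Agent.H2.LfA

set_option autoImplicit false

open Filter Topology Set Metric

namespace Pool.Agent.H2.Lf

variable {M : Type} [MetricSpace M] {o : M}

theorem dl_apply (x : M) (g : Lip0 o) : dl o x g = fn g x := rfl

theorem fn_le (g : Lip0 o) (x y : M) : ‖fn g x - fn g y‖ ≤ ‖g‖ * dist x y := le_lipC g x y

theorem fn_zero (g : Lip0 o) : fn g o = 0 := (show lipSub o from g).2.1

/-- building an element -/
def mk (g : M → ℂ) (h0 : g o = 0) (K : ℝ) (hK : ∀ x y, ‖g x - g y‖ ≤ K * dist x y) : Lip0 o :=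
  (⟨g, h0, K, hK⟩ : lipSub o)

theorem norm_le' {g : Lip0 o} {K : ℝ} (h0 : 0 ≤ K)
    (hK : ∀ x y, ‖fn g x - fn g y‖ ≤ K * dist x y) : ‖g‖ ≤ K := lipC_le h0 hK

theorem ofReal (g : M → ℝ) (hg : LipschitzWith 1 g) :
    ∃ G : Lip0 o, ‖G‖ ≤ 1 ∧ ∀ t, fn G t = ((g t - g o : ℝ) : ℂ) := by
  have h : ∀ x y, ‖((g x - g o : ℝ) : ℂ) - ((g y - g o : ℝ) : ℂ)‖ ≤ 1 * dist x y := by
    intro x y
    rw [← Complex.ofReal_sub, Complex.norm_real, sub_sub_sub_cancel_right, ← dist_eq_norm]
    simpa using hg.dist_le_mul x y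
  exact ⟨mk (fun t => ((g t - g o : ℝ) : ℂ)) (by simp) 1 h, norm_le' zero_le_one h, fun _ => rfl⟩

/-- inclusion into the dual -/
noncomputable def vl (o : M) : Free o →ₗᵢ[ℂ] StrongDual ℂ (Lip0 o) where
  toFun γ := (show freeSub o from γ).1
  map_add' _ _ := rfl
  map_smul' _ _ := rfl
  norm_map' _ := rfl

theorem vl_dF (x : M) : vl o (dF o x) = dl o x := rfl

theorem range_vl : range (vl o) = closure (Submodule.span ℂ (range (dl o)) : Set _) := by
  ext γ
  exact ⟨fun ⟨δ, h⟩ => h ▸ (show freeSub o from δ).2, fun h => ⟨(⟨γ, h⟩ : freeSub o), rfl⟩⟩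

theorem complete (o : M) : CompleteSpace (Free o) :=
  (completeSpace_iff_isComplete_range (vl o).isometry.isUniformInducing).mpr (by
    rw [range_vl]
    exact isClosed_closure.isComplete)

theorem norm_mol (x y : M) : ‖dF o x - dF o y‖ ≤ dist x y := by
  rw [← (vl o).norm_map, map_sub, vl_dF, vl_dF]
  refine ContinuousLinearMap.opNorm_le_bound _ dist_nonneg fun g => ?_
  rw [mul_comm]
  exact fn_le g x y

/-- composition operator -/
noncomputable def comp (f : M → M) (L : ℝ) (hL : ∀ x y, dist (f x) (f y) ≤ L * dist x y)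
    (h0 : f o = o) (g : Lip0 o) : Lip0 o :=
  mk (fun t => fn g (f t)) (by simp only [h0, fn_zero]) (‖g‖ * L) fun x y =>
    (fn_le g _ _).trans (by
      rw [mul_assoc]
      exact mul_le_mul_of_nonneg_left (hL x y) (norm_nonneg _))

theorem adj (f : M → M) (T : Free o →L[ℂ] Free o) (hT : ∀ x, T (dF o x) = dF o (f x))
    (g g' : Lip0 o) (h : ∀ t, fn g' t = fn g (f t)) (γ : Free o) :
    vl o (T γ) g = vl o γ g' := by
  have hd : Dense (Submodule.span ℂ (range (dF o)) : Set (Free o)) := by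
    rw [(vl o).isometry.isEmbedding.isInducing.dense_iff]
    intro x
    have h1 := Submodule.map_span (vl o).toLinearMap (range (dF o))
    rw [← range_comp] at h1
    have h2 : vl o '' (Submodule.span ℂ (range (dF o)) : Set (Free o)) =
        (Submodule.span ℂ (range (dl o)) : Set _) := congrArg SetLike.coe h1
    rw [h2, ← range_vl]
    exact ⟨x, rfl⟩
  have h1 : (ContinuousLinearMap.apply ℂ ℂ g).comp ((vl o).toContinuousLinearMap.comp T) =
      (ContinuousLinearMap.apply ℂ ℂ g').comp (vl o).toContinuousLinearMap :=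
    ContinuousLinearMap.ext_on hd (by
      rintro _ ⟨x, rfl⟩
      change vl o (T (dF o x)) g = dl o x g'
      rw [hT, dl_apply, h]
      rfl)
  exact congrArg (fun B : Free o →L[ℂ] ℂ => B γ) h1

theorem bump (P : Set M) (hP : P.Finite) (ho : o ∈ P) (p : M) (hp : p ≠ o) :
    ∃ b : Lip0 o, fn b p = 1 ∧ ∀ q ∈ P, q ≠ p → fn b q = 0 := by
  obtain ⟨G, -, hG⟩ := ofReal (o := o) _ (lipschitz_infDist_pt (P \ {p}))
  have h0 : infDist o (P \ {p}) = 0 := infDist_zero_of_mem ⟨ho, hp.symm⟩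
  have h1 : 0 < infDist p (P \ {p}) :=
    ((hP.subset diff_subset).isClosed.notMem_iff_infDist_pos ⟨o, ho, hp.symm⟩).mp (by simp)
  refine ⟨((infDist p (P \ {p}) : ℝ) : ℂ)⁻¹ • G, ?_, fun q hq hqp => ?_⟩
  · change _ * fn G p = 1
    rw [hG, h0, sub_zero, inv_mul_cancel₀ (by exact_mod_cast h1.ne')]
  · change _ * fn G q = 0
    rw [hG, h0, infDist_zero_of_mem (show q ∈ P \ {p} from ⟨hq, hqp⟩)]
    simp

theorem geom (f : M → M) (T : Free o →L[ℂ] Free o) (hT : ∀ x, T (dF o x) = dF o (f x))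
    (hc : IsCompactOperator T) [CompleteSpace M] (ε : ℝ) (hε : 0 < ε) :
    ∃ δ > 0, ∃ K : Set M, IsCompact K ∧
      ∀ x y, ε * dist x y < dist (f x) (f y) → δ ≤ dist (f x) (f y) ∧ f x ∈ K := by
  let S := {a : M × M // ε * dist a.1 a.2 < dist (f a.1) (f a.2)}
  have hpos : ∀ a : S, 0 < dist a.1.1 a.1.2 := fun a => dist_pos.mpr fun h => by
    have := a.2
    rw [h] at this
    simp at this
  let mo : S → Free o := fun a => (((dist a.1.1 a.1.2)⁻¹ : ℝ) : ℂ) • (dF o a.1.1 - dF o a.1.2)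
  have hmo : ∀ a, ‖mo a‖ ≤ 1 := fun a => by
    simp only [mo]
    rw [norm_smul, Complex.norm_real, norm_inv, Real.norm_of_nonneg dist_nonneg,
      inv_mul_le_iff₀ (hpos a), mul_one]
    exact norm_mol _ _
  obtain ⟨C, hC, hC2⟩ := IsCompactOperator.image_closedBall_subset_compact
    (f := (T : Free o →ₗ[ℂ] Free o)) hc 1
  obtain ⟨⟨δ, hδ, h1⟩, h2⟩ := LfA.struct (fun a => T (mo a))
    (hC.totallyBounded.subset (by
      rintro _ ⟨a, rfl⟩
      exact hC2 ⟨mo a, mem_closedBall_zero_iff.mpr (hmo a), rfl⟩))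
    (fun a => f a.1.1) (fun a => f a.1.2) (fun a => (dist a.1.1 a.1.2)⁻¹) ε hε
    (fun a => inv_pos.mpr (hpos a))
    (fun a => by
      rw [lt_inv_mul_iff₀ (hpos a), mul_comm]
      exact a.2)
    (fun a b g hg => by
      obtain ⟨G, hG1, hG⟩ := ofReal (o := o) g hg
      have h3 : ∀ a : S, vl o (T (mo a)) G =
          (((dist a.1.1 a.1.2)⁻¹ * (g (f a.1.1) - g (f a.1.2)) : ℝ) : ℂ) := fun a => by
        simp only [mo]
        rw [map_smul, map_sub, hT, hT, map_smul, map_sub]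
        change _ * (fn G _ - fn G _) = _
        rw [hG, hG]
        push_cast
        ring
      have h4 := (vl o (T (mo a) - T (mo b))).le_of_opNorm_le_of_le le_rfl hG1
      rw [(vl o).norm_map, map_sub, ContinuousLinearMap.sub_apply, h3, h3, ← Complex.ofReal_sub,
        Complex.norm_real, mul_one] at h4
      exact h4)
  exact ⟨δ, hδ, _, h2.closure.isCompact_of_isClosed isClosed_closure, fun x y h =>
    ⟨h1 ⟨(x, y), h⟩, subset_closure ⟨⟨(x, y), h⟩, rfl⟩⟩⟩

theorem lip_iter (f : M → M) (L : ℝ) (hL0 : 0 ≤ L) (hL : ∀ x y, dist (f x) (f y) ≤ L * dist x y)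
    (n : ℕ) : ∀ x y, dist (f^[n] x) (f^[n] y) ≤ L ^ n * dist x y := by
  intro x y
  induction n with
  | zero => simp
  | succ n ih =>
    rw [Function.iterate_succ_apply', Function.iterate_succ_apply', pow_succ', mul_assoc]
    exact (hL _ _).trans (mul_le_mul_of_nonneg_left ih hL0)

theorem eig [CompleteSpace M] (f : M → M) (L : ℝ) (hL0 : 0 ≤ L)
    (hL : ∀ x y, dist (f x) (f y) ≤ L * dist x y) (h0 : f o = o) (T : Free o →L[ℂ] Free o)
    (hT : ∀ x, T (dF o x) = dF o (f x)) (hc : IsCompactOperator T) (z : ℂ) (hz : z ≠ 0)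
    (γ : Free o) (hγ : γ ≠ 0) (h : T γ = z • γ) :
    ∃ p ∈ Function.periodicPts f, p ≠ o ∧ z ^ Function.minimalPeriod f p = 1 := by
  have hz0 : 0 < ‖z‖ := norm_pos_iff.mpr hz
  set ε := min (‖z‖ / 2) (1 / 2) with hεd
  have hε : 0 < ε := lt_min (by positivity) (by norm_num)
  obtain ⟨δ, hδ, K, hK, H⟩ := geom f T hT hc ε hε
  obtain ⟨hP, C, hC, hdyn⟩ := LfA.dyn o f L hL0 hL h0 ε δ hε
    (lt_of_le_of_lt (min_le_right _ _) (by norm_num)) hδ K hK H
  set P := Function.periodicPts f with hPd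
  let cp : ℕ → Lip0 o → Lip0 o := fun n =>
    comp (f^[n]) (L ^ n) (lip_iter f L hL0 hL n) (Function.iterate_fixed h0 n)
  have hcp : ∀ n g t, fn (cp n g) t = fn g (f^[n] t) := fun _ _ _ => rfl
  have hpow : ∀ n g, (vl o γ) (cp n g) =
      z ^ n * (vl o γ) g := by
    intro n g
    induction n with
    | zero =>
      rw [pow_zero, one_mul]
      rfl
    | succ n ih =>
      rw [← adj f T hT (cp n g) (cp (n + 1) g) (fun t => rfl), h, pow_succ', mul_assoc, ← ih, map_smul]
      rfl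
  have van : ∀ g : Lip0 o, (∀ p ∈ P, fn g p = 0) → (vl o γ) g = 0 := by
    intro g hg
    have h1 : ∀ n, ‖cp n g‖ ≤ ‖g‖ * (1 + C) * ε ^ n := fun n =>
      norm_le' (by positivity) fun x y => by
        rw [hcp, hcp]
        have h2 : 0 ≤ ε ^ n * dist x y := by positivity
        have h3 := norm_nonneg g
        rcases hdyn n x y with h4 | ⟨p, hp, q, hq, h4⟩
        · have h5 := fn_le g (f^[n] x) (f^[n] y)
          nlinarith [mul_nonneg h3 (mul_nonneg hC h2), mul_le_mul_of_nonneg_left h4 h3]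
        · have h5 := fn_le g (f^[n] x) p
          have h6 := fn_le g (f^[n] y) q
          rw [hg p hp, sub_zero] at h5
          rw [hg q hq, sub_zero] at h6
          have h7 := norm_sub_le (fn g (f^[n] x)) (fn g (f^[n] y))
          nlinarith [mul_nonneg h3 h2, mul_le_mul_of_nonneg_left h4 h3]
    have h2 : ∀ n, ‖(vl o γ) g‖ ≤
        ‖(vl o γ)‖ * (‖g‖ * (1 + C)) * (1 / 2) ^ n := fun n => by
      have h3 := (vl o γ).le_of_opNorm_le_of_le le_rfl (h1 n)
      rw [hpow, norm_mul, norm_pow] at h3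
      have h4 : ε ^ n ≤ ‖z‖ ^ n * (1 / 2) ^ n := by
        rw [← mul_pow]
        exact pow_le_pow_left₀ hε.le ((min_le_left _ _).trans (by linarith)) n
      have h5 : 0 < ‖z‖ ^ n := by positivity
      refine le_of_mul_le_mul_left (h3.trans ?_) h5
      have h6 : 0 ≤ ‖(vl o γ)‖ * (‖g‖ * (1 + C)) := by positivity
      nlinarith [mul_le_mul_of_nonneg_left h4 h6]
    have h3 := (tendsto_pow_atTop_nhds_zero_of_lt_one (r := (1 / 2 : ℝ)) (by norm_num)
      (by norm_num)).const_mul (‖(vl o γ)‖ * (‖g‖ * (1 + C)))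
    rw [mul_zero] at h3
    exact norm_le_zero_iff.mp (ge_of_tendsto' h3 h2)
  have hoP : o ∈ P := Function.mk_mem_periodicPts one_pos h0
  have hb : ∀ p, ∃ b : Lip0 o, p ≠ o → fn b p = 1 ∧ ∀ q ∈ P, q ≠ p → fn b q = 0 := fun p => by
    by_cases hp : p = o
    · exact ⟨0, fun h => absurd hp h⟩
    · obtain ⟨b, hb⟩ := bump P hP hoP p hp
      exact ⟨b, fun _ => hb⟩
  choose b hb using hb
  by_contra hcon
  push Not at hcon
  have h1 : ∀ p ∈ P, p ≠ o → (vl o γ) (b p) = 0 := by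
    intro p hp hpo
    have h2 := van (cp (Function.minimalPeriod f p) (b p) - b p) fun q hq => by
      change fn (b p) (f^[Function.minimalPeriod f p] q) - fn (b p) q = 0
      by_cases hqp : q = p
      · rw [hqp, Function.iterate_minimalPeriod, sub_self]
      · have h3 := (Function.bijOn_periodicPts f).iterate (Function.minimalPeriod f p)
        rw [(hb p hpo).2 q hq hqp, (hb p hpo).2 _ (h3.mapsTo hq) fun h4 =>
          hqp (h3.injOn hq hp (by rw [h4, Function.iterate_minimalPeriod])), sub_self]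
    rw [map_sub, hpow, ← sub_one_mul] at h2
    exact (mul_eq_zero.mp h2).resolve_left (sub_ne_zero.mpr (hcon p hp hpo))
  refine hγ ((vl o).injective (ContinuousLinearMap.ext fun g => ?_))
  classical
  let s := hP.toFinset.erase o
  have hs : ∀ p, p ∈ s ↔ p ≠ o ∧ p ∈ P := fun p => by simp [s]
  have h2 := van (g - ∑ p ∈ s, fn g p • b p) fun q hq => by
    rw [← dl_apply, map_sub, map_sum]
    simp only [map_smul, dl_apply, smul_eq_mul]
    by_cases hqo : q = o
    · simp [hqo, fn_zero]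
    · rw [Finset.sum_eq_single_of_mem q ((hs q).mpr ⟨hqo, hq⟩), (hb q hqo).1, mul_one, sub_self]
      intro p hp hpq
      rw [(hb p ((hs p).mp hp).1).2 q hq hpq.symm, mul_zero]
  rw [map_sub, map_sum, Finset.sum_eq_zero fun p hp => by
    rw [map_smul, h1 p ((hs p).mp hp).2 ((hs p).mp hp).1, smul_zero], sub_zero] at h2
  rw [h2, map_zero]
  rfl

theorem fin_per [CompleteSpace M] (f : M → M) (L : ℝ) (hL0 : 0 ≤ L)
    (hL : ∀ x y, dist (f x) (f y) ≤ L * dist x y) (h0 : f o = o) (T : Free o →L[ℂ] Free o)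
    (hT : ∀ x, T (dF o x) = dF o (f x)) (hc : IsCompactOperator T) :
    (Function.periodicPts f).Finite := by
  obtain ⟨δ, hδ, K, hK, H⟩ := geom f T hT hc (1 / 2) (by norm_num)
  exact (LfA.dyn o f L hL0 hL h0 (1 / 2) δ (by norm_num) (by norm_num) hδ K hK H).1

theorem eigvec (f : M → M) (h0 : f o = o) (T : Free o →L[ℂ] Free o)
    (hT : ∀ x, T (dF o x) = dF o (f x)) (hP : (Function.periodicPts f).Finite) (p : M)
    (hp : p ≠ o) (n : ℕ) (hn : 1 ≤ n) (h1 : f^[n] p = p)
    (h2 : ∀ k, 1 ≤ k → k < n → f^[k] p ≠ p) (z : ℂ) (hz : z ^ n = 1) :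
    ∃ γ : Free o, γ ≠ 0 ∧ T γ = z • γ := by
  have hz0 : z ≠ 0 := fun h => by
    rw [h, zero_pow (by omega)] at hz
    exact zero_ne_one hz
  let w : ℕ → Free o := fun k => z⁻¹ ^ k • dF o (f^[k] p)
  refine ⟨∑ k ∈ Finset.range n, w k, fun h => ?_, ?_⟩
  · obtain ⟨b, hb1, hb2⟩ := bump _ hP (Function.mk_mem_periodicPts one_pos h0) p hp
    have h3 := congrArg (fun γ : Free o => (vl o γ) b) h
    simp only [map_sum, ContinuousLinearMap.sum_apply] at h3
    rw [Finset.sum_eq_single_of_mem 0 (Finset.mem_range.mpr hn)] at h3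
    · change z⁻¹ ^ 0 * fn b p = 0 at h3
      simp [hb1] at h3
    · intro k hk hk0
      change z⁻¹ ^ k * fn b (f^[k] p) = 0
      rw [hb2 _ ⟨n, hn, Function.IsPeriodicPt.apply_iterate h1 k⟩
        (h2 k (by omega) (Finset.mem_range.mp hk)), mul_zero]
  · have h3 : ∀ k, T (w k) = z • w (k + 1) := fun k => by
      simp only [w]
      rw [map_smul, hT, smul_smul, Function.iterate_succ_apply', pow_succ', ← mul_assoc,
        mul_inv_cancel₀ hz0, one_mul]
    have h4 : w n = w 0 := by simp [w, h1, hz]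
    have h5 := Finset.sum_range_succ w n
    rw [Finset.sum_range_succ', h4] at h5
    rw [map_sum, Finset.sum_congr rfl fun k _ => h3 k, ← Finset.smul_sum, add_right_cancel h5]

end Pool.Agent.H2.Lf
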