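import Mathlib

set_option autoImplicit false

namespace Pool.Agent.H2.Lf

variable {M : Type} [MetricSpace M]

/-- complex Lipschitz functions vanishing at the base point, as a linear subspace -/
def lipSub (o : M) : Submodule ℂ (M → ℂ) where
  carrier := {g | g o = 0 ∧ ∃ K : ℝ, ∀ x y, ‖g x - g y‖ ≤ K * dist x y}
  zero_mem' := ⟨rfl, 0, by simp⟩
  add_mem' := by
    rintro g h ⟨g0, K, hK⟩ ⟨h0, K', hK'⟩
    refine ⟨by simp [g0, h0], K + K', fun x y => ?_⟩
    have := norm_add_le_of_le (hK x y) (hK' x y)
    rw [add_mul, Pi.add_apply, Pi.add_apply, add_sub_add_comm]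
    exact this
  smul_mem' := by
    rintro c g ⟨g0, K, hK⟩
    refine ⟨by simp [g0], ‖c‖ * K, fun x y => ?_⟩
    rw [Pi.smul_apply, Pi.smul_apply, ← smul_sub, norm_smul, mul_assoc]
    exact mul_le_mul_of_nonneg_left (hK x y) (norm_nonneg _)

/-- the space `Lip_0(M)` -/
def Lip0 (o : M) : Type := lipSub o

instance (o : M) : AddCommGroup (Lip0 o) := inferInstanceAs (AddCommGroup (lipSub o))

instance (o : M) : Module ℂ (Lip0 o) := inferInstanceAs (Module ℂ (lipSub o))

/-- the function underlying an element of `Lip_0(M)` -/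
def fn {o : M} (g : Lip0 o) : M → ℂ := (show lipSub o from g).1

/-- the best Lipschitz constant -/
noncomputable def lipC {o : M} (g : Lip0 o) : ℝ :=
  ⨆ p : M × M, ‖fn g p.1 - fn g p.2‖ / dist p.1 p.2

theorem quot_le {g : M → ℂ} {K : ℝ} (h0 : 0 ≤ K) (hK : ∀ x y, ‖g x - g y‖ ≤ K * dist x y)
    (p : M × M) : ‖g p.1 - g p.2‖ / dist p.1 p.2 ≤ K :=
  div_le_of_le_mul₀ dist_nonneg h0 (hK _ _)

theorem lipC_le {o : M} {g : Lip0 o} {K : ℝ} (h0 : 0 ≤ K)
    (hK : ∀ x y, ‖fn g x - fn g y‖ ≤ K * dist x y) : lipC g ≤ K :=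
  Real.iSup_le (quot_le h0 hK) h0

theorem le_lipC {o : M} (g : Lip0 o) (x y : M) : ‖fn g x - fn g y‖ ≤ lipC g * dist x y := by
  obtain ⟨K, hK⟩ := (show lipSub o from g).2.2
  by_cases h : x = y
  · simp [h]
  · rw [← div_le_iff₀ (dist_pos.mpr h)]
    refine le_ciSup (f := fun p : M × M => ‖fn g p.1 - fn g p.2‖ / dist p.1 p.2)
      ⟨|K|, ?_⟩ (x, y)
    rintro _ ⟨p, rfl⟩
    exact quot_le (abs_nonneg K) (fun x y => (hK x y).trans
      (mul_le_mul_of_nonneg_right (le_abs_self K) dist_nonneg)) p

theorem lipC_nonneg {o : M} (g : Lip0 o) : 0 ≤ lipC g :=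
  Real.iSup_nonneg fun _ => by positivity

noncomputable instance (o : M) : NormedAddCommGroup (Lip0 o) :=
  AddGroupNorm.toNormedAddCommGroup
    { toFun := lipC
      map_zero' := le_antisymm (lipC_le le_rfl fun x y => by
        change ‖(0 : ℂ) - 0‖ ≤ _
        simp) (lipC_nonneg _)
      add_le' := fun g h => lipC_le (add_nonneg (lipC_nonneg g) (lipC_nonneg h)) fun x y => by
        have := norm_add_le_of_le (le_lipC g x y) (le_lipC h x y)
        rw [add_mul]
        change ‖fn g x + fn h x - (fn g y + fn h y)‖ ≤ _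
        rw [add_sub_add_comm]
        exact this
      neg' := fun g => by
        unfold lipC
        congr 1
        ext p
        change ‖-fn g p.1 - -fn g p.2‖ / _ = _
        rw [neg_sub_neg, norm_sub_rev]
      eq_zero_of_map_eq_zero' := fun g hg => Subtype.ext (funext fun x => by
        have h1 := le_lipC g x o
        have h2 : fn g o = 0 := (show lipSub o from g).2.1
        rw [hg, h2, zero_mul, sub_zero] at h1
        exact norm_le_zero_iff.mp h1) }

noncomputable instance (o : M) : NormedSpace ℂ (Lip0 o) where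
  norm_smul_le c g := lipC_le (mul_nonneg (norm_nonneg c) (lipC_nonneg g)) fun x y => by
    change ‖c • fn g x - c • fn g y‖ ≤ _
    rw [← smul_sub, norm_smul, mul_assoc]
    exact mul_le_mul_of_nonneg_left (le_lipC g x y) (norm_nonneg _)

/-- evaluation at a point, as an element of the dual of `Lip_0(M)` -/
noncomputable def dl (o x : M) : StrongDual ℂ (Lip0 o) :=
  LinearMap.mkContinuous
    { toFun := fun g => fn g x
      map_add' := fun _ _ => rfl
      map_smul' := fun _ _ => rfl } (dist x o) fun g => by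
    have h1 := le_lipC g x o
    have h2 : fn g o = 0 := (show lipSub o from g).2.1
    rw [h2, sub_zero, mul_comm] at h1
    exact h1

/-- closed linear span of the evaluations inside the dual of `Lip_0(M)` -/
noncomputable def freeSub (o : M) : Submodule ℂ (StrongDual ℂ (Lip0 o)) :=
  (Submodule.span ℂ (Set.range (dl o))).topologicalClosure

/-- the Lipschitz-free space -/
def Free (o : M) : Type := freeSub o

noncomputable instance (o : M) : NormedAddCommGroup (Free o) :=
  (freeSub o).normedAddCommGroup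

noncomputable instance (o : M) : NormedSpace ℂ (Free o) :=
  (freeSub o).normedSpace

/-- evaluation at a point, as an element of the free space -/
noncomputable def dF (o x : M) : Free o :=
  (⟨dl o x, Submodule.le_topologicalClosure _ (Submodule.subset_span ⟨x, rfl⟩)⟩ : freeSub o)

end Pool.Agent.H2.Lf
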