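import Pool.Agent.H2.GsD

set_option autoImplicit false

namespace Pool.Agent.H2.Lj

open Filter Topology Pool.Agent.H2.Sm Pool.Agent.H2.Gs
open scoped Classical

/-- Every point is replaced by a decreasing sequence of copies. -/
def P (O : Type*) := O × ℕ

variable {O : Type*} [LinearOrder O]

instance : LinearOrder (P O) := inferInstanceAs (LinearOrder (O ×ₗ ℕᵒᵈ))

lemma lt_iff (x y : P O) : x < y ↔ x.1 < y.1 ∨ x.1 = y.1 ∧ y.2 < x.2 :=
  Prod.Lex.lt_iff (α := O) (β := ℕᵒᵈ) (x := x) (y := y)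

lemma fst_le {x y : P O} (h : x ≤ y) : x.1 ≤ y.1 := by
  by_contra hcon
  exact absurd ((lt_iff y x).mpr (Or.inl (not_le.mp hcon))) (not_lt.mpr h)

lemma lt_of_fst {x y : P O} (h : x.1 < y.1) : x < y := (lt_iff x y).mpr (Or.inl h)

def pt (z : O) (m : ℕ) : P O := (z, m)

lemma pt_le {a b : O} (h : a ≤ b) (m : ℕ) : pt a m ≤ pt b m := by
  rcases h.eq_or_lt with rfl | h
  · exact le_rfl
  · exact (lt_of_fst h).le

/-- A finite family of non-overlapping intervals. -/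
def Valid (A : Finset (P O × P O)) : Prop :=
  (∀ I ∈ A, I.1 < I.2) ∧ ∀ I ∈ A, ∀ I' ∈ A, I ≠ I' → I.2 ≤ I'.1 ∨ I'.2 ≤ I.1

lemma Valid.mono {A B : Finset (P O × P O)} (h : Valid A) (hB : B ⊆ A) : Valid B :=
  ⟨fun I hI => h.1 I (hB hI), fun I hI I' hI' => h.2 I (hB hI) I' (hB hI')⟩

lemma valid_empty : Valid (∅ : Finset (P O × P O)) := ⟨by simp, by simp⟩

lemma valid_single {x y : P O} (h : x < y) : Valid ({(x, y)} : Finset (P O × P O)) :=
  ⟨by simpa using h, by simp⟩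

noncomputable def ends (A : Finset (P O × P O)) : Finset (Bool × P O) :=
  A.image (fun I => (true, I.1)) ∪ A.image (fun I => (false, I.2))

lemma mem_ends {A : Finset (P O × P O)} {k : Bool × P O} (h : k ∈ ends A) :
    ∃ I ∈ A, k.2 = I.1 ∨ k.2 = I.2 := by
  rcases Finset.mem_union.mp h with h | h
  · obtain ⟨I, hI, rfl⟩ := Finset.mem_image.mp h
    exact ⟨I, hI, Or.inl rfl⟩
  · obtain ⟨I, hI, rfl⟩ := Finset.mem_image.mp h
    exact ⟨I, hI, Or.inr rfl⟩

lemma Valid.eq_of_snd {A : Finset (P O × P O)} (h : Valid A) {I I' : P O × P O} (hI : I ∈ A)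
    (hI' : I' ∈ A) (e : I.2 = I'.2) : I = I' := by
  by_contra hne
  rcases h.2 I hI I' hI' hne with h1 | h1
  · exact absurd (h.1 I' hI') (not_lt.mpr (e ▸ h1))
  · exact absurd (h.1 I hI) (not_lt.mpr (e ▸ h1))

lemma sum_ends {A : Finset (P O × P O)} (h : Valid A) (g : Bool × P O → ℝ) :
    ∑ I ∈ A, (g (true, I.1) + g (false, I.2)) = ∑ k ∈ ends A, g k := by
  unfold ends
  rw [Finset.sum_union, Finset.sum_image, Finset.sum_image, Finset.sum_add_distrib]
  · intro I hI I' hI' e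
    exact h.eq_of_snd hI hI' (Prod.ext_iff.mp e).2
  · intro I hI I' hI' e
    have e' : I.1 = I'.1 := (Prod.ext_iff.mp e).2
    by_contra hne
    rcases h.2 I hI I' hI' hne with h1 | h1
    · exact absurd (h.1 I hI) (not_lt.mpr (e' ▸ h1))
    · exact absurd (h.1 I' hI') (not_lt.mpr (e' ▸ h1))
  · rw [Finset.disjoint_left]
    intro k h1 h2
    obtain ⟨I, -, rfl⟩ := Finset.mem_image.mp h1
    obtain ⟨I', -, e⟩ := Finset.mem_image.mp h2
    exact Bool.false_ne_true (congrArg Prod.fst e)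

/-- The square variation is at most `K`. -/
def HK (f : O → ℝ) (K : ℝ) : Prop :=
  ∀ A : Finset (P O × P O), Valid A → ∑ I ∈ A, (f I.1.1 - f I.2.1) ^ 2 ≤ K

lemma HK.nonneg {f : O → ℝ} {K : ℝ} (h : HK f K) : 0 ≤ K := by simpa using h ∅ valid_empty

lemma HK.add {f g : O → ℝ} {K K' : ℝ} (h : HK f K) (h' : HK g K') :
    HK (f + g) (2 * K + 2 * K') := by
  intro A hA
  have h1 := h A hA
  have h2 := h' A hA
  refine le_trans (Finset.sum_le_sum (g := fun I => 2 * (f I.1.1 - f I.2.1) ^ 2 +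
    2 * (g I.1.1 - g I.2.1) ^ 2) fun I _ => ?_) ?_
  · simp only [Pi.add_apply]
    nlinarith [sq_nonneg (f I.1.1 - f I.2.1 - (g I.1.1 - g I.2.1))]
  · rw [Finset.sum_add_distrib, ← Finset.mul_sum, ← Finset.mul_sum]
    linarith

lemma HK.smul {f : O → ℝ} {K : ℝ} (h : HK f K) (a : ℝ) : HK (a • f) (a ^ 2 * K) := by
  intro A hA
  have h1 := mul_le_mul_of_nonneg_left (h A hA) (sq_nonneg a)
  rw [Finset.mul_sum] at h1
  refine le_trans (le_of_eq (Finset.sum_congr rfl fun I _ => ?_)) h1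
  simp only [Pi.smul_apply, smul_eq_mul]
  ring

noncomputable def u (m : ℕ) : ℝ := (1 / 2) ^ (2 ^ m)

lemma u_pos (m : ℕ) : 0 < u m := by unfold u; positivity

lemma u_le (m : ℕ) : u m ≤ (1 / 2) ^ (m + 1) :=
  pow_le_pow_of_le_one (by norm_num) (by norm_num) (Nat.lt_two_pow_self)

lemma u_le_one (m : ℕ) : u m ≤ 1 := pow_le_one₀ (by norm_num) (by norm_num)

lemma u_anti {m M : ℕ} (h : M ≤ m) : u m ≤ u M :=
  pow_le_pow_of_le_one (by norm_num) (by norm_num) (Nat.pow_le_pow_right (by norm_num) h)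

lemma u_succ (m : ℕ) : u (m + 1) = u m ^ 2 := by
  unfold u
  rw [← pow_mul, pow_succ]

lemma sum_u (s : Finset ℕ) : ∑ m ∈ s, u m ^ 2 ≤ 1 := by
  refine le_trans (Finset.sum_le_sum fun m _ => ?_)
    (sum_le_hasSum s (fun n _ => by positivity) hasSum_w)
  have := u_le m
  have := u_pos m
  have := u_le_one m
  nlinarith

variable [SuccOrder O] [OrderTop O]

noncomputable def jp (f : O → ℝ) (z : O) : ℝ := f z - f (Order.succ z)

lemma jp_sum {f : O → ℝ} {K : ℝ} (h : HK f K) (s : Finset O) : ∑ z ∈ s, jp f z ^ 2 ≤ K := by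
  have h1 := h ((s.filter fun z => z < ⊤).image fun z => (pt z 0, pt (Order.succ z) 0)) ⟨?_, ?_⟩
  · rw [Finset.sum_image] at h1
    · refine le_trans (le_of_eq ?_) h1
      refine (Finset.sum_subset (Finset.filter_subset _ _) fun z hz hz' => ?_).symm
      have : z = ⊤ := by
        by_contra h2
        exact hz' (Finset.mem_filter.mpr ⟨hz, lt_top_iff_ne_top.mpr h2⟩)
      simp [jp, this]
    · intro a _ b _ e
      exact congrArg (fun I : P O × P O => I.1.1) e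
  · intro I hI
    obtain ⟨z, hz, rfl⟩ := Finset.mem_image.mp hI
    exact lt_of_fst (Order.lt_succ_of_not_isMax (not_isMax_of_lt (Finset.mem_filter.mp hz).2))
  · intro I hI I' hI' hne
    obtain ⟨z, -, rfl⟩ := Finset.mem_image.mp hI
    obtain ⟨z', -, rfl⟩ := Finset.mem_image.mp hI'
    rcases lt_trichotomy z z' with h2 | h2 | h2
    · exact Or.inl (pt_le (Order.succ_le_of_lt h2) 0)
    · exact absurd (by rw [h2]) hne
    · exact Or.inr (pt_le (Order.succ_le_of_lt h2) 0)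

noncomputable def bl (z : O) (f g : O → ℝ) : ℝ :=
  if z = ⊤ then ∑' a, jp f a * jp g a else jp f z * jp g z

noncomputable def nn (z : O) (f : O → ℝ) : ℝ := bl z f f

lemma jp_summable {f : O → ℝ} {K : ℝ} (h : HK f K) : Summable fun a => jp f a * jp f a := by
  refine summable_of_sum_le (c := K) (fun a => mul_self_nonneg _) fun s => ?_
  simpa only [sq] using jp_sum h s

lemma nn_nonneg (z : O) (f : O → ℝ) : 0 ≤ nn z f := by
  unfold nn bl
  split_ifs
  exacts [tsum_nonneg fun a => mul_self_nonneg _, mul_self_nonneg _]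

lemma nn_add {f g : O → ℝ} {K K' : ℝ} (h : HK f K) (h' : HK g K') (z : O) (t : ℝ) :
    nn z (f + t • g) = nn z f + 2 * t * bl z f g + t ^ 2 * nn z g := by
  have e : ∀ a, jp (f + t • g) a * jp (f + t • g) a =
      jp f a * jp f a + 2 * t * (jp f a * jp g a) + t ^ 2 * (jp g a * jp g a) := by
    intro a
    simp only [jp, Pi.add_apply, Pi.smul_apply, smul_eq_mul]
    ring
  unfold nn bl
  split_ifs
  · have h1 : Summable fun a => jp f a * jp g a := by
      refine Summable.of_norm_bounded ((jp_summable h).add (jp_summable h')) fun a => ?_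
      rw [Real.norm_eq_abs, abs_le]
      constructor <;> nlinarith [sq_nonneg (jp f a + jp g a), sq_nonneg (jp f a - jp g a)]
    simp only [e]
    exact (((jp_summable h).hasSum.add (h1.hasSum.mul_left _)).add
      ((jp_summable h').hasSum.mul_left _)).tsum_eq
  · exact e z

lemma nn_smul (z : O) (f : O → ℝ) (t : ℝ) : nn z (t • f) = t ^ 2 * nn z f := by
  have e : ∀ a, jp (t • f) a * jp (t • f) a = t ^ 2 * (jp f a * jp f a) := by
    intro a
    simp only [jp, Pi.smul_apply, smul_eq_mul]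
    ring
  unfold nn bl
  split_ifs
  · simp only [e]
    exact tsum_mul_left
  · exact e z

lemma cone {f g : O → ℝ} {K K' : ℝ} (h : HK f K) (h' : HK g K') (z : O) {w b Y b' Y' : ℝ}
    (hw : 0 ≤ w) (hb : 0 ≤ b) (hY : 0 ≤ Y) (hb' : 0 ≤ b') (hY' : 0 ≤ Y')
    (h1 : w * nn z f ≤ b * Y) (h2 : w * nn z g ≤ b' * Y') :
    w * nn z (f + g) ≤ (b + b') * (Y + Y') := by
  have h3 := discrim_le_zero (a := nn z g) (b := 2 * bl z f g) (c := nn z f) fun t => by
    have := nn_nonneg z (f + t • g)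
    rw [nn_add h h'] at this
    nlinarith
  unfold discrim at h3
  have h4 := nn_add h h' z 1
  rw [one_smul] at h4
  have h5 := mul_le_mul h1 h2 (mul_nonneg hw (nn_nonneg _ _)) (mul_nonneg hb hY)
  have h6 : 2 * (w * bl z f g) ≤ b * Y' + b' * Y := by
    refine (abs_le_of_sq_le_sq' ?_ (by positivity)).2
    nlinarith [sq_nonneg (b * Y' - b' * Y), mul_le_mul_of_nonneg_left h3 (sq_nonneg w)]
  rw [h4]
  nlinarith

lemma sum_nn {f : O → ℝ} {K : ℝ} (h : HK f K) (s : Finset O) : ∑ z ∈ s, nn z f ≤ 2 * K := by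
  have h1 : nn ⊤ f ≤ K := by
    unfold nn bl
    rw [if_pos rfl]
    exact (jp_summable h).tsum_le_of_sum_le fun s => by simpa only [sq] using jp_sum h s
  have h2 : ∑ z ∈ s, nn z f ≤ ∑ z ∈ s, (jp f z ^ 2 + if z = ⊤ then K else 0) := by
    refine Finset.sum_le_sum fun z _ => ?_
    split_ifs with hz
    · rw [hz]
      nlinarith [sq_nonneg (jp f ⊤)]
    · unfold nn bl
      rw [if_neg hz, sq, add_zero]
  rw [Finset.sum_add_distrib, Finset.sum_ite_eq'] at h2
  have h3 := jp_sum h s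
  have h4 := h.nonneg
  split_ifs at h2 <;> linarith

def sg (σ : Bool) : ℝ := if σ then 1 else -1

noncomputable def H (f : O → ℝ) (b : Bool × P O → ℝ) (k : Bool × P O) : ℝ :=
  sg k.1 * f k.2.1 + u k.2.2 ^ 4 * b k

noncomputable def T (f : O → ℝ) (b : Bool × P O → ℝ) (I : P O × P O) : ℝ :=
  max (H f b (true, I.1) + H f b (false, I.2)) 0

omit [LinearOrder O] [SuccOrder O] [OrderTop O] in
lemma T_nonneg (f : O → ℝ) (b : Bool × P O → ℝ) (I : P O × P O) : 0 ≤ T f b I := le_max_right _ _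

omit [LinearOrder O] [SuccOrder O] [OrderTop O] in
lemma T_sq_le (f : O → ℝ) {b : Bool × P O → ℝ} (I : P O × P O) :
    T f b I ^ 2 ≤ 3 * ((f I.1.1 - f I.2.1) ^ 2 +
      ((u I.1.2 ^ 4 * b (true, I.1)) ^ 2 + (u I.2.2 ^ 4 * b (false, I.2)) ^ 2)) := by
  have h1 : T f b I ^ 2 ≤ (H f b (true, I.1) + H f b (false, I.2)) ^ 2 := by
    unfold T
    rcases le_total (H f b (true, I.1) + H f b (false, I.2)) 0 with h | h
    · rw [max_eq_right h]; nlinarith [sq_nonneg (H f b (true, I.1) + H f b (false, I.2))]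
    · rw [max_eq_left h]
  refine le_trans h1 ?_
  simp only [H, sg, if_true, Bool.false_eq_true, if_false]
  generalize u I.1.2 ^ 4 * b (true, I.1) = x
  generalize u I.2.2 ^ 4 * b (false, I.2) = y
  nlinarith [sq_nonneg (x - y), sq_nonneg (f I.1.1 - f I.2.1 - x), sq_nonneg (f I.1.1 - f I.2.1 - y)]

/-- Admissible bonus data of level `r`. -/
def Adm (f : O → ℝ) (r : ℝ) (b Y : Bool × P O → ℝ) : Prop :=
  (∀ k, 0 ≤ b k ∧ 0 ≤ Y k ∧ u k.2.2 ^ 2 * nn k.2.1 f ≤ b k * Y k) ∧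
    ∀ A, Valid A → ∀ s : Finset (Bool × P O),
      ∑ I ∈ A, T f b I ^ 2 + ∑ k ∈ s, (b k ^ 2 + Y k ^ 2) ≤ r ^ 2

lemma Adm.cost {f : O → ℝ} {r : ℝ} {b Y : Bool × P O → ℝ} (h : Adm f r b Y)
    (s : Finset (Bool × P O)) : ∑ k ∈ s, (b k ^ 2 + Y k ^ 2) ≤ r ^ 2 := by
  simpa using h.2 ∅ valid_empty s

lemma Adm.le {f : O → ℝ} {r : ℝ} {b Y : Bool × P O → ℝ} (h : Adm f r b Y) (hr : 0 ≤ r)
    (k : Bool × P O) : b k ≤ r ∧ Y k ≤ r := by
  have h1 := h.cost {k}
  rw [Finset.sum_singleton] at h1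
  exact ⟨(abs_le_of_sq_le_sq' (by nlinarith [sq_nonneg (Y k)]) hr).2,
    (abs_le_of_sq_le_sq' (by nlinarith [sq_nonneg (b k)]) hr).2⟩

lemma exists_adm {f : O → ℝ} {K : ℝ} (h : HK f K) : ∃ b Y, Adm f (5 * √K) b Y := by
  let b : Bool × P O → ℝ := fun k => u k.2.2 * √(nn k.2.1 f)
  have hb : ∀ k, b k ^ 2 = u k.2.2 ^ 2 * nn k.2.1 f := fun k => by
    rw [mul_pow, Real.sq_sqrt (nn_nonneg _ _)]
  have hs : ∀ s : Finset (Bool × P O), ∑ k ∈ s, b k ^ 2 ≤ 4 * K := by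
    intro s
    have h1 : s ⊆ Finset.univ ×ˢ ((s.image fun k => k.2.1) ×ˢ (s.image fun k => k.2.2) :
        Finset (O × ℕ)) := fun k hk => Finset.mem_product.mpr ⟨Finset.mem_univ _,
      Finset.mem_product.mpr ⟨Finset.mem_image_of_mem _ hk, Finset.mem_image_of_mem _ hk⟩⟩
    refine le_trans (Finset.sum_le_sum_of_subset_of_nonneg h1 fun _ _ _ => sq_nonneg _) ?_
    refine le_trans (le_of_eq (Finset.sum_product _ _ _)) ?_
    refine le_trans (Finset.sum_le_sum (g := fun _ => 2 * K) fun σ _ => ?_) (by simp; linarith)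
    refine le_trans (le_of_eq (Finset.sum_product _ _ _)) ?_
    refine le_trans (Finset.sum_le_sum fun z _ => ?_) (sum_nn h _)
    simp only [hb]
    rw [← Finset.sum_mul]
    exact mul_le_of_le_one_left (nn_nonneg _ _) (sum_u _)
  have hb0 : ∀ k, 0 ≤ b k := fun k => mul_nonneg (u_pos _).le (Real.sqrt_nonneg _)
  refine ⟨b, b, fun k => ⟨hb0 k, hb0 k, by rw [← hb, sq]⟩, fun A hA s => ?_⟩
  have h1 := Finset.sum_le_sum fun I (_ : I ∈ A) => T_sq_le f (b := b) I
  rw [← Finset.mul_sum, Finset.sum_add_distrib,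
    sum_ends hA fun k => (u k.2.2 ^ 4 * b k) ^ 2] at h1
  have h2 : ∑ k ∈ ends A, (u k.2.2 ^ 4 * b k) ^ 2 ≤ ∑ k ∈ ends A, b k ^ 2 :=
    Finset.sum_le_sum fun k _ => pow_le_pow_left₀ (mul_nonneg (pow_pos (u_pos _) _).le (hb0 k))
      (mul_le_of_le_one_left (hb0 k) (pow_le_one₀ (u_pos _).le (u_le_one _))) 2
  have h3 := hs (ends A)
  have h4 := hs s
  have h5 := h A hA
  have h6 := h.nonneg
  rw [Finset.sum_add_distrib, mul_pow, Real.sq_sqrt h6]
  linarith

noncomputable def q (f : O → ℝ) : ℝ := sInf {r | 0 ≤ r ∧ ∃ b Y, Adm f r b Y}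

lemma q_nonneg (f : O → ℝ) : 0 ≤ q f := Real.sInf_nonneg fun _ h => h.1

lemma q_le {f : O → ℝ} {r : ℝ} {b Y : Bool × P O → ℝ} (hr : 0 ≤ r) (h : Adm f r b Y) : q f ≤ r :=
  csInf_le ⟨0, fun _ h => h.1⟩ ⟨hr, b, Y, h⟩

lemma attain {f : O → ℝ} {K : ℝ} (h : HK f K) : ∃ b Y, Adm f (q f) b Y := by
  have h1 : ∀ n : ℕ, ∃ r, (0 ≤ r ∧ ∃ b Y, Adm f r b Y) ∧ r < q f + 1 / ((n:ℝ) + 1) := fun n =>
    exists_lt_of_csInf_lt ⟨5 * √K, by positivity, exists_adm h⟩ (lt_add_of_pos_right _ (by positivity))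
  choose r hr hr2 using h1
  choose hr0 b Y hA using hr
  let U : Ultrafilter ℕ := Filter.hyperfilter ℕ
  have hlim : ∀ g : ℕ → ℝ, (∀ n, 0 ≤ g n ∧ g n ≤ r n) → ∃ c, Tendsto g U (𝓝 c) := by
    intro g hg
    obtain ⟨c, -, hc⟩ := (isCompact_Icc (a := (0:ℝ)) (b := q f + 1)).ultrafilter_le_nhds (U.map g) (by
      rw [le_principal_iff, Ultrafilter.coe_map, mem_map]
      refine Eventually.of_forall fun n => ⟨(hg n).1, ?_⟩
      have := hr2 n
      have := (hg n).2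
      have : 1 / ((n:ℝ) + 1) ≤ 1 := by
        rw [div_le_one (by positivity)]
        linarith [Nat.cast_nonneg (α := ℝ) n]
      linarith)
    exact ⟨c, hc⟩
  choose b0 hb0 using fun k => hlim (fun n => b n k)
    fun n => ⟨((hA n).1 k).1, ((hA n).le (hr0 n) k).1⟩
  choose Y0 hY0 using fun k => hlim (fun n => Y n k)
    fun n => ⟨((hA n).1 k).2.1, ((hA n).le (hr0 n) k).2⟩
  refine ⟨b0, Y0, fun k => ⟨ge_of_tendsto' (hb0 k) fun n => ((hA n).1 k).1,
    ge_of_tendsto' (hY0 k) fun n => ((hA n).1 k).2.1,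
    ge_of_tendsto' ((hb0 k).mul (hY0 k)) fun n => ((hA n).1 k).2.2⟩, fun A hV s => ?_⟩
  have h2 := ((tendsto_inv_U U hyper_le).const_add (q f)).pow 2
  rw [add_zero] at h2
  refine le_of_tendsto_of_tendsto' (Tendsto.add (tendsto_finset_sum A fun I _ => Tendsto.pow ?_ 2)
    (tendsto_finset_sum s fun k _ => ((hb0 k).pow 2).add ((hY0 k).pow 2))) h2
    fun n => le_trans ((hA n).2 A hV s) (pow_le_pow_left₀ (hr0 n) (hr2 n).le 2)
  exact ((((hb0 _).const_mul _).const_add _).add (((hb0 _).const_mul _).const_add _)).max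
    tendsto_const_nhds

lemma sq_add_le {x y t : ℝ} (ht : 0 < t) : (x + y) ^ 2 ≤ (1 + t) * x ^ 2 + (1 + 1 / t) * y ^ 2 := by
  have h1 : (1 + t) * x ^ 2 + (1 + 1 / t) * y ^ 2 - (x + y) ^ 2 = (t * x - y) ^ 2 / t := by
    field_simp
    ring
  have h2 : 0 ≤ (t * x - y) ^ 2 / t := by positivity
  linarith

lemma q_add {f g : O → ℝ} {K K' : ℝ} (h : HK f K) (h' : HK g K') : q (f + g) ≤ q f + q g := by
  obtain ⟨b, Y, h1⟩ := attain h
  obtain ⟨b', Y', h2⟩ := attain h'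
  refine q_le (b := b + b') (Y := Y + Y') (add_nonneg (q_nonneg _) (q_nonneg _))
    ⟨fun k => ⟨add_nonneg (h1.1 k).1 (h2.1 k).1, add_nonneg (h1.1 k).2.1 (h2.1 k).2.1,
      cone h h' _ (sq_nonneg _) (h1.1 k).1 (h1.1 k).2.1 (h2.1 k).1 (h2.1 k).2.1
        (h1.1 k).2.2 (h2.1 k).2.2⟩, fun A hA s => ?_⟩
  refine sqrt_add_aux (q_nonneg _) (q_nonneg _) fun t ht => ?_
  have a1 := mul_le_mul_of_nonneg_left (h1.2 A hA s) (show 0 ≤ 1 + t by positivity)
  have a2 := mul_le_mul_of_nonneg_left (h2.2 A hA s) (show 0 ≤ 1 + 1 / t by positivity)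
  rw [mul_add, Finset.mul_sum, Finset.mul_sum] at a1 a2
  have a3 : ∑ I ∈ A, T (f + g) (b + b') I ^ 2 ≤
      ∑ I ∈ A, ((1 + t) * T f b I ^ 2 + (1 + 1 / t) * T g b' I ^ 2) := by
    refine Finset.sum_le_sum fun I _ => le_trans (pow_le_pow_left₀ (T_nonneg _ _ _) ?_ 2)
      (sq_add_le ht)
    refine max_le (le_trans (le_of_eq ?_) (add_le_add (le_max_left _ _) (le_max_left _ _)))
      (add_nonneg (T_nonneg _ _ _) (T_nonneg _ _ _))
    simp only [H, Pi.add_apply]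
    ring
  have a4 : ∑ k ∈ s, ((b + b') k ^ 2 + (Y + Y') k ^ 2) ≤
      ∑ k ∈ s, ((1 + t) * (b k ^ 2 + Y k ^ 2) + (1 + 1 / t) * (b' k ^ 2 + Y' k ^ 2)) := by
    refine Finset.sum_le_sum fun k _ => ?_
    have := sq_add_le (x := b k) (y := b' k) ht
    have := sq_add_le (x := Y k) (y := Y' k) ht
    simp only [Pi.add_apply]
    linarith
  rw [Finset.sum_add_distrib] at a3
  rw [Finset.sum_add_distrib (f := fun k => (1 + t) * (b k ^ 2 + Y k ^ 2))] at a4
  linarith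

lemma q_smul_le {f : O → ℝ} {K : ℝ} (h : HK f K) {a : ℝ} (ha : 0 ≤ a) : q (a • f) ≤ a * q f := by
  obtain ⟨b, Y, h1⟩ := attain h
  refine q_le (b := a • b) (Y := a • Y) (mul_nonneg ha (q_nonneg _))
    ⟨fun k => ⟨mul_nonneg ha (h1.1 k).1, mul_nonneg ha (h1.1 k).2.1, ?_⟩, fun A hA s => ?_⟩
  · have := mul_le_mul_of_nonneg_left (h1.1 k).2.2 (sq_nonneg a)
    rw [nn_smul]
    simp only [Pi.smul_apply, smul_eq_mul]
    linarith
  · have a1 := mul_le_mul_of_nonneg_left (h1.2 A hA s) (sq_nonneg a)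
    rw [mul_add, Finset.mul_sum, Finset.mul_sum, ← mul_pow] at a1
    refine le_trans (le_of_eq ?_) a1
    congr 1
    · refine Finset.sum_congr rfl fun I _ => ?_
      rw [← mul_pow]
      unfold T
      rw [mul_max_of_nonneg _ _ ha, mul_zero]
      congr 2
      simp only [H, Pi.smul_apply, smul_eq_mul]
      ring
    · refine Finset.sum_congr rfl fun k _ => ?_
      simp only [Pi.smul_apply, smul_eq_mul]
      ring

lemma q_smul {f : O → ℝ} {K : ℝ} (h : HK f K) {a : ℝ} (ha : 0 ≤ a) : q (a • f) = a * q f := by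
  refine le_antisymm (q_smul_le h ha) ?_
  rcases ha.eq_or_lt with rfl | ha'
  · rw [zero_mul]; exact q_nonneg _
  · have := q_smul_le (h.smul a) (inv_pos.mpr ha').le
    rwa [smul_smul, inv_mul_cancel₀ ha'.ne', one_smul, le_inv_mul_iff₀ ha'] at this

lemma var_le {f : O → ℝ} {K : ℝ} (h : HK f K) : HK f ((q f + q (-f)) ^ 2) := by
  intro A hA
  obtain ⟨b, Y, h1⟩ := attain h
  have h' := h.smul (-1)
  rw [neg_smul, one_smul] at h'
  obtain ⟨b', Y', h2⟩ := attain h'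
  have a1 := h1.2 A hA ∅
  have a2 := h2.2 A hA ∅
  rw [Finset.sum_empty, add_zero] at a1 a2
  have a3 : ∑ I ∈ A, (f I.1.1 - f I.2.1) ^ 2 ≤ ∑ I ∈ A, (T f b I ^ 2 + T (-f) b' I ^ 2) := by
    refine Finset.sum_le_sum fun I _ => ?_
    have c0 : ∀ (c : Bool × P O → ℝ) (k : Bool × P O), 0 ≤ c k → 0 ≤ u k.2.2 ^ 4 * c k :=
      fun c k hc => mul_nonneg (pow_pos (u_pos _) _).le hc
    have c1 : f I.1.1 - f I.2.1 ≤ T f b I := by
      refine le_trans ?_ (le_max_left _ _)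
      have := c0 b (true, I.1) (h1.1 _).1
      have := c0 b (false, I.2) (h1.1 _).1
      simp only [H, sg, if_true, Bool.false_eq_true, if_false] at *
      linarith
    have c2 : -(f I.1.1 - f I.2.1) ≤ T (-f) b' I := by
      refine le_trans ?_ (le_max_left _ _)
      have := c0 b' (true, I.1) (h2.1 _).1
      have := c0 b' (false, I.2) (h2.1 _).1
      simp only [H, sg, if_true, Bool.false_eq_true, if_false, Pi.neg_apply] at *
      linarith
    have c3 := T_nonneg f b I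
    have c4 := T_nonneg (-f) b' I
    rcases le_total 0 (f I.1.1 - f I.2.1) with c5 | c5 <;> nlinarith
  rw [Finset.sum_add_distrib] at a3
  nlinarith [mul_nonneg (q_nonneg f) (q_nonneg (-f))]

end Pool.Agent.H2.Lj
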