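import Pool.Agent.H2.LjA

set_option autoImplicit false

namespace Pool.Agent.H2.Lj

open Filter Topology Pool.Agent.H2.Sm Pool.Agent.H2.Gs
open scoped Classical

variable {O : Type*} [LinearOrder O]

def Wo (a : WithBot O) (g : P O) : Set (P O) := {x | a < (x.1 : WithBot O) ∧ x < g}

def Pc (f : O → ℝ) (b : Bool × P O → ℝ) (a : WithBot O) (g : P O) (lam : ℝ) : Prop :=
  ∃ ξ : ℝ, 0 < ξ ∧ (∀ x ∈ Wo a g, ∀ σ, H f b (σ, x) + ξ ≤ H f b (σ, g)) ∧
    ∀ A : Finset (P O × P O), Valid A → (∀ I ∈ A, a < ((I.1.1 : O) : WithBot O) ∧ I.2 ≤ g) →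
      ∑ I ∈ A, T f b I ^ 2 ≤ lam ^ 2 ∧ ∑ I ∈ A, T f b I ^ 2 ≤ lam * ξ

def In (a : WithBot O) (g : P O) (I : P O × P O) : Prop := I.1 ∈ Wo a g ∧ I.2 ∈ Wo a g

def Cr (a : WithBot O) (g : P O) (I : P O × P O) : Prop :=
  (I.1 ∈ Wo a g ∨ I.2 ∈ Wo a g) ∧ ¬ In a g I

lemma sum_le_of_sub {α : Type*} {s : Finset α} {g : α → ℝ} {c : ℝ} (hc : 0 ≤ c)
    (h1 : ∀ x ∈ s, ∀ y ∈ s, x = y) (h2 : ∀ x ∈ s, g x ≤ c) : ∑ x ∈ s, g x ≤ c := by
  rcases s.eq_empty_or_nonempty with rfl | ⟨x, hx⟩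
  · simpa using hc
  · rw [Finset.sum_eq_single_of_mem x hx fun y hy hne => absurd (h1 y hy x hx) hne]
    exact h2 x hx

lemma snap {f : O → ℝ} {b : Bool × P O → ℝ} {a : WithBot O} {g : P O} {lam S : ℝ}
    (hlam : 0 < lam) (h : Pc f b a g lam) (hS : ∀ A, Valid A → ∑ I ∈ A, T f b I ^ 2 ≤ S) :
    ∀ᶠ η in 𝓝[>] (0:ℝ), ∀ A, Valid A → S - η ≤ ∑ I ∈ A, T f b I ^ 2 →
      ∑ I ∈ A.filter (In a g), T f b I ^ 2 ≤ lam ^ 2 ∧
        ∑ I ∈ A.filter (Cr a g), T f b I ≤ 2 * lam := by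
  obtain ⟨ξ, hξ, h1, h2⟩ := h
  filter_upwards [Ioo_mem_nhdsGT (mul_pos hlam hξ)] with η hη A hA hAS
  refine ⟨(h2 _ (hA.mono (Finset.filter_subset _ _)) fun I hI => ?_).1, ?_⟩
  · have := (Finset.mem_filter.mp hI).2
    exact ⟨this.1.1, this.2.2.le⟩
  let π : P O → P O := fun x => if x ∈ Wo a g then g else x
  have hπ1 : ∀ x, x ≤ π x := by
    intro x
    simp only [π]
    split_ifs with hx
    exacts [hx.2.le, le_rfl]
  have hπ2 : ∀ x y, x ≤ y → π x ≤ π y := by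
    intro x y hxy
    simp only [π]
    split_ifs with hx hy hy
    · exact le_rfl
    · exact not_lt.mp fun h3 => hy ⟨lt_of_lt_of_le hx.1 (WithBot.coe_le_coe.mpr (fst_le hxy)), h3⟩
    · exact hxy.trans hy.2.le
    · exact hxy
  have hπ3 : ∀ σ x, H f b (σ, x) + (if x ∈ Wo a g then ξ else 0) ≤ H f b (σ, π x) := by
    intro σ x
    simp only [π]
    split_ifs with hx
    exacts [h1 x hx σ, by rw [add_zero]]
  let A1 := A.filter fun I => π I.1 < π I.2
  have b1 : ∑ I ∈ A1, T f b (π I.1, π I.2) ^ 2 ≤ S := by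
    refine le_trans (le_of_eq ?_) (hS (A1.image fun I => (π I.1, π I.2)) ⟨?_, ?_⟩)
    · rw [Finset.sum_image]
      intro I hI I' hI' e
      obtain ⟨c1, c2⟩ := Finset.mem_filter.mp hI
      obtain ⟨c3, c4⟩ := Finset.mem_filter.mp hI'
      obtain ⟨e1, e2⟩ := Prod.ext_iff.mp e
      dsimp only at e1 e2
      by_contra hne
      rcases hA.2 I c1 I' c3 hne with h3 | h3
      · exact absurd c2 (not_lt.mpr (e1 ▸ hπ2 _ _ h3))
      · exact absurd c4 (not_lt.mpr (e1 ▸ hπ2 _ _ h3))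
    · intro J hJ
      obtain ⟨I, hI, rfl⟩ := Finset.mem_image.mp hJ
      exact (Finset.mem_filter.mp hI).2
    · intro J hJ J' hJ' hne
      obtain ⟨I, hI, rfl⟩ := Finset.mem_image.mp hJ
      obtain ⟨I', hI', rfl⟩ := Finset.mem_image.mp hJ'
      exact (hA.2 I (Finset.mem_filter.mp hI).1 I' (Finset.mem_filter.mp hI').1
        fun e => hne (by rw [e])).imp (hπ2 _ _) (hπ2 _ _)
  have b0 : ∀ I ∈ A, ¬ π I.1 < π I.2 → I.1 ∈ Wo a g ∧ (I.2 ∈ Wo a g ∨ I.2 = g) := by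
    intro I hI h3
    have h4 : I.1 ∈ Wo a g := by
      by_contra h4
      refine h3 (lt_of_lt_of_le ?_ (hπ1 _))
      simp only [π, if_neg h4]
      exact hA.1 I hI
    refine ⟨h4, ?_⟩
    by_contra h5
    push Not at h5
    have h6 := hπ2 _ _ (hA.1 I hI).le
    simp only [π, if_pos h4, if_neg h5.1] at h3 h6
    exact h5.2 (le_antisymm (not_lt.mp h3) h6)
  have b2 := (h2 (A.filter fun I => ¬ π I.1 < π I.2) (hA.mono (Finset.filter_subset _ _))
    fun I hI => by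
      obtain ⟨c1, c2⟩ := Finset.mem_filter.mp hI
      obtain ⟨c3, c4⟩ := b0 I c1 c2
      exact ⟨c3.1, c4.elim (fun c => c.2.le) le_of_eq⟩).2
  have b3 : ∑ I ∈ A1, (T f b I ^ 2 + 2 * ξ * if Cr a g I then T f b I else 0)
      ≤ ∑ I ∈ A1, T f b (π I.1, π I.2) ^ 2 := by
    refine Finset.sum_le_sum fun I _ => ?_
    have c1 := hπ3 true I.1
    have c2 := hπ3 false I.2
    have c3 : H f b (true, π I.1) + H f b (false, π I.2) ≤ T f b (π I.1, π I.2) := le_max_left _ _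
    have c4 := T_nonneg f b (π I.1, π I.2)
    have c5 : ∀ x, 0 ≤ if x ∈ Wo a g then ξ else 0 := fun x => by split_ifs <;> linarith
    have c6 := c5 I.1
    have c7 := c5 I.2
    rcases le_total (H f b (true, I.1) + H f b (false, I.2)) 0 with c8 | c8
    · have : T f b I = 0 := max_eq_right c8
      rw [this]
      simpa using sq_nonneg _
    · have c9 : T f b I = H f b (true, I.1) + H f b (false, I.2) := max_eq_left c8
      split_ifs with hc
      · have : T f b I + ξ ≤ T f b (π I.1, π I.2) := by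
          rcases hc.1 with d | d
          · rw [if_pos d] at c1; linarith
          · rw [if_pos d] at c2; linarith
        nlinarith
      · have : T f b I ≤ T f b (π I.1, π I.2) := by linarith
        nlinarith
  rw [Finset.sum_add_distrib, ← Finset.mul_sum, ← Finset.sum_filter] at b3
  have b4 := Finset.sum_filter_add_sum_filter_not A (fun I => π I.1 < π I.2) fun I => T f b I ^ 2
  have b5 : ∑ I ∈ A1.filter (Cr a g), T f b I ≤ lam := by
    have : 2 * ξ * ∑ I ∈ A1.filter (Cr a g), T f b I ≤ 2 * ξ * lam := by linarith [hη.2]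
    exact le_of_mul_le_mul_left this (by positivity)
  have b6 : ∑ I ∈ (A.filter (Cr a g)).filter (fun I => ¬ π I.1 < π I.2), T f b I ≤ lam := by
    have c0 : ∀ I ∈ (A.filter (Cr a g)).filter (fun I => ¬ π I.1 < π I.2),
        I ∈ A ∧ I.1 ∈ Wo a g ∧ I.2 = g := by
      intro I hI
      obtain ⟨c1, c2⟩ := Finset.mem_filter.mp hI
      obtain ⟨c3, c4⟩ := Finset.mem_filter.mp c1
      obtain ⟨c5, c6⟩ := b0 I c3 c2
      exact ⟨c3, c5, c6.resolve_left fun c => c4.2 ⟨c5, c⟩⟩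
    refine sum_le_of_sub hlam.le (fun I hI I' hI' => hA.eq_of_snd (c0 I hI).1 (c0 I' hI').1
      ((c0 I hI).2.2.trans (c0 I' hI').2.2.symm)) fun I hI => ?_
    obtain ⟨c1, c2, c3⟩ := c0 I hI
    have := (h2 {I} (hA.mono (Finset.singleton_subset_iff.mpr c1)) (by
      simpa using ⟨c2.1, c3.le⟩)).1
    rw [Finset.sum_singleton] at this
    exact (abs_le_of_sq_le_sq' this hlam.le).2
  rw [← Finset.sum_filter_add_sum_filter_not (A.filter (Cr a g)) (fun I => π I.1 < π I.2),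
    Finset.filter_comm]
  linarith

lemma tail_small {α : Type*} {g : α → ℝ} (h0 : ∀ k, 0 ≤ g k) {c : ℝ}
    (h : ∀ s : Finset α, ∑ k ∈ s, g k ≤ c) {δ : ℝ} (hδ : 0 < δ) :
    ∃ F : Finset α, ∀ s, Disjoint s F → ∑ k ∈ s, g k ≤ δ := by
  obtain ⟨F, hF⟩ := (summable_of_sum_le h0 h).vanishing (gt_mem_nhds hδ)
  exact ⟨F, fun s hs => le_of_lt (hF s hs)⟩

variable [SuccOrder O] [OrderTop O] [WellFoundedLT O] [TopologicalSpace O] [OrderTopology O]

omit [OrderTop O] in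
lemma const {f : O → ℝ} (hf : Continuous f) {z γ : O} (h : ∀ y, z ≤ y → y < γ → jp f y = 0) :
    ∀ y, z ≤ y → y ≤ γ → f y = f z := by
  intro y
  induction y using WellFoundedLT.induction with
  | ind y ih =>
    intro h1 h2
    rcases h1.eq_or_lt with rfl | h3
    · rfl
    by_contra hne
    obtain ⟨l, hl, hsub⟩ := exists_Ioc_subset_of_mem_nhds
      ((isOpen_ne_fun hf continuous_const).mem_nhds hne) ⟨z, h3⟩
    have h4 : max l z < y := max_lt hl h3
    have h5 := ih _ h4 (le_max_right _ _) (h4.le.trans h2)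
    have h6 := h _ (le_max_right l z) (lt_of_lt_of_le h4 h2)
    have h7 : f (Order.succ (max l z)) ≠ f z := hsub ⟨lt_of_le_of_lt (le_max_left _ _)
      (Order.lt_succ_of_not_isMax (not_isMax_of_lt h4)), Order.succ_le_of_lt h4⟩
    unfold jp at h6
    exact h7 (by linarith)

omit [WellFoundedLT O] [TopologicalSpace O] [OrderTopology O] in
lemma jp_zero {f : O → ℝ} {z : O} (h : nn z f = 0) : jp f z = 0 := by
  by_cases hz : z = ⊤
  · simp [jp, hz]
  · unfold nn bl at h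
    rw [if_neg hz] at h
    exact mul_self_eq_zero.mp h

lemma nn_top {f : O → ℝ} {K : ℝ} (hK : HK f K) (hf : Continuous f) (h0 : f ⊤ = 0) (hne : f ≠ 0) :
    nn ⊤ f ≠ 0 := by
  intro h
  unfold nn bl at h
  rw [if_pos rfl] at h
  have h1 := (jp_summable hK).hasSum
  rw [h, hasSum_zero_iff_of_nonneg fun a => mul_self_nonneg _] at h1
  refine hne (funext fun y => ?_)
  have := const hf (z := y) (γ := ⊤) (fun a _ _ => mul_self_eq_zero.mp (congrFun h1 a)) ⊤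
    le_top le_rfl
  rw [← this, h0]
  rfl

omit [SuccOrder O] [OrderTop O] [WellFoundedLT O] in
lemma left_nbhd {f : O → ℝ} (hf : Continuous f) (x0 : O) (E : Finset O) {δ : ℝ} (hδ : 0 < δ)
    (D : O → Prop) (hD : ∀ a, a < x0 → ∃ y, a ≤ y ∧ y < x0 ∧ D y) :
    ∃ a : WithBot O, a < (x0 : WithBot O) ∧ (∀ a' : O, a = a' → D a') ∧
      (∀ p ∈ E, p < x0 → (p : WithBot O) ≤ a) ∧
      ∀ z : O, a < (z : WithBot O) → z ≤ x0 → |f z - f x0| ≤ δ := by
  by_cases h : ∃ l, l < x0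
  · obtain ⟨l, hl, hsub⟩ := exists_Ioc_subset_of_mem_nhds
      (hf.continuousAt.preimage_mem_nhds (Metric.closedBall_mem_nhds (f x0) hδ)) h
    obtain ⟨c, hc1, hc2⟩ := Finset.exists_max_image (insert l (E.filter (· < x0))) id
      (Finset.insert_nonempty _ _)
    have hc3 : c < x0 := by
      rcases Finset.mem_insert.mp hc1 with rfl | h1
      exacts [hl, (Finset.mem_filter.mp h1).2]
    obtain ⟨y, hy1, hy2, hy3⟩ := hD c hc3
    refine ⟨y, WithBot.coe_lt_coe.mpr hy2, fun a' e => WithBot.coe_inj.mp e ▸ hy3,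
      fun p hp hp' => WithBot.coe_le_coe.mpr (le_trans (hc2 p (Finset.mem_insert_of_mem
        (Finset.mem_filter.mpr ⟨hp, hp'⟩))) hy1), fun z hz hz' => ?_⟩
    exact hsub ⟨lt_of_le_of_lt (le_trans (hc2 l (Finset.mem_insert_self _ _)) hy1)
      (WithBot.coe_lt_coe.mp hz), hz'⟩
  · refine ⟨⊥, WithBot.bot_lt_coe _, fun a' e => absurd e WithBot.bot_ne_coe,
      fun p _ hp => absurd ⟨p, hp⟩ h, fun z _ hz => ?_⟩
    have : z = x0 := le_antisymm hz (not_lt.mp fun h1 => h ⟨z, h1⟩)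
    simpa [this] using hδ.le

lemma piece {f : O → ℝ} {K r : ℝ} {b Y : Bool × P O → ℝ} (hK : HK f K) (hf : Continuous f)
    (hA : Adm f r b Y) (hr : 0 < r) (hb : ∀ k, nn k.2.1 f = 0 → b k = 0) {γ : O}
    (hγ : nn γ f ≠ 0) {lam : ℝ} (hlam : 0 < lam) (F : Finset (Bool × P O)) :
    ∃ (a : WithBot O) (M : ℕ), a < (γ : WithBot O) ∧ (∀ a' : O, a = a' → nn a' f ≠ 0) ∧
      (∀ k ∈ F, nn k.2.1 f ≠ 0 → k.2 ∉ Wo a (pt γ M)) ∧ Pc f b a (pt γ M) lam := by
  have hn : 0 < nn γ f := lt_of_le_of_ne (nn_nonneg _ _) (Ne.symm hγ)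
  have hx0 : ∃ x0, x0 ≤ γ ∧ (∀ y, x0 ≤ y → y < γ → nn y f = 0) ∧
      ∀ a, a < x0 → ∃ y, a ≤ y ∧ y < x0 ∧ nn y f ≠ 0 := by
    obtain ⟨x0, h1, h2⟩ := wellFounded_lt.has_min
      {z | z ≤ γ ∧ ∀ y, z ≤ y → y < γ → nn y f = 0} ⟨γ, le_rfl, fun y h1 h2 => absurd h2 (not_lt.mpr h1)⟩
    refine ⟨x0, h1.1, h1.2, fun a ha => ?_⟩
    by_contra hcon
    push Not at hcon
    refine h2 a ⟨ha.le.trans h1.1, fun y h3 h4 => ?_⟩ ha
    rcases lt_or_ge y x0 with h5 | h5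
    exacts [hcon y h3 h5, h1.2 y h5 h4]
  obtain ⟨x0, hx1, hx2, hx3⟩ := hx0
  have hc := const hf (z := x0) (γ := γ) fun y h1 h2 => jp_zero (hx2 y h1 h2)
  have hu : Tendsto u atTop (𝓝 0) := squeeze_zero (fun m => (u_pos m).le) u_le
    ((tendsto_pow_atTop_nhds_zero_of_lt_one (by norm_num) (by norm_num)).comp
      (tendsto_add_atTop_nat 1))
  obtain ⟨M, hM1, hM2, hM3, hM4⟩ : ∃ M, (∀ k ∈ F, k.2.2 ≤ M) ∧ u M < nn γ f / (2 * r ^ 2) ∧
      u M < lam / (3 * r) ∧ u M < lam * nn γ f / (12 * r ^ 3) := by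
    obtain ⟨M, h1, h2, h3, h4⟩ := ((eventually_ge_atTop (F.sup fun k => k.2.2)).and
      ((hu.eventually (gt_mem_nhds (show 0 < nn γ f / (2 * r ^ 2) by positivity))).and
      ((hu.eventually (gt_mem_nhds (show 0 < lam / (3 * r) by positivity))).and
      (hu.eventually (gt_mem_nhds (show 0 < lam * nn γ f / (12 * r ^ 3) by positivity)))))).exists
    exact ⟨M, fun k hk => le_trans (Finset.le_sup (f := fun k : Bool × P O => k.2.2) hk) h1,
      h2, h3, h4⟩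
  have hu0 := u_pos M
  have hu1 := u_le_one M
  rw [lt_div_iff₀ (by positivity)] at hM2 hM3 hM4
  set ξ := u M ^ 6 * nn γ f / (2 * r) with hξ
  have hξ0 : 0 < ξ := by positivity
  obtain ⟨δ, hδ, hδ1, hδ2, hδ3, hδ4⟩ : ∃ δ : ℝ, 0 < δ ∧ δ ≤ 1 ∧ δ ≤ ξ / 2 ∧ δ ≤ lam ^ 2 / 18 ∧
      δ ≤ lam * ξ / 18 :=
    ⟨min 1 (min (ξ / 2) (min (lam ^ 2 / 18) (lam * ξ / 18))), by positivity, min_le_left _ _,
      (min_le_right _ _).trans (min_le_left _ _),
      (min_le_right _ _).trans ((min_le_right _ _).trans (min_le_left _ _)),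
      (min_le_right _ _).trans ((min_le_right _ _).trans (min_le_right _ _))⟩
  have hcost : ∀ s : Finset (Bool × P O), ∑ k ∈ s, b k ^ 2 ≤ r ^ 2 := fun s =>
    le_trans (Finset.sum_le_sum fun k _ => le_add_of_nonneg_right (sq_nonneg _)) (hA.cost s)
  obtain ⟨F1, hF1⟩ := tail_small (fun k => sq_nonneg (b k)) hcost (pow_pos hδ 2)
  obtain ⟨A0, hA0, hA1, hA2⟩ : ∃ A0, Valid A0 ∧ (∀ I ∈ A0, I.2.1 < x0) ∧ ∀ A, Valid A →
      (∀ I ∈ A, I.2.1 < x0) → ∑ I ∈ A, (f I.1.1 - f I.2.1) ^ 2 ≤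
        ∑ I ∈ A0, (f I.1.1 - f I.2.1) ^ 2 + δ := by
    let V : Set ℝ := {s | ∃ A, Valid A ∧ (∀ I ∈ A, I.2.1 < x0) ∧
      ∑ I ∈ A, (f I.1.1 - f I.2.1) ^ 2 = s}
    obtain ⟨_, ⟨A0, h1, h2, rfl⟩, h3⟩ := exists_lt_of_lt_csSup (s := V)
      ⟨_, ∅, valid_empty, by simp, rfl⟩ (show sSup V - δ < sSup V by linarith)
    refine ⟨A0, h1, h2, fun A h4 h5 => ?_⟩
    have : _ ≤ sSup V := le_csSup ⟨K, by rintro _ ⟨B, h6, -, rfl⟩; exact hK B h6⟩ ⟨A, h4, h5, rfl⟩
    linarith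
  obtain ⟨a, ha1, ha2, ha3, ha4⟩ := left_nbhd hf x0
    (((F ∪ F1).image fun k => k.2.1) ∪ A0.image fun I => I.2.1) hδ (fun y => nn y f ≠ 0) hx3
  have hfz : ∀ z : O, a < (z : WithBot O) → z ≤ γ → |f z - f γ| ≤ δ := by
    intro z h1 h2
    rw [hc γ hx1 le_rfl]
    rcases le_total z x0 with h3 | h3
    · exact ha4 z h1 h3
    · simpa [hc z h3 h2] using hδ.le
  have hout : ∀ k : Bool × P O, a < (k.2.1 : WithBot O) → k.2.1 < γ → k ∈ F ∪ F1 →
      nn k.2.1 f = 0 := by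
    intro k h1 h2 h3
    refine hx2 _ (not_lt.mp fun h4 => ?_) h2
    exact absurd h1 (not_lt.mpr (ha3 _ (Finset.mem_union_left _ (Finset.mem_image_of_mem _ h3)) h4))
  have htail : ∀ s : Finset (Bool × P O), (∀ k ∈ s, a < (k.2.1 : WithBot O) ∧ k.2.1 < γ) →
      ∑ k ∈ s, b k ^ 2 ≤ δ ^ 2 := by
    intro s hs
    refine le_trans (le_of_eq ?_) (hF1 (s \ F1) Finset.sdiff_disjoint)
    refine (Finset.sum_subset Finset.sdiff_subset fun k hk hk' => ?_).symm
    have : k ∈ F1 := by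
      by_contra h1
      exact hk' (Finset.mem_sdiff.mpr ⟨hk, h1⟩)
    rw [hb k (hout k (hs k hk).1 (hs k hk).2 (Finset.mem_union_right _ this))]
    norm_num
  have hu4 : ∀ k : Bool × P O, u k.2.2 ^ 4 * b k ≤ b k := fun k =>
    mul_le_of_le_one_left (hA.1 k).1 (pow_le_one₀ (u_pos _).le (u_le_one _))
  refine ⟨a, M, lt_of_lt_of_le ha1 (WithBot.coe_le_coe.mpr hx1), ha2, fun k hk h1 h2 => ?_,
    ξ, hξ0, fun x hx σ => ?_, fun A hV hin => ?_⟩
  · rcases (lt_iff _ _).mp h2.2 with h3 | h3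
    · exact h1 (hout k h2.1 h3 (Finset.mem_union_left _ hk))
    · exact absurd (hM1 k hk) (not_le.mpr h3.2)
  · have c1 : 2 * ξ ≤ u M ^ 4 * b (σ, pt γ M) := by
      have d1 : u M ^ 2 * nn γ f ≤ b (σ, pt γ M) * r := le_trans (hA.1 (σ, pt γ M)).2.2
        (mul_le_mul_of_nonneg_left (hA.le hr.le _).2 (hA.1 _).1)
      have d2 := mul_le_mul_of_nonneg_left d1 (pow_pos hu0 4).le
      rw [hξ, mul_div_assoc', div_le_iff₀ (by positivity)]
      linarith
    show sg σ * f x.1 + u x.2 ^ 4 * b (σ, x) + ξ ≤ sg σ * f γ + u M ^ 4 * b (σ, pt γ M)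
    rcases (lt_iff _ _).mp hx.2 with h3 | h3
    · have d1 := abs_le.mp (hfz x.1 hx.1 h3.le)
      have d2 := htail {(σ, x)} (by simpa using ⟨hx.1, h3⟩)
      rw [Finset.sum_singleton] at d2
      have d3 := (abs_le_of_sq_le_sq' d2 hδ.le).2
      have d4 := hu4 (σ, x)
      cases σ <;> simp only [sg, if_true, Bool.false_eq_true, if_false] at * <;>
        linarith [d1.1, d1.2]
    · have d1 : u x.2 ≤ u M ^ 2 := u_succ M ▸ u_anti h3.2
      have d2 := mul_le_mul (pow_le_pow_left₀ (u_pos _).le d1 4) (hA.le hr.le (σ, x)).1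
        (hA.1 _).1 (by positivity)
      have d3 : (u M ^ 2) ^ 4 * r ≤ ξ := by
        rw [hξ, le_div_iff₀ (by positivity)]
        have e1 : u M ^ 2 * (2 * r ^ 2) ≤ nn γ f := by nlinarith [sq_nonneg r]
        have := mul_le_mul_of_nonneg_left e1 (pow_pos hu0 6).le
        linarith
      have d4 : x.1 = γ := h3.1
      rw [d4]
      linarith
  · have c1 := Finset.sum_le_sum fun I (_ : I ∈ A) => T_sq_le f (b := b) I
    rw [← Finset.mul_sum, Finset.sum_add_distrib,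
      sum_ends hV fun k => (u k.2.2 ^ 4 * b k) ^ 2] at c1
    have c2 : ∑ I ∈ A, (f I.1.1 - f I.2.1) ^ 2 ≤ δ + δ ^ 2 := by
      rw [← Finset.sum_filter_add_sum_filter_not A (fun I => I.2.1 < x0)]
      refine add_le_add ?_ ?_
      · have d0 : ∀ I ∈ A0, ∀ I' ∈ A, I.2 < I'.1 := fun I hI I' hI' =>
          lt_of_fst (WithBot.coe_lt_coe.mp (lt_of_le_of_lt (ha3 _ (Finset.mem_union_right _
            (Finset.mem_image_of_mem _ hI)) (hA1 I hI)) (hin I' hI').1))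
        have d1 := hA2 (A0 ∪ A.filter fun I => I.2.1 < x0) ⟨?_, ?_⟩ ?_
        · rw [Finset.sum_union] at d1
          · linarith
          · rw [Finset.disjoint_left]
            intro I h1 h2
            exact lt_asymm (d0 I h1 I (Finset.mem_filter.mp h2).1) (hA0.1 I h1)
        · intro I hI
          rcases Finset.mem_union.mp hI with h1 | h1
          exacts [hA0.1 I h1, hV.1 I (Finset.mem_filter.mp h1).1]
        · intro I hI I' hI' hne
          rcases Finset.mem_union.mp hI with h1 | h1 <;> rcases Finset.mem_union.mp hI' with h2 | h2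
          exacts [hA0.2 I h1 I' h2 hne, Or.inl (d0 I h1 I' (Finset.mem_filter.mp h2).1).le,
            Or.inr (d0 I' h2 I (Finset.mem_filter.mp h1).1).le,
            hV.2 I (Finset.mem_filter.mp h1).1 I' (Finset.mem_filter.mp h2).1 hne]
        · intro I hI
          rcases Finset.mem_union.mp hI with h1 | h1
          exacts [hA1 I h1, (Finset.mem_filter.mp h1).2]
      · rw [← Finset.sum_filter_add_sum_filter_not _ (fun I => I.1.1 < x0),
          Finset.sum_eq_zero (s := Finset.filter (fun I : P O × P O => ¬ I.1.1 < x0) _), add_zero]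
        · refine sum_le_of_sub (sq_nonneg _) (fun I hI I' hI' => ?_) fun I hI => ?_
          · simp only [Finset.mem_filter, not_lt] at hI hI'
            by_contra hne
            rcases hV.2 I hI.1.1 I' hI'.1.1 hne with h1 | h1
            · exact absurd hI'.2 (not_lt.mpr (hI.1.2.trans (fst_le h1)))
            · exact absurd hI.2 (not_lt.mpr (hI'.1.2.trans (fst_le h1)))
          · simp only [Finset.mem_filter, not_lt] at hI
            rw [hc _ hI.1.2 (fst_le (hin I hI.1.1).2)]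
            exact sq_le_sq' (abs_le.mp (ha4 _ (hin I hI.1.1).1 hI.2.le)).1
              (abs_le.mp (ha4 _ (hin I hI.1.1).1 hI.2.le)).2
        · intro I hI
          simp only [Finset.mem_filter, not_lt] at hI
          have d1 : I.2.1 ≤ γ := fst_le (hin I hI.1.1).2
          rw [hc _ hI.1.2 d1, hc _ hI.2 ((fst_le (hV.1 I hI.1.1).le).trans d1)]
          norm_num
    have hend : ∀ k ∈ ends A, a < (k.2.1 : WithBot O) ∧ k.2 ≤ pt γ M := by
      intro k hk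
      obtain ⟨I, hI, h1 | h1⟩ := mem_ends hk <;> rw [h1]
      · exact ⟨(hin I hI).1, (hV.1 I hI).le.trans (hin I hI).2⟩
      · exact ⟨lt_of_lt_of_le (hin I hI).1 (WithBot.coe_le_coe.mpr (fst_le (hV.1 I hI).le)),
          (hin I hI).2⟩
    have c3 : ∑ k ∈ ends A, (u k.2.2 ^ 4 * b k) ^ 2 ≤ δ ^ 2 + u M ^ 8 * r ^ 2 := by
      rw [← Finset.sum_filter_add_sum_filter_not (ends A) (fun k => k.2.1 < γ)]
      refine add_le_add (le_trans (Finset.sum_le_sum fun k _ => pow_le_pow_left₀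
        (mul_nonneg (pow_pos (u_pos _) _).le (hA.1 k).1) (hu4 k) 2) (htail _ fun k hk =>
          ⟨(hend k (Finset.mem_filter.mp hk).1).1, (Finset.mem_filter.mp hk).2⟩)) ?_
      refine le_trans ?_ (mul_le_mul_of_nonneg_left (hcost
        ((ends A).filter fun k => ¬ k.2.1 < γ)) (pow_pos hu0 8).le)
      rw [Finset.mul_sum]
      refine Finset.sum_le_sum fun k hk => ?_
      obtain ⟨d1, d2⟩ := Finset.mem_filter.mp hk
      have d3 : M ≤ k.2.2 := by
        rcases (hend k d1).2.eq_or_lt with h1 | h1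
        · rw [h1]; exact le_rfl
        · exact (((lt_iff _ _).mp h1).resolve_left d2).2.le
      rw [mul_pow, ← pow_mul]
      exact mul_le_mul_of_nonneg_right (pow_le_pow_left₀ (u_pos _).le (u_anti d3) 8) (sq_nonneg _)
    have c4 : δ ^ 2 ≤ δ := by nlinarith
    have c5 : u M ^ 8 * r ^ 2 ≤ lam ^ 2 / 6 := by
      have d1 : u M ^ 8 ≤ u M ^ 2 := pow_le_pow_of_le_one hu0.le hu1 (by norm_num)
      have d2 := pow_le_pow_left₀ (by positivity) hM3.le 2
      nlinarith [mul_le_mul_of_nonneg_right d1 (sq_nonneg r), sq_nonneg lam]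
    have c6 : u M ^ 8 * r ^ 2 ≤ lam * ξ / 6 := by
      rw [hξ, mul_div_assoc', div_div, le_div_iff₀ (by positivity)]
      have d1 : u M ^ 2 * (12 * r ^ 3) ≤ lam * nn γ f := by
        have e1 : u M ^ 2 ≤ u M := by nlinarith
        have := mul_le_mul_of_nonneg_right e1 (show 0 ≤ 12 * r ^ 3 by positivity)
        linarith
      have := mul_le_mul_of_nonneg_left d1 (pow_pos hu0 6).le
      linarith
    constructor <;> linarith

omit [SuccOrder O] [OrderTop O] [TopologicalSpace O] [OrderTopology O] in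
lemma cover (D : O → Prop) (a : O → WithBot O) (h1 : ∀ γ, D γ → a γ < (γ : WithBot O))
    (h2 : ∀ γ, D γ → ∀ a' : O, a γ = a' → D a') (γ : O) : D γ → ∃ G : Finset O,
      (∀ c ∈ G, D c ∧ c ≤ γ) ∧ (∀ z, z ≤ γ → ∃ c ∈ G, a c < (z : WithBot O) ∧ z ≤ c) ∧
      ∀ c ∈ G, ∀ c' ∈ G, a c' < (c : WithBot O) → c ≤ c' → c = c' := by
  induction γ using WellFoundedLT.induction with
  | ind γ ih =>
    intro hγ
    rcases e : a γ with _ | a'
    · refine ⟨{γ}, by simpa using hγ, fun z hz => ⟨γ, by simp, ?_, hz⟩, by simp⟩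
      rw [e]
      exact WithBot.bot_lt_coe z
    · have e' : a γ = (a' : WithBot O) := e
      have h3 : a' < γ := WithBot.coe_lt_coe.mp (e' ▸ h1 γ hγ)
      obtain ⟨G, g1, g2, g3⟩ := ih a' h3 (h2 γ hγ a' e')
      refine ⟨insert γ G, fun c hc => ?_, fun z hz => ?_, fun c hc c' hc' d1 d2 => ?_⟩
      · rcases Finset.mem_insert.mp hc with rfl | hc
        exacts [⟨hγ, le_rfl⟩, ⟨(g1 c hc).1, (g1 c hc).2.trans h3.le⟩]
      · rcases le_or_gt z a' with h4 | h4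
        · obtain ⟨c, hc, h5⟩ := g2 z h4
          exact ⟨c, Finset.mem_insert_of_mem hc, h5⟩
        · exact ⟨γ, Finset.mem_insert_self _ _, e' ▸ WithBot.coe_lt_coe.mpr h4, hz⟩
      · rcases Finset.mem_insert.mp hc with e1 | e1 <;>
          rcases Finset.mem_insert.mp hc' with e2 | e2
        · rw [e1, e2]
        · exact absurd h3 (not_lt.mpr (e1 ▸ d2.trans (g1 _ e2).2))
        · rw [e2, e'] at d1
          exact absurd (WithBot.coe_lt_coe.mp d1) (not_lt.mpr (g1 c e1).2)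
        · exact g3 c e1 c' e2 d1 d2

lemma sum_filter_ex {α β : Type*} (A : Finset α) (G : Finset β) (p : β → α → Prop) {g : α → ℝ}
    (hg : ∀ x, 0 ≤ g x) :
    ∑ x ∈ A.filter (fun x => ∃ c ∈ G, p c x), g x ≤ ∑ c ∈ G, ∑ x ∈ A.filter (p c), g x := by
  simp only [Finset.sum_filter]
  rw [Finset.sum_comm]
  have h0 : ∀ x c, 0 ≤ if p c x then g x else 0 := fun x c => by
    split_ifs
    exacts [hg x, le_rfl]
  refine Finset.sum_le_sum fun x _ => ?_
  split_ifs with h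
  · obtain ⟨c, hc, h1⟩ := h
    have := Finset.single_le_sum (f := fun c => if p c x then g x else 0) (fun c _ => h0 x c) hc
    rwa [if_pos h1] at this
  · exact Finset.sum_nonneg fun c _ => h0 x c

theorem key {f : O → ℝ} {K r S : ℝ} {b Y : Bool × P O → ℝ} (hK : HK f K) (hf : Continuous f)
    (hA : Adm f r b Y) (hr : 0 < r) (hb : ∀ k, nn k.2.1 f = 0 → b k = 0 ∧ Y k = 0)
    (htop : nn ⊤ f ≠ 0) (hS : ∀ A, Valid A → ∑ I ∈ A, T f b I ^ 2 ≤ S) {ε : ℝ} (hε : 0 < ε) :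
    ∃ (Z : Finset (Bool × P O)) (η : ℝ), 0 < η ∧ (∀ k ∈ Z, nn k.2.1 f ≠ 0) ∧
      (∀ s, Disjoint s Z → ∑ k ∈ s, (b k ^ 2 + Y k ^ 2) ≤ ε ^ 2) ∧
      ∀ A, Valid A → S - η ≤ ∑ I ∈ A, T f b I ^ 2 → ∃ A1 A2, A1 ⊆ A ∧ A2 ⊆ A ∧
        (∀ I ∈ A, I ∉ A1 → I ∉ A2 → (true, I.1) ∈ Z ∧ (false, I.2) ∈ Z) ∧
        (∀ I ∈ A1, (true, I.1) ∉ Z ∧ (false, I.2) ∉ Z) ∧
        ∑ I ∈ A1, T f b I ^ 2 ≤ ε ^ 2 ∧ ∑ I ∈ A2, T f b I ≤ 2 * ε := by
  have hK0 := hK.nonneg
  obtain ⟨F, hF⟩ := tail_small (fun k => add_nonneg (sq_nonneg (b k)) (sq_nonneg (Y k))) hA.cost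
    (pow_pos hε 2)
  let lam : O → ℝ := fun γ => ε / (2 * K + 1) * nn γ f
  have hlam : ∀ γ, nn γ f ≠ 0 → 0 < lam γ := fun γ h =>
    mul_pos (by positivity) (lt_of_le_of_ne (nn_nonneg _ _) (Ne.symm h))
  have hlam0 : ∀ γ, 0 ≤ lam γ := fun γ => mul_nonneg (by positivity) (nn_nonneg _ _)
  have hlams : ∀ G : Finset O, ∑ γ ∈ G, lam γ ≤ ε := by
    intro G
    rw [← Finset.mul_sum, div_mul_eq_mul_div, div_le_iff₀ (by positivity)]
    exact mul_le_mul_of_nonneg_left (by linarith [sum_nn hK G]) hε.le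
  choose! a M p1 p2 p3 p4 using fun γ (h : nn γ f ≠ 0) =>
    piece hK hf hA hr (fun k hk => (hb k hk).1) h (hlam γ h) F
  obtain ⟨G, g1, g2, g3⟩ := cover (fun γ => nn γ f ≠ 0) a p1 p2 ⊤ htop
  let Z : Finset (Bool × P O) :=
    G.biUnion fun γ => Finset.univ ×ˢ ((Finset.range (M γ + 1)).image (pt γ))
  have hZ : ∀ k, k ∈ Z ↔ k.2.1 ∈ G ∧ k.2.2 ≤ M k.2.1 := by
    intro k
    simp only [Z, Finset.mem_biUnion, Finset.mem_product, Finset.mem_univ, true_and,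
      Finset.mem_image, Finset.mem_range, Nat.lt_succ_iff]
    constructor
    · rintro ⟨γ, h1, m, h2, h3⟩
      rw [← h3]
      exact ⟨h1, h2⟩
    · exact fun h => ⟨_, h.1, _, h.2, rfl⟩
  have hcov : ∀ k, k ∉ Z → ∃ γ ∈ G, k.2 ∈ Wo (a γ) (pt γ (M γ)) := by
    intro k hk
    obtain ⟨γ, h1, h2, h3⟩ := g2 k.2.1 le_top
    refine ⟨γ, h1, h2, (lt_iff _ _).mpr (h3.lt_or_eq.imp_right fun e => ⟨e, not_le.mp fun h4 => ?_⟩)⟩
    exact hk ((hZ k).mpr ⟨e ▸ h1, e ▸ h4⟩)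
  have hdis : ∀ k, ∀ γ ∈ G, k.2 ∈ Wo (a γ) (pt γ (M γ)) → k ∉ Z := by
    intro k γ h1 h2 h3
    obtain ⟨h4, h5⟩ := (hZ k).mp h3
    have e : k.2.1 = γ := g3 _ h4 γ h1 h2.1 (fst_le h2.2.le)
    rcases (lt_iff _ _).mp h2.2 with h6 | h6
    · exact absurd e h6.ne
    · exact absurd (e ▸ h5) (not_le.mpr h6.2)
  have hev := (Filter.eventually_all_finset G).mpr fun γ hγ =>
    snap (hlam γ (g1 γ hγ).1) (p4 γ (g1 γ hγ).1) hS
  obtain ⟨η, hη, hη0⟩ := (hev.and self_mem_nhdsWithin).exists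
  refine ⟨Z, η, hη0, fun k hk => (g1 _ ((hZ k).mp hk).1).1, fun s hs => ?_, fun A hV hAS =>
    ⟨A.filter fun I => ∃ γ ∈ G, In (a γ) (pt γ (M γ)) I,
      A.filter fun I => ∃ γ ∈ G, Cr (a γ) (pt γ (M γ)) I, Finset.filter_subset _ _,
      Finset.filter_subset _ _, fun I hI h1 h2 => ?_, fun I hI => ?_, ?_, ?_⟩⟩
  · refine le_trans (le_of_eq ?_) (hF (s \ F) Finset.sdiff_disjoint)
    refine (Finset.sum_subset Finset.sdiff_subset fun k hk hk' => ?_).symm
    have h1 : k ∈ F := by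
      by_contra h1
      exact hk' (Finset.mem_sdiff.mpr ⟨hk, h1⟩)
    obtain ⟨γ, h2, h3⟩ := hcov k (Finset.disjoint_left.mp hs hk)
    have h4 : nn k.2.1 f = 0 := by
      by_contra h4
      exact p3 γ (g1 γ h2).1 k h1 h4 h3
    rw [(hb k h4).1, (hb k h4).2]
    norm_num
  · have h3 : ∀ γ ∈ G, ¬ (I.1 ∈ Wo (a γ) (pt γ (M γ)) ∨ I.2 ∈ Wo (a γ) (pt γ (M γ))) :=
      fun γ hγ h => h2 (Finset.mem_filter.mpr ⟨hI, γ, hγ, h,
        fun h4 => h1 (Finset.mem_filter.mpr ⟨hI, γ, hγ, h4⟩)⟩)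
    constructor
    · by_contra h4
      obtain ⟨γ, h5, h6⟩ := hcov _ h4
      exact h3 γ h5 (Or.inl h6)
    · by_contra h4
      obtain ⟨γ, h5, h6⟩ := hcov _ h4
      exact h3 γ h5 (Or.inr h6)
  · obtain ⟨γ, h1, h2⟩ := (Finset.mem_filter.mp hI).2
    exact ⟨hdis _ γ h1 h2.1, hdis _ γ h1 h2.2⟩
  · refine le_trans (sum_filter_ex A G _ fun I => sq_nonneg _) ?_
    refine le_trans (Finset.sum_le_sum (g := fun γ => ε * lam γ) fun γ hγ =>
      le_trans (hη γ hγ A hV hAS).1 ?_) ?_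
    · have := hlams {γ}
      rw [Finset.sum_singleton] at this
      nlinarith [hlam0 γ]
    · rw [← Finset.mul_sum, sq]
      exact mul_le_mul_of_nonneg_left (hlams G) hε.le
  · refine le_trans (sum_filter_ex A G _ fun I => T_nonneg _ _ _) ?_
    refine le_trans (Finset.sum_le_sum fun γ hγ => (hη γ hγ A hV hAS).2) ?_
    rw [← Finset.mul_sum]
    linarith [hlams G]

end Pool.Agent.H2.Lj
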