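import Pool.Agent.H2.LjB

set_option autoImplicit false

namespace Pool.Agent.H2.Lj

open Filter Topology Pool.Agent.H2.Sm Pool.Agent.H2.Gs
open scoped Classical

variable {O : Type*} [LinearOrder O]

lemma amgm {x y ε : ℝ} (hε : 0 < ε) : 2 * x * y ≤ x ^ 2 / ε + ε * y ^ 2 := by
  have h1 : x ^ 2 / ε + ε * y ^ 2 - 2 * x * y = (x - ε * y) ^ 2 / ε := by
    field_simp
    ring
  have h2 : 0 ≤ (x - ε * y) ^ 2 / ε := by positivity
  linarith

lemma sym_small {φ : ℝ → ℝ} (h : DifferentiableAt ℝ φ 0) {ε : ℝ} (hε : 0 < ε) :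
    ∀ᶠ t in 𝓝 (0:ℝ), φ t + φ (-t) - 2 * φ 0 ≤ ε * |t| := by
  have h1 := h.hasDerivAt
  rw [hasDerivAt_iff_isLittleO_nhds_zero, Asymptotics.isLittleO_iff] at h1
  have h2 := h1 (show 0 < ε / 2 by positivity)
  have h3 : Tendsto (fun t : ℝ => -t) (𝓝 0) (𝓝 0) := by simpa using (continuous_neg.tendsto (0:ℝ))
  filter_upwards [h2, h3.eventually h2] with t a1 a2
  simp only [zero_add, smul_eq_mul, Real.norm_eq_abs, abs_neg] at a1 a2
  linarith [(abs_le.mp a1).2, (abs_le.mp a2).2]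

variable [SuccOrder O] [OrderTop O] [WellFoundedLT O] [TopologicalSpace O] [OrderTopology O]

theorem q_sym {f h : O → ℝ} {K K' : ℝ} (hK : HK f K) (hf : Continuous f) (h0 : f ⊤ = 0)
    (hne : f ≠ 0) (hK' : HK h K') (h0' : h ⊤ = 0) {ε' : ℝ} (hε' : 0 < ε') :
    ∀ᶠ t in 𝓝 (0:ℝ), q (f + t • h) + q (f + (-t) • h) - 2 * q f ≤ ε' * |t| := by
  have htop := nn_top hK hf h0 hne
  obtain ⟨b, Y, hA, hb⟩ : ∃ b Y, Adm f (q f) b Y ∧ ∀ k, nn k.2.1 f = 0 → b k = 0 ∧ Y k = 0 := by
    obtain ⟨b, Y, hA⟩ := attain hK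
    have e1 : ∀ (c : Bool × P O → ℝ) (k : Bool × P O), 0 ≤ c k →
        0 ≤ (if nn k.2.1 f = 0 then 0 else c k) ∧ (if nn k.2.1 f = 0 then 0 else c k) ≤ c k := by
      intro c k hc
      split_ifs
      exacts [⟨le_rfl, hc⟩, ⟨hc, le_rfl⟩]
    refine ⟨fun k => if nn k.2.1 f = 0 then 0 else b k, fun k => if nn k.2.1 f = 0 then 0 else Y k,
      ⟨fun k => ⟨(e1 b k (hA.1 k).1).1, (e1 Y k (hA.1 k).2.1).1, ?_⟩, fun A hV s =>
        le_trans (add_le_add (Finset.sum_le_sum fun I _ => ?_) (Finset.sum_le_sum fun k _ => ?_))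
          (hA.2 A hV s)⟩, fun k hk => by simp [hk]⟩
    · dsimp only
      split_ifs with hk
      exacts [by simp [hk], (hA.1 k).2.2]
    · refine pow_le_pow_left₀ (T_nonneg _ _ _) (max_le_max_right _ (add_le_add ?_ ?_)) 2
      · exact add_le_add_right (mul_le_mul_of_nonneg_left (e1 b _ (hA.1 _).1).2
          (pow_pos (u_pos _) _).le) _
      · exact add_le_add_right (mul_le_mul_of_nonneg_left (e1 b _ (hA.1 _).1).2
          (pow_pos (u_pos _) _).le) _
    · exact add_le_add (pow_le_pow_left₀ (e1 b k (hA.1 k).1).1 (e1 b k (hA.1 k).1).2 2)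
        (pow_le_pow_left₀ (e1 Y k (hA.1 k).2.1).1 (e1 Y k (hA.1 k).2.1).2 2)
  set r := q f with hrq
  have hbpos : ∀ k : Bool × P O, nn k.2.1 f ≠ 0 → 0 < b k := fun k hk => by
    have h1 := lt_of_lt_of_le (mul_pos (pow_pos (u_pos _) _)
      (lt_of_le_of_ne (nn_nonneg _ _) (Ne.symm hk))) (hA.1 k).2.2
    refine lt_of_le_of_ne (hA.1 k).1 fun e => ?_
    rw [← e, zero_mul] at h1
    exact lt_irrefl _ h1
  have hr : 0 < r := lt_of_lt_of_le (hbpos (true, pt ⊤ 0) htop) (hA.le (q_nonneg f) _).1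
  obtain ⟨b', Y', hA'⟩ := attain hK'
  set r' := q h with hrq'
  have hr' : 0 ≤ r' := q_nonneg h
  have hK0 := hK'.nonneg
  set c := √K' with hc
  have hc0 : 0 ≤ c := Real.sqrt_nonneg _
  have hhc : ∀ z, |h z| ≤ c := by
    intro z
    have h1 := hK' {(pt z 1, pt ⊤ 0)} (valid_single ((lt_iff _ _).mpr
      (le_top.lt_or_eq.imp_right fun e => ⟨e, Nat.zero_lt_one⟩)))
    rw [Finset.sum_singleton] at h1
    refine Real.abs_le_sqrt ?_
    simpa [pt, h0'] using h1
  let V : Set ℝ := {s | ∃ A, Valid A ∧ ∑ I ∈ A, T f b I ^ 2 = s}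
  have hS : ∀ A, Valid A → ∑ I ∈ A, T f b I ^ 2 ≤ sSup V := fun A hV =>
    le_csSup ⟨r ^ 2, by rintro _ ⟨B, hB, rfl⟩; simpa using hA.2 B hB ∅⟩ ⟨A, hV, rfl⟩
  have hS2 : ∀ s : Finset (Bool × P O), sSup V + ∑ k ∈ s, (b k ^ 2 + Y k ^ 2) ≤ r ^ 2 := by
    intro s
    rw [← le_sub_iff_add_le]
    refine csSup_le ⟨_, ∅, valid_empty, rfl⟩ ?_
    rintro _ ⟨B, hB, rfl⟩
    linarith [hA.2 B hB s]
  set S := sSup V
  have hS0 : 0 ≤ S := by simpa using hS ∅ valid_empty
  set Ce := 3 * (K' + r' ^ 2) with hCe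
  set C1 := 1 + Ce + 4 * (4 * c + 2 * r') + (1 + r' ^ 2) with hC1
  have hC1pos : 0 < C1 := by positivity
  set ε := ε' * r / (C1 + 2) with hε
  have hε0 : 0 < ε := by positivity
  obtain ⟨Z, η, hη, hZ1, hZ2, hZ3⟩ := key hK hf hA hr hb htop hS hε0
  set CE := 2 * Ce + 4 * c ^ 2 * Z.card with hCE
  have hCE0 : 0 ≤ CE := by positivity
  let bt : ℝ → Bool × P O → ℝ := fun t k => b k - t * (sg k.1 * h k.2.1 / u k.2.2 ^ 4)
  let yt : ℝ → Bool × P O → ℝ := fun t k =>
    u k.2.2 ^ 2 * (nn k.2.1 f + 2 * t * bl k.2.1 f h + t ^ 2 * nn k.2.1 h) / bt t k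
  let φ : ℝ → ℝ := fun t => ∑ k ∈ Z, (bt t k ^ 2 + yt t k ^ 2)
  have hb0 : ∀ k ∈ Z, 0 < b k := fun k hk => hbpos k (hZ1 k hk)
  have hφ : DifferentiableAt ℝ φ 0 := by
    refine DifferentiableAt.fun_sum fun k hk => ?_
    have h1 : bt 0 k ≠ 0 := by simpa [bt] using (hb0 k hk).ne'
    have h2 : DifferentiableAt ℝ (fun t => bt t k) 0 := by simp only [bt]; fun_prop
    refine (h2.pow 2).add (DifferentiableAt.pow (DifferentiableAt.div ?_ h2 h1) 2)
    fun_prop
  have hφ0 : φ 0 ≤ ∑ k ∈ Z, (b k ^ 2 + Y k ^ 2) := by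
    refine Finset.sum_le_sum fun k hk => ?_
    simp only [bt, yt, zero_mul, sub_zero, mul_zero, add_zero, ne_eq, OfNat.ofNat_ne_zero,
      not_false_eq_true, zero_pow]
    refine add_le_add_right (pow_le_pow_left₀ (div_nonneg (mul_nonneg (sq_nonneg _)
      (nn_nonneg _ _)) (hA.1 k).1) ?_ 2) _
    rw [div_le_iff₀ (hb0 k hk), mul_comm (Y k)]
    exact (hA.1 k).2.2
  have hev1 : ∀ᶠ t in 𝓝 (0:ℝ), ∀ k ∈ Z, 0 < bt t k := by
    rw [Filter.eventually_all_finset]
    intro k hk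
    have h2 : Continuous fun t => bt t k := by simp only [bt]; fun_prop
    exact (h2.tendsto 0).eventually (lt_mem_nhds (by simpa [bt] using hb0 k hk))
  have habs : Tendsto (fun t : ℝ => |t|) (𝓝 0) (𝓝 0) := by simpa using continuous_abs.tendsto (0:ℝ)
  have hev2 : ∀ᶠ t in 𝓝 (0:ℝ), |t| * (S + 2 * CE) < η ∧ |t| < 1 := by
    have h1 := habs.mul_const (S + 2 * CE)
    rw [zero_mul] at h1
    exact (h1.eventually (gt_mem_nhds hη)).and (habs.eventually (gt_mem_nhds one_pos))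
  -- the basic estimate
  let e : P O × P O → ℝ := fun I => |h I.1.1 - h I.2.1| + b' (true, I.1) + b' (false, I.2)
  let i : Bool × P O → ℝ := fun k => if k ∈ Z then 1 else 0
  let E : P O × P O → ℝ := fun I => e I + c * (i (true, I.1) + i (false, I.2))
  have hi : ∀ k, 0 ≤ i k ∧ i k ≤ 1 := fun k => by simp only [i]; split_ifs <;> norm_num
  have he0 : ∀ I, 0 ≤ e I := fun I =>
    add_nonneg (add_nonneg (abs_nonneg _) (hA'.1 _).1) (hA'.1 _).1
  have hE0 : ∀ I, 0 ≤ E I := fun I =>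
    add_nonneg (he0 I) (mul_nonneg hc0 (add_nonneg (hi _).1 (hi _).1))
  have hE1 : ∀ I, E I ≤ 4 * c + 2 * r' := by
    intro I
    have a1 := abs_sub (h I.1.1) (h I.2.1)
    have a2 := mul_le_mul_of_nonneg_left (add_le_add (hi (true, I.1)).2 (hi (false, I.2)).2) hc0
    have a3 := (hA'.le hr' (true, I.1)).1
    have a4 := (hA'.le hr' (false, I.2)).1
    have := hhc I.1.1
    have := hhc I.2.1
    simp only [E, e]
    linarith
  have hes : ∀ A, Valid A → ∑ I ∈ A, e I ^ 2 ≤ Ce := by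
    intro A hV
    have a1 : ∑ I ∈ A, e I ^ 2 ≤ ∑ I ∈ A, 3 * ((h I.1.1 - h I.2.1) ^ 2 +
        (b' (true, I.1) ^ 2 + b' (false, I.2) ^ 2)) := by
      refine Finset.sum_le_sum fun I _ => ?_
      rw [← sq_abs (h I.1.1 - h I.2.1)]
      simp only [e]
      generalize |h I.1.1 - h I.2.1| = x
      nlinarith [sq_nonneg (x - b' (true, I.1)), sq_nonneg (x - b' (false, I.2)),
        sq_nonneg (b' (true, I.1) - b' (false, I.2))]
    rw [← Finset.mul_sum, Finset.sum_add_distrib, sum_ends hV fun k => b' k ^ 2] at a1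
    have a2 : ∑ k ∈ ends A, b' k ^ 2 ≤ r' ^ 2 :=
      le_trans (Finset.sum_le_sum fun k _ => le_add_of_nonneg_right (sq_nonneg _)) (hA'.cost _)
    linarith [hK' A hV]
  have hEs : ∀ A, Valid A → ∑ I ∈ A, E I ^ 2 ≤ CE := by
    intro A hV
    have a1 : ∑ I ∈ A, E I ^ 2 ≤
        ∑ I ∈ A, (2 * e I ^ 2 + 4 * c ^ 2 * (i (true, I.1) + i (false, I.2))) := by
      refine Finset.sum_le_sum fun I _ => ?_
      have a2 : (i (true, I.1) + i (false, I.2)) ^ 2 ≤ 2 * (i (true, I.1) + i (false, I.2)) := by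
        nlinarith [hi (true, I.1), hi (false, I.2)]
      have a3 := mul_le_mul_of_nonneg_left a2 (sq_nonneg c)
      simp only [E]
      nlinarith [sq_nonneg (e I - c * (i (true, I.1) + i (false, I.2)))]
    rw [Finset.sum_add_distrib, ← Finset.mul_sum, ← Finset.mul_sum, sum_ends hV i] at a1
    have a2 : ∑ k ∈ ends A, i k ≤ Z.card := by
      simp only [i]
      rw [Finset.sum_boole]
      exact_mod_cast Finset.card_le_card fun k hk => (Finset.mem_filter.mp hk).2
    have a3 := mul_le_mul_of_nonneg_left a2 (show 0 ≤ 4 * c ^ 2 by positivity)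
    linarith [hes A hV]
  have main : ∀ t : ℝ, (∀ k ∈ Z, 0 < bt t k) → |t| * (S + 2 * CE) < η → |t| < 1 →
      q (f + t • h) ^ 2 ≤ r ^ 2 + (φ t - φ 0) + |t| * (ε * C1) + t ^ 2 * (CE + r' ^ 2) := by
    intro t ht1 ht2 ht3
    have ht0 := abs_nonneg t
    let B : Bool × P O → ℝ := fun k => if k ∈ Z then bt t k else b k + |t| * b' k
    let W : Bool × P O → ℝ := fun k => if k ∈ Z then yt t k else Y k + |t| * Y' k
    have hH : ∀ k, H (f + t • h) B k = H f b k +
        if k ∈ Z then 0 else t * (sg k.1 * h k.2.1) + |t| * (u k.2.2 ^ 4 * b' k) := by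
      intro k
      have := (u_pos k.2.2).ne'
      simp only [H, B, bt, Pi.add_apply, Pi.smul_apply, smul_eq_mul]
      split_ifs
      · field_simp
        ring
      · ring
    have hT : ∀ I, T (f + t • h) B I ≤ T f b I + |t| * E I := by
      intro I
      refine max_le ?_ (add_nonneg (T_nonneg _ _ _) (mul_nonneg ht0 (hE0 I)))
      have a1 : H f b (true, I.1) + H f b (false, I.2) ≤ T f b I := le_max_left _ _
      have a2 : ∀ k : Bool × P O, |t| * (u k.2.2 ^ 4 * b' k) ≤ |t| * b' k := fun k =>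
        mul_le_mul_of_nonneg_left (mul_le_of_le_one_left (hA'.1 k).1
          (pow_le_one₀ (u_pos _).le (u_le_one _))) ht0
      have a3 : ∀ x, t * x ≤ |t| * |x| := fun x => by rw [← abs_mul]; exact le_abs_self _
      have a4 := a2 (true, I.1)
      have a5 := a2 (false, I.2)
      have a6 := a3 (h I.1.1 - h I.2.1)
      have a7 := le_trans (a3 (h I.1.1)) (mul_le_mul_of_nonneg_left (hhc _) ht0)
      have a8 := a3 (-h I.2.1)
      rw [abs_neg] at a8
      have a9 := le_trans a8 (mul_le_mul_of_nonneg_left (hhc _) ht0)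
      have a10 := mul_nonneg ht0 (hA'.1 (true, I.1)).1
      have a11 := mul_nonneg ht0 (hA'.1 (false, I.2)).1
      have a12 := mul_nonneg ht0 (abs_nonneg (h I.1.1 - h I.2.1))
      have a13 := mul_nonneg ht0 hc0
      rw [hH, hH]
      simp only [E, e, i, sg, if_true, Bool.false_eq_true, if_false] at *
      split_ifs <;> nlinarith
    have hsum : ∀ A, Valid A → ∑ I ∈ A, T (f + t • h) B I ^ 2 ≤
        S + |t| * (ε * (1 + Ce + 4 * (4 * c + 2 * r'))) + t ^ 2 * CE := by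
      intro A hV
      have a0 : 0 ≤ |t| * (ε * (1 + Ce + 4 * (4 * c + 2 * r'))) := by positivity
      have a1 := mul_le_mul_of_nonneg_left (hEs A hV) (sq_nonneg t)
      have a2 := hS A hV
      rcases le_or_gt (S - η) (∑ I ∈ A, T f b I ^ 2) with h1 | h1
      · obtain ⟨A1, A2, s1, s2, g1, g2, g3, g4⟩ := hZ3 A hV h1
        have a3 : ∑ I ∈ A, T (f + t • h) B I ^ 2 ≤ ∑ I ∈ A, (T f b I ^ 2 + t ^ 2 * E I ^ 2 +
            |t| * ((if I ∈ A1 then T f b I ^ 2 / ε + ε * e I ^ 2 else 0) +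
              if I ∈ A2 then 2 * (4 * c + 2 * r') * T f b I else 0)) := by
          refine Finset.sum_le_sum fun I hI => ?_
          have b1 := pow_le_pow_left₀ (T_nonneg _ _ _) (hT I) 2
          have b2 := T_nonneg f b I
          rw [add_sq, mul_pow, sq_abs] at b1
          by_cases c1 : I ∈ A1
          · have b3 : E I = e I := by simp [E, i, (g2 I c1).1, (g2 I c1).2]
            have b4 : 0 ≤ if I ∈ A2 then 2 * (4 * c + 2 * r') * T f b I else 0 := by
              split_ifs <;> positivity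
            have b5 := mul_le_mul_of_nonneg_left (le_add_of_le_of_nonneg
              (amgm (x := T f b I) (y := e I) hε0) b4) ht0
            rw [if_pos c1]
            rw [b3] at b1 ⊢
            linarith
          · rw [if_neg c1, zero_add]
            by_cases c2 : I ∈ A2
            · rw [if_pos c2]
              have b5 := mul_le_mul_of_nonneg_left (hE1 I) (mul_nonneg ht0 b2)
              linarith
            · have b3 : T (f + t • h) B I = T f b I := by
                unfold T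
                rw [hH, hH, if_pos (g1 I hI c1 c2).1, if_pos (g1 I hI c1 c2).2, add_zero, add_zero]
              rw [if_neg c2, b3, mul_zero, add_zero]
              exact le_add_of_nonneg_right (by positivity)
        rw [Finset.sum_add_distrib, Finset.sum_add_distrib, ← Finset.mul_sum, ← Finset.mul_sum,
          Finset.sum_add_distrib, Finset.sum_ite_mem, Finset.sum_ite_mem,
          Finset.inter_eq_right.mpr s1, Finset.inter_eq_right.mpr s2, Finset.sum_add_distrib,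
          ← Finset.sum_div, ← Finset.mul_sum, ← Finset.mul_sum] at a3
        have a4 : (∑ I ∈ A1, T f b I ^ 2) / ε ≤ ε := by rw [div_le_iff₀ hε0]; linarith
        have a5 := mul_le_mul_of_nonneg_left (hes A1 (hV.mono s1)) hε0.le
        have a6 := mul_le_mul_of_nonneg_left g4 (show 0 ≤ 2 * (4 * c + 2 * r') by positivity)
        have a7 := mul_le_mul_of_nonneg_left (add_le_add (add_le_add a4 a5) a6) ht0
        linarith
      · have a3 : ∑ I ∈ A, T (f + t • h) B I ^ 2 ≤ ∑ I ∈ A, (T f b I ^ 2 + t ^ 2 * E I ^ 2 +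
            |t| * (T f b I ^ 2 + E I ^ 2)) := by
          refine Finset.sum_le_sum fun I hI => ?_
          have b1 := pow_le_pow_left₀ (T_nonneg _ _ _) (hT I) 2
          rw [add_sq, mul_pow, sq_abs] at b1
          nlinarith [mul_nonneg ht0 (sq_nonneg (T f b I - E I))]
        rw [Finset.sum_add_distrib, Finset.sum_add_distrib, ← Finset.mul_sum, ← Finset.mul_sum,
          Finset.sum_add_distrib] at a3
        have a4 := mul_le_mul_of_nonneg_left (add_le_add a2 (hEs A hV)) ht0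
        have a5 := mul_nonneg ht0 hCE0
        linarith
    have hcost : ∀ s : Finset (Bool × P O), S + ∑ k ∈ s, (B k ^ 2 + W k ^ 2) ≤
        r ^ 2 + (φ t - φ 0) + |t| * (ε * (1 + r' ^ 2)) + t ^ 2 * r' ^ 2 := by
      intro s
      have a1 : ∑ k ∈ s, (B k ^ 2 + W k ^ 2) ≤ ∑ k ∈ s \ Z ∪ Z, (B k ^ 2 + W k ^ 2) :=
        Finset.sum_le_sum_of_subset_of_nonneg (by rw [Finset.sdiff_union_self_eq_union]
                                                  exact Finset.subset_union_left)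
          fun _ _ _ => by positivity
      have a2 := hS2 (s \ Z ∪ Z)
      rw [Finset.sum_union Finset.sdiff_disjoint] at a1 a2
      have a3 : ∑ k ∈ Z, (B k ^ 2 + W k ^ 2) = φ t :=
        Finset.sum_congr rfl fun k hk => by simp only [B, W, if_pos hk]
      have a4 : ∑ k ∈ s \ Z, (B k ^ 2 + W k ^ 2) ≤ ∑ k ∈ s \ Z, ((b k ^ 2 + Y k ^ 2) +
          t ^ 2 * (b' k ^ 2 + Y' k ^ 2) +
          |t| * ((b k ^ 2 + Y k ^ 2) / ε + ε * (b' k ^ 2 + Y' k ^ 2))) := by
        refine Finset.sum_le_sum fun k hk => ?_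
        simp only [B, W, if_neg (Finset.mem_sdiff.mp hk).2]
        have b1 := mul_le_mul_of_nonneg_left (add_le_add (amgm (x := b k) (y := b' k) hε0)
          (amgm (x := Y k) (y := Y' k) hε0)) ht0
        rw [add_sq, add_sq, mul_pow, mul_pow, sq_abs, add_div]
        linarith
      rw [Finset.sum_add_distrib (f := fun k => (b k ^ 2 + Y k ^ 2) +
          t ^ 2 * (b' k ^ 2 + Y' k ^ 2)), Finset.sum_add_distrib (f := fun k => b k ^ 2 + Y k ^ 2),
        ← Finset.mul_sum, ← Finset.mul_sum,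
        Finset.sum_add_distrib (f := fun k => (b k ^ 2 + Y k ^ 2) / ε),
        ← Finset.sum_div, ← Finset.mul_sum] at a4
      have a5 : (∑ k ∈ s \ Z, (b k ^ 2 + Y k ^ 2)) / ε ≤ ε := by
        rw [div_le_iff₀ hε0]
        linarith [hZ2 (s \ Z) Finset.sdiff_disjoint]
      have a6 := hA'.cost (s \ Z)
      have a7 := mul_le_mul_of_nonneg_left (add_le_add a5
        (mul_le_mul_of_nonneg_left a6 hε0.le)) ht0
      have a8 := mul_le_mul_of_nonneg_left a6 (sq_nonneg t)
      linarith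
    have hbound : ∀ A, Valid A → ∀ s : Finset (Bool × P O),
        ∑ I ∈ A, T (f + t • h) B I ^ 2 + ∑ k ∈ s, (B k ^ 2 + W k ^ 2) ≤
          r ^ 2 + (φ t - φ 0) + |t| * (ε * C1) + t ^ 2 * (CE + r' ^ 2) := by
      intro A hV s
      have := hsum A hV
      have := hcost s
      rw [hC1]
      linarith
    have hR := hbound ∅ valid_empty ∅
    simp only [Finset.sum_empty, add_zero] at hR
    refine le_trans (pow_le_pow_left₀ (q_nonneg _) (q_le (b := B) (Y := W) (Real.sqrt_nonneg _)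
      ⟨fun k => ?_, fun A hV s => ?_⟩) 2) (Real.sq_sqrt hR).le
    · simp only [B, W]
      split_ifs with hk
      · have a1 := ht1 k hk
        simp only [yt]
        rw [← nn_add hK hK']
        refine ⟨a1.le, div_nonneg (mul_nonneg (sq_nonneg _) (nn_nonneg _ _)) a1.le, le_of_eq ?_⟩
        field_simp
      · refine ⟨add_nonneg (hA.1 k).1 (mul_nonneg ht0 (hA'.1 k).1),
          add_nonneg (hA.1 k).2.1 (mul_nonneg ht0 (hA'.1 k).2.1),
          cone hK (hK'.smul t) _ (sq_nonneg _) (hA.1 k).1 (hA.1 k).2.1 (mul_nonneg ht0 (hA'.1 k).1)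
            (mul_nonneg ht0 (hA'.1 k).2.1) (hA.1 k).2.2 ?_⟩
        have := mul_le_mul_of_nonneg_left (hA'.1 k).2.2 (sq_nonneg t)
        rw [nn_smul, mul_mul_mul_comm, ← sq, sq_abs]
        linarith
    · rw [Real.sq_sqrt hR]
      exact hbound A hV s
  have hneg : Tendsto (fun t : ℝ => -t) (𝓝 0) (𝓝 0) := by simpa using (continuous_neg.tendsto (0:ℝ))
  have hev3 : ∀ᶠ t in 𝓝 (0:ℝ), |t| * (CE + r' ^ 2) < ε := by
    have h1 := habs.mul_const (CE + r' ^ 2)
    rw [zero_mul] at h1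
    exact h1.eventually (gt_mem_nhds hε0)
  filter_upwards [hev1, hneg.eventually hev1, hev2, hev3, sym_small hφ hε0] with t a1 a2 a3 a4 a5
  have b1 := main t a1 a3.1 a3.2
  have b2 := main (-t) a2 (by rw [abs_neg]; exact a3.1) (by rw [abs_neg]; exact a3.2)
  rw [abs_neg, neg_sq] at b2
  have ht0 := abs_nonneg t
  have b3 := mul_le_mul_of_nonneg_left a4.le ht0
  rw [← mul_assoc, ← sq, sq_abs] at b3
  have b4 : ε * (C1 + 2) = ε' * r := by rw [hε]; field_simp
  have b5 : 2 * r * (q (f + t • h) + q (f + (-t) • h) - 2 * r) ≤ 2 * r * (ε' * |t|) := by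
    have b6 : |t| * (ε * (C1 + 2)) = |t| * (ε' * r) := by rw [b4]
    nlinarith [sq_nonneg (q (f + t • h) - r), sq_nonneg (q (f + (-t) • h) - r), mul_nonneg ht0 hε0.le]
  exact le_of_mul_le_mul_left b5 (by positivity)

lemma deriv_of_sym {φ : ℝ → ℝ} (hc : ConvexOn ℝ Set.univ φ)
    (h : ∀ ε > 0, ∀ᶠ t in 𝓝 (0:ℝ), φ t + φ (-t) - 2 * φ 0 ≤ ε * |t|) :
    ∃ d, Tendsto (fun t : ℝ => (φ t - φ 0) / t) (𝓝[≠] 0) (𝓝 d) := by
  refine cauchy_map_iff_exists_tendsto.mp (Metric.cauchy_iff.mpr ⟨inferInstance, fun ε hε => ?_⟩)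
  obtain ⟨δ, h1, hδ⟩ := (((h (ε / 2) (by positivity)).filter_mono
    (nhdsWithin_le_nhds (s := Set.Ioi 0))).and self_mem_nhdsWithin).exists
  have hδ0 : 0 < δ := hδ
  rw [abs_of_pos hδ0] at h1
  have hm : ∀ s t : ℝ, s ≠ 0 → t ≠ 0 → s ≤ t → (φ s - φ 0) / s ≤ (φ t - φ 0) / t := by
    intro s t hs ht hst
    simpa using hc.secant_mono (Set.mem_univ 0) (Set.mem_univ s) (Set.mem_univ t) hs ht hst
  refine ⟨Set.Icc ((φ (-δ) - φ 0) / (-δ)) ((φ δ - φ 0) / δ), ?_, fun x hx y hy => ?_⟩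
  · rw [mem_map]
    filter_upwards [nhdsWithin_le_nhds (Icc_mem_nhds (neg_lt_zero.mpr hδ0) hδ0),
      self_mem_nhdsWithin] with t ht ht0
    exact ⟨hm _ _ (neg_ne_zero.mpr hδ0.ne') ht0 ht.1, hm _ _ ht0 hδ0.ne' ht.2⟩
  · have h2 : (φ δ - φ 0) / δ - (φ (-δ) - φ 0) / (-δ) ≤ ε / 2 := by
      rw [div_neg, sub_neg_eq_add, ← add_div, div_le_iff₀ hδ0]
      linarith
    rw [Real.dist_eq, abs_lt]
    constructor <;> linarith [hx.1, hx.2, hy.1, hy.2]

noncomputable def pp (f : O → ℝ) : ℝ := q f + q (-f)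

omit [WellFoundedLT O] [TopologicalSpace O] [OrderTopology O] in
lemma pp_add {f g : O → ℝ} {K K' : ℝ} (h : HK f K) (h' : HK g K') : pp (f + g) ≤ pp f + pp g := by
  have h1 := q_add h h'
  have h2 := q_add (h.smul (-1)) (h'.smul (-1))
  simp only [neg_smul, one_smul] at h2
  unfold pp
  rw [neg_add]
  linarith

omit [WellFoundedLT O] [TopologicalSpace O] [OrderTopology O] in
lemma pp_smul {f : O → ℝ} {K : ℝ} (h : HK f K) (a : ℝ) : pp (a • f) = |a| * pp f := by
  have h' := h.smul (-1)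
  simp only [neg_smul, one_smul] at h'
  unfold pp
  rcases le_total 0 a with ha | ha
  · rw [← smul_neg, q_smul h ha, q_smul h' ha, abs_of_nonneg ha, mul_add]
  · have e : a • f = (-a) • (-f) := by simp
    rw [← neg_smul, e, q_smul h (neg_nonneg.mpr ha), q_smul h' (neg_nonneg.mpr ha),
      abs_of_nonpos ha]
    ring

omit [WellFoundedLT O] [TopologicalSpace O] [OrderTopology O] in
lemma pp_le {f : O → ℝ} {K : ℝ} (h : HK f K) : pp f ≤ 10 * √K := by
  have h' := h.smul (-1)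
  simp only [neg_smul, one_smul, even_two, Even.neg_pow, one_pow, one_mul] at h'
  obtain ⟨b, Y, h1⟩ := exists_adm h
  obtain ⟨b', Y', h2⟩ := exists_adm h'
  have := q_le (by positivity) h1
  have := q_le (by positivity) h2
  unfold pp
  linarith

theorem pp_deriv {f h : O → ℝ} {K K' : ℝ} (hK : HK f K) (hf : Continuous f) (h0 : f ⊤ = 0)
    (hne : f ≠ 0) (hK' : HK h K') (h0' : h ⊤ = 0) :
    ∃ d, Tendsto (fun t : ℝ => (pp (f + t • h) - pp f) / t) (𝓝[≠] 0) (𝓝 d) := by
  have := deriv_of_sym (φ := fun t => pp (f + t • h)) ⟨convex_univ, fun x _ y _ a b ha hb hab => ?_⟩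
    fun ε hε => ?_
  · simpa using this
  · have e : f + (a • x + b • y) • h = a • (f + x • h) + b • (f + y • h) := by
      rw [smul_add, smul_add, add_add_add_comm, ← add_smul, hab, one_smul, add_smul,
        smul_assoc, smul_assoc]
    have h1 := hK.add (hK'.smul x)
    have h2 := hK.add (hK'.smul y)
    have h3 := pp_add (h1.smul a) (h2.smul b)
    rw [pp_smul h1, pp_smul h2, abs_of_nonneg ha, abs_of_nonneg hb] at h3
    simp only [e]
    exact h3
  · have h1 := hK.smul (-1)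
    have h2 := hK'.smul (-1)
    simp only [neg_smul, one_smul] at h1 h2
    filter_upwards [q_sym hK hf h0 hne hK' h0' (half_pos hε), q_sym h1 hf.neg (by simp [h0])
      (neg_ne_zero.mpr hne) h2 (by simp [h0']) (half_pos hε)] with t a1 a2
    simp only [pp, zero_smul, add_zero, neg_add, ← smul_neg]
    linarith

omit [SuccOrder O] [OrderTop O] [WellFoundedLT O] [TopologicalSpace O] [OrderTopology O]

def VV (f : O → ℝ) : Set ℝ := {s : ℝ | ∃ n : ℕ, ∃ α : Fin (n + 1) → O,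
  StrictMono α ∧ s = ∑ i : Fin n, (f (α i.succ) - f (α i.castSucc)) ^ 2}

lemma HK.le_of_VV {f : O → ℝ} {K : ℝ} (h : HK f K) {s : ℝ} (hs : s ∈ VV f) : s ≤ K := by
  obtain ⟨n, α, hα, rfl⟩ := hs
  have h1 := h (Finset.univ.image fun i : Fin n => (pt (α i.castSucc) 0, pt (α i.succ) 0)) ⟨?_, ?_⟩
  · rw [Finset.sum_image] at h1
    · refine le_trans (le_of_eq (Finset.sum_congr rfl fun i _ => ?_)) h1
      simp only [pt]
      ring
    · intro i _ j _ e
      exact Fin.castSucc_injective _ (hα.injective (congrArg (fun I : P O × P O => I.1.1) e))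
  · intro I hI
    obtain ⟨i, -, rfl⟩ := Finset.mem_image.mp hI
    exact lt_of_fst (hα Fin.castSucc_lt_succ)
  · intro I hI I' hI' hne
    obtain ⟨i, -, rfl⟩ := Finset.mem_image.mp hI
    obtain ⟨j, -, rfl⟩ := Finset.mem_image.mp hI'
    rcases lt_trichotomy i j with h2 | h2 | h2
    · exact Or.inl (pt_le (hα.monotone (Fin.succ_le_castSucc_iff.mpr h2)) 0)
    · exact absurd (by rw [h2]) hne
    · exact Or.inr (pt_le (hα.monotone (Fin.succ_le_castSucc_iff.mpr h2)) 0)

lemma hk_VV [OrderTop O] {f : O → ℝ} (hb : BddAbove (VV f)) : HK f (sSup (VV f)) := by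
  let Vz : O → Set ℝ := fun z => {s : ℝ | ∃ n : ℕ, ∃ α : Fin (n + 1) → O,
    StrictMono α ∧ α (Fin.last n) = z ∧ s = ∑ i : Fin n, (f (α i.succ) - f (α i.castSucc)) ^ 2}
  have hext : ∀ a c : O, a ≤ c → ∀ s ∈ Vz a, ∃ s' ∈ Vz c, s + (f a - f c) ^ 2 ≤ s' := by
    intro a c hac s hs
    rcases hac.eq_or_lt with rfl | hac
    · exact ⟨s, hs, by simp⟩
    obtain ⟨n, α, h1, rfl, rfl⟩ := hs
    refine ⟨_, ⟨n + 1, Fin.snoc α c, ?_, by simp, rfl⟩, le_of_eq ?_⟩
    · rw [Fin.strictMono_iff_lt_succ]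
      intro i
      refine Fin.lastCases ?_ (fun j => ?_) i
      · simpa using hac
      · rw [Fin.succ_castSucc, Fin.snoc_castSucc, Fin.snoc_castSucc]
        exact h1 Fin.castSucc_lt_succ
    · rw [Fin.sum_univ_castSucc]
      simp only [Fin.succ_castSucc, Fin.snoc_castSucc, Fin.succ_last, Fin.snoc_last]
      ring
  have key : ∀ A : Finset (P O × P O), Valid A → ∀ z, (∀ I ∈ A, I.2.1 ≤ z) →
      ∃ s ∈ Vz z, ∑ I ∈ A, (f I.1.1 - f I.2.1) ^ 2 ≤ s := by
    intro A
    induction A using Finset.induction_on_max_value (f := fun I : P O × P O => I.2) with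
    | empty =>
      exact fun _ z _ => ⟨0, ⟨0, fun _ => z, Fin.strictMono_iff_lt_succ.mpr fun i => i.elim0, rfl,
        by simp⟩, by simp⟩
    | insert I A hI hmax ih =>
      intro hV z hz
      obtain ⟨s, hs, h1⟩ := ih (hV.mono (Finset.subset_insert _ _)) I.1.1 fun J hJ => by
        rcases hV.2 J (Finset.mem_insert_of_mem hJ) I (Finset.mem_insert_self _ _)
          (fun e => hI (e ▸ hJ)) with h2 | h2
        · exact fst_le h2
        · exact absurd (hV.1 J (Finset.mem_insert_of_mem hJ)) (not_lt.mpr ((hmax J hJ).trans h2))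
      obtain ⟨s1, hs1, h2⟩ := hext _ _ (fst_le (hV.1 I (Finset.mem_insert_self _ _)).le) s hs
      obtain ⟨s2, hs2, h3⟩ := hext _ _ (hz I (Finset.mem_insert_self _ _)) s1 hs1
      refine ⟨s2, hs2, ?_⟩
      rw [Finset.sum_insert hI]
      linarith [sq_nonneg (f I.2.1 - f z)]
  intro A hA
  obtain ⟨s, ⟨n, α, h1, -, h2⟩, h3⟩ := key A hA ⊤ fun _ _ => le_top
  exact le_trans h3 (le_csSup hb ⟨n, α, h1, h2⟩)

end Pool.Agent.H2.Lj
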