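import Mathlib

namespace Pool.Agent.H2.Lmn

/-- L(m,n): partitions with at most m parts, each at most n, written as weakly decreasing
m-tuples with entries in {0,...,n}, with the componentwise order. -/
abbrev L (m n : ℕ) : Type := {f : Fin m → Fin (n + 1) // Antitone f}

open Classical in
/-- The real adjacency matrix of the Hasse diagram of L(m,n). -/
noncomputable def A (m n : ℕ) : Matrix (L m n) (L m n) ℝ :=
  Matrix.of fun a b => if a ⋖ b ∨ b ⋖ a then 1 else 0

end Pool.Agent.H2.Lmn
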