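import Mathlib
import Pool.Agent.H2.LmnDefs

namespace Pool.Agent.H2.Lmn

open Finset Matrix

variable {m n : ℕ}

def rel (a b : L m n) (i : Fin m) : Prop := ∀ j, (b.1 j : ℕ) = a.1 j + if j = i then 1 else 0

theorem exists_up (a : L m n) (i : Fin m) (h1 : (a.1 i : ℕ) < n) (h2 : ∀ j < i, a.1 i < a.1 j) :
    ∃ b, rel a b i := by
  refine ⟨⟨Function.update a.1 i ⟨a.1 i + 1, by omega⟩, fun j k hjk => ?_⟩, fun j => ?_⟩
  · by_cases hj : j = i <;> by_cases hk : k = i
    · simp [hj, hk]
    · subst hj
      have := a.2 hjk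
      simp only [Function.update_self, Function.update_of_ne hk, Fin.le_def] at this ⊢
      omega
    · subst hk
      have := h2 j (lt_of_le_of_ne hjk hj)
      simp only [Function.update_self, Function.update_of_ne hj, Fin.le_def, Fin.lt_def] at this ⊢
      omega
    · simpa [Function.update_of_ne hj, Function.update_of_ne hk] using a.2 hjk
  · by_cases hj : j = i
    · subst hj; simp
    · simp [Function.update_of_ne hj, hj]

theorem exists_down (a : L m n) (i : Fin m) (h1 : 0 < (a.1 i : ℕ)) (h2 : ∀ j, i < j → a.1 j < a.1 i) :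
    ∃ b, rel b a i := by
  refine ⟨⟨Function.update a.1 i ⟨a.1 i - 1, by omega⟩, fun j k hjk => ?_⟩, fun j => ?_⟩
  · by_cases hj : j = i <;> by_cases hk : k = i
    · simp [hj, hk]
    · subst hj
      have := h2 k (lt_of_le_of_ne hjk (Ne.symm hk))
      simp only [Function.update_self, Function.update_of_ne hk, Fin.le_def, Fin.lt_def] at this ⊢
      omega
    · subst hk
      have := a.2 hjk
      simp only [Function.update_self, Function.update_of_ne hj, Fin.le_def] at this ⊢
      omega
    · simpa [Function.update_of_ne hj, Function.update_of_ne hk] using a.2 hjk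
  · by_cases hj : j = i
    · subst hj; simp; omega
    · simp [Function.update_of_ne hj, hj]

theorem rel_lt {a b : L m n} {i : Fin m} (h : rel a b i) : a < b := by
  refine lt_of_le_of_ne (fun j => ?_) fun e => ?_
  · have := h j
    rw [Fin.le_def]; omega
  · have := h i
    simp [e] at this

theorem cov_iff (a b : L m n) : a ⋖ b ↔ ∃ i, rel a b i := by
  constructor
  · intro h
    have hle : ∀ j, a.1 j ≤ b.1 j := h.1.le
    have hne : (univ.filter fun j => a.1 j < b.1 j).Nonempty := by
      by_contra hc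
      refine h.1.ne (Subtype.ext (funext fun j => le_antisymm (hle j) (not_lt.1 fun hj => hc ?_)))
      exact ⟨j, by simpa using hj⟩
    set i := (univ.filter fun j => a.1 j < b.1 j).min' hne with hi
    have hi1 : a.1 i < b.1 i := (mem_filter.1 (min'_mem _ hne)).2
    have hi2 : ∀ j < i, a.1 i < a.1 j := by
      intro j hj
      have : ¬ a.1 j < b.1 j := fun hc => absurd (min'_le _ j (by simpa using hc)) (not_le.2 hj)
      exact hi1.trans_le ((b.2 hj.le).trans (not_lt.1 this))
    obtain ⟨c, hc⟩ := exists_up a i (by have := (b.1 i).2; rw [Fin.lt_def] at hi1; omega) hi2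
    have hcb : c ≤ b := fun j => by
      have := hc j
      have h3 := hle j
      rw [Fin.le_def] at h3 ⊢
      split_ifs at this with hj
      · subst hj; rw [Fin.lt_def] at hi1; omega
      · omega
    exact ⟨i, (hcb.eq_or_lt.resolve_right (h.2 (rel_lt hc))) ▸ hc⟩
  · rintro ⟨i, h⟩
    refine ⟨rel_lt h, fun c hac hcb => ?_⟩
    have h1 : ∀ j, a.1 j ≤ c.1 j := hac.le
    have h2 : ∀ j, c.1 j ≤ b.1 j := hcb.le
    by_cases hi : c.1 i = a.1 i
    · refine hac.ne (Subtype.ext (funext fun j => Fin.ext ?_))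
      have := h j; have h1 := h1 j; have h2 := h2 j
      rw [Fin.le_def] at h1 h2
      split_ifs at this with hj
      · subst hj; rw [hi]
      · omega
    · refine hcb.ne (Subtype.ext (funext fun j => Fin.ext ?_))
      have := h j; have h1 := h1 j; have h2 := h2 j
      rw [Fin.le_def] at h1 h2
      split_ifs at this with hj
      · subst hj; rw [Fin.ext_iff] at hi; omega
      · omega

open Classical in
theorem ind_cov (a b : L m n) :
    (if a ⋖ b then (1 : ℂ) else 0) = ∑ i, if rel a b i then 1 else 0 := by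
  split_ifs with h
  · obtain ⟨i, hi⟩ := (cov_iff a b).1 h
    rw [sum_eq_single i, if_pos hi]
    · intro j _ hj
      rw [if_neg]
      intro h2
      have e1 := hi j
      have e2 := h2 j
      simp [hj] at e1 e2
      omega
    · simp
  · exact (sum_eq_zero fun i _ => if_neg fun hi => h ((cov_iff a b).2 ⟨i, hi⟩)).symm

def pos (a : L m n) (i : Fin m) : ℕ := a.1 i + (m - i)

open Classical in
theorem sum_up (G : (Fin m → ℕ) → ℂ) (hG1 : ∀ t i j, i ≠ j → t i = t j → G t = 0)
    (hG2 : ∀ t i, t i = m + n + 1 → G t = 0) (a : L m n) (i : Fin m) :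
    ∑ b, (if rel a b i then (1 : ℂ) else 0) * G (pos b) =
      G (Function.update (pos a) i (pos a i + 1)) := by
  by_cases h : ∃ b, rel a b i
  · obtain ⟨b, hb⟩ := h
    rw [sum_eq_single b, if_pos hb, one_mul]
    · congr 1
      ext j
      have := hb j
      by_cases hj : j = i
      · subst hj; simp [pos] at this ⊢; omega
      · simp [pos, Function.update_of_ne hj, hj] at this ⊢; omega
    · intro c _ hc
      rw [if_neg, zero_mul]
      intro h2
      exact hc (Subtype.ext (funext fun j => Fin.ext ((h2 j).trans (hb j).symm)))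
    · simp
  · rw [sum_eq_zero fun b _ => by rw [if_neg fun hb => h ⟨b, hb⟩, zero_mul]]
    symm
    by_cases hi : (i : ℕ) = 0
    · refine hG2 _ i ?_
      have : ¬ (a.1 i : ℕ) < n := fun hc => h (exists_up a i hc fun j hj => by
        rw [Fin.lt_def] at hj; omega)
      have := (a.1 i).2
      simp [pos]; omega
    · have hi2 := i.2
      set j : Fin m := ⟨i - 1, by omega⟩ with hj
      have hji : j < i := by rw [Fin.lt_def]; simp [hj]; omega
      refine hG1 _ j i hji.ne ?_
      have h3 : a.1 i ≤ a.1 j := a.2 hji.le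
      have h4 : ¬ a.1 i < a.1 j := fun hc => h (exists_up a i (by
        have := (a.1 j).2; rw [Fin.lt_def] at hc; omega) fun k hk =>
          hc.trans_le (a.2 (by rw [Fin.le_def]; rw [Fin.lt_def] at hk; simp [hj]; omega)))
      rw [Function.update_of_ne hji.ne, Function.update_self]
      rw [Fin.le_def] at h3
      rw [Fin.lt_def] at h4
      simp only [pos, hj] at *
      omega

open Classical in
theorem sum_down (G : (Fin m → ℕ) → ℂ) (hG1 : ∀ t i j, i ≠ j → t i = t j → G t = 0)
    (hG2 : ∀ t i, t i = 0 → G t = 0) (a : L m n) (i : Fin m) :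
    ∑ b, (if rel b a i then (1 : ℂ) else 0) * G (pos b) =
      G (Function.update (pos a) i (pos a i - 1)) := by
  have hi2 := i.2
  by_cases h : ∃ b, rel b a i
  · obtain ⟨b, hb⟩ := h
    rw [sum_eq_single b, if_pos hb, one_mul]
    · congr 1
      ext j
      have := hb j
      by_cases hj : j = i
      · subst hj; simp [pos] at this ⊢; omega
      · simp [pos, Function.update_of_ne hj, hj] at this ⊢; omega
    · intro c _ hc
      rw [if_neg, zero_mul]
      intro h2
      refine hc (Subtype.ext (funext fun j => Fin.ext ?_))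
      have := h2 j; have := hb j; omega
    · simp
  · rw [sum_eq_zero fun b _ => by rw [if_neg fun hb => h ⟨b, hb⟩, zero_mul]]
    symm
    by_cases hi : (i : ℕ) + 1 = m
    · refine hG2 _ i ?_
      have : ¬ 0 < (a.1 i : ℕ) := fun hc => h (exists_down a i hc fun j hj => by
        have := j.2; rw [Fin.lt_def] at hj; omega)
      simp [pos]; omega
    · set j : Fin m := ⟨i + 1, by omega⟩ with hj
      have hji : i < j := by rw [Fin.lt_def]; simp [hj]
      refine hG1 _ j i hji.ne' ?_
      have h3 : a.1 j ≤ a.1 i := a.2 hji.le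
      have h4 : ¬ a.1 j < a.1 i := fun hc => h (exists_down a i (by
        rw [Fin.lt_def] at hc; omega) fun k hk =>
          lt_of_le_of_lt (a.2 (by rw [Fin.le_def]; rw [Fin.lt_def] at hk; simp [hj]; omega)) hc)
      rw [Function.update_of_ne hji.ne', Function.update_self]
      rw [Fin.le_def] at h3
      rw [Fin.lt_def] at h4
      simp only [pos, hj] at *
      omega

theorem sum_det_scale (B : Matrix (Fin m) (Fin m) ℂ) (c : Fin m → ℂ) :
    ∑ i, (B.updateRow i fun j => c j * B i j).det = (∑ j, c j) * B.det := by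
  simp only [det_apply']
  rw [sum_comm, mul_sum]
  refine sum_congr rfl fun σ _ => ?_
  rw [← mul_sum, mul_left_comm]
  congr 1
  rw [← Equiv.sum_comp σ, sum_mul]
  refine sum_congr rfl fun i _ => ?_
  rw [← mul_prod_erase _ _ (mem_univ i), ← mul_prod_erase _ (fun j => B (σ j) j) (mem_univ i),
    updateRow_self, mul_assoc]
  congr 2
  refine prod_congr rfl fun j hj => ?_
  rw [updateRow_ne (σ.injective.ne (ne_of_mem_erase hj))]

noncomputable def φ (ζ : ℂ) (s t : ℕ) : ℂ := ζ ^ (s * t) - ζ⁻¹ ^ (s * t)

noncomputable def c (ζ : ℂ) (s : ℕ) : ℂ := ζ ^ s + ζ⁻¹ ^ s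

theorem φ_rec {ζ : ℂ} (h : ζ ≠ 0) (s t : ℕ) (ht : 1 ≤ t) :
    φ ζ s (t + 1) + φ ζ s (t - 1) = c ζ s * φ ζ s t := by
  obtain ⟨t, rfl⟩ : ∃ u, t = u + 1 := ⟨t - 1, by omega⟩
  have e : ζ ^ s * ζ⁻¹ ^ s = 1 := by rw [← mul_pow, mul_inv_cancel₀ h, one_pow]
  simp only [φ, c, add_tsub_cancel_right, mul_add, mul_one, pow_add]
  linear_combination (ζ⁻¹ ^ (s * t) - ζ ^ (s * t)) * e

theorem pow_M {ζ : ℂ} {M : ℕ} (hM : 0 < M) (h : IsPrimitiveRoot ζ (2 * M)) : ζ ^ M = -1 :=
  (h.pow (by omega) (mul_comm _ _)).eq_neg_one_of_two_right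

theorem φ_M {ζ : ℂ} {M : ℕ} (hM : 0 < M) (h : IsPrimitiveRoot ζ (2 * M)) (s : ℕ) : φ ζ s M = 0 := by
  rw [φ, mul_comm, pow_mul, pow_mul, inv_pow, pow_M hM h]; simp

noncomputable def D (ζ : ℂ) (s t : Fin m → ℕ) : ℂ := (of fun i j => φ ζ (s j) (t i)).det

theorem hop {ζ : ℂ} (h : ζ ≠ 0) (s t : Fin m → ℕ) (ht : ∀ i, 1 ≤ t i) :
    ∑ i, (D ζ s (Function.update t i (t i + 1)) + D ζ s (Function.update t i (t i - 1))) =
      (∑ j, c ζ (s j)) * D ζ s t := by
  rw [D, ← sum_det_scale]
  refine sum_congr rfl fun i _ => ?_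
  have e : ∀ x, D ζ s (Function.update t i x) =
      ((of fun i j => φ ζ (s j) (t i)).updateRow i fun j => φ ζ (s j) x).det := by
    intro x
    unfold D
    congr 1
    ext k j
    by_cases hk : k = i
    · subst hk; simp
    · simp [updateRow_ne hk, Function.update_of_ne hk]
  rw [e, e, ← det_updateRow_add]
  congr 2
  ext j
  simp [φ_rec h _ _ (ht i)]

theorem eigen {ζ : ℂ} (h : IsPrimitiveRoot ζ (2 * (m + n + 1))) (s : Fin m → ℕ) (a : L m n) :
    ∑ b, ((A m n a b : ℝ) : ℂ) * D ζ s (pos b) = (∑ j, c ζ (s j)) * D ζ s (pos a) := by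
  classical
  have h0 : ζ ≠ 0 := h.ne_zero (by omega)
  have hG1 : ∀ (t : Fin m → ℕ) i j, i ≠ j → t i = t j → D ζ s t = 0 := fun t i j hij e =>
    det_zero_of_row_eq hij (by ext k; simp [e])
  have hG2 : ∀ (t : Fin m → ℕ) i, t i = m + n + 1 → D ζ s t = 0 := fun t i e =>
    det_eq_zero_of_row_eq_zero i fun k => by simp [e, φ_M (by omega) h]
  have hG3 : ∀ (t : Fin m → ℕ) i, t i = 0 → D ζ s t = 0 := fun t i e =>
    det_eq_zero_of_row_eq_zero i fun k => by simp [e, φ]
  have hA : ∀ b, ((A m n a b : ℝ) : ℂ) = (if a ⋖ b then 1 else 0) + (if b ⋖ a then 1 else 0) := by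
    intro b
    simp only [A, of_apply]
    by_cases h1 : a ⋖ b <;> by_cases h2 : b ⋖ a
    · exact absurd h1.1 h2.1.not_gt
    all_goals simp [h1, h2]
  rw [← hop h0 s (pos a) fun i => by have := i.2; unfold pos; omega]
  simp only [hA, ind_cov, add_mul, sum_mul, sum_add_distrib]
  rw [sum_comm, sum_comm (f := fun b i => (if rel b a i then (1 : ℂ) else 0) * D ζ s (pos b))]
  simp only [sum_up _ hG1 hG2, sum_down _ hG1 hG3]

theorem c_inj {ζ : ℂ} {M : ℕ} (h : IsPrimitiveRoot ζ (2 * M)) {s s' : ℕ} (h1 : 0 < s) (h2 : s < M)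
    (h3 : s' < M) (e : c ζ s = c ζ s') : s = s' := by
  have h0 : ζ ≠ 0 := h.ne_zero (by omega)
  have : (ζ ^ s - ζ ^ s') * (ζ ^ (s + s') - 1) = 0 := by
    have a := pow_ne_zero s h0
    have b := pow_ne_zero s' h0
    simp only [c, inv_pow] at e
    field_simp at e
    rw [pow_add]
    linear_combination e
  rcases mul_eq_zero.1 this with e | e
  · exact h.pow_inj (by omega) (by omega) (sub_eq_zero.1 e)
  · have := h.pow_inj (i := s + s') (j := 0) (by omega) (by omega) (by simpa using sub_eq_zero.1 e)
    omega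

theorem exists_inv {ζ : ℂ} {N : ℕ} (h : IsPrimitiveRoot ζ (2 * (N + 1))) :
    ∃ Ψ : Fin N → Fin N → ℂ, ∀ u t : Fin N,
      ∑ s, Ψ u s * φ ζ (s + 1) (t + 1) = if u = t then 1 else 0 := by
  have h0 : ζ ≠ 0 := h.ne_zero (by omega)
  set Φ : Matrix (Fin N) (Fin N) ℂ := of fun s t => φ ζ (s + 1) (t + 1) with hΦ
  have hd : Φ.det ≠ 0 := by
    intro hd
    obtain ⟨v, hv, hv0⟩ := exists_vecMul_eq_zero_iff.2 hd
    have key : ∀ k, ∀ t ≤ N + 1, ∑ s : Fin N, v s * c ζ (s + 1) ^ k * φ ζ (s + 1) t = 0 := by
      intro k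
      induction k with
      | zero =>
        intro t ht
        rcases Nat.eq_zero_or_pos t with rfl | h1
        · simp [φ]
        rcases ht.eq_or_lt with rfl | h2
        · simp [φ_M (by omega) h]
        have := congrFun hv0 ⟨t - 1, by omega⟩
        simpa [vecMul, dotProduct, hΦ, Nat.sub_add_cancel h1] using this
      | succ k ih =>
        intro t ht
        rcases Nat.eq_zero_or_pos t with rfl | h1
        · simp [φ]
        rcases ht.eq_or_lt with rfl | h2
        · simp [φ_M (by omega) h]
        have e1 := ih (t + 1) (by omega)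
        have e2 := ih (t - 1) (by omega)
        rw [← add_zero 0]
        nth_rewrite 1 [← e1]
        rw [← e2, ← sum_add_distrib]
        refine sum_congr rfl fun s _ => ?_
        rw [← mul_add, φ_rec h0 _ _ h1]; ring
    have := eq_zero_of_forall_pow_sum_mul_pow_eq_zero (f := fun s : Fin N => c ζ (s + 1))
      (v := fun s => v s * φ ζ (s + 1) 1) (fun s s' e => by
        have := c_inj h (by omega) (by omega) (by omega) e
        exact Fin.ext (by omega)) (fun k => by
        rw [← key k 1 (by omega)]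
        exact sum_congr rfl fun s _ => by ring)
    refine hv (funext fun s => ?_)
    refine (mul_eq_zero.1 (congrFun this s)).resolve_right fun e => ?_
    have a := pow_ne_zero (s + 1) h0
    simp only [φ, mul_one, inv_pow] at e
    field_simp at e
    have := h.pow_inj (i := (s + 1) * 2) (j := 0) (by omega) (by omega) (by
      rw [pow_mul, pow_zero]; linear_combination e)
    omega
  refine ⟨fun u s => (Φ⁻¹ : Matrix (Fin N) (Fin N) ℂ) u s, fun u t => ?_⟩
  have := congrFun (congrFun (nonsing_inv_mul Φ (Ne.isUnit hd)) u) t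
  simpa [mul_apply, one_apply, hΦ] using this

theorem gap {f : Fin m → ℕ} (hf : StrictMono f) (k : ℕ) :
    ∀ a b : Fin m, (b : ℕ) = a + k → f a + k ≤ f b := by
  induction k with
  | zero => intro a b h; rw [show b = a from Fin.ext h]; simp
  | succ k ih =>
    intro a b h
    have := b.2
    have h1 := ih a ⟨a + k, by omega⟩ rfl
    have h2 : f ⟨a + k, by omega⟩ < f b := hf (by rw [Fin.lt_def]; simp; omega)
    omega

theorem exists_sort (s : Fin m → ℕ) (hs : Function.Injective s) (h1 : ∀ j, 1 ≤ s j)
    (h2 : ∀ j, s j ≤ m + n) : ∃ (a : L m n) (σ : Equiv.Perm (Fin m)), s = pos a ∘ σ := by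
  have hm : StrictMono (s ∘ Tuple.sort s) :=
    (Tuple.monotone_sort s).strictMono_of_injective (hs.comp (Tuple.sort s).injective)
  set f := s ∘ Tuple.sort s with hf
  have lo : ∀ i : Fin m, (i : ℕ) + 1 ≤ f i := fun i => by
    have := gap hm i ⟨0, by have := i.2; omega⟩ i (by simp)
    have := h1 (Tuple.sort s ⟨0, by have := i.2; omega⟩)
    simp only [hf, Function.comp] at *
    omega
  have hi : ∀ i : Fin m, f i ≤ n + i + 1 := fun i => by
    have := i.2
    have := gap hm (m - 1 - i) i ⟨m - 1, by omega⟩ (by simp; omega)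
    have := h2 (Tuple.sort s ⟨m - 1, by omega⟩)
    simp only [hf, Function.comp] at *
    omega
  refine ⟨⟨fun i => ⟨f i.rev - (m - i), ?_⟩, fun i j hij => ?_⟩,
    (Tuple.sort s).symm.trans Fin.revPerm, ?_⟩
  · have := hi i.rev
    have := i.2
    simp only [Fin.val_rev] at *
    omega
  · have := gap hm (j - i) j.rev i.rev (by
      have := j.2; rw [Fin.le_def] at hij; simp only [Fin.val_rev]; omega)
    have := lo j.rev
    have := j.2
    rw [Fin.le_def] at hij ⊢
    simp only [Fin.val_rev] at *
    omega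
  · ext j
    have := lo ((Tuple.sort s).symm j)
    have := ((Tuple.sort s).symm j).2
    simp only [pos, Function.comp, Equiv.trans_apply, Fin.revPerm_apply, Fin.rev_rev, hf,
      Equiv.apply_symm_apply, Fin.val_rev] at *
    omega

theorem pos_anti (a : L m n) : StrictAnti (pos a) := fun i j hij => by
  have := a.2 hij.le
  have := j.2
  rw [Fin.le_def] at *
  rw [Fin.lt_def] at hij
  unfold pos
  omega

theorem pos_bd (a : L m n) (i : Fin m) : 1 ≤ pos a i ∧ pos a i ≤ m + n := by
  have := i.2
  have := (a.1 i).2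
  unfold pos
  omega

theorem V_ne {ζ : ℂ} (h : IsPrimitiveRoot ζ (2 * (m + n + 1))) :
    (of fun a b : L m n => D ζ (pos b) (pos a)).det ≠ 0 := by
  classical
  intro hd
  obtain ⟨w, hw, hw0⟩ := exists_vecMul_eq_zero_iff.2 hd
  obtain ⟨Ψ, hΨ⟩ := exists_inv h
  have hG : ∀ s : Fin m → Fin (m + n), ∑ a, w a * D ζ (fun j => s j + 1) (pos a) = 0 := by
    intro s
    by_cases hs : Function.Injective s
    · obtain ⟨b, σ, e⟩ := exists_sort (n := n) (fun j => (s j : ℕ) + 1)
        (fun i j e => hs (Fin.ext (by simpa using e))) (by simp) (fun j => (s j).2)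
      have := congrFun hw0 b
      simp only [vecMul, dotProduct, of_apply, Pi.zero_apply] at this
      have e2 : ∀ a : L m n, D ζ (pos b ∘ σ) (pos a) = Equiv.Perm.sign σ * D ζ (pos b) (pos a) :=
        fun a => det_permute' σ (of fun i j => φ ζ (pos b j) (pos a i))
      simp only [e, e2, mul_left_comm (w _), ← mul_sum, this, mul_zero]
    · simp only [Function.Injective, not_forall] at hs
      obtain ⟨i, j, e, hij⟩ := hs
      refine sum_eq_zero fun a _ => ?_
      rw [D, det_zero_of_column_eq hij (by simp [e]), mul_zero]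
  refine hw (funext fun b => ?_)
  let u : L m n → Fin m → Fin (m + n) := fun a i => ⟨pos a i - 1, by have := pos_bd a i; omega⟩
  have hu : ∀ a i, pos a i = u a i + 1 := fun a i => by have := pos_bd a i; simp only [u]; omega
  have e1 : ∀ a : L m n, ∑ s : Fin m → Fin (m + n), (∏ j, Ψ (u b j) (s j)) *
      D ζ (fun j => s j + 1) (pos a) = if a = b then 1 else 0 := by
    intro a
    have : ∑ s : Fin m → Fin (m + n), (∏ j, Ψ (u b j) (s j)) * D ζ (fun j => s j + 1) (pos a) =
        (of fun i j => if u b j = u a i then (1 : ℂ) else 0).det := by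
      simp only [D, det_apply', mul_sum, of_apply, ← hΨ]
      rw [sum_comm]
      refine sum_congr rfl fun σ _ => ?_
      rw [prod_univ_sum, Fintype.piFinset_univ, mul_sum]
      refine sum_congr rfl fun s _ => ?_
      rw [prod_mul_distrib]
      simp only [hu a]
      ring
    rw [this]
    split_ifs with hab
    · subst hab
      convert det_one (n := Fin m) (R := ℂ)
      ext i j
      have : u a j = u a i ↔ i = j := by
        refine ⟨fun e => (pos_anti a).injective ?_, fun e => by rw [e]⟩
        rw [hu, hu, e]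
      simp [one_apply, this]
    · by_contra hne
      refine hab (Subtype.ext (funext fun i => ?_))
      have hr : Set.range (pos a) = Set.range (pos b) := by
        apply Set.Subset.antisymm
        · rintro _ ⟨i, rfl⟩
          by_contra hc
          refine hne (det_eq_zero_of_row_eq_zero i fun j => ?_)
          simp only [of_apply]
          rw [if_neg]
          intro e
          exact hc ⟨j, by rw [hu, hu, e]⟩
        · rintro _ ⟨j, rfl⟩
          by_contra hc
          refine hne (det_eq_zero_of_column_eq_zero j fun i => ?_)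
          simp only [of_apply]
          rw [if_neg]
          intro e
          exact hc ⟨i, by rw [hu, hu, e]⟩
      have := congrFun (((pos_anti a).range_inj (pos_anti b)).1 hr) i
      unfold pos at this
      exact Fin.ext (by omega)
  have : ∑ a, w a * (if a = b then 1 else 0) = 0 := by
    simp only [← e1, mul_sum]
    rw [sum_comm]
    refine sum_eq_zero fun s _ => ?_
    simp only [mul_left_comm (w _), ← mul_sum, hG, mul_zero]
  simpa using this

theorem det_ne_iff {ζ : ℂ} (h : IsPrimitiveRoot ζ (2 * (m + n + 1))) :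
    (A m n).det ≠ 0 ↔ ∀ S ⊆ Icc 1 (m + n), S.card = m → ∑ s ∈ S, c ζ s ≠ 0 := by
  classical
  have e : (A m n).map Complex.ofRealHom * (of fun a b : L m n => D ζ (pos b) (pos a)) =
      (of fun a b : L m n => D ζ (pos b) (pos a)) * diagonal fun b => ∑ j, c ζ (pos b j) := by
    ext a b
    rw [mul_diagonal, mul_apply]
    simp only [map_apply, of_apply, Complex.ofRealHom_eq_coe]
    rw [eigen h, mul_comm]
  have e2 := congrArg det e
  rw [det_mul, det_mul, det_diagonal, mul_comm, ← RingHom.mapMatrix_apply, ← RingHom.map_det] at e2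
  have e3 := mul_left_cancel₀ (V_ne h) e2
  rw [← Complex.ofReal_ne_zero, ← Complex.ofRealHom_eq_coe, e3, prod_ne_zero_iff]
  constructor
  · intro hb S hS hc
    obtain ⟨a, σ, e⟩ := exists_sort (n := n) (S.orderEmbOfFin hc) (S.orderEmbOfFin hc).injective
      (fun j => (mem_Icc.1 (hS (S.orderEmbOfFin_mem hc j))).1)
      (fun j => (mem_Icc.1 (hS (S.orderEmbOfFin_mem hc j))).2)
    have := hb a (mem_univ _)
    rw [← Equiv.sum_comp σ] at this
    rw [← S.image_orderEmbOfFin_univ hc, sum_image (S.orderEmbOfFin hc).injective.injOn, e]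
    exact this
  · intro hS a _
    have := hS (univ.image (pos a)) (fun s hs => by
      obtain ⟨i, -, rfl⟩ := mem_image.1 hs
      exact mem_Icc.2 (pos_bd a i)) (by
      rw [card_image_of_injective _ (pos_anti a).injective]; simp)
    rwa [sum_image (pos_anti a).injective.injOn] at this

end Pool.Agent.H2.Lmn
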