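import Mathlib

/-! Short vanishing sums of roots of unity of order dividing 2M, M odd. -/

namespace Pool.Agent.H2.Vanish

open Finset Polynomial

theorem galois {K : ℕ} (hK : 0 < K) (X : Multiset ℂ) (h : ∀ w ∈ X, w ^ K = 1) (h0 : X.sum = 0)
    {u : ℕ} (hu : u.Coprime K) : (X.map (· ^ u)).sum = 0 := by
  have : NeZero K := ⟨hK.ne'⟩
  have hη := Complex.isPrimitiveRoot_exp K hK.ne'
  set η := Complex.exp (2 * Real.pi * Complex.I / K)
  have : ∃ P : ℤ[X], ∀ v : ℕ, aeval (η ^ v) P = (X.map (· ^ v)).sum := by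
    clear h0
    induction X using Multiset.induction_on with
    | empty => exact ⟨0, by simp⟩
    | cons a s ih =>
      obtain ⟨P, hP⟩ := ih fun w hw => h w (Multiset.mem_cons_of_mem hw)
      obtain ⟨i, -, rfl⟩ := hη.eq_pow_of_pow_eq_one (h a (Multiset.mem_cons_self _ _))
      refine ⟨Polynomial.X ^ i + P, fun v => ?_⟩
      simp [hP, ← pow_mul, mul_comm]
  obtain ⟨P, hP⟩ := this
  have h1 : aeval η P = 0 := by simpa [h0] using hP 1
  have h2 := minpoly.isIntegrallyClosed_dvd (hη.isIntegral hK) h1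
  rw [hη.minpoly_eq_pow_coprime hu] at h2
  rw [← hP]
  obtain ⟨Q, rfl⟩ := h2
  simp [minpoly.aeval]

theorem geom {q : ℕ} {z : ℂ} (hz : z ^ q = 1) :
    ∑ k ∈ range q, z ^ k = if z = 1 then (q : ℂ) else 0 := by
  split_ifs with h
  · simp [h]
  · have := mul_geom_sum z q
    rw [hz, sub_self] at this
    exact (mul_eq_zero.1 this).resolve_left (sub_ne_zero.2 h)

open Classical in
theorem key {q : ℕ} (hq : 0 < q) (X : Multiset ℂ) (a b : ℂ → ℂ) (h : ∀ w ∈ X, a w ^ q = 1) {ρ : ℂ}
    (hρ : ρ ^ q = 1) :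
    (q : ℂ) * ((X.filter fun w => a w = ρ).map b).sum =
      ∑ k ∈ range q, (ρ⁻¹) ^ k * (X.map fun w => b w * a w ^ k).sum := by
  have hρ0 : ρ ≠ 0 := by rintro rfl; simp [hq.ne'] at hρ
  induction X using Multiset.induction_on with
  | empty => simp
  | cons c s ih =>
    have h1 := ih fun w hw => h w (Multiset.mem_cons_of_mem hw)
    have h2 := geom (q := q) (z := a c / ρ)
      (by rw [div_pow, h c (Multiset.mem_cons_self _ _), hρ, div_one])
    simp only [Multiset.map_cons, Multiset.sum_cons, mul_add, sum_add_distrib, ← h1]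
    have h3 : ∑ k ∈ range q, (ρ⁻¹) ^ k * (b c * a c ^ k) = b c * ∑ k ∈ range q, (a c / ρ) ^ k := by
      rw [mul_sum]
      refine sum_congr rfl fun k _ => ?_
      rw [div_eq_mul_inv, mul_pow]; ring
    rw [h3, h2, Multiset.filter_cons]
    by_cases hc : a c = ρ
    · simp [hc, hρ0]; ring
    · simp [hc, div_eq_one_iff_eq hρ0]

open Classical in
theorem card_classes (X : Multiset ℂ) (a : ℂ → ℂ) (R : Finset ℂ) (h : ∀ w ∈ X, a w ∈ R) :
    X.card = ∑ ρ ∈ R, (X.filter fun w => a w = ρ).card := by
  induction X using Multiset.induction_on with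
  | empty => simp
  | cons c s ih =>
    rw [Multiset.card_cons, ih fun w hw => h w (Multiset.mem_cons_of_mem hw)]
    simp only [Multiset.filter_cons, Multiset.card_add, sum_add_distrib]
    have : ∑ ρ ∈ R, (if a c = ρ then ({c} : Multiset ℂ) else 0).card = 1 := by
      rw [sum_eq_single (a c)]
      · simp
      · intro b _ hb; simp [Ne.symm hb]
      · intro hc; exact absurd (h c (Multiset.mem_cons_self _ _)) hc
    omega

/-- the statement proved by induction on M -/
def Good (p M : ℕ) : Prop :=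
  ∀ X : Multiset ℂ, (∀ w ∈ X, w ^ (2 * M) = 1) → X.sum = 0 → (∀ w ∈ X, -w ∉ X) → X.card < 2 * p →
    X.card = 0 ∨ (X.card.Prime ∧ X.card ∣ M)

open Classical in
/-- if all classes vanish separately then only one class occurs -/
theorem one_class {p M : ℕ} (hM : ∀ r, r.Prime → r ∣ M → p ≤ r) (ih : Good p M) (X : Multiset ℂ)
    (a : ℂ → ℂ) (h1 : ∀ w ∈ X, w ≠ 0) (h2 : ∀ w ∈ X, ∀ w' ∈ X, a w = a w' → (w / w') ^ (2 * M) = 1)
    (h3 : ∀ w ∈ X, (X.filter fun w' => a w' = a w).sum = 0) (h4 : ∀ w ∈ X, -w ∉ X)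
    (h5 : X.card < 2 * p) : X.card = 0 ∨ (X.card.Prime ∧ X.card ∣ M) := by
  have cl : ∀ w ∈ X, (X.filter fun w' => a w' = a w).card.Prime ∧
      (X.filter fun w' => a w' = a w).card ∣ M := by
    intro w hw
    have := ih ((X.filter fun w' => a w' = a w).map (· / w)) ?_ ?_ ?_ ?_
    · rw [Multiset.card_map] at this
      refine this.resolve_left fun h => ?_
      rw [Multiset.card_eq_zero] at h
      have : w ∈ X.filter fun w' => a w' = a w := by simp [hw]
      rw [h] at this; simp at this
    · intro y hy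
      obtain ⟨z, hz, rfl⟩ := Multiset.mem_map.1 hy
      rw [Multiset.mem_filter] at hz
      exact h2 z hz.1 w hw hz.2
    · simp only [div_eq_mul_inv, Multiset.sum_map_mul_right, Multiset.map_id', h3 w hw, zero_mul]
    · intro y hy hy'
      obtain ⟨z, hz, rfl⟩ := Multiset.mem_map.1 hy
      obtain ⟨y', hz', e⟩ := Multiset.mem_map.1 hy'
      have := h1 w hw
      have e' : y' = -z := by field_simp at e; linear_combination e
      exact h4 z (Multiset.mem_filter.1 hz).1 (e' ▸ (Multiset.mem_filter.1 hz').1)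
    · rw [Multiset.card_map]
      exact (Multiset.card_le_card (Multiset.filter_le _ _)).trans_lt h5
  by_cases h0 : X = 0
  · left; simp [h0]
  obtain ⟨w, hw⟩ := Multiset.exists_mem_of_ne_zero h0
  by_cases hall : ∀ w' ∈ X, a w' = a w
  · have := cl w hw
    rw [Multiset.filter_eq_self.2 hall] at this
    exact Or.inr this
  · exfalso
    push Not at hall
    obtain ⟨w', hw', hne⟩ := hall
    have c1 := hM _ (cl w hw).1 (cl w hw).2
    have c2 := hM _ (cl w' hw').1 (cl w' hw').2
    have e := Multiset.filter_add_not (fun y => a y = a w) X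
    have e1 := congrArg Multiset.card e
    rw [Multiset.card_add] at e1
    have e2 : (X.filter fun y => a y = a w').card ≤ (X.filter fun y => ¬ a y = a w).card :=
      Multiset.card_le_card (Multiset.monotone_filter_right X fun y hy => by rw [hy]; exact hne)
    omega

theorem base (p : ℕ) : Good p 1 := by
  intro X h1 h2 h3 _
  left
  by_contra h0
  rw [Multiset.card_eq_zero] at h0
  obtain ⟨w, hw⟩ := Multiset.exists_mem_of_ne_zero h0
  have hall : ∀ y ∈ X, y = w := by
    intro y hy
    have : (y - w) * (y + w) = 0 := by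
      have a := h1 y hy
      have b := h1 w hw
      linear_combination a - b
    rcases mul_eq_zero.1 this with h | h
    · linear_combination h
    · exact absurd (show -w ∈ X by rwa [show -w = y by linear_combination -h]) (h3 w hw)
  rw [Multiset.eq_replicate_card.2 hall, Multiset.sum_replicate, nsmul_eq_mul, mul_eq_zero] at h2
  rcases h2 with h | h
  · exact h0 (Multiset.card_eq_zero.1 (by exact_mod_cast h))
  · have := h1 w hw
    simp [h] at this

theorem step1 {p q M : ℕ} (hq : q.Prime) (hM0 : 0 < M) (hqM : q ∣ M)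
    (hM : ∀ r, r.Prime → r ∣ M → p ≤ r) (ih : Good p M) : Good p (q * M) := by
  classical
  intro X h1 h2 h3 h4
  have hK : 0 < 2 * (q * M) := by have := hq.pos; positivity
  have hne : ∀ w ∈ X, w ≠ 0 := fun w hw h => by simpa [h, hK.ne'] using h1 w hw
  have hq1 : ∀ w ∈ X, (w ^ (2 * M)) ^ q = 1 := fun w hw => by
    rw [← pow_mul, ← h1 w hw]; congr 1; ring
  refine (one_class hM ih X (· ^ (2 * M)) hne ?_ ?_ h3 h4).imp id
    fun h => ⟨h.1, h.2.mul_left _⟩
  · intro w hw w' hw' h
    rw [div_pow, h, div_self (pow_ne_zero _ (hne w' hw'))]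
  · intro w hw
    have := key hq.pos X (· ^ (2 * M)) id hq1 (hq1 w hw)
    rw [sum_eq_zero, Multiset.map_id] at this
    · exact (mul_eq_zero.1 this).resolve_left (by exact_mod_cast hq.ne_zero)
    · intro k _
      have hc : (1 + 2 * M * k).Coprime (2 * (q * M)) := by
        have c1 : (1 + 2 * M * k).Coprime (2 * M) := by simp [mul_comm (2 * M) k]
        have c2 : (1 + 2 * M * k).Coprime q := c1.coprime_dvd_right (hqM.mul_left _)
        rw [show 2 * (q * M) = q * (2 * M) by ring]
        exact c2.mul_right c1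
      have := galois hK X h1 h2 hc
      simp only [pow_add, pow_one, pow_mul] at this
      simp only [id, pow_mul, this, mul_zero]

theorem step2 {p q M : ℕ} (hq : q.Prime) (hq2 : Odd q) (hpq : p ≤ q) (hM0 : Odd M) (hqM : ¬ q ∣ M)
    (hM : ∀ r, r.Prime → r ∣ M → p ≤ r) (ih : Good p M) : Good p (q * M) := by
  classical
  intro X h1 h2 h3 h4
  have hMp := hM0.pos
  have hK : 0 < 2 * (q * M) := by have := hq.pos; positivity
  have hne : ∀ w ∈ X, w ≠ 0 := fun w hw h => by simpa [h, hK.ne'] using h1 w hw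
  have hcop : q.Coprime (2 * M) := Nat.Coprime.mul_right (Nat.coprime_two_right.2 hq2)
    ((Nat.Prime.coprime_iff_not_dvd hq).2 hqM)
  obtain ⟨e1, he1, he1'⟩ := Nat.chineseRemainder hcop 1 0
  obtain ⟨e2, he2, he2'⟩ := Nat.chineseRemainder hcop 0 1
  have hK' : 2 * (q * M) = q * (2 * M) := by ring
  obtain ⟨f1, hf1⟩ : 2 * M ∣ e1 := (Nat.modEq_zero_iff_dvd).1 he1'
  obtain ⟨f2, hf2⟩ : q ∣ e2 := (Nat.modEq_zero_iff_dvd).1 he2
  have ha : ∀ w ∈ X, (w ^ e1) ^ q = 1 := fun w hw => by
    rw [← pow_mul, hf1, show 2 * M * f1 * q = 2 * (q * M) * f1 by ring, pow_mul, h1 w hw, one_pow]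
  have hb : ∀ w ∈ X, (w ^ e2) ^ (2 * M) = 1 := fun w hw => by
    rw [← pow_mul, hf2, show q * f2 * (2 * M) = 2 * (q * M) * f2 by ring, pow_mul, h1 w hw, one_pow]
  have hab : ∀ w ∈ X, w ^ e1 * w ^ e2 = w := fun w hw => by
    have : e1 + e2 ≡ 1 [MOD 2 * (q * M)] := by
      rw [hK']
      exact (Nat.modEq_and_modEq_iff_modEq_mul hcop).1 ⟨he1.add he2, he1'.add he2'⟩
    rw [← pow_add, pow_eq_pow_mod _ (h1 w hw), this, ← pow_eq_pow_mod _ (h1 w hw), pow_one]
  have hg : ∀ ρ : ℂ, ρ ^ q = 1 → (q : ℂ) * ((X.filter fun w => w ^ e1 = ρ).map (· ^ e2)).sum =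
      (X.map (· ^ e2)).sum := by
    intro ρ hρ
    rw [key hq.pos X (· ^ e1) (· ^ e2) ha hρ, sum_eq_single 0]
    · simp
    · intro k hk hk0
      have hc : (e2 + e1 * k).Coprime (2 * (q * M)) := by
        rw [hK']
        refine Nat.Coprime.mul_right ?_ ?_
        · have : e2 + e1 * k ≡ k [MOD q] := by simpa using he2.add (he1.mul_right k)
          rw [Nat.Coprime, this.gcd_eq]
          exact (Nat.coprime_of_lt_prime hk0 (mem_range.1 hk) hq).symm
        · have : e2 + e1 * k ≡ 1 [MOD 2 * M] := by simpa using he2'.add (he1'.mul_right k)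
          rw [Nat.Coprime, this.gcd_eq]; simp
      have := galois hK X h1 h2 hc
      simp only [pow_add, pow_mul] at this
      rw [this, mul_zero]
    · intro h; exact absurd (mem_range.2 hq.pos) h
  have hq0 : (q : ℂ) ≠ 0 := by exact_mod_cast hq.ne_zero
  by_cases hG : (X.map (· ^ e2)).sum = 0
  · refine (one_class hM ih X (· ^ e1) hne ?_ ?_ h3 h4).imp id fun h => ⟨h.1, h.2.mul_left _⟩
    · intro w hw w' hw' h
      have := hne w' hw'
      rw [← hab w hw, ← hab w' hw', h, mul_div_mul_left _ _ (pow_ne_zero _ this), div_pow, hb w hw,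
        hb w' hw', div_one]
    · intro w hw
      have := hg _ (ha w hw)
      rw [hG] at this
      have := (mul_eq_zero.1 this).resolve_left hq0
      have e : (X.filter fun w' => w' ^ e1 = w ^ e1) =
          ((X.filter fun w' => w' ^ e1 = w ^ e1).map (· ^ e2)).map (w ^ e1 * ·) := by
        rw [Multiset.map_map]
        conv_lhs => rw [← Multiset.map_id (X.filter _)]
        refine Multiset.map_congr rfl fun y hy => ?_
        rw [Multiset.mem_filter] at hy
        simp only [id, Function.comp]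
        rw [← hy.2, hab y hy.1]
      rw [e, Multiset.sum_map_mul_left, Multiset.map_id', this, mul_zero]
  · right
    set R := nthRootsFinset q (1 : ℂ) with hR
    have hRc : R.card = q := (Complex.isPrimitiveRoot_exp q hq.ne_zero).card_nthRootsFinset
    have hRm : ∀ ρ, ρ ∈ R ↔ ρ ^ q = 1 := fun ρ => mem_nthRootsFinset hq.pos 1
    set n : ℂ → ℕ := fun ρ => (X.filter fun w => w ^ e1 = ρ).card with hn
    have hsum : X.card = ∑ ρ ∈ R, n ρ :=
      card_classes X (· ^ e1) R fun w hw => (hRm _).2 (ha w hw)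
    have hn1 : ∀ ρ ∈ R, 1 ≤ n ρ := by
      intro ρ hρ
      by_contra h
      have h0 : (X.filter fun w => w ^ e1 = ρ) = 0 := Multiset.card_eq_zero.1 (by
        simp only [hn] at h; omega)
      have := hg ρ ((hRm _).1 hρ)
      rw [h0] at this
      exact hG (by simpa using this.symm)
    have hnb : ∀ ρ ∈ R, n ρ + (q - 1) ≤ X.card := by
      intro ρ hρ
      rw [hsum, ← add_sum_erase _ _ hρ]
      have := card_nsmul_le_sum (R.erase ρ) n 1 fun y hy => hn1 y (mem_of_mem_erase hy)
      rw [card_erase_of_mem hρ, hRc] at this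
      simpa using this
    obtain ⟨ρ0, hρ0, hone⟩ : ∃ ρ ∈ R, n ρ = 1 := by
      by_contra h
      push Not at h
      have := card_nsmul_le_sum R n 2 fun y hy => by have := hn1 y hy; have := h y hy; omega
      rw [hRc, smul_eq_mul] at this
      change q * 2 ≤ ∑ ρ ∈ R, n ρ at this
      omega
    obtain ⟨w0, hw0⟩ := Multiset.card_eq_one.1 hone
    have hw0X : w0 ∈ X := (Multiset.mem_filter.1 (hw0 ▸ Multiset.mem_singleton_self w0)).1
    have hg0 := hg ρ0 ((hRm _).1 hρ0)
    rw [hw0] at hg0
    simp only [Multiset.map_singleton, Multiset.sum_singleton] at hg0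
    have hq3 : 3 ≤ q := by
      have := hq.two_le
      rcases hq2 with ⟨k, hk⟩; omega
    have hall : ∀ ρ ∈ R, n ρ = 1 := by
      intro ρ hρ
      by_contra hne1
      set Y := (X.filter fun w => w ^ e1 = ρ).map (· ^ e2) with hY
      have hYc : Y.card = n ρ := by simp [hY, hn]
      have hYs : Y.sum = w0 ^ e2 := by
        have := hg ρ ((hRm _).1 hρ)
        rw [← hg0] at this
        exact mul_left_cancel₀ hq0 this
      have hY1 : ∀ y ∈ Y, y ^ (2 * M) = 1 := by
        intro y hy
        obtain ⟨w, hw, rfl⟩ := Multiset.mem_map.1 hy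
        exact hb w (Multiset.mem_filter.1 hw).1
      have hY3 : ∀ y ∈ Y, -y ∉ Y := by
        intro y hy hy'
        obtain ⟨w, hw, rfl⟩ := Multiset.mem_map.1 hy
        obtain ⟨w', hw', e⟩ := Multiset.mem_map.1 hy'
        rw [Multiset.mem_filter] at hw hw'
        refine h3 w hw.1 ?_
        have : -w = w' := by
          rw [← hab w hw.1, ← hab w' hw'.1, hw.2, hw'.2]
          rw [e]; ring
        exact this ▸ hw'.1
      have hb1 := hnb ρ hρ
      have hb2 := hn1 ρ hρ
      have fin : ∀ r, r.Prime → r ∣ M → r ≤ n ρ + 1 → False := by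
        intro r hr hrM hle
        have a1 := hM r hr hrM
        have a2 : r ≠ q := by rintro rfl; exact hqM hrM
        have a3 : Odd r := hM0.of_dvd_nat hrM
        obtain ⟨k, hk⟩ := hq2
        obtain ⟨l, hl⟩ := a3
        omega
      by_cases hm : w0 ^ e2 ∈ Y
      · have e := Multiset.cons_erase hm
        have e1 : (Y.erase (w0 ^ e2)).card + 1 = n ρ := by
          rw [← hYc, ← Multiset.card_cons, e]
        rcases ih (Y.erase (w0 ^ e2)) (fun y hy => hY1 y (Multiset.mem_of_mem_erase hy)) (by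
            have := congrArg Multiset.sum e
            rw [Multiset.sum_cons, hYs] at this
            linear_combination this)
          (fun y hy hy' => hY3 y (Multiset.mem_of_mem_erase hy) (Multiset.mem_of_mem_erase hy'))
          (by omega) with h | h
        · omega
        · exact fin _ h.1 h.2 (by omega)
      · have hA : ∀ y ∈ (-w0 ^ e2 ::ₘ Y), y ^ (2 * M) = 1 := by
          intro y hy
          rcases Multiset.mem_cons.1 hy with rfl | hy
          · rw [Even.neg_pow (by simp), hb w0 hw0X]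
          · exact hY1 y hy
        have hB : ∀ y ∈ (-w0 ^ e2 ::ₘ Y), -y ∉ (-w0 ^ e2 ::ₘ Y) := by
          intro y hy hy'
          have hw : w0 ^ e2 ≠ 0 := pow_ne_zero _ (hne w0 hw0X)
          rcases Multiset.mem_cons.1 hy with rfl | hy <;> rcases Multiset.mem_cons.1 hy' with h | h
          · exact hw (by linear_combination h / 2)
          · exact hm (by simpa using h)
          · exact hm (by rwa [neg_inj.1 h] at hy)
          · exact hY3 y hy h
        rcases ih (-w0 ^ e2 ::ₘ Y) hA (by rw [Multiset.sum_cons, hYs]; ring) hB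
          (by rw [Multiset.card_cons]; omega) with h | h
        · simp at h
        · exact fin _ h.1 h.2 (by rw [Multiset.card_cons, hYc])
    rw [hsum, sum_congr rfl hall]
    simp only [sum_const, hRc, smul_eq_mul, mul_one]
    exact ⟨hq, dvd_mul_right _ _⟩

theorem good (p M : ℕ) (hM0 : Odd M) (hM : ∀ r, r.Prime → r ∣ M → p ≤ r) : Good p M := by
  induction M using Nat.strong_induction_on with
  | _ M ih =>
    by_cases h1 : M = 1
    · exact h1 ▸ base p
    obtain ⟨q, hq, M', rfl⟩ := Nat.exists_prime_and_dvd h1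
    have hM' : Odd M' := (Nat.odd_mul.1 hM0).2
    have hM'' : ∀ r, r.Prime → r ∣ M' → p ≤ r := fun r hr h => hM r hr (h.mul_left _)
    have ih' := ih M' (by have := hq.two_le; have := hM'.pos; nlinarith) hM' hM''
    by_cases h : q ∣ M'
    · exact step1 hq hM'.pos h hM'' ih'
    · exact step2 hq (Nat.odd_mul.1 hM0).1 (hM q hq (dvd_mul_right _ _)) hM' h hM'' ih'

end Pool.Agent.H2.Vanish
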