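import Mathlib
import Pool.Agent.H2.LmnSpec
import Pool.Agent.H2.Vanish

namespace Pool.Agent.H2.Lmn

open Finset

variable {ζ : ℂ} {M : ℕ}

theorem c_mirror (h : IsPrimitiveRoot ζ (2 * M)) {s : ℕ} (hM : 0 < M) (hs : s ≤ M) :
    c ζ (M - s) = - c ζ s := by
  have h0 : ζ ≠ 0 := h.ne_zero (by omega)
  have e : ζ ^ (M - s) * ζ ^ s = -1 := by rw [← pow_add, Nat.sub_add_cancel hs, pow_M hM h]
  have a := pow_ne_zero s h0
  have e2 : ζ ^ (M - s) = -(ζ ^ s)⁻¹ := by field_simp; linear_combination e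
  simp only [c, inv_pow, e2, inv_neg, inv_inv]
  ring

theorem c_fold (h : IsPrimitiveRoot ζ (2 * M)) {s : ℕ} (hM : 0 < M) (hs : s ≤ 2 * M) :
    c ζ (2 * M - s) = c ζ s := by
  have h0 : ζ ≠ 0 := h.ne_zero (by omega)
  have e : ζ ^ (2 * M - s) * ζ ^ s = 1 := by rw [← pow_add, Nat.sub_add_cancel hs, h.pow_eq_one]
  have a := pow_ne_zero s h0
  have e2 : ζ ^ (2 * M - s) = (ζ ^ s)⁻¹ := by field_simp; linear_combination e
  simp only [c, inv_pow, e2, inv_inv]
  ring

theorem add_pairs (h : IsPrimitiveRoot ζ (2 * M)) (S T : Finset ℕ) (hS : S ⊆ Icc 1 (M - 1))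
    (hT : T ⊆ Icc 1 (M - 1)) (hM : 0 < M) (d1 : Disjoint S T) (d2 : ∀ s ∈ S, ∀ t ∈ T, s + t ≠ M)
    (d3 : ∀ s ∈ T, ∀ t ∈ T, s + t ≠ M) (h0 : ∑ s ∈ S, c ζ s = 0) :
    ∃ U ⊆ Icc 1 (M - 1), U.card = S.card + 2 * T.card ∧ ∑ s ∈ U, c ζ s = 0 := by
  have hT' : ∀ t ∈ T, 1 ≤ t ∧ t ≤ M - 1 := fun t ht => mem_Icc.1 (hT ht)
  have inj : Set.InjOn (fun t => M - t) T := fun a ha b hb e => by
    have := hT' a ha; have := hT' b hb; simp only at e; omega
  have e1 : Disjoint (S ∪ T) (T.image fun t => M - t) := by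
    rw [disjoint_right]
    intro x hx hx'
    obtain ⟨t, ht, rfl⟩ := mem_image.1 hx
    have := hT' t ht
    rcases mem_union.1 hx' with h | h
    · exact d2 _ h t ht (by omega)
    · exact d3 _ h t ht (by omega)
  refine ⟨(S ∪ T) ∪ T.image fun t => M - t, ?_, ?_, ?_⟩
  · refine union_subset (union_subset hS hT) fun x hx => ?_
    obtain ⟨t, ht, rfl⟩ := mem_image.1 hx
    have := hT' t ht
    rw [mem_Icc]; omega
  · rw [card_union_of_disjoint e1, card_union_of_disjoint d1, card_image_of_injOn inj]; ring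
  · rw [sum_union e1, sum_union d1, sum_image inj, h0, zero_add, ← sum_add_distrib]
    refine sum_eq_zero fun t ht => ?_
    have := hT' t ht
    rw [c_mirror h hM (by omega)]; ring

theorem base_set (h : IsPrimitiveRoot ζ (2 * M)) {p r : ℕ} (hp : 1 < p) (hr : 1 < r)
    (hM : M = p * r) : ∃ S ⊆ Icc 1 (M - 1), S.card = p ∧ (∀ s ∈ S, s % 2 = 1) ∧
      ∑ s ∈ S, c ζ s = 0 := by
  have hM0 : 0 < M := by rw [hM]; positivity
  let x : ℕ → ℕ := fun k => 1 + 2 * (r * k)
  have hx : ∀ k < p, x k < 2 * M := fun k hk => by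
    have : r * (k + 1) ≤ r * p := Nat.mul_le_mul_left _ hk
    simp only [x]; rw [hM, mul_comm p]; rw [mul_add] at this; omega
  have hr1 : ¬ r ∣ 1 := by rw [Nat.dvd_one]; omega
  have hx2 : ∀ k l, x k + x l ≠ 2 * M := fun k l e => by
    simp only [x] at e
    have : 1 + r * (k + l) = r * p := by rw [hM, mul_comm p] at e; rw [mul_add]; omega
    exact hr1 ((Nat.dvd_add_left (dvd_mul_right r _)).1 (this ▸ dvd_mul_right r p))
  let F : ℕ → ℕ := fun k => if x k < M then x k else 2 * M - x k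
  have inj : Set.InjOn F (range p) := fun k hk l hl e => by
    have a := hx k (by simpa using hk)
    have b := hx l (by simpa using hl)
    have d := hx2 k l
    have : x k = x l := by simp only [F] at e; split_ifs at e <;> omega
    simp only [x] at this
    exact Nat.eq_of_mul_eq_mul_left (by omega : 0 < r) (by omega)
  refine ⟨(range p).image F, fun s hs => ?_, by rw [card_image_of_injOn inj, card_range],
    fun s hs => ?_, ?_⟩
  · obtain ⟨k, hk, rfl⟩ := mem_image.1 hs
    have a := hx k (by simpa using hk)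
    have d := hx2 k k
    have : 1 ≤ x k := by simp [x]
    rw [mem_Icc]; simp only [F]; split_ifs <;> omega
  · obtain ⟨k, hk, rfl⟩ := mem_image.1 hs
    have a := hx k (by simpa using hk)
    have : x k % 2 = 1 := by simp only [x]; omega
    simp only [F]; split_ifs <;> omega
  · rw [sum_image inj]
    have e : ∀ k ∈ range p, c ζ (F k) = ζ * (ζ ^ (2 * r)) ^ k + ζ⁻¹ * (ζ⁻¹ ^ (2 * r)) ^ k := by
      intro k hk
      have a := hx k (by simpa using hk)
      have : c ζ (F k) = c ζ (x k) := by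
        simp only [F]; split_ifs
        · rfl
        · exact c_fold h hM0 a.le
      rw [this]
      simp only [c, x, ← mul_assoc, pow_add, pow_mul, pow_one]
    have e2 : 2 * M = 2 * r * p := by rw [hM]; ring
    rw [sum_congr rfl e, sum_add_distrib, ← mul_sum, ← mul_sum,
      (h.pow (by omega) e2).geom_sum_eq_zero hp, (h.inv.pow (by omega) e2).geom_sum_eq_zero hp]
    simp

theorem exists_zero {m n : ℕ} (hm : 1 ≤ m) (hn : 1 ≤ n) (h : IsPrimitiveRoot ζ (2 * (m + n + 1)))
    (hc : ¬ (Odd m ∧ Odd n ∧ ∀ p, p.Prime → p ∣ m + n + 1 → min m n < p)) :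
    ∃ S ⊆ Icc 1 (m + n), S.card = m ∧ ∑ s ∈ S, c ζ s = 0 := by
  have hI : ∀ k ≤ m + n, Icc 1 k ⊆ Icc 1 (m + n + 1 - 1) := fun k hk => Icc_subset_Icc_right hk
  rcases Nat.even_or_odd' m with ⟨k, rfl | rfl⟩
  · obtain ⟨U, h1, h2, h3⟩ := add_pairs h ∅ (Icc 1 k) (empty_subset _) (hI _ (by omega)) (by omega)
      (by simp) (by simp) (by simp only [mem_Icc]; omega) (by simp)
    exact ⟨U, h1, by simpa using h2, h3⟩
  rcases Nat.even_or_odd' n with ⟨l, rfl | rfl⟩
  · have := c_mirror h (s := k + l + 1) (by omega) (by omega)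
    rw [show 2 * k + 1 + 2 * l + 1 - (k + l + 1) = k + l + 1 by omega] at this
    obtain ⟨U, h1, h2, h3⟩ := add_pairs h {k + l + 1} (Icc 1 k) (by simp; omega) (hI _ (by omega))
      (by omega) (by simp) (by simp only [mem_Icc, mem_singleton]; omega)
      (by simp only [mem_Icc]; omega) (by rw [sum_singleton]; linear_combination this / 2)
    exact ⟨U, h1, by simpa [add_comm] using h2, h3⟩
  simp only [odd_two_mul_add_one, true_and, not_forall, not_lt] at hc
  obtain ⟨p, hp, ⟨r, hr⟩, hle⟩ := hc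
  have hp2 := hp.two_le
  have hr1 : 1 < r := by
    by_contra hc
    have : p * r ≤ p * 1 := Nat.mul_le_mul_left _ (by omega)
    omega
  obtain ⟨S, s1, s2, s3, s4⟩ := base_set h hp.one_lt hr1 hr
  have hpo : p % 2 = 1 := by
    have : Odd (p * r) := hr ▸ ⟨k + l + 1, by ring⟩
    exact Nat.odd_iff.1 (Nat.odd_mul.1 this).1
  set O := (range (k + l + 1)).image fun i => 2 * i + 1 with hO
  have hOc : O.card = k + l + 1 := by
    rw [hO, card_image_of_injective _ fun a b e => by simpa using e, card_range]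
  have := le_card_sdiff S O
  obtain ⟨T, t1, t2⟩ := exists_subset_card_eq (s := O \ S) (n := (2 * k + 1 - p) / 2) (by omega)
  have t3 : ∀ t ∈ T, t % 2 = 1 ∧ t ≤ 2 * (k + l) + 1 := fun t ht => by
    obtain ⟨i, hi, rfl⟩ := mem_image.1 (mem_sdiff.1 (t1 ht)).1
    rw [mem_range] at hi; omega
  obtain ⟨U, h1, h2, h3⟩ := add_pairs h S T s1
    (fun t ht => by have := t3 t ht; rw [mem_Icc]; omega) (by omega)
    (disjoint_right.2 fun t ht => (mem_sdiff.1 (t1 ht)).2)
    (fun s hs t ht => by have := s3 s hs; have := t3 t ht; omega)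
    (fun s hs t ht => by have := t3 s hs; have := t3 t ht; omega) s4
  exact ⟨U, h1, by omega, h3⟩

theorem no_zero {m n : ℕ} (h : IsPrimitiveRoot ζ (2 * (m + n + 1))) (hm : Odd m) (hn : Odd n)
    (hp : ∀ p, p.Prime → p ∣ m + n + 1 → min m n < p) (S : Finset ℕ) (hS : S ⊆ Icc 1 (m + n))
    (hc : S.card = m) : ∑ s ∈ S, c ζ s ≠ 0 := by
  intro h0
  set M := m + n + 1 with hM
  have hM0 : 0 < M := by omega
  have hMo : Odd M := (hm.add_odd hn).add_one
  have hz : ζ ≠ 0 := h.ne_zero (by omega)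
  have hb : ∀ s ∈ S, 1 ≤ s ∧ s < M := fun s hs => by have := mem_Icc.1 (hS hs); omega
  set S' := S.filter fun s => ¬ M - s ∈ S with hS'
  set S'' := S.filter fun s => M - s ∈ S with hS''
  have hmir : ∀ s ∈ S'', M - s ∈ S'' := fun s hs => by
    have h1 := mem_filter.1 hs
    have := hb s h1.1
    exact mem_filter.2 ⟨h1.2, by rw [Nat.sub_sub_self (by omega)]; exact h1.1⟩
  have hinv : ∀ s ∈ S'', M - (M - s) = s := fun s hs => by
    have := hb s (mem_filter.1 hs).1; omega
  have hne : ∀ s ∈ S'', M - s ≠ s := fun s hs => by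
    have := hb s (mem_filter.1 hs).1
    obtain ⟨k, hk⟩ := hMo; omega
  have e1 : ∑ s ∈ S'', c ζ s = 0 :=
    sum_involution (fun s _ => M - s) (fun s hs => by
      rw [c_mirror h hM0 (hb s (mem_filter.1 hs).1).2.le]; ring) (fun s hs _ => hne s hs) hmir hinv
  have e2 : Even S''.card := by
    have : ∑ s ∈ S'', (1 : ZMod 2) = 0 :=
      sum_involution (fun s _ => M - s) (fun s hs => by decide) (fun s hs _ => hne s hs) hmir hinv
    rw [sum_const, nsmul_eq_mul, mul_one, ZMod.natCast_eq_zero_iff] at this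
    exact even_iff_two_dvd.2 this
  have e3 := card_filter_add_card_filter_not (s := S) (fun s => M - s ∈ S)
  have e4 := sum_filter_add_sum_filter_not S (fun s => M - s ∈ S) (c ζ)
  rw [← hS', ← hS''] at e3 e4
  rw [e1, zero_add, h0] at e4
  have e5 : S'.card ≤ n := by
    have : S'.card ≤ (Icc 1 (m + n) \ S).card := by
      refine card_le_card_of_injOn (fun s => M - s) (fun s hs => ?_) fun a ha b hb' e => ?_
      · have h1 := mem_filter.1 (mem_coe.1 hs)
        have := hb s h1.1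
        simp only [coe_sdiff, coe_Icc, Set.mem_diff, Set.mem_Icc, mem_coe]
        exact ⟨by omega, h1.2⟩
      · have := hb a (mem_filter.1 (mem_coe.1 ha)).1
        have := hb b (mem_filter.1 (mem_coe.1 hb')).1
        simp only at e; omega
    rw [card_sdiff_of_subset hS, Nat.card_Icc] at this
    omega
  have hX := Vanish.good (min m n + 1) M hMo (fun r hr hd => hp r hr hd)
    (S'.val.map (ζ ^ ·) + S'.val.map (ζ⁻¹ ^ ·)) ?_ ?_ ?_ ?_
  · simp only [Multiset.card_add, Multiset.card_map, card_val] at hX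
    obtain ⟨k, hk⟩ := hm
    obtain ⟨l, hl⟩ := e2
    rcases hX with hX | hX
    · omega
    · obtain ⟨j, hj⟩ := hMo.of_dvd_nat hX.2
      omega
  · intro w hw
    rcases Multiset.mem_add.1 hw with hw | hw <;> obtain ⟨s, -, rfl⟩ := Multiset.mem_map.1 hw
    · rw [← pow_mul, mul_comm, pow_mul, h.pow_eq_one, one_pow]
    · rw [← pow_mul, mul_comm, pow_mul, h.inv.pow_eq_one, one_pow]
  · rw [Multiset.sum_add, ← e4]
    simp only [c, sum_add_distrib]
    rfl
  · have k1 : ∀ s ∈ S', ∀ t ∈ S', ζ ^ s ≠ -ζ ^ t := fun s hs t ht e => by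
      have := hb s (mem_filter.1 hs).1
      have := hb t (mem_filter.1 ht).1
      have := h.pow_inj (i := s) (j := M + t) (by omega) (by omega)
        (by rw [pow_add, pow_M hM0 h, e]; ring)
      omega
    have k2 : ∀ s ∈ S', ∀ t ∈ S', ζ⁻¹ ^ s ≠ -ζ ^ t := fun s hs t ht e => by
      have := hb s (mem_filter.1 hs).1
      have := hb t (mem_filter.1 ht).1
      have a := pow_ne_zero s hz
      have := h.pow_inj (i := s + t) (j := M) (by omega) (by omega) (by
        rw [inv_pow] at e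
        field_simp at e
        rw [pow_add, pow_M hM0 h]; linear_combination e)
      exact (mem_filter.1 hs).2 (by rw [show M - s = t by omega]; exact (mem_filter.1 ht).1)
    intro w hw hw'
    rcases Multiset.mem_add.1 hw with hw | hw <;> obtain ⟨s, hs, rfl⟩ := Multiset.mem_map.1 hw <;>
      rcases Multiset.mem_add.1 hw' with hw' | hw' <;>
      obtain ⟨t, ht, e⟩ := Multiset.mem_map.1 hw'
    · exact k1 t ht s hs e
    · exact k2 t ht s hs e
    · exact k2 s hs t ht (by rw [e, neg_neg])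
    · refine k1 t ht s hs (inv_injective ?_)
      rw [inv_neg, ← inv_pow, ← inv_pow, e]
  · simp only [Multiset.card_add, Multiset.card_map, card_val]
    omega

theorem main (m n : ℕ) (hm : 1 ≤ m) (hn : 1 ≤ n) : (A m n).det ≠ 0 ↔
    Odd m ∧ Odd n ∧ ∀ p : ℕ, p.Prime → p ∣ m + n + 1 → min m n < p := by
  have h := Complex.isPrimitiveRoot_exp (2 * (m + n + 1)) (by omega)
  rw [det_ne_iff h]
  constructor
  · intro hS
    by_contra hc
    obtain ⟨S, h1, h2, h3⟩ := exists_zero hm hn h hc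
    exact hS S h1 h2 h3
  · rintro ⟨h1, h2, h3⟩
    exact no_zero h h1 h2 h3

end Pool.Agent.H2.Lmn
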