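import Mathlib

open MeasureTheory Set Filter Topology
open scoped ENNReal

namespace Pool.Agent.H2.Mk

set_option linter.unusedSectionVars false

lemma frag {Z : Type*} [TopologicalSpace Z] [BaireSpace Z] [Nonempty Z] {hn : ℕ → Z → ℝ}
    {h : Z → ℝ} (hc : ∀ n, Continuous (hn n))
    (hl : ∀ z, Tendsto (fun n => hn n z) atTop (𝓝 (h z))) {ε : ℝ} (hε : 0 < ε) :
    ∃ c, ∃ U ∈ 𝓝 c, ∀ z ∈ U, ∀ z' ∈ U, h z - h z' < ε := by
  let F : ℕ → Set Z := fun m => ⋂ n ≥ m, {z | |hn n z - hn m z| ≤ ε / 5}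
  have hF : ∀ m, IsClosed (F m) := fun m => isClosed_iInter fun n => isClosed_iInter fun _ =>
    isClosed_le ((hc n).sub (hc m)).abs continuous_const
  have hU : ⋃ m, F m = univ := by
    refine eq_univ_of_forall fun z => ?_
    obtain ⟨m, hm⟩ := Metric.cauchySeq_iff'.1 (hl z).cauchySeq (ε / 5) (by positivity)
    refine mem_iUnion.2 ⟨m, mem_iInter₂.2 fun n hn' => ?_⟩
    have := hm n hn'
    rw [Real.dist_eq] at this
    exact this.le
  obtain ⟨m, c, hc'⟩ := nonempty_interior_of_iUnion_of_closed hF hU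
  have h1 : ∀ z ∈ F m, |h z - hn m z| ≤ ε / 5 := by
    intro z hz
    refine le_of_tendsto (((hl z).sub_const (hn m z)).abs) ?_
    filter_upwards [eventually_ge_atTop m] with n hn'
    exact mem_iInter₂.1 hz n hn'
  have h2 : {z | |hn m z - hn m c| < ε / 5} ∈ 𝓝 c :=
    (isOpen_lt ((hc m).sub continuous_const).abs continuous_const).mem_nhds (by simpa using hε)
  refine ⟨c, F m ∩ {z | |hn m z - hn m c| < ε / 5},
    inter_mem (mem_interior_iff_mem_nhds.1 hc') h2, fun z hz z' hz' => ?_⟩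
  have a1 := abs_le.1 (h1 z hz.1)
  have a2 := abs_le.1 (h1 z' hz'.1)
  have a3 := abs_lt.1 (show |hn m z - hn m c| < ε / 5 from hz.2)
  have a4 := abs_lt.1 (show |hn m z' - hn m c| < ε / 5 from hz'.2)
  linarith [a1.2, a2.1, a3.2, a4.1]

variable {V : Type*} [AddCommGroup V] [Module ℝ V]

/-- Affine on a set. -/
def AffOn {F : Type*} [AddCommGroup F] [Module ℝ F] (X : Set V) (f : V → F) : Prop :=
  ∀ x ∈ X, ∀ y ∈ X, ∀ a b : ℝ, 0 ≤ a → 0 ≤ b → a + b = 1 →
    f (a • x + b • y) = a • f x + b • f y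

variable [TopologicalSpace V] [IsTopologicalAddGroup V] [ContinuousSMul ℝ V]
  [LocallyConvexSpace ℝ V] [T2Space V] {X : Set V}

lemma local_small (hXc : IsCompact X) (hXv : Convex ℝ X) {h : V → ℝ} (haff : AffOn X h)
    {hn : ℕ → V → ℝ} (hc : ∀ n, ContinuousOn (hn n) X)
    (hl : ∀ z ∈ X, Tendsto (fun n => hn n z) atTop (𝓝 (h z))) {S : Set V} (hS : S ⊆ X)
    (hne : S.Nonempty) {ε : ℝ} (hε : 0 < ε) :
    ∃ s ∈ S, ∃ W ∈ 𝓝 s, ∃ D : Set V, IsClosed D ∧ Convex ℝ D ∧ D ⊆ X ∧ W ∩ S ⊆ D ∧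
      ∀ z ∈ D, ∀ z' ∈ D, h z - h z' < ε := by
  set C := closure (convexHull ℝ S) with hC
  have hCX : C ⊆ X := closure_minimal (convexHull_min hS hXv) hXc.isClosed
  have hCv : Convex ℝ C := (convex_convexHull ℝ S).closure
  have hSC : S ⊆ C := (subset_convexHull ℝ S).trans subset_closure
  have hCc : IsCompact C := hXc.of_isClosed_subset isClosed_closure hCX
  let P : Set (V × V) := {p | p.1 ∈ C ∧ p.2 ∈ C ∧ ε ≤ h p.1 - h p.2}
  have hP : Convex ℝ P := by
    rintro p ⟨p1, p2, p3⟩ q ⟨q1, q2, q3⟩ a b ha hb hab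
    refine ⟨hCv p1 q1 ha hb hab, hCv p2 q2 ha hb hab, ?_⟩
    simp only [Prod.fst_add, Prod.smul_fst, Prod.snd_add, Prod.smul_snd]
    rw [haff _ (hCX p1) _ (hCX q1) a b ha hb hab, haff _ (hCX p2) _ (hCX q2) a b ha hb hab]
    simp only [smul_eq_mul]
    have e : ε = a * ε + b * ε := by rw [← add_mul, hab, one_mul]
    nlinarith [mul_le_mul_of_nonneg_left p3 ha, mul_le_mul_of_nonneg_left q3 hb]
  have hex : ∃ s ∈ S, (s, s) ∉ closure P := by
    by_contra hn'
    push Not at hn'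
    let Q : Set V := (LinearMap.prod LinearMap.id LinearMap.id : V →ₗ[ℝ] V × V) ⁻¹' closure P
    have hQv : Convex ℝ Q := hP.closure.linear_preimage _
    have hQc : IsClosed Q := isClosed_closure.preimage (continuous_id.prodMk continuous_id)
    have hCQ : C ⊆ Q := closure_minimal (convexHull_min hn' hQv) hQc
    have : CompactSpace C := isCompact_iff_compactSpace.1 hCc
    have : Nonempty C := (hne.mono hSC).to_subtype
    obtain ⟨c, U, hU, hU'⟩ := frag (Z := C) (hn := fun n z => hn n z) (h := fun z => h z)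
      (fun n => ((hc n).mono hCX).restrict) (fun z => hl z (hCX z.2)) hε
    obtain ⟨U', hU'1, hU'2⟩ := (mem_nhds_subtype _ _ _).1 hU
    have hcc : ((c : V), (c : V)) ∈ closure P := hCQ c.2
    obtain ⟨p, hp1, hp2⟩ := mem_closure_iff_nhds.1 hcc _ (prod_mem_nhds hU'1 hU'1)
    have := hU' ⟨p.1, hp2.1⟩ (hU'2 hp1.1) ⟨p.2, hp2.2.1⟩ (hU'2 hp1.2)
    exact absurd hp2.2.2 (not_le.2 this)
  obtain ⟨s, hs, hsP⟩ := hex
  have hN : (closure P)ᶜ ∈ 𝓝 (s, s) := isClosed_closure.isOpen_compl.mem_nhds hsP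
  obtain ⟨U1, hU1, U1', hU1', hsub⟩ := mem_nhds_prod_iff.1 hN
  obtain ⟨U2, hU2, hU2c, hU2s⟩ := exists_mem_nhds_isClosed_subset (inter_mem hU1 hU1')
  obtain ⟨U3, ⟨hU3, hU3v⟩, hU3s⟩ := (LocallyConvexSpace.convex_basis (𝕜 := ℝ) s).mem_iff.1 hU2
  have hcl : closure U3 ⊆ U2 := closure_minimal hU3s hU2c
  refine ⟨s, hs, U3, hU3, closure U3 ∩ C, isClosed_closure.inter isClosed_closure,
    hU3v.closure.inter hCv, fun z hz => hCX hz.2,
    fun z hz => ⟨subset_closure hz.1, hSC hz.2⟩, fun z hz z' hz' => ?_⟩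
  by_contra hge
  have h1 : (z, z') ∈ P := ⟨hz.2, hz'.2, not_lt.1 hge⟩
  exact hsub (mk_mem_prod (hU2s (hcl hz.1)).1 (hU2s (hcl hz'.1)).2) (subset_closure h1)

lemma int_cont {Z F : Type*} [TopologicalSpace Z] [CompactSpace Z] [MeasurableSpace Z]
    [OpensMeasurableSpace Z] [NormedAddCommGroup F] (μ : Measure Z) [IsFiniteMeasure μ]
    {f : Z → F} (hf : Continuous f) : Integrable f μ := by
  obtain ⟨C, hC⟩ := (isCompact_range hf).isBounded.exists_norm_le
  exact Integrable.of_bound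
    (hf.stronglyMeasurable_of_hasCompactSupport
      (HasCompactSupport.of_compactSpace _)).aestronglyMeasurable C
    (Eventually.of_forall fun z => hC _ (mem_range_self z))

variable [MeasurableSpace X] [BorelSpace X]

lemma exists_bary (hXc : IsCompact X) (hXv : Convex ℝ X) (ν : Measure X) [IsFiniteMeasure ν]
    {B : Set X} (hB : MeasurableSet B) (h0 : ν B ≠ 0) {D : Set V} (hDc : IsClosed D)
    (hDv : Convex ℝ D) (hBD : ∀ x ∈ B, (x : V) ∈ D) :
    ∃ r ∈ D ∩ X, ∀ l : V →L[ℝ] ℝ, ν.real B * l r = ∫ x in B, l x ∂ν := by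
  classical
  have : CompactSpace X := isCompact_iff_compactSpace.1 hXc
  have hc : IsCompact (D ∩ X) := hXc.inter_left hDc
  have hpos : ν.real B ≠ 0 := (ENNReal.toReal_pos h0 (measure_ne_top _ _)).ne'
  have := hc.inter_iInter_nonempty
    (fun l : V →L[ℝ] ℝ => {r | ν.real B * l r = ∫ x in B, l x ∂ν})
    (fun l => isClosed_eq (continuous_const.mul l.continuous) continuous_const) (fun u => ?_)
  · obtain ⟨r, hr, hr'⟩ := this
    exact ⟨r, hr, fun l => mem_iInter.1 hr' l⟩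
  let L : V →L[ℝ] (u → ℝ) := ContinuousLinearMap.pi fun i => i.1
  have hL : Continuous fun x : X => L x := L.continuous.comp continuous_subtype_val
  have hint : IntegrableOn (fun x : X => L x) B ν := (int_cont ν hL).integrableOn
  have hmem := Convex.set_average_mem (s := L '' (D ∩ X)) (μ := ν) (t := B)
    (f := fun x : X => L x) ((hDv.inter hXv).linear_image (L : V →ₗ[ℝ] (u → ℝ)))
    (hc.image L.continuous).isClosed h0 (measure_ne_top _ _)
    ((ae_restrict_iff' hB).2 (Eventually.of_forall fun x hx => ⟨x, ⟨hBD x hx, x.2⟩, rfl⟩)) hint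
  obtain ⟨r, hr, hr'⟩ := hmem
  refine ⟨r, hr, mem_iInter₂.2 fun l hl => ?_⟩
  have e := congrFun hr' ⟨l, hl⟩
  rw [setAverage_eq] at e
  have e2 := (ContinuousLinearMap.proj (R := ℝ) (φ := fun _ : u => ℝ) ⟨l, hl⟩).integral_comp_comm
    hint
  simp only [ContinuousLinearMap.proj_apply] at e2
  simp only [Pi.smul_apply, smul_eq_mul, ← e2] at e
  show ν.real B * l r = ∫ x in B, l x ∂ν
  have e3 : l r = (ν.real B)⁻¹ * ∫ x in B, l x ∂ν := e
  rw [e3, ← mul_assoc, mul_inv_cancel₀ hpos, one_mul]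

end Pool.Agent.H2.Mk
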