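import Pool.Agent.H2.MkA

open MeasureTheory Set Filter Topology
open scoped ENNReal BoundedContinuousFunction

namespace Pool.Agent.H2.Mk

set_option linter.unusedSectionVars false

variable {V : Type*} [AddCommGroup V] [Module ℝ V] [TopologicalSpace V] [IsTopologicalAddGroup V]
  [ContinuousSMul ℝ V] [LocallyConvexSpace ℝ V] [T2Space V] {X : Set V}
  [MeasurableSpace X] [BorelSpace X]

lemma eq_of_dual {x y : V} (h : ∀ l : V →L[ℝ] ℝ, l x = l y) : x = y := by
  by_contra hne
  obtain ⟨l, hl⟩ := SeparatingDual.exists_separating_of_ne (R := ℝ) hne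
  exact hl (h l)

theorem bary_formula (hXc : IsCompact X) (hXv : Convex ℝ X) {h : V → ℝ} (haff : AffOn X h)
    {hn : ℕ → V → ℝ} (hc : ∀ n, ContinuousOn (hn n) X)
    (hl : ∀ z ∈ X, Tendsto (fun n => hn n z) atTop (𝓝 (h z))) {M : ℝ} (hM : ∀ z ∈ X, |h z| ≤ M)
    (ν : Measure X) [IsFiniteMeasure ν] [ν.InnerRegularCompactLTTop] {r : V} (hr : r ∈ X)
    (hrl : ∀ l : V →L[ℝ] ℝ, ν.real univ * l r = ∫ x, l x ∂ν) :
    ν.real univ * h r = ∫ x, h x ∂ν := by
  have : CompactSpace X := isCompact_iff_compactSpace.1 hXc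
  have hm : Measurable fun x : X => h x :=
    measurable_of_tendsto_metrizable (f := fun n (x : X) => hn n x)
      (fun n => (hc n).restrict.measurable) (tendsto_pi_nhds.2 fun x => hl x x.2)
  have hint : Integrable (fun x : X => h x) ν :=
    Integrable.of_bound hm.aestronglyMeasurable M (Eventually.of_forall fun x => hM x x.2)
  have hlint : ∀ l : V →L[ℝ] ℝ, Integrable (fun x : X => l x) ν :=
    fun l => int_cont ν (l.continuous.comp continuous_subtype_val)
  have hex : ∀ B : Set X, ∃ r ∈ X, MeasurableSet B →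
      ∀ l : V →L[ℝ] ℝ, ν.real B * l r = ∫ x in B, l x ∂ν := by
    intro B
    by_cases hB : MeasurableSet B
    · by_cases h0 : ν B = 0
      · refine ⟨r, hr, fun _ l => ?_⟩
        rw [Measure.restrict_eq_zero.2 h0]
        simp [Measure.real, h0]
      · obtain ⟨r', hr', h'⟩ := exists_bary hXc hXv ν hB h0 isClosed_univ convex_univ
          (fun _ _ => mem_univ _)
        exact ⟨r', hr'.2, fun _ => h'⟩
    · exact ⟨r, hr, fun h => absurd h hB⟩
  choose R hRX hR using hex
  have huniq : ∀ B, MeasurableSet B → ν.real B ≠ 0 → ∀ r' : V,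
      (∀ l : V →L[ℝ] ℝ, ν.real B * l r' = ∫ x in B, l x ∂ν) → r' = R B :=
    fun B hB h0 r' h' => eq_of_dual fun l =>
      mul_left_cancel₀ h0 ((h' l).trans (hR B hB l).symm)
  let Δ : Set X → ℝ := fun B => ∫ x in B, h x ∂ν - ν.real B * h (R B)
  have hbd : ∀ B, |Δ B| ≤ 2 * M * ν.real B := by
    intro B
    have h1 : ‖∫ x in B, h x ∂ν‖ ≤ M * ν.real B :=
      norm_setIntegral_le_of_norm_le_const (measure_lt_top _ _) fun x _ => hM x x.2
    have h2 : |ν.real B * h (R B)| ≤ ν.real B * M := by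
      rw [abs_mul, abs_of_nonneg measureReal_nonneg]
      exact mul_le_mul_of_nonneg_left (hM _ (hRX B)) measureReal_nonneg
    rw [Real.norm_eq_abs] at h1
    have := abs_sub (∫ x in B, h x ∂ν) (ν.real B * h (R B))
    simp only [Δ]
    linarith
  have hadd : ∀ B A, MeasurableSet B → MeasurableSet A → Δ B = Δ (B ∩ A) + Δ (B \ A) := by
    intro B A hB hA
    have hm' : ν.real (B ∩ A) + ν.real (B \ A) = ν.real B := measureReal_inter_add_sdiff hA
    have hi : ∀ g : X → ℝ, Integrable g ν →
        ∫ x in B ∩ A, g x ∂ν + ∫ x in B \ A, g x ∂ν = ∫ x in B, g x ∂ν :=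
      fun g hg => integral_inter_add_sdiff hA hg.integrableOn
    have key : ν.real B * h (R B) =
        ν.real (B ∩ A) * h (R (B ∩ A)) + ν.real (B \ A) * h (R (B \ A)) := by
      have p1 : 0 ≤ ν.real (B ∩ A) := measureReal_nonneg
      have p2 : 0 ≤ ν.real (B \ A) := measureReal_nonneg
      by_cases h0 : ν.real B = 0
      · have e1 : ν.real (B ∩ A) = 0 := by linarith
        have e2 : ν.real (B \ A) = 0 := by linarith
        rw [h0, e1, e2]; simp
      · have hp : 0 < ν.real B := lt_of_le_of_ne measureReal_nonneg (Ne.symm h0)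
        have e := huniq B hB h0 ((ν.real (B ∩ A) / ν.real B) • R (B ∩ A) +
          (ν.real (B \ A) / ν.real B) • R (B \ A)) (fun l => by
            rw [← hi _ (hlint l), ← hR _ (hB.inter hA) l, ← hR _ (hB.diff hA) l, map_add,
              map_smul, map_smul, smul_eq_mul, smul_eq_mul]
            field_simp)
        rw [← e, haff _ (hRX _) _ (hRX _) _ _ (by positivity) (by positivity)
          (by rw [← add_div, hm', div_self h0]), smul_eq_mul, smul_eq_mul]
        field_simp
    simp only [Δ]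
    rw [key, ← hi _ hint]
    ring
  have main : ∀ ε : ℝ, 0 < ε → |Δ univ| ≤ ε * ν.real univ := by
    intro ε hε
    let G : Set X → Prop := fun U => ∀ B, MeasurableSet B → B ⊆ U → |Δ B| ≤ ε * ν.real B
    have hGu : ∀ A U : Set X, MeasurableSet A → G A → G U → G (A ∪ U) := by
      intro A U hA h1 h2 B hB hsub
      rw [hadd B A hB hA, ← measureReal_inter_add_sdiff (s := B) hA, mul_add]
      refine (abs_add_le _ _).trans (add_le_add (h1 _ (hB.inter hA) inter_subset_right)
        (h2 _ (hB.diff hA) fun x hx => (hsub hx.1).resolve_left hx.2))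
    let O : Set X := ⋃₀ {U | IsOpen U ∧ G U}
    have hO : IsOpen O := isOpen_sUnion fun U hU => hU.1
    have hGO : G O := by
      intro B hB hsub
      refine le_of_forall_pos_le_add fun δ hδ => ?_
      have hM0 : 0 ≤ M := (abs_nonneg _).trans (hM r hr)
      obtain ⟨K, hKB, hK, hKm⟩ := hB.exists_isCompact_sdiff_lt (μ := ν) (measure_ne_top _ _)
        (ε := ENNReal.ofReal (δ / (2 * M + 1))) (by simp; positivity)
      have hKG : ∃ U, IsOpen U ∧ G U ∧ K ⊆ U := by
        refine hK.induction_on (p := fun K => ∃ U, IsOpen U ∧ G U ∧ K ⊆ U) ?_ ?_ ?_ ?_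
        · refine ⟨∅, isOpen_empty, fun B _ hB' => ?_, subset_rfl⟩
          rw [subset_empty_iff.1 hB']
          simp [Δ]
        · rintro s t hst ⟨U, h1, h2, h3⟩
          exact ⟨U, h1, h2, hst.trans h3⟩
        · rintro s t ⟨U, h1, h2, h3⟩ ⟨U', h1', h2', h3'⟩
          exact ⟨U ∪ U', h1.union h1', hGu _ _ h1.measurableSet h2 h2', union_subset_union h3 h3'⟩
        · intro x hx
          obtain ⟨U, hU, hxU⟩ := hsub (hKB hx)
          exact ⟨U, mem_nhdsWithin_of_mem_nhds (hU.1.mem_nhds hxU), U, hU.1, hU.2, subset_rfl⟩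
      obtain ⟨U, -, hU, hKU⟩ := hKG
      have hKm' : ν.real (B \ K) ≤ δ / (2 * M + 1) :=
        ENNReal.toReal_le_of_le_ofReal (by positivity) hKm.le
      have h1 := hU _ (hB.inter hK.measurableSet) (inter_subset_right.trans hKU)
      have h2 := hbd (B \ K)
      have h3 : ν.real (B ∩ K) ≤ ν.real B := measureReal_mono inter_subset_left
      have h4 : 2 * M * ν.real (B \ K) ≤ δ := by
        calc 2 * M * ν.real (B \ K) ≤ (2 * M + 1) * (δ / (2 * M + 1)) := by
              gcongr; linarith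
          _ = δ := by field_simp
      rw [hadd B K hB hK.measurableSet]
      have h5 := abs_add_le (Δ (B ∩ K)) (Δ (B \ K))
      nlinarith [mul_le_mul_of_nonneg_left h3 hε.le]
    have hOu : O = univ := by
      by_contra hne
      have hne' : (Subtype.val '' Oᶜ).Nonempty := (nonempty_compl.2 hne).image _
      obtain ⟨_, ⟨s, hs, rfl⟩, W, hW, D, hDc, hDv, hDX, hWD, hD⟩ :=
        local_small hXc hXv haff hc hl (S := Subtype.val '' Oᶜ)
          (by rintro _ ⟨x, _, rfl⟩; exact x.2) hne' hε
      obtain ⟨W', hW'W, hW'o, hsW'⟩ := mem_nhds_iff.1 hW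
      have hG1 : G (Subtype.val ⁻¹' W' ∩ Oᶜ) := by
        intro B hB hsub
        by_cases h0 : ν B = 0
        · have := hbd B
          simp only [Measure.real, h0, ENNReal.toReal_zero, mul_zero] at this ⊢
          exact this
        · have hBD : ∀ x ∈ B, (x : V) ∈ D := fun x hx =>
            hWD ⟨hW'W (hsub hx).1, x, (hsub hx).2, rfl⟩
          obtain ⟨r', hr', h'⟩ := exists_bary hXc hXv ν hB h0 hDc hDv hBD
          have e := huniq B hB (ENNReal.toReal_pos h0 (measure_ne_top _ _)).ne' r' h'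
          have e2 : Δ B = ∫ x in B, (h x - h r') ∂ν := by
            rw [integral_sub hint.integrableOn (integrable_const _).integrableOn,
              setIntegral_const, smul_eq_mul, e]
          rw [e2, ← Real.norm_eq_abs]
          refine norm_setIntegral_le_of_norm_le_const (measure_lt_top _ _) fun x hx => ?_
          rw [Real.norm_eq_abs, abs_le]
          constructor
          · linarith [hD _ hr'.1 _ (hBD x hx)]
          · linarith [hD _ (hBD x hx) _ hr'.1]
      have hG2 := hGu O _ hO.measurableSet hGO hG1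
      refine hs ⟨Subtype.val ⁻¹' W', ⟨hW'o.preimage continuous_subtype_val, ?_⟩, hsW'⟩
      intro B hB hsub
      refine hG2 B hB fun x hx => ?_
      by_cases hxO : x ∈ O
      · exact Or.inl hxO
      · exact Or.inr ⟨hsub hx, hxO⟩
    exact hGO univ MeasurableSet.univ (by rw [hOu])
  have hΔ : Δ univ = 0 := by
    refine abs_nonpos_iff.1 (le_of_forall_pos_le_add fun δ hδ => ?_)
    have p : 0 ≤ ν.real univ := measureReal_nonneg
    have := main (δ / (ν.real univ + 1)) (by positivity)
    calc |Δ univ| ≤ δ / (ν.real univ + 1) * ν.real univ := this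
      _ ≤ δ / (ν.real univ + 1) * (ν.real univ + 1) := by gcongr; linarith
      _ = 0 + δ := by field_simp; ring
  simp only [Δ, Measure.restrict_univ] at hΔ
  by_cases h0 : ν.real univ = 0
  · rw [h0] at hΔ ⊢
    linarith
  · rw [huniq univ MeasurableSet.univ h0 r (by simpa using hrl)]
    linarith

lemma tendsto_trunc {Z : Type*} [TopologicalSpace Z] [CompactSpace Z] [MeasurableSpace Z]
    [OpensMeasurableSpace Z] {hn : ℕ → Z → ℝ} {h : Z → ℝ} (hc : ∀ n, Continuous (hn n))
    (hl : ∀ z, Tendsto (fun n => hn n z) atTop (𝓝 (h z))) {M : ℝ} (hM : ∀ z, |h z| ≤ M)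
    (ν : Measure Z) [IsFiniteMeasure ν] :
    Tendsto (fun n => ∫ z, max (-M) (min M (hn n z)) ∂ν) atTop (𝓝 (∫ z, h z ∂ν)) := by
  refine tendsto_integral_of_dominated_convergence (fun _ => |M|)
    (fun n => (continuous_const.max (continuous_const.min (hc n))).measurable.aestronglyMeasurable)
    (integrable_const _) (fun n => Eventually.of_forall fun z => ?_)
    (Eventually.of_forall fun z => ?_)
  · rw [Real.norm_eq_abs, abs_le]
    constructor
    · exact le_max_of_le_left (by linarith [le_abs_self M])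
    · exact max_le (by linarith [neg_abs_le M]) ((min_le_left _ _).trans (le_abs_self M))
  · have := (tendsto_const_nhds (x := -M)).max ((tendsto_const_nhds (x := M)).min (hl z))
    rwa [min_eq_right (abs_le.1 (hM z)).2, max_eq_right (abs_le.1 (hM z)).1] at this

theorem integral_eq_of_affine (hXc : IsCompact X) (hXv : Convex ℝ X) {h : V → ℝ}
    (haff : AffOn X h) {hn : ℕ → V → ℝ} (hc : ∀ n, ContinuousOn (hn n) X)
    (hl : ∀ z ∈ X, Tendsto (fun n => hn n z) atTop (𝓝 (h z))) {M : ℝ} (hM : ∀ z ∈ X, |h z| ≤ M)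
    (ν₁ ν₂ : Measure X) [IsFiniteMeasure ν₁] [IsFiniteMeasure ν₂]
    (h1 : ν₁.real univ = ν₂.real univ)
    (h2 : ∀ l : V →L[ℝ] ℝ, ∫ x, l x ∂ν₁ = ∫ x, l x ∂ν₂) :
    ∫ x, h x ∂ν₁ = ∫ x, h x ∂ν₂ := by
  have : CompactSpace X := isCompact_iff_compactSpace.1 hXc
  have reg : ∀ (ν : Measure X) [IsFiniteMeasure ν], ∃ ρ : Measure X, ρ.Regular ∧
      IsFiniteMeasure ρ ∧ (∀ g : X → ℝ, Continuous g → ∫ x, g x ∂ν = ∫ x, g x ∂ρ) ∧
      ∫ x, h x ∂ν = ∫ x, h x ∂ρ := by
    intro ν _
    obtain ⟨ρ, r1, r2, r3⟩ := ν.exists_regular_eq_of_compactSpace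
    have r4 : ∀ g : X → ℝ, Continuous g → ∫ x, g x ∂ν = ∫ x, g x ∂ρ := fun g hg =>
      r3 (BoundedContinuousFunction.mkOfCompact ⟨g, hg⟩)
    refine ⟨ρ, r1, r2, r4, ?_⟩
    have t1 := tendsto_trunc (hn := fun n (x : X) => hn n x) (h := fun x : X => h x)
      (fun n => (hc n).restrict) (fun x => hl x x.2) (fun x => hM x x.2) ν
    have t2 := tendsto_trunc (hn := fun n (x : X) => hn n x) (h := fun x : X => h x)
      (fun n => (hc n).restrict) (fun x => hl x x.2) (fun x => hM x x.2) ρ
    refine tendsto_nhds_unique t1 (t2.congr fun n => (r4 _ ?_).symm)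
    exact continuous_const.max (continuous_const.min (hc n).restrict)
  obtain ⟨ρ₁, a1, a2, a3, a4⟩ := reg ν₁
  obtain ⟨ρ₂, b1, b2, b3, b4⟩ := reg ν₂
  have hlc : ∀ l : V →L[ℝ] ℝ, Continuous fun x : X => l x :=
    fun l => l.continuous.comp continuous_subtype_val
  have m1 : ρ₁.real univ = ρ₂.real univ := by
    have e1 := a3 (fun _ => 1) continuous_const
    have e2 := b3 (fun _ => 1) continuous_const
    simp only [integral_const, smul_eq_mul, mul_one] at e1 e2
    rw [← e1, ← e2, h1]
  rw [a4, b4]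
  by_cases h0 : ρ₁ univ = 0
  · have h0' : ρ₂ univ = 0 := by
      have : ρ₂.real univ = 0 := by rw [← m1]; simp [Measure.real, h0]
      exact (measureReal_eq_zero_iff (measure_ne_top _ _)).1 this
    rw [Measure.measure_univ_eq_zero.1 h0, Measure.measure_univ_eq_zero.1 h0']
  · obtain ⟨r, hr, hr'⟩ := exists_bary hXc hXv ρ₁ MeasurableSet.univ h0 isClosed_univ convex_univ
      (fun _ _ => mem_univ _)
    simp only [Measure.restrict_univ] at hr'
    rw [← bary_formula hXc hXv haff hc hl hM ρ₁ hr.2 hr',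
      ← bary_formula hXc hXv haff hc hl hM ρ₂ hr.2 (fun l => by
        rw [← m1, hr', ← a3 _ (hlc l), ← b3 _ (hlc l), h2]), m1]

end Pool.Agent.H2.Mk
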