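import Pool.Agent.H2.MkB

open MeasureTheory Set Filter Topology
open scoped ENNReal CompactlySupported

namespace Pool.Agent.H2.Mk

set_option linter.unusedSectionVars false

/-- Approximation property, written with real finite sums. -/
def FinAP (E : Type*) [NormedAddCommGroup E] [NormedSpace ℝ E] : Prop :=
  ∀ K : Set E, IsCompact K → ∀ ε : ℝ, 0 < ε → ∃ (n : ℕ) (φ : Fin n → E →L[ℝ] ℝ) (y : Fin n → E),
    ∀ x ∈ K, ‖∑ i, φ i x • y i - x‖ < ε

variable {E : Type*} [NormedAddCommGroup E] [NormedSpace ℝ E] [CompleteSpace E]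
variable {Z : Type*} [TopologicalSpace Z] [CompactSpace Z] [MeasurableSpace Z] [BorelSpace Z]

lemma sm_of_cont {F : Z → E} (hF : Continuous F) : StronglyMeasurable F :=
  hF.stronglyMeasurable_of_hasCompactSupport (HasCompactSupport.of_compactSpace _)

lemma l1_approx (hAP : FinAP E) {Fn : ℕ → Z → E} {F : Z → E} (hc : ∀ n, Continuous (Fn n))
    (hl : ∀ z, Tendsto (fun n => Fn n z) atTop (𝓝 (F z))) {M : ℝ} (hM : ∀ z, ‖F z‖ ≤ M)
    (ρ : Measure Z) [IsFiniteMeasure ρ] {ε : ℝ} (hε : 0 < ε) :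
    ∃ (n : ℕ) (φ : Fin n → E →L[ℝ] ℝ) (y : Fin n → E),
      ∫⁻ z, ‖∑ i, φ i (F z) • y i - F z‖ₑ ∂ρ ≤ ENNReal.ofReal ε := by
  have hsm : StronglyMeasurable F :=
    stronglyMeasurable_of_tendsto atTop (fun n => sm_of_cont (hc n)) (tendsto_pi_nhds.2 hl)
  have heg : ∀ k : ℕ, ∃ t, MeasurableSet t ∧ ρ t ≤ ENNReal.ofReal ((1 / 4) ^ k) ∧
      TendstoUniformlyOn Fn F atTop tᶜ := fun k =>
    tendstoUniformlyOn_of_ae_tendsto' (fun n => sm_of_cont (hc n)) hsm
      (Eventually.of_forall hl) (by positivity)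
  choose t ht1 ht2 ht3 using heg
  have htb : ∀ k, TotallyBounded (F '' (t k)ᶜ) := by
    intro k
    refine Metric.totallyBounded_iff.2 fun δ hδ => ?_
    obtain ⟨n, hn⟩ := (Metric.tendstoUniformlyOn_iff.1 (ht3 k) (δ / 2) (by positivity)).exists
    obtain ⟨s, hs, hsub⟩ := Metric.totallyBounded_iff.1
      (isCompact_range (hc n)).totallyBounded (δ / 2) (by positivity)
    refine ⟨s, hs, ?_⟩
    rintro _ ⟨z, hz, rfl⟩
    obtain ⟨y, hy, hy'⟩ := mem_iUnion₂.1 (hsub (mem_range_self z))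
    refine mem_iUnion₂.2 ⟨y, hy, ?_⟩
    have := hn z hz
    rw [Metric.mem_ball] at hy' ⊢
    linarith [dist_triangle (F z) (Fn n z) y]
  let K0 : Set E := ⋃ k : ℕ, (fun v => ((1 / 2 : ℝ) ^ k) • v) '' (F '' (t k)ᶜ)
  have hK0 : TotallyBounded K0 := by
    refine Metric.totallyBounded_iff.2 fun δ hδ => ?_
    obtain ⟨k0, hk0⟩ := exists_pow_lt_of_lt_one (show 0 < δ / (|M| + 1) by positivity)
      (show (1 / 2 : ℝ) < 1 by norm_num)
    have h1 : TotallyBounded (⋃ k ∈ Iio k0, (fun v => ((1 / 2 : ℝ) ^ k) • v) '' (F '' (t k)ᶜ)) :=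
      (totallyBounded_biUnion (finite_Iio k0)).2 fun k _ =>
        (htb k).image (uniformContinuous_const_smul _)
    obtain ⟨s, hs, hsub⟩ := Metric.totallyBounded_iff.1 h1 δ hδ
    refine ⟨insert 0 s, hs.insert 0, fun v hv => ?_⟩
    obtain ⟨k, hk⟩ := mem_iUnion.1 hv
    by_cases hkk : k < k0
    · obtain ⟨y, hy, hy'⟩ := mem_iUnion₂.1 (hsub (mem_iUnion₂.2 ⟨k, hkk, hk⟩))
      exact mem_iUnion₂.2 ⟨y, mem_insert_of_mem _ hy, hy'⟩
    · obtain ⟨_, ⟨z, -, rfl⟩, rfl⟩ := hk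
      refine mem_iUnion₂.2 ⟨0, mem_insert _ _, ?_⟩
      rw [mem_ball_zero_iff, norm_smul, Real.norm_eq_abs, abs_of_nonneg (by positivity)]
      have h2 : (1 / 2 : ℝ) ^ k ≤ (1 / 2) ^ k0 :=
        pow_le_pow_of_le_one (by norm_num) (by norm_num) (not_lt.1 hkk)
      have h3 : ‖F z‖ ≤ |M| + 1 := by linarith [hM z, le_abs_self M]
      rw [lt_div_iff₀ (by positivity)] at hk0
      calc (1 / 2 : ℝ) ^ k * ‖F z‖ ≤ (1 / 2) ^ k0 * (|M| + 1) := by gcongr
        _ < δ := hk0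
  let w : Z → ℝ≥0∞ := fun z =>
    1 + ∑' k : ℕ, (t k).indicator (fun _ => ENNReal.ofReal (2 ^ (k + 1))) z
  have hw : ∫⁻ z, w z ∂ρ ≠ ∞ := by
    simp only [w]
    rw [lintegral_add_left measurable_const, lintegral_tsum fun k =>
      (measurable_const.indicator (ht1 k)).aemeasurable]
    refine ENNReal.add_ne_top.2 ⟨by simp, ?_⟩
    have hs : Summable fun k : ℕ => (2 : ℝ) * (1 / 2) ^ k := summable_geometric_two.mul_left 2
    refine ne_top_of_le_ne_top hs.tsum_ofReal_ne_top (ENNReal.tsum_le_tsum fun k => ?_)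
    rw [lintegral_indicator_const (ht1 k)]
    calc ENNReal.ofReal (2 ^ (k + 1)) * ρ (t k)
        ≤ ENNReal.ofReal (2 ^ (k + 1)) * ENNReal.ofReal ((1 / 4) ^ k) := by gcongr; exact ht2 k
      _ = ENNReal.ofReal (2 * (1 / 2) ^ k) := by
        rw [← ENNReal.ofReal_mul (by positivity), pow_succ, mul_comm _ (2 : ℝ), mul_assoc,
          ← mul_pow]
        norm_num
  set c := (∫⁻ z, w z ∂ρ).toReal with hcdef
  have hc0 : 0 ≤ c := ENNReal.toReal_nonneg
  set η := ε / (c + 1) with hη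
  have hη0 : 0 < η := by positivity
  obtain ⟨n, φ, y, hφ⟩ := hAP (closure K0) (hK0.closure.isCompact_of_isClosed isClosed_closure)
    η hη0
  refine ⟨n, φ, y, ?_⟩
  have hk : ∀ z k, z ∉ t k → ‖∑ i, φ i (F z) • y i - F z‖ ≤ η * 2 ^ k := by
    intro z k hz
    have h1 := hφ _ (subset_closure (mem_iUnion.2 ⟨k, F z, ⟨z, hz, rfl⟩, rfl⟩))
    have e : ∑ i, φ i (((1 / 2 : ℝ) ^ k) • F z) • y i - ((1 / 2 : ℝ) ^ k) • F z =
        ((1 / 2 : ℝ) ^ k) • (∑ i, φ i (F z) • y i - F z) := by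
      simp only [map_smul, smul_sub, Finset.smul_sum, smul_eq_mul, mul_smul]
    simp only at h1
    rw [e, norm_smul, Real.norm_eq_abs, abs_of_nonneg (by positivity), one_div, inv_pow,
      inv_mul_lt_iff₀ (by positivity), mul_comm] at h1
    exact h1.le
  have hpt : ∀ z, ‖∑ i, φ i (F z) • y i - F z‖ₑ ≤ ENNReal.ofReal η * w z := by
    intro z
    have key : ‖∑ i, φ i (F z) • y i - F z‖ ≤ η ∨
        ∃ k, z ∈ t k ∧ ‖∑ i, φ i (F z) • y i - F z‖ ≤ η * 2 ^ (k + 1) := by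
      by_cases hall : ∀ k, z ∈ t k
      · obtain ⟨k, hk'⟩ := pow_unbounded_of_one_lt (‖∑ i, φ i (F z) • y i - F z‖ / η)
          (show (1 : ℝ) < 2 by norm_num)
        rw [div_lt_iff₀ hη0] at hk'
        refine Or.inr ⟨k, hall k, ?_⟩
        rw [pow_succ]
        have : (0 : ℝ) < 2 ^ k * η := by positivity
        nlinarith
      · push Not at hall
        classical
        have h1 := Nat.find_spec hall
        rcases hfind : Nat.find hall with _ | k
        · rw [hfind] at h1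
          left
          simpa using hk z 0 h1
        · rw [hfind] at h1
          refine Or.inr ⟨k, ?_, hk z _ h1⟩
          have := Nat.find_min hall (show k < Nat.find hall by omega)
          exact not_not.1 this
    rw [← ofReal_norm]
    rcases key with h1 | ⟨k, h1, h2⟩
    · calc _ ≤ ENNReal.ofReal η * 1 := by rw [mul_one]; exact ENNReal.ofReal_le_ofReal h1
        _ ≤ _ := by gcongr; exact le_self_add
    · calc _ ≤ ENNReal.ofReal η * ENNReal.ofReal (2 ^ (k + 1)) := by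
            rw [← ENNReal.ofReal_mul hη0.le]; exact ENNReal.ofReal_le_ofReal h2
        _ ≤ _ := by
            gcongr
            refine le_add_left (le_trans ?_ (ENNReal.le_tsum k))
            rw [indicator_of_mem h1]
  calc _ ≤ ∫⁻ z, ENNReal.ofReal η * w z ∂ρ := lintegral_mono hpt
    _ = ENNReal.ofReal η * ENNReal.ofReal c := by
        rw [lintegral_const_mul' _ _ ENNReal.ofReal_ne_top, hcdef, ENNReal.ofReal_toReal hw]
    _ ≤ ENNReal.ofReal ε := by
        rw [← ENNReal.ofReal_mul hη0.le]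
        refine ENNReal.ofReal_le_ofReal ?_
        rw [hη, div_mul_eq_mul_div, div_le_iff₀ (by positivity)]
        nlinarith

lemma rep [T2Space Z] {G : Type*} [AddCommGroup G] [Module ℝ G] (J : G →ₗ[ℝ] C(Z, ℝ))
    (hJ : Function.Injective J) (Λ : G →ₗ[ℝ] ℝ) {c : ℝ} (hc : 0 ≤ c)
    (h : ∀ g, Λ g ≤ c * ‖J g ⊔ 0‖) :
    ∃ μ : Measure Z, IsFiniteMeasure μ ∧ μ.real univ ≤ c ∧ ∀ g, ∫ z, J g z ∂μ = Λ g := by
  let e := LinearEquiv.ofInjective J hJ
  let f : C(Z, ℝ) →ₗ.[ℝ] ℝ := ⟨LinearMap.range J, Λ ∘ₗ e.symm.toLinearMap⟩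
  have hle : ∀ u : C(Z, ℝ), ∀ z, u z ≤ ‖u ⊔ 0‖ := fun u z =>
    le_trans (le_trans (le_max_left _ _) (le_abs_self _)) ((u ⊔ 0).norm_coe_le_norm z)
  have hbd : ∀ (u : C(Z, ℝ)) (C : ℝ), 0 ≤ C → (∀ z, u z ≤ C) → ‖u ⊔ 0‖ ≤ C := by
    intro u C hC hu
    refine (ContinuousMap.norm_le _ hC).2 fun z => ?_
    rw [Real.norm_eq_abs, ContinuousMap.sup_apply, abs_of_nonneg (le_max_right _ _)]
    exact max_le (hu z) hC
  obtain ⟨L, hL1, hL2⟩ := exists_extension_of_le_sublinear f (fun u => c * ‖u ⊔ 0‖)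
    (fun a ha u => by
      have : (a • u) ⊔ 0 = a • (u ⊔ 0) := by
        ext z
        simp [mul_max_of_nonneg _ _ ha.le]
      simp only [this, norm_smul, Real.norm_eq_abs, abs_of_pos ha]
      ring)
    (fun u v => by
      have := hbd (u + v) (‖u ⊔ 0‖ + ‖v ⊔ 0‖) (by positivity)
        fun z => add_le_add (hle u z) (hle v z)
      nlinarith)
    (fun x => by
      obtain ⟨g, rfl⟩ := e.surjective x
      have : f (e g) = Λ g := by
        show Λ (e.symm (e g)) = Λ g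
        rw [e.symm_apply_apply]
      rw [this]
      exact h g)
  have hpos : ∀ u : C(Z, ℝ), (∀ z, u z ≤ 0) → L u ≤ 0 := by
    intro u hu
    have h1 := hL2 u
    have h2 := hbd u 0 le_rfl hu
    nlinarith
  let Λ' : C_c(Z, ℝ) →ₚ[ℝ] ℝ :=
  { toFun g := L g.toContinuousMap
    map_add' g g' := L.map_add _ _
    map_smul' a g := L.map_smul _ _
    monotone' g g' hgg' := by
      have := hpos (g.toContinuousMap - g'.toContinuousMap) fun z => sub_nonpos.2 (hgg' z)
      rw [map_sub] at this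
      exact sub_nonpos.1 this }
  have key : ∀ u : C(Z, ℝ), ∫ z, u z ∂(RealRMK.rieszMeasure Λ') = L u := fun u =>
    RealRMK.integral_rieszMeasure Λ' ⟨u, HasCompactSupport.of_compactSpace _⟩
  refine ⟨RealRMK.rieszMeasure Λ', inferInstance, ?_, fun g => ?_⟩
  · have h1 := key 1
    simp only [ContinuousMap.one_apply, integral_const, smul_eq_mul, mul_one] at h1
    rw [h1]
    have h2 := hL2 1
    have h3 := hbd 1 1 zero_le_one fun z => le_rfl
    nlinarith
  · rw [key]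
    have := hL1 (e g)
    have h2 : f (e g) = Λ g := by
      show Λ (e.symm (e g)) = Λ g
      rw [e.symm_apply_apply]
    rw [h2] at this
    exact this

end Pool.Agent.H2.Mk
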