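import Pool.Agent.H2.MkC

open MeasureTheory Set Filter Topology
open scoped ENNReal

namespace Pool.Agent.H2.Mk

set_option linter.unusedSectionVars false

variable {E : Type*} [NormedAddCommGroup E] [NormedSpace ℝ E] [CompleteSpace E]

lemma cont_eval {Z : Type*} [TopologicalSpace Z] {e : Z → E →L[ℝ] ℝ} (he1 : ∀ z, ‖e z‖ ≤ 1)
    (he2 : ∀ y, Continuous fun z => e z y) {g : Z → E} (hg : Continuous g) :
    Continuous fun z => e z (g z) := by
  refine continuous_iff_continuousAt.2 fun z0 => ?_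
  have h1 : Tendsto (fun z => e z (g z - g z0)) (𝓝 z0) (𝓝 0) := by
    refine squeeze_zero_norm (a := fun z => ‖g z - g z0‖) (fun z => ?_)
      (tendsto_iff_norm_sub_tendsto_zero.1 hg.continuousAt)
    exact ((e z).le_of_opNorm_le (he1 z) _).trans (by rw [one_mul])
  have h2 := h1.add (he2 (g z0)).continuousAt
  simp only [map_sub, sub_add_cancel, zero_add] at h2
  exact h2

lemma abs_eval_le {φ : E →L[ℝ] ℝ} (h : ‖φ‖ ≤ 1) (y : E) : |φ y| ≤ ‖y‖ :=
  (φ.le_of_opNorm_le h y).trans (by rw [one_mul])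

variable {V : Type*} [AddCommGroup V] [Module ℝ V] [TopologicalSpace V] [IsTopologicalAddGroup V]
  [ContinuousSMul ℝ V] [LocallyConvexSpace ℝ V] [T2Space V] {X : Set V}
variable {Z : Type*} [TopologicalSpace Z] [CompactSpace Z] [MeasurableSpace Z] [BorelSpace Z]

lemma exists_push [MeasurableSpace X] [BorelSpace X] {π : Z → X} (hπ : Continuous π) {w : Z → ℝ}
    (hw : Continuous w) (hw0 : ∀ z, 0 ≤ w z) (μ : Measure Z) [IsFiniteMeasure μ] :
    ∃ ν : Measure X, IsFiniteMeasure ν ∧
      ∀ g : X → ℝ, Measurable g → ∫ x, g x ∂ν = ∫ z, w z * g (π z) ∂μ := by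
  have := isFiniteMeasure_withDensity_ofReal (int_cont μ hw).2
  refine ⟨(μ.withDensity fun z => ENNReal.ofReal (w z)).map π, inferInstance, fun g hg => ?_⟩
  rw [integral_map hπ.measurable.aemeasurable hg.aestronglyMeasurable,
    integral_withDensity_eq_integral_toReal_smul hw.measurable.ennreal_ofReal (by simp)]
  simp only [ENNReal.toReal_ofReal (hw0 _), smul_eq_mul]

lemma scalar_step (hXc : IsCompact X) (hXv : Convex ℝ X) {h : V → ℝ}
    (haff : AffOn X h) {hn : ℕ → V → ℝ} (hc : ∀ n, ContinuousOn (hn n) X)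
    (hl : ∀ z ∈ X, Tendsto (fun n => hn n z) atTop (𝓝 (h z))) {M : ℝ} (hM : ∀ z ∈ X, |h z| ≤ M)
    {π : Z → X} (hπ : Continuous π) {w : Z → ℝ} (hw : Continuous w)
    (μ μ' : Measure Z) [IsFiniteMeasure μ] [IsFiniteMeasure μ']
    (H1 : ∫ z, w z ∂μ = ∫ z, w z ∂μ')
    (H2 : ∀ l : V →L[ℝ] ℝ, ∫ z, l (π z) * w z ∂μ = ∫ z, l (π z) * w z ∂μ') :
    ∫ z, h (π z) * w z ∂μ = ∫ z, h (π z) * w z ∂μ' := by
  let mX : MeasurableSpace X := borel X
  have : BorelSpace X := ⟨rfl⟩
  have : CompactSpace X := isCompact_iff_compactSpace.1 hXc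
  obtain ⟨C, hC⟩ := (isCompact_range hw).isBounded.exists_norm_le
  have hC' : ∀ z, |w z| ≤ C := fun z => hC _ (mem_range_self z)
  have p1 : ∀ z, 0 ≤ C + w z := fun z => by linarith [abs_le.1 (hC' z)]
  have p2 : ∀ z, 0 ≤ C - w z := fun z => by linarith [abs_le.1 (hC' z)]
  obtain ⟨a1, _, ha1⟩ := exists_push hπ (continuous_const.add hw) p1 μ
  obtain ⟨a2, _, ha2⟩ := exists_push hπ (continuous_const.sub hw) p2 μ
  obtain ⟨b1, _, hb1⟩ := exists_push hπ (continuous_const.add hw) p1 μ'
  obtain ⟨b2, _, hb2⟩ := exists_push hπ (continuous_const.sub hw) p2 μ'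
  have key : ∀ g : X → ℝ, Measurable g → ∀ B : ℝ, (∀ x, |g x| ≤ B) →
      ∫ x, g x ∂(a1 + b2) - ∫ x, g x ∂(a2 + b1) =
        2 * (∫ z, g (π z) * w z ∂μ - ∫ z, g (π z) * w z ∂μ') := by
    intro g hg B hB
    have i0 : ∀ (ν : Measure X) [IsFiniteMeasure ν], Integrable g ν := fun ν _ =>
      Integrable.of_bound hg.aestronglyMeasurable B (Eventually.of_forall hB)
    have i1 : ∀ (m : Measure Z) [IsFiniteMeasure m], Integrable (fun z => g (π z)) m := fun m _ =>
      Integrable.of_bound (hg.comp hπ.measurable).aestronglyMeasurable B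
        (Eventually.of_forall fun z => hB _)
    have i2 : ∀ (m : Measure Z) [IsFiniteMeasure m], Integrable (fun z => g (π z) * w z) m :=
      fun m _ => (i1 m).mul_bdd hw.measurable.aestronglyMeasurable (Eventually.of_forall hC')
    have e1 : ∀ (m : Measure Z) [IsFiniteMeasure m], ∫ z, (C + w z) * g (π z) ∂m =
        C * ∫ z, g (π z) ∂m + ∫ z, g (π z) * w z ∂m := by
      intro m _
      rw [← integral_const_mul, ← integral_add ((i1 m).const_mul C) (i2 m)]
      congr 1; funext z; ring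
    have e2 : ∀ (m : Measure Z) [IsFiniteMeasure m], ∫ z, (C - w z) * g (π z) ∂m =
        C * ∫ z, g (π z) ∂m - ∫ z, g (π z) * w z ∂m := by
      intro m _
      rw [← integral_const_mul, ← integral_sub ((i1 m).const_mul C) (i2 m)]
      congr 1; funext z; ring
    rw [integral_add_measure (i0 _) (i0 _), integral_add_measure (i0 _) (i0 _), ha1 g hg, ha2 g hg,
      hb1 g hg, hb2 g hg]
    simp only [Pi.add_apply, Pi.sub_apply]
    rw [e1, e1, e2, e2]
    ring
  have hm : Measurable fun x : X => h x :=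
    measurable_of_tendsto_metrizable (f := fun n (x : X) => hn n x)
      (fun n => (hc n).restrict.measurable) (tendsto_pi_nhds.2 fun x => hl x x.2)
  have k1 := key (fun _ => 1) measurable_const 1 (by simp)
  simp only [integral_const, smul_eq_mul, mul_one, one_mul, H1, sub_self, mul_zero] at k1
  have k2 := integral_eq_of_affine hXc hXv haff hc hl hM (a1 + b2) (a2 + b1) (sub_eq_zero.1 k1)
    (fun l => by
      have hlc : Continuous fun x : X => l x := l.continuous.comp continuous_subtype_val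
      obtain ⟨B, hB⟩ := (isCompact_range hlc).isBounded.exists_norm_le
      have := key _ hlc.measurable B fun x => hB _ (mem_range_self x)
      rw [H2, sub_self, mul_zero] at this
      exact sub_eq_zero.1 this)
  have k3 := key _ hm M fun x => hM x x.2
  rw [k2, sub_self] at k3
  linarith

lemma claimA (hAP : FinAP E) (hXc : IsCompact X) (hXv : Convex ℝ X) {f : V → E}
    (haff : AffOn X f) {fn : ℕ → V → E} (hc : ∀ n, ContinuousOn (fn n) X)
    (hl : ∀ z ∈ X, Tendsto (fun n => fn n z) atTop (𝓝 (f z))) {M : ℝ} (hM : ∀ z ∈ X, ‖f z‖ ≤ M)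
    {π : Z → X} (hπ : Continuous π) {e : Z → E →L[ℝ] ℝ} (he1 : ∀ z, ‖e z‖ ≤ 1)
    (he2 : ∀ y, Continuous fun z => e z y)
    (μ μ' : Measure Z) [IsFiniteMeasure μ] [IsFiniteMeasure μ']
    (H1 : ∀ y, ∫ z, e z y ∂μ = ∫ z, e z y ∂μ')
    (H2 : ∀ (l : V →L[ℝ] ℝ) y, ∫ z, l (π z) * e z y ∂μ = ∫ z, l (π z) * e z y ∂μ') :
    ∫ z, e z (f (π z)) ∂μ = ∫ z, e z (f (π z)) ∂μ' := by
  have hFn : ∀ n, Continuous fun z => fn n (π z) := fun n => (hc n).restrict.comp hπ
  have hFl : ∀ z, Tendsto (fun n => fn n (π z)) atTop (𝓝 (f (π z))) := fun z => hl _ (π z).2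
  have hsm : StronglyMeasurable fun z => f (π z) :=
    stronglyMeasurable_of_tendsto atTop (fun n => sm_of_cont (hFn n)) (tendsto_pi_nhds.2 hFl)
  have hm : Measurable fun z => e z (f (π z)) :=
    measurable_of_tendsto_metrizable (f := fun n z => e z (fn n (π z)))
      (fun n => (cont_eval he1 he2 (hFn n)).measurable)
      (tendsto_pi_nhds.2 fun z => ((e z).continuous.tendsto _).comp (hFl z))
  have i0 : ∀ (m : Measure Z) [IsFiniteMeasure m], Integrable (fun z => e z (f (π z))) m :=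
    fun m _ => Integrable.of_bound hm.aestronglyMeasurable M (Eventually.of_forall fun z =>
      (abs_eval_le (he1 z) _).trans (hM _ (π z).2))
  have i1 : ∀ (φ : E →L[ℝ] ℝ) (y : E) (m : Measure Z) [IsFiniteMeasure m],
      Integrable (fun z => φ (f (π z)) * e z y) m := by
    intro φ y m _
    refine Integrable.mul_bdd (c := ‖y‖) ?_ (he2 y).measurable.aestronglyMeasurable
      (Eventually.of_forall fun z => abs_eval_le (he1 z) y)
    exact φ.integrable_comp (Integrable.of_bound hsm.aestronglyMeasurable M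
      (Eventually.of_forall fun z => hM _ (π z).2))
  have s1 : ∀ (φ : E →L[ℝ] ℝ) (y : E),
      ∫ z, φ (f (π z)) * e z y ∂μ = ∫ z, φ (f (π z)) * e z y ∂μ' := by
    intro φ y
    refine scalar_step hXc hXv (h := fun v => φ (f v)) (hn := fun n v => φ (fn n v))
      (M := ‖φ‖ * M) ?_ (fun n => φ.continuous.comp_continuousOn (hc n))
      (fun z hz => (φ.continuous.tendsto _).comp (hl z hz)) (fun z hz => ?_) hπ (he2 y) μ μ'
      (H1 y) (fun l => H2 l y)
    · intro x hx x' hx' a b ha hb hab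
      simp only [haff x hx x' hx' a b ha hb hab, map_add, map_smul]
    · exact φ.le_opNorm_of_le (hM z hz)
  refine eq_of_forall_dist_le fun ε hε => ?_
  obtain ⟨n, φ, y, hφ⟩ := l1_approx hAP hFn hFl (fun z => hM _ (π z).2) (μ + μ')
    (half_pos hε)
  have est : ∀ (m : Measure Z) [IsFiniteMeasure m], m ≤ μ + μ' →
      |∑ i, ∫ z, φ i (f (π z)) * e z (y i) ∂m - ∫ z, e z (f (π z)) ∂m| ≤ ε / 2 := by
    intro m _ hle
    rw [← integral_finset_sum _ fun i _ => i1 (φ i) (y i) m,
      ← integral_sub (integrable_finset_sum _ fun i _ => i1 (φ i) (y i) m) (i0 m),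
      ← Real.norm_eq_abs]
    refine (ENNReal.ofReal_le_ofReal_iff (half_pos hε).le).1 ?_
    rw [ofReal_norm]
    refine (enorm_integral_le_lintegral_enorm _).trans
      (le_trans ?_ ((lintegral_mono' hle le_rfl).trans hφ))
    refine lintegral_mono fun z => ?_
    simp only
    rw [← ofReal_norm, ← ofReal_norm]
    refine ENNReal.ofReal_le_ofReal ?_
    have := abs_eval_le (he1 z) (∑ i, φ i (f (π z)) • y i - f (π z))
    simp only [map_sub, map_sum, map_smul, smul_eq_mul] at this
    exact this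
  have e1 := abs_le.1 (est μ (Measure.le_add_right le_rfl))
  have e2 := abs_le.1 (est μ' (Measure.le_add_left le_rfl))
  simp only [s1] at e1
  rw [Real.dist_eq, abs_le]
  constructor <;> linarith [e1.1, e1.2, e2.1, e2.2]

end Pool.Agent.H2.Mk
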