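import Mathlib

open Set Filter Topology

namespace Pool.Agent.H2.Mk

/-- The approximation property over the scalar field `𝕜`. -/
def HasAP (𝕜 E : Type*) [RCLike 𝕜] [NormedAddCommGroup E] [NormedSpace 𝕜 E] : Prop :=
  ∀ K : Set E, IsCompact K → ∀ ε : ℝ, 0 < ε → ∃ T : E →L[𝕜] E,
    FiniteDimensional 𝕜 (LinearMap.range (T : E →ₗ[𝕜] E)) ∧ ∀ x ∈ K, ‖T x - x‖ < ε

/-- The bounded approximation property over the scalar field `𝕜`. -/
def HasBAP (𝕜 E : Type*) [RCLike 𝕜] [NormedAddCommGroup E] [NormedSpace 𝕜 E] : Prop :=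
  ∃ c : ℝ, 1 ≤ c ∧ ∀ K : Set E, IsCompact K → ∀ ε : ℝ, 0 < ε → ∃ T : E →L[𝕜] E,
    FiniteDimensional 𝕜 (LinearMap.range (T : E →ₗ[𝕜] E)) ∧ ‖T‖ ≤ c ∧ ∀ x ∈ K, ‖T x - x‖ < ε

variable {V : Type*} [AddCommGroup V] [Module ℝ V] [TopologicalSpace V]
variable {E : Type*} [NormedAddCommGroup E] [NormedSpace ℝ E]

/-- Affine maps on `X`. -/
def IsAff (X : Set V) (f : X → E) : Prop :=
  ∀ (x y z : X) (t : ℝ), 0 ≤ t → t ≤ 1 → (z : V) = t • (x : V) + (1 - t) • (y : V) →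
    f z = t • f x + (1 - t) • f y

/-- Maps `X → L` that are pointwise norm limits of a sequence of continuous maps `X → L`. -/
def C1 (X : Set V) (L : Set E) : Set (X → E) :=
  {f | (∀ x, f x ∈ L) ∧ ∃ g : ℕ → X → E, (∀ n, Continuous (g n) ∧ ∀ x, g n x ∈ L) ∧
    ∀ x, Tendsto (fun n => g n x) atTop (𝓝 (f x))}

/-- Maps `X → L` that are pointwise norm limits of a sequence of continuous affine maps
`X → L`. -/
def A1 (X : Set V) (L : Set E) : Set (X → E) :=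
  {f | (∀ x, f x ∈ L) ∧ ∃ g : ℕ → X → E, (∀ n, Continuous (g n) ∧ IsAff X (g n) ∧
    ∀ x, g n x ∈ L) ∧ ∀ x, Tendsto (fun n => g n x) atTop (𝓝 (f x))}

end Pool.Agent.H2.Mk
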