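import Pool.Agent.H2.MkD
import Pool.Agent.H2.MkDefs

open MeasureTheory Set Filter Topology
open scoped ENNReal

namespace Pool.Agent.H2.Mk

set_option linter.unusedSectionVars false

lemma HasBAP.hasAP {𝕜 E : Type*} [RCLike 𝕜] [NormedAddCommGroup E] [NormedSpace 𝕜 E]
    (h : HasBAP 𝕜 E) : HasAP 𝕜 E := by
  obtain ⟨c, -, h⟩ := h
  intro K hK ε hε
  obtain ⟨T, h1, -, h2⟩ := h K hK ε hε
  exact ⟨T, h1, h2⟩

lemma HasAP.finAP {𝕜 E : Type*} [RCLike 𝕜] [NormedAddCommGroup E] [NormedSpace 𝕜 E]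
    [NormedSpace ℝ E] [IsScalarTower ℝ 𝕜 E] (h : HasAP 𝕜 E) : FinAP E := by
  intro K hK ε hε
  obtain ⟨T, h1, h2⟩ := h K hK ε hε
  let R := LinearMap.range (T : E →ₗ[𝕜] E)
  have : FiniteDimensional ℝ R := Module.Finite.trans 𝕜 R
  let b := Module.finBasis ℝ R
  let T' : E →L[ℝ] R :=
    (T.codRestrict R fun x => LinearMap.mem_range_self _ x).restrictScalars ℝ
  refine ⟨_, fun i => (LinearMap.toContinuousLinearMap (b.coord i)).comp T', fun i => b i,
    fun x hx => ?_⟩
  have e := congrArg (fun v : R => (v : E)) (b.sum_repr (T' x))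
  simp only [AddSubmonoidClass.coe_finset_sum, Submodule.coe_smul_of_tower] at e
  have e2 : ∑ i, ((LinearMap.toContinuousLinearMap (b.coord i)).comp T') x • (b i : E) = T x := e
  rw [e2]
  exact h2 x hx

variable {E : Type*} [NormedAddCommGroup E] [NormedSpace ℝ E] [CompleteSpace E]
variable {V : Type*} [AddCommGroup V] [Module ℝ V] [TopologicalSpace V] [IsTopologicalAddGroup V]
  [ContinuousSMul ℝ V] [LocallyConvexSpace ℝ V] [T2Space V] {X : Set V}

/-- Continuous affine maps as a subspace. -/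
def affSub (X : Set V) (E : Type*) [NormedAddCommGroup E] [NormedSpace ℝ E] :
    Submodule ℝ C(X, E) where
  carrier := {a | IsAff X a}
  add_mem' := by
    intro a b ha hb x y z t h0 h1 h
    simp only [ContinuousMap.add_apply, ha x y z t h0 h1 h, hb x y z t h0 h1 h, smul_add]
    abel
  zero_mem' := by
    intro x y z t _ _ _
    simp
  smul_mem' := by
    intro c a ha x y z t h0 h1 h
    simp only [ContinuousMap.smul_apply, ha x y z t h0 h1 h, smul_add, smul_comm c]

lemma near_affine (hAP : FinAP E) (hXc : IsCompact X) (hXv : Convex ℝ X) [CompactSpace X]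
    {f : V → E} (haff : AffOn X f) {fn : ℕ → V → E} (hc : ∀ n, ContinuousOn (fn n) X)
    (hl : ∀ z ∈ X, Tendsto (fun n => fn n z) atTop (𝓝 (f z))) {M : ℝ} (hM0 : 0 < M)
    (hM : ∀ z ∈ X, ‖f z‖ ≤ M) {gn : ℕ → C(X, E)} (hg : ∀ n, ‖gn n‖ ≤ M)
    (hgl : ∀ z : X, Tendsto (fun n => gn n z) atTop (𝓝 (f z))) (k : ℕ) {ε : ℝ} (hε : 0 < ε) :
    ∃ a ∈ affSub X E, ‖a‖ ≤ M ∧ ∃ g ∈ convexHull ℝ (gn '' Ici k), dist g a < ε := by
  by_contra hcon
  push Not at hcon
  let C2 : Set C(X, E) := (affSub X E : Set C(X, E)) ∩ Metric.closedBall 0 M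
  have hC2 : Convex ℝ C2 := (affSub X E).convex.inter (convex_closedBall _ _)
  have hdis : Disjoint (Metric.thickening ε C2) (convexHull ℝ (gn '' Ici k)) := by
    refine disjoint_left.2 fun g h1 h2 => ?_
    obtain ⟨a, ha, hd⟩ := Metric.mem_thickening_iff.1 h1
    exact absurd hd (not_lt.2 (hcon a ha.1 (mem_closedBall_zero_iff.1 ha.2) g h2))
  obtain ⟨Λ, u, hΛ1, hΛ2⟩ := geometric_hahn_banach_open (hC2.thickening ε)
    Metric.isOpen_thickening (convex_convexHull ℝ _) hdis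
  have hu : ∀ n, k ≤ n → u ≤ Λ (gn n) := fun n hn =>
    hΛ2 _ (subset_convexHull ℝ _ ⟨n, hn, rfl⟩)
  have h0C : (0 : C(X, E)) ∈ C2 := ⟨(affSub X E).zero_mem, Metric.mem_closedBall_self hM0.le⟩
  have hu0 : 0 < u := by
    simpa using hΛ1 0 (Metric.self_subset_thickening hε _ h0C)
  set δ := ε / (2 * M) * Λ (gn k) with hδ
  have hδ0 : 0 < δ := mul_pos (by positivity) (hu0.trans_le (hu k le_rfl))
  have hδu : ∀ a ∈ C2, Λ a + δ < u := by
    intro a ha
    have := hΛ1 (a + (ε / (2 * M)) • gn k) (Metric.mem_thickening_iff.2 ⟨a, ha, by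
      rw [dist_eq_norm, add_sub_cancel_left, norm_smul, Real.norm_eq_abs,
        abs_of_pos (by positivity)]
      calc ε / (2 * M) * ‖gn k‖ ≤ ε / (2 * M) * M := by gcongr; exact hg k
        _ = ε / 2 := by field_simp
        _ < ε := half_lt_self hε⟩)
    rwa [map_add, map_smul, smul_eq_mul] at this
  set c := (u - δ) / M with hcdef
  have hc0 : 0 ≤ c := by
    have := hδu 0 h0C
    rw [map_zero] at this
    exact div_nonneg (by linarith) hM0.le
  have hW : ∀ a : affSub X E, Λ a ≤ c * ‖(a : C(X, E))‖ := by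
    intro a
    by_cases ha : (a : C(X, E)) = 0
    · simp [ha]
    · have hn : 0 < ‖(a : C(X, E))‖ := norm_pos_iff.2 ha
      have := hδu ((M / ‖(a : C(X, E))‖) • (a : C(X, E))) ⟨(affSub X E).smul_mem _ a.2, by
        rw [mem_closedBall_zero_iff, norm_smul, Real.norm_eq_abs, abs_of_pos (by positivity),
          div_mul_cancel₀ _ hn.ne']⟩
      rw [map_smul, smul_eq_mul] at this
      rw [hcdef, div_mul_eq_mul_div, le_div_iff₀ hM0]
      have h2 : M / ‖(a : C(X, E))‖ * Λ a * ‖(a : C(X, E))‖ = Λ a * M := by field_simp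
      nlinarith
  let Bd := (WeakDual.toStrongDual ⁻¹' Metric.closedBall (0 : StrongDual ℝ E) 1)
  have : CompactSpace Bd := isCompact_iff_compactSpace.1 (WeakDual.isCompact_closedBall _ _)
  let mZ : MeasurableSpace (X × Bd) := borel _
  have : BorelSpace (X × Bd) := ⟨rfl⟩
  let e : X × Bd → E →L[ℝ] ℝ := fun z => WeakDual.toStrongDual z.2.1
  have he1 : ∀ z, ‖e z‖ ≤ 1 := fun z => mem_closedBall_zero_iff.1 z.2.2
  have he2 : ∀ y, Continuous fun z => e z y := fun y =>
    (WeakDual.eval_continuous y).comp (continuous_subtype_val.comp continuous_snd)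
  let J : C(X, E) →ₗ[ℝ] C(X × Bd, ℝ) :=
    { toFun := fun g => ⟨fun z => e z (g z.1), cont_eval he1 he2 (g.continuous.comp continuous_fst)⟩
      map_add' := fun g g' => by ext z; simp
      map_smul' := fun a g => by ext z; simp }
  have hJn : ∀ g, ‖g‖ ≤ ‖J g ⊔ 0‖ := by
    intro g
    refine (ContinuousMap.norm_le _ (norm_nonneg _)).2 fun x => ?_
    obtain ⟨φ, h1, h2⟩ := exists_dual_vector'' ℝ (g x)
    let z : X × Bd := (x, ⟨StrongDual.toWeakDual φ, mem_closedBall_zero_iff.2 h1⟩)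
    have h3 : J g z = ‖g x‖ := h2
    rw [← h3]
    exact le_trans (le_trans (le_max_left _ _) (le_abs_self _)) ((J g ⊔ 0).norm_coe_le_norm z)
  have hJ : Function.Injective J := by
    refine (injective_iff_map_eq_zero J).2 fun g hg0 => ?_
    have := hJn g
    rw [hg0, sup_idem, norm_zero] at this
    exact norm_le_zero_iff.1 this
  obtain ⟨μ, _, -, hμ⟩ := rep J hJ (Λ : C(X, E) →ₗ[ℝ] ℝ) (norm_nonneg Λ) fun g =>
    ((le_abs_self _).trans (Λ.le_opNorm g)).trans
      (mul_le_mul_of_nonneg_left (hJn g) (norm_nonneg _))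
  obtain ⟨μ', _, hm', hμ'⟩ := rep (J ∘ₗ (affSub X E).subtype)
    (hJ.comp (affSub X E).injective_subtype) ((Λ : C(X, E) →ₗ[ℝ] ℝ) ∘ₗ (affSub X E).subtype) hc0
    fun a => (hW a).trans (mul_le_mul_of_nonneg_left (hJn _) hc0)
  have heq : ∀ a : affSub X E, ∫ z, e z ((a : C(X, E)) z.1) ∂μ =
      ∫ z, e z ((a : C(X, E)) z.1) ∂μ' := fun a => (hμ a).trans (hμ' a).symm
  have hA := claimA hAP hXc hXv haff hc hl hM (π := Prod.fst) continuous_fst he1 he2 μ μ'
    (fun y => heq ⟨ContinuousMap.const X y, fun _ _ _ t _ _ _ => by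
      simp only [ContinuousMap.const_apply, ← add_smul, add_sub_cancel, one_smul]⟩)
    (fun l y => by
      have := heq ⟨⟨fun x => l x • y, (l.continuous.comp continuous_subtype_val).smul
        continuous_const⟩, fun x x' z t _ _ h => by
          simp only [ContinuousMap.coe_mk, h, map_add, map_smul, smul_eq_mul, add_smul, mul_smul]⟩
      simpa using this)
  have hlim : Tendsto (fun n => Λ (gn n)) atTop (𝓝 (∫ z, e z (f z.1) ∂μ)) := by
    have : ∀ n, Λ (gn n) = ∫ z, e z (gn n z.1) ∂μ := fun n => (hμ (gn n)).symm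
    simp only [this]
    refine tendsto_integral_of_dominated_convergence (fun _ => M)
      (fun n => (J (gn n)).continuous.measurable.aestronglyMeasurable) (integrable_const _)
      (fun n => Eventually.of_forall fun z => (abs_eval_le (he1 z) _).trans
        (((gn n).norm_coe_le_norm _).trans (hg n)))
      (Eventually.of_forall fun z => ((e z).continuous.tendsto _).comp (hgl z.1))
  have h1 : u ≤ ∫ z, e z (f z.1) ∂μ := ge_of_tendsto hlim (eventually_atTop.2 ⟨k, hu⟩)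
  have h2 : ‖∫ z, e z (f z.1) ∂μ'‖ ≤ M * μ'.real univ :=
    norm_integral_le_of_norm_le_const (Eventually.of_forall fun z =>
      (abs_eval_le (he1 z) _).trans (hM _ z.1.2))
  have h3 : M * μ'.real univ ≤ u - δ := by
    calc M * μ'.real univ ≤ M * c := by gcongr
      _ = u - δ := by rw [hcdef]; field_simp
  rw [← hA] at h2
  have := le_abs_self (∫ z, e z (f z.1) ∂μ)
  rw [Real.norm_eq_abs] at h2
  linarith

lemma bounded_of_aff (hXc : IsCompact X) (hXv : Convex ℝ X) {f : X → E} (haff : IsAff X f)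
    {g : ℕ → X → E} (hc : ∀ n, Continuous (g n))
    (hl : ∀ x, Tendsto (fun n => g n x) atTop (𝓝 (f x))) : ∃ M, 0 < M ∧ ∀ x, ‖f x‖ ≤ M := by
  have : CompactSpace X := isCompact_iff_compactSpace.1 hXc
  rcases isEmpty_or_nonempty X with hX | hX
  · exact ⟨1, one_pos, fun x => hX.elim x⟩
  let F : ℕ → Set X := fun m => ⋂ n, {x | ‖g n x‖ ≤ m}
  have hF : ∀ m, IsClosed (F m) := fun m => isClosed_iInter fun n =>
    isClosed_le (hc n).norm continuous_const
  have hU : ⋃ m, F m = univ := by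
    refine eq_univ_of_forall fun x => ?_
    obtain ⟨B, hB⟩ := (hl x).norm.bddAbove_range
    obtain ⟨m, hm⟩ := exists_nat_ge B
    exact mem_iUnion.2 ⟨m, mem_iInter.2 fun n => (hB (mem_range_self n)).trans hm⟩
  obtain ⟨m, x0, hx0⟩ := nonempty_interior_of_iUnion_of_closed hF hU
  have hFm : ∀ x ∈ F m, ‖f x‖ ≤ m := fun x hx =>
    le_of_tendsto' (hl x).norm fun n => mem_iInter.1 hx n
  obtain ⟨U, hU1, hU2⟩ := (mem_nhds_subtype _ _ _).1 (mem_interior_iff_mem_nhds.1 hx0)
  have hev : ∀ᶠ t in 𝓝 (0 : ℝ), ∀ x ∈ X, t • x + (1 - t) • (x0 : V) ∈ U := by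
    refine hXc.eventually_forall_of_forall_eventually fun x _ => ?_
    have hcont : Continuous fun p : ℝ × V => p.1 • p.2 + (1 - p.1) • (x0 : V) := by fun_prop
    refine hcont.continuousAt.preimage_mem_nhds ?_
    simpa using hU1
  obtain ⟨t, ht, ht0, ht1⟩ : ∃ t : ℝ, (∀ x ∈ X, t • x + (1 - t) • (x0 : V) ∈ U) ∧ 0 < t ∧ t < 1 :=
    ((hev.filter_mono nhdsWithin_le_nhds).and (Ioo_mem_nhdsGT (show (0 : ℝ) < 1 by norm_num))).exists
  refine ⟨(2 * m + 1) / t, by positivity, fun x => ?_⟩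
  have hmem : t • (x : V) + (1 - t) • (x0 : V) ∈ X :=
    hXv x.2 x0.2 ht0.le (by linarith) (by ring)
  have e := haff x x0 ⟨_, hmem⟩ t ht0.le ht1.le rfl
  have h1 := hFm ⟨_, hmem⟩ (hU2 (ht x x.2))
  have h2 := hFm x0 (interior_subset hx0)
  have e2 : t • f x = f ⟨_, hmem⟩ - (1 - t) • f x0 := by rw [e]; abel
  have h3 := norm_sub_le (f ⟨_, hmem⟩) ((1 - t) • f x0)
  rw [← e2, norm_smul, norm_smul, Real.norm_eq_abs, Real.norm_eq_abs, abs_of_pos ht0,
    abs_of_pos (by linarith)] at h3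
  rw [le_div_iff₀ ht0]
  nlinarith [norm_nonneg (f x0)]

theorem main (hAP : FinAP E) (hXc : IsCompact X) (hXv : Convex ℝ X) {f : X → E}
    (haff : IsAff X f) {g : ℕ → X → E} (hc : ∀ n, Continuous (g n))
    (hl : ∀ x, Tendsto (fun n => g n x) atTop (𝓝 (f x))) {M : ℝ} (hM0 : 0 < M)
    (hM : ∀ x, ‖f x‖ ≤ M) :
    ∃ a : ℕ → X → E, (∀ n, Continuous (a n) ∧ IsAff X (a n) ∧ ∀ x, ‖a n x‖ ≤ M) ∧
      ∀ x, Tendsto (fun n => a n x) atTop (𝓝 (f x)) := by
  classical
  have : CompactSpace X := isCompact_iff_compactSpace.1 hXc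
  let ex : (X → E) → V → E := fun φ v => if h : v ∈ X then φ ⟨v, h⟩ else 0
  have hex : ∀ φ v (h : v ∈ X), ex φ v = φ ⟨v, h⟩ := fun φ v h => dif_pos h
  have haff' : AffOn X (ex f) := by
    intro x hx y hy a b ha hb hab
    have eb : b = 1 - a := by linarith
    subst eb
    rw [hex f _ (hXv hx hy ha hb hab), hex f _ hx, hex f _ hy]
    exact haff ⟨x, hx⟩ ⟨y, hy⟩ _ a ha (by linarith) rfl
  have hc' : ∀ n, ContinuousOn (ex (g n)) X := fun n =>
    continuousOn_iff_continuous_restrict.2 ((hc n).congr fun x => (hex _ _ x.2).symm)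
  have hl' : ∀ z ∈ X, Tendsto (fun n => ex (g n) z) atTop (𝓝 (ex f z)) := fun z hz => by
    simp only [hex _ _ hz]; exact hl _
  have hM' : ∀ z ∈ X, ‖ex f z‖ ≤ M := fun z hz => by rw [hex _ _ hz]; exact hM _
  let r : E → E := fun y => (M / max M ‖y‖) • y
  have hr : Continuous r := (continuous_const.div (continuous_const.max continuous_norm)
    fun y => (hM0.trans_le (le_max_left _ _)).ne').smul continuous_id
  have hr1 : ∀ y, ‖r y‖ ≤ M := fun y => by
    have hp : 0 < max M ‖y‖ := hM0.trans_le (le_max_left _ _)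
    rw [norm_smul, Real.norm_eq_abs, abs_of_pos (by positivity), div_mul_eq_mul_div,
      div_le_iff₀ hp]
    gcongr
    exact le_max_right _ _
  have hr2 : ∀ y, ‖y‖ ≤ M → r y = y := fun y hy => by
    simp only [r, max_eq_left hy, div_self hM0.ne', one_smul]
  let gn : ℕ → C(X, E) := fun n => ⟨fun x => r (g n x), hr.comp (hc n)⟩
  have hgl : ∀ z : X, Tendsto (fun n => gn n z) atTop (𝓝 (f z)) := fun z => by
    have := (hr.tendsto _).comp (hl z)
    rwa [hr2 _ (hM z)] at this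
  have key := fun k : ℕ => near_affine hAP hXc hXv haff' hc' hl' hM0 hM' (gn := gn)
    (fun n => (ContinuousMap.norm_le _ hM0.le).2 fun x => hr1 _)
    (fun z => by rw [hex _ _ z.2]; exact hgl z) k (Nat.one_div_pos_of_nat (n := k))
  choose a ha1 ha2 b hb1 hb2 using key
  refine ⟨fun n => a n, fun n => ⟨(a n).continuous, ha1 n, fun x =>
    ((a n).norm_coe_le_norm x).trans (ha2 n)⟩, fun x => ?_⟩
  refine Metric.tendsto_atTop.2 fun η hη => ?_
  obtain ⟨N1, hN1⟩ := Metric.tendsto_atTop.1 (hgl x) (η / 2) (half_pos hη)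
  obtain ⟨N2, hN2⟩ := exists_nat_one_div_lt (half_pos hη)
  refine ⟨max N1 N2, fun n hn => ?_⟩
  have h1 : dist (b n x) (f x) < η / 2 := by
    have hcv : Convex ℝ ((ContinuousMap.evalCLM ℝ x : C(X, E) →L[ℝ] E) ⁻¹'
        Metric.ball (f x) (η / 2)) :=
      (convex_ball _ _).linear_preimage (ContinuousMap.evalCLM ℝ x : C(X, E) →L[ℝ] E).toLinearMap
    refine convexHull_min ?_ hcv (hb1 n)
    rintro _ ⟨m, hm, rfl⟩
    exact hN1 m ((le_max_left _ _).trans (hn.trans hm))
  have h2 : dist (b n x) (a n x) < 1 / (n + 1) :=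
    (ContinuousMap.dist_apply_le_dist x).trans_lt (hb2 n)
  have h3 : (1 : ℝ) / (n + 1) ≤ 1 / (N2 + 1) :=
    Nat.one_div_le_one_div ((le_max_right _ _).trans hn)
  linarith [dist_triangle_left (a n x) (f x) (b n x)]

end Pool.Agent.H2.Mk
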