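import Pool.Agent.H2.NBGen

set_option autoImplicit false
open scoped Classical
open Finset

namespace Pool.Agent.H2.NB

def R (b : Bool) (n k l : ℕ) : Prop :=
  k ≠ l ∧ (k + 1 = l ∨ l + 1 = k ∨ (b = true ∧ ((k = 0 ∧ l + 1 = n) ∨ (l = 0 ∧ k + 1 = n))))

def Hb (b : Bool) (n k : ℕ) : Prop := k = 0 ∨ (b = false ∧ k + 1 = n)

noncomputable def Dn (b : Bool) (n : ℕ) (z : ℂ) : ℂ :=
  if b = true then 1 - z ^ n + 2 * z ^ (n + 2) else 1 + z ^ (n + 1)

noncomputable def Un (b : Bool) (n : ℕ) (z : ℂ) : ℂ :=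
  if b = true then 2 * z ^ (n + 2) else 2 * z ^ (n + 1)

variable {ι : Type} (b : ι → Bool) (n : ι → ℕ)

abbrev Vt : Type := Option (Σ i : ι, Fin (n i))

def adj : Vt n → Vt n → Prop
  | none, none => False
  | none, some p => Hb (b p.1) (n p.1) p.2
  | some p, none => Hb (b p.1) (n p.1) p.2
  | some p, some q => p.1 = q.1 ∧ R (b p.1) (n p.1) p.2 q.2

def Gr : SimpleGraph (Vt n) where
  Adj := adj b n
  symm := ⟨by
    rintro (_ | ⟨i, k⟩) (_ | ⟨j, l⟩) h
    · exact h
    · exact h
    · exact h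
    · obtain ⟨h1, h2⟩ := h
      dsimp only at h1 h2
      subst h1
      refine ⟨rfl, ?_⟩
      unfold R at h2 ⊢
      dsimp only
      tauto⟩
  loopless := ⟨by
    rintro (_ | ⟨i, k⟩) h
    · exact h
    · exact h.2.1 rfl⟩

noncomputable def ex (f : Vt n → ℂ) (i : ι) (k : ℕ) : ℂ :=
  if h : k < n i then f (some ⟨i, ⟨k, h⟩⟩) else 0

theorem sum_R (c : Bool) (m k : ℕ) (hk : k < m) (hm : c = true → 3 ≤ m) (γ : ℕ → ℂ) :
    (∑ l ∈ range m, if R c m k l then γ l else 0) =
      (if k + 1 < m then γ (k + 1) else 0) + (if 0 < k then γ (k - 1) else 0) +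
      (if c = true ∧ k = 0 then γ (m - 1) else 0) + (if c = true ∧ k + 1 = m then γ 0 else 0) := by
  have h : ∀ l ∈ range m, (if R c m k l then γ l else 0) =
      (if l = k + 1 then γ l else 0) + (if l = k - 1 then (if 0 < k then γ l else 0) else 0) +
      (if l = m - 1 then (if c = true ∧ k = 0 then γ l else 0) else 0) +
      (if l = 0 then (if c = true ∧ k + 1 = m then γ l else 0) else 0) := by
    intro l hl
    have hl' := mem_range.1 hl
    unfold R
    cases c
    · simp only [Bool.false_eq_true, false_and, or_false, if_false, ite_self, add_zero]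
      split_ifs <;> first | omega | simp
    · have := hm rfl
      simp only [true_and]
      split_ifs <;> first | omega | simp
  rw [Finset.sum_congr rfl h]
  simp only [Finset.sum_add_distrib, Finset.sum_ite_eq', mem_range]
  rw [if_pos (show k - 1 < m by omega), if_pos (show m - 1 < m by omega), if_pos (show 0 < m by omega)]

theorem sum_Hb (c : Bool) (m : ℕ) (hm : 2 ≤ m) (γ : ℕ → ℂ) :
    (∑ l ∈ range m, if Hb c m l then γ l else 0) = γ 0 + if c = true then 0 else γ (m - 1) := by
  have h : ∀ l ∈ range m, (if Hb c m l then γ l else 0) =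
      (if l = 0 then γ l else 0) + (if l = m - 1 then (if c = true then 0 else γ l) else 0) := by
    intro l hl
    have hl' := mem_range.1 hl
    unfold Hb
    cases c
    · simp only [Bool.false_eq_true, true_and, if_false]
      split_ifs <;> first | omega | simp
    · simp
  rw [Finset.sum_congr rfl h]
  simp only [Finset.sum_add_distrib, Finset.sum_ite_eq', mem_range]
  rw [if_pos (show m - 1 < m by omega), if_pos (show 0 < m by omega)]

variable [Fintype ι]

theorem sum_none (hn : ∀ i, 2 ≤ n i) (φ : Vt n → ℂ) :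
    (∑ w, if (Gr b n).Adj none w then φ w else 0) =
      ∑ i, (ex n φ i 0 + if b i = true then 0 else ex n φ i (n i - 1)) := by
  rw [Fintype.sum_option, Fintype.sum_sigma, if_neg (by exact fun h => h), zero_add]
  refine Finset.sum_congr rfl fun i _ => ?_
  rw [← sum_Hb (b i) (n i) (hn i) (ex n φ i),
    ← Fin.sum_univ_eq_sum_range (fun l => if Hb (b i) (n i) l then ex n φ i l else 0)]
  refine Finset.sum_congr rfl fun l _ => ?_
  have : ex n φ i l = φ (some ⟨i, l⟩) := by simp [ex]
  rw [this]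
  rfl

theorem sum_some (φ : Vt n → ℂ) (i : ι) (k : Fin (n i)) :
    (∑ w, if (Gr b n).Adj (some ⟨i, k⟩) w then φ w else 0) =
      (if Hb (b i) (n i) k then φ none else 0) +
        ∑ l ∈ range (n i), if R (b i) (n i) k l then ex n φ i l else 0 := by
  rw [Fintype.sum_option, Fintype.sum_sigma, Finset.sum_eq_single i]
  · congr 1
    rw [← Fin.sum_univ_eq_sum_range (fun l => if R (b i) (n i) k l then ex n φ i l else 0)]
    refine Finset.sum_congr rfl fun l _ => ?_
    have : ex n φ i l = φ (some ⟨i, l⟩) := by simp [ex]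
    rw [this]
    have h2 : (Gr b n).Adj (some ⟨i, k⟩) (some ⟨i, l⟩) ↔ R (b i) (n i) k l := ⟨fun h => h.2, fun h => ⟨rfl, h⟩⟩
    simp only [h2]
  · intro j _ hj
    refine Finset.sum_eq_zero fun l _ => if_neg fun h => hj h.1.symm
  · simp

def E0 (z T : ℂ) (g : ι → ℕ → ℂ) : Prop :=
  (1 - z ^ 2) * T = ∑ i, ((z * g i 0 - z ^ 2 * T) + if b i = true then 0 else z * g i (n i - 1) - z ^ 2 * T)

def Ek (c : Bool) (m : ℕ) (z T : ℂ) (g : ℕ → ℂ) (k : ℕ) : Prop :=
  (1 - z ^ 2) * g k = (if Hb c m k then z * T - z ^ 2 * g k else 0) +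
    ((if k + 1 < m then z * g (k + 1) - z ^ 2 * g k else 0) + (if 0 < k then z * g (k - 1) - z ^ 2 * g k else 0) +
      (if c = true ∧ k = 0 then z * g (m - 1) - z ^ 2 * g k else 0) +
      (if c = true ∧ k + 1 = m then z * g 0 - z ^ 2 * g k else 0))

theorem VE_iff (hn : ∀ i, 2 ≤ n i) (hb : ∀ i, b i = true → 3 ≤ n i) (z : ℂ) (f : Vt n → ℂ) :
    VE (Gr b n) z f ↔ E0 b n z (f none) (ex n f) ∧
      ∀ i k, k < n i → Ek (b i) (n i) z (f none) (ex n f i) k := by
  have hex : ∀ (a : ℂ) i l, l < n i → ex n (fun w => z * f w - a) i l = z * ex n f i l - a := by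
    intro a i l hl; simp [ex, hl]
  have h0 : (∑ w, if (Gr b n).Adj none w then z * f w - z ^ 2 * f none else 0) =
      ∑ i, ((z * ex n f i 0 - z ^ 2 * f none) +
        if b i = true then 0 else z * ex n f i (n i - 1) - z ^ 2 * f none) := by
    rw [sum_none b n hn (fun w => z * f w - z ^ 2 * f none)]
    refine Finset.sum_congr rfl fun i _ => ?_
    have := hn i
    rw [hex _ _ _ (by omega), hex _ _ _ (by omega)]
  have h1 : ∀ i (k : Fin (n i)), ((1 - z ^ 2) * f (some ⟨i, k⟩) =
      ∑ w, if (Gr b n).Adj (some ⟨i, k⟩) w then z * f w - z ^ 2 * f (some ⟨i, k⟩) else 0) ↔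
      Ek (b i) (n i) z (f none) (ex n f i) k := by
    intro i k
    rw [sum_some b n (fun w => z * f w - z ^ 2 * f (some ⟨i, k⟩)), sum_R _ _ _ k.2 (hb i)]
    have e : f (some ⟨i, k⟩) = ex n f i k := by simp [ex]
    have hk := k.2
    have := hn i
    rw [e, hex _ _ (k - 1) (by omega), hex _ _ (n i - 1) (by omega), hex _ _ 0 (by omega)]
    unfold Ek
    by_cases h : (k : ℕ) + 1 < n i
    · rw [hex _ _ _ h]
    · rw [if_neg h, if_neg h]
  constructor
  · intro h
    refine ⟨?_, fun i k hk => (h1 i ⟨k, hk⟩).1 (h _)⟩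
    have := h none
    rw [h0] at this
    exact this
  · rintro ⟨a, c⟩ (_ | ⟨i, k⟩)
    · rw [h0]; exact a
    · exact (h1 i k).2 (c i k k.2)

theorem cyc (z : ℂ) (m : ℕ) (h : ℕ → ℂ)
    (hr : ∀ k, k + 1 ≤ m → (1 + z ^ 2) * h (k + 1) = z * (h k + h (k + 2))) :
    h 1 - z * h 0 = z ^ m * (h (m + 1) - z * h m) ∧ h m - z * h (m + 1) = z ^ m * (h 0 - z * h 1) := by
  induction m with
  | zero => simp
  | succ m ih =>
    obtain ⟨a, c⟩ := ih (fun k hk => hr k (by omega))
    have := hr m le_rfl
    constructor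
    · rw [a, pow_succ]; linear_combination z ^ m * this
    · rw [pow_succ, mul_comm (z ^ m) z, mul_assoc, ← c]; linear_combination this

theorem cyc0 (z : ℂ) (z0 : z ≠ 0) (hz : ‖z‖ < 1) (m : ℕ) (h : ℕ → ℂ)
    (hr : ∀ k, k + 1 ≤ m → (1 + z ^ 2) * h (k + 1) = z * (h k + h (k + 2)))
    (h0 : h 0 = 0) (hm : h (m + 1) = 0) : ∀ k, k ≤ m + 1 → h k = 0 := by
  obtain ⟨a, c⟩ := cyc z m h hr
  rw [h0, hm] at a c
  have h1 : h 1 = 0 := by
    have e : (1 - (z ^ (m + 1)) ^ 2) * h 1 = 0 := by
      rw [pow_succ z m]; linear_combination a - z ^ m * z * c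
    refine (mul_eq_zero.1 e).resolve_left fun e2 => ?_
    have e3 : (z ^ (m + 1)) ^ 2 = 1 := by linear_combination -e2
    have e4 := congrArg norm e3
    rw [norm_pow, norm_pow, norm_one] at e4
    have e5 : ‖z‖ ^ (m + 1) < 1 := pow_lt_one₀ (norm_nonneg _) hz (by omega)
    nlinarith [pow_nonneg (norm_nonneg z) (m + 1)]
  have key : ∀ k, k ≤ m → h k = 0 ∧ h (k + 1) = 0 := by
    intro k
    induction k with
    | zero => exact fun _ => ⟨h0, h1⟩
    | succ k ih =>
      intro hk
      obtain ⟨p, q⟩ := ih (by omega)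
      refine ⟨q, ?_⟩
      have := hr k hk
      rw [p, q] at this
      have e : z * h (k + 2) = 0 := by linear_combination -this
      exact (mul_eq_zero.1 e).resolve_left z0
  intro k hk
  rcases k with _ | k
  · exact h0
  · exact (key k (by omega)).2

theorem gad (c : Bool) (m : ℕ) (hm : 2 ≤ m) (hc : c = true → 3 ≤ m) (z T : ℂ) (g : ℕ → ℂ)
    (z0 : z ≠ 0) (hz : ‖z‖ < 1) (hD : Dn c m z ≠ 0) (hE : ∀ k, k < m → Ek c m z T g k) :
    ((z * g 0 - z ^ 2 * T) + if c = true then 0 else z * g (m - 1) - z ^ 2 * T) =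
      (1 - z ^ 2) * T * (Un c m z / Dn c m z) ∧ (T = 0 → ∀ k, k < m → g k = 0) := by
  cases c
  · set h : ℕ → ℂ := fun k => if k = 0 ∨ k = m + 1 then T else g (k - 1) with hh
    have hr : ∀ k, k + 1 ≤ m → (1 + z ^ 2) * h (k + 1) = z * (h k + h (k + 2)) := by
      intro k hk
      have e := hE k (by omega)
      unfold Ek Hb at e
      simp only [hh]
      rw [if_neg (by omega)]
      simp only [Bool.false_eq_true, false_and, if_false, add_zero, true_and, Nat.add_sub_cancel] at e
      rw [Nat.add_sub_cancel]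
      have t : k + 2 - 1 = k + 1 := by omega
      rw [t]
      have t2 : (k + 2 = 0 ∨ k + 2 = m + 1) ↔ k + 1 = m := by omega
      simp only [t2]
      split_ifs at e ⊢ <;> first | omega | linear_combination e
    have a0 : h 0 = T := by simp [hh]
    have a1 : h (m + 1) = T := by simp [hh]
    have a2 : h 1 = g 0 := by simp only [hh]; rw [if_neg (by omega)]
    have a3 : h m = g (m - 1) := by simp only [hh]; rw [if_neg (by omega)]
    constructor
    · obtain ⟨p, q⟩ := cyc z m h hr
      rw [a0, a1, a2, a3] at p q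
      simp only [Dn, Un, Bool.false_eq_true, if_false] at hD ⊢
      field_simp
      rw [pow_succ z m]
      linear_combination z * p + z * q
    · intro hT k hk
      have := cyc0 z z0 hz m h hr (a0.trans hT) (a1.trans hT) (k + 1) (by omega)
      simp only [hh] at this
      rwa [if_neg (by omega)] at this
  · obtain ⟨m, rfl⟩ : ∃ k, m = k + 1 := ⟨m - 1, by omega⟩
    have hm3 := hc rfl
    set h : ℕ → ℂ := fun k => if k = m + 1 then g 0 else g k with hh
    have hr : ∀ k, k + 1 ≤ m → (1 + z ^ 2) * h (k + 1) = z * (h k + h (k + 2)) := by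
      intro k hk
      have e := hE (k + 1) (by omega)
      unfold Ek Hb at e
      simp only [hh]
      simp only [Bool.true_eq_false, false_and, or_false, true_and, Nat.add_sub_cancel] at e
      split_ifs at e ⊢ <;> first | contradiction | omega | linear_combination e
    have a0 : h 0 = g 0 := by simp [hh]
    have a1 : h (m + 1) = g 0 := by simp [hh]
    have a2 : h 1 = g 1 := by simp only [hh]; rw [if_neg (by omega)]
    have a3 : h m = g m := by simp only [hh]; rw [if_neg (by omega)]
    obtain ⟨p, q⟩ := cyc z m h hr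
    rw [a0, a1, a2, a3] at p q
    have e := hE 0 (by omega)
    unfold Ek Hb at e
    simp only [true_or, if_true, true_and, Nat.add_sub_cancel, lt_self_iff_false, if_false, add_zero] at e
    rw [if_pos (by omega), if_neg (by omega)] at e
    have e2 : g 0 * Dn true (m + 1) z = z * T * (1 + z ^ (m + 1)) := by
      simp only [Dn, if_true]
      rw [pow_add z (m + 1) 2, pow_succ z m]
      linear_combination (1 + z ^ m * z) * e + z * p + z * q
    constructor
    · simp only [if_true, add_zero, Un]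
      rw [← mul_div_assoc, eq_div_iff hD]
      have e3 : Dn true (m + 1) z = 1 - z ^ (m + 1) + 2 * z ^ (m + 1 + 2) := by simp [Dn]
      rw [pow_add z (m + 1) 2] at e3 ⊢
      linear_combination z * e2 - z ^ 2 * T * e3
    · intro hT k hk
      have g0 : g 0 = 0 := by
        rw [hT] at e2
        simp only [mul_zero, zero_mul] at e2
        exact (mul_eq_zero.1 e2).resolve_right hD
      have := cyc0 z z0 hz m h hr (a0.trans g0) (a1.trans g0) k (by omega)
      simp only [hh] at this
      rwa [if_neg (by omega)] at this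

theorem H1g (hn : ∀ i, 2 ≤ n i) (hb : ∀ i, b i = true → 3 ≤ n i) (z : ℂ) (z0 : z ≠ 0) (hz : ‖z‖ < 1)
    (hD : ∀ i, Dn (b i) (n i) z ≠ 0) (f : Vt n → ℂ) (hf : VE (Gr b n) z f) :
    (f none = 0 → f = 0) ∧ (f none ≠ 0 → ∑ i, Un (b i) (n i) z / Dn (b i) (n i) z = 1) := by
  obtain ⟨a, c⟩ := (VE_iff b n hn hb z f).1 hf
  have G := fun i => gad (b i) (n i) (hn i) (hb i) z (f none) (ex n f i) z0 hz (hD i) (c i)
  constructor
  · intro h
    funext v
    rcases v with _ | ⟨i, k⟩
    · exact h
    · have := (G i).2 h k k.2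
      simpa [ex] using this
  · intro h
    unfold E0 at a
    rw [Finset.sum_congr rfl (fun i _ => (G i).1), ← Finset.mul_sum] at a
    have hz2 : 1 - z ^ 2 ≠ 0 := by
      intro h
      have h1 : z ^ 2 = 1 := by linear_combination -h
      have h2 := congrArg norm h1
      rw [norm_pow, norm_one] at h2
      nlinarith [norm_nonneg z]
    have := mul_left_cancel₀ (mul_ne_zero hz2 h) (a.symm.trans (mul_one _).symm)
    exact this

end Pool.Agent.H2.NB
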