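import Pool.Agent.H2.NBGraph

set_option autoImplicit false
open scoped Classical
open Finset

namespace Pool.Agent.H2.NB

noncomputable def F0 (c : Bool) (m k : ℕ) : ℝ :=
  if c = true then (2 ^ k + 2 ^ m / 2 ^ k) / (2 * 2 ^ m - 1) else (2 * 2 ^ k + 2 ^ m / 2 ^ k) / (1 + 2 * 2 ^ m)

theorem Ek_congr {c : Bool} {m k : ℕ} {z T : ℂ} {g g' : ℕ → ℂ} (h : ∀ l, l < m → g l = g' l) (hk : k < m)
    (e : Ek c m z T g k) : Ek c m z T g' k := by
  unfold Ek at e ⊢
  rw [← h k hk, ← h (k - 1) (by omega), ← h (m - 1) (by omega), ← h 0 (by omega)]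
  by_cases h1 : k + 1 < m
  · rw [← h _ h1]; exact e
  · rw [if_neg h1] at e ⊢; exact e

theorem Ek_F0 (c : Bool) (m k : ℕ) (hm : 2 ≤ m) (hc : c = true → 3 ≤ m) (hk : k < m) :
    Ek c m (1 / 2) 1 (fun l => (F0 c m l : ℂ)) k := by
  obtain ⟨m, rfl⟩ : ∃ j, m = j + 1 := ⟨m - 1, by omega⟩
  have p1 : (1 : ℝ) ≤ 2 ^ m := one_le_pow₀ (by norm_num)
  have q1 : (2 * (2 ^ m * 2) - 1 : ℝ) ≠ 0 := by linarith
  have q2 : (1 + 2 * (2 ^ m * 2) : ℝ) ≠ 0 := by linarith
  have r1 : (2 * (2 ^ m * 2) - 1 : ℂ) ≠ 0 := by exact_mod_cast q1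
  have r2 : (1 + 2 * (2 ^ m * 2) : ℂ) ≠ 0 := by exact_mod_cast q2
  unfold Ek Hb F0
  cases c
  · simp only [Bool.false_eq_true, false_and, if_false, add_zero, true_and]
    rcases k with _ | k
    · rw [if_pos (by omega), if_pos (by omega), if_neg (by omega)]
      push_cast
      simp only [pow_succ]
      generalize hD : (1 + 2 * (2 ^ m * 2) : ℂ) = D at r2 ⊢
      field_simp
      subst hD
      ring
    · by_cases h : k + 1 = m
      · rw [if_pos (by omega), if_neg (by omega), if_pos (by omega)]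
        subst h
        push_cast
        simp only [pow_succ, Nat.add_sub_cancel] at r2 ⊢
        generalize hD : (1 + 2 * (2 ^ k * 2 * 2) : ℂ) = D at r2 ⊢
        field_simp
        subst hD
        ring
      · rw [if_neg (by omega), if_pos (by omega), if_pos (by omega)]
        push_cast
        simp only [pow_succ, Nat.add_sub_cancel]
        field_simp
        ring
  · have := hc rfl
    simp only [Bool.true_eq_false, false_and, or_false, true_and, if_true, Nat.add_sub_cancel]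
    rcases k with _ | k
    · rw [if_pos rfl, if_pos (by omega), if_neg (by omega), if_pos rfl, if_neg (by omega)]
      push_cast
      simp only [pow_succ]
      generalize hD : (2 * (2 ^ m * 2) - 1 : ℂ) = D at r1 ⊢
      field_simp
      subst hD
      ring
    · by_cases h : k + 1 = m
      · rw [if_neg (by omega), if_neg (by omega), if_pos (by omega), if_neg (by omega), if_pos (by omega)]
        subst h
        push_cast
        simp only [pow_succ, Nat.add_sub_cancel] at r1 ⊢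
        field_simp
        ring
      · rw [if_neg (by omega), if_pos (by omega), if_pos (by omega), if_neg (by omega), if_neg (by omega)]
        push_cast
        simp only [pow_succ, Nat.add_sub_cancel]
        field_simp
        ring

theorem F0_hub (c : Bool) (m k : ℕ) (hm : 2 ≤ m) (h : Hb c m k) : 1 < 2 * F0 c m k ∧ F0 c m k < 2 := by
  obtain ⟨m, rfl⟩ : ∃ j, m = j + 1 := ⟨m - 1, by omega⟩
  have p1 : (1 : ℝ) ≤ 2 ^ m := one_le_pow₀ (by norm_num)
  unfold F0
  rcases h with rfl | ⟨rfl, h⟩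
  · cases c
    · simp only [Bool.false_eq_true, if_false, pow_succ, pow_zero, div_one, mul_one]
      rw [← mul_div_assoc, lt_div_iff₀ (by linarith), div_lt_iff₀ (by linarith)]
      constructor <;> linarith
    · simp only [if_true, pow_succ, pow_zero, div_one]
      rw [← mul_div_assoc, lt_div_iff₀ (by linarith), div_lt_iff₀ (by linarith)]
      constructor <;> linarith
  · obtain rfl : k = m := by omega
    simp only [Bool.false_eq_true, if_false, pow_succ]
    have : (2 : ℝ) ^ k * 2 / 2 ^ k = 2 := by field_simp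
    rw [this, ← mul_div_assoc, lt_div_iff₀ (by linarith), div_lt_iff₀ (by linarith)]
    constructor <;> linarith

theorem F0_step (c : Bool) (m k : ℕ) : F0 c m k < 2 * F0 c m (k + 1) ∧ F0 c m (k + 1) < 2 * F0 c m k := by
  have p1 : (1 : ℝ) ≤ 2 ^ m := one_le_pow₀ (by norm_num)
  have p2 : (0 : ℝ) < 2 ^ k := by positivity
  have p3 : (0 : ℝ) < 2 ^ m / 2 ^ k := by positivity
  have p4 : (2 : ℝ) ^ m / (2 ^ k * 2) = 2 ^ m / 2 ^ k / 2 := by field_simp
  unfold F0
  cases c
  · simp only [Bool.false_eq_true, if_false, pow_succ, p4]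
    rw [← mul_div_assoc, ← mul_div_assoc, div_lt_div_iff_of_pos_right (by linarith),
      div_lt_div_iff_of_pos_right (by linarith)]
    constructor <;> linarith
  · simp only [if_true, pow_succ, p4]
    rw [← mul_div_assoc, ← mul_div_assoc, div_lt_div_iff_of_pos_right (by linarith),
      div_lt_div_iff_of_pos_right (by linarith)]
    constructor <;> linarith

theorem F0_end (k : ℕ) : F0 true (k + 1) 0 < 2 * F0 true (k + 1) k ∧ F0 true (k + 1) k < 2 * F0 true (k + 1) 0 := by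
  have p1 : (1 : ℝ) ≤ 2 ^ k := one_le_pow₀ (by norm_num)
  unfold F0
  simp only [if_true, pow_succ, pow_zero, div_one]
  have : (2 : ℝ) ^ k * 2 / 2 ^ k = 2 := by field_simp
  rw [this, ← mul_div_assoc, ← mul_div_assoc, div_lt_div_iff_of_pos_right (by linarith),
    div_lt_div_iff_of_pos_right (by linarith)]
  constructor <;> linarith

variable {ι : Type} (b : ι → Bool) (n : ι → ℕ)

noncomputable def f0 : Vt n → ℝ
  | none => 1
  | some p => F0 (b p.1) (n p.1) p.2

theorem f0_pos (hn : ∀ i, 2 ≤ n i) (u v : Vt n) (h : (Gr b n).Adj u v) : f0 b n u < 2 * f0 b n v := by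
  rcases u with _ | ⟨i, k⟩ <;> rcases v with _ | ⟨j, l⟩
  · exact h.elim
  · exact (F0_hub _ _ _ (hn j) h).1
  · have := (F0_hub _ _ _ (hn i) h).2
    simpa [f0] using this
  · obtain ⟨h1, h2⟩ := h
    dsimp only at h1 h2
    subst h1
    simp only [f0]
    obtain ⟨-, h | h | ⟨h3, ⟨h4, h5⟩ | ⟨h4, h5⟩⟩⟩ := h2
    · rw [← h]; exact (F0_step _ _ _).1
    · rw [← h]; exact (F0_step _ _ _).2
    · have := (F0_end l).1
      rw [h5] at this
      rw [h3, h4]; exact this
    · have := (F0_end k).2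
      rw [h5] at this
      rw [h3, h4]; exact this

theorem conn (hn : ∀ i, 2 ≤ n i) : (Gr b n).Connected := by
  have key : ∀ i k (hk : k < n i), (Gr b n).Reachable none (some ⟨i, ⟨k, hk⟩⟩) := by
    intro i k
    induction k with
    | zero => exact fun hk => SimpleGraph.Adj.reachable (Or.inl rfl)
    | succ k ih =>
      intro hk
      refine (ih (by omega)).trans (SimpleGraph.Adj.reachable ⟨rfl, ?_⟩)
      exact ⟨by simp, Or.inl rfl⟩
  have k2 : ∀ v, (Gr b n).Reachable none v := by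
    rintro (_ | ⟨i, k⟩)
    · exact SimpleGraph.Reachable.refl _
    · exact key i k k.2
  exact { preconnected := fun u v => (k2 u).symm.trans (k2 v), nonempty := ⟨none⟩ }

theorem two_nb (hn : ∀ i, 2 ≤ n i) (hb : ∀ i, b i = true → 3 ≤ n i) (i0 i1 : ι) (h01 : i0 ≠ i1) (v : Vt n) :
    ∃ a c, (Gr b n).Adj v a ∧ (Gr b n).Adj v c ∧ a ≠ c := by
  rcases v with _ | ⟨i, k, hk⟩
  · have p := hn i0
    have q := hn i1
    refine ⟨some ⟨i0, ⟨0, by omega⟩⟩, some ⟨i1, ⟨0, by omega⟩⟩, Or.inl rfl, Or.inl rfl, fun h => h01 ?_⟩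
    exact congrArg Sigma.fst (Option.some.inj h)
  · have p := hn i
    have ne : ∀ (x y : ℕ) (hx : x < n i) (hy : y < n i), x ≠ y →
        (some ⟨i, ⟨x, hx⟩⟩ : Vt n) ≠ some ⟨i, ⟨y, hy⟩⟩ := by
      intro x y hx hy hxy h
      apply hxy
      exact congrArg (fun p : (Σ i : ι, Fin (n i)) => (p.2 : ℕ)) (Option.some.inj h)
    rcases k with _ | k
    · exact ⟨none, some ⟨i, ⟨1, by omega⟩⟩, Or.inl rfl, ⟨rfl, by simp, Or.inl rfl⟩, by simp⟩
    · by_cases h : k + 2 < n i
      · exact ⟨some ⟨i, ⟨k, by omega⟩⟩, some ⟨i, ⟨k + 2, h⟩⟩, ⟨rfl, by simp, Or.inr (Or.inl rfl)⟩,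
          ⟨rfl, by simp, Or.inl rfl⟩, ne _ _ _ _ (by omega)⟩
      · have h2 : k + 1 + 1 = n i := by omega
        cases hc : b i
        · exact ⟨some ⟨i, ⟨k, by omega⟩⟩, none, ⟨rfl, by simp, Or.inr (Or.inl rfl)⟩, Or.inr ⟨hc, h2⟩, by simp⟩
        · have := hb i hc
          exact ⟨some ⟨i, ⟨k, by omega⟩⟩, some ⟨i, ⟨0, by omega⟩⟩, ⟨rfl, by simp, Or.inr (Or.inl rfl)⟩,
            ⟨rfl, by simp, Or.inr (Or.inr ⟨hc, Or.inr ⟨rfl, h2⟩⟩)⟩, ne _ _ _ _ (by omega)⟩

variable [Fintype ι]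

theorem f0_VE (hn : ∀ i, 2 ≤ n i) (hb : ∀ i, b i = true → 3 ≤ n i)
    (hD : ∀ i, Dn (b i) (n i) (1 / 2) ≠ 0)
    (hs : ∑ i, Un (b i) (n i) (1 / 2) / Dn (b i) (n i) (1 / 2) = 1) :
    VE (Gr b n) (1 / 2) (fun v => (f0 b n v : ℂ)) := by
  rw [VE_iff b n hn hb]
  have h1 : ((f0 b n none : ℝ) : ℂ) = 1 := by simp [f0]
  have h2 : ∀ i k, k < n i → Ek (b i) (n i) (1 / 2) 1 (ex n (fun v => (f0 b n v : ℂ)) i) k := by
    intro i k hk
    refine Ek_congr (fun l hl => ?_) hk (Ek_F0 _ _ _ (hn i) (hb i) hk)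
    simp [ex, hl, f0]
  rw [h1]
  refine ⟨?_, h2⟩
  unfold E0
  rw [Finset.sum_congr rfl (fun i _ => (gad (b i) (n i) (hn i) (hb i) (1 / 2) 1 _ (by norm_num) (by norm_num)
    (hD i) (h2 i)).1), ← Finset.mul_sum, hs, mul_one, mul_one]

theorem card_ge (hn : ∀ i, 2 ≤ n i) : Fintype.card ι ≤ Fintype.card (Vt n) := by
  refine Fintype.card_le_of_injective (fun i => some ⟨i, ⟨0, by have := hn i; omega⟩⟩) fun i j h => ?_
  exact congrArg Sigma.fst (Option.some.inj h)

end Pool.Agent.H2.NB
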