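import Pool.Agent.H2.NBAn

set_option autoImplicit false
open Finset

namespace Pool.Agent.H2.NB

def tl : ℕ → ℕ → List (Bool × ℕ)
  | 0, u => [(true, u), (true, u)]
  | N + 1, u => (false, u) :: (true, 2 * u + 1) :: (true, 2 * u + 1) :: tl N (2 * u + 1)

theorem tl_ge : ∀ N u, ∀ g ∈ tl N u, u ≤ g.2
  | 0, u => by simp [tl]
  | N + 1, u => by
    intro g hg
    simp only [tl, List.mem_cons] at hg
    rcases hg with rfl | rfl | rfl | h
    · simp
    · simp; omega
    · simp; omega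
    · have := tl_ge N _ g h; omega

theorem tl_len : ∀ N u, N + 2 ≤ (tl N u).length
  | 0, u => by simp [tl]
  | N + 1, u => by
    have := tl_len N (2 * u + 1)
    simp only [tl, List.length_cons]; omega

theorem pne (u : ℕ) : (2 * 2 ^ u - 1 : ℂ) ≠ 0 ∧ (2 * 2 ^ u + 1 : ℂ) ≠ 0 := by
  have p1 : (1 : ℝ) ≤ 2 ^ u := one_le_pow₀ (by norm_num)
  have q1 : (2 * 2 ^ u - 1 : ℝ) ≠ 0 := by linarith
  have q2 : (2 * 2 ^ u + 1 : ℝ) ≠ 0 := by linarith
  exact ⟨by exact_mod_cast q1, by exact_mod_cast q2⟩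

theorem S_true (u : ℕ) : Sz (1 / 2) (true, u) = 1 / (2 * 2 ^ u - 1) := by
  have h := (pne u).1
  simp only [Sz, Un, Dn, if_true]
  have e : (1 : ℂ) - (1 / 2) ^ u + 2 * (1 / 2) ^ (u + 2) = (2 * 2 ^ u - 1) / (2 * 2 ^ u) := by
    rw [pow_add, one_div_pow]; field_simp; ring
  rw [e, pow_add, one_div_pow]
  field_simp

theorem S_false (u : ℕ) : Sz (1 / 2) (false, u) = 2 / (2 * 2 ^ u + 1) := by
  have h := (pne u).2
  simp only [Sz, Un, Dn, Bool.false_eq_true, if_false]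
  have e : (1 : ℂ) + (1 / 2) ^ (u + 1) = (2 * 2 ^ u + 1) / (2 * 2 ^ u) := by
    rw [pow_add, one_div_pow]; field_simp
  rw [e, pow_add, one_div_pow]
  field_simp

theorem tl_half : ∀ N u, ((tl N u).map (Sz (1 / 2))).sum = 2 / (2 * 2 ^ u - 1)
  | 0, u => by simp only [tl, List.map_cons, List.map_nil, List.sum_cons, List.sum_nil, S_true]; ring
  | N + 1, u => by
    simp only [tl, List.map_cons, List.sum_cons, S_true, S_false, tl_half N]
    obtain ⟨a, c⟩ := pne u
    have e : (2 * 2 ^ (2 * u + 1) - 1 : ℂ) = (2 * 2 ^ u - 1) * (2 * 2 ^ u + 1) := by ring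
    rw [e]
    generalize hx : (2 * 2 ^ u - 1 : ℂ) = x at a ⊢
    have hy : (2 * 2 ^ u + 1 : ℂ) = x + 2 := by rw [← hx]; ring
    rw [hy] at c ⊢
    field_simp
    ring

theorem pw_diff (z : ℂ) (hz : ‖z‖ ≤ 100 / 141) (k : ℕ) :
    ‖z ^ k - (1 / 2) ^ k‖ ≤ 5 / 2 * (100 / 141) ^ k * ‖1 - 2 * z‖ := by
  induction k with
  | zero => simp
  | succ k ih =>
    have e : z ^ (k + 1) - (1 / 2) ^ (k + 1) = (-1 / 2) * z ^ k * (1 - 2 * z) + (1 / 2) * (z ^ k - (1 / 2) ^ k) := by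
      ring
    have h1 : ‖z ^ k‖ ≤ (100 / 141) ^ k := by
      rw [norm_pow]; exact pow_le_pow_left₀ (norm_nonneg _) hz k
    have h2 := norm_add_le ((-1 / 2) * z ^ k * (1 - 2 * z)) ((1 / 2) * (z ^ k - (1 / 2) ^ k))
    rw [← e, norm_mul, norm_mul, norm_mul] at h2
    have h3 : ‖(-1 / 2 : ℂ)‖ = 1 / 2 := by norm_num
    have h4 : ‖(1 / 2 : ℂ)‖ = 1 / 2 := by norm_num
    rw [h3, h4] at h2
    have h5 := mul_le_mul_of_nonneg_right h1 (norm_nonneg (1 - 2 * z))
    have h6 : 0 ≤ ((100 : ℝ) / 141) ^ k * ‖1 - 2 * z‖ := by positivity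
    rw [pow_succ ((100 : ℝ) / 141)]
    nlinarith

theorem gad_diff (z : ℂ) (hz : ‖z‖ ≤ 100 / 141) (g : Bool × ℕ) (hg : 19 ≤ g.2) :
    ‖Sz (1 / 2) g - Sz z g‖ ≤ 6 * (100 / 141) ^ g.2 * ‖1 - 2 * z‖ := by
  obtain ⟨c, m⟩ := g
  dsimp only at hg ⊢
  set t : ℝ := (100 / 141) ^ m with ht
  set A : ℝ := ‖1 - 2 * z‖ with hA
  have A0 : 0 ≤ A := norm_nonneg _
  have t0 : 0 ≤ t := by positivity
  have mono : ∀ a k : ℕ, a ≤ k → ((100 : ℝ) / 141) ^ k ≤ (100 / 141) ^ a := fun a k hk =>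
    pow_le_pow_of_le_one (by norm_num) (by norm_num) hk
  have t1 : t ≤ 1 / 500 := (mono 19 m hg).trans (by norm_num)
  have hh : ‖(1 / 2 : ℂ)‖ ≤ 100 / 141 := by norm_num
  have pd : ∀ k, m ≤ k → ‖z ^ k - (1 / 2) ^ k‖ ≤ 5 / 2 * (t * A) := fun k hk => by
    have h1 := pw_diff z hz k
    have h2 := mul_le_mul_of_nonneg_right (mono m k hk) A0
    linarith
  have hdl : 99 / 100 ≤ dl (c, m) := by
    have a := mono m (m + 1) (by omega)
    have b := mono m (m + 2) (by omega)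
    cases c <;> simp only [dl, Bool.false_eq_true, if_false, if_true] <;> linarith
  have D1 : 99 / 100 ≤ ‖Dn c m z‖ := hdl.trans (dl_le z hz (c, m))
  have D0 : 99 / 100 ≤ ‖Dn c m (1 / 2)‖ := hdl.trans (dl_le _ hh (c, m))
  have n1 : Dn c m z ≠ 0 := fun e => by rw [e, norm_zero] at D1; linarith
  have n0 : Dn c m (1 / 2) ≠ 0 := fun e => by rw [e, norm_zero] at D0; linarith
  have hU : ‖Un c m (1 / 2) - Un c m z‖ ≤ 5 * (t * A) := by
    rw [norm_sub_rev]
    cases c <;> simp only [Un, Bool.false_eq_true, if_false, if_true] <;>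
      rw [← mul_sub, norm_mul, Complex.norm_ofNat]
    · linarith [pd (m + 1) (by omega)]
    · linarith [pd (m + 2) (by omega)]
  have hU0 : ‖Un c m (1 / 2)‖ ≤ 1 / 250 := by
    have pw : ∀ k : ℕ, m ≤ k → ‖(1 / 2 : ℂ) ^ k‖ ≤ t := fun k hk => by
      rw [norm_pow]; exact (pow_le_pow_left₀ (norm_nonneg _) hh k).trans (mono m k hk)
    cases c <;> simp only [Un, Bool.false_eq_true, if_false, if_true] <;> rw [norm_mul, Complex.norm_ofNat]
    · linarith [pw (m + 1) (by omega)]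
    · linarith [pw (m + 2) (by omega)]
  have hD : ‖Dn c m z - Dn c m (1 / 2)‖ ≤ 15 / 2 * (t * A) := by
    have tA : 0 ≤ t * A := mul_nonneg t0 A0
    cases c <;> simp only [Dn, Bool.false_eq_true, if_false, if_true]
    · rw [add_sub_add_left_eq_sub]
      linarith [pd (m + 1) (by omega)]
    · have e : 1 - z ^ m + 2 * z ^ (m + 2) - (1 - (1 / 2) ^ m + 2 * (1 / 2) ^ (m + 2)) =
          2 * (z ^ (m + 2) - (1 / 2) ^ (m + 2)) - (z ^ m - (1 / 2) ^ m) := by ring
      have h := norm_sub_le (2 * (z ^ (m + 2) - (1 / 2) ^ (m + 2))) (z ^ m - (1 / 2) ^ m)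
      rw [norm_mul, Complex.norm_ofNat] at h
      rw [e]
      linarith [pd m le_rfl, pd (m + 2) (by omega)]
  have e : Sz (1 / 2) (c, m) - Sz z (c, m) = (Un c m (1 / 2) - Un c m z) / Dn c m z +
      Un c m (1 / 2) * (Dn c m z - Dn c m (1 / 2)) / (Dn c m (1 / 2) * Dn c m z) := by
    simp only [Sz]
    generalize Dn c m (1 / 2) = x at n0 ⊢
    generalize Un c m (1 / 2) = y
    field_simp
    ring
  have tA : 0 ≤ t * A := mul_nonneg t0 A0
  have b1 : ‖(Un c m (1 / 2) - Un c m z) / Dn c m z‖ ≤ 11 / 2 * (t * A) := by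
    rw [norm_div, div_le_iff₀ (by linarith)]
    nlinarith
  have b2 : ‖Un c m (1 / 2) * (Dn c m z - Dn c m (1 / 2)) / (Dn c m (1 / 2) * Dn c m z)‖ ≤ 1 / 2 * (t * A) := by
    have q : 9 / 10 ≤ ‖Dn c m (1 / 2)‖ * ‖Dn c m z‖ := by nlinarith
    rw [norm_div, norm_mul, norm_mul, div_le_iff₀ (by linarith)]
    have q2 := mul_le_mul hU0 hD (norm_nonneg _) (by norm_num)
    nlinarith
  rw [e]
  have := norm_add_le ((Un c m (1 / 2) - Un c m z) / Dn c m z)
    (Un c m (1 / 2) * (Dn c m z - Dn c m (1 / 2)) / (Dn c m (1 / 2) * Dn c m z))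
  linarith

theorem tl_diff (z : ℂ) (hz : ‖z‖ ≤ 100 / 141) : ∀ N u, 19 ≤ u →
    ‖((tl N u).map (Sz (1 / 2))).sum - ((tl N u).map (Sz z)).sum‖ ≤ 12 * (100 / 141) ^ u * ‖1 - 2 * z‖
  | 0, u, hu => by
    have a := gad_diff z hz (true, u) hu
    simp only [tl, List.map_cons, List.map_nil, List.sum_cons, List.sum_nil]
    have e : Sz (1 / 2) (true, u) + (Sz (1 / 2) (true, u) + 0) - (Sz z (true, u) + (Sz z (true, u) + 0)) =
        2 * (Sz (1 / 2) (true, u) - Sz z (true, u)) := by ring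
    rw [e, norm_mul, Complex.norm_ofNat]
    dsimp only at a
    linarith
  | N + 1, u, hu => by
    have a := gad_diff z hz (false, u) hu
    have c := gad_diff z hz (true, 2 * u + 1) (by dsimp only; omega)
    have d := tl_diff z hz N (2 * u + 1) (by omega)
    simp only [tl, List.map_cons, List.sum_cons]
    dsimp only at a c
    generalize ((tl N (2 * u + 1)).map (Sz (1 / 2))).sum = X at d ⊢
    generalize ((tl N (2 * u + 1)).map (Sz z)).sum = Y at d ⊢
    have e : Sz (1 / 2) (false, u) + (Sz (1 / 2) (true, 2 * u + 1) + (Sz (1 / 2) (true, 2 * u + 1) + X)) -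
        (Sz z (false, u) + (Sz z (true, 2 * u + 1) + (Sz z (true, 2 * u + 1) + Y))) =
        (Sz (1 / 2) (false, u) - Sz z (false, u)) +
          2 * (Sz (1 / 2) (true, 2 * u + 1) - Sz z (true, 2 * u + 1)) + (X - Y) := by ring
    rw [e]
    have h1 := norm_add₃_le (a := Sz (1 / 2) (false, u) - Sz z (false, u))
      (b := 2 * (Sz (1 / 2) (true, 2 * u + 1) - Sz z (true, 2 * u + 1))) (c := X - Y)
    rw [norm_mul, Complex.norm_ofNat] at h1
    have h2 : ((100 : ℝ) / 141) ^ (2 * u + 1) ≤ 1 / 4 * (100 / 141) ^ u := by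
      rw [show 2 * u + 1 = (u + 1) + u by ring, pow_add]
      refine mul_le_mul_of_nonneg_right ?_ (by positivity)
      exact (pow_le_pow_of_le_one (by norm_num) (by norm_num) (show 19 ≤ u + 1 by omega)).trans (by norm_num)
    have h3 := mul_le_mul_of_nonneg_right h2 (norm_nonneg (1 - 2 * z))
    linarith

def fam (N : ℕ) : List (Bool × ℕ) := expand core ++ tl N 19

theorem expand_ok : ∀ l : List (ℕ × Bool × ℕ), (∀ g ∈ l, ok g.2) → ∀ g ∈ expand l, ok g
  | [], _ => by simp [expand]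
  | a :: l, h => by
    intro g hg
    simp only [expand, List.mem_append, List.mem_replicate] at hg
    rcases hg with ⟨-, rfl⟩ | hg
    · exact h a List.mem_cons_self
    · exact expand_ok l (fun x hx => h x (List.mem_cons_of_mem _ hx)) g hg

theorem fam_ok (N : ℕ) : ∀ g ∈ fam N, ok g := by
  intro g hg
  rcases List.mem_append.1 hg with h | h
  · exact expand_ok core core_ok g h
  · have := tl_ge N 19 g h
    exact ⟨by omega, fun _ => by omega⟩

theorem core_id (z : ℂ) (hz : ‖z‖ ≤ 100 / 141) :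
    ev (acc core).2 z * (1048573 - 1048575 * ((expand core).map (Sz z)).sum) = (1 - 2 * z) * ev Mq z := by
  have h := ev_allz z _ chk1
  simp only [ev_add, ev_sm, ev_mul, (acc_ev z hz core core_ok).1] at h
  simp only [ev] at h
  push_cast at h
  linear_combination h

theorem fam_half (N : ℕ) : ((fam N).map (Sz (1 / 2))).sum = 1 := by
  have hh : ‖(1 / 2 : ℂ)‖ ≤ 100 / 141 := by norm_num
  have h := core_id _ hh
  have d := chk4.trans (acc_ev _ hh core core_ok).2
  have n0 : ev (acc core).2 (1 / 2) ≠ 0 := fun e => by rw [e, norm_zero] at d; linarith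
  rw [show (1 : ℂ) - 2 * (1 / 2) = 0 by norm_num, zero_mul] at h
  have h2 := (mul_eq_zero.1 h).resolve_left n0
  rw [fam, List.map_append, List.sum_append, tl_half]
  norm_num at h2 ⊢
  linear_combination (-1 / 1048575) * h2

theorem fam_only (N : ℕ) (z : ℂ) (hz : ‖z‖ ≤ 100 / 141) (h : ((fam N).map (Sz z)).sum = 1) : z = 1 / 2 := by
  by_contra hne
  have A0 : 0 < ‖1 - 2 * z‖ := norm_pos_iff.2 fun e => hne (by linear_combination (-1 / 2) * e)
  have h1 := core_id z hz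
  have d := chk4.trans (acc_ev z hz core core_ok).2
  have h2 := tl_diff z hz N 19 le_rfl
  rw [fam, List.map_append, List.sum_append] at h
  rw [tl_half] at h2
  generalize ((tl N 19).map (Sz z)).sum = Y at h h2
  generalize ((expand core).map (Sz z)).sum = X at h h1
  have e : (1048573 : ℂ) - 1048575 * X = -1048575 * (2 / (2 * 2 ^ 19 - 1) - Y) := by
    norm_num
    linear_combination (-1048575) * h
  rw [e] at h1
  have h3 := congrArg norm h1
  rw [norm_mul, norm_mul, norm_mul, norm_neg, Complex.norm_ofNat] at h3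
  have h4 : (12 : ℝ) * (100 / 141) ^ 19 ≤ 1 / 50 := by norm_num
  have h5 : ‖2 / (2 * 2 ^ 19 - 1) - Y‖ ≤ 1 / 50 * ‖1 - 2 * z‖ :=
    h2.trans (mul_le_mul_of_nonneg_right h4 A0.le)
  set D := ‖ev (acc core).2 z‖ with hD
  have h6 : ‖ev Mq z‖ ≤ D * (1048575 / 50) := by
    refine le_of_mul_le_mul_left ?_ A0
    rw [← h3]
    have := mul_le_mul_of_nonneg_left h5 (show 0 ≤ D * 1048575 by linarith)
    nlinarith
  have h7 : ‖ev Hq z‖ ≤ 14000000 := (ev_nb z hz Hq).trans (by exact_mod_cast chk2)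
  have h8 := (ev_nb z hz _).trans (show ((nb _ : ℕ) : ℝ) ≤ 10485750000 by exact_mod_cast chk3)
  rw [ev_add, ev_mul, ev_sm] at h8
  have h9 := norm_sub_le (ev Hq z * ev Mq z) (ev Hq z * ev Mq z + ((-1048575000000 : ℤ) : ℂ) * ev (acc core).2 z)
  rw [sub_add_cancel_left, norm_neg, norm_mul, norm_mul, Complex.norm_intCast] at h9
  have h10 := mul_le_mul h7 h6 (norm_nonneg _) (by norm_num)
  norm_num at h9
  rw [← hD] at h9
  norm_num at h8
  linarith

end Pool.Agent.H2.NB
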