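import Mathlib

namespace Pool.Agent.H2.SF02

/-- A is [0,2]-sum-free: the sets {0}, A and A + A are pairwise disjoint. -/
def SumFree02 {G : Type*} [AddCommGroup G] (A : Finset G) : Prop :=
  0 ∉ A ∧ (∀ a ∈ A, ∀ b ∈ A, a + b ≠ 0) ∧ ∀ a ∈ A, ∀ b ∈ A, a + b ∉ A

/-- The set of sizes of [0,2]-sum-free subsets of G; its maximum is mu(G,[0,2]). -/
def sizes (G : Type*) [AddCommGroup G] : Set ℕ :=
  {k | ∃ A : Finset G, SumFree02 A ∧ A.card = k}

end Pool.Agent.H2.SF02
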