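import Mathlib
import Pool.Agent.H2.Kneser
import Pool.Agent.H2.SF02Defs

namespace Pool.Agent.H2.SF02

open Finset Pointwise Pool.Agent.H2.Kneser

set_option linter.unusedSectionVars false

variable {G : Type*} [AddCommGroup G] [Fintype G] [DecidableEq G]

theorem exists_surj {p j : ℕ} (hp : p.Prime) (h : p ^ (j + 1) ∣ AddMonoid.exponent G) :
    ∃ φ : G →+ ZMod (p ^ (j + 1)), Function.Surjective φ := by
  classical
  obtain ⟨ι, _, n, hn, ⟨e⟩⟩ := AddCommGroup.equiv_directSum_zmod_of_finite' G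
  let e' := e.trans (DirectSum.addEquivProd _)
  by_cases hc : ∃ i, p ^ (j + 1) ∣ n i
  · obtain ⟨i, hi⟩ := hc
    refine ⟨(ZMod.castHom hi (ZMod (p ^ (j + 1)))).toAddMonoidHom.comp
      ((Pi.evalAddMonoidHom (fun i => ZMod (n i)) i).comp e'.toAddMonoidHom), ?_⟩
    exact (ZMod.castHom_surjective hi).comp ((Function.surjective_eval i).comp e'.surjective)
  push Not at hc
  have h1 : ∀ i, n i ∣ p ^ j * ∏ i, ordCompl[p] (n i) := fun i => by
    conv_lhs => rw [← Nat.ordProj_mul_ordCompl_eq_self (n i) p]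
    refine mul_dvd_mul (pow_dvd_pow _ ?_) (dvd_prod_of_mem _ (mem_univ i))
    by_contra hl
    exact hc i ((pow_dvd_pow _ (by omega)).trans (Nat.ordProj_dvd _ _))
  have h2 : AddMonoid.exponent G ∣ p ^ j * ∏ i, ordCompl[p] (n i) :=
    AddMonoid.exponent_dvd_of_forall_nsmul_eq_zero fun g => e'.injective (by
      rw [map_nsmul, map_zero]
      funext i
      rw [Pi.smul_apply, nsmul_eq_mul, (ZMod.natCast_eq_zero_iff _ _).2 (h1 i)]
      simp)
  have h3 := h.trans h2
  rw [pow_succ, Nat.mul_dvd_mul_iff_left (pow_pos hp.pos j)] at h3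
  obtain ⟨i, -, hi⟩ := (hp.prime.dvd_finset_prod_iff _).1 h3
  exact absurd hi (Nat.not_dvd_ordCompl hp (by have := hn i; omega))

theorem card_pre {H : Type*} [AddCommGroup H] [Fintype H] [DecidableEq H] (φ : G →+ H)
    (h : Function.Surjective φ) (B : Finset H) :
    #{x | φ x ∈ B} * Fintype.card H = #B * Fintype.card G := by
  have h1 : ∀ B : Finset H, #{x | φ x ∈ B} = #B * #{x | φ x = 0} := fun B => by
    rw [card_eq_sum_card_fiberwise (f := φ) (t := B) (fun x hx => by simpa using hx)]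
    refine sum_const_nat fun y hy => ?_
    rw [← AddMonoidHom.card_fiber_eq_of_mem_range φ (h y) (h 0)]
    congr 1
    ext x
    simp only [mem_filter, mem_univ, true_and, and_iff_right_iff_imp]
    exact fun e => e ▸ hy
  have h2 := h1 univ
  simp only [mem_univ, filter_true, card_univ] at h2
  rw [h1, h2]; ring

theorem SumFree02.pre {H : Type*} [AddCommGroup H] [DecidableEq H] (φ : G →+ H) {B : Finset H}
    (h : SumFree02 B) : SumFree02 ({x | φ x ∈ B} : Finset G) := by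
  refine ⟨by simpa using h.1, fun a ha b hb e => ?_, fun a ha b hb e => ?_⟩ <;>
    simp only [mem_filter, mem_univ, true_and, map_add] at *
  · exact h.2.1 _ ha _ hb (by rw [← map_add, e, map_zero])
  · exact h.2.2 _ ha _ hb e

theorem zmod_lower (d : ℕ) [NeZero d] : (d + 1) / 4 ∈ sizes (ZMod d) := by
  set k := (d + 1) / 4 with hk
  have hd := NeZero.pos d
  have hv : ∀ a ∈ (Ico k (2 * k)).image (Nat.cast : ℕ → ZMod d), k ≤ a.val ∧ a.val < 2 * k := by
    intro a ha
    obtain ⟨x, hx, rfl⟩ := mem_image.1 ha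
    rw [mem_Ico] at hx
    rwa [ZMod.val_cast_of_lt (by omega)]
  refine ⟨(Ico k (2 * k)).image Nat.cast, ⟨fun e => ?_, fun a ha b hb e => ?_,
    fun a ha b hb e => ?_⟩, ?_⟩
  · have := hv _ e
    simp at this; omega
  · have h1 := hv a ha
    have h2 := hv b hb
    have := ZMod.val_add_of_lt (a := a) (b := b) (by omega)
    rw [e, ZMod.val_zero] at this; omega
  · have h1 := hv a ha
    have h2 := hv b hb
    have h3 := hv _ e
    have := ZMod.val_add_of_lt (a := a) (b := b) (by omega)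
    omega
  · rw [card_image_of_injOn, Nat.card_Ico]
    · omega
    intro x hx y hy e
    simp only [coe_Ico, Set.mem_Ico] at hx hy
    have := congrArg ZMod.val e
    rwa [ZMod.val_cast_of_lt (by omega), ZMod.val_cast_of_lt (by omega)] at this

theorem lift_lower {d : ℕ} [NeZero d] (φ : G →+ ZMod d) (h : Function.Surjective φ) :
    (d + 1) / 4 * (Fintype.card G / d) ∈ sizes G := by
  obtain ⟨B, h1, h2⟩ := zmod_lower d
  refine ⟨_, h1.pre φ, ?_⟩
  have h3 := card_pre φ h B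
  have h4 := card_pre φ h {0}
  rw [ZMod.card, card_singleton, one_mul] at *
  rw [← h4, ← mul_assoc, h2] at h3
  rw [← h4, Nat.mul_div_cancel _ (NeZero.pos d)]
  exact Nat.eq_of_mul_eq_mul_right (NeZero.pos d) h3

/-- Kneser set-up for P - Q avoiding R and -R inside a coset W of size m. -/
theorem setup {M P Q R : Finset G} (hM : Sg M) (hP : P.Nonempty) (hQ : Q.Nonempty) {w : G}
    (hD : ∀ a ∈ P, ∀ b ∈ Q, a - b ∈ w +ᵥ M ∧ a - b ∉ R ∧ b - a ∉ R)
    (hR : ∀ a ∈ R, a ∈ w +ᵥ M ∧ -a ∈ w +ᵥ M ∧ -a ∉ R) :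
    ∃ m d k l c : ℕ, 0 < m ∧ #M = d * m ∧ #P ≤ k * m ∧ #Q ≤ l * m ∧ 2 * #R ≤ c * m ∧
      k + l + c ≤ d + 1 ∧ (P = Q → k = l) := by
  set D := P + -Q with hDd
  set H := st D
  have s : Sg H := sg_st D
  have kn := kneser hP (hQ.neg)
  rw [← hDd] at kn
  have hD' : ∀ x ∈ D, x ∈ w +ᵥ M ∧ x ∉ R ∧ -x ∉ R := fun x hx => by
    obtain ⟨a, ha, b, hb, rfl⟩ := mem_add.1 hx
    have := hD a ha (-b) (mem_neg'.1 hb)
    rwa [sub_neg_eq_add, ← neg_add', add_comm b a] at this
  obtain ⟨x0, hx0⟩ : D.Nonempty := hP.add hQ.neg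
  have HM : H ⊆ M := fun h hh => by
    convert hM.sub _ (hM.mem_coset.1 (hD' _ (mem_st.1 hh _ hx0)).1) _
      (hM.mem_coset.1 (hD' _ hx0).1) using 1
    abel
  have e1 : -Q + H = -(Q + H) := by
    rw [neg_add]
    congr 1
    exact Subset.antisymm (fun x hx => mem_neg'.2 (s.neg hx))
      fun x hx => by simpa using s.neg (mem_neg'.1 hx)
  obtain ⟨d, hd⟩ := Per.card_dvd s (fun x hx k hk => hM.add hx (HM hk) : Per H M)
  obtain ⟨k, hk⟩ := (s.per_add P).card_dvd s
  obtain ⟨l, hl⟩ := (s.per_add Q).card_dvd s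
  obtain ⟨c, hc⟩ := (s.per_add (R ∪ -R)).card_dvd s
  have hRR : #(R ∪ -R) = 2 * #R := by
    rw [card_union_of_disjoint (disjoint_left.2 fun a ha hb => (hR a ha).2.2 (mem_neg'.1 hb)),
      card_neg, two_mul]
  have hdis : Disjoint D (R ∪ -R + H) := disjoint_left.2 fun x hx hx' => by
    obtain ⟨a, ha, b, hb, rfl⟩ := mem_add.1 hx'
    have := hD' a (by simpa using mem_st.1 (s.neg hb) _ hx)
    exact (mem_union.1 ha).elim this.2.1 fun e => this.2.2 (mem_neg'.1 e)
  have hsub : D ∪ (R ∪ -R + H) ⊆ w +ᵥ M := union_subset (fun x hx => (hD' x hx).1) fun x hx => by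
    obtain ⟨a, ha, b, hb, rfl⟩ := mem_add.1 hx
    have : a ∈ w +ᵥ M := (mem_union.1 ha).elim (fun e => (hR a e).1)
      fun e => by simpa using (hR _ (mem_neg'.1 e)).2.1
    refine hM.mem_coset.2 ?_
    convert hM.add (hM.mem_coset.1 this) (HM hb) using 1; abel
  have h5 := card_le_card hsub
  rw [card_union_of_disjoint hdis, card_vadd_finset] at h5
  rw [e1, card_neg] at kn
  have := card_le_card (s.subset_add P)
  have := card_le_card (s.subset_add Q)
  have := card_le_card (s.subset_add (R ∪ -R))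
  refine ⟨#H, d, k, l, c, s.pos, by rw [hd, mul_comm], by rw [mul_comm]; omega,
    by rw [mul_comm l]; omega, by rw [mul_comm c]; omega, ?_, fun e => ?_⟩
  · refine Nat.le_of_mul_le_mul_left (c := #H) ?_ s.pos
    rw [mul_add, mul_add, mul_add, mul_one]
    change #(P + H) + #(Q + H) ≤ #D + #H at kn
    omega
  · subst e
    exact Nat.eq_of_mul_eq_mul_left s.pos (hk.symm.trans hl)

theorem SumFree02.sub {A : Finset G} (h : SumFree02 A) {a b : G} (ha : a ∈ A) (hb : b ∈ A) :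
    a - b ∉ A := fun e => h.2.2 _ e _ hb (by simpa using ha)

theorem SumFree02.neg {A : Finset G} (h : SumFree02 A) {a : G} (ha : a ∈ A) : -a ∉ A :=
  fun e => h.2.1 _ ha _ e (by simp)

theorem upper {A : Finset G} (h : SumFree02 A) : 4 * #A ≤ Fintype.card G ∨
    ∃ d m, Fintype.card G = d * m ∧ d % 4 = 3 ∧ 4 * #A ≤ (d + 1) * m := by
  rcases A.eq_empty_or_nonempty with rfl | hA
  · simp
  obtain ⟨m, d, k, l, c, hm, h1, h2, -, h3, h4, h5⟩ := setup (M := univ) (R := A) (w := 0)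
    ⟨mem_univ _, fun _ _ _ _ => mem_univ _⟩ hA hA
    (fun a ha b hb => ⟨by simp, h.sub ha hb, h.sub hb ha⟩) fun a ha => ⟨by simp, by simp, h.neg ha⟩
  obtain rfl := h5 rfl
  rw [card_univ] at h1
  by_cases e : 4 * k = d + 1
  · exact Or.inr ⟨d, m, h1, by omega, by rw [← e]; nlinarith⟩
  left
  rw [h1]
  rcases lt_or_gt_of_ne e with e | e
  · nlinarith
  · have : 2 * c ≤ d := by omega
    nlinarith

theorem exists_prime {d : ℕ} (h : d % 4 = 3) : ∃ q, q.Prime ∧ q ∣ d ∧ q % 4 = 3 := by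
  induction d using induction_on_primes with
  | zero => simp at h
  | one => simp at h
  | prime_mul p a hp ih =>
    by_cases e : p % 4 = 3
    · exact ⟨p, hp, dvd_mul_right _ _, e⟩
    have : a % 4 = 3 := by
      rw [Nat.mul_mod] at h
      have := Nat.mod_lt p (show 0 < 4 by omega)
      have := Nat.mod_lt a (show 0 < 4 by omega)
      generalize p % 4 = x at *
      generalize a % 4 = y at *
      interval_cases x <;> interval_cases y <;> simp_all
    obtain ⟨q, h1, h2, h3⟩ := ih this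
    exact ⟨q, h1, h2.mul_left _, h3⟩

theorem case_a {p : ℕ} (hp : IsLeast {q | q.Prime ∧ q ∣ Fintype.card G ∧ q % 4 = 3} p) :
    IsGreatest (sizes G) ((p + 1) / 4 * (Fintype.card G / p)) := by
  obtain ⟨⟨h1, h2, h3⟩, h4⟩ := hp
  have : Fact p.Prime := ⟨h1⟩
  constructor
  · obtain ⟨x, hx⟩ := exists_prime_addOrderOf_dvd_card p h2
    have := exists_surj (G := G) (j := 0) h1
      (by simpa [← hx] using AddMonoid.addOrder_dvd_exponent x)
    rw [zero_add, pow_one] at this
    obtain ⟨φ, hφ⟩ := this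
    exact lift_lower φ hφ
  rintro _ ⟨A, hA, rfl⟩
  obtain ⟨r, hr⟩ := h2
  have e : (p + 1) / 4 * 4 = p + 1 := by omega
  rw [hr, Nat.mul_div_cancel_left _ h1.pos]
  refine Nat.le_of_mul_le_mul_left (c := 4) ?_ (by omega)
  rw [← mul_assoc, mul_comm 4 (_ / 4), e]
  rcases upper hA with h | ⟨d, m, h5, h6, h7⟩
  · nlinarith
  · obtain ⟨q, q1, q2, q3⟩ := exists_prime h6
    have := (h4 ⟨q1, h5 ▸ q2.mul_right _, q3⟩).trans (Nat.le_of_dvd (by omega) q2)
    have : m ≤ r := Nat.le_of_mul_le_mul_left (c := p) (by nlinarith) h1.pos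
    nlinarith

theorem upper_b (hq : ¬ ∃ q, q.Prime ∧ q ∣ Fintype.card G ∧ q % 4 = 3) :
    Fintype.card G / 4 ∈ upperBounds (sizes G) := by
  rintro _ ⟨A, hA, rfl⟩
  rcases upper hA with h | ⟨d, m, h5, h6, h7⟩
  · omega
  · obtain ⟨q, q1, q2, q3⟩ := exists_prime h6
    exact absurd ⟨q, q1, h5 ▸ q2.mul_right _, q3⟩ hq

theorem cyclic_b (n : ℕ) [NeZero n] (hq : ¬ ∃ q, q.Prime ∧ q ∣ n ∧ q % 4 = 3) :
    IsGreatest (sizes (ZMod n)) (n / 4) := by
  refine ⟨?_, by simpa using upper_b (G := ZMod n) (by simpa using hq)⟩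
  have : n % 4 ≠ 3 := fun e => hq (exists_prime e)
  rw [show n / 4 = (n + 1) / 4 by omega]
  exact zmod_lower n

theorem case_b (hq : ¬ ∃ q, q.Prime ∧ q ∣ Fintype.card G ∧ q % 4 = 3)
    (h4 : 4 ∣ AddMonoid.exponent G) : IsGreatest (sizes G) (Fintype.card G / 4) := by
  obtain ⟨φ, hφ⟩ := exists_surj (G := G) (j := 1) Nat.prime_two h4
  exact ⟨by simpa using lift_lower (d := 4) φ hφ, upper_b hq⟩

theorem pair {M P Q R : Finset G} (hM : Sg M) (h1 : ∀ d, d ∣ #M → d % 4 = 1) {w : G}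
    (hD : ∀ a ∈ P, ∀ b ∈ Q, a - b ∈ w +ᵥ M ∧ a - b ∉ R ∧ b - a ∉ R)
    (hR : ∀ a ∈ R, a ∈ w +ᵥ M ∧ -a ∈ w +ᵥ M ∧ -a ∉ R) (hP : #P ≤ #R) (hQ : #Q ≤ #R) :
    2 * (#P + #Q) + 1 ≤ #M := by
  have ho := h1 _ dvd_rfl
  have h2 : 2 * #R ≤ #M := by
    rw [← card_vadd_finset w M, two_mul]
    nth_rw 2 [← card_neg R]
    rw [← card_union_of_disjoint (disjoint_left.2 fun a ha hb => (hR a ha).2.2 (mem_neg'.1 hb))]
    exact card_le_card (union_subset (fun a ha => (hR a ha).1)
      fun a ha => by simpa using (hR _ (mem_neg'.1 ha)).2.1)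
  rcases P.eq_empty_or_nonempty with rfl | hP0
  · simp; omega
  rcases Q.eq_empty_or_nonempty with rfl | hQ0
  · simp; omega
  obtain ⟨m, d, k, l, c, hm, e, a1, a2, a3, a4, -⟩ := setup hM hP0 hQ0 hD hR
  have hd := h1 d (e ▸ dvd_mul_right _ _)
  suffices 2 * (#P + #Q) ≤ d * m by omega
  by_cases c1 : 2 * (k + l) ≤ d
  · nlinarith
  by_cases c2 : 2 * c ≤ d
  · nlinarith
  by_cases c3 : 2 * k + c ≤ d
  · nlinarith
  · have : 2 * l + c ≤ d := by omega
    nlinarith

theorem case_c (hq : ¬ ∃ q, q.Prime ∧ q ∣ Fintype.card G ∧ q % 4 = 3)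
    (h4 : ¬ 4 ∣ AddMonoid.exponent G) (h2 : 2 ∣ Fintype.card G) :
    IsGreatest (sizes G) ((Fintype.card G - #{x : G | x + x = 0}) / 4) := by
  set T : Finset G := {x : G | x + x = 0} with hT
  constructor
  · obtain ⟨y, hy⟩ := exists_prime_addOrderOf_dvd_card 2 h2
    have e2 : 2 ∣ AddMonoid.exponent G := by simpa [← hy] using AddMonoid.addOrder_dvd_exponent y
    obtain ⟨φ, hφ⟩ : ∃ φ : G →+ ZMod 2, Function.Surjective φ :=
      exists_surj (G := G) (j := 0) Nat.prime_two e2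
    obtain ⟨x, hx⟩ := hφ 1
    obtain ⟨r, hr⟩ := e2
    obtain ⟨s, rfl⟩ : Odd r := by
      by_contra hc
      obtain ⟨s, rfl⟩ := Nat.not_odd_iff_even.1 hc
      exact h4 ⟨s, by omega⟩
    have ht1 : φ ((2 * s + 1) • x) = 1 := by
      rw [map_nsmul, hx, nsmul_eq_mul, mul_one]; push_cast; rw [show (2 : ZMod 2) = 0 from rfl]; simp
    have ht2 : (2 * s + 1) • x + (2 * s + 1) • x = 0 := by
      rw [← add_nsmul, ← two_mul, ← hr, AddMonoid.exponent_nsmul_eq_zero]
    set t := (2 * s + 1) • x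
    have z2 : ∀ a : ZMod 2, (¬ a = 1 ↔ a + 1 = 1) ∧ (-a = 1 ↔ a = 1) := by decide
    have half : ∀ X : Finset G, (∀ a, a + t ∈ X ↔ a ∈ X) → #X = 2 * #{a ∈ X | φ a = 1} := by
      intro X hX
      rw [← card_filter_add_card_filter_not (s := X) (fun a => φ a = 1), two_mul]
      congr 1
      refine card_bijective (· + t) (Equiv.addRight t).bijective fun a => ?_
      simp only [mem_filter, hX, map_add, ht1, (z2 _).1]
    have c1 := half univ (by simp)
    have c2 := half T fun a => by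
      simp only [hT, mem_filter, mem_univ, true_and]
      rw [add_add_add_comm, ht2, add_zero]
    let f := Fintype.equivFin G
    let A : Finset G := {a | φ a = 1 ∧ f a < f (-a)}
    have c3 : #{a ∈ univ | φ a = 1} = #{a ∈ T | φ a = 1} + 2 * #A := by
      have d1 : Disjoint A (-A) := disjoint_left.2 fun a ha hb => by
        simp only [A, mem_neg', mem_filter, neg_neg] at ha hb
        omega
      rw [two_mul]
      nth_rw 2 [← card_neg A]
      rw [← card_union_of_disjoint d1, ← card_union_of_disjoint]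
      · congr 1
        ext a
        simp only [hT, A, mem_union, mem_neg', mem_filter, neg_neg, mem_univ, true_and, map_neg,
          (z2 _).2, add_eq_zero_iff_eq_neg, ← f.injective.eq_iff (a := a)]
        rcases lt_trichotomy (f a) (f (-a)) with h | h | h <;> tauto
      · refine disjoint_left.2 fun a ha hb => ?_
        simp only [hT, A, mem_union, mem_neg', mem_filter, neg_neg, add_eq_zero_iff_eq_neg] at ha hb
        rw [← ha.1.2] at hb
        omega
    refine ⟨A, ⟨?_, fun a ha b hb e => ?_, fun a ha b hb e => ?_⟩, ?_⟩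
    · simp [A]
    · simp only [A, mem_filter] at ha hb
      rw [← neg_eq_iff_add_eq_zero.2 e, neg_neg] at hb
      omega
    · simp only [A, mem_filter, map_add] at ha hb e
      rw [ha.2.1, hb.2.1] at e
      exact absurd e.2.1 (by decide)
    · rw [card_univ] at c1
      omega
  rintro _ ⟨A, hA, rfl⟩
  let ψ : G →+ G := nsmulAddMonoidHom 2
  set M : Finset G := univ.filter (· ∈ ψ.range) with hM
  have mM : ∀ x, x ∈ M ↔ x ∈ ψ.range := by simp [hM]
  have sM : Sg M := ⟨(mM _).2 (zero_mem _), fun x hx y hy =>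
    (mM _).2 (sub_mem ((mM _).1 hx) ((mM _).1 hy))⟩
  have cM : #M = Fintype.card ψ.range := (Fintype.card_subtype _).symm
  have cMT : #M * #T = Fintype.card G := by
    have := card_pre ψ.rangeRestrict ψ.rangeRestrict_surjective {0}
    rw [card_singleton, one_mul, ← cM] at this
    rw [← this, mul_comm]
    congr 2
    ext x
    simp [hT, ψ, Subtype.ext_iff, two_nsmul]
  have hodd : ¬ 2 ∣ #M := fun e => by
    obtain ⟨⟨_, x, rfl⟩, hy⟩ := exists_prime_addOrderOf_dvd_card (G := ψ.range) 2 (cM ▸ e)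
    rw [← AddSubgroup.addOrderOf_coe] at hy
    refine h4 (Dvd.dvd.trans ?_ (AddMonoid.addOrder_dvd_exponent x))
    have e1 : 2 • 2 • x = 0 := by
      have := addOrderOf_nsmul_eq_zero (ψ x)
      rw [show addOrderOf (ψ x) = 2 from hy] at this
      exact this
    have e2 : 2 • x ≠ 0 := fun e => by simp [ψ, e] at hy
    rw [addOrderOf_eq_prime_pow (p := 2) (n := 1) (by simpa using e2)
      (by rw [← e1, smul_smul]; norm_num)]
    norm_num
  have h1 : ∀ d, d ∣ #M → d % 4 = 1 := fun d hd => by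
    have a1 : d % 4 ≠ 3 := fun e => by
      obtain ⟨q, q1, q2, q3⟩ := exists_prime e
      exact hq ⟨q, q1, cMT ▸ (q2.trans hd).mul_right _, q3⟩
    have a2 : ¬ 2 ∣ d := fun e => hodd (e.trans hd)
    omega
  obtain ⟨u, -, hu⟩ := exists_max_image univ (fun x : G => #(A ∩ (x +ᵥ M))) univ_nonempty
  have hp : ∀ x, 2 * (#(A ∩ ((x + u) +ᵥ M)) + #(A ∩ (x +ᵥ M))) + 1 ≤ #M := fun x => by
    refine pair (R := A ∩ (u +ᵥ M)) (w := u) sM h1 (fun a ha b hb => ?_) (fun a ha => ?_)
      (hu _ (mem_univ _)) (hu _ (mem_univ _))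
    · rw [mem_inter, sM.mem_coset] at ha hb
      refine ⟨sM.mem_coset.2 ?_, fun e => hA.sub ha.1 hb.1 (mem_inter.1 e).1,
        fun e => hA.sub hb.1 ha.1 (mem_inter.1 e).1⟩
      convert sM.sub _ ha.2 _ hb.2 using 1; abel
    · refine ⟨(mem_inter.1 ha).2, sM.mem_coset.2 ?_, fun e => hA.neg (mem_inter.1 ha).1
        (mem_inter.1 e).1⟩
      convert sM.sub _ (sM.neg (sM.mem_coset.1 (mem_inter.1 ha).2)) _ ((mM _).2 ⟨u, rfl⟩) using 1
      simp [ψ, two_nsmul]; abel
  have hs : ∑ x : G, #(A ∩ (x +ᵥ M)) = #A * #M := by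
    simp only [← filter_mem_eq_inter, card_filter]
    rw [sum_comm]
    refine sum_const_nat fun a _ => ?_
    rw [← card_filter]
    refine card_bijective (a - ·) (Equiv.subLeft a).bijective fun x => ?_
    simp [sM.mem_coset]
  have hs2 : ∑ x : G, #(A ∩ ((x + u) +ᵥ M)) = #A * #M :=
    (Equiv.sum_comp (Equiv.addRight u) fun x : G => #(A ∩ (x +ᵥ M))).trans hs
  have := sum_le_sum fun x (_ : x ∈ univ) => hp x
  simp only [sum_add_distrib, ← mul_sum, hs, hs2, sum_const, card_univ, smul_eq_mul] at this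
  have h5 : 4 * #A + #T ≤ Fintype.card G :=
    Nat.le_of_mul_le_mul_left (c := #M) (by nlinarith) sM.pos
  omega

end Pool.Agent.H2.SF02
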