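import Mathlib
import Pool.Agent.H2.KneserH
import Pool.Agent.H2.Atom
import Pool.Agent.H2.SF02Proof

namespace Pool.Agent.H2.ZeroFree

open Finset Pointwise Pool.Agent.H2.Kneser

set_option linter.unusedSectionVars false

def fv (h d : ℕ) : ℕ := (d - Nat.gcd d h + h - 1) / h

def Bd (h n k : ℕ) : Prop := ∃ d w, n = d * w ∧ k ≤ fv h d * w

def IH (h n : ℕ) : Prop := ∀ (G : Type) [AddCommGroup G] [Fintype G] [DecidableEq G],
  Fintype.card G < n → ∀ B : Finset G, 0 ∉ h • B → Bd h (Fintype.card G) #B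

theorem fv_ge {h : ℕ} (hh : 0 < h) (d : ℕ) : d ≤ h * fv h d + Nat.gcd d h := by
  have := Nat.lt_mul_div_succ (d - Nat.gcd d h + h - 1) hh
  unfold fv
  rw [mul_add] at this
  omega

theorem fv_add {h : ℕ} (hh : 0 < h) (e t : ℕ) (he : 0 < e) : fv h (e + h * t) = fv h e + t := by
  have := Nat.gcd_le_left h he
  unfold fv
  rw [Nat.gcd_add_mul_left_left, ← Nat.add_mul_div_left _ _ hh]
  congr 1
  omega

theorem mem_nsmul' {G : Type*} [AddCommGroup G] [DecidableEq G] {A : Finset G} {h : ℕ} {x : G} :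
    x ∈ h • A ↔ ∃ f : Fin h → G, (∀ i, f i ∈ A) ∧ ∑ i, f i = x := by
  rw [mem_nsmul]
  simp only [List.sum_ofFn]
  exact ⟨fun ⟨f, e⟩ => ⟨fun i => f i, fun i => (f i).2, e⟩, fun ⟨f, a, e⟩ => ⟨fun i => ⟨f i, a i⟩, e⟩⟩

variable {G : Type} [AddCommGroup G] [Fintype G] [DecidableEq G] {h n : ℕ}

def toSub {K : Finset G} (s : Sg K) : AddSubgroup G where
  carrier := K
  zero_mem' := s.zero
  add_mem' := s.add
  neg_mem' := s.neg

theorem idx_mem {K H : Finset G} (sK : Sg K) (sH : Sg H) (HK : H ⊆ K) {d : ℕ} (hd : #K = d * #H)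
    {y : G} (hy : y ∈ K) : d • y ∈ H := by
  have h1 := AddSubgroup.nsmul_relIndex_mem (toSub sH) (K := toSub sK) hy
  have h2 := ((toSub sH).addSubgroupOf (toSub sK)).card_mul_index
  rw [Nat.card_congr
    (AddSubgroup.addSubgroupOfEquivOfLe (show toSub sH ≤ toSub sK from HK)).toEquiv] at h2
  have c : ∀ {X : Finset G} (s : Sg X), Nat.card (toSub s) = #X := fun s =>
    Nat.subtype_card _ fun _ => Iff.rfl
  rw [c, c, hd, mul_comm d] at h2
  rwa [AddSubgroup.relIndex, Nat.eq_of_mul_eq_mul_left sH.pos h2] at h1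

theorem sq (ih : IH h n) {K H B : Finset G} (sK : Sg K) (sH : Sg H) (HK : H ⊆ K) (BK : B ⊆ K)
    {d : ℕ} (hd : #K = d * #H) (hn : d < n) (h0 : 0 ∉ h • B + H) :
    ∃ e w, d = e * w ∧ #(B + H) ≤ fv h e * w * #H := by
  classical
  let φ := QuotientAddGroup.mk' (toSub sH)
  have hφ : ∀ x, φ x = 0 ↔ x ∈ H := fun x => QuotientAddGroup.eq_zero_iff x
  have c : ∀ X : Finset G, #(X + H) = #(X.image φ) * #H := fun X => by
    have h1 := SF02.card_pre φ (QuotientAddGroup.mk'_surjective _) (X.image φ)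
    have h2 := SF02.card_pre φ (QuotientAddGroup.mk'_surjective _) {0}
    rw [show univ.filter (fun x => φ x ∈ ({0} : Finset _)) = H by ext; simp [hφ]] at h2
    rw [show univ.filter (fun x => φ x ∈ X.image φ) = X + H by
      ext x
      simp only [mem_filter, mem_univ, true_and, mem_image, mem_add]
      exact ⟨fun ⟨a, ha, e⟩ => ⟨a, ha, x - a, (hφ _).1 (by rw [map_sub, e, sub_self]), by simp⟩,
        fun ⟨a, ha, b, hb, e⟩ => ⟨a, ha, by rw [← e, map_add, (hφ b).2 hb, add_zero]⟩⟩] at h1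
    rw [card_singleton, one_mul] at h2
    rw [← h2, ← mul_assoc] at h1
    exact Nat.eq_of_mul_eq_mul_right Fintype.card_pos h1
  let Q := (toSub sK).map φ
  have cQ : Fintype.card Q = d := by
    have h1 := c K
    rw [Per.add_eq sH fun x hx k hk => sK.add hx (HK hk), hd] at h1
    rw [Nat.eq_of_mul_eq_mul_right sH.pos h1]
    exact Fintype.card_of_subtype _ fun x => mem_image.trans
      ⟨fun ⟨a, b, c⟩ => ⟨a, b, c⟩, fun ⟨a, b, c⟩ => ⟨a, b, c⟩⟩
  obtain ⟨e, w, h1, h2⟩ := ih Q (by omega) ((B.image φ).subtype (· ∈ Q)) fun e => by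
    obtain ⟨f, f1, f2⟩ := mem_nsmul'.1 e
    simp only [mem_subtype, mem_image] at f1
    choose g g1 g2 using f1
    refine h0 (mem_add.2 ⟨_, mem_nsmul'.2 ⟨g, g1, rfl⟩, _, sH.neg ((hφ _).1 ?_), add_neg_cancel _⟩)
    rw [map_sum, sum_congr rfl fun i _ => g2 i, ← AddSubmonoidClass.coe_finset_sum, f2]
    rfl
  rw [card_subtype, filter_true_of_mem fun x hx => by
    obtain ⟨a, ha, rfl⟩ := mem_image.1 hx
    exact ⟨a, BK ha, rfl⟩] at h2
  exact ⟨e, w, cQ ▸ h1, c B ▸ Nat.mul_le_mul_right _ h2⟩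

theorem sgu : Sg (univ : Finset G) := ⟨mem_univ _, fun _ _ _ _ => mem_univ _⟩

theorem sg0 : Sg ({0} : Finset G) := ⟨by simp, by simp⟩

theorem quot (ih : IH h (Fintype.card G)) {H A : Finset G} (sH : Sg H) (h2 : 2 ≤ #H)
    (h0 : 0 ∉ h • A + H) : Bd h (Fintype.card G) #A := by
  obtain ⟨d, hd⟩ := Per.card_dvd sH (fun x hx k hk => mem_univ _ : Per H univ)
  have := Fintype.card_pos (α := G)
  obtain ⟨e, w, h3, h4⟩ := sq ih sgu sH (subset_univ _) (subset_univ A) (hd.trans (mul_comm _ _))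
    (by rw [card_univ] at hd; nlinarith) h0
  exact ⟨e, w * #H, by rw [← card_univ, hd, h3]; ring,
    (card_le_card (sH.subset_add A)).trans (by rwa [← mul_assoc])⟩

theorem st_union {P D H : Finset G} (sH : Sg H) (hP : Per H P) (hPH : Disjoint P H) (hD : D ⊆ H)
    {d w : G} (hd : d ∈ D) (hw : w ∈ H) (hw' : w ∉ D) : st (P ∪ D) ⊆ st D := fun x hx => by
  have hxH : x ∈ H := by
    by_contra hxH
    rcases mem_union.1 (mem_st.1 hx d (mem_union_right _ hd)) with e | e
    · have e2 := mem_st.1 ((sg_st _).neg hx) _ (mem_union_left _ (hP _ e _ (sH.sub _ hw _ (hD hd))))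
      rw [show d + x + (w - d) + -x = w by abel] at e2
      exact (mem_union.1 e2).elim (fun f => disjoint_left.1 hPH f hw) hw'
    · exact hxH (by simpa using sH.sub _ (hD e) _ (hD hd))
  exact mem_st.2 fun c hc => (mem_union.1 (mem_st.1 hx c (mem_union_right _ hc))).resolve_left
    fun f => disjoint_left.1 hPH f (sH.add (hD hc) hxH)

theorem nsmul_split (X Y : Finset G) (j : ℕ) :
    (j + 1) • (X ∪ Y) ⊆ (X + j • (X ∪ Y)) ∪ (j + 1) • Y := by
  induction j with
  | zero => simp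
  | succ j ih =>
    intro z hz
    rw [succ_nsmul] at hz
    obtain ⟨a, ha, b, hb, rfl⟩ := mem_add.1 hz
    rcases mem_union.1 (ih ha) with e | e
    · exact mem_union_left _ (by rw [succ_nsmul, ← add_assoc]; exact add_mem_add e hb)
    rcases mem_union.1 hb with f | f
    · exact mem_union_left _ (add_comm b a ▸ add_mem_add f ha)
    · exact mem_union_right _ (by rw [succ_nsmul]; exact add_mem_add e f)

theorem kn0 {A : Finset G} (hA : A.Nonempty) {j : ℕ} (h : st ((j + 1) • A) ⊆ {0}) :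
    (j + 1) * #A ≤ #((j + 1) • A) + j := by
  have := kneser_nsmul hA j
  rw [Subset.antisymm h (singleton_subset_iff.2 (sg_st _).zero)] at this
  simpa using this

theorem nsmul_mem {K X : Finset G} (s : Sg K) {u : G} (hX : ∀ x ∈ X, x - u ∈ K) (j : ℕ) :
    ∀ x ∈ j • X, x - j • u ∈ K := by
  induction j with
  | zero => simpa using s.zero
  | succ j ih =>
    intro z hz
    rw [succ_nsmul] at hz
    obtain ⟨a, ha, b, hb, rfl⟩ := mem_add.1 hz
    convert s.add (ih a ha) (hX b hb) using 1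
    rw [succ_nsmul]; abel

theorem np {j k : ℕ} (ih : IH (j + 2) (Fintype.card G)) {A H : Finset G} (h0 : 0 ∉ (j + 2) • A)
    (hap : st ((j + 2) • A) ⊆ {0}) (hk : #A = k + 1)
    (hn : Fintype.card G = Nat.gcd (Fintype.card G) (j + 2) + (j + 2) * k)
    (sH : Sg H) (h2 : 2 ≤ #H) (h3 : #H < Fintype.card G) (h4 : #(A + H) + 1 ≤ #A + #H) :
    Bd (j + 2) (Fintype.card G) #A := by
  by_cases c0 : 0 ∉ (j + 2) • A + H
  · exact quot ih sH h2 c0
  push Not at c0
  have hA : A.Nonempty := card_pos.1 (by omega)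
  have self : ∀ u : G, u ∈ u +ᵥ H := fun u => sH.mem_coset.2 (by simpa using sH.zero)
  obtain ⟨a₀, ha₀, hmin⟩ := exists_min_image A (fun a => #(A ∩ (a +ᵥ H))) hA
  set A₀ := A ∩ (a₀ +ᵥ H) with hA₀
  set A' := A \ (a₀ +ᵥ H) with hA'
  have hAu : A' ∪ A₀ = A := sdiff_union_inter _ _
  have hcos : ∀ a ∈ A, a +ᵥ H ⊆ A + H := fun a ha x hx =>
    mem_add.2 ⟨a, ha, _, sH.mem_coset.1 hx, by simp⟩
  have holes : ∀ a ∈ A', ∀ b ∈ A, #H < #(A ∩ (a +ᵥ H)) + #(A ∩ (b +ᵥ H)) := fun a ha b hb => by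
    obtain ⟨ha, hna⟩ := mem_sdiff.1 ha
    have gen : ∀ c ∈ A, a ∉ c +ᵥ H → #H < #(A ∩ (a +ᵥ H)) + #(A ∩ (c +ᵥ H)) := fun c hc e => by
      have d1 : Disjoint (a +ᵥ H) (c +ᵥ H) := disjoint_left.2 fun y y1 y2 => e (sH.mem_coset.2 (by
        convert sH.sub _ (sH.mem_coset.1 y2) _ (sH.mem_coset.1 y1) using 1; abel))
      have d2 := card_le_card (union_subset (sH.subset_add A)
        (union_subset (hcos a ha) (hcos c hc)))
      have d3 := card_union_add_card_inter A ((a +ᵥ H) ∪ (c +ᵥ H))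
      have d4 := card_union_le (A ∩ (a +ᵥ H)) (A ∩ (c +ᵥ H))
      rw [card_union_of_disjoint d1, inter_union_distrib_left, card_vadd_finset,
        card_vadd_finset] at d3
      omega
    have := gen a₀ ha₀ hna
    have := hmin b hb
    simp only [hA₀] at *
    omega
  have full : A' + A + H ⊆ A + A := fun z hz => by
    obtain ⟨_, e, y, hy, rfl⟩ := mem_add.1 hz
    obtain ⟨a, ha, b, hb, rfl⟩ := mem_add.1 e
    have h5 := holes a ha b hb
    by_contra hc
    let Y := (A ∩ (b +ᵥ H)).image (a + b + y - ·)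
    have y1 : #Y = #(A ∩ (b +ᵥ H)) := card_image_of_injective _ sub_right_injective
    have y2 : Disjoint (A ∩ (a +ᵥ H)) Y := disjoint_left.2 fun x x1 x2 => by
      obtain ⟨w, hw, rfl⟩ := mem_image.1 x2
      exact hc (mem_add.2 ⟨_, (mem_inter.1 x1).1, w, (mem_inter.1 hw).1, by simp⟩)
    have y3 := card_le_card (union_subset (u := a +ᵥ H) (inter_subset_right (s₁ := A))
      (show Y ⊆ _ from fun x hx => by
        obtain ⟨w, hw, rfl⟩ := mem_image.1 hx
        refine sH.mem_coset.2 ?_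
        convert sH.sub _ hy _ (sH.mem_coset.1 (mem_inter.1 hw).2) using 1; abel))
    rw [card_union_of_disjoint y2, card_vadd_finset] at y3
    omega
  set P := A' + (j + 1) • A + H with hP
  have pP : Per H P := sH.per_add _
  have PA : P ⊆ (j + 2) • A := by
    rw [hP, succ_nsmul' A j, ← add_assoc, add_right_comm, add_comm j 2, add_nsmul, two_nsmul]
    exact add_subset_add_right full
  have PH : Disjoint P H := disjoint_left.2 fun x x1 x2 =>
    h0 (PA (by simpa using pP x x1 _ (sH.neg x2)))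
  have A0A : (j + 2) • A₀ ⊆ (j + 2) • A := nsmul_subset_nsmul_left inter_subset_left
  have split : (j + 2) • A = P ∪ (j + 2) • A₀ := by
    refine Subset.antisymm ?_ (union_subset PA A0A)
    have := nsmul_split A' A₀ (j + 1)
    rw [hAu] at this
    exact this.trans (union_subset_union_left (sH.subset_add _))
  have near : ∀ x ∈ (j + 2) • A₀, x - (j + 2) • a₀ ∈ H :=
    nsmul_mem sH (fun x hx => sH.mem_coset.1 (mem_inter.1 hx).2) _
  have zH : (j + 2) • a₀ ∈ H := by
    obtain ⟨x, hx, y, hy, e⟩ := mem_add.1 c0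
    have hxH : x ∈ H := by rw [eq_neg_of_add_eq_zero_left e]; exact sH.neg hy
    have := near x ((mem_union.1 (split ▸ hx)).resolve_left fun f => disjoint_left.1 PH f hxH)
    simpa using sH.sub _ hxH _ this
  have A0H : (j + 2) • A₀ ⊆ H := fun x hx => by simpa using sH.add (near x hx) zH
  have hz0 : (j + 2) • a₀ ≠ 0 := fun e => h0 (e ▸ nsmul_mem_nsmul ha₀)
  have a0A : a₀ ∈ A₀ := mem_inter.2 ⟨ha₀, self _⟩
  have k1 := kn0 (j := j + 1) ⟨a₀, a0A⟩ (fun x hx => hap (by
    rw [split]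
    refine mem_st.2 fun c hc => ?_
    have hxH : x ∈ H := by
      simpa using sH.sub _ (A0H (mem_st.1 hx _ (nsmul_mem_nsmul a0A))) _ zH
    rcases mem_union.1 hc with e | e
    exacts [mem_union_left _ (pP c e x hxH), mem_union_right _ (mem_st.1 hx c e)]))
  have k2 : #((j + 2) • A₀) < #H := card_lt_card ⟨A0H, fun e => h0 (A0A (e sH.zero))⟩
  obtain ⟨t, ht⟩ := (sH.per_add A').card_dvd sH
  obtain ⟨d, hd⟩ := Per.card_dvd sH (fun x hx k hk => mem_univ _ : Per H univ)
  have k3 : #P + #H ≤ Fintype.card G := card_union_of_disjoint PH ▸ card_le_univ _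
  have k4 : (j + 2) * (#H * t) ≤ #P := by
    have e1 : (j + 2) • (A' + H ∪ {a₀}) = P ∪ {(j + 2) • a₀} := by
      have s1 : A' + H ∪ {a₀} ⊆ A + H :=
        union_subset (add_subset_add_right sdiff_subset) (by simpa using sH.subset_add A ha₀)
      have s2 : A ⊆ (A' + H ∪ {a₀}) + H := fun a ha => by
        by_cases e : a ∈ a₀ +ᵥ H
        · exact mem_add.2 ⟨a₀, by simp, _, sH.mem_coset.1 e, by simp⟩
        · exact sH.subset_add _ (mem_union_left _ (sH.subset_add _ (mem_sdiff.2 ⟨ha, e⟩)))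
      have hh : H + H = H := Per.add_eq sH fun x hx k hk => sH.add hx hk
      refine Subset.antisymm ((nsmul_split _ _ (j + 1)).trans (union_subset_union ?_ (by simp))) 
        (union_subset ?_ (by simpa using nsmul_mem_nsmul (by simp)))
      · refine (add_subset_add_left (nsmul_subset_nsmul_left s1)).trans ?_
        rw [sH.nsmul_add, add_add_add_comm, hh]
      · refine (add_subset_add_right (add_subset_add_left (nsmul_subset_nsmul_left s2))).trans ?_
        rw [sH.nsmul_add, add_assoc, add_assoc, hh, add_comm _ H, ← add_assoc, succ_nsmul' _ (j + 1)]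
        exact add_subset_add_right subset_union_left
    have e2 := kn0 (j := j + 1) (A := A' + H ∪ {a₀}) ⟨a₀, by simp⟩ (by
      rw [e1]
      refine (st_union sH pP PH (by simpa using zH) (mem_singleton_self _) sH.zero
        (by simpa using hz0.symm)).trans fun x hx => ?_
      simpa using mem_st.1 hx _ (mem_singleton_self _))
    have e3 := card_union_le P {(j + 2) • a₀}
    rw [e1, card_union_of_disjoint (disjoint_singleton_right.2 fun e => ?_), ht] at e2
    · rw [card_singleton] at *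
      linarith
    obtain ⟨a, ha, b, hb, e⟩ := mem_add.1 e
    exact (mem_sdiff.1 ha).2 (sH.mem_coset.2 (by simpa [← e] using sH.neg hb))
  have k5 : #A ≤ #H * t + #A₀ := by
    have := card_le_card (sH.subset_add A')
    have := card_union_le A' A₀
    rw [hAu] at this
    omega
  rw [card_univ] at hd
  set m := #H
  set g := Nat.gcd (Fintype.card G) (j + 2) with hg
  obtain ⟨s, rfl⟩ : ∃ s, d = (j + 2) * t + 1 + s :=
    Nat.exists_eq_add_of_le (Nat.le_of_mul_le_mul_left (c := m) (by nlinarith) (by omega))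
  have k6 : s * m + 2 ≤ g := by nlinarith
  rcases s with _ | s
  · have a0H : a₀ ∈ H := by
      have := idx_mem sgu sH (subset_univ _) (hd.trans (mul_comm _ _)) (mem_univ a₀)
      have h5 : t • (j + 2) • a₀ ∈ H := (toSub sH).nsmul_mem zH t
      convert sH.sub _ this _ h5 using 1
      simp [add_nsmul, mul_nsmul]
    obtain ⟨e, w, e1, e2⟩ := sq ih sH sg0 (by simpa using sH.zero) (B := A₀)
      (fun x hx => by simpa using sH.add (sH.mem_coset.1 (mem_inter.1 hx).2) a0H) (d := m)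
      (by simp [m]) h3 (by simpa [singleton_zero] using fun e => h0 (A0A e))
    rw [card_singleton, singleton_zero, add_zero, mul_one] at e2
    refine ⟨e + (j + 2) * (t * e), w, by rw [hd, e1]; ring, ?_⟩
    rw [fv_add (by omega) _ _ (Nat.pos_of_mul_pos_right (show 0 < e * w by omega))]
    rw [e1] at k5
    nlinarith
  exfalso
  obtain ⟨h', hh'⟩ : g ∣ j + 2 := Nat.gcd_dvd_right _ _
  obtain ⟨w, hw⟩ : g ∣ (s + 2) * m := by
    have h5 : g ∣ Fintype.card G := Nat.gcd_dvd_left _ _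
    rw [hd, show m * ((j + 2) * t + 1 + (s + 1)) = (j + 2) * (m * t) + (s + 2) * m by ring] at h5
    exact (Nat.dvd_add_right (Dvd.dvd.mul_right ⟨h', hh'⟩ _)).1 h5
  obtain rfl : w = 1 := by
    rcases w with _ | _ | w
    · simp at hw; omega
    · rfl
    · nlinarith
  have z1 : m • (j + 2) • a₀ = 0 := by
    simpa using idx_mem sH sg0 (by simpa using sH.zero) (d := m) (by simp [m]) zH
  have z2 : (m * h' * t + 1) • (j + 2) • a₀ = 0 := by
    rw [smul_smul, show (m * h' * t + 1) * (j + 2) = h' * Fintype.card G by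
      rw [hd, hh', ← mul_one g, ← hw]; ring, ← smul_smul, card_nsmul_eq_zero, smul_zero]
  rw [add_nsmul, mul_assoc, mul_nsmul, z1] at z2
  exact hz0 (by simpa using z2)

end Pool.Agent.H2.ZeroFree
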