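import Mathlib
import Pool.Agent.H2.ZeroFree

namespace Pool.Agent.H2.ZeroFree

open Finset Pointwise Pool.Agent.H2.Kneser

set_option linter.unusedSectionVars false

variable {G : Type} [AddCommGroup G] [Fintype G] [DecidableEq G] {h n : ℕ}

theorem ap_sum {A : Finset G} {e u : G} {k : ℕ} (hA : ∀ i ≤ k, e - i • u ∈ A) (h : ℕ) :
    ∀ i ≤ h * k, h • e - i • u ∈ h • A := by
  induction h with
  | zero => simp
  | succ h ih =>
    intro i hi
    rw [add_mul, one_mul] at hi
    have := add_mem_add (ih (i - min i k) (by omega)) (hA (min i k) (by omega))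
    rw [succ_nsmul A]
    convert this using 1
    nth_rw 1 [show i = i - min i k + min i k by omega]
    rw [succ_nsmul, add_nsmul]; abel

theorem closed {X : Finset G} {u : G} (h : ∀ x ∈ X, x + u ∈ X) :
    ∀ y ∈ AddSubgroup.zmultiples u, ∀ x ∈ X, x + y ∈ X := fun y hy =>
  mem_st.1 ((AddSubgroup.zmultiples_le_of_mem (H := toSub (sg_st X)) (mem_st.2 h)) hy)

theorem ap_case {j k : ℕ} (ih : IH (j + 2) (Fintype.card G)) {A : Finset G} (h0 : 0 ∉ (j + 2) • A)
    (hap : st ((j + 2) • A) ⊆ {0}) (hk : #A = k + 1)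
    (hn : Fintype.card G = Nat.gcd (Fintype.card G) (j + 2) + (j + 2) * k)
    {u : G} (hu : u ≠ 0) (h4 : #(A + {0, u}) ≤ #A + 1) : Bd (j + 2) (Fintype.card G) #A := by
  classical
  obtain ⟨e, he, he'⟩ : ∃ e ∈ A, e + u ∉ A := by
    by_contra hc
    push Not at hc
    have := st_mono A ((j + 1) • A) (mem_st.2 hc)
    rw [← succ_nsmul'] at this
    exact hu (by simpa using hap this)
  have uniq : ∀ a ∈ A, a ≠ e → a + u ∈ A := fun a ha hne => by
    by_contra hc
    have : insert (a + u) (insert (e + u) A) ⊆ A + {0, u} := by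
      refine insert_subset (add_mem_add ha (by simp)) (insert_subset (add_mem_add he (by simp)) ?_)
      exact subset_add_left _ (by simp)
    have := card_le_card this
    rw [card_insert_of_notMem (by simp [hne, hc]), card_insert_of_notMem he'] at this
    omega
  let U : Finset G := univ.filter (· ∈ AddSubgroup.zmultiples u)
  have mU : ∀ x, x ∈ U ↔ x ∈ AddSubgroup.zmultiples u := by simp [U]
  have sU : Sg U := ⟨(mU _).2 (zero_mem _), fun x hx y hy =>
    (mU _).2 (sub_mem ((mU _).1 hx) ((mU _).1 hy))⟩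
  have uU : u ∈ U := (mU _).2 (AddSubgroup.mem_zmultiples u)
  by_cases hU : U = univ
  swap
  · refine np ih h0 hap hk hn sU (one_lt_card.2 ⟨0, sU.zero, u, uU, hu.symm⟩)
      (card_lt_card (ssubset_univ_iff.2 hU)) ?_
    have cl := closed (X := A \ (e +ᵥ U)) (u := u) fun x hx => by
      obtain ⟨x1, x2⟩ := mem_sdiff.1 hx
      refine mem_sdiff.2 ⟨uniq x x1 fun f => x2 (sU.mem_coset.2 (by simpa [f] using sU.zero)),
        fun f => x2 (sU.mem_coset.2 ?_)⟩
      convert sU.sub _ (sU.mem_coset.1 f) _ uU using 1; abel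
    have per : A + U ⊆ A \ (e +ᵥ U) ∪ (e +ᵥ U) := fun z hz => by
      obtain ⟨a, ha, b, hb, rfl⟩ := mem_add.1 hz
      by_cases f : a ∈ e +ᵥ U
      · refine mem_union_right _ (sU.mem_coset.2 ?_)
        convert sU.add (sU.mem_coset.1 f) hb using 1; abel
      · exact mem_union_left _ (cl b ((mU _).1 hb) a (mem_sdiff.2 ⟨ha, f⟩))
    have := (card_le_card per).trans (card_union_le _ _)
    have := card_sdiff_add_card_inter A (e +ᵥ U)
    have := card_pos.2 ⟨e, mem_inter.2 ⟨he, sU.mem_coset.2 (show e - e ∈ U by simpa using sU.zero)⟩⟩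
    rw [card_vadd_finset] at *
    omega
  exfalso
  have all : ∀ x, x ∈ AddSubgroup.zmultiples u := fun x => (mU x).1 (hU ▸ mem_univ x)
  have hN := Fintype.card_pos (α := G)
  have ex : ∃ i : ℕ, e - i • u ∉ A := ⟨Fintype.card G - 1, by
    rwa [show e - (Fintype.card G - 1) • u = e + u by
      rw [sub_nsmul _ hN, card_nsmul_eq_zero]; simp]⟩
  have hfind : ∀ i < Nat.find ex, e - i • u ∈ A := fun i hi => not_not.1 (Nat.find_min ex hi)
  let B := (range (Nat.find ex)).image fun i => e - i • u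
  have cl := closed (X := A \ B) (u := u) fun x hx => by
    obtain ⟨x1, x2⟩ := mem_sdiff.1 hx
    refine mem_sdiff.2 ⟨uniq x x1 fun f => x2 (mem_image.2 ⟨0, mem_range.2 ((Nat.find_pos ex).2
      (by simpa using he)), by simp [f]⟩), fun f => ?_⟩
    obtain ⟨i, hi, f⟩ := mem_image.1 f
    have e1 : e - (i + 1) • u = x := by rw [succ_nsmul, ← sub_sub, f]; simp
    rcases (Nat.succ_le_of_lt (mem_range.1 hi)).lt_or_eq with l | l
    · exact x2 (mem_image.2 ⟨_, mem_range.2 l, e1⟩)
    · exact Nat.find_spec ex (by rw [← l]; exact e1 ▸ x1)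
  have AB : A ⊆ B := fun a ha => by
    by_contra hc
    exact he' (mem_sdiff.1 (by simpa using cl _ (all (e + u - a)) a (mem_sdiff.2 ⟨ha, hc⟩))).1
  have h5 : k + 1 ≤ Nat.find ex := by
    simpa [hk] using (card_le_card AB).trans card_image_le
  obtain ⟨r, rfl⟩ := (mem_multiples_iff_mem_zmultiples.2 (all e) :)
  simp only at *
  set N := Fintype.card G
  have h6 : Nat.gcd N (j + 2) ∣ (j + 2) * r % N :=
    (Nat.dvd_mod_iff (Nat.gcd_dvd_left _ _)).2 ((Nat.gcd_dvd_right _ _).mul_right _)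
  have h7 := Nat.le_of_lt_add_of_dvd (b := (j + 2) * k) (by have := Nat.mod_lt ((j + 2) * r) hN; omega)
    h6 ((Nat.gcd_dvd_right _ _).mul_right _)
  have := ap_sum (k := k) (fun i hi => hfind i (by omega)) (j + 2) _ h7
  rw [smul_smul, mod_card_nsmul, sub_self] at this
  exact h0 this

theorem piece {p : ℕ} (hp : p ∣ h) (hh : 0 < h) (ih : IH h n) {K B : Finset G} (sK : Sg K)
    (hK : #K < n) (BK : B ⊆ K) {y : G} (hy : y ∈ K) (hB : (h / p) • y ∉ h • B)
    (hyp : ∀ d, d ∣ #K → h * fv h d < d ∧ (Nat.gcd d h ∣ h / p ∨ h ∣ d)) (h2 : 2 ≤ h) :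
    h * #B ≤ #K := by
  rcases B.eq_empty_or_nonempty with rfl | hB0
  · simp
  obtain ⟨j, rfl⟩ := Nat.exists_eq_add_one.2 hh
  have kn := kneser_nsmul hB0 j
  set H := st ((j + 1) • B) with hH
  have sH : Sg H := sg_st _
  have hBK : (j + 1) • B ⊆ K := fun x hx => by
    simpa using nsmul_mem sK (u := 0) (fun x hx => by simpa using BK hx) _ x hx
  obtain ⟨z, hz⟩ := hB0.nsmul (n := j + 1)
  have HK : H ⊆ K := fun x hx => by simpa using sK.sub _ (hBK (mem_st.1 hx _ hz)) _ (hBK hz)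
  obtain ⟨d, hd⟩ := Per.card_dvd sH (fun x hx k hk => sK.add hx (HK hk) : Per H K)
  have hBH := card_le_card (sH.subset_add B)
  have hm := sH.pos
  obtain ⟨-, c | ⟨c, rfl⟩⟩ := hyp d ⟨_, hd.trans (mul_comm _ _)⟩
  · obtain ⟨c, hc⟩ := c
    have hd0 : 0 < d := Nat.pos_of_mul_pos_left (hd ▸ sK.pos)
    obtain ⟨t, ht, ht'⟩ : ∃ t ∈ K, (j + 1) • t - ((j + 1) / p) • y ∈ H := by
      refine ⟨(Nat.gcdB d (j + 1) * c) • y, (toSub sK).zsmul_mem hy _, ?_⟩
      have := (toSub sH).zsmul_mem (idx_mem sK sH HK (hd.trans (mul_comm _ _)) hy)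
        (-(Nat.gcdA d (j + 1) * c))
      convert (show _ ∈ H from this) using 1
      rw [hc, ← natCast_zsmul, ← natCast_zsmul, ← natCast_zsmul, smul_smul, smul_smul, ← sub_smul,
        Nat.cast_mul, Nat.gcd_eq_gcd_ab]
      congr 1; ring
    obtain ⟨e, w, e1, e2⟩ := sq ih sK sH HK (B := B + {-t})
      (add_subset_iff.2 fun x hx y hy => sK.add (BK hx) (mem_singleton.1 hy ▸ sK.neg ht))
      (hd.trans (mul_comm _ _)) (by nlinarith) fun f => by
        rw [nsmul_add, nsmul_singleton] at f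
        obtain ⟨_, f1, b, hb, f⟩ := mem_add.1 f
        obtain ⟨a, ha, _, f2, rfl⟩ := mem_add.1 f1
        rw [mem_singleton.1 f2] at f
        refine hB ?_
        convert mem_st.1 (sH.sub _ hb _ ht') a ha using 1
        linear_combination (norm := (simp only [smul_neg]; abel)) -f
    have := (hyp e ⟨w * #H, by rw [hd, e1]; ring⟩).1
    have := card_le_card (sH.subset_add (B + {-t}))
    rw [card_add_singleton] at this
    rw [hd, e1]
    calc (j + 1) * #B ≤ (j + 1) * (fv (j + 1) e * w * #H) := by gcongr; omega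
      _ = (j + 1) * fv (j + 1) e * (w * #H) := by ring
      _ ≤ e * (w * #H) := by gcongr
      _ = _ := by ring
  · obtain ⟨k, hk⟩ := (sH.per_add B).card_dvd sH
    have : #((j + 1) • B) < #K :=
      card_lt_card ⟨hBK, fun e => hB (e ((toSub sK).nsmul_mem hy _))⟩
    have : k < c + 1 := Nat.lt_of_mul_lt_mul_left (a := (j + 1) * #H) (by nlinarith)
    calc (j + 1) * #B ≤ (j + 1) * (#H * c) := by gcongr; exact hBH.trans (by rw [hk]; gcongr; omega)
      _ = _ := by rw [hd]; ring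

theorem step3 (ih : IH h (Fintype.card G)) (h2 : 2 ≤ h) (hn : h ∣ Fintype.card G)
    (hyp : ∀ d, d ∣ Fintype.card G → h * fv h d < d) {A : Finset G} (h0 : 0 ∉ h • A) :
    h * #A < Fintype.card G := by
  set p := h.minFac
  have hp : p.Prime := Nat.minFac_prime (by omega)
  have hph : p ∣ h := h.minFac_dvd
  have : Fact p.Prime := ⟨hp⟩
  obtain ⟨x, hx⟩ := exists_prime_addOrderOf_dvd_card p (hph.trans hn)
  have := SF02.exists_surj (G := G) (j := 0) hp
    (by simpa [← hx] using AddMonoid.addOrder_dvd_exponent x)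
  rw [zero_add, pow_one] at this
  obtain ⟨φ, hφ⟩ := this
  let K : Finset G := univ.filter fun x => φ x ∈ ({0} : Finset _)
  have mK : ∀ x, x ∈ K ↔ φ x = 0 := by simp [K]
  have sK : Sg K := ⟨by simp [mK], fun x hx y hy => by simp_all⟩
  have cK : #K * p = Fintype.card G := by simpa [K] using SF02.card_pre φ hφ {0}
  have hKn : #K < Fintype.card G := by have := hp.two_le; have := sK.pos; nlinarith
  have hyp' : ∀ d, d ∣ #K → h * fv h d < d ∧ (Nat.gcd d h ∣ h / p ∨ h ∣ d) := fun d hd => by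
    refine ⟨hyp d (cK ▸ hd.mul_right _), ?_⟩
    obtain ⟨a, b, hb, hab⟩ := Nat.exists_eq_pow_mul_and_not_dvd (show h ≠ 0 by omega) p hp.ne_one
    have cop := (Nat.Prime.coprime_iff_not_dvd hp).2 hb
    by_cases c : p ^ a ∣ d
    · right
      have h3 := hyp (p ^ a * p) (cK ▸ Nat.mul_dvd_mul_right (c.trans hd) _)
      have h4 := fv_ge (show 0 < h by omega) (p ^ a * p)
      have h5 : Nat.gcd (p ^ a * p) h = p ^ a := by
        rw [hab, Nat.gcd_mul_left, cop, mul_one]
      have h6 : 0 < p ^ a := pow_pos hp.pos a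
      rw [h5, hab, mul_assoc, ← mul_add_one] at h4
      rw [hab, mul_assoc] at h3
      have h7 := Nat.lt_of_mul_lt_mul_left h3
      have h8 := Nat.le_of_mul_le_mul_left h4 h6
      by_cases e : b = 1
      · rwa [hab, e, mul_one]
      have h9 : p ≤ b.minFac := Nat.minFac_le_of_dvd (Nat.minFac_prime e).two_le
        (hab ▸ b.minFac_dvd.mul_left _)
      have := Nat.minFac_le (n := b) (Nat.pos_of_ne_zero fun f => hb (f ▸ dvd_zero _))
      have := hp.two_le
      rcases Nat.eq_zero_or_pos (fv (p ^ a * b) (p ^ a * p)) with f | f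
      · rw [f] at h8; omega
      · nlinarith
    · left
      obtain ⟨a, rfl⟩ : ∃ a', a = a' + 1 := Nat.exists_eq_add_one_of_ne_zero fun f => c (by simp [f])
      obtain ⟨x, y, x1, y1, e⟩ := exists_dvd_and_dvd_of_dvd_mul (hab ▸ Nat.gcd_dvd_right d h)
      obtain ⟨i, hi, rfl⟩ := (Nat.dvd_prime_pow hp).1 x1
      have : h / p = p ^ a * b := Nat.div_eq_of_eq_mul_right hp.pos (by rw [hab]; ring)
      rw [this]
      nth_rw 1 [hab]
      rw [e]
      refine mul_dvd_mul (pow_dvd_pow _ ?_) y1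
      by_contra l
      refine c ((pow_dvd_pow _ (by omega : a + 1 ≤ i)).trans ((Dvd.intro _ e.symm).trans ?_))
      exact Nat.gcd_dvd_left _ _
  have all : ∀ x : G, h * #(A ∩ (x +ᵥ K)) ≤ #K := fun x => by
    have := piece hph (by omega) ih sK hKn (B := A ∩ (x +ᵥ K) + {-x}) (y := -(p • x))
      (add_subset_iff.2 fun a ha b hb => by
        rw [mem_singleton.1 hb, ← sub_eq_add_neg]; exact sK.mem_coset.1 (mem_inter.1 ha).2)
      (by simp [mK]) (fun f => by
        rw [nsmul_add, nsmul_singleton, smul_neg, smul_neg, smul_smul, Nat.div_mul_cancel hph] at f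
        obtain ⟨a, ha, _, f2, f⟩ := mem_add.1 f
        rw [mem_singleton.1 f2, add_eq_right] at f
        exact h0 (nsmul_subset_nsmul_left inter_subset_left (f ▸ ha))) hyp' h2
    rwa [card_add_singleton] at this
  have zero : h * #(A ∩ ((0 : G) +ᵥ K)) < #K := by
    obtain ⟨e, w, e1, e2⟩ := sq ih sK sg0 (by simpa using sK.zero) (B := A ∩ K) inter_subset_right
      (d := #K) (by simp) hKn (by
        simpa [singleton_zero] using fun e => h0 (nsmul_subset_nsmul_left inter_subset_left e))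
    rw [card_singleton, singleton_zero, add_zero, mul_one] at e2
    have := (hyp' e ⟨w, e1⟩).1
    have : 0 < w := Nat.pos_of_mul_pos_left (e1 ▸ sK.pos)
    rw [zero_vadd]
    nlinarith
  have := sum_lt_sum (s := univ) (fun x _ => all x) ⟨0, mem_univ _, zero⟩
  rw [← mul_sum, card_eq_sum_cosets sK, sum_const, card_univ, smul_eq_mul, ← mul_assoc] at this
  exact Nat.lt_of_mul_lt_mul_right this

theorem upper_step (hh : 0 < h) (ih : IH h (Fintype.card G)) {A : Finset G} (h0 : 0 ∉ h • A) :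
    Bd h (Fintype.card G) #A := by
  rcases A.eq_empty_or_nonempty with rfl | hA
  · exact ⟨_, 1, (mul_one _).symm, by simp⟩
  by_cases hap : st (h • A) ⊆ {0}
  swap
  · obtain ⟨x, x1, x2⟩ := not_subset.1 hap
    exact quot ih (sg_st (h • A)) (one_lt_card.2 ⟨x, x1, 0, (sg_st _).zero, by simpa using x2⟩)
      (by rwa [add_st])
  by_cases c : #A ≤ fv h (Fintype.card G)
  · exact ⟨_, 1, (mul_one _).symm, by simpa using c⟩
  obtain ⟨k, hk⟩ := Nat.exists_eq_add_one.2 (card_pos.2 hA)
  obtain ⟨j, rfl⟩ := Nat.exists_eq_add_one.2 hh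
  have k1 := kn0 hA hap
  have k2 : #((j + 1) • A) < Fintype.card G :=
    card_lt_card (ssubset_univ_iff.2 fun e => h0 (e ▸ mem_univ _))
  have k3 := fv_ge hh (Fintype.card G)
  set g := Nat.gcd (Fintype.card G) (j + 1) with hg
  have k4 : (j + 1) * fv (j + 1) (Fintype.card G) ≤ (j + 1) * k := Nat.mul_le_mul_left _ (by omega)
  have k5 : (j + 1) * k + 2 ≤ Fintype.card G := by nlinarith
  have gk : g ∣ (j + 1) * k := (Nat.gcd_dvd_right _ _).mul_right _
  have hn : Fintype.card G = g + (j + 1) * k := by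
    have := Nat.le_of_lt_add_of_dvd (a := (j + 1) * k + g) (b := Fintype.card G) (n := g)
      (by omega) (dvd_add gk dvd_rfl) (Nat.gcd_dvd_left _ _)
    omega
  have gh : g ≤ j + 1 := Nat.gcd_le_right _ hh
  obtain ⟨j, rfl⟩ : ∃ i, j = i + 1 := Nat.exists_eq_add_one.2 (by omega)
  by_cases e : g = j + 2
  · by_contra hc
    have h5 := step3 ih (by omega) (e ▸ Nat.gcd_dvd_left _ _) (fun d ⟨w, hd⟩ => ?_) h0
    · nlinarith
    by_contra l
    refine hc ⟨d, w, hd, Nat.le_of_mul_le_mul_left (c := j + 1 + 1) ?_ hh⟩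
    nlinarith
  have hk0 : k ≠ 0 := by
    rintro rfl
    obtain ⟨a, ha⟩ := hA
    obtain ⟨r, hr⟩ : Fintype.card G ∣ j + 1 + 1 := by
      rw [hn]; simpa using Nat.gcd_dvd_right _ _
    exact h0 (by simpa [hr, mul_nsmul] using nsmul_mem_nsmul (n := j + 1 + 1) ha)
  have sti : ∀ i l, i + l = j + 1 → st ((i + 1) • A) ⊆ {0} := fun i l f => by
    refine Subset.trans ?_ hap
    rw [← f, add_right_comm, add_nsmul _ _ l]
    exact st_mono _ _
  have grow : ∀ i, i ≤ j → #((i + 1) • A) + k ≤ #((i + 1 + 1) • A) := fun i hi => by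
    have := kneser (hA.nsmul (n := i + 1)) hA
    rw [← succ_nsmul, Subset.antisymm (sti (i + 1) (j - i) (by omega))
      (singleton_subset_iff.2 (sg_st _).zero), card_singleton, singleton_zero, add_zero,
      add_zero] at this
    omega
  obtain ⟨i, hi, hcrit⟩ : ∃ i < j, #((i + 1 + 1) • A) ≤ #((i + 1) • A) + k := by
    by_contra hc
    push Not at hc
    have : ∀ i ≤ j, (i + 1) * (k + 1) ≤ #((i + 1) • A) := fun i hi => by
      induction i with
      | zero => simp [hk]
      | succ i ihi =>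
        have := hc i (by omega)
        have := ihi (by omega)
        nlinarith
    have := this j le_rfl
    have := grow j le_rfl
    have : g ≤ j + 1 := by omega
    nlinarith
  have mono : ∀ l, i + 1 + l ≤ j → #((i + 1 + 1) • A) ≤ #((i + 1 + l + 1) • A) := fun l hl => by
    rw [add_right_comm _ l, add_nsmul _ _ l]
    exact card_le_card_add_right hA.nsmul
  have m1 := mono (j - (i + 1)) (by omega)
  rw [show i + 1 + (j - (i + 1)) = j by omega] at m1
  have m2 := grow j le_rfl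
  have m3 : #A ≤ #((i + 1) • A) := by
    rw [succ_nsmul]; exact card_le_card_add_left hA.nsmul
  rcases critical (S := A) (X := (i + 1) • A) (by omega) (by omega) (by rw [← succ_nsmul]; omega)
    (by rw [← succ_nsmul]; omega) with ⟨K, s, c1, c2, c3⟩ | ⟨u, u1, u2⟩
  · exact np ih h0 hap hk hn s c1 c2 c3
  · exact ap_case ih h0 hap hk hn u1 u2

theorem ih_all (hh : 0 < h) (n : ℕ) : IH h n := by
  induction n with
  | zero => intro G _ _ _ e; omega
  | succ n ih =>
    intro G _ _ _ e B hB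
    exact upper_step hh (fun G' _ _ _ e' => ih G' (by omega)) hB

theorem lower (hh : 0 < h) {d n : ℕ} [NeZero n] (hd : d ∣ n) :
    ∃ A : Finset (ZMod n), 0 ∉ h • A ∧ #A = fv h d * (n / d) := by
  have hd0 := Nat.pos_of_dvd_of_pos hd (NeZero.pos n)
  have : NeZero d := ⟨hd0.ne'⟩
  let φ := (ZMod.castHom hd (ZMod d)).toAddMonoidHom
  have hφ : Function.Surjective φ := ZMod.castHom_surjective hd
  let a : ZMod d := (Nat.gcdB d h : ℤ)
  have ha : (h : ZMod d) * a = Nat.gcd d h := by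
    have := congrArg (Int.cast : ℤ → ZMod d) (Nat.gcd_eq_gcd_ab d h)
    simpa using this.symm
  have g1 := Nat.gcd_pos_of_pos_left h hd0
  have g2 := Nat.gcd_le_left h hd0
  have f1 : h * fv h d ≤ d - Nat.gcd d h + h - 1 := Nat.mul_div_le _ _
  let B := (range (fv h d)).image fun i : ℕ => a + i
  refine ⟨univ.filter fun x => φ x ∈ B, fun e => ?_, ?_⟩
  · obtain ⟨f, f2, f3⟩ := mem_nsmul'.1 e
    simp only [B, mem_filter, mem_univ, true_and, mem_image, mem_range] at f2
    choose i i1 i2 using f2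
    have h1 := congrArg φ f3
    rw [map_sum, map_zero, ← sum_congr rfl fun l _ => i2 l, sum_add_distrib, sum_const, card_univ,
      Fintype.card_fin, nsmul_eq_mul, ha, ← Nat.cast_sum, ← Nat.cast_add,
      ZMod.natCast_eq_zero_iff] at h1
    have h2 := sum_le_sum fun l (_ : l ∈ univ) => Nat.succ_le_of_lt (i1 l)
    simp only [Nat.succ_eq_add_one, sum_add_distrib, sum_const, card_univ, Fintype.card_fin,
      smul_eq_mul] at h2
    have := Nat.le_of_dvd (by omega) h1
    omega
  · have h5 := SF02.card_pre φ hφ B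
    rw [ZMod.card, ZMod.card, card_image_of_injOn (s := range _), card_range] at h5
    · obtain ⟨r, rfl⟩ := hd
      rw [Nat.mul_div_cancel_left _ hd0]
      exact Nat.eq_of_mul_eq_mul_left hd0 (by linarith)
    have f2 : fv h d ≤ d := by
      by_contra l
      have : h * (d + 1) ≤ h * fv h d := Nat.mul_le_mul_left _ (by omega)
      have : d ≤ h * d := Nat.le_mul_of_pos_left _ hh
      rw [mul_add] at *
      omega
    intro x hx y hy e
    simp only [coe_range, Set.mem_Iio, add_right_inj] at hx hy e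
    have := congrArg ZMod.val e
    rwa [ZMod.val_cast_of_lt (by omega), ZMod.val_cast_of_lt (by omega)] at this

theorem fv_cast (hh : 0 < h) {d : ℕ} (hd : 0 < d) :
    ((d : ℤ) - 1 - Nat.gcd d h) / h + 1 = fv h d := by
  have g2 := Nat.gcd_le_left h hd
  rw [fv, Int.natCast_div, Nat.cast_sub (by omega), Nat.cast_add, Nat.cast_sub g2,
    ← Int.add_mul_ediv_right _ _ (by omega : (h : ℤ) ≠ 0)]
  congr 1
  push_cast; ring

theorem main (h n : ℕ) (hh : 0 < h) (hn : 0 < n) : ∃ m : ℕ,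
    IsGreatest {k : ℕ | ∃ A : Finset (ZMod n),
      (∀ f : Fin h → ZMod n, (∀ i, f i ∈ A) → ∑ i, f i ≠ 0) ∧ A.card = k} m ∧
    IsGreatest {v : ℤ | ∃ d : ℕ, d ∣ n ∧
      v = (((d : ℤ) - 1 - Nat.gcd d h) / h + 1) * (n / d)} m := by
  have : NeZero n := ⟨hn.ne'⟩
  have zf : ∀ A : Finset (ZMod n), (∀ f : Fin h → ZMod n, (∀ i, f i ∈ A) → ∑ i, f i ≠ 0) ↔
      0 ∉ h • A := fun A => by simp [mem_nsmul']
  obtain ⟨d, hd, hmax⟩ := exists_max_image n.divisors (fun d => fv h d * (n / d)) ⟨n, by simp; omega⟩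
  simp only [Nat.mem_divisors] at hd hmax
  refine ⟨fv h d * (n / d), ⟨?_, ?_⟩, ⟨d, hd.1, ?_⟩, ?_⟩
  · simpa only [zf, Set.mem_setOf_eq] using lower hh hd.1
  · rintro _ ⟨A, hA, rfl⟩
    obtain ⟨e, w, e1, e2⟩ := ih_all hh _ (ZMod n) (Nat.lt_succ_self _) A ((zf A).1 hA)
    rw [ZMod.card] at e1
    have := hmax e ⟨⟨w, e1⟩, hn.ne'⟩
    rw [Nat.div_eq_of_eq_mul_right (Nat.pos_of_mul_pos_right (e1 ▸ hn)) e1] at this
    omega
  · rw [fv_cast hh (Nat.pos_of_dvd_of_pos hd.1 hn)]; simp
  · rintro _ ⟨e, he, rfl⟩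
    rw [fv_cast hh (Nat.pos_of_dvd_of_pos he hn)]
    exact_mod_cast hmax e ⟨he, hn.ne'⟩

end Pool.Agent.H2.ZeroFree
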