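import Mathlib
import Pool.Agent.H2.ZeroFreeMain

namespace Pool.Agent.H2.ZeroFree

open Finset Pointwise Pool.Agent.H2.Kneser

set_option linter.unusedSectionVars false

variable {G : Type} [AddCommGroup G] [Fintype G] [DecidableEq G]

theorem sub_of_half {H X : Finset G} (sH : Sg H) {a : G} (hX : X ⊆ a +ᵥ H) (h : #H < 2 * #X)
    {z : G} (hz : z ∈ H) : ∃ b ∈ X, ∃ b' ∈ X, b - b' = z := by
  by_contra hc
  push Not at hc
  have y2 : Disjoint X (z +ᵥ X) := disjoint_left.2 fun x x1 x2 => by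
    obtain ⟨w, hw, rfl⟩ := mem_vadd_finset.1 x2
    exact hc _ x1 w hw (by simp)
  have y3 := card_le_card (union_subset hX (show z +ᵥ X ⊆ _ from fun x hx => by
    obtain ⟨w, hw, rfl⟩ := mem_vadd_finset.1 hx
    refine sH.mem_coset.2 ?_
    convert sH.add hz (sH.mem_coset.1 (hX hw)) using 1
    simp [add_sub_assoc]))
  rw [card_union_of_disjoint y2, card_vadd_finset, card_vadd_finset] at y3
  omega

theorem near_struct (j : ℕ) {A H : Finset G} (hA : A.Nonempty) (sH : Sg H)
    (h4 : #(A + H) + 1 ≤ #A + #H) : ∃ a₀ ∈ A, ∃ P t, Per H P ∧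
      (j + 2) • A = P ∪ (j + 2) • (A ∩ (a₀ +ᵥ H)) ∧
      (∀ a ∈ A, a ∉ a₀ +ᵥ H → #H < 2 * #(A ∩ (a +ᵥ H))) ∧ #A ≤ #H * t + #(A ∩ (a₀ +ᵥ H)) ∧
      (2 ≤ #H → (j + 2) • a₀ ∈ H → Disjoint P H → (j + 2) * (#H * t) ≤ #P) := by
  obtain ⟨a₀, ha₀, hmin⟩ := exists_min_image A (fun a => #(A ∩ (a +ᵥ H))) hA
  set A₀ := A ∩ (a₀ +ᵥ H) with hA₀
  set A' := A \ (a₀ +ᵥ H) with hA'
  have hAu : A' ∪ A₀ = A := sdiff_union_inter _ _
  have hcos : ∀ a ∈ A, a +ᵥ H ⊆ A + H := fun a ha x hx =>
    mem_add.2 ⟨a, ha, _, sH.mem_coset.1 hx, by simp⟩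
  have holes : ∀ a ∈ A', ∀ b ∈ A, #H < #(A ∩ (a +ᵥ H)) + #(A ∩ (b +ᵥ H)) := fun a ha b hb => by
    obtain ⟨ha, e⟩ := mem_sdiff.1 ha
    have d1 : Disjoint (a +ᵥ H) (a₀ +ᵥ H) := disjoint_left.2 fun y y1 y2 => e (sH.mem_coset.2 (by
      convert sH.sub _ (sH.mem_coset.1 y2) _ (sH.mem_coset.1 y1) using 1; abel))
    have d2 := card_le_card (union_subset (sH.subset_add A)
      (union_subset (hcos a ha) (hcos a₀ ha₀)))
    have d3 := card_union_add_card_inter A ((a +ᵥ H) ∪ (a₀ +ᵥ H))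
    have d4 := card_union_le (A ∩ (a +ᵥ H)) (A ∩ (a₀ +ᵥ H))
    rw [card_union_of_disjoint d1, inter_union_distrib_left, card_vadd_finset,
      card_vadd_finset] at d3
    have := hmin b hb
    simp only [hA₀] at *
    omega
  have full : A' + A + H ⊆ A + A := fun z hz => by
    obtain ⟨_, e, y, hy, rfl⟩ := mem_add.1 hz
    obtain ⟨a, ha, b, hb, rfl⟩ := mem_add.1 e
    have h5 := holes a ha b hb
    by_contra hc
    let Y := (A ∩ (b +ᵥ H)).image (a + b + y - ·)
    have y1 : #Y = #(A ∩ (b +ᵥ H)) := card_image_of_injective _ sub_right_injective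
    have y2 : Disjoint (A ∩ (a +ᵥ H)) Y := disjoint_left.2 fun x x1 x2 => by
      obtain ⟨w, hw, rfl⟩ := mem_image.1 x2
      exact hc (mem_add.2 ⟨_, (mem_inter.1 x1).1, w, (mem_inter.1 hw).1, by simp⟩)
    have y3 := card_le_card (union_subset (u := a +ᵥ H) (inter_subset_right (s₁ := A))
      (show Y ⊆ _ from fun x hx => by
        obtain ⟨w, hw, rfl⟩ := mem_image.1 hx
        refine sH.mem_coset.2 ?_
        convert sH.sub _ hy _ (sH.mem_coset.1 (mem_inter.1 hw).2) using 1; abel))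
    rw [card_union_of_disjoint y2, card_vadd_finset] at y3
    omega
  set P := A' + (j + 1) • A + H with hP
  have pP : Per H P := sH.per_add _
  have PA : P ⊆ (j + 2) • A := by
    rw [hP, succ_nsmul' A j, ← add_assoc, add_right_comm, add_comm j 2, add_nsmul, two_nsmul]
    exact add_subset_add_right full
  have A0A : (j + 2) • A₀ ⊆ (j + 2) • A := nsmul_subset_nsmul_left inter_subset_left
  obtain ⟨t, ht⟩ := (sH.per_add A').card_dvd sH
  refine ⟨a₀, ha₀, P, t, pP, ?_, fun a ha e => ?_, ?_, fun h2 zH PH => ?_⟩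
  · refine Subset.antisymm ?_ (union_subset PA A0A)
    have := nsmul_split A' A₀ (j + 1)
    rw [hAu] at this
    exact this.trans (union_subset_union_left (sH.subset_add _))
  · have := holes a (mem_sdiff.2 ⟨ha, e⟩) a ha
    omega
  · have := card_le_card (sH.subset_add A')
    have := card_union_le A' A₀
    rw [hAu] at this
    change #A ≤ #H * t + #A₀
    omega
  have e1 : (j + 2) • (A' + H ∪ {a₀}) = P ∪ {(j + 2) • a₀} := by
    have s1 : A' + H ∪ {a₀} ⊆ A + H :=
      union_subset (add_subset_add_right sdiff_subset) (by simpa using sH.subset_add A ha₀)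
    have s2 : A ⊆ (A' + H ∪ {a₀}) + H := fun a ha => by
      by_cases e : a ∈ a₀ +ᵥ H
      · exact mem_add.2 ⟨a₀, by simp, _, sH.mem_coset.1 e, by simp⟩
      · exact sH.subset_add _ (mem_union_left _ (sH.subset_add _ (mem_sdiff.2 ⟨ha, e⟩)))
    have hh : H + H = H := Per.add_eq sH fun x hx k hk => sH.add hx hk
    refine Subset.antisymm ((nsmul_split _ _ (j + 1)).trans (union_subset_union ?_ (by simp)))
      (union_subset ?_ (by simpa using nsmul_mem_nsmul (by simp)))
    · refine (add_subset_add_left (nsmul_subset_nsmul_left s1)).trans ?_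
      rw [sH.nsmul_add, add_add_add_comm, hh]
    · refine (add_subset_add_right (add_subset_add_left (nsmul_subset_nsmul_left s2))).trans ?_
      rw [sH.nsmul_add, add_assoc, add_assoc, hh, add_comm _ H, ← add_assoc, succ_nsmul' _ (j + 1)]
      exact add_subset_add_right subset_union_left
  obtain ⟨w, hw, hw'⟩ := exists_mem_ne h2 ((j + 2) • a₀)
  have e2 := kn0 (j := j + 1) (A := A' + H ∪ {a₀}) ⟨a₀, by simp⟩ (by
    rw [e1]
    refine (st_union sH pP PH (by simpa using zH) (mem_singleton_self _) hw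
      (by simpa using hw')).trans fun x hx => ?_
    simpa using mem_st.1 hx _ (mem_singleton_self _))
  have e3 := card_union_le P {(j + 2) • a₀}
  rw [e1, card_union_of_disjoint (disjoint_singleton_right.2 fun e => ?_), ht] at e2
  · rw [card_singleton] at *
    linarith
  obtain ⟨a, ha, b, hb, e⟩ := mem_add.1 e
  exact (mem_sdiff.1 ha).2 (sH.mem_coset.2 (by simpa [← e] using sH.neg hb))

theorem near_of_pair {A U : Finset G} {u : G} (h4 : #(A + {0, u}) ≤ #A + 1) (hA : A.Nonempty)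
    (mU : ∀ x, x ∈ U ↔ x ∈ AddSubgroup.zmultiples u) : #(A + U) + 1 ≤ #A + #U := by
  have sU : Sg U := ⟨(mU _).2 (zero_mem _), fun x hx y hy =>
    (mU _).2 (sub_mem ((mU _).1 hx) ((mU _).1 hy))⟩
  have uU : u ∈ U := (mU _).2 (AddSubgroup.mem_zmultiples u)
  obtain ⟨e, he, uniq⟩ : ∃ e ∈ A, ∀ a ∈ A, a ≠ e → a + u ∈ A := by
    by_cases c : ∃ e ∈ A, e + u ∉ A
    · obtain ⟨e, he, he'⟩ := c
      refine ⟨e, he, fun a ha hne => ?_⟩
      by_contra hc
      have : insert (a + u) (insert (e + u) A) ⊆ A + {0, u} := by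
        refine insert_subset (add_mem_add ha (by simp)) (insert_subset (add_mem_add he (by simp)) ?_)
        exact subset_add_left _ (by simp)
      have := card_le_card this
      rw [card_insert_of_notMem (by simp [hne, hc]), card_insert_of_notMem he'] at this
      omega
    · push Not at c
      obtain ⟨e, he⟩ := hA
      exact ⟨e, he, fun a ha _ => c a ha⟩
  have cl := closed (X := A \ (e +ᵥ U)) (u := u) fun x hx => by
    obtain ⟨x1, x2⟩ := mem_sdiff.1 hx
    refine mem_sdiff.2 ⟨uniq x x1 fun f => x2 (sU.mem_coset.2 (by simpa [f] using sU.zero)),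
      fun f => x2 (sU.mem_coset.2 ?_)⟩
    convert sU.sub _ (sU.mem_coset.1 f) _ uU using 1; abel
  have per : A + U ⊆ A \ (e +ᵥ U) ∪ (e +ᵥ U) := fun z hz => by
    obtain ⟨a, ha, b, hb, rfl⟩ := mem_add.1 hz
    by_cases f : a ∈ e +ᵥ U
    · refine mem_union_right _ (sU.mem_coset.2 ?_)
      convert sU.add (sU.mem_coset.1 f) hb using 1; abel
    · exact mem_union_left _ (cl b ((mU _).1 hb) a (mem_sdiff.2 ⟨ha, f⟩))
  have := (card_le_card per).trans (card_union_le _ _)
  have := card_sdiff_add_card_inter A (e +ᵥ U)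
  have := card_pos.2 ⟨e, mem_inter.2 ⟨he, sU.mem_coset.2 (show e - e ∈ U by simpa using sU.zero)⟩⟩
  rw [card_vadd_finset] at *
  omega

theorem critical_in {M S X : Finset G} (sM : Sg M) (SM : S ⊆ M) (XM : X ⊆ M) (hS : 2 ≤ #S)
    (h1 : 2 ≤ #X) (h2 : #(X + S) + 2 ≤ #M) (h3 : #(X + S) + 1 ≤ #X + #S) :
    (∃ K, Sg K ∧ K ⊆ M ∧ 2 ≤ #K ∧ #K < #M ∧ #(S + K) + 1 ≤ #S + #K) ∨
      ∃ u ∈ M, u ≠ 0 ∧ #(S + {0, u}) ≤ #S + 1 := by
  classical
  let ι := (toSub sM).subtype
  have c : ∀ Y : Finset (toSub sM), #(Y.image ι) = #Y := fun Y =>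
    card_image_of_injective _ Subtype.val_injective
  have im : ∀ Y ⊆ M, ∃ Y' : Finset (toSub sM), Y'.image ι = Y := fun Y hY =>
    ⟨Y.subtype _, by
      ext x
      simp only [mem_image, mem_subtype]
      exact ⟨fun ⟨a, b, e⟩ => e ▸ b, fun hx => ⟨⟨x, hY hx⟩, hx, rfl⟩⟩⟩
  have cM : Fintype.card (toSub sM) = #M :=
    Fintype.card_of_subtype (p := (· ∈ toSub sM)) _ fun _ => Iff.rfl
  obtain ⟨S, rfl⟩ := im S SM
  obtain ⟨X, rfl⟩ := im X XM
  simp only [← image_add, c] at hS h1 h2 h3 ⊢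
  rcases critical hS h1 (cM ▸ h2) h3 with ⟨K, s, k1, k2, k3⟩ | ⟨u, u1, u2⟩
  · refine Or.inl ⟨K.image ι, ⟨mem_image.2 ⟨0, s.zero, rfl⟩, fun x hx y hy => ?_⟩,
      fun x hx => ?_, by rwa [c], by rwa [c, ← cM], by rwa [← image_add, c, c]⟩
    · obtain ⟨a, ha, rfl⟩ := mem_image.1 hx
      obtain ⟨b, hb, rfl⟩ := mem_image.1 hy
      exact mem_image.2 ⟨a - b, s.sub a ha b hb, rfl⟩
    · obtain ⟨a, ha, rfl⟩ := mem_image.1 hx
      exact a.2
  · refine Or.inr ⟨u, u.2, by simpa using u1, ?_⟩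
    rw [← c (S + _), image_add] at u2
    simpa [ι] using u2

theorem small_sumset (h n : ℕ) : ∀ (G : Type) [AddCommGroup G] [Fintype G] [DecidableEq G],
    Fintype.card G < n → ∀ d, d ∣ Fintype.card G → ∀ m x, 0 < m → m ≤ Fintype.card G →
      m ≤ (x + 1) * d → ∃ B : Finset G, #B = m ∧ #(h • B) ≤ (h * x + 1) * d := by
  induction n with
  | zero => intro G _ _ _ e; omega
  | succ n ih =>
    intro G _ _ _ hn d ⟨e, he⟩ m x h0 h1 h2
    classical
    by_cases e1 : e = 1
    · obtain ⟨B, -, hB⟩ := exists_subset_card_eq (s := (univ : Finset G)) h1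
      refine ⟨B, hB, (card_le_univ _).trans ?_⟩
      rw [he, e1]; nlinarith [Nat.zero_le (h * x * d)]
    obtain ⟨q, hq, w, rfl⟩ := Nat.exists_prime_and_dvd e1
    have : Fact q.Prime := ⟨hq⟩
    obtain ⟨y, hy⟩ := exists_prime_addOrderOf_dvd_card (G := G) q ⟨d * w, by rw [he]; ring⟩
    have := SF02.exists_surj (G := G) (j := 0) hq
      (by simpa [← hy] using AddMonoid.addOrder_dvd_exponent y)
    rw [zero_add, pow_one] at this
    obtain ⟨φ, hφ⟩ := this
    have pre : ∀ Y : Finset (ZMod q), #{x | φ x ∈ Y} = #Y * (d * w) := fun Y => by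
      have := SF02.card_pre φ hφ Y
      rw [ZMod.card, he] at this
      exact Nat.eq_of_mul_eq_mul_right hq.pos (by linarith)
    have cK : Fintype.card φ.ker = d * w := by
      rw [← one_mul (d * w), ← card_singleton (0 : ZMod q), ← pre]
      exact Fintype.card_of_subtype _ fun x => by simp
    have hdw : 0 < d * w := cK ▸ Fintype.card_pos
    obtain ⟨c, m', rfl, m1, m2⟩ : ∃ c m', m = c * (d * w) + m' ∧ 0 < m' ∧ m' ≤ d * w :=
      ⟨(m - 1) / (d * w), (m - 1) % (d * w) + 1, by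
        have := Nat.div_add_mod' (m - 1) (d * w); omega, by omega, Nat.mod_lt _ hdw⟩
    have cq : c < q := Nat.lt_of_mul_lt_mul_right (a := d * w) (by nlinarith)
    obtain ⟨x, rfl⟩ : ∃ x', x = c * w + x' := Nat.exists_eq_add_of_le
      (Nat.le_of_lt_succ (Nat.lt_of_mul_lt_mul_right (a := d) (by nlinarith)))
    obtain ⟨B, b1, b2⟩ := ih φ.ker (by have := hq.two_le; nlinarith) d (cK ▸ dvd_mul_right _ _) m' x
      m1 (cK ▸ m2) (by nlinarith)
    obtain ⟨u, hu⟩ := hφ 1
    let I : ℕ → Finset G := fun l => {x | φ x ∈ (range l).image (Nat.cast : ℕ → ZMod q)}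
    have mI : ∀ l x, x ∈ I l ↔ ∃ i < l, (i : ZMod q) = φ x := by simp [I]
    let B' := B.image φ.ker.subtype
    have hB' : ∀ (l : ℕ), ∀ x ∈ l • B', φ x = 0 := fun l x hx => by
      rw [← image_nsmul] at hx
      obtain ⟨y, -, rfl⟩ := mem_image.1 hx
      exact y.2
    refine ⟨I c ∪ (B' + {c • u}), ?_, ?_⟩
    · rw [card_union_of_disjoint, pre, card_image_of_injOn (s := range c), card_range,
        card_add_singleton, card_image_of_injective _ φ.ker.subtype_injective, b1]
      · intro x hx y hy e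
        simp only [coe_range, Set.mem_Iio] at hx hy
        have := congrArg ZMod.val e
        rwa [ZMod.val_cast_of_lt (by omega), ZMod.val_cast_of_lt (by omega)] at this
      refine disjoint_left.2 fun z z1 z2 => ?_
      obtain ⟨i, hi, e⟩ := (mI _ _).1 z1
      obtain ⟨a, ha, _, hb, rfl⟩ := mem_add.1 z2
      rw [mem_singleton.1 hb, map_add, hB' 1 a (by simpa using ha), map_nsmul, hu, zero_add,
        nsmul_one] at e
      have := congrArg ZMod.val e
      rw [ZMod.val_cast_of_lt (by omega), ZMod.val_cast_of_lt (by omega)] at this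
      omega
    have sub : ∀ l : ℕ, l • (I c ∪ (B' + {c • u})) ⊆ I (l * c) ∪ (l • B' + {(l * c) • u}) := by
      intro l
      induction l with
      | zero => simp [singleton_zero]
      | succ l ihl =>
        intro z hz
        rw [succ_nsmul] at hz
        obtain ⟨a, ha, b, hb, rfl⟩ := mem_add.1 hz
        have v : ∀ (l : ℕ) (t : ℕ), ∀ a ∈ l • B' + {t • u}, (t : ZMod q) = φ a := fun l t a ha => by
          obtain ⟨a', ha', _, hb, rfl⟩ := mem_add.1 ha
          rw [mem_singleton.1 hb, map_add, hB' l a' ha', map_nsmul, hu, zero_add, nsmul_one]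
        rcases mem_union.1 (ihl ha) with e | e <;> rcases mem_union.1 hb with f | f
        · obtain ⟨i, hi, e⟩ := (mI _ _).1 e
          obtain ⟨j, hj, f⟩ := (mI _ _).1 f
          exact mem_union_left _ ((mI _ _).2 ⟨i + j, by nlinarith, by simp [e, f]⟩)
        · obtain ⟨i, hi, e⟩ := (mI _ _).1 e
          exact mem_union_left _ ((mI _ _).2 ⟨i + c, by nlinarith,
            by simp [e, v 1 c b (by simpa using f)]⟩)
        · obtain ⟨j, hj, f⟩ := (mI _ _).1 f
          exact mem_union_left _ ((mI _ _).2 ⟨l * c + j, by nlinarith,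
            by rw [Nat.cast_add, v l _ a e, f, map_add]⟩)
        · refine mem_union_right _ ?_
          have := add_mem_add e f
          rwa [add_add_add_comm, ← succ_nsmul, singleton_add_singleton, ← add_nsmul,
            ← add_one_mul] at this
    refine ((card_le_card (sub h)).trans (card_union_le _ _)).trans ?_
    rw [pre, card_add_singleton, ← image_nsmul, card_image_of_injective _ φ.ker.subtype_injective]
    have : #((range (h * c)).image (Nat.cast : ℕ → ZMod q)) ≤ h * c := by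
      simpa using card_image_le (s := range (h * c)) (f := (Nat.cast : ℕ → ZMod q))
    nlinarith

end Pool.Agent.H2.ZeroFree
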