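import Mathlib

set_option autoImplicit false
open Filter Topology Metric Complex ComplexConjugate

namespace Pool.Agent.H2.NsA

lemma id1 (a z : ℂ) : ‖1 - conj a * z‖ ^ 2 - ‖z - a‖ ^ 2 = (1 - ‖a‖ ^ 2) * (1 - ‖z‖ ^ 2) := by
  simp only [← Complex.normSq_eq_norm_sq, Complex.normSq_apply]
  simp
  ring

lemma id2 (a z : ℂ) : ‖z + conj a‖ ^ 2 - ‖z - a‖ ^ 2 = 4 * z.re * a.re := by
  simp only [← Complex.normSq_eq_norm_sq, Complex.normSq_apply]
  simp
  ring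

lemma lt1 {a z : ℂ} (ha : ‖a‖ < 1) (hz : ‖z‖ < 1) : ‖z - a‖ < ‖1 - conj a * z‖ := by
  have h1 := id1 a z
  have h2 : 0 < 1 - ‖a‖ ^ 2 := by nlinarith [norm_nonneg a]
  have h3 : 0 < 1 - ‖z‖ ^ 2 := by nlinarith [norm_nonneg z]
  exact lt_of_pow_lt_pow_left₀ 2 (norm_nonneg _) (by nlinarith [mul_pos h2 h3])

lemma ne1 {a z : ℂ} (ha : ‖a‖ < 1) (hz : ‖z‖ < 1) : 1 - conj a * z ≠ 0 :=
  norm_pos_iff.mp ((norm_nonneg _).trans_lt (lt1 ha hz))

lemma sp0 (f : ℂ → ℂ) (hf : DifferentiableOn ℂ f (ball 0 1)) (hm : ∀ z, ‖z‖ < 1 → ‖f z‖ ≤ 1)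
    {a z : ℂ} (ha : ‖a‖ < 1) (h0 : f a = 0) (hz : ‖z‖ < 1) :
    ‖f z‖ * ‖1 - conj a * z‖ ≤ ‖z - a‖ := by
  have ha' : ‖-a‖ < 1 := by simpa using ha
  let M : ℂ → ℂ := fun w => (w - -a) / (1 - conj (-a) * w)
  have hM : ∀ w, ‖w‖ < 1 → ‖M w‖ < 1 := fun w hw => by
    simp only [M]
    rw [norm_div, div_lt_one (norm_pos_iff.mpr (ne1 ha' hw))]
    exact lt1 ha' hw
  have hMd : DifferentiableOn ℂ M (ball 0 1) := by
    refine DifferentiableOn.div (by fun_prop) (by fun_prop) fun w hw => ne1 ha' (by simpa using hw)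
  have hd : DifferentiableOn ℂ (f ∘ M) (ball 0 1) :=
    hf.comp hMd fun w hw => by simpa using hM w (by simpa using hw)
  have h1 := ne1 ha hz
  have hw : ‖(z - a) / (1 - conj a * z)‖ < 1 := by
    rw [norm_div, div_lt_one (norm_pos_iff.mpr h1)]
    exact lt1 ha hz
  have h2 : M 0 = a := by simp [M]
  have h3 : M ((z - a) / (1 - conj a * z)) = z := by
    have h4 := ne1 ha' hw
    simp only [M]
    rw [div_eq_iff h4, map_neg]
    have h5 := div_mul_cancel₀ (z - a) h1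
    linear_combination h5
  have h5 := Complex.dist_le_dist_of_mapsTo_ball hd (c := 0) (R := 1)
    (fun w hw => by
      simp only [Function.comp, h2, h0, mem_closedBall, dist_zero_right]
      exact hm _ (hM w (by simpa using hw))) (z := (z - a) / (1 - conj a * z)) (by simpa using hw)
  simp only [Function.comp, h2, h0, h3, dist_zero_right, norm_div] at h5
  rwa [le_div_iff₀ (norm_pos_iff.mpr h1)] at h5

lemma spD (ψ : ℂ → ℂ) (hψ : DifferentiableOn ℂ ψ (ball 0 1)) (hm : ∀ z, ‖z‖ < 1 → ‖ψ z‖ < 1)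
    {a z : ℂ} (ha : ‖a‖ < 1) (hz : ‖z‖ < 1) :
    ‖1 - conj (ψ a) * ψ z‖ ^ 2 * ((1 - ‖a‖ ^ 2) * (1 - ‖z‖ ^ 2)) ≤
      (1 - ‖ψ a‖ ^ 2) * (1 - ‖ψ z‖ ^ 2) * ‖1 - conj a * z‖ ^ 2 := by
  have h1 := sp0 (fun w => (ψ w - ψ a) / (1 - conj (ψ a) * ψ w))
    (DifferentiableOn.div (by fun_prop) (by fun_prop) fun w hw =>
      ne1 (hm a ha) (hm w (by simpa using hw)))
    (fun w hw => by
      rw [norm_div, div_le_one (norm_pos_iff.mpr (ne1 (hm a ha) (hm w hw)))]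
      exact (lt1 (hm a ha) (hm w hw)).le) ha (by simp) hz
  rw [norm_div, div_mul_eq_mul_div, div_le_iff₀ (norm_pos_iff.mpr (ne1 (hm a ha) (hm z hz)))] at h1
  have h2 := pow_le_pow_left₀ (by positivity) h1 2
  rw [← id1, ← id1]
  nlinarith

lemma spH (G : ℂ → ℂ) (hG : DifferentiableOn ℂ G (ball 0 1)) (hm : ∀ z, ‖z‖ < 1 → 0 < (G z).re)
    {a z : ℂ} (ha : ‖a‖ < 1) (hz : ‖z‖ < 1) :
    ‖G z + conj (G a)‖ ^ 2 * ((1 - ‖a‖ ^ 2) * (1 - ‖z‖ ^ 2)) ≤
      4 * (G z).re * (G a).re * ‖1 - conj a * z‖ ^ 2 := by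
  have h3 : ∀ w, ‖w‖ < 1 → ‖G w - G a‖ < ‖G w + conj (G a)‖ := fun w hw => by
    have h1 := id2 (G a) (G w)
    exact lt_of_pow_lt_pow_left₀ 2 (norm_nonneg _) (by nlinarith [mul_pos (hm w hw) (hm a ha)])
  have h4 : ∀ w, ‖w‖ < 1 → 0 < ‖G w + conj (G a)‖ := fun w hw => (norm_nonneg _).trans_lt (h3 w hw)
  have h1 := sp0 (fun w => (G w - G a) / (G w + conj (G a)))
    (DifferentiableOn.div (by fun_prop) (by fun_prop) fun w hw =>
      norm_pos_iff.mp (h4 w (by simpa using hw)))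
    (fun w hw => by
      rw [norm_div, div_le_one (h4 w hw)]
      exact (h3 w hw).le) ha (by simp) hz
  rw [norm_div, div_mul_eq_mul_div, div_le_iff₀ (h4 z hz)] at h1
  have h2 := pow_le_pow_left₀ (by positivity) h1 2
  rw [← id1, ← id2]
  nlinarith

lemma julia (ψ : ℂ → ℂ) (hψ : DifferentiableOn ℂ ψ (ball 0 1)) (hm : ∀ z, ‖z‖ < 1 → ‖ψ z‖ < 1)
    (C : ℝ) (h : ∃ᶠ r : ℝ in 𝓝[<] 1, 1 - ‖ψ r‖ < C * (1 - r)) :
    ∃ η : ℂ, ‖η‖ = 1 ∧ ∀ z, ‖z‖ < 1 →
      ‖1 - conj η * ψ z‖ ^ 2 * (1 - ‖z‖ ^ 2) ≤ 2 * C * (1 - ‖ψ z‖ ^ 2) * ‖1 - z‖ ^ 2 := by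
  have hne := frequently_iff_neBot.mp h
  let U := Ultrafilter.of (𝓝[<] (1 : ℝ) ⊓ 𝓟 {r : ℝ | 1 - ‖ψ r‖ < C * (1 - r)})
  have hU : (U : Filter ℝ) ≤ 𝓝[<] (1 : ℝ) := (Ultrafilter.of_le _).trans inf_le_left
  have hU1 : ∀ᶠ r : ℝ in U, 1 - ‖ψ r‖ < C * (1 - r) :=
    le_principal_iff.mp ((Ultrafilter.of_le _).trans inf_le_right)
  have hU2 : ∀ᶠ r : ℝ in U, r ∈ Set.Ioo (0 : ℝ) 1 := hU (Ioo_mem_nhdsLT zero_lt_one)
  have hU3 : Tendsto (fun r : ℝ => r) U (𝓝 1) := hU.trans nhdsWithin_le_nhds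
  have hn : ∀ r ∈ Set.Ioo (0 : ℝ) 1, ‖(r : ℂ)‖ = r := fun r hr => by
    rw [norm_real, Real.norm_of_nonneg hr.1.le]
  obtain ⟨η, hη, hlim⟩ := (isCompact_closedBall (0 : ℂ) 1).ultrafilter_le_nhds
    (U.map fun r : ℝ => ψ r) (le_principal_iff.mpr (by
      show ∀ᶠ r : ℝ in U, ψ r ∈ closedBall (0 : ℂ) 1
      filter_upwards [hU2] with r hr
      simpa using (hm r (by rw [hn r hr]; exact hr.2)).le))
  have hl : Tendsto (fun r : ℝ => ψ r) U (𝓝 η) := hlim
  refine ⟨η, le_antisymm (by simpa using hη) ?_, fun z hz => ?_⟩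
  · have h1 := le_of_tendsto_of_tendsto (hl.norm.const_sub 1) ((hU3.const_sub 1).const_mul C)
      (hU1.mono fun r hr => hr.le)
    simp at h1
    linarith
  · have h1 : Tendsto (fun r : ℝ => ‖1 - conj (ψ r) * ψ z‖ ^ 2 * (1 - ‖z‖ ^ 2)) U
        (𝓝 (‖1 - conj η * ψ z‖ ^ 2 * (1 - ‖z‖ ^ 2))) :=
      ((((((continuous_conj.tendsto η).comp hl).mul_const _).const_sub 1).norm).pow 2).mul_const _
    have h2 : Tendsto (fun r : ℝ => 2 * C * (1 - ‖ψ z‖ ^ 2) * ‖1 - (r : ℂ) * z‖ ^ 2) U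
        (𝓝 (2 * C * (1 - ‖ψ z‖ ^ 2) * ‖1 - ((1 : ℝ) : ℂ) * z‖ ^ 2)) :=
      ((((((continuous_ofReal.tendsto 1).comp hU3).mul_const _).const_sub 1).norm).pow 2).const_mul _
    have h3 := le_of_tendsto_of_tendsto h1 h2 (by
      filter_upwards [hU1, hU2] with r h4 hr
      have h5 := spD ψ hψ hm (a := r) (by rw [hn r hr]; exact hr.2) hz
      rw [hn r hr, conj_ofReal] at h5
      have h6 := hm r (by rw [hn r hr]; exact hr.2)
      have h7 := hm z hz
      have h8 : 0 < 1 - r ^ 2 := by nlinarith [hr.1, hr.2]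
      have hC : 0 < C := by
        by_contra hC
        nlinarith [hr.2]
      have h9 : 1 - ‖ψ r‖ ^ 2 ≤ 2 * C * (1 - r ^ 2) := by
        have : C * (1 - r) ≤ C * (1 - r ^ 2) :=
          mul_le_mul_of_nonneg_left (by nlinarith [hr.1, hr.2]) hC.le
        nlinarith [norm_nonneg (ψ r)]
      have h10 : 0 ≤ (1 - ‖ψ z‖ ^ 2) * ‖1 - (r : ℂ) * z‖ ^ 2 :=
        mul_nonneg (by nlinarith [norm_nonneg (ψ z)]) (by positivity)
      have h11 := mul_le_mul_of_nonneg_right h9 h10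
      refine le_of_mul_le_mul_right ?_ h8
      nlinarith)
    simpa using h3

/-- The Stolz-angle filter at `1`. -/
noncomputable def LL (K : ℝ) : Filter ℂ := 𝓝[{z | ‖z‖ < 1 ∧ ‖1 - z‖ ≤ K * (1 - ‖z‖)}] 1

lemma ne2 {z : ℂ} (hz : ‖z‖ < 1) : 1 - z ≠ 0 := by
  intro h
  have : z = 1 := by linear_combination -h
  rw [this] at hz; simp at hz

lemma reP {z : ℂ} (hz : ‖z‖ < 1) :
    ((1 - z)⁻¹ - 1 / 2).re = (1 - ‖z‖ ^ 2) / (2 * ‖1 - z‖ ^ 2) := by
  have h2 : 0 < normSq (1 - z) := normSq_pos.mpr (ne2 hz)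
  have h3 : normSq (1 - z) = 1 - 2 * z.re + normSq z := by
    simp only [normSq_apply]; simp; ring
  have h4 : ((1 : ℂ) / 2).re = 1 / 2 := by simp
  rw [← normSq_eq_norm_sq, ← normSq_eq_norm_sq, sub_re, inv_re, h4, sub_re, one_re]
  field_simp
  rw [h3]
  ring

lemma jc (χ : ℂ → ℂ) (hχ : DifferentiableOn ℂ χ (ball 0 1)) (hm : ∀ z, ‖z‖ < 1 → ‖χ z‖ < 1)
    (C : ℝ) (h : ∀ z, ‖z‖ < 1 →
      ‖1 - χ z‖ ^ 2 * (1 - ‖z‖ ^ 2) ≤ C * (1 - ‖χ z‖ ^ 2) * ‖1 - z‖ ^ 2) :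
    ∃ d : ℝ, 0 < d ∧ ∀ K, Tendsto (fun z => (1 - χ z) / (1 - z)) (LL K) (𝓝 (d : ℂ)) := by
  let g : ℂ → ℂ := fun z => (1 - χ z)⁻¹ - 1 / 2
  let P : ℂ → ℂ := fun z => (1 - z)⁻¹ - 1 / 2
  have hq : ∀ z : ℂ, ‖z‖ < 1 → 0 < 1 - ‖z‖ ^ 2 := fun z hz => by nlinarith [norm_nonneg z]
  have hP : ∀ z, ‖z‖ < 1 → 0 < (P z).re := fun z hz => by
    simp only [P]
    rw [reP hz]
    exact div_pos (hq z hz) (by have := norm_pos_iff.mpr (ne2 hz); positivity)
  have hC : 0 < C := by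
    have h1 := h 0 (by simp)
    have h2 := norm_pos_iff.mpr (ne2 (hm 0 (by simp)))
    have h3 := hq _ (hm 0 (by simp))
    simp only [norm_zero, sub_zero, norm_one] at h1
    by_contra hC
    nlinarith [pow_pos h2 2]
  let S : Set ℝ := {y | ∃ z, ‖z‖ < 1 ∧ y = (g z).re / (P z).re}
  have hS : ∀ y ∈ S, C⁻¹ ≤ y := by
    rintro _ ⟨z, hz, rfl⟩
    simp only [g, P]
    have h1 := norm_pos_iff.mpr (ne2 hz)
    have h2 := norm_pos_iff.mpr (ne2 (hm z hz))
    have h3 := hq z hz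
    rw [reP hz, reP (hm z hz), div_div_div_eq, inv_eq_one_div,
      div_le_div_iff₀ hC (by positivity)]
    nlinarith [h z hz]
  have hSn : S.Nonempty := ⟨_, 0, by simp, rfl⟩
  set c := sInf S with hc
  have hc0 : 0 < c := (inv_pos.mpr hC).trans_le (le_csInf hSn hS)
  have hc1 : ∀ z, ‖z‖ < 1 → c * (P z).re ≤ (g z).re := fun z hz => by
    rw [← le_div_iff₀ (hP z hz)]
    exact csInf_le ⟨_, hS⟩ ⟨z, hz, rfl⟩
  refine ⟨c⁻¹, inv_pos.mpr hc0, fun K => ?_⟩
  have key : Tendsto (fun z => (1 - z) / (1 - χ z)) (LL K) (𝓝 (c : ℂ)) := by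
    rw [LL, Metric.tendsto_nhdsWithin_nhds]
    intro ε' hε'
    obtain ⟨ε, hε, hε1⟩ : ∃ ε : ℝ, 0 < ε ∧ (16 * |K| + 2) * ε < ε' := by
      refine ⟨ε' / (16 * |K| + 3), by positivity, ?_⟩
      rw [mul_div_assoc', div_lt_iff₀ (by positivity)]
      nlinarith
    obtain ⟨_, ⟨a, ha, rfl⟩, ha1⟩ := exists_lt_of_csInf_lt hSn (show sInf S < c + ε by linarith)
    rw [div_lt_iff₀ (hP a ha)] at ha1
    let G : ℂ → ℂ := fun z => g z - ((c - ε : ℝ) : ℂ) * P z
    have hG : ∀ z, (G z).re = (g z).re - (c - ε) * (P z).re := fun z => by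
      simp only [G, sub_re, re_ofReal_mul]
    have hGd : DifferentiableOn ℂ G (ball 0 1) := by
      refine DifferentiableOn.sub (DifferentiableOn.sub (DifferentiableOn.inv (by fun_prop) ?_)
        (by fun_prop)) (DifferentiableOn.const_mul (DifferentiableOn.sub
          (DifferentiableOn.inv (by fun_prop) ?_) (by fun_prop)) _)
      · exact fun z hz => ne2 (hm z (by simpa using hz))
      · exact fun z hz => ne2 (by simpa using hz)
    have hG0 : ∀ z, ‖z‖ < 1 → 0 < (G z).re := fun z hz => by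
      rw [hG]; nlinarith [hc1 z hz, mul_pos hε (hP z hz)]
    have ha2 := norm_pos_iff.mpr (ne2 ha)
    set B := 2 * ‖G a‖ + |1 - c + ε| + 1 with hB
    have hB0 : 0 < B := by positivity
    refine ⟨min ‖1 - a‖ (ε / B), lt_min ha2 (by positivity), fun z hz hzd => ?_⟩
    obtain ⟨hz, hz1⟩ := hz
    rw [dist_eq_norm, norm_sub_rev, lt_min_iff] at hzd
    obtain ⟨hz2, hz3⟩ := hzd
    rw [lt_div_iff₀ hB0] at hz3
    have h1 := spH G hGd hG0 ha hz
    have h2 : ‖1 - conj a * z‖ ≤ 2 * ‖1 - a‖ := by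
      have : 1 - conj a * z = conj (1 - a) + conj a * (1 - z) := by simp; ring
      rw [this]
      refine (norm_add_le _ _).trans ?_
      rw [norm_conj, norm_mul, norm_conj]
      nlinarith [norm_nonneg (1 - z), norm_nonneg a]
    have h3 : (G a).re * ‖1 - a‖ ^ 2 ≤ ε * (1 - ‖a‖ ^ 2) := by
      have h4 : (G a).re ≤ 2 * ε * (P a).re := by rw [hG]; nlinarith
      have h5 : (P a).re * ‖1 - a‖ ^ 2 = (1 - ‖a‖ ^ 2) / 2 := by
        simp only [P]; rw [reP ha]; field_simp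
      nlinarith [mul_le_mul_of_nonneg_right h4 (sq_nonneg ‖1 - a‖)]
    have h4 : ‖G z + conj (G a)‖ ^ 2 * (1 - ‖z‖ ^ 2) ≤ 16 * ε * ‖G z‖ := by
      have h5 : ‖1 - conj a * z‖ ^ 2 ≤ 4 * ‖1 - a‖ ^ 2 := by
        nlinarith [norm_nonneg (1 - conj a * z)]
      have h6 : (G z).re ≤ ‖G z‖ := re_le_norm _
      have h7 : (G a).re * ‖1 - conj a * z‖ ^ 2 ≤ 4 * ε * (1 - ‖a‖ ^ 2) := by
        nlinarith [mul_le_mul_of_nonneg_left h5 (hG0 a ha).le]
      have h8 : (G z).re * ((G a).re * ‖1 - conj a * z‖ ^ 2) ≤ ‖G z‖ * (4 * ε * (1 - ‖a‖ ^ 2)) :=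
        mul_le_mul h6 h7 (mul_nonneg (hG0 a ha).le (by positivity)) (norm_nonneg _)
      refine le_of_mul_le_mul_right ?_ (hq a ha)
      nlinarith
    have h5 : ‖G z‖ * ‖1 - z‖ ≤ 16 * ε * |K| + 2 * (‖G a‖ * ‖1 - z‖) := by
      have hl := norm_nonneg (1 - z)
      have h6 : ‖1 - z‖ ≤ |K| * (1 - ‖z‖ ^ 2) := by
        refine hz1.trans (mul_le_mul (le_abs_self K) ?_ (by linarith) (abs_nonneg K))
        nlinarith [norm_nonneg z]
      have h7 : ‖G z‖ - ‖G a‖ ≤ ‖G z + conj (G a)‖ := by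
        have := norm_sub_le (G z + conj (G a)) (conj (G a))
        rw [add_sub_cancel_right, norm_conj] at this
        linarith
      have h8 : ‖G z + conj (G a)‖ ^ 2 * ‖1 - z‖ ≤ 16 * ε * |K| * ‖G z‖ := by
        have := mul_le_mul_of_nonneg_left h6 (sq_nonneg ‖G z + conj (G a)‖)
        nlinarith [mul_le_mul_of_nonneg_left h4 (abs_nonneg K)]
      by_contra hcon
      push Not at hcon
      have h9 : 0 ≤ ‖G a‖ * ‖1 - z‖ := by positivity
      have h10 : 0 ≤ 16 * ε * |K| := by positivity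
      have h11 : ‖G a‖ ≤ ‖G z‖ := by
        by_contra h12
        push Not at h12
        nlinarith [mul_le_mul_of_nonneg_right h12.le hl]
      have h12 : (‖G z‖ - ‖G a‖) ^ 2 ≤ ‖G z + conj (G a)‖ ^ 2 :=
        pow_le_pow_left₀ (by linarith) h7 2
      have h13 := mul_le_mul_of_nonneg_right h12 hl
      have h14 : 0 < ‖G z‖ := by
        by_contra h14
        have : ‖G z‖ = 0 := le_antisymm (not_lt.mp h14) (norm_nonneg _)
        rw [this] at hcon
        linarith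
      have h15 := mul_lt_mul_of_pos_right hcon h14
      nlinarith [mul_nonneg (sq_nonneg ‖G a‖) hl]
    have h6 : (1 - z) / (1 - χ z) - c =
        G z * (1 - z) - ε + (1 - z) * (((1 - c + ε : ℝ) : ℂ) / 2) := by
      have := ne2 hz
      have := ne2 (hm z hz)
      simp only [G, g, P]
      push_cast
      field_simp
      ring
    rw [dist_eq_norm, h6]
    refine ((norm_add_le _ _).trans (add_le_add (norm_sub_le _ _) le_rfl)).trans_lt ?_
    rw [norm_mul, norm_mul, norm_div, norm_real, norm_real, Real.norm_of_nonneg hε.le,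
      Real.norm_eq_abs]
    simp only [Complex.norm_ofNat]
    have h7 : 0 ≤ ‖1 - z‖ * |1 - c + ε| := by positivity
    have h8 := norm_nonneg (1 - z)
    nlinarith
  have h2 := key.inv₀ (by exact_mod_cast hc0.ne')
  simpa using h2

lemma der (χ : ℂ → ℂ) (hχ : DifferentiableOn ℂ χ (ball 0 1))
    (h : ∀ K, Tendsto (fun z => (1 - χ z) / (1 - z)) (LL K) (𝓝 1)) (K : ℝ) (hK : 0 < K)
    (ε : ℝ) (hε : 0 < ε) : ∃ δ > 0, ∀ z : ℂ, ‖z‖ < 1 → 1 - δ < ‖z‖ → ‖1 - z‖ < K * (1 - ‖z‖) →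
      ‖z * deriv χ z - χ z‖ ≤ ε := by
  obtain ⟨δ, hδ, h1⟩ := Metric.tendsto_nhdsWithin_nhds.mp (h (2 * K + 1)) (ε / (2 * K + 3))
    (by positivity)
  have h2 : ∀ w : ℂ, ‖w‖ < 1 → ‖1 - w‖ ≤ (2 * K + 1) * (1 - ‖w‖) → ‖1 - w‖ < δ →
      ‖w - χ w‖ ≤ ε / (2 * K + 3) * ‖1 - w‖ := by
    intro w hw h3 h4
    have h5 := h1 ⟨hw, h3⟩ (by rwa [dist_eq_norm, norm_sub_rev])
    have h6 := ne2 hw
    have h7 : w - χ w = ((1 - χ w) / (1 - w) - 1) * (1 - w) := by field_simp; ring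
    rw [h7, norm_mul]
    rw [dist_eq_norm] at h5
    exact mul_le_mul_of_nonneg_right h5.le (norm_nonneg _)
  refine ⟨δ / (K + 1), by positivity, fun z hz hz1 hz2 => ?_⟩
  have h3 : (K + 1) * (1 - ‖z‖) < δ := by
    rw [mul_comm, ← lt_div_iff₀ (by positivity)]; linarith
  have hsub : closedBall z ((1 - ‖z‖) / 2) ⊆ ball 0 1 := fun w hw => by
    rw [mem_closedBall, dist_eq_norm] at hw
    have := norm_add_le (w - z) z
    rw [sub_add_cancel] at this
    simp only [mem_ball, dist_zero_right]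
    linarith
  have hd : DiffContOnCl ℂ (fun w => w - χ w) (ball z ((1 - ‖z‖) / 2)) := by
    refine DifferentiableOn.diffContOnCl ?_
    refine DifferentiableOn.mono (differentiableOn_id.sub hχ) ?_
    exact closure_ball_subset_closedBall.trans hsub
  have h4 := Complex.norm_deriv_le_of_forall_mem_sphere_norm_le (by linarith) hd
    (C := ε / (2 * K + 3) * ((K + 1 / 2) * (1 - ‖z‖))) (fun w hw => by
      rw [mem_sphere, dist_eq_norm] at hw
      have e1 := norm_add_le (w - z) z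
      rw [sub_add_cancel] at e1
      have e2 := norm_sub_le (1 - z) (w - z)
      rw [show 1 - z - (w - z) = 1 - w by ring] at e2
      refine (h2 w (by linarith) (by nlinarith) (by nlinarith)).trans ?_
      exact mul_le_mul_of_nonneg_left (by nlinarith) (by positivity))
  have h5 : deriv (fun w => w - χ w) z = 1 - deriv χ z := by
    have := (hχ.differentiableAt (isOpen_ball.mem_nhds (by simpa using hz : z ∈ ball (0 : ℂ) 1))).hasDerivAt
    exact ((hasDerivAt_id' z).sub this).deriv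
  have h6 : ε / (2 * K + 3) * ((K + 1 / 2) * (1 - ‖z‖)) / ((1 - ‖z‖) / 2) =
      ε / (2 * K + 3) * (2 * K + 1) := by
    have : 1 - ‖z‖ ≠ 0 := by linarith
    field_simp
  rw [h5, h6] at h4
  have h7 := h2 z hz (by nlinarith) (by nlinarith)
  have h8 : z * deriv χ z - χ z = (z - χ z) - z * (1 - deriv χ z) := by ring
  have h9 : ‖1 - z‖ ≤ 2 := (norm_sub_le _ _).trans (by simp; linarith)
  rw [h8]
  refine (norm_sub_le _ _).trans ?_
  rw [norm_mul]
  have h10 : ε / (2 * K + 3) * (2 * K + 3) = ε := by field_simp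
  have h11 : 0 < ε / (2 * K + 3) := by positivity
  nlinarith [norm_nonneg (1 - deriv χ z), mul_le_mul_of_nonneg_left h9 h11.le,
    mul_le_mul_of_nonneg_right hz.le (norm_nonneg (1 - deriv χ z))]

/-- The radii used for the coefficient integrals. -/
noncomputable def rr (s : ℝ) (n : ℕ) : ℝ := (1 + s / (n + 1))⁻¹

lemma rr_pos {s : ℝ} (hs : 0 < s) (n : ℕ) : 0 < rr s n := by unfold rr; positivity

lemma rr_lt {s : ℝ} (hs : 0 < s) (n : ℕ) : rr s n < 1 :=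
  inv_lt_one_of_one_lt₀ (by have : 0 < s / (n + 1) := by positivity
                            linarith)

lemma rr_norm {s : ℝ} (hs : 0 < s) (n : ℕ) : ‖(rr s n : ℂ)‖ = rr s n := by
  rw [norm_real, Real.norm_of_nonneg (rr_pos hs n).le]

lemma l0 (s : ℝ) : Tendsto (fun n : ℕ => s / (n + 1)) atTop (𝓝 0) := by
  simpa [div_eq_mul_inv] using tendsto_one_div_add_atTop_nhds_zero_nat.const_mul s

lemma l1 (s : ℝ) : Tendsto (fun n : ℕ => (n : ℝ) * (s / (n + 1))) atTop (𝓝 s) := by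
  have := (l0 s).const_sub s
  rw [sub_zero] at this
  refine this.congr fun n => ?_
  field_simp
  ring

lemma l2 (s : ℝ) : Tendsto (rr s) atTop (𝓝 1) := by
  have := ((l0 s).const_add 1).inv₀ (by norm_num)
  rw [add_zero, inv_one] at this
  exact this

lemma l3 {s : ℝ} (hs : 0 < s) : Tendsto (fun n : ℕ => (n : ℝ) * (1 - rr s n)) atTop (𝓝 s) := by
  have := (l1 s).mul (l2 s)
  rw [mul_one] at this
  refine this.congr fun n => ?_
  unfold rr
  field_simp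
  ring

lemma l4 (s : ℝ) (k : ℕ) :
    Tendsto (fun n : ℕ => ((rr s n)⁻¹) ^ (n + k)) atTop (𝓝 (Real.exp s)) := by
  have h1 := (Real.tendsto_one_add_pow_exp_of_tendsto (l1 s)).mul (((l0 s).const_add 1).pow k)
  simpa [rr, pow_add] using h1

lemma l5 {s : ℝ} (hs : 0 < s) : Tendsto (fun n => (rr s n : ℂ)) atTop (LL 1) := by
  refine tendsto_nhdsWithin_iff.mpr ⟨?_, Eventually.of_forall fun n => ⟨?_, ?_⟩⟩
  · exact (continuous_ofReal.tendsto 1).comp (l2 s)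
  · rw [rr_norm hs]; exact rr_lt hs n
  · rw [rr_norm hs, ← ofReal_one, ← ofReal_sub, norm_real,
      Real.norm_of_nonneg (by linarith [rr_lt hs n])]
    simp

lemma lemA (ψ : ℂ → ℂ) (hψ : DifferentiableOn ℂ ψ (ball 0 1)) (hm : ∀ z, ‖z‖ < 1 → ‖ψ z‖ < 1) :
    ∃ (η : ℂ) (x : ℝ), ‖η‖ = 1 ∧ 0 ≤ x ∧ x < 2 ∧
      (x = 1 → ∀ ε > 0, ∃ δ > 0, ∀ z : ℂ, ‖z‖ < 1 → 1 - δ < ‖z‖ → ‖1 - z‖ < 32 * (1 - ‖z‖) →
        ‖z * deriv ψ z - ψ z‖ ≤ ε) ∧
      ∀ i j k : ℕ, 0 < i → Tendsto (fun n => ((rr (i / 2) n : ℂ)⁻¹) ^ (n + k) *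
        (conj η * ψ (rr (i / 2) n)) ^ (n + j)) atTop (𝓝 ((x : ℂ) ^ i)) := by
  have l6 : ∀ (s : ℝ) (k : ℕ),
      Tendsto (fun n : ℕ => ((rr s n : ℂ)⁻¹) ^ (n + k)) atTop (𝓝 (cexp s)) := fun s k => by
    have := (continuous_ofReal.tendsto _).comp (l4 s k)
    simpa [Function.comp_def] using this
  by_cases h : ∃ C : ℝ, ∃ᶠ r : ℝ in 𝓝[<] 1, 1 - ‖ψ r‖ < C * (1 - r)
  · obtain ⟨C, h⟩ := h
    obtain ⟨η, h1, h2⟩ := julia ψ hψ hm C h
    have h3 : ∀ z, ‖conj η * ψ z‖ = ‖ψ z‖ := fun z => by rw [norm_mul, norm_conj, h1, one_mul]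
    obtain ⟨d, hd, h4⟩ := jc (fun z => conj η * ψ z) (hψ.const_mul _)
      (fun z hz => by rw [h3]; exact hm z hz) (2 * C) (fun z hz => by rw [h3]; exact h2 z hz)
    refine ⟨η, Real.exp ((1 - d) / 2), h1, (Real.exp_pos _).le, ?_, fun hx ε hε => ?_,
      fun i j k hi => ?_⟩
    · have h5 : Real.exp ((1 - d) / 2) ≤ Real.exp (1 / 2) := Real.exp_le_exp.mpr (by linarith)
      have h6 : Real.exp (1 / 2) * Real.exp (1 / 2) = Real.exp 1 := by
        rw [← Real.exp_add]; norm_num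
      nlinarith [Real.exp_one_lt_d9, Real.exp_pos (1 / 2)]
    · have hd1 : d = 1 := by
        rw [Real.exp_eq_one_iff] at hx; linarith
      obtain ⟨δ, hδ, h5⟩ := der _ (hψ.const_mul (conj η)) (by simpa [hd1] using h4) 32
        (by norm_num) ε hε
      refine ⟨δ, hδ, fun z hz hz1 hz2 => ?_⟩
      have h6 := h5 z hz hz1 hz2
      rw [deriv_const_mul_field', show z * (conj η * deriv ψ z) - conj η * ψ z =
        conj η * (z * deriv ψ z - ψ z) by ring, norm_mul, norm_conj, h1, one_mul] at h6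
      exact h6
    · have hs : (0 : ℝ) < i / 2 := by positivity
      have h5 := (h4 1).comp (l5 hs)
      have h6 := ((continuous_ofReal.tendsto _).comp (l3 hs)).mul h5
      have h7 : Tendsto (fun n : ℕ => (n : ℂ) * (conj η * ψ (rr (i / 2) n) - 1)) atTop
          (𝓝 (-(((i / 2 : ℝ) : ℂ) * d))) := by
        refine h6.neg.congr fun n => ?_
        have := ne2 (z := rr (i / 2) n) (by rw [rr_norm hs]; exact rr_lt hs n)
        simp only [Function.comp]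
        push_cast
        field_simp
        ring
      have h8 : Tendsto (fun n : ℕ => conj η * ψ (rr (i / 2) n)) atTop (𝓝 1) := by
        have := (h5.mul (((continuous_ofReal.tendsto _).comp (l2 (i / 2))).const_sub 1)).const_sub 1
        simp only [ofReal_one, sub_self, mul_zero, sub_zero] at this
        refine this.congr fun n => ?_
        have := ne2 (z := rr (i / 2) n) (by rw [rr_norm hs]; exact rr_lt hs n)
        simp only [Function.comp]
        field_simp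
        ring
      have h9 := (l6 (i / 2) k).mul ((Complex.tendsto_one_add_pow_exp_of_tendsto h7).mul (h8.pow j))
      have h10 : ((Real.exp ((1 - d) / 2) : ℝ) : ℂ) ^ i =
          cexp ((i / 2 : ℝ) : ℂ) * (cexp (-(((i / 2 : ℝ) : ℂ) * d)) * 1 ^ j) := by
        rw [one_pow, mul_one, ← Complex.exp_add, ofReal_exp, ← Complex.exp_nat_mul]
        congr 1
        push_cast
        ring
      rw [h10]
      refine h9.congr fun n => ?_
      rw [add_sub_cancel, pow_add _ n j]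
  · push Not at h
    refine ⟨1, 0, by simp, le_rfl, by norm_num, by norm_num, fun i j k hi => ?_⟩
    have hs : (0 : ℝ) < i / 2 := by positivity
    have h1 : Tendsto (fun n : ℕ => (ψ (rr (i / 2) n)) ^ (n + j)) atTop (𝓝 0) := by
      rw [tendsto_zero_iff_norm_tendsto_zero, Metric.tendsto_nhds]
      intro ε hε
      obtain ⟨C, hC⟩ := ((Real.tendsto_exp_neg_atTop_nhds_zero.comp
        (tendsto_id.atTop_mul_const hs)).eventually_lt_const hε).exists
      have h2 : Tendsto (rr (i / 2)) atTop (𝓝[<] 1) :=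
        tendsto_nhdsWithin_iff.mpr ⟨l2 _, Eventually.of_forall fun n => rr_lt hs n⟩
      have h3 : Tendsto (fun n : ℕ => (n : ℝ) * (-(C * (1 - rr (i / 2) n)))) atTop
          (𝓝 (-(C * (i / 2)))) := ((l3 hs).const_mul C).neg.congr fun n => by ring
      have h4 := (Real.tendsto_one_add_pow_exp_of_tendsto h3).eventually_lt_const hC
      filter_upwards [h4, h2.eventually (h C)] with n h5 h6
      have h7 := hm (rr (i / 2) n) (by rw [rr_norm hs]; exact rr_lt hs n)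
      rw [dist_zero_right, norm_norm, norm_pow]
      refine lt_of_le_of_lt ?_ h5
      refine (pow_le_pow_of_le_one (norm_nonneg _) h7.le (Nat.le_add_right n j)).trans ?_
      exact pow_le_pow_left₀ (norm_nonneg _) (by linarith) n
    have := (l6 (i / 2) k).mul h1
    simpa [hi.ne'] using this

end Pool.Agent.H2.NsA
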