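import Mathlib

set_option autoImplicit false
open Filter Topology Metric Complex MeasureTheory Real

namespace Pool.Agent.H2.NsB

lemma pk (w z : ℂ) : poissonKernel 0 w z = (‖z‖ ^ 2 - ‖w‖ ^ 2) / ‖z - w‖ ^ 2 := by
  simp [poissonKernel_def]

lemma pk_cont {w : ℂ} (hw : ‖w‖ < 1) : ContinuousOn (poissonKernel 0 w) (sphere 0 |1|) := by
  rw [poissonKernel_eq_re_herglotzRieszKernel]
  exact continuous_re.comp_continuousOn
    (continuousOn_herglotzRieszKernel_sphere (by simpa using hw))

lemma pk_int {w : ℂ} (hw : ‖w‖ < 1) : CircleIntegrable (poissonKernel 0 w) 0 1 :=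
  ContinuousOn.circleIntegrable zero_le_one (by simpa using pk_cont hw)

lemma pk_avg {w : ℂ} (hw : ‖w‖ < 1) : circleAverage (poissonKernel 0 w) 0 1 = 1 := by
  have h1 := DiffContOnCl.circleAverage_poissonKernel_smul (f := fun _ : ℂ => (1 : ℂ)) (c := 0)
    (R := 1) (w := w) diffContOnCl_const (by simpa using hw)
  have h2 := Complex.ofRealCLM.circleAverage_comp_comm (pk_int hw)
  have h3 : (poissonKernel 0 w • fun _ : ℂ => (1 : ℂ)) = Complex.ofRealCLM ∘ poissonKernel 0 w := by
    funext z; simp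
  rw [h3, h2] at h1
  simpa using h1

lemma ind_int (G : Set ℂ) (hG : MeasurableSet G) :
    CircleIntegrable (G.indicator fun _ => (1 : ℝ)) 0 1 := by
  refine (intervalIntegrable_const (c := (1 : ℝ))).mono_fun' ?_ ?_
  · exact ((measurable_const.indicator hG).comp
      (continuous_circleMap 0 1).measurable).aestronglyMeasurable
  · refine Eventually.of_forall fun t => ?_
    by_cases h : circleMap 0 1 t ∈ G <;> simp [h]

/-- Harmonic measure. -/
noncomputable def om (G : Set ℂ) (w : ℂ) : ℝ :=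
  circleAverage (poissonKernel 0 w • G.indicator fun _ => (1 : ℝ)) 0 1

lemma om_int (G : Set ℂ) (hG : MeasurableSet G) {w : ℂ} (hw : ‖w‖ < 1) :
    CircleIntegrable (poissonKernel 0 w • G.indicator fun _ => (1 : ℝ)) 0 1 :=
  (ind_int G hG).continuousOn_smul (pk_cont hw)

lemma om_add (G : Set ℂ) (hG : MeasurableSet G) {w : ℂ} (hw : ‖w‖ < 1) :
    om G w + om Gᶜ w = 1 := by
  rw [om, om, ← circleAverage_add (om_int G hG hw) (om_int _ hG.compl hw), ← smul_add]
  refine Eq.trans ?_ (pk_avg hw)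
  congr 1
  funext z
  by_cases h : z ∈ G <;> simp [h]

lemma om_nonneg (G : Set ℂ) {w : ℂ} (hw : ‖w‖ < 1) : 0 ≤ om G w := by
  refine circleAverage_nonneg_of_nonneg fun z hz => ?_
  have h1 : ‖z‖ = 1 := by simpa using hz
  have h2 : 0 ≤ poissonKernel 0 w z := by
    rw [pk, h1]
    exact div_nonneg (by nlinarith [norm_nonneg w]) (by positivity)
  by_cases h : z ∈ G <;> simp [h, h2]

lemma om_far (G : Set ℂ) (hG : MeasurableSet G) {w : ℂ} (hw : ‖w‖ < 1) (hw1 : 31 / 32 ≤ ‖w‖) :
    om G w ≤ 1 / 4 + 2 / (1 - ‖w‖) *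
      circleAverage ((G ∩ ball w (32 * (1 - ‖w‖))).indicator fun _ => (1 : ℝ)) 0 1 := by
  set l := 1 - ‖w‖ with hl
  have hl0 : 0 < l := by linarith
  set w' : ℂ := ((1 - 32 * l : ℝ) : ℂ) * w with hw'
  have h1 : ‖w'‖ ≤ 1 - 32 * l := by
    rw [hw', norm_mul, norm_real, Real.norm_of_nonneg (by linarith)]
    nlinarith
  have h2 : ‖w'‖ < 1 := by linarith
  have h3 : ‖w - w'‖ ≤ 32 * l := by
    have : w - w' = ((32 * l : ℝ) : ℂ) * w := by rw [hw']; push_cast; ring
    rw [this, norm_mul, norm_real, Real.norm_of_nonneg (by linarith)]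
    nlinarith
  have i1 : CircleIntegrable ((1 / 4 : ℝ) • poissonKernel 0 w') 0 1 := (pk_int h2).const_smul
  have i2 : CircleIntegrable ((2 / l) • (G ∩ ball w (32 * l)).indicator fun _ => (1 : ℝ)) 0 1 :=
    (ind_int _ (hG.inter measurableSet_ball)).const_smul
  have h4 := circleAverage_mono (om_int G hG hw) (i1.add i2) (fun z hz => by
    have h5 : ‖z‖ = 1 := by simpa using hz
    have h6 : l ≤ ‖z - w‖ := by linarith [norm_sub_norm_le z w]
    have h7 : 32 * l ≤ ‖z - w'‖ := by linarith [norm_sub_norm_le z w']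
    have h8 : 32 * l ≤ 1 - ‖w'‖ ^ 2 := by nlinarith [norm_nonneg w']
    have h9 : 1 - ‖w‖ ^ 2 ≤ 2 * l := by nlinarith
    have h10 : 0 ≤ poissonKernel 0 w' z := by
      rw [pk, h5]
      exact div_nonneg (by linarith) (by positivity)
    by_cases h : z ∈ G
    · by_cases h' : z ∈ ball w (32 * l)
      · have h11 : poissonKernel 0 w z ≤ 2 / l := by
          rw [pk, h5, div_le_div_iff₀ (pow_pos (by linarith) 2) hl0]
          nlinarith
        simp only [Pi.smul_apply', Pi.add_apply, Pi.smul_apply, smul_eq_mul,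
          Set.indicator_of_mem h, Set.indicator_of_mem (Set.mem_inter h h')]
        linarith
      · have h11 : poissonKernel 0 w z ≤ 1 / 4 * poissonKernel 0 w' z := by
          rw [mem_ball, dist_eq_norm, not_lt] at h'
          have h12 : ‖z - w'‖ ≤ 2 * ‖z - w‖ := by
            have := norm_add_le (z - w) (w - w')
            rw [sub_add_sub_cancel] at this
            linarith
          have h13 : ‖z - w'‖ ^ 2 ≤ 4 * ‖z - w‖ ^ 2 := by nlinarith [norm_nonneg (z - w')]
          rw [pk, pk, h5, mul_div_assoc', div_le_div_iff₀ (pow_pos (by linarith) 2)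
            (pow_pos (by linarith) 2)]
          nlinarith [mul_le_mul h9 h13 (by positivity) (by linarith),
            mul_le_mul_of_nonneg_right h8 (sq_nonneg ‖z - w‖)]
        have h12 : z ∉ G ∩ ball w (32 * l) := fun hh => h' hh.2
        simp only [Pi.smul_apply', Pi.add_apply, Pi.smul_apply, smul_eq_mul,
          Set.indicator_of_mem h, Set.indicator_of_notMem h12]
        linarith
    · have h12 : z ∉ G ∩ ball w (32 * l) := fun hh => h hh.1
      simp only [Pi.smul_apply', Pi.add_apply, Pi.smul_apply, smul_eq_mul,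
        Set.indicator_of_notMem h, Set.indicator_of_notMem h12]
      linarith)
  rw [circleAverage_add i1 i2, circleAverage_smul, circleAverage_smul, pk_avg h2] at h4
  simpa [om] using h4

lemma om_big (F : Set ℂ) (hF : MeasurableSet F) (h0 : volume (circleMap 0 1 ⁻¹' F) ≠ 0) :
    ∃ w : ℂ, ‖w‖ < 1 ∧ 1 / 2 < om F w := by
  set S := circleMap 0 1 ⁻¹' F with hS
  have hSm : MeasurableSet S := (continuous_circleMap 0 1).measurable hF
  have hne : (ae (volume.restrict S)).NeBot := by
    rw [ae_neBot, Ne, Measure.restrict_eq_zero]; exact h0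
  obtain ⟨t, ht⟩ := (Besicovitch.ae_tendsto_measure_inter_div volume S).exists
  have h1 := ht.eventually_const_lt
    (show ENNReal.ofReal (199 / 200) < 1 from ENNReal.ofReal_lt_one.mpr (by norm_num))
  obtain ⟨ρ, h2, hρ⟩ := (h1.and (Ioo_mem_nhdsGT (show (0 : ℝ) < 1 by norm_num))).exists
  have hρ0 := hρ.1
  have hρ1 := hρ.2
  have h3 : volume.real (Sᶜ ∩ closedBall t ρ) ≤ ρ / 100 := by
    have e1 := measureReal_inter_add_diff (μ := volume) (s := closedBall t ρ) hSm
      (measure_closedBall_lt_top.ne)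
    rw [Real.volume_real_closedBall hρ0.le] at e1
    have e2 : 199 / 200 * (2 * ρ) ≤ volume.real (closedBall t ρ ∩ S) := by
      rw [Real.volume_closedBall, ENNReal.lt_div_iff_mul_lt (Or.inl (by simpa using hρ0))
        (Or.inl ENNReal.ofReal_ne_top), ← ENNReal.ofReal_mul (by norm_num)] at h2
      rw [Set.inter_comm, measureReal_def]
      exact (ENNReal.ofReal_le_iff_le_toReal
        ((measure_mono Set.inter_subset_right).trans_lt measure_closedBall_lt_top).ne).mp h2.le
    rw [Set.inter_comm, ← Set.diff_eq]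
    linarith
  set w : ℂ := ((1 - ρ / 66 : ℝ) : ℂ) * circleMap 0 1 t with hw
  have hw1 : ‖w‖ = 1 - ρ / 66 := by
    rw [hw, norm_mul, norm_real, Real.norm_of_nonneg (by linarith)]; simp
  refine ⟨w, by linarith, ?_⟩
  have h4 := om_far Fᶜ hF.compl (w := w) (by linarith) (by linarith)
  have h5 := om_add F hF (w := w) (by linarith)
  have h6 : circleAverage ((Fᶜ ∩ ball w (32 * (1 - ‖w‖))).indicator fun _ => (1 : ℝ)) 0 1 ≤
      (2 * π)⁻¹ * (ρ / 100) := by
    rw [circleAverage_eq_integral_add (t - π), smul_eq_mul]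
    refine mul_le_mul_of_nonneg_left (le_trans ?_ h3) (by positivity)
    rw [intervalIntegral.integral_comp_add_right (fun θ => (Fᶜ ∩ ball w (32 * (1 - ‖w‖))).indicator
      (fun _ => (1 : ℝ)) (circleMap 0 1 θ)), intervalIntegral.integral_of_le (by linarith [pi_pos])]
    have hm : MeasurableSet (Sᶜ ∩ closedBall t ρ) := hSm.compl.inter measurableSet_closedBall
    have hi : Integrable ((Sᶜ ∩ closedBall t ρ).indicator fun _ => (1 : ℝ)) volume :=
      (integrable_indicator_iff hm).mpr (integrableOn_const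
        ((measure_mono Set.inter_subset_right).trans_lt measure_closedBall_lt_top).ne)
    have e1 : ∫ θ, (Sᶜ ∩ closedBall t ρ).indicator (fun _ => (1 : ℝ)) θ =
        volume.real (Sᶜ ∩ closedBall t ρ) := by
      rw [integral_indicator hm]; simp
    rw [← e1]
    refine le_trans (integral_mono_of_nonneg ?_ hi.integrableOn ?_)
      (setIntegral_le_integral hi (Eventually.of_forall fun θ => ?_))
    · exact Eventually.of_forall fun θ => Set.indicator_nonneg (fun _ _ => zero_le_one) _
    · filter_upwards [ae_restrict_mem measurableSet_Ioc] with θ hθ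
      by_cases h : circleMap 0 1 θ ∈ Fᶜ ∩ ball w (32 * (1 - ‖w‖))
      · have h7 : θ ∈ Sᶜ ∩ closedBall t ρ := by
          refine ⟨h.1, ?_⟩
          have e2 := h.2
          rw [mem_ball, dist_eq_norm, hw1] at e2
          have e3 : ‖circleMap 0 1 t - w‖ = ρ / 66 := by
            have : circleMap 0 1 t - w = ((ρ / 66 : ℝ) : ℂ) * circleMap 0 1 t := by
              rw [hw]; push_cast; ring
            rw [this, norm_mul, norm_real, Real.norm_of_nonneg (by linarith)]; simp
          have e4 := norm_sub_le (circleMap 0 1 θ - w) (circleMap 0 1 t - w)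
          have e5 : circleMap 0 1 θ - w - (circleMap 0 1 t - w) =
              (cexp (I * (θ - t : ℝ)) - 1) * circleMap 0 1 t := by
            simp only [circleMap_zero, ofReal_one, one_mul]
            rw [sub_mul, ← Complex.exp_add]
            push_cast
            ring_nf
          rw [e5, norm_mul, Complex.norm_exp_I_mul_ofReal_sub_one] at e4
          have e6 : |(θ - t) / 2| ≤ π / 2 := by
            rw [abs_le]; constructor <;> linarith [hθ.1, hθ.2]
          have e7 := Real.mul_abs_le_abs_sin e6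
          simp only [norm_circleMap_zero, abs_one, mul_one, Real.norm_eq_abs, abs_mul,
            abs_two] at e4
          rw [abs_div, abs_two, div_mul_eq_mul_div, div_le_iff₀ pi_pos] at e7
          rw [mem_closedBall, Real.dist_eq]
          nlinarith [pi_lt_four, abs_nonneg (Real.sin ((θ - t) / 2))]
        rw [Set.indicator_of_mem h, Set.indicator_of_mem h7]
      · rw [Set.indicator_of_notMem h]
        exact Set.indicator_nonneg (fun _ _ => zero_le_one) _
    · exact Set.indicator_nonneg (fun _ _ => zero_le_one) _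
  have h7 : 2 / (1 - ‖w‖) * ((2 * π)⁻¹ * (ρ / 100)) < 1 / 4 := by
    rw [hw1, sub_sub_cancel, show 2 / (ρ / 66) * ((2 * π)⁻¹ * (ρ / 100)) = 66 / (100 * π) by
      field_simp, div_lt_iff₀ (by positivity)]
    linarith [pi_gt_three]
  have h8 := mul_le_mul_of_nonneg_left h6 (show 0 ≤ 2 / (1 - ‖w‖) from
    div_nonneg (by norm_num) (by linarith))
  linarith

lemma om_holo (F : Set ℂ) (hF : MeasurableSet F) : ∃ H : ℂ → ℂ,
    DifferentiableOn ℂ H (ball 0 1) ∧ ∀ w, ‖w‖ < 1 → (H w).re = om F w := by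
  have h1 : CircleIntegrable (fun ζ => ((F.indicator (fun _ => (1 : ℝ)) ζ : ℝ) : ℂ)) 0 1 := by
    have := ind_int F hF
    simp only [CircleIntegrable, intervalIntegrable_iff] at this ⊢
    exact Complex.ofRealCLM.integrable_comp this
  refine ⟨_, differentiableOn_circleAverage_herglotzRieszKernel_smul h1, fun w hw => ?_⟩
  rw [re_circleAverage_herglotzRieszKernel_smul (ind_int F hF) (by simpa using hw), om,
    poissonKernel_eq_re_herglotzRieszKernel]

/-- Cone condition. -/
def Cn (u : ℂ → ℂ) (δ ε : ℝ) : Set ℂ :=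
  {ζ | ∀ z : ℂ, ‖z‖ < 1 → 1 - δ < ‖z‖ → ‖ζ - z‖ < 32 * (1 - ‖z‖) → ‖u z‖ ≤ ε}

lemma Cn_closed (u : ℂ → ℂ) (δ ε : ℝ) : IsClosed (Cn u δ ε) := by
  have : Cn u δ ε = ⋂ z ∈ {z : ℂ | ‖z‖ < 1 ∧ 1 - δ < ‖z‖ ∧ ε < ‖u z‖},
      (ball z (32 * (1 - ‖z‖)))ᶜ := by
    ext ζ
    simp only [Cn, Set.mem_setOf_eq, Set.mem_iInter, Set.mem_compl_iff, mem_ball, dist_eq_norm]
    exact ⟨fun h z hz h1 => absurd (h z hz.1 hz.2.1 h1) (not_le.mpr hz.2.2),
      fun h z h1 h2 h3 => not_lt.mp fun h4 => h z ⟨h1, h2, h4⟩ h3⟩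
  rw [this]
  exact isClosed_biInter fun z _ => isOpen_ball.isClosed_compl

lemma priv0 (u : ℂ → ℂ) (hu : DifferentiableOn ℂ u (ball 0 1)) (F : Set ℂ) (hF : MeasurableSet F)
    (h0 : volume (circleMap 0 1 ⁻¹' F) ≠ 0) (h : ∀ ε > 0, ∃ δ > 0, F ⊆ Cn u δ ε) :
    ∀ z, ‖z‖ < 1 → u z = 0 := by
  obtain ⟨H, hH, hH1⟩ := om_holo F hF
  obtain ⟨w0, hw0, hw1⟩ := om_big F hF h0
  have key : ∀ ε > 0, ∃ r : ℝ, r < 1 ∧ ∀ z : ℂ, ‖z‖ < 1 → r < ‖z‖ → 1 / 2 ≤ (H z).re →
      ‖u z‖ ≤ ε := by
    intro ε hε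
    obtain ⟨δ, hδ, h1⟩ := h ε hε
    refine ⟨max (1 - δ) (31 / 32), max_lt (by linarith) (by norm_num), fun z hz h2 h3 => ?_⟩
    rw [max_lt_iff] at h2
    by_contra h4
    have h5 : F ∩ ball z (32 * (1 - ‖z‖)) = ∅ := by
      refine Set.eq_empty_iff_forall_notMem.mpr fun ζ hζ => h4 ?_
      exact h1 hζ.1 z hz h2.1 (by simpa [dist_eq_norm] using hζ.2)
    have h6 := om_far F hF hz h2.2.le
    rw [h5, Set.indicator_empty, ← hH1 z hz] at h6
    have h7 : circleAverage (fun _ : ℂ => (0 : ℝ)) 0 1 = 0 := circleAverage_const _ _ _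
    rw [h7] at h6
    linarith
  obtain ⟨C, hC1, hC⟩ : ∃ C : ℝ, 1 ≤ C ∧ ∀ z : ℂ, ‖z‖ < 1 → 1 / 2 ≤ (H z).re → ‖u z‖ ≤ C := by
    obtain ⟨r, hr, h1⟩ := key 1 one_pos
    obtain ⟨C, hC⟩ := (isCompact_closedBall (0 : ℂ) r).exists_bound_of_continuousOn
      (hu.continuousOn.mono (closedBall_subset_ball hr))
    refine ⟨max C 1, le_max_right _ _, fun z hz h2 => ?_⟩
    by_cases h3 : r < ‖z‖
    · exact (h1 z hz h3 h2).trans (le_max_right _ _)
    · exact (hC z (by simpa using h3)).trans (le_max_left _ _)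
  have hop : ∀ r ≤ 1, IsOpen (ball (0 : ℂ) r ∩ H ⁻¹' {y | 1 / 2 < y.re}) := fun r hr =>
    (hH.continuousOn.mono (ball_subset_ball hr)).isOpen_inter_preimage isOpen_ball
      (isOpen_lt continuous_const continuous_re)
  have main : ∀ z, ‖z‖ < 1 → 1 / 2 < (H z).re → u z = 0 := by
    intro z hz h1
    have h2 : ∀ A : ℝ, 0 ≤ A → ‖u z‖ * Real.exp (A * ((H z).re - 1 / 2)) ≤ C := by
      intro A hA
      obtain ⟨r0, hr0, h3⟩ := key (Real.exp (-A)) (Real.exp_pos _)
      obtain ⟨r, hr1, hr2⟩ := exists_between (max_lt hr0 hz)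
      rw [max_lt_iff] at hr1
      have hcl : closure (ball (0 : ℂ) r ∩ H ⁻¹' {y | 1 / 2 < y.re}) ⊆
          closedBall (0 : ℂ) r ∩ H ⁻¹' {y | 1 / 2 ≤ y.re} := by
        refine closure_minimal (Set.inter_subset_inter ball_subset_closedBall
          fun y hy => (le_of_lt (show 1 / 2 < (H y).re from hy) : 1 / 2 ≤ (H y).re)) ?_
        exact (hH.continuousOn.mono (closedBall_subset_ball hr2)).preimage_isClosed_of_isClosed
          isClosed_closedBall (isClosed_le continuous_const continuous_re)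
      have hn : ∀ y, ‖u y * cexp (A * (H y - 1 / 2))‖ =
          ‖u y‖ * Real.exp (A * ((H y).re - 1 / 2)) := fun y => by
        rw [norm_mul, Complex.norm_exp]; simp
      rw [← hn]
      refine Complex.norm_le_of_forall_mem_frontier_norm_le
        (f := fun y => u y * cexp (A * (H y - 1 / 2)))
        (U := ball (0 : ℂ) r ∩ H ⁻¹' {y | 1 / 2 < y.re})
        (isBounded_ball.subset Set.inter_subset_left) ?_ (fun y hy => ?_)
        (subset_closure ⟨by simpa using hr1.2, h1⟩)
      · refine DifferentiableOn.diffContOnCl (DifferentiableOn.mono (t := ball 0 1) ?_ ?_)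
        · exact hu.mul ((hH.sub_const _).const_mul _).cexp
        · exact hcl.trans (Set.inter_subset_left.trans (closedBall_subset_ball hr2))
      · rw [(hop r hr2.le).frontier_eq] at hy
        obtain ⟨⟨e1, e2⟩, e3⟩ := And.intro (hcl hy.1) hy.2
        have e4 : ‖y‖ ≤ r := by simpa using e1
        have e5 : 1 / 2 ≤ (H y).re := e2
        rw [hn]
        by_cases e6 : ‖y‖ < r
        · have e7 : (H y).re = 1 / 2 :=
            le_antisymm (not_lt.mp fun e7 => e3 ⟨by simpa using e6, e7⟩) e5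
          rw [e7, sub_self, mul_zero, Real.exp_zero, mul_one]
          exact hC y (by linarith) e5
        · have e7 := h3 y (by linarith) (by linarith) e5
          have e8 : (H y).re ≤ 1 := by
            rw [hH1 y (by linarith)]
            linarith [om_add F hF (w := y) (by linarith), om_nonneg Fᶜ (w := y) (by linarith)]
          have e9 : Real.exp (A * ((H y).re - 1 / 2)) ≤ Real.exp A :=
            Real.exp_le_exp.mpr (by nlinarith)
          refine (mul_le_mul e7 e9 (by positivity) (by positivity)).trans ?_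
          rw [← Real.exp_add]; simpa using hC1
    by_contra h3
    have h4 := norm_pos_iff.mpr h3
    have h5 : 0 < (H z).re - 1 / 2 := by linarith
    have h6 := h2 (C / ‖u z‖ / ((H z).re - 1 / 2)) (by positivity)
    rw [div_mul_cancel₀ _ h5.ne'] at h6
    have h7 := Real.add_one_le_exp (C / ‖u z‖)
    have h8 := mul_le_mul_of_nonneg_left h7 h4.le
    rw [mul_add, mul_div_cancel₀ _ h4.ne'] at h8
    linarith
  intro z hz
  have h1 : u =ᶠ[𝓝 w0] 0 := by
    filter_upwards [(hop 1 le_rfl).mem_nhds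
      (show w0 ∈ ball (0 : ℂ) 1 ∩ H ⁻¹' {y | 1 / 2 < y.re} from
        ⟨by simpa using hw0, by show 1 / 2 < (H w0).re; rwa [hH1 w0 hw0]⟩)] with y hy
    exact main y (by simpa using hy.1) hy.2
  exact (hu.analyticOnNhd isOpen_ball).eqOn_zero_of_preconnected_of_eventuallyEq_zero
    (convex_ball 0 1).isPreconnected (by simpa using hw0) h1 (by simpa using hz)

/-- Luzin-Privalov uniqueness theorem. -/
theorem priv (u : ℂ → ℂ) (hu : DifferentiableOn ℂ u (ball 0 1)) (h : ∃ z, ‖z‖ < 1 ∧ u z ≠ 0) :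
    ∀ᵐ t ∂(volume.restrict (Set.Ioc 0 (2 * π))),
      ¬ ∀ ε > 0, ∃ δ > 0, circleMap 0 1 t ∈ Cn u δ ε := by
  set μ := volume.restrict (Set.Ioc 0 (2 * π)) with hμ
  let D : ℕ → ℕ → Set ℝ := fun i n => circleMap 0 1 ⁻¹' Cn u (1 / (n + 1)) (1 / (i + 1))
  have hD : ∀ i n, MeasurableSet (D i n) := fun i n =>
    (continuous_circleMap 0 1).measurable (Cn_closed _ _ _).measurableSet
  have hmono : ∀ i, Monotone (D i) := fun i m n hmn t ht z h1 h2 h3 =>
    ht z h1 (by linarith [Nat.one_div_le_one_div (α := ℝ) hmn]) h3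
  let A : Set ℝ := ⋂ i, ⋃ n, D i n
  have hA : MeasurableSet A := MeasurableSet.iInter fun i => MeasurableSet.iUnion (hD i)
  have hA0 : μ A = 0 := by
    by_contra hA0
    obtain ⟨z, hz, hz1⟩ := h
    obtain ⟨ε, hε, hε1⟩ := ENNReal.exists_pos_sum_of_countable' hA0 ℕ
    have h1 : ∀ i, ∃ n, μ (A \ D i n) < ε i := by
      intro i
      have h2 := tendsto_measure_iInter_atTop (μ := μ) (s := fun n => A \ D i n)
        (fun n => (hA.diff (hD i n)).nullMeasurableSet)
        (fun m n hmn => Set.diff_subset_diff_right (hmono i hmn)) ⟨0, measure_ne_top _ _⟩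
      have h3 : ⋂ n, A \ D i n = ∅ := by
        refine Set.eq_empty_iff_forall_notMem.mpr fun t ht => ?_
        obtain ⟨n, hn⟩ := Set.mem_iUnion.mp (Set.mem_iInter.mp (Set.mem_iInter.mp ht 0).1 i)
        exact (Set.mem_iInter.mp ht n).2 hn
      rw [h3, measure_empty] at h2
      exact (h2.eventually_lt_const (hε i)).exists
    choose n hn using h1
    refine hz1 (priv0 u hu (⋂ i, Cn u (1 / (n i + 1)) (1 / (i + 1)))
      (MeasurableSet.iInter fun i => (Cn_closed _ _ _).measurableSet) (fun h2 => ?_)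
      (fun ε' hε' => ?_) z hz)
    · have h3 : A ⊆ circleMap 0 1 ⁻¹' (⋂ i, Cn u (1 / (n i + 1)) (1 / (i + 1))) ∪
          ⋃ i, A \ D i (n i) := by
        intro t ht
        by_contra h4
        simp only [Set.mem_union, not_or, Set.mem_iUnion, not_exists] at h4
        exact h4.1 (Set.mem_iInter.mpr fun i => by
          by_contra h5
          exact h4.2 i ⟨ht, h5⟩)
      have h4 := (measure_mono (μ := μ) h3).trans (measure_union_le _ _)
      rw [Measure.restrict_le_self.absolutelyContinuous h2, zero_add] at h4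
      have h5 := h4.trans ((measure_iUnion_le _).trans (ENNReal.tsum_le_tsum fun i => (hn i).le))
      exact absurd hε1 (not_lt.mpr h5)
    · obtain ⟨i, hi⟩ := exists_nat_one_div_lt hε'
      exact ⟨1 / (n i + 1), by positivity, fun ζ hζ y h1 h2 h3 =>
        (Set.mem_iInter.mp hζ i y h1 h2 h3).trans hi.le⟩
  filter_upwards [measure_eq_zero_iff_ae_notMem.mp hA0] with t ht h1
  refine ht (Set.mem_iInter.mpr fun i => ?_)
  obtain ⟨δ, hδ, h2⟩ := h1 (1 / (i + 1)) (by positivity)
  obtain ⟨n, hn⟩ := exists_nat_one_div_lt hδ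
  exact Set.mem_iUnion.mpr ⟨n, fun z h3 h4 h5 => h2 z h3 (by linarith) h5⟩

end Pool.Agent.H2.NsB
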