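import Mathlib
import Pool.Agent.H2.NsA
import Pool.Agent.H2.NsB

set_option autoImplicit false
open Filter Topology Metric Complex MeasureTheory Real ComplexConjugate

namespace Pool.Agent.H2.NsC
open NsA NsB

lemma lin (φ : ℂ → ℂ) (hφ : DifferentiableOn ℂ φ (ball 0 1))
    (h : ∀ z, ‖z‖ < 1 → z * deriv φ z - φ z = 0) : ∃ c : ℂ, ∀ z, ‖z‖ < 1 → φ z = c * z := by
  have h0 : φ 0 = 0 := by simpa using h 0 (by simp)
  have hg : DifferentiableOn ℂ (dslope φ 0) (ball 0 1) :=
    (Complex.differentiableOn_dslope (ball_mem_nhds 0 one_pos)).mpr hφ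
  have h1 : ∀ z, φ z = z * dslope φ 0 z := fun z => by
    have := sub_smul_dslope φ 0 z
    simpa [h0] using this.symm
  have h2 : ∀ z, ‖z‖ < 1 → z ≠ 0 → deriv (dslope φ 0) z = 0 := by
    intro z hz hz0
    have h3 := (hg.differentiableAt
      (isOpen_ball.mem_nhds (by simpa using hz : z ∈ ball (0 : ℂ) 1))).hasDerivAt
    have h4 : HasDerivAt φ (1 * dslope φ 0 z + z * deriv (dslope φ 0) z) z := by
      have := (hasDerivAt_id' z).mul h3
      exact this.congr_of_eventuallyEq (Eventually.of_forall fun y => h1 y)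
    have h5 := h z hz
    rw [h4.deriv, h1 z] at h5
    have h6 : z * z * deriv (dslope φ 0) z = 0 := by linear_combination h5
    simpa [hz0] using h6
  have h3 : Set.EqOn (deriv (dslope φ 0)) 0 (ball 0 1) := by
    refine (hg.analyticOnNhd isOpen_ball).deriv.eqOn_zero_of_preconnected_of_eventuallyEq_zero
      (convex_ball 0 1).isPreconnected (z₀ := 1 / 2) (by simp; norm_num) ?_
    filter_upwards [isOpen_ball.mem_nhds (show (1 / 2 : ℂ) ∈ ball (0 : ℂ) 1 by simp; norm_num),
      isOpen_ne.mem_nhds (show (1 / 2 : ℂ) ≠ 0 by norm_num)] with y h4 h5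
    exact h2 y (by simpa using h4) h5
  refine ⟨dslope φ 0 0, fun z hz => ?_⟩
  rw [h1 z, mul_comm]
  congr 1
  exact isOpen_ball.is_const_of_deriv_eq_zero (convex_ball 0 1).isPreconnected hg h3
    (by simpa using hz) (by simp)

lemma coef (f : ℂ → ℂ) (hf : DifferentiableOn ℂ f (ball 0 1)) (m : ℕ) {r : ℝ} (h0 : 0 < r)
    (h1 : r < 1) : ∫ t in (0 : ℝ)..2 * π, ((r : ℂ)⁻¹) ^ m * f (circleMap 0 1 t * r) *
      (conj (circleMap 0 1 t)) ^ m = 2 * π * (iteratedDeriv m f 0 / (m.factorial : ℂ)) := by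
  have h2 := (hf.mono (closedBall_subset_ball h1)).circleIntegral_one_div_sub_center_pow_smul h0 m
  rw [circleIntegral] at h2
  have h3 : ∀ t : ℝ, deriv (circleMap 0 r) t • (1 / (circleMap 0 r t - 0) ^ (m + 1)) •
      f (circleMap 0 r t) = I * (((r : ℂ)⁻¹) ^ m * f (circleMap 0 1 t * r) *
      (conj (circleMap 0 1 t)) ^ m) := by
    intro t
    have e1 : circleMap 0 r t = circleMap 0 1 t * r := by simp [circleMap_zero, mul_comm]
    have e2 : conj (circleMap 0 1 t) = (circleMap 0 1 t)⁻¹ := by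
      rw [Complex.inv_def, normSq_eq_norm_sq]; simp
    have e3 : circleMap 0 1 t ≠ 0 := circleMap_ne_center one_ne_zero
    have e4 : (r : ℂ) ≠ 0 := by exact_mod_cast h0.ne'
    rw [deriv_circleMap, e1, e2, sub_zero, smul_eq_mul, smul_eq_mul, inv_pow, inv_pow, pow_succ,
      mul_pow]
    field_simp
  simp only [h3] at h2
  rw [intervalIntegral.integral_const_mul, smul_eq_mul] at h2
  apply mul_left_cancel₀ I_ne_zero
  rw [h2]
  ring

theorem main : ∀ φ : ℂ → ℂ,
      DifferentiableOn ℂ φ (Metric.ball (0 : ℂ) 1) →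
      Set.MapsTo φ (Metric.ball (0 : ℂ) 1) (Metric.ball (0 : ℂ) 1) →
      (¬ ∃ c : ℂ, ‖c‖ = 1 ∧ ∀ z ∈ Metric.ball (0 : ℂ) 1, φ z = c * z) →
      ∀ j k : ℕ,
        Filter.Tendsto
          (fun n : ℕ =>
            iteratedDeriv (n + k) (fun z => φ z ^ (n + j)) 0 / ((n + k).factorial : ℂ))
          Filter.atTop (nhds 0) := by
  intro φ hφ hm hrot j k
  have hm' : ∀ z, ‖z‖ < 1 → ‖φ z‖ < 1 := fun z hz => by simpa using hm (by simpa using hz)
  have hζ : ∀ t, ‖circleMap 0 1 t‖ = 1 := fun t => by simp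
  have hζ1 : ∀ t w, ‖circleMap 0 1 t * w‖ = ‖w‖ := fun t w => by rw [norm_mul, hζ, one_mul]
  choose η x h1 h2 h3 h4 h5 using fun t : ℝ => lemA (fun w => φ (circleMap 0 1 t * w))
    (hφ.comp (by fun_prop) fun w hw => by simpa [hζ1] using hw)
    (fun z hz => hm' _ (by rwa [hζ1]))
  have hx : ∀ᵐ t ∂(volume.restrict (Set.Ioc 0 (2 * π))), x t ≠ 1 := by
    by_cases h : ∃ z, ‖z‖ < 1 ∧ z * deriv φ z - φ z ≠ 0
    · filter_upwards [priv (fun z => z * deriv φ z - φ z)
        ((differentiableOn_id.mul (hφ.deriv isOpen_ball)).sub hφ) h] with t ht hxt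
      refine ht fun ε hε => ?_
      obtain ⟨δ, hδ, h6⟩ := h4 t hxt ε hε
      refine ⟨δ, hδ, fun z e1 e2 e3 => ?_⟩
      have e4 : circleMap 0 1 t ≠ 0 := circleMap_ne_center one_ne_zero
      obtain ⟨w, rfl⟩ : ∃ w, z = circleMap 0 1 t * w := ⟨z / circleMap 0 1 t, by field_simp⟩
      rw [← mul_one_sub] at e3
      simp only [hζ1] at e1 e2 e3
      have e5 := h6 w e1 e2 e3
      rw [deriv_comp_mul_left, smul_eq_mul] at e5
      rw [← mul_assoc, mul_comm w] at e5
      exact e5
    · push Not at h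
      obtain ⟨c, hc⟩ := lin φ hφ h
      refine Eventually.of_forall fun t hxt => hrot ⟨c, ?_, fun z hz => hc z (by simpa using hz)⟩
      have e1 : ∀ j' : ℕ, Tendsto (fun n : ℕ => ‖c‖ ^ (n + j')) atTop (𝓝 1) := by
        intro j'
        have e2 := (h5 t 1 j' j' one_pos).norm
        rw [hxt] at e2
        simp only [ofReal_one, one_pow, norm_one] at e2
        refine e2.congr fun n => ?_
        have hs : (0 : ℝ) < (1 : ℕ) / 2 := by norm_num
        rw [hc _ (by rw [hζ1, rr_norm hs]; exact rr_lt hs n), ← mul_pow, norm_pow, norm_mul,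
          norm_mul, norm_mul, hζ1, norm_conj, h1, norm_inv, rr_norm hs]
        have := (rr_pos hs n).ne'
        congr 1
        field_simp
      have e2 := (e1 0).mul_const ‖c‖
      rw [one_mul] at e2
      exact tendsto_nhds_unique (e2.congr fun n => by rw [add_zero, pow_succ]) (e1 1)
  let Z : ℕ → ℕ → ℝ → ℂ := fun i n t => ((rr (i / 2) n : ℂ)⁻¹) ^ (n + k) *
    φ (circleMap 0 1 t * rr (i / 2) n) ^ (n + j) * (conj (circleMap 0 1 t)) ^ (n + k)
  have hZc : ∀ i n, 0 < i → Continuous (Z i n) := by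
    intro i n hi
    have hs : (0 : ℝ) < i / 2 := by positivity
    refine (continuous_const.mul (Continuous.pow ?_ _)).mul
      ((continuous_conj.comp (continuous_circleMap 0 1)).pow _)
    refine hφ.continuousOn.comp_continuous ((continuous_circleMap 0 1).mul continuous_const)
      fun t => ?_
    simp only [mem_ball, dist_zero_right]
    rw [hζ1, rr_norm hs]; exact rr_lt hs n
  have hZb : ∀ i, 0 < i → ∀ᶠ n in atTop, ∀ t, ‖Z i n t‖ ≤ Real.exp (i / 2) + 1 := by
    intro i hi
    have hs : (0 : ℝ) < i / 2 := by positivity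
    filter_upwards [(l4 (i / 2) k).eventually_le_const (lt_add_one _)] with n hn t
    simp only [Z]
    rw [norm_mul, norm_mul, norm_pow, norm_pow, norm_pow, norm_conj, hζ, one_pow, mul_one, norm_inv,
      rr_norm hs]
    have e1 : ‖φ (circleMap 0 1 t * rr (i / 2) n)‖ ^ (n + j) ≤ 1 :=
      pow_le_one₀ (norm_nonneg _) (hm' _ (by rw [hζ1, rr_norm hs]; exact rr_lt hs n)).le
    have e2 : 0 ≤ (rr (i / 2) n)⁻¹ ^ (n + k) := by have := rr_pos hs n; positivity
    nlinarith
  let c : ℕ → ℕ → ℂ := fun L i => (-1) ^ i * 2 ^ (L - i) * L.choose i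
  have hc : ∀ (L : ℕ) (y : ℂ), ∑ i ∈ Finset.range (L + 1), c L i * y ^ (L + i) =
      (y * (2 - y)) ^ L := by
    intro L y
    rw [mul_pow, show 2 - y = -y + 2 by ring, add_pow, Finset.mul_sum]
    refine Finset.sum_congr rfl fun i _ => ?_
    simp only [c]
    rw [neg_pow y]
    ring
  let Y : ℕ → ℕ → ℝ → ℂ := fun L n t => ∑ i ∈ Finset.range (L + 1), c L i * Z (L + i) n t
  have hYc : ∀ L n, 0 < L → Continuous (Y L n) := fun L n hL =>
    continuous_finset_sum _ fun i _ => continuous_const.mul (hZc _ _ (by omega))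
  have hYi : ∀ L n, 0 < L → ∫ t in (0 : ℝ)..2 * π, Y L n t = 2 * π *
      (iteratedDeriv (n + k) (fun z => φ z ^ (n + j)) 0 / ((n + k).factorial : ℂ)) := by
    intro L n hL
    simp only [Y]
    rw [intervalIntegral.integral_finset_sum (f := fun i t => c L i * Z (L + i) n t) fun i _ =>
      (continuous_const.mul (hZc (L + i) n (by omega))).intervalIntegrable _ _]
    have e1 : ∀ i ∈ Finset.range (L + 1), ∫ t in (0 : ℝ)..2 * π, c L i * Z (L + i) n t =
        c L i * 1 ^ (L + i) * (2 * π *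
        (iteratedDeriv (n + k) (fun z => φ z ^ (n + j)) 0 / ((n + k).factorial : ℂ))) := by
      intro i _
      have hs : (0 : ℝ) < (L + i : ℕ) / 2 := by positivity
      rw [intervalIntegral.integral_const_mul, one_pow, mul_one]
      congr 1
      exact coef (fun z => φ z ^ (n + j)) (hφ.pow _) (n + k) (rr_pos hs n) (rr_lt hs n)
    rw [Finset.sum_congr rfl e1, ← Finset.sum_mul, hc]
    norm_num
  have hYl : ∀ L t, 0 < L → Tendsto (fun n => ‖Y L n t‖) atTop (𝓝 ((x t * (2 - x t)) ^ L)) := by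
    intro L t hL
    have e1 := (tendsto_finset_sum (Finset.range (L + 1)) fun i _ =>
      (h5 t (L + i) j k (by omega)).const_mul (c L i)).norm
    rw [hc] at e1
    have e2 : ‖((x t : ℂ) * (2 - x t)) ^ L‖ = (x t * (2 - x t)) ^ L := by
      rw [show ((x t : ℂ) * (2 - x t)) ^ L = (((x t * (2 - x t)) ^ L : ℝ) : ℂ) by push_cast; rfl,
        norm_real, Real.norm_of_nonneg (pow_nonneg (mul_nonneg (h2 t) (by linarith [h3 t])) _)]
    rw [e2] at e1
    refine e1.congr fun n => ?_
    have e3 : conj (η t) * η t = 1 := by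
      rw [Complex.conj_mul', h1]; simp
    have e4 : ‖η t ^ (n + j) * (conj (circleMap 0 1 t)) ^ (n + k)‖ = 1 := by
      rw [norm_mul, norm_pow, norm_pow, norm_conj, h1, hζ]; simp
    have e7 : ∀ a : ℂ, ‖a‖ = ‖a * (η t ^ (n + j) * (conj (circleMap 0 1 t)) ^ (n + k))‖ :=
      fun a => by rw [norm_mul, e4, mul_one]
    rw [e7, Finset.sum_mul]
    congr 1
    refine Finset.sum_congr rfl fun i _ => ?_
    have e5 : (conj (η t)) ^ (n + j) * η t ^ (n + j) = 1 := by rw [← mul_pow, e3, one_pow]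
    have e6 : ∀ a b d e f g : ℂ, d * f = 1 → a * (b * (d * e)) * (f * g) = a * (b * e * g) :=
      fun a b d e f g h => by linear_combination a * b * e * g * h
    rw [mul_pow]
    exact e6 _ _ _ _ _ _ e5
  have hYt : ∀ L, 0 < L → Tendsto (fun n => ∫ t in Set.Ioc 0 (2 * π), ‖Y L n t‖) atTop
      (𝓝 (∫ t in Set.Ioc 0 (2 * π), (x t * (2 - x t)) ^ L)) := by
    intro L hL
    refine tendsto_integral_filter_of_dominated_convergence
      (fun _ => ∑ i ∈ Finset.range (L + 1), ‖c L i‖ * (Real.exp ((L + i : ℕ) / 2) + 1))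
      (Eventually.of_forall fun n => (hYc L n hL).norm.aestronglyMeasurable) ?_
      (integrable_const _) (Eventually.of_forall fun t => hYl L t hL)
    filter_upwards [(Finset.eventually_all (Finset.range (L + 1))).mpr fun i _ =>
      hZb (L + i) (by omega)] with n hn
    refine Eventually.of_forall fun t => ?_
    rw [norm_norm]
    refine (norm_sum_le _ _).trans (Finset.sum_le_sum fun i hi => ?_)
    rw [norm_mul]
    exact mul_le_mul_of_nonneg_left (hn i hi t) (norm_nonneg _)
  have hG : Tendsto (fun L => ∫ t in Set.Ioc 0 (2 * π), (x t * (2 - x t)) ^ (L + 1)) atTop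
      (𝓝 (∫ _ in Set.Ioc 0 (2 * π), (0 : ℝ))) := by
    have e1 : ∀ t, 0 ≤ x t * (2 - x t) := fun t => mul_nonneg (h2 t) (by linarith [h3 t])
    refine tendsto_integral_of_dominated_convergence (fun _ => 1) (fun L => ?_)
      (integrable_const _) (fun L => Eventually.of_forall fun t => ?_) ?_
    · exact aestronglyMeasurable_of_tendsto_ae atTop
        (fun n => (hYc (L + 1) n (by omega)).norm.aestronglyMeasurable)
        (Eventually.of_forall fun t => hYl (L + 1) t (by omega))
    · rw [Real.norm_of_nonneg (pow_nonneg (e1 t) _)]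
      exact pow_le_one₀ (e1 t) (by nlinarith [sq_nonneg (x t - 1)])
    · filter_upwards [hx] with t ht
      refine (tendsto_pow_atTop_nhds_zero_of_lt_one (e1 t) ?_).comp (tendsto_add_atTop_nat 1)
      nlinarith [sq_pos_of_ne_zero (sub_ne_zero.mpr ht)]
  rw [integral_zero] at hG
  rw [Metric.tendsto_nhds]
  intro ε hε
  obtain ⟨L, hL⟩ := (hG.eventually_lt_const hε).exists
  filter_upwards [(hYt (L + 1) (by omega)).eventually_lt_const hL] with n hn
  have e1 := intervalIntegral.norm_integral_le_integral_norm (f := Y (L + 1) n) (μ := volume)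
    (show (0 : ℝ) ≤ 2 * π by positivity)
  rw [hYi _ _ (by omega), intervalIntegral.integral_of_le (by positivity), norm_mul] at e1
  have e2 : ‖(2 * π : ℂ)‖ = 2 * π := by simp [abs_of_pos pi_pos]
  rw [e2] at e1
  rw [dist_zero_right]
  nlinarith [pi_gt_three, norm_nonneg
    (iteratedDeriv (n + k) (fun z => φ z ^ (n + j)) 0 / ((n + k).factorial : ℂ))]

end Pool.Agent.H2.NsC
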