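import Mathlib
import Pool.Agent.H2.NsB

set_option autoImplicit false
open Filter Topology Metric Complex MeasureTheory Real

namespace Pool.Agent.H2.NsD
open NsB

/-- Landau's form of Bloch's theorem. -/
lemma landau (g : ℂ → ℂ) (y : ℂ) (s : ℝ) (hs : 0 < s) (hg : DifferentiableOn ℂ g (ball y s)) :
    ∃ w, ball w (s * ‖deriv g y‖ / 96) ⊆ g '' ball y s := by
  by_cases h0 : deriv g y = 0
  · exact ⟨0, by simp [h0]⟩
  have hg' : DifferentiableOn ℂ (deriv g) (ball y s) := hg.deriv isOpen_ball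
  have hsub : closedBall y (s / 2) ⊆ ball y s := closedBall_subset_ball (by linarith)
  obtain ⟨a, ha, hmax⟩ := (isCompact_closedBall y (s / 2)).exists_isMaxOn
    (f := fun z => (s / 2 - ‖z - y‖) * ‖deriv g z‖) ⟨y, mem_closedBall_self (by linarith)⟩
    ((continuousOn_const.sub (by fun_prop)).mul (hg'.continuousOn.mono hsub).norm)
  set ρ := s / 2 - ‖a - y‖ with hρ
  have h1 : s / 2 * ‖deriv g y‖ ≤ ρ * ‖deriv g a‖ := by
    simpa using hmax (mem_closedBall_self (by linarith) : y ∈ closedBall y (s / 2))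
  have h2 : 0 < ρ * ‖deriv g a‖ := lt_of_lt_of_le (by have := norm_pos_iff.mpr h0; positivity) h1
  have hρ0 : 0 < ρ := by
    by_contra h
    nlinarith [norm_nonneg (deriv g a)]
  have ha0 : 0 < ‖deriv g a‖ := by
    by_contra h
    nlinarith [norm_nonneg (deriv g a)]
  have h3 : ∀ z ∈ ball a (ρ / 2), ‖z - y‖ ≤ s / 2 - ρ / 2 := fun z hz => by
    rw [mem_ball, dist_eq_norm] at hz
    have := norm_add_le (z - a) (a - y)
    rw [sub_add_sub_cancel] at this
    linarith
  have hsub2 : ball a (ρ / 2) ⊆ ball y s := fun z hz => by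
    rw [mem_ball, dist_eq_norm]; linarith [h3 z hz]
  have h4 : ∀ z ∈ ball a (ρ / 2), ‖deriv g z‖ ≤ 2 * ‖deriv g a‖ := fun z hz => by
    have e1 : (s / 2 - ‖z - y‖) * ‖deriv g z‖ ≤ ρ * ‖deriv g a‖ :=
      hmax (show z ∈ closedBall y (s / 2) by
        rw [mem_closedBall, dist_eq_norm]; linarith [h3 z hz])
    have e2 := mul_le_mul_of_nonneg_right (show ρ / 2 ≤ s / 2 - ‖z - y‖ by linarith [h3 z hz])
      (norm_nonneg (deriv g z))
    nlinarith
  have h5 : ∀ z ∈ closedBall a (ρ / 12), ‖deriv g z - deriv g a‖ ≤ ‖deriv g a‖ / 2 := by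
    intro z hz
    have e1 := Complex.dist_le_div_mul_dist_of_mapsTo_ball (hg'.mono hsub2)
      (R₂ := 3 * ‖deriv g a‖) (fun w hw => by
        rw [mem_closedBall, dist_eq_norm]
        linarith [norm_sub_le (deriv g w) (deriv g a), h4 w hw])
      (closedBall_subset_ball (by linarith) hz)
    rw [dist_eq_norm] at e1
    refine e1.trans ((mul_le_mul_of_nonneg_left (mem_closedBall.mp hz) (by positivity)).trans_eq ?_)
    field_simp
    norm_num
  have hsub3 : closedBall a (ρ / 12) ⊆ ball y s :=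
    (closedBall_subset_ball (by linarith)).trans hsub2
  have h6 : ∀ z ∈ closedBall a (ρ / 12), ‖deriv g a‖ / 2 * ‖z - a‖ ≤ ‖g z - g a‖ := by
    intro z hz
    have e1 := (convex_closedBall a (ρ / 12)).norm_image_sub_le_of_norm_hasDerivWithin_le
      (f := fun w => g w - deriv g a * w) (f' := fun w => deriv g w - deriv g a)
      (fun w hw => by
        have := ((hg.differentiableAt (isOpen_ball.mem_nhds (hsub3 hw))).hasDerivAt.sub
          ((hasDerivAt_id' w).const_mul (deriv g a))).hasDerivWithinAt (s := closedBall a (ρ / 12))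
        rw [mul_one] at this
        exact this) h5 (mem_closedBall_self (by linarith)) hz
    have e2 := norm_sub_le (g z - g a) (g z - deriv g a * z - (g a - deriv g a * a))
    rw [show g z - g a - (g z - deriv g a * z - (g a - deriv g a * a)) = deriv g a * (z - a) by ring,
      norm_mul] at e2
    linarith
  have h7 := DiffContOnCl.ball_subset_image_closedBall (f := g) (z₀ := a) (r := ρ / 12)
    (ε := ‖deriv g a‖ / 2 * (ρ / 12))
    ((hg.mono (closure_ball_subset_closedBall.trans hsub3)).diffContOnCl) (by linarith)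
    (fun z hz => by
      have := h6 z (sphere_subset_closedBall hz)
      rwa [mem_sphere_iff_norm.mp hz] at this)
    (by
      have e1 : ∀ᶠ z in 𝓝[≠] a, g z ≠ g a := by
        filter_upwards [self_mem_nhdsWithin,
          mem_nhdsWithin_of_mem_nhds (closedBall_mem_nhds a (show 0 < ρ / 12 by linarith))]
          with z h8 h9 h10
        have e2 := h6 z h9
        have e3 : 0 < ‖z - a‖ := norm_pos_iff.mpr (sub_ne_zero.mpr h8)
        rw [h10, sub_self, norm_zero] at e2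
        nlinarith [mul_pos ha0 e3]
      exact e1.frequently.filter_mono nhdsWithin_le_nhds)
  exact ⟨g a, (ball_subset_ball (by linarith)).trans (h7.trans (Set.image_mono hsub3))⟩

/-- A Koebe-type estimate. -/
lemma koebe (f : ℂ → ℂ) (y c : ℂ) (s : ℝ) (hs : 0 < s) (hf : DifferentiableOn ℂ f (ball y s))
    (hi : Set.InjOn f (ball y s)) (hc : ∀ z ∈ ball y s, f z ≠ c) :
    s * ‖deriv f y‖ ≤ 400 * ‖f y - c‖ := by
  have hc' : ∀ z ∈ ball y s, f z - c ≠ 0 := fun z hz => sub_ne_zero.mpr (hc z hz)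
  obtain ⟨L, hL⟩ := DifferentiableOn.isExactOn_ball (f := fun z => deriv f z / (f z - c))
    ((hf.deriv isOpen_ball).div (hf.sub_const c) hc')
  have hLd : DifferentiableOn ℂ L (ball y s) := fun z hz =>
    (hL z hz).differentiableAt.differentiableWithinAt
  have h1 : ∀ z ∈ ball y s, ∀ z' ∈ ball y s,
      (f z - c) * cexp (-L z) = (f z' - c) * cexp (-L z') := by
    intro z hz z' hz'
    refine isOpen_ball.is_const_of_deriv_eq_zero (𝕜 := ℂ) (f := fun z => (f z - c) * cexp (-L z))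
      (convex_ball y s).isPreconnected ((hf.sub_const c).mul hLd.neg.cexp) (fun w hw => ?_) hz hz'
    have e1 := ((hf.differentiableAt (isOpen_ball.mem_nhds hw)).hasDerivAt.sub_const c).mul
      (hL w hw).neg.cexp
    have e2 := hc' w hw
    refine e1.deriv.trans ?_
    simp only [Pi.neg_apply, Pi.zero_apply]
    field_simp
    ring
  obtain ⟨w, hw⟩ := landau L y s hs hLd
  rw [(hL y (mem_ball_self hs)).deriv, norm_div] at hw
  have h2 := norm_pos_iff.mpr (hc' y (mem_ball_self hs))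
  by_contra h3
  have h4 : π < s * (‖deriv f y‖ / ‖f y - c‖) / 96 := by
    rw [mul_div_assoc', lt_div_iff₀ (by norm_num), lt_div_iff₀ h2]
    nlinarith [pi_lt_four]
  obtain ⟨z, hz, e1⟩ := hw (show w + π * I ∈ ball w _ by simpa [abs_of_pos pi_pos] using h4)
  obtain ⟨z', hz', e2⟩ := hw (show w - π * I ∈ ball w _ by simpa [abs_of_pos pi_pos] using h4)
  have h5 := h1 z hz z' hz'
  have h6 : cexp (-L z') = cexp (-L z) := by
    rw [e1, e2, show -(w - π * I) = -(w + π * I) + 2 * π * I by ring, Complex.exp_add,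
      Complex.exp_two_pi_mul_I, mul_one]
  rw [h6] at h5
  have h7 : z = z' := hi hz hz' (by
    have := mul_right_cancel₀ (Complex.exp_ne_zero _) h5
    linear_combination this)
  rw [h7, e2] at e1
  have h8 : (2 * π * I : ℂ) = 0 := by linear_combination -e1
  exact two_pi_I_ne_zero h8

lemma cone (f : ℂ → ℂ) (hf : DifferentiableOn ℂ f (ball 0 1)) (hi : Set.InjOn f (ball 0 1))
    (ζ : ℂ) (hζ : ‖ζ‖ = 1) (M : ℝ) (hM : ∀ r ∈ Set.Ico (0 : ℝ) 1, ‖deriv f (r * ζ)‖ ≤ M)
    (z : ℂ) (hz : ‖z‖ < 1) (hz1 : ‖ζ - z‖ < 32 * (1 - ‖z‖)) :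
    ‖deriv f z‖ ≤ 400 * (M * Real.exp 26400) := by
  set t := ‖z‖ with ht
  have ht0 : 0 ≤ t := norm_nonneg z
  have hn : ∀ r : ℝ, 0 ≤ r → ‖(r : ℂ) * ζ‖ = r := fun r hr => by
    rw [norm_mul, hζ, mul_one, norm_real, Real.norm_of_nonneg hr]
  set a : ℂ := t * ζ with ha
  set p : ℂ := ((1 + t) / 2 : ℝ) * ζ with hp
  have hp1 : ‖p‖ = (1 + t) / 2 := hn _ (by linarith)
  have h1 : ‖f a - f p‖ ≤ M * ((1 - t) / 2) := by
    have hc : Convex ℝ ((fun r : ℝ => (r : ℂ) * ζ) '' Set.Ico 0 1) :=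
      (convex_Ico (0 : ℝ) 1).linear_image ((LinearMap.id : ℝ →ₗ[ℝ] ℝ).smulRight ζ)
    have e1 := hc.norm_image_sub_le_of_norm_hasDerivWithin_le (f := f) (f' := deriv f) (C := M)
      (by
        rintro _ ⟨r, hr, rfl⟩
        exact (hf.differentiableAt (isOpen_ball.mem_nhds (by
          simp only [mem_ball, dist_zero_right]; rw [hn r hr.1]; exact hr.2))).hasDerivAt.hasDerivWithinAt)
      (by rintro _ ⟨r, hr, rfl⟩; exact hM r hr)
      (show p ∈ _ from ⟨(1 + t) / 2, ⟨by linarith, by linarith⟩, rfl⟩)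
      (show a ∈ _ from ⟨t, ⟨ht0, hz⟩, rfl⟩)
    have e2 : ‖a - p‖ = (1 - t) / 2 := by
      rw [norm_sub_rev, show p - a = (((1 - t) / 2 : ℝ) : ℂ) * ζ by
        rw [hp, ha]; push_cast; ring, hn _ (by linarith)]
    rwa [e2] at e1
  have h2 : ∀ y : ℂ, ‖y‖ ≤ t → (1 - t) / 2 * ‖deriv f y‖ ≤ 400 * ‖f y - f p‖ := by
    intro y hy
    have e1 : ∀ w ∈ ball y ((1 - t) / 2), ‖w‖ < (1 + t) / 2 := fun w hw => by
      rw [mem_ball, dist_eq_norm] at hw
      have := norm_add_le (w - y) y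
      rw [sub_add_cancel] at this
      linarith
    have e2 : ball y ((1 - t) / 2) ⊆ ball 0 1 := fun w hw => by
      simp only [mem_ball, dist_zero_right]; linarith [e1 w hw]
    refine koebe f y (f p) _ (by linarith) (hf.mono e2) (hi.mono e2) fun w hw h => ?_
    have e3 := hi (e2 hw) (by simp only [mem_ball, dist_zero_right]; linarith) h
    have e4 := e1 w hw
    rw [e3] at e4
    linarith
  have h3 : ‖z - a‖ ≤ 33 * (1 - t) := by
    have e1 : ‖ζ - a‖ = 1 - t := by
      rw [show ζ - a = ((1 - t : ℝ) : ℂ) * ζ by rw [ha]; push_cast; ring, hn _ (by linarith)]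
    have e2 := norm_sub_le (ζ - a) (ζ - z)
    rw [show ζ - a - (ζ - z) = z - a by ring] at e2
    linarith
  have h4 : ∀ τ ∈ Set.Icc (0 : ℝ) 1, ‖a + τ * (z - a)‖ ≤ t := by
    intro τ hτ
    rw [show a + τ * (z - a) = ((1 - τ : ℝ) : ℂ) * a + τ * z by push_cast; ring]
    refine (norm_add_le _ _).trans ?_
    rw [norm_mul _ a, norm_mul _ z, norm_real, norm_real, Real.norm_of_nonneg hτ.1,
      Real.norm_of_nonneg (by linarith [hτ.2]), hn t ht0]
    linarith
  have h5 : ∀ τ ∈ Set.Icc (0 : ℝ) 1, HasDerivAt (fun τ : ℝ => f (a + τ * (z - a)) - f p)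
      (deriv f (a + τ * (z - a)) * (z - a)) τ := by
    intro τ hτ
    have e1 := (hf.differentiableAt (isOpen_ball.mem_nhds (show a + τ * (z - a) ∈ ball (0 : ℂ) 1 by
      simp only [mem_ball, dist_zero_right]; linarith [h4 τ hτ]))).hasDerivAt
    have e2 : HasDerivAt (fun w : ℂ => a + w * (z - a)) (z - a) τ := by
      simpa using ((hasDerivAt_id' (τ : ℂ)).mul_const (z - a)).const_add a
    exact ((e1.comp (τ : ℂ) e2).comp_ofReal).sub_const _
  have h6 := norm_le_gronwallBound_of_norm_deriv_right_le (a := 0) (b := 1)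
    (f := fun τ : ℝ => f (a + τ * (z - a)) - f p)
    (f' := fun τ => deriv f (a + τ * (z - a)) * (z - a)) (δ := M * ((1 - t) / 2)) (K := 26400)
    (ε := 0) (fun τ hτ => (h5 τ hτ).continuousAt.continuousWithinAt)
    (fun τ hτ => (h5 τ (Set.Ico_subset_Icc_self hτ)).hasDerivWithinAt) (by simpa using h1)
    (fun τ hτ => by
      have e1 := h2 _ (h4 τ (Set.Ico_subset_Icc_self hτ))
      rw [norm_mul]
      nlinarith [mul_le_mul_of_nonneg_left h3 (norm_nonneg (deriv f (a + τ * (z - a))))])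
    1 (by simp)
  rw [gronwallBound_ε0] at h6
  simp only [ofReal_one, one_mul, add_sub_cancel, sub_zero, mul_one] at h6
  have h7 := h2 z le_rfl
  refine le_of_mul_le_mul_left ?_ (show 0 < (1 - t) / 2 by linarith)
  nlinarith

lemma egor (μ : Measure ℝ) [IsFiniteMeasure μ] (D : ℕ → ℕ → Set ℝ) (hD : ∀ i n, MeasurableSet (D i n))
    (hmono : ∀ i, Monotone (D i)) (h : ∀ n : ℕ → ℕ, μ (⋂ i, D i (n i)) = 0) :
    μ (⋂ i, ⋃ n, D i n) = 0 := by
  set A := ⋂ i, ⋃ n, D i n with hA0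
  have hA : MeasurableSet A := MeasurableSet.iInter fun i => MeasurableSet.iUnion (hD i)
  by_contra hA0
  obtain ⟨ε, hε, hε1⟩ := ENNReal.exists_pos_sum_of_countable' hA0 ℕ
  have h1 : ∀ i, ∃ n, μ (A \ D i n) < ε i := by
    intro i
    have h2 := tendsto_measure_iInter_atTop (μ := μ) (s := fun n => A \ D i n)
      (fun n => (hA.diff (hD i n)).nullMeasurableSet)
      (fun m n hmn => Set.diff_subset_diff_right (hmono i hmn)) ⟨0, measure_ne_top _ _⟩
    have h3 : ⋂ n, A \ D i n = ∅ := by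
      refine Set.eq_empty_iff_forall_notMem.mpr fun t ht => ?_
      obtain ⟨n, hn⟩ := Set.mem_iUnion.mp (Set.mem_iInter.mp (Set.mem_iInter.mp ht 0).1 i)
      exact (Set.mem_iInter.mp ht n).2 hn
    rw [h3, measure_empty] at h2
    exact (h2.eventually_lt_const (hε i)).exists
  choose n hn using h1
  have h3 : A ⊆ (⋂ i, D i (n i)) ∪ ⋃ i, A \ D i (n i) := by
    intro t ht
    by_contra h4
    simp only [Set.mem_union, not_or, Set.mem_iUnion, not_exists] at h4
    exact h4.1 (Set.mem_iInter.mpr fun i => by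
      by_contra h5
      exact h4.2 i ⟨ht, h5⟩)
  have h4 := (measure_mono (μ := μ) h3).trans (measure_union_le _ _)
  rw [h n, zero_add] at h4
  have h5 := h4.trans ((measure_iUnion_le _).trans (ENNReal.tsum_le_tsum fun i => (hn i).le))
  exact absurd hε1 (not_lt.mpr h5)

/-- Radial condition. -/
def Rd (u : ℂ → ℂ) (δ ε : ℝ) : Set ℂ :=
  ⋂ r ∈ {r : ℝ | 0 < r ∧ r < 1 ∧ 1 - δ < r}, sphere 0 1 ∩ (fun ζ => u (r * ζ)) ⁻¹' closedBall 0 ε

lemma cont_r (u : ℂ → ℂ) (hu : DifferentiableOn ℂ u (ball 0 1)) {r : ℝ} (h0 : 0 < r) (h1 : r < 1) :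
    DifferentiableOn ℂ (fun ζ => u (r * ζ)) (closedBall 0 1) := by
  refine hu.comp (by fun_prop) fun w hw => ?_
  have : ‖w‖ ≤ 1 := by simpa using hw
  simp only [mem_ball, dist_zero_right, norm_mul, norm_real, Real.norm_of_nonneg h0.le]
  nlinarith

lemma Rd_closed (u : ℂ → ℂ) (hu : DifferentiableOn ℂ u (ball 0 1)) (δ ε : ℝ) :
    IsClosed (Rd u δ ε) :=
  isClosed_biInter fun _ hr => ((cont_r u hu hr.1 hr.2.1).continuousOn.mono
    sphere_subset_closedBall).preimage_isClosed_of_isClosed isClosed_sphere isClosed_closedBall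

lemma priv1 (u : ℂ → ℂ) (hu : DifferentiableOn ℂ u (ball 0 1)) (F : Set ℂ) (hF : MeasurableSet F)
    (h0 : volume (circleMap 0 1 ⁻¹' F) ≠ 0) (M : ℝ) (hM : F ⊆ Cn u 2 M)
    (h : ∀ ε > 0, ∃ δ > 0, F ⊆ Rd u δ ε) : ∀ z, ‖z‖ < 1 → u z = 0 := by
  obtain ⟨H, hH, hH1⟩ := om_holo F hF
  obtain ⟨w0, hw0, hw1⟩ := om_big F hF h0
  have key : ∀ z : ℂ, ‖z‖ < 1 → 31 / 32 ≤ ‖z‖ → 1 / 2 ≤ (H z).re →
      ∃ ζ ∈ F, ‖ζ - z‖ < 32 * (1 - ‖z‖) := by
    intro z hz h2 h3
    by_contra h4
    have h5 : F ∩ ball z (32 * (1 - ‖z‖)) = ∅ := by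
      refine Set.eq_empty_iff_forall_notMem.mpr fun ζ hζ => h4 ?_
      exact ⟨ζ, hζ.1, by simpa [dist_eq_norm] using hζ.2⟩
    have h6 := om_far F hF hz h2
    rw [h5, Set.indicator_empty, ← hH1 z hz] at h6
    have h7 : circleAverage (fun _ : ℂ => (0 : ℝ)) 0 1 = 0 := circleAverage_const _ _ _
    rw [h7] at h6
    linarith
  obtain ⟨C, hC1, hC⟩ : ∃ C : ℝ, 1 ≤ C ∧ ∀ r : ℝ, 0 < r → r < 1 → ∀ z : ℂ, ‖z‖ < 1 →
      1 / 2 ≤ (H z).re → ‖u (r * z)‖ ≤ C := by
    obtain ⟨C, hC⟩ := (isCompact_closedBall (0 : ℂ) (31 / 32)).exists_bound_of_continuousOn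
      (hu.continuousOn.mono (closedBall_subset_ball (by norm_num)))
    refine ⟨max (max C M) 1, le_max_right _ _, fun r h1 h2 z hz h3 => le_max_of_le_left ?_⟩
    have e0 : ‖r * z‖ = r * ‖z‖ := by rw [norm_mul, norm_real, Real.norm_of_nonneg h1.le]
    have e1 := norm_nonneg z
    by_cases h4 : 31 / 32 ≤ ‖z‖
    · obtain ⟨ζ, e2, e3⟩ := key z hz h4 h3
      refine le_max_of_le_right (hM e2 _ (by rw [e0]; nlinarith) (by rw [e0]; nlinarith) ?_)
      have e4 := norm_add_le (ζ - z) (((1 - r : ℝ) : ℂ) * z)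
      rw [show ζ - z + ((1 - r : ℝ) : ℂ) * z = ζ - r * z by push_cast; ring, norm_mul, norm_real,
        Real.norm_of_nonneg (by linarith)] at e4
      rw [e0]
      nlinarith
    · exact le_max_of_le_left (hC _ (by
        simp only [mem_closedBall, dist_zero_right]; rw [e0]; nlinarith))
  have hop : ∀ r ≤ 1, IsOpen (ball (0 : ℂ) r ∩ H ⁻¹' {y | 1 / 2 < y.re}) := fun r hr =>
    (hH.continuousOn.mono (ball_subset_ball hr)).isOpen_inter_preimage isOpen_ball
      (isOpen_lt continuous_const continuous_re)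
  have main : ∀ z, ‖z‖ < 1 → 1 / 2 < (H z).re → u z = 0 := by
    intro z hz h1
    have h2 : ∀ A : ℝ, 0 ≤ A → ‖u z‖ * Real.exp (A * ((H z).re - 1 / 2)) ≤ C := by
      intro A hA
      obtain ⟨δ, hδ, hδ1⟩ := h (Real.exp (-A) / 2) (by positivity)
      have lim : Tendsto (fun q : ℝ => ‖u (q * z)‖ * Real.exp (A * ((H z).re - 1 / 2))) (𝓝[<] 1)
          (𝓝 (‖u z‖ * Real.exp (A * ((H z).re - 1 / 2)))) := by
        refine Tendsto.mul_const _ (Tendsto.norm (Tendsto.mono_left ?_ nhdsWithin_le_nhds))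
        have e1 : Tendsto (fun q : ℝ => (q : ℂ) * z) (𝓝 1) (𝓝 z) := by
          simpa using (continuous_ofReal.tendsto 1).mul_const z
        exact (hu.continuousOn.continuousAt (isOpen_ball.mem_nhds (by simpa using hz))).tendsto.comp e1
      refine le_of_tendsto lim ?_
      filter_upwards [Ioo_mem_nhdsLT (show max 0 (1 - δ) < 1 from max_lt one_pos (by linarith))]
        with q hq
      have hq0 : 0 < q := (le_max_left _ _).trans_lt hq.1
      have hq1 : 1 - δ < q := (le_max_right _ _).trans_lt hq.1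
      have hv := cont_r u hu hq0 hq.2
      obtain ⟨η, hη, hη1⟩ := Metric.uniformContinuousOn_iff.mp
        ((isCompact_closedBall (0 : ℂ) 1).uniformContinuousOn_of_continuous hv.continuousOn)
        (Real.exp (-A) / 2) (by positivity)
      have h3 : ∀ y : ℂ, ‖y‖ < 1 → max (31 / 32) (1 - η / 32) < ‖y‖ → 1 / 2 ≤ (H y).re →
          ‖u (q * y)‖ ≤ Real.exp (-A) := by
        intro y e1 e2 e3
        rw [max_lt_iff] at e2
        obtain ⟨ζ, e4, e5⟩ := key y e1 e2.1.le e3
        have e6 := Set.mem_iInter₂.mp (hδ1 e4) q ⟨hq0, hq.2, hq1⟩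
        have e7 := hη1 ζ (sphere_subset_closedBall e6.1) y (by simpa using e1.le)
          (by rw [dist_eq_norm]; linarith [e2.2])
        have e8 : ‖u (q * ζ)‖ ≤ Real.exp (-A) / 2 := by simpa using e6.2
        rw [dist_eq_norm, norm_sub_rev] at e7
        linarith [norm_sub_norm_le (u (q * y)) (u (q * ζ))]
      obtain ⟨r, hr1, hr2⟩ := exists_between (max_lt
        (show max (31 / 32) (1 - η / 32) < (1 : ℝ) from max_lt (by norm_num) (by linarith)) hz)
      rw [max_lt_iff] at hr1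
      have hcl : closure (ball (0 : ℂ) r ∩ H ⁻¹' {y | 1 / 2 < y.re}) ⊆
          closedBall (0 : ℂ) r ∩ H ⁻¹' {y | 1 / 2 ≤ y.re} := by
        refine closure_minimal (Set.inter_subset_inter ball_subset_closedBall
          fun y hy => (le_of_lt (show 1 / 2 < (H y).re from hy) : 1 / 2 ≤ (H y).re)) ?_
        exact (hH.continuousOn.mono (closedBall_subset_ball hr2)).preimage_isClosed_of_isClosed
          isClosed_closedBall (isClosed_le continuous_const continuous_re)
      have hn : ∀ y, ‖u (q * y) * cexp (A * (H y - 1 / 2))‖ =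
          ‖u (q * y)‖ * Real.exp (A * ((H y).re - 1 / 2)) := fun y => by
        rw [norm_mul, Complex.norm_exp]; simp
      rw [← hn]
      refine Complex.norm_le_of_forall_mem_frontier_norm_le
        (f := fun y => u (q * y) * cexp (A * (H y - 1 / 2)))
        (U := ball (0 : ℂ) r ∩ H ⁻¹' {y | 1 / 2 < y.re})
        (isBounded_ball.subset Set.inter_subset_left) ?_ (fun y hy => ?_)
        (subset_closure ⟨by simpa using hr1.2, h1⟩)
      · refine DifferentiableOn.diffContOnCl (DifferentiableOn.mono (t := ball 0 1) ?_ ?_)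
        · exact (hv.mono ball_subset_closedBall).mul ((hH.sub_const _).const_mul _).cexp
        · exact hcl.trans (Set.inter_subset_left.trans (closedBall_subset_ball hr2))
      · rw [(hop r hr2.le).frontier_eq] at hy
        obtain ⟨⟨e1, e2⟩, e3⟩ := And.intro (hcl hy.1) hy.2
        have e4 : ‖y‖ ≤ r := by simpa using e1
        have e5 : 1 / 2 ≤ (H y).re := e2
        rw [hn]
        by_cases e6 : ‖y‖ < r
        · have e7 : (H y).re = 1 / 2 :=
            le_antisymm (not_lt.mp fun e7 => e3 ⟨by simpa using e6, e7⟩) e5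
          rw [e7, sub_self, mul_zero, Real.exp_zero, mul_one]
          exact hC q hq0 hq.2 y (by linarith) e5
        · have e7 := h3 y (by linarith) (by linarith) e5
          have e8 : (H y).re ≤ 1 := by
            rw [hH1 y (by linarith)]
            linarith [om_add F hF (w := y) (by linarith), om_nonneg Fᶜ (w := y) (by linarith)]
          have e9 : Real.exp (A * ((H y).re - 1 / 2)) ≤ Real.exp A :=
            Real.exp_le_exp.mpr (by nlinarith)
          refine (mul_le_mul e7 e9 (by positivity) (by positivity)).trans ?_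
          rw [← Real.exp_add]; simpa using hC1
    by_contra h3
    have h4 := norm_pos_iff.mpr h3
    have h5 : 0 < (H z).re - 1 / 2 := by linarith
    have h6 := h2 (C / ‖u z‖ / ((H z).re - 1 / 2)) (by positivity)
    rw [div_mul_cancel₀ _ h5.ne'] at h6
    have h7 := Real.add_one_le_exp (C / ‖u z‖)
    have h8 := mul_le_mul_of_nonneg_left h7 h4.le
    rw [mul_add, mul_div_cancel₀ _ h4.ne'] at h8
    linarith
  intro z hz
  have h1 : u =ᶠ[𝓝 w0] 0 := by
    filter_upwards [(hop 1 le_rfl).mem_nhds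
      (show w0 ∈ ball (0 : ℂ) 1 ∩ H ⁻¹' {y | 1 / 2 < y.re} from
        ⟨by simpa using hw0, by show 1 / 2 < (H w0).re; rwa [hH1 w0 hw0]⟩)] with y hy
    exact main y (by simpa using hy.1) hy.2
  exact (hu.analyticOnNhd isOpen_ball).eqOn_zero_of_preconnected_of_eventuallyEq_zero
    (convex_ball 0 1).isPreconnected (by simpa using hw0) h1 (by simpa using hz)

/-- Uniqueness theorem: bounded in a Stolz angle and radial limit zero. -/
theorem privR (u : ℂ → ℂ) (hu : DifferentiableOn ℂ u (ball 0 1)) (h : ∃ z, ‖z‖ < 1 ∧ u z ≠ 0) :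
    ∀ᵐ t ∂(volume.restrict (Set.Ico 0 (2 * π))), ¬ ((∃ M, circleMap 0 1 t ∈ Cn u 2 M) ∧
      Tendsto (fun r : ℝ => u (r * circleMap 0 1 t)) (𝓝[<] 1) (𝓝 0)) := by
  let E : ℕ → ℕ → Set ℂ := fun i n => Rd u (1 / (n + 1)) (1 / (i + 1)) ∩ Cn u 2 n
  have hE : ∀ i n, MeasurableSet (E i n) := fun i n =>
    ((Rd_closed u hu _ _).inter (Cn_closed _ _ _)).measurableSet
  have hA0 := egor (volume.restrict (Set.Ico 0 (2 * π))) (fun i n => circleMap 0 1 ⁻¹' E i n)
    (fun i n => (continuous_circleMap 0 1).measurable (hE i n))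
    (fun i m n hmn t ht => ⟨Set.mem_iInter₂.mpr fun r hr => Set.mem_iInter₂.mp ht.1 r
      ⟨hr.1, hr.2.1, by linarith [Nat.one_div_le_one_div (α := ℝ) hmn, hr.2.2]⟩,
      fun z h1 h2 h3 => (ht.2 z h1 h2 h3).trans (by exact_mod_cast hmn)⟩)
    (fun n => by
      by_contra h1
      obtain ⟨z, hz, hz1⟩ := h
      refine hz1 (priv1 u hu (⋂ i, E i (n i)) (MeasurableSet.iInter fun i => hE _ _)
        (fun h2 => h1 ?_) (n 0) (fun ζ hζ => (Set.mem_iInter.mp hζ 0).2) (fun ε' hε' => ?_) z hz)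
      · rw [← Set.preimage_iInter]
        exact Measure.restrict_le_self.absolutelyContinuous h2
      · obtain ⟨i, hi⟩ := exists_nat_one_div_lt hε'
        exact ⟨1 / (n i + 1), by positivity, fun ζ hζ => Set.mem_iInter₂.mpr fun r hr =>
          ⟨(Set.mem_iInter₂.mp (Set.mem_iInter.mp hζ i).1 r hr).1,
            closedBall_subset_closedBall hi.le (Set.mem_iInter₂.mp (Set.mem_iInter.mp hζ i).1 r hr).2⟩⟩)
  filter_upwards [measure_eq_zero_iff_ae_notMem.mp hA0] with t ht ⟨⟨M, hM⟩, h1⟩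
  refine ht (Set.mem_iInter.mpr fun i => ?_)
  obtain ⟨l, hl, h2⟩ := mem_nhdsLT_iff_exists_Ioo_subset.mp
    (h1 (closedBall_mem_nhds 0 (show (0 : ℝ) < 1 / (i + 1) by positivity)))
  obtain ⟨n, hn⟩ := exists_nat_one_div_lt (show 0 < 1 - l by simpa using hl)
  obtain ⟨m, hm⟩ := exists_nat_ge M
  refine Set.mem_iUnion.mpr ⟨max n m, Set.mem_iInter₂.mpr fun r hr => ⟨by simp, h2 ⟨?_, hr.2.1⟩⟩,
    fun z h3 h4 h5 => (hM z h3 h4 h5).trans (hm.trans (by exact_mod_cast le_max_right n m))⟩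
  linarith [Nat.one_div_le_one_div (α := ℝ) (le_max_left n m), hr.2.2]

lemma bdd (g : ℂ → ℂ) (hg : DifferentiableOn ℂ g (ball 0 1)) (ζ : ℂ) (hζ : ‖ζ‖ = 1) (c : ℂ)
    (h : Tendsto (fun r : ℝ => g (r * ζ)) (𝓝[<] 1) (𝓝 c)) :
    ∃ M, ∀ r ∈ Set.Ico (0 : ℝ) 1, ‖g (r * ζ)‖ ≤ M := by
  obtain ⟨l, hl, h2⟩ := mem_nhdsLT_iff_exists_Ioo_subset.mp
    (h.norm.eventually_le_const (lt_add_one ‖c‖))
  obtain ⟨C, hC⟩ := (isCompact_closedBall (0 : ℂ) l).exists_bound_of_continuousOn
    (hg.continuousOn.mono (closedBall_subset_ball hl))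
  refine ⟨max C (‖c‖ + 1), fun r hr => ?_⟩
  by_cases h3 : l < r
  · exact le_max_of_le_right (h2 ⟨h3, hr.2⟩)
  · exact le_max_of_le_left (hC _ (by
      simp only [mem_closedBall, dist_zero_right]
      rw [norm_mul, hζ, mul_one, norm_real, Real.norm_of_nonneg hr.1]; linarith))

theorem main (f : ℂ → ℂ) (hf : DifferentiableOn ℂ f (ball 0 1)) (hi : Set.InjOn f (ball 0 1))
    (a b : ℂ) (h : ∃ z, ‖z‖ < 1 ∧ (a * z + b) * deriv f z - a ≠ 0) (hab : ∀ t, a * circleMap 0 1 t + b ≠ 0) :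
    ∀ᵐ t ∂(volume.restrict (Set.Ico 0 (2 * π))),
      ¬ Tendsto (fun r : ℝ => deriv f (r * circleMap 0 1 t)) (𝓝[<] 1)
        (𝓝 (a / (a * circleMap 0 1 t + b))) := by
  have hd := hf.deriv isOpen_ball
  filter_upwards [privR (fun z => (a * z + b) * deriv f z - a)
    ((DifferentiableOn.mul (by fun_prop) hd).sub_const a) h] with t ht h1
  obtain ⟨M, hM⟩ := bdd _ hd _ (by simp) _ h1
  refine ht ⟨⟨(‖a‖ + ‖b‖) * (400 * (M * Real.exp 26400)) + ‖a‖, fun z e1 _ e3 => ?_⟩, ?_⟩
  · refine (norm_sub_le _ _).trans (add_le_add ?_ le_rfl)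
    rw [norm_mul]
    refine mul_le_mul ((norm_add_le _ _).trans ?_) (cone f hf hi _ (by simp) M hM z e1 e3)
      (norm_nonneg _) (by positivity)
    rw [norm_mul]
    nlinarith [norm_nonneg a, norm_nonneg z]
  · have e1 : Tendsto (fun r : ℝ => a * ((r : ℂ) * circleMap 0 1 t) + b) (𝓝[<] 1)
        (𝓝 (a * circleMap 0 1 t + b)) := by
      have : Tendsto (fun q : ℝ => (q : ℂ) * circleMap 0 1 t) (𝓝 1) (𝓝 (circleMap 0 1 t)) := by
        simpa using (continuous_ofReal.tendsto 1).mul_const (circleMap 0 1 t)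
      exact ((this.const_mul a).add_const b).mono_left nhdsWithin_le_nhds
    have e2 := (e1.mul h1).sub_const a
    rwa [mul_div_cancel₀ _ (hab t), sub_self] at e2

end Pool.Agent.H2.NsD
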