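import Mathlib

/-! Tools for subspaces of C[0,1] with prescribed oscillation set: Hadamard blocks, plateau bumps. -/

namespace Pool.Agent.H2.Os

open Set Filter Topology Matrix Finset

noncomputable def L4 (a b : Fin 4) : ℝ := if a = b then -1/2 else 1/2

noncomputable def K (m : ℕ) : Matrix (Fin m → Fin 4) (Fin m → Fin 4) ℝ :=
  Matrix.of fun x y => ∏ i, L4 (x i) (y i)

lemma L4_sq (a c : Fin 4) : ∑ b, L4 a b * L4 b c = if a = c then 1 else 0 := by
  fin_cases a <;> fin_cases c <;> simp [L4, Fin.sum_univ_four] <;> norm_num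

lemma K_sq (m : ℕ) : K m * K m = 1 := by
  ext x z
  simp only [K, Matrix.mul_apply, Matrix.of_apply, ← Finset.prod_mul_distrib]
  have := Finset.prod_univ_sum (fun _ : Fin m => (Finset.univ : Finset (Fin 4)))
    (fun i b => L4 (x i) b * L4 b (z i))
  rw [Fintype.piFinset_univ] at this
  rw [← this]
  simp only [L4_sq, Matrix.one_apply]
  by_cases h : x = z
  · simp [h]
  · obtain ⟨i, hi⟩ := Function.ne_iff.1 h
    rw [if_neg h]
    exact Finset.prod_eq_zero (Finset.mem_univ i) (if_neg hi)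

lemma K_abs (m : ℕ) (x y : Fin m → Fin 4) : |K m x y| = (1/2) ^ m := by
  simp only [K, Matrix.of_apply, Finset.abs_prod]
  have : ∀ a b, |L4 a b| = 1/2 := by
    intro a b; unfold L4; split_ifs <;> norm_num [abs_of_pos, abs_of_neg]
  simp [this]

theorem notcomp {E : Type*} [NormedAddCommGroup E] [NormedSpace ℝ E] (X : Submodule ℝ E)
    (ev : ∀ m, (Fin m → Fin 4) → E →L[ℝ] ℝ) (hev : ∀ m i f, |ev m i f| ≤ ‖f‖)
    (b : ∀ m, (Fin m → Fin 4) → E) (C : ℝ)
    (hb : ∀ m (x : (Fin m → Fin 4) → ℝ) (r : ℝ), (∀ i, |x i| ≤ r) → ‖∑ i, x i • b m i‖ ≤ C * r)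
    (hbi : ∀ m i j, ev m i (b m j) = if i = j then 1 else 0)
    (hX : ∀ f ∈ X, ∀ m, K m *ᵥ (fun i => ev m i f) = fun i => ev m i f)
    (hX' : ∀ m x, K m *ᵥ x = x → ∑ i, x i • b m i ∈ X) :
    ¬ ∃ P : E →L[ℝ] E, (∀ f, P f ∈ X) ∧ ∀ f ∈ X, P f = f := by
  rintro ⟨P, hP, hP'⟩
  have key : ∀ m : ℕ, 1 - (1/2 : ℝ) ^ m ≤ 2 * (‖P‖ * (C * (1/2) ^ m)) := by
    intro m
    set Q : Matrix (Fin m → Fin 4) (Fin m → Fin 4) ℝ := Matrix.of fun i j => ev m i (P (b m j))
      with hQ
    have hQv : ∀ (x : (Fin m → Fin 4) → ℝ) i, (Q *ᵥ x) i = ev m i (P (∑ j, x j • b m j)) := by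
      intro x i
      simp [hQ, Matrix.mulVec, dotProduct, map_sum, mul_comm]
    have h1 : K m * Q = Q := by
      ext i j
      have := congrFun (hX _ (hP (b m j)) m) i
      simpa [Matrix.mulVec, dotProduct, Matrix.mul_apply, hQ] using this
    have h2 : Q * (1 + K m) = 1 + K m := by
      ext i j
      have hx : K m *ᵥ (fun l => (1 + K m) l j) = fun l => (1 + K m) l j := by
        have : K m * (1 + K m) = 1 + K m := by rw [mul_add, mul_one, K_sq, add_comm]
        funext l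
        have := congrFun (congrFun this l) j
        simpa [Matrix.mulVec, dotProduct, Matrix.mul_apply] using this
      have h3 := hQv (fun l => (1 + K m) l j) i
      rw [hP' _ (hX' m _ hx)] at h3
      simp only [map_sum, map_smul, hbi, smul_eq_mul, mul_ite, mul_one, mul_zero,
        Finset.sum_ite_eq, Finset.mem_univ, if_true] at h3
      rw [← h3]
      simp [Matrix.mulVec, dotProduct, Matrix.mul_apply]
    have t1 : (Q * K m).trace = Q.trace := by rw [Matrix.trace_mul_comm, h1]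
    have t2 : 2 * Q.trace = (Fintype.card (Fin m → Fin 4) : ℝ) + (K m).trace := by
      have := congrArg Matrix.trace h2
      rw [mul_add, mul_one, Matrix.trace_add, Matrix.trace_add, t1, Matrix.trace_one] at this
      linarith
    have t3 : -((Fintype.card (Fin m → Fin 4) : ℝ) * (1/2) ^ m) ≤ (K m).trace := by
      have : ∀ i ∈ (Finset.univ : Finset (Fin m → Fin 4)), -((1/2 : ℝ) ^ m) ≤ K m i i := by
        intro i _
        rw [← K_abs m i i]; exact neg_abs_le _
      have := Finset.sum_le_sum this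
      simpa [Matrix.trace] using this
    have t4 : (Q * K m).trace ≤
        (Fintype.card (Fin m → Fin 4) : ℝ) * (‖P‖ * (C * (1/2) ^ m)) := by
      have : ∀ j ∈ (Finset.univ : Finset (Fin m → Fin 4)),
          (Q * K m) j j ≤ ‖P‖ * (C * (1/2) ^ m) := by
        intro j _
        have h3 := hQv (fun l => K m l j) j
        have h4 : (Q * K m) j j = (Q *ᵥ fun l => K m l j) j := by
          simp [Matrix.mulVec, dotProduct, Matrix.mul_apply]
        rw [h4, h3]
        refine (le_abs_self _).trans ((hev _ _ _).trans ((P.le_opNorm _).trans ?_))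
        exact mul_le_mul_of_nonneg_left (hb m _ _ fun l => (K_abs m l j).le) (norm_nonneg _)
      have := Finset.sum_le_sum this
      simpa [Matrix.trace] using this
    have hN : (0 : ℝ) < Fintype.card (Fin m → Fin 4) := by exact_mod_cast Fintype.card_pos
    refine le_of_mul_le_mul_left ?_ hN
    nlinarith
  have lim : Tendsto (fun m : ℕ => (1/2 : ℝ) ^ m) atTop (𝓝 0) :=
    tendsto_pow_atTop_nhds_zero_of_lt_one (by norm_num) (by norm_num)
  have := le_of_tendsto_of_tendsto' (tendsto_const_nhds.sub lim)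
    (((lim.const_mul C).const_mul ‖P‖).const_mul 2) key
  norm_num at this

lemma clo {E κ : Type*} [NormedAddCommGroup E] [NormedSpace ℝ E] (φ : κ → E) (Q : Set E)
    (hQ : IsClosed Q) (h : ∀ (S : Finset κ) (c : κ → ℝ), (∀ i, i ∉ S → c i = 0) →
      (∑ i ∈ S, c i • φ i) ∈ Q) :
    ∀ f ∈ (Submodule.span ℝ (range φ)).topologicalClosure, f ∈ Q := by
  intro f hf
  refine closure_minimal (s := (Submodule.span ℝ (range φ) : Set E)) ?_ hQ hf
  intro g hg
  obtain ⟨c, rfl⟩ := Finsupp.mem_span_range_iff_exists_finsupp.1 hg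
  exact h c.support c fun i hi => by simpa using hi

/-- plateau bump -/
noncomputable def th (j : ℕ) (x : ℝ) : ℝ :=
  max 0 (min 1 (min (8 * (4 ^ j * x) - 1) (4 - 8 * (4 ^ j * x))))

lemma th_cont (j : ℕ) : Continuous (th j) := by unfold th; fun_prop

lemma th_nonneg (j : ℕ) (x : ℝ) : 0 ≤ th j x := le_max_left _ _

lemma th_le (j : ℕ) (x : ℝ) : th j x ≤ 1 := max_le zero_le_one (min_le_left _ _)

lemma th_one {j : ℕ} {x : ℝ} (h1 : 1/4 ≤ 4 ^ j * x) (h2 : 4 ^ j * x ≤ 3/8) : th j x = 1 := by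
  unfold th
  rw [min_eq_left (le_min (by linarith) (by linarith))]; simp

lemma th_pos {j : ℕ} {x : ℝ} (h : th j x ≠ 0) : 1/8 < 4 ^ j * x ∧ 4 ^ j * x < 1/2 := by
  have h' : 0 < th j x := lt_of_le_of_ne (th_nonneg j x) h.symm
  unfold th at h'
  simp only [lt_max_iff, lt_irrefl, false_or, lt_min_iff] at h'
  constructor <;> linarith [h'.2.1, h'.2.2]

lemma th_zero (j : ℕ) : th j 0 = 0 := by
  by_contra h
  have := (th_pos h).1
  norm_num at this

lemma th_disj {i j : ℕ} {x : ℝ} (hi : th i x ≠ 0) (hj : th j x ≠ 0) : i = j := by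
  have aux : ∀ i j : ℕ, th i x ≠ 0 → th j x ≠ 0 → ¬ i < j := by
    intro i j hi hj hij
    obtain ⟨a1, a2⟩ := th_pos hi
    obtain ⟨b1, b2⟩ := th_pos hj
    have hx : 0 < x := by
      by_contra hx
      have : (4 : ℝ) ^ i * x ≤ 0 := mul_nonpos_of_nonneg_of_nonpos (by positivity) (not_lt.1 hx)
      linarith
    have : (4 : ℝ) ^ (i + 1) ≤ 4 ^ j := pow_le_pow_right₀ (by norm_num) hij
    rw [pow_succ] at this
    nlinarith
  exact le_antisymm (not_lt.1 (aux j i hj hi)) (not_lt.1 (aux i j hi hj))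

lemma th_sum {κ : Type*} (e : κ → ℕ) (he : Function.Injective e) (x : ℝ) (S : Finset κ) :
    ∑ i ∈ S, th (e i) x ≤ 1 := by
  classical
  by_cases h : ∃ i ∈ S, th (e i) x ≠ 0
  · obtain ⟨i, hi, hi'⟩ := h
    rw [Finset.sum_eq_single i]
    · exact th_le _ _
    · intro j _ hj
      by_contra h'
      exact hj (he (th_disj h' hi'))
    · intro h'; exact absurd hi h'
  · push Not at h
    rw [Finset.sum_eq_zero h]; exact zero_le_one

lemma th_ev {x : ℝ} (hx : 0 < x) : ∃ J : ℕ, ∀ j ≥ J, ∀ y, x / 2 ≤ y → th j y = 0 := by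
  obtain ⟨J, hJ⟩ := pow_unbounded_of_one_lt (1 / x) (by norm_num : (1 : ℝ) < 4)
  refine ⟨J, fun j hj y hy => ?_⟩
  by_contra h
  have h2 := (th_pos h).2
  have : (4 : ℝ) ^ J ≤ 4 ^ j := pow_le_pow_right₀ (by norm_num) hj
  rw [div_lt_iff₀ hx] at hJ
  have h3 : (4 : ℝ) ^ j * (x / 2) ≤ 4 ^ j * y := mul_le_mul_of_nonneg_left hy (by positivity)
  nlinarith

lemma th_eq {T κ : Type*} [TopologicalSpace T] (e : κ → ℕ) (he : Function.Injective e)
    (ρ : T → ℝ) (hρ : Continuous ρ) {t : T} (ht : 0 < ρ t) {ε : ℝ} (hε : 0 < ε) :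
    ∀ᶠ s in 𝓝 t, ∀ S : Finset κ, ∑ i ∈ S, |th (e i) (ρ s) - th (e i) (ρ t)| ≤ ε := by
  classical
  obtain ⟨J, hJ⟩ := th_ev ht
  have c1 : Continuous fun s => ∑ j ∈ Finset.range J, |th j (ρ s) - th j (ρ t)| :=
    continuous_finset_sum _ fun j _ => (((th_cont j).comp hρ).sub continuous_const).abs
  have e1 : ∀ᶠ s in 𝓝 t, ∑ j ∈ Finset.range J, |th j (ρ s) - th j (ρ t)| < ε :=
    c1.continuousAt.eventually_lt continuousAt_const (by simpa using hε)
  have e2 : ∀ᶠ s in 𝓝 t, ρ t / 2 < ρ s :=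
    continuousAt_const.eventually_lt hρ.continuousAt (by linarith)
  filter_upwards [e1, e2] with s h1 h2 S
  refine le_trans ?_ h1.le
  rw [← Finset.sum_image (s := S) (g := e) (f := fun j => |th j (ρ s) - th j (ρ t)|)
    (fun a _ b _ h => he h)]
  rw [← Finset.sum_filter_ne_zero (S.image e)]
  refine Finset.sum_le_sum_of_subset_of_nonneg ?_ fun _ _ _ => abs_nonneg _
  intro j hj
  have hj := (Finset.mem_filter.1 hj).2
  by_contra hj'
  have hj2 : j ≥ J := by simpa using hj'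
  rw [hJ j hj2 _ h2.le, hJ j hj2 _ (by linarith)] at hj
  simp at hj

end Pool.Agent.H2.Os
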