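import Pool.Agent.H2.OsA

/-! The case of a set without interior. -/

namespace Pool.Agent.H2.Os

open Set Filter Topology Matrix Metric
open scoped unitInterval

def Good (M : Set I) (X : Submodule ℝ C(I, ℝ)) : Prop :=
  IsClosed (X : Set C(I, ℝ)) ∧
  (∀ t ∈ M, ∃ a > 0, ∃ C > 0, ∀ d > 0, ∃ f ∈ X, ‖f‖ ≤ C ∧ ∃ s : I, dist s t ≤ d ∧
    a ≤ |f s - f t|) ∧
  (∀ t ∉ M, ∀ ε > 0, ∀ᶠ s in 𝓝 t, ∀ f ∈ X, |f s - f t| ≤ ε * ‖f‖) ∧
  ¬ ∃ P : C(I, ℝ) →L[ℝ] C(I, ℝ), (∀ f, P f ∈ X) ∧ ∀ f ∈ X, P f = f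

lemma ex_dist (t : I) {r : ℝ} (h0 : 0 ≤ r) (h1 : r ≤ 1/2) : ∃ s : I, dist s t = r := by
  by_cases h : (t : ℝ) ≤ 1/2
  · refine ⟨⟨t + r, by linarith [t.2.1], by linarith⟩, ?_⟩
    rw [Subtype.dist_eq, Real.dist_eq]; simp [abs_of_nonneg h0]
  · refine ⟨⟨t - r, by linarith, by linarith [t.2.2]⟩, ?_⟩
    rw [Subtype.dist_eq, Real.dist_eq]; simp [abs_of_nonneg h0]

lemma dist_le_one (s t : I) : dist s t ≤ 1 := by
  rw [Subtype.dist_eq, Real.dist_eq, abs_le]
  constructor <;> linarith [s.2.1, s.2.2, t.2.1, t.2.2]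

lemma gam_eq {T : Type*} [TopologicalSpace T] (χ : T → ℝ) (hχ : Continuous χ)
    (hχ1 : ∀ s, |χ s| ≤ 1) (ρ : ℕ → T → ℝ) (hρ : ∀ k, Continuous (ρ k)) (w : ℕ → ℝ)
    (hw : ∀ k, |w k| ≤ (1/4) ^ k) {t : T} (ht : ∀ k, 0 < ρ k t) {ε : ℝ} (hε : 0 < ε) :
    ∀ᶠ s in 𝓝 t, ∀ S : Finset (ℕ × ℕ), ∑ p ∈ S,
      |w p.1 * (χ s * th p.2 (ρ p.1 s)) - w p.1 * (χ t * th p.2 (ρ p.1 t))| ≤ ε := by
  classical
  obtain ⟨K0, hK0⟩ := exists_pow_lt_of_lt_one (by positivity : 0 < ε / 8)
    (by norm_num : (1/2 : ℝ) < 1)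
  have e1 : ∀ᶠ s in 𝓝 t, ∀ k ∈ Finset.range K0, ∀ S : Finset ℕ,
      ∑ j ∈ S, |th j (ρ k s) - th j (ρ k t)| ≤ ε / 4 :=
    (eventually_all_finset _).2 fun k _ =>
      th_eq id Function.injective_id (ρ k) (hρ k) (ht k) (by positivity)
  have e2 : ∀ᶠ s in 𝓝 t, |χ s - χ t| < ε / 4 :=
    (hχ.sub continuous_const).abs.continuousAt.eventually_lt continuousAt_const
      (by simp; positivity)
  filter_upwards [e1, e2] with s h1 h2 S
  refine (Finset.sum_le_sum_of_subset_of_nonneg (Finset.subset_product (s := S))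
    fun _ _ _ => abs_nonneg _).trans ?_
  rw [Finset.sum_product]
  have inner : ∀ k ∈ S.image Prod.fst, ∑ j ∈ S.image Prod.snd,
      |w k * (χ s * th j (ρ k s)) - w k * (χ t * th j (ρ k t))| ≤ (1/2) ^ k * (ε / 2) := by
    intro k _
    set S2 := S.image Prod.snd
    have b1 : ∀ j ∈ S2, |w k * (χ s * th j (ρ k s)) - w k * (χ t * th j (ρ k t))| ≤
        (1/4) ^ k * (ε / 4 * th j (ρ k s) + |th j (ρ k s) - th j (ρ k t)|) := by
      intro j _
      rw [← mul_sub, abs_mul]
      refine mul_le_mul (hw k) ?_ (abs_nonneg _) (by positivity)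
      have : χ s * th j (ρ k s) - χ t * th j (ρ k t) =
        (χ s - χ t) * th j (ρ k s) + χ t * (th j (ρ k s) - th j (ρ k t)) := by ring
      rw [this]
      refine (abs_add_le _ _).trans (add_le_add ?_ ?_)
      · rw [abs_mul, abs_of_nonneg (th_nonneg _ _)]
        exact mul_le_mul_of_nonneg_right h2.le (th_nonneg _ _)
      · rw [abs_mul]
        exact mul_le_of_le_one_left (abs_nonneg _) (hχ1 t)
    refine (Finset.sum_le_sum b1).trans ?_
    rw [← Finset.mul_sum, Finset.sum_add_distrib, ← Finset.mul_sum]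
    have b2 := th_sum id Function.injective_id (ρ k s) S2
    have b3 := th_sum id Function.injective_id (ρ k t) S2
    simp only [id] at b2 b3
    have b4 : ∑ j ∈ S2, |th j (ρ k s) - th j (ρ k t)| ≤ 2 := by
      have : ∀ j ∈ S2, |th j (ρ k s) - th j (ρ k t)| ≤ th j (ρ k s) + th j (ρ k t) := by
        intro j _
        rw [abs_le]; constructor <;> linarith [th_nonneg j (ρ k s), th_nonneg j (ρ k t)]
      have := Finset.sum_le_sum this
      rw [Finset.sum_add_distrib] at this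
      linarith
    have b5 : (1/2 : ℝ) ^ k ≤ 1 := pow_le_one₀ (by norm_num) (by norm_num)
    have b0 : (0 : ℝ) ≤ (1/2 : ℝ) ^ k := by positivity
    have b6 : (1/2 : ℝ) ^ k * ∑ j ∈ S2, |th j (ρ k s) - th j (ρ k t)| ≤ ε / 4 := by
      by_cases hk : k < K0
      · exact (mul_le_of_le_one_left (Finset.sum_nonneg fun _ _ => abs_nonneg _) b5).trans
          (h1 k (Finset.mem_range.2 hk) S2)
      · have : (1/2 : ℝ) ^ k ≤ (1/2) ^ K0 :=
          pow_le_pow_of_le_one (by norm_num) (by norm_num) (not_lt.1 hk)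
        nlinarith
    have b7 : (1/4 : ℝ) ^ k = (1/2) ^ k * (1/2) ^ k := by rw [← mul_pow]; norm_num
    rw [b7, mul_assoc]
    refine mul_le_mul_of_nonneg_left ?_ b0
    have b8 : ε / 4 * ∑ j ∈ S2, th j (ρ k s) ≤ ε / 4 := mul_le_of_le_one_right (by positivity) b2
    have b9 : 0 ≤ ε / 4 * ∑ j ∈ S2, th j (ρ k s) :=
      mul_nonneg (by positivity) (Finset.sum_nonneg fun _ _ => th_nonneg _ _)
    nlinarith
  refine (Finset.sum_le_sum inner).trans ?_
  rw [← Finset.sum_mul]
  have : ∑ k ∈ S.image Prod.fst, (1/2 : ℝ) ^ k ≤ 2 :=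
    sum_le_hasSum _ (fun _ _ => by positivity) hasSum_geometric_two
  nlinarith

theorem caseA (M : Set I) (F : ℕ → Set I) (hF : ∀ k, IsClosed (F k)) (t0 : I)
    (ht0 : ∀ k, t0 ∈ F k) (hM : M = ⋃ k, F k) (hd : Dense Mᶜ) : ∃ X, Good M X := by
  classical
  have hFM : ∀ k, F k ⊆ M := fun k => hM ▸ subset_iUnion F k
  have ha : ∀ n : ℕ, ∃ s : I, s ∉ M ∧ 1/4 < 4 ^ n * dist s t0 ∧ 4 ^ n * dist s t0 < 3/8 := by
    intro n
    have hc : Continuous fun s : I => (4 : ℝ) ^ n * dist s t0 := by fun_prop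
    have ho : IsOpen {s : I | 1/4 < 4 ^ n * dist s t0 ∧ 4 ^ n * dist s t0 < 3/8} :=
      IsOpen.and (isOpen_lt continuous_const hc) (isOpen_lt hc continuous_const)
    have h4 : (1 : ℝ) ≤ 4 ^ n := one_le_pow₀ (by norm_num)
    obtain ⟨s, hs⟩ := ex_dist t0 (r := 5/16 / 4 ^ n) (by positivity)
      ((div_le_self (by norm_num) h4).trans (by norm_num))
    have : (4 : ℝ) ^ n * dist s t0 = 5/16 := by rw [hs]; field_simp
    obtain ⟨u, hu1, hu2⟩ := hd.inter_open_nonempty _ ho ⟨s, by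
      simp only [mem_setOf_eq, this]; norm_num⟩
    exact ⟨u, hu2, hu1⟩
  choose a haM ha1 ha2 using ha
  have hlim : Tendsto a atTop (𝓝 t0) := by
    rw [tendsto_iff_dist_tendsto_zero]
    refine squeeze_zero (fun _ => dist_nonneg) (g := fun n => (1/4 : ℝ) ^ n) (fun n => ?_)
      (tendsto_pow_atTop_nhds_zero_of_lt_one (by norm_num) (by norm_num))
    rw [one_div, inv_pow, ← one_div, le_div_iff₀ (by positivity)]
    linarith [ha2 n]
  set A : Set I := insert t0 (range a) with hA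
  have hAc : IsClosed A := hlim.isCompact_insert_range.isClosed
  set χ : I → ℝ := fun s => infDist s A with hχ
  have χc : Continuous χ := continuous_infDist_pt A
  have χ0 : ∀ s, 0 ≤ χ s := fun s => infDist_nonneg
  have χ1 : ∀ s, χ s ≤ 1 := fun s => (infDist_le_dist_of_mem (mem_insert _ _)).trans
    (dist_le_one _ _)
  have χa : ∀ n, χ (a n) = 0 := fun n => infDist_zero_of_mem (Or.inr ⟨n, rfl⟩)
  have χt : χ t0 = 0 := infDist_zero_of_mem (mem_insert _ _)
  set w : ℕ → ℝ := fun k => if k = 0 then 0 else (1/4) ^ k with hw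
  have w0 : ∀ k, 0 ≤ w k := fun k => by simp only [hw]; split_ifs <;> positivity
  have w1 : ∀ k, w k ≤ (1/4) ^ k := fun k => by
    simp only [hw]; split_ifs
    · positivity
    · exact le_rfl
  set ρ : ℕ → I → ℝ := fun k s => infDist s (F (k - 1)) with hρ
  have ρc : ∀ k, Continuous (ρ k) := fun k => continuous_infDist_pt _
  set pr : ℕ × ℕ → ℕ := fun p => Nat.pair p.1 p.2 with hpr
  have prinj : Function.Injective pr := fun p q h => Prod.ext (Nat.pair_eq_pair.1 h).1
    (Nat.pair_eq_pair.1 h).2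
  set φ : ℕ × ℕ → C(I, ℝ) := fun p =>
    ⟨fun s => th (pr p) (dist s t0) + w p.1 * (χ s * th p.2 (ρ p.1 s)),
      ((th_cont _).comp (by fun_prop)).add
        (continuous_const.mul (χc.mul ((th_cont _).comp (ρc _))))⟩ with hφ
  have φv : ∀ p s, φ p s = th (pr p) (dist s t0) + w p.1 * (χ s * th p.2 (ρ p.1 s)) :=
    fun p s => rfl
  have φa : ∀ p q, φ p (a (pr q)) = if q = p then 1 else 0 := by
    intro p q
    have h1 : th (pr q) (dist (a (pr q)) t0) = 1 := th_one (ha1 _).le (ha2 _).le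
    rw [φv, χa, zero_mul, mul_zero, add_zero]
    split_ifs with h
    · rw [← h, h1]
    · by_contra h'
      exact h (prinj (th_disj (h1 ▸ one_ne_zero) h'))
  have φn : ∀ p, ‖φ p‖ ≤ 2 := by
    intro p
    refine (ContinuousMap.norm_le _ (by norm_num)).2 fun s => ?_
    have h1 : w p.1 ≤ 1 := (w1 _).trans (pow_le_one₀ (by norm_num) (by norm_num))
    have h2 : χ s * th p.2 (ρ p.1 s) ≤ 1 := mul_le_one₀ (χ1 s) (th_nonneg _ _) (th_le _ _)
    have h3 : 0 ≤ χ s * th p.2 (ρ p.1 s) := mul_nonneg (χ0 s) (th_nonneg _ _)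
    have h4 := mul_le_one₀ h1 h3 h2
    have h5 := mul_nonneg (w0 p.1) h3
    rw [φv, Real.norm_eq_abs, abs_le]
    constructor <;> linarith [th_nonneg (pr p) (dist s t0), th_le (pr p) (dist s t0)]
  obtain ⟨e, he⟩ := exists_injective_nat (Σ m : ℕ, Fin m → Fin 4)
  set pt : ∀ m : ℕ, (Fin m → Fin 4) → I := fun m i => a (pr (0, e ⟨m, i⟩)) with hpt
  let Z : Submodule ℝ C(I, ℝ) :=
    { carrier := {f | ∀ m, K m *ᵥ (fun i => f (pt m i)) = fun i => f (pt m i)}
      add_mem' := by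
        intro f g hf hg m
        have : (fun i => (f + g) (pt m i)) = (fun i => f (pt m i)) + fun i => g (pt m i) := rfl
        rw [this, Matrix.mulVec_add, hf m, hg m]
      zero_mem' := by
        intro m
        exact Matrix.mulVec_zero _
      smul_mem' := by
        intro c f hf m
        have : (fun i => (c • f) (pt m i)) = c • (fun i => f (pt m i)) := rfl
        rw [this, Matrix.mulVec_smul, hf m] }
  have Zc : IsClosed (Z : Set C(I, ℝ)) := by
    have : (Z : Set C(I, ℝ)) =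
      ⋂ m, {f | K m *ᵥ (fun i => f (pt m i)) = fun i => f (pt m i)} := by
      ext f; simp [Z]
    rw [this]
    refine isClosed_iInter fun m => ?_
    have hc : Continuous fun f : C(I, ℝ) => fun i => f (pt m i) :=
      continuous_pi fun i => by fun_prop
    exact isClosed_eq (continuous_const.matrix_mulVec hc) hc
  set Y := (Submodule.span ℝ (range φ)).topologicalClosure with hY
  have φY : ∀ p, φ p ∈ Y := fun p => Submodule.le_topologicalClosure _
    (Submodule.subset_span ⟨p, rfl⟩)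
  have φX : ∀ k j, φ (k + 1, j) ∈ Y ⊓ Z := by
    intro k j
    refine ⟨φY _, fun m => ?_⟩
    have : (fun i => φ (k + 1, j) (pt m i)) = 0 := by
      funext i
      simp only [hpt, φa]
      simp
    rw [this, Matrix.mulVec_zero]
  refine ⟨Y ⊓ Z, (Submodule.isClosed_topologicalClosure _).inter Zc, ?_, ?_, ?_⟩
  · intro t ht
    by_cases htt : t = t0
    · subst htt
      refine ⟨1, one_pos, 2, two_pos, fun d hd' => ?_⟩
      have : Tendsto (fun j => a (pr (1, j))) atTop (𝓝 t) :=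
        hlim.comp (tendsto_atTop_mono (fun j => Nat.right_le_pair 1 j) tendsto_id)
      obtain ⟨j, hj⟩ := (this.eventually (closedBall_mem_nhds t hd')).exists
      refine ⟨φ (0 + 1, j), φX 0 j, φn _, _, hj, ?_⟩
      rw [φa, φv _ t, χt, dist_self, th_zero]
      simp
    · obtain ⟨k, hk⟩ : ∃ k, t ∈ F k := by simpa [hM] using ht
      have χp : 0 < χ t := by
        refine (hAc.notMem_iff_infDist_pos ⟨t0, mem_insert _ _⟩).1 ?_
        rintro (h | ⟨n, h⟩)
        · exact htt h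
        · exact haM n (h ▸ ht)
      have wp : 0 < w (k + 1) := by simp only [hw]; simp
      refine ⟨w (k + 1) * (χ t / 2), by positivity, 2, two_pos, fun d hd' => ?_⟩
      obtain ⟨s0, hs0, hs0'⟩ := hd.inter_open_nonempty (ball t (min d (χ t / 2))) isOpen_ball
        ⟨t, mem_ball_self (by positivity)⟩
      have ρp : 0 < ρ (k + 1) s0 :=
        ((hF k).notMem_iff_infDist_pos ⟨t0, ht0 k⟩).1 fun h => hs0' (hFM k h)
      have ρt : ρ (k + 1) t = 0 := infDist_zero_of_mem hk
      obtain ⟨J, hJ⟩ := th_ev (dist_pos.2 htt)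
      obtain ⟨J', hJ'⟩ := pow_unbounded_of_one_lt (1 / ρ (k + 1) s0) (by norm_num : (1 : ℝ) < 4)
      set j := max J J'
      have h4 : (4 : ℝ) ^ J' ≤ 4 ^ j := pow_le_pow_right₀ (by norm_num) (le_max_right _ _)
      have hl : (5/16 : ℝ) / 4 ^ j ∈ uIcc (ρ (k + 1) t) (ρ (k + 1) s0) := by
        rw [ρt, uIcc_of_le ρp.le]
        refine ⟨by positivity, ?_⟩
        rw [div_lt_iff₀ ρp] at hJ'
        rw [div_le_iff₀ (by positivity)]
        nlinarith
      obtain ⟨s, hs, hs'⟩ := intermediate_value_uIcc (ρc (k + 1)).continuousOn hl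
      have hst : dist s t ≤ dist s0 t := by
        rw [Subtype.dist_eq, Subtype.dist_eq, Real.dist_eq, Real.dist_eq]
        refine abs_sub_left_of_mem_uIcc ?_
        rcases mem_uIcc.1 hs with h | h
        · exact mem_uIcc.2 (Or.inl ⟨h.1, h.2⟩)
        · exact mem_uIcc.2 (Or.inr ⟨h.1, h.2⟩)
      have hs0d := mem_ball.1 hs0
      refine ⟨φ (k + 1, j), φX k j, φn _, s, hst.trans (hs0d.le.trans (min_le_left _ _)), ?_⟩
      have v1 : φ (k + 1, j) t = 0 := by
        rw [φv]
        simp only [ρt, th_zero]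
        rw [hJ _ ((le_max_left _ _).trans (Nat.right_le_pair _ _)) _
          (by linarith [dist_nonneg (x := t) (y := t0)])]
        simp
      have v2 : th j (ρ (k + 1) s) = 1 := by
        have : (4 : ℝ) ^ j * ρ (k + 1) s = 5/16 := by rw [hs']; field_simp
        exact th_one (by rw [this]; norm_num) (by rw [this]; norm_num)
      have v3 : χ t / 2 ≤ χ s := by
        have h1 : χ t ≤ χ s + dist t s := infDist_le_infDist_add_dist
        rw [dist_comm] at h1
        linarith [min_le_right d (χ t / 2)]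
      rw [v1, sub_zero, φv]
      simp only [v2, mul_one]
      refine le_trans ?_ (le_abs_self _)
      have := mul_le_mul_of_nonneg_left v3 wp.le
      linarith [th_nonneg (pr (k + 1, j)) (dist s t0)]
  · intro t ht ε hε
    have h1 := th_eq pr prinj (fun s => dist s t0) (by fun_prop) (t := t)
      (dist_pos.2 fun h => ht (h ▸ hFM 0 (ht0 0))) (half_pos hε)
    have h2 := gam_eq χ χc (fun s => abs_le.2 ⟨by linarith [χ0 s], χ1 s⟩) ρ ρc w
      (fun k => by rw [abs_of_nonneg (w0 k)]; exact w1 k) (t := t)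
      (fun k => ((hF _).notMem_iff_infDist_pos ⟨t0, ht0 _⟩).1 fun h => ht (hFM _ h))
      (half_pos hε)
    filter_upwards [h1, h2] with s h1 h2 f hf
    refine clo φ {f | |f s - f t| ≤ ε * ‖f‖} (isClosed_le (by fun_prop) (by fun_prop)) ?_ f hf.1
    intro S c hc
    set g := ∑ i ∈ S, c i • φ i with hg
    have gv : ∀ u, g u = ∑ i ∈ S, c i * φ i u := by
      intro u; simp [hg, ContinuousMap.sum_apply]
    have cb : ∀ i ∈ S, |c i| ≤ ‖g‖ := by
      intro i hi
      have : g (a (pr i)) = c i := by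
        rw [gv]; simp [φa, hi]
      rw [← this]; exact g.norm_coe_le_norm _
    show |g s - g t| ≤ ε * ‖g‖
    rw [gv s, gv t, ← Finset.sum_sub_distrib]
    refine (Finset.abs_sum_le_sum_abs _ _).trans ?_
    have : ∀ i ∈ S, |c i * φ i s - c i * φ i t| ≤ ‖g‖ *
        (|th (pr i) (dist s t0) - th (pr i) (dist t t0)| +
        |w i.1 * (χ s * th i.2 (ρ i.1 s)) - w i.1 * (χ t * th i.2 (ρ i.1 t))|) := by
      intro i hi
      rw [← mul_sub, abs_mul]
      refine mul_le_mul (cb i hi) ?_ (abs_nonneg _) (norm_nonneg _)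
      rw [φv, φv, add_sub_add_comm]
      exact abs_add_le _ _
    refine (Finset.sum_le_sum this).trans ?_
    rw [← Finset.mul_sum, Finset.sum_add_distrib, mul_comm]
    exact mul_le_mul_of_nonneg_right (by linarith [h1 S, h2 S]) (norm_nonneg _)
  · have bv : ∀ m (x : (Fin m → Fin 4) → ℝ) s,
        (∑ i, x i • φ (0, e ⟨m, i⟩)) s = ∑ i, x i * φ (0, e ⟨m, i⟩) s := by
      intro m x s; simp [ContinuousMap.sum_apply]
    refine notcomp (Y ⊓ Z) (fun m i => ContinuousMap.evalCLM ℝ (pt m i))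
      (fun m i f => f.norm_coe_le_norm _) (fun m i => φ (0, e ⟨m, i⟩)) 1 ?_ ?_
      (fun f hf m => hf.2 m) ?_
    · intro m x r hx
      have hr : 0 ≤ r := (abs_nonneg _).trans (hx default)
      refine (ContinuousMap.norm_le _ (by linarith)).2 fun s => ?_
      rw [bv, Real.norm_eq_abs]
      refine (Finset.abs_sum_le_sum_abs _ _).trans ?_
      have : ∀ i ∈ Finset.univ, |x i * φ (0, e ⟨m, i⟩) s| ≤
          r * th (pr (0, e ⟨m, i⟩)) (dist s t0) := by
        intro i _
        rw [φv, abs_mul]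
        simp only [hw, if_true, zero_mul, add_zero]
        rw [abs_of_nonneg (th_nonneg _ _)]
        exact mul_le_mul_of_nonneg_right (hx i) (th_nonneg _ _)
      refine (Finset.sum_le_sum this).trans ?_
      rw [← Finset.mul_sum, mul_comm]
      refine mul_le_mul_of_nonneg_right (th_sum (fun i => pr (0, e ⟨m, i⟩)) ?_ _ _) hr
      intro i j h
      have := he (Prod.ext_iff.1 (prinj h)).2
      simpa using this
    · intro m i j
      show φ _ (a _) = _
      rw [φa]
      simp [he.eq_iff]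
    · intro m x hx
      refine ⟨Submodule.sum_mem _ fun i _ => Submodule.smul_mem _ _ (φY _), fun m' => ?_⟩
      by_cases hm : m' = m
      · subst hm
        have : (fun l => (∑ i, x i • φ (0, e ⟨m', i⟩)) (pt m' l)) = x := by
          funext l
          rw [bv]
          simp [hpt, φa, he.eq_iff]
        rw [this, hx]
      · have : (fun l => (∑ i, x i • φ (0, e ⟨m, i⟩)) (pt m' l)) = 0 := by
          funext l
          rw [bv]
          simp [hpt, φa, he.eq_iff, hm]
        rw [this, Matrix.mulVec_zero]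

end Pool.Agent.H2.Os
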