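import Pool.Agent.H2.OsB

/-! The case of a set with interior: a copy of the space of summable sequences. -/

namespace Pool.Agent.H2.Os

open Set Filter Topology Metric
open scoped unitInterval

noncomputable def sg (b : Bool) : ℝ := if b then 1 else -1

lemma sg_sq (b : Bool) : sg b ^ 2 = 1 := by cases b <;> simp [sg]

lemma l1bound {T : Type*} [TopologicalSpace T] [CompactSpace T] (φ : ℕ → C(T, ℝ))
    (E : (ℕ → Bool) → T) (h : ∀ i u, φ i (E u) = sg (u i)) (S : Finset ℕ) (c : ℕ → ℝ) :
    ∑ i ∈ S, |c i| ≤ ‖∑ i ∈ S, c i • φ i‖ := by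
  classical
  have : (∑ i ∈ S, c i • φ i) (E fun i => decide (0 ≤ c i)) = ∑ i ∈ S, |c i| := by
    simp only [ContinuousMap.sum_apply, ContinuousMap.smul_apply, h, smul_eq_mul]
    refine Finset.sum_congr rfl fun i _ => ?_
    by_cases hc : 0 ≤ c i
    · simp [sg, hc, abs_of_nonneg hc]
    · simp [sg, hc, abs_of_neg (not_le.1 hc)]
  rw [← this]
  exact (le_abs_self _).trans ((∑ i ∈ S, c i • φ i).norm_coe_le_norm _)

theorem notcomp1 {T : Type*} [TopologicalSpace T] [CompactSpace T] (φ : ℕ → C(T, ℝ))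
    (E : (ℕ → Bool) → T) (h : ∀ i u, φ i (E u) = sg (u i)) (hn : ∀ i, ‖φ i‖ ≤ 2) :
    ¬ ∃ P : C(T, ℝ) →L[ℝ] C(T, ℝ),
      (∀ f, P f ∈ (Submodule.span ℝ (range φ)).topologicalClosure) ∧
      ∀ f ∈ (Submodule.span ℝ (range φ)).topologicalClosure, P f = f := by
  classical
  rintro ⟨P, hP, hP'⟩
  set c : ℕ → C(T, ℝ) →L[ℝ] ℝ := fun j => (1/2 : ℝ) • (ContinuousMap.evalCLM ℝ (E fun _ => true) -
    ContinuousMap.evalCLM ℝ (E (Function.update (fun _ => true) j false))) with hc
  have cφ : ∀ j i, c j (φ i) = if i = j then 1 else 0 := by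
    intro j i
    show (1/2 : ℝ) * (φ i _ - φ i _) = _
    rw [h, h]
    by_cases hij : i = j
    · subst hij; simp [sg]; norm_num
    · simp [sg, hij]
  have key : ∀ p : ℕ, 0 < p → (p : ℝ) ≤ ‖P‖ * Real.exp 2 := by
    intro p hp
    have hp' : (0 : ℝ) < p := by exact_mod_cast hp
    set m := p ^ 2 with hm
    have b1 : ∀ ε : Fin m → Bool, ∀ f ∈ (Submodule.span ℝ (range φ)).topologicalClosure,
        ∑ j : Fin m, sg (ε j) * c j f ≤ ‖f‖ := by
      intro ε
      refine clo φ {f | ∑ j : Fin m, sg (ε j) * c j f ≤ ‖f‖}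
        (isClosed_le (by fun_prop) (by fun_prop)) ?_
      intro S x hx
      refine le_trans ?_ (l1bound φ E h S x)
      have e1 : ∀ j : ℕ, c j (∑ i ∈ S, x i • φ i) = x j := by
        intro j
        simp only [map_sum, map_smul, cφ, smul_eq_mul, mul_ite, mul_one, mul_zero,
          Finset.sum_ite_eq']
        split_ifs with hj
        · rfl
        · exact (hx j hj).symm
      simp only [e1]
      have e2 : ∀ j ∈ (Finset.univ : Finset (Fin m)), sg (ε j) * x j ≤ |x j| := by
        intro j _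
        cases ε j
        · simpa [sg] using neg_le_abs _
        · simpa [sg] using le_abs_self _
      refine (Finset.sum_le_sum e2).trans ?_
      rw [Fin.sum_univ_eq_sum_range (fun j => |x j|) m, ← Finset.sum_filter_ne_zero (Finset.range m)]
      refine Finset.sum_le_sum_of_subset_of_nonneg ?_ fun _ _ _ => abs_nonneg _
      intro j hj
      by_contra hj'
      exact (Finset.mem_filter.1 hj).2 (by rw [hx j hj', abs_zero])
    set g : (Fin m → Bool) → C(T, ℝ) := fun ε =>
      ⟨fun s => (∏ l : Fin m, (1 + Complex.I * ((sg (ε l) * (φ l s / p) : ℝ) : ℂ))).im,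
        by fun_prop⟩ with hg
    have gn : ∀ ε, ‖g ε‖ ≤ Real.exp 2 := by
      intro ε
      refine (ContinuousMap.norm_le _ (by positivity)).2 fun s => ?_
      refine (Complex.abs_im_le_norm _).trans ?_
      rw [norm_prod]
      have : ∀ l ∈ (Finset.univ : Finset (Fin m)),
          ‖(1 + Complex.I * ((sg (ε l) * (φ l s / p) : ℝ) : ℂ))‖ ≤ Real.exp (2 / p ^ 2) := by
        intro l _
        set y := sg (ε l) * (φ l s / p) with hy
        have hy2 : y ^ 2 ≤ 4 / p ^ 2 := by
          rw [hy, mul_pow, sg_sq, one_mul, div_pow]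
          refine div_le_div_of_nonneg_right ?_ (by positivity)
          have := ((φ l).norm_coe_le_norm s).trans (hn l)
          rw [Real.norm_eq_abs, abs_le] at this
          nlinarith
        refine le_trans ?_ (Real.add_one_le_exp _)
        refine abs_le_of_sq_le_sq' ?_ (by positivity) |>.2
        rw [Complex.sq_norm, Complex.normSq_apply]
        simp only [Complex.add_re, Complex.one_re, Complex.mul_re, Complex.I_re, Complex.I_im,
          Complex.ofReal_re, Complex.ofReal_im, Complex.add_im, Complex.one_im, Complex.mul_im]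
        have h0 : (4 : ℝ) / p ^ 2 = 2 * (2 / p ^ 2) := by ring
        nlinarith [sq_nonneg (2 / (p : ℝ) ^ 2)]
      refine (Finset.prod_le_prod (fun _ _ => norm_nonneg _) this).trans ?_
      rw [Finset.prod_const, Finset.card_univ, Fintype.card_fin, ← Real.exp_nat_mul, hm]
      apply le_of_eq
      congr 1
      push_cast
      field_simp
    have av : ∀ j : Fin m, ∑ ε : Fin m → Bool, sg (ε j) • g ε = ((2 : ℝ) ^ m / p) • φ j := by
      intro j
      ext s
      simp only [ContinuousMap.sum_apply, ContinuousMap.smul_apply, smul_eq_mul, hg,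
        ContinuousMap.coe_mk]
      have e1 := Finset.prod_univ_sum (fun _ : Fin m => (Finset.univ : Finset Bool))
        (fun l b => (if l = j then ((sg b : ℝ) : ℂ) else 1) *
          (1 + Complex.I * ((sg b * (φ l s / p) : ℝ) : ℂ)))
      rw [Fintype.piFinset_univ] at e1
      simp only [Finset.prod_mul_distrib, Finset.prod_ite_eq', Finset.mem_univ, if_true] at e1
      have e2 : ∀ l : Fin m, ∑ b : Bool, (if l = j then ((sg b : ℝ) : ℂ) else 1) *
          (1 + Complex.I * ((sg b * (φ l s / p) : ℝ) : ℂ)) =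
          2 * (if l = j then Complex.I * ((φ l s / p : ℝ) : ℂ) else 1) := by
        intro l
        split_ifs <;> simp [sg] <;> ring
      simp only [e2, Finset.prod_mul_distrib, Finset.prod_ite_eq', Finset.mem_univ, if_true,
        Finset.prod_const, Finset.card_univ, Fintype.card_fin] at e1
      have e3 := congrArg Complex.im e1
      rw [Complex.im_sum] at e3
      simp only [Complex.im_ofReal_mul] at e3
      rw [← e3]
      have : (2 : ℂ) ^ m = (((2 : ℝ) ^ m : ℝ) : ℂ) := by push_cast; rfl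
      rw [this, Complex.im_ofReal_mul]
      simp only [Complex.mul_im, Complex.I_re, Complex.I_im, Complex.ofReal_re, Complex.ofReal_im]
      ring
    have s1 : ∑ ε : Fin m → Bool, ∑ j : Fin m, sg (ε j) * c j (P (g ε)) ≤
        ∑ _ε : Fin m → Bool, ‖P‖ * Real.exp 2 :=
      Finset.sum_le_sum fun ε _ => (b1 ε _ (hP _)).trans ((P.le_opNorm _).trans
        (mul_le_mul_of_nonneg_left (gn ε) (norm_nonneg _)))
    rw [Finset.sum_comm] at s1
    have s2 : ∀ j : Fin m, ∑ ε : Fin m → Bool, sg (ε j) * c j (P (g ε)) = (2 : ℝ) ^ m / p := by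
      intro j
      have := congrArg (fun f => c j (P f)) (av j)
      simp only [map_sum, map_smul, smul_eq_mul] at this
      rw [this, hP' _ (Submodule.le_topologicalClosure _ (Submodule.subset_span ⟨j, rfl⟩)), cφ]
      simp
    simp only [s2, Finset.sum_const, Finset.card_univ, Fintype.card_fin, Fintype.card_fun,
      Fintype.card_bool, nsmul_eq_mul] at s1
    have s3 : ((m : ℕ) : ℝ) * ((2 : ℝ) ^ m / p) = 2 ^ m * p := by
      rw [hm]; push_cast; field_simp
    rw [s3] at s1
    push_cast at s1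
    exact le_of_mul_le_mul_left s1 (by positivity)
  obtain ⟨p, hp⟩ := exists_nat_gt (‖P‖ * Real.exp 2)
  have := key (p + 1) (Nat.succ_pos p)
  push_cast at this
  linarith

noncomputable def G (F : Set I) (q : ℚ) (n : ℕ) (s : I) : ℝ :=
  max 0 (1 - (n + 1) * (|(s : ℝ) - q| + infDist s F))

lemma G_cont (F : Set I) (q : ℚ) (n : ℕ) : Continuous (G F q n) := by
  have := continuous_infDist_pt F
  unfold G; fun_prop

lemma G_nonneg (F : Set I) (q : ℚ) (n : ℕ) (s : I) : 0 ≤ G F q n s := le_max_left _ _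

lemma G_le (F : Set I) (q : ℚ) (n : ℕ) (s : I) : G F q n s ≤ 1 := by
  have : 0 ≤ ((n : ℝ) + 1) * (|(s : ℝ) - q| + infDist s F) :=
    mul_nonneg (by positivity) (add_nonneg (abs_nonneg _) infDist_nonneg)
  exact max_le zero_le_one (by linarith)

lemma G_eq (F : Set I) {t : I} (ht : 0 < infDist t F) {ε : ℝ} (hε : 0 < ε) :
    ∀ᶠ s in 𝓝 t, ∀ q n, |G F q n s - G F q n t| ≤ ε := by
  set δ := infDist t F
  filter_upwards [ball_mem_nhds t (by positivity : 0 < min (δ / 2) (ε * δ / 4))] with s hs q n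
  have h1 : dist s t < δ / 2 := (mem_ball.1 hs).trans_le (min_le_left _ _)
  have h2 : dist s t < ε * δ / 4 := (mem_ball.1 hs).trans_le (min_le_right _ _)
  have h3 : δ ≤ infDist s F + dist s t := by
    rw [dist_comm]; exact infDist_le_infDist_add_dist
  have h4 : infDist s F ≤ δ + dist s t := infDist_le_infDist_add_dist
  have hn : (0 : ℝ) < n + 1 := by positivity
  by_cases h : 1 ≤ ((n : ℝ) + 1) * (δ / 2)
  · have a1 : G F q n s = 0 := max_eq_left (by nlinarith [abs_nonneg ((s : ℝ) - q)])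
    have a2 : G F q n t = 0 := max_eq_left (by nlinarith [abs_nonneg ((t : ℝ) - q)])
    rw [a1, a2]; simpa using hε.le
  · push Not at h
    unfold G
    rw [max_comm, max_comm 0]
    refine (abs_max_sub_max_le_abs _ _ _).trans ?_
    have h5 := abs_abs_sub_abs_le_abs_sub ((s : ℝ) - q) ((t : ℝ) - q)
    have h7 : |(s : ℝ) - t| = dist s t := rfl
    rw [sub_sub_sub_cancel_right, h7, abs_le] at h5
    have h6 : ((n : ℝ) + 1) * (2 * dist s t) ≤ ε := by nlinarith
    rw [abs_le]
    constructor <;> nlinarith [h5.1, h5.2]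

theorem caseB (M : Set I) (F : ℕ → Set I) (hF : ∀ k, IsClosed (F k))
    (hne : ∀ k, (F k).Nonempty) (hM : M = ⋃ k, F k) (x0 : I) (η : ℝ) (hη : 0 < η)
    (hb : ball x0 (3 * η) ⊆ M) : ∃ X, Good M X := by
  classical
  have hFM : ∀ k, F k ⊆ M := fun k => hM ▸ subset_iUnion F k
  obtain ⟨x1, hx1⟩ := ex_dist x0 (r := min η (1/2)) (by positivity) (min_le_right _ _)
  have hper : Perfect (uIcc x0 x1) := by
    refine ⟨isCompact_uIcc.isClosed, isPreconnected_uIcc.preperfect_of_nontrivial
      ⟨x0, left_mem_uIcc, x1, right_mem_uIcc, fun h => ?_⟩⟩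
    rw [← h, dist_self] at hx1
    have : 0 < min η (1/2) := by positivity
    linarith
  obtain ⟨E, hE1, hE2, hE3⟩ := hper.exists_nat_bool_injection ⟨x0, left_mem_uIcc⟩
  have hEd : ∀ u, dist (E u) x0 ≤ η := by
    intro u
    refine le_trans ?_ (hx1.le.trans (min_le_left _ _))
    rw [Subtype.dist_eq, Subtype.dist_eq, Real.dist_eq, Real.dist_eq]
    refine abs_sub_left_of_mem_uIcc ?_
    rcases mem_uIcc.1 (hE1 ⟨u, rfl⟩) with h | h
    · exact mem_uIcc.2 (Or.inl ⟨h.1, h.2⟩)
    · exact mem_uIcc.2 (Or.inr ⟨h.1, h.2⟩)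
  have hr : ∀ i : ℕ, ∃ r : C(I, ℝ), (∀ y, r y ∈ Icc (-1 : ℝ) 1) ∧ ∀ u, r (E u) = sg (u i) := by
    intro i
    obtain ⟨r, h1, h2⟩ := ContinuousMap.exists_extension_forall_mem_of_isClosedEmbedding
      (⟨fun u : ℕ → Bool => sg (u i),
        (continuous_of_discreteTopology (f := sg)).comp (continuous_apply i)⟩ : C(ℕ → Bool, ℝ))
      (t := Icc (-1 : ℝ) 1) (fun u => by
        show sg (u i) ∈ _
        cases u i <;> simp [sg]) ⟨0, by simp⟩ (hE2.isClosedEmbedding hE3)
    exact ⟨r, h1, fun u => congrFun h2 u⟩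
  choose r hr1 hr2 using hr
  have hKc : IsClosed (range E) := (isCompact_range hE2).isClosed
  set χ : I → ℝ := fun s => infDist s (range E) with hχ
  have χc : Continuous χ := continuous_infDist_pt _
  have χ0 : ∀ s, 0 ≤ χ s := fun s => infDist_nonneg
  have χ1 : ∀ s, χ s ≤ 1 := fun s => (infDist_le_dist_of_mem (mem_range_self (f := E) default)).trans
    (dist_le_one _ _)
  have χE : ∀ u, χ (E u) = 0 := fun u => infDist_zero_of_mem ⟨u, rfl⟩
  obtain ⟨ν, hν⟩ := exists_surjective_nat (ℕ × ℚ × ℕ)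
  set cut : ℕ → I → ℝ := fun n s => max 0 (1 - (n + 1) * χ s / η) with hcut
  have cut0 : ∀ n s, η ≤ ((n : ℕ) + 1 : ℝ) * χ s → cut n s = 0 := by
    intro n s h
    refine max_eq_left ?_
    rw [sub_nonpos, le_div_iff₀ hη]; linarith
  set φ : ℕ → C(I, ℝ) := fun i =>
    ⟨fun s => r i s * cut (ν i).2.2 s +
      χ s * ((1/2) ^ (ν i).1 * G (F (ν i).1) (ν i).2.1 (ν i).2.2 s),
      ((r i).continuous.mul (by simp only [hcut]; fun_prop)).add
        (χc.mul (continuous_const.mul (G_cont _ _ _)))⟩ with hφ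
  have φv : ∀ i s, φ i s = r i s * cut (ν i).2.2 s +
      χ s * ((1/2) ^ (ν i).1 * G (F (ν i).1) (ν i).2.1 (ν i).2.2 s) := fun i s => rfl
  have φE : ∀ i u, φ i (E u) = sg (u i) := by
    intro i u
    rw [φv, hr2]
    simp [hcut, χE]
  have hp1 : ∀ k : ℕ, (1/2 : ℝ) ^ k ≤ 1 := fun k => pow_le_one₀ (by norm_num) (by norm_num)
  have φn : ∀ i, ‖φ i‖ ≤ 2 := by
    intro i
    refine (ContinuousMap.norm_le _ (by norm_num)).2 fun s => ?_
    rw [φv]
    refine (norm_add_le _ _).trans ?_
    have h1 : ‖r i s * cut (ν i).2.2 s‖ ≤ 1 := by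
      rw [norm_mul]
      refine mul_le_one₀ (abs_le.2 (hr1 i s)) (norm_nonneg _) ?_
      rw [Real.norm_of_nonneg (le_max_left _ _)]
      have : 0 ≤ (((ν i).2.2 : ℝ) + 1) * χ s / η := by have := χ0 s; positivity
      exact max_le zero_le_one (by linarith)
    have h2 : ‖χ s * ((1/2) ^ (ν i).1 * G (F (ν i).1) (ν i).2.1 (ν i).2.2 s)‖ ≤ 1 := by
      have h3 : 0 ≤ (1/2) ^ (ν i).1 * G (F (ν i).1) (ν i).2.1 (ν i).2.2 s :=
        mul_nonneg (by positivity) (G_nonneg _ _ _ _)
      rw [Real.norm_of_nonneg (mul_nonneg (χ0 s) h3)]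
      exact mul_le_one₀ (χ1 s) h3 (mul_le_one₀ (hp1 _) (G_nonneg _ _ _ _) (G_le _ _ _ _))
    linarith
  have φY : ∀ p, φ p ∈ (Submodule.span ℝ (range φ)).topologicalClosure :=
    fun p => Submodule.le_topologicalClosure _ (Submodule.subset_span ⟨p, rfl⟩)
  refine ⟨(Submodule.span ℝ (range φ)).topologicalClosure,
    Submodule.isClosed_topologicalClosure _, ?_, ?_, notcomp1 φ E φE φn⟩
  · intro t ht
    by_cases htK : t ∈ range E
    · obtain ⟨u, rfl⟩ := htK
      refine ⟨2, two_pos, 2, two_pos, fun d hd => ?_⟩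
      have : Tendsto (fun i => Function.update u i (!u i)) atTop (𝓝 u) := by
        refine tendsto_pi_nhds.2 fun j => tendsto_const_nhds.congr' ?_
        filter_upwards [eventually_gt_atTop j] with i hi
        rw [Function.update_of_ne hi.ne]
      obtain ⟨i, hi⟩ := (((hE2.tendsto u).comp this).eventually
        (closedBall_mem_nhds _ hd)).exists
      refine ⟨φ i, φY i, φn i, _, hi, ?_⟩
      simp only [Function.comp, φE, Function.update_self]
      cases u i <;> simp [sg] <;> norm_num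
    · obtain ⟨k, hk⟩ : ∃ k, t ∈ F k := by simpa [hM] using ht
      have χp : 0 < χ t := (hKc.notMem_iff_infDist_pos ⟨_, default, rfl⟩).1 htK
      refine ⟨χ t * ((1/2) ^ k * (1/2)), by positivity, 2, two_pos, fun d hd => ?_⟩
      obtain ⟨n, hn⟩ := exists_nat_gt (max (max (2 * η / χ t) (2 / d)) (max 4 (4 / χ t)))
      simp only [max_lt_iff] at hn
      obtain ⟨⟨n1, n2⟩, n3, n4⟩ := hn
      rw [div_lt_iff₀ χp] at n1 n4
      rw [div_lt_iff₀ hd] at n2
      have hn0 : (0 : ℝ) < n + 1 := by positivity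
      obtain ⟨q, hq1, hq2⟩ := exists_rat_btwn
        (lt_add_of_pos_right (t : ℝ) (by positivity : (0 : ℝ) < 1 / 2 / (n + 1)))
      have hq : ((n : ℝ) + 1) * |(t : ℝ) - q| < 1/2 := by
        rw [abs_of_neg (by linarith), mul_comm, ← lt_div_iff₀ hn0]; linarith
      obtain ⟨i, hi⟩ := hν (k, q, n)
      obtain ⟨s, hs⟩ := ex_dist t (r := 2 / (n + 1)) (by positivity)
        (by rw [div_le_iff₀ hn0]; linarith)
      have hs' : ((n : ℝ) + 1) * dist s t = 2 := by rw [hs]; field_simp
      refine ⟨φ i, φY i, φn i, s, by rw [hs, div_le_iff₀ hn0]; nlinarith, ?_⟩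
      have h1 : χ t ≤ χ s + dist t s := infDist_le_infDist_add_dist
      rw [dist_comm] at h1
      have v1 : φ i s = 0 := by
        rw [φv, hi]
        have a1 : cut n s = 0 := cut0 n s (by nlinarith)
        have a2 : G (F k) q n s = 0 := by
          refine max_eq_left ?_
          have b1 : dist s t ≤ |(s : ℝ) - q| + |(t : ℝ) - q| := by
            rw [Subtype.dist_eq, Real.dist_eq, abs_sub_comm (t : ℝ)]
            exact abs_sub_le _ _ _
          have b2 : 0 ≤ infDist s (F k) := infDist_nonneg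
          nlinarith
        simp [a1, a2]
      have v2 : χ t * ((1/2) ^ k * (1/2)) ≤ φ i t := by
        rw [φv, hi]
        have a1 : cut n t = 0 := cut0 n t (by nlinarith)
        have a2 : 1/2 ≤ G (F k) q n t := by
          refine le_max_of_le_right ?_
          rw [infDist_zero_of_mem hk, add_zero]; linarith
        simp only [a1, mul_zero, zero_add]
        gcongr
      rw [v1, zero_sub, abs_neg]
      exact v2.trans (le_abs_self _)
  · intro t ht ε hε
    obtain ⟨K0, hK0⟩ := exists_pow_lt_of_lt_one (half_pos hε) (by norm_num : (1/2 : ℝ) < 1)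
    have e1 : ∀ᶠ s in 𝓝 t, ∀ k ∈ Finset.range K0, ∀ q n,
        |G (F k) q n s - G (F k) q n t| ≤ ε / 2 :=
      (eventually_all_finset _).2 fun k _ => G_eq _
        (((hF k).notMem_iff_infDist_pos (hne k)).1 fun h => ht (hFM k h)) (half_pos hε)
    have e2 : ∀ᶠ s in 𝓝 t, |χ s - χ t| < ε / 2 :=
      (χc.sub continuous_const).abs.continuousAt.eventually_lt continuousAt_const
        (by show |χ t - χ t| < ε / 2; simpa using hε)
    have htx : 3 * η ≤ dist t x0 := not_lt.1 fun h => ht (hb h)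
    have cz : ∀ s, dist s t < η → ∀ n, cut n s = 0 := by
      intro s hs n
      refine cut0 n s ?_
      have : η ≤ χ s := by
        refine (le_infDist (range_nonempty E)).2 ?_
        rintro _ ⟨u, rfl⟩
        have := dist_triangle4 t s (E u) x0
        rw [dist_comm t s] at this
        linarith [hEd u]
      nlinarith [Nat.cast_nonneg (α := ℝ) n]
    filter_upwards [e1, e2, ball_mem_nhds t hη] with s h1 h2 h3
    have hi : ∀ i, |φ i s - φ i t| ≤ ε := by
      intro i
      rw [φv, φv, cz s h3, cz t (by simpa using hη)]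
      obtain ⟨k, q, n⟩ := ν i
      simp only [mul_zero, zero_add]
      have : χ s * ((1/2) ^ k * G (F k) q n s) - χ t * ((1/2) ^ k * G (F k) q n t) =
        (χ s - χ t) * ((1/2) ^ k * G (F k) q n s) +
          χ t * ((1/2) ^ k * (G (F k) q n s - G (F k) q n t)) := by ring
      rw [this]
      refine (abs_add_le _ _).trans ?_
      have h0 : (0 : ℝ) ≤ (1/2) ^ k := by positivity
      have a1 : |(χ s - χ t) * ((1/2) ^ k * G (F k) q n s)| ≤ ε / 2 := by
        rw [abs_mul, abs_of_nonneg (mul_nonneg h0 (G_nonneg _ _ _ _))]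
        exact (mul_le_of_le_one_right (abs_nonneg _)
          (mul_le_one₀ (hp1 _) (G_nonneg _ _ _ _) (G_le _ _ _ _))).trans h2.le
      have a2 : |χ t * ((1/2) ^ k * (G (F k) q n s - G (F k) q n t))| ≤ ε / 2 := by
        rw [abs_mul, abs_of_nonneg (χ0 t), abs_mul, abs_of_nonneg h0]
        refine (mul_le_of_le_one_left (by positivity) (χ1 t)).trans ?_
        by_cases hk : k < K0
        · exact (mul_le_of_le_one_left (abs_nonneg _) (hp1 _)).trans
            (h1 k (Finset.mem_range.2 hk) q n)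
        · have b1 : (1/2 : ℝ) ^ k ≤ (1/2) ^ K0 :=
            pow_le_pow_of_le_one (by norm_num) (by norm_num) (not_lt.1 hk)
          have b2 : |G (F k) q n s - G (F k) q n t| ≤ 1 := by
            rw [abs_le]
            constructor <;> linarith [G_nonneg (F k) q n s, G_nonneg (F k) q n t,
              G_le (F k) q n s, G_le (F k) q n t]
          exact (mul_le_of_le_one_right h0 b2).trans (b1.trans hK0.le)
      linarith
    refine clo φ {f | |f s - f t| ≤ ε * ‖f‖} (isClosed_le (by fun_prop) (by fun_prop)) ?_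
    intro S c _
    show |(∑ i ∈ S, c i • φ i) s - (∑ i ∈ S, c i • φ i) t| ≤ _
    refine le_trans ?_ (mul_le_mul_of_nonneg_left (l1bound φ E φE S c) hε.le)
    simp only [ContinuousMap.sum_apply, ContinuousMap.smul_apply, smul_eq_mul]
    rw [← Finset.sum_sub_distrib, Finset.mul_sum]
    refine (Finset.abs_sum_le_sum_abs _ _).trans (Finset.sum_le_sum fun i _ => ?_)
    rw [← mul_sub, abs_mul, mul_comm]
    exact mul_le_mul_of_nonneg_right (hi i) (abs_nonneg _)

theorem main (M : Set I) (hne : M.Nonempty) (F : ℕ → Set I) (hF : ∀ k, IsClosed (F k))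
    (hM : M = ⋃ k, F k) : ∃ X, Good M X := by
  obtain ⟨t0, ht0⟩ := hne
  have hM' : M = ⋃ k, insert t0 (F k) := by
    rw [← insert_iUnion, ← hM, insert_eq_of_mem ht0]
  have hF' : ∀ k, IsClosed (insert t0 (F k)) := fun k => isClosed_singleton.union (hF k)
  by_cases h : interior M = ∅
  · exact caseA M _ hF' t0 (fun k => mem_insert _ _) hM' (interior_eq_empty_iff_dense_compl.1 h)
  · obtain ⟨x0, hx0⟩ := nonempty_iff_ne_empty.2 h
    obtain ⟨δ, hδ, hb⟩ := Metric.mem_nhds_iff.1 (mem_interior_iff_mem_nhds.1 hx0)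
    exact caseB M _ hF' (fun k => insert_nonempty _ _) hM' x0 (δ / 3) (by positivity)
      (by rwa [mul_div_cancel₀ _ (by norm_num)])

end Pool.Agent.H2.Os
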