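import Mathlib

namespace Pool.Agent.H2.Polar

/-- The Euclidean plane. -/
abbrev P2 := EuclideanSpace ℝ (Fin 2)

/-- Affine subspaces of the plane. -/
abbrev Sub := AffineSubspace ℝ P2

/-- A straight line: an affine subspace with one-dimensional direction. -/
def IsLine (l : Sub) : Prop := Module.finrank ℝ l.direction = 1

/-- Incidence of a point and an affine subspace. -/
def On (p : P2) (l : Sub) : Prop := p ∈ l

/-- A geometric configuration (n_q): n points and n straight lines of the plane, every line
through exactly q of the points and every point on exactly q of the lines. -/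
structure Conf (n q : ℕ) where
  pts : Set P2
  lns : Set Sub
  isLine : ∀ l ∈ lns, IsLine l
  card_pts : pts.encard = n
  card_lns : lns.encard = n
  perLine : ∀ l ∈ lns, {p ∈ pts | On p l}.encard = q
  perPoint : ∀ p ∈ pts, {l ∈ lns | On p l}.encard = q

/-- Isomorphism of incidence structures. -/
def Conf.Iso {n q : ℕ} (C D : Conf n q) : Prop :=
  ∃ (f : C.pts ≃ D.pts) (g : C.lns ≃ D.lns), ∀ (p : C.pts) (l : C.lns),
    On p.1 l.1 ↔ On (f p).1 (g l).1

/-- There is a selfduality of order 2: it acts as f on points and as the inverse of f on lines. -/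
def Conf.RankTwo {n q : ℕ} (C : Conf n q) : Prop :=
  ∃ f : C.pts ≃ C.lns, ∀ (p : C.pts) (l : C.lns), On p.1 l.1 ↔ On (f.symm l).1 (f p).1

/-- The polar line of the point x in the circle with centre c and radius r. -/
def polar (c : P2) (r : ℝ) (x : P2) : Set P2 := {y | inner ℝ (x - c) (y - c) = r ^ 2}

/-- The points of the polar configuration: the poles of the lines of C. -/
def Conf.poles {n q : ℕ} (C : Conf n q) (c : P2) (r : ℝ) : Set P2 :=
  {x | ∃ l ∈ C.lns, {y | On y l} = polar c r x}

end Pool.Agent.H2.Polar
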