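import Mathlib
import Pool.Agent.H2.PolarDefs
import Pool.Agent.H2.Geo

namespace Pool.Agent.H2.Polar

open Geo

abbrev inc (i j : Fin 10) : Prop :=
  Nat.testBit 347263422353164034606019252231 (10 * j.1 + i.1) = true

abbrev good (a b c : Fin 10) : Prop := Nat.testBit 20477399538348192325964717207666074202637912705366922685131570602709179076472831584062705713548882523420544415255206020192579980335259284774603815328342912821498256401852226393025338612746146670035813266885163401195956612551776758899173625686146327545920018187820028105135831729415478474358919168 (100 * a.1 + 10 * b.1 + c.1) = true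

theorem good_of : ∀ a b c : Fin 10, a ≠ b → a ≠ c → b ≠ c → (∀ j, (inc a j → inc b j → inc c j) ∧
    (inc a j → inc c j → inc b j) ∧ (inc b j → inc c j → inc a j)) → good a b c := by
  decide +kernel

abbrev Q (σ : Fin 10 → Fin 10) : Prop := (∀ j k, inc (σ k) j → inc (σ j) k) ∧
  (∀ j, ∃ a b, a ≠ b ∧ inc (σ a) j ∧ inc (σ b) j) ∧ (∀ j, ∃ k, ¬ inc (σ k) k ∧ ¬ inc (σ k) j) ∧
  ∃ a, inc (σ a) a ∧ ∃ b, inc (σ b) b ∧ ¬ inc (σ b) a ∧ ∃ c, inc (σ c) c ∧ ¬ inc (σ c) a ∧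
    ¬ inc (σ c) b ∧ ∃ m, inc (σ a) m ∧ inc (σ b) m ∧ inc (σ c) m ∧ ∃ s, ¬ inc (σ s) m

theorem search : ∀ a0 a4 a8 : Fin 10, good a0 a4 a8 → ∀ a3 a5, good a0 a3 a5 → ∀ a1, good a1 a3 a4 →
    ∀ a2, good a0 a1 a2 → ∀ a6, good a2 a5 a6 → ∀ a7, good a3 a6 a7 →
    good a1 a7 a8 → ∀ a9, good a2 a4 a9 → good a5 a7 a9 → good a6 a8 a9 →
    [a0, a1, a2, a3, a4, a5, a6, a7, a8, a9].Nodup → Q ![a0, a1, a2, a3, a4, a5, a6, a7, a8, a9] := by
  decide +kernel

def Aff (f : P2 → ℝ) : Prop := ∃ α β γ : ℝ, ∀ u : P2, f u = α * u 0 + β * u 1 + γ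

theorem par {f g : P2 → ℝ} (hf : Aff f) (hg : Aff g) {P Q : P2} (h : P ≠ Q) (f1 : f P = 0)
    (f2 : f Q = 0) (g1 : g P = 0) (g2 : g Q = 0) (u w : P2) : f u * g w = f w * g u := by
  obtain ⟨a, b, c, hf⟩ := hf
  obtain ⟨d, e, k, hg⟩ := hg
  simp only [hf, hg] at *
  have x : a * e - b * d = 0 := by
    by_contra x
    refine h ?_
    ext i; fin_cases i
    · exact mul_left_cancel₀ x (show _ * P 0 = _ * Q 0 by
        linear_combination e * f1 - e * f2 - b * g1 + b * g2)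
    · exact mul_left_cancel₀ x (show _ * P 1 = _ * Q 1 by
        linear_combination -d * f1 + d * f2 + a * g1 - a * g2)
  linear_combination (d * (w 0 - u 0) + e * (w 1 - u 1)) * f1 -
    (a * (w 0 - u 0) + b * (w 1 - u 1)) * g1 +
    ((u 0 - P 0) * (w 1 - P 1) - (u 1 - P 1) * (w 0 - P 0)) * x

theorem final {σ : Fin 10 → Fin 10} (hQ : Q σ) (q : Fin 10 → P2) (hq : q.Injective)
    (F : P2 → P2 → ℝ) (h1 : ∀ u, Aff (F u)) (h2 : ∀ w, Aff (F · w))
    (h : ∀ j k, F (q j) (q k) = 0 ↔ inc (σ k) j) : False := by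
  obtain ⟨s, two, ex, a, aa, b, bb, ab, c, cc, ac, bc, m, ma, mb, mc, t, mt⟩ := hQ
  simp only [← h] at *
  have L : ∀ i u w, F (q i) u * F w (q i) = F (q i) w * F u (q i) := fun i => by
    obtain ⟨x, y, n, hx, hy⟩ := two i
    exact par (h1 _) (h2 _) (hq.ne n) hx hy (s _ _ hx) (s _ _ hy)
  have S : ∀ j w, F w (q j) = F (q j) w := fun j w => by
    obtain ⟨k, kk, jk⟩ := ex j
    have e := mul_left_cancel₀ kk ((L k (q k) (q j)).trans (mul_comm _ _))
    exact mul_left_cancel₀ jk ((L j (q k) w).trans (by rw [← e, mul_comm]))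
  have n : q a ≠ q b := fun e => ab (e ▸ aa)
  have A : Aff fun w => F (q c) w * F (q a) (q b) - F (q b) (q c) * F (q a) w -
      F (q a) (q c) * F (q b) w := by
    obtain ⟨x, y, z, e⟩ := h1 (q a)
    obtain ⟨x', y', z', e'⟩ := h1 (q b)
    obtain ⟨x'', y'', z'', e''⟩ := h1 (q c)
    generalize F (q a) (q b) = r; generalize F (q b) (q c) = r'; generalize F (q a) (q c) = r''
    exact ⟨x'' * r - r' * x - r'' * x', y'' * r - r' * y - r'' * y', z'' * r - r' * z - r'' * z',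
      fun u => by simp only [e, e', e'']; ring⟩
  have := par A (h1 (q m)) n (by rw [aa, S a (q c), S a (q b)]; ring)
    (by rw [bb, S b (q c)]; ring) ma mb (q c) (q t)
  rw [mc, cc, mul_zero, mul_eq_zero, or_iff_left mt] at this
  exact mul_ne_zero bc ac (by linarith)

theorem core (p : Fin 10 → P2) (hp : p.Injective) (τ : Fin 10 → Fin 10) (hτ : τ.Injective)
    (F : P2 → P2 → ℝ) (h1 : ∀ u, Aff (F u)) (h2 : ∀ w, Aff (F · w))
    (h : ∀ i k, F (p i) (p k) = 0 ↔ inc k (τ i)) : False := by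
  let e := Equiv.ofBijective τ (Finite.injective_iff_bijective.1 hτ)
  let σ := e.symm
  have h' : ∀ j k, F (p (σ j)) (p k) = 0 ↔ inc k j := fun j k => by
    rw [h, show τ (σ j) = j from e.apply_symm_apply j]
  have T : ∀ k x y z j, inc k x → inc k y → inc k z → x ≠ y → inc (σ x) j → inc (σ y) j →
      inc (σ z) j := fun k x y z j kx ky kz n jx jy => by
    by_contra jz
    obtain ⟨i, hi⟩ := (by decide +kernel : ∀ k, ∃ i, ¬ inc k i) k
    simp only [← h'] at *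
    have := par (h2 (p k)) (h1 (p (σ j))) (hp.ne (σ.injective.ne n)) kx ky jx jy (p (σ i)) (p (σ z))
    rw [kz, zero_mul] at this
    exact mul_ne_zero hi jz this
  have G : ∀ k x y z, inc k x ∧ inc k y ∧ inc k z ∧ x ≠ y ∧ x ≠ z ∧ y ≠ z →
      good (σ x) (σ y) (σ z) := fun k x y z ⟨a, b, c, d, e, f⟩ =>
    good_of _ _ _ (σ.injective.ne d) (σ.injective.ne e) (σ.injective.ne f) fun j =>
      ⟨T k x y z j a b c d, T k x z y j a c b e, T k y z x j b c a f⟩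
  have := search (σ 0) (σ 4) (σ 8) (G 0 _ _ _ (by decide)) (σ 3) (σ 5) (G 1 _ _ _ (by decide))
    (σ 1) (G 7 _ _ _ (by decide)) (σ 2) (G 2 _ _ _ (by decide)) (σ 6) (G 5 _ _ _ (by decide))
    (σ 7) (G 6 _ _ _ (by decide)) (G 9 _ _ _ (by decide)) (σ 9)
    (G 8 _ _ _ (by decide)) (G 3 _ _ _ (by decide)) (G 4 _ _ _ (by decide))
    (List.Nodup.map σ.injective (l := [0, 1, 2, 3, 4, 5, 6, 7, 8, 9]) (by decide))
  rw [show ![σ 0, σ 1, σ 2, σ 3, σ 4, σ 5, σ 6, σ 7, σ 8, σ 9] = σ from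
    funext fun i => by fin_cases i <;> rfl] at this
  exact final this (p ∘ σ) (hp.comp σ.injective) F h1 h2 fun j k => h' j _

def X : Fin 10 → ℤ × ℤ × ℤ := ![(2, 0, 1), (0, 0, 1), (1, 0, 2), (0, -1, 3), (-1, -2, 1), (0, -1, 1),
  (1, -1, 2), (2, -2, 1), (2, 3, 1), (3, -2, 3)]

def Y : Fin 10 → ℤ × ℤ × ℤ := ![(0, 1, 0), (-4, -3, 2), (-2, 1, 1), (1, 1, 0), (-1, 0, 2), (1, 0, 0),
  (-1, 1, 1), (1, 3, 1), (-2, 3, 4), (-5, 3, 1)]

theorem XY (i j : Fin 10) : pt (X i) ∈ ln (Y j) ↔ inc i j := by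
  rw [pt_mem _ ((by decide +kernel : ∀ i, (X i).2.2 ≠ 0) i)]
  exact (by decide +kernel : ∀ i j, dot (X i) (Y j) = 0 ↔ inc i j) i j

theorem injp {α β : Type*} [Membership α β] {p : Fin 10 → α} {l : Fin 10 → β}
    (h : ∀ i j, p i ∈ l j ↔ inc i j) : p.Injective ∧ l.Injective :=
  ⟨fun i k e => (by decide +kernel : ∀ i k, (∀ j, inc i j ↔ inc k j) → i = k) i k fun j => by
    rw [← h, ← h, e], fun i k e => (by decide +kernel : ∀ i k, (∀ j, inc j i ↔ inc j k) → i = k) i k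
    fun j => by rw [← h, ← h, e]⟩

theorem cnt {α : Type*} {p : Fin 10 → α} (hp : p.Injective) (P : α → Prop) (R : Fin 10 → Prop)
    [DecidablePred R] (h : ∀ i, P (p i) ↔ R i) {n : ℕ} (hn : (Finset.univ.filter R).card = n) :
    {x ∈ Set.range p | P x}.encard = n := by
  rw [← hn, ← Set.encard_coe_eq_coe_finsetCard, ← hp.encard_image]
  congr 1
  ext x
  simp only [Set.mem_setOf_eq, Set.mem_range, Set.mem_image, Finset.coe_filter, Finset.mem_univ,
    true_and, ← h]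
  exact ⟨fun ⟨⟨i, e⟩, f⟩ => ⟨i, e ▸ f, e⟩, fun ⟨i, f, e⟩ => ⟨⟨i, e⟩, e ▸ f⟩⟩

noncomputable def C0 : Conf 10 3 where
  pts := Set.range fun i => pt (X i)
  lns := Set.range fun j => ln (Y j)
  isLine := by
    rintro _ ⟨j, rfl⟩
    obtain ⟨i, k, a, b⟩ := (by decide +kernel : ∀ j, ∃ i k, inc i j ∧ ¬ inc k j) j
    exact rank_ln ((XY _ _).2 a) (mt (XY _ _).1 b)
  card_pts := by simpa [Set.range] using cnt (injp XY).1 (fun _ => True) (fun _ => True) (by simp) rfl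
  card_lns := by simpa [Set.range] using cnt (injp XY).2 (fun _ => True) (fun _ => True) (by simp) rfl
  perLine := by
    rintro _ ⟨j, rfl⟩
    exact cnt (injp XY).1 _ (inc · j) (XY · j) (by revert j; decide +kernel)
  perPoint := by
    rintro _ ⟨i, rfl⟩
    exact cnt (injp XY).2 (pt (X i) ∈ ·) (inc i) (XY i) (by revert i; decide +kernel)

theorem rank2 : ∃ δ : Equiv.Perm (Fin 10), ∀ i j, inc i j ↔ inc (δ.symm j) (δ i) :=
  ⟨⟨![0, 8, 4, 6, 5, 9, 7, 1, 2, 3], ![0, 7, 8, 9, 2, 4, 3, 6, 1, 5], by decide, by decide⟩,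
    by decide +kernel⟩

theorem main : ∃ C : Conf 10 3, C.RankTwo ∧ ∀ D : Conf 10 3, C.Iso D → ∀ (c : P2) (r : ℝ), 0 < r →
    ∀ φ : P2 ≃ᵢ P2, φ '' D.poles c r ≠ D.pts := by
  let a : Fin 10 ≃ C0.pts := Equiv.ofInjective _ (injp XY).1
  let b : Fin 10 ≃ C0.lns := Equiv.ofInjective _ (injp XY).2
  refine ⟨C0, ?_, fun D ⟨f, g, hfg⟩ c r hr φ hφ => ?_⟩
  · obtain ⟨δ, hδ⟩ := rank2
    refine ⟨a.symm.trans (δ.trans b), fun p l => ?_⟩
    obtain ⟨i, rfl⟩ := a.surjective p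
    obtain ⟨j, rfl⟩ := b.surjective l
    simp only [Equiv.trans_apply, Equiv.symm_trans_apply, Equiv.symm_apply_apply, Equiv.symm_symm]
    exact (XY i j).trans ((hδ i j).trans (XY _ _).symm)
  let p : Fin 10 → P2 := fun i => f (a i)
  let l : Fin 10 → AffineSubspace ℝ P2 := fun j => g (b j)
  have h : ∀ i j, p i ∈ l j ↔ inc i j := fun i j => (hfg (a i) (b j)).symm.trans (XY i j)
  have : ∀ i, ∃ j, (l j : Set P2) = polar c r (φ.symm (p i)) := fun i => by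
    obtain ⟨x, ⟨m, m1, m2⟩, e⟩ : p i ∈ φ '' D.poles c r := hφ ▸ (f (a i)).2
    obtain ⟨j, hj⟩ := (b.trans g).surjective ⟨m, m1⟩
    exact ⟨j, by rw [← e, φ.symm_apply_apply, ← m2]; exact congrArg _ (congrArg Subtype.val hj)⟩
  choose τ hτ using this
  let F : P2 → P2 → ℝ := fun u w => inner ℝ (φ.symm u - c) (w - c) - r ^ 2
  have hF : ∀ i w, F (p i) w = 0 ↔ w ∈ l (τ i) := fun i w => by
    rw [← SetLike.mem_coe, hτ]; exact sub_eq_zero
  have h1 : ∀ u, Aff (F u) := fun u => ⟨(φ.symm u - c) 0, (φ.symm u - c) 1,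
    -inner ℝ (φ.symm u - c) c - r ^ 2, fun w => by
      simp [F, PiLp.inner_apply, Fin.sum_univ_two]; ring⟩
  have h2 : ∀ w, Aff (F · w) := fun w => by
    let ψ := φ.symm.toRealAffineIsometryEquiv
    refine ⟨inner ℝ (ψ.linearIsometryEquiv !₂[1, 0]) (w - c),
      inner ℝ (ψ.linearIsometryEquiv !₂[0, 1]) (w - c), inner ℝ (ψ 0 - c) (w - c) - r ^ 2, fun u => ?_⟩
    have : φ.symm u = ψ ((u 0 • (!₂[1, 0] : P2) + u 1 • (!₂[0, 1] : P2)) +ᵥ (0 : P2)) := by
      refine congrArg ψ ?_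
      ext i; fin_cases i <;> simp
    simp only [F]
    rw [this, ψ.map_vadd, map_add, map_smul, map_smul, vadd_eq_add, add_sub_assoc, inner_add_left,
      inner_add_left, real_inner_smul_left, real_inner_smul_left]
    ring
  refine core p (injp h).1 τ (fun i k e => ?_) F h1 h2 fun i k => (hF i _).trans (h _ _)
  obtain ⟨x, y, n, hx, hy⟩ := (by decide +kernel : ∀ j, ∃ x y, x ≠ y ∧ inc x j ∧ inc y j) (τ i)
  rw [← h] at hx hy
  have := par (h1 (p i)) (h1 (p k)) ((injp h).1.ne n) ((hF _ _).2 hx) ((hF _ _).2 hy)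
    ((hF _ _).2 (e ▸ hx)) ((hF _ _).2 (e ▸ hy)) c
  simp only [F, sub_self, inner_zero_right, zero_sub, mul_comm _ (-r ^ 2),
    mul_right_inj' (show -r ^ 2 ≠ 0 by simp [hr.ne']), sub_left_inj] at this
  refine (injp h).1 (φ.symm.injective (sub_left_injective (b := c) (ext_inner_right ℝ fun v => ?_)))
  simpa using (this (v + c)).symm

end Pool.Agent.H2.Polar
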