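import Mathlib

namespace Pool.Agent.H2.Polz

open Finset MvPolynomial

/-- R = ℂ[x_ij], i the row, j the column. -/
abbrev R (l n : ℕ) := MvPolynomial (Fin l × Fin n) ℂ

/-- The generalized polarization operator E^(p)_(i,k) = Σ_j x_ij ∂_kj^p. -/
noncomputable def E {l n : ℕ} (i k : Fin l) (p : ℕ) (g : R l n) : R l n :=
  ∑ j : Fin n, X (i, j) * (pderiv (k, j))^[p] g

/-- The diagonal action of a permutation of the columns. -/
noncomputable def act {l n : ℕ} (σ : Equiv.Perm (Fin n)) (g : R l n) : R l n :=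
  rename (fun v => (v.1, σ v.2)) g

/-- The polarization module: the smallest subspace containing the orbit of f and closed under all
∂_ij and all E^(p)_(i,k), p ≥ 1. -/
noncomputable def polMod {l n : ℕ} (f : R l n) : Submodule ℂ (R l n) :=
  sInf {M | (∀ σ, act σ f ∈ M) ∧ (∀ g ∈ M, ∀ v, pderiv v g ∈ M) ∧
    ∀ g ∈ M, ∀ i k p, 1 ≤ p → E i k p g ∈ M}

/-- The multigraded piece R_d. -/
noncomputable def piece (l n : ℕ) (d : Fin l →₀ ℕ) : Submodule ℂ (R l n) :=
  weightedHomogeneousSubmodule ℂ (fun v : Fin l × Fin n => Finsupp.single v.1 1) d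

/-- The Hilbert series of the polarization module of f is Σ_(|μ| ≤ D) a_μ h_μ(q) for some
nonnegative integers a_μ. -/
def HPositive {l n : ℕ} (f : R l n) (D : ℕ) : Prop :=
  ∃ a : (k : ℕ) → Nat.Partition k → ℕ, ∀ d : Fin l →₀ ℕ,
    Module.finrank ℂ ↥(polMod f ⊓ piece l n d) =
      coeff d (∑ k ∈ range (D + 1), ∑ μ : Nat.Partition k,
        a k μ • (μ.parts.map (hsymm (Fin l) ℕ)).prod)

/-- f = (x_11 - x_12)(x_11 x_22 - x_12 x_21). -/
noncomputable def f : R 2 2 :=
  (X (0, 0) - X (0, 1)) * (X (0, 0) * X (1, 1) - X (0, 1) * X (1, 0))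

end Pool.Agent.H2.Polz
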