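import Mathlib
import Pool.Agent.H2.PolzDefs

namespace Pool.Agent.H2.Polz

open Finset MvPolynomial


noncomputable def f' : R 2 2 :=
  (X (1, 0) - X (1, 1)) * (X (0, 0) * X (1, 1) - X (0, 1) * X (1, 0))

noncomputable abbrev w : Fin 2 × Fin 2 → (Fin 2 →₀ ℕ) := fun v => Finsupp.single v.1 1

theorem f_w : f.IsWeightedHomogeneous w (Finsupp.single 0 2 + Finsupp.single 1 1) := by
  have h := isWeightedHomogeneous_X ℂ w
  have h1 := (weightedHomogeneousSubmodule ℂ w _).sub_mem (h (0, 0)) (h (0, 1))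
  have h2 := (weightedHomogeneousSubmodule ℂ w _).sub_mem ((h (0, 0)).mul (h (1, 1)))
    ((h (0, 1)).mul (h (1, 0)))
  have e : (Finsupp.single 0 2 + Finsupp.single 1 1 : Fin 2 →₀ ℕ) =
      w (0, 0) + (w (0, 0) + w (1, 1)) := by ext i; fin_cases i <;> simp
  rw [e]
  exact IsWeightedHomogeneous.mul h1 h2

theorem f'_w : f'.IsWeightedHomogeneous w (Finsupp.single 0 1 + Finsupp.single 1 2) := by
  have h := isWeightedHomogeneous_X ℂ w
  have h1 := (weightedHomogeneousSubmodule ℂ w _).sub_mem (h (1, 0)) (h (1, 1))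
  have h2 := (weightedHomogeneousSubmodule ℂ w _).sub_mem ((h (0, 0)).mul (h (1, 1)))
    ((h (0, 1)).mul (h (1, 0)))
  have e : (Finsupp.single 0 1 + Finsupp.single 1 2 : Fin 2 →₀ ℕ) =
      w (1, 0) + (w (0, 0) + w (1, 1)) := by ext i; fin_cases i <;> simp
  rw [e]
  exact IsWeightedHomogeneous.mul h1 h2

theorem f_h : f.IsHomogeneous 3 :=
  ((isHomogeneous_X ℂ _).sub (isHomogeneous_X ℂ _)).mul
    (((isHomogeneous_X ℂ _).mul (isHomogeneous_X ℂ _)).sub
      ((isHomogeneous_X ℂ _).mul (isHomogeneous_X ℂ _)))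

theorem f'_h : f'.IsHomogeneous 3 :=
  ((isHomogeneous_X ℂ _).sub (isHomogeneous_X ℂ _)).mul
    (((isHomogeneous_X ℂ _).mul (isHomogeneous_X ℂ _)).sub
      ((isHomogeneous_X ℂ _).mul (isHomogeneous_X ℂ _)))

theorem act_f (σ : Equiv.Perm (Fin 2)) : act σ f = f := by
  have : σ = 1 ∨ σ = Equiv.swap 0 1 := by revert σ; decide
  rcases this with rfl | rfl
  · simp [act, f]
  · simp [act, f]; ring

theorem f_ne : f ≠ 0 := by
  intro h
  have := congrArg (eval fun v : Fin 2 × Fin 2 => if v.1 = v.2 then (1 : ℂ) else 0) h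
  simp [f] at this

def S : Set (R 2 2) := {g | g = f ∨ g = f' ∨ ∃ k ≤ 2, g.IsHomogeneous k}

theorem iter_h {g : R 2 2} {k : ℕ} (h : g.IsHomogeneous k) (v) (p : ℕ) :
    ((pderiv v)^[p] g).IsHomogeneous (k - p) := by
  induction p with
  | zero => simpa
  | succ p ih => rw [Function.iterate_succ_apply']; exact ih.pderiv

theorem E_h {g : R 2 2} {k : ℕ} (h : g.IsHomogeneous k) (i j p) :
    (E i j p g).IsHomogeneous (1 + (k - p)) :=
  IsHomogeneous.sum _ _ _ fun _ _ => (isHomogeneous_X ℂ _).mul (iter_h h _ p)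

theorem E_lin (i k : Fin 2) (p : ℕ) : ∃ T : R 2 2 →ₗ[ℂ] R 2 2, ∀ g, E i k p g = T g := by
  refine ⟨∑ j : Fin 2, LinearMap.mulLeft ℂ (X (i, j)) ∘ₗ
    ((pderiv (k, j) : Derivation ℂ (R 2 2) (R 2 2)).toLinearMap ^ p), fun g => ?_⟩
  simp only [E, LinearMap.sum_apply, LinearMap.comp_apply, LinearMap.mulLeft_apply,
    Module.End.pow_apply]
  rfl

theorem pol_le : polMod f ≤ Submodule.span ℂ S := by
  have hf : f ∈ Submodule.span ℂ S := Submodule.subset_span (Or.inl rfl)
  have hf' : f' ∈ Submodule.span ℂ S := Submodule.subset_span (Or.inr (Or.inl rfl))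
  have hl : ∀ (g : R 2 2) k, k ≤ 2 → g.IsHomogeneous k → g ∈ Submodule.span ℂ S :=
    fun g k hk h => Submodule.subset_span (Or.inr (Or.inr ⟨k, hk, h⟩))
  have gen : ∀ T : R 2 2 →ₗ[ℂ] R 2 2, (∀ g ∈ S, T g ∈ Submodule.span ℂ S) →
      ∀ g ∈ Submodule.span ℂ S, T g ∈ Submodule.span ℂ S := fun T h g hg =>
    (Submodule.span_le (p := (Submodule.span ℂ S).comap T)).2 (fun g hg => h g hg) hg
  refine sInf_le ⟨fun σ => by rw [act_f]; exact hf, fun g hg v => ?_, fun g hg i k p hp => ?_⟩
  · refine gen (pderiv v : Derivation ℂ (R 2 2) (R 2 2)).toLinearMap ?_ g hg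
    rintro g (rfl | rfl | ⟨k, hk, h⟩)
    · exact hl _ _ le_rfl f_h.pderiv
    · exact hl _ _ le_rfl f'_h.pderiv
    · exact hl _ _ (by omega) h.pderiv
  · obtain ⟨T, hT⟩ := E_lin i k p
    rw [hT]
    refine gen T ?_ g hg
    rintro g hg
    rw [← hT]
    rcases hg with rfl | rfl | ⟨k, hk, h⟩
    · rcases hp.eq_or_lt with rfl | hp
      · have : ∃ a b : ℂ, E i k 1 f = a • f + b • f' := by
          fin_cases i <;> fin_cases k
          · exact ⟨2, 0, by simp [E, f, Fin.sum_univ_two, pderiv_X, Pi.single_apply, two_smul]; ring⟩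
          · exact ⟨0, 0, by simp [E, f, Fin.sum_univ_two, pderiv_X, Pi.single_apply]; ring⟩
          · exact ⟨0, 1, by simp [E, f, f', Fin.sum_univ_two, pderiv_X, Pi.single_apply]; ring⟩
          · exact ⟨1, 0, by simp [E, f, Fin.sum_univ_two, pderiv_X, Pi.single_apply]; ring⟩
        obtain ⟨a, b, h⟩ := this
        rw [h]
        exact Submodule.add_mem _ (Submodule.smul_mem _ _ hf) (Submodule.smul_mem _ _ hf')
      · exact hl _ _ (by omega) (E_h f_h i k p)
    · rcases hp.eq_or_lt with rfl | hp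
      · have : ∃ a b : ℂ, E i k 1 f' = a • f + b • f' := by
          fin_cases i <;> fin_cases k
          · exact ⟨0, 1, by simp [E, f', Fin.sum_univ_two, pderiv_X, Pi.single_apply]; ring⟩
          · exact ⟨1, 0, by simp [E, f, f', Fin.sum_univ_two, pderiv_X, Pi.single_apply]; ring⟩
          · exact ⟨0, 0, by simp [E, f', Fin.sum_univ_two, pderiv_X, Pi.single_apply]; ring⟩
          · exact ⟨0, 2, by simp [E, f', Fin.sum_univ_two, pderiv_X, Pi.single_apply, two_smul]; ring⟩
        obtain ⟨a, b, h⟩ := this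
        rw [h]
        exact Submodule.add_mem _ (Submodule.smul_mem _ _ hf) (Submodule.smul_mem _ _ hf')
      · exact hl _ _ (by omega) (E_h f'_h i k p)
    · exact hl _ _ (by omega) (E_h h i _ p)

theorem top_zero : polMod f ⊓ piece 2 2 (Finsupp.single 0 3) = ⊥ := by
  rw [eq_bot_iff]
  rintro g ⟨h1, h2⟩
  have h3 := pol_le h1
  have key : ∀ m, Finsupp.weight w m = Finsupp.single 0 3 → coeff m g = 0 := by
    intro m hm
    refine Submodule.span_induction (p := fun g _ => coeff m g = 0) ?_ (by simp) ?_ ?_ h3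
    · rintro g (rfl | rfl | ⟨k, hk, h⟩)
      · refine f_w.coeff_eq_zero m ?_
        rw [hm]; intro h; simpa using congrArg (· 1) h
      · refine f'_w.coeff_eq_zero m ?_
        rw [hm]; intro h; simpa using congrArg (· 1) h
      · refine h.coeff_eq_zero ?_
        have h0 := congrArg (· 0) hm
        have h1 := congrArg (· 1) hm
        simp [Finsupp.weight_apply, Finsupp.sum_fintype, Fintype.sum_prod_type,
          Fin.sum_univ_two] at h0 h1
        rw [Finsupp.degree_eq_sum, Fintype.sum_prod_type]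
        simp only [Fin.sum_univ_two]
        omega
    · intro x y _ _ hx hy; simp [hx, hy]
    · intro a x _ hx; simp [hx]
  rw [Submodule.mem_bot]
  ext m
  by_contra hm
  exact hm (key m (h2 hm))

theorem mid_pos :
    0 < Module.finrank ℂ ↥(polMod f ⊓ piece 2 2 (Finsupp.single 0 2 + Finsupp.single 1 1)) := by
  have hle : polMod f ⊓ piece 2 2 (Finsupp.single 0 2 + Finsupp.single 1 1) ≤
      restrictTotalDegree (Fin 2 × Fin 2) ℂ 3 := by
    refine inf_le_left.trans (pol_le.trans (Submodule.span_le.2 ?_))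
    rintro g (rfl | rfl | ⟨k, hk, h⟩) <;> rw [SetLike.mem_coe, mem_restrictTotalDegree]
    · exact f_h.totalDegree_le
    · exact f'_h.totalDegree_le
    · exact h.totalDegree_le.trans (by omega)
  have := Submodule.finiteDimensional_of_le hle
  rw [Module.finrank_pos_iff_exists_ne_zero]
  refine ⟨⟨f, Submodule.mem_sInf.2 fun M hM => ?_, f_w⟩, fun h => f_ne (congrArg Subtype.val h)⟩
  simpa [act_f] using hM.1 1

theorem hsymm_h (k : ℕ) : (hsymm (Fin 2) ℕ k).IsHomogeneous k := by
  refine IsHomogeneous.sum _ _ _ fun s _ => ?_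
  obtain ⟨s, rfl⟩ := s
  change (s.map X).prod.IsHomogeneous s.card
  rename_i h
  clear h
  induction s using Multiset.induction_on with
  | empty => simpa using isHomogeneous_one _ _
  | cons a s ih =>
    simp only [Multiset.map_cons, Multiset.prod_cons, Multiset.card_cons]
    rw [add_comm]
    exact (isHomogeneous_X _ _).mul ih

theorem prod_h (s : Multiset ℕ) : (s.map (hsymm (Fin 2) ℕ)).prod.IsHomogeneous s.sum := by
  induction s using Multiset.induction_on with
  | empty => simpa using isHomogeneous_one _ _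
  | cons a s ih =>
    simp only [Multiset.map_cons, Multiset.prod_cons, Multiset.sum_cons]
    exact (hsymm_h a).mul ih

theorem prod_pos (s : Multiset ℕ) :
    0 < coeff (Finsupp.single 0 s.sum) (s.map (hsymm (Fin 2) ℕ)).prod := by
  induction s using Multiset.induction_on with
  | empty => simp
  | cons a s ih =>
    simp only [Multiset.map_cons, Multiset.prod_cons, Multiset.sum_cons]
    rw [coeff_mul]
    refine sum_pos' (fun _ _ => Nat.zero_le _) ⟨(Finsupp.single 0 a, Finsupp.single 0 s.sum),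
      by simp [Finsupp.single_add], mul_pos ?_ ih⟩
    rw [hsymm, coeff_sum]
    refine sum_pos' (fun _ _ => Nat.zero_le _) ⟨Sym.replicate a 0, mem_univ _, ?_⟩
    simp [Sym.replicate, coeff_X_pow]

end Pool.Agent.H2.Polz
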