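import Mathlib

namespace Pool.Agent.H2.Signed

/-- The h-fold signed sumset of A. -/
def signedSum {G : Type*} [AddCommGroup G] (h : ℕ) (A : Finset G) : Set G :=
  {x | ∃ l : G → ℤ, ∑ a ∈ A, (l a).natAbs = h ∧ ∑ a ∈ A, l a • a = x}

/-- The union of the h-fold signed sumsets of A for h = 0,...,s is the whole group. -/
def Spans {G : Type*} [AddCommGroup G] (s : ℕ) (A : Finset G) : Prop :=
  ⋃ h ∈ Set.Icc 0 s, signedSum h A = Set.univ

end Pool.Agent.H2.Signed
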