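import Mathlib
import Pool.Agent.H2.SignedDefs

namespace Pool.Agent.H2.Signed

/-- The ordinary h-fold sumset of A. -/
def sumset {G : Type*} [AddCommGroup G] (h : ℕ) (A : Finset G) : Set G :=
  {x | ∃ f : Fin h → G, (∀ i, f i ∈ A) ∧ ∑ i, f i = x}

/-- The least size of the h-fold sumset of an m-subset of G. -/
noncomputable def rho (G : Type*) [AddCommGroup G] (m h : ℕ) : ℕ :=
  sInf {k | ∃ A : Finset G, A.card = m ∧ (sumset h A).ncard = k}

/-- The least size of the h-fold signed sumset of an m-subset of G. -/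
noncomputable def rhoPM (G : Type*) [AddCommGroup G] (m h : ℕ) : ℕ :=
  sInf {k | ∃ A : Finset G, A.card = m ∧ (signedSum h A).ncard = k}

end Pool.Agent.H2.Signed
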