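import Mathlib
import Pool.Agent.H2.NearPer
import Pool.Agent.H2.RhoDefs

namespace Pool.Agent.H2.Signed

open Finset Pointwise Pool.Agent.H2.Kneser Pool.Agent.H2.ZeroFree

set_option linter.unusedSectionVars false

variable {G : Type} [AddCommGroup G] [Fintype G] [DecidableEq G]

theorem core {p j : ℕ} (hp : p.Prime) (hodd : Odd p) (hG : ∀ x : G, p • x = 0) (hj : j + 2 < p)
    {A : Finset G} (hA : 2 ≤ #A) (hap : st ((j + 2) • A) ⊆ {0})
    (hcr : #((j + 2) • A) + (j + 2) ≤ (j + 2) * #A + 1)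
    (hsym : ∀ x ∈ (j + 2) • A, -x ∈ (j + 2) • A)
    (hS : ∀ b ∈ A, ∀ b' ∈ A, ∀ a ∈ A, b' ≠ b → b' ≠ a → b - b' + j • a ∈ (j + 2) • A) :
    #((j + 2) • A) < p := by
  classical
  have : Fact p.Prime := ⟨hp⟩
  have hA0 : A.Nonempty := card_pos.1 (by omega)
  have div : ∀ {K : Finset G}, Sg K → ∀ l : ℕ, 0 < l → l < p → ∀ x, l • x ∈ K → x ∈ K := by
    intro K s l l0 l1 x hx
    obtain ⟨v, hv⟩ := Nat.exists_mul_mod_eq_one_of_coprime
      ((Nat.coprime_of_lt_prime l0.ne' l1 hp).symm) hp.one_lt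
    have := (toSub s).nsmul_mem hx v
    rwa [smul_smul, ← Nat.mod_add_div (v * l) p, mul_comm v, hv.2, add_nsmul, mul_nsmul, hG,
      smul_zero, add_zero, one_nsmul] at this
  have oddK : ∀ {K : Finset G}, Sg K → ¬ 2 ∣ #K := fun {K} s e => by
    have cM : Fintype.card (toSub s) = #K :=
      Fintype.card_of_subtype (p := (· ∈ toSub s)) _ fun _ => Iff.rfl
    obtain ⟨y, hy⟩ := exists_prime_addOrderOf_dvd_card (G := toSub s) 2 (cM ▸ e)
    rw [← AddSubgroup.addOrderOf_coe] at hy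
    exact hodd.not_two_dvd_nat (hy ▸ addOrderOf_dvd_of_nsmul_eq_zero (hG _))
  obtain ⟨M, ⟨sM, AM⟩, hmin⟩ := exists_minimalFor_of_wellFoundedLT
    (fun M : Finset G => Sg M ∧ A ⊆ M) (fun M => #M) ⟨univ, sgu, subset_univ _⟩
  have hAM : (j + 2) • A ⊆ M := fun x hx => by
    simpa using nsmul_mem sM (u := 0) (fun x hx => by simpa using AM hx) _ x hx
  have hM2 : 2 ≤ #M := hA.trans (card_le_card AM)
  have nfull : ∀ {K : Finset G}, Sg K → 2 ≤ #K → ¬ Per K ((j + 2) • A) := fun {K} s h2 e => by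
    have := card_le_card (e.subset_st.trans hap)
    rw [card_singleton] at this
    omega
  have hlt : #((j + 2) • A) < #M := card_lt_card ⟨hAM, fun e =>
    nfull sM hM2 fun x hx k hk => e (sM.add (hAM hx) hk)⟩
  have near : ∀ K : Finset G, Sg K → 2 ≤ #K → #K < #M → ¬ #(A + K) + 1 ≤ #A + #K := by
    intro K s k1 k2 k3
    obtain ⟨a₀, ha₀, P, t, pP, split, holes, k5, k4⟩ := near_struct j hA0 s k3
    set A₀ := A ∩ (a₀ +ᵥ K) with hA₀
    have a0A : a₀ ∈ A₀ := mem_inter.2 ⟨ha₀, s.mem_coset.2 (by simpa using s.zero)⟩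
    have nr : ∀ x ∈ (j + 2) • A₀, x - (j + 2) • a₀ ∈ K :=
      nsmul_mem s (fun x hx => s.mem_coset.1 (mem_inter.1 hx).2) _
    have nf : ¬ ∀ z ∈ K, (j + 2) • a₀ + z ∈ (j + 2) • A := fun e => nfull s k1 fun x hx k hk => by
      rcases mem_union.1 (split ▸ hx) with f | f
      · exact split ▸ mem_union_left _ (pP x f k hk)
      · convert e _ (s.add (nr x f) hk) using 1; abel
    have a0K : a₀ ∈ K := by
      rcases mem_union.1 (split ▸ hsym _ (nsmul_mem_nsmul ha₀)) with f | f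
      · refine absurd (fun z hz => ?_) nf
        have := hsym _ (split ▸ mem_union_left _ (pP _ f _ (s.neg hz)))
        rwa [← neg_add, neg_neg] at this
      · refine div s (j + 2) (by omega) hj _ (div s 2 (by omega) (by omega) _ ?_)
        convert s.neg (nr _ f) using 1
        rw [two_nsmul]; abel
    have zK : (j + 2) • a₀ ∈ K := (toSub s).nsmul_mem a0K _
    have A0K : ∀ x ∈ A₀, x ∈ K := fun x hx => by
      simpa using s.add (s.mem_coset.1 (mem_inter.1 hx).2) a0K
    have hA0K : (j + 2) • A₀ ⊆ K := fun x hx => by simpa using s.add (nr x hx) zK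
    have PK : Disjoint P K := disjoint_left.2 fun x x1 x2 => nf fun z hz => by
      have := pP x x1 _ (s.sub _ (s.add zK hz) _ x2)
      rw [add_sub_cancel] at this
      exact split ▸ mem_union_left _ this
    obtain ⟨w, hw, hw'⟩ : ∃ w ∈ K, w ∉ (j + 2) • A := by
      by_contra e
      push Not at e
      exact nf fun z hz => e _ (s.add zK hz)
    obtain ⟨b, hb, hbK⟩ : ∃ b ∈ A, b ∉ K := not_subset.1 fun e => by
      have := hmin (j := K) ⟨s, e⟩
      simp only at this
      omega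
    have miss : ∀ a ∈ A₀, ∀ w ∈ K, w ∉ (j + 2) • A → w = j • a := fun a ha w hw hw' => by
      by_contra e
      obtain ⟨c, hc, c', hc', f⟩ := sub_of_half s inter_subset_right (holes b hb fun f => hbK (by
        simpa using s.add (s.mem_coset.1 f) a0K)) (s.sub _ hw _ ((toSub s).nsmul_mem (A0K a ha) j))
      refine hw' ?_
      have := hS c (mem_inter.1 hc).1 c' (mem_inter.1 hc').1 a (mem_inter.1 ha).1
        (fun g => e (by rw [g, sub_self] at f; exact (sub_eq_zero.1 f.symm))) fun g => hbK (by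
          have := s.sub c' (g ▸ A0K a ha) _ (s.mem_coset.1 (mem_inter.1 hc').2)
          rwa [sub_sub_self] at this)
      rwa [f, sub_add_cancel] at this
    have c1 : #K ≤ #((j + 2) • A₀) + 1 := by
      refine (card_le_card (t := insert (j • a₀) ((j + 2) • A₀)) fun z hz => ?_).trans
        (card_insert_le _ _)
      by_cases e : z ∈ (j + 2) • A
      · exact mem_insert_of_mem ((mem_union.1 (split ▸ e)).resolve_left
          fun f => disjoint_left.1 PK f hz)
      · exact mem_insert.2 (Or.inl (miss a₀ a0A z hz e))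
    have c2 : #((j + 2) • A₀) < #K := card_lt_card ⟨hA0K, fun e =>
      hw' (split ▸ mem_union_right _ (e hw))⟩
    have c3 := kn0 (j := j + 1) ⟨a₀, a0A⟩ (fun x hx => hap (by
      rw [split]
      refine mem_st.2 fun c hc => ?_
      have hxH : x ∈ K := by
        simpa using s.sub _ (hA0K (mem_st.1 hx _ (nsmul_mem_nsmul a0A))) _ zK
      rcases mem_union.1 hc with e | e
      exacts [mem_union_left _ (pP c e x hxH), mem_union_right _ (mem_st.1 hx c e)]))
    have c4 := k4 k1 zK PK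
    rw [split, card_union_of_disjoint (PK.mono_right hA0K)] at hcr
    have c5 : (j + 2) * #A ≤ (j + 2) * (#K * t + #A₀) := Nat.mul_le_mul_left _ k5
    have c6 : (j + 2) * #A₀ = #K + j := by
      rw [mul_add] at c5
      change (j + 2) * #A₀ ≤ #((j + 2) • A₀) + (j + 1) at c3
      omega
    rcases j with _ | j
    · exact oddK s ⟨#A₀, by omega⟩
    have : #A₀ ≤ 1 := card_le_one.2 fun x hx y hy => by
      have := (miss x hx w hw hw').symm.trans (miss y hy w hw hw')
      simpa [sub_eq_zero] using div sg0 (j + 1) (by omega) (by omega) (x - y)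
        (by simp [smul_sub, this])
    have : (j + 1 + 2) * #A₀ ≤ (j + 1 + 2) * 1 := Nat.mul_le_mul_left _ this
    exact oddK s ⟨1, by omega⟩
  have sti : ∀ i l, i + l = j + 1 → st ((i + 1) • A) ⊆ {0} := fun i l f => by
    refine Subset.trans ?_ hap
    rw [show j + 2 = i + 1 + l by omega, add_nsmul _ _ l]
    exact st_mono _ _
  have grow : ∀ i, i ≤ j → #(A + A) + i * #A ≤ #((i + 2) • A) + i := fun i hi => by
    induction i with
    | zero => simp [two_nsmul]
    | succ i ih =>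
      have := kneser (hA0.nsmul (n := i + 2)) hA0
      rw [← succ_nsmul, Subset.antisymm (sti (i + 2) (j - (i + 1)) (by omega))
        (singleton_subset_iff.2 (sg_st _).zero), card_singleton, singleton_zero, add_zero,
        add_zero] at this
      have := ih (by omega)
      change _ ≤ #((i + 2 + 1) • A) + _
      nlinarith
  have g1 := grow j le_rfl
  have g2 := kn0 hA0 (sti 1 j (by omega))
  rw [show (1 + 1) • A = A + A from two_nsmul A] at g2
  have g3 : #(A + A) + 1 ≤ #A + #A := by nlinarith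
  have g4 : #(A + A) + 2 ≤ #M := by
    rcases j with _ | j
    · have := oddK sM
      rw [show (0 + 2) • A = A + A from two_nsmul A] at hlt
      omega
    · nlinarith
  rcases critical_in sM AM AM hA hA g4 g3 with ⟨K, s, -, k1, k2, k3⟩ | ⟨u, uM, u1, u2⟩
  · exact absurd k3 (near K s k1 k2)
  let U : Finset G := univ.filter (· ∈ AddSubgroup.zmultiples u)
  have mU : ∀ x, x ∈ U ↔ x ∈ AddSubgroup.zmultiples u := by simp [U]
  have cU : #U = p := by
    rw [← addOrderOf_eq_prime (hG u) u1, ← Fintype.card_zmultiples]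
    exact (Fintype.card_subtype _).symm
  by_contra e
  exact near U ⟨(mU _).2 (zero_mem _), fun x hx y hy =>
    (mU _).2 (sub_mem ((mU _).1 hx) ((mU _).1 hy))⟩ (cU ▸ hp.two_le) (by omega)
    (near_of_pair u2 hA0 mU)

theorem sumset_eq (h : ℕ) (A : Finset G) : sumset h A = ↑(h • A) := by
  ext x; simp only [sumset, Set.mem_setOf_eq, mem_coe, mem_nsmul']

theorem sub_signed (h : ℕ) (A : Finset G) : ∀ x ∈ h • A,
    ∃ l : G → ℕ, ∑ a ∈ A, l a = h ∧ ∑ a ∈ A, l a • a = x := by
  induction h with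
  | zero => intro x hx; exact ⟨0, by simp, by simpa [eq_comm] using hx⟩
  | succ h ih =>
    intro x hx
    rw [succ_nsmul] at hx
    obtain ⟨y, hy, b, hb, rfl⟩ := mem_add.1 hx
    obtain ⟨l, h1, rfl⟩ := ih y hy
    exact ⟨fun c => l c + if c = b then 1 else 0, by simp [sum_add_distrib, hb, h1],
      by simp [add_smul, sum_add_distrib, hb]⟩

theorem struct {p j : ℕ} (hp : p.Prime) (hodd : Odd p) (hG : ∀ x : G, p • x = 0) (hj : j + 2 < p)
    {A : Finset G} (hA : A.Nonempty) (hs : signedSum (j + 2) A ⊆ ↑((j + 2) • A))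
    (hmin : ∀ B : Finset G, #B = #A → #((j + 2) • A) ≤ #((j + 2) • B)) :
    ∃ d x, d ∣ Fintype.card G ∧ #A ≤ (x + 1) * d ∧ #((j + 2) • A) = ((j + 2) * x + 1) * d ∧
      (j + 2) * x + 1 < p := by
  classical
  have kn := kneser_nsmul hA (j + 1)
  set H := st ((j + 2) • A) with hH
  have sH : Sg H := sg_st _
  let φ := QuotientAddGroup.mk' (toSub sH)
  have hφ : ∀ x, φ x = 0 ↔ x ∈ H := fun x => QuotientAddGroup.eq_zero_iff x
  have c : ∀ X : Finset G, #(X + H) = #(X.image φ) * #H := fun X => by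
    have h1 := SF02.card_pre φ (QuotientAddGroup.mk'_surjective _) (X.image φ)
    have h2 := SF02.card_pre φ (QuotientAddGroup.mk'_surjective _) {0}
    rw [show univ.filter (fun x => φ x ∈ ({0} : Finset _)) = H by ext; simp [hφ]] at h2
    rw [show univ.filter (fun x => φ x ∈ X.image φ) = X + H by
      ext x
      simp only [mem_filter, mem_univ, true_and, mem_image, mem_add]
      exact ⟨fun ⟨a, ha, e⟩ => ⟨a, ha, x - a, (hφ _).1 (by rw [map_sub, e, sub_self]), by simp⟩,
        fun ⟨a, ha, b, hb, e⟩ => ⟨a, ha, by rw [← e, map_add, (hφ b).2 hb, add_zero]⟩⟩] at h1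
    rw [card_singleton, one_mul] at h2
    rw [← h2, ← mul_assoc] at h1
    exact Nat.eq_of_mul_eq_mul_right Fintype.card_pos h1
  obtain ⟨x, hx⟩ := Nat.exists_eq_add_one.2 (card_pos.2 (hA.image φ))
  have hd : #H ∣ Fintype.card G := Per.card_dvd sH (fun x hx k hk => mem_univ _ : Per H univ)
  have c1 : #A ≤ (x + 1) * #H := by rw [← hx, ← c]; exact card_le_card (sH.subset_add A)
  obtain ⟨B, b1, b2⟩ := small_sumset (j + 2) _ G (Nat.lt_succ_self _) _ hd _ x (card_pos.2 hA)
    (card_le_univ _) c1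
  have c2 := (hmin B b1).trans b2
  change (j + 1 + 1) * #(A + H) ≤ #((j + 2) • A) + (j + 1) * #H at kn
  rw [c, hx] at kn
  have c3 : #((j + 2) • A) = ((j + 2) * x + 1) * #H := by nlinarith
  refine ⟨#H, x, hd, c1, c3, ?_⟩
  rcases x with _ | x
  · omega
  have c4 := c ((j + 2) • A)
  rw [show (j + 2) • A + H = _ from add_st _, c3, image_nsmul] at c4
  rw [Nat.eq_of_mul_eq_mul_right sH.pos c4]
  have mem : ∀ y, φ y ∈ (j + 2) • A.image φ ↔ y ∈ (j + 2) • A := fun y => by
    rw [← image_nsmul]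
    refine ⟨fun e => ?_, mem_image_of_mem _⟩
    obtain ⟨z, hz, e⟩ := mem_image.1 e
    simpa using mem_st.1 ((hφ (y - z)).1 (by rw [map_sub, e, sub_self])) z hz
  refine core hp hodd (fun y => ?_) hj (by omega) (fun y hy => ?_) ?_ (fun y hy => ?_)
    fun b hb b' hb' a ha n1 n2 => ?_
  · obtain ⟨y, rfl⟩ := QuotientAddGroup.mk'_surjective _ y
    rw [← map_nsmul, hG, map_zero]
  · obtain ⟨y, rfl⟩ := QuotientAddGroup.mk'_surjective _ y
    exact mem_singleton.2 ((hφ y).2 (mem_st.2 fun z hz =>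
      (mem _).1 (map_add φ z y ▸ mem_st.1 hy _ ((mem z).2 hz))))
  · rw [← Nat.eq_of_mul_eq_mul_right sH.pos c4, hx]; nlinarith
  · obtain ⟨y, rfl⟩ := QuotientAddGroup.mk'_surjective _ y
    obtain ⟨l, l1, l2⟩ := sub_signed _ _ _ ((mem y).1 hy)
    rw [← map_neg]
    exact (mem _).2 (hs ⟨fun a => -l a, by simpa using l1, by simp [l2]⟩)
  · obtain ⟨b, hb, rfl⟩ := mem_image.1 hb
    obtain ⟨b', hb', rfl⟩ := mem_image.1 hb'
    obtain ⟨a, ha, rfl⟩ := mem_image.1 ha
    have m1 : b' ≠ b := fun e => n1 (by rw [e])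
    have m2 : b' ≠ a := fun e => n2 (by rw [e])
    rw [← map_sub, ← map_nsmul, ← map_add]
    refine (mem _).2 (hs ⟨fun c => (if c = b then 1 else 0) - (if c = b' then 1 else 0) +
      if c = a then (j : ℤ) else 0, ?_, by simp [add_smul, sub_smul, sum_add_distrib, *]⟩)
    rw [sum_congr rfl (g := fun c => (if c = b then 1 else 0) + (if c = b' then 1 else 0) +
      if c = a then j else 0) fun c _ => by split_ifs <;> simp_all <;> omega]
    simp [sum_add_distrib, *]
    omega

theorem main (p r h m δ k c : ℕ) (hp : p.Prime) (hodd : Odd p) (h2 : 2 ≤ h) (hh : h ≤ p - 1)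
    (hm : 2 ≤ m) (hm' : m ≤ p ^ r) (hδ : δ = if h ∣ p - 1 then 0 else 1)
    (hk : IsGreatest {k | p ^ k + δ ≤ h * m - h + 1} k)
    (hc : IsGreatest {c | (h * c + 1) * p ^ k ≤ h * m - h + 1} c) (hmc : (c + 1) * p ^ k < m) :
    rho (Fin r → ZMod p) m h < rhoPM (Fin r → ZMod p) m h := by
  have : NeZero p := ⟨hp.ne_zero⟩
  have cG : Fintype.card (Fin r → ZMod p) = p ^ r := by simp
  obtain ⟨j, rfl⟩ := Nat.exists_eq_add_of_le' h2
  obtain ⟨A₀, -, h0⟩ := exists_subset_card_eq (s := (univ : Finset (Fin r → ZMod p)))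
    (n := m) (by rwa [card_univ, cG])
  obtain ⟨A, rfl, a2⟩ := Nat.sInf_mem (s := {k | ∃ A : Finset (Fin r → ZMod p), A.card = m ∧
    (signedSum (j + 2) A).ncard = k}) ⟨_, A₀, h0, rfl⟩
  obtain ⟨B₀, b1, b2⟩ := Nat.sInf_mem (s := {k | ∃ B : Finset (Fin r → ZMod p), B.card = #A ∧
    (sumset (j + 2) B).ncard = k}) ⟨_, A₀, h0, rfl⟩
  by_contra hcon
  rw [not_lt, rho, rhoPM, ← a2] at hcon
  have low : ∀ B : Finset (Fin r → ZMod p), #B = #A →
      (signedSum (j + 2) A).ncard ≤ #((j + 2) • B) := fun B hB =>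
    hcon.trans (Nat.sInf_le ⟨B, hB, by rw [sumset_eq, Set.ncard_coe_finset]⟩)
  have sub : ↑((j + 2) • A) ⊆ signedSum (j + 2) A := fun x hx => by
    obtain ⟨l, l1, l2⟩ := sub_signed _ _ _ hx
    exact ⟨fun a => l a, by simpa using l1, by simpa using l2⟩
  have eq := Set.eq_of_subset_of_ncard_le sub (by rw [Set.ncard_coe_finset]; exact low A rfl)
  rw [← eq, Set.ncard_coe_finset] at low
  have hp1 := hp.one_lt
  obtain ⟨d, x, d1, d2, d3, d4⟩ := struct hp hodd (fun x => by ext i; simp) (by omega)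
    (card_pos.1 (by omega)) eq.ge low
  obtain ⟨i, hi, rfl⟩ := (Nat.dvd_prime_pow hp).1 (cG ▸ d1)
  have ek := fun d hd x hx => small_sumset (j + 2) _ (Fin r → ZMod p) (Nat.lt_succ_self _) d hd
    #A x (by omega) (card_le_univ _) hx
  obtain ⟨m, hm1⟩ : ∃ m, #A = m + 1 := Nat.exists_eq_add_one.2 (by omega)
  have eF : (j + 2) * #A - (j + 2) + 1 = (j + 2) * m + 1 := by rw [hm1, mul_add_one]; simp
  rw [eF] at hk hc
  obtain ⟨B, e1, e2⟩ := ek 1 (one_dvd _) m (by omega)
  have f1 := (low B e1).trans e2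
  rw [d3, mul_one] at f1
  have pi := pow_pos hp.pos i
  by_cases c1 : p ^ i + δ ≤ (j + 2) * m + 1
  · rcases (hk.2 c1).lt_or_eq with l | rfl
    · have : p ^ (i + 1) ≤ p ^ k := Nat.pow_le_pow_right hp.pos l
      rw [pow_succ] at this
      nlinarith [Nat.zero_le (c * p ^ k), Nat.zero_le (j * x)]
    · have : x ≤ c := hc.2 f1
      nlinarith
  have f2 : p ^ i ≤ ((j + 2) * x + 1) * p ^ i := Nat.le_mul_of_pos_left _ (by omega)
  split_ifs at hδ with c2
  · omega
  rcases i with _ | i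
  · rw [pow_zero] at c1
    have : 0 < (j + 2) * m := Nat.mul_pos (by omega) (by omega)
    omega
  have pi' := pow_pos hp.pos i
  obtain ⟨B, e3, e4⟩ := ek (p ^ i) (cG ▸ pow_dvd_pow _ (by omega)) (m / p ^ i) (by
    have := Nat.lt_div_mul_add (a := m) pi'
    rw [hm1, add_mul, one_mul]; omega)
  have f3 := (low B e3).trans e4
  rw [d3] at f3
  have f4 := Nat.div_mul_le_self m (p ^ i)
  have f5 : p ≤ (j + 2) * (m / p ^ i) + 1 :=
    Nat.le_of_mul_le_mul_right (c := p ^ i) (by rw [← pow_succ']; omega) pi'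
  have f6 : (j + 2) * (m / p ^ i) < p := Nat.lt_of_mul_lt_mul_right (a := p ^ i) (by
    rw [← pow_succ', mul_assoc]
    have := Nat.mul_le_mul_left (j + 2) f4
    omega)
  exact c2 ⟨m / p ^ i, by omega⟩

end Pool.Agent.H2.Signed
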