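import Mathlib
import Pool.Agent.H2.RhoProof

namespace Pool.Agent.H2.Signed

open Finset Pointwise

theorem lit : ¬ rho (Fin 2 → ZMod 5) 2 3 < rhoPM (Fin 2 → ZMod 5) 2 3 := by
  rw [not_lt]
  have h1 : rhoPM (Fin 2 → ZMod 5) 2 3 ≤ 4 := by
    refine le_trans (b := (signedSum 3 ({![1, 0], ![-1, 0]} : Finset (Fin 2 → ZMod 5))).ncard)
      (Nat.sInf_le ⟨_, by decide, rfl⟩) ?_
    refine (Set.ncard_le_ncard (t := (({![1, 0], ![2, 0], ![3, 0], ![4, 0]} :
      Finset (Fin 2 → ZMod 5)) : Set _)) ?_ (Finset.finite_toSet _)).trans (by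
        rw [Set.ncard_coe_finset]; exact card_le_four)
    rintro x ⟨l, h1, rfl⟩
    rw [sum_pair (by decide)] at h1 ⊢
    generalize l ![1, 0] = a at *
    generalize l ![-1, 0] = b at *
    have : -3 ≤ a ∧ a ≤ 3 ∧ -3 ≤ b ∧ b ≤ 3 := by omega
    obtain ⟨a1, a2, b1, b2⟩ := this
    rw [mem_coe]
    interval_cases a <;> interval_cases b <;> first | omega | decide
  refine h1.trans (le_csInf ⟨_, {![1, 0], ![-1, 0]}, by decide, rfl⟩ ?_)
  rintro _ ⟨A, hA, rfl⟩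
  obtain ⟨a, b, hab, rfl⟩ := card_eq_two.1 hA
  rw [sumset_eq, Set.ncard_coe_finset]
  revert a b
  decide +kernel

end Pool.Agent.H2.Signed
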