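import Mathlib

/-! Finitely supported measures on the integers: radially decreasing majorants. -/

namespace Pool.Agent.H2.Ri

open Finset

abbrev A := AddMonoidAlgebra ℝ ℤ

noncomputable def s (h : ℤ) : A := AddMonoidAlgebra.single h 1

noncomputable def cf (x : ℤ) : A →ₗ[ℝ] ℝ where
  toFun f := f.coeff x
  map_add' _ _ := rfl
  map_smul' _ _ := rfl

noncomputable def La (φ : ℤ → ℝ) : A →ₗ[ℝ] ℝ where
  toFun f := Finsupp.linearCombination ℝ φ f.coeff
  map_add' f g := by rw [AddMonoidAlgebra.coeff_add, map_add]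
  map_smul' c f := by rw [AddMonoidAlgebra.coeff_smul, map_smul]; rfl

lemma ext' {f g : A} (h : ∀ x, cf x f = cf x g) : f = g :=
  AddMonoidAlgebra.coeff_injective (Finsupp.ext h)

lemma s_mul (a b : ℤ) : s a * s b = s (a + b) := by
  rw [s, s, AddMonoidAlgebra.single_mul_single, one_mul]; rfl

lemma s_zero : s 0 = 1 := rfl

lemma single_eq (h : ℤ) (a : ℝ) : AddMonoidAlgebra.single h a = a • s h := by
  rw [s, AddMonoidAlgebra.smul_single, smul_eq_mul, mul_one]

lemma cf_s_mul (x h : ℤ) (f : A) : cf x (s h * f) = cf (x - h) f := by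
  show (AddMonoidAlgebra.single h (1 : ℝ) * f).coeff x = f.coeff (x - h)
  rw [AddMonoidAlgebra.coeff_single_mul_apply, one_mul, neg_add_eq_sub]

lemma cf_s (x h : ℤ) : cf x (s h) = if h = x then 1 else 0 := by
  show (Finsupp.single h (1 : ℝ)) x = _
  rw [Finsupp.single_apply]

lemma La_s (φ : ℤ → ℝ) (h : ℤ) : La φ (s h) = φ h := by
  show Finsupp.linearCombination ℝ φ (Finsupp.single h 1) = _
  simp

lemma La_s_mul (φ : ℤ → ℝ) (h : ℤ) (f : A) : La φ (s h * f) = La (fun x => φ (h + x)) f := by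
  induction f using AddMonoidAlgebra.induction_linear with
  | zero => simp
  | add f g a b => rw [mul_add, map_add, map_add, a, b]
  | single m r => rw [single_eq, mul_smul_comm, map_smul, map_smul, s_mul, La_s, La_s]

lemma La_sum (φ : ℤ → ℝ) (f : A) (T : Finset ℤ) (hT : ∀ x, cf x f ≠ 0 → x ∈ T) :
    La φ f = ∑ x ∈ T, cf x f * φ x := by
  show Finsupp.linearCombination ℝ φ f.coeff = _
  rw [Finsupp.linearCombination_apply, Finsupp.sum_of_support_subset _
    (fun x hx => hT x (Finsupp.mem_support_iff.1 hx)) _ (by simp)]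
  rfl

lemma cf_mul (x : ℤ) (f g : A) : cf x (f * g) = La (fun h => cf (x - h) g) f := by
  induction f using AddMonoidAlgebra.induction_linear with
  | zero => simp
  | add f g a b => rw [add_mul, map_add, map_add, a, b]
  | single m r => rw [single_eq, smul_mul_assoc, map_smul, map_smul, cf_s_mul, La_s]

lemma supp (f : A) : ∀ x, cf x f ≠ 0 → x ∈ f.coeff.support := fun _ => Finsupp.mem_support_iff.2

lemma ex_bd (f : A) : ∃ N : ℕ, ∀ x : ℤ, (N : ℤ) ≤ |x| → cf x f = 0 := by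
  refine ⟨f.coeff.support.sup Int.natAbs + 1, fun x hx => ?_⟩
  by_contra h
  have := Finset.le_sup (f := Int.natAbs) (supp f x h)
  rw [Int.abs_eq_natAbs] at hx
  omega

noncomputable def ms : A →ₗ[ℝ] ℝ := La fun _ => 1

lemma ms_s (h : ℤ) : ms (s h) = 1 := La_s _ _
lemma ms_one : ms 1 = 1 := ms_s 0

lemma ms_mul (f g : A) : ms (f * g) = ms f * ms g := by
  induction f using AddMonoidAlgebra.induction_linear with
  | zero => simp
  | add f g a b => rw [add_mul, map_add, map_add, a, b, add_mul]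
  | single m r =>
    rw [single_eq, smul_mul_assoc, map_smul, map_smul, ms_s, smul_mul_assoc, one_mul]
    exact congrArg _ (La_s_mul _ _ _)

def Pos (f : A) : Prop := ∀ x, 0 ≤ cf x f

lemma La_le {φ : ℤ → ℝ} (hφ : ∀ x, 0 ≤ φ x) {f : A} (hf : Pos f) (F : Finset ℤ) :
    ∑ x ∈ F, cf x f * φ x ≤ La φ f := by
  rw [La_sum φ f (F ∪ f.coeff.support) fun x hx => mem_union_right _ (supp f x hx)]
  exact sum_le_sum_of_subset_of_nonneg subset_union_left fun x _ _ => mul_nonneg (hf x) (hφ x)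

lemma La_nonneg {φ : ℤ → ℝ} (hφ : ∀ x, 0 ≤ φ x) {f : A} (hf : Pos f) : 0 ≤ La φ f := by
  simpa using La_le hφ hf ∅

lemma Pos.mul {f g : A} (hf : Pos f) (hg : Pos g) : Pos (f * g) := fun x => by
  rw [cf_mul]; exact La_nonneg (fun _ => hg _) hf

lemma Pos.ms {f : A} (hf : Pos f) : 0 ≤ ms f := La_nonneg (fun _ => zero_le_one) hf

noncomputable def I : ℕ → A
  | 0 => 1
  | r + 1 => I r + s (r + 1) + s (-(r + 1))

lemma cf_I (r : ℕ) (x : ℤ) : cf x (I r) = if |x| ≤ r then 1 else 0 := by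
  induction r with
  | zero => simp [I, ← s_zero, cf_s, eq_comm]
  | succ r ih =>
    simp only [I, map_add, ih, cf_s, Int.abs_eq_natAbs]
    split_ifs <;> first | omega | norm_num

lemma ms_I (r : ℕ) : ms (I r) = 2 * r + 1 := by
  induction r with
  | zero => simp [I, ms_one]
  | succ r ih => simp only [I, map_add, ih, ms_s]; push_cast; ring

lemma D_I (e : ℤ) (he : e = 1 ∨ e = -1) (r : ℕ) :
    (1 - s e) * I r = s (-(e * r)) - s (e * (r + 1)) := by
  induction r with
  | zero => simp [I, s_zero]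
  | succ r ih =>
    simp only [I, mul_add, ih, sub_mul, one_mul, s_mul]
    rcases he with rfl | rfl
    · have : (1 : ℤ) + -((r : ℤ) + 1) = -(1 * r) := by ring
      rw [this]; push_cast; ring_nf
    · have : (-1 : ℤ) + ((r : ℤ) + 1) = -(-1 * r) := by ring
      rw [← mul_add, ← add_assoc, add_assoc (-1 : ℤ), this]; push_cast; ring_nf

def Uni (g : A) : Prop := Pos g ∧ ∀ x y : ℤ, |x| ≤ |y| → cf y g ≤ cf x g

lemma Uni.symm {g : A} (h : Uni g) (x : ℤ) : cf (-x) g = cf x g :=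
  le_antisymm (h.2 _ _ (abs_neg x).ge) (h.2 _ _ (abs_neg x).le)

lemma Uni.abs {g : A} (h : Uni g) (x : ℤ) : cf x g = cf (x.natAbs : ℤ) g :=
  le_antisymm (h.2 _ _ (by simp)) (h.2 _ _ (by simp))

lemma uni_of {g : A} (h0 : Pos g) (h1 : ∀ x, cf (-x) g = cf x g)
    (h2 : ∀ n : ℕ, cf (n + 1) g ≤ cf n g) : Uni g := by
  refine ⟨h0, fun x y hxy => ?_⟩
  have a : ∀ x : ℤ, cf x g = cf (x.natAbs : ℤ) g := fun x => by
    rcases Int.natAbs_eq x with h | h
    · rw [← h]
    · rw [← h1 x]; congr 2; omega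
  have m : Antitone fun n : ℕ => cf n g := antitone_nat_of_succ_le fun n => by
    simpa using h2 n
  rw [a x, a y]
  exact m (by rw [Int.abs_eq_natAbs, Int.abs_eq_natAbs] at hxy; omega)

lemma uni_I (r : ℕ) : Uni (I r) := by
  refine ⟨fun x => ?_, fun x y h => ?_⟩ <;> simp only [cf_I] <;> split_ifs <;>
    first | omega | norm_num

lemma Uni.add {f g : A} (hf : Uni f) (hg : Uni g) : Uni (f + g) :=
  ⟨fun x => by rw [map_add]; exact add_nonneg (hf.1 x) (hg.1 x),
   fun x y h => by rw [map_add, map_add]; exact add_le_add (hf.2 x y h) (hg.2 x y h)⟩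

lemma Uni.smul {f : A} (hf : Uni f) {c : ℝ} (hc : 0 ≤ c) : Uni (c • f) :=
  ⟨fun x => by rw [map_smul]; exact mul_nonneg hc (hf.1 x),
   fun x y h => by rw [map_smul, map_smul]; exact mul_le_mul_of_nonneg_left (hf.2 x y h) hc⟩

lemma uni_zero : Uni 0 := ⟨fun x => by simp, fun x y _ => by simp⟩

lemma uni_sum {ι : Type*} (S : Finset ι) (f : ι → A) (h : ∀ i ∈ S, Uni (f i)) :
    Uni (∑ i ∈ S, f i) := sum_induction f Uni (fun _ _ => Uni.add) uni_zero h

lemma Uni.I_mul {g : A} (hg : Uni g) (r : ℕ) : Uni (I r * g) := by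
  refine uni_of ((uni_I r).1.mul hg.1) (fun x => ?_) fun n => ?_
  · induction r with
    | zero => simpa [I] using hg.symm x
    | succ r ih =>
      simp only [I, add_mul, map_add, ih, cf_s_mul]
      rw [← hg.symm (x - (r + 1)), ← hg.symm (x - -(r + 1))]
      ring_nf
  · have := congrArg (fun f => cf (n + 1) (f * g)) (D_I 1 (Or.inl rfl) r)
    simp only [sub_mul, one_mul, map_sub, mul_assoc, cf_s_mul, add_sub_cancel_right] at this
    have h := hg.2 (n + 1 - (r + 1)) (n + 1 - -r) (by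
      rw [Int.abs_eq_natAbs, Int.abs_eq_natAbs]; omega)
    linarith

lemma Uni.dec {g : A} (hg : Uni g) : ∃ (N : ℕ) (d : ℕ → ℝ), (∀ r, 0 ≤ d r) ∧
    g = ∑ r ∈ range N, d r • I r := by
  obtain ⟨N, hN⟩ := ex_bd g
  refine ⟨N, fun r => cf r g - cf (r + 1 : ℕ) g, fun r => sub_nonneg.2 (hg.2 _ _ (by
    rw [Int.abs_eq_natAbs, Int.abs_eq_natAbs]; omega)), ext' fun x => ?_⟩
  have key : ∀ M : ℕ, cf x (∑ r ∈ range M, (cf r g - cf (r + 1 : ℕ) g) • I r) =
      if x.natAbs ≤ M then cf x g - cf M g else 0 := by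
    intro M
    induction M with
    | zero =>
      split_ifs with h
      · have : x = 0 := by omega
        simp [this]
      · simp
    | succ M ih =>
      rw [sum_range_succ, map_add, ih, map_smul, cf_I, Int.abs_eq_natAbs]
      by_cases h : x.natAbs ≤ M
      · rw [if_pos h, if_pos (by omega), if_pos (by omega)]; simp
      · rw [if_neg h, if_neg (by omega)]
        split_ifs with h'
        · rw [hg.abs x, show x.natAbs = M + 1 by omega]; simp
        · simp
  rw [key, hN N (by simp), sub_zero]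
  split_ifs with h
  · rfl
  · exact hN x (by rw [Int.abs_eq_natAbs]; omega)

lemma Uni.mul {f g : A} (hf : Uni f) (hg : Uni g) : Uni (f * g) := by
  obtain ⟨N, d, hd, rfl⟩ := hf.dec
  rw [sum_mul]
  exact uni_sum _ _ fun r _ => by rw [smul_mul_assoc]; exact (hg.I_mul r).smul (hd r)

def Dom (f : A) (c : ℝ) : Prop := ∃ g, Uni g ∧ ms g ≤ c ∧ Pos (g - f) ∧ Pos (g + f)

lemma Uni.dom {g : A} (hg : Uni g) : Dom g (ms g) :=
  ⟨g, hg, le_rfl, fun x => by simp, (hg.add hg).1⟩

lemma Dom.mono {f : A} {c c' : ℝ} (h : Dom f c) (hc : c ≤ c') : Dom f c' :=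
  h.imp fun _ h => ⟨h.1, h.2.1.trans hc, h.2.2⟩

lemma Dom.add {f g : A} {c d : ℝ} (hf : Dom f c) (hg : Dom g d) : Dom (f + g) (c + d) := by
  obtain ⟨u, u1, u2, u3, u4⟩ := hf
  obtain ⟨v, v1, v2, v3, v4⟩ := hg
  refine ⟨u + v, u1.add v1, by rw [map_add]; linarith, fun x => ?_, fun x => ?_⟩
  · have := u3 x; have := v3 x; simp only [map_add, map_sub] at *; linarith
  · have := u4 x; have := v4 x; simp only [map_add, map_sub] at *; linarith

lemma Dom.neg {f : A} {c : ℝ} (hf : Dom f c) : Dom (-f) c := by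
  obtain ⟨u, u1, u2, u3, u4⟩ := hf
  exact ⟨u, u1, u2, by rwa [sub_neg_eq_add], by rwa [← sub_eq_add_neg]⟩

lemma Dom.smul {f : A} {c : ℝ} (hf : Dom f c) {a : ℝ} (ha : 0 ≤ a) : Dom (a • f) (a * c) := by
  obtain ⟨u, u1, u2, u3, u4⟩ := hf
  refine ⟨a • u, u1.smul ha, by rw [map_smul]; exact mul_le_mul_of_nonneg_left u2 ha,
    fun x => ?_, fun x => ?_⟩
  · rw [← smul_sub, map_smul]; exact mul_nonneg ha (u3 x)
  · rw [← smul_add, map_smul]; exact mul_nonneg ha (u4 x)

lemma dom_sum {ι : Type*} (S : Finset ι) (f : ι → A) (c : ι → ℝ) (h : ∀ i ∈ S, Dom (f i) (c i)) :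
    Dom (∑ i ∈ S, f i) (∑ i ∈ S, c i) := by
  classical
  induction S using Finset.induction_on with
  | empty => simpa using uni_zero.dom
  | insert a S ha ih =>
    rw [sum_insert ha, sum_insert ha]
    exact (h a (mem_insert_self _ _)).add (ih fun i hi => h i (mem_insert_of_mem hi))

lemma Dom.mul {f g : A} {c d : ℝ} (hf : Dom f c) (hg : Dom g d) : Dom (f * g) (c * d) := by
  obtain ⟨u, u1, u2, u3, u4⟩ := hf
  obtain ⟨v, v1, v2, v3, v4⟩ := hg
  refine ⟨u * v, u1.mul v1, by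
    rw [ms_mul]; exact mul_le_mul u2 v2 v1.1.ms (u1.1.ms.trans u2), fun x => ?_, fun x => ?_⟩
  · have a := u3.mul v4 x
    have b := u4.mul v3 x
    have e : (u - f) * (v + g) + (u + f) * (v - g) = (u * v - f * g) + (u * v - f * g) := by ring
    have := congrArg (cf x) e
    simp only [map_add (cf x) (_ * _ - _ * _), map_add (cf x) (_ * _)] at this
    linarith
  · have a := u3.mul v3 x
    have b := u4.mul v4 x
    have e : (u - f) * (v - g) + (u + f) * (v + g) = (u * v + f * g) + (u * v + f * g) := by ring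
    have := congrArg (cf x) e
    rw [map_add, map_add (cf x) (u * v + f * g)] at this
    linarith

lemma Dom.pow {f : A} {c : ℝ} (hf : Dom f c) (m : ℕ) : Dom (f ^ m) (c ^ m) := by
  induction m with
  | zero => simpa [ms_one, I] using (uni_I 0).dom
  | succ m ih => rw [pow_succ, pow_succ]; exact ih.mul hf

lemma Dom.dual {f : A} {c t : ℝ} (hf : Dom f c) (ht : 0 ≤ t) {φ : ℤ → ℝ} (hφ : ∀ x, 0 ≤ φ x)
    (h : ∀ r : ℕ, La φ (I r) ≤ (2 * r + 1) * t) (F : Finset ℤ) :
    ∑ x ∈ F, |cf x f| * φ x ≤ c * t := by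
  obtain ⟨u, u1, u2, u3, u4⟩ := hf
  have a : ∑ x ∈ F, |cf x f| * φ x ≤ ∑ x ∈ F, cf x u * φ x := sum_le_sum fun x _ => by
    have := u3 x; have := u4 x
    simp only [map_add, map_sub] at *
    exact mul_le_mul_of_nonneg_right (abs_le.2 ⟨by linarith, by linarith⟩) (hφ x)
  refine a.trans ((La_le hφ u1.1 F).trans (le_trans ?_ (mul_le_mul_of_nonneg_right u2 ht)))
  obtain ⟨N, d, hd, rfl⟩ := u1.dec
  simp only [map_sum, map_smul, ms_I, smul_eq_mul, sum_mul, mul_assoc]
  exact sum_le_sum fun r _ => mul_le_mul_of_nonneg_left (h r) (hd r)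

lemma dec0 {N : ℕ} {d : ℕ → ℝ} : cf 0 (∑ r ∈ range N, d r • I r) = ∑ r ∈ range N, d r := by
  simp [map_sum, cf_I]

lemma Uni.shift {g : A} (hg : Uni g) (h : ℤ) : Dom (s h * g) (ms g + 2 * h.natAbs * cf 0 g) := by
  obtain ⟨N, d, hd, rfl⟩ := hg.dec
  rw [dec0, mul_sum, map_sum, mul_sum, ← sum_add_distrib]
  refine dom_sum _ _ _ fun r _ => ?_
  have : Dom (s h * I r) (2 * r + 1 + 2 * h.natAbs) := by
    refine ⟨I (r + h.natAbs), uni_I _, by rw [ms_I, Nat.cast_add]; linarith, fun x => ?_,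
      fun x => ?_⟩ <;> simp only [map_add, map_sub, cf_s_mul, cf_I, Int.abs_eq_natAbs] <;>
      split_ifs <;> first | omega | norm_num
  rw [mul_smul_comm, map_smul, ms_I]
  convert this.smul (hd r) using 1
  simp only [smul_eq_mul]; ring

lemma diff (e : ℤ) (he : e = 1 ∨ e = -1) {V W : A} (hV : Uni V) (hW : Uni W) (mV : ms V = 1)
    (mW : ms W = 1) : Dom ((1 - s e) * V * W) (2 * (cf 0 V + cf 0 W)) := by
  obtain ⟨N, d, hd, rfl⟩ := hV.dec
  have e1 : 2 * (cf 0 (∑ r ∈ range N, d r • I r) + cf 0 W) =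
      ∑ r ∈ range N, d r * (2 + 2 * (2 * r + 1) * cf 0 W) := by
    simp only [map_sum, map_smul, ms_I, smul_eq_mul] at mV
    rw [dec0]
    have : ∀ r : ℕ, d r * (2 + 2 * (2 * r + 1) * cf 0 W) =
      2 * d r + 2 * cf 0 W * (d r * (2 * r + 1)) := fun r => by ring
    simp only [this, sum_add_distrib, ← mul_sum, mV]; ring
  rw [e1, mul_sum, sum_mul]
  refine dom_sum _ _ _ fun r _ => ?_
  rw [mul_smul_comm, smul_mul_assoc, D_I e he, sub_mul, sub_eq_add_neg]
  refine Dom.smul (((hW.shift _).add (hW.shift _).neg).mono (le_of_eq ?_)) (hd r)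
  have a1 : (-(e * r)).natAbs = r := by rcases he with rfl | rfl <;> omega
  have a2 : (e * (r + 1)).natAbs = r + 1 := by rcases he with rfl | rfl <;> omega
  rw [a1, a2, mW]; push_cast; ring

end Pool.Agent.H2.Ri
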