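import Pool.Agent.H2.RiA

/-! Log-concavity, the local bound and the exchangeability estimate. -/

namespace Pool.Agent.H2.Ri

open Finset

def LC (f : A) : Prop := ∀ x x' y y' : ℤ, x ≤ x' → y ≤ y' →
  cf (x - y') f * cf (x' - y) f ≤ cf (x - y) f * cf (x' - y') f

lemma lc_I (r : ℕ) : LC (I r) := by
  intro x x' y y' h1 h2
  simp only [cf_I, Int.abs_eq_natAbs]
  split_ifs <;> first | omega | norm_num

lemma LC.smul {f : A} (hf : LC f) (c : ℝ) : LC (c • f) := by
  intro x x' y y' h1 h2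
  have := mul_le_mul_of_nonneg_left (hf x x' y y' h1 h2) (mul_self_nonneg c)
  simp only [map_smul, smul_eq_mul]
  linarith

lemma LC.mul {f g : A} (hf : LC f) (hg : LC g) : LC (f * g) := by
  classical
  intro x x' y y' h1 h2
  set T := f.coeff.support.image (x - ·) ∪ f.coeff.support.image (x' - ·) with hT
  have e : ∀ z, z = x ∨ z = x' → ∀ w, cf (z - w) (f * g) = ∑ a ∈ T, cf (z - a) f * cf (a - w) g := by
    intro z hz w
    rw [cf_mul, La_sum _ f (T.image (z - ·)), sum_image (fun a _ b _ h => sub_right_injective h)]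
    · exact sum_congr rfl fun a _ => by congr 3; ring
    · intro u hu
      refine mem_image.2 ⟨z - u, ?_, by ring⟩
      rcases hz with rfl | rfl
      · exact mem_union_left _ (mem_image_of_mem _ (supp f u hu))
      · exact mem_union_right _ (mem_image_of_mem _ (supp f u hu))
  rw [e x (Or.inl rfl), e x' (Or.inr rfl), e x (Or.inl rfl), e x' (Or.inr rfl)]
  set p : ℤ → ℝ := fun a => cf (x - a) f
  set p' : ℤ → ℝ := fun a => cf (x' - a) f
  set q : ℤ → ℝ := fun a => cf (a - y) g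
  set q' : ℤ → ℝ := fun a => cf (a - y') g
  have key : 0 ≤ ∑ a ∈ T, ∑ b ∈ T, (p a * p' b - p b * p' a) * (q a * q' b - q' a * q b) := by
    refine sum_nonneg fun a _ => sum_nonneg fun b _ => ?_
    rcases le_total a b with h | h
    · exact mul_nonneg (sub_nonneg.2 (hf x x' a b h1 h)) (sub_nonneg.2 (hg a b y y' h h2))
    · refine mul_nonneg_of_nonpos_of_nonpos (sub_nonpos.2 (hf x x' b a h1 h)) (sub_nonpos.2 ?_)
      linarith [hg b a y y' h h2]
  have ex : ∀ a b, (p a * p' b - p b * p' a) * (q a * q' b - q' a * q b) =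
      (p a * q a) * (p' b * q' b) + (p' a * q' a) * (p b * q b) -
      (p a * q' a) * (p' b * q b) - (p' a * q a) * (p b * q' b) := fun a b => by ring
  simp only [ex, sum_sub_distrib, sum_add_distrib, ← sum_mul_sum] at key
  show (∑ a ∈ T, p a * q' a) * (∑ a ∈ T, p' a * q a) ≤
    (∑ a ∈ T, p a * q a) * ∑ a ∈ T, p' a * q' a
  linarith

noncomputable def vr : A →ₗ[ℝ] ℝ := La fun x => (x : ℝ) ^ 2

lemma La_add (φ ψ : ℤ → ℝ) (f : A) : La (fun x => φ x + ψ x) f = La φ f + La ψ f := by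
  simp only [La_sum _ f _ (supp f), mul_add, sum_add_distrib]

lemma vr_I_mul (r : ℕ) (W : A) :
    vr (I r * W) = (2 * r + 1) * vr W + r * (r + 1) * (2 * r + 1) / 3 * ms W := by
  induction r with
  | zero => simp [I]
  | succ r ih =>
    have : vr (s (r + 1) * W) + vr (s (-(r + 1)) * W) = 2 * vr W + 2 * (r + 1) ^ 2 * ms W := by
      simp only [vr, ms, La_s_mul, La_sum _ W _ (supp W), mul_sum, ← sum_add_distrib]
      exact sum_congr rfl fun x _ => by push_cast; ring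
    simp only [I, add_mul (I r + _), add_mul (I r), map_add, ih]
    push_cast; linarith

lemma local_bd {V : A} (hV : Uni V) (hl : LC V) (hm : ms V = 1) : cf 0 V ^ 2 * vr V ≤ 80 := by
  classical
  obtain ⟨N, hN⟩ := ex_bd V
  set M := cf 0 V with hM
  rcases (hV.1 0).eq_or_lt with h0 | h0
  · rw [hM, ← h0]; norm_num
  have ex : ∃ t : ℕ, cf t V ≤ M / 2 := ⟨N, by rw [hN N (by simp)]; positivity⟩
  set t := Nat.find ex
  have sm : ∀ n : ℕ, ∑ x ∈ range n, cf x V ≤ 1 := by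
    intro n
    have := La_le (φ := fun _ => 1) (fun _ => zero_le_one) hV.1 ((range n).image Nat.cast)
    rw [sum_image (fun a _ b _ h => Nat.cast_injective h)] at this
    simpa using this.trans_eq hm
  have t1 : t * M ≤ 2 := by
    have : ∑ _x ∈ range t, M / 2 ≤ ∑ x ∈ range t, cf x V :=
      sum_le_sum fun x hx => (not_le.1 (Nat.find_min ex (mem_range.1 hx))).le
    simp only [sum_const, card_range, nsmul_eq_mul] at this
    linarith [sm t]
  have t2 : ∀ x : ℕ, cf (t + x : ℕ) V ≤ cf x V / 2 := by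
    intro x
    have a := hl 0 t (-x) 0 (by omega) (by omega)
    simp only [sub_zero, sub_neg_eq_add, zero_add] at a
    have b := mul_le_mul_of_nonneg_left (Nat.find_spec ex) (hV.1 x)
    push_cast
    refine le_of_mul_le_mul_left (a := M) ?_ h0
    linarith
  set B := ∑ x ∈ range N, cf x V * (x : ℝ) ^ 2 with hB
  have b1 : B ≤ ∑ x ∈ range (t + N), cf x V * (x : ℝ) ^ 2 :=
    sum_le_sum_of_subset_of_nonneg (range_subset_range.2 (by omega))
      fun x _ _ => mul_nonneg (hV.1 x) (sq_nonneg _)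
  rw [sum_range_add] at b1
  have b2 : ∑ x ∈ range t, cf x V * (x : ℝ) ^ 2 ≤ t ^ 2 := by
    have : ∑ x ∈ range t, cf x V * (x : ℝ) ^ 2 ≤ ∑ x ∈ range t, cf x V * (t : ℝ) ^ 2 :=
      sum_le_sum fun x hx => mul_le_mul_of_nonneg_left (by
        have := (mem_range.1 hx).le; gcongr) (hV.1 x)
    rw [← sum_mul] at this
    nlinarith [sm t, sq_nonneg (t : ℝ)]
  have b3 : ∑ x ∈ range N, cf (t + x : ℕ) V * ((t + x : ℕ) : ℝ) ^ 2 ≤
      ∑ x ∈ range N, (3/4 * (cf x V * (x : ℝ) ^ 2) + 3/2 * t ^ 2 * cf x V) := by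
    refine sum_le_sum fun x _ => (mul_le_mul_of_nonneg_right (t2 x) (sq_nonneg _)).trans ?_
    push_cast
    nlinarith [mul_nonneg (hV.1 x) (sq_nonneg ((x : ℝ) - 2 * t))]
  rw [sum_add_distrib, ← mul_sum, ← mul_sum] at b3
  have b4 : B ≤ 10 * t ^ 2 := by nlinarith [sm N, sq_nonneg (t : ℝ)]
  have b5 : vr V ≤ 2 * B := by
    rw [vr, La_sum _ V ((range N).image Nat.cast ∪ (range N).image fun n : ℕ => -(n : ℤ))]
    · refine ((le_add_of_nonneg_right (sum_nonneg fun x _ =>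
        mul_nonneg (hV.1 x) (sq_nonneg _))).trans_eq sum_union_inter).trans_eq ?_
      rw [sum_image (fun a _ b _ h => Nat.cast_injective h),
        sum_image (fun a _ b _ h => Nat.cast_injective (neg_injective h))]
      simp only [hV.symm, hB]
      push_cast
      simp only [neg_sq]
      ring
    · intro x hx
      have : ¬ (N : ℤ) ≤ |x| := fun h => hx (hN x h)
      rw [Int.abs_eq_natAbs] at this
      simp only [mem_union, mem_image, mem_range]
      rcases Int.natAbs_eq x with h | h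
      · exact Or.inl ⟨x.natAbs, by omega, h.symm⟩
      · exact Or.inr ⟨x.natAbs, by omega, h.symm⟩
  have : (t * M) ^ 2 ≤ 2 ^ 2 := pow_le_pow_left₀ (by positivity) t1 2
  nlinarith [sq_nonneg M]

noncomputable def U (k : ℕ) : A := (2 * k + 1 : ℝ)⁻¹ • I k

lemma uni_U (k : ℕ) : Uni (U k) := (uni_I k).smul (by positivity)
lemma ms_U (k : ℕ) : ms (U k) = 1 := by
  rw [U, map_smul, ms_I, smul_eq_mul, inv_mul_cancel₀ (by positivity)]

lemma prodU {ι : Type*} (S : Finset ι) (K : ι → ℕ) : Uni (∏ i ∈ S, U (K i)) ∧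
    LC (∏ i ∈ S, U (K i)) ∧ ms (∏ i ∈ S, U (K i)) = 1 ∧
    ∑ i ∈ S, (K i : ℝ) ^ 2 ≤ 3 * vr (∏ i ∈ S, U (K i)) := by
  classical
  induction S using Finset.induction_on with
  | empty => exact ⟨uni_I 0, lc_I 0, ms_one, by simp [vr, ← s_zero, La_s]⟩
  | insert a S ha ih =>
    rw [prod_insert ha, sum_insert ha]
    obtain ⟨h1, h2, h3, h4⟩ := ih
    refine ⟨(uni_U _).mul h1, ((lc_I _).smul _).mul h2, by rw [ms_mul, ms_U, h3, one_mul], ?_⟩
    rw [U, smul_mul_assoc, map_smul, vr_I_mul, h3, smul_eq_mul]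
    have : (2 * K a + 1 : ℝ)⁻¹ * ((2 * K a + 1) * vr (∏ i ∈ S, U (K i)) +
      K a * (K a + 1) * (2 * K a + 1) / 3 * 1) = vr (∏ i ∈ S, U (K i)) + K a * (K a + 1) / 3 := by
      field_simp
    rw [this]
    nlinarith [(K a).cast_nonneg (α := ℝ)]

lemma one_sub_U (k : ℕ) : ∃ G, Uni G ∧ ms G ≤ k ^ 2 ∧ 1 - U k = (1 - s 1) * (1 - s (-1)) * G := by
  have F : ∀ h : ℕ, (1 - s 1) * (1 - s (-1)) * ∑ r ∈ range h, I r = 2 - s h - s (-h) := by
    intro h
    induction h with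
    | zero => simp [s_zero]; norm_num
    | succ h ih =>
      rw [sum_range_succ, mul_add, ih, mul_comm (1 - s 1), mul_assoc, D_I 1 (Or.inl rfl)]
      simp only [sub_mul, mul_sub, one_mul, s_mul]
      push_cast
      ring_nf
  have Fm : ∀ h : ℕ, ms (∑ r ∈ range h, I r) = h ^ 2 := by
    intro h
    induction h with
    | zero => simp
    | succ h ih => rw [sum_range_succ, map_add, ih, ms_I]; push_cast; ring
  have G : (1 - s 1) * (1 - s (-1)) * ∑ h ∈ range k, ∑ r ∈ range (h + 1), I r =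
      (2 * k + 1 : ℝ) • (1 : A) - I k := by
    induction k with
    | zero => simp [I]
    | succ k ih =>
      rw [sum_range_succ, mul_add, ih, F, I]
      push_cast
      rw [show (2 * (k + 1) + 1 : ℝ) = (2 * k + 1) + 2 by ring, add_smul (2 * k + 1 : ℝ), two_smul]
      ring
  refine ⟨(2 * k + 1 : ℝ)⁻¹ • ∑ h ∈ range k, ∑ r ∈ range (h + 1), I r,
    (uni_sum _ _ fun _ _ => uni_sum _ _ fun r _ => uni_I r).smul (by positivity), ?_, ?_⟩
  · rw [map_smul, map_sum, smul_eq_mul, inv_mul_le_iff₀ (by positivity)]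
    have : ∑ h ∈ range k, ms (∑ r ∈ range (h + 1), I r) ≤ ∑ _h ∈ range k, (k : ℝ) ^ 2 :=
      sum_le_sum fun h hh => by
        rw [Fm]; have : h + 1 ≤ k := mem_range.1 hh; gcongr
    simp only [sum_const, card_range, nsmul_eq_mul] at this
    nlinarith [k.cast_nonneg (α := ℝ), sq_nonneg (k : ℝ)]
  · rw [mul_smul_comm, G, smul_sub, smul_smul, inv_mul_cancel₀ (by positivity), one_smul, U]

noncomputable def q (k : ℕ) (S : ℝ) : ℝ := k ^ 2 / (k ^ 2 + S)

structure Gd (W : A) (S : ℝ) : Prop where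
  u : Uni W
  m : ms W = 1
  s0 : 0 ≤ S
  b : cf 0 W ^ 2 * S ≤ 240

lemma q_nonneg (k : ℕ) {S : ℝ} (h : 0 ≤ S) : 0 ≤ q k S := by unfold q; positivity

lemma four {W1 W2 W3 W4 : A} {S1 S2 S3 S4 : ℝ} (h1 : Gd W1 S1) (h2 : Gd W2 S2) (h3 : Gd W3 S3)
    (h4 : Gd W4 S4) (k : ℕ) : Dom ((1 - U k) * (W4 * (W3 * (W2 * W1))))
      (2000 * q k S1 + 2000 * q k S2 + 2000 * q k S3 + 2000 * q k S4) := by
  have n1 := q_nonneg k h1.s0
  have n2 := q_nonneg k h2.s0
  have n3 := q_nonneg k h3.s0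
  have n4 := q_nonneg k h4.s0
  rcases Nat.eq_zero_or_pos k with rfl | hk
  · have : (1 : A) - U 0 = 0 := by simp [U, I]
    rw [this, zero_mul]
    exact uni_zero.dom.mono (by rw [map_zero]; positivity)
  have hk' : (0 : ℝ) < k := by exact_mod_cast hk
  have alt : ∀ {W S}, Gd W S → 1/2 ≤ q k S ∨ 4 * k ^ 2 * cf 0 W ^ 2 ≤ 2000 * q k S := by
    intro W S h
    have s0 := h.s0
    unfold q
    rcases le_total S (k ^ 2) with h' | h'
    · left; rw [le_div_iff₀ (by positivity)]; linarith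
    · right
      rw [← mul_div_assoc, le_div_iff₀ (by positivity)]
      have := mul_le_mul_of_nonneg_left h' (sq_nonneg (cf 0 W))
      nlinarith [h.b, sq_nonneg (k : ℝ)]
  have triv : Dom ((1 - U k) * (W4 * (W3 * (W2 * W1)))) 2 := by
    have a := (uni_I 0).dom.add (uni_U k).dom.neg
    have b := (h4.u.mul (h3.u.mul (h2.u.mul h1.u))).dom
    rw [← sub_eq_add_neg] at a
    refine (a.mul b).mono ?_
    simp only [ms_mul, h1.m, h2.m, h3.m, h4.m, ms_U, ms_I]; norm_num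
  rcases alt h1 with a1 | a1
  · exact triv.mono (by linarith)
  rcases alt h2 with a2 | a2
  · exact triv.mono (by linarith)
  rcases alt h3 with a3 | a3
  · exact triv.mono (by linarith)
  rcases alt h4 with a4 | a4
  · exact triv.mono (by linarith)
  obtain ⟨G, g1, g2, g3⟩ := one_sub_U k
  have := ((diff 1 (Or.inl rfl) h1.u h2.u h1.m h2.m).mul
    (diff (-1) (Or.inr rfl) h3.u h4.u h3.m h4.m)).mul (g1.dom.mono g2)
  rw [g3]
  convert this.mono _ using 1
  · ring
  · nlinarith [mul_nonneg (sq_nonneg (k : ℝ)) (sq_nonneg (cf 0 W1 - cf 0 W3)),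
      mul_nonneg (sq_nonneg (k : ℝ)) (sq_nonneg (cf 0 W1 - cf 0 W4)),
      mul_nonneg (sq_nonneg (k : ℝ)) (sq_nonneg (cf 0 W2 - cf 0 W3)),
      mul_nonneg (sq_nonneg (k : ℝ)) (sq_nonneg (cf 0 W2 - cf 0 W4))]

lemma exch {κ : Type*} [Fintype κ] (c : κ → ℝ) (hc : ∀ k, 0 ≤ c k) (hs : ∑ k, c k ≤ 1)
    (v : κ → ℕ) (m : ℕ) : ∑ K : Fin m → κ, (∏ i, c (K i)) *
      ∑ k, c k * q (v k) (∑ i, (v (K i) : ℝ) ^ 2) ≤ 1 / (m + 1) := by
  classical
  set F : Fin (m + 1) → ℝ := fun j => ∑ K : Fin (m + 1) → κ, (∏ i, c (K i)) *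
    ((v (K j) : ℝ) ^ 2 / ∑ i, (v (K i) : ℝ) ^ 2) with hF
  have e1 : ∀ j, F j = F 0 := by
    intro j
    refine Fintype.sum_equiv (Equiv.arrowCongr (Equiv.swap 0 j) (Equiv.refl κ)) _ _ fun K => ?_
    simp only [Equiv.arrowCongr_apply, Equiv.coe_refl, Function.comp, id, Equiv.symm_swap,
      Equiv.swap_apply_left]
    rw [Equiv.prod_comp (Equiv.swap 0 j) fun i => c (K i),
      Equiv.sum_comp (Equiv.swap 0 j) fun i => (v (K i) : ℝ) ^ 2]
  have e2 : ∑ j, F j ≤ 1 := by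
    rw [hF, sum_comm]
    have : ∀ K : Fin (m + 1) → κ, ∑ j, (∏ i, c (K i)) *
        ((v (K j) : ℝ) ^ 2 / ∑ i, (v (K i) : ℝ) ^ 2) ≤ ∏ i, c (K i) := by
      intro K
      rw [← mul_sum, ← sum_div]
      exact mul_le_of_le_one_right (prod_nonneg fun _ _ => hc _) (div_self_le_one _)
    refine (sum_le_sum fun K _ => this K).trans ?_
    rw [← Fintype.piFinset_univ, ← sum_pow']
    exact pow_le_one₀ (sum_nonneg fun _ _ => hc _) hs
  simp only [e1, sum_const, card_univ, Fintype.card_fin, nsmul_eq_mul] at e2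
  rw [le_div_iff₀ (by positivity), mul_comm]
  push_cast at e2
  refine le_trans (le_of_eq ?_) e2
  congr 1
  rw [hF]
  simp only
  rw [← (Fin.consEquiv fun _ => κ).sum_comp, Fintype.sum_prod_type_right]
  refine sum_congr rfl fun K _ => ?_
  rw [mul_sum]
  refine sum_congr rfl fun k _ => ?_
  simp [Fin.consEquiv, Fin.prod_univ_succ, Fin.sum_univ_succ, q]
  ring

theorem base {κ : Type*} [Fintype κ] (c : κ → ℝ) (hc : ∀ k, 0 ≤ c k) (hs : ∑ k, c k ≤ 1)
    (v : κ → ℕ) (μ : A) (hμ : μ = ∑ k, c k • U (v k)) (j : ℕ) :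
    Dom (μ ^ j * (1 - μ)) (32000 / (j + 1) + (1 - ∑ k, c k)) := by
  classical
  set m := j / 4 with hm
  set w : (Fin m → κ) → ℝ := fun K => ∏ i, c (K i)
  set W : (Fin m → κ) → A := fun K => ∏ i, U (v (K i))
  set S : (Fin m → κ) → ℝ := fun K => ∑ i, (v (K i) : ℝ) ^ 2
  set Q : (Fin m → κ) → ℝ := fun K => ∑ k, c k * q (v k) (S K)
  set E := ∑ K, w K * Q K
  have hE : E ≤ 1 / (m + 1) := exch c hc hs v m
  have w0 : ∀ K, 0 ≤ w K := fun K => prod_nonneg fun _ _ => hc _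
  have w1 : ∑ K, w K ≤ 1 := by
    rw [← Fintype.piFinset_univ, ← sum_pow']
    exact pow_le_one₀ (sum_nonneg fun _ _ => hc _) hs
  have gd : ∀ K, Gd (W K) (S K) := by
    intro K
    obtain ⟨h1, h2, h3, h4⟩ := prodU univ fun i => v (K i)
    refine ⟨h1, h3, sum_nonneg fun _ _ => sq_nonneg _, ?_⟩
    have := mul_le_mul_of_nonneg_left h4 (sq_nonneg (cf 0 (W K)))
    linarith [local_bd h1 h2 h3]
  have Q0 : ∀ K, 0 ≤ Q K := fun K => sum_nonneg fun k _ => mul_nonneg (hc k) (q_nonneg _ (gd K).s0)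
  have E0 : 0 ≤ E := sum_nonneg fun K _ => mul_nonneg (w0 K) (Q0 K)
  have pw : μ ^ m = ∑ K, w K • W K := by
    rw [hμ, sum_pow', Fintype.piFinset_univ]
    exact sum_congr rfl fun K _ => Finset.prod_smul _ _ _
  have avg : ∀ (b : A) (a : ℝ), 0 ≤ a → (∀ K, Dom (W K * b) (a + 2000 * Q K)) →
      Dom (μ ^ m * b) (a + 2000 * E) := by
    intro b a ha h
    rw [pw, sum_mul]
    refine (dom_sum univ _ (fun K => w K * (a + 2000 * Q K)) fun K _ => by
      rw [smul_mul_assoc]; exact (h K).smul (w0 K)).mono ?_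
    simp only [mul_add, sum_add_distrib, ← sum_mul, mul_left_comm _ (2000 : ℝ), ← mul_sum]
    nlinarith
  set ν : A := ∑ k, c k • (1 - U (v k)) with hν
  have s4 : ∀ K1 K2 K3 K4, Dom (W K4 * (W K3 * (W K2 * (W K1 * ν))))
      (2000 * Q K1 + 2000 * Q K2 + 2000 * Q K3 + 2000 * Q K4) := by
    intro K1 K2 K3 K4
    have := dom_sum univ _ _ fun k _ => (four (gd K1) (gd K2) (gd K3) (gd K4) (v k)).smul (hc k)
    convert this using 1
    · simp only [← smul_mul_assoc, ← sum_mul]; ring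
    · simp only [Q, mul_add, sum_add_distrib, mul_sum, mul_left_comm]
  have s3 : ∀ K1 K2 K3, Dom (W K3 * (μ ^ m * (W K2 * (W K1 * ν))))
      (2000 * E + 2000 * Q K1 + 2000 * Q K2 + 2000 * Q K3) := by
    intro K1 K2 K3
    have := avg _ _ (by linarith [Q0 K1, Q0 K2, Q0 K3]) (s4 K1 K2 K3)
    convert this using 1 <;> ring
  have s2 : ∀ K1 K2, Dom (W K2 * (μ ^ m * (μ ^ m * (W K1 * ν))))
      (4000 * E + 2000 * Q K1 + 2000 * Q K2) := by
    intro K1 K2
    have := avg _ _ (by linarith [Q0 K1, Q0 K2]) (s3 K1 K2)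
    convert this using 1 <;> ring
  have s1 : ∀ K1, Dom (W K1 * (μ ^ m * (μ ^ m * (μ ^ m * ν)))) (6000 * E + 2000 * Q K1) := by
    intro K1
    have := avg _ _ (by linarith [Q0 K1]) (s2 K1)
    convert this using 1 <;> ring
  have s0 := avg _ _ (by linarith) s1
  have d1 : Dom μ 1 := by
    rw [hμ]
    exact (dom_sum univ _ _ fun k _ => (uni_U (v k)).dom.smul (hc k)).mono (by
      simpa [ms_U] using hs)
  have a1 := (d1.pow (j % 4)).mul s0
  have a2 := (d1.pow j).smul (sub_nonneg.2 hs)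
  have e : μ ^ j * (1 - μ) = μ ^ (j % 4) * (μ ^ m * (μ ^ m * (μ ^ m * (μ ^ m * ν)))) +
      (1 - ∑ k, c k) • μ ^ j := by
    have e1 : 1 - μ = ν + (1 - ∑ k, c k) • (1 : A) := by
      simp only [hν, smul_sub, sum_sub_distrib, ← hμ, ← sum_smul, sub_smul, one_smul]; abel
    have e2 : μ ^ j = μ ^ (j % 4) * (μ ^ m * (μ ^ m * (μ ^ m * μ ^ m))) := by
      simp only [← pow_add]; congr 1; omega
    rw [e1, mul_add, mul_smul_comm, mul_one]
    congr 1
    conv_lhs => rw [e2]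
    ring
  rw [e]
  refine (a1.add a2).mono ?_
  have : 1 / (m + 1 : ℝ) ≤ 4 / (j + 1) := by
    rw [div_le_div_iff₀ (by positivity) (by positivity)]
    have : j + 1 ≤ 4 * (m + 1) := by omega
    have : (j + 1 : ℝ) ≤ 4 * (m + 1) := by exact_mod_cast this
    linarith
  simp only [one_pow, one_mul, mul_one]
  have e3 : (32000 : ℝ) / (j + 1) = 8000 * (4 / (j + 1)) := by ring
  linarith

end Pool.Agent.H2.Ri
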