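import Mathlib

/-! Convolution powers on the integers. -/

namespace Pool.Agent.H2.Ri

/-- convolution of two real functions on the integers -/
noncomputable def conv (ν g : ℤ → ℝ) (k : ℤ) : ℝ := ∑' j, ν j * g (k - j)

/-- the unit mass at zero -/
noncomputable def dl (x : ℤ) : ℝ := if x = 0 then 1 else 0

/-- convolution powers -/
noncomputable def cpow (μ : ℤ → ℝ) : ℕ → ℤ → ℝ
  | 0 => dl
  | n + 1 => conv μ (cpow μ n)

/-- the signed measure `μ^{*n} * (δ_0 - μ)^{*m}` -/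
noncomputable def ker (μ : ℤ → ℝ) (n m : ℕ) : ℤ → ℝ := conv (cpow μ n) (cpow (dl - μ) m)

/-- convolution of a signed measure with a complex function -/
noncomputable def act (ν : ℤ → ℝ) (f : ℤ → ℂ) (k : ℤ) : ℂ := ∑' j, (ν j : ℂ) * f (k - j)

/-- symmetric probability measure, non-increasing on the natural numbers -/
def Adm (μ : ℤ → ℝ) : Prop :=
  (∀ x, 0 ≤ μ x) ∧ HasSum μ 1 ∧ (∀ x, μ (-x) = μ x) ∧ ∀ n : ℕ, μ (n + 1) ≤ μ n

end Pool.Agent.H2.Ri
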