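import Pool.Agent.H2.RiB
import Pool.Agent.H2.RiDefs

/-! Passage to infinite support and the covering argument. -/

namespace Pool.Agent.H2.Ri

open Finset Filter Topology

lemma base' {μ : A} (hu : Uni μ) (hm : ms μ ≤ 1) (j : ℕ) :
    Dom (μ ^ j * (1 - μ)) (32000 / (j + 1) + (1 - ms μ)) := by
  obtain ⟨N, d, hd, h⟩ := hu.dec
  have e : μ = ∑ k : Fin N, (d k * (2 * k + 1)) • U k := by
    rw [h, ← Fin.sum_univ_eq_sum_range (fun r => d r • I r)]
    refine sum_congr rfl fun k _ => ?_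
    rw [U, smul_smul, mul_assoc, mul_inv_cancel₀ (by positivity), mul_one]
  have e2 : ∑ k : Fin N, (d k * (2 * k + 1)) = ms μ := by
    conv_rhs => rw [e]
    simp [map_sum, ms_U]
  rw [← e2] at hm ⊢
  exact base _ (fun k : Fin N => mul_nonneg (hd k) (by positivity)) hm _ μ e j

lemma kerDom {μ : A} (hu : Uni μ) (hm : ms μ ≤ 1) (n m : ℕ) :
    Dom (μ ^ n * (1 - μ) ^ m) ((32000 / ((n / m : ℕ) + 1) + (1 - ms μ)) ^ m) := by
  have := ((hu.dom.mono hm).pow (n % m)).mul ((base' hu hm (n / m)).pow m)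
  rwa [one_pow, one_mul, mul_pow, ← pow_mul, ← mul_assoc, ← pow_add, Nat.mod_add_div'] at this

lemma cf_tsum (x : ℤ) (f g : A) : cf x (f * g) = ∑' j, cf j f * cf (x - j) g := by
  rw [cf_mul, La_sum _ f _ (supp f), tsum_eq_sum]
  intro j hj
  rw [show cf j f = 0 from Finsupp.notMem_support_iff.1 hj, zero_mul]

lemma approx {ν g : ℕ → A} {ν' g' a : ℤ → ℝ} {B : ℝ} (ha : Summable a)
    (h1 : ∀ N x, |cf x (ν N)| ≤ a x) (h2 : ∀ x, Tendsto (fun N => cf x (ν N)) atTop (𝓝 (ν' x)))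
    (h3 : ∀ N x, |cf x (g N)| ≤ B) (h4 : ∀ x, Tendsto (fun N => cf x (g N)) atTop (𝓝 (g' x)))
    (x : ℤ) : Tendsto (fun N => cf x (ν N * g N)) atTop (𝓝 (conv ν' g' x)) ∧
      ∀ N, |cf x (ν N * g N)| ≤ (∑' j, a j) * B := by
  have b : ∀ N j, ‖cf j (ν N) * cf (x - j) (g N)‖ ≤ a j * B := fun N j => by
    rw [norm_mul]
    exact mul_le_mul (h1 N j) (h3 N _) (norm_nonneg _) ((abs_nonneg _).trans (h1 N j))
  simp only [cf_tsum]
  refine ⟨tendsto_tsum_of_dominated_convergence (ha.mul_right B) (fun j => (h2 j).mul (h4 _))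
    (Eventually.of_forall b), fun N => ?_⟩
  exact tsum_of_norm_bounded (ha.hasSum.mul_right B) (b N)

lemma cf_one (x : ℤ) : cf x 1 = dl x := by rw [← s_zero, cf_s, dl]; simp [eq_comm]

lemma approx_pow {ν : ℕ → A} {ν' a : ℤ → ℝ} (ha : Summable a)
    (h1 : ∀ N x, |cf x (ν N)| ≤ a x) (h2 : ∀ x, Tendsto (fun N => cf x (ν N)) atTop (𝓝 (ν' x)))
    (m : ℕ) : (∀ x, Tendsto (fun N => cf x (ν N ^ m)) atTop (𝓝 (cpow ν' m x))) ∧
      ∀ N x, |cf x (ν N ^ m)| ≤ (∑' j, a j) ^ m := by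
  induction m with
  | zero =>
    simp only [pow_zero, cf_one, cpow]
    exact ⟨fun x => tendsto_const_nhds, fun _ x => by unfold dl; split_ifs <;> simp⟩
  | succ m ih =>
    simp only [pow_succ', cpow]
    exact ⟨fun x => (approx ha h1 h2 ih.2 ih.1 x).1, fun N x => (approx ha h1 h2 ih.2 ih.1 x).2 N⟩

noncomputable def T (μ : ℤ → ℝ) (N : ℕ) : A := ∑ x ∈ Icc (-(N : ℤ)) N, μ x • s x

lemma cf_T (μ : ℤ → ℝ) (N : ℕ) (x : ℤ) : cf x (T μ N) = if |x| ≤ N then μ x else 0 := by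
  simp [T, map_sum, cf_s, abs_le]

variable {μ : ℤ → ℝ}

lemma T_le (h : Adm μ) (N : ℕ) (x : ℤ) : 0 ≤ cf x (T μ N) ∧ cf x (T μ N) ≤ μ x := by
  rw [cf_T]; split_ifs
  · exact ⟨h.1 x, le_rfl⟩
  · exact ⟨le_rfl, h.1 x⟩

lemma T_uni (h : Adm μ) (N : ℕ) : Uni (T μ N) := by
  refine uni_of (fun x => (T_le h N x).1) (fun x => by simp only [cf_T, abs_neg, h.2.2.1])
    fun n => ?_
  simp only [cf_T, Int.abs_eq_natAbs]
  split_ifs
  · exact h.2.2.2 n
  · omega
  · exact h.1 n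
  · exact le_rfl

lemma T_lim (x : ℤ) : Tendsto (fun N => cf x (T μ N)) atTop (𝓝 (μ x)) := by
  refine tendsto_const_nhds.congr' ?_
  filter_upwards [eventually_ge_atTop x.natAbs] with N hN
  rw [cf_T, if_pos (by rw [Int.abs_eq_natAbs]; omega)]

lemma T_ms (h : Adm μ) : (∀ N, ms (T μ N) ≤ 1) ∧ Tendsto (fun N => ms (T μ N)) atTop (𝓝 1) := by
  have e : ∀ N, ms (T μ N) = ∑ x ∈ Icc (-(N : ℤ)) N, μ x := fun N => by simp [T, map_sum, ms_s]
  simp only [e]
  refine ⟨fun N => sum_le_hasSum _ (fun x _ => h.1 x) h.2.1, h.2.1.comp ?_⟩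
  refine tendsto_atTop_finset_of_monotone (fun a b hab => Icc_subset_Icc (by omega) (by omega))
    fun x => ⟨x.natAbs, mem_Icc.2 (by omega)⟩

lemma pow_lim (h : Adm μ) (n : ℕ) :
    (∀ x, Tendsto (fun N => cf x (T μ N ^ n)) atTop (𝓝 (cpow μ n x))) ∧
      ∀ N x, |cf x (T μ N ^ n)| ≤ 1 := by
  simpa [h.2.1.tsum_eq] using approx_pow h.2.1.summable
    (fun N x => by rw [abs_of_nonneg (T_le h N x).1]; exact (T_le h N x).2) T_lim n

lemma pow_pos' (h : Adm μ) (N n : ℕ) : Pos (T μ N ^ n) := by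
  induction n with
  | zero => exact (uni_I 0).1
  | succ n ih => rw [pow_succ]; exact ih.mul (T_uni h N).1

lemma ker_lim (h : Adm μ) (n m : ℕ) (x : ℤ) :
    Tendsto (fun N => cf x (T μ N ^ n * (1 - T μ N) ^ m)) atTop (𝓝 (ker μ n m x)) := by
  have c1 : ∀ n x, |cpow μ n x| ≤ 1 := fun n x =>
    le_of_tendsto' ((pow_lim h n).1 x).abs fun N => (pow_lim h n).2 N x
  have c0 : ∀ n x, 0 ≤ cpow μ n x := fun n x =>
    ge_of_tendsto' ((pow_lim h n).1 x) fun N => pow_pos' h N n x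
  have c2 : ∀ n N x, cf x (T μ N ^ n) ≤ cpow μ n x := by
    intro n N
    induction n with
    | zero => intro x; rw [pow_zero, cf_one]; rfl
    | succ n ih =>
      intro x
      have sm : Summable fun j => μ j * cpow μ n (x - j) :=
        Summable.of_nonneg_of_le (fun j => mul_nonneg (h.1 j) (c0 _ _))
          (fun j => mul_le_of_le_one_right (h.1 j) (abs_le.1 (c1 _ _)).2) h.2.1.summable
      have le : ∀ j, cf j (T μ N) * cf (x - j) (T μ N ^ n) ≤ μ j * cpow μ n (x - j) := fun j =>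
        mul_le_mul (T_le h N j).2 (ih _) (pow_pos' h N n _) (h.1 j)
      rw [pow_succ', cf_tsum]
      exact (Summable.of_nonneg_of_le (fun j => mul_nonneg (T_le h N j).1 (pow_pos' h N n _))
        le sm).tsum_le_tsum le sm
  have c3 : Summable (cpow μ n) := by
    refine summable_of_sum_le (c := 1) (c0 n) fun F => le_of_tendsto'
      (tendsto_finset_sum F fun x _ => (pow_lim h n).1 x) fun N => ?_
    simpa using ((T_uni h N).dom.mono ((T_ms h).1 N)).pow n |>.dual zero_le_one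
      (φ := fun _ => 1) (fun _ => zero_le_one) (fun r => by rw [mul_one]; exact (ms_I r).le) F
      |>.trans' (sum_le_sum fun x _ => mul_le_mul_of_nonneg_right (le_abs_self _) zero_le_one)
  have d0 : Summable dl := summable_of_ne_finset_zero (s := {0}) fun x hx => by
    simp only [mem_singleton] at hx; simp [dl, hx]
  have p2 := approx_pow (ν := fun N => 1 - T μ N) (ν' := dl - μ) (d0.add h.2.1.summable)
    (fun N x => by
      rw [map_sub, cf_one]
      have : 0 ≤ dl x := by unfold dl; split_ifs <;> norm_num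
      rw [abs_le]; constructor <;> linarith [(T_le h N x).1, (T_le h N x).2])
    (fun x => by simpa [cf_one] using (T_lim x).const_sub (dl x)) m
  exact (approx c3 (fun N x => by rw [abs_of_nonneg (pow_pos' h N n x)]; exact c2 n N x)
    (pow_lim h n).1 p2.2 p2.1 x).1

lemma ker_dual (h : Adm μ) (n m : ℕ) {t : ℝ} (ht : 0 ≤ t) {φ : ℤ → ℝ} (hφ : ∀ x, 0 ≤ φ x)
    (hr : ∀ r : ℕ, ∑ x ∈ Icc (-(r : ℤ)) r, φ x ≤ (2 * r + 1) * t) (F : Finset ℤ) :
    (n : ℝ) ^ m * ∑ x ∈ F, |ker μ n m x| * φ x ≤ (32000 * m) ^ m * t := by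
  have hr' : ∀ r : ℕ, La φ (I r) ≤ (2 * r + 1) * t := by
    intro r
    rw [La_sum φ _ (Icc (-(r : ℤ)) r) fun x hx => by
      rw [cf_I] at hx; rw [mem_Icc, ← abs_le]; by_contra h; exact hx (if_neg h)]
    refine le_trans (le_of_eq (sum_congr rfl fun x hx => ?_)) (hr r)
    rw [cf_I, if_pos (abs_le.2 (mem_Icc.1 hx)), one_mul]
  have := le_of_tendsto_of_tendsto' (tendsto_finset_sum F fun x _ =>
    (ker_lim h n m x).abs.mul_const (φ x)) (((((T_ms h).2.const_sub 1).const_add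
      (32000 / ((n / m : ℕ) + 1 : ℝ))).pow m).mul_const t)
    fun N => (kerDom (T_uni h N) ((T_ms h).1 N) n m).dual ht hφ hr' F
  rw [sub_self, add_zero] at this
  refine (mul_le_mul_of_nonneg_left this (by positivity)).trans ?_
  rw [← mul_assoc, ← mul_pow]
  rcases Nat.eq_zero_or_pos m with rfl | hm
  · simp
  refine mul_le_mul_of_nonneg_right (pow_le_pow_left₀ (by positivity) ?_ m) ht
  rw [← mul_div_assoc, div_le_iff₀ (by positivity)]
  have : n ≤ m * (n / m + 1) := (Nat.lt_mul_div_succ n hm).le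
  have : (n : ℝ) ≤ m * ((n / m : ℕ) + 1) := by exact_mod_cast this
  linarith

theorem ritt (h : Adm μ) (n : ℕ) (F : Finset ℤ) :
    ∑ x ∈ F, |cpow μ n x - cpow μ (n + 1) x| ≤ 32000 / (n + 1) := by
  have := le_of_tendsto_of_tendsto' (tendsto_finset_sum F fun x _ =>
    (((pow_lim h n).1 x).sub ((pow_lim h (n + 1)).1 x)).abs) (((T_ms h).2.const_sub 1).const_add
      (32000 / (n + 1 : ℝ))) fun N => by
        simpa [mul_sub, ← pow_succ] using (base' (T_uni h N) ((T_ms h).1 N) n).dual zero_le_one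
          (φ := fun _ => 1) (fun _ => zero_le_one) (fun r => by rw [mul_one]; exact (ms_I r).le) F
  simpa using this

lemma cover (a : ℤ → ℝ) (ha : ∀ x, 0 ≤ a x) (t : ℝ) (ht : 0 ≤ t) (r : ℤ → ℕ) :
    ∀ (E T : Finset ℤ), (∀ k ∈ E, Icc (k - r k) (k + r k) ⊆ T ∧
      (2 * r k + 1) * t ≤ ∑ y ∈ Icc (k - r k) (k + r k), a y) → t * E.card ≤ 2 * ∑ y ∈ T, a y := by
  intro E
  induction E using Finset.strongInduction with
  | H E ih =>
    intro T h
    rcases E.eq_empty_or_nonempty with rfl | hE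
    · simpa using sum_nonneg fun y _ => ha y
    obtain ⟨k, hk, hk'⟩ := exists_max_image E r hE
    set J := Icc (k - 2 * r k) (k + 2 * r k) with hJ
    have h1 := ih (E \ J) ((ssubset_iff_of_subset sdiff_subset).2 ⟨k, hk, fun h' =>
      (mem_sdiff.1 h').2 (by rw [hJ, mem_Icc]; omega)⟩) (T \ Icc (k - r k) (k + r k)) fun l hl => by
        obtain ⟨l1, l2⟩ := mem_sdiff.1 hl
        refine ⟨fun y hy => mem_sdiff.2 ⟨(h l l1).1 hy, fun hy' => l2 ?_⟩, (h l l1).2⟩
        have := hk' l l1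
        rw [mem_Icc] at hy hy'
        rw [hJ, mem_Icc]; omega
    have h2 : E.card ≤ (E \ J).card + J.card := card_le_card_sdiff_add_card
    have h3 : J.card = 4 * r k + 1 := by rw [hJ, Int.card_Icc]; omega
    rw [h3] at h2
    have h4 : (E.card : ℝ) ≤ (E \ J).card + (4 * r k + 1) := by exact_mod_cast h2
    rw [← sum_sdiff (h k hk).1]
    nlinarith [(h k hk).2]

theorem weak (h : Adm μ) (m : ℕ) (f : ℤ → ℂ) (hf : Summable fun x => ‖f x‖) (lam : ℝ)
    (hl : 0 < lam) (E : Finset ℤ)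
    (hE : ∀ k ∈ E, ∃ n : ℕ, lam / 2 < (n : ℝ) ^ m * ‖act (ker μ n m) f k‖) :
    lam * E.card ≤ 4 * ((32000 * m) ^ m + 1) * ∑' x, ‖f x‖ := by
  classical
  set C : ℝ := (32000 * m) ^ m + 1 with hC
  have C0 : 0 < C := by positivity
  set t := lam / 2 / C with ht
  have t0 : 0 < t := by positivity
  have ex : ∀ k ∈ E, ∃ r : ℕ, (2 * r + 1) * t ≤ ∑ y ∈ Icc (k - r) (k + r), ‖f y‖ := by
    intro k hk
    by_contra hn
    push Not at hn
    obtain ⟨n, hn'⟩ := hE k hk
    have b := ker_dual h n m t0.le (φ := fun x => ‖f (k - x)‖) (fun _ => norm_nonneg _) fun r => by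
      refine le_trans (le_of_eq ?_) (hn r).le
      refine sum_bij' (fun x _ => k - x) (fun y _ => k - y) ?_ ?_ ?_ ?_ ?_ <;>
        simp only [mem_Icc] <;> intros <;> first | omega | trivial
    have e : ∀ j, ‖((n : ℝ) ^ m : ℝ) • ((ker μ n m j : ℂ) * f (k - j))‖ =
        (n : ℝ) ^ m * (|ker μ n m j| * ‖f (k - j)‖) := fun j => by
      rw [norm_smul, norm_mul, Complex.norm_real, Real.norm_of_nonneg (by positivity),
        Real.norm_eq_abs]
    have b' : ∀ F : Finset ℤ, ∑ j ∈ F, ‖((n : ℝ) ^ m : ℝ) • ((ker μ n m j : ℂ) * f (k - j))‖ ≤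
        (32000 * m) ^ m * t := fun F => by simpa only [e, ← mul_sum] using b F
    have sm := summable_of_sum_le (fun _ => norm_nonneg _) b'
    have b2 := (norm_tsum_le_tsum_norm sm).trans (sm.tsum_le_of_sum_le b')
    rw [tsum_const_smul'', norm_smul, Real.norm_of_nonneg (by positivity)] at b2
    have : C * t = lam / 2 := by rw [ht]; field_simp
    unfold act at hn'
    nlinarith
  choose! r hr using ex
  have := cover (fun y => ‖f y‖) (fun _ => norm_nonneg _) t t0.le r E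
    (E.biUnion fun k => Icc (k - r k) (k + r k))
    fun k hk => ⟨subset_biUnion_of_mem (fun k => Icc (k - r k) (k + r k)) hk, hr k hk⟩
  have b := hf.sum_le_tsum (E.biUnion fun k => Icc (k - r k) (k + r k)) fun _ _ => norm_nonneg _
  have e : lam = 2 * C * t := by rw [ht]; field_simp
  rw [e]
  nlinarith

end Pool.Agent.H2.Ri
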