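import Pool.Agent.H2.GsD

set_option autoImplicit false

namespace Pool.Agent.H2.Rl

open Filter Topology Pool.Agent.H2.Sm Pool.Agent.H2.Gs
open scoped Classical

variable {X : Type} [NormedAddCommGroup X] [NormedSpace ℝ X] {Γ : Type}

omit [NormedSpace ℝ X] in
lemma embed_sets {ι : Type} [Countable ι] [Nonempty ι] (U : ι → Set X) {c : ℝ}
    (h : ∀ x y : X, ∀ δ > 0, ∃ i, (x ∈ U i ∧ ∀ z ∈ U i, c * ‖x - y‖ ≤ ‖y - z‖ + δ) ∨
      (y ∈ U i ∧ ∀ z ∈ U i, c * ‖x - y‖ ≤ ‖x - z‖ + δ)) :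
    ∃ φ : X → lp (fun _ : ℕ => ℝ) ⊤, ∀ x y, c * dist x y ≤ dist (φ x) (φ y) ∧
      dist (φ x) (φ y) ≤ 1 * dist x y := by
  obtain ⟨σ, hσ⟩ := exists_surjective_nat ι
  have hL : ∀ i (x y : X), ‖Metric.infDist x (U i) - Metric.infDist y (U i)‖ ≤ dist x y := by
    intro i x y
    simpa [Real.dist_eq] using (Metric.lipschitz_infDist_pt (U i)).dist_le_mul x y
  let φ : X → lp (fun _ : ℕ => ℝ) ⊤ := fun x =>
    ⟨fun j => Metric.infDist x (U (σ j)) - Metric.infDist 0 (U (σ j)), memℓp_infty ⟨dist x 0, by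
      rintro _ ⟨j, rfl⟩
      exact hL _ _ _⟩⟩
  have hφ : ∀ x y j, (φ x - φ y) j = Metric.infDist x (U (σ j)) - Metric.infDist y (U (σ j)) := by
    intro x y j
    rw [lp.coeFn_sub, Pi.sub_apply]
    show _ - _ - (_ - _) = _
    ring
  refine ⟨φ, fun x y => ⟨?_, ?_⟩⟩
  · rw [dist_eq_norm, dist_eq_norm]
    refine le_of_forall_pos_le_add fun δ hδ => ?_
    obtain ⟨i, hi⟩ := h x y δ hδ
    obtain ⟨j, rfl⟩ := hσ i
    have h1 := abs_le.mp (lp.norm_apply_le_norm ENNReal.top_ne_zero (φ x - φ y) j)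
    rw [hφ] at h1
    rcases hi with ⟨h2, h3⟩ | ⟨h2, h3⟩
    · have h4 : c * ‖x - y‖ - δ ≤ Metric.infDist y (U (σ j)) :=
        (Metric.le_infDist ⟨x, h2⟩).mpr fun z hz => by rw [dist_eq_norm]; linarith [h3 z hz]
      rw [Metric.infDist_zero_of_mem h2] at h1
      linarith [h1.1]
    · have h4 : c * ‖x - y‖ - δ ≤ Metric.infDist x (U (σ j)) :=
        (Metric.le_infDist ⟨y, h2⟩).mpr fun z hz => by rw [dist_eq_norm]; linarith [h3 z hz]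
      rw [Metric.infDist_zero_of_mem h2] at h1
      linarith [h1.2]
  · rw [dist_eq_norm, one_mul]
    refine lp.norm_le_of_forall_le dist_nonneg fun j => ?_
    rw [hφ]
    exact hL _ _ _

noncomputable def FF (f : Γ → StrongDual ℝ X) {k : ℕ} (q : Fin k → ℚ) (γ : Fin k → Γ)
    (T : Finset (Fin k)) : StrongDual ℝ X := ∑ i ∈ T, (q i : ℝ) • f (γ i)

def Ix : Type := Σ k : ℕ, (Fin k → ℚ) × (Fin k → ℚ × ℚ) × Finset (Finset (Fin k)) ×
  (Finset (Fin k) → ℚ) × ℚ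

instance : Countable Ix := by unfold Ix; infer_instance

instance : Nonempty Ix := ⟨⟨0, 0, 0, ∅, 0, 0⟩⟩

def UU (f : Γ → StrongDual ℝ X) (ι : Γ → ℝ) (j : Ix) : Set X :=
  {z | ∀ γ : Fin j.1 → Γ, (∀ i, ((j.2.2.1 i).1 : ℝ) < ι (γ i) ∧ ι (γ i) < (j.2.2.1 i).2) →
    (∀ T ∈ j.2.2.2.1, ‖FF f j.2.1 γ T‖ ≤ 1) →
    ∃ S : Finset (Fin j.1), (∀ T ∈ j.2.2.2.1, S ∩ T ∈ j.2.2.2.1) ∧
      ∀ T ∈ j.2.2.2.1, |FF f j.2.1 γ T z - j.2.2.2.2.1 (S ∩ T)| ≤ j.2.2.2.2.2}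

lemma exists_sep (ι : Γ → ℝ) (hι : Function.Injective ι) (B : Set Γ) (hB : B.Finite) (γ : Γ) :
    ∃ p : ℚ × ℚ, ((p.1 : ℝ) < ι γ ∧ ι γ < p.2) ∧
      ∀ γ' ∈ B, (p.1 : ℝ) < ι γ' → ι γ' < p.2 → γ' = γ := by
  have h1 : ((ι '' B) \ {ι γ})ᶜ ∈ 𝓝 (ι γ) :=
    ((hB.image ι).subset Set.diff_subset).isClosed.isOpen_compl.mem_nhds (by simp)
  obtain ⟨a, b, ⟨h2, h3⟩, h4⟩ := mem_nhds_iff_exists_Ioo_subset.mp h1
  obtain ⟨p, p1, p2⟩ := exists_rat_btwn h2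
  obtain ⟨r, r1, r2⟩ := exists_rat_btwn h3
  refine ⟨(p, r), ⟨p2, r1⟩, fun γ' h5 h6 h7 => ?_⟩
  by_contra hne
  exact h4 ⟨p1.trans h6, h7.trans r2⟩ ⟨⟨γ', h5, rfl⟩, fun e => hne (hι e)⟩

lemma exists_U (f : Γ → StrongDual ℝ X) (hc : ∀ z, ∀ η > 0, {γ | η < |f γ z|}.Finite)
    (ι : Γ → ℝ) (hι : Function.Injective ι) {k : ℕ} (q : Fin k → ℚ) (γ : Fin k → Γ) (x : X)
    {ρ : ℚ} (hρ : 0 < ρ) : ∃ j, x ∈ UU f ι j ∧ ∀ z ∈ UU f ι j, ∃ S : Finset (Fin k),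
      (∀ T, ‖FF f q γ T‖ ≤ 1 → ‖FF f q γ (S ∩ T)‖ ≤ 1) ∧
      ∀ T, ‖FF f q γ T‖ ≤ 1 → |FF f q γ T z - FF f q γ (S ∩ T) x| ≤ 2 * ρ := by
  have hρ' : (0:ℝ) < ρ := by exact_mod_cast hρ
  have h1 : ∀ T : Finset (Fin k), ∃ u : X, ‖u‖ ≤ 1 ∧ (1 < ‖FF f q γ T‖ → 1 < |FF f q γ T u|) := by
    intro T
    by_cases h : 1 < ‖FF f q γ T‖
    · obtain ⟨u, h2, h3⟩ := (FF f q γ T).exists_lt_apply_of_lt_opNorm h
      exact ⟨u, h2.le, fun _ => h3⟩
    · exact ⟨0, by simp, fun h2 => absurd h2 h⟩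
  choose u hu1 hu2 using h1
  set Q : ℝ := ∑ i, |(q i : ℝ)| with hQ
  have hev : ∀ᶠ η in 𝓝[>] (0:ℝ), Q * η < ρ / 2 ∧
      ∀ T : Finset (Fin k), 1 < ‖FF f q γ T‖ → 1 + Q * η < |FF f q γ T (u T)| := by
    have h2 : Tendsto (fun η : ℝ => Q * η) (𝓝[>] 0) (𝓝 0) := by
      have : Continuous fun η : ℝ => Q * η := by fun_prop
      simpa using (this.tendsto 0).mono_left nhdsWithin_le_nhds
    refine (h2.eventually (gt_mem_nhds (half_pos hρ'))).and (eventually_all.mpr fun T => ?_)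
    by_cases h : 1 < ‖FF f q γ T‖
    · have h3 := h2.const_add 1
      rw [add_zero] at h3
      exact (h3.eventually (gt_mem_nhds (hu2 T h))).mono fun η h4 _ => h4
    · exact Eventually.of_forall fun η h2 => absurd h2 h
  obtain ⟨η, ⟨e1, e2⟩, hη⟩ := (hev.and self_mem_nhdsWithin).exists
  have hη0 : 0 < η := hη
  let B : Set Γ := {γ' | η < |f γ' x|} ∪ ⋃ T, {γ' | η < |f γ' (u T)|}
  have hB : B.Finite := (hc x η hη0).union (Set.finite_iUnion fun T => hc _ η hη0)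
  choose p hp1 hp2 using fun i => exists_sep ι hι B hB (γ i)
  choose w hw using fun T : Finset (Fin k) => exists_rat_near (FF f q γ T x) (half_pos hρ')
  let 𝒯 : Finset (Finset (Fin k)) := Finset.univ.filter fun T => ‖FF f q γ T‖ ≤ 1
  have h𝒯 : ∀ T, T ∈ 𝒯 ↔ ‖FF f q γ T‖ ≤ 1 := fun T => by simp [𝒯]
  refine ⟨⟨k, q, p, 𝒯, w, ρ⟩, fun γ' g1 g2 => ?_, fun z hz => ?_⟩
  · let S : Finset (Fin k) := Finset.univ.filter fun i => γ' i = γ i
    have h2 : ∀ T (z : X), (∀ g, η < |f g z| → g ∈ B) →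
        |FF f q γ' T z - FF f q γ (S ∩ T) z| ≤ Q * η := by
      intro T z hz
      have h3 : FF f q γ' T z - FF f q γ (S ∩ T) z =
          ∑ i ∈ T, if γ' i = γ i then 0 else (q i : ℝ) * f (γ' i) z := by
        simp only [FF, ContinuousLinearMap.sum_apply, ContinuousLinearMap.smul_apply, smul_eq_mul]
        rw [Finset.inter_comm, ← Finset.sum_ite_mem, ← Finset.sum_sub_distrib]
        refine Finset.sum_congr rfl fun i _ => ?_
        by_cases h : γ' i = γ i <;> simp [S, h]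
      rw [h3, hQ, Finset.sum_mul]
      refine le_trans (Finset.abs_sum_le_sum_abs _ _) (le_trans (Finset.sum_le_sum fun i _ => ?_)
        (Finset.sum_le_univ_sum_of_nonneg fun i => by positivity))
      split_ifs with h
      · rw [abs_zero]; positivity
      · rw [abs_mul]
        exact mul_le_mul_of_nonneg_left (not_lt.mp fun h4 =>
          h (hp2 i _ (hz _ h4) (g1 i).1 (g1 i).2)) (abs_nonneg _)
    refine ⟨S, fun T hT => (h𝒯 _).mpr (not_lt.mp fun h3 => ?_), fun T hT => ?_⟩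
    · have h4 := e2 _ h3
      have h5 := h2 T (u (S ∩ T)) fun g hg => Or.inr (Set.mem_iUnion.mpr ⟨_, hg⟩)
      have h6 := le_trans (abs_apply_le (FF f q γ' T) (u (S ∩ T)))
        (mul_le_one₀ (g2 T hT) (norm_nonneg _) (hu1 _))
      have h7 := abs_sub_abs_le_abs_sub (FF f q γ (S ∩ T) (u (S ∩ T))) (FF f q γ' T (u (S ∩ T)))
      rw [abs_sub_comm] at h7
      linarith
    · have h5 := abs_le.mp (h2 T x fun g hg => Or.inl hg)
      have h6 := abs_lt.mp (hw (S ∩ T))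
      show |FF f q γ' T x - w (S ∩ T)| ≤ ρ
      rw [abs_le]
      constructor <;> linarith [h5.1, h5.2, h6.1, h6.2]
  · obtain ⟨S, s1, s2⟩ := hz γ hp1 fun T hT => (h𝒯 T).mp hT
    refine ⟨S, fun T hT => (h𝒯 _).mp (s1 T ((h𝒯 T).mpr hT)), fun T hT => ?_⟩
    have h5 : |FF f q γ T z - w (S ∩ T)| ≤ ρ := s2 T ((h𝒯 T).mpr hT)
    have h6 := abs_lt.mp (hw (S ∩ T))
    rw [abs_le] at h5 ⊢
    constructor <;> linarith [h5.1, h5.2, h6.1, h6.2]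

lemma exists_rat_comb (f : Γ → StrongDual ℝ X) (hf : ∀ γ, ‖f γ‖ ≤ 1)
    (hd : Dense (Submodule.span ℝ (Set.range f) : Set (StrongDual ℝ X))) (v : X) {δ : ℝ}
    (hδ : 0 < δ) : ∃ (k : ℕ) (q : Fin k → ℚ) (γ : Fin k → Γ),
      ‖FF f q γ Finset.univ‖ ≤ 1 ∧ ‖v‖ - δ ≤ FF f q γ Finset.univ v := by
  obtain ⟨g, hg1, hg2⟩ := exists_dual_vector'' ℝ v
  have hg2' : g v = ‖v‖ := hg2
  have hv := norm_nonneg v
  obtain ⟨θ, hθ0, hθ1, hθ2⟩ : ∃ θ : ℝ, 0 < θ ∧ θ ≤ 1 / 2 ∧ 4 * θ * ‖v‖ ≤ δ := by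
    refine ⟨min (1 / 2) (δ / (4 * ‖v‖ + 1)), by positivity, min_le_left _ _, ?_⟩
    have h1 := min_le_right (1 / 2) (δ / (4 * ‖v‖ + 1))
    have h2 : 0 < min (1 / 2) (δ / (4 * ‖v‖ + 1)) := by positivity
    rw [le_div_iff₀ (by positivity)] at h1
    linarith
  obtain ⟨g', h1, h2⟩ := hd.exists_dist_lt ((1 - 2 * θ) • g) hθ0
  obtain ⟨k, a, s, rfl⟩ := Submodule.mem_span_set'.mp h1
  choose γ hγ using fun i => (s i).2
  choose q hq using fun i => exists_rat_near (a i) (show 0 < θ / (k + 1) by positivity)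
  have h3 : ‖∑ i, a i • (s i : StrongDual ℝ X) - FF f q γ Finset.univ‖ ≤ θ := by
    rw [FF, ← Finset.sum_sub_distrib]
    refine le_trans (norm_sum_le _ _) (le_trans (Finset.sum_le_sum (g := fun _ => θ / (k + 1))
      fun i _ => ?_) ?_)
    · have e : a i • f (γ i) - (q i : ℝ) • f (γ i) = (a i - q i) • f (γ i) := (sub_smul _ _ _).symm
      rw [← hγ i, e, norm_smul]
      exact le_trans (mul_le_of_le_one_right (norm_nonneg _) (hf _)) (hq i).le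
    · rw [Finset.sum_const, Finset.card_univ, Fintype.card_fin, nsmul_eq_mul, mul_div_assoc',
        div_le_iff₀ (by positivity)]
      linarith
  rw [dist_eq_norm] at h2
  have h4 : ‖(1 - 2 * θ) • g - FF f q γ Finset.univ‖ ≤ 2 * θ := by
    have := norm_sub_le_norm_sub_add_norm_sub ((1 - 2 * θ) • g)
      (∑ i, a i • (s i : StrongDual ℝ X)) (FF f q γ Finset.univ)
    linarith
  refine ⟨k, q, γ, ?_, ?_⟩
  · have h5 := norm_sub_norm_le (FF f q γ Finset.univ) ((1 - 2 * θ) • g)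
    rw [norm_sub_rev, norm_smul, Real.norm_eq_abs, abs_of_nonneg (by linarith)] at h5
    nlinarith
  · have h5 := le_trans (le_abs_self _) (le_trans (abs_apply_le _ v)
      (mul_le_mul_of_nonneg_right h4 hv))
    rw [ContinuousLinearMap.sub_apply, ContinuousLinearMap.smul_apply, smul_eq_mul, hg2'] at h5
    linarith

theorem embed_family (f : Γ → StrongDual ℝ X) (hf : ∀ γ, ‖f γ‖ ≤ 1)
    (hc : ∀ z, ∀ η > 0, {γ | η < |f γ z|}.Finite)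
    (hd : Dense (Submodule.span ℝ (Set.range f) : Set (StrongDual ℝ X)))
    (ι : Γ → ℝ) (hι : Function.Injective ι) :
    ∃ φ : X → lp (fun _ : ℕ => ℝ) ⊤, ∀ x y, 1 / 5 * dist x y ≤ dist (φ x) (φ y) ∧
      dist (φ x) (φ y) ≤ 1 * dist x y := by
  refine embed_sets (UU f ι) fun x y δ hδ => ?_
  obtain ⟨k, q, γ, h1, h2⟩ := exists_rat_comb f hf hd (x - y) hδ
  obtain ⟨ρ, r1, r2⟩ := exists_rat_btwn (show 0 < δ / 3 by positivity)
  obtain ⟨j, j1, j2⟩ := exists_U f hc ι hι q γ x (ρ := ρ) (by exact_mod_cast r1)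
  obtain ⟨j', j3, j4⟩ := exists_U f hc ι hι q γ y (ρ := ρ) (by exact_mod_cast r1)
  by_contra hcon
  push Not at hcon
  obtain ⟨z, z1, z2⟩ := (hcon j).1 j1
  obtain ⟨z', z3, z4⟩ := (hcon j').2 j3
  obtain ⟨S, s1, s2⟩ := j2 z z1
  obtain ⟨S', s3, s4⟩ := j4 z' z3
  have hA : ∀ T, ‖FF f q γ T‖ ≤ 1 → ∀ a b : X, |FF f q γ T a - FF f q γ T b| ≤ ‖a - b‖ := by
    intro T hT a b
    rw [← map_sub]
    exact le_trans (abs_apply_le _ _) (mul_le_of_le_one_left (norm_nonneg _) hT)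
  have hS := s1 _ h1
  have hS' := s3 _ h1
  have a1 := abs_le.mp (s2 _ h1)
  have a2 := abs_le.mp (s4 _ h1)
  rw [Finset.inter_univ] at hS hS' a1 a2
  have a3 := abs_le.mp (s4 _ hS)
  have a4 := abs_le.mp (s2 _ hS')
  have a5 := abs_le.mp (s2 _ (s1 _ hS'))
  rw [← Finset.inter_assoc, Finset.inter_self] at a5
  rw [Finset.inter_comm] at a3
  have b1 := abs_le.mp (hA _ h1 y z)
  have b2 := abs_le.mp (hA _ h1 x z')
  have b3 := abs_le.mp (hA _ hS x z')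
  have b4 := abs_le.mp (hA _ hS' y z)
  have b5 := abs_le.mp (hA _ (s1 _ hS') y z)
  rw [map_sub] at h2
  linarith [a1.1, a1.2, a2.1, a2.2, a3.1, a3.2, a4.1, a4.2, a5.1, a5.2, b1.1, b1.2, b2.1, b2.2,
    b3.1, b3.2, b4.1, b4.2, b5.1, b5.2]

end Pool.Agent.H2.Rl
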