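import Pool.Agent.H2.RlA

set_option autoImplicit false

namespace Pool.Agent.H2.Rl

open Filter Topology Pool.Agent.H2.Sm Pool.Agent.H2.Gs Cardinal
open scoped Classical

section Closure

variable {Z κ : Type} (φ : κ → Z → Z → Z)

def st (A : Set Z) : ℕ → Set Z
  | 0 => A
  | n + 1 => st A n ∪ ⋃ k, Set.image2 (φ k) (st A n) (st A n)

def Cl (A : Set Z) : Set Z := ⋃ n, st φ A n

lemma st_mono (A : Set Z) : Monotone (st φ A) :=
  monotone_nat_of_le_succ fun _ => Set.subset_union_left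

lemma st_mono' {A B : Set Z} (h : A ⊆ B) (n : ℕ) : st φ A n ⊆ st φ B n := by
  induction n with
  | zero => exact h
  | succ n ih => exact Set.union_subset_union ih (Set.iUnion_mono fun k => Set.image2_subset ih ih)

lemma Cl_mono {A B : Set Z} (h : A ⊆ B) : Cl φ A ⊆ Cl φ B := Set.iUnion_mono (st_mono' φ h)

lemma subset_Cl (A : Set Z) : A ⊆ Cl φ A := Set.subset_iUnion (st φ A) 0

lemma Cl_op {A : Set Z} (k : κ) {a b : Z} (ha : a ∈ Cl φ A) (hb : b ∈ Cl φ A) :
    φ k a b ∈ Cl φ A := by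
  obtain ⟨n, hn⟩ := Set.mem_iUnion.mp ha
  obtain ⟨m, hm⟩ := Set.mem_iUnion.mp hb
  exact Set.mem_iUnion.mpr ⟨max n m + 1, Or.inr (Set.mem_iUnion.mpr ⟨k, Set.mem_image2_of_mem
    (st_mono φ A (le_max_left _ _) hn) (st_mono φ A (le_max_right _ _) hm)⟩)⟩

lemma Cl_ind {A : Set Z} {p : Z → Prop} (h0 : ∀ a ∈ A, p a) (h1 : ∀ k a b, p a → p b → p (φ k a b)) :
    ∀ z ∈ Cl φ A, p z := by
  intro z hz
  obtain ⟨n, hn⟩ := Set.mem_iUnion.mp hz
  induction n generalizing z with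
  | zero => exact h0 z hn
  | succ n ih =>
    rcases hn with hn | hn
    · exact ih z (Set.mem_iUnion.mpr ⟨n, hn⟩) hn
    · obtain ⟨k, a, ha, b, hb, rfl⟩ := Set.mem_iUnion.mp hn
      exact h1 k a b (ih a (Set.mem_iUnion.mpr ⟨n, ha⟩) ha) (ih b (Set.mem_iUnion.mpr ⟨n, hb⟩) hb)

lemma card_Cl [Countable κ] {A : Set Z} {c : Cardinal} (hc : ℵ₀ ≤ c) (hA : #A ≤ c) :
    #(Cl φ A) ≤ c := by
  have h1 : ∀ n, #(st φ A n) ≤ c := by
    intro n
    induction n with
    | zero => exact hA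
    | succ n ih =>
      refine le_trans (mk_union_le _ _) (add_le_of_le hc ih (le_trans (mk_iUnion_le _) ?_))
      refine mul_le_of_le hc (mk_le_aleph0.trans hc) (ciSup_le' fun k => ?_)
      exact le_trans mk_image2_le (mul_le_of_le hc ih ih)
  exact le_trans (mk_iUnion_le _) (mul_le_of_le hc (mk_le_aleph0.trans hc) (ciSup_le' h1))

end Closure

section Sub

variable {V : Type} [NormedAddCommGroup V] [NormedSpace ℝ V]

lemma sep (M : Submodule ℝ V) (hM : IsClosed (M : Set V)) {v : V} (hv : v ∉ M) :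
    ∃ g : StrongDual ℝ V, (∀ m ∈ M, g m = 0) ∧ g v ≠ 0 := by
  obtain ⟨g, u, h1, h2⟩ := geometric_hahn_banach_closed_point M.convex hM hv
  have h0 : 0 < u := by simpa using h1 0 M.zero_mem
  refine ⟨g, fun m hm => ?_, (h0.trans h2).ne'⟩
  by_contra hne
  have := h1 _ (M.smul_mem (u / g m) hm)
  rw [map_smul, smul_eq_mul, div_mul_cancel₀ _ hne] at this
  exact lt_irrefl _ this

def clSub (S : Set V) (h0 : (0:V) ∈ S) (h : ∀ a ∈ S, ∀ b ∈ S, ∀ q : ℚ, a + (q:ℝ) • b ∈ S) :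
    Submodule ℝ V where
  carrier := closure S
  zero_mem' := subset_closure h0
  add_mem' ha hb := map_mem_closure₂ continuous_add ha hb fun a ha b hb => by
    simpa using h a ha b hb 1
  smul_mem' r b hb := map_mem_closure₂ (f := fun (r : ℝ) (b : V) => r • b) continuous_smul
    (Rat.denseRange_cast r) hb (by
      rintro _ ⟨q, rfl⟩ b hb
      simpa using h 0 h0 b hb q)

lemma exists_nu : ∃ ν : V → StrongDual ℝ V, ν 0 = 0 ∧ ∀ a, ‖ν a‖ ≤ 1 ∧ ν a a = ‖a‖ := by
  choose g hg1 hg2 using fun a : V => exists_dual_vector'' ℝ a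
  refine ⟨fun a => if a = 0 then 0 else g a, by simp, fun a => ?_⟩
  dsimp only
  split_ifs with h
  · simp [h]
  · exact ⟨hg1 a, hg2 a⟩

end Sub

variable {X : Type} [NormedAddCommGroup X] [NormedSpace ℝ X] [CompleteSpace X]

lemma exists_proj (hJ : Function.Surjective (NormedSpace.inclusionInDoubleDual ℝ X))
    (E : Submodule ℝ X) (hE : IsClosed (E : Set X)) (F : Submodule ℝ (StrongDual ℝ X))
    (hF : IsClosed (F : Set (StrongDual ℝ X)))
    (h1 : ∀ e ∈ E, ∀ k, (∀ g ∈ F, g k = 0) → ‖e‖ ≤ ‖e + k‖)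
    (h2 : ∀ h ∈ F, (∀ e ∈ E, h e = 0) → h = 0) :
    ∃ P : X →L[ℝ] X, (∀ z, ‖P z‖ ≤ ‖z‖) ∧ (∀ z, P z ∈ E) ∧ (∀ e ∈ E, P e = e) ∧
      (∀ k, (∀ g ∈ F, g k = 0) → P k = 0) ∧ ∀ z, ∀ g ∈ F, g (z - P z) = 0 := by
  let K : Submodule ℝ X := ⨅ g : F, LinearMap.ker (g.1 : X →ₗ[ℝ] ℝ)
  have hK : ∀ k, k ∈ K ↔ ∀ g ∈ F, g k = 0 := fun k => by simp [K, Submodule.mem_iInf]
  have hKc : IsClosed (K : Set X) := by
    rw [Submodule.coe_iInf]
    exact isClosed_iInter fun g => g.1.isClosed_ker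
  have hcl : IsClosed ((E ⊔ K : Submodule ℝ X) : Set X) := by
    have := hE.completeSpace_coe
    have := hKc.completeSpace_coe
    have h3 := (AddMonoidHomClass.antilipschitz_of_bound (E.subtypeL.coprod K.subtypeL) (K := 2)
      fun p => ?_).isClosed_range (E.subtypeL.coprod K.subtypeL).uniformContinuous
    · convert h3 using 1
      ext z
      rw [SetLike.mem_coe, Submodule.mem_sup]
      exact ⟨fun ⟨a, ha, b, hb, e⟩ => ⟨(⟨a, ha⟩, ⟨b, hb⟩), e⟩,
        fun ⟨p, e⟩ => ⟨p.1, p.1.2, p.2, p.2.2, e⟩⟩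
    · have a1 := h1 p.1 p.1.2 p.2 ((hK _).mp p.2.2)
      have a2 := norm_sub_le ((p.1 : X) + p.2) p.1
      rw [add_sub_cancel_left] at a2
      show max ‖(p.1 : X)‖ ‖(p.2 : X)‖ ≤ 2 * ‖(p.1 : X) + p.2‖
      exact max_le (by linarith [norm_nonneg (p.1 : X)]) (by linarith)
  have hc : IsCompl E K := by
    refine ⟨Submodule.disjoint_def.mpr fun e he hk => ?_, codisjoint_iff.mpr (eq_top_iff.mpr
      fun z _ => ?_)⟩
    · simpa using h1 e he (-e) ((hK _).mp (K.neg_mem hk))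
    · by_contra hz
      obtain ⟨h, a1, a2⟩ := sep _ hcl hz
      have a3 : h ∈ F := by
        by_contra a3
        obtain ⟨ξ, b1, b2⟩ := sep F hF a3
        obtain ⟨k, rfl⟩ := hJ ξ
        exact b2 (a1 k (Submodule.mem_sup_right ((hK k).mpr b1)))
      rw [h2 h a3 fun e he => a1 e (Submodule.mem_sup_left he)] at a2
      exact a2 rfl
  have hm : ∀ z, z - E.projection K hc z ∈ K := fun z => Submodule.sub_projection_mem hc z
  have hb : ∀ z, ‖E.projection K hc z‖ ≤ 1 * ‖z‖ := fun z => by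
    simpa using h1 _ (Submodule.projection_apply_mem hc z) _ ((hK _).mp (hm z))
  refine ⟨LinearMap.mkContinuous _ 1 hb, fun z => by simpa using hb z,
    fun z => Submodule.projection_apply_mem hc z,
    fun e he => (Submodule.projection_eq_self_iff hc e).mpr he,
    fun k hk => (Submodule.projection_apply_eq_zero_iff hc).mpr ((hK k).mpr hk),
    fun z => (hK _).mp (hm z)⟩

lemma exists_skeleton (hJ : Function.Surjective (NormedSpace.inclusionInDoubleDual ℝ X))
    {I : Type} (x : I → X) : ∃ (S : Set I → Set X) (P : Set I → X →L[ℝ] X),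
      (∀ L z, ‖P L z‖ ≤ ‖z‖) ∧ (∀ L z, P L z ∈ closure (S L)) ∧
      (∀ L L', L ⊆ L' → ∀ z, P L (P L' z) = P L z) ∧ (∀ z, P ∅ z = 0) ∧
      (∀ z ∈ closure (Submodule.span ℝ (Set.range x) : Set X), P Set.univ z = z) ∧
      (∀ L z, ∀ ε > 0, ∃ s : Finset I, ↑s ⊆ L ∧ ∀ B, ↑s ⊆ B → B ⊆ L → ‖P B z - P L z‖ ≤ ε) ∧
      ∀ (L : Set I) (c : Cardinal), ℵ₀ ≤ c → #L ≤ c → #(S L) ≤ c := by
  obtain ⟨ν, ν0, hν⟩ := exists_nu (V := X)
  obtain ⟨ξ, ξ0, hξ⟩ := exists_nu (V := StrongDual ℝ X)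
  choose μ hμ using fun g => hJ (ξ g)
  have hμ0 : ∀ g, ‖μ g‖ = ‖ξ g‖ := fun g => by
    rw [← hμ g]
    exact ((NormedSpace.inclusionInDoubleDualLi ℝ (E := X)).norm_map (μ g)).symm
  have hμ1 : ∀ g : StrongDual ℝ X, g (μ g) = ‖g‖ := fun g => by
    rw [← (hξ g).2, ← hμ g]
    rfl
  let φ : Option ℚ → X × StrongDual ℝ X → X × StrongDual ℝ X → X × StrongDual ℝ X := fun k u v =>
    Option.casesOn k (μ u.2, ν u.1) fun q => (u.1 + (q:ℝ) • v.1, u.2 + (q:ℝ) • v.2)
  let C : Set I → Set (X × StrongDual ℝ X) := fun L =>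
    Cl φ (insert (0, 0) ((fun i => (x i, 0)) '' L))
  have hCm : ∀ L L', L ⊆ L' → C L ⊆ C L' := fun L L' h =>
    Cl_mono φ (Set.insert_subset_insert (Set.image_mono h))
  have hC0 : ∀ L, (0, 0) ∈ C L := fun L => subset_Cl φ _ (Set.mem_insert _ _)
  let E : Set I → Submodule ℝ X := fun L => clSub (Prod.fst '' C L) ⟨_, hC0 L, rfl⟩ (by
    rintro _ ⟨u, hu, rfl⟩ _ ⟨v, hv, rfl⟩ q
    exact ⟨_, Cl_op φ (some q) hu hv, rfl⟩)
  let F : Set I → Submodule ℝ (StrongDual ℝ X) := fun L =>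
    clSub (Prod.snd '' C L) ⟨_, hC0 L, rfl⟩ (by
      rintro _ ⟨u, hu, rfl⟩ _ ⟨v, hv, rfl⟩ q
      exact ⟨_, Cl_op φ (some q) hu hv, rfl⟩)
  choose P p1 p2 p3 p4 p5 using fun L => exists_proj hJ (E L) isClosed_closure (F L)
    isClosed_closure (fun e he k hk => by
      refine closure_minimal (t := {e | ‖e‖ ≤ ‖e + k‖}) ?_
        (isClosed_le continuous_norm (by fun_prop)) he
      rintro _ ⟨u, hu, rfl⟩
      have a1 := hk _ (subset_closure ⟨_, Cl_op φ none hu hu, rfl⟩)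
      have a2 := le_trans (le_abs_self _) (le_trans (abs_apply_le (ν u.1) (u.1 + k))
        (mul_le_of_le_one_left (norm_nonneg _) (hν _).1))
      have a3 : ν u.1 k = 0 := a1
      rwa [map_add, a3, add_zero, (hν _).2] at a2) (fun h hh h0 => by
      have : h ∈ {g : StrongDual ℝ X | ‖g‖ ≤ ‖g - h‖} := by
        refine closure_minimal ?_ (isClosed_le continuous_norm (by fun_prop)) hh
        rintro _ ⟨u, hu, rfl⟩
        have a1 : h (μ u.2) = 0 := h0 _ (subset_closure ⟨_, Cl_op φ none hu hu, rfl⟩)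
        have a2 := le_trans (le_abs_self _) (le_trans (abs_apply_le (u.2 - h) (μ u.2))
          (mul_le_of_le_one_right (norm_nonneg _) (hμ0 _ ▸ (hξ _).1)))
        rwa [ContinuousLinearMap.sub_apply, a1, sub_zero, hμ1] at a2
      simpa using this)
  have hPP : ∀ L L', L ⊆ L' → ∀ z, P L (P L' z) = P L z := by
    intro L L' h z
    have := p4 L (z - P L' z) fun g hg => p5 L' z g (closure_mono (Set.image_mono (hCm L L' h)) hg)
    rw [map_sub] at this
    exact (sub_eq_zero.mp this).symm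
  refine ⟨fun L => Prod.fst '' C L, P, p1, p2, hPP, fun z => ?_, fun z hz => p3 _ z ?_,
    fun L z ε hε => ?_, fun L c hc hL => le_trans mk_image_le (card_Cl φ hc ?_)⟩
  · have h1 : ∀ u ∈ C ∅, u = (0, 0) := by
      refine Cl_ind φ (by simp) ?_
      rintro (_ | q) _ _ rfl rfl
      · have : μ 0 = 0 := norm_eq_zero.mp (by rw [hμ0, ξ0, norm_zero])
        simp [φ, this, ν0]
      · simp [φ]
    have h2 : P ∅ z ∈ ({0} : Set X) := by
      refine closure_minimal ?_ isClosed_singleton (p2 ∅ z)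
      rintro _ ⟨u, hu, rfl⟩
      rw [h1 u hu]
      rfl
    exact h2
  · refine closure_minimal (t := (E Set.univ : Set X)) (Submodule.span_le.mpr ?_)
      isClosed_closure hz
    rintro _ ⟨i, rfl⟩
    exact subset_closure ⟨_, subset_Cl φ _ (Set.mem_insert_of_mem _ ⟨i, trivial, rfl⟩), rfl⟩
  · obtain ⟨_, ⟨u, hu, rfl⟩, h1⟩ := Metric.mem_closure_iff.mp (p2 L z) (ε / 2) (by positivity)
    have h2 : ∃ s : Finset I, ↑s ⊆ L ∧ u ∈ C s := by
      refine Cl_ind φ (p := fun u => ∃ s : Finset I, ↑s ⊆ L ∧ u ∈ C s) ?_ ?_ u hu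
      · rintro _ (rfl | ⟨i, hi, rfl⟩)
        · exact ⟨∅, by simp, hC0 _⟩
        · exact ⟨{i}, by simpa using hi, subset_Cl φ _ (Set.mem_insert_of_mem _ ⟨i, by simp, rfl⟩)⟩
      · rintro k a b ⟨s, s1, s2⟩ ⟨t, t1, t2⟩
        exact ⟨s ∪ t, by simp [s1, t1], Cl_op φ k (hCm _ _ (by simp) s2) (hCm _ _ (by simp) t2)⟩
    obtain ⟨s, s1, s2⟩ := h2
    refine ⟨s, s1, fun B b1 b2 => ?_⟩
    have h3 : P B u.1 = u.1 := p3 B _ (subset_closure ⟨u, hCm _ _ b1 s2, rfl⟩)
    have h4 := p1 B (P L z - u.1)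
    rw [map_sub, h3, hPP B L b2] at h4
    rw [dist_eq_norm] at h1
    have h5 := norm_sub_le_norm_sub_add_norm_sub (P B z) u.1 (P L z)
    rw [norm_sub_rev u.1] at h5
    linarith
  · exact le_trans mk_insert_le (add_le_of_le hc (mk_image_le.trans hL) (one_le_aleph0.trans hc))

theorem AL (hJ : Function.Surjective (NormedSpace.inclusionInDoubleDual ℝ X)) (c : Cardinal) :
    ∀ D : Set X, ℵ₀ ≤ c → #D ≤ c → ∃ (Γ : Type) (f : Γ → StrongDual ℝ X), #Γ ≤ c ∧
      (∀ γ, ‖f γ‖ ≤ 1) ∧ (∀ z, ∀ η > 0, {γ | η < |f γ z|}.Finite) ∧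
      ∀ z ∈ closure (Submodule.span ℝ D : Set X), (∀ γ, f γ z = 0) → z = 0 := by
  induction c using WellFoundedLT.induction with
  | ind c ih =>
  intro D hc hD
  rcases hc.eq_or_lt with rfl | hc'
  · obtain ⟨ν, -, hν⟩ := exists_nu (V := X)
    obtain ⟨t, t1, t2⟩ := (le_aleph0_iff_set_countable.mp hD).isSeparable.span (R := ℝ)
    obtain ⟨d, hd⟩ := (t1.insert 0).exists_eq_range (Set.insert_nonempty _ _)
    have hb : ∀ (n : ℕ) z, |((1 / ((n:ℝ) + 1)) • ν (d n)) z| ≤ 1 / ((n:ℝ) + 1) * ‖z‖ := by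
      intro n z
      rw [ContinuousLinearMap.smul_apply, smul_eq_mul, abs_mul, abs_of_pos (by positivity)]
      exact mul_le_mul_of_nonneg_left (le_trans (abs_apply_le _ _)
        (mul_le_of_le_one_left (norm_nonneg _) (hν _).1)) (by positivity)
    refine ⟨ℕ, fun n => (1 / ((n:ℝ) + 1)) • ν (d n), mk_le_aleph0, fun n =>
      ContinuousLinearMap.opNorm_le_bound _ zero_le_one fun z => le_trans (hb n z) ?_,
      fun z η hη => ?_, fun z hz h0 => ?_⟩
    · refine mul_le_mul_of_nonneg_right ?_ (norm_nonneg _)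
      rw [div_le_one (by positivity)]
      linarith [Nat.cast_nonneg (α := ℝ) n]
    · have h1 := (tendsto_one_div_add_atTop_nhds_zero_nat (𝕜 := ℝ)).mul_const ‖z‖
      rw [zero_mul, ← Nat.cofinite_eq_atTop] at h1
      exact (h1.eventually (gt_mem_nhds hη)).subset fun n hn h2 =>
        lt_asymm h2 (lt_of_lt_of_le hn (hb n z))
    · have h1 : z ∈ {a | ‖a‖ ≤ ‖a - z‖} := by
        refine closure_minimal (fun a ha => ?_) (isClosed_le continuous_norm (by fun_prop))
          (closure_minimal t2 isClosed_closure hz)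
        obtain ⟨n, rfl⟩ : a ∈ Set.range d := hd ▸ Set.mem_insert_of_mem _ ha
        have a1 : ν (d n) z = 0 :=
          (mul_eq_zero.mp (h0 n)).resolve_left (ne_of_gt (by positivity))
        have a2 := le_trans (le_abs_self _) (le_trans (abs_apply_le (ν (d n)) (d n - z))
          (mul_le_of_le_one_left (norm_nonneg _) (hν _).1))
        rwa [map_sub, a1, sub_zero, (hν _).2] at a2
      simpa using h1
  · let I := c.ord.ToType
    have hI : #I = c := mk_ord_toType c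
    obtain ⟨e⟩ : Nonempty (D ↪ I) := (Cardinal.le_def _ _).mp (hI ▸ hD)
    obtain ⟨S, P, p1, p2, p3, p4, p5, p6, p7⟩ :=
      exists_skeleton hJ (Function.extend e Subtype.val 0)
    let Q : I → X →L[ℝ] X := fun i => P (Set.Iic i) - P (Set.Iio i)
    have hQ : ∀ i z, Q i z = P (Set.Iic i) z - P (Set.Iio i) z := fun _ _ => rfl
    have hlt : ∀ i : I, max #(Set.Iic i) ℵ₀ < c := by
      intro i
      refine max_lt ?_ hc'
      rw [← Set.Iio_insert]
      exact lt_of_le_of_lt mk_insert_le (add_lt_of_lt hc (mk_Iio_toType_ord_lt i)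
        (one_lt_aleph0.trans hc'))
    choose Γ f f1 f2 f3 f4 using fun i : I => ih _ (hlt i) (Q i '' S (Set.Iic i))
      (le_max_right _ _) (mk_image_le.trans (p7 _ _ (le_max_right _ _) (le_max_left _ _)))
    have hb : ∀ (i : I) γ z, |f i γ (Q i z)| ≤ ‖Q i z‖ := fun i γ z =>
      le_trans (abs_apply_le _ _) (mul_le_of_le_one_left (norm_nonneg _) (f2 i γ))
    refine ⟨Σ i, Γ i, fun p => (f p.1 p.2).comp ((Q p.1).comp ((1 / 2 : ℝ) • .id ℝ X)), ?_,
      fun p => ContinuousLinearMap.opNorm_le_bound _ zero_le_one fun z =>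
        le_trans (hb p.1 p.2 ((1 / 2 : ℝ) • z)) ?_, fun z η hη => ?_, fun z hz h0 => ?_⟩
    · rw [mk_sigma]
      exact le_trans (sum_le_mk_mul_iSup _) (mul_le_of_le hc hI.le
        (ciSup_le' fun i => (f1 i).trans (hlt i).le))
    · have a1 := p1 (Set.Iic p.1) ((1 / 2 : ℝ) • z)
      have a2 := p1 (Set.Iio p.1) ((1 / 2 : ℝ) • z)
      rw [norm_smul, Real.norm_eq_abs, abs_of_pos (by norm_num)] at a1 a2
      rw [hQ]
      linarith [norm_sub_le (P (Set.Iic p.1) ((1 / 2 : ℝ) • z)) (P (Set.Iio p.1) ((1 / 2 : ℝ) • z))]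
    · set y := (1 / 2 : ℝ) • z
      have h1 : {i | η < ‖Q i y‖}.Finite := by
        by_contra hinf
        let L : Set I := {j | ({i | η < ‖Q i y‖} ∩ Set.Iic j).Finite}
        have hL : ∀ i j, i ≤ j → j ∈ L → i ∈ L := fun i j h hj =>
          Set.Finite.subset hj (Set.inter_subset_inter_right _ (Set.Iic_subset_Iic.mpr h))
        have h2 : ({i | η < ‖Q i y‖} ∩ L).Infinite := by
          intro h3
          obtain ⟨m, m1, m2⟩ := wellFounded_lt.has_min ({i | η < ‖Q i y‖} \ L)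
            (Set.nonempty_iff_ne_empty.mpr fun e => hinf (by
              rw [← Set.inter_union_diff {i | η < ‖Q i y‖} L, e, Set.union_empty]
              exact h3))
          refine m1.2 ((h3.insert m).subset fun i hi => ?_)
          rcases (show i ≤ m from hi.2).eq_or_lt with h4 | h4
          · exact Or.inl h4
          · exact Or.inr ⟨hi.1, by_contra fun h5 => m2 i ⟨hi.1, h5⟩ h4⟩
        obtain ⟨s, s1, s2⟩ := p6 L y (η / 2) (by positivity)
        obtain ⟨i, i1, i2⟩ := h2.exists_notMem_finite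
          (s.finite_toSet.biUnion (t := fun j => {i | η < ‖Q i y‖} ∩ Set.Iic j) fun j hj => s1 hj)
        have h3 : ↑s ⊆ Set.Iio i := fun j hj => (not_le.mp fun h4 : i ≤ j =>
          i2 (Set.mem_biUnion hj ⟨i1.1, h4⟩) : j < i)
        have a1 := s2 (Set.Iio i) h3 fun j hj => hL j i (le_of_lt hj) i1.2
        have a2 := s2 (Set.Iic i) (h3.trans Set.Iio_subset_Iic_self) fun j hj => hL j i hj i1.2
        have a3 := norm_sub_le_norm_sub_add_norm_sub (P (Set.Iic i) y) (P L y) (P (Set.Iio i) y)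
        rw [norm_sub_rev (P L y)] at a3
        have a4 : η < ‖P (Set.Iic i) y - P (Set.Iio i) y‖ := i1.1
        linarith
      refine (h1.biUnion (t := fun i => Sigma.mk i '' {γ | η < |f i γ (Q i y)|})
        fun i _ => (f3 i _ η hη).image _).subset fun p hp => ?_
      exact Set.mem_biUnion (lt_of_lt_of_le hp (hb p.1 p.2 y)) ⟨p.2, hp, rfl⟩
    · have h1 : ∀ i, Q i z = 0 := by
        intro i
        refine f4 i _ ?_ fun γ => ?_
        · have a1 : Q i z = Q i (P (Set.Iic i) z) := by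
            rw [hQ, hQ, p3 _ _ subset_rfl, p3 _ _ Set.Iio_subset_Iic_self]
          rw [a1]
          exact closure_mono Submodule.subset_span
            (map_mem_closure (Q i).continuous (p2 _ z) fun a ha => ⟨a, ha, rfl⟩)
        · have a1 : f i γ (Q i ((1 / 2 : ℝ) • z)) = 0 := h0 ⟨i, γ⟩
          rw [map_smul, map_smul, smul_eq_mul] at a1
          linarith
      have h2 : ∀ L : Set I, (∀ i j, i ≤ j → j ∈ L → i ∈ L) → (∀ j ∈ L, P (Set.Iic j) z = 0) →
          P L z = 0 := by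
        intro L hL h3
        refine norm_le_zero_iff.mp (le_of_forall_pos_le_add fun ε hε => ?_)
        obtain ⟨s, s1, s2⟩ := p6 L z ε hε
        rcases s.eq_empty_or_nonempty with rfl | hs
        · simpa [p4] using s2 ∅ (by simp) (by simp)
        · have h4 := s1 (s.max'_mem hs)
          simpa [h3 _ h4] using s2 (Set.Iic (s.max' hs)) (fun j hj => s.le_max' j hj)
            fun j hj => hL j _ hj h4
      have h3 : ∀ i, P (Set.Iic i) z = 0 := by
        intro i
        induction i using WellFoundedLT.induction with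
        | ind i ih' =>
          have := h1 i
          rwa [hQ, h2 (Set.Iio i) (fun a b h hb => lt_of_le_of_lt h hb) ih', sub_zero] at this
      have h4 : D ⊆ Set.range (Function.extend e Subtype.val 0) := fun a ha =>
        ⟨e ⟨a, ha⟩, e.injective.extend_apply _ _ _⟩
      rw [← p5 z (closure_mono (Submodule.span_mono h4) hz)]
      exact h2 _ (fun _ _ _ _ => trivial) fun j _ => h3 j

theorem main (hJ : Function.Surjective (NormedSpace.inclusionInDoubleDual ℝ X)) (D : Set X)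
    (hD : Dense D) (hc : #D = 𝔠) :
    ∃ φ : X → lp (fun _ : ℕ => ℝ) ⊤, ∀ x y, 1 / 5 * dist x y ≤ dist (φ x) (φ y) ∧
      dist (φ x) (φ y) ≤ 1 * dist x y := by
  obtain ⟨Γ, f, f1, f2, f3, f4⟩ := AL hJ 𝔠 D aleph0_le_continuum hc.le
  obtain ⟨ι⟩ : Nonempty (Γ ↪ ℝ) := (Cardinal.le_def _ _).mp (mk_real ▸ f1)
  refine embed_family f f2 f3 ?_ ι ι.injective
  intro g
  by_contra hg
  obtain ⟨ξ, h1, h2⟩ := sep (Submodule.span ℝ (Set.range f)).topologicalClosure
    isClosed_closure hg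
  obtain ⟨z, rfl⟩ := hJ ξ
  have h3 := f4 z (closure_mono Submodule.subset_span (hD z)) fun γ =>
    h1 _ (subset_closure (Submodule.subset_span ⟨γ, rfl⟩))
  rw [h3, map_zero] at h2
  exact h2 rfl

end Pool.Agent.H2.Rl
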