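import Pool.Agent.H87.PiBase2

/-! A functional that almost norms one point of each set of a sequence, up to sign. -/

set_option autoImplicit false

namespace Pool.Agent.H2.Sad

open Filter Topology Set

variable {X : Type} [NormedAddCommGroup X] [NormedSpace ℝ X]

lemma exists_fun (A : ℕ → Set X) (hA : ∀ n, ∀ y ∈ A n, ‖y‖ ≤ 1) (x0 : X) (h0 : ‖x0‖ = 1)
    (h : ∀ x : X, ‖x‖ = 1 → ∀ n, ∀ δ > 0, ∃ y ∈ A n, 2 - δ < max ‖x + y‖ ‖x - y‖) :
    ∃ f : StrongDual ℝ X, ∀ n, ∃ y ∈ A n, 1 / 2 ≤ |f y| := by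
  have step : ∀ (n : ℕ) (p : {p : X × ℝ // ‖p.1‖ = 1 ∧ 0 < p.2 ∧ p.2 ≤ 1 / 2}),
      ∃ q : {p : X × ℝ // ‖p.1‖ = 1 ∧ 0 < p.2 ∧ p.2 ≤ 1 / 2}, ∃ y ∈ A n,
        ∀ f : StrongDual ℝ X, ‖f‖ ≤ 1 → 1 - q.1.2 ≤ f q.1.1 → 1 - p.1.2 ≤ f p.1.1 ∧ 1 / 2 ≤ |f y| := by
    rintro n ⟨⟨x, α⟩, hx, h1, h2⟩
    simp only at hx h1 h2
    obtain ⟨y, hy, h3⟩ := h x hx n (α / 2) (by positivity)
    obtain ⟨z, z1, z2, z3⟩ : ∃ z : X, ‖z‖ ≤ 1 ∧ 2 - α / 2 < ‖x + z‖ ∧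
        ∀ f : StrongDual ℝ X, |f z| = |f y| := by
      rcases lt_max_iff.mp h3 with h4 | h4
      · exact ⟨y, hA n y hy, h4, fun _ => rfl⟩
      · exact ⟨-y, by simpa using hA n y hy, by rwa [← sub_eq_add_neg], fun f => by simp⟩
    have z4 : 0 < ‖x + z‖ := by linarith
    refine ⟨⟨(‖x + z‖⁻¹ • (x + z), α / 4), ?_, by positivity, by simp only; linarith⟩, y, hy,
      fun f f1 f2 => ?_⟩
    · simp only
      rw [norm_smul, norm_inv, norm_norm, inv_mul_cancel₀ z4.ne']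
    · simp only [map_smul, map_add, smul_eq_mul] at f2 ⊢
      rw [← div_eq_inv_mul, le_div_iff₀ z4] at f2
      have a1 : f x ≤ 1 := (le_abs_self _).trans ((f.le_of_opNorm_le f1 x).trans (by rw [hx, mul_one]))
      have a2 : f z ≤ 1 := (le_abs_self _).trans ((f.le_of_opNorm_le f1 z).trans (by linarith))
      have a3 : 2 - α ≤ f x + f z := by nlinarith
      exact ⟨by linarith, by rw [← z3]; linarith [le_abs_self (f z)]⟩
  choose nx y hy hf using step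
  let s : ℕ → {p : X × ℝ // ‖p.1‖ = 1 ∧ 0 < p.2 ∧ p.2 ≤ 1 / 2} := fun n =>
    Nat.rec ⟨(x0, 1 / 2), h0, by norm_num, le_rfl⟩ nx n
  let t : ℕ → Set (WeakDual ℝ X) := fun n =>
    WeakDual.toStrongDual ⁻¹' Metric.closedBall 0 1 ∩ {f | 1 - (s n).1.2 ≤ f (s n).1.1}
  have hcl : ∀ n, IsClosed (t n) := fun n => (WeakDual.isClosed_closedBall _ _).inter
    (isClosed_le continuous_const (WeakDual.eval_continuous _))
  obtain ⟨f, hf'⟩ := IsCompact.nonempty_iInter_of_sequence_nonempty_isCompact_isClosed t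
    (fun n f h => ⟨h.1, (hf n (s n) _ (mem_closedBall_zero_iff.mp h.1) h.2).1⟩)
    (fun n => by
      obtain ⟨g, g1, g2⟩ := exists_dual_vector'' ℝ (s n).1.1
      refine ⟨StrongDual.toWeakDual g, mem_closedBall_zero_iff.mpr g1, ?_⟩
      have g3 : g (s n).1.1 = 1 := g2.trans (s n).2.1
      show _ ≤ g (s n).1.1
      linarith [(s n).2.2.1])
    ((WeakDual.isCompact_closedBall _ _).of_isClosed_subset (hcl 0) inter_subset_left) hcl
  rw [mem_iInter] at hf'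
  exact ⟨WeakDual.toStrongDual f, fun n => ⟨y n (s n), hy _ _,
    (hf n (s n) _ (mem_closedBall_zero_iff.mp (hf' (n + 1)).1) (hf' (n + 1)).2).2⟩⟩

end Pool.Agent.H2.Sad
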