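import Mathlib

namespace Pool.Agent.H2.Scheme

open Finset Matrix

variable {X : Type} [Fintype X] [DecidableEq X] {d : ℕ}

/-- R x y is the index of the relation containing (x,y); the conditions of a d-class symmetric
association scheme. -/
def IsScheme (R : X → X → Fin (d + 1)) : Prop :=
  Nonempty X ∧ (∀ i, ∃ x y, R x y = i) ∧ (∀ x y, R x y = 0 ↔ x = y) ∧ (∀ x y, R x y = R y x) ∧
    ∃ p : Fin (d + 1) → Fin (d + 1) → Fin (d + 1) → ℕ, ∀ i j x y,
      (univ.filter fun z => R x z = i ∧ R z y = j).card = p i j (R x y)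

/-- The adjacency matrix A_i. -/
def adj (R : X → X → Fin (d + 1)) (i : Fin (d + 1)) : Matrix X X ℂ :=
  Matrix.of fun x y => if R x y = i then 1 else 0

/-- The Bose-Mesner algebra, as the span of the A_i. -/
def BM (R : X → X → Fin (d + 1)) : Submodule ℂ (Matrix X X ℂ) :=
  Submodule.span ℂ (Set.range (adj R))

/-- The tensor Δ(L,M,N), by its coordinates. -/
def tri (L M N : Matrix X X ℂ) : X × X × X → ℂ :=
  fun p => L p.1 p.2.2 * M p.1 p.2.1 * N p.2.1 p.2.2

/-- The tensor Y(L,M,N), by its coordinates. -/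
def ytens (L M N : Matrix X X ℂ) : X × X × X → ℂ :=
  fun p => ∑ u, L p.1 u * M p.2.1 u * N p.2.2 u

def WTri (R : X → X → Fin (d + 1)) : Submodule ℂ (X × X × X → ℂ) :=
  Submodule.span ℂ {t | ∃ L ∈ BM R, ∃ M ∈ BM R, ∃ N ∈ BM R, t = tri L M N}

def WStar (R : X → X → Fin (d + 1)) : Submodule ℂ (X × X × X → ℂ) :=
  Submodule.span ℂ {t | ∃ L ∈ BM R, ∃ M ∈ BM R, ∃ N ∈ BM R, t = ytens L M N}

/-- Triply regular and dually triply regular. -/
def ExactlyTriplyRegular (R : X → X → Fin (d + 1)) : Prop :=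
  WStar R ≤ WTri R ∧ WTri R ≤ WStar R

/-- E_0, ..., E_d are the primitive idempotents of the Bose-Mesner algebra, E_0 = J/|X|. -/
def IsIdempotentBasis (R : X → X → Fin (d + 1)) (E : Fin (d + 1) → Matrix X X ℂ) : Prop :=
  (∀ i, E i ∈ BM R) ∧ (∀ i, E i ≠ 0) ∧ (∀ i, E i * E i = E i) ∧
    (∀ i j, i ≠ j → E i * E j = 0) ∧ ∑ i, E i = 1 ∧
    E 0 = Matrix.of fun _ _ => ((Fintype.card X : ℂ))⁻¹

/-- Some orderings of the A_i and of the E_j give P = Q. -/
def FormallySelfDual (R : X → X → Fin (d + 1)) : Prop :=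
  ∃ (σ : Equiv.Perm (Fin (d + 1))) (E : Fin (d + 1) → Matrix X X ℂ)
    (P : Fin (d + 1) → Fin (d + 1) → ℂ), IsIdempotentBasis R E ∧
    (∀ i, adj R (σ i) = ∑ j, P j i • E j) ∧
    (∀ i, E i = ((Fintype.card X : ℂ))⁻¹ • ∑ j, P j i • adj R (σ j))

/-- The scheme of m disjoint copies of K_n: equal, same group, different groups. -/
def wreath (m n : ℕ) (x y : Fin m × Fin n) : Fin 3 :=
  if x = y then 0 else if x.1 = y.1 then 1 else 2

end Pool.Agent.H2.Scheme
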