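import Mathlib
import Pool.Agent.H2.SchemeDefs

namespace Pool.Agent.H2.Scheme

open Finset Matrix


variable {m n : ℕ}

def B (m n : ℕ) : Matrix (Fin m × Fin n) (Fin m × Fin n) ℂ :=
  Matrix.of fun x y => if x.1 = y.1 then 1 else 0

def J (m n : ℕ) : Matrix (Fin m × Fin n) (Fin m × Fin n) ℂ := Matrix.of fun _ _ => 1

theorem adj0 : adj (wreath m n) 0 = 1 := by
  ext x y; simp only [adj, wreath, of_apply, one_apply]; split_ifs <;> simp_all

theorem adj1 : adj (wreath m n) 1 = B m n - 1 := by
  ext x y; simp only [adj, wreath, of_apply, one_apply, B, Matrix.sub_apply]; split_ifs <;> simp_all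

theorem adj2 : adj (wreath m n) 2 = J m n - B m n := by
  ext x y; simp only [adj, wreath, of_apply, B, J, Matrix.sub_apply]; split_ifs <;> simp_all

theorem mem_BM {L : Matrix (Fin m × Fin n) (Fin m × Fin n) ℂ} :
    L ∈ BM (wreath m n) ↔ ∃ a b c : ℂ, L = a • 1 + b • B m n + c • J m n := by
  unfold BM
  rw [Submodule.mem_span_range_iff_exists_fun]
  constructor
  · rintro ⟨c, rfl⟩
    refine ⟨c 0 - c 1, c 1 - c 2, c 2, ?_⟩
    rw [Fin.sum_univ_three, adj0, adj1, adj2]; module
  · rintro ⟨a, b, c, rfl⟩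
    refine ⟨![a + b + c, b + c, c], ?_⟩
    rw [Fin.sum_univ_three, adj0, adj1, adj2]
    simp only [cons_val_zero, cons_val_one, Matrix.cons_val]
    module

theorem oneB : (1 : Matrix _ _ ℂ) ∈ BM (wreath m n) := mem_BM.2 ⟨1, 0, 0, by simp⟩
theorem BB : B m n ∈ BM (wreath m n) := mem_BM.2 ⟨0, 1, 0, by simp⟩
theorem JB : J m n ∈ BM (wreath m n) := mem_BM.2 ⟨0, 0, 1, by simp⟩

theorem tri_expand (W : Submodule ℂ ((Fin m × Fin n) × (Fin m × Fin n) × (Fin m × Fin n) → ℂ))
    (T : Matrix (Fin m × Fin n) (Fin m × Fin n) ℂ → Matrix (Fin m × Fin n) (Fin m × Fin n) ℂ →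
      Matrix (Fin m × Fin n) (Fin m × Fin n) ℂ →
      ((Fin m × Fin n) × (Fin m × Fin n) × (Fin m × Fin n) → ℂ))
    (h1 : ∀ (a b c : ℂ) L L' L'' M N, T (a • L + b • L' + c • L'') M N =
      a • T L M N + b • T L' M N + c • T L'' M N)
    (h2 : ∀ (a b c : ℂ) L L' L'' M N, T M (a • L + b • L' + c • L'') N =
      a • T M L N + b • T M L' N + c • T M L'' N)
    (h3 : ∀ (a b c : ℂ) L L' L'' M N, T M N (a • L + b • L' + c • L'') =
      a • T M N L + b • T M N L' + c • T M N L'')
    (h : ∀ L ∈ [1, B m n, J m n], ∀ M ∈ [1, B m n, J m n], ∀ N ∈ [1, B m n, J m n], T L M N ∈ W) :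
    ∀ L ∈ BM (wreath m n), ∀ M ∈ BM (wreath m n), ∀ N ∈ BM (wreath m n), T L M N ∈ W := by
  intro L hL M hM N hN
  obtain ⟨a, b, c, rfl⟩ := mem_BM.1 hL
  obtain ⟨a', b', c', rfl⟩ := mem_BM.1 hM
  obtain ⟨a'', b'', c'', rfl⟩ := mem_BM.1 hN
  simp only [h1, h2, h3]
  repeat' first
    | apply W.add_mem
    | apply W.smul_mem
    | (apply h <;> simp)

theorem tri_mem {L M N} (hL : L ∈ BM (wreath m n)) (hM : M ∈ BM (wreath m n))
    (hN : N ∈ BM (wreath m n)) : tri L M N ∈ WTri (wreath m n) :=
  Submodule.subset_span ⟨L, hL, M, hM, N, hN, rfl⟩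

theorem star_mem {L M N} (hL : L ∈ BM (wreath m n)) (hM : M ∈ BM (wreath m n))
    (hN : N ∈ BM (wreath m n)) : ytens L M N ∈ WStar (wreath m n) :=
  Submodule.subset_span ⟨L, hL, M, hM, N, hN, rfl⟩

theorem symm_of {L} (hL : L ∈ [1, B m n, J m n]) (x y) : L x y = L y x := by
  simp only [List.mem_cons, List.not_mem_nil, or_false] at hL
  rcases hL with rfl | rfl | rfl <;> simp [one_apply, B, J, eq_comm]

theorem mem_of {L} (hL : L ∈ [1, B m n, J m n]) : L ∈ BM (wreath m n) := by
  simp only [List.mem_cons, List.not_mem_nil, or_false] at hL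
  rcases hL with rfl | rfl | rfl
  exacts [oneB, BB, JB]

theorem star1 {M N} (hM : M ∈ [1, B m n, J m n]) (hN : N ∈ [1, B m n, J m n]) :
    ytens 1 M N = tri N M (J m n) := by
  ext ⟨x, y, z⟩; simp [ytens, tri, one_apply, J, symm_of hM y, symm_of hN z, mul_comm]

theorem star2 {M N} (hM : M ∈ [1, B m n, J m n]) (hN : N ∈ [1, B m n, J m n]) :
    ytens M 1 N = tri (J m n) M N := by
  ext ⟨x, y, z⟩; simp [ytens, tri, one_apply, J, symm_of hN z]

theorem star3 {M N} (hM : M ∈ [1, B m n, J m n]) (hN : N ∈ [1, B m n, J m n]) :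
    ytens M N 1 = tri M (J m n) N := by
  ext ⟨x, y, z⟩; simp [ytens, tri, one_apply, J]

theorem sum_fst (g : Fin m → ℂ) : ∑ u : Fin m × Fin n, g u.1 = n * ∑ a, g a := by
  rw [Fintype.sum_prod_type, mul_sum]
  simp

theorem hB : B m n * B m n = (n : ℂ) • B m n := by
  ext ⟨x, x'⟩ ⟨y, y'⟩
  simp only [mul_apply, B, of_apply]
  rw [sum_fst (fun a => (if x = a then 1 else 0) * (if a = y then 1 else 0))]
  simp [eq_comm]

theorem hBJ : B m n * J m n = (n : ℂ) • J m n := by
  ext ⟨x, x'⟩ ⟨y, y'⟩
  simp only [mul_apply, B, J, of_apply]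
  rw [sum_fst (fun a => (if x = a then 1 else 0) * 1)]
  simp

theorem hJB : J m n * B m n = (n : ℂ) • J m n := by
  ext ⟨x, x'⟩ ⟨y, y'⟩
  simp only [mul_apply, B, J, of_apply]
  rw [sum_fst (fun a => 1 * (if a = y then 1 else 0))]
  simp

theorem hJ : J m n * J m n = ((m : ℂ) * n) • J m n := by
  ext ⟨x, x'⟩ ⟨y, y'⟩; simp [mul_apply, J]

theorem ytens_fst (F G H : Fin m → Fin m → ℂ) :
    ytens (of fun x y : Fin m × Fin n => F x.1 y.1) (of fun x y => G x.1 y.1)
      (of fun x y => H x.1 y.1) =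
    fun p => n * ∑ a, F p.1.1 a * G p.2.1.1 a * H p.2.2.1 a := by
  ext p
  simp only [ytens, of_apply]
  exact sum_fst (fun a => F p.1.1 a * G p.2.1.1 a * H p.2.2.1 a)

theorem exact_wreath : ExactlyTriplyRegular (wreath m n) := by
  constructor
  · refine Submodule.span_le.2 ?_
    rintro _ ⟨L, hL, M, hM, N, hN, rfl⟩
    refine tri_expand _ ytens ?_ ?_ ?_ ?_ L hL M hM N hN
    · intros; ext; simp [ytens, add_mul, sum_add_distrib, mul_sum, mul_assoc]
    · intros; ext; simp [ytens, add_mul, mul_add, sum_add_distrib, mul_sum, mul_assoc, mul_left_comm]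
    · intros; ext; simp [ytens, add_mul, mul_add, sum_add_distrib, mul_sum, mul_assoc, mul_left_comm]
    · intro L hL M hM N hN
      have hL' := hL
      have hM' := hM
      have hN' := hN
      simp only [List.mem_cons, List.not_mem_nil, or_false] at hL' hM' hN'
      rcases hL' with rfl | hL'
      · rw [star1 hM hN]; exact tri_mem (mem_of hN) (mem_of hM) JB
      rcases hM' with rfl | hM'
      · rw [star2 hL hN]; exact tri_mem JB (mem_of hL) (mem_of hN)
      rcases hN' with rfl | hN'
      · rw [star3 hL hM]; exact tri_mem (mem_of hL) JB (mem_of hM)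
      have key : ∀ (c : ℂ) L' M' N', L' ∈ BM (wreath m n) → M' ∈ BM (wreath m n) →
          N' ∈ BM (wreath m n) → ytens L M N = c • tri L' M' N' →
          ytens L M N ∈ WTri (wreath m n) := fun c L' M' N' h1 h2 h3 h =>
        h ▸ Submodule.smul_mem _ _ (tri_mem h1 h2 h3)
      rcases hL' with rfl | rfl <;> rcases hM' with rfl | rfl <;> rcases hN' with rfl | rfl
      · refine key n _ _ _ BB BB JB ((ytens_fst (fun a b => if a = b then 1 else 0)
          (fun a b => if a = b then 1 else 0) (fun a b => if a = b then 1 else 0)).trans ?_)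
        ext ⟨⟨x, x'⟩, ⟨y, y'⟩, ⟨z, z'⟩⟩
        simp [tri, B, J, eq_comm] <;> split_ifs <;> simp_all
      · refine key n _ _ _ JB BB JB ((ytens_fst (fun a b => if a = b then 1 else 0)
          (fun a b => if a = b then 1 else 0) (fun _ _ => 1)).trans ?_)
        ext ⟨⟨x, x'⟩, ⟨y, y'⟩, ⟨z, z'⟩⟩
        simp [tri, B, J, eq_comm]
      · refine key n _ _ _ BB JB JB ((ytens_fst (fun a b => if a = b then 1 else 0)
          (fun _ _ => 1) (fun a b => if a = b then 1 else 0)).trans ?_)
        ext ⟨⟨x, x'⟩, ⟨y, y'⟩, ⟨z, z'⟩⟩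
        simp [tri, B, J, eq_comm]
      · refine key n _ _ _ JB JB JB ((ytens_fst (fun a b => if a = b then 1 else 0)
          (fun _ _ => 1) (fun _ _ => 1)).trans ?_)
        ext ⟨⟨x, x'⟩, ⟨y, y'⟩, ⟨z, z'⟩⟩
        simp [tri, B, J, eq_comm]
      · refine key n _ _ _ JB JB BB ((ytens_fst (fun _ _ => 1)
          (fun a b => if a = b then 1 else 0) (fun a b => if a = b then 1 else 0)).trans ?_)
        ext ⟨⟨x, x'⟩, ⟨y, y'⟩, ⟨z, z'⟩⟩
        simp [tri, B, J, eq_comm]
      · refine key n _ _ _ JB JB JB ((ytens_fst (fun _ _ => 1)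
          (fun a b => if a = b then 1 else 0) (fun _ _ => 1)).trans ?_)
        ext ⟨⟨x, x'⟩, ⟨y, y'⟩, ⟨z, z'⟩⟩
        simp [tri, B, J, eq_comm]
      · refine key n _ _ _ JB JB JB ((ytens_fst (fun _ _ => 1)
          (fun _ _ => 1) (fun a b => if a = b then 1 else 0)).trans ?_)
        ext ⟨⟨x, x'⟩, ⟨y, y'⟩, ⟨z, z'⟩⟩
        simp [tri, B, J, eq_comm]
      · refine key (n * m) _ _ _ JB JB JB ((ytens_fst (fun _ _ => 1)
          (fun _ _ => 1) (fun _ _ => 1)).trans ?_)
        ext ⟨⟨x, x'⟩, ⟨y, y'⟩, ⟨z, z'⟩⟩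
        simp [tri, B, J, eq_comm]
  · refine Submodule.span_le.2 ?_
    rintro _ ⟨L, hL, M, hM, N, hN, rfl⟩
    refine tri_expand _ tri ?_ ?_ ?_ ?_ L hL M hM N hN
    · intros; ext; simp [tri]; ring
    · intros; ext; simp [tri]; ring
    · intros; ext; simp [tri]; ring
    · intro L hL M hM N hN
      have hL' := hL
      have hM' := hM
      have hN' := hN
      have k1 : tri L M (J m n) ∈ WStar (wreath m n) := by
        rw [← star1 hM hL]; exact star_mem oneB (mem_of hM) (mem_of hL)
      have k2 : tri (J m n) M N ∈ WStar (wreath m n) := by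
        rw [← star2 hM hN]; exact star_mem (mem_of hM) oneB (mem_of hN)
      have k3 : tri L (J m n) N ∈ WStar (wreath m n) := by
        rw [← star3 hL hN]; exact star_mem (mem_of hL) (mem_of hN) oneB
      simp only [List.mem_cons, List.not_mem_nil, or_false] at hL' hM' hN'
      rcases hL' with rfl | rfl | rfl <;> rcases hM' with rfl | rfl | rfl <;>
        rcases hN' with rfl | rfl | rfl <;>
      first
        | exact k1
        | exact k2
        | exact k3
        | (convert k1 using 1
           ext ⟨x, y, z⟩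
           simp only [tri, B, J, one_apply, of_apply]
           split_ifs <;> simp_all
           done)
        | (convert k2 using 1
           ext ⟨x, y, z⟩
           simp only [tri, B, J, one_apply, of_apply]
           split_ifs <;> simp_all
           done)
        | (convert k3 using 1
           ext ⟨x, y, z⟩
           simp only [tri, B, J, one_apply, of_apply]
           split_ifs <;> simp_all
           done)

theorem scheme_wreath (hm : 2 ≤ m) (hn : 2 ≤ n) : IsScheme (wreath m n) := by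
  have a0 : (⟨0, by omega⟩ : Fin m) ≠ ⟨1, by omega⟩ := by simp
  have b0 : (⟨0, by omega⟩ : Fin n) ≠ ⟨1, by omega⟩ := by simp
  refine ⟨⟨(⟨0, by omega⟩, ⟨0, by omega⟩)⟩, ?_, ?_, ?_, ?_⟩
  · intro i
    fin_cases i
    · exact ⟨(⟨0, by omega⟩, ⟨0, by omega⟩), (⟨0, by omega⟩, ⟨0, by omega⟩), by simp [wreath]⟩
    · exact ⟨(⟨0, by omega⟩, ⟨0, by omega⟩), (⟨0, by omega⟩, ⟨1, by omega⟩), by simp [wreath]⟩
    · exact ⟨(⟨0, by omega⟩, ⟨0, by omega⟩), (⟨1, by omega⟩, ⟨0, by omega⟩), by simp [wreath]⟩
  · intro x y; unfold wreath; split_ifs <;> simp_all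
  · intro x y; unfold wreath; simp only [eq_comm]
  · have key : ∀ (i j : Fin 3) (x y x' y' : Fin m × Fin n), wreath m n x y = wreath m n x' y' →
        (univ.filter fun z => wreath m n x z = i ∧ wreath m n z y = j).card =
        (univ.filter fun z => wreath m n x' z = i ∧ wreath m n z y' = j).card := by
      intro i j x y x' y' h
      have hmul : adj (wreath m n) i * adj (wreath m n) j ∈ BM (wreath m n) := by
        obtain ⟨a, b, c, h1⟩ := mem_BM.1 (Submodule.subset_span ⟨i, rfl⟩ :
          adj (wreath m n) i ∈ BM (wreath m n))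
        obtain ⟨a', b', c', h2⟩ := mem_BM.1 (Submodule.subset_span ⟨j, rfl⟩ :
          adj (wreath m n) j ∈ BM (wreath m n))
        rw [h1, h2]
        simp only [mul_add, add_mul, smul_mul_assoc, mul_smul_comm, hB, hBJ, hJB, hJ, one_mul,
          mul_one]
        repeat' first
          | exact oneB
          | exact BB
          | exact JB
          | apply Submodule.add_mem
          | apply Submodule.smul_mem
      have hcard : ∀ x y, (adj (wreath m n) i * adj (wreath m n) j) x y =
          ((univ.filter fun z => wreath m n x z = i ∧ wreath m n z y = j).card : ℂ) := by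
        intro x y
        rw [card_filter]
        simp only [mul_apply, adj, of_apply]
        push_cast
        refine sum_congr rfl fun z _ => ?_
        by_cases h1 : wreath m n x z = i <;> by_cases h2 : wreath m n z y = j <;> simp [h1, h2]
      obtain ⟨c, hc⟩ := (Submodule.mem_span_range_iff_exists_fun _).1 hmul
      have := hcard x y
      rw [← hc] at hcard
      have e1 := hcard x y
      have e2 := hcard x' y'
      simp only [Matrix.sum_apply, Matrix.smul_apply, adj, of_apply, h] at e1 e2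
      exact_mod_cast e1.symm.trans e2
    classical
    refine ⟨fun i j k => if h : ∃ p : (Fin m × Fin n) × (Fin m × Fin n), wreath m n p.1 p.2 = k then
      (univ.filter fun z => wreath m n h.choose.1 z = i ∧ wreath m n z h.choose.2 = j).card
      else 0, fun i j x y => ?_⟩
    have h : ∃ p : (Fin m × Fin n) × (Fin m × Fin n), wreath m n p.1 p.2 = wreath m n x y :=
      ⟨(x, y), rfl⟩
    simp only [dif_pos h]
    exact key _ _ _ _ _ _ h.choose_spec.symm

theorem not_fsd (hm : 2 ≤ m) (hn : 2 ≤ n) (hmn : m ≠ n) : ¬ FormallySelfDual (wreath m n) := by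
  rintro ⟨σ, E, P, ⟨hBM, hne, hid, horth, hsum, hE0⟩, hA, hE⟩
  have hm0 : (m : ℂ) ≠ 0 := by exact_mod_cast (by omega)
  have hn0 : (n : ℂ) ≠ 0 := by exact_mod_cast (by omega)
  have hN : (Fintype.card (Fin m × Fin n) : ℂ) = m * n := by simp
  set x0 : Fin m × Fin n := (⟨0, by omega⟩, ⟨0, by omega⟩) with hx0
  set x1 : Fin m × Fin n := (⟨0, by omega⟩, ⟨1, by omega⟩) with hx1
  set x2 : Fin m × Fin n := (⟨1, by omega⟩, ⟨0, by omega⟩) with hx2
  have hent : ∀ i x y, E i x y = ((m : ℂ) * n)⁻¹ * P (σ.symm (wreath m n x y)) i := by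
    intro i x y
    rw [hE i, hN]
    simp only [Matrix.smul_apply, Matrix.sum_apply, adj, of_apply, smul_eq_mul, mul_ite, mul_one,
      mul_zero, ← σ.symm_apply_eq, sum_ite_eq, mem_univ, if_true]
  have w0 : wreath m n x0 x0 = 0 := by simp [wreath]
  have w1 : wreath m n x0 x1 = 1 := by simp [wreath, hx0, hx1]
  have w2 : wreath m n x0 x2 = 2 := by simp [wreath, hx0, hx2]
  have hP0 : ∀ j, P j 0 = 1 := by
    intro j
    obtain ⟨x, y, h⟩ := (scheme_wreath hm hn).2.1 (σ j)
    have := hent 0 x y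
    rw [hE0, h, hN] at this
    simp only [of_apply, Equiv.symm_apply_apply] at this
    field_simp at this
    exact this.symm
  have hs0 : σ 0 = 0 := by
    have h := hA 0
    simp only [hP0, one_smul, hsum] at h
    have := congrFun (congrFun h x0) x0
    simp only [adj, of_apply, w0, one_apply_eq] at this
    by_contra hc
    simp [Ne.symm hc] at this
  set i := σ.symm 1 with hi
  have hi0 : i ≠ 0 := by
    intro h
    rw [hi, Equiv.symm_apply_eq, hs0] at h
    exact absurd h (by decide)
  have hJ0 : E 0 = ((m : ℂ) * n)⁻¹ • J m n := by rw [hE0, hN]; ext; simp [J]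
  have hval : P 0 i = n - 1 := by
    have h := congrArg (· * E 0) (hA i)
    simp only [sum_mul, smul_mul_assoc] at h
    rw [sum_eq_single 0 (fun j _ hj => by rw [horth j 0 hj, smul_zero]) (by simp), hid, hi,
      Equiv.apply_symm_apply, adj1, hJ0, sub_mul, mul_smul_comm, hBJ, one_mul] at h
    have := congrFun (congrFun h x0) x0
    simp only [Matrix.sub_apply, Matrix.smul_apply, J, of_apply, smul_eq_mul] at this
    field_simp at this
    rw [hi]
    linear_combination -this
  obtain ⟨a, b, c, habc⟩ := mem_BM.1 (hBM i)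
  have e1 : a + b + c = ((m : ℂ) * n)⁻¹ * (n - 1) := by
    have := hent i x0 x0
    rw [w0, ← hs0, Equiv.symm_apply_apply, hval, habc] at this
    simpa [B, J] using this
  have e2 : a + n * b + m * n * c = 0 := by
    have h := horth i 0 hi0
    rw [habc, hJ0] at h
    simp only [mul_smul_comm, add_mul, smul_mul_assoc, hBJ, hJ, one_mul] at h
    have := congrFun (congrFun h x0) x0
    simp only [Matrix.add_apply, Matrix.smul_apply, J, of_apply, smul_eq_mul, Matrix.zero_apply]
      at this
    field_simp at this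
    linear_combination this
  have h := hid i
  rw [habc] at h
  simp only [mul_add, add_mul, smul_mul_assoc, mul_smul_comm, hB, hBJ, hJB, hJ, one_mul,
    mul_one] at h
  have f0 := congrFun (congrFun h x0) x0
  have f1 := congrFun (congrFun h x0) x1
  have f2 := congrFun (congrFun h x0) x2
  simp [B, J, hx0, hx1, hx2, one_apply] at f0 f1 f2
  have g1 : a * (a - 1) = 0 := by linear_combination f0 - f1
  have g2 : (a + n * b) * (a + n * b - 1) = 0 := by
    linear_combination f0 - f1 + n * (f1 - f2)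
  have g3 : a * (m * (n - 1)) + (a + n * b) * (m - 1) = n - 1 := by
    field_simp at e1
    linear_combination e1 - e2
  obtain ⟨m', rfl⟩ : ∃ m', m = m' + 2 := ⟨m - 2, by omega⟩
  obtain ⟨n', rfl⟩ : ∃ n', n = n' + 2 := ⟨n - 2, by omega⟩
  rcases mul_eq_zero.1 g1 with g1 | g1 <;> rcases mul_eq_zero.1 g2 with g2 | g2
  · have : ((n' + 1 : ℕ) : ℂ) = 0 := by
      push_cast at *; linear_combination -g3 + ((m' + 2) * (n' + 1)) * g1 + (m' + 1) * g2
    exact absurd (by exact_mod_cast this) (by omega : ¬ n' + 1 = 0)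
  · have : ((n' : ℕ) : ℂ) = m' := by
      push_cast at *; linear_combination -g3 + ((m' + 2) * (n' + 1)) * g1 + (m' + 1) * g2
    exact hmn (by have : n' = m' := by exact_mod_cast this
                  omega)
  · have : (((m' + 1) * (n' + 1) : ℕ) : ℂ) = 0 := by
      push_cast at *; linear_combination g3 - ((m' + 2) * (n' + 1)) * g1 - (m' + 1) * g2
    exact absurd (by exact_mod_cast this) (by positivity : (m' + 1) * (n' + 1) ≠ 0)
  · have : (((m' + 1) * (n' + 2) : ℕ) : ℂ) = 0 := by
      push_cast at *; linear_combination g3 - ((m' + 2) * (n' + 1)) * g1 - (m' + 1) * g2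
    exact absurd (by exact_mod_cast this) (by positivity : (m' + 1) * (n' + 2) ≠ 0)

end Pool.Agent.H2.Scheme
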