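import Mathlib
import Pool.Agent.H2.ZeroFreeMain

namespace Pool.Agent.H2.ZeroFree

open Finset Pointwise

theorem exists_prime3 {d : ℕ} (h : d % 3 = 2) : ∃ q, q.Prime ∧ q ∣ d ∧ q % 3 = 2 := by
  induction d using induction_on_primes with
  | zero => simp at h
  | one => simp at h
  | prime_mul p a hp ih =>
    by_cases e : p % 3 = 2
    · exact ⟨p, hp, dvd_mul_right _ _, e⟩
    have : a % 3 = 2 := by
      rw [Nat.mul_mod] at h
      have := Nat.mod_lt p (show 0 < 3 by omega)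
      have := Nat.mod_lt a (show 0 < 3 by omega)
      generalize p % 3 = x at *
      generalize a % 3 = y at *
      interval_cases x <;> interval_cases y <;> simp_all
    obtain ⟨q, h1, h2, h3⟩ := ih this
    exact ⟨q, h1, h2.mul_left _, h3⟩

theorem upper3 {n : ℕ} [NeZero n] {A : Finset (ZMod n)}
    (h : ∀ a ∈ A, ∀ b ∈ A, ∀ c ∈ A, a + b + c ≠ 0 ∧ a + b ≠ c) :
    3 * #A + 1 ≤ n ∨ ∃ d w, n = d * w ∧ d % 3 = 2 ∧ 3 * #A ≤ (d + 1) * w := by
  obtain ⟨d, w, e1, e2⟩ := ih_all (h := 3) (by omega) _ (ZMod n) (Nat.lt_succ_self _) A fun e => by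
    obtain ⟨f, f1, f2⟩ := mem_nsmul'.1 e
    rw [Fin.sum_univ_three] at f2
    exact (h _ (f1 0) _ (f1 1) _ (f1 2)).1 f2
  rw [ZMod.card] at e1
  have hn := NeZero.pos n
  have hd : 0 < d := Nat.pos_of_mul_pos_right (e1 ▸ hn)
  have hw : 0 < w := Nat.pos_of_mul_pos_left (e1 ▸ hn)
  have g1 := Nat.gcd_pos_of_pos_left 3 hd
  have g2 := Nat.gcd_le_left 3 hd
  by_cases c : d % 3 = 2
  · refine Or.inr ⟨d, w, e1, c, ?_⟩
    have : 3 * fv 3 d ≤ d + 1 := by unfold fv; omega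
    nlinarith
  left
  have : 3 * fv 3 d + 1 ≤ d := by
    unfold fv
    by_cases c3 : 3 ∣ d
    · rw [Nat.gcd_eq_right c3]; omega
    · omega
  nlinarith

theorem lower3 {n d : ℕ} [NeZero n] (hd : d ∣ n) : ∃ A : Finset (ZMod n),
    (∀ a ∈ A, ∀ b ∈ A, ∀ c ∈ A, a + b + c ≠ 0 ∧ a + b ≠ c) ∧
      #A = ((2 * d + 2) / 3 - (d / 3 + 1)) * (n / d) := by
  have hd0 := Nat.pos_of_dvd_of_pos hd (NeZero.pos n)
  have : NeZero d := ⟨hd0.ne'⟩
  let φ := (ZMod.castHom hd (ZMod d)).toAddMonoidHom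
  have hφ : Function.Surjective φ := ZMod.castHom_surjective hd
  let B := (Ico (d / 3 + 1) ((2 * d + 2) / 3)).image (Nat.cast : ℕ → ZMod d)
  refine ⟨univ.filter fun x => φ x ∈ B, fun a ha b hb c hc => ?_, ?_⟩
  · simp only [B, mem_filter, mem_univ, true_and, mem_image, mem_Ico] at ha hb hc
    obtain ⟨x, hx, ha⟩ := ha
    obtain ⟨y, hy, hb⟩ := hb
    obtain ⟨z, hz, hc⟩ := hc
    constructor <;> intro e <;> have h1 := congrArg φ e
    · rw [map_add, map_add, map_zero, ← ha, ← hb, ← hc, ← Nat.cast_add, ← Nat.cast_add,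
        ZMod.natCast_eq_zero_iff] at h1
      have := Nat.le_of_dvd (by omega) ((Nat.dvd_sub_iff_left (by omega) dvd_rfl).2 h1)
      omega
    · rw [map_add, ← ha, ← hb, ← hc, ← Nat.cast_add, eq_comm, ZMod.natCast_eq_natCast_iff,
        Nat.modEq_iff_dvd' (by omega)] at h1
      have := Nat.le_of_dvd (by omega) h1
      omega
  · have h5 := SF02.card_pre φ hφ B
    rw [ZMod.card, ZMod.card, card_image_of_injOn (s := Ico _ _), Nat.card_Ico] at h5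
    · obtain ⟨r, rfl⟩ := hd
      rw [Nat.mul_div_cancel_left _ hd0]
      exact Nat.eq_of_mul_eq_mul_left hd0 (by linarith)
    intro x hx y hy e
    simp only [coe_Ico, Set.mem_Ico] at hx hy
    have := congrArg ZMod.val e
    rwa [ZMod.val_cast_of_lt (by omega), ZMod.val_cast_of_lt (by omega)] at this

theorem main3 (n : ℕ) (hn : 0 < n) :
    (∀ p : ℕ, IsLeast {q : ℕ | q.Prime ∧ q ∣ n ∧ q % 3 = 2} p →
      IsGreatest {k : ℕ | ∃ A : Finset (ZMod n),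
        (∀ a ∈ A, ∀ b ∈ A, ∀ c ∈ A, a + b + c ≠ 0 ∧ a + b ≠ c) ∧ A.card = k}
        ((p + 1) / 3 * (n / p))) ∧
    ((¬ ∃ q : ℕ, q.Prime ∧ q ∣ n ∧ q % 3 = 2) →
      IsGreatest {k : ℕ | ∃ A : Finset (ZMod n),
        (∀ a ∈ A, ∀ b ∈ A, ∀ c ∈ A, a + b + c ≠ 0 ∧ a + b ≠ c) ∧ A.card = k} ((n - 1) / 3)) := by
  have : NeZero n := ⟨hn.ne'⟩
  refine ⟨fun p ⟨⟨h1, h2, h3⟩, h4⟩ => ⟨?_, ?_⟩, fun hq => ⟨?_, ?_⟩⟩
  · rw [show (p + 1) / 3 = (2 * p + 2) / 3 - (p / 3 + 1) by omega]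
    exact lower3 h2
  · rintro _ ⟨A, hA, rfl⟩
    obtain ⟨r, hr⟩ := h2
    have e : (p + 1) / 3 * 3 = p + 1 := by omega
    rw [Nat.div_eq_of_eq_mul_right h1.pos hr]
    refine Nat.le_of_mul_le_mul_left (c := 3) ?_ (by omega)
    rw [← mul_assoc, mul_comm 3 (_ / 3), e]
    rcases upper3 hA with h | ⟨d, m, h5, h6, h7⟩
    · nlinarith
    · obtain ⟨q, q1, q2, q3⟩ := exists_prime3 h6
      have := (h4 ⟨q1, q2.trans ⟨m, h5⟩, q3⟩).trans (Nat.le_of_dvd (by omega) q2)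
      have : m ≤ r := Nat.le_of_mul_le_mul_left (c := p) (by nlinarith) h1.pos
      nlinarith
  · have : n % 3 ≠ 2 := fun e => hq (exists_prime3 e)
    have h := lower3 (n := n) dvd_rfl
    have e : (2 * n + 2) / 3 - (n / 3 + 1) = (n - 1) / 3 := by
      rcases (by omega : n % 3 = 0 ∨ n % 3 = 1) with e | e
      · rw [show (2 * n + 2) / 3 = 2 * (n / 3) by omega]; omega
      · rw [show (2 * n + 2) / 3 = 2 * (n / 3) + 1 by omega]; omega
    rwa [Nat.div_self hn, mul_one, e] at h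
  · rintro _ ⟨A, hA, rfl⟩
    rcases upper3 hA with h | ⟨d, m, h5, h6, h7⟩
    · omega
    · obtain ⟨q, q1, q2, q3⟩ := exists_prime3 h6
      exact absurd ⟨q, q1, q2.trans ⟨m, h5⟩, q3⟩ hq

end Pool.Agent.H2.ZeroFree
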