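import Mathlib
import Pool.Agent.H2.KneserH
import Pool.Agent.H2.SF02Proof
import Pool.Agent.H2.SignedDefs

namespace Pool.Agent.H2.Signed

open Finset Pointwise Pool.Agent.H2.Kneser

set_option linter.unusedSectionVars false

variable {G : Type*} [AddCommGroup G] [DecidableEq G]

theorem spans_iff {s : ℕ} {A : Finset G} : Spans s A ↔
    ∀ x, ∃ l : G → ℤ, ∑ a ∈ A, (l a).natAbs ≤ s ∧ ∑ a ∈ A, l a • a = x := by
  simp [Spans, Set.eq_univ_iff_forall, signedSum]

theorem mem_nsmul_imp (s : ℕ) (A : Finset G) : ∀ x ∈ s • (insert 0 (A ∪ -A)),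
    ∃ l : G → ℤ, ∑ a ∈ A, (l a).natAbs ≤ s ∧ ∑ a ∈ A, l a • a = x := by
  induction s with
  | zero => intro x hx; exact ⟨0, by simp, by simpa [eq_comm] using hx⟩
  | succ s ih =>
    intro x hx
    rw [succ_nsmul] at hx
    obtain ⟨y, hy, b, hb, rfl⟩ := mem_add.1 hx
    obtain ⟨l, h1, rfl⟩ := ih y hy
    have key : ∀ a ∈ A, ∀ e : ℤ, e.natAbs = 1 → ∃ l' : G → ℤ, ∑ a ∈ A, (l' a).natAbs ≤ s + 1 ∧
        ∑ a ∈ A, l' a • a = ∑ a ∈ A, l a • a + e • a := fun a ha e he => by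
      refine ⟨fun c => l c + if c = a then e else 0, ?_, by simp [add_smul, sum_add_distrib, ha]⟩
      refine (sum_le_sum fun c _ => Int.natAbs_add_le _ _).trans ?_
      simp [sum_add_distrib, apply_ite Int.natAbs, ha, he, h1]
    rcases mem_insert.1 hb with rfl | hb
    · exact ⟨l, by omega, by simp⟩
    rcases mem_union.1 hb with hb | hb
    · simpa using key b hb 1 rfl
    · simpa using key _ (mem_neg'.1 hb) (-1) rfl

theorem Spans.mono {s : ℕ} {A B : Finset G} (h : A ⊆ B) (hA : Spans s A) : Spans s B := by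
  rw [spans_iff] at *
  intro x
  obtain ⟨l, h1, h2⟩ := hA x
  refine ⟨fun c => if c ∈ A then l c else 0, ?_, ?_⟩
  · simpa [apply_ite Int.natAbs, sum_ite_mem, inter_eq_right.2 h] using h1
  · simpa [sum_ite_mem, inter_eq_right.2 h] using h2

theorem upper {n s : ℕ} [NeZero n] (hs : 0 < s) {A : Finset (ZMod n)} (h : ¬ Spans s A) :
    ∃ d, d ∣ n ∧ 2 ≤ d ∧ #A ≤ (2 * ((d - 2) / (2 * s)) + 1) * (n / d) := by
  obtain ⟨s, rfl⟩ := Nat.exists_eq_add_one.2 hs
  set B := insert 0 (A ∪ -A) with hB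
  have hne : (s + 1) • B ≠ univ := fun e =>
    h (spans_iff.2 fun x => mem_nsmul_imp _ A x (e ▸ mem_univ x))
  obtain ⟨d, k, h1, h2, h3, h4⟩ := kneser_num (insert_nonempty _ _) s hne
  rw [← hB] at h1 h2
  set H := st ((s + 1) • B)
  have sH : Sg H := sg_st _
  have h5 : #A ≤ k * #H := h2 ▸ card_le_card
    ((subset_union_left.trans (subset_insert _ _)).trans (sH.subset_add B))
  rw [ZMod.card] at h1
  have hm := sH.pos
  have hd : 2 ≤ d := by nlinarith
  rcases Nat.even_or_odd n with ⟨r, hr⟩ | hn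
  · rcases s with _ | s
    · have : 2 ≤ n := by nlinarith
      refine ⟨n, dvd_rfl, this, ?_⟩
      rw [Nat.div_self (by omega)]
      have : k + 1 ≤ d := by omega
      have : #A + 1 ≤ n := by nlinarith
      omega
    · refine ⟨2, ⟨r, by omega⟩, le_rfl, ?_⟩
      obtain ⟨k, rfl⟩ := Nat.exists_eq_add_one.2 h3
      have : 2 * (k + 1) ≤ d := by nlinarith
      have : 2 * #A ≤ n := by nlinarith
      simp; omega
  have h0 : (0 : ZMod n) ∈ B + H := sH.subset_add B (mem_insert_self _ _)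
  have hodd : Odd #(B + H) := by
    rw [← card_erase_add_one h0, ← Nat.not_even_iff_odd, Nat.even_add_one, not_not,
      ← ZMod.natCast_eq_zero_iff_even, card_eq_sum_ones]
    push_cast
    refine sum_involution (fun x _ => -x) (fun _ _ => rfl) (fun x hx _ e => ?_)
      (fun x hx => ?_) fun _ _ => neg_neg _
    · refine (mem_erase.1 hx).1 (((ZMod.isUnit_iff_coprime 2 n).2 hn.coprime_two_left).mul_left_cancel ?_)
      push_cast
      linear_combination -e
    · obtain ⟨e, hx⟩ := mem_erase.1 hx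
      obtain ⟨a, ha, b, hb, rfl⟩ := mem_add.1 hx
      refine mem_erase.2 ⟨neg_ne_zero.2 e, neg_add a b ▸ add_mem_add ?_ (sH.neg hb)⟩
      simp only [hB, mem_insert, mem_union, mem_neg', neg_neg, neg_eq_zero] at ha ⊢
      tauto
  obtain ⟨j, rfl⟩ := (Nat.odd_mul.1 (h2 ▸ hodd)).1
  refine ⟨d, ⟨_, h1⟩, hd, h5.trans ?_⟩
  rw [Nat.div_eq_of_eq_mul_right (by omega) h1]
  gcongr
  rw [Nat.le_div_iff_mul_le (by omega)]
  obtain ⟨d, rfl⟩ := Nat.exists_eq_add_of_le' hd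
  simp; nlinarith

theorem lower {n s d : ℕ} [NeZero n] (hs : 0 < s) (hd : d ∣ n) (h2 : 2 ≤ d) :
    ∃ A : Finset (ZMod n), ¬ Spans s A ∧ #A = (2 * ((d - 2) / (2 * s)) + 1) * (n / d) := by
  set j := (d - 2) / (2 * s) with hj
  have h3 : j * (2 * s) ≤ d - 2 := Nat.div_mul_le_self _ _
  have h4 : j * (2 * s) + 2 ≤ d := by omega
  have : NeZero d := ⟨by omega⟩
  let φ := (ZMod.castHom hd (ZMod d)).toAddMonoidHom
  have hφ : Function.Surjective φ := ZMod.castHom_surjective hd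
  let B := (Icc (-j : ℤ) j).image (Int.cast : ℤ → ZMod d)
  have small : ∀ x : ℤ, (x : ZMod d) = 0 → |x| < d → x = 0 := fun x e h =>
    Int.eq_zero_of_abs_lt_dvd ((ZMod.intCast_zmod_eq_zero_iff_dvd _ _).1 e) h
  refine ⟨univ.filter fun x => φ x ∈ B, fun h => ?_, ?_⟩
  · obtain ⟨x, hx⟩ := hφ ((j * s + 1 : ℤ) : ZMod d)
    obtain ⟨l, h5, h6⟩ := spans_iff.1 h x
    have : ∀ a : ZMod n, ∃ z : ℤ, φ a ∈ B → |z| ≤ j ∧ (z : ZMod d) = φ a := fun a => by
      by_cases e : φ a ∈ B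
      · obtain ⟨z, z1, z2⟩ := mem_image.1 e
        exact ⟨z, fun _ => ⟨abs_le.2 (mem_Icc.1 z1), z2⟩⟩
      · exact ⟨0, fun h => absurd h e⟩
    choose z hz using this
    set A : Finset (ZMod n) := {x | φ x ∈ B}
    have h7 : |∑ a ∈ A, l a * z a| ≤ j * s := by
      refine (abs_sum_le_sum_abs _ _).trans ((sum_le_sum (g := fun a => (j : ℤ) * (l a).natAbs)
        fun a ha => ?_).trans ?_)
      · rw [abs_mul, Int.natCast_natAbs, mul_comm]
        exact mul_le_mul_of_nonneg_right (hz a (mem_filter.1 ha).2).1 (abs_nonneg _)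
      · rw [← mul_sum]
        gcongr
        exact_mod_cast h5
    have h8 := small (j * s + 1 - ∑ a ∈ A, l a * z a) (by
      rw [Int.cast_sub, ← hx, ← h6, map_sum, sub_eq_zero, Int.cast_sum]
      exact sum_congr rfl fun a ha => by
        rw [map_zsmul, Int.cast_mul, (hz a (mem_filter.1 ha).2).2, zsmul_eq_mul]) (by
      rw [abs_le] at h7
      rw [abs_lt]
      constructor <;> nlinarith)
    rw [abs_le] at h7
    omega
  · have h5 := SF02.card_pre φ hφ B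
    rw [ZMod.card, ZMod.card, card_image_of_injOn (s := Icc _ _), Int.card_Icc] at h5
    · obtain ⟨r, rfl⟩ := hd
      rw [Nat.mul_div_cancel_left _ (by omega)]
      rw [show ((j : ℤ) + 1 - -j).toNat = 2 * j + 1 by omega] at h5
      exact Nat.eq_of_mul_eq_mul_left (NeZero.pos d) (by linarith)
    intro x hx y hy e
    simp only [coe_Icc, Set.mem_Icc] at hx hy
    have := small (x - y) (by rw [Int.cast_sub, e, sub_self])
      (by rw [abs_lt]; constructor <;> nlinarith)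
    omega

theorem cast_term {n s d : ℕ} (h2 : 2 ≤ d) :
    (2 * (((d : ℤ) - 2) / (2 * s)) + 1) * (n / d) =
      ((2 * ((d - 2) / (2 * s)) + 1) * (n / d) : ℕ) := by
  push_cast [h2]; rfl

theorem main (n s : ℕ) (hn : 0 < n) (hs : 0 < s) : ∃ m : ℕ,
    IsLeast {m : ℕ | ∀ A : Finset (ZMod n), m ≤ A.card → Spans s A} m ∧
    IsGreatest {v : ℤ | ∃ d : ℕ, d ∣ n ∧ v = (2 * (((d : ℤ) - 2) / (2 * s)) + 1) * (n / d)}
      ((m : ℤ) - 1) := by
  have : NeZero n := ⟨hn.ne'⟩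
  have one : (2 * ((((1 : ℕ) : ℤ) - 2) / (2 * s)) + 1) * (n / (1 : ℕ)) = -(n : ℤ) := by
    rw [show (((1 : ℕ) : ℤ) - 2) / (2 * s) = -1 from Int.ediv_eq_neg_one_of_neg_of_le (by norm_num)
      (by omega)]
    simp
  by_cases h1 : n = 1
  · subst h1
    refine ⟨0, ⟨fun A _ => spans_iff.2 fun x => ⟨0, by simp, Subsingleton.elim _ _⟩,
      fun _ _ => Nat.zero_le _⟩, ⟨1, dvd_rfl, by rw [one]; simp⟩, ?_⟩
    rintro _ ⟨d, hd, rfl⟩
    rw [Nat.dvd_one.1 hd, one]; simp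
  obtain ⟨d, hd, hmax⟩ := exists_max_image (n.divisors.filter (2 ≤ ·))
    (fun d => (2 * ((d - 2) / (2 * s)) + 1) * (n / d)) ⟨n, by simp; omega⟩
  simp only [mem_filter, Nat.mem_divisors] at hd hmax
  refine ⟨(2 * ((d - 2) / (2 * s)) + 1) * (n / d) + 1, ⟨fun A hA => ?_, fun m hm => ?_⟩,
    ⟨d, hd.1.1, by rw [cast_term hd.2]; simp⟩, ?_⟩
  · by_contra hc
    obtain ⟨e, e1, e2, e3⟩ := upper hs hc
    have := hmax e ⟨⟨e1, hn.ne'⟩, e2⟩
    omega
  · obtain ⟨A, a1, a2⟩ := lower hs hd.1.1 hd.2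
    by_contra hc
    exact a1 (hm A (by omega))
  · rintro _ ⟨e, he, rfl⟩
    by_cases e1 : e = 1
    · rw [e1, one]; omega
    have e2 : 2 ≤ e := by have := Nat.pos_of_dvd_of_pos he hn; omega
    have := hmax e ⟨⟨he, hn.ne'⟩, e2⟩
    rw [cast_term e2]; omega

theorem third (n s : ℕ) (hn : Odd n) (h3 : 3 ∣ n) (hs : 3 ≤ s) :
    IsLeast {m : ℕ | ∀ A : Finset (ZMod n), A.card = m → Spans s A} (n / 3 + 1) := by
  have : NeZero n := ⟨hn.pos.ne'⟩
  refine ⟨fun A hA => ?_, fun m hm => ?_⟩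
  · by_contra hc
    obtain ⟨d, ⟨r, rfl⟩, e2, e3⟩ := upper (by omega) hc
    obtain ⟨c, rfl⟩ := (Nat.odd_mul.1 hn).1
    have h4 := Nat.div_mul_le_self (2 * c + 1 - 2) (2 * s)
    rw [Nat.mul_div_cancel_left _ (by omega)] at e3
    set j := (2 * c + 1 - 2) / (2 * s)
    have : j * 6 ≤ j * (2 * s) := Nat.mul_le_mul_left _ (by omega)
    have : 3 * (2 * j + 1) ≤ 2 * c + 1 := by omega
    have : 3 * ((2 * j + 1) * r) ≤ (2 * c + 1) * r := by nlinarith
    omega
  · obtain ⟨A, a1, a2⟩ := lower (s := s) (by omega) h3 (by omega)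
    rw [Nat.div_eq_of_lt (a := 3 - 2) (by omega)] at a2
    by_contra hc
    obtain ⟨B, b1, b2⟩ := exists_subset_card_eq (s := A) (n := m) (by omega)
    exact a1 ((hm B b2).mono b1)

end Pool.Agent.H2.Signed
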