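import Mathlib

set_option autoImplicit false

namespace Pool.Agent.H2.Sm

open Filter Topology

section Defect

variable {V : Type} [AddCommGroup V] [Module ℝ V]

/-- The parallelogram defect of a seminorm. -/
def D (ρ : Seminorm ℝ V) (a b : V) : ℝ := 2 * ρ a ^ 2 + 2 * ρ b ^ 2 - ρ (a + b) ^ 2

lemma sq_le_D (ρ : Seminorm ℝ V) (a b : V) : (ρ a - ρ b) ^ 2 ≤ D ρ a b := by
  have h1 := map_add_le_add ρ a b
  have h2 := apply_nonneg ρ (a + b)
  have h3 : ρ (a + b) ^ 2 ≤ (ρ a + ρ b) ^ 2 := pow_le_pow_left₀ h2 h1 2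
  unfold D
  nlinarith

lemma D_nonneg (ρ : Seminorm ℝ V) (a b : V) : 0 ≤ D ρ a b :=
  le_trans (sq_nonneg _) (sq_le_D ρ a b)

lemma tendsto_of_sq_le {ι : Type} {l : Filter ι} {f g : ι → ℝ} {c : ℝ}
    (h : ∀ i, (c - f i) ^ 2 ≤ g i) (hg : Tendsto g l (𝓝 0)) : Tendsto f l (𝓝 c) := by
  have h1 : Tendsto (fun i => (c - f i) ^ 2) l (𝓝 0) :=
    squeeze_zero (fun i => sq_nonneg _) h hg
  have h2 : Tendsto (fun i => |c - f i|) l (𝓝 0) := by
    have := h1.sqrt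
    simpa [Real.sqrt_sq_eq_abs] using this
  have h3 : Tendsto (fun i => c - f i) l (𝓝 0) := (tendsto_zero_iff_abs_tendsto_zero _).mpr h2
  have := h3.const_sub c
  simpa using this

lemma tendsto_of_D {ι : Type} {l : Filter ι} (ρ : Seminorm ℝ V) (a : V) (b : ι → V)
    (h : Tendsto (fun i => D ρ a (b i)) l (𝓝 0)) : Tendsto (fun i => ρ (b i)) l (𝓝 (ρ a)) :=
  tendsto_of_sq_le (fun i => sq_le_D ρ a (b i)) h

lemma tendsto_add_of_D {ι : Type} {l : Filter ι} (ρ : Seminorm ℝ V) (a : V) (b : ι → V)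
    (h : Tendsto (fun i => D ρ a (b i)) l (𝓝 0)) :
    Tendsto (fun i => ρ (a + b i)) l (𝓝 (2 * ρ a)) := by
  have h1 := tendsto_of_D ρ a b h
  have h2 : Tendsto (fun i => 2 * ρ a ^ 2 + 2 * ρ (b i) ^ 2 - D ρ a (b i)) l
      (𝓝 (2 * ρ a ^ 2 + 2 * ρ a ^ 2 - 0)) :=
    (((h1.pow 2).const_mul 2).const_add _).sub h
  have h3 := h2.sqrt
  have h4 : 2 * ρ a ^ 2 + 2 * ρ a ^ 2 - 0 = (2 * ρ a) ^ 2 := by ring
  rw [h4, Real.sqrt_sq (by have := apply_nonneg ρ a; linarith)] at h3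
  refine h3.congr fun i => ?_
  have : 2 * ρ a ^ 2 + 2 * ρ (b i) ^ 2 - D ρ a (b i) = ρ (a + b i) ^ 2 := by unfold D; ring
  rw [this, Real.sqrt_sq (apply_nonneg _ _)]

/-- Pointwise boundedness of a sequence of seminorms. -/
def Bd (ρ : ℕ → Seminorm ℝ V) : Prop := ∀ v, ∃ C, ∀ n, ρ n v ≤ C

lemma hasSum_w : HasSum (fun n : ℕ => (1 / 2 : ℝ) ^ (n + 1)) 1 := by
  have := hasSum_geometric_two.mul_left (1 / 2 : ℝ)
  simp only [← pow_succ'] at this
  simpa using this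

lemma Bd.summable {ρ : ℕ → Seminorm ℝ V} (h : Bd ρ) (v : V) :
    Summable (fun n => (1 / 2 : ℝ) ^ (n + 1) * ρ n v ^ 2) := by
  obtain ⟨C, hC⟩ := h v
  refine Summable.of_nonneg_of_le (fun n => by positivity) (fun n => ?_)
    (hasSum_w.summable.mul_right (C ^ 2))
  exact mul_le_mul_of_nonneg_left (pow_le_pow_left₀ (apply_nonneg _ _) (hC n) 2) (by positivity)

noncomputable def S2 (ρ : ℕ → Seminorm ℝ V) (v : V) : ℝ :=
  ∑' n, (1 / 2 : ℝ) ^ (n + 1) * ρ n v ^ 2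

lemma S2_nonneg (ρ : ℕ → Seminorm ℝ V) (v : V) : 0 ≤ S2 ρ v :=
  tsum_nonneg fun n => by positivity

lemma sqrt_add_aux {x a b : ℝ} (ha : 0 ≤ a) (hb : 0 ≤ b)
    (h : ∀ t : ℝ, 0 < t → x ≤ (1 + t) * a ^ 2 + (1 + 1 / t) * b ^ 2) : x ≤ (a + b) ^ 2 := by
  refine le_of_forall_pos_le_add fun ε hε => ?_
  -- use a + η and b + η
  have key : ∀ η : ℝ, 0 < η → x ≤ (a + b + 2 * η) ^ 2 := by
    intro η hη
    have h1 := h ((b + η) / (a + η)) (by positivity)
    have h2 : a ^ 2 ≤ (a + η) ^ 2 := by nlinarith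
    have h3 : b ^ 2 ≤ (b + η) ^ 2 := by nlinarith
    have h4 : (1 + (b + η) / (a + η)) * (a + η) ^ 2 + (1 + 1 / ((b + η) / (a + η))) * (b + η) ^ 2
        = (a + b + 2 * η) ^ 2 := by
      field_simp
      ring
    have h5 : 0 ≤ 1 + (b + η) / (a + η) := by positivity
    have h6 : 0 ≤ 1 + 1 / ((b + η) / (a + η)) := by positivity
    nlinarith [mul_le_mul_of_nonneg_left h2 h5, mul_le_mul_of_nonneg_left h3 h6]
  have hc : Tendsto (fun η : ℝ => (a + b + 2 * η) ^ 2) (𝓝[>] 0) (𝓝 ((a + b + 2 * 0) ^ 2)) := by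
    refine Tendsto.mono_left ?_ nhdsWithin_le_nhds
    exact Continuous.tendsto (by fun_prop) 0
  have := ge_of_tendsto hc (eventually_nhdsWithin_of_forall fun η hη => key η hη)
  simp only [mul_zero, add_zero] at this
  linarith

/-- The weighted square sum of a bounded sequence of seminorms. -/
noncomputable def l2 (ρ : ℕ → Seminorm ℝ V) (h : Bd ρ) : Seminorm ℝ V :=
  Seminorm.of (fun v => √(S2 ρ v))
    (fun a b => by
      rw [Real.sqrt_le_iff]
      refine ⟨by positivity, sqrt_add_aux (Real.sqrt_nonneg _) (Real.sqrt_nonneg _) fun t ht => ?_⟩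
      rw [Real.sq_sqrt (S2_nonneg _ _), Real.sq_sqrt (S2_nonneg _ _)]
      unfold S2
      rw [← tsum_mul_left, ← tsum_mul_left, ← Summable.tsum_add ((h.summable a).mul_left _)
        ((h.summable b).mul_left _)]
      refine Summable.tsum_le_tsum (fun n => ?_) (h.summable _)
        (((h.summable a).mul_left _).add ((h.summable b).mul_left _))
      have h1 : ρ n (a + b) ^ 2 ≤ (ρ n a + ρ n b) ^ 2 :=
        pow_le_pow_left₀ (apply_nonneg _ _) (map_add_le_add _ _ _) 2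
      have h2 : (ρ n a + ρ n b) ^ 2 ≤ (1 + t) * ρ n a ^ 2 + (1 + 1 / t) * ρ n b ^ 2 := by
        have : (1 + t) * ρ n a ^ 2 + (1 + 1 / t) * ρ n b ^ 2 - (ρ n a + ρ n b) ^ 2
            = (t * ρ n a - ρ n b) ^ 2 / t := by
          field_simp
          ring
        have h3 : 0 ≤ (t * ρ n a - ρ n b) ^ 2 / t := by positivity
        linarith
      have h4 : (0:ℝ) ≤ (1 / 2) ^ (n + 1) := by positivity
      nlinarith [mul_le_mul_of_nonneg_left (h1.trans h2) h4])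
    (fun c v => by
      have : S2 ρ (c • v) = ‖c‖ ^ 2 * S2 ρ v := by
        unfold S2
        rw [← tsum_mul_left]
        refine tsum_congr fun n => ?_
        rw [map_smul_eq_mul]
        ring
      rw [this, Real.sqrt_mul (sq_nonneg _), Real.sqrt_sq (norm_nonneg _)])

lemma l2_sq {ρ : ℕ → Seminorm ℝ V} (h : Bd ρ) (v : V) : l2 ρ h v ^ 2 = S2 ρ v :=
  Real.sq_sqrt (S2_nonneg _ _)

lemma l2_le {ρ : ℕ → Seminorm ℝ V} (h : Bd ρ) {v : V} {c : ℝ} (hc : ∀ n, ρ n v ≤ c) :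
    l2 ρ h v ≤ c := by
  have h0 : 0 ≤ c := le_trans (apply_nonneg _ _) (hc 0)
  refine (abs_le_of_sq_le_sq' ?_ h0).2
  rw [l2_sq]
  have := (hasSum_w.mul_right (c ^ 2)).tsum_eq
  rw [one_mul] at this
  rw [← this]
  refine Summable.tsum_le_tsum (fun n => ?_) (h.summable _) (hasSum_w.summable.mul_right _)
  exact mul_le_mul_of_nonneg_left (pow_le_pow_left₀ (apply_nonneg _ _) (hc n) 2) (by positivity)

lemma le_l2 {ρ : ℕ → Seminorm ℝ V} (h : Bd ρ) {v : V} {c : ℝ} (h0 : 0 ≤ c)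
    (hc : ∀ n, c ≤ ρ n v) : c ≤ l2 ρ h v := by
  refine (abs_le_of_sq_le_sq' ?_ (apply_nonneg _ _)).2
  rw [l2_sq]
  have := (hasSum_w.mul_right (c ^ 2)).tsum_eq
  rw [one_mul] at this
  rw [← this]
  refine Summable.tsum_le_tsum (fun n => ?_) (hasSum_w.summable.mul_right _) (h.summable _)
  exact mul_le_mul_of_nonneg_left (pow_le_pow_left₀ h0 (hc n) 2) (by positivity)

lemma sum_le_l2 {ρ : ℕ → Seminorm ℝ V} (h : Bd ρ) (v : V) (s : Finset ℕ) :
    ∑ n ∈ s, (1 / 2 : ℝ) ^ (n + 1) * ρ n v ^ 2 ≤ l2 ρ h v ^ 2 := by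
  rw [l2_sq]
  exact (h.summable v).sum_le_tsum s fun n _ => by positivity

lemma term_le_l2 {ρ : ℕ → Seminorm ℝ V} (h : Bd ρ) (v : V) (n : ℕ) :
    (1 / 2 : ℝ) ^ (n + 1) * ρ n v ^ 2 ≤ l2 ρ h v ^ 2 := by
  simpa using sum_le_l2 h v {n}

lemma D_le_l2 {ρ : ℕ → Seminorm ℝ V} (h : Bd ρ) (a b : V) (n : ℕ) :
    (1 / 2 : ℝ) ^ (n + 1) * D (ρ n) a b ≤ D (l2 ρ h) a b := by
  have h1 : HasSum (fun n => (1 / 2 : ℝ) ^ (n + 1) * D (ρ n) a b) (D (l2 ρ h) a b) := by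
    have := (((h.summable a).hasSum.mul_left 2).add ((h.summable b).hasSum.mul_left 2)).sub
      (h.summable (a + b)).hasSum
    unfold D
    simp only [l2_sq, S2]
    refine this.congr_fun ?_ |> id
    intro n
    ring
  exact le_hasSum h1 n fun j _ => mul_nonneg (by positivity) (D_nonneg _ _ _)

lemma tendsto_D_comp {ι : Type} {l : Filter ι} {ρ : ℕ → Seminorm ℝ V} (h : Bd ρ) (a : V)
    (b : ι → V) (hD : Tendsto (fun i => D (l2 ρ h) a (b i)) l (𝓝 0)) (n : ℕ) :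
    Tendsto (fun i => D (ρ n) a (b i)) l (𝓝 0) := by
  have h1 := hD.const_mul ((2:ℝ) ^ (n + 1))
  rw [mul_zero] at h1
  refine squeeze_zero (fun i => D_nonneg _ _ _) (fun i => ?_) h1
  have h2 := D_le_l2 h a (b i) n
  have h3 : (2:ℝ) ^ (n + 1) * (1 / 2) ^ (n + 1) = 1 := by rw [← mul_pow]; norm_num
  have h4 : (0:ℝ) ≤ 2 ^ (n + 1) := by positivity
  have := mul_le_mul_of_nonneg_left h2 h4
  rwa [← mul_assoc, h3, one_mul] at this

/-- At a point where the second seminorm is larger, the defect of the maximum controls it. -/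
lemma tendsto_D_sup {ι : Type} {l : Filter ι} (μ M : Seminorm ℝ V) (a : V) (b : ι → V)
    (hlt : μ a < M a) (hD : Tendsto (fun i => D (μ ⊔ M) a (b i)) l (𝓝 0)) :
    Tendsto (fun i => D M a (b i)) l (𝓝 0) := by
  have ha : (μ ⊔ M) a = M a := by rw [Seminorm.sup_apply]; exact sup_eq_right.mpr hlt.le
  have h1 := tendsto_of_D _ a b hD
  have h2 := tendsto_add_of_D _ a b hD
  rw [ha] at h1 h2
  have h3 : Tendsto (fun i => (μ ⊔ M) (a + b i) - (μ ⊔ M) (b i)) l (𝓝 (2 * M a - M a)) :=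
    h2.sub h1
  have h4 : ∀ᶠ i in l, μ a < (μ ⊔ M) (a + b i) - (μ ⊔ M) (b i) :=
    h3.eventually (lt_mem_nhds (by linarith))
  refine squeeze_zero' (Eventually.of_forall fun i => D_nonneg _ _ _) ?_ hD
  filter_upwards [h4] with i hi
  have h5 : μ (b i) ≤ (μ ⊔ M) (b i) := by rw [Seminorm.sup_apply]; exact le_sup_left
  have h6 : M (b i) ≤ (μ ⊔ M) (b i) := by rw [Seminorm.sup_apply]; exact le_sup_right
  have h7 := map_add_le_add μ a (b i)
  have h8 : (μ ⊔ M) (a + b i) = M (a + b i) := by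
    have h9 : μ (a + b i) < (μ ⊔ M) (a + b i) := by linarith
    rw [Seminorm.sup_apply] at h9 ⊢
    rcases le_total (μ (a + b i)) (M (a + b i)) with h | h
    · exact sup_eq_right.mpr h
    · rw [sup_eq_left.mpr h] at h9
      exact absurd h9 (lt_irrefl _)
  unfold D
  rw [ha, h8]
  have := pow_le_pow_left₀ (apply_nonneg _ _) h6 2
  linarith

/-- The supremum of the absolute values of a pointwise bounded family of linear forms. -/
noncomputable def supSN {κ : Type} (g : κ → V →ₗ[ℝ] ℝ)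
    (h : ∀ v, ∃ C, ∀ i, |g i v| ≤ C) : Seminorm ℝ V :=
  Seminorm.of (fun v => ⨆ i, |g i v|)
    (fun a b => by
      refine Real.iSup_le (fun i => ?_) (add_nonneg (Real.iSup_nonneg fun i => abs_nonneg _)
        (Real.iSup_nonneg fun i => abs_nonneg _))
      obtain ⟨C, hC⟩ := h a
      obtain ⟨C', hC'⟩ := h b
      rw [map_add]
      refine le_trans (abs_add_le _ _) (add_le_add ?_ ?_)
      · exact le_ciSup (f := fun i => |g i a|) ⟨C, by rintro _ ⟨j, rfl⟩; exact hC j⟩ i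
      · exact le_ciSup (f := fun i => |g i b|) ⟨C', by rintro _ ⟨j, rfl⟩; exact hC' j⟩ i)
    (fun c v => by
      rw [Real.mul_iSup_of_nonneg (norm_nonneg c)]
      congr 1
      funext i
      rw [map_smul, smul_eq_mul, abs_mul, Real.norm_eq_abs])

lemma le_supSN {κ : Type} {g : κ → V →ₗ[ℝ] ℝ} (h : ∀ v, ∃ C, ∀ i, |g i v| ≤ C) (i : κ) (v : V) :
    |g i v| ≤ supSN g h v := by
  obtain ⟨C, hC⟩ := h v
  exact le_ciSup (f := fun i => |g i v|) ⟨C, by rintro _ ⟨j, rfl⟩; exact hC j⟩ i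

lemma supSN_le {κ : Type} {g : κ → V →ₗ[ℝ] ℝ} (h : ∀ v, ∃ C, ∀ i, |g i v| ≤ C) {v : V} {c : ℝ}
    (hc : 0 ≤ c) (hv : ∀ i, |g i v| ≤ c) : supSN g h v ≤ c :=
  Real.iSup_le hv hc

lemma lt_supSN {κ : Type} {g : κ → V →ₗ[ℝ] ℝ} (h : ∀ v, ∃ C, ∀ i, |g i v| ≤ C) {v : V} {c : ℝ}
    (hc : 0 ≤ c) (hv : c < supSN g h v) : ∃ i, c < |g i v| := by
  by_contra hcon
  push Not at hcon
  exact absurd (supSN_le h hc hcon) (not_le.mpr hv)

end Defect

end Pool.Agent.H2.Sm
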