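import Pool.Agent.H2.SmB

set_option autoImplicit false

namespace Pool.Agent.H2.Sm

open Filter Topology

lemma scale {V : Type} [AddCommGroup V] [Module ℝ V] (N : Seminorm ℝ V) (f : V →ₗ[ℝ] ℝ) (a : ℝ)
    (h : ∀ v, N v ≤ 1 → |f v| ≤ a) (v : V) : |f v| ≤ a * N v := by
  have ha : 0 ≤ a := by simpa using h 0 (by simp)
  rcases (apply_nonneg N v).eq_or_lt with h0 | h0
  · rw [← h0, mul_zero]
    by_contra hcon
    have hpos : 0 < |f v| := not_le.mp hcon
    have h1 := h (((a + 1) / |f v|) • v) (by rw [map_smul_eq_mul, ← h0]; simp)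
    rw [map_smul, smul_eq_mul, abs_mul, abs_of_pos (by positivity), div_mul_cancel₀ _ hpos.ne'] at h1
    linarith
  · have h1 := h ((N v)⁻¹ • v) (by
      rw [map_smul_eq_mul, Real.norm_eq_abs, abs_of_pos (by positivity), inv_mul_cancel₀ h0.ne'])
    rw [map_smul, smul_eq_mul, abs_mul, abs_of_pos (by positivity), inv_mul_le_iff₀ h0] at h1
    linarith

lemma convex_le {V : Type} [AddCommGroup V] [Module ℝ V] (N : Seminorm ℝ V) (a : ℝ) :
    Convex ℝ {v | N v ≤ a} := by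
  simpa using N.convexOn.convex_le a

variable {X : Type} [NormedAddCommGroup X] [NormedSpace ℝ X]

lemma tendsto_norm_sub {ι : Type} {l : Filter ι} {f : ι → StrongDual ℝ X} {a : StrongDual ℝ X}
    (h : Tendsto f l (𝓝 a)) : Tendsto (fun k => ‖f k - a‖) l (𝓝 0) :=
  tendsto_iff_norm_sub_tendsto_zero.mp h

/-- Evaluation at a point, as a linear form on the dual. -/
def evl (x : X) : StrongDual ℝ X →ₗ[ℝ] ℝ where
  toFun z := z x
  map_add' _ _ := rfl
  map_smul' _ _ := rfl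

lemma abs_apply_le (z : StrongDual ℝ X) (x : X) : |z x| ≤ ‖z‖ * ‖x‖ := z.le_opNorm x

lemma exists_polarX (K : Set (StrongDual ℝ X)) (R : ℝ) (hR : ∀ z ∈ K, ‖z‖ ≤ R) :
    ∃ p : Seminorm ℝ X, (∀ z ∈ K, ∀ x, |z x| ≤ p x) ∧
      ∀ x c, 0 ≤ c → (∀ z ∈ K, |z x| ≤ c) → p x ≤ c := by
  have h : ∀ x : X, ∃ C, ∀ i : K, |((i.1 : StrongDual ℝ X) : X →ₗ[ℝ] ℝ) x| ≤ C := fun x =>
    ⟨R * ‖x‖, fun i => le_trans (abs_apply_le i.1 x)
      (mul_le_mul_of_nonneg_right (hR _ i.2) (norm_nonneg _))⟩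
  exact ⟨supSN _ h, fun z hz x => le_supSN h ⟨z, hz⟩ x,
    fun x c hc hx => supSN_le h hc fun i => hx i.1 i.2⟩

lemma exists_polarZ (S : Set X) (R : ℝ) (hR : ∀ x ∈ S, ‖x‖ ≤ R) :
    ∃ N : Seminorm ℝ (StrongDual ℝ X), (∀ x ∈ S, ∀ z : StrongDual ℝ X, |z x| ≤ N z) ∧
      ∀ (z : StrongDual ℝ X) c, 0 ≤ c → (∀ x ∈ S, |z x| ≤ c) → N z ≤ c := by
  have h : ∀ z : StrongDual ℝ X, ∃ C, ∀ i : S, |evl i.1 z| ≤ C := fun z =>
    ⟨‖z‖ * R, fun i => le_trans (abs_apply_le z i.1)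
      (mul_le_mul_of_nonneg_left (hR _ i.2) (norm_nonneg _))⟩
  exact ⟨supSN _ h, fun x hx z => le_supSN h ⟨x, hx⟩ z,
    fun z c hc hz => supSN_le h hc fun i => hz i.1 i.2⟩

/-- Forms that minimise a seminorm among the extensions of their own restriction. -/
def Min (Y : Submodule ℝ X) (L : Seminorm ℝ (StrongDual ℝ X)) : Set (StrongDual ℝ X) :=
  {z | ∀ z' : StrongDual ℝ X, (∀ y : Y, z' y = z y) → L z ≤ L z'}

lemma min_neg {Y : Submodule ℝ X} {L : Seminorm ℝ (StrongDual ℝ X)} {z : StrongDual ℝ X}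
    (h : z ∈ Min Y L) : -z ∈ Min Y L := by
  intro z' hz'
  have := h (-z') fun y => by
    rw [ContinuousLinearMap.neg_apply, hz' y, ContinuousLinearMap.neg_apply, neg_neg]
  rwa [map_neg_eq_map] at this ⊢

lemma exists_min (hJ : Function.Surjective (NormedSpace.inclusionInDoubleDual ℝ X))
    (Y : Submodule ℝ X) (L : Seminorm ℝ (StrongDual ℝ X)) (h1 : ∀ z, L z ≤ 1 * ‖z‖)
    (h2 : ∀ z, 1 * ‖z‖ ≤ 2 * L z) (w : StrongDual ℝ Y) :
    ∃ z ∈ Min Y L, ∀ y : Y, z y = w y := by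
  obtain ⟨g, hg, -⟩ := exists_extension_norm_eq Y w
  let T : Set ℝ := L '' {z | ∀ y : Y, z y = w y}
  have hne : T.Nonempty := ⟨_, g, hg, rfl⟩
  have hbdd : BddBelow T := ⟨0, by rintro _ ⟨z, -, rfl⟩; exact apply_nonneg _ _⟩
  have hk : ∀ k : ℕ, ∃ z : StrongDual ℝ X, (∀ y : Y, z y = w y) ∧ L z < sInf T + 1 / ((k:ℝ) + 1) := by
    intro k
    obtain ⟨_, ⟨z, hz, rfl⟩, h⟩ := exists_lt_of_csInf_lt hne
      (show sInf T < sInf T + 1 / ((k:ℝ) + 1) by
        have : (0:ℝ) < 1 / ((k:ℝ) + 1) := by positivity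
        linarith)
    exact ⟨z, hz, h⟩
  choose z hz1 hz2 using hk
  obtain ⟨z', hz'⟩ := limit_form (Filter.hyperfilter ℕ) z (2 * (sInf T + 1)) (fun k => by
    have h3 := h2 (z k)
    have h4 := hz2 k
    have h5 : 1 / ((k:ℝ) + 1) ≤ 1 := by
      rw [div_le_one (by positivity)]
      have : (0:ℝ) ≤ k := Nat.cast_nonneg k
      linarith
    linarith)
  have hfib : ∀ y : Y, z' y = w y := fun y =>
    tendsto_nhds_unique (hz' y) (by simp only [hz1]; exact tendsto_const_nhds)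
  have hle : L z' ≤ sInf T := by
    refine le_of_forall_pos_le_add fun ε hε => ?_
    refine mem_of_limit hJ _ z z' hz' {v | L v ≤ sInf T + ε} (convex_le L _)
      (isClosed_le (continuous_of_bound L h1) continuous_const) ?_
    filter_upwards [(tendsto_inv_U _ hyper_le).eventually (gt_mem_nhds hε)] with k hk
    have := hz2 k
    show L (z k) ≤ _
    linarith
  refine ⟨z', fun z'' hz'' => le_trans hle (csInf_le hbdd ⟨z'', fun y => ?_, rfl⟩), hfib⟩
  rw [hz'' y, hfib y]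

lemma min_tendsto (Y : Submodule ℝ X) (L : Seminorm ℝ (StrongDual ℝ X)) (hL : LUR L)
    (h1 : ∀ z, L z ≤ 1 * ‖z‖) (U : Ultrafilter ℕ) (a : StrongDual ℝ X) (b : ℕ → StrongDual ℝ X)
    (ha : a ∈ Min Y L) (hb : ∀ᶠ k in U, b k ∈ Min Y L)
    (h : Tendsto (fun k => ((b k).comp Y.subtypeL : StrongDual ℝ Y)) U (𝓝 (a.comp Y.subtypeL))) :
    Tendsto b U (𝓝 a) := by
  let r : ℕ → ℝ := fun k => ‖((b k).comp Y.subtypeL : StrongDual ℝ Y) - a.comp Y.subtypeL‖
  have hr : Tendsto r U (𝓝 0) := tendsto_norm_sub h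
  choose e he1 he2 using fun k => exists_extension_norm_eq Y
    (((b k).comp Y.subtypeL : StrongDual ℝ Y) - a.comp Y.subtypeL)
  have he3 : ∀ k (y : Y), e k y = b k y - a y := fun k y => he1 k y
  have he4 : ∀ k, L (e k) ≤ r k := fun k => by
    have := h1 (e k)
    rw [he2, one_mul] at this
    exact this
  have hlow : ∀ k, L a - r k ≤ L (b k) := by
    intro k
    have h3 := ha (b k - e k) fun y => by
      rw [ContinuousLinearMap.sub_apply, he3]; ring
    have h4 := map_sub_le_add L (b k) (e k)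
    have := he4 k
    linarith
  have hup : ∀ᶠ k in U, L (b k) ≤ L a + r k := by
    filter_upwards [hb] with k hk
    have h3 := hk (a + e k) fun y => by
      rw [ContinuousLinearMap.add_apply, he3]; ring
    have h4 := map_add_le_add L a (e k)
    have := he4 k
    linarith
  have hlow2 : ∀ k, 2 * L a - r k ≤ L (a + b k) := by
    intro k
    have h3 := ha ((1 / 2 : ℝ) • (a + b k - e k)) fun y => by
      rw [ContinuousLinearMap.smul_apply, ContinuousLinearMap.sub_apply,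
        ContinuousLinearMap.add_apply, he3, smul_eq_mul]
      ring
    rw [map_smul_eq_mul, Real.norm_eq_abs, abs_of_pos (by norm_num)] at h3
    have h4 := map_sub_le_add L (a + b k) (e k)
    have := he4 k
    linarith
  have t1 : Tendsto (fun k => L (b k)) U (𝓝 (L a)) := by
    have h5 := hr.const_sub (L a)
    have h6 := hr.const_add (L a)
    rw [sub_zero] at h5
    rw [add_zero] at h6
    exact tendsto_of_tendsto_of_tendsto_of_le_of_le' h5 h6 (Eventually.of_forall hlow) hup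
  have t2 : Tendsto (fun k => L (a + b k)) U (𝓝 (2 * L a)) := by
    have h5 := hr.const_sub (2 * L a)
    have h6 := t1.const_add (L a)
    rw [sub_zero] at h5
    rw [← two_mul] at h6
    exact tendsto_of_tendsto_of_tendsto_of_le_of_le h5 h6 hlow2 fun k => map_add_le_add L _ _
  refine hL U a b ?_
  have t3 := (((t1.pow 2).const_mul 2).const_add (2 * L a ^ 2)).sub (t2.pow 2)
  have : 2 * L a ^ 2 + 2 * L a ^ 2 - (2 * L a) ^ 2 = 0 := by ring
  rw [this] at t3
  exact t3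

lemma min_bound (Y : Submodule ℝ X) (L : Seminorm ℝ (StrongDual ℝ X)) (h1 : ∀ z, L z ≤ 1 * ‖z‖)
    (h2 : ∀ z, 1 * ‖z‖ ≤ 2 * L z) {z : StrongDual ℝ X} (hz : z ∈ Min Y L) {C : ℝ} (hC : 0 ≤ C)
    (h : ∀ y : Y, |z y| ≤ C * ‖y‖) : ‖z‖ ≤ 2 * C := by
  obtain ⟨g, hg1, hg2⟩ := exists_extension_norm_eq Y (z.comp Y.subtypeL : StrongDual ℝ Y)
  have h3 : ‖(z.comp Y.subtypeL : StrongDual ℝ Y)‖ ≤ C :=
    ContinuousLinearMap.opNorm_le_bound _ hC fun y => h y
  have h4 := hz g fun y => hg1 y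
  have h5 := h1 g
  have h6 := h2 z
  linarith

/-- First stage: an extension that is differentiable at the nonzero points of the subspace. -/
theorem stage1 [TopologicalSpace.SeparableSpace X]
    (hJ : Function.Surjective (NormedSpace.inclusionInDoubleDual ℝ X))
    (Y : Submodule ℝ X) (q : Seminorm ℝ Y) (c C : ℝ) (hc : 0 < c) (hC : 0 < C)
    (hq : ∀ y : Y, c * ‖y‖ ≤ q y ∧ q y ≤ C * ‖y‖)
    (hd : ∀ y : Y, y ≠ 0 → DifferentiableAt ℝ (⇑q) y) :
    ∃ p : Seminorm ℝ X, (∀ x, c / 2 * ‖x‖ ≤ p x ∧ p x ≤ (2 * C + c) * ‖x‖) ∧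
      (∀ y : Y, p y = q y) ∧ ∀ y : Y, y ≠ 0 → DifferentiableAt ℝ (⇑p) (y : X) := by
  have := separable_dual hJ
  obtain ⟨L, hL, h1, h2⟩ := exists_lur (Z := StrongDual ℝ X) one_pos
  let K : Set (StrongDual ℝ X) := {z | (z ∈ Min Y L ∧ ∀ y : Y, |z y| ≤ q y) ∨ ‖z‖ ≤ c / 2}
  have hKR : ∀ z ∈ K, ‖z‖ ≤ 2 * C + c := by
    rintro z (⟨hz1, hz2⟩ | hz)
    · have := min_bound Y L h1 h2 hz1 hC.le fun y => le_trans (hz2 y) (hq y).2
      linarith
    · linarith
  have hball : ∀ z : StrongDual ℝ X, ‖z‖ ≤ c / 2 → ∀ y : Y, |z y| ≤ q y / 2 := by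
    intro z hz y
    have h3 := abs_apply_le z y
    have h4 := (hq y).1
    have h5 : ‖(y : X)‖ = ‖y‖ := rfl
    rw [h5] at h3
    have := mul_le_mul_of_nonneg_right hz (norm_nonneg y)
    linarith
  have hKq : ∀ z ∈ K, ∀ y : Y, |z y| ≤ q y := by
    rintro z (⟨hz1, hz2⟩ | hz) y
    · exact hz2 y
    · have := hball z hz y
      have := apply_nonneg q y
      linarith
  have hKneg : ∀ z ∈ K, -z ∈ K := by
    rintro z (⟨hz1, hz2⟩ | hz)
    · exact Or.inl ⟨min_neg hz1, fun y => by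
        rw [ContinuousLinearMap.neg_apply, abs_neg]; exact hz2 y⟩
    · exact Or.inr (by rwa [norm_neg])
  have hK0 : (0 : StrongDual ℝ X) ∈ K := Or.inr (by rw [norm_zero]; positivity)
  obtain ⟨p, hp1, hp2⟩ := exists_polarX K _ hKR
  have hsupp : ∀ y : Y, y ≠ 0 → ∃ z ∈ Min Y L, (∀ y' : Y, |z y'| ≤ q y') ∧ z y = q y ∧
      HasFDerivAt q (z.comp Y.subtypeL : StrongDual ℝ Y) y := by
    intro y hy
    have hw := (hd y hy).hasFDerivAt
    obtain ⟨hw1, hw2⟩ := deriv_support q y _ hw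
    obtain ⟨z, hz1, hz2⟩ := exists_min hJ Y L h1 h2 (fderiv ℝ q y)
    refine ⟨z, hz1, fun y' => ?_, by rw [hz2, hw2], ?_⟩
    · rw [hz2, abs_le]
      refine ⟨?_, hw1 y'⟩
      have := hw1 (-y')
      rw [map_neg, map_neg_eq_map] at this
      linarith
    · have : (z.comp Y.subtypeL : StrongDual ℝ Y) = fderiv ℝ q y := by
        ext y'; exact hz2 y'
      rw [this]; exact hw
  have hext : ∀ y : Y, p y = q y := by
    intro y
    refine le_antisymm (hp2 _ _ (apply_nonneg _ _) fun z hz => hKq z hz y) ?_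
    by_cases hy : y = 0
    · rw [hy, map_zero]; exact apply_nonneg _ _
    · obtain ⟨z, hz1, hz2, hz3, -⟩ := hsupp y hy
      rw [← hz3]
      exact le_trans (le_abs_self _) (hp1 z (Or.inl ⟨hz1, hz2⟩) y)
  refine ⟨p, fun x => ⟨?_, ?_⟩, hext, fun y hy => ?_⟩
  · obtain ⟨g, hg1, hg2⟩ := exists_dual_vector'' ℝ x
    have hg2' : g x = ‖x‖ := hg2
    have h3 := hp1 ((c / 2) • g) (Or.inr (by
      rw [norm_smul, Real.norm_eq_abs, abs_of_pos (by positivity)]
      exact mul_le_of_le_one_right (by positivity) hg1)) x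
    rw [ContinuousLinearMap.smul_apply, hg2', smul_eq_mul] at h3
    exact le_trans (le_abs_self _) h3
  · refine hp2 _ _ (by positivity) fun z hz => le_trans (abs_apply_le z x) ?_
    exact mul_le_mul_of_nonneg_right (hKR z hz) (norm_nonneg _)
  · obtain ⟨z0, hz1, hz2, hz3, hz4⟩ := hsupp y hy
    have hqy : 0 < q y := lt_of_lt_of_le (mul_pos hc (norm_pos_iff.mpr hy)) (hq y).1
    refine (S1 K _ hKR p (fun z hz x => le_trans (le_abs_self _) (hp1 z hz x)) ?_ y z0
      (Or.inl ⟨hz1, hz2⟩) (by rw [hz3, hext]) ?_).differentiableAt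
    · intro x a ha
      refine hp2 x a (by simpa using ha 0 hK0) fun z hz => abs_le.mpr ⟨?_, ha z hz⟩
      have := ha _ (hKneg z hz)
      rw [ContinuousLinearMap.neg_apply] at this
      linarith
    · intro U z hzK hlim
      rw [hext] at hlim
      have hev : ∀ᶠ k in U, z k ∈ Min Y L := by
        filter_upwards [hlim.eventually (lt_mem_nhds (show q y / 2 < q y by linarith))] with k hk
        rcases hzK k with h | h
        · exact h.1
        · have := le_trans (le_abs_self _) (hball _ h y)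
          exact absurd hk (not_lt.mpr this)
      refine min_tendsto Y L hL h1 U z0 z hz1 hev ?_
      refine S2' q y _ hz4 _ (Eventually.of_forall fun k y' => ?_) hlim
      exact le_trans (le_abs_self _) (hKq _ (hzK k) y')

end Pool.Agent.H2.Sm
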