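import Pool.Agent.H2.SmC

set_option autoImplicit false

namespace Pool.Agent.H2.Sm

open Filter Topology

variable {X : Type} [NormedAddCommGroup X] [NormedSpace ℝ X]

lemma geo_sum (m : ℕ) : ∑ j ∈ Finset.range m, (1 / 2 : ℝ) ^ (j + 1) = 1 - (1 / 2) ^ m := by
  induction m with
  | zero => simp
  | succ m ih => rw [Finset.sum_range_succ, ih]; ring

/-- A rotund seminorm that is close to a given linear form from below. -/
lemma exists_M {Z : Type} [NormedAddCommGroup Z] [NormedSpace ℝ Z] (L N : Seminorm ℝ Z)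
    (hL : LUR L) (hLN : ∀ z, L z ≤ N z) (g : Z →ₗ[ℝ] ℝ) (hg : ∀ z, |g z| ≤ N z) (m : ℕ) :
    ∃ M : Seminorm ℝ Z, LUR M ∧ (∀ z, M z ≤ N z) ∧ ∀ z, (1 - (1 / 2) ^ m) * g z ^ 2 ≤ M z ^ 2 := by
  let ρ : ℕ → Seminorm ℝ Z := fun j => if j < m then absSN g else L
  have hρ : ∀ j z, ρ j z ≤ N z := by
    intro j z
    simp only [ρ]
    split_ifs
    · exact hg z
    · exact hLN z
  have hB : Bd ρ := fun z => ⟨N z, fun j => hρ j z⟩
  refine ⟨l2 ρ hB, fun U a b hD => ?_, fun z => l2_le hB fun j => hρ j z, fun z => ?_⟩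
  · have h1 := tendsto_D_comp hB a b hD m
    have : ρ m = L := by simp [ρ]
    rw [this] at h1
    exact hL U a b h1
  · refine le_trans (le_of_eq ?_) (sum_le_l2 hB z (Finset.range m))
    rw [← geo_sum, Finset.sum_mul]
    refine Finset.sum_congr rfl fun j hj => ?_
    have : ρ j = absSN g := by simp [ρ, Finset.mem_range.mp hj]
    rw [this, absSN_apply, sq_abs]

/-- Second stage: smoothing away from the subspace without changing the values on it. -/
theorem stage2 [TopologicalSpace.SeparableSpace X]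
    (hJ : Function.Surjective (NormedSpace.inclusionInDoubleDual ℝ X))
    (Y : Submodule ℝ X) (hY : IsClosed (Y : Set X)) (p1 : Seminorm ℝ X) (c C : ℝ) (hc : 0 < c)
    (hC : 0 < C) (hp : ∀ x, c * ‖x‖ ≤ p1 x ∧ p1 x ≤ C * ‖x‖)
    (hd : ∀ y ∈ Y, y ≠ 0 → DifferentiableAt ℝ (⇑p1) y) :
    ∃ p : Seminorm ℝ X, (∃ c C : ℝ, 0 < c ∧ 0 < C ∧ ∀ x : X, c * ‖x‖ ≤ p x ∧ p x ≤ C * ‖x‖) ∧
      (∀ x : X, x ≠ 0 → DifferentiableAt ℝ (⇑p) x) ∧ ∀ y ∈ Y, p y = p1 y := by
  have := separable_dual hJ
  obtain ⟨L, hL, hL1, -⟩ := exists_lur (Z := StrongDual ℝ X) (show 0 < 1 / C by positivity)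
  have hball : ∀ x, p1 x ≤ 1 → ‖x‖ ≤ 1 / c := by
    intro x hx
    rw [le_div_iff₀ hc]
    have := (hp x).1
    linarith
  obtain ⟨μ, hμ1, hμ2⟩ := exists_polarZ {x | x ∈ Y ∧ p1 x ≤ 1} (1 / c) fun x hx => hball x hx.2
  obtain ⟨N1, hN1, hN2⟩ := exists_polarZ {x | p1 x ≤ 1} (1 / c) fun x hx => hball x hx
  have hμN : ∀ z, μ z ≤ N1 z := fun z => hμ2 z _ (apply_nonneg _ _) fun x hx => hN1 x hx.2 z
  have hN1p : ∀ (z : StrongDual ℝ X) x, |z x| ≤ N1 z * p1 x := fun z x =>
    scale p1 (z : X →ₗ[ℝ] ℝ) _ (fun v hv => hN1 v hv z) x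
  have hN1low : ∀ z : StrongDual ℝ X, ‖z‖ ≤ C * N1 z := by
    intro z
    refine ContinuousLinearMap.opNorm_le_bound _ (mul_nonneg hC.le (apply_nonneg _ _)) fun x => ?_
    have h1 := hN1p z x
    have h2 := mul_le_mul_of_nonneg_left (hp x).2 (apply_nonneg N1 z)
    rw [Real.norm_eq_abs]
    linarith
  have hN1up : ∀ z : StrongDual ℝ X, N1 z ≤ 1 / c * ‖z‖ := by
    intro z
    refine hN2 z _ (by positivity) fun x hx => le_trans (abs_apply_le z x) ?_
    rw [mul_comm]
    exact mul_le_mul_of_nonneg_right (hball x hx) (norm_nonneg _)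
  have hLN : ∀ z, L z ≤ N1 z := by
    intro z
    refine le_trans (hL1 z) ?_
    rw [one_div, inv_mul_le_iff₀ hC]
    exact hN1low z
  have hμp : ∀ (z : StrongDual ℝ X), ∀ y ∈ Y, |z y| ≤ μ z * p1 y := by
    intro z y hy
    exact scale (p1.comp Y.subtype) ((z : X →ₗ[ℝ] ℝ).comp Y.subtype) _
      (fun v hv => hμ1 v ⟨v.2, hv⟩ z) ⟨y, hy⟩
  obtain ⟨t, ht1, ht2, ht3⟩ := (TopologicalSpace.IsSeparable.of_separableSpace
    {x : X | p1 x ≤ 1}).exists_countable_dense_subset
  have htne : t.Nonempty := by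
    have : (0:X) ∈ closure t := ht3 (by simp)
    exact closure_nonempty_iff.mp ⟨0, this⟩
  obtain ⟨u, rfl⟩ := ht2.exists_eq_range htne
  have hu : ∀ n, p1 (u n) ≤ 1 := fun n => ht1 ⟨n, rfl⟩
  choose M hM1 hM2 hM3 using fun (a m : ℕ) => exists_M L N1 hL hLN (evl (u a))
    (fun z => hN1 _ (hu a) z) m
  let ρ : ℕ → Seminorm ℝ (StrongDual ℝ X) := fun j =>
    match j with
    | 0 => μ
    | 1 => N1
    | n + 2 => μ ⊔ M (Nat.unpair n).1 (Nat.unpair n).2
  have hρ1 : ∀ j z, ρ j z ≤ N1 z := by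
    intro j z
    match j with
    | 0 => exact hμN z
    | 1 => exact le_rfl
    | n + 2 => exact sup_le (hμN z) (hM2 _ _ z)
  have hρ2 : ∀ j z, μ z ≤ ρ j z := by
    intro j z
    match j with
    | 0 => exact le_rfl
    | 1 => exact hμN z
    | n + 2 => exact le_sup_left
  have hB : Bd ρ := fun z => ⟨N1 z, fun j => hρ1 j z⟩
  set N := l2 ρ hB with hN
  have hNN1 : ∀ z, N z ≤ N1 z := fun z => l2_le hB fun j => hρ1 j z
  have hμN' : ∀ z, μ z ≤ N z := fun z => le_l2 hB (apply_nonneg _ _) fun j => hρ2 j z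
  have hN1N : ∀ z, N1 z ≤ 2 * N z := by
    intro z
    have h1 : (1 / 2 : ℝ) ^ (1 + 1) * N1 z ^ 2 ≤ N z ^ 2 := term_le_l2 hB z 1
    refine (abs_le_of_sq_le_sq' ?_ (by have := apply_nonneg N z; linarith)).2
    nlinarith
  let B : Set (StrongDual ℝ X) := {z | N z ≤ 1}
  have hBR : ∀ z ∈ B, ‖z‖ ≤ 2 * C := by
    intro z hz
    have h1 := hN1low z
    have h2 := hN1N z
    have h3 : N z ≤ 1 := hz
    nlinarith
  have hBc : Convex ℝ B := convex_le N 1
  have hBcl : IsClosed B := isClosed_le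
    (continuous_of_bound N fun z => le_trans (hNN1 z) (hN1up z)) continuous_const
  have hBneg : ∀ z ∈ B, -z ∈ B := fun z hz => by
    show N (-z) ≤ 1
    rw [map_neg_eq_map]; exact hz
  obtain ⟨p, hp1, hp2⟩ := exists_polarX B _ hBR
  have hpN : ∀ (z : StrongDual ℝ X) x, |z x| ≤ p x * N z := fun z x =>
    scale N (evl x) _ (fun v hv => hp1 v hv x) z
  have hlow : ∀ x, c * ‖x‖ ≤ p x := by
    intro x
    obtain ⟨g, hg1, hg2⟩ := exists_dual_vector'' ℝ x
    have hg2' : g x = ‖x‖ := hg2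
    have h3 := hp1 (c • g) (by
      show N (c • g) ≤ 1
      refine le_trans (hNN1 _) (le_trans (hN1up _) ?_)
      rw [norm_smul, Real.norm_eq_abs, abs_of_pos hc, ← mul_assoc, one_div_mul_cancel hc.ne',
        one_mul]
      exact hg1) x
    rw [ContinuousLinearMap.smul_apply, hg2', smul_eq_mul] at h3
    exact le_trans (le_abs_self _) h3
  have hge : ∀ x a, (∀ z ∈ B, z x ≤ a) → p x ≤ a := by
    intro x a ha
    refine hp2 x a (by simpa using ha 0 (by simp [B])) fun z hz => abs_le.mpr ⟨?_, ha z hz⟩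
    have := ha _ (hBneg z hz)
    rw [ContinuousLinearMap.neg_apply] at this
    linarith
  refine ⟨p, ⟨c, 2 * C, hc, by positivity, fun x => ⟨hlow x, ?_⟩⟩, fun x hx => ?_, fun y hy => ?_⟩
  · refine hp2 _ _ (by positivity) fun z hz => le_trans (abs_apply_le z x) ?_
    exact mul_le_mul_of_nonneg_right (hBR z hz) (norm_nonneg _)
  · have hpx : 0 < p x := lt_of_lt_of_le (mul_pos hc (norm_pos_iff.mpr hx)) (hlow x)
    -- a maximiser
    have hmax : ∃ z0 ∈ B, z0 x = p x := by
      have hk : ∀ k : ℕ, ∃ z ∈ B, p x - 1 / ((k:ℝ) + 1) < z x := by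
        intro k
        by_contra hcon
        push Not at hcon
        have := hge x _ hcon
        have : (0:ℝ) < 1 / ((k:ℝ) + 1) := by positivity
        linarith
      choose z hz1 hz2 using hk
      obtain ⟨z', hz'⟩ := limit_form (Filter.hyperfilter ℕ) z _ fun k => hBR _ (hz1 k)
      have hm := mem_of_limit hJ _ z z' hz' B hBc hBcl (Eventually.of_forall hz1)
      refine ⟨z', hm, le_antisymm (le_trans (le_abs_self _) (hp1 _ hm x)) ?_⟩
      have h2 := (tendsto_inv_U _ hyper_le).const_sub (p x)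
      rw [sub_zero] at h2
      exact le_of_tendsto_of_tendsto' h2 (hz' x) fun k => (hz2 k).le
    obtain ⟨z0, hz0B, hz0⟩ := hmax
    have hz0N : N z0 ≤ 1 := hz0B
    -- defect bound
    have hdef : ∀ z ∈ B, D N z0 z ≤ 4 - ((p x + z x) / p x) ^ 2 := by
      intro z hz
      have hz' : N z ≤ 1 := hz
      have h1 := hpN (z0 + z) x
      rw [ContinuousLinearMap.add_apply, hz0] at h1
      have h2 : |(p x + z x) / p x| ≤ N (z0 + z) := by
        rw [abs_div, abs_of_pos hpx, div_le_iff₀ hpx]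
        linarith
      have h3 := pow_le_pow_left₀ (abs_nonneg _) h2 2
      rw [sq_abs] at h3
      have h4 := pow_le_pow_left₀ (apply_nonneg _ _) hz0N 2
      have h5 := pow_le_pow_left₀ (apply_nonneg _ _) hz' 2
      unfold D
      linarith
    refine (S1 B _ hBR p (fun z hz x => le_trans (le_abs_self _) (hp1 z hz x)) hge x z0 hz0B hz0
      ?_).differentiableAt
    intro U z hzB hlim
    have hD : Tendsto (fun k => D N z0 (z k)) U (𝓝 0) := by
      refine squeeze_zero (fun k => D_nonneg _ _ _) (fun k => hdef _ (hzB k)) ?_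
      have h1 := (((hlim.const_add (p x)).div_const (p x)).pow 2).const_sub 4
      have h2 : 4 - ((p x + p x) / p x) ^ 2 = 0 := by field_simp; ring
      rwa [h2] at h1
    by_cases hcase : μ z0 < N1 z0
    · -- away from the cone
      have hex : ∃ a, μ z0 < |z0 (u a)| := by
        by_contra hcon
        push Not at hcon
        refine absurd (hN2 z0 _ (apply_nonneg _ _) fun v hv => ?_) (not_le.mpr hcase)
        have hcl : IsClosed {v : X | |z0 v| ≤ μ z0} := isClosed_le (by fun_prop) continuous_const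
        exact closure_minimal (by rintro _ ⟨a, rfl⟩; exact hcon a) hcl (ht3 hv)
      obtain ⟨a, ha⟩ := hex
      have ha2 : μ z0 ^ 2 < z0 (u a) ^ 2 := by
        rw [← sq_abs (z0 (u a))]
        exact pow_lt_pow_left₀ ha (apply_nonneg _ _) two_ne_zero
      have hm : ∃ m : ℕ, μ z0 ^ 2 < (1 - (1 / 2) ^ m) * z0 (u a) ^ 2 := by
        have h1 : Tendsto (fun m : ℕ => (1 - (1 / 2 : ℝ) ^ m) * z0 (u a) ^ 2) atTop
            (𝓝 ((1 - 0) * z0 (u a) ^ 2)) :=
          ((tendsto_pow_atTop_nhds_zero_of_lt_one (by norm_num) (by norm_num)).const_sub 1).mul_const _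
        rw [sub_zero, one_mul] at h1
        exact (h1.eventually (lt_mem_nhds ha2)).exists
      obtain ⟨m, hm⟩ := hm
      have hlt : μ z0 < M a m z0 :=
        lt_of_pow_lt_pow_left₀ 2 (apply_nonneg _ _) (lt_of_lt_of_le hm (hM3 a m z0))
      have h1 := tendsto_D_comp hB z0 z hD (Nat.pair a m + 2)
      have h2 : ρ (Nat.pair a m + 2) = μ ⊔ M a m := by simp only [ρ, Nat.unpair_pair]
      rw [h2] at h1
      exact hM1 a m U z0 z (tendsto_D_sup μ _ z0 z hlt h1)
    · -- on the cone
      have h1 : 1 ≤ N z0 := by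
        have := le_trans (le_abs_self _) (hpN z0 x)
        rw [hz0] at this
        by_contra hcon
        have := mul_lt_mul_of_pos_left (not_le.mp hcon) hpx
        linarith
      have hN1z : N1 z0 = 1 := by
        have := hμN' z0
        have := hNN1 z0
        linarith [not_lt.mp hcase]
      have hμz : μ z0 = 1 := by
        have := hμN' z0
        linarith [not_lt.mp hcase]
      obtain ⟨z', hz'⟩ := limit_form U z _ fun k => hBR _ (hzB k)
      have hm := mem_of_limit hJ _ z z' hz' B hBc hBcl (Eventually.of_forall hzB)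
      have hx' : z' x = p x := tendsto_nhds_unique (hz' x) hlim
      have hD' : D N z0 z' ≤ 0 := by
        have := hdef z' hm
        rw [hx'] at this
        have h2 : 4 - ((p x + p x) / p x) ^ 2 = 0 := by field_simp; ring
        linarith
      have hDμ : D μ z0 z' ≤ 0 := by
        have h2 : (1 / 2 : ℝ) ^ (0 + 1) * D μ z0 z' ≤ D N z0 z' := D_le_l2 hB z0 z' 0
        linarith
      have hμ' : μ z' = 1 := by
        have h2 := le_trans (sq_le_D μ z0 z') hDμ
        have h3 : μ z0 - μ z' = 0 := by nlinarith [sq_nonneg (μ z0 - μ z')]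
        linarith
      have hμs : 2 ≤ μ (z0 + z') := by
        unfold D at hDμ
        rw [hμz, hμ'] at hDμ
        refine (abs_le_of_sq_le_sq' ?_ (apply_nonneg _ _)).2
        linarith
      obtain ⟨y, ⟨hyY, hy1⟩, hy2⟩ := attain hJ {x | x ∈ Y ∧ p1 x ≤ 1}
        (Y.convex.inter (convex_le p1 1))
        (hY.inter (isClosed_le (continuous_of_bound p1 fun x => (hp x).2) continuous_const))
        (1 / c) (fun x hx => hball x hx.2) (z0 + z') 2 (by
          intro ε hε
          by_contra hcon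
          push Not at hcon
          have h0 := hcon 0 ⟨Y.zero_mem, by simp⟩
          rw [map_zero] at h0
          have := hμ2 (z0 + z') _ h0 fun v hv => abs_le.mpr ⟨by
            have := hcon (-v) ⟨Y.neg_mem hv.1, by rw [map_neg_eq_map]; exact hv.2⟩
            rw [map_neg] at this
            linarith, hcon v hv⟩
          linarith)
      rw [ContinuousLinearMap.add_apply] at hy2
      have ha := le_trans (le_abs_self _) (hμp z0 y hyY)
      have hb := le_trans (le_abs_self _) (hμp z' y hyY)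
      rw [hμz, one_mul] at ha
      rw [hμ', one_mul] at hb
      have hy0 : y ≠ 0 := by
        rintro rfl
        simp only [map_zero] at hy2
        linarith
      have hw := (hd y hyY hy0).hasFDerivAt
      have e1 : z0 y = p1 y := by linarith
      have e2 : z' y = p1 y := by linarith
      have t1 : Tendsto z U (𝓝 (fderiv ℝ p1 y)) := by
        refine S2t p1 y _ hw z (fun k => N1 (z k)) ?_
          (fun k v => le_trans (le_abs_self _) (hN1p _ v)) (e2 ▸ hz' y)
        have h3 := tendsto_of_D _ _ _ (tendsto_D_comp hB z0 z hD 1)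
        exact hN1z ▸ h3
      have t2 : Tendsto (fun _ : ℕ => z0) U (𝓝 (fderiv ℝ p1 y)) := by
        refine S2t p1 y _ hw _ (fun _ => N1 z0) (hN1z ▸ tendsto_const_nhds)
          (fun k v => le_trans (le_abs_self _) (hN1p _ v)) (e1 ▸ tendsto_const_nhds)
      have e3 : z0 = fderiv ℝ p1 y := tendsto_nhds_unique tendsto_const_nhds t2
      rw [e3]
      exact t1
  · refine le_antisymm (hp2 _ _ (apply_nonneg _ _) fun z hz => le_trans (hμp z y hy) ?_) ?_
    · exact mul_le_of_le_one_left (apply_nonneg _ _) (le_trans (hμN' z) hz)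
    · by_cases hy0 : y = 0
      · rw [hy0, map_zero]; exact apply_nonneg _ _
      · obtain ⟨hw1, hw2⟩ := deriv_support p1 y _ (hd y hy hy0).hasFDerivAt
        rw [← hw2]
        refine le_trans (le_abs_self _) (hp1 _ ?_ y)
        refine le_trans (hNN1 _) (hN2 _ _ zero_le_one fun v hv => abs_le.mpr ⟨?_, ?_⟩)
        · have := hw1 (-v)
          rw [map_neg, map_neg_eq_map] at this
          have hv' : p1 v ≤ 1 := hv
          linarith
        · exact le_trans (hw1 v) hv

end Pool.Agent.H2.Sm
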