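import Mathlib

set_option autoImplicit false

open Filter Topology Set Ordinal

namespace Pool.Agent.H2.SpA

/-- the ordinal interval -/
abbrev K := Set.Icc (1 : Ordinal.{0}) (ω ^ ω)

theorem w_pos (j : ℕ) : (0 : Ordinal.{0}) < ω ^ j := by
  rw [← opow_natCast]
  exact opow_pos _ omega0_pos

theorem isol (j : ℕ) (s : Ordinal.{0}) (hs : ¬ ω ^ (j + 1) ∣ s) :
    ∃ t < s, ∀ y, t < y → y ≤ s → ω ^ j ∣ y → y = s := by
  have h0 := (w_pos j).ne'
  by_cases hd : ω ^ j ∣ s
  · obtain ⟨q, rfl⟩ := hd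
    have hq : ¬ Order.IsSuccPrelimit q := by
      rw [isSuccPrelimit_iff_omega0_dvd]
      rintro ⟨c, rfl⟩
      exact hs ⟨c, by rw [pow_succ, mul_assoc]⟩
    obtain ⟨q', rfl⟩ : ∃ q', Order.succ q' = q := by
      simp only [Order.IsSuccPrelimit, not_forall, not_not] at hq
      obtain ⟨q', hq'⟩ := hq
      exact ⟨q', hq'.succ_eq⟩
    refine ⟨ω ^ j * q', (isNormal_mul_right (w_pos j)).strictMono (Order.lt_succ q'), ?_⟩
    rintro _ h1 h2 ⟨c, rfl⟩
    have h3 := (isNormal_mul_right (w_pos j)).strictMono.lt_iff_lt.mp h1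
    have h4 := (isNormal_mul_right (w_pos j)).strictMono.le_iff_le.mp h2
    rw [le_antisymm h4 (Order.succ_le_of_lt h3)]
  · refine ⟨ω ^ j * (s / ω ^ j), lt_of_le_of_ne (mul_div_le _ _) fun h => hd ⟨_, h.symm⟩, ?_⟩
    rintro _ h1 h2 ⟨c, rfl⟩
    have h3 := (isNormal_mul_right (w_pos j)).strictMono.lt_iff_lt.mp h1
    exact absurd ((mul_le_iff_le_div h0).mp h2) (not_le.mpr h3)

theorem fin_lemma (j : ℕ) (U : Set K) (hU : IsClosed U)
    (h : ∀ s ∈ U, ¬ ω ^ (j + 1) ∣ (s : Ordinal.{0})) :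
    {s ∈ U | ω ^ j ∣ (s : Ordinal.{0})}.Finite := by
  by_contra hinf
  obtain ⟨x, hx, hacc⟩ := Set.Infinite.exists_accPt_of_subset_isCompact hinf hU.isCompact
    (fun s hs => hs.1)
  obtain ⟨t, ht, h2⟩ := isol j x (h x hx)
  have hn : (Subtype.val ⁻¹' Ioo t (Order.succ (x : Ordinal.{0})) : Set K) ∈ 𝓝 x :=
    (isOpen_Ioo.preimage continuous_subtype_val).mem_nhds ⟨ht, Order.lt_succ _⟩
  obtain ⟨y, ⟨hy1, hy2⟩, hy3⟩ := accPt_iff_nhds.mp hacc _ hn
  exact hy3 (Subtype.ext (h2 y hy1.1 (Order.lt_succ_iff.mp hy1.2) hy2.2))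

/-- half-open interval -/
def I (a b : Ordinal.{0}) : Set K := {s | a < s ∧ (s : Ordinal.{0}) ≤ b}

theorem I_clopen (a b : Ordinal.{0}) : IsClopen (I a b) := by
  constructor
  · have : I a b = Subtype.val ⁻¹' Icc (Order.succ a) b := by
      ext s
      simp [I]
    rw [this]
    exact isClosed_Icc.preimage continuous_subtype_val
  · have : I a b = Subtype.val ⁻¹' Ioo a (Order.succ b) := by
      ext s
      simp [I]
    rw [this]
    exact isOpen_Ioo.preimage continuous_subtype_val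

/-- indicator function of a half-open interval -/
noncomputable def ind (a b : Ordinal.{0}) : C(K, ℝ) :=
  ⟨(I a b).indicator fun _ => 1, (I_clopen a b).continuous_indicator continuous_const⟩

theorem ind_mem {a b : Ordinal.{0}} {s : K} (h : s ∈ I a b) : ind a b s = 1 :=
  indicator_of_mem h fun _ => (1 : ℝ)

theorem ind_not {a b : Ordinal.{0}} {s : K} (h : s ∉ I a b) : ind a b s = 0 :=
  indicator_of_notMem h fun _ => (1 : ℝ)

theorem ind_norm (a b : Ordinal.{0}) : ‖ind a b‖ ≤ 1 := by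
  refine (ContinuousMap.norm_le _ zero_le_one).mpr fun s => ?_
  by_cases h : s ∈ I a b
  · simp [ind_mem h]
  · simp [ind_not h]

theorem wnull (c : ℕ → Ordinal.{0}) (hc : Monotone c) (ph : C(K, ℝ) →L[ℝ] ℝ) :
    Tendsto (fun m => ph (ind (c m) (c (m + 1)))) atTop (𝓝 0) := by
  have h1 : ∀ N, ∑ m ∈ Finset.range N, |ph (ind (c m) (c (m + 1)))| ≤ ‖ph‖ := by
    intro N
    let σ : ℕ → ℝ := fun m => if 0 ≤ ph (ind (c m) (c (m + 1))) then 1 else -1
    have hσ : ∀ m, |σ m| = 1 := fun m => by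
      simp only [σ]
      split_ifs <;> simp
    have h2 : ∑ m ∈ Finset.range N, |ph (ind (c m) (c (m + 1)))| =
        ph (∑ m ∈ Finset.range N, σ m • ind (c m) (c (m + 1))) := by
      rw [map_sum]
      refine Finset.sum_congr rfl fun m _ => ?_
      rw [map_smul, _root_.smul_eq_mul]
      simp only [σ]
      split_ifs with h
      · rw [abs_of_nonneg h, one_mul]
      · rw [abs_of_neg (not_le.mp h)]
        ring
    have h3 : ‖∑ m ∈ Finset.range N, σ m • ind (c m) (c (m + 1))‖ ≤ 1 := by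
      refine (ContinuousMap.norm_le _ zero_le_one).mpr fun s => ?_
      rw [ContinuousMap.sum_apply]
      by_cases h : ∃ m ∈ Finset.range N, s ∈ I (c m) (c (m + 1))
      · obtain ⟨m, hm, hs⟩ := h
        rw [Finset.sum_eq_single_of_mem m hm]
        · simp [ind_mem hs, hσ]
        · intro m' _ hne
          have : s ∉ I (c m') (c (m' + 1)) := fun hs' => by
            rcases lt_or_gt_of_ne hne with h | h
            · exact absurd (lt_of_le_of_lt (hs'.2.trans (hc h)) hs.1) (lt_irrefl _)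
            · exact absurd (lt_of_le_of_lt (hs.2.trans (hc h)) hs'.1) (lt_irrefl _)
          simp [ind_not this]
      · push Not at h
        rw [Finset.sum_eq_zero fun m hm => by simp [ind_not (h m hm)]]
        simp
    rw [h2]
    calc _ ≤ ‖ph (∑ m ∈ Finset.range N, σ m • ind (c m) (c (m + 1)))‖ := le_abs_self _
      _ ≤ ‖ph‖ * 1 := ph.le_of_opNorm_le_of_le le_rfl h3
      _ = _ := mul_one _
  have h4 := (summable_of_sum_range_le (fun _ => abs_nonneg _) h1).tendsto_atTop_zero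
  exact (tendsto_zero_iff_abs_tendsto_zero _).mpr h4

theorem tree (T : C(K, ℝ) →L[ℝ] C(K, ℝ)) (hT : ∀ f, ‖T f‖ ≤ ‖f‖) (B : Set K) (hB : IsClosed B)
    (k : ℕ) (hk : ∀ s ∈ B, ¬ ω ^ (k + 1) ∣ (s : Ordinal.{0})) (ε : ℝ) (hε : 0 < ε) (n : ℕ) :
    ∀ i, i ≤ n → ∃ (a : Ordinal.{0}) (F : C(K, ℝ)) (c : K → ℕ), a + ω ^ (n - i) ≤ ω ^ n ∧
      (∀ s ∈ I a (a + ω ^ (n - i)), F s = i) ∧ (∀ s ∈ B, |T F s| ≤ c s + i * ε) ∧
      (∀ j, IsClosed {s | s ∈ B ∧ j ≤ c s}) ∧
      ∀ j, ∀ s ∈ B, j ≤ c s → ¬ ω ^ (k + 1 - j) ∣ (s : Ordinal.{0}) := by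
  intro i
  induction i with
  | zero =>
    intro _
    refine ⟨0, 0, fun _ => 0, by simp, by simp, by simp, fun j => ?_, fun j s hs hj => ?_⟩
    · by_cases hj : j ≤ 0
      · simpa [hj] using hB
      · simp [hj]
    · obtain rfl : j = 0 := by simpa using hj
      exact hk s hs
  | succ i ih =>
    intro hi
    obtain ⟨a, F, c, h1, h2, h3, h4, h5⟩ := ih (by omega)
    obtain ⟨d, hd⟩ : ∃ d, n - i = d + 1 := ⟨n - i - 1, by omega⟩
    have hd' : n - (i + 1) = d := by omega
    rw [hd] at h1 h2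
    rw [hd']
    let b : ℕ → Ordinal.{0} := fun m => a + ω ^ d * (m : Ordinal.{0})
    have hb : Monotone b := fun m m' h =>
      add_le_add_right (mul_le_mul_right (by exact_mod_cast h) _) _
    have hb1 : ∀ m, b (m + 1) = b m + ω ^ d := fun m => by
      simp only [b]
      push_cast
      rw [mul_add_one, add_assoc]
    have hb2 : ∀ m, b m ≤ a + ω ^ (d + 1) := fun m => by
      simp only [b]
      rw [pow_succ]
      exact add_le_add_right (mul_le_mul_right (natCast_lt_omega0 m).le _) _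
    have hZ : (⋃ j ∈ Finset.range (k + 1),
        {s ∈ {s | s ∈ B ∧ j ≤ c s} | ω ^ (k - j) ∣ (s : Ordinal.{0})}).Finite := by
      refine Set.Finite.biUnion (Finset.finite_toSet _) fun j hj => ?_
      refine fin_lemma _ _ (h4 j) fun s hs => ?_
      have hj' : j < k + 1 := by simpa using hj
      have := h5 j s hs.1 hs.2
      rwa [show k + 1 - j = k - j + 1 by omega] at this
    have hev := (eventually_all_finite hZ (l := atTop)
      (p := fun s m => |T (ind (b m) (b (m + 1))) s| < ε)).mpr fun s _ => by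
        have := (wnull b hb ((ContinuousMap.evalCLM ℝ s).comp T)).abs
        rw [abs_zero] at this
        exact this.eventually (gt_mem_nhds hε)
    obtain ⟨m, hm⟩ := hev.exists
    set g := T (ind (b m) (b (m + 1))) with hg
    have hg1 : ∀ s, |g s| ≤ 1 := fun s =>
      le_trans (g.norm_coe_le_norm s) (le_trans (hT _) (ind_norm _ _))
    classical
    refine ⟨b m, F + ind (b m) (b (m + 1)), fun s => c s + if ε ≤ |g s| then 1 else 0,
      by rw [← hb1]; exact (hb2 _).trans h1, fun s hs => ?_, fun s hs => ?_, fun j => ?_,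
      fun j s hs hj => ?_⟩
    · rw [← hb1] at hs
      rw [ContinuousMap.add_apply, ind_mem hs, h2 s ⟨lt_of_le_of_lt le_self_add hs.1,
        hs.2.trans (hb2 _)⟩]
      push_cast
      ring
    · rw [map_add, ContinuousMap.add_apply, ← hg]
      have h6 := abs_add_le (T F s) (g s)
      have h7 := h3 s hs
      have h8 := hg1 s
      push_cast
      split_ifs with h
      · linarith
      · linarith [not_le.mp h]
    · have : {s | s ∈ B ∧ j ≤ c s + if ε ≤ |g s| then 1 else 0} =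
          {s | s ∈ B ∧ j ≤ c s} ∪ ({s | s ∈ B ∧ j - 1 ≤ c s} ∩ {s | ε ≤ |g s|}) := by
        ext s
        simp only [mem_setOf_eq, mem_union, mem_inter_iff]
        split_ifs with h
        · simp only [h, and_true]
          constructor
          · rintro ⟨h1, h2⟩
            exact Or.inr ⟨h1, by omega⟩
          · rintro (⟨h1, h2⟩ | ⟨h1, h2⟩)
            · exact ⟨h1, by omega⟩
            · exact ⟨h1, by omega⟩
        · simp [h]
      rw [this]
      exact (h4 j).union ((h4 _).inter (isClosed_le continuous_const g.continuous.abs))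
    · by_cases hc : j ≤ c s
      · exact h5 j s hs hc
      · intro hdv
        simp only at hj
        split_ifs at hj with h
        · by_cases hjk : c s < k + 1
          · refine absurd (hm s ?_) (not_lt.mpr h)
            simp only [mem_iUnion]
            refine ⟨c s, Finset.mem_range.mpr hjk, ⟨hs, le_rfl⟩, ?_⟩
            rwa [show k - c s = k + 1 - j by omega]
          · refine h5 (c s) s hs le_rfl ?_
            rw [show k + 1 - c s = 0 by omega, pow_zero]
            exact one_dvd _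
        · exact hc (by simpa using hj)

theorem w_le (n : ℕ) : (ω : Ordinal.{0}) ^ n ≤ ω ^ ω := by
  rw [← opow_natCast]
  exact opow_le_opow_right omega0_pos (natCast_lt_omega0 n).le

theorem main (T : C(K, ℝ) →L[ℝ] C(K, ℝ)) (hT : ∀ f, ‖T f‖ = ‖f‖) (δ : ℝ) (hδ : 0 < δ)
    (h : ∀ f g : C(K, ℝ), ‖f‖ = 1 → ‖g‖ = 1 → ∃ s, δ ≤ |T f s| ∧ δ ≤ |T g s|) : False := by
  let top : K := ⟨ω ^ ω, by simpa using w_le 0, le_rfl⟩
  have hm : Monotone fun m : ℕ => (m : Ordinal.{0}) := fun m m' h => by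
    simpa using h
  obtain ⟨m, hm0⟩ := (((wnull _ hm ((ContinuousMap.evalCLM ℝ top).comp T)).abs).eventually
    (gt_mem_nhds (by simpa using hδ : |(0 : ℝ)| < δ))).exists
  set f0 := ind (m : Ordinal.{0}) ((m + 1 : ℕ) : Ordinal.{0}) with hf0
  have hf1 : ‖f0‖ = 1 := by
    refine le_antisymm (ind_norm _ _) ?_
    let s : K := ⟨((m + 1 : ℕ) : Ordinal.{0}), by exact_mod_cast Nat.le_add_left 1 m,
      (natCast_lt_omega0 _).le.trans (by simpa using w_le 1)⟩
    have := f0.norm_coe_le_norm s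
    rwa [ind_mem (show s ∈ I _ _ from ⟨Nat.cast_lt.mpr (Nat.lt_succ_self m), le_rfl⟩),
      norm_one] at this
  let B : Set K := {s | δ ≤ |T f0 s|}
  have hB : IsClosed B := isClosed_le continuous_const (T f0).continuous.abs
  obtain ⟨k, hk⟩ : ∃ k : ℕ, ∀ s ∈ B, (s : Ordinal.{0}) < ω ^ k := by
    have hdir : Monotone fun k : ℕ => (Subtype.val ⁻¹' Iio ((ω : Ordinal.{0}) ^ k) : Set K) :=
      fun k k' hkk s hs => lt_of_lt_of_le hs (show (ω : Ordinal.{0}) ^ k ≤ ω ^ k' by
        rw [← opow_natCast, ← opow_natCast]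
        exact opow_le_opow_right omega0_pos (by exact_mod_cast hkk))
    obtain ⟨k, hk⟩ := hB.isCompact.elim_directed_cover _
      (fun k : ℕ => isOpen_Iio.preimage continuous_subtype_val) (fun s hs => by
        have h1 : (s : Ordinal.{0}) < ω ^ ω := lt_of_le_of_ne s.2.2 fun h2 => by
          have h3 : s = top := Subtype.ext h2
          rw [h3] at hs
          exact absurd hm0 (not_lt.mpr hs)
        obtain ⟨c, hc, h2⟩ := (lt_opow_of_isSuccLimit omega0_ne_zero isSuccLimit_omega0).mp h1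
        obtain ⟨k, rfl⟩ := lt_omega0.mp hc
        rw [opow_natCast] at h2
        exact mem_iUnion.mpr ⟨k, h2⟩) hdir.directed_le
    exact ⟨k, fun s hs => hk hs⟩
  obtain ⟨n, hn⟩ := exists_nat_gt (2 * k / δ)
  obtain ⟨a, F, c, h1, h2, h3, -, h5⟩ := tree T (fun f => (hT f).le) B hB k (fun s hs hdv => by
    have h1 := le_of_dvd (lt_of_lt_of_le zero_lt_one s.2.1).ne' hdv
    have h2 : (ω : Ordinal.{0}) ^ k ≤ ω ^ (k + 1) := by
      rw [← opow_natCast, ← opow_natCast]
      exact opow_le_opow_right omega0_pos (by exact_mod_cast Nat.le_succ k)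
    exact absurd (hk s hs) (not_lt.mpr (h2.trans h1))) (δ / 2) (by positivity) n n le_rfl
  rw [Nat.sub_self, pow_zero] at h1 h2
  let s0 : K := ⟨a + 1, le_add_self, h1.trans (w_le n)⟩
  have hF : (n : ℝ) ≤ ‖F‖ := by
    have := F.norm_coe_le_norm s0
    rw [h2 s0 ⟨Order.lt_succ a, le_rfl⟩] at this
    simpa using this
  have hn0 : (0 : ℝ) < n := lt_of_le_of_lt (by positivity) hn
  have hF0 : 0 < ‖F‖ := lt_of_lt_of_le hn0 hF
  obtain ⟨s, hs1, hs2⟩ := h f0 (‖F‖⁻¹ • F) hf1 (by
    rw [norm_smul, norm_inv, norm_norm, inv_mul_cancel₀ hF0.ne'])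
  rw [map_smul, ContinuousMap.smul_apply, _root_.smul_eq_mul, abs_mul, abs_inv, abs_norm,
    le_inv_mul_iff₀ hF0] at hs2
  have h6 := h3 s hs1
  have h7 : c s ≤ k := by
    by_contra h8
    refine h5 (c s) s hs1 le_rfl ?_
    rw [show k + 1 - c s = 0 by omega, pow_zero]
    exact one_dvd _
  have h8 : (c s : ℝ) ≤ k := by exact_mod_cast h7
  rw [div_lt_iff₀ hδ] at hn
  nlinarith

end Pool.Agent.H2.SpA
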