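import Mathlib

/-! Splitting scheme of a compact perfect subset of the line. -/

namespace Pool.Agent.H2.Su

open Set Filter Topology

structure Nd where
  a : ℝ
  b : ℝ
  s : ℕ
  m : ℕ

def AccR (X : Set ℝ) (a : ℝ) : Prop := ∀ y, a < y → ∃ x ∈ X, a < x ∧ x < y
def AccL (X : Set ℝ) (b : ℝ) : Prop := ∀ y, y < b → ∃ x ∈ X, y < x ∧ x < b

/-- states: 0 free without intervals, 1 free with an interval, 2 attached on the right,
3 attached on the left -/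
structure V (X : Set ℝ) (n : Nd) : Prop where
  ha : n.a ∈ X
  hb : n.b ∈ X
  le : n.a ≤ n.b
  s3 : n.s ≤ 3
  lt : n.s ≤ 1 → n.a < n.b
  ar : n.s ≠ 3 → n.a < n.b → AccR X n.a
  al : n.s ≠ 2 → n.a < n.b → AccL X n.b
  h2 : n.s = 2 → ∀ x, n.a ≤ x → x < n.b → ¬ Icc x n.b ⊆ X
  h3 : n.s = 3 → ∀ x, n.a < x → x ≤ n.b → ¬ Icc n.a x ⊆ X
  h0 : n.s = 0 → interior X ∩ Ioo n.a n.b = ∅
  h1 : n.s = 1 → (interior X ∩ Ioo n.a n.b).Nonempty

lemma acc_or {X : Set ℝ} (hp : Preperfect X) {a : ℝ} (ha : a ∈ X) : AccR X a ∨ AccL X a := by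
  by_contra h
  simp only [AccR, AccL, not_or, not_forall, not_exists, not_and, not_lt] at h
  obtain ⟨⟨y, hy, h1⟩, z, hz, h2⟩ := h
  obtain ⟨x, ⟨hx1, hx2⟩, hx3⟩ := preperfect_iff_nhds.1 hp a ha (Ioo z y) (Ioo_mem_nhds hz hy)
  rcases lt_or_gt_of_ne hx3 with h | h
  · linarith [h2 x hx2 hx1.1]
  · linarith [h1 x hx2 h, hx1.2]

lemma gap {X : Set ℝ} (hc : IsClosed X) {a b q : ℝ} (ha : a ∈ X) (hb : b ∈ X) (h1 : a < q)
    (h2 : q < b) (hq : q ∉ X) : ∃ c d, c ∈ X ∧ d ∈ X ∧ a ≤ c ∧ c < q ∧ q < d ∧ d ≤ b ∧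
      ∀ x ∈ X, x ≤ c ∨ d ≤ x := by
  obtain ⟨c, hc1, hc2⟩ := (isCompact_Icc.inter_left hc : IsCompact (X ∩ Icc a q)).exists_isGreatest
    ⟨a, ha, le_rfl, h1.le⟩
  obtain ⟨d, hd1, hd2⟩ := (isCompact_Icc.inter_left hc : IsCompact (X ∩ Icc q b)).exists_isLeast
    ⟨b, hb, h2.le, le_rfl⟩
  refine ⟨c, d, hc1.1, hd1.1, hc1.2.1, lt_of_le_of_ne hc1.2.2 fun h => hq (h ▸ hc1.1),
    lt_of_le_of_ne hd1.2.1 fun h => hq (h ▸ hd1.1), hd1.2.2, fun x hx => ?_⟩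
  rcases le_total x q with h | h
  · rcases le_total x a with h' | h'
    · exact Or.inl (h'.trans hc1.2.1)
    · exact Or.inl (hc2 ⟨hx, h', h⟩)
  · rcases le_total x b with h' | h'
    · exact Or.inr (hd2 ⟨hx, h, h'⟩)
    · exact Or.inr (hd1.2.2.trans h')

lemma itv {X : Set ℝ} (hc : IsClosed X) {a b q : ℝ} (h1 : a < q) (h2 : q < b)
    (hq : q ∈ interior X) : ∃ c d, a ≤ c ∧ c < q ∧ q < d ∧ d ≤ b ∧ Icc c d ⊆ X ∧
      (∀ x, a ≤ x → x < c → ¬ Icc x c ⊆ X) ∧ (∀ x, d < x → x ≤ b → ¬ Icc d x ⊆ X) := by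
  obtain ⟨u, v, ⟨hu, hv⟩, huv⟩ := mem_nhds_iff_exists_Ioo_subset.1 (mem_interior_iff_mem_nhds.1 hq)
  have hqX : q ∈ X := huv ⟨hu, hv⟩
  set A := {x | a ≤ x ∧ Icc x q ⊆ X} with hA
  set B := {x | x ≤ b ∧ Icc q x ⊆ X} with hB
  have Ab : BddBelow A := ⟨a, fun x hx => hx.1⟩
  have Bb : BddAbove B := ⟨b, fun x hx => hx.1⟩
  have A1 : max a ((u + q) / 2) ∈ A := ⟨le_max_left _ _, fun x hx => huv
    ⟨by linarith [le_max_right a ((u + q) / 2), hx.1], by linarith [hx.2]⟩⟩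
  have B1 : min b ((v + q) / 2) ∈ B := ⟨min_le_left _ _, fun x hx => huv
    ⟨by linarith [hx.1], by linarith [min_le_right b ((v + q) / 2), hx.2]⟩⟩
  have cq : sInf A < q := (csInf_le Ab A1).trans_lt (max_lt h1 (by linarith))
  have dq : q < sSup B := lt_of_lt_of_le (lt_min h2 (by linarith)) (le_csSup Bb B1)
  have hI : Icc (sInf A) (sSup B) ⊆ X := by
    rw [← closure_Ioo (cq.trans dq).ne]
    refine closure_minimal (fun x hx => ?_) hc
    rcases le_total x q with h | h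
    · obtain ⟨y, hy, hy'⟩ := exists_lt_of_csInf_lt ⟨_, A1⟩ hx.1
      exact hy.2 ⟨hy'.le, h⟩
    · obtain ⟨y, hy, hy'⟩ := exists_lt_of_lt_csSup ⟨_, B1⟩ hx.2
      exact hy.2 ⟨h, hy'.le⟩
  refine ⟨sInf A, sSup B, le_csInf ⟨_, A1⟩ fun x hx => hx.1, cq, dq,
    csSup_le ⟨_, B1⟩ fun x hx => hx.1, hI, fun x hx hx' h => ?_, fun x hx hx' h => ?_⟩
  · have : x ∈ A := ⟨hx, fun y hy => by
      rcases le_total y (sInf A) with h' | h'
      · exact h ⟨hy.1, h'⟩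
      · exact hI ⟨h', hy.2.trans dq.le⟩⟩
    linarith [csInf_le Ab this]
  · have : x ∈ B := ⟨hx', fun y hy => by
      rcases le_total y (sSup B) with h' | h'
      · exact hI ⟨cq.le.trans hy.1, h'⟩
      · exact h ⟨h', hy.2⟩⟩
    linarith [le_csSup Bb this]

lemma free {X : Set ℝ} {a b : ℝ} (ha : a ∈ X) (hb : b ∈ X) (hab : a < b) (ar : AccR X a)
    (al : AccL X b) (m : ℕ) : ∃ s ≤ 1, (interior X ∩ Ioo a b = ∅ → s = 0) ∧ V X ⟨a, b, s, m⟩ := by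
  by_cases h : interior X ∩ Ioo a b = ∅
  · exact ⟨0, by norm_num, fun _ => rfl, ha, hb, hab.le, by norm_num, fun _ => hab, fun _ _ => ar,
      fun _ _ => al, by norm_num, by norm_num, fun _ => h, by norm_num⟩
  · exact ⟨1, le_rfl, fun h' => absurd h' h, ha, hb, hab.le, by norm_num, fun _ => hab,
      fun _ _ => ar, fun _ _ => al, by norm_num, by norm_num, by norm_num,
      fun _ => nonempty_iff_ne_empty.2 h⟩

lemma exq {X : Set ℝ} (hc : IsClosed X) {q : ℕ → ℝ} (hq : DenseRange q) {a b : ℝ} (ha : a ∈ X)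
    (hb : b ∈ X) (h : ¬ Icc a b ⊆ X) : ∃ i, q i ∈ Ioo a b ∧ q i ∉ X := by
  obtain ⟨x, hx, hx'⟩ := not_subset.1 h
  exact hq.exists_mem_open (isOpen_Ioo.inter hc.isOpen_compl) ⟨x, ⟨lt_of_le_of_ne hx.1
    fun h => hx' (h ▸ ha), lt_of_le_of_ne hx.2 fun h => hx' (h ▸ hb)⟩, hx'⟩

structure Sp (X : Set ℝ) (q : ℕ → ℝ) (n l r : Nd) (i : ℕ) : Prop where
  la : l.a = n.a
  rb : r.b = n.b
  lm : l.m = n.m + 1
  rm : r.m = n.m + 1
  le : l.b ≤ r.a
  dg : ¬ n.a < n.b → 2 ≤ l.s ∧ 2 ≤ r.s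
  qi : n.a < n.b → q i ∈ Ioo l.b r.a
  g1 : n.s ≠ 1 → ∀ x ∈ X, n.a ≤ x → x ≤ n.b → x ≤ l.b ∨ r.a ≤ x
  g2 : n.s ≠ 1 → n.a < n.b → ∀ j, q j ∈ Ioo n.a n.b → q j ∉ X → i ≤ j
  j1 : n.s = 1 → Icc l.b r.a ⊆ X ∧ l.s = 2 ∧ r.s = 3 ∧
    ∀ j, q j ∈ Ioo n.a n.b → q j ∈ interior X → i ≤ j
  c0 : n.s = 0 → l.s = 0 ∧ r.s = 0
  c2 : n.s = 2 → n.a < n.b → l.s ≤ 1 ∧ r.s = 2
  c3 : n.s = 3 → n.a < n.b → l.s = 3 ∧ r.s ≤ 1

theorem step {X : Set ℝ} (hc : IsClosed X) (hp : Preperfect X) {q : ℕ → ℝ} (hq : DenseRange q)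
    (n : Nd) (hn : V X n) : ∃ l r i, V X l ∧ V X r ∧ Sp X q n l r i := by
  classical
  obtain ⟨a, b, s, m⟩ := n
  obtain ⟨ha, hb, le, s3, lt, ar, al, h2, h3, h0, h1⟩ := hn
  simp only at ha hb le s3 lt ar al h2 h3 h0 h1
  by_cases hab : a < b
  swap
  · have hs : 2 ≤ s := by
      by_contra h; exact hab (lt (by omega))
    have e : a = b := le_antisymm le (not_lt.1 hab)
    subst e
    have v : V X ⟨a, a, s, m + 1⟩ := ⟨ha, ha, le, s3, lt, ar, al, h2, h3, h0, h1⟩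
    exact ⟨_, _, 0, v, v, rfl, rfl, rfl, rfl, le_rfl, fun _ => ⟨hs, hs⟩, fun h => absurd h hab,
      fun _ x _ _ h => Or.inl h, fun _ h => absurd h hab, fun h => by simp only at h; omega,
      fun h => by simp only at h; omega, fun _ h => absurd h hab, fun _ h => absurd h hab⟩
  by_cases hs1 : s = 1
  · subst hs1
    have ex : ∃ i, q i ∈ Ioo a b ∧ q i ∈ interior X := by
      obtain ⟨i, hi⟩ := hq.exists_mem_open (isOpen_interior.inter isOpen_Ioo) (h1 rfl)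
      exact ⟨i, hi.2, hi.1⟩
    obtain ⟨hi1, hi2⟩ := Nat.find_spec ex
    obtain ⟨c, d, e1, e2, e3, e4, e5, e6, e7⟩ := itv hc hi1.1 hi1.2 hi2
    have cd : c ≤ d := (e2.trans e3).le
    refine ⟨⟨a, c, 2, m + 1⟩, ⟨d, b, 3, m + 1⟩, Nat.find ex,
      ⟨ha, e5 ⟨le_rfl, cd⟩, e1, by norm_num, by norm_num, fun _ _ => ar (by norm_num) hab,
        by norm_num, fun _ => e6, by norm_num, by norm_num, by norm_num⟩,
      ⟨e5 ⟨cd, le_rfl⟩, hb, e4, by norm_num, by norm_num, by norm_num,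
        fun _ _ => al (by norm_num) hab, by norm_num, fun _ => e7, by norm_num, by norm_num⟩,
      rfl, rfl, rfl, rfl, cd, fun h => absurd hab h, fun _ => ⟨e2, e3⟩, by norm_num, by norm_num,
      fun _ => ⟨e5, rfl, rfl, fun j hj hj' => Nat.find_min' ex ⟨hj, hj'⟩⟩, by norm_num,
      by norm_num, by norm_num⟩
  have hne : ¬ Icc a b ⊆ X := by
    have : s = 0 ∨ s = 2 ∨ s = 3 := by omega
    rcases this with h | h | h
    · intro hI
      have : (a + b) / 2 ∈ interior X ∩ Ioo a b := by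
        have hm : (a + b) / 2 ∈ Ioo a b := ⟨by linarith, by linarith⟩
        exact ⟨interior_maximal (Ioo_subset_Icc_self.trans hI) isOpen_Ioo hm, hm⟩
      rw [h0 h] at this; exact this
    · exact h2 h a le_rfl hab
    · exact h3 h b hab le_rfl
  have ex := exq hc hq ha hb hne
  obtain ⟨hi1, hi2⟩ := Nat.find_spec ex
  obtain ⟨c, d, cX, dX, e1, e2, e3, e4, e5⟩ := gap hc ha hb hi1.1 hi1.2 hi2
  have cd : c < d := e2.trans e3
  have cL : AccL X c := by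
    refine (acc_or hp cX).resolve_left fun h => ?_
    obtain ⟨x, hx, hx1, hx2⟩ := h d cd
    rcases e5 x hx with h | h <;> linarith
  have dR : AccR X d := by
    refine (acc_or hp dX).resolve_right fun h => ?_
    obtain ⟨x, hx, hx1, hx2⟩ := h c cd
    rcases e5 x hx with h | h <;> linarith
  have hl : ∃ t, (s = 0 → t = 0) ∧ (s = 2 → t ≤ 1) ∧ (s = 3 → t = 3) ∧ V X ⟨a, c, t, m + 1⟩ := by
    by_cases h : s = 3
    · exact ⟨3, by omega, by omega, by omega, ha, cX, e1, le_rfl, by norm_num, by norm_num,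
        fun _ _ => cL, by norm_num, fun _ x hx hx' => h3 h x hx (by
          simp only at hx'; linarith), by norm_num, by norm_num⟩
    · have ac : a < c := by
        obtain ⟨x, hx, hx1, hx2⟩ := ar h hab d (by linarith)
        rcases e5 x hx with h | h <;> linarith
      obtain ⟨t, t1, t2, t3⟩ := free ha cX ac (ar h hab) cL (m + 1)
      refine ⟨t, fun h' => t2 ?_, fun _ => t1, fun h' => absurd h' h, t3⟩
      exact subset_empty_iff.1 (h0 h' ▸ inter_subset_inter_right _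
        (Ioo_subset_Ioo_right (by linarith)))
  have hr : ∃ t, (s = 0 → t = 0) ∧ (s = 2 → t = 2) ∧ (s = 3 → t ≤ 1) ∧ V X ⟨d, b, t, m + 1⟩ := by
    by_cases h : s = 2
    · exact ⟨2, by omega, by omega, by omega, dX, hb, e4, by norm_num, by norm_num,
        fun _ _ => dR, by norm_num, fun _ x hx hx' => h2 h x (by
          simp only at hx; linarith) hx', by norm_num, by norm_num, by norm_num⟩
    · have db : d < b := by
        obtain ⟨x, hx, hx1, hx2⟩ := al h hab c (by linarith)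
        rcases e5 x hx with h | h <;> linarith
      obtain ⟨t, t1, t2, t3⟩ := free dX hb db dR (al h hab) (m + 1)
      refine ⟨t, fun h' => t2 ?_, fun h' => absurd h' h, fun _ => t1, t3⟩
      exact subset_empty_iff.1 (h0 h' ▸ inter_subset_inter_right _
        (Ioo_subset_Ioo_left (by linarith)))
  obtain ⟨t, t0, t2, t3, tv⟩ := hl
  obtain ⟨u, u0, u2, u3, uv⟩ := hr
  exact ⟨_, _, Nat.find ex, tv, uv, rfl, rfl, rfl, rfl, cd.le, fun h => absurd hab h,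
    fun _ => ⟨e2, e3⟩, fun _ x hx _ _ => e5 x hx,
    fun _ _ j hj hj' => Nat.find_min' ex ⟨hj, hj'⟩, fun h => absurd h hs1,
    fun h => ⟨t0 h, u0 h⟩, fun h _ => ⟨t2 h, u2 h⟩, fun h _ => ⟨t3 h, u3 h⟩⟩

end Pool.Agent.H2.Su
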