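import Pool.Agent.H2.SuA

/-! The increasing map attached to a splitting scheme. -/

namespace Pool.Agent.H2.Su

open Set Filter Topology

noncomputable def xi (m : ℕ) : ℝ := (1/20) ^ m

lemma xi_pos (m : ℕ) : 0 < xi m := by unfold xi; positivity
lemma xi_succ (m : ℕ) : xi (m + 1) = xi m / 20 := by unfold xi; ring

noncomputable def len (n : Nd) : ℝ :=
  if n.s = 0 then 20/19 * xi n.m else if n.s = 1 then 5 * xi n.m else
    if n.a < n.b then xi n.m / 2 else 0

lemma len_nonneg (n : Nd) : 0 ≤ len n := by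
  have := xi_pos n.m
  unfold len; split_ifs <;> linarith
lemma len_le (n : Nd) : len n ≤ 5 * xi n.m := by
  have := xi_pos n.m
  unfold len; split_ifs <;> linarith
lemma len_le2 {n : Nd} (h : 2 ≤ n.s) : len n ≤ xi n.m / 2 := by
  have := xi_pos n.m
  unfold len; rw [if_neg (by omega), if_neg (by omega)]; split_ifs <;> linarith
lemma len0 {n : Nd} (h : n.s = 0) : len n = 20/19 * xi n.m := by simp [len, h]
lemma len1 {n : Nd} (h : n.s = 1) : len n = 5 * xi n.m := by simp [len, h]
lemma len2 {n : Nd} (h : 2 ≤ n.s) (h' : n.a < n.b) : len n = xi n.m / 2 := by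
  unfold len; rw [if_neg (by omega), if_neg (by omega), if_pos h']
lemma len3 {n : Nd} (h : 2 ≤ n.s) (h' : ¬ n.a < n.b) : len n = 0 := by
  unfold len; rw [if_neg (by omega), if_neg (by omega), if_neg h']

noncomputable def ramp (c d x : ℝ) : ℝ := max 0 (min 1 ((x - c) / (d - c)))

lemma ramp_nonneg (c d x : ℝ) : 0 ≤ ramp c d x := le_max_left _ _
lemma ramp_le (c d x : ℝ) : ramp c d x ≤ 1 := max_le zero_le_one (min_le_left _ _)
lemma ramp_cont (c d : ℝ) : Continuous (ramp c d) := by unfold ramp; fun_prop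
lemma ramp_mono {c d : ℝ} (h : c ≤ d) : Monotone (ramp c d) := fun x y hxy =>
  max_le_max le_rfl (min_le_min le_rfl (div_le_div_of_nonneg_right (by linarith) (by linarith)))
lemma ramp_zero {c d x : ℝ} (h : c ≤ d) (hx : x ≤ c) : ramp c d x = 0 :=
  max_eq_left ((min_le_right _ _).trans (div_nonpos_of_nonpos_of_nonneg (by linarith)
    (by linarith)))
lemma ramp_one {c d x : ℝ} (h : c < d) (hx : d ≤ x) : ramp c d x = 1 := by
  unfold ramp
  rw [min_eq_left ((one_le_div (by linarith)).2 (by linarith))]; simp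
lemma ramp_lt {c d x y : ℝ} (h : c < d) (hxy : x < y) (hx : x < d) (hy : c < y) :
    ramp c d x < ramp c d y := by
  have h0 : 0 < d - c := by linarith
  have a1 : (x - c) / (d - c) < (y - c) / (d - c) := div_lt_div_of_pos_right (by linarith) h0
  have a2 : (x - c) / (d - c) < 1 := (div_lt_one h0).2 (by linarith)
  have a3 : 0 < (y - c) / (d - c) := div_pos (by linarith) h0
  unfold ramp
  refine lt_max_of_lt_right (max_lt (lt_min one_pos a3) (lt_min ?_ ?_))
  · exact (min_le_right _ _).trans_lt a2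
  · exact (min_le_right _ _).trans_lt a1

structure Tr (X : Set ℝ) (q : ℕ → ℝ) where
  l : {n // V X n} → {n // V X n}
  r : {n // V X n} → {n // V X n}
  i : {n // V X n} → ℕ
  sp : ∀ n, Sp X q n.1 (l n).1 (r n).1 (i n)

namespace Tr

variable {X : Set ℝ} {q : ℕ → ℝ} (T : Tr X q)

noncomputable def w (n : {n // V X n}) : ℝ := len n.1 - len (T.l n).1 - len (T.r n).1

lemma two_le (n : {n // V X n}) (h : ¬ n.1.a < n.1.b) : 2 ≤ n.1.s := by
  by_contra h'; exact h (n.2.lt (by omega))

lemma w_zero (n : {n // V X n}) (h : ¬ n.1.a < n.1.b) : T.w n = 0 := by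
  have S := T.sp n
  have h1 := (T.l n).2.le
  have h2 := (T.r n).2.le
  have h3 := S.le
  have h4 := S.la
  have h5 := S.rb
  unfold w
  rw [len3 (two_le n h) h, len3 (S.dg h).1 (by linarith), len3 (S.dg h).2 (by linarith)]
  ring

lemma w_pos (n : {n // V X n}) (h : n.1.a < n.1.b) : 0 < T.w n := by
  have S := T.sp n
  have p := xi_pos n.1.m
  have a1 := len_le (T.l n).1
  have a2 := len_le (T.r n).1
  rw [S.lm, xi_succ] at a1
  rw [S.rm, xi_succ] at a2
  have := n.2.s3
  have : n.1.s = 0 ∨ n.1.s = 1 ∨ n.1.s = 2 ∨ n.1.s = 3 := by omega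
  unfold w
  rcases this with e | e | e | e
  · rw [len0 e]; linarith
  · rw [len1 e]; linarith
  · have := len_le2 (S.c2 e h).2.ge
    rw [S.rm, xi_succ] at this
    rw [len2 e.ge h]; linarith
  · have := len_le2 (n := (T.l n).1) (by have := (S.c3 e h).1; omega)
    rw [S.lm, xi_succ] at this
    rw [len2 (by omega) h]; linarith

lemma w_nonneg (n : {n // V X n}) : 0 ≤ T.w n := by
  by_cases h : n.1.a < n.1.b
  · exact (T.w_pos n h).le
  · exact (T.w_zero n h).ge

lemma cd (n : {n // V X n}) (h : n.1.a < n.1.b) : (T.l n).1.b < (T.r n).1.a :=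
  ((T.sp n).qi h).1.trans ((T.sp n).qi h).2

noncomputable def R (n : {n // V X n}) (x : ℝ) : ℝ := T.w n * ramp (T.l n).1.b (T.r n).1.a x

lemma R_mono (n : {n // V X n}) : Monotone (T.R n) := fun _ _ h =>
  mul_le_mul_of_nonneg_left (ramp_mono (T.sp n).le h) (T.w_nonneg n)

lemma R_zero (n : {n // V X n}) {x : ℝ} (h : x ≤ (T.l n).1.b) : T.R n x = 0 := by
  rw [R, ramp_zero (T.sp n).le h, mul_zero]

lemma R_one (n : {n // V X n}) {x : ℝ} (h : (T.r n).1.a ≤ x) : T.R n x = T.w n := by
  by_cases h' : n.1.a < n.1.b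
  · rw [R, ramp_one (T.cd n h') h, mul_one]
  · rw [R, T.w_zero n h', zero_mul]

noncomputable def D : ℕ → {n // V X n} → ℝ → ℝ
  | 0, n, x => T.R n x
  | k + 1, n, x => D k (T.l n) x + D k (T.r n) x

lemma D_bd (k : ℕ) : ∀ n x, 0 ≤ T.D k n x ∧ T.D k n x ≤ 5 * xi n.1.m * (1/10) ^ k := by
  induction k with
  | zero =>
    intro n x
    refine ⟨mul_nonneg (T.w_nonneg n) (ramp_nonneg _ _ _), ?_⟩
    refine (mul_le_of_le_one_right (T.w_nonneg n) (ramp_le _ _ _)).trans ?_
    unfold w
    linarith [len_le n.1, len_nonneg (T.l n).1, len_nonneg (T.r n).1]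
  | succ k ih =>
    intro n x
    obtain ⟨a1, a2⟩ := ih (T.l n) x
    obtain ⟨b1, b2⟩ := ih (T.r n) x
    rw [(T.sp n).lm, xi_succ] at a2
    rw [(T.sp n).rm, xi_succ] at b2
    simp only [D, pow_succ]
    constructor <;> linarith

lemma D_cont (k : ℕ) : ∀ n, Continuous (T.D k n) := by
  induction k with
  | zero => exact fun n => continuous_const.mul (ramp_cont _ _)
  | succ k ih => exact fun n => (ih _).add (ih _)

lemma D_mono (k : ℕ) : ∀ n, Monotone (T.D k n) := by
  induction k with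
  | zero => exact T.R_mono
  | succ k ih => exact fun n => (ih _).add (ih _)

lemma D_zero (k : ℕ) : ∀ n x, x ≤ n.1.a → T.D k n x = 0 := by
  induction k with
  | zero => exact fun n x h => T.R_zero n (by linarith [(T.sp n).la, (T.l n).2.le])
  | succ k ih =>
    intro n x h
    simp only [D]
    rw [ih, ih, add_zero] <;> linarith [(T.sp n).la, (T.l n).2.le, (T.sp n).le]

lemma geo (c : ℝ) : Summable fun k : ℕ => c * (1/10 : ℝ) ^ k :=
  (summable_geometric_of_lt_one (by norm_num) (by norm_num)).mul_left c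

lemma D_sum (n : {n // V X n}) (x : ℝ) : Summable fun k => T.D k n x :=
  Summable.of_nonneg_of_le (fun k => (T.D_bd k n x).1) (fun k => (T.D_bd k n x).2) (geo _)

noncomputable def H (n : {n // V X n}) (x : ℝ) : ℝ := ∑' k, T.D k n x

lemma H_cont (n : {n // V X n}) : Continuous (T.H n) :=
  continuous_tsum (fun k => T.D_cont k n) (geo (5 * xi n.1.m)) fun k x => by
    rw [Real.norm_of_nonneg (T.D_bd k n x).1]; exact (T.D_bd k n x).2

lemma H_mono (n : {n // V X n}) : Monotone (T.H n) := fun _ _ h =>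
  (T.D_sum n _).tsum_le_tsum (fun k => T.D_mono k n h) (T.D_sum n _)

lemma H_eq (n : {n // V X n}) (x : ℝ) : T.H n x = T.R n x + (T.H (T.l n) x + T.H (T.r n) x) := by
  unfold H
  rw [(T.D_sum n x).tsum_eq_zero_add, ← (T.D_sum _ x).tsum_add (T.D_sum _ x)]
  rfl

lemma H_zero (n : {n // V X n}) {x : ℝ} (h : x ≤ n.1.a) : T.H n x = 0 := by
  simp [H, T.D_zero _ n x h]

lemma H_nonneg (n : {n // V X n}) (x : ℝ) : 0 ≤ T.H n x := tsum_nonneg fun k => (T.D_bd k n x).1

lemma H_len (n : {n // V X n}) {x : ℝ} (h : n.1.b ≤ x) : T.H n x = len n.1 := by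
  have key : ∀ k : ℕ, ∀ n : {n // V X n}, n.1.b ≤ x →
      |len n.1 - T.H n x| ≤ 10 * xi n.1.m * (1/10) ^ k := by
    intro k
    induction k with
    | zero =>
      intro n _
      have h1 : T.H n x ≤ ∑' k : ℕ, 5 * xi n.1.m * (1/10 : ℝ) ^ k :=
        (T.D_sum n x).tsum_le_tsum (fun k => (T.D_bd k n x).2) (geo _)
      rw [tsum_mul_left, tsum_geometric_of_lt_one (by norm_num) (by norm_num)] at h1
      rw [abs_le]
      constructor <;> nlinarith [len_le n.1, len_nonneg n.1, T.H_nonneg n x, xi_pos n.1.m]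
    | succ k ih =>
      intro n h
      have e1 : (T.r n).1.a ≤ x := by linarith [(T.sp n).rb, (T.r n).2.le]
      have a := ih (T.l n) (by linarith [(T.sp n).le])
      have b := ih (T.r n) (by linarith [(T.sp n).rb])
      rw [(T.sp n).lm, xi_succ, abs_le] at a
      rw [(T.sp n).rm, xi_succ, abs_le] at b
      rw [T.H_eq, T.R_one n e1, w, abs_le, pow_succ]
      constructor <;> linarith [a.1, a.2, b.1, b.2]
  have lim : Tendsto (fun k : ℕ => 10 * xi n.1.m * (1/10 : ℝ) ^ k) atTop (𝓝 0) :=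
    (geo _).tendsto_atTop_zero
  have := ge_of_tendsto' lim fun k => key k n h
  linarith [abs_nonpos_iff.1 this]

lemma H_le (n : {n // V X n}) (x : ℝ) : T.H n x ≤ len n.1 := by
  rw [← T.H_len n (le_max_left n.1.b x)]; exact T.H_mono n (le_max_right _ _)

lemma H_l (n : {n // V X n}) {x : ℝ} (h : x ≤ (T.l n).1.b) : T.H n x = T.H (T.l n) x := by
  rw [T.H_eq, T.R_zero n h, T.H_zero (T.r n) (h.trans (T.sp n).le)]; ring

lemma H_r (n : {n // V X n}) {x : ℝ} (h : (T.r n).1.a ≤ x) :
    T.H n x = len n.1 - len (T.r n).1 + T.H (T.r n) x := by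
  rw [T.H_eq, T.R_one n h, T.H_len (T.l n) ((T.sp n).le.trans h), w]; ring

theorem H_inj (hc : IsClosed X) (hq : DenseRange q) (n : {n // V X n}) {x y : ℝ} (hx : x ∈ X)
    (hy : y ∈ X) (h1 : n.1.a ≤ x) (h2 : y ≤ n.1.b) (hxy : x < y) : T.H n x < T.H n y := by
  classical
  by_contra hne
  have heq : T.H n x = T.H n y := le_antisymm (T.H_mono n hxy.le) (not_lt.1 hne)
  set nx : {n // V X n} → {n // V X n} := fun n => if y ≤ (T.l n).1.b then T.l n else T.r n
    with hnx
  set P : {n // V X n} → Prop := fun n => n.1.a ≤ x ∧ y ≤ n.1.b ∧ T.H n x = T.H n y with hP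
  have stp : ∀ n, P n → P (nx n) := by
    rintro n ⟨a1, a2, a3⟩
    have hab : n.1.a < n.1.b := by linarith
    have m1 := T.R_mono n hxy.le
    have m2 := T.H_mono (T.l n) hxy.le
    have m3 := T.H_mono (T.r n) hxy.le
    rw [T.H_eq n x, T.H_eq n y] at a3
    simp only [hnx]
    split_ifs with h
    · exact ⟨by linarith [(T.sp n).la], h, by linarith⟩
    · refine ⟨?_, by linarith [(T.sp n).rb], by linarith⟩
      by_contra h'
      have := mul_lt_mul_of_pos_left (ramp_lt (T.cd n hab) hxy (not_le.1 h') (not_le.1 h))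
        (T.w_pos n hab)
      unfold R at a3
      linarith
  set p : ℕ → {n // V X n} := fun k => nx^[k] n with hp
  have ps : ∀ k, p (k + 1) = nx (p k) := fun k => Function.iterate_succ_apply' _ _ _
  have pP : ∀ k, P (p k) := by
    intro k
    induction k with
    | zero => exact ⟨h1, h2, heq⟩
    | succ k ih => rw [ps]; exact stp _ ih
  have pab : ∀ k, (p k).1.a < (p k).1.b := fun k => by linarith [(pP k).1, (pP k).2.1]
  have pc : ∀ k, p (k + 1) = T.l (p k) ∨ p (k + 1) = T.r (p k) := by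
    intro k; rw [ps]; simp only [hnx]; split_ifs <;> simp
  have nest : ∀ k j, (p k).1.a ≤ (p (k + j)).1.a ∧ (p (k + j)).1.b ≤ (p k).1.b := by
    intro k j
    induction j with
    | zero => exact ⟨le_rfl, le_rfl⟩
    | succ j ih =>
      have S := T.sp (p (k + j))
      rw [← add_assoc]
      rcases pc (k + j) with e | e <;> rw [e] <;> constructor <;>
        linarith [S.la, S.rb, S.le, (T.l (p (k + j))).2.le, (T.r (p (k + j))).2.le, ih.1, ih.2]
  have inj : Function.Injective fun k => T.i (p k) := by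
    have aux : ∀ k j, T.i (p k) ≠ T.i (p (k + 1 + j)) := by
      intro k j e
      have b1 := (T.sp (p k)).qi (pab k)
      have S := T.sp (p (k + 1 + j))
      have b2 := S.qi (pab _)
      rw [← e] at b2
      have b3 := nest (k + 1) j
      rcases pc k with e' | e' <;> rw [e'] at b3 <;>
        linarith [b1.1, b1.2, b2.1, b2.2, b3.1, b3.2, S.la, S.rb, (T.l (p (k + 1 + j))).2.le,
          (T.r (p (k + 1 + j))).2.le]
    intro k j e
    rcases lt_trichotomy k j with h | h | h
    · obtain ⟨t, rfl⟩ := Nat.exists_eq_add_of_lt h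
      exact absurd e (by rw [show k + t + 1 = k + 1 + t by ring]; exact aux k t)
    · exact h
    · obtain ⟨t, rfl⟩ := Nat.exists_eq_add_of_lt h
      exact absurd e.symm (by rw [show j + t + 1 = j + 1 + t by ring]; exact aux j t)
  have big : ∀ i0 : ℕ, ∃ k0, ∀ k ≥ k0, i0 < T.i (p k) := fun i0 =>
    eventually_atTop.1 (inj.nat_tendsto_atTop.eventually (eventually_gt_atTop i0))
  have sub : ∀ k, Ioo x y ⊆ Ioo (p k).1.a (p k).1.b := fun k =>
    Ioo_subset_Ioo (pP k).1 (pP k).2.1
  by_cases hI : Icc x y ⊆ X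
  · obtain ⟨i0, hi0⟩ := hq.exists_mem_open isOpen_Ioo (nonempty_Ioo.2 hxy)
    have hi1 : q i0 ∈ interior X := interior_maximal (Ioo_subset_Icc_self.trans hI) isOpen_Ioo hi0
    obtain ⟨k0, hk0⟩ := big i0
    have s23 : ∀ k ≥ k0, 2 ≤ (p k).1.s := by
      intro k hk
      by_contra h
      have : (p k).1.s = 0 ∨ (p k).1.s = 1 := by omega
      rcases this with e | e
      · have : q i0 ∈ interior X ∩ Ioo (p k).1.a (p k).1.b := ⟨hi1, sub k hi0⟩
        rw [(p k).2.h0 e] at this; exact this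
      · exact absurd (((T.sp (p k)).j1 e).2.2.2 i0 (sub k hi0) hi1) (not_le.2 (hk0 k hk))
    have : (p k0).1.s = 2 ∨ (p k0).1.s = 3 := by
      have := s23 k0 le_rfl; have := (p k0).2.s3; omega
    rcases this with e | e
    · have st : ∀ j, (p (k0 + j)).1.s = 2 ∧ (p (k0 + j)).1.b = (p k0).1.b := by
        intro j
        induction j with
        | zero => exact ⟨e, rfl⟩
        | succ j ih =>
          have S := T.sp (p (k0 + j))
          have c := S.c2 ih.1 (pab _)
          have := s23 (k0 + j + 1) (by omega)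
          rw [← add_assoc]
          rcases pc (k0 + j) with e' | e' <;> rw [e'] at this ⊢
          · omega
          · exact ⟨c.2, S.rb.trans ih.2⟩
      obtain ⟨j0, hj0, hj1⟩ := exq hc hq hx (p k0).2.hb ((p k0).2.h2 e x (pP k0).1
        (hxy.trans_le (pP k0).2.1))
      obtain ⟨k1, hk1⟩ := big j0
      refine absurd ((T.sp (p (k0 + k1))).g2 (by have := (st k1).1; omega) (pab _) j0
        ⟨(pP _).1.trans_lt hj0.1, (st k1).2 ▸ hj0.2⟩ hj1) (not_le.2 (hk1 _ (by omega)))
    · have st : ∀ j, (p (k0 + j)).1.s = 3 ∧ (p (k0 + j)).1.a = (p k0).1.a := by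
        intro j
        induction j with
        | zero => exact ⟨e, rfl⟩
        | succ j ih =>
          have S := T.sp (p (k0 + j))
          have c := S.c3 ih.1 (pab _)
          have := s23 (k0 + j + 1) (by omega)
          rw [← add_assoc]
          rcases pc (k0 + j) with e' | e' <;> rw [e'] at this ⊢
          · exact ⟨c.1, S.la.trans ih.2⟩
          · omega
      obtain ⟨j0, hj0, hj1⟩ := exq hc hq (p k0).2.ha hy ((p k0).2.h3 e y
        ((pP k0).1.trans_lt hxy) (pP k0).2.1)
      obtain ⟨k1, hk1⟩ := big j0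
      refine absurd ((T.sp (p (k0 + k1))).g2 (by have := (st k1).1; omega) (pab _) j0
        ⟨(st k1).2 ▸ hj0.1, hj0.2.trans_le (pP _).2.1⟩ hj1) (not_le.2 (hk1 _ (by omega)))
  · obtain ⟨i0, hi0, hi1⟩ := exq hc hq hx hy hI
    obtain ⟨k0, hk0⟩ := big i0
    have s1 : ∀ k ≥ k0, (p k).1.s = 1 := by
      intro k hk
      by_contra h
      exact absurd ((T.sp (p k)).g2 h (pab k) i0 (sub k hi0) hi1) (not_le.2 (hk0 k hk))
    have c := (T.sp (p k0)).j1 (s1 k0 le_rfl)
    have := s1 (k0 + 1) (by omega)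
    rcases pc k0 with e | e <;> rw [e] at this <;> omega

end Tr

end Pool.Agent.H2.Su
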