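import Pool.Agent.H2.SuB

/-! Every point of the image lies in a translate of a fixed Cantor set inside the image. -/

namespace Pool.Agent.H2.Su

open Set Filter Topology

noncomputable def dl (b : Bool) : ℝ := if b then 1 else 0

noncomputable def Sg (k m : ℕ) (e : ℕ → Bool) : ℝ :=
  ∑ j ∈ Finset.range k, dl (e j) * xi (m + j)

lemma Sg_succ (k m : ℕ) (e : ℕ → Bool) :
    Sg (k + 1) m e = dl (e 0) * xi m + Sg k (m + 1) fun j => e (j + 1) := by
  unfold Sg
  rw [Finset.sum_range_succ', add_comm]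
  simp only [add_zero, add_assoc, add_comm 1]

lemma Sg_bd (k : ℕ) : ∀ m e, 0 ≤ Sg k m e ∧ Sg k m e ≤ 20/19 * xi m := by
  induction k with
  | zero => intro m e; simp [Sg, (xi_pos m).le]
  | succ k ih =>
    intro m e
    obtain ⟨a, b⟩ := ih (m + 1) fun j => e (j + 1)
    rw [xi_succ] at b
    rw [Sg_succ]
    have := xi_pos m
    cases e 0 <;> simp only [dl] <;> constructor <;> norm_num <;> linarith

lemma Sg_false (k m : ℕ) : Sg k m (fun _ => false) = 0 := by simp [Sg, dl]

lemma Sg_le_true (k m : ℕ) (e : ℕ → Bool) : Sg k m e ≤ Sg k m fun _ => true :=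
  Finset.sum_le_sum fun j _ => mul_le_mul_of_nonneg_right (by cases e j <;> simp [dl])
    (xi_pos _).le

namespace Tr

variable {X : Set ℝ} {q : ℕ → ℝ} (T : Tr X q)

def Im (n : {n // V X n}) : Set ℝ := T.H n '' (X ∩ Icc n.1.a n.1.b)

lemma Im_cpt (hc : IsClosed X) (n : {n // V X n}) : IsCompact (T.Im n) :=
  (isCompact_Icc.inter_left hc).image (T.H_cont n)

lemma Im_l (n : {n // V X n}) {z : ℝ} (h : z ∈ T.Im (T.l n)) : z ∈ T.Im n := by
  obtain ⟨x, ⟨hx, h1, h2⟩, rfl⟩ := h
  have S := T.sp n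
  exact ⟨x, ⟨hx, by linarith [S.la], by linarith [S.rb, S.le, (T.r n).2.le]⟩, T.H_l n h2⟩

lemma Im_r (n : {n // V X n}) {z : ℝ} (h : z ∈ T.Im (T.r n)) :
    len n.1 - len (T.r n).1 + z ∈ T.Im n := by
  obtain ⟨x, ⟨hx, h1, h2⟩, rfl⟩ := h
  have S := T.sp n
  exact ⟨x, ⟨hx, by linarith [S.la, S.le, (T.l n).2.le], by linarith [S.rb]⟩, T.H_r n h1⟩

lemma H_c (n : {n // V X n}) : T.H n (T.l n).1.b = len (T.l n).1 := by
  rw [T.H_l n le_rfl, T.H_len _ le_rfl]

lemma H_d (n : {n // V X n}) : T.H n (T.r n).1.a = len n.1 - len (T.r n).1 := by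
  rw [T.H_r n le_rfl, T.H_zero _ le_rfl, add_zero]

lemma Im_j (n : {n // V X n}) (h : n.1.s = 1) {z : ℝ} (h1 : xi n.1.m / 40 ≤ z ∨ len (T.l n).1 ≤ z)
    (h2 : z ≤ 5 * xi n.1.m - xi n.1.m / 40 ∨ z ≤ len n.1 - len (T.r n).1) : z ∈ T.Im n := by
  have S := T.sp n
  obtain ⟨j1, j2, j3, _⟩ := S.j1 h
  have a1 := len_le2 (n := (T.l n).1) (by omega)
  have a2 := len_le2 (n := (T.r n).1) (by omega)
  rw [S.lm, xi_succ] at a1
  rw [S.rm, xi_succ] at a2
  have a3 := len1 h
  have : z ∈ Icc (T.H n (T.l n).1.b) (T.H n (T.r n).1.a) := by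
    rw [H_c, H_d]
    constructor
    · rcases h1 with h1 | h1 <;> linarith
    · rcases h2 with h2 | h2 <;> linarith
  obtain ⟨x, hx, rfl⟩ := intermediate_value_Icc S.le (T.H_cont n).continuousOn this
  exact ⟨x, ⟨j1 hx, by linarith [S.la, (T.l n).2.le, hx.1],
    by linarith [S.rb, (T.r n).2.le, hx.2]⟩, rfl⟩

lemma Im_c (hc : IsClosed X) (n n' : {n // V X n}) (h : n.1.s = 0) (h' : n'.1.s = 0)
    (hm : n.1.m = n'.1.m) : T.Im n ⊆ T.Im n' := by
  have key : ∀ k : ℕ, ∀ n n' : {n // V X n}, n.1.s = 0 → n'.1.s = 0 → n.1.m = n'.1.m →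
      ∀ z ∈ T.Im n, ∃ z' ∈ T.Im n', |z - z'| ≤ 2 * xi n.1.m * (1/10) ^ k := by
    intro k
    induction k with
    | zero =>
      rintro n n' h h' hm _ ⟨x, hx, rfl⟩
      refine ⟨_, ⟨n'.1.a, ⟨n'.2.ha, le_rfl, n'.2.le⟩, rfl⟩, ?_⟩
      rw [T.H_zero n' le_rfl, sub_zero, abs_of_nonneg (T.H_nonneg _ _)]
      linarith [T.H_le n x, len0 h, xi_pos n.1.m]
    | succ k ih =>
      rintro n n' h h' hm _ ⟨x, ⟨hx, h1, h2⟩, rfl⟩
      have S := T.sp n
      have S' := T.sp n'
      have p : 0 ≤ xi n.1.m * (1/10) ^ k := mul_nonneg (xi_pos _).le (by positivity)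
      rcases S.g1 (by omega) x hx h1 h2 with e | e
      · obtain ⟨z', a1, a2⟩ := ih (T.l n) (T.l n') (S.c0 h).1 (S'.c0 h').1
          (by rw [S.lm, S'.lm, hm]) _ ⟨x, ⟨hx, by linarith [S.la], e⟩, rfl⟩
        refine ⟨z', T.Im_l n' a1, ?_⟩
        rw [S.lm, xi_succ] at a2
        rw [T.H_l n e, pow_succ]; linarith
      · obtain ⟨z', a1, a2⟩ := ih (T.r n) (T.r n') (S.c0 h).2 (S'.c0 h').2
          (by rw [S.rm, S'.rm, hm]) _ ⟨x, ⟨hx, e, by linarith [S.rb]⟩, rfl⟩
        refine ⟨_, T.Im_r n' a1, ?_⟩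
        rw [S.rm, xi_succ] at a2
        rw [T.H_r n e, pow_succ, len0 h, len0 h', len0 (S.c0 h).2, len0 (S'.c0 h').2, S.rm, S'.rm,
          ← hm, add_sub_add_left_eq_sub]
        linarith
  intro z hz
  rw [← (T.Im_cpt hc n').isClosed.closure_eq, Metric.mem_closure_iff]
  intro ε hε
  obtain ⟨k, hk⟩ := ((geo (2 * xi n.1.m)).tendsto_atTop_zero.eventually (gt_mem_nhds hε)).exists
  obtain ⟨z', a1, a2⟩ := key k n n' h h' hm z hz
  exact ⟨z', a1, a2.trans_lt hk⟩

def Tg (n : {n // V X n}) (z : ℝ) : Prop :=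
  z ∈ T.Im n ∨ (n.1.s = 2 ∧ len n.1 ≤ z ∧ z ≤ len n.1 + 2 * xi n.1.m) ∨
    (n.1.s = 3 ∧ -(2 * xi n.1.m) ≤ z ∧ z ≤ 0)

lemma Tg_free {n : {n // V X n}} (h : n.1.s ≤ 1) {z : ℝ} (hz : T.Tg n z) : z ∈ T.Im n := by
  rcases hz with hz | hz | hz
  · exact hz
  · omega
  · omega

lemma transl (hc : IsClosed X) (k : ℕ) : ∀ n : {n // V X n}, ∀ y ∈ X, n.1.a ≤ y → y ≤ n.1.b →
    ∃ d : ℕ → Bool, ∀ e, T.Tg n (T.H n y + Sg k n.1.m e - Sg k n.1.m d) := by
  induction k with
  | zero => exact fun n y hy h1 h2 => ⟨fun _ => false, fun e => Or.inl ⟨y, ⟨hy, h1, h2⟩, by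
      simp [Sg]⟩⟩
  | succ k ih =>
    intro n y hy h1 h2
    have S := T.sp n
    have p := xi_pos n.1.m
    have hH0 := T.H_nonneg n y
    have hH1 := T.H_le n y
    have bd := fun e => Sg_bd (k + 1) n.1.m e
    have bd' : ∀ e, 0 ≤ Sg k (n.1.m + 1) e ∧ Sg k (n.1.m + 1) e ≤ xi n.1.m / 19 := by
      intro e
      have := Sg_bd k (n.1.m + 1) e
      rw [xi_succ] at this
      exact ⟨this.1, by linarith [this.2]⟩
    have s3 := n.2.s3
    by_cases hab : n.1.a < n.1.b
    swap
    · have e0 := len3 (two_le n hab) hab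
      have : n.1.s = 2 ∨ n.1.s = 3 := by have := two_le n hab; omega
      rcases this with s | s
      · refine ⟨fun _ => false, fun e => Or.inr (Or.inl ⟨s, ?_, ?_⟩)⟩ <;> rw [Sg_false] <;>
          linarith [(bd e).1, (bd e).2]
      · refine ⟨fun _ => true, fun e => Or.inr (Or.inr ⟨s, ?_, ?_⟩)⟩ <;>
          linarith [(bd e).1, (bd fun _ => true).2, Sg_le_true (k + 1) n.1.m e]
    -- the two recursive calls
    have L : y ≤ (T.l n).1.b → ∃ d : ℕ → Bool, ∀ e, T.Tg (T.l n)
        (T.H n y + Sg k (n.1.m + 1) e - Sg k (n.1.m + 1) d) := by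
      intro h
      rw [T.H_l n h, ← S.lm]
      exact ih (T.l n) y hy (by linarith [S.la]) h
    have R : (T.r n).1.a ≤ y → ∃ d : ℕ → Bool, ∀ e, T.Tg (T.r n)
        (T.H n y + Sg k (n.1.m + 1) e - Sg k (n.1.m + 1) d - (len n.1 - len (T.r n).1)) := by
      intro h
      obtain ⟨d, hd⟩ := ih (T.r n) y hy h (by linarith [S.rb])
      refine ⟨d, fun e => ?_⟩
      have := hd e
      rw [S.rm] at this
      rw [T.H_r n h]
      convert this using 1; ring
    have red : ∀ (b : Bool) (d : ℕ → Bool), (∀ (c : Bool) e, T.Tg n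
        (T.H n y + Sg k (n.1.m + 1) e - Sg k (n.1.m + 1) d + (dl c - dl b) * xi n.1.m)) →
        ∃ d : ℕ → Bool, ∀ e, T.Tg n (T.H n y + Sg (k + 1) n.1.m e - Sg (k + 1) n.1.m d) := by
      intro b d h
      refine ⟨fun j => Nat.casesOn j b d, fun e => ?_⟩
      rw [Sg_succ, Sg_succ]
      convert h (e 0) fun j => e (j + 1) using 1
      simp only [Nat.rec_zero]
      ring
    have d10 : dl true - dl false = 1 := by simp [dl]
    have d01 : dl false - dl true = -1 := by simp [dl]
    have : n.1.s = 0 ∨ n.1.s = 1 ∨ n.1.s = 2 ∨ n.1.s = 3 := by omega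
    rcases this with s | s | s | s
    · obtain ⟨c1, c2⟩ := S.c0 s
      have e1 : len n.1 - len (T.r n).1 = xi n.1.m := by
        rw [len0 s, len0 c2, S.rm, xi_succ]; ring
      rcases S.g1 (by omega) y hy h1 h2 with h | h
      · obtain ⟨d, hd⟩ := L h
        refine red false d fun c e => Or.inl ?_
        have := T.Tg_free (by omega) (hd e)
        cases c
        · simpa using T.Im_l n this
        · have := T.Im_r n (T.Im_c hc _ _ c1 c2 (by rw [S.lm, S.rm]) this)
          rw [e1] at this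
          convert this using 1; rw [d10]; ring
      · obtain ⟨d, hd⟩ := R h
        refine red true d fun c e => Or.inl ?_
        have := T.Tg_free (by omega) (hd e)
        cases c
        · have := T.Im_l n (T.Im_c hc _ _ c2 c1 (by rw [S.lm, S.rm]) this)
          rw [e1] at this
          convert this using 1; rw [d01]; ring
        · convert T.Im_r n this using 1; ring
    · obtain ⟨j1, j2, j3, _⟩ := S.j1 s
      have a1 := len_le2 (n := (T.l n).1) (by omega)
      have a2 := len_le2 (n := (T.r n).1) (by omega)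
      rw [S.lm, xi_succ] at a1
      rw [S.rm, xi_succ] at a2
      have a3 := len1 s
      have a4 := len_nonneg (T.l n).1
      have a5 := len_nonneg (T.r n).1
      by_cases hl : y ≤ (T.l n).1.b
      · obtain ⟨d, hd⟩ := L hl
        have hy' : T.H n y ≤ len (T.l n).1 := by rw [T.H_l n hl]; exact T.H_le _ _
        refine red false d fun c e => Or.inl ?_
        cases c
        · rw [sub_self, zero_mul, add_zero]
          rcases hd e with h | h | h
          · exact T.Im_l n h
          · rw [S.lm, xi_succ] at h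
            exact T.Im_j n s (Or.inr h.2.1) (Or.inl (by linarith [h.2.2]))
          · omega
        · rw [d10]
          exact T.Im_j n s (Or.inl (by linarith [(bd' e).1, (bd' d).2]))
            (Or.inl (by linarith [(bd' e).2, (bd' d).1]))
      by_cases hr : (T.r n).1.a ≤ y
      · obtain ⟨d, hd⟩ := R hr
        have hy' : len n.1 - len (T.r n).1 ≤ T.H n y := by
          rw [T.H_r n hr]; linarith [T.H_nonneg (T.r n) y]
        refine red true d fun c e => Or.inl ?_
        cases c
        · rw [d01]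
          exact T.Im_j n s (Or.inl (by linarith [(bd' e).1, (bd' d).2]))
            (Or.inl (by linarith [(bd' e).2, (bd' d).1]))
        · rw [sub_self, zero_mul, add_zero]
          rcases hd e with h | h | h
          · convert T.Im_r n h using 1; ring
          · omega
          · rw [S.rm, xi_succ] at h
            exact T.Im_j n s (Or.inl (by linarith [h.2.1])) (Or.inr (by linarith [h.2.2]))
      have m1 := T.H_mono n (not_le.1 hl).le
      have m2 := T.H_mono n (not_le.1 hr).le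
      rw [H_c] at m1
      rw [H_d] at m2
      by_cases hm : T.H n y ≤ 2 * xi n.1.m
      · refine ⟨fun _ => false, fun e => Or.inl ?_⟩
        rw [Sg_false]
        exact T.Im_j n s (Or.inr (by linarith [(bd e).1])) (Or.inl (by linarith [(bd e).2]))
      · refine ⟨fun _ => true, fun e => Or.inl ?_⟩
        exact T.Im_j n s (Or.inl (by linarith [(bd e).1, (bd fun _ => true).2]))
          (Or.inr (by linarith [Sg_le_true (k + 1) n.1.m e]))
    · obtain ⟨c1, c2⟩ := S.c2 s hab
      have a3 := len2 s.ge hab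
      have far : ∀ d e, T.Tg n (T.H n y + Sg k (n.1.m + 1) e - Sg k (n.1.m + 1) d +
          (dl true - dl false) * xi n.1.m) := fun d e => Or.inr (Or.inl ⟨s, by
        rw [d10]; linarith [(bd' e).1, (bd' d).2], by rw [d10]; linarith [(bd' e).2, (bd' d).1]⟩)
      rcases S.g1 (by omega) y hy h1 h2 with h | h
      · obtain ⟨d, hd⟩ := L h
        refine red false d fun c e => ?_
        cases c
        · left; simpa using T.Im_l n (T.Tg_free c1 (hd e))
        · exact far d e
      · obtain ⟨d, hd⟩ := R h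
        refine red false d fun c e => ?_
        cases c
        · rw [sub_self, zero_mul, add_zero]
          rcases hd e with h | h | h
          · left; convert T.Im_r n h using 1; ring
          · rw [S.rm, xi_succ] at h
            exact Or.inr (Or.inl ⟨s, by linarith [h.2.1], by linarith [h.2.2]⟩)
          · omega
        · exact far d e
    · obtain ⟨c1, c2⟩ := S.c3 s hab
      have a3 := len2 (by omega) hab
      have far : ∀ d e, T.Tg n (T.H n y + Sg k (n.1.m + 1) e - Sg k (n.1.m + 1) d +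
          (dl false - dl true) * xi n.1.m) := fun d e => Or.inr (Or.inr ⟨s, by
        rw [d01]; linarith [(bd' e).1, (bd' d).2], by rw [d01]; linarith [(bd' e).2, (bd' d).1]⟩)
      rcases S.g1 (by omega) y hy h1 h2 with h | h
      · obtain ⟨d, hd⟩ := L h
        refine red true d fun c e => ?_
        cases c
        · exact far d e
        · rw [sub_self, zero_mul, add_zero]
          rcases hd e with h | h | h
          · exact Or.inl (T.Im_l n h)
          · omega
          · rw [S.lm, xi_succ] at h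
            exact Or.inr (Or.inr ⟨s, by linarith [h.2.1], h.2.2⟩)
      · obtain ⟨d, hd⟩ := R h
        refine red true d fun c e => ?_
        cases c
        · exact far d e
        · left; convert T.Im_r n (T.Tg_free c2 (hd e)) using 1; ring

end Tr

noncomputable def Si (e : ℕ → Bool) : ℝ := ∑' j, dl (e j) * xi j

lemma xi_sum : Summable xi := summable_geometric_of_lt_one (by norm_num) (by norm_num)

lemma dl_bd (b : Bool) : 0 ≤ dl b ∧ dl b ≤ 1 := by cases b <;> simp [dl]

lemma Si_sum (e : ℕ → Bool) : Summable fun j => dl (e j) * xi j :=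
  Summable.of_nonneg_of_le (fun j => mul_nonneg (dl_bd _).1 (xi_pos j).le)
    (fun j => mul_le_of_le_one_left (xi_pos j).le (dl_bd _).2) xi_sum

lemma Sg_lim (e : ℕ → Bool) : Tendsto (fun k => Sg k 0 e) atTop (𝓝 (Si e)) := by
  simpa [Sg, Si] using (Si_sum e).hasSum.tendsto_sum_nat

theorem main (X : Set ℝ) (hne : X.Nonempty) (hX : IsCompact X) (hp : Preperfect X) :
    ∃ H : ℝ → ℝ, Continuous H ∧ InjOn H X ∧ 0 ∈ H '' X ∧ (∀ x, 0 ≤ H x) ∧
      ∀ z ∈ H '' X, ∃ d, ∀ e, z + Si e - Si d ∈ H '' X := by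
  classical
  have hc := hX.isClosed
  obtain ⟨q, hq⟩ := TopologicalSpace.exists_dense_seq ℝ
  obtain ⟨a, ha, ha'⟩ := hX.exists_isLeast hne
  obtain ⟨b, hb, hb'⟩ := hX.exists_isGreatest hne
  have ar : AccR X a := by
    refine (acc_or hp ha).resolve_right fun h => ?_
    obtain ⟨x, hx, _, hx2⟩ := h (a - 1) (by linarith)
    linarith [ha' hx]
  have al : AccL X b := by
    refine (acc_or hp hb).resolve_left fun h => ?_
    obtain ⟨x, hx, hx2, _⟩ := h (b + 1) (by linarith)
    linarith [hb' hx]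
  have hab : a < b := by
    obtain ⟨x, hx, hx2, _⟩ := ar (a + 1) (by linarith)
    linarith [hb' hx]
  obtain ⟨s, hs, -, hV⟩ := free ha hb hab ar al 0
  choose l r i hl hr hS using fun n : {n // V X n} => step hc hp hq n.1 n.2
  let T : Tr X q := ⟨fun n => ⟨l n, hl n⟩, fun n => ⟨r n, hr n⟩, i, hS⟩
  let n : {n // V X n} := ⟨_, hV⟩
  have hI : T.Im n = T.H n '' X := by
    unfold Tr.Im
    have : X ⊆ Icc a b := fun x hx => ⟨ha' hx, hb' hx⟩
    rw [inter_eq_left.2 this]
  have hIc : IsClosed (T.H n '' X) := hI ▸ (T.Im_cpt hc n).isClosed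
  refine ⟨T.H n, T.H_cont n, StrictMonoOn.injOn fun x hx y hy hxy =>
    T.H_inj hc hq n hx hy (ha' hx) (hb' hy) hxy, ⟨a, ha, T.H_zero n le_rfl⟩, T.H_nonneg n, ?_⟩
  rintro _ ⟨y, hy, rfl⟩
  set D : ℕ → Set (ℕ → Bool) := fun k =>
    {d | ∀ e, T.H n y + Sg k 0 e - Sg k 0 d ∈ T.H n '' X} with hD
  have Dc : ∀ k, IsClosed (D k) := by
    intro k
    simp only [hD, setOf_forall]
    refine isClosed_iInter fun e => hIc.preimage (continuous_const.sub ?_)
    exact continuous_finset_sum _ fun j _ =>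
      ((continuous_of_discreteTopology (f := dl)).comp (continuous_apply j)).mul continuous_const
  obtain ⟨d, hd⟩ := IsCompact.nonempty_iInter_of_sequence_nonempty_isCompact_isClosed D
    (fun k d hd e => by
      have := hd (Function.update e k (d k))
      simp only [Sg, Finset.sum_range_succ, Function.update_self] at this
      convert this using 1
      rw [Finset.sum_congr rfl (g := fun j => dl (e j) * xi (0 + j)) fun j hj => by
        rw [Function.update_of_ne (Finset.mem_range.1 hj).ne]]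
      simp only [Sg]
      ring)
    (fun k => by
      obtain ⟨d, hd⟩ := T.transl hc k n y hy (ha' hy) (hb' hy)
      exact ⟨d, fun e => hI ▸ T.Tg_free hs (hd e)⟩)
    (Dc 0).isCompact Dc
  exact ⟨d, fun e => hIc.mem_of_tendsto ((tendsto_const_nhds.add (Sg_lim e)).sub (Sg_lim d))
    (Eventually.of_forall fun k => mem_iInter.1 hd k e)⟩

end Pool.Agent.H2.Su
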