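import Mathlib

open MeasureTheory Set Filter Topology
open scoped ENNReal CompactlySupported

namespace Pool.Agent.H2.Sx

section Dep

variable {I : Type}

open Classical in
/-- Keep the coordinates in `D`, put `0` elsewhere. -/
noncomputable def rst (D : Set I) (t : I → ℕ) : I → ℕ := fun i => if i ∈ D then t i else 0

lemma continuous_rst (D : Set I) : Continuous (rst D) := by
  refine continuous_pi fun i => ?_
  unfold rst
  by_cases h : i ∈ D
  · simp only [h, if_true]; exact continuous_apply i
  · simp only [h, if_false]; exact continuous_const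

lemma countable_finsupp {D : Set I} (hD : D.Countable) :
    {y : I → ℕ | (Function.support y).Finite ∧ Function.support y ⊆ D}.Countable := by
  have h1 := Set.countable_setOf_finite_subset hD
  have h2 : ∀ S : Set I, S.Finite → {y : I → ℕ | Function.support y ⊆ S}.Countable := by
    intro S hS
    have := hS.to_subtype
    have hinj : Set.InjOn (fun (y : I → ℕ) (i : S) => y i) {y | Function.support y ⊆ S} := by
      intro y hy z hz h
      funext i
      by_cases hi : i ∈ S
      · exact congrFun h ⟨i, hi⟩
      · have h1 : y i = 0 := by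
          by_contra hne
          exact hi (hy hne)
        have h2 : z i = 0 := by
          by_contra hne
          exact hi (hz hne)
        rw [h1, h2]
    exact Set.countable_of_injective_of_countable_image hinj (Set.to_countable _)
  refine (h1.biUnion fun S hS => h2 S hS.1).mono ?_
  intro y hy
  simp only [mem_iUnion]
  exact ⟨Function.support y, ⟨hy.1, hy.2⟩, fun _ h => h⟩

lemma exists_finset_near {g : (I → ℕ) → ℝ} (hg : Continuous g) (y : I → ℕ) (n : ℕ) :
    ∃ F : Set I, F.Finite ∧ ∀ t : I → ℕ, (∀ i ∈ F, t i = y i) → |g t - g y| < 1 / (n + 1) := by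
  have hpos : (0 : ℝ) < 1 / (n + 1) := by positivity
  have h1 : g ⁻¹' Metric.ball (g y) (1 / (n + 1)) ∈ 𝓝 y :=
    hg.continuousAt.preimage_mem_nhds (Metric.ball_mem_nhds _ hpos)
  rw [nhds_pi, Filter.mem_pi] at h1
  obtain ⟨F, hF, s, hs, hsub⟩ := h1
  refine ⟨F, hF, fun t ht => ?_⟩
  have : t ∈ F.pi s := fun i hi => by
    rw [ht i hi]
    exact mem_of_mem_nhds (hs i)
  have := hsub this
  simpa [Real.dist_eq] using this

lemma exists_countable_dep {g : (I → ℕ) → ℝ} (hg : Continuous g) :
    ∃ D : Set I, D.Countable ∧ ∀ t, g t = g (rst D t) := by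
  classical
  choose F hF hFg using exists_finset_near hg
  let step : Set I → Set I := fun D =>
    D ∪ ⋃ y ∈ {y : I → ℕ | (Function.support y).Finite ∧ Function.support y ⊆ D}, ⋃ n, F y n
  let Dk : ℕ → Set I := fun k => step^[k] ∅
  have hsucc : ∀ k, Dk (k + 1) = step (Dk k) := fun k => Function.iterate_succ_apply' _ _ _
  have hc : ∀ k, (Dk k).Countable := by
    intro k
    induction k with
    | zero => exact countable_empty
    | succ k ih =>
      rw [hsucc]
      exact ih.union ((countable_finsupp ih).biUnion fun y _ =>
        countable_iUnion fun n => (hF y n).countable)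
  have hmono : Monotone Dk := monotone_nat_of_le_succ fun k => by
    rw [hsucc]; exact subset_union_left
  refine ⟨⋃ k, Dk k, countable_iUnion hc, ?_⟩
  set D := ⋃ k, Dk k with hD
  have hfin : ∀ y : I → ℕ, (Function.support y).Finite → g y = g (rst D y) := by
    intro y hy
    have hs : Function.support (rst D y) ⊆ Function.support y ∩ D := by
      intro i hi
      simp only [Function.mem_support, rst] at hi
      by_cases h : i ∈ D
      · simp only [h, if_true] at hi
        exact ⟨hi, h⟩
      · simp [h] at hi
    have hfin' : (Function.support (rst D y)).Finite := hy.subset fun i hi => (hs hi).1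
    obtain ⟨k, hk⟩ : ∃ k, Function.support (rst D y) ⊆ Dk k := by
      have hsub : Function.support (rst D y) ⊆ ⋃ k, Dk k := fun i hi => (hs hi).2
      exact (hmono.directed_le).exists_mem_subset_of_finset_subset_biUnion
        (s := hfin'.toFinset) (by simpa using hsub) |>.imp fun k hk => by simpa using hk
    have hn : ∀ n : ℕ, |g y - g (rst D y)| < 1 / (n + 1) := by
      intro n
      refine hFg (rst D y) n y fun i hi => ?_
      have : i ∈ D := by
        refine mem_iUnion.2 ⟨k + 1, ?_⟩
        rw [hsucc]
        refine Or.inr ?_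
        simp only [mem_iUnion]
        exact ⟨rst D y, ⟨hfin', hk⟩, n, hi⟩
      simp [rst, this]
    by_contra hne
    have hpos : 0 < |g y - g (rst D y)| := abs_pos.2 (sub_ne_zero.2 hne)
    obtain ⟨n, hn'⟩ := exists_nat_one_div_lt hpos
    exact absurd (hn n) (not_lt.2 hn'.le)
  have hdense : Dense {y : I → ℕ | (Function.support y).Finite} := by
    intro t
    rw [mem_closure_iff_nhds]
    intro U hU
    rw [nhds_pi, Filter.mem_pi] at hU
    obtain ⟨S, hS, s, hs, hsub⟩ := hU
    refine ⟨rst S t, hsub fun i hi => ?_, hS.subset fun i hi => ?_⟩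
    · simp only [rst, hi, if_true]
      exact mem_of_mem_nhds (hs i)
    · by_contra h
      simp [rst, h] at hi
  have := Continuous.ext_on hdense hg (hg.comp (continuous_rst D)) fun y hy => hfin y hy
  exact fun t => congrFun this t

lemma measurable_of_cont {g : (I → ℕ) → ℝ} (hg : Continuous g) : Measurable g := by
  classical
  obtain ⟨D, hD, h⟩ := exists_countable_dep hg
  have := hD.to_subtype
  let e : (D → ℕ) → (I → ℕ) := fun u i => if h : i ∈ D then u ⟨i, h⟩ else 0
  have he : Continuous e := by
    refine continuous_pi fun i => ?_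
    by_cases h : i ∈ D
    · simp only [e, h, dif_pos]; exact continuous_apply _
    · simp only [e, h, dif_neg, not_false_iff]; exact continuous_const
  have hm : Measurable (g ∘ e) := (hg.comp he).measurable
  have hr : Measurable fun (t : I → ℕ) (i : D) => t i :=
    measurable_pi_lambda _ fun i => measurable_pi_apply _
  have : g = (g ∘ e) ∘ fun (t : I → ℕ) (i : D) => t i := by
    funext t
    rw [h t]
    simp only [Function.comp_apply]
    congr 1
  rw [this]
  exact hm.comp hr

end Dep

section Lift

lemma integrable_of_bdd {T : Type*} [MeasurableSpace T] (y : Measure T) [IsFiniteMeasure y]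
    {h : T → ℝ} (hm : Measurable h) {C : ℝ} (hC : ∀ t, |h t| ≤ C) : Integrable h y :=
  Integrable.of_bound hm.aestronglyMeasurable C (Eventually.of_forall hC)

lemma exists_lift {I Z : Type} [TopologicalSpace Z] [T2Space Z] [CompactSpace Z]
    [MeasurableSpace Z] [BorelSpace Z] {j : (I → ℕ) → Z} (hj : Continuous j)
    (y : Measure (I → ℕ)) [IsProbabilityMeasure y] :
    ∃ ν : Measure Z, ν.Regular ∧ IsProbabilityMeasure ν ∧
      ∀ f : Z → ℝ, Continuous f → ∫ z, f z ∂ν = ∫ t, f (j t) ∂y := by
  have hint : ∀ f : Z → ℝ, Continuous f → Integrable (fun t => f (j t)) y := by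
    intro f hf
    obtain ⟨C, hC⟩ := (isCompact_range hf).isBounded.exists_norm_le
    exact integrable_of_bdd y (measurable_of_cont (hf.comp hj)) (C := C)
      fun t => hC _ (mem_range_self _)
  let Λ : C_c(Z, ℝ) →ₚ[ℝ] ℝ :=
  { toFun g := ∫ t, g (j t) ∂y
    map_add' g g' := integral_add (hint g g.continuous) (hint g' g'.continuous)
    map_smul' c g := integral_smul c fun t => g (j t)
    monotone' g g' hgg' := integral_mono (hint g g.continuous) (hint g' g'.continuous)
      fun t => hgg' (j t) }
  have key : ∀ f : Z → ℝ, Continuous f →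
      ∫ z, f z ∂(RealRMK.rieszMeasure Λ) = ∫ t, f (j t) ∂y := by
    intro f hf
    let g' : C_c(Z, ℝ) :=
    { toFun := f
      continuous_toFun := hf
      hasCompactSupport' := HasCompactSupport.of_compactSpace _ }
    exact RealRMK.integral_rieszMeasure Λ g'
  refine ⟨RealRMK.rieszMeasure Λ, by infer_instance, ?_, key⟩
  have h1 := key (fun _ => 1) continuous_const
  simp only [integral_const, smul_eq_mul, mul_one, probReal_univ] at h1
  exact isProbabilityMeasure_iff_real.2 h1

end Lift

end Pool.Agent.H2.Sx
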