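import Pool.Agent.H2.SxA

open MeasureTheory Set Filter Topology
open scoped ENNReal

namespace Pool.Agent.H2.Sx

/-- One-coordinate test functions. -/
noncomputable def bb (m k n : ℕ) : ℝ :=
  if n ≤ k + 1 then (if n = m then 1 else 0) else (if m ≤ 1 then 1 / 2 else 0)

lemma bb_nonneg (m k n : ℕ) : 0 ≤ bb m k n := by
  unfold bb; split_ifs <;> norm_num

lemma bb_le_one (m k n : ℕ) : bb m k n ≤ 1 := by
  unfold bb; split_ifs <;> norm_num

/-- Index set of the test functions. -/
abbrev JJ (I : Type) : Type := Finset I × (I → ℕ) × ℕ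

variable {I : Type}

/-- Test functions on `I → ℕ`. -/
noncomputable def test (j : JJ I) (t : I → ℕ) : ℝ := ∏ i ∈ j.1, bb (j.2.1 i) j.2.2 (t i)

lemma test_nonneg (j : JJ I) (t : I → ℕ) : 0 ≤ test j t :=
  Finset.prod_nonneg fun _ _ => bb_nonneg _ _ _

lemma test_le_one (j : JJ I) (t : I → ℕ) : test j t ≤ 1 :=
  Finset.prod_le_one (fun _ _ => bb_nonneg _ _ _) fun _ _ => bb_le_one _ _ _

lemma abs_test_le (j : JJ I) (t : I → ℕ) : |test j t| ≤ 1 := by
  rw [abs_of_nonneg (test_nonneg j t)]; exact test_le_one j t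

lemma continuous_test (j : JJ I) : Continuous (test j) := by
  unfold test
  refine continuous_finset_prod _ fun i _ => ?_
  exact (continuous_of_discreteTopology (f := bb (j.2.1 i) j.2.2)).comp (continuous_apply i)

lemma measurable_test (j : JJ I) : Measurable (test j) := measurable_of_cont (continuous_test j)

/-- Bounded measurable functions. -/
def Good (h : (I → ℕ) → ℝ) : Prop := Measurable h ∧ ∃ C, ∀ t, |h t| ≤ C

lemma Good.integrable {h : (I → ℕ) → ℝ} (hh : Good h) (y : Measure (I → ℕ))
    [IsFiniteMeasure y] : Integrable h y := by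
  obtain ⟨hm, C, hC⟩ := hh
  exact integrable_of_bdd y hm hC

lemma good_test (j : JJ I) : Good (test j) := ⟨measurable_test j, 1, abs_test_le j⟩

lemma good_indicator {B : Set (I → ℕ)} (hB : MeasurableSet B) :
    Good (B.indicator fun _ => (1 : ℝ)) := by
  refine ⟨measurable_const.indicator hB, 1, fun t => ?_⟩
  by_cases h : t ∈ B <;> simp [h]

lemma Good.smul {h : (I → ℕ) → ℝ} (hh : Good h) (c : ℝ) : Good (c • h) := by
  obtain ⟨hm, C, hC⟩ := hh
  refine ⟨hm.const_smul c, |c| * C, fun t => ?_⟩
  simp only [Pi.smul_apply, smul_eq_mul, abs_mul]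
  exact mul_le_mul_of_nonneg_left (hC t) (abs_nonneg c)

lemma good_simple (f : SimpleFunc (I → ℕ) ℝ) : Good f := by
  refine ⟨f.measurable, ?_⟩
  obtain ⟨C, hC⟩ := f.finite_range.isBounded.exists_norm_le
  exact ⟨C, fun t => hC _ (mem_range_self t)⟩

/-- Elementary cylinders. -/
def cyl (F : Finset I) (s : I → ℕ) : Set (I → ℕ) := {t | ∀ i ∈ F, t i = s i}

lemma measurableSet_cyl (F : Finset I) (s : I → ℕ) : MeasurableSet (cyl F s) := by
  have : cyl F s = ⋂ i ∈ F, (fun t : I → ℕ => t i) ⁻¹' {s i} := by
    ext t; simp [cyl]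
  rw [this]
  exact F.measurableSet_biInter fun i _ => measurable_pi_apply i (measurableSet_singleton _)

lemma isPiSystem_cyl : IsPiSystem {B : Set (I → ℕ) | ∃ F s, B = cyl F s} := by
  classical
  rintro _ ⟨F, s, rfl⟩ _ ⟨G, r, rfl⟩ ⟨w, hw1, hw2⟩
  refine ⟨F ∪ G, w, ?_⟩
  ext t
  simp only [cyl, mem_inter_iff, mem_setOf_eq, Finset.mem_union]
  constructor
  · rintro ⟨h1, h2⟩ i (hi | hi)
    · rw [h1 i hi, hw1 i hi]
    · rw [h2 i hi, hw2 i hi]
  · intro h
    exact ⟨fun i hi => by rw [h i (Or.inl hi), hw1 i hi],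
      fun i hi => by rw [h i (Or.inr hi), hw2 i hi]⟩

lemma pi_eq_generateFrom : (MeasurableSpace.pi : MeasurableSpace (I → ℕ)) =
    MeasurableSpace.generateFrom {B : Set (I → ℕ) | ∃ F s, B = cyl F s} := by
  apply le_antisymm
  · have : ∀ i, Measurable[MeasurableSpace.generateFrom {B : Set (I → ℕ) | ∃ F s, B = cyl F s}]
        fun t : I → ℕ => t i := by
      intro i
      refine @measurable_to_countable' _ _ _ _ (MeasurableSpace.generateFrom _) _ fun n => ?_
      refine MeasurableSpace.measurableSet_generateFrom ⟨{i}, fun _ => n, ?_⟩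
      ext t; simp [cyl]
    refine iSup_le fun i => ?_
    exact (this i).comap_le
  · refine MeasurableSpace.generateFrom_le ?_
    rintro _ ⟨F, s, rfl⟩
    exact measurableSet_cyl F s

lemma tendsto_test (F : Finset I) (s t : I → ℕ) :
    Tendsto (fun k => test (F, s, k) t) atTop (𝓝 ((cyl F s).indicator (fun _ => (1 : ℝ)) t)) := by
  classical
  refine tendsto_const_nhds.congr' ?_
  filter_upwards [eventually_ge_atTop (F.sup t)] with k hk
  have h1 : test (F, s, k) t = ∏ i ∈ F, if t i = s i then (1 : ℝ) else 0 := by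
    unfold test
    refine Finset.prod_congr rfl fun i hi => ?_
    have : t i ≤ k + 1 := ((Finset.le_sup hi).trans hk).trans (Nat.le_succ k)
    simp [bb, this]
  rw [h1, Finset.prod_ite_zero]
  by_cases h : t ∈ cyl F s
  · have h' : ∀ i ∈ F, t i = s i := h
    rw [indicator_of_mem h, if_pos h']; simp
  · have h' : ¬ ∀ i ∈ F, t i = s i := h
    rw [indicator_of_notMem h, if_neg h']

lemma mono_class {P : ((I → ℕ) → ℝ) → Prop} (hT : ∀ j, P (test j))
    (hadd : ∀ f g, Good f → Good g → P f → P g → P (f + g))
    (hsmul : ∀ (c : ℝ) f, Good f → P f → P (c • f))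
    (hlim : ∀ (f : ℕ → (I → ℕ) → ℝ) (g : (I → ℕ) → ℝ) (C : ℝ), (∀ n, Measurable (f n)) →
      (∀ n t, |f n t| ≤ C) → (∀ n, P (f n)) →
      (∀ t, Tendsto (fun n => f n t) atTop (𝓝 (g t))) → P g)
    {h : (I → ℕ) → ℝ} (hh : Good h) : P h := by
  classical
  have hzero : P fun _ => 0 := by
    have := hsmul 0 _ (good_test (∅, 0, 0)) (hT _)
    rw [zero_smul] at this
    exact this
  have hone : P fun _ => 1 := by
    have := hT (∅, 0, 0)
    have e : test ((∅, 0, 0) : JJ I) = fun _ => 1 := by
      funext t; simp [test]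
    rwa [e] at this
  have hind : ∀ B : Set (I → ℕ), MeasurableSet B → P (B.indicator fun _ => (1 : ℝ)) := by
    intro B hB
    induction B, hB using MeasurableSpace.induction_on_inter pi_eq_generateFrom isPiSystem_cyl with
    | empty => simpa using hzero
    | basic B hB =>
      obtain ⟨F, s, rfl⟩ := hB
      exact hlim (fun k => test (F, s, k)) _ 1 (fun k => measurable_test _)
        (fun k t => abs_test_le _ t) (fun k => hT _) (tendsto_test F s)
    | compl B hB ih =>
      have h1 := hadd _ _ ⟨measurable_const, 1, fun _ => by simp⟩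
        ((good_indicator hB).smul (-1)) hone (hsmul (-1) _ (good_indicator hB) ih)
      convert h1 using 1
      funext t
      by_cases ht : t ∈ B <;> simp [ht]
    | iUnion f hd hm ih =>
      let A : ℕ → Set (I → ℕ) := fun n => ⋃ i ∈ Finset.range n, f i
      have hA : ∀ n, MeasurableSet (A n) := fun n =>
        (Finset.range n).measurableSet_biUnion fun i _ => hm i
      have hPA : ∀ n, P ((A n).indicator fun _ => (1 : ℝ)) := by
        intro n
        induction n with
        | zero => simpa [A] using hzero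
        | succ n ihn =>
          have hdis : Disjoint (A n) (f n) := by
            simp only [A, disjoint_iUnion₂_left]
            intro i hi
            exact hd (Finset.mem_range.1 hi).ne
          have e : A (n + 1) = A n ∪ f n := by
            simp only [A, Finset.range_add_one, Finset.set_biUnion_insert, union_comm]
          rw [e, indicator_union_of_disjoint hdis]
          exact hadd _ _ (good_indicator (hA n)) (good_indicator (hm n)) ihn (ih n)
      refine hlim (fun n => (A n).indicator fun _ => (1 : ℝ)) _ 1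
        (fun n => measurable_const.indicator (hA n)) (fun n t => ?_) hPA fun t => ?_
      · by_cases ht : t ∈ A n <;> simp [ht]
      · refine tendsto_const_nhds.congr' ?_
        by_cases ht : t ∈ ⋃ i, f i
        · obtain ⟨i, hi⟩ := mem_iUnion.1 ht
          filter_upwards [eventually_gt_atTop i] with n hn
          have : t ∈ A n := mem_iUnion₂.2 ⟨i, Finset.mem_range.2 hn, hi⟩
          rw [indicator_of_mem ht, indicator_of_mem this]
        · refine Eventually.of_forall fun n => ?_
          have : t ∉ A n := fun h => by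
            obtain ⟨i, _, hi⟩ := mem_iUnion₂.1 h
            exact ht (mem_iUnion.2 ⟨i, hi⟩)
          simp only [indicator_of_notMem ht, indicator_of_notMem this]
  have hsimple : ∀ f : SimpleFunc (I → ℕ) ℝ, P f := by
    intro f
    induction f using SimpleFunc.induction with
    | const c hs =>
      have := hsmul c _ (good_indicator hs) (hind _ hs)
      convert this using 1
      funext t
      rename_i s
      by_cases ht : t ∈ s <;> simp [ht]
    | add _ hf hg =>
      rw [SimpleFunc.coe_add]
      exact hadd _ _ (good_simple _) (good_simple _) hf hg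
  obtain ⟨hm, C, hC⟩ := hh
  have hC0 : 0 ≤ C := (abs_nonneg _).trans (hC 0)
  have hs := hm.stronglyMeasurable
  exact hlim (fun n => hs.approxBounded C n) h C (fun n => (hs.approxBounded C n).measurable)
    (fun n t => hs.norm_approxBounded_le hC0 n t) (fun n => hsimple _)
    fun t => hs.tendsto_approxBounded_of_norm_le (hC t)

lemma tendsto_integral_bdd (y : Measure (I → ℕ)) [IsFiniteMeasure y]
    {f : ℕ → (I → ℕ) → ℝ} {g : (I → ℕ) → ℝ} {C : ℝ} (hm : ∀ n, Measurable (f n))
    (hC : ∀ n t, |f n t| ≤ C) (hl : ∀ t, Tendsto (fun n => f n t) atTop (𝓝 (g t))) :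
    Tendsto (fun n => ∫ t, f n t ∂y) atTop (𝓝 (∫ t, g t ∂y)) :=
  tendsto_integral_of_dominated_convergence (fun _ => C) (fun n => (hm n).aestronglyMeasurable)
    (integrable_const C) (fun n => Eventually.of_forall (hC n)) (Eventually.of_forall hl)

lemma integral_indicator_real {B : Set (I → ℕ)} (hB : MeasurableSet B) (y : Measure (I → ℕ)) :
    ∫ t, B.indicator (fun _ => (1 : ℝ)) t ∂y = y.real B := integral_indicator_one hB

lemma eq_of_test {y₁ y₂ : Measure (I → ℕ)} [IsFiniteMeasure y₁] [IsFiniteMeasure y₂]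
    (h : ∀ j, ∫ t, test j t ∂y₁ = ∫ t, test j t ∂y₂) : y₁ = y₂ := by
  have key : ∀ f, Good f → ∫ t, f t ∂y₁ = ∫ t, f t ∂y₂ := by
    intro f hf
    refine mono_class (P := fun f => ∫ t, f t ∂y₁ = ∫ t, f t ∂y₂) h ?_ ?_ ?_ hf
    · intro f g hf hg h1 h2
      simp only [Pi.add_apply]
      rw [integral_add (hf.integrable _) (hg.integrable _),
        integral_add (hf.integrable _) (hg.integrable _), h1, h2]
    · intro c f hf h1
      simp only [Pi.smul_apply, integral_smul, h1]
    · intro f g C hm hC hP hl
      refine tendsto_nhds_unique (tendsto_integral_bdd y₁ hm hC hl) ?_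
      simp only [hP]
      exact tendsto_integral_bdd y₂ hm hC hl
  ext B hB
  have := key _ (good_indicator hB)
  rw [integral_indicator_real hB, integral_indicator_real hB] at this
  exact (measureReal_eq_measureReal_iff (measure_ne_top _ _) (measure_ne_top _ _)).1 this

end Pool.Agent.H2.Sx
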