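import Mathlib

open MeasureTheory Set Filter Topology

namespace Pool.Agent.H2.Sx

/-- Baire functions: members of the smallest family of real functions that contains all
continuous functions and is closed under pointwise limits of sequences. -/
def IsBaire {Z : Type*} [TopologicalSpace Z] (h : Z → ℝ) : Prop :=
  ∀ S : Set (Z → ℝ), (∀ f : Z → ℝ, Continuous f → f ∈ S) →
    (∀ (f : ℕ → Z → ℝ) (g : Z → ℝ), (∀ n, f n ∈ S) →
      (∀ z, Tendsto (fun n => f n z) atTop (𝓝 (g z))) → g ∈ S) → h ∈ S

variable {E : Type*} [AddCommGroup E] [Module ℝ E] [TopologicalSpace E]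

/-- Radon probability measures on `X`: Borel probability measures that are inner regular with
respect to compact sets. -/
def IsRadonProb (X : Set E) (μ : @Measure X (borel X)) : Prop :=
  @IsProbabilityMeasure X (borel X) μ ∧ @Measure.InnerRegular X (borel X) _ μ

/-- `x` is the barycenter of `μ`. -/
def IsBary (X : Set E) (μ : @Measure X (borel X)) (x : E) : Prop :=
  ∀ l : E →L[ℝ] ℝ, ∫ z : X, l z ∂μ = l x

/-- The Choquet ordering. -/
def ChoquetLE (X : Set E) (μ ν : @Measure X (borel X)) : Prop :=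
  ∀ f : E → ℝ, ConvexOn ℝ X f → ContinuousOn f X → ∫ z : X, f z ∂μ ≤ ∫ z : X, f z ∂ν

/-- Radon probability measures maximal in the Choquet ordering. -/
def IsMaximal (X : Set E) (μ : @Measure X (borel X)) : Prop :=
  IsRadonProb X μ ∧ ∀ ν, IsRadonProb X ν → ChoquetLE X μ ν → ν = μ

/-- Every point is the barycenter of exactly one maximal Radon probability measure. -/
def IsSimplex (X : Set E) : Prop :=
  ∀ x ∈ X, ∃! μ : @Measure X (borel X), IsMaximal X μ ∧ IsBary X μ x

/-- Affine real functions on `X`. -/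
def IsAffineFn (X : Set E) (f : X → ℝ) : Prop :=
  ∀ (x y z : X) (a : ℝ), 0 ≤ a → a ≤ 1 → (z : E) = a • (x : E) + (1 - a) • (y : E) →
    f z = a * f x + (1 - a) * f y

/-- The affine Baire extension property. -/
def HasABE (X : Set E) : Prop :=
  ∀ g : X.extremePoints ℝ → ℝ, Continuous g → (∃ C, ∀ e, |g e| ≤ C) →
    ∃ f : X → ℝ, IsAffineFn X f ∧ IsBaire f ∧
      ∀ e : X.extremePoints ℝ, f ⟨e, extremePoints_subset e.2⟩ = g e

end Pool.Agent.H2.Sx
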