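import Pool.Agent.H2.SxB
import Pool.Agent.H2.SxDefs

open MeasureTheory Set Filter Topology ProbabilityTheory
open scoped ENNReal CompactlySupported

namespace Pool.Agent.H2.Sx

section Baire

variable {Z : Type*} [TopologicalSpace Z]

lemma IsBaire.of_cont {f : Z → ℝ} (hf : Continuous f) : IsBaire f := fun _ h _ => h f hf

lemma IsBaire.lim {f : ℕ → Z → ℝ} {g : Z → ℝ} (hf : ∀ n, IsBaire (f n))
    (hl : ∀ z, Tendsto (fun n => f n z) atTop (𝓝 (g z))) : IsBaire g :=
  fun S h1 h2 => h2 f g (fun n => hf n S h1 h2) hl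

lemma IsBaire.smul {f : Z → ℝ} (hf : IsBaire f) (c : ℝ) : IsBaire fun z => c * f z := by
  refine hf {f | IsBaire fun z => c * f z} (fun f hf => ?_) fun f g hf hl => ?_
  · exact IsBaire.of_cont (continuous_const.mul hf)
  · exact IsBaire.lim (f := fun n z => c * f n z) hf fun z => (hl z).const_mul c

lemma IsBaire.add {f g : Z → ℝ} (hf : IsBaire f) (hg : IsBaire g) :
    IsBaire fun z => f z + g z := by
  refine hf {f | IsBaire fun z => f z + g z} (fun f hf => ?_) fun f g' hf hl => ?_
  · refine hg {g | IsBaire fun z => f z + g z} (fun g hg => ?_) fun g g' hg hl => ?_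
    · exact IsBaire.of_cont (hf.add hg)
    · exact IsBaire.lim (f := fun n z => f z + g n z) hg fun z => (hl z).const_add _
  · exact IsBaire.lim (f := fun n z => f n z + g z) hf fun z => (hl z).add_const _

lemma IsBaire.measurable [MeasurableSpace Z] [OpensMeasurableSpace Z] {f : Z → ℝ}
    (hf : IsBaire f) : Measurable f := by
  refine hf {f | Measurable f} (fun f hf => hf.measurable) fun f g hf hl => ?_
  exact measurable_of_tendsto_metrizable hf (tendsto_pi_nhds.2 hl)

end Baire

section Compact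

variable {Z : Type} [TopologicalSpace Z] [CompactSpace Z]

lemma good_comp {I : Type} {j : (I → ℕ) → Z} (hj : Continuous j) {f : Z → ℝ}
    (hf : Continuous f) : Good fun t => f (j t) := by
  obtain ⟨C, hC⟩ := (isCompact_range hf).isBounded.exists_norm_le
  exact ⟨measurable_of_cont (hf.comp hj), C, fun t => hC _ (mem_range_self _)⟩

variable [MeasurableSpace Z] [BorelSpace Z]

lemma int_cont (μ : Measure Z) [IsFiniteMeasure μ] {f : Z → ℝ} (hf : Continuous f) :
    Integrable f μ := by
  obtain ⟨C, hC⟩ := (isCompact_range hf).isBounded.exists_norm_le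
  exact integrable_of_bdd μ hf.measurable (C := C) fun t => hC _ (mem_range_self _)

lemma cont_int (μ : Measure Z) [IsProbabilityMeasure μ] :
    Continuous fun f : C(Z, ℝ) => ∫ z, f z ∂μ := by
  refine LipschitzWith.continuous (K := 1) (LipschitzWith.of_dist_le_mul fun f g => ?_)
  rw [dist_eq_norm, ← integral_sub (int_cont μ f.continuous) (int_cont μ g.continuous)]
  have := norm_integral_le_of_norm_le_const (μ := μ) (f := fun z => f z - g z) (C := dist f g)
    (ae_of_all _ fun z => by
      rw [← dist_eq_norm]; exact ContinuousMap.dist_apply_le_dist z)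
  simpa using this

end Compact

section Simplex

variable {E : Type} [AddCommGroup E] [Module ℝ E] [TopologicalSpace E]
  [IsTopologicalAddGroup E] [ContinuousSMul ℝ E] [LocallyConvexSpace ℝ E] [T2Space E]
  {X : Set E}

lemma exists_affine_minorant (hXc : IsCompact X) {f : E → ℝ} (hf : ConvexOn ℝ X f)
    (hc : ContinuousOn f X) {z : E} (hz : z ∈ X) {r : ℝ} (hr : r < f z) :
    ∃ (l : E →L[ℝ] ℝ) (c : ℝ), r < l z + c ∧ ∀ w ∈ X, l w + c ≤ f w := by
  have hcv : Convex ℝ {p : E × ℝ | p.1 ∈ X ∧ f p.1 ≤ p.2} := hf.convex_epigraph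
  have hcl : IsClosed {p : E × ℝ | p.1 ∈ X ∧ f p.1 ≤ p.2} := hXc.isClosed.epigraph hc
  obtain ⟨φ, u, h1, h2⟩ := geometric_hahn_banach_point_closed (x := (z, r)) hcv hcl
    (fun h => absurd h.2 (not_le.2 hr))
  have hφ : ∀ w s, φ (w, s) = φ (w, 0) + s * φ (0, 1) := by
    intro w s
    have : ((w, s) : E × ℝ) = (w, 0) + s • ((0 : E), (1 : ℝ)) := by simp
    rw [this, map_add, map_smul, smul_eq_mul]
  set a := φ (0, 1) with ha
  have h3 := h2 (z, f z) ⟨hz, le_rfl⟩
  rw [hφ] at h1 h3
  have hapos : 0 < a := by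
    by_contra hn
    push Not at hn
    nlinarith
  refine ⟨(-a⁻¹) • (φ.comp (ContinuousLinearMap.inl ℝ E ℝ)), u / a, ?_, fun w hw => ?_⟩
  · simp only [ContinuousLinearMap.smul_apply, ContinuousLinearMap.comp_apply,
      ContinuousLinearMap.inl_apply, smul_eq_mul]
    have : -a⁻¹ * φ (z, 0) + u / a = (u - φ (z, 0)) / a := by field_simp; ring
    rw [this, lt_div_iff₀ hapos]
    linarith
  · have h4 := h2 (w, f w) ⟨hw, le_rfl⟩
    rw [hφ] at h4
    simp only [ContinuousLinearMap.smul_apply, ContinuousLinearMap.comp_apply,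
      ContinuousLinearMap.inl_apply, smul_eq_mul]
    have : -a⁻¹ * φ (w, 0) + u / a = (u - φ (w, 0)) / a := by field_simp; ring
    rw [this, div_le_iff₀ hapos]
    linarith

lemma eq_of_convex (hXc : IsCompact X) (hXv : Convex ℝ X) [MeasurableSpace X] [BorelSpace X]
    {μ ν : Measure X} [IsProbabilityMeasure μ] [IsProbabilityMeasure ν]
    [μ.InnerRegular] [ν.InnerRegular]
    (h : ∀ f : E → ℝ, ConvexOn ℝ X f → ContinuousOn f X →
      ∫ z : X, f z ∂μ = ∫ z : X, f z ∂ν) : μ = ν := by
  have : CompactSpace X := isCompact_iff_compactSpace.1 hXc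
  let ex : (E →L[ℝ] ℝ) → C(X, ℝ) := fun l =>
    ⟨fun z => Real.exp (l z), Real.continuous_exp.comp (l.continuous.comp continuous_subtype_val)⟩
  let A : Subalgebra ℝ C(X, ℝ) := Algebra.adjoin ℝ (range ex)
  have hsep : A.SeparatesPoints := by
    intro x y hxy
    obtain ⟨l, hl⟩ := SeparatingDual.exists_separating_of_ne (R := ℝ)
      (fun e => hxy (Subtype.ext e) : (x : E) ≠ y)
    refine ⟨ex l, ⟨ex l, Algebra.subset_adjoin (mem_range_self l), rfl⟩, fun e => hl ?_⟩
    exact Real.exp_injective e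
  have htop := ContinuousMap.subalgebra_topologicalClosure_eq_top_of_separatesPoints A hsep
  have hM : ∀ g ∈ Submonoid.closure (range ex), g ∈ range ex := by
    intro g hg
    induction hg using Submonoid.closure_induction with
    | mem x hx => exact hx
    | one => exact ⟨0, by ext z; simp [ex]⟩
    | mul x y _ _ hx hy =>
      obtain ⟨l, rfl⟩ := hx
      obtain ⟨m, rfl⟩ := hy
      exact ⟨l + m, by ext z; simp [ex, Real.exp_add]⟩
  have hA : ∀ g ∈ A, ∫ z, g z ∂μ = ∫ z, g z ∂ν := by
    intro g hg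
    have hg' : g ∈ Submodule.span ℝ (Submonoid.closure (range ex) : Set C(X, ℝ)) := by
      rw [← Algebra.adjoin_eq_span]; exact hg
    clear hg
    induction hg' using Submodule.span_induction with
    | mem x hx =>
      obtain ⟨l, rfl⟩ := hM x hx
      refine h (fun w => Real.exp (l w)) ?_ ?_
      · exact (convexOn_exp.comp_linearMap (l : E →ₗ[ℝ] ℝ)).subset (fun _ _ => mem_univ _) hXv
      · exact (Real.continuous_exp.comp l.continuous).continuousOn
    | zero => simp
    | add x y _ _ hx hy =>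
      simp only [ContinuousMap.add_apply]
      rw [integral_add (int_cont μ x.continuous) (int_cont μ y.continuous),
        integral_add (int_cont ν x.continuous) (int_cont ν y.continuous), hx, hy]
    | smul c x _ hx =>
      simp only [ContinuousMap.smul_apply, integral_smul, hx]
  have hall : ∀ g : C(X, ℝ), ∫ z, g z ∂μ = ∫ z, g z ∂ν := by
    intro g
    have hcl : IsClosed {g : C(X, ℝ) | ∫ z, g z ∂μ = ∫ z, g z ∂ν} :=
      isClosed_eq (cont_int μ) (cont_int ν)
    have hg : g ∈ closure (A : Set C(X, ℝ)) := by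
      have : g ∈ A.topologicalClosure := by rw [htop]; trivial
      exact this
    exact hcl.closure_subset_iff.2 hA hg
  exact Measure.ext_of_integral_eq_on_compactlySupported fun f => hall f.toContinuousMap

theorem simplex_of {I : Type} (hXc : IsCompact X) (hXv : Convex ℝ X)
    (ι : (I → ℕ) → X) (hι : Continuous ι) (Y : X → Measure (I → ℕ))
    [∀ z, IsProbabilityMeasure (Y z)]
    (hB : ∀ h, Good h → IsBaire fun z => ∫ t, h t ∂Y z)
    (ha : ∀ (z : X) (l : E →L[ℝ] ℝ), ∫ t, l (ι t) ∂Y z = l z)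
    (hb : ∀ (y : Measure (I → ℕ)) [IsProbabilityMeasure y] (x : X),
      (∀ l : E →L[ℝ] ℝ, ∫ t, l (ι t) ∂y = l x) → y = Y x) : IsSimplex X := by
  letI : MeasurableSpace X := borel X
  have : BorelSpace X := ⟨rfl⟩
  have : CompactSpace X := isCompact_iff_compactSpace.1 hXc
  have hl : ∀ l : E →L[ℝ] ℝ, Continuous fun z : X => l z :=
    fun l => l.continuous.comp continuous_subtype_val
  have hYm : Measurable Y := by
    refine Measure.measurable_of_measurable_coe _ fun B hBm => ?_
    have h1 := (hB _ (good_indicator hBm)).measurable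
    simp only [integral_indicator_real hBm] at h1
    have h2 := h1.ennreal_ofReal
    simpa [Measure.real] using h2
  let κ : Kernel X (I → ℕ) := ⟨Y, hYm⟩
  have : IsMarkovKernel κ := ⟨fun z => (inferInstance : IsProbabilityMeasure (Y z))⟩
  have hcomp : ∀ (μ : Measure X) [IsProbabilityMeasure μ] (h : (I → ℕ) → ℝ), Good h →
      ∫ t, h t ∂(κ ∘ₘ μ) = ∫ z, ∫ t, h t ∂Y z ∂μ := by
    intro μ _ h hh
    have hi := hh.integrable (κ ∘ₘ μ)
    rw [Measure.comp_eq_comp_const_apply] at hi ⊢
    rw [Kernel.integral_comp hi]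
    rfl
  have jensen : ∀ f : E → ℝ, ConvexOn ℝ X f → ContinuousOn f X → ∀ z : X,
      f z ≤ ∫ t, f (ι t) ∂Y z := by
    intro f hf hc z
    refine le_of_forall_lt_imp_le_of_dense fun r hr => ?_
    obtain ⟨l, c, h1, h2⟩ := exists_affine_minorant hXc hf hc z.2 hr
    have hg : Good fun t => f (ι t) := good_comp hι hc.restrict
    have hgl : Good fun t => l (ι t) := good_comp hι (hl l)
    have h3 : ∫ t, (l (ι t) + c) ∂Y z ≤ ∫ t, f (ι t) ∂Y z :=
      integral_mono ((hgl.integrable _).add (integrable_const c)) (hg.integrable _)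
        fun t => h2 _ (ι t).2
    rw [integral_add (hgl.integrable _) (integrable_const c), ha] at h3
    simp only [integral_const, probReal_univ, smul_eq_mul, one_mul] at h3
    linarith
  have dom : ∀ (μ : Measure X) [IsProbabilityMeasure μ] (x : X), IsBary X μ x →
      ∀ f : E → ℝ, ConvexOn ℝ X f → ContinuousOn f X →
        ∫ z : X, f z ∂μ ≤ ∫ t, f (ι t) ∂Y x := by
    intro μ _ x hx f hf hc
    have e : κ ∘ₘ μ = Y x := by
      refine hb _ x fun l => ?_
      rw [hcomp μ _ (good_comp hι (hl l))]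
      simp only [ha]
      exact hx l
    have hg : Good fun t => f (ι t) := good_comp hι hc.restrict
    rw [← e, hcomp μ _ hg]
    obtain ⟨C, hC⟩ := hg.2
    refine integral_mono (int_cont μ hc.restrict) ?_ (jensen f hf hc)
    refine integrable_of_bdd μ (hB _ hg).measurable (C := C) fun z => ?_
    have := norm_integral_le_of_norm_le_const (μ := Y z) (f := fun t => f (ι t)) (C := C)
      (ae_of_all _ hC)
    simpa using this
  intro x hx
  obtain ⟨ν, hreg, hprob, hν⟩ := exists_lift hι (Y ⟨x, hx⟩)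
  have hνR : IsRadonProb X ν := ⟨hprob, inferInstance⟩
  have hνb : IsBary X ν x := fun l => by rw [hν _ (hl l), ha]
  have dom' : ∀ μ : Measure X, IsRadonProb X μ → IsBary X μ x → ChoquetLE X μ ν := by
    intro μ hμ hb f hf hc
    have := hμ.1
    have h1 := hν (fun z : X => f z) hc.restrict
    rw [h1]
    exact dom μ ⟨x, hx⟩ hb f hf hc
  refine ⟨ν, ⟨⟨hνR, fun ρ hρ hle => ?_⟩, hνb⟩, ?_⟩
  · have := hρ.1
    have := hρ.2
    have hρb : IsBary X ρ x := by
      intro l
      have h1 := hle l ((l : E →ₗ[ℝ] ℝ).convexOn hXv) l.continuous.continuousOn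
      have h2 := hle (-l) (((-l : E →L[ℝ] ℝ) : E →ₗ[ℝ] ℝ).convexOn hXv)
        (-l).continuous.continuousOn
      simp only [Pi.neg_apply, integral_neg] at h2
      rw [← hνb l]
      linarith
    exact eq_of_convex hXc hXv fun f hf hc =>
      le_antisymm (dom' ρ hρ hρb f hf hc) (hle f hf hc)
  · rintro μ ⟨⟨hμ, hmax⟩, hb⟩
    exact (hmax ν hνR (dom' μ hμ hb)).symm

end Simplex

end Pool.Agent.H2.Sx
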