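import Pool.Agent.H2.SxC

open MeasureTheory Set Filter Topology ProbabilityTheory
open scoped ENNReal

namespace Pool.Agent.H2.Sx

section Mix

variable {T : Type*} [MeasurableSpace T]

/-- Convex combination of two measures. -/
noncomputable def mix (a : ℝ) (y₁ y₂ : Measure T) : Measure T :=
  ENNReal.ofReal a • y₁ + ENNReal.ofReal (1 - a) • y₂

lemma mix_prob {a : ℝ} (h0 : 0 ≤ a) (h1 : a ≤ 1) (y₁ y₂ : Measure T) [IsProbabilityMeasure y₁]
    [IsProbabilityMeasure y₂] : IsProbabilityMeasure (mix a y₁ y₂) := by
  constructor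
  simp only [mix, Measure.coe_add, Measure.coe_smul, Pi.add_apply, Pi.smul_apply, measure_univ,
    smul_eq_mul, mul_one]
  rw [← ENNReal.ofReal_add h0 (by linarith)]
  simp

lemma integral_mix {a : ℝ} (h0 : 0 ≤ a) (h1 : a ≤ 1) {y₁ y₂ : Measure T} {h : T → ℝ}
    (i1 : Integrable h y₁) (i2 : Integrable h y₂) :
    ∫ t, h t ∂(mix a y₁ y₂) = a * ∫ t, h t ∂y₁ + (1 - a) * ∫ t, h t ∂y₂ := by
  unfold mix
  rw [integral_add_measure (i1.smul_measure ENNReal.ofReal_ne_top)
    (i2.smul_measure ENNReal.ofReal_ne_top), integral_smul_measure, integral_smul_measure,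
    ENNReal.toReal_ofReal h0, ENNReal.toReal_ofReal (by linarith)]
  rfl

end Mix

variable {I : Type}

/-- The moments of a measure along the test functions. -/
noncomputable def Phi (y : Measure (I → ℕ)) : JJ I → ℝ := fun j => ∫ t, test j t ∂y

/-- The compact convex set. -/
def XX (I : Type) : Set (JJ I → ℝ) :=
  {x | ∃ y : Measure (I → ℕ), IsProbabilityMeasure y ∧ Phi y = x}

lemma Phi_mix {a : ℝ} (h0 : 0 ≤ a) (h1 : a ≤ 1) (y₁ y₂ : Measure (I → ℕ))
    [IsProbabilityMeasure y₁] [IsProbabilityMeasure y₂] :
    Phi (mix a y₁ y₂) = a • Phi y₁ + (1 - a) • Phi y₂ := by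
  funext j
  exact integral_mix h0 h1 ((good_test j).integrable _) ((good_test j).integrable _)

lemma convex_XX : Convex ℝ (XX I) := by
  rintro _ ⟨y₁, h₁, rfl⟩ _ ⟨y₂, h₂, rfl⟩ a b ha hb hab
  have e : b = 1 - a := by linarith
  subst e
  exact ⟨mix a y₁ y₂, mix_prob ha (by linarith) _ _, Phi_mix ha (by linarith) _ _⟩

/-- Extension of `bb` to the one point compactification. -/
noncomputable def hb (m k : ℕ) (p : OnePoint ℕ) : ℝ :=
  p.elim (if m ≤ 1 then 1 / 2 else 0) (bb m k)

lemma continuous_hb (m k : ℕ) : Continuous (hb m k) := by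
  rw [OnePoint.continuous_iff_from_nat]
  refine tendsto_const_nhds.congr' ?_
  filter_upwards [eventually_gt_atTop (k + 1)] with n hn
  simp [hb, bb, not_le.2 hn]

/-- Test functions on the compactification. -/
noncomputable def testK (j : JJ I) (p : I → OnePoint ℕ) : ℝ :=
  ∏ i ∈ j.1, hb (j.2.1 i) j.2.2 (p i)

lemma continuous_testK (j : JJ I) : Continuous (testK j) := by
  unfold testK
  exact continuous_finset_prod _ fun i _ => (continuous_hb _ _).comp (continuous_apply i)

/-- A fair coin on `0, 1`. -/
noncomputable def coin : Measure ℕ := mix (1 / 2) (Measure.dirac 0) (Measure.dirac 1)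

lemma coin_prob : IsProbabilityMeasure coin := mix_prob (by norm_num) (by norm_num) _ _

lemma integral_coin (φ : ℕ → ℝ) : ∫ n, φ n ∂coin = (φ 0 + φ 1) / 2 := by
  unfold coin
  rw [integral_mix (by norm_num) (by norm_num) (integrable_dirac (by simp))
    (integrable_dirac (by simp)), integral_dirac, integral_dirac]
  ring

lemma integral_coin_hb (m k : ℕ) (p : OnePoint ℕ) :
    ∫ n, bb m k (p.elim n id) ∂coin = hb m k p := by
  rw [integral_coin]
  induction p with
  | infty =>
    simp only [OnePoint.elim_infty, hb, bb]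
    rcases m with _ | _ | m <;> simp
  | coe n => simp [hb]

lemma integral_coins (j : JJ I) (p : I → OnePoint ℕ) :
    haveI := coin_prob
    ∫ c, test j (fun i => (p i).elim (c i) id) ∂(Measure.infinitePi fun _ : I => coin) =
      testK j p := by
  have := coin_prob
  let f : (∀ _ : j.1, ℕ) → ℝ := fun u => ∏ i : j.1, bb (j.2.1 i) j.2.2 ((p i).elim (u i) id)
  have h1 := integral_restrict_infinitePi (fun _ : I => coin) (s := j.1) (f := f)
    (measurable_of_countable f).aestronglyMeasurable
  have h2 : ∀ c : I → ℕ, test j (fun i => (p i).elim (c i) id) = f (j.1.restrict c) := by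
    intro c
    simp only [test, f, Finset.restrict]
    exact (Finset.prod_coe_sort j.1 fun i => bb (j.2.1 i) j.2.2 ((p i).elim (c i) id)).symm
  simp only [h2]
  rw [h1]
  simp only [f]
  rw [integral_fintype_prod_eq_prod (fun (i : j.1) n => bb (j.2.1 i) j.2.2 ((p i).elim n id))]
  simp only [integral_coin_hb]
  exact Finset.prod_coe_sort j.1 fun i => hb (j.2.1 i) j.2.2 (p i)

lemma isCompact_XX : IsCompact (XX I) := by
  let mK : MeasurableSpace (I → OnePoint ℕ) := borel _
  have : BorelSpace (I → OnePoint ℕ) := ⟨rfl⟩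
  have := coin_prob
  let Ψ : ProbabilityMeasure (I → OnePoint ℕ) → (JJ I → ℝ) :=
    fun μ j => ∫ p, testK j p ∂(μ : Measure (I → OnePoint ℕ))
  have hΨ : Continuous Ψ := continuous_pi fun j =>
    ProbabilityMeasure.continuous_integral_continuousMap
      (⟨testK j, continuous_testK j⟩ : C(I → OnePoint ℕ, ℝ))
  have e : XX I = range Ψ := by
    ext x
    constructor
    · rintro ⟨y, hy, rfl⟩
      have hj : Continuous fun (t : I → ℕ) (i : I) => (t i : OnePoint ℕ) :=
        continuous_pi fun i => OnePoint.continuous_coe.comp (continuous_apply i)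
      obtain ⟨ν, -, hν, h⟩ := exists_lift hj y
      refine ⟨⟨ν, hν⟩, funext fun j => ?_⟩
      exact h _ (continuous_testK j)
    · rintro ⟨μ, rfl⟩
      let R : (I → OnePoint ℕ) × (I → ℕ) → (I → ℕ) := fun q i => (q.1 i).elim (q.2 i) id
      have hK : ∀ (i : I) (a : OnePoint ℕ), MeasurableSet {p : I → OnePoint ℕ | p i = a} :=
        fun i a => (isClosed_eq (continuous_apply i) continuous_const).measurableSet
      have hR : Measurable R := by
        refine measurable_pi_lambda _ fun i => measurable_to_countable' fun n => ?_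
        have : (fun q => R q i) ⁻¹' {n} = Prod.fst ⁻¹' {p : I → OnePoint ℕ | p i = n} ∪
            (Prod.fst ⁻¹' {p : I → OnePoint ℕ | p i = OnePoint.infty} ∩
              Prod.snd ⁻¹' ((fun c : I → ℕ => c i) ⁻¹' {n})) := by
          ext q
          simp only [R, mem_preimage, mem_singleton_iff, mem_union, mem_setOf_eq, mem_inter_iff]
          induction q.1 i with
          | infty => simp
          | coe m => simp
        rw [this]
        exact (measurable_fst (hK i n)).union ((measurable_fst (hK i OnePoint.infty)).inter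
          (measurable_snd (measurable_pi_apply i (measurableSet_singleton n))))
      let P := (μ : Measure (I → OnePoint ℕ)).prod (Measure.infinitePi fun _ : I => coin)
      refine ⟨P.map R, Measure.isProbabilityMeasure_map hR.aemeasurable, funext fun j => ?_⟩
      simp only [Phi, Ψ]
      have hi : Integrable (fun q => test j (R q)) P :=
        integrable_of_bdd P ((measurable_test j).comp hR) (C := 1) fun q => abs_test_le j _
      rw [integral_map hR.aemeasurable (measurable_test j).aestronglyMeasurable,
        integral_prod _ hi]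
      simp only [R, integral_coins]
  rw [e]
  exact isCompact_range hΨ

end Pool.Agent.H2.Sx
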