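import Pool.Agent.H2.SxD

open MeasureTheory Set Filter Topology ProbabilityTheory
open scoped ENNReal

namespace Pool.Agent.H2.Sx

variable {I : Type}

/-- The measure attached to a point. -/
noncomputable def YY (z : XX I) : Measure (I → ℕ) := z.2.choose

lemma YY_prob (z : XX I) : IsProbabilityMeasure (YY z) := z.2.choose_spec.1

lemma Phi_YY (z : XX I) : Phi (YY z) = z := z.2.choose_spec.2

lemma Phi_inj {y₁ y₂ : Measure (I → ℕ)} [IsFiniteMeasure y₁] [IsFiniteMeasure y₂]
    (h : Phi y₁ = Phi y₂) : y₁ = y₂ := eq_of_test fun j => congrFun h j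

lemma eq_YY {y : Measure (I → ℕ)} [IsProbabilityMeasure y] {z : XX I} (h : Phi y = z) :
    y = YY z := by
  have := YY_prob z
  exact Phi_inj (h.trans (Phi_YY z).symm)

lemma Phi_dirac (t : I → ℕ) : Phi (Measure.dirac t) = fun j => test j t :=
  funext fun j => integral_dirac' _ _ (measurable_test j).stronglyMeasurable

/-- The point evaluations. -/
noncomputable def io (t : I → ℕ) : XX I :=
  ⟨fun j => test j t, Measure.dirac t, inferInstance, Phi_dirac t⟩

lemma continuous_io : Continuous (io : (I → ℕ) → XX I) :=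
  (continuous_pi fun j => continuous_test j).subtype_mk _

lemma YY_io (t : I → ℕ) : YY (io t) = Measure.dirac t := (eq_YY (z := io t) (Phi_dirac t)).symm

lemma baire_YY {h : (I → ℕ) → ℝ} (hh : Good h) : IsBaire fun z : XX I => ∫ t, h t ∂YY z := by
  have := fun z : XX I => YY_prob z
  refine mono_class (P := fun h => IsBaire fun z : XX I => ∫ t, h t ∂YY z) ?_ ?_ ?_ ?_ hh
  · intro j
    have e : (fun z : XX I => ∫ t, test j t ∂YY z) = fun z : XX I => (z : JJ I → ℝ) j :=
      funext fun z => congrFun (Phi_YY z) j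
    rw [e]
    exact IsBaire.of_cont ((continuous_apply j).comp continuous_subtype_val)
  · intro f g hf hg h1 h2
    have e : (fun z : XX I => ∫ t, (f + g) t ∂YY z) =
        fun z : XX I => ∫ t, f t ∂YY z + ∫ t, g t ∂YY z :=
      funext fun z => integral_add (hf.integrable _) (hg.integrable _)
    rw [e]
    exact h1.add h2
  · intro c f hf h1
    have e : (fun z : XX I => ∫ t, (c • f) t ∂YY z) = fun z : XX I => c * ∫ t, f t ∂YY z :=
      funext fun z => integral_smul c f
    rw [e]
    exact h1.smul c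
  · intro f g C hm hC hP hl
    exact IsBaire.lim hP fun z => tendsto_integral_bdd _ hm hC hl

lemma bary_Phi (y : Measure (I → ℕ)) [IsProbabilityMeasure y] (l : (JJ I → ℝ) →L[ℝ] ℝ) :
    ∫ t, l (io t) ∂y = l (Phi y) := by
  have hl : (l : (JJ I → ℝ) →ₗ[ℝ] ℝ) ∈ Submodule.span ℝ
      (range fun j : JJ I => (LinearMap.proj j : (JJ I → ℝ) →ₗ[ℝ] ℝ)) :=
    (LinearMap.mem_span_iff_continuous _).2 l.continuous
  suffices h : ∀ φ ∈ Submodule.span ℝ
      (range fun j : JJ I => (LinearMap.proj j : (JJ I → ℝ) →ₗ[ℝ] ℝ)),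
      Integrable (fun t => φ (io t)) y ∧ ∫ t, φ (io t) ∂y = φ (Phi y) from (h _ hl).2
  intro φ hφ
  induction hφ using Submodule.span_induction with
  | mem x hx =>
    obtain ⟨j, rfl⟩ := hx
    exact ⟨(good_test j).integrable y, rfl⟩
  | zero => simp
  | add x z _ _ hx hz =>
    simp only [LinearMap.add_apply]
    exact ⟨hx.1.add hz.1, by rw [integral_add hx.1 hz.1, hx.2, hz.2]⟩
  | smul c x _ hx =>
    simp only [LinearMap.smul_apply]
    exact ⟨hx.1.smul c, by rw [integral_smul, hx.2]⟩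

theorem simplex_XX : IsSimplex (XX I) := by
  have := fun z : XX I => YY_prob z
  refine simplex_of isCompact_XX convex_XX io continuous_io YY (fun h hh => baire_YY hh)
    (fun z l => ?_) fun y _ x hx => ?_
  · rw [bary_Phi, Phi_YY]
  · refine eq_YY (funext fun j => ?_)
    exact hx (ContinuousLinearMap.proj j)

lemma Phi_of_ae (y : Measure (I → ℕ)) [IsProbabilityMeasure y] (t : I → ℕ)
    (h : ∀ i, y {s | s i = t i}ᶜ = 0) : Phi y = fun j => test j t := by
  funext j
  have h1 : ∀ᵐ s ∂y, ∀ i ∈ j.1, s i = t i := (Filter.eventually_all_finset _).2 fun i _ => h i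
  have h2 : (fun s => test j s) =ᵐ[y] fun _ => test j t := by
    filter_upwards [h1] with s hs
    exact Finset.prod_congr rfl fun i hi => by rw [hs i hi]
  unfold Phi
  rw [integral_congr_ae h2]
  simp

lemma measurableSet_eq_at (i : I) (n : ℕ) : MeasurableSet {s : I → ℕ | s i = n} :=
  (measurable_pi_apply i : Measurable fun s : I → ℕ => s i) (measurableSet_singleton n)

lemma io_extreme (t : I → ℕ) : (io t : JJ I → ℝ) ∈ (XX I).extremePoints ℝ := by
  refine ⟨(io t).2, ?_⟩
  rintro _ ⟨y₁, h₁, rfl⟩ _ ⟨y₂, h₂, rfl⟩ ⟨a, b, ha, hb, hab, e⟩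
  have eb : b = 1 - a := by linarith
  subst eb
  have := mix_prob ha.le (by linarith) y₁ y₂
  have e1 : mix a y₁ y₂ = Measure.dirac t :=
    Phi_inj (by rw [Phi_mix ha.le (by linarith), Phi_dirac]; exact e)
  refine Phi_of_ae y₁ t fun i => ?_
  have e2 : mix a y₁ y₂ {s | s i = t i}ᶜ = 0 := by
    rw [e1, Measure.dirac_apply' _ (measurableSet_eq_at i (t i)).compl]
    simp
  simp only [mix, Measure.coe_add, Measure.coe_smul, Pi.add_apply, Pi.smul_apply, smul_eq_mul,
    add_eq_zero, mul_eq_zero, ENNReal.ofReal_eq_zero] at e2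
  exact e2.1.resolve_left (not_le.2 ha)

lemma extreme_io {x : JJ I → ℝ} (hx : x ∈ (XX I).extremePoints ℝ) :
    ∃ t : I → ℕ, x = io t := by
  obtain ⟨⟨y, hy, rfl⟩, hext⟩ := hx
  have h01 : ∀ B : Set (I → ℕ), MeasurableSet B → y B = 0 ∨ y Bᶜ = 0 := by
    intro B hB
    by_contra hn
    push Not at hn
    have := cond_isProbabilityMeasure (μ := y) hn.1
    have := cond_isProbabilityMeasure (μ := y) hn.2
    have hc : y.real Bᶜ = 1 - y.real B := probReal_compl_eq_one_sub hB
    have h0 : 0 < y.real B := ENNReal.toReal_pos hn.1 (measure_ne_top _ _)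
    have h1 : 0 < y.real Bᶜ := ENNReal.toReal_pos hn.2 (measure_ne_top _ _)
    have e : mix (y.real B) y[|B] y[|Bᶜ] = y := by
      ext A hA
      simp only [mix, Measure.coe_add, Measure.coe_smul, Pi.add_apply, Pi.smul_apply,
        smul_eq_mul, ← hc, ofReal_measureReal (measure_ne_top _ _)]
      rw [mul_comm, mul_comm (y Bᶜ)]
      exact cond_add_cond_compl_eq hB y
    have e2 : Phi y[|B] = Phi y := by
      refine hext ⟨y[|B], inferInstance, rfl⟩ (x₂ := Phi y[|Bᶜ]) ⟨y[|Bᶜ], inferInstance, rfl⟩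
        ⟨y.real B, 1 - y.real B, h0, by linarith, by ring, ?_⟩
      rw [← Phi_mix h0.le (by linarith), e]
    have e3 := Phi_inj e2
    apply hn.2
    rw [← e3, cond_apply hB]
    simp
  have hi : ∀ i, ∃ n, y {s : I → ℕ | s i = n}ᶜ = 0 := by
    intro i
    by_contra hn
    push Not at hn
    have h0 : ∀ n, y {s : I → ℕ | s i = n} = 0 := fun n =>
      (h01 _ (measurableSet_eq_at i n)).resolve_right (hn n)
    have h1 := measure_iUnion_null h0
    have h2 : (⋃ n, {s : I → ℕ | s i = n}) = univ := by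
      ext s; simp
    rw [h2, measure_univ] at h1
    exact one_ne_zero h1
  choose t ht using hi
  exact ⟨t, Phi_of_ae y t ht⟩

theorem abe_XX : HasABE (XX I) := by
  rintro g hg ⟨C, hC⟩
  have := fun z : XX I => YY_prob z
  let ie : (I → ℕ) → (XX I).extremePoints ℝ := fun t => ⟨io t, io_extreme t⟩
  have hie : Continuous ie := (continuous_subtype_val.comp continuous_io).subtype_mk _
  have hh : Good fun t => g (ie t) := ⟨measurable_of_cont (hg.comp hie), C, fun t => hC _⟩
  refine ⟨fun z => ∫ t, g (ie t) ∂YY z, ?_, baire_YY hh, ?_⟩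
  · intro x y z a h0 h1 e
    have := mix_prob h0 h1 (YY x) (YY y)
    have e1 : mix a (YY x) (YY y) = YY z := eq_YY (by rw [Phi_mix h0 h1, Phi_YY, Phi_YY, e])
    simp only
    rw [← e1, integral_mix h0 h1 (hh.integrable _) (hh.integrable _)]
  · rintro ⟨e, he⟩
    obtain ⟨t, rfl⟩ := extreme_io he
    have e1 := YY_io t
    simp only
    rw [show (⟨(io t : JJ I → ℝ), extremePoints_subset he⟩ : XX I) = io t from rfl, e1,
      integral_dirac' _ _ hh.1.stronglyMeasurable]

lemma test_single (i : I) (n : ℕ) (t : I → ℕ) :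
    3 / 4 < test (({i}, fun _ => n, n) : JJ I) t ↔ t i = n := by
  simp only [test, Finset.prod_singleton, bb]
  constructor
  · intro h
    by_contra hne
    split_ifs at h <;> norm_num at h
  · intro h
    rw [h, if_pos (Nat.le_succ n), if_pos rfl]
    norm_num

theorem not_lindelof_XX [Uncountable I] : ¬ IsLindelof ((XX I).extremePoints ℝ) := by
  intro hL
  let U : {p : I × I // p.1 ≠ p.2} → Set (JJ I → ℝ) := fun p =>
    ⋃ n : ℕ, {x | 3 / 4 < x ({p.1.1}, fun _ => n, n)} ∩ {x | 3 / 4 < x ({p.1.2}, fun _ => n, n)}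
  have hU : ∀ p, IsOpen (U p) := fun p => isOpen_iUnion fun n =>
    (isOpen_lt continuous_const (continuous_apply _)).inter
      (isOpen_lt continuous_const (continuous_apply _))
  have hmem : ∀ p t, (io t : JJ I → ℝ) ∈ U p ↔ t p.1.1 = t p.1.2 := by
    intro p t
    simp only [U, io, mem_iUnion, mem_inter_iff, mem_setOf_eq, test_single]
    constructor
    · rintro ⟨n, h1, h2⟩; rw [h1, h2]
    · intro h; exact ⟨_, h, rfl⟩
  have hcov : (XX I).extremePoints ℝ ⊆ ⋃ p, U p := by
    intro x hx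
    obtain ⟨t, rfl⟩ := extreme_io hx
    have hni : ¬ Function.Injective t := fun h => not_countable h.countable
    obtain ⟨i, j, h1, h2⟩ := Function.not_injective_iff.1 hni
    exact mem_iUnion.2 ⟨⟨(i, j), h2⟩, (hmem _ t).2 h1⟩
  obtain ⟨r, hr, hsub⟩ := hL.elim_countable_subcover U hU hcov
  have hD : ((fun p : {p : I × I // p.1 ≠ p.2} => p.1.1) '' r ∪
      (fun p : {p : I × I // p.1 ≠ p.2} => p.1.2) '' r).Countable :=
    (hr.image _).union (hr.image _)
  obtain ⟨t, ht⟩ := Set.countable_iff_exists_injOn.1 hD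
  obtain ⟨p, hp, h⟩ := mem_iUnion₂.1 (hsub (io_extreme t))
  exact p.2 (ht (Or.inl ⟨p, hp, rfl⟩) (Or.inr ⟨p, hp, rfl⟩) ((hmem p t).1 h))

end Pool.Agent.H2.Sx
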