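import Mathlib

namespace Pool.Agent.H2.Transitive

open Finset Equiv

variable {n r : ℕ}

abbrev V (r : ℕ) := Fin r → ZMod 2

def f (β : Fin n → V r) (v : V r) (π : Perm (Fin n)) (i j : Fin n) : ℤ :=
  if β i = v then (if β j = v then ((π j : ℕ) : ℤ) - ((π i : ℕ) : ℤ) else -1)
  else (if β j = v then 1 else ((j : ℕ) : ℤ) - ((i : ℕ) : ℤ))

def P (β : Fin n → V r) (v : V r) (π : Perm (Fin n)) : ℤ := ∏ i, ∏ j ∈ Ioi i, f β v π i j

theorem P_ne (β : Fin n → V r) (v : V r) (π : Perm (Fin n)) : P β v π ≠ 0 := by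
  unfold P
  refine prod_ne_zero_iff.2 fun i _ => prod_ne_zero_iff.2 fun j hj => ?_
  have hij : i ≠ j := (mem_Ioi.1 hj).ne
  unfold f
  split_ifs
  · intro h
    have : (π j : ℕ) = π i := by omega
    exact hij (π.injective (Fin.ext this)).symm
  · norm_num
  · norm_num
  · intro h
    have : (j : ℕ) = i := by omega
    exact hij (Fin.ext this).symm

theorem beta_swap (β : Fin n → V r) {c d : Fin n} (h : β c = β d) (i : Fin n) :
    β (swap c d i) = β i := by
  rw [swap_apply_def]; split_ifs <;> simp_all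

theorem P_swap_same (β : Fin n → V r) (π : Perm (Fin n)) {c d : Fin n} (h : β c = β d)
    (hcd : c ≠ d) : P β (β c) (π * swap c d) = - P β (β c) π := by
  have h1 := (swap c d).prod_Ioi_comp_eq_sign_mul_prod (f := f β (β c) π) (by
    intro i j; unfold f; split_ifs <;> ring)
  rw [Perm.sign_swap hcd] at h1
  unfold P
  rw [show -(∏ i, ∏ j ∈ Ioi i, f β (β c) π i j) =
    ((-1 : ℤˣ) : ℤ) * ∏ i, ∏ j ∈ Ioi i, f β (β c) π i j by simp]
  rw [← show ((((-1 : ℤˣ) : ℤ) : ℤ) : ℤ) = ((-1 : ℤˣ) : ℤ) from rfl]
  refine Eq.trans ?_ (by simpa using h1)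
  refine prod_congr rfl fun i _ => prod_congr rfl fun j _ => ?_
  unfold f
  simp only [beta_swap β h, Perm.mul_apply]
  clear h1
  split_ifs with h1 h2 h3
  · rfl
  · rfl
  · rfl
  · have hi : swap c d i = i := swap_apply_of_ne_of_ne (by rintro rfl; exact h1 rfl)
      (by rintro rfl; exact h1 h.symm)
    have hj : swap c d j = j := swap_apply_of_ne_of_ne (by rintro rfl; exact h3 rfl)
      (by rintro rfl; exact h3 h.symm)
    rw [hi, hj]

theorem P_swap_other (β : Fin n → V r) (π : Perm (Fin n)) {c d : Fin n} (h : β c = β d)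
    {v : V r} (hv : v ≠ β c) : P β v (π * swap c d) = P β v π := by
  unfold P
  refine prod_congr rfl fun i _ => prod_congr rfl fun j _ => ?_
  unfold f
  simp only [Perm.mul_apply]
  split_ifs with h1 h2 h3
  · have hi : swap c d i = i := swap_apply_of_ne_of_ne (by rintro rfl; exact hv h1.symm)
      (by rintro rfl; exact hv (h1.symm.trans h.symm))
    have hj : swap c d j = j := swap_apply_of_ne_of_ne (by rintro rfl; exact hv h2.symm)
      (by rintro rfl; exact hv (h2.symm.trans h.symm))
    rw [hi, hj]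
  · rfl
  · rfl
  · rfl

def Φ (β : Fin n → V r) (π : Perm (Fin n)) : V r := ∑ v, if 0 < P β v π then 0 else v

theorem add_self (v : V r) : v + v = 0 := by
  ext i; simp [CharTwo.add_self_eq_zero]

theorem Φ_swap (β : Fin n → V r) (π : Perm (Fin n)) {c d : Fin n} (h : β c = β d)
    (hcd : c ≠ d) : Φ β (π * swap c d) = Φ β π + β c := by
  unfold Φ
  rw [← add_sum_erase _ _ (mem_univ (β c)), ← add_sum_erase _ _ (mem_univ (β c))]
  have : ∑ v ∈ univ.erase (β c), (if 0 < P β v (π * swap c d) then 0 else v) =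
      ∑ v ∈ univ.erase (β c), (if 0 < P β v π then 0 else v) :=
    sum_congr rfl fun v hv => by rw [P_swap_other β π h (ne_of_mem_erase hv)]
  rw [this, P_swap_same β π h hcd]
  have hne := P_ne β (β c) π
  by_cases h0 : 0 < P β (β c) π
  · rw [if_pos h0, if_neg (by omega)]; abel
  · rw [if_neg h0, if_pos (by omega), add_right_comm, add_self]

/-- permutations extending a ↦ b -/
def ext {k : ℕ} (a b : Fin k → Fin n) : Finset (Perm (Fin n)) :=
  univ.filter fun y => ∀ i, y (a i) = b i

theorem card_ext {k : ℕ} (a b a' b' : Fin k → Fin n) (ha : Function.Injective a)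
    (hb : Function.Injective b) (ha' : Function.Injective a') (hb' : Function.Injective b') :
    (ext a b).card = (ext a' b').card := by
  obtain ⟨σ, hσ⟩ := Perm.exists_extending_pair a' a ha' ha
  obtain ⟨τ, hτ⟩ := Perm.exists_extending_pair b b' hb hb'
  refine card_bij (fun y _ => τ * y * σ) ?_ ?_ ?_
  · intro y hy
    simp only [ext, mem_filter, mem_univ, true_and, Perm.mul_apply] at hy ⊢
    intro i; rw [hσ, hy, hτ]
  · intro y _ y' _ h
    simpa using h
  · intro y hy
    refine ⟨τ⁻¹ * y * σ⁻¹, ?_, by group⟩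
    simp only [ext, mem_filter, mem_univ, true_and, Perm.mul_apply] at hy ⊢
    intro i
    rw [← hσ]
    simp [hy, ← hτ]

theorem ext_pos {k : ℕ} (a b : Fin k → Fin n) (ha : Function.Injective a)
    (hb : Function.Injective b) : 0 < (ext a b).card := by
  obtain ⟨σ, hσ⟩ := Perm.exists_extending_pair a b ha hb
  exact card_pos.2 ⟨σ, by simpa [ext] using hσ⟩

theorem equi {k s : ℕ} (β : Fin n → V r)
    (hβ : ∀ v ≠ 0, s ≤ (univ.filter fun i => β i = v).card) (hk : 2 * k < 2 ^ r * (s - 1))
    (a b : Fin k → Fin n) :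
    2 ^ r * ((ext a b).filter fun y => Φ β y = 0).card = (ext a b).card := by
  set N : V r → ℕ := fun w => ((ext a b).filter fun y => Φ β y = w).card with hN
  let H : AddSubgroup (V r) :=
    { carrier := {v | ∀ w, N (w + v) = N w}
      zero_mem' := by simp
      add_mem' := by
        intro x y hx hy w
        rw [← add_assoc, hy, hx]
      neg_mem' := by
        intro x hx w
        have := hx (w + -x)
        simpa using this.symm }
  have hF : ∀ c d : Fin n, c ≠ d → β c = β d → c ∉ univ.image a → d ∉ univ.image a →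
      β c ∈ H := by
    intro c d hcd h hc hd w
    simp only [mem_image, mem_univ, true_and, not_exists] at hc hd
    have hs : ∀ i, swap c d (a i) = a i := fun i => swap_apply_of_ne_of_ne (hc i) (hd i)
    refine (card_bij (fun y _ => y * swap c d) ?_ ?_ ?_).symm
    · intro y hy
      simp only [ext, mem_filter, mem_univ, true_and, Perm.mul_apply, hs] at hy ⊢
      exact ⟨hy.1, by rw [Φ_swap β y h hcd, hy.2]⟩
    · intro y _ y' _ h
      simpa using h
    · intro y hy
      refine ⟨y * swap c d, ?_, by simp [mul_assoc]⟩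
      simp only [ext, mem_filter, mem_univ, true_and, Perm.mul_apply, hs] at hy ⊢
      exact ⟨hy.1, by rw [Φ_swap β y h hcd, hy.2, add_assoc, add_self, add_zero]⟩
  have hcardV : Fintype.card (V r) = 2 ^ r := by simp [V]
  have hH : H = ⊤ := by
    classical
    by_contra hne
    have h1 := H.card_mul_index
    have h2 := AddSubgroup.one_lt_index_of_ne_top hne
    rw [Nat.card_eq_fintype_card (α := V r), hcardV] at h1
    have h3 : Nat.card H = (univ.filter fun v => v ∈ H).card := by
      rw [Nat.card_eq_fintype_card, Fintype.card_subtype]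
    have h4 := card_filter_add_card_filter_not (s := (univ : Finset (V r))) (fun v => v ∈ H)
    rw [card_univ, hcardV] at h4
    set T := univ.filter fun v => ¬ v ∈ H with hT
    have h5 : 2 ^ r ≤ 2 * T.card := by nlinarith
    have h6 : ∀ v ∈ T, s - 1 ≤ ((univ.image a).filter fun i => β i = v).card := by
      intro v hv
      have hvH : v ∉ H := (mem_filter.1 hv).2
      have hv0 : v ≠ 0 := by rintro rfl; exact hvH H.zero_mem
      have h7 := hβ v hv0
      have h8 := card_filter_add_card_filter_not (s := univ.filter fun i => β i = v)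
        (fun i => i ∈ univ.image a)
      have h9 : ((univ.filter fun i => β i = v).filter fun i => ¬ i ∈ univ.image a).card ≤ 1 := by
        rw [card_le_one]
        intro c hc d hd
        by_contra hcd
        simp only [mem_filter, mem_univ, true_and] at hc hd
        have := hF c d hcd (hc.1.trans hd.1.symm) hc.2 hd.2
        rw [hc.1] at this
        exact hvH this
      have h10 : ((univ.filter fun i => β i = v).filter fun i => i ∈ univ.image a) =
          (univ.image a).filter fun i => β i = v := by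
        ext i; simp [and_comm]
      rw [h10] at h8
      omega
    have h11 : ∑ v ∈ T, ((univ.image a).filter fun i => β i = v).card ≤ k := by
      calc _ ≤ ∑ v, ((univ.image a).filter fun i => β i = v).card :=
            sum_le_sum_of_subset (subset_univ _)
        _ = (univ.image a).card := (card_eq_sum_card_fiberwise (fun _ _ => mem_univ _)).symm
        _ ≤ k := card_image_le.trans (by simp)
    have h12 : T.card * (s - 1) ≤ ∑ v ∈ T, ((univ.image a).filter fun i => β i = v).card := by
      simpa using card_nsmul_le_sum T _ _ h6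
    nlinarith
  have hall : ∀ w, N w = N 0 := fun w => by
    have : w ∈ H := hH ▸ AddSubgroup.mem_top w
    simpa using this 0
  rw [card_eq_sum_card_fiberwise (s := ext a b) (f := Φ β) (t := univ) (fun _ _ => mem_univ _)]
  change 2 ^ r * N 0 = ∑ w, N w
  simp [hall, hcardV]

theorem exists_beta (hr : 1 ≤ r) : ∃ β : Fin n → V r,
    ∀ v ≠ 0, n / (2 ^ r - 1) ≤ (univ.filter fun i => β i = v).card := by
  have h2 : 2 ≤ 2 ^ r := by
    calc 2 = 2 ^ 1 := rfl
      _ ≤ 2 ^ r := Nat.pow_le_pow_right (by norm_num) hr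
  set N := 2 ^ r - 1 with hN
  have hN0 : 0 < N := by omega
  have hc : Fintype.card {v : V r // v ≠ 0} = N := by
    simp [V, hN]
  let e := Fintype.equivFinOfCardEq hc
  refine ⟨fun i => (e.symm ⟨i % N, Nat.mod_lt _ hN0⟩).1, fun v hv => ?_⟩
  set t := e ⟨v, hv⟩ with ht
  have hlt : ∀ j : Fin (n / N), (j : ℕ) * N + t < n := fun j => by
    have h1 : ((j : ℕ) + 1) * N ≤ n / N * N := Nat.mul_le_mul_right _ j.2
    have h2 := Nat.div_mul_le_self n N
    have h3 := t.2
    nlinarith
  have := card_le_card_of_injOn (s := (univ : Finset (Fin (n / N))))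
    (t := univ.filter fun i : Fin n => (e.symm ⟨i % N, Nat.mod_lt _ hN0⟩).1 = v)
    (fun j => ⟨j * N + t, hlt j⟩) (by
      intro j _
      simp only [coe_filter, mem_univ, true_and, Set.mem_setOf_eq]
      have : (⟨((j : ℕ) * N + t) % N, Nat.mod_lt _ hN0⟩ : Fin N) = t := by
        ext; simp [Nat.mod_eq_of_lt t.2]
      rw [this, ht]; simp) (by
      intro j _ j' _ h
      simp only [Fin.mk.injEq, add_left_inj] at h
      exact Fin.ext (Nat.eq_of_mul_eq_mul_right hN0 h))
  simpa using this

theorem main (hr : 1 ≤ r) (hn : 2 * 4 ^ r ≤ n) : ∃ Y : Finset (Perm (Fin n)),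
    (∃ m, 0 < m ∧ ∀ a b : Fin ((n - 2) / 2) → Fin n, Function.Injective a →
      Function.Injective b → (Y.filter fun y => ∀ i, y (a i) = b i).card = m) ∧
    2 ^ r * Y.card = n.factorial := by
  obtain ⟨β, hβ⟩ := exists_beta (n := n) hr
  have h2 : 2 ≤ 2 ^ r := by
    calc 2 = 2 ^ 1 := rfl
      _ ≤ 2 ^ r := Nat.pow_le_pow_right (by norm_num) hr
  have h4 : 4 ^ r = 2 ^ r * 2 ^ r := by rw [← mul_pow]; norm_num
  have key : 2 * ((n - 2) / 2) < 2 ^ r * (n / (2 ^ r - 1) - 1) := by
    obtain ⟨N, hN⟩ : ∃ N, 2 ^ r = N + 1 := ⟨2 ^ r - 1, by omega⟩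
    rw [h4] at hn
    rw [hN] at hn h2 ⊢
    simp only [add_tsub_cancel_right]
    have hN0 : 0 < N := by omega
    have e1 := Nat.div_add_mod n N
    have e2 := Nat.mod_lt n hN0
    set s := n / N
    have e3 : 2 * N + 2 ≤ s := by
      by_contra hc
      push Not at hc
      nlinarith
    obtain ⟨s', hs'⟩ : ∃ s', s = s' + 1 := ⟨s - 1, by omega⟩
    have e4 : 2 * ((n - 2) / 2) ≤ n := by omega
    rw [hs'] at e1 e3 ⊢
    simp only [add_tsub_cancel_right]
    nlinarith
  have hfil : ∀ {k : ℕ} (a b : Fin k → Fin n),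
      ((univ.filter fun y => Φ β y = 0).filter fun y => ∀ i, y (a i) = b i) =
        (ext a b).filter fun y => Φ β y = 0 := by
    intro k a b; ext y; simp [ext, and_comm]
  refine ⟨univ.filter fun y => Φ β y = 0, ?_, ?_⟩
  · have hle : (n - 2) / 2 ≤ n := by omega
    have h0 := equi β hβ key (Fin.castLE hle) (Fin.castLE hle)
    have hi := Fin.castLE_injective hle
    refine ⟨((ext (Fin.castLE hle) (Fin.castLE hle)).filter fun y => Φ β y = 0).card, ?_, ?_⟩
    · have := ext_pos _ _ hi hi
      rw [← h0] at this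
      exact Nat.pos_of_mul_pos_left this
    · intro a b ha hb
      rw [hfil]
      have h1 := equi β hβ key a b
      rw [card_ext a b _ _ ha hb hi hi, ← h0] at h1
      exact Nat.eq_of_mul_eq_mul_left (by positivity) h1
  · have h0 := equi (k := 0) β hβ (by omega) Fin.elim0 Fin.elim0
    have : ext (n := n) Fin.elim0 Fin.elim0 = univ := by ext y; simp [ext]
    rw [this] at h0
    rw [h0, card_univ, Fintype.card_perm, Fintype.card_fin]

end Pool.Agent.H2.Transitive
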