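import Pool.Agent.H2.GsD

set_option autoImplicit false

namespace Pool.Agent.H2.Ub

open Filter Topology Pool.Agent.H2.Sm Pool.Agent.H2.Gs MeasureTheory

variable {X : Type} [NormedAddCommGroup X] [NormedSpace ℝ X] {Γ : Type}

lemma mult_le (v : Γ → X) (t : Finset Γ) (c : ℝ) (h : ∀ t' ⊆ t, ‖∑ γ ∈ t', v γ‖ ≤ c)
    (a : Γ → ℝ) (ha : ∀ γ, |a γ| ≤ 1) : ‖∑ γ ∈ t, a γ • v γ‖ ≤ 2 * c := by
  classical
  obtain ⟨g, hg1, hg2⟩ := exists_dual_vector'' ℝ (∑ γ ∈ t, a γ • v γ)
  have hg2' : g (∑ γ ∈ t, a γ • v γ) = ‖∑ γ ∈ t, a γ • v γ‖ := hg2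
  have hb : ∀ t' ⊆ t, |∑ γ ∈ t', g (v γ)| ≤ c := by
    intro t' ht'
    rw [← map_sum]
    exact le_trans (abs_apply_le g _) (le_trans (mul_le_of_le_one_left (norm_nonneg _) hg1) (h t' ht'))
  rw [← hg2', map_sum]
  have h1 : ∑ γ ∈ t, g (a γ • v γ) ≤ ∑ γ ∈ t, |g (v γ)| := by
    refine Finset.sum_le_sum fun γ _ => ?_
    rw [map_smul, smul_eq_mul]
    refine le_trans (le_abs_self _) ?_
    rw [abs_mul]
    exact mul_le_of_le_one_left (abs_nonneg _) (ha γ)
  rw [← Finset.sum_filter_add_sum_filter_not t (fun γ => 0 ≤ g (v γ)) (fun γ => |g (v γ)|)] at h1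
  have h2 : ∑ γ ∈ t.filter (fun γ => 0 ≤ g (v γ)), |g (v γ)|
      = ∑ γ ∈ t.filter (fun γ => 0 ≤ g (v γ)), g (v γ) :=
    Finset.sum_congr rfl fun γ hγ => abs_of_nonneg (Finset.mem_filter.mp hγ).2
  have h3 : ∑ γ ∈ t.filter (fun γ => ¬ 0 ≤ g (v γ)), |g (v γ)|
      = -∑ γ ∈ t.filter (fun γ => ¬ 0 ≤ g (v γ)), g (v γ) := by
    rw [← Finset.sum_neg_distrib]
    exact Finset.sum_congr rfl fun γ hγ => abs_of_neg (not_le.mp (Finset.mem_filter.mp hγ).2)
  have h4 := abs_le.mp (hb _ (Finset.filter_subset (fun γ => 0 ≤ g (v γ)) t))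
  have h5 := abs_le.mp (hb _ (Finset.filter_subset (fun γ => ¬ 0 ≤ g (v γ)) t))
  linarith

/-- An unconditional basis with its coefficient forms. -/
structure Bas (X : Type) [NormedAddCommGroup X] [NormedSpace ℝ X] (Γ : Type) where
  e : Γ → X
  f : Γ → X →L[ℝ] ℝ
  h1 : ∀ i, f i (e i) = 1
  h0 : ∀ i j, i ≠ j → f i (e j) = 0
  hs : ∀ x, HasSum (fun γ => f γ x • e γ) x

namespace Bas

variable (B : Bas X Γ)

def Dom (x : X) (b : Γ → ℝ) : Prop := ∀ γ, |b γ| ≤ |B.f γ x|

noncomputable def mk' (b : Γ → ℝ) : X := ∑' γ, b γ • B.e γ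

lemma dom_le {x : X} {b : Γ → ℝ} (hb : B.Dom x b) (t : Finset Γ) (c : ℝ)
    (h : ∀ t' ⊆ t, ‖∑ γ ∈ t', B.f γ x • B.e γ‖ ≤ c) : ‖∑ γ ∈ t, b γ • B.e γ‖ ≤ 2 * c := by
  have := mult_le (fun γ => B.f γ x • B.e γ) t c h (fun γ => b γ / B.f γ x) fun γ => by
    rw [abs_div]
    exact div_le_one_of_le₀ (hb γ) (abs_nonneg _)
  convert this using 3 with γ
  rw [smul_smul]
  by_cases h0 : B.f γ x = 0
  · have := hb γ
    rw [h0, abs_zero] at this
    rw [abs_nonpos_iff.mp this]
    simp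
  · rw [div_mul_cancel₀ _ h0]

lemma ext' {x y : X} (h : ∀ γ, B.f γ x = B.f γ y) : x = y := by
  have h1 := B.hs x
  simp only [h] at h1
  exact h1.unique (B.hs y)

variable [CompleteSpace X]

lemma tail (x : X) {ε : ℝ} (hε : 0 < ε) : ∃ s : Finset Γ, ∀ b, B.Dom x b → ∀ t : Finset Γ,
    Disjoint t s → ‖∑ γ ∈ t, b γ • B.e γ‖ ≤ ε := by
  obtain ⟨s, hs⟩ := summable_iff_vanishing_norm.mp (B.hs x).summable (ε / 2) (by positivity)
  refine ⟨s, fun b hb t ht => ?_⟩
  have := B.dom_le hb t (ε / 2) fun t' ht' => (hs t' (Finset.disjoint_of_subset_left ht' ht)).le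
  linarith

lemma summable_dom {x : X} {b : Γ → ℝ} (hb : B.Dom x b) : Summable fun γ => b γ • B.e γ := by
  refine summable_iff_vanishing_norm.mpr fun ε hε => ?_
  obtain ⟨s, hs⟩ := B.tail x (show 0 < ε / 2 by positivity)
  exact ⟨s, fun t ht => lt_of_le_of_lt (hs b hb t ht) (by linarith)⟩

lemma co_mk {x : X} {b : Γ → ℝ} (hb : B.Dom x b) (δ : Γ) : B.f δ (B.mk' b) = b δ := by
  have h1 := (B.f δ).hasSum (B.summable_dom hb).hasSum
  have h2 : HasSum (fun γ => B.f δ (b γ • B.e γ)) (B.f δ (b δ • B.e δ)) :=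
    hasSum_single δ fun γ hγ => by rw [map_smul, B.h0 δ γ hγ.symm, smul_zero]
  have h3 := h1.unique h2
  rw [map_smul, B.h1, smul_eq_mul, mul_one] at h3
  exact h3

lemma tail' (x : X) {ε : ℝ} (hε : 0 < ε) : ∃ s : Finset Γ, ∀ y, B.Dom x (fun γ => B.f γ y) →
    (∀ γ ∈ s, B.f γ y = 0) → ‖y‖ ≤ ε := by
  classical
  obtain ⟨s, hs⟩ := B.tail x hε
  refine ⟨s, fun y hy h0 => le_of_tendsto' (Tendsto.norm (B.hs y)) fun t => ?_⟩
  have := hs _ hy (t \ s) Finset.sdiff_disjoint
  rwa [Finset.sum_subset Finset.sdiff_subset] at this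
  intro γ hγ hγ'
  have : γ ∈ s := by
    by_contra h
    exact hγ' (Finset.mem_sdiff.mpr ⟨hγ, h⟩)
  rw [h0 γ this, zero_smul]

lemma exists_K : ∃ K : ℝ, 0 < K ∧ ∀ x y, B.Dom x (fun γ => B.f γ y) → ‖y‖ ≤ K * ‖x‖ := by
  classical
  let P : Finset Γ → X →L[ℝ] X := fun s => ∑ γ ∈ s, (B.f γ).smulRight (B.e γ)
  have hP : ∀ s x, P s x = ∑ γ ∈ s, B.f γ x • B.e γ := by
    intro s x
    simp [P, ContinuousLinearMap.sum_apply]
  obtain ⟨C, hC⟩ := banach_steinhaus (g := P) fun x => by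
    obtain ⟨s, hs⟩ := B.tail x one_pos
    refine ⟨∑ γ ∈ s, ‖B.f γ x • B.e γ‖ + 1, fun t => ?_⟩
    rw [hP, ← Finset.sum_sdiff (Finset.inter_subset_left (s₁ := t) (s₂ := s))]
    refine le_trans (norm_add_le _ _) ?_
    rw [add_comm]
    refine add_le_add (le_trans (norm_sum_le _ _) (Finset.sum_le_sum_of_subset_of_nonneg
      Finset.inter_subset_right fun _ _ _ => norm_nonneg _)) (hs _ (fun _ => le_rfl) _ ?_)
    rw [Finset.sdiff_inter_self_left]
    exact Finset.sdiff_disjoint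
  have hC0 : 0 ≤ C := le_trans (P ∅).opNorm_nonneg (hC ∅)
  refine ⟨2 * C + 1, by positivity, fun x y hy => le_of_tendsto' (Tendsto.norm (B.hs y)) fun t => ?_⟩
  have := B.dom_le hy t (C * ‖x‖) fun t' _ => by
    rw [← hP]
    exact le_trans ((P t').le_opNorm x) (mul_le_mul_of_nonneg_right (hC t') (norm_nonneg _))
  have h2 := norm_nonneg x
  linarith

end Bas

/-- The compact group of sign changes. -/
def Gp (Γ : Type) : Type := Γ → ZMod 2

instance : AddCommGroup (Gp Γ) := inferInstanceAs (AddCommGroup (Γ → ZMod 2))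
instance : TopologicalSpace (Gp Γ) := inferInstanceAs (TopologicalSpace (Γ → ZMod 2))
instance : IsTopologicalAddGroup (Gp Γ) := inferInstanceAs (IsTopologicalAddGroup (Γ → ZMod 2))
instance : CompactSpace (Gp Γ) := inferInstanceAs (CompactSpace (Γ → ZMod 2))
instance : T2Space (Gp Γ) := inferInstanceAs (T2Space (Γ → ZMod 2))
instance : MeasurableSpace (Gp Γ) := borel _
instance : BorelSpace (Gp Γ) := ⟨rfl⟩

noncomputable def haar (Γ : Type) : Measure (Gp Γ) := Measure.addHaarMeasure ⊤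

instance : (haar Γ).IsAddLeftInvariant := by unfold haar; infer_instance

instance : IsProbabilityMeasure (haar Γ) := ⟨Measure.addHaarMeasure_self (K₀ := ⊤)⟩

lemma integrable_cont {g : Gp Γ → ℝ} (hg : Continuous g) : Integrable g (haar Γ) :=
  hg.integrable_of_hasCompactSupport (HasCompactSupport.of_compactSpace g)

def sz (a : ZMod 2) : ℝ := if a = 0 then 1 else -1

lemma sz_add (a b : ZMod 2) : sz (a + b) = sz a * sz b := by
  have h : ∀ c : ZMod 2, c = 0 ∨ c = 1 := by decide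
  have h2 : (1 : ZMod 2) + 1 = 0 := by decide
  rcases h a with rfl | rfl <;> rcases h b with rfl | rfl <;> simp [sz, h2]

lemma abs_sz (a : ZMod 2) : |sz a| = 1 := by
  unfold sz
  split_ifs <;> simp

lemma sz_sq (a : ZMod 2) : sz a * sz a = 1 := by
  unfold sz
  split_ifs <;> simp

namespace Bas

variable (B : Bas X Γ) [CompleteSpace X]

noncomputable def S (σ : Gp Γ) (x : X) : X := B.mk' fun γ => sz (σ γ) * B.f γ x

lemma co_S (σ : Gp Γ) (x : X) (γ : Γ) : B.f γ (B.S σ x) = sz (σ γ) * B.f γ x :=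
  B.co_mk (x := x) (fun γ => by rw [abs_mul, abs_sz, one_mul]) γ

lemma S_add (σ : Gp Γ) (x y : X) : B.S σ (x + y) = B.S σ x + B.S σ y :=
  B.ext' fun γ => by simp only [co_S, map_add, mul_add]

lemma S_smul (σ : Gp Γ) (c : ℝ) (x : X) : B.S σ (c • x) = c • B.S σ x :=
  B.ext' fun γ => by simp only [co_S, map_smul, smul_eq_mul]; ring

lemma S_S (σ τ : Gp Γ) (x : X) : B.S σ (B.S τ x) = B.S (τ + σ) x :=
  B.ext' fun γ => by
    have : (τ + σ) γ = τ γ + σ γ := rfl
    simp only [co_S, this, sz_add]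
    ring

lemma continuous_S (x : X) : Continuous fun σ : Gp Γ => B.S σ x := by
  rw [continuous_iff_continuousAt]
  intro σ0
  rw [ContinuousAt, Metric.tendsto_nhds]
  intro ε hε
  obtain ⟨s, hs⟩ := B.tail' ((2:ℝ) • x) (show 0 < ε / 2 by positivity)
  have hev : ∀ᶠ σ : Gp Γ in 𝓝 σ0, ∀ γ ∈ s, σ γ = σ0 γ := by
    rw [Filter.eventually_all_finset]
    intro γ _
    have hc : Continuous fun σ : Gp Γ => σ γ := continuous_apply γ
    have := hc.tendsto σ0
    rw [nhds_discrete (ZMod 2)] at this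
    exact tendsto_pure.mp this
  filter_upwards [hev] with σ hσ
  rw [dist_eq_norm]
  refine lt_of_le_of_lt (hs _ (fun γ => ?_) fun γ hγ => ?_) (by linarith)
  · show |B.f γ (B.S σ x - B.S σ0 x)| ≤ _
    rw [map_sub, co_S, co_S, map_smul, smul_eq_mul, abs_mul]
    refine le_trans (abs_sub _ _) ?_
    rw [abs_mul, abs_mul, abs_sz, abs_sz, abs_two]
    linarith
  · rw [map_sub, co_S, co_S, hσ γ hγ, sub_self]

/-- A smooth lattice norm obtained by averaging over sign changes. -/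
theorem exists_lattice (N : Seminorm ℝ X) (a b : ℝ) (ha : 0 < a) (hb : 0 < b)
    (hN : ∀ x, a * ‖x‖ ≤ N x ∧ N x ≤ b * ‖x‖) (hd : ∀ x, x ≠ 0 → DifferentiableAt ℝ N x) :
    ∃ (p : Seminorm ℝ X) (c C : ℝ), 0 < c ∧ 0 < C ∧ (∀ x, c * ‖x‖ ≤ p x ∧ p x ≤ C * ‖x‖) ∧
      (∀ x y, B.Dom x (fun γ => B.f γ y) → p y ≤ p x) ∧
      ∀ u, u ≠ 0 → ∀ h, Tendsto (fun t : ℝ => t⁻¹ * (p (u + t • h) + p (u - t • h) - 2 * p u))
        (𝓝[>] 0) (𝓝 0) := by
  classical
  obtain ⟨K, hK, hKle⟩ := B.exists_K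
  have hNc : Continuous N := continuous_of_bound N fun x => (hN x).2
  have hint : ∀ x, Integrable (fun σ => N (B.S σ x)) (haar Γ) :=
    fun x => integrable_cont (hNc.comp (B.continuous_S x))
  have hS1 : ∀ σ x, ‖B.S σ x‖ ≤ K * ‖x‖ := fun σ x => hKle _ _ fun γ => by
    show |B.f γ (B.S σ x)| ≤ _
    rw [co_S, abs_mul, abs_sz, one_mul]
  have hS2 : ∀ σ x, ‖x‖ ≤ K * ‖B.S σ x‖ := fun σ x => hKle _ _ fun γ => by
    rw [co_S, abs_mul, abs_sz, one_mul]
  let p : Seminorm ℝ X := Seminorm.of (fun x => ∫ σ, N (B.S σ x) ∂(haar Γ))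
    (fun x y => by
      rw [← integral_add (hint x) (hint y)]
      refine integral_mono (hint _) ((hint x).add (hint y)) fun σ => ?_
      show N (B.S σ (x + y)) ≤ _
      rw [S_add]
      exact map_add_le_add N _ _)
    (fun c x => by
      rw [← integral_const_mul]
      congr 1
      funext σ
      rw [S_smul, map_smul_eq_mul])
  have hp : ∀ x, p x = ∫ σ, N (B.S σ x) ∂(haar Γ) := fun _ => rfl
  have hup : ∀ x, p x ≤ b * K * ‖x‖ := by
    intro x
    rw [hp]
    refine le_trans (integral_mono (hint x) (integrable_const (b * K * ‖x‖)) fun σ => ?_) (by simp)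
    have := mul_le_mul_of_nonneg_left (hS1 σ x) hb.le
    have := (hN (B.S σ x)).2
    show N (B.S σ x) ≤ b * K * ‖x‖
    linarith
  have hinv : ∀ τ x, p (B.S τ x) = p x := by
    intro τ x
    rw [hp, hp]
    simp only [S_S]
    exact integral_add_left_eq_self (fun σ => N (B.S σ x)) τ
  have hone : ∀ x y δ, (∀ γ, γ ≠ δ → B.f γ y = B.f γ x) → |B.f δ y| ≤ |B.f δ x| → p y ≤ p x := by
    intro x y δ h1 h2
    set r := B.f δ y / B.f δ x with hr
    have hr1 : |r| ≤ 1 := by
      rw [hr, abs_div]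
      exact div_le_one_of_le₀ h2 (abs_nonneg _)
    have hr2 : r * B.f δ x = B.f δ y := by
      by_cases h0 : B.f δ x = 0
      · rw [h0, abs_zero] at h2
        rw [h0, abs_nonpos_iff.mp h2, mul_zero]
      · rw [hr, div_mul_cancel₀ _ h0]
    let τ : Gp Γ := fun γ => if γ = δ then 1 else 0
    have hy : y = ((1 + r) / 2) • x + ((1 - r) / 2) • B.S τ x := by
      refine B.ext' fun γ => ?_
      rw [map_add, map_smul, map_smul, co_S, smul_eq_mul, smul_eq_mul]
      by_cases hγ : γ = δ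
      · subst hγ
        have : sz (τ γ) = -1 := by simp [τ, sz]
        rw [this, ← hr2]; ring
      · have : sz (τ γ) = 1 := by simp [τ, sz, hγ]
        rw [this, h1 γ hγ]; ring
    have h3 := abs_le.mp hr1
    have h4 := map_add_le_add p (((1 + r) / 2) • x) (((1 - r) / 2) • B.S τ x)
    rw [← hy, map_smul_eq_mul, map_smul_eq_mul, hinv, Real.norm_eq_abs, Real.norm_eq_abs,
      abs_of_nonneg (by linarith), abs_of_nonneg (by linarith)] at h4
    linarith
  refine ⟨p, a / K, b * K, by positivity, by positivity, fun x => ⟨?_, hup x⟩, fun x y hy => ?_,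
    fun u hu h => ?_⟩
  · rw [hp]
    refine le_trans (by simp) (integral_mono (integrable_const (a / K * ‖x‖)) (hint x) fun σ => ?_)
    have h1 := mul_le_mul_of_nonneg_left (hS2 σ x) (show 0 ≤ a / K by positivity)
    have h2 := (hN (B.S σ x)).1
    have h3 : a / K * (K * ‖B.S σ x‖) = a * ‖B.S σ x‖ := by field_simp
    show a / K * ‖x‖ ≤ N (B.S σ x)
    linarith
  · have hdom : ∀ s : Finset Γ, B.Dom x (fun γ => if γ ∈ s then B.f γ y else B.f γ x) := by
      intro s γ
      dsimp only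
      split_ifs
      · exact hy γ
      · exact le_rfl
    have hfin : ∀ s : Finset Γ, p (B.mk' fun γ => if γ ∈ s then B.f γ y else B.f γ x) ≤ p x := by
      intro s
      induction s using Finset.induction_on with
      | empty =>
        refine le_of_eq (congrArg p (B.ext' fun γ => ?_))
        rw [B.co_mk (hdom ∅)]
        simp
      | insert δ s hδ ih =>
        refine le_trans (hone _ _ δ (fun γ hγ => ?_) ?_) ih
        · rw [B.co_mk (hdom _), B.co_mk (hdom _)]
          simp [hγ]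
        · rw [B.co_mk (hdom _), B.co_mk (hdom _)]
          simpa [hδ] using hy δ
    refine le_of_small (k := b * K) (by positivity) fun ε hε => ?_
    obtain ⟨s, hs⟩ := B.tail' ((2:ℝ) • x) hε
    set z := B.mk' fun γ => if γ ∈ s then B.f γ y else B.f γ x with hz
    have h1 : ‖y - z‖ ≤ ε := by
      refine hs _ (fun γ => ?_) fun γ hγ => ?_
      · show |B.f γ (y - z)| ≤ _
        rw [map_sub, hz, B.co_mk (hdom _), map_smul, smul_eq_mul, abs_mul, abs_two]
        have h2 : |B.f γ y| ≤ |B.f γ x| := hy γ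
        have h3 := hdom s γ
        have h4 := abs_sub (B.f γ y) (if γ ∈ s then B.f γ y else B.f γ x)
        dsimp only at h3
        linarith
      · rw [map_sub, hz, B.co_mk (hdom _), if_pos hγ, sub_self]
    have h2 := map_add_le_add p z (y - z)
    rw [add_sub_cancel] at h2
    have h3 := hup (y - z)
    have h4 := hfin s
    have h5 := mul_le_mul_of_nonneg_left h1 (show 0 ≤ b * K by positivity)
    rw [← hz] at h4
    linarith
  · have hlim := tendsto_integral_filter_of_dominated_convergence (μ := haar Γ) (l := 𝓝[>] (0:ℝ))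
      (F := fun t σ => t⁻¹ * (N (B.S σ (u + t • h)) + N (B.S σ (u - t • h)) - 2 * N (B.S σ u)))
      (f := fun _ => (0:ℝ)) (fun σ => 2 * N (B.S σ h)) ?_ ?_ ((hint h).const_mul 2) ?_
    · rw [integral_zero] at hlim
      refine hlim.congr fun t => ?_
      have hi : Integrable (fun σ => N (B.S σ (u + t • h)) + N (B.S σ (u - t • h))) (haar Γ) :=
        (hint _).add (hint _)
      rw [integral_const_mul, integral_sub hi ((hint u).const_mul 2),
        integral_add (hint _) (hint _), integral_const_mul]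
      rfl
    · exact Eventually.of_forall fun t =>
        ((((hint _).add (hint _)).sub ((hint u).const_mul 2)).const_mul _).aestronglyMeasurable
    · refine eventually_nhdsWithin_of_forall fun t ht => Eventually.of_forall fun σ => ?_
      have ht' : (0:ℝ) < t := ht
      have e1 : B.S σ (u - t • h) = B.S σ u - t • B.S σ h := by
        rw [sub_eq_add_neg, ← neg_smul, S_add, S_smul, neg_smul, ← sub_eq_add_neg]
      rw [S_add, S_smul, e1, Real.norm_eq_abs, abs_mul, abs_of_pos (inv_pos.mpr ht'),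
        inv_mul_le_iff₀ ht']
      have h1 := map_add_le_add N (B.S σ u) (t • B.S σ h)
      have h2 := map_sub_le_add N (B.S σ u) (t • B.S σ h)
      have h3 := map_add_le_add N (B.S σ u + t • B.S σ h) (B.S σ u - t • B.S σ h)
      have h4 : B.S σ u + t • B.S σ h + (B.S σ u - t • B.S σ h) = (2:ℝ) • B.S σ u := by
        rw [two_smul]; abel
      rw [h4, map_smul_eq_mul, Real.norm_ofNat] at h3
      rw [map_smul_eq_mul, Real.norm_eq_abs, abs_of_pos ht'] at h1 h2
      rw [abs_of_nonneg (by linarith)]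
      linarith
    · refine Eventually.of_forall fun σ => ?_
      have hne : B.S σ u ≠ 0 := by
        intro h0
        have := hS2 σ u
        rw [h0, norm_zero, mul_zero] at this
        exact hu (norm_le_zero_iff.mp this)
      have hw := (hd _ hne).hasFDerivAt
      have hG : GD N (B.S σ u) (fderiv ℝ N (B.S σ u)) := by
        intro k
        have h1 : HasDerivAt (fun t : ℝ => B.S σ u + t • k) k 0 := by
          simpa using ((hasDerivAt_id (0:ℝ)).smul_const k).const_add (B.S σ u)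
        have h2 : HasFDerivAt N (fderiv ℝ N (B.S σ u)) (B.S σ u + (0:ℝ) • k) := by simpa using hw
        exact h2.comp_hasDerivAt (0:ℝ) h1
      have h3 := (hG.slope (B.S σ h)).add (hG.slope (-B.S σ h))
      rw [map_neg, add_neg_cancel] at h3
      refine h3.congr fun t => ?_
      have e1 : B.S σ (u - t • h) = B.S σ u + t • -B.S σ h := by
        rw [sub_eq_add_neg, ← neg_smul, S_add, S_smul, neg_smul, smul_neg]
      rw [S_add, S_smul, e1]
      ring

end Bas

end Pool.Agent.H2.Ub
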