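import Pool.Agent.H2.UbA

set_option autoImplicit false

namespace Pool.Agent.H2.Ub

open Filter Topology Pool.Agent.H2.Sm Pool.Agent.H2.Gs
open scoped ENNReal

variable {X : Type} [NormedAddCommGroup X] [NormedSpace ℝ X] {Γ : Type}

lemma exists_support (p : Seminorm ℝ X) (hp : Continuous p) (u : X) (hu : 0 < p u) :
    ∃ z : StrongDual ℝ X, (∀ x, z x ≤ p x) ∧ z u = p u := by
  have hconv : Convex ℝ {y : X | p y < p u} := by
    have := p.convex_ball 0 (p u)
    convert this using 1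
    ext y
    simp
  obtain ⟨g, hg⟩ := geometric_hahn_banach_open_point (x := u) hconv
    (isOpen_lt hp continuous_const) (by simp)
  have h0 : 0 < g u := by simpa using hg 0 (by simpa using hu)
  refine ⟨(p u / g u) • g, fun x => ?_, ?_⟩
  · rw [ContinuousLinearMap.smul_apply, smul_eq_mul]
    refine le_of_forall_pos_le_add fun ε hε => ?_
    have hx := apply_nonneg p x
    have h1 := hg ((p u / (p x + ε)) • x) (by
      show p _ < p u
      rw [map_smul_eq_mul, Real.norm_eq_abs, abs_of_pos (by positivity), div_mul_eq_mul_div,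
        div_lt_iff₀ (by positivity)]
      nlinarith)
    rw [map_smul, smul_eq_mul, div_mul_eq_mul_div, div_lt_iff₀ (by positivity)] at h1
    rw [div_mul_eq_mul_div, div_le_iff₀ h0]
    linarith
  · rw [ContinuousLinearMap.smul_apply, smul_eq_mul, div_mul_cancel₀ _ h0.ne']

lemma gd_of_sym (d : X → ℝ) (p : Seminorm ℝ X) (z u : X) (z0 : StrongDual ℝ X)
    (hz0 : ∀ x, z0 x ≤ p x) (hz1 : z0 u = p u)
    (hs : ∀ h, Tendsto (fun t : ℝ => t⁻¹ * (p (u + t • h) + p (u - t • h) - 2 * p u))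
        (𝓝[>] 0) (𝓝 0))
    (hd : d z = p u) (hA : ∀ h, d (z + h) ≤ p (u + h))
    (hB : ∀ h, 2 * d z ≤ d (z + h) + d (z - h)) : GD d z z0 := by
  intro h
  rw [hasDerivAt_iff_isLittleO_nhds_zero, Asymptotics.isLittleO_iff]
  intro ε hε
  have h1 := (hs h).eventually (gt_mem_nhds hε)
  rw [eventually_nhdsWithin_iff, Metric.eventually_nhds_iff] at h1
  obtain ⟨δ, hδ, h1⟩ := h1
  have h2 : ∀ t : ℝ, |t| < δ → p (u + t • h) + p (u - t • h) - 2 * p u ≤ ε * |t| := by
    have h3 : ∀ t : ℝ, 0 < t → t < δ → p (u + t • h) + p (u - t • h) - 2 * p u ≤ ε * t := by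
      intro t ht ht'
      have := h1 (y := t) (by simpa [abs_of_pos ht] using ht') ht
      rw [inv_mul_lt_iff₀ ht] at this
      linarith
    intro t ht
    rcases lt_trichotomy t 0 with h4 | h4 | h4
    · rw [abs_of_neg h4] at ht ⊢
      have := h3 (-t) (by linarith) ht
      rw [neg_smul, ← sub_eq_add_neg, sub_neg_eq_add] at this
      linarith
    · subst h4
      simp [two_mul]
    · rw [abs_of_pos h4] at ht ⊢
      exact h3 t h4 ht
  filter_upwards [Metric.ball_mem_nhds (0:ℝ) hδ] with t ht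
  have ht' : |t| < δ := by simpa using ht
  simp only [zero_add, zero_smul, add_zero, smul_eq_mul, Real.norm_eq_abs]
  have a1 := h2 t ht'
  have a2 := hA (t • h)
  have a3 := hA (-(t • h))
  have a4 := hB (t • h)
  have a5 := hz0 (u + t • h)
  have a6 := hz0 (u - t • h)
  rw [← sub_eq_add_neg, ← sub_eq_add_neg] at a3
  rw [map_add, map_smul, smul_eq_mul] at a5
  rw [map_sub, map_smul, smul_eq_mul] at a6
  rw [abs_le]
  constructor <;> linarith

lemma sqrt_lip (a b e : ℝ) : √(a ^ 2 + e ^ 2) ≤ √(b ^ 2 + e ^ 2) + |a - b| := by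
  have h1 : |b| ≤ √(b ^ 2 + e ^ 2) := Real.abs_le_sqrt (by nlinarith [sq_nonneg e])
  have h2 := Real.sq_sqrt (show 0 ≤ b ^ 2 + e ^ 2 by positivity)
  have h3 := abs_nonneg (a - b)
  have h4 : b * (a - b) ≤ |b| * |a - b| := by rw [← abs_mul]; exact le_abs_self _
  have h5 := mul_le_mul_of_nonneg_right h1 h3
  have h6 := sq_abs (a - b)
  rw [Real.sqrt_le_iff]
  refine ⟨by positivity, ?_⟩
  nlinarith

lemma gd_sqrt (d : X → ℝ) (p : Seminorm ℝ X) (h0 : ∀ z, 0 ≤ d z)
    (hL : ∀ z h, d (z + h) ≤ d z + p h) (hG : ∀ z, d z ≠ 0 → ∃ g, GD d z g) {e : ℝ} (he : 0 < e)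
    (z : X) : ∃ g, GD (fun x => √(d x ^ 2 + e ^ 2)) z g := by
  have h1 : ∃ w, GD (fun x => d x ^ 2) z w := by
    by_cases hz : d z = 0
    · refine ⟨0, fun h => ?_⟩
      rw [hasDerivAt_iff_isLittleO_nhds_zero, Asymptotics.isLittleO_iff]
      intro ε hε
      have hp := apply_nonneg p h
      filter_upwards [Metric.ball_mem_nhds (0:ℝ) (show 0 < ε / (p h ^ 2 + 1) by positivity)]
        with t ht
      have ht' : |t| < ε / (p h ^ 2 + 1) := by simpa using ht
      rw [lt_div_iff₀ (by positivity)] at ht'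
      have a1 := hL z (t • h)
      rw [hz, zero_add, map_smul_eq_mul, Real.norm_eq_abs] at a1
      have a2 := pow_le_pow_left₀ (h0 _) a1 2
      have a3 := abs_nonneg t
      simp only [zero_add, zero_smul, add_zero, smul_eq_mul, Real.norm_eq_abs, hz,
        ContinuousLinearMap.zero_apply, mul_zero, sub_zero]
      rw [show (0:ℝ) ^ 2 = 0 by norm_num, sub_zero, abs_of_nonneg (sq_nonneg _)]
      nlinarith [mul_le_mul_of_nonneg_left ht'.le a3]
    · obtain ⟨g, hg⟩ := hG z hz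
      refine ⟨(2 * d z) • g, fun h => ?_⟩
      have := (hg h).pow 2
      simp only [zero_smul, add_zero, Nat.cast_ofNat, Nat.add_one_sub_one, pow_one] at this
      exact this
  obtain ⟨w, hw⟩ := h1
  refine ⟨(1 / (2 * √(d z ^ 2 + e ^ 2))) • w, fun h => ?_⟩
  have := ((hw h).add_const (e ^ 2)).sqrt (by positivity)
  simp only [zero_smul, add_zero] at this
  convert this using 1
  rw [ContinuousLinearMap.smul_apply, smul_eq_mul]
  ring

lemma embed {ι : Type} [Countable ι] [Nonempty ι] (G : ι → X → ℝ) (c C : ℝ) (hc : 0 < c)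
    (hC : 0 < C) (hL : ∀ i x y, |G i x - G i y| ≤ C * ‖x - y‖) (hG : ∀ i x, ∃ g, GD (G i) x g)
    (hlow : ∀ x y, ∀ δ > 0, ∃ i, c * ‖x - y‖ ≤ |G i x - G i y| + δ) :
    ∃ (φ : X → lp (fun _ : ℕ => ℝ) ∞) (K L : NNReal),
      LipschitzWith K φ ∧ AntilipschitzWith L φ ∧
      ∀ (j : ℕ) (x : X), ∃ g : X →L[ℝ] ℝ, ∀ h : X,
        HasDerivAt (fun t : ℝ => φ (x + t • h) j) (g h) 0 := by
  obtain ⟨σ, hσ⟩ := exists_surjective_nat ι
  let φ : X → lp (fun _ : ℕ => ℝ) ∞ := fun x => ⟨fun j => G (σ j) x - G (σ j) 0,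
    memℓp_infty ⟨C * ‖x - 0‖, by
      rintro _ ⟨j, rfl⟩
      exact hL _ _ _⟩⟩
  have hφ : ∀ x y j, (φ x - φ y) j = G (σ j) x - G (σ j) y := by
    intro x y j
    rw [lp.coeFn_sub, Pi.sub_apply]
    show G (σ j) x - G (σ j) 0 - (G (σ j) y - G (σ j) 0) = _
    ring
  refine ⟨φ, ⟨C, hC.le⟩, ⟨c⁻¹, by positivity⟩, LipschitzWith.of_dist_le_mul fun x y => ?_,
    AntilipschitzWith.of_le_mul_dist fun x y => ?_, fun j x => ?_⟩
  · rw [dist_eq_norm, dist_eq_norm]
    refine lp.norm_le_of_forall_le (by positivity) fun j => ?_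
    rw [hφ]
    exact hL _ _ _
  · rw [dist_eq_norm, dist_eq_norm]
    show ‖x - y‖ ≤ c⁻¹ * ‖φ x - φ y‖
    rw [le_inv_mul_iff₀ hc]
    refine le_of_forall_pos_le_add fun δ hδ => ?_
    obtain ⟨i, hi⟩ := hlow x y δ hδ
    obtain ⟨j, rfl⟩ := hσ i
    have := lp.norm_apply_le_norm ENNReal.top_ne_zero (φ x - φ y) j
    rw [hφ, Real.norm_eq_abs] at this
    linarith
  · obtain ⟨g, hg⟩ := hG (σ j) x
    exact ⟨g, fun h => (hg h).sub_const _⟩

lemma exists_family (ι : Γ → ℝ) (hι : Function.Injective ι) :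
    ∃ ρ : ℕ → Γ → ℝ, (∀ n γ, 0 ≤ ρ n γ) ∧ ∀ (s : Finset Γ) (c : Γ → ℝ), (∀ γ, 0 ≤ c γ) →
      ∀ η > 0, ∃ n, ∀ γ ∈ s, c γ ≤ ρ n γ ∧ ρ n γ ≤ c γ + η := by
  classical
  obtain ⟨g, hg⟩ := TopologicalSpace.exists_dense_seq C(ℝ, ℝ)
  refine ⟨fun n γ => |g n (ι γ)|, fun _ _ => abs_nonneg _, fun s c hc η hη => ?_⟩
  have hopen : IsOpen {k : C(ℝ, ℝ) | ∀ γ ∈ s, c γ < k (ι γ) ∧ k (ι γ) < c γ + η} := by
    simp only [Set.setOf_forall]
    refine isOpen_biInter_finset fun γ _ => ?_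
    have hk : Continuous fun k : C(ℝ, ℝ) => k (ι γ) := continuous_eval_const _
    exact (isOpen_lt continuous_const hk).inter (isOpen_lt hk continuous_const)
  let P := Lagrange.interpolate s ι (fun γ => c γ + η / 2)
  obtain ⟨n, hn⟩ := hg.exists_mem_open hopen ⟨⟨fun t => P.eval t, P.continuous⟩, fun γ hγ => by
    have : P.eval (ι γ) = c γ + η / 2 := Lagrange.eval_interpolate_at_node _ hι.injOn hγ
    show c γ < P.eval (ι γ) ∧ P.eval (ι γ) < c γ + η
    rw [this]
    constructor <;> linarith⟩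
  refine ⟨n, fun γ hγ => ?_⟩
  obtain ⟨h1, h2⟩ := hn γ hγ
  have := hc γ
  dsimp only
  rw [abs_of_nonneg (by linarith)]
  exact ⟨h1.le, h2.le⟩

namespace Bas

variable (B : Bas X Γ)

include B in
lemma exists_inj (D : Set X) (hD : Dense D) (hc : Cardinal.mk D = Cardinal.continuum) :
    ∃ ι : Γ → ℝ, Function.Injective ι := by
  have h1 : (Set.univ : Set Γ) = ⋃ d : D, {γ | B.f γ d ≠ 0} := by
    refine (Set.eq_univ_of_forall fun γ => ?_).symm
    have hopen : IsOpen {x : X | B.f γ x ≠ 0} :=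
      isOpen_ne_fun (B.f γ).continuous continuous_const
    obtain ⟨d, hd1, hd2⟩ := hD.exists_mem_open hopen ⟨B.e γ, by
      show B.f γ (B.e γ) ≠ 0
      rw [B.h1]; exact one_ne_zero⟩
    exact Set.mem_iUnion.mpr ⟨⟨d, hd1⟩, hd2⟩
  have h2 : ∀ d : D, Cardinal.mk {γ | B.f γ d ≠ 0} ≤ Cardinal.aleph0 := by
    intro d
    rw [Cardinal.le_aleph0_iff_set_countable]
    refine (B.hs d).summable.countable_support.mono fun γ hγ => ?_
    intro h0
    have := congrArg (B.f γ) h0
    rw [map_smul, B.h1, map_zero, smul_eq_mul, mul_one] at this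
    exact hγ this
  have h3 : Cardinal.mk Γ ≤ Cardinal.mk ℝ := by
    rw [← Cardinal.mk_univ (α := Γ), h1, Cardinal.mk_real]
    refine le_trans (Cardinal.mk_iUnion_le _) ?_
    rw [hc]
    refine le_trans (mul_le_mul_right (ciSup_le' h2) _) ?_
    rw [Cardinal.continuum_mul_aleph0]
  obtain ⟨ι⟩ := h3
  exact ⟨ι, ι.injective⟩

variable [CompleteSpace X]

noncomputable def U (ρ : Γ → ℝ) (z : X) : X := B.mk' fun γ => max (B.f γ z - ρ γ) 0

lemma co_U {ρ : Γ → ℝ} (hρ : ∀ γ, 0 ≤ ρ γ) (z : X) (γ : Γ) :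
    B.f γ (B.U ρ z) = max (B.f γ z - ρ γ) 0 := by
  refine B.co_mk (x := z) (fun γ => ?_) γ
  rw [abs_of_nonneg (le_max_right _ _)]
  have := hρ γ
  have := le_abs_self (B.f γ z)
  exact max_le (by linarith) (abs_nonneg _)

theorem main (p : Seminorm ℝ X) (c C : ℝ) (hc : 0 < c) (hC : 0 < C)
    (hp : ∀ x, c * ‖x‖ ≤ p x ∧ p x ≤ C * ‖x‖)
    (hm : ∀ x y, B.Dom x (fun γ => B.f γ y) → p y ≤ p x)
    (hs : ∀ u, u ≠ 0 → ∀ h, Tendsto
      (fun t : ℝ => t⁻¹ * (p (u + t • h) + p (u - t • h) - 2 * p u)) (𝓝[>] 0) (𝓝 0))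
    (ι : Γ → ℝ) (hι : Function.Injective ι) :
    ∃ (φ : X → lp (fun _ : ℕ => ℝ) ∞) (K L : NNReal),
      LipschitzWith K φ ∧ AntilipschitzWith L φ ∧
      ∀ (j : ℕ) (x : X), ∃ g : X →L[ℝ] ℝ, ∀ h : X,
        HasDerivAt (fun t : ℝ => φ (x + t • h) j) (g h) 0 := by
  classical
  obtain ⟨ρ, hρ, hfam⟩ := exists_family ι hι
  have hpc : Continuous p := continuous_of_bound p fun x => (hp x).2
  let d : ℕ → X → ℝ := fun n z => p (B.U (ρ n) z)
  have hA : ∀ n z h, d n (z + h) ≤ p (B.U (ρ n) z + h) := by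
    intro n z h
    refine hm _ _ fun γ => ?_
    show |B.f γ (B.U (ρ n) (z + h))| ≤ _
    rw [map_add, B.co_U (hρ n), B.co_U (hρ n), map_add, abs_of_nonneg (le_max_right _ _)]
    refine max_le (le_trans ?_ (le_abs_self _)) (abs_nonneg _)
    have := le_max_left (B.f γ z - ρ n γ) 0
    linarith
  have hL : ∀ n z h, d n (z + h) ≤ d n z + p h :=
    fun n z h => le_trans (hA n z h) (map_add_le_add p _ _)
  have hB : ∀ n z h, 2 * d n z ≤ d n (z + h) + d n (z - h) := by
    intro n z h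
    refine le_trans ?_ (map_add_le_add p _ _)
    have h1 : p ((2:ℝ) • B.U (ρ n) z) = 2 * d n z := by
      rw [map_smul_eq_mul, Real.norm_ofNat]
    rw [← h1]
    refine hm _ _ fun γ => ?_
    show |B.f γ ((2:ℝ) • B.U (ρ n) z)| ≤ _
    rw [map_smul, map_add, B.co_U (hρ n), B.co_U (hρ n), B.co_U (hρ n), map_add, map_sub,
      smul_eq_mul, abs_of_nonneg (mul_nonneg zero_le_two (le_max_right _ _))]
    refine le_trans ?_ (le_abs_self _)
    have a1 := le_max_left (B.f γ z + B.f γ h - ρ n γ) 0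
    have a2 := le_max_left (B.f γ z - B.f γ h - ρ n γ) 0
    have a3 := le_max_right (B.f γ z + B.f γ h - ρ n γ) 0
    have a4 := le_max_right (B.f γ z - B.f γ h - ρ n γ) 0
    rcases le_total (B.f γ z - ρ n γ) 0 with h2 | h2
    · rw [max_eq_right h2]; linarith
    · rw [max_eq_left h2]; linarith
  have hG : ∀ n z, d n z ≠ 0 → ∃ g, GD (d n) z g := by
    intro n z hz
    have hu : 0 < p (B.U (ρ n) z) := lt_of_le_of_ne (apply_nonneg p _) (Ne.symm hz)
    obtain ⟨g, hg1, hg2⟩ := exists_support p hpc _ hu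
    refine ⟨g, gd_of_sym (d n) p z _ g hg1 hg2 (hs _ ?_) rfl (hA n z) (hB n z)⟩
    intro h0
    rw [h0, map_zero] at hu
    exact lt_irrefl _ hu
  have hdl : ∀ n x y, |d n x - d n y| ≤ C * ‖x - y‖ := by
    intro n x y
    have h1 := hL n y (x - y)
    have h2 := hL n x (-(x - y))
    rw [add_sub_cancel] at h1
    rw [map_neg_eq_map, neg_sub, add_sub_cancel] at h2
    have := (hp (x - y)).2
    rw [abs_le]
    constructor <;> linarith
  let F : ℕ → ℕ → X → ℝ := fun n m x => √(d n x ^ 2 + (1 / ((m:ℝ) + 1)) ^ 2)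
  have hFl : ∀ n m x y, |F n m x - F n m y| ≤ C * ‖x - y‖ := by
    intro n m x y
    have h1 := sqrt_lip (d n x) (d n y) (1 / ((m:ℝ) + 1))
    have h2 := sqrt_lip (d n y) (d n x) (1 / ((m:ℝ) + 1))
    rw [abs_sub_comm] at h2
    have := hdl n x y
    rw [abs_le]
    constructor
    · show _ ≤ √_ - √_
      linarith
    · show √_ - √_ ≤ _
      linarith
  have hFG : ∀ n m x, ∃ g, GD (F n m) x g := fun n m x =>
    gd_sqrt (d n) p (fun z => apply_nonneg p _) (hL n) (hG n) (by positivity) x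
  have hkey : ∀ x y, ∀ δ > 0, ∃ n m,
      p (B.U (fun γ => max (B.f γ y) 0) x) ≤ F n m x - F n m y + δ := by
    intro x y δ hδ
    obtain ⟨s1, hs1⟩ := B.tail' x (show 0 < δ / (4 * C) by positivity)
    obtain ⟨s2, hs2⟩ := B.tail' y (show 0 < δ / (4 * C) by positivity)
    set w : X := ∑ γ ∈ s1 ∪ s2, B.e γ with hw
    have hwγ : ∀ γ, B.f γ w = if γ ∈ s1 ∪ s2 then 1 else 0 := by
      intro γ
      rw [hw, map_sum]
      split_ifs with h
      · rw [Finset.sum_eq_single_of_mem γ h fun b _ hb => B.h0 _ _ (Ne.symm hb), B.h1]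
      · exact Finset.sum_eq_zero fun b hb => B.h0 _ _ fun h' => h (h' ▸ hb)
    have hpw := apply_nonneg p w
    obtain ⟨n, hn⟩ := hfam (s1 ∪ s2) (fun γ => max (B.f γ y) 0) (fun γ => le_max_right _ _)
      (δ / (4 * (p w + 1))) (by positivity)
    obtain ⟨m, hm'⟩ := exists_nat_one_div_lt (show 0 < δ / 4 by positivity)
    refine ⟨n, m, ?_⟩
    set η := δ / (4 * (p w + 1)) with hη
    have hη0 : 0 < η := by positivity
    have hdom : B.Dom x (fun γ => if γ ∈ s1 ∪ s2 then 0 else |B.f γ x|) := by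
      intro γ
      dsimp only
      split_ifs <;> simp
    set r := B.mk' (fun γ => if γ ∈ s1 ∪ s2 then 0 else |B.f γ x|) with hr
    have hrγ : ∀ γ, B.f γ r = if γ ∈ s1 ∪ s2 then 0 else |B.f γ x| := B.co_mk hdom
    have a1 : ‖r‖ ≤ δ / (4 * C) := by
      refine hs1 r (fun γ => ?_) fun γ hγ => ?_
      · show |B.f γ r| ≤ _
        rw [hrγ]
        exact hdom γ
      · rw [hrγ, if_pos (Finset.mem_union_left _ hγ)]
    have a2 : ‖B.U (ρ n) y‖ ≤ δ / (4 * C) := by
      refine hs2 _ (fun γ => ?_) fun γ hγ => ?_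
      · show |B.f γ (B.U (ρ n) y)| ≤ _
        rw [B.co_U (hρ n), abs_of_nonneg (le_max_right _ _)]
        have := hρ n γ
        have := le_abs_self (B.f γ y)
        exact max_le (by linarith) (abs_nonneg _)
      · rw [B.co_U (hρ n)]
        have := (hn γ (Finset.mem_union_right _ hγ)).1
        have := le_max_left (B.f γ y) 0
        exact max_eq_right (by linarith)
    have a3 : p (B.U (fun γ => max (B.f γ y) 0) x) ≤ p (B.U (ρ n) x + η • w + r) := by
      refine hm _ _ fun γ => ?_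
      show |B.f γ (B.U (fun γ => max (B.f γ y) 0) x)| ≤ _
      rw [map_add, map_add, map_smul, B.co_U (hρ n), B.co_U (fun γ => le_max_right _ _), hwγ, hrγ,
        smul_eq_mul, abs_of_nonneg (le_max_right _ _)]
      refine le_trans ?_ (le_abs_self _)
      have b1 := le_max_left (B.f γ x - ρ n γ) 0
      have b2 := le_max_right (B.f γ x - ρ n γ) 0
      have b3 := le_max_right (B.f γ y) 0
      split_ifs with h
      · have := (hn γ h).2
        exact max_le (by linarith) (by linarith)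
      · have := le_abs_self (B.f γ x)
        have := abs_nonneg (B.f γ x)
        exact max_le (by linarith) (by linarith)
    have a4 := map_add_le_add p (B.U (ρ n) x + η • w) r
    have a5 := map_add_le_add p (B.U (ρ n) x) (η • w)
    rw [map_smul_eq_mul, Real.norm_eq_abs, abs_of_pos hη0] at a5
    have a6 : η * p w ≤ δ / 4 := by
      rw [hη, div_mul_eq_mul_div, div_le_div_iff₀ (by positivity) (by positivity)]
      nlinarith
    have a7 : C * (δ / (4 * C)) = δ / 4 := by field_simp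
    have a8 := le_trans (hp r).2 (mul_le_mul_of_nonneg_left a1 hC.le)
    have a9 := le_trans (hp _).2 (mul_le_mul_of_nonneg_left a2 hC.le)
    have b1 : d n x ≤ F n m x :=
      le_trans (le_abs_self _) (Real.abs_le_sqrt (by nlinarith [sq_nonneg (1 / ((m:ℝ) + 1))]))
    have b2 : F n m y ≤ d n y + 1 / ((m:ℝ) + 1) := by
      have e1 : 0 ≤ d n y := apply_nonneg p _
      have e2 : 0 ≤ 1 / ((m:ℝ) + 1) := by positivity
      refine Real.sqrt_le_iff.mpr ⟨by positivity, ?_⟩
      nlinarith [mul_nonneg e1 e2]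
    have b3 : d n x = p (B.U (ρ n) x) := rfl
    have b4 : d n y = p (B.U (ρ n) y) := rfl
    linarith
  refine embed (ι := Bool × ℕ × ℕ) (fun i x => F i.2.1 i.2.2 (if i.1 then x else -x)) (c / 4) C
    (by positivity) hC (fun i x y => ?_) (fun i x => ?_) fun x y δ hδ => ?_
  · rcases i with ⟨_ | _, n, m⟩
    · have := hFl n m (-x) (-y)
      rwa [← neg_sub', norm_neg] at this
    · exact hFl n m x y
  · rcases i with ⟨_ | _, n, m⟩
    · obtain ⟨g, hg⟩ := hFG n m (-x)
      refine ⟨-g, fun h => ?_⟩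
      have := hg (-h)
      rw [map_neg] at this
      simp only [smul_neg, ← neg_add] at this
      exact this
    · exact hFG n m x
  · let V : X → X → X := fun a b => B.U (fun γ => max (B.f γ b) 0) a
    have hV : ∀ a b γ, B.f γ (V a b) = max (B.f γ a - max (B.f γ b) 0) 0 :=
      fun a b γ => B.co_U (fun γ => le_max_right _ _) a γ
    have h1 : p (x - y) ≤ p (V x y + V y x + V (-x) (-y) + V (-y) (-x)) := by
      refine hm _ _ fun γ => ?_
      show |B.f γ (x - y)| ≤ _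
      rw [map_add, map_add, map_add, hV, hV, hV, hV, map_sub, map_neg, map_neg]
      refine le_trans ?_ (le_abs_self _)
      generalize B.f γ x = a
      generalize B.f γ y = b
      simp only [max_def, abs_le]
      split_ifs <;> constructor <;> linarith
    have h2 := map_add_le_add p (V x y + V y x + V (-x) (-y)) (V (-y) (-x))
    have h3 := map_add_le_add p (V x y + V y x) (V (-x) (-y))
    have h4 := map_add_le_add p (V x y) (V y x)
    have h5 := (hp (x - y)).1
    by_contra hcon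
    push Not at hcon
    obtain ⟨n1, m1, k1⟩ := hkey x y δ hδ
    obtain ⟨n2, m2, k2⟩ := hkey y x δ hδ
    obtain ⟨n3, m3, k3⟩ := hkey (-x) (-y) δ hδ
    obtain ⟨n4, m4, k4⟩ := hkey (-y) (-x) δ hδ
    have l1 : |F n1 m1 x - F n1 m1 y| + δ < _ := hcon (true, n1, m1)
    have l2 : |F n2 m2 x - F n2 m2 y| + δ < _ := hcon (true, n2, m2)
    have l3 : |F n3 m3 (-x) - F n3 m3 (-y)| + δ < _ := hcon (false, n3, m3)
    have l4 : |F n4 m4 (-x) - F n4 m4 (-y)| + δ < _ := hcon (false, n4, m4)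
    have j1 := le_abs_self (F n1 m1 x - F n1 m1 y)
    have j2 := neg_abs_le (F n2 m2 x - F n2 m2 y)
    have j3 := le_abs_self (F n3 m3 (-x) - F n3 m3 (-y))
    have j4 := neg_abs_le (F n4 m4 (-x) - F n4 m4 (-y))
    have v1 : p (V x y) ≤ _ := k1
    have v2 : p (V y x) ≤ _ := k2
    have v3 : p (V (-x) (-y)) ≤ _ := k3
    have v4 : p (V (-y) (-x)) ≤ _ := k4
    linarith

end Bas

end Pool.Agent.H2.Ub
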