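import Mathlib

namespace Pool.Agent.H2.Ultra

/-- The family of sets E_1(p,q) for ultrafilters on the positive integers. -/
def E1 (p q : Ultrafilter ℕ+) : Set (Set ℕ+) :=
  {A | {n : ℕ+ | {m : ℕ+ | n ^ (m : ℕ) ∈ A} ∈ q} ∈ p}

/-- The family of sets E_2(p,q) for ultrafilters on the positive integers. -/
def E2 (p q : Ultrafilter ℕ+) : Set (Set ℕ+) :=
  {A | {n : ℕ+ | {m : ℕ+ | m ^ (n : ℕ) ∈ A} ∈ q} ∈ p}

end Pool.Agent.H2.Ultra
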