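import Mathlib
import Pool.Agent.H2.UltraDefs

namespace Pool.Agent.H2.Ultra

open Filter

def D (G : ℕ → ℕ) (k : ℕ) : ℕ := if G k < k then D G (G k) + 1 else 0

theorem D_eq {G : ℕ → ℕ} {k : ℕ} (h : G k < k) : D G k = D G (G k) + 1 := by rw [D, if_pos h]

theorem big {p : Ultrafilter ℕ+} (hp : ∀ n, p ≠ pure n) (N : ℕ) : ∀ᶠ n : ℕ+ in p, N ≤ (n : ℕ) := by
  refine (p.le_cofinite_or_eq_pure.resolve_right (not_exists.2 hp)) ?_
  refine ((Set.finite_lt_nat N).preimage PNat.coe_injective.injOn).subset fun n hn => ?_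
  simpa using hn

theorem or2 {p q : Ultrafilter ℕ+} {P Q : ℕ+ → ℕ+ → Prop} (h : ∀ᶠ n in p, ∀ᶠ m in q, P n m ∨ Q n m) :
    (∀ᶠ n in p, ∀ᶠ m in q, P n m) ∨ ∀ᶠ n in p, ∀ᶠ m in q, Q n m :=
  Ultrafilter.eventually_or.1 (h.mono fun _ => Ultrafilter.eventually_or.1)

theorem ll {a b : ℕ} (h : 2 ≤ a) (h1 : a ≤ b) (h2 : b ≤ a * a) :
    Nat.log 2 (Nat.log 2 b) = Nat.log 2 (Nat.log 2 a) + 0 ∨
      Nat.log 2 (Nat.log 2 b) = Nat.log 2 (Nat.log 2 a) + 1 := by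
  have e1 := Nat.log_mono_right (b := 2) (Nat.log_mono_right (b := 2) h1)
  have e2 : Nat.log 2 b < 2 * (Nat.log 2 a + 1) := Nat.log_lt_of_lt_pow (by omega) (by
    have := Nat.lt_pow_succ_log_self one_lt_two a
    rw [two_mul, pow_add]; exact h2.trans_lt (Nat.mul_self_lt_mul_self this))
  have e3 : Nat.log 2 (Nat.log 2 b) < Nat.log 2 (Nat.log 2 a) + 2 :=
    Nat.log_lt_of_lt_pow (Nat.log_pos one_lt_two (by omega)).ne' (by
      have := Nat.lt_pow_succ_log_self one_lt_two (Nat.log 2 a)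
      rw [pow_succ] at *; omega)
  omega

theorem ne12 (p q : Ultrafilter ℕ+) (hp : ∀ n, p ≠ pure n) (hq : ∀ n, q ≠ pure n) :
    E1 p q ≠ E2 p q := by
  intro h
  let L := Nat.log 2
  have c1 : ∀ᶠ n : ℕ+ in p, ∀ᶠ m : ℕ+ in q, L (L (L (n ^ (m : ℕ)))) = L (L m) + 0 ∨
      L (L (L (n ^ (m : ℕ)))) = L (L m) + 1 := (big hp 2).mono fun n hn => (big hq n).mono fun m hm =>
    ll (hn.trans hm) (Nat.le_log_of_pow_le one_lt_two (Nat.pow_le_pow_left hn _)) (by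
      refine (Nat.log_mono_right (Nat.pow_le_pow_left (Nat.lt_two_pow_self (n := n)).le _)).trans ?_
      rw [← pow_mul, Nat.log_pow one_lt_two]
      exact Nat.mul_le_mul_right _ hm)
  have c2 : ∀ᶠ n : ℕ+ in p, ∀ᶠ m : ℕ+ in q, L (L (L (m ^ (n : ℕ)))) = L (L (L m)) + 0 ∨
      L (L (L (m ^ (n : ℕ)))) = L (L (L m)) + 1 := Eventually.of_forall fun n =>
    (big hq (2 ^ ((n : ℕ) + 1))).mono fun m hm => by
      have e1 : (n : ℕ) + 1 ≤ L m := Nat.le_log_of_pow_le one_lt_two hm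
      have := n.pos
      refine ll (by omega) (Nat.log_mono_right (Nat.le_self_pow n.ne_zero _)) ?_
      refine (Nat.log_mono_right (Nat.pow_le_pow_left
        (Nat.lt_pow_succ_log_self one_lt_two m).le _)).trans ?_
      rw [← pow_mul, Nat.log_pow one_lt_two]
      change (L m + 1) * n ≤ L m * L m
      nlinarith
  obtain ⟨a, ha⟩ : ∃ a, ∀ᶠ n : ℕ+ in p, ∀ᶠ m : ℕ+ in q, L (L (L (n ^ (m : ℕ)))) = L (L m) + a :=
    (or2 c1).elim (fun h => ⟨_, h⟩) fun h => ⟨_, h⟩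
  obtain ⟨b, b1, hb⟩ : ∃ b ≤ 1, ∀ᶠ n : ℕ+ in p, ∀ᶠ m : ℕ+ in q,
      L (L (L (m ^ (n : ℕ)))) = L (L (L m)) + b :=
    (or2 c2).elim (fun h => ⟨_, by omega, h⟩) fun h => ⟨_, le_rfl, h⟩
  let G : ℕ → ℕ := fun w => L (w - a) + b
  have key : ∀ᶠ n : ℕ+ in p, ∀ᶠ m : ℕ+ in q, D G (L (L (L (n ^ (m : ℕ))))) =
      D G (L (L (L (m ^ (n : ℕ))))) + 1 := (ha.and hb).mono fun n hn =>
    ((hn.1.and hn.2).and (big hq (2 ^ 2 ^ 3))).mono fun m hm => by
      have e1 : 3 ≤ L (L m) :=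
        Nat.le_log_of_pow_le one_lt_two (Nat.le_log_of_pow_le one_lt_two hm.2)
      have e2 : G (L (L m) + a) = L (L (L m)) + b := by simp [G]
      have e3 : L (L (L m)) < L (L m) - 1 := Nat.log_lt_of_lt_pow (by omega) (by
        obtain ⟨k, hk⟩ := Nat.exists_eq_add_of_le' e1
        have := Nat.lt_two_pow_self (n := k)
        rw [hk, show k + 3 - 1 = k + 2 from rfl, pow_add]; omega)
      rw [hm.1.1, hm.1.2, D_eq (by omega), e2]
  have fin : ∀ i, (∀ᶠ n : ℕ+ in p, ∀ᶠ m : ℕ+ in q, D G (L (L (L (n ^ (m : ℕ))))) % 2 = i) → False := by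
    intro i hi
    have h2 : {x : ℕ+ | D G (L (L (L x))) % 2 = i} ∈ E2 p q := h ▸ hi
    obtain ⟨n, n1, n2, n3⟩ := (key.and (hi.and h2)).exists
    obtain ⟨m, m1, m2, m3⟩ := (n1.and (n2.and n3)).exists
    simp only [Set.mem_setOf_eq, PNat.pow_coe] at m3
    omega
  exact (or2 (Eventually.of_forall fun n => Eventually.of_forall fun m =>
    Nat.mod_two_eq_zero_or_one _)).elim (fin 0) (fin 1)

theorem depth {p : Ultrafilter ℕ+} (h : E2 p p = p.sets) (κ : ℕ → ℕ) (R : ℕ → ℕ → Prop)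
    (hR : ∀ k a b, R k a → R k b → a = b)
    (key : ∀ᶠ n : ℕ+ in p, ∀ᶠ m : ℕ+ in p, R (κ (m ^ (n : ℕ))) (κ n) ∧ κ n < κ (m ^ (n : ℕ))) :
    False := by
  let G : ℕ → ℕ := fun k => Classical.epsilon (R k)
  have fin : ∀ i, (∀ᶠ x : ℕ+ in p, D G (κ x) % 2 = i) → False := by
    intro i hi
    have h2 : {x : ℕ+ | D G (κ x) % 2 = i} ∈ E2 p p := h ▸ hi
    obtain ⟨n, n1, n2, n3⟩ := (key.and (hi.and h2)).exists
    obtain ⟨m, m1, m3⟩ := (n1.and n3).exists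
    simp only [Set.mem_setOf_eq, PNat.pow_coe] at m3
    have e : G (κ (m ^ (n : ℕ))) = κ n := hR _ _ _ (Classical.epsilon_spec ⟨_, m1.1⟩) m1.1
    rw [D_eq (e ▸ m1.2), e] at m3
    omega
  exact (Ultrafilter.eventually_or.1 (Eventually.of_forall fun x =>
    Nat.mod_two_eq_zero_or_one _)).elim (fin 0) (fin 1)

theorem lim (p : Ultrafilter ℕ+) (f : ℕ+ → ℕ) :
    ∃ σ : ℕ → ℕ, ∀ j, ∀ᶠ x in p, f x ≡ σ j [MOD 2 ^ j] := by
  have : ∀ j, ∃ s, ∀ᶠ x in p, f x ≡ s [MOD 2 ^ j] := fun j => by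
    obtain ⟨s, -, hs⟩ := (Ultrafilter.eventually_exists_mem_iff (f := p) (Set.finite_lt_nat (2 ^ j))
      (P := fun s x => f x ≡ s [MOD 2 ^ j])).1 (Eventually.of_forall fun x =>
        ⟨f x % 2 ^ j, Nat.mod_lt _ (by positivity), (Nat.mod_modEq _ _).symm⟩)
    exact ⟨s, hs⟩
  exact Classical.axiomOfChoice this

theorem val_eq {k t : ℕ} (ht : Odd t) : padicValNat 2 (2 ^ k * t) = k := by
  rw [padicValNat.mul (by positivity) ht.pos.ne', padicValNat.prime_pow,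
    padicValNat.eq_zero_of_not_dvd ht.not_two_dvd_nat, add_zero]

theorem split {x : ℕ} (hx : x ≠ 0) : ∃ t, Odd t ∧ x = 2 ^ padicValNat 2 x * t := by
  obtain ⟨k, t, ht, rfl⟩ := Nat.exists_eq_two_pow_mul_odd hx
  exact ⟨t, ht, by rw [val_eq ht]⟩

theorem binom (y n : ℕ) : (1 + y) ^ n ≡ 1 + n * y [MOD y * y] := by
  induction n with
  | zero => simp [Nat.ModEq]
  | succ n ih =>
    rw [pow_succ]
    refine (ih.mul_right _).trans ?_
    rw [show (1 + n * y) * (1 + y) = 1 + (n + 1) * y + y * y * n by ring]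
    exact Nat.add_mul_mod_self_left _ _ _

theorem idem (p : Ultrafilter ℕ+) (hp : ∀ n, p ≠ pure n) : E2 p p ≠ p.sets := by
  intro h
  let v := padicValNat 2
  have tr : ∀ P : ℕ → Prop, (∀ᶠ x : ℕ+ in p, P x) → ∀ᶠ n : ℕ+ in p, ∀ᶠ m : ℕ+ in p,
      P (m ^ (n : ℕ)) := fun P hP => (h.symm ▸ hP : {x : ℕ+ | P x} ∈ E2 p p)
  rcases Ultrafilter.eventually_or.1 (Eventually.of_forall (f := p) fun x : ℕ+ =>
    Nat.even_or_odd x) with ev | od
  · obtain ⟨σ, hσ⟩ := lim p fun x => v (v x)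
    refine depth h (fun x => v (v x)) (fun k a => ¬ k ≡ σ (a + 1) [MOD 2 ^ (a + 1)] ∧
      ∀ j ≤ a, k ≡ σ j [MOD 2 ^ j]) (fun k a b ha hb => ?_) (ev.mono fun n hn => ?_)
    · by_contra e
      rcases Nat.lt_or_gt_of_ne e with l | l
      exacts [ha.1 (hb.2 _ l), hb.1 (ha.2 _ l)]
    have p0 : ∀ x : ℕ+, Even (x : ℕ) → v x ≠ 0 := fun x hx =>
      (one_le_padicValNat_of_dvd x.ne_zero hx.two_dvd).trans_lt' zero_lt_one |>.ne'
    refine (ev.and ((eventually_all_finite (Set.finite_le_nat (v (v n) + 1))).2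
      fun j _ => hσ j)).mono fun m hm => ?_
    have e : v (v (m ^ (n : ℕ))) = v n + v (v m) := by
      simp only [v]
      rw [padicValNat.pow, padicValNat.mul n.ne_zero (p0 m hm.1)]
    rw [e]
    refine ⟨⟨fun f => ?_, fun j hj => ?_⟩, ?_⟩
    · have := f.trans (hm.2 _ (Set.mem_setOf.2 le_rfl)).symm
      rw [Nat.ModEq.comm, Nat.modEq_iff_dvd' (by omega), Nat.add_sub_cancel] at this
      exact pow_succ_padicValNat_not_dvd (p0 n hn) this
    · have := ((Nat.modEq_zero_iff_dvd.2 ((pow_dvd_pow 2 hj).trans pow_padicValNat_dvd)).add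
        (hm.2 j (hj.trans (Nat.le_succ _))))
      rwa [zero_add] at this
    · have := Nat.le_of_dvd (Nat.pos_of_ne_zero (p0 n hn)) (pow_padicValNat_dvd (p := 2))
      have := Nat.lt_two_pow_self (n := v (v n))
      change 2 ^ v (v n) ≤ v n at *
      omega
  let μ : ℕ → ℕ := fun x => v (x ^ 2 - 1)
  have dec : ∀ x : ℕ, Odd x → 2 ≤ x → ∃ t, Odd t ∧ x ^ 2 = 1 + 2 ^ μ x * t ∧ 1 ≤ μ x := by
    intro x hx h2
    have h3 : 2 * 2 ≤ x ^ 2 := by nlinarith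
    obtain ⟨t, t1, t2⟩ := split (x := x ^ 2 - 1) (by omega)
    exact ⟨t, t1, by simp only [μ, v]; omega, one_le_padicValNat_of_dvd (by omega)
      ((hx.pow (n := 2)).tsub_odd odd_one).two_dvd⟩
  have cong : ∀ x k t : ℕ, Odd t → 1 ≤ k → x ≡ 1 + 2 ^ k * t [MOD 2 ^ (k + 1)] → v (x - 1) = k := by
    intro x k t ht hk e
    obtain ⟨s, rfl⟩ := ht
    have e2 : x % 2 ^ (k + 1) = 1 + 2 ^ k := by
      rw [e, show 1 + 2 ^ k * (2 * s + 1) = 1 + 2 ^ k + 2 ^ (k + 1) * s by ring,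
        Nat.add_mul_mod_self_left, Nat.mod_eq_of_lt]
      have := Nat.one_lt_two_pow (n := k) (by omega)
      rw [pow_succ]; omega
    have e3 := Nat.div_add_mod x (2 ^ (k + 1))
    rw [show x - 1 = 2 ^ k * (2 * (x / 2 ^ (k + 1)) + 1) by
      rw [e2] at e3; rw [mul_add, ← mul_assoc, ← pow_succ]; omega]
    exact val_eq (odd_two_mul_add_one _)
  have pw : ∀ x t n : ℕ, x ^ 2 = 1 + 2 ^ μ x * t →
      (x ^ n) ^ 2 ≡ 1 + 2 ^ μ x * (n * t) [MOD 2 ^ (2 * μ x)] := fun x t n e => by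
    rw [← pow_mul, mul_comm n 2, pow_mul x 2 n, e, mul_left_comm]
    exact (binom _ n).of_dvd ⟨t * t, by ring⟩
  have good := od.and (big hp 2)
  have grow : ∀ k, ∀ᶠ x : ℕ+ in p, k ≤ μ x := by
    intro k
    induction k with
    | zero => simp
    | succ k ih =>
      refine Ultrafilter.eventually_not.not_left.1 fun hc => ?_
      have hk : ∀ᶠ x : ℕ+ in p, μ x = k := (ih.and hc).mono fun x hx => by omega
      obtain ⟨σ, hσ⟩ := lim p fun x => x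
      obtain ⟨n, n1, n2, n3⟩ := (good.and (hk.and (tr (fun x => x ≡ σ (2 * k) [MOD 2 ^ (2 * k)]) (hσ (2 * k))))).exists
      obtain ⟨m, m1, m2, m3, m4⟩ := (good.and (hk.and ((hσ (2 * k)).and n3))).exists
      obtain ⟨t, t1, t2, -⟩ := dec m m1.1 m1.2
      obtain ⟨s, s1, s2, s3⟩ := dec n n1.1 n1.2
      have e1 := pw m t n t2
      rw [m2] at e1 t2
      have e2 := e1.symm.trans ((m4.trans m3.symm).pow 2)
      rw [t2, two_mul, pow_add] at e2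
      have e3 := Nat.ModEq.mul_left_cancel' (by positivity) (Nat.ModEq.add_left_cancel' _ e2)
      have e4 : (n : ℕ) ≡ 1 [MOD 2 ^ k] := Nat.ModEq.cancel_right_of_coprime
        (Nat.Coprime.pow_left _ t1.coprime_two_left) (by rwa [one_mul])
      obtain ⟨c, hc⟩ := (Nat.modEq_iff_dvd' n.pos).1 e4.symm
      rw [n2] at s2 s3
      obtain ⟨k, rfl⟩ := Nat.exists_eq_add_of_le' s3
      have e5 : (n : ℕ) = 2 ^ (k + 1) * c + 1 := by omega
      have e6 : s = 2 * (2 ^ k * c * c + c) := Nat.eq_of_mul_eq_mul_left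
        (show 0 < 2 ^ (k + 1) by positivity) (by rw [e5] at s2; zify at s2 ⊢; linear_combination -s2)
      exact s1.not_two_dvd_nat ⟨_, e6⟩
  obtain ⟨β, hβ⟩ := lim p fun x => (x ^ 2 - 1) / 2 ^ μ x
  have hβo : ∀ j, Nat.Coprime (2 ^ j) (β j) ∧ ∀ i ≤ j, β j ≡ β i [MOD 2 ^ i] := fun j => by
    refine ⟨?_, fun i hi => ?_⟩
    · obtain ⟨m, m1, m2⟩ := (good.and (hβ j)).exists
      obtain ⟨t, t1, t2, -⟩ := dec m m1.1 m1.2
      rw [t2, Nat.add_sub_cancel_left, Nat.mul_div_cancel_left _ (by positivity)] at m2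
      rw [Nat.Coprime, Nat.gcd_comm, ← m2.gcd_eq]
      exact Nat.Coprime.pow_right _ t1.coprime_two_right
    · obtain ⟨m, m1, m2⟩ := ((hβ j).and (hβ i)).exists
      exact (m1.of_dvd (pow_dvd_pow 2 hi)).symm.trans m2
  refine depth h (fun x => x ^ 2 % 2 ^ (2 * μ x)) (fun K a => ∃ n, Odd n ∧ 2 ≤ n ∧
    n ^ 2 % 2 ^ (2 * μ n) = a ∧ K ≡ 1 + 2 ^ v (K - 1) * (n * β (2 * μ n))
      [MOD 2 ^ v (K - 1) * 2 ^ (2 * μ n)]) (fun K a b ha hb => ?_) (good.mono fun n hn => ?_)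
  · obtain ⟨n, n1, n2, rfl, n3⟩ := ha
    obtain ⟨m, m1, m2, rfl, m3⟩ := hb
    wlog l : μ n ≤ μ m generalizing n m
    · exact (this m m1 m2 m3 n n1 n2 n3 (by omega)).symm
    have e1 := Nat.ModEq.mul_left_cancel' (by positivity) (Nat.ModEq.add_left_cancel' _
      (n3.symm.trans (m3.of_dvd (Nat.mul_dvd_mul_left _ (pow_dvd_pow 2 (by omega))))))
    have e2 := (Nat.ModEq.cancel_right_of_coprime (hβo _).1
      (e1.trans (((hβo _).2 _ (by omega)).mul_left _))).pow 2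
    obtain ⟨s, s1, s2, s3⟩ := dec n n1 n2
    have e3 : μ m = μ n := cong _ _ s s1 s3 (s2 ▸ e2.symm.of_dvd (pow_dvd_pow 2 (by omega)))
    rw [e3]; exact e2
  refine (good.and ((grow (2 * μ n)).and (hβ (2 * μ n)))).mono fun m hm => ?_
  obtain ⟨t, t1, t2, t3⟩ := dec m hm.1.1 hm.1.2
  have e1 := pw m t n t2
  have e2 : μ (m ^ (n : ℕ)) = μ m := cong _ _ _ (hn.1.mul t1) t3 (e1.of_dvd (pow_dvd_pow 2 (by omega)))
  have e3 := (Nat.mod_modEq _ _).trans e1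
  have e4 := cong _ _ _ (hn.1.mul t1) t3 (e3.of_dvd (pow_dvd_pow 2 (by omega)))
  have e5 := hm.2.2
  rw [t2, Nat.add_sub_cancel_left, Nat.mul_div_cancel_left _ (by positivity)] at e5
  simp only [e2]
  refine ⟨⟨n, hn.1, hn.2, rfl, ?_⟩, ?_⟩
  · rw [e4]
    exact (e3.of_dvd (by rw [← pow_add]; exact pow_dvd_pow 2 (by omega))).trans
      (((e5.mul_left _).mul_left' _).add_left _)
  · have e6 : ((m : ℕ) ^ (n : ℕ)) ^ 2 % 2 ^ (2 * μ m) - 1 ≠ 0 := fun f => by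
      rw [f] at e4; simp [v] at e4; omega
    have := Nat.le_of_dvd (Nat.pos_of_ne_zero e6) (pow_padicValNat_dvd (p := 2))
    change 2 ^ v _ ≤ _ at this
    rw [e4] at this
    have := Nat.mod_lt ((n : ℕ) ^ 2) (show 0 < 2 ^ (2 * μ n) by positivity)
    have := Nat.pow_le_pow_right (show 0 < 2 by omega) hm.2.1
    omega

end Pool.Agent.H2.Ultra
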