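import Mathlib

set_option autoImplicit false
open Filter Topology NormedSpace

namespace Pool.Agent.H2.Vr

variable {A : Type} [NormedRing A] [NormedAlgebra ℝ A] [CompleteSpace A] [NormOneClass A]

omit [NormedAlgebra ℝ A] [CompleteSpace A] in
lemma pow_sub_le (a b : A) (M : ℝ) (ha : ‖a‖ ≤ M) (hb : ‖b‖ ≤ M) (hM : 1 ≤ M) (k : ℕ) :
    ‖a ^ k - b ^ k‖ ≤ k * M ^ k * ‖a - b‖ := by
  induction k with
  | zero => simp
  | succ k ih =>
    have e : a ^ (k + 1) - b ^ (k + 1) = a * (a ^ k - b ^ k) + (a - b) * b ^ k := by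
      rw [pow_succ', pow_succ']; noncomm_ring
    have h1 : ‖b ^ k‖ ≤ M ^ k := (norm_pow_le b k).trans (pow_le_pow_left₀ (norm_nonneg _) hb k)
    have hMk : 0 ≤ M ^ k := by positivity
    have h2 : ‖a * (a ^ k - b ^ k)‖ ≤ M * (k * M ^ k * ‖a - b‖) :=
      (norm_mul_le _ _).trans (mul_le_mul ha ih (norm_nonneg _) (by linarith))
    have h3 : ‖(a - b) * b ^ k‖ ≤ ‖a - b‖ * M ^ k :=
      (norm_mul_le _ _).trans (mul_le_mul_of_nonneg_left h1 (norm_nonneg _))
    have h4 : M ^ k ≤ M ^ (k + 1) := by rw [pow_succ]; nlinarith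
    rw [e]
    refine (norm_add_le _ _).trans ?_
    have h5 : ‖a - b‖ * M ^ k ≤ ‖a - b‖ * M ^ (k + 1) :=
      mul_le_mul_of_nonneg_left h4 (norm_nonneg _)
    push_cast
    rw [pow_succ] at *
    nlinarith

omit [NormOneClass A] in
lemma exp_cont : Continuous (exp : A → A) := by
  let _ : NormedAlgebra ℚ A := NormedAlgebra.restrictScalars ℚ ℝ A
  exact exp_continuous

omit [NormOneClass A] in
lemma exp_ns (n : ℕ) (x : A) : exp (n • x) = exp x ^ n := by
  let _ : NormedAlgebra ℚ A := NormedAlgebra.restrictScalars ℚ ℝ A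
  exact exp_nsmul n x

omit [NormOneClass A] in
lemma exp_conj (y : Aˣ) (x : A) : exp (y * x * ↑y⁻¹ : A) = y * exp x * ↑y⁻¹ := by
  let _ : NormedAlgebra ℚ A := NormedAlgebra.restrictScalars ℚ ℝ A
  exact exp_units_conj y x

omit [NormOneClass A] in
lemma exp_mul_neg (x : A) : exp x * exp (-x) = 1 := by
  let _ : NormedAlgebra ℚ A := NormedAlgebra.restrictScalars ℚ ℝ A
  rw [← exp_add_of_commute (Commute.refl x).neg_right]; simp

omit [NormOneClass A] [CompleteSpace A] in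
lemma exp_nil (x : A) (h : x * x = 0) : exp x = 1 + x := by
  rw [exp_eq_tsum ℝ]
  simp only
  rw [tsum_eq_sum (s := Finset.range 2)]
  · simp [Finset.sum_range_succ]
  · intro n hn
    obtain ⟨m, rfl⟩ : ∃ m, n = m + 2 := ⟨n - 2, by simp at hn; omega⟩
    rw [pow_add, pow_two, h]; simp

omit [NormOneClass A] in
/-- difference quotients along a sequence -/
lemma quot_lim {γ : ℝ → A} {D : A} (h : HasDerivAt γ D 0) {ε : ℕ → ℝ} (hp : ∀ n, 0 < ε n)
    (h0 : Tendsto ε atTop (𝓝 0)) : Tendsto (fun n => (ε n)⁻¹ • (γ (ε n) - γ 0)) atTop (𝓝 D) := by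
  have h1 := h.tendsto_slope_zero
  have h2 : Tendsto ε atTop (𝓝[≠] 0) :=
    tendsto_nhdsWithin_iff.2 ⟨h0, Eventually.of_forall fun n => (hp n).ne'⟩
  simpa [Function.comp_def] using h1.comp h2

lemma tend_pow {X : A} {Y : ℕ → A} (hY : Tendsto Y atTop (𝓝 X)) {ε : ℕ → ℝ} (hp : ∀ n, 0 < ε n)
    (h0 : Tendsto ε atTop (𝓝 0)) {k : ℕ → ℕ} {t : ℝ}
    (hk : Tendsto (fun n => (k n : ℝ) * ε n) atTop (𝓝 t)) :
    Tendsto (fun n => (1 + ε n • Y n) ^ k n) atTop (𝓝 (exp (t • X))) := by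
  set Z : ℕ → A := fun n => (ε n)⁻¹ • (exp (ε n • X) - 1) with hZ
  have hZt : Tendsto Z atTop (𝓝 X) := by
    have := quot_lim (hasDerivAt_exp_smul_const (𝕂 := ℝ) X 0) hp h0
    simpa using this
  have hZe : ∀ n, 1 + ε n • Z n = exp (ε n • X) := fun n => by
    simp only [hZ, smul_smul, mul_inv_cancel₀ (hp n).ne', one_smul]; abel
  have h1 : Tendsto (fun n => (1 + ε n • Z n) ^ k n) atTop (𝓝 (exp (t • X))) := by
    have : (fun n => (1 + ε n • Z n) ^ k n) = fun n => exp (((k n : ℝ) * ε n) • X) := by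
      funext n
      rw [hZe, ← exp_ns, ← Nat.cast_smul_eq_nsmul ℝ, smul_smul]
    rw [this]
    exact (exp_cont.tendsto _).comp (hk.smul_const X)
  set R := ‖X‖ + 1 with hR
  have hYR : ∀ᶠ n in atTop, ‖Y n‖ ≤ R := hY.norm.eventually (ge_mem_nhds (by linarith))
  have hZR : ∀ᶠ n in atTop, ‖Z n‖ ≤ R := hZt.norm.eventually (ge_mem_nhds (by linarith))
  have hR0 : 0 ≤ R := by positivity
  have h2 : Tendsto (fun n => (1 + ε n • Y n) ^ k n - (1 + ε n • Z n) ^ k n) atTop (𝓝 0) := by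
    have hb : Tendsto (fun n => ((k n : ℝ) * ε n) * Real.exp ((k n : ℝ) * ε n * R) * ‖Y n - Z n‖)
        atTop (𝓝 (t * Real.exp (t * R) * ‖X - X‖)) :=
      (hk.mul ((Real.continuous_exp.tendsto _).comp (hk.mul_const R))).mul (hY.sub hZt).norm
    simp only [sub_self, norm_zero, mul_zero] at hb
    refine squeeze_zero_norm' ?_ hb
    filter_upwards [hYR, hZR] with n h1 h2
    have key : ∀ W : A, ‖W‖ ≤ R → ‖1 + ε n • W‖ ≤ Real.exp (ε n * R) := fun W hW => by
      refine (norm_add_le _ _).trans ?_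
      rw [norm_one, norm_smul, Real.norm_of_nonneg (hp n).le]
      have := Real.add_one_le_exp (ε n * R)
      have := mul_le_mul_of_nonneg_left hW (hp n).le
      linarith
    have := pow_sub_le _ _ _ (key _ h1) (key _ h2)
      (Real.one_le_exp (mul_nonneg (hp n).le hR0)) (k n)
    refine this.trans (le_of_eq ?_)
    rw [← Real.exp_nat_mul, add_sub_add_left_eq_sub, ← smul_sub, norm_smul,
      Real.norm_of_nonneg (hp n).le]
    ring_nf
  simpa using h2.add h1

lemma exp_mem {S : Submonoid A} (hS : IsClosed (S : Set A)) {X : A} {g : ℕ → A}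
    (hg : ∀ n, g n ∈ S) {ε : ℕ → ℝ} (hp : ∀ n, 0 < ε n) (h0 : Tendsto ε atTop (𝓝 0))
    (hX : Tendsto (fun n => (ε n)⁻¹ • (g n - 1)) atTop (𝓝 X)) {t : ℝ} (ht : 0 ≤ t) :
    exp (t • X) ∈ S := by
  have hk : Tendsto (fun n => ((⌊t / ε n⌋₊ : ℕ) : ℝ) * ε n) atTop (𝓝 t) := by
    have hl : Tendsto (fun n => t - ε n) atTop (𝓝 t) := by simpa using h0.const_sub t
    refine tendsto_of_tendsto_of_tendsto_of_le_of_le hl tendsto_const_nhds (fun n => ?_)
      (fun n => ?_)
    · have := Nat.lt_floor_add_one (t / ε n)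
      rw [div_lt_iff₀ (hp n)] at this
      simp only; nlinarith
    · have := Nat.floor_le (div_nonneg ht (hp n).le)
      rw [le_div_iff₀ (hp n)] at this
      exact this
  have h := tend_pow hX hp h0 hk
  refine hS.mem_of_tendsto h (Eventually.of_forall fun n => ?_)
  have : 1 + ε n • (ε n)⁻¹ • (g n - 1) = g n := by
    rw [smul_smul, mul_inv_cancel₀ (hp n).ne', one_smul]; abel
  simp only [this]
  exact S.pow_mem (hg n) _

lemma inv_pos' (n : ℕ) : (0 : ℝ) < 1 / ((n : ℝ) + 1) := by positivity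

/-- the tangent space at `1` of the group of units of a closed submonoid -/
def G (S : Submonoid A) (hS : IsClosed (S : Set A)) : Submodule ℝ A where
  carrier := {X | ∀ t : ℝ, exp (t • X) ∈ S}
  zero_mem' := fun t => by simp
  smul_mem' := fun c X hX t => by rw [smul_smul]; exact hX _
  add_mem' := by
    have key : ∀ X Y : A, (∀ t : ℝ, exp (t • X) ∈ S) → (∀ t : ℝ, exp (t • Y) ∈ S) →
        ∀ t : ℝ, 0 ≤ t → exp (t • (X + Y)) ∈ S := by
      intro X Y hX hY t ht
      have hd := (hasDerivAt_exp_smul_const (𝕂 := ℝ) X 0).mul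
        (hasDerivAt_exp_smul_const (𝕂 := ℝ) Y 0)
      have := quot_lim hd inv_pos' tendsto_one_div_add_atTop_nhds_zero_nat
      refine exp_mem hS (g := fun n => exp ((1 / ((n : ℝ) + 1)) • X) * exp ((1 / ((n : ℝ) + 1)) • Y))
        (fun n => S.mul_mem (hX _) (hY _)) inv_pos' tendsto_one_div_add_atTop_nhds_zero_nat ?_ ht
      simpa using this
    intro X Y hX hY t
    rcases le_total 0 t with ht | ht
    · exact key X Y hX hY t ht
    · have := key (-X) (-Y) (fun s => by simpa using hX (-s)) (fun s => by simpa using hY (-s))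
        (-t) (by linarith)
      rwa [← neg_add, neg_smul_neg] at this

variable {S : Submonoid A} {hS : IsClosed (S : Set A)}

lemma mem_G {X : A} : X ∈ G S hS ↔ ∀ t : ℝ, exp (t • X) ∈ S := Iff.rfl

lemma lim_mem_G {X : A} {g h : ℕ → A} (hg : ∀ n, g n ∈ S) (hh : ∀ n, h n ∈ S)
    (hgh : ∀ n, h n * g n = 1) (hh1 : Tendsto h atTop (𝓝 1)) {ε : ℕ → ℝ} (hp : ∀ n, 0 < ε n)
    (h0 : Tendsto ε atTop (𝓝 0))
    (hX : Tendsto (fun n => (ε n)⁻¹ • (g n - 1)) atTop (𝓝 X)) : X ∈ G S hS := by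
  intro t
  rcases le_total 0 t with ht | ht
  · exact exp_mem hS hg hp h0 hX ht
  · have h2 : Tendsto (fun n => (ε n)⁻¹ • (h n - 1)) atTop (𝓝 (-X)) := by
      have := (hh1.mul hX).neg
      rw [one_mul] at this
      refine this.congr fun n => ?_
      rw [mul_smul_comm, mul_sub, hgh, mul_one, ← smul_neg, neg_sub]
    have := exp_mem hS hh hp h0 h2 (t := -t) (by linarith)
    rwa [neg_smul_neg] at this

lemma conj_mem {g h X : A} (hg : g ∈ S) (hh : h ∈ S) (h1 : g * h = 1) (h2 : h * g = 1)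
    (hX : X ∈ G S hS) : g * X * h ∈ G S hS := by
  intro t
  have := exp_conj (⟨g, h, h1, h2⟩ : Aˣ) (t • X)
  simp only [Units.inv_mk] at this
  rw [← smul_mul_assoc, ← mul_smul_comm, this]
  exact S.mul_mem (S.mul_mem hg (hX t)) hh

lemma br_mem [FiniteDimensional ℝ A] {X Y : A} (hX : X ∈ G S hS) (hY : Y ∈ G S hS) :
    X * Y - Y * X ∈ G S hS := by
  have hd := ((hasDerivAt_exp_smul_const (𝕂 := ℝ) X 0).mul_const Y).mul
    (hasDerivAt_exp_smul_const (𝕂 := ℝ) (-X) 0)
  have := quot_lim hd inv_pos' tendsto_one_div_add_atTop_nhds_zero_nat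
  have hc : IsClosed (G S hS : Set A) := Submodule.closed_of_finiteDimensional _
  have e : X * Y - Y * X = exp ((0 : ℝ) • X) * X * Y * exp ((0 : ℝ) • -X) +
      exp ((0 : ℝ) • X) * Y * (exp ((0 : ℝ) • -X) * -X) := by simp [sub_eq_add_neg]
  rw [e]
  refine hc.mem_of_tendsto this (Eventually.of_forall fun n => ?_)
  have k : ∀ s : ℝ, exp (s • X) * Y * exp (s • -X) ∈ G S hS := fun s => by
    refine conj_mem (hX s) (by simpa using hX (-s)) ?_ ?_ hY
    · rw [smul_neg]; exact exp_mul_neg _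
    · have := exp_mul_neg (s • -X); simpa using this
  exact (G S hS).smul_mem _ ((G S hS).sub_mem (k _) (k _))

end Pool.Agent.H2.Vr
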