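import Pool.Agent.H2.VrA

set_option autoImplicit false
open Filter Topology NormedSpace Set

namespace Pool.Agent.H2.Vr

abbrev E := ℝ × ℝ × ℝ
abbrev AA := E →L[ℝ] E

def p1 : E →L[ℝ] ℝ := ContinuousLinearMap.fst ℝ ℝ (ℝ × ℝ)
def p2 : E →L[ℝ] ℝ := (ContinuousLinearMap.fst ℝ ℝ ℝ).comp (ContinuousLinearMap.snd ℝ ℝ (ℝ × ℝ))
def p3 : E →L[ℝ] ℝ := (ContinuousLinearMap.snd ℝ ℝ ℝ).comp (ContinuousLinearMap.snd ℝ ℝ (ℝ × ℝ))

/-- the matrix with rows `(a, b, e)`, `(c, d, f)`, `(0, 0, g)` -/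
noncomputable def mk (a b c d e f g : ℝ) : AA :=
  a • p1.smulRight ((1, 0, 0) : E) + b • p2.smulRight ((1, 0, 0) : E) +
  e • p3.smulRight ((1, 0, 0) : E) + c • p1.smulRight ((0, 1, 0) : E) +
  d • p2.smulRight ((0, 1, 0) : E) + f • p3.smulRight ((0, 1, 0) : E) +
  g • p3.smulRight ((0, 0, 1) : E)

@[simp] lemma mk_apply (a b c d e f g x y z : ℝ) :
    mk a b c d e f g (x, y, z) = (a * x + b * y + e * z, c * x + d * y + f * z, g * z) := by
  simp [mk, p1, p2, p3]

lemma mk_mul (a b c d e f g a' b' c' d' e' f' g' : ℝ) :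
    mk a b c d e f g * mk a' b' c' d' e' f' g' =
      mk (a * a' + b * c') (a * b' + b * d') (c * a' + d * c') (c * b' + d * d')
        (a * e' + b * f' + e * g') (c * e' + d * f' + f * g') (g * g') := by
  refine ContinuousLinearMap.ext fun ⟨x, y, z⟩ => ?_
  simp only [ContinuousLinearMap.mul_apply, mk_apply, Prod.mk.injEq]
  refine ⟨by ring, by ring, by ring⟩

lemma mk_one : mk 1 0 0 1 0 0 1 = 1 := by
  refine ContinuousLinearMap.ext fun ⟨x, y, z⟩ => ?_
  simp

lemma mk_zero : mk 0 0 0 0 0 0 0 = 0 := by simp [mk]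

lemma mk_lin (s t a b c d e f g a' b' c' d' e' f' g' : ℝ) :
    s • mk a b c d e f g + t • mk a' b' c' d' e' f' g' =
      mk (s * a + t * a') (s * b + t * b') (s * c + t * c') (s * d + t * d')
        (s * e + t * e') (s * f + t * f') (s * g + t * g') := by
  refine ContinuousLinearMap.ext fun ⟨x, y, z⟩ => ?_
  simp only [ContinuousLinearMap.add_apply, ContinuousLinearMap.smul_apply, mk_apply,
    Prod.smul_mk, Prod.mk_add_mk, smul_eq_mul, Prod.mk.injEq]
  refine ⟨by ring, by ring, by ring⟩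

lemma eq_mk (Z : AA) (h : ∀ p, (Z p).2.2 = 0) :
    Z = mk (Z (1, 0, 0)).1 (Z (0, 1, 0)).1 (Z (1, 0, 0)).2.1 (Z (0, 1, 0)).2.1
      (Z (0, 0, 1)).1 (Z (0, 0, 1)).2.1 0 := by
  refine ContinuousLinearMap.ext fun ⟨x, y, z⟩ => ?_
  have e : ((x, y, z) : E) = x • (1, 0, 0) + y • (0, 1, 0) + z • (0, 0, 1) := by simp
  have h0 := h (x, y, z)
  rw [mk_apply]
  refine Prod.ext ?_ (Prod.ext ?_ ?_)
  · conv_lhs => rw [e]
    simp only [map_add, map_smul, Prod.fst_add, Prod.smul_fst, smul_eq_mul]; ring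
  · conv_lhs => rw [e]
    simp only [map_add, map_smul, Prod.fst_add, Prod.snd_add, Prod.smul_fst, Prod.smul_snd,
      smul_eq_mul]; ring
  · simpa using h0

variable (F : ℝ → ℝ)

/-- closure of the graph, in the plane `z = 1` -/
def K : Set E := closure (range fun x => ((x, F x, 1) : E))

/-- linear maps sending `K` into itself -/
def SK : Submonoid AA where
  carrier := {g | MapsTo g (K F) (K F)}
  one_mem' := fun _ hp => hp
  mul_mem' := fun ha hb _ hp => ha (hb hp)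

lemma SK_closed : IsClosed (SK F : Set AA) := by
  have : (SK F : Set AA) = ⋂ p ∈ K F, (fun g : AA => g p) ⁻¹' K F := by
    ext g; simp [SK, MapsTo]
  rw [this]
  exact isClosed_biInter fun p _ => isClosed_closure.preimage (by fun_prop)

noncomputable def GG : Submodule ℝ AA := G (SK F) (SK_closed F)

variable {F}

lemma gr_mem (x : ℝ) : ((x, F x, 1) : E) ∈ K F := subset_closure ⟨x, rfl⟩

lemma mem_SK {g : AA} (h : ∀ x, ∃ x', g (x, F x, 1) = (x', F x', 1)) : g ∈ SK F := by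
  refine MapsTo.closure ?_ g.continuous
  rintro _ ⟨x, rfl⟩
  obtain ⟨x', hx⟩ := h x
  exact ⟨x', hx.symm⟩

lemma z_one {p : E} (hp : p ∈ K F) : p.2.2 = 1 := by
  have : K F ⊆ {p : E | p.2.2 = 1} :=
    closure_minimal (by rintro _ ⟨x, rfl⟩; rfl) (isClosed_eq (by fun_prop) (by fun_prop))
  exact this hp

lemma bnd {a b B : ℝ} (hB : ∀ x ∈ Ioo a b, |F x| ≤ B) {p : E} (hp : p ∈ K F)
    (hx : p.1 ∈ Ioo a b) : |p.2.1| ≤ B := by
  have : K F ⊆ {p : E | p.1 ∈ (Ioo a b)ᶜ} ∪ {p : E | |p.2.1| ≤ B} := by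
    refine closure_minimal ?_ (IsClosed.union ?_ ?_)
    · rintro _ ⟨x, rfl⟩
      by_cases h : x ∈ Ioo a b
      · exact Or.inr (hB x h)
      · exact Or.inl h
    · exact isOpen_Ioo.isClosed_compl.preimage (by fun_prop)
    · exact isClosed_le (by fun_prop) (by fun_prop)
  exact (this hp).resolve_left fun h => h hx

/-- the planar trace of `K` -/
def K2 (F : ℝ → ℝ) : Set (ℝ × ℝ) := {w | ((w.1, w.2, 1) : E) ∈ K F}

lemma K2_closed : IsClosed (K2 F) := isClosed_closure.preimage (by fun_prop)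

/-- boundary points -/
def Bd (F : ℝ → ℝ) (x y : ℝ) : Prop := (x, y) ∈ K2 F ∧ K2 F ∉ 𝓝 (x, y)

lemma exists_bd {a b B : ℝ} (hB : ∀ x ∈ Ioo a b, |F x| ≤ B) {x : ℝ} (hx : x ∈ Ioo a b) :
    ∃ y, Bd F x y := by
  set T : Set ℝ := {y | (x, y) ∈ K2 F}
  have hc : IsClosed T := K2_closed.preimage (by fun_prop)
  have hb : BddAbove T := ⟨B, fun y hy => (abs_le.1 (bnd hB hy hx)).2⟩
  have hn : T.Nonempty := ⟨F x, gr_mem x⟩
  refine ⟨sSup T, hc.csSup_mem hn hb, fun h => ?_⟩
  have h2 : T ∈ 𝓝 (sSup T) :=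
    (show ContinuousAt (fun y : ℝ => (x, y)) (sSup T) by fun_prop).preimage_mem_nhds h
  obtain ⟨ε, hε, h3⟩ := Metric.mem_nhds_iff.1 h2
  have : sSup T + ε / 2 ∈ T := h3 (by simp [abs_of_pos hε]; linarith)
  have := le_csSup hb this
  linarith

lemma det0 {x y : ℝ} (h : Bd F x y) {a b c d e f a' b' c' d' e' f' : ℝ}
    (hX : mk a b c d e f 0 ∈ GG F) (hY : mk a' b' c' d' e' f' 0 ∈ GG F) :
    (a * x + b * y + e) * (c' * x + d' * y + f') =
      (c * x + d * y + f) * (a' * x + b' * y + e') := by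
  by_contra hne
  set X := mk a b c d e f 0
  set Y := mk a' b' c' d' e' f' 0
  set L : ℝ × ℝ →L[ℝ] AA := (ContinuousLinearMap.fst ℝ ℝ ℝ).smulRight X +
    (ContinuousLinearMap.snd ℝ ℝ ℝ).smulRight Y with hL
  set ev : AA →L[ℝ] ℝ × ℝ := (p1.prod p2).comp (ContinuousLinearMap.apply ℝ E (x, y, 1)) with hev
  have h1 : HasStrictFDerivAt exp (1 : AA →L[ℝ] AA) (L 0) := by
    rw [map_zero]; exact hasStrictFDerivAt_exp_zero
  have h2 := ev.hasStrictFDerivAt.comp 0 (h1.comp 0 L.hasStrictFDerivAt)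
  have h3 := h2.map_nhds_eq_of_surj (by
    rw [LinearMap.range_eq_top]
    rintro ⟨w1, w2⟩
    have hD := sub_ne_zero.2 hne
    set D := (a * x + b * y + e) * (c' * x + d' * y + f') -
      (c * x + d * y + f) * (a' * x + b' * y + e') with hDd
    refine ⟨((w1 * (c' * x + d' * y + f') - w2 * (a' * x + b' * y + e')) / D,
      (w2 * (a * x + b * y + e) - w1 * (c * x + d * y + f)) / D), ?_⟩
    simp [hL, hev, X, Y, p1, p2]
    constructor <;> field_simp <;> rw [hDd] <;> ring)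
  apply h.2
  have e0 : ev (exp (L 0)) = (x, y) := by simp [hev, p1, p2]
  rw [← e0, ← h3, mem_map]
  refine Eventually.of_forall fun v => ?_
  have hv : L v ∈ GG F := by
    have : L v = v.1 • X + v.2 • Y := by simp [hL]
    rw [this]; exact (GG F).add_mem ((GG F).smul_mem _ hX) ((GG F).smul_mem _ hY)
  have h4 : exp (L v) (x, y, 1) ∈ K F := by
    have := hv 1
    rw [one_smul] at this
    exact this h.1
  have h5 := z_one h4
  show ((exp (L v) (x, y, 1)).1, (exp (L v) (x, y, 1)).2.1, 1) ∈ K F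
  generalize exp (L v) (x, y, 1) = w at h4 h5
  obtain ⟨w1, w2, w3⟩ := w
  simp only at h5
  subst h5; exact h4

/-- linear parts -/
def LL (F : ℝ → ℝ) (a b c d : ℝ) : Prop := ∃ e f, mk a b c d e f 0 ∈ GG F

lemma lin_mem {a b c d e f a' b' c' d' e' f' : ℝ} (s t : ℝ)
    (hX : mk a b c d e f 0 ∈ GG F) (hY : mk a' b' c' d' e' f' 0 ∈ GG F) :
    mk (s * a + t * a') (s * b + t * b') (s * c + t * c') (s * d + t * d')
        (s * e + t * e') (s * f + t * f') 0 ∈ GG F := by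
  have := (GG F).add_mem ((GG F).smul_mem s hX) ((GG F).smul_mem t hY)
  rw [mk_lin] at this
  simpa using this

lemma br_mk {a b c d e f a' b' c' d' e' f' : ℝ}
    (hX : mk a b c d e f 0 ∈ GG F) (hY : mk a' b' c' d' e' f' 0 ∈ GG F) :
    mk (b * c' - b' * c) (a * b' + b * d' - a' * b - b' * d) (c * a' + d * c' - c' * a - d' * c)
      (c * b' - c' * b) (a * e' + b * f' - a' * e - b' * f) (c * e' + d * f' - c' * e - d' * f) 0
      ∈ GG F := by
  have := br_mem (hS := SK_closed F) hX hY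
  rw [mk_mul, mk_mul, sub_eq_add_neg, ← neg_one_smul ℝ (mk _ _ _ _ _ _ _),
    ← one_smul ℝ (mk (a * a' + b * c') _ _ _ _ _ _), mk_lin] at this
  have e : mk (b * c' - b' * c) (a * b' + b * d' - a' * b - b' * d)
      (c * a' + d * c' - c' * a - d' * c) (c * b' - c' * b) (a * e' + b * f' - a' * e - b' * f)
      (c * e' + d * f' - c' * e - d' * f) 0 =
      mk (1 * (a * a' + b * c') + -1 * (a' * a + b' * c)) (1 * (a * b' + b * d') + -1 * (a' * b + b' * d))
      (1 * (c * a' + d * c') + -1 * (c' * a + d' * c)) (1 * (c * b' + d * d') + -1 * (c' * b + d' * d))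
      (1 * (a * e' + b * f' + e * 0) + -1 * (a' * e + b' * f + e' * 0))
      (1 * (c * e' + d * f' + f * 0) + -1 * (c' * e + d' * f + f' * 0)) (1 * (0 * 0) + -1 * (0 * 0)) := by
    congr 1 <;> ring
  rw [e]; exact this

lemma LL.lin {a b c d a' b' c' d' : ℝ} (hX : LL F a b c d) (hY : LL F a' b' c' d') (s t : ℝ)
    {a2 b2 c2 d2 : ℝ} (ha : a2 = s * a + t * a') (hb : b2 = s * b + t * b')
    (hc : c2 = s * c + t * c') (hd : d2 = s * d + t * d') : LL F a2 b2 c2 d2 := by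
  obtain ⟨e, f, h1⟩ := hX
  obtain ⟨e', f', h2⟩ := hY
  subst ha hb hc hd
  exact ⟨_, _, lin_mem s t h1 h2⟩

lemma LL.br {a b c d a' b' c' d' : ℝ} (hX : LL F a b c d) (hY : LL F a' b' c' d') :
    LL F (b * c' - b' * c) (a * b' + b * d' - a' * b - b' * d)
      (c * a' + d * c' - c' * a - d' * c) (c * b' - c' * b) := by
  obtain ⟨e, f, h1⟩ := hX
  obtain ⟨e', f', h2⟩ := hY
  exact ⟨_, _, br_mk h1 h2⟩

lemma sl2 {a b B : ℝ} (hab : a < b) (hB : ∀ x ∈ Ioo a b, |F x| ≤ B)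
    (h1 : LL F 0 1 0 0) (h2 : LL F 0 0 1 0) : False := by
  obtain ⟨e3, f3, h3⟩ := h1.br h2
  obtain ⟨e1, f1, h1⟩ := h1
  obtain ⟨e2, f2, h2⟩ := h2
  set P : Polynomial ℝ := (Polynomial.C (e2 * f3 + e2 * e1) -
    (Polynomial.X + Polynomial.C f2) * (Polynomial.X + Polynomial.C e3)) *
      (Polynomial.X + Polynomial.C f2) - Polynomial.C (f1 * e2 * e2) with hP
  have hz : P = 0 := by
    apply Polynomial.eq_zero_of_infinite_isRoot
    refine (Ioo_infinite hab).mono fun x hx => ?_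
    obtain ⟨y, hy⟩ := exists_bd hB hx
    have k1 := det0 hy h1 h2
    have k2 := det0 hy h2 h3
    simp only [hP, mem_ofPred_eq, Polynomial.IsRoot, Polynomial.eval_sub, Polynomial.eval_mul,
      Polynomial.eval_add, Polynomial.eval_C, Polynomial.eval_X]
    linear_combination e2 * k1 + (x + f2) * k2
  have h0 := congrArg (Polynomial.eval 0) hz
  have h1 := congrArg (Polynomial.eval 1) hz
  have h2 := congrArg (Polynomial.eval 2) hz
  have h3 := congrArg (Polynomial.eval 3) hz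
  simp only [hP, Polynomial.eval_sub, Polynomial.eval_mul, Polynomial.eval_add,
    Polynomial.eval_C, Polynomial.eval_X, Polynomial.eval_zero] at h0 h1 h2 h3
  have : (6 : ℝ) = 0 := by linear_combination h0 - 3 * h1 + 3 * h2 - h3
  norm_num at this

lemma on_line {a b B : ℝ} (hab : a < b) (hB : ∀ x ∈ Ioo a b, |F x| ≤ B) {κ m : ℝ}
    (h : ∀ x y, Bd F x y → y - κ * x = m) (x : ℝ) : F x = m + κ * x := by
  have hl : IsLinearMap ℝ (fun w : ℝ × ℝ => w.2 - κ * w.1) :=
    ⟨fun u v => by simp; ring, fun c u => by simp; ring⟩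
  have key : ∀ H : Set (ℝ × ℝ), IsPreconnected H → (∀ w ∈ H, w.2 - κ * w.1 ≠ m) →
      (H ∩ (K2 F)ᶜ).Nonempty → H ⊆ (K2 F)ᶜ := by
    intro H hH hm hne
    refine hH.subset_right_of_subset_union (u := interior (K2 F)) isOpen_interior
      K2_closed.isOpen_compl (disjoint_compl_right.mono_left interior_subset) ?_ hne
    intro w hw
    by_cases hk : w ∈ K2 F
    · left
      by_contra hi
      exact hm w hw (h w.1 w.2 ⟨hk, fun hh => hi (mem_interior_iff_mem_nhds.2 hh)⟩)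
    · exact Or.inr hk
  have hx0 : (a + b) / 2 ∈ Ioo a b := ⟨by linarith, by linarith⟩
  set x0 := (a + b) / 2
  have hB0 : 0 ≤ B := (abs_nonneg _).trans (hB _ hx0)
  have out : ∀ y, B < |y| → (x0, y) ∉ K2 F := fun y hy hk => by
    have := bnd hB hk hx0
    exact absurd this (not_le.2 hy)
  set R := B + |m + κ * x0| + 1
  have hR := abs_nonneg (m + κ * x0)
  have hR1 := le_abs_self (m + κ * x0)
  have hR2 := neg_abs_le (m + κ * x0)
  have hRp : 0 < R := by positivity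
  by_contra hne
  rcases lt_or_gt_of_ne hne with hlt | hlt
  · refine key _ (convex_halfSpace_lt hl m).isPreconnected (fun w hw => ne_of_lt hw)
      ⟨(x0, -R), ?_, out _ ?_⟩ (a := (x, F x)) ?_ (gr_mem x)
    · simp only [mem_ofPred_eq, R]; linarith
    · rw [abs_neg, abs_of_pos hRp]; simp only [R]; linarith
    · simp only [mem_ofPred_eq]; linarith
  · refine key _ (convex_halfSpace_gt hl m).isPreconnected (fun w hw => ne_of_gt hw)
      ⟨(x0, R), ?_, out _ ?_⟩ (a := (x, F x)) ?_ (gr_mem x)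
    · simp only [mem_ofPred_eq, R]; linarith
    · rw [abs_of_pos hRp]; simp only [R]; linarith
    · simp only [mem_ofPred_eq]; linarith

end Pool.Agent.H2.Vr
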