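import Pool.Agent.H2.VrB

set_option autoImplicit false
open Filter Topology NormedSpace Set

namespace Pool.Agent.H2.Vr

/-- the isometry with matrix `(p q; r s)` and shift `(u, v)` carries the graph of `c F`
onto the graph of `F` -/
structure Iso (F : ℝ → ℝ) (c p q r s u v : ℝ) : Prop where
  pos : 0 < c
  o1 : p ^ 2 + r ^ 2 = 1
  o2 : q ^ 2 + s ^ 2 = 1
  o3 : p * q + r * s = 0
  fw : ∀ x, ∃ x', p * x + q * (c * F x) + u = x' ∧ r * x + s * (c * F x) + v = F x'
  bw : ∀ x', ∃ x, p * x + q * (c * F x) + u = x' ∧ r * x + s * (c * F x) + v = F x'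

noncomputable def T (c p q r s u v : ℝ) : AA := mk p (q * c) r (s * c) u v 1
noncomputable def T' (c p q r s u v : ℝ) : AA :=
  mk p r (q / c) (s / c) (-(p * u + r * v)) (-(q * u + s * v) / c) 1

variable {F : ℝ → ℝ} {c p q r s u v : ℝ}

lemma Iso.det (h : Iso F c p q r s u v) : (p * s - q * r) ^ 2 = 1 := by
  linear_combination (q ^ 2 + s ^ 2) * h.o1 + h.o2 - (p * q + r * s) * h.o3

lemma Iso.o4 (h : Iso F c p q r s u v) :
    p ^ 2 + q ^ 2 = 1 ∧ r ^ 2 + s ^ 2 = 1 ∧ p * r + q * s = 0 := by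
  have hs : s = p * (p * s - q * r) := by linear_combination (-s) * h.o1 + r * h.o3
  have hq : q = -r * (p * s - q * r) := by linear_combination (-q) * h.o1 + p * h.o3
  have h1 : s ^ 2 = p ^ 2 := by
    calc s ^ 2 = (p * (p * s - q * r)) ^ 2 := by rw [← hs]
      _ = p ^ 2 := by rw [mul_pow, h.det, mul_one]
  refine ⟨by linarith [h.o2], by linarith [h.o1], ?_⟩
  calc p * r + q * s = p * r + (-r * (p * s - q * r)) * (p * (p * s - q * r)) := by
        rw [← hs, ← hq]
    _ = 0 := by linear_combination (-(p * r)) * h.det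

lemma Iso.T'T (h : Iso F c p q r s u v) : T' c p q r s u v * T c p q r s u v = 1 := by
  have hc := h.pos.ne'
  rw [T, T', mk_mul, ← mk_one]
  congr 1
  · linear_combination h.o1
  · linear_combination c * h.o3
  · field_simp; linear_combination h.o3
  · field_simp; linear_combination h.o2
  · ring
  · field_simp; ring
  · ring

lemma Iso.TT' (h : Iso F c p q r s u v) : T c p q r s u v * T' c p q r s u v = 1 := by
  have hc := h.pos.ne'
  obtain ⟨h1, h2, h3⟩ := h.o4
  rw [T, T', mk_mul, ← mk_one]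
  congr 1
  · field_simp; linear_combination h1
  · field_simp; linear_combination h3
  · field_simp; linear_combination h3
  · field_simp; linear_combination h2
  · field_simp; linear_combination (-u) * h1 - v * h3
  · field_simp; linear_combination (-u) * h3 - v * h2
  · ring

lemma Iso.T_fw (h : Iso F c p q r s u v) (x : ℝ) :
    ∃ x', T c p q r s u v (x, F x, 1) = (x', F x', 1) := by
  obtain ⟨x', h1, h2⟩ := h.fw x
  refine ⟨x', ?_⟩
  simp only [T, mk_apply, Prod.mk.injEq]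
  exact ⟨by linarith, by linarith, by ring⟩

lemma Iso.T_bw (h : Iso F c p q r s u v) (x' : ℝ) :
    ∃ x, T' c p q r s u v (x', F x', 1) = (x, F x, 1) := by
  obtain ⟨x, h1, h2⟩ := h.bw x'
  refine ⟨x, ?_⟩
  have : T c p q r s u v (x, F x, 1) = (x', F x', 1) := by
    simp only [T, mk_apply, Prod.mk.injEq]
    exact ⟨by linarith, by linarith, by ring⟩
  rw [← this]
  exact congrArg (fun g : AA => g (x, F x, 1)) h.T'T

lemma Iso.conj (h : Iso F c p q r s u v) {X : AA} (hX : X ∈ GG F) :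
    T c p q r s u v * X * T' c p q r s u v ∈ GG F :=
  conj_mem (mem_SK h.T_fw) (mem_SK h.T_bw) h.TT' h.T'T hX

lemma flat {h : ℝ → ℝ} {B μ : ℝ} (hB : ∀ x, |h x| ≤ B) (hμ : |μ| < 1)
    (H : ∀ y y', ∃ x x', h y - h y' = μ * (h x - h x')) (y y' : ℝ) : h y = h y' := by
  have key : ∀ n : ℕ, ∀ y y', |h y - h y'| ≤ |μ| ^ n * (2 * B) := by
    intro n
    induction n with
    | zero => intro y y'; have := abs_sub (h y) (h y'); have := hB y; have := hB y'; simp; linarith
    | succ n ih =>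
      intro y y'
      obtain ⟨x, x', e⟩ := H y y'
      rw [e, abs_mul, pow_succ', mul_assoc]
      exact mul_le_mul_of_nonneg_left (ih x x') (abs_nonneg _)
  have ht : Tendsto (fun n : ℕ => |μ| ^ n * (2 * B)) atTop (𝓝 (0 * (2 * B))) :=
    (tendsto_pow_atTop_nhds_zero_of_lt_one (abs_nonneg _) hμ).mul_const _
  have := ge_of_tendsto' ht fun n => key n y y'
  rw [zero_mul] at this
  exact sub_eq_zero.1 (abs_nonpos_iff.1 this)

variable {a b B : ℝ}

lemma trans_case (hab : a < b) (hB : ∀ x ∈ Ioo a b, |F x| ≤ B) (h : Iso F c p q r s u v)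
    (hc : c ≠ 1) {e f : ℝ} (hX : mk 0 0 0 0 e f 0 ∈ GG F) (hef : ¬ (e = 0 ∧ f = 0)) :
    ∃ m κ, ∀ x, F x = m + κ * x := by
  have mv : ∀ t x, ((x + t * e, F x + t * f, 1) : E) ∈ K F := fun t x => by
    have h1 := hX t
    rw [exp_nil _ (by rw [smul_mul_smul_comm, mk_mul]; simp [mk_zero])] at h1
    have h2 := h1 (gr_mem x)
    simpa using h2
  have hx0 : (a + b) / 2 ∈ Ioo a b := ⟨by linarith, by linarith⟩
  set x0 := (a + b) / 2
  have he : e ≠ 0 := by
    rintro rfl
    have hf : f ≠ 0 := fun hf => hef ⟨rfl, hf⟩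
    have := bnd hB (mv ((B + |F x0| + 1) / f) x0) (by simpa using hx0)
    simp only [div_mul_cancel₀ _ hf] at this
    have h1 := (abs_le.1 this).2
    have h2 := neg_abs_le (F x0)
    linarith
  set σ := f / e with hσ
  have hf : f = σ * e := by rw [hσ]; field_simp
  have hb : ∀ x, |F x - σ * x| ≤ B + |σ * x0| := fun x => by
    have := bnd hB (mv ((x0 - x) / e) x) (by simpa [div_mul_cancel₀ _ he] using hx0)
    have e1 : F x - σ * x = (F x + (x0 - x) / e * f) - σ * x0 := by rw [hf]; field_simp; ring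
    rw [e1]
    exact (abs_sub _ _).trans (by simpa using this)
  obtain ⟨y, hy⟩ := exists_bd hB hx0
  have hY := h.conj hX
  rw [T, T', mk_mul, mk_mul] at hY
  simp only [mul_zero, add_zero, zero_mul, mul_one, zero_add] at hY
  have hd := det0 hy hX hY
  simp only [zero_mul, zero_add, hf] at hd
  have hd' : r + s * c * σ = σ * (p + q * c * σ) := by
    apply mul_left_cancel₀ (mul_ne_zero he he)
    linear_combination hd
  set μ := s * c - σ * (q * c) with hμ
  have hl : ∀ x x', p * x + q * (c * F x) + u = x' → r * x + s * (c * F x) + v = F x' →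
      F x' - σ * x' = μ * (F x - σ * x) + (v - σ * u) := fun x x' h1 h2 => by
    rw [← h2, ← h1, hμ]; linear_combination x * hd'
  have hm : μ ^ 2 * (1 + c ^ 2 * σ ^ 2) = c ^ 2 * (1 + σ ^ 2) := by
    have e1 : (p + q * c * σ) * μ = c * (p * s - q * r) := by
      rw [hμ]; linear_combination (c * q) * hd'
    have e2 : (p + q * c * σ) ^ 2 * (1 + σ ^ 2) = 1 + c ^ 2 * σ ^ 2 := by
      linear_combination h.o1 + c ^ 2 * σ ^ 2 * h.o2 + 2 * c * σ * h.o3 -
        (r + s * c * σ + σ * (p + q * c * σ)) * hd'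
    rw [← e2]
    calc _ = ((p + q * c * σ) * μ) ^ 2 * (1 + σ ^ 2) := by ring
      _ = _ := by rw [e1, mul_pow, h.det, mul_one]
  have hm1 : |μ| ≠ 1 := fun h1 => by
    have : μ ^ 2 = 1 := by rw [← sq_abs, h1]; norm_num
    rw [this] at hm
    have h2 : (c - 1) * (c + 1) = 0 := by linear_combination -hm
    rcases mul_eq_zero.1 h2 with h3 | h3
    · exact hc (by linarith)
    · linarith [h.pos]
  refine ⟨F 0, σ, fun x => ?_⟩
  suffices F x - σ * x = F 0 - σ * 0 by linarith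
  rcases lt_or_gt_of_ne hm1 with h1 | h1
  · refine flat (h := fun x => F x - σ * x) hb h1 (fun y y' => ?_) x 0
    obtain ⟨x, h1, h2⟩ := h.bw y
    obtain ⟨x', h3, h4⟩ := h.bw y'
    exact ⟨x, x', by rw [hl _ _ h1 h2, hl _ _ h3 h4]; ring⟩
  · have h0 : μ ≠ 0 := by rintro h0; rw [h0] at h1; norm_num at h1
    refine flat (h := fun x => F x - σ * x) (μ := μ⁻¹) hb
      (by rw [abs_inv]; exact inv_lt_one_of_one_lt₀ h1) (fun y y' => ?_) x 0
    obtain ⟨x, h1, h2⟩ := h.fw y
    obtain ⟨x', h3, h4⟩ := h.fw y'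
    exact ⟨x, x', by rw [hl _ _ h1 h2, hl _ _ h3 h4]; field_simp; ring⟩

lemma case_one (hab : a < b) (hB : ∀ x ∈ Ioo a b, |F x| ≤ B) (h : Iso F c p q r s u v)
    (hqs : q * s ≠ 0) (hE : LL F 0 0 0 1) : False := by
  have hc := h.pos.ne'
  have hN : LL F (q * q) (q * s) (q * s) (s * s) := by
    obtain ⟨e, f, hX⟩ := hE
    have hY := h.conj hX
    rw [T, T', mk_mul, mk_mul] at hY
    simp only [mul_zero, add_zero, zero_mul, mul_one, zero_add] at hY
    have e1 : q * c * (q / c) = q * q := by field_simp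
    have e2 : q * c * (s / c) = q * s := by field_simp
    have e3 : s * c * (q / c) = q * s := by field_simp
    have e4 : s * c * (s / c) = s * s := by field_simp
    rw [e1, e2, e3, e4] at hY
    exact ⟨_, _, hY⟩
  have hq : q ≠ 0 := left_ne_zero_of_mul hqs
  have hs : s ≠ 0 := right_ne_zero_of_mul hqs
  have h1 := hE.br hN
  have h2 := hE.br h1
  refine sl2 hab hB (h2.lin h1 (1 / (2 * (q * s))) (-1 / (2 * (q * s))) ?_ ?_ ?_ ?_)
    (h2.lin h1 (1 / (2 * (q * s))) (1 / (2 * (q * s))) ?_ ?_ ?_ ?_) <;>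
  · field_simp; ring

lemma case_two (hab : a < b) (hB : ∀ x ∈ Ioo a b, |F x| ≤ B)
    (hnt : ∀ e f, mk 0 0 0 0 e f 0 ∈ GG F → e = 0 ∧ f = 0) {d1 d2 β1 β2 : ℝ} (hd : d1 ≠ d2)
    (h1 : LL F 0 d1 1 β1) (h2 : LL F 0 d2 1 β2) : ∃ m κ, ∀ x, F x = m + κ * x := by
  have hd' := sub_ne_zero.2 hd
  set κ' := (β1 - β2) / (d1 - d2) with hκ'
  have N2 : LL F 0 1 0 κ' := h1.lin h2 (1 / (d1 - d2)) (-1 / (d1 - d2)) (by ring)
    (by field_simp; ring) (by ring) (by rw [hκ']; field_simp; ring)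
  set κ := β1 - d1 * κ'
  have N1 : LL F 0 0 1 κ := h1.lin N2 1 (-d1) (by ring) (by ring) (by ring) (by ring)
  have H := N2.br N1
  have D1 : LL F 1 0 κ' (-1 - κ * κ') := H.lin N2 1 (-κ) (by ring) (by ring) (by ring) (by ring)
  have D : LL F 1 0 0 (-1 - 2 * κ * κ') :=
    D1.lin N1 1 (-κ') (by ring) (by ring) (by ring) (by ring)
  by_cases hδ : 1 + κ * κ' = 0
  swap
  · exfalso
    refine sl2 hab hB ((D.br N2).lin N2 (1 / (2 * (1 + κ * κ'))) 0 ?_ ?_ ?_ ?_)
      ((D.br N1).lin N1 (-1 / (2 * (1 + κ * κ'))) 0 ?_ ?_ ?_ ?_) <;>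
    · field_simp; ring
  have e1 : -1 - 2 * κ * κ' = 1 := by linear_combination -2 * hδ
  rw [e1] at D
  obtain ⟨e0, f0, X0⟩ := D
  obtain ⟨e1, f1, X1⟩ := N1
  obtain ⟨e2, f2, X2⟩ := N2
  have t1 := br_mk X0 X1
  have t2 := br_mk X0 X2
  simp only [mul_zero, add_zero, zero_mul, mul_one, zero_add, one_mul, sub_zero, sub_self]
    at t1 t2
  obtain ⟨u1, u2⟩ := hnt _ _ t1
  obtain ⟨u3, u4⟩ := hnt _ _ t2
  refine ⟨κ' * e0 - f0, κ', on_line hab hB fun x y hy => ?_⟩
  have k1 := det0 hy X0 X1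
  have k2 := det0 hy X0 X2
  have a1 : e1 = 0 := u1
  have a2 : f1 = e0 + κ * f0 := by linarith
  have a3 : e2 = f0 := by linarith
  have a4 : f2 = κ' * f0 := by linarith
  rw [a1, a2] at k1
  rw [a3, a4] at k2
  set w := κ' * (x + e0) - (y + f0) with hw
  have k3 : κ * (x + e0) * w = 0 := by
    rw [hw]; linear_combination -k1 + (x + e0) ^ 2 * hδ
  have k4 : (y + f0) * w = 0 := by rw [hw]; linear_combination k2
  have k5 : w * w = 0 := by
    have : κ' * (x + e0) * w = 0 := by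
      linear_combination -κ' ^ 2 * k3 + κ' * (x + e0) * w * hδ
    linear_combination this - k4 + w * hw
  have := mul_self_eq_zero.1 k5
  linarith

end Pool.Agent.H2.Vr
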