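import Pool.Agent.H2.VrC

set_option autoImplicit false
open Filter Topology NormedSpace Set

namespace Pool.Agent.H2.Vr

lemma acc {P : Type} [TopologicalSpace P] [SecondCountableTopology P] (C : Set ℝ) (Θ : ℝ → P) :
    {c | c ∈ C ∧ Θ c ∉ closure (Θ '' (C \ {c}))}.Countable := by
  have : {c | c ∈ C ∧ Θ c ∉ closure (Θ '' (C \ {c}))} ⊆
      ⋃ U ∈ TopologicalSpace.countableBasis P,
        {c | c ∈ C ∧ Θ c ∈ U ∧ ∀ c' ∈ C, c' ≠ c → Θ c' ∉ U} := by
    rintro c ⟨hc, hn⟩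
    obtain ⟨U, hU, h1, h2⟩ := (TopologicalSpace.isBasis_countableBasis P).exists_subset_of_mem_open
      (show Θ c ∈ (closure (Θ '' (C \ {c})))ᶜ from hn) isClosed_closure.isOpen_compl
    simp only [mem_iUnion]
    exact ⟨U, hU, hc, h1, fun c' hc' hne hm => h2 hm (subset_closure ⟨c', ⟨hc', hne⟩, rfl⟩)⟩
  refine Countable.mono this ((TopologicalSpace.countable_countableBasis P).biUnion fun U _ => ?_)
  refine Set.Subsingleton.countable fun x hx y hy => ?_
  by_contra hne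
  exact hy.2.2 x hx.1 hne hx.2.1

variable {F : ℝ → ℝ}

lemma tangent {c p q r s u v : ℝ} (h : Iso F c p q r s u v) {cn pn qn rn sn un vn : ℕ → ℝ}
    (hn : ∀ n, Iso F (cn n) (pn n) (qn n) (rn n) (sn n) (un n) (vn n)) (hne : ∀ n, cn n ≠ c)
    (tc : Tendsto cn atTop (𝓝 c)) (tp : Tendsto pn atTop (𝓝 p)) (tq : Tendsto qn atTop (𝓝 q))
    (tr : Tendsto rn atTop (𝓝 r)) (ts : Tendsto sn atTop (𝓝 s)) (tu : Tendsto un atTop (𝓝 u))
    (tv : Tendsto vn atTop (𝓝 v)) :
    ∃ α β e f, mk 0 (-(c ^ 2 * α)) α β e f 0 ∈ GG F ∧ ¬ (α = 0 ∧ β = 0 ∧ e = 0 ∧ f = 0) := by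
  have hc := h.pos.ne'
  set Tn : ℕ → AA := fun n => T (cn n) (pn n) (qn n) (rn n) (sn n) (un n) (vn n) with hTn
  set Tn' : ℕ → AA := fun n => T' (cn n) (pn n) (qn n) (rn n) (sn n) (un n) (vn n) with hTn'
  have mkt : ∀ {a b c d e f : ℕ → ℝ} {a0 b0 c0 d0 e0 f0 : ℝ}, Tendsto a atTop (𝓝 a0) →
      Tendsto b atTop (𝓝 b0) → Tendsto c atTop (𝓝 c0) → Tendsto d atTop (𝓝 d0) →
      Tendsto e atTop (𝓝 e0) → Tendsto f atTop (𝓝 f0) →
      Tendsto (fun n => mk (a n) (b n) (c n) (d n) (e n) (f n) 1) atTop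
        (𝓝 (mk a0 b0 c0 d0 e0 f0 1)) := fun ha hb hc hd he hf =>
    ((((((ha.smul_const _).add (hb.smul_const _)).add (he.smul_const _)).add
      (hc.smul_const _)).add (hd.smul_const _)).add (hf.smul_const _)).add tendsto_const_nhds
  have t1 : Tendsto Tn atTop (𝓝 (T c p q r s u v)) := mkt tp (tq.mul tc) tr (ts.mul tc) tu tv
  have t2 : Tendsto Tn' atTop (𝓝 (T' c p q r s u v)) :=
    mkt tp tr (tq.div tc hc) (ts.div tc hc) ((tp.mul tu).add (tr.mul tv)).neg
      (((tq.mul tu).add (ts.mul tv)).neg.div tc hc)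
  set g : ℕ → AA := fun n => T' c p q r s u v * Tn n with hg
  set k : ℕ → AA := fun n => Tn' n * T c p q r s u v with hk
  have g1 : Tendsto g atTop (𝓝 1) := by rw [← h.T'T]; exact t1.const_mul _
  have k1 : Tendsto k atTop (𝓝 1) := by rw [← h.T'T]; exact t2.mul_const _
  have kg : ∀ n, k n * g n = 1 := fun n => by
    simp only [hg, hk, hTn, hTn']
    rw [mul_assoc, ← mul_assoc (T c p q r s u v), h.TT', one_mul, (hn n).T'T]
  have gS : ∀ n, g n ∈ SK F := fun n => (SK F).mul_mem (mem_SK h.T_bw) (mem_SK (hn n).T_fw)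
  have kS : ∀ n, k n ∈ SK F := fun n => (SK F).mul_mem (mem_SK (hn n).T_bw) (mem_SK h.T_fw)
  obtain ⟨o1, o2, o3⟩ := h.o4
  have rel : ∀ n, (g n (1, 0, 0)).1 ^ 2 + c ^ 2 * (g n (1, 0, 0)).2.1 ^ 2 = 1 ∧
      (g n (1, 0, 0)).1 * (g n (0, 1, 0)).1 + c ^ 2 * ((g n (1, 0, 0)).2.1 * (g n (0, 1, 0)).2.1) = 0
      ∧ (g n (0, 1, 0)).1 ^ 2 + c ^ 2 * (g n (0, 1, 0)).2.1 ^ 2 = cn n ^ 2 ∧
      ∀ w : E, (g n w).2.2 = w.2.2 := fun n => by
    have a1 := (hn n).o1
    have a2 := (hn n).o2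
    have a3 := (hn n).o3
    simp only [hg, hTn, T, T', mk_mul, mk_apply]
    refine ⟨?_, ?_, ?_, fun ⟨x, y, z⟩ => by simp⟩
    · field_simp
      linear_combination pn n ^ 2 * o1 + rn n ^ 2 * o2 + 2 * pn n * rn n * o3 + a1
    · field_simp
      linear_combination cn n * (pn n * qn n * o1 + rn n * sn n * o2 +
        (pn n * sn n + qn n * rn n) * o3 + a3)
    · field_simp
      linear_combination cn n ^ 2 * (qn n ^ 2 * o1 + sn n ^ 2 * o2 + 2 * qn n * sn n * o3 + a2)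
  set ε : ℕ → ℝ := fun n => ‖g n - 1‖ with hε
  have εp : ∀ n, 0 < ε n := fun n => by
    refine norm_pos_iff.2 (sub_ne_zero.2 fun h1 => hne n ?_)
    have := (rel n).2.2.1
    rw [h1] at this
    simp at this
    exact (pow_left_inj₀ h.pos.le (hn n).pos.le two_ne_zero).1 this |>.symm
  have ε0 : Tendsto ε atTop (𝓝 0) := by simpa using (g1.sub_const 1).norm
  set Y : ℕ → AA := fun n => (ε n)⁻¹ • (g n - 1) with hY
  have Ys : ∀ n, Y n ∈ Metric.sphere (0 : AA) 1 := fun n => by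
    simp only [hY, mem_sphere_iff_norm, sub_zero, norm_smul, norm_inv, Real.norm_eq_abs,
      abs_of_pos (εp n)]
    exact inv_mul_cancel₀ (εp n).ne'
  obtain ⟨X, hX1, φ, hφ, hX⟩ := (isCompact_sphere (0 : AA) 1).tendsto_subseq Ys
  have φt := hφ.tendsto_atTop
  have XG : X ∈ GG F := lim_mem_G (g := g ∘ φ) (h := k ∘ φ) (ε := ε ∘ φ) (fun n => gS _)
    (fun n => kS _) (fun n => kg _) (k1.comp φt) (fun n => εp _) (ε0.comp φt) hX
  have ev : ∀ w : E, Tendsto (fun n => Y (φ n) w) atTop (𝓝 (X w)) := fun w =>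
    ((show Continuous fun Z : AA => Z w by fun_prop).tendsto X).comp hX
  have gY : ∀ n w, g n w = w + ε n • Y n w := fun n w => by
    simp only [hY, ContinuousLinearMap.smul_apply, smul_smul, mul_inv_cancel₀ (εp n).ne', one_smul]
    simp
  have e0 := ε0.comp φt
  have z0 : ∀ w, (X w).2.2 = 0 := fun w => by
    have h1 : Tendsto (fun n => (Y (φ n) w).2.2) atTop (𝓝 (X w).2.2) := (ev w).snd_nhds.snd_nhds
    refine tendsto_nhds_unique h1 (tendsto_const_nhds.congr fun n => ?_)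
    have := (rel (φ n)).2.2.2 w
    rw [gY] at this
    simp only [Prod.snd_add, Prod.smul_snd, smul_eq_mul, add_eq_left, mul_eq_zero] at this
    exact (this.resolve_left (εp _).ne').symm
  have a1 := (ev (1, 0, 0)).fst_nhds
  have c1 := (ev (1, 0, 0)).snd_nhds.fst_nhds
  have b1 := (ev (0, 1, 0)).fst_nhds
  have d1 := (ev (0, 1, 0)).snd_nhds.fst_nhds
  have ha : (X (1, 0, 0)).1 = 0 := by
    have := (a1.mul ((e0.mul a1).const_add 2)).add ((e0.mul (c1.pow 2)).const_mul (c ^ 2))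
    have h2 := tendsto_nhds_unique this (tendsto_const_nhds.congr fun n => (show (0 : ℝ) = _ by
      have := (rel (φ n)).1
      simp only [gY, Prod.fst_add, Prod.snd_add, Prod.smul_fst, Prod.smul_snd, smul_eq_mul] at this
      apply mul_left_cancel₀ (εp (φ n)).ne'
      simp only [Function.comp]
      linear_combination -this))
    linarith
  have hb : (X (0, 1, 0)).1 = -(c ^ 2 * (X (1, 0, 0)).2.1) := by
    have := (((e0.mul a1).const_add 1).mul b1).add
      ((c1.mul ((e0.mul d1).const_add 1)).const_mul (c ^ 2))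
    have h2 := tendsto_nhds_unique this (tendsto_const_nhds.congr fun n => (show (0 : ℝ) = _ by
      have := (rel (φ n)).2.1
      simp only [gY, Prod.fst_add, Prod.snd_add, Prod.smul_fst, Prod.smul_snd, smul_eq_mul] at this
      apply mul_left_cancel₀ (εp (φ n)).ne'
      simp only [Function.comp]
      linear_combination -this))
    linarith
  have hXe := eq_mk X z0
  rw [ha, hb] at hXe
  refine ⟨_, _, _, _, hXe ▸ XG, fun ⟨h1, h2, h3, h4⟩ => ?_⟩
  rw [h1, h2, h3, h4] at hXe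
  simp only [mul_zero, neg_zero, mk_zero] at hXe
  rw [hXe] at hX1
  simp at hX1

theorem structure_thm {a b B : ℝ} (hab : a < b) (hB : ∀ x ∈ Ioo a b, |F x| ≤ B) {C : Set ℝ}
    (hC : ¬ C.Countable) (H : ∀ c ∈ C, ∃ p q r s u v, Iso F c p q r s u v) :
    (∃ m κ, ∀ x, F x = m + κ * x) ∨
    ¬ {l : ℝ | 0 < l ∧ ∃ u v, ∀ x, F (x + u) = l * F x + v}.Countable := by
  classical
  choose! p q r s u v h using H
  by_contra hcon
  rw [not_or, not_not] at hcon
  obtain ⟨hna, hnt⟩ := hcon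
  have fib : ∀ O : ℝ × ℝ × ℝ × ℝ, {c | c ∈ C ∧ (p c, q c, r c, s c) = O}.Countable := fun O => by
    rcases eq_empty_or_nonempty {c | c ∈ C ∧ (p c, q c, r c, s c) = O} with h0 | ⟨c0, hc0, hO⟩
    · rw [h0]; exact countable_empty
    refine (hnt.image fun l => l * c0).mono ?_
    rintro c ⟨hc, hO'⟩
    have h0 := h c0 hc0
    have h1 := h c hc
    rw [← hO] at hO'
    simp only [Prod.mk.injEq] at hO'
    obtain ⟨e1, e2, e3, e4⟩ := hO'
    have p0 := h0.pos.ne'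
    refine ⟨c / c0, ⟨div_pos h1.pos h0.pos, p c0 * (u c - u c0) + r c0 * (v c - v c0),
      (q c0 * (u c - u c0) + s c0 * (v c - v c0)) / c0, fun x => ?_⟩, by field_simp⟩
    obtain ⟨x', k1, k2⟩ := h1.fw x
    obtain ⟨y, k3, k4⟩ := h0.bw x'
    rw [e1, e2] at k1
    rw [e3, e4] at k2
    have hy : x + (p c0 * (u c - u c0) + r c0 * (v c - v c0)) = y := by
      linear_combination p c0 * (k1 - k3) + r c0 * (k2 - k4) - (x - y) * h0.o1 -
        (c * F x - c0 * F y) * h0.o3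
    rw [hy]
    field_simp
    linear_combination -q c0 * (k1 - k3) - s c0 * (k2 - k4) + (x - y) * h0.o3 +
        (c * F x - c0 * F y) * h0.o2
  have ex : ∀ D : Set ℝ, D.Countable → ∃ c ∈ C, c ∉ D := fun D hD => by
    by_contra hh
    push Not at hh
    exact hC (hD.mono hh)
  obtain ⟨c1, hc1, hc1'⟩ := ex {1} (countable_singleton _)
  have nt : ∀ e f, mk 0 0 0 0 e f 0 ∈ GG F → e = 0 ∧ f = 0 := fun e f hX => by
    by_contra hef
    exact hna (trans_case hab hB (h c1 hc1) hc1' hX hef)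
  have nE : ¬ LL F 0 0 0 1 := fun hE => by
    have fin : ({-1, 0, 1} : Set ℝ).Countable := (Set.toFinite _).countable
    obtain ⟨c, hc, hc'⟩ := ex _ ((fin.prod (fin.prod (fin.prod fin))).biUnion fun O _ => fib O)
    refine case_one hab hB (h c hc) (fun hqs => hc' ?_) hE
    simp only [mem_iUnion]
    refine ⟨(p c, q c, r c, s c), ?_, hc, rfl⟩
    obtain ⟨o4, o5, o6⟩ := (h c hc).o4
    have o2 := (h c hc).o2
    have sq : ∀ t : ℝ, t ^ 2 = 0 ∨ t ^ 2 = 1 → t ∈ ({-1, 0, 1} : Set ℝ) := fun t ht => by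
      rcases ht with ht | ht
      · simp [pow_eq_zero_iff two_ne_zero |>.1 ht]
      · rcases sq_eq_one_iff.1 ht with h1 | h1 <;> simp [h1]
    rcases mul_eq_zero.1 hqs with h0 | h0
    · rw [h0] at o2 o4
      exact ⟨sq _ (Or.inr (by linarith)), sq _ (Or.inl (by simp [h0])),
        sq _ (Or.inl (by linarith)), sq _ (Or.inr (by linarith))⟩
    · rw [h0] at o2 o5
      exact ⟨sq _ (Or.inl (by linarith)), sq _ (Or.inr (by linarith)),
        sq _ (Or.inr (by linarith)), sq _ (Or.inl (by simp [h0]))⟩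
  set Θ : ℝ → Fin 7 → ℝ := fun c => ![c, p c, q c, r c, s c, u c, v c] with hΘ
  have good : ∀ c ∈ C, Θ c ∈ closure (Θ '' (C \ {c})) → ∃ β, LL F 0 (-c ^ 2) 1 β := by
    intro c hc hcl
    obtain ⟨w, hw, hwt⟩ := mem_closure_iff_seq_limit.1 hcl
    choose cn hcn hcw using hw
    have tt : ∀ i, Tendsto (fun n => Θ (cn n) i) atTop (𝓝 (Θ c i)) := fun i => by
      simp only [hcw]; exact tendsto_pi_nhds.1 hwt i
    obtain ⟨α, β, e, f, hX, hne⟩ := tangent (h c hc) (fun n => h _ (hcn n).1)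
      (fun n => (hcn n).2) (tt 0) (tt 1) (tt 2) (tt 3) (tt 4) (tt 5) (tt 6)
    have hL : LL F 0 (-(c ^ 2 * α)) α β := ⟨e, f, hX⟩
    by_cases hα : α = 0
    · exfalso
      subst hα
      by_cases hβ : β = 0
      · subst hβ
        simp only [mul_zero, neg_zero] at hX
        exact hne ⟨rfl, rfl, nt e f hX⟩
      · exact nE (hL.lin hL (1 / β) 0 (by ring) (by ring) (by ring) (by field_simp; ring))
    · exact ⟨β / α, hL.lin hL (1 / α) 0 (by ring) (by field_simp; ring) (by field_simp; ring)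
        (by ring)⟩
  obtain ⟨d1, hd1, hd1'⟩ := ex _ (acc C Θ)
  obtain ⟨d2, hd2, hd2'⟩ := ex _ ((acc C Θ).insert d1)
  rw [mem_insert_iff, not_or] at hd2'
  obtain ⟨β1, h1⟩ := good d1 hd1 (by by_contra hh; exact hd1' ⟨hd1, hh⟩)
  obtain ⟨β2, h2⟩ := good d2 hd2 (by by_contra hh; exact hd2'.2 ⟨hd2, hh⟩)
  refine hna (case_two hab hB nt (fun hh => hd2'.1 ?_) h1 h2)
  exact ((pow_left_inj₀ (h d1 hd1).pos.le (h d2 hd2).pos.le two_ne_zero).1 (neg_inj.1 hh)).symm

end Pool.Agent.H2.Vr
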