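import Pool.Agent.H2.VrD

set_option autoImplicit false
open Filter Topology Set MeasureTheory
open scoped Pointwise

namespace Pool.Agent.H2.Vr

/-- Steinhaus-type property of sets defined from `F` -/
def St (l : Filter ℝ) (F : ℝ → ℝ) : Prop :=
  ∀ V W : Set (ℝ × ℝ), MeasurableSet V → MeasurableSet W → (∃ᶠ x in l, (x, F x) ∈ V) →
    (∃ᶠ x in l, (x, F x) ∈ W) →
    ∃ t δ : ℝ, 0 < δ ∧ ∀ u, |u - t| < δ → ∃ x, (x, F x) ∈ W ∧ (x + u, F (x + u)) ∈ V

lemma lin_of_bdd {U : AddSubgroup ℝ} (hU : Dense (U : Set ℝ)) (φ : U →+ ℝ) {t δ M : ℝ} (hδ : 0 < δ)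
    (hb : ∀ u : U, |(u : ℝ) - t| < δ → |φ u| ≤ M) : ∃ k : ℝ, ∀ u : U, φ u = k * u := by
  obtain ⟨u0, hu0, h0⟩ := hU.exists_mem_open (isOpen_Ioo (a := t - δ / 2) (b := t + δ / 2))
    ⟨t, by constructor <;> linarith⟩
  have hb' : ∀ u : U, |(u : ℝ)| < δ / 2 → |φ u| ≤ 2 * M := fun u hu => by
    have h1 := hb (u + ⟨u0, hu0⟩) (by
      rw [abs_lt] at hu ⊢
      simp only [AddSubgroup.coe_add]
      constructor <;> linarith [h0.1, h0.2, hu.1, hu.2])
    have h2 := hb ⟨u0, hu0⟩ (by rw [abs_lt]; constructor <;> linarith [h0.1, h0.2])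
    rw [map_add] at h1
    rw [abs_le] at h1 h2 ⊢
    constructor <;> linarith [h1.1, h1.2, h2.1, h2.2]
  obtain ⟨u1, hu1, h1⟩ := hU.exists_mem_open (isOpen_Ioo (a := 0) (b := δ / 2))
    ⟨δ / 4, by constructor <;> linarith⟩
  set w : U := ⟨u1, hu1⟩
  have hp := h1.1
  refine ⟨φ w / u1, fun u => ?_⟩
  set k := φ w / u1 with hk
  have hk' : φ w = k * u1 := by rw [hk]; field_simp
  have all : ∀ z : U, |φ z - k * z| ≤ 2 * M + |k| * u1 := fun z => by
    set m := ⌊(z : ℝ) / u1⌋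
    have a1 : (m : ℝ) * u1 ≤ z := by
      have := Int.floor_le ((z : ℝ) / u1); rwa [le_div_iff₀ hp] at this
    have a2 : (z : ℝ) < (m + 1) * u1 := by
      have := Int.lt_floor_add_one ((z : ℝ) / u1); rwa [div_lt_iff₀ hp] at this
    have a3 : ((z - m • w : U) : ℝ) = z - m * u1 := by simp [w]
    have a4 : |(z : ℝ) - m * u1| ≤ u1 := by rw [abs_le]; constructor <;> nlinarith
    have a5 := hb' (z - m • w) (by rw [a3]; linarith [h1.2])
    rw [map_sub, map_zsmul, hk', zsmul_eq_mul] at a5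
    have e : φ z - k * z = (φ z - m * (k * u1)) - k * (z - m * u1) := by ring
    rw [e]
    refine (abs_sub _ _).trans (add_le_add a5 ?_)
    rw [abs_mul]; exact mul_le_mul_of_nonneg_left a4 (abs_nonneg _)
  by_contra hne
  have hpos : 0 < |φ u - k * u| := abs_pos.2 (sub_ne_zero.2 hne)
  obtain ⟨n, hn⟩ := exists_nat_gt ((2 * M + |k| * u1) / |φ u - k * u|)
  have := all (n • u)
  rw [map_nsmul, nsmul_eq_mul, AddSubgroup.coe_nsmul, nsmul_eq_mul,
    show (n : ℝ) * φ u - k * (n * u) = n * (φ u - k * u) by ring, abs_mul, Nat.abs_cast] at this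
  rw [div_lt_iff₀ hpos] at hn
  linarith

theorem exp_form {l : Filter ℝ} [CountableInterFilter l] {F : ℝ → ℝ} (hS : St l F)
    (hC : ¬ {c : ℝ | 0 < c ∧ ∃ u v, ∀ x, F (x + u) = c * F x + v}.Countable) :
    ∃ a b k : ℝ, ∀ᶠ x in l, F x = a + b * Real.exp (k * x) := by
  obtain ⟨c0, ⟨-, u0, v0, h0⟩, hc0⟩ : ∃ c ∈ {c : ℝ | 0 < c ∧ ∃ u v, ∀ x, F (x + u) = c * F x + v},
      c ≠ 1 := by
    by_contra hh
    push Not at hh
    exact hC ((countable_singleton 1).mono hh)
  set a := v0 / (1 - c0) with ha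
  have hc1 : 1 - c0 ≠ 0 := sub_ne_zero.2 hc0.symm
  have key : ∀ c u v, (∀ x, F (x + u) = c * F x + v) → ∀ x, F (x + u) - a = c * (F x - a) := by
    intro c u v h x
    have e1 : F (u + u0) = c0 * (c * F 0 + v) + v0 := by rw [h0, ← h, zero_add]
    have e2 : F (u0 + u) = c * (c0 * F 0 + v0) + v := by rw [h, ← h0, zero_add]
    rw [add_comm, e2] at e1
    rw [h, ha]; field_simp; linear_combination e1
  by_cases hz : ∀ᶠ x in l, F x = a
  · exact ⟨a, 0, 0, by simpa using hz⟩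
  have hfr : ∃ᶠ x in l, F x ≠ a := not_eventually.1 hz
  obtain ⟨x0, hx0⟩ := hfr.exists
  have g0 : F x0 - a ≠ 0 := sub_ne_zero.2 hx0
  let U : AddSubgroup ℝ :=
    { carrier := {u | ∃ c : ℝ, 0 < c ∧ ∀ x, F (x + u) - a = c * (F x - a)}
      zero_mem' := ⟨1, one_pos, fun x => by simp⟩
      add_mem' := by
        rintro u u' ⟨c, hc, h⟩ ⟨c', hc', h'⟩
        exact ⟨c * c', mul_pos hc hc', fun x => by rw [← add_assoc, h', h]; ring⟩
      neg_mem' := by
        rintro u ⟨c, hc, h⟩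
        refine ⟨c⁻¹, inv_pos.2 hc, fun x => ?_⟩
        have := h (x + -u)
        rw [neg_add_cancel_right] at this
        rw [this]; field_simp }
  have hU : Dense (U : Set ℝ) := by
    refine U.dense_or_cyclic.resolve_right fun ⟨w, hw⟩ => hC ?_
    have h1 : (U : Set ℝ).Countable := by
      rw [hw, ← AddSubgroup.zmultiples_eq_closure]; exact countable_range _
    refine (h1.image fun u => (F (x0 + u) - a) / (F x0 - a)).mono ?_
    rintro c ⟨hc, u, v, h⟩
    exact ⟨u, ⟨c, hc, key c u v h⟩, by simp only; rw [key c u v h]; field_simp⟩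
  have hlog : ∀ u : U, ∀ x, F (x + u) - a =
      Real.exp (Real.log ((F (x0 + u) - a) / (F x0 - a))) * (F x - a) := by
    rintro ⟨u, c, hc, h⟩ x
    simp only
    rw [h x0, mul_div_cancel_right₀ _ g0, Real.exp_log hc, h]
  let φ : U →+ ℝ := AddMonoidHom.mk' (fun u => Real.log ((F (x0 + u) - a) / (F x0 - a))) (by
    intro u u'
    apply Real.exp_injective
    apply mul_right_cancel₀ g0
    have h1 := hlog u' (x0 + u)
    have h2 := hlog u x0
    rw [← hlog (u + u'), Real.exp_add, AddSubgroup.coe_add, ← add_assoc]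
    linear_combination h1 + Real.exp (Real.log ((F (x0 + u') - a) / (F x0 - a))) * h2)
  have hφ : ∀ u : U, ∀ x, F (x + u) - a = Real.exp (φ u) * (F x - a) := hlog
  obtain ⟨n, hn⟩ : ∃ n : ℕ, ∃ᶠ x in l, (x, F x) ∈
      {w : ℝ × ℝ | w.2 ≠ a ∧ |Real.log (w.2 - a)| ≤ n} := by
    by_contra hh
    simp only [not_exists, not_frequently] at hh
    refine hz ((eventually_countable_forall.2 hh).mono fun x hx => ?_)
    by_contra hne
    obtain ⟨n, hn⟩ := exists_nat_ge |Real.log (F x - a)|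
    exact hx n ⟨hne, hn⟩
  have hm : MeasurableSet {w : ℝ × ℝ | w.2 ≠ a ∧ |Real.log (w.2 - a)| ≤ n} :=
    ((measurableSet_eq_fun measurable_snd measurable_const).compl).inter
      (measurableSet_le (f := fun w : ℝ × ℝ => |Real.log (w.2 - a)|) (by fun_prop) measurable_const)
  obtain ⟨t, δ, hδ, ht⟩ := hS _ _ hm hm hn hn
  obtain ⟨k, hk⟩ := lin_of_bdd hU φ (M := 2 * n) hδ fun u hu => by
    obtain ⟨x, ⟨h1, h2⟩, -, h3⟩ := ht u hu
    simp only at h1 h2 h3
    rw [hφ, Real.log_mul (Real.exp_ne_zero _) (sub_ne_zero.2 h1), Real.log_exp] at h3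
    rw [abs_le] at h2 h3 ⊢
    constructor <;> linarith [h2.1, h2.2, h3.1, h3.2]
  obtain ⟨b, hb⟩ := exists_eventuallyEq_const_of_forall_separating (l := l)
    (f := fun x => (F x - a) * Real.exp (-(k * x))) MeasurableSet fun V hV => by
    by_contra hh
    rw [not_or, not_eventually, not_eventually] at hh
    have m1 : MeasurableSet {w : ℝ × ℝ | (w.2 - a) * Real.exp (-(k * w.1)) ∈ V} :=
      (show Measurable fun w : ℝ × ℝ => (w.2 - a) * Real.exp (-(k * w.1)) by fun_prop) hV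
    obtain ⟨t, δ, hδ, ht⟩ := hS _ _ m1 m1.compl (hh.2.mono fun x hx => not_not.1 hx) hh.1
    obtain ⟨u, hu, h1⟩ := hU.exists_mem_open (isOpen_Ioo (a := t - δ) (b := t + δ))
      ⟨t, by constructor <;> linarith⟩
    obtain ⟨x, h2, h3⟩ := ht u (by rw [abs_lt]; constructor <;> linarith [h1.1, h1.2])
    apply h2
    have := hφ ⟨u, hu⟩ x
    simp only [hk] at this
    simp only [mem_ofPred_eq] at h3 ⊢
    rw [this] at h3
    convert h3 using 1
    rw [mul_add, neg_add, Real.exp_add, Real.exp_neg (k * u)]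
    field_simp
  refine ⟨a, b, k, hb.mono fun x hx => ?_⟩
  simp only [Function.const] at hx
  rw [← hx, Real.exp_neg]
  field_simp; ring

lemma St_ae {F : ℝ → ℝ} (hF : AEMeasurable F volume) : St (ae volume) F := by
  intro V W hV hW h1 h2
  have hg : AEMeasurable (fun x => (x, F x)) volume := aemeasurable_id.prodMk hF
  obtain ⟨A, hA, mA, eA⟩ := (hg.nullMeasurableSet_preimage hV).exists_measurable_subset_ae_eq
  obtain ⟨B, hB, mB, eB⟩ := (hg.nullMeasurableSet_preimage hW).exists_measurable_subset_ae_eq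
  have pA : volume A ≠ 0 := by rw [measure_congr eA]; exact frequently_ae_iff.1 h1
  have pB : volume B ≠ 0 := by rw [measure_congr eB]; exact frequently_ae_iff.1 h2
  obtain ⟨t, ht⟩ : ∃ t : ℝ, volume (B ∩ (fun x => x + t) ⁻¹' A) ≠ 0 := by
    by_contra hh
    push Not at hh
    set D : Set (ℝ × ℝ) := {w | w.2 ∈ B ∧ w.2 + w.1 ∈ A}
    have mD : MeasurableSet D := (measurable_snd mB).inter
      ((measurable_snd.add measurable_fst) mA)
    have h3 : (volume.prod volume) D = 0 :=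
      (Measure.measure_prod_null mD).2 (Eventually.of_forall hh)
    have h4 : (volume.prod volume) (Prod.swap ⁻¹' D) = 0 := by
      rw [← Measure.map_apply measurable_swap mD, Measure.prod_swap, h3]
    have h5 := (Measure.measure_prod_null (measurable_swap mD)).1 h4
    obtain ⟨x, hx, h6⟩ := ((frequently_ae_iff.2 pB).and_eventually h5).exists
    apply pA
    have : Prod.mk x ⁻¹' (Prod.swap ⁻¹' D) = (fun t => x + t) ⁻¹' A := by
      ext t; simp only [D, mem_preimage, Prod.swap_prod_mk, mem_ofPred_eq]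
      exact ⟨fun h => h.2, fun h => ⟨hx, h⟩⟩
    simp only [this, measure_preimage_add, Pi.zero_apply] at h6
    exact h6
  have h7 := Measure.sub_mem_nhds_zero_of_addHaar_pos volume _
    (mB.inter (measurable_add_const t mA)) (pos_iff_ne_zero.2 ht)
  obtain ⟨δ, hδ, h8⟩ := Metric.mem_nhds_iff.1 h7
  refine ⟨t, δ, hδ, fun u hu => ?_⟩
  obtain ⟨y, hy, x, hx, e⟩ := mem_sub.1 (h8 (show u - t ∈ Metric.ball 0 δ by simpa using hu))
  refine ⟨x, hB hx.1, ?_⟩
  have : x + u = y + t := by linarith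
  rw [this]; exact hA hy.2

lemma St_res {F : ℝ → ℝ} (hF : ∀ U : Set ℝ, IsOpen U → BaireMeasurableSet (F ⁻¹' U)) :
    St (residual ℝ) F := by
  intro V W hV hW h1 h2
  have hg : @Measurable ℝ (ℝ × ℝ) (eventuallyMeasurableSpace (borel ℝ) (residual ℝ)) _
      (fun x => (x, F x)) := by
    refine Measurable.prodMk ?_ ?_
    · exact measurable_id'' le_eventuallyMeasurableSpace
    · exact @measurable_of_isOpen ℝ ℝ _ _ _ (eventuallyMeasurableSpace (borel ℝ) (residual ℝ)) F hF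
  obtain ⟨A, oA, eA⟩ := BaireMeasurableSet.residualEq_isOpen (hg hV)
  obtain ⟨B, oB, eB⟩ := BaireMeasurableSet.residualEq_isOpen (hg hW)
  obtain ⟨a, ha⟩ : A.Nonempty := (h1.and_eventually eA.mem_iff).exists.imp fun x hx => hx.2.1 hx.1
  obtain ⟨b, hb⟩ : B.Nonempty := (h2.and_eventually eB.mem_iff).exists.imp fun x hx => hx.2.1 hx.1
  obtain ⟨δ, hδ, h3⟩ := Metric.isOpen_iff.1 oA a ha
  refine ⟨a - b, δ, hδ, fun u hu => ?_⟩
  have h4 := (tendsto_residual_of_isOpenMap (continuous_add_const u)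
    (isOpenMap_add_right u)).eventually eA.mem_iff
  obtain ⟨x, hx1, hx2⟩ := (dense_of_mem_residual (h4.and eB.mem_iff)).inter_open_nonempty
    (B ∩ (fun x => x + u) ⁻¹' A) (oB.inter (oA.preimage (continuous_add_const u)))
    ⟨b, hb, h3 (by rw [Metric.mem_ball, Real.dist_eq]; convert hu using 2; ring)⟩
  exact ⟨x, hx2.2.2 hx1.1, hx2.1.2 hx1.2⟩

end Pool.Agent.H2.Vr
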