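import Pool.Agent.H2.RlB

set_option autoImplicit false

namespace Pool.Agent.H2.Wc

open Filter Topology Pool.Agent.H2.Sm Pool.Agent.H2.Gs
open scoped Classical

variable {X : Type} [NormedAddCommGroup X] [NormedSpace ℝ X]

lemma simons (T : Set X) (M : ℝ) (hM : ∀ t ∈ T, ‖t‖ ≤ M)
    (hT : ∀ s : StrongDual ℝ X, ∃ t ∈ T, ∀ u ∈ T, s u ≤ s t) (g : ℕ → StrongDual ℝ X)
    (hg : ∀ n, ‖g n‖ ≤ 1) {β δ : ℝ} (hδ : 0 < δ)
    (hβ : ∀ v ∈ convexHull ℝ (Set.range g), ∃ t ∈ T, β ≤ v t) :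
    ∃ t ∈ T, ∀ N, ∃ n, N ≤ n ∧ β - δ < g n t := by
  choose τ τ1 τ2 using hT
  let σ : StrongDual ℝ X → ℝ := fun f => f (τ f)
  have hσ : ∀ f : StrongDual ℝ X, ∀ u ∈ T, f u ≤ σ f := τ2
  have hab : ∀ f : StrongDual ℝ X, ∀ u ∈ T, |f u| ≤ ‖f‖ * M := fun f u hu =>
    (abs_apply_le f u).trans (mul_le_mul_of_nonneg_left (hM u hu) (norm_nonneg _))
  have hM0 : 0 ≤ M := (norm_nonneg _).trans (hM _ (τ1 0))
  let C : ℕ → Set (StrongDual ℝ X) := fun k => convexHull ℝ (g '' Set.Ici k)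
  have hC1 : ∀ k, ∀ v ∈ C k, ‖v‖ ≤ 1 := fun k v hv =>
    mem_closedBall_zero_iff.mp (convexHull_min (t := Metric.closedBall 0 1)
      (by rintro _ ⟨n, -, rfl⟩; exact mem_closedBall_zero_iff.mpr (hg n)) (convex_closedBall _ _) hv)
  have hCm : ∀ k, C (k + 1) ⊆ C k := fun k =>
    convexHull_mono (Set.image_mono (Set.Ici_subset_Ici.mpr (Nat.le_succ k)))
  have hnx : ∀ (k : ℕ) (s : StrongDual ℝ X), ∃ v ∈ C k, ∀ w ∈ C k,
      σ (s + (1 / 2 : ℝ) ^ k • v) ≤ σ (s + (1 / 2 : ℝ) ^ k • w) + δ / 12 * (1 / 4) ^ k := by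
    intro k s
    have hb : BddBelow ((fun w => σ (s + (1 / 2 : ℝ) ^ k • w)) '' C k) := by
      refine ⟨s (τ 0) - (1 / 2 : ℝ) ^ k * M, ?_⟩
      rintro _ ⟨w, hw, rfl⟩
      refine le_trans ?_ (hσ _ _ (τ1 0))
      have h1 := (abs_le.mp (hab w _ (τ1 0))).1
      have h2 := mul_le_mul_of_nonneg_right (hC1 k w hw) hM0
      have h3 : (0 : ℝ) < (1 / 2) ^ k := by positivity
      simp only [ContinuousLinearMap.add_apply, ContinuousLinearMap.smul_apply, smul_eq_mul]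
      nlinarith
    obtain ⟨_, ⟨v, hv, rfl⟩, h⟩ := exists_lt_of_csInf_lt
      (s := (fun w => σ (s + (1 / 2 : ℝ) ^ k • w)) '' C k)
      ⟨_, g k, subset_convexHull _ _ ⟨k, Set.mem_Ici.mpr le_rfl, rfl⟩, rfl⟩
      (lt_add_of_pos_right _ (show 0 < δ / 12 * (1 / 4 : ℝ) ^ k by positivity))
    exact ⟨v, hv, fun w hw => by linarith [csInf_le hb ⟨w, hw, rfl⟩]⟩
  choose nx nx1 nx2 using hnx
  let s : ℕ → StrongDual ℝ X := fun n => Nat.rec 0 (fun k a => a + (1 / 2 : ℝ) ^ k • nx k a) n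
  have hs : ∀ k, s (k + 1) = s k + (1 / 2 : ℝ) ^ k • nx k (s k) := fun _ => rfl
  have ha : ∀ k, (1 / 2 : ℝ) ^ k * (β - δ / 2) + δ / 2 * (1 / 4) ^ k ≤ σ (s (k + 1)) - σ (s k) := by
    intro k
    induction k with
    | zero =>
      obtain ⟨t, t1, t2⟩ := hβ (nx 0 0) (convexHull_mono (Set.image_subset_range _ _) (nx1 0 0))
      have e : s (0 + 1) = nx 0 0 := by simp [s]
      have e0 : σ (s 0) = 0 := rfl
      rw [e, e0]
      have := hσ (nx 0 0) t t1
      simp only [pow_zero]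
      linarith
    | succ k ih =>
      have h1 := nx2 k (s k) ((2 / 3 : ℝ) • nx k (s k) + (1 / 3 : ℝ) • nx (k + 1) (s (k + 1)))
        (convex_convexHull ℝ _ (nx1 k _) (hCm k (nx1 (k + 1) _)) (by norm_num) (by norm_num)
          (by norm_num))
      have e : s k + (1 / 2 : ℝ) ^ k • ((2 / 3 : ℝ) • nx k (s k) +
          (1 / 3 : ℝ) • nx (k + 1) (s (k + 1))) = (1 / 3 : ℝ) • s k + (2 / 3 : ℝ) • s (k + 2) := by
        rw [hs (k + 1), hs k, pow_succ]
        module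
      rw [e, ← hs k] at h1
      have h2 : σ ((1 / 3 : ℝ) • s k + (2 / 3 : ℝ) • s (k + 2)) ≤
          1 / 3 * σ (s k) + 2 / 3 * σ (s (k + 2)) := by
        have a1 := hσ (s k) _ (τ1 ((1 / 3 : ℝ) • s k + (2 / 3 : ℝ) • s (k + 2)))
        have a2 := hσ (s (k + 2)) _ (τ1 ((1 / 3 : ℝ) • s k + (2 / 3 : ℝ) • s (k + 2)))
        simp only [σ, ContinuousLinearMap.add_apply, ContinuousLinearMap.smul_apply,
          smul_eq_mul] at a1 a2 ⊢
        linarith
      rw [pow_succ, pow_succ]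
      linarith
  have hcau : CauchySeq s := by
    refine cauchySeq_of_le_geometric (1 / 2) 1 (by norm_num) fun n => ?_
    rw [dist_comm, dist_eq_norm, hs, add_sub_cancel_left, norm_smul, Real.norm_eq_abs,
      abs_of_pos (by positivity), one_mul]
    exact mul_le_of_le_one_right (by positivity) (hC1 _ _ (nx1 _ _))
  obtain ⟨z, hz⟩ := cauchySeq_tendsto_of_complete hcau
  refine ⟨τ z, τ1 z, fun N => ?_⟩
  by_contra hc
  push Not at hc
  have hv : ∀ j, N ≤ j → ∀ v ∈ C j, v (τ z) ≤ β - δ := by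
    intro j hj v hv
    refine convexHull_min (t := {v : StrongDual ℝ X | v (τ z) ≤ β - δ}) ?_
      (convex_halfSpace_le (evl (τ z)).isLinear _) hv
    rintro _ ⟨n, hn, rfl⟩
    exact hc n (hj.trans hn)
  have key : ∀ m, s (N + m) (τ z) - σ (s (N + m)) ≤
      -(δ / 2) * (2 * (1 / 2) ^ N - 2 * (1 / 2) ^ (N + m)) := by
    intro m
    induction m with
    | zero => simpa using hσ (s N) _ (τ1 z)
    | succ m ih =>
      have h1 := ha (N + m)
      have h2 := hv (N + m) (Nat.le_add_right _ _) _ (nx1 (N + m) (s (N + m)))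
      have h3 : (0 : ℝ) < (1 / 2) ^ (N + m) := by positivity
      have h4 : (0 : ℝ) < δ / 2 * (1 / 4) ^ (N + m) := by positivity
      have h5 := mul_le_mul_of_nonneg_left h2 h3.le
      rw [← add_assoc, pow_succ]
      have e : s (N + m + 1) (τ z) = s (N + m) (τ z) +
          (1 / 2 : ℝ) ^ (N + m) * nx (N + m) (s (N + m)) (τ z) := by rw [hs]; rfl
      rw [e]
      nlinarith
  have hz' : Tendsto (fun m => ‖s (N + m) - z‖) atTop (𝓝 0) :=
    tendsto_norm_sub (hz.comp (by simpa [add_comm] using tendsto_add_atTop_nat N))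
  have hp : Tendsto (fun m => (1 / 2 : ℝ) ^ (N + m)) atTop (𝓝 0) :=
    (tendsto_pow_atTop_nhds_zero_of_lt_one (by norm_num) (by norm_num)).comp
      (by simpa [add_comm] using tendsto_add_atTop_nat N)
  have h1 : ∀ m, δ * (1 / 2) ^ N ≤ 2 * M * ‖s (N + m) - z‖ + δ * (1 / 2) ^ (N + m) := by
    intro m
    have a1 := abs_le.mp (hab (s (N + m) - z) _ (τ1 z))
    have a2 := abs_le.mp (hab (s (N + m) - z) _ (τ1 (s (N + m))))
    have a3 := hσ z _ (τ1 (s (N + m)))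
    have a4 := key m
    simp only [σ, ContinuousLinearMap.sub_apply] at a1 a2 a3 a4
    linarith [a1.1, a2.2]
  have h2 := ge_of_tendsto' ((hz'.const_mul (2 * M)).add (hp.const_mul δ)) h1
  have h3 : 0 < δ * (1 / 2 : ℝ) ^ N := by positivity
  simp only [mul_zero, add_zero] at h2
  linarith

/-- Evaluation map into the product space. -/
def ev (x : X) : StrongDual ℝ X → ℝ := fun f => f x

lemma star (K : Set X) (hK : IsCompact (ev '' K)) (h0 : (0 : X) ∈ K) (M : ℝ)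
    (hM : ∀ t ∈ K, ‖t‖ ≤ M) (D : Set (StrongDual ℝ X)) (hD : Convex ℝ D) (hD1 : ∀ g ∈ D, ‖g‖ ≤ 1)
    {ε : ℝ} (hε : 0 < ε) (h : ∀ g ∈ D, ∃ k ∈ K, ε ≤ g k) :
    ∃ (A : Finset X) (δ : ℝ), 0 < δ ∧ ∀ g ∈ D, ∃ a ∈ A, δ ≤ |g a| := by
  by_contra hc
  push Not at hc
  choose pk pk1 pk2 using fun (A : Finset X) (n : ℕ) =>
    hc A (1 / ((n : ℝ) + 1)) (by positivity)
  have hcov : ∀ G : Finset (StrongDual ℝ X), ∃ A : Finset X, ↑A ⊆ K ∧ (↑G ⊆ D →
      ∀ g ∈ convexHull ℝ (G : Set (StrongDual ℝ X)), ∃ k ∈ A, ε / 2 ≤ g k) := by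
    intro G
    by_cases hG : ↑G ⊆ D
    · obtain ⟨t, ht⟩ := (G.finite_toSet.isCompact_convexHull ℝ).elim_finite_subcover
        (fun k : K => {g : StrongDual ℝ X | ε / 2 < g k})
        (fun k => isOpen_lt continuous_const (by fun_prop)) (fun g hg => by
          obtain ⟨k, k1, k2⟩ := h g (convexHull_min hG hD hg)
          exact Set.mem_iUnion.mpr ⟨⟨k, k1⟩, by show ε / 2 < g k; linarith⟩)
      refine ⟨t.image Subtype.val, ?_, fun _ g hg => ?_⟩
      · intro a ha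
        obtain ⟨k, -, rfl⟩ := Finset.mem_image.mp ha
        exact k.2
      · obtain ⟨k, k1, k2⟩ := Set.mem_iUnion₂.mp (ht hg)
        exact ⟨k, Finset.mem_image_of_mem _ k1, le_of_lt k2⟩
    · exact ⟨∅, by simp, fun h => (hG h).elim⟩
  choose cv cv1 cv2 using hcov
  let S : ℕ → Finset (StrongDual ℝ X) × Finset X := fun n => Nat.rec (∅, {0})
    (fun k p => (insert (pk p.2 k) p.1, p.2 ∪ cv (insert (pk p.2 k) p.1))) n
  let g : ℕ → StrongDual ℝ X := fun n => pk (S n).2 n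
  have hS1 : ∀ n, (S (n + 1)).1 = insert (g n) (S n).1 := fun _ => rfl
  have hS2 : ∀ n, (S (n + 1)).2 = (S n).2 ∪ cv (S (n + 1)).1 := fun _ => rfl
  have m1 : Monotone fun n => (S n).1 := monotone_nat_of_le_succ fun n => by
    rw [hS1]; exact Finset.subset_insert _ _
  have m2 : Monotone fun n => (S n).2 := monotone_nat_of_le_succ fun n => by
    rw [hS2]; exact Finset.subset_union_left
  have hSD : ∀ n, ↑(S n).1 ⊆ D := by
    intro n
    induction n with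
    | zero => simp [S]
    | succ n ih => rw [hS1, Finset.coe_insert]; exact Set.insert_subset (pk1 _ _) ih
  have hSK : ∀ n, ↑(S n).2 ⊆ K := by
    intro n
    induction n with
    | zero => simpa [S] using h0
    | succ n ih => rw [hS2, Finset.coe_union]; exact Set.union_subset ih (cv1 _)
  let A : Set X := ⋃ n, ↑(S n).2
  have hAK : closure (ev '' A) ⊆ ev '' K :=
    closure_minimal (Set.image_mono (Set.iUnion_subset hSK)) hK.isClosed
  obtain ⟨t, t1, t2⟩ := simons {k | k ∈ K ∧ ev k ∈ closure (ev '' A)} M (fun t ht => hM t ht.1)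
    (fun s => by
      obtain ⟨τ, τ1, τ2⟩ := (hK.of_isClosed_subset isClosed_closure hAK).exists_isMaxOn
        ⟨_, subset_closure ⟨0, Set.mem_iUnion.mpr ⟨0, by simp [S]⟩, rfl⟩⟩
        (continuous_apply s).continuousOn
      obtain ⟨k, k1, rfl⟩ := hAK τ1
      exact ⟨k, ⟨k1, τ1⟩, fun u hu => τ2 hu.2⟩) g (fun n => hD1 _ (pk1 _ _)) (β := ε / 2)
    (δ := ε / 4) (by positivity) (fun v hv => by
      have h1 : v ∈ ⋃ n, convexHull ℝ ((S n).1 : Set (StrongDual ℝ X)) := by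
        refine convexHull_min ?_ (Directed.convex_iUnion (Monotone.directed_le fun a b hab =>
          convexHull_mono (Finset.coe_subset.mpr (m1 hab))) fun _ => convex_convexHull _ _) hv
        rintro _ ⟨n, rfl⟩
        exact Set.mem_iUnion.mpr ⟨n + 1, subset_convexHull _ _ (by dsimp only; rw [hS1]; simp)⟩
      obtain ⟨n, hn⟩ := Set.mem_iUnion.mp h1
      obtain ⟨k, k1, k2⟩ := cv2 _ (hSD (n + 1)) v
        (convexHull_mono (Finset.coe_subset.mpr (m1 (Nat.le_succ n))) hn)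
      exact ⟨k, ⟨cv1 _ k1, subset_closure ⟨k, Set.mem_iUnion.mpr ⟨n + 1, by
        rw [hS2]; exact Finset.mem_union_right _ k1⟩, rfl⟩⟩, k2⟩)
  have hfr : ∃ᶠ n in atTop, ε / 2 - ε / 4 < g n t := frequently_atTop.mpr fun N => by
    obtain ⟨n, h1, h2⟩ := t2 N
    exact ⟨n, h1, h2⟩
  obtain ⟨U, hU⟩ := Ultrafilter.exists_le (atTop ⊓ 𝓟 {n | ε / 2 - ε / 4 < g n t})
    (h := frequently_iff_neBot.mp hfr)
  have hU1 : (U : Filter ℕ) ≤ atTop := hU.trans inf_le_left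
  obtain ⟨z, hz⟩ := limit_form U g 1 fun n => hD1 _ (pk1 _ _)
  have h1 : ε / 2 - ε / 4 ≤ z t :=
    ge_of_tendsto (hz t) (mem_of_superset (le_principal_iff.mp (hU.trans inf_le_right))
      fun n (hn : ε / 2 - ε / 4 < g n t) => hn.le)
  have h2 : ev t ∈ {τ : StrongDual ℝ X → ℝ | τ z = 0} := by
    refine closure_minimal ?_ (isClosed_eq (continuous_apply z) continuous_const) t1.2
    rintro _ ⟨a, ha, rfl⟩
    obtain ⟨n, hn⟩ := Set.mem_iUnion.mp ha
    have h3 : |z a| ≤ 0 := le_of_tendsto_of_tendsto (hz a).abs (tendsto_inv_U U hU1) (by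
      filter_upwards [hU1 (eventually_ge_atTop n)] with m hm
      exact (pk2 _ _ a (m2 hm hn)).le)
    exact abs_nonpos_iff.mp h3
  have h3 : z t = 0 := h2
  linarith

lemma ext_small (G : Submodule ℝ X) (Λ : StrongDual ℝ X) {c : ℝ} (hc : 0 ≤ c)
    (h : ∀ f ∈ G, ‖f‖ ≤ 1 → Λ f ≤ c) :
    ∃ Λ' : StrongDual ℝ X, (∀ f ∈ G, Λ' f = Λ f) ∧ ∀ f, |Λ' f| ≤ c * ‖f‖ := by
  have h2 : ‖Λ.comp G.subtypeL‖ ≤ c := by
    refine ContinuousLinearMap.opNorm_le_of_unit_norm hc fun f hf => ?_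
    have a1 := h f f.2 hf.le
    have a2 := h (-f) (G.neg_mem f.2) (by rw [norm_neg]; exact hf.le)
    rw [map_neg] at a2
    exact abs_le.mpr ⟨by show _ ≤ Λ f; linarith, a1⟩
  obtain ⟨Λ', l1, l2⟩ := exists_extension_norm_eq G (Λ.comp G.subtypeL)
  refine ⟨Λ', fun f hf => l1 ⟨f, hf⟩, fun f => ?_⟩
  refine (abs_apply_le Λ' f).trans (mul_le_mul_of_nonneg_right ?_ (norm_nonneg _))
  rw [l2]
  exact h2

lemma convex_slice (Λ : StrongDual ℝ X) (c : ℝ) : Convex ℝ {f : X | ‖f‖ ≤ 1 ∧ c ≤ Λ f} := by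
  have := (convex_closedBall (0 : X) 1).inter (convex_halfSpace_ge (Λ : X →ₗ[ℝ] ℝ).isLinear c)
  convert this using 1
  ext f
  simp

theorem krein [CompleteSpace X] (K : Set X) (hK : IsCompact (ev '' K)) (h0 : (0 : X) ∈ K) (M : ℝ)
    (hM : ∀ t ∈ K, ‖t‖ ≤ M) (Λ : StrongDual ℝ (StrongDual ℝ X))
    (h : ∀ f, ∃ k ∈ K, Λ f ≤ f k) : ∃ x : X, ∀ f, Λ f = f x := by
  suffices hs : ∀ ε : ℝ, 0 < ε → ∃ x : X, ∀ f, |Λ f - f x| ≤ ε * ‖f‖ by
    choose x hx using fun n : ℕ => hs (1 / ((n : ℝ) + 1)) (by positivity)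
    have t0 := tendsto_one_div_add_atTop_nhds_zero_nat (𝕜 := ℝ)
    have hc : CauchySeq x := by
      refine cauchySeq_of_le_tendsto_0' (fun n => 2 * (1 / ((n : ℝ) + 1))) (fun n m hnm => ?_)
        (by simpa using t0.const_mul 2)
      obtain ⟨f, f1, f2⟩ := exists_dual_vector'' ℝ (x n - x m)
      have a1 := abs_le.mp ((hx n f).trans (mul_le_of_le_one_right (by positivity) f1))
      have a2 := abs_le.mp ((hx m f).trans (mul_le_of_le_one_right (by positivity) f1))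
      have a3 : 1 / ((m : ℝ) + 1) ≤ 1 / ((n : ℝ) + 1) := Nat.one_div_le_one_div hnm
      have f3 : f (x n) - f (x m) = ‖x n - x m‖ := by rw [← map_sub]; exact f2
      rw [dist_eq_norm]
      linarith [a1.1, a2.2]
    obtain ⟨z, hz⟩ := cauchySeq_tendsto_of_complete hc
    refine ⟨z, fun f => sub_eq_zero.mp (abs_nonpos_iff.mp ?_)⟩
    exact le_of_tendsto_of_tendsto' (((f.continuous.tendsto z).comp hz).const_sub (Λ f)).abs
      (by simpa using t0.mul_const ‖f‖) fun n => hx n f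
  intro ε hε
  obtain ⟨A, δ, hδ, hA⟩ := star K hK h0 M hM {f | ‖f‖ ≤ 1 ∧ ε / 2 ≤ Λ f}
    (convex_slice Λ _)
    (fun g hg => hg.1) (show 0 < ε / 2 by positivity) (fun g hg => by
      obtain ⟨k, k1, k2⟩ := h g
      exact ⟨k, k1, hg.2.trans k2⟩)
  let G : Submodule ℝ (StrongDual ℝ X) := ⨅ a : A, LinearMap.ker (evl (a : X))
  have hG : ∀ f, f ∈ G ↔ ∀ a ∈ A, f a = 0 := fun f => by simp [G, Submodule.mem_iInf, evl]
  have h1 : ∀ f ∈ G, ‖f‖ ≤ 1 → Λ f ≤ ε / 2 := by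
    intro f hf hf1
    by_contra hc
    obtain ⟨a, a1, a2⟩ := hA f ⟨hf1, (not_le.mp hc).le⟩
    rw [(hG f).mp hf a a1, abs_zero] at a2
    linarith
  obtain ⟨Λ', l1, l2⟩ := ext_small G Λ (by positivity) h1
  have h3 := mem_span_of_iInf_ker_le_ker (L := fun a : A => evl (a : X))
    (K := ((Λ - Λ' : StrongDual ℝ (StrongDual ℝ X)) : StrongDual ℝ X →ₗ[ℝ] ℝ)) (fun f hf => by
      have := l1 f hf
      show Λ f - Λ' f = 0
      rw [sub_eq_zero]
      exact this.symm)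
  have h4 : ∀ φ ∈ Submodule.span ℝ (Set.range fun a : A => evl (a : X)),
      ∃ x : X, ∀ f, φ f = f x := by
    intro φ hφ
    induction hφ using Submodule.span_induction with
    | mem _ hx => obtain ⟨a, rfl⟩ := hx; exact ⟨a, fun _ => rfl⟩
    | zero => exact ⟨0, fun f => by simp⟩
    | add _ _ _ _ ha hb =>
      obtain ⟨a, ha⟩ := ha
      obtain ⟨b, hb⟩ := hb
      exact ⟨a + b, fun f => by simp [ha, hb]⟩
    | smul c _ _ ha =>
      obtain ⟨a, ha⟩ := ha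
      exact ⟨c • a, fun f => by simp [ha]⟩
  obtain ⟨x, hx⟩ := h4 _ h3
  refine ⟨x, fun f => ?_⟩
  have e : Λ f - Λ' f = f x := hx f
  rw [show Λ f - f x = Λ' f by linarith]
  exact (l2 f).trans (mul_le_mul_of_nonneg_right (by linarith) (norm_nonneg _))

end Pool.Agent.H2.Wc
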