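import Pool.Agent.H2.WcA

set_option autoImplicit false

namespace Pool.Agent.H2.Wc

open Filter Topology Pool.Agent.H2.Sm Pool.Agent.H2.Gs Pool.Agent.H2.Rl Cardinal
open scoped Classical

variable {X : Type} [NormedAddCommGroup X] [NormedSpace ℝ X]

lemma exists_proj' [CompleteSpace X]
    (E : Submodule ℝ X) (hE : IsClosed (E : Set X)) (F : Submodule ℝ (StrongDual ℝ X))
    (hF : ∀ h : StrongDual ℝ X, (∀ k, (∀ g ∈ F, g k = 0) → h k = 0) → h ∈ F)
    (h1 : ∀ e ∈ E, ∀ k, (∀ g ∈ F, g k = 0) → ‖e‖ ≤ ‖e + k‖)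
    (h2 : ∀ h ∈ F, (∀ e ∈ E, h e = 0) → h = 0) :
    ∃ P : X →L[ℝ] X, (∀ z, ‖P z‖ ≤ ‖z‖) ∧ (∀ z, P z ∈ E) ∧ (∀ e ∈ E, P e = e) ∧
      (∀ k, (∀ g ∈ F, g k = 0) → P k = 0) ∧ ∀ z, ∀ g ∈ F, g (z - P z) = 0 := by
  let K : Submodule ℝ X := ⨅ g : F, LinearMap.ker (g.1 : X →ₗ[ℝ] ℝ)
  have hK : ∀ k, k ∈ K ↔ ∀ g ∈ F, g k = 0 := fun k => by simp [K, Submodule.mem_iInf]
  have hKc : IsClosed (K : Set X) := by
    rw [Submodule.coe_iInf]
    exact isClosed_iInter fun g => g.1.isClosed_ker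
  have hcl : IsClosed ((E ⊔ K : Submodule ℝ X) : Set X) := by
    have := hE.completeSpace_coe
    have := hKc.completeSpace_coe
    have h3 := (AddMonoidHomClass.antilipschitz_of_bound (E.subtypeL.coprod K.subtypeL) (K := 2)
      fun p => ?_).isClosed_range (E.subtypeL.coprod K.subtypeL).uniformContinuous
    · convert h3 using 1
      ext z
      rw [SetLike.mem_coe, Submodule.mem_sup]
      exact ⟨fun ⟨a, ha, b, hb, e⟩ => ⟨(⟨a, ha⟩, ⟨b, hb⟩), e⟩,
        fun ⟨p, e⟩ => ⟨p.1, p.1.2, p.2, p.2.2, e⟩⟩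
    · have a1 := h1 p.1 p.1.2 p.2 ((hK _).mp p.2.2)
      have a2 := norm_sub_le ((p.1 : X) + p.2) p.1
      rw [add_sub_cancel_left] at a2
      show max ‖(p.1 : X)‖ ‖(p.2 : X)‖ ≤ 2 * ‖(p.1 : X) + p.2‖
      exact max_le (by linarith [norm_nonneg (p.1 : X)]) (by linarith)
  have hc : IsCompl E K := by
    refine ⟨Submodule.disjoint_def.mpr fun e he hk => ?_, codisjoint_iff.mpr (eq_top_iff.mpr
      fun z _ => ?_)⟩
    · simpa using h1 e he (-e) ((hK _).mp (K.neg_mem hk))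
    · by_contra hz
      obtain ⟨h, a1, a2⟩ := sep _ hcl hz
      have a3 : h ∈ F := hF h fun k b1 => a1 k (Submodule.mem_sup_right ((hK k).mpr b1))
      rw [h2 h a3 fun e he => a1 e (Submodule.mem_sup_left he)] at a2
      exact a2 rfl
  have hm : ∀ z, z - E.projection K hc z ∈ K := fun z => Submodule.sub_projection_mem hc z
  have hb : ∀ z, ‖E.projection K hc z‖ ≤ 1 * ‖z‖ := fun z => by
    simpa using h1 _ (Submodule.projection_apply_mem hc z) _ ((hK _).mp (hm z))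
  refine ⟨LinearMap.mkContinuous _ 1 hb, fun z => by simpa using hb z,
    fun z => Submodule.projection_apply_mem hc z,
    fun e he => (Submodule.projection_eq_self_iff hc e).mpr he,
    fun k hk => (Submodule.projection_apply_eq_zero_iff hc).mpr ((hK k).mpr hk),
    fun z => (hK _).mp (hm z)⟩

theorem AL' (hsk : ∀ (I : Type) (x : I → X), ∃ (S : Set I → Set X) (P : Set I → X →L[ℝ] X),
      (∀ L z, ‖P L z‖ ≤ ‖z‖) ∧ (∀ L z, P L z ∈ closure (S L)) ∧
      (∀ L L', L ⊆ L' → ∀ z, P L (P L' z) = P L z) ∧ (∀ z, P ∅ z = 0) ∧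
      (∀ z ∈ closure (Submodule.span ℝ (Set.range x) : Set X), P Set.univ z = z) ∧
      (∀ L z, ∀ ε > 0, ∃ s : Finset I, ↑s ⊆ L ∧ ∀ B, ↑s ⊆ B → B ⊆ L → ‖P B z - P L z‖ ≤ ε) ∧
      ∀ (L : Set I) (c : Cardinal), ℵ₀ ≤ c → #L ≤ c → #(S L) ≤ c) (c : Cardinal) :
    ∀ D : Set X, ℵ₀ ≤ c → #D ≤ c → ∃ (Γ : Type) (f : Γ → StrongDual ℝ X), #Γ ≤ c ∧
      (∀ γ, ‖f γ‖ ≤ 1) ∧ (∀ z, ∀ η > 0, {γ | η < |f γ z|}.Finite) ∧
      ∀ z ∈ closure (Submodule.span ℝ D : Set X), (∀ γ, f γ z = 0) → z = 0 := by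
  induction c using WellFoundedLT.induction with
  | ind c ih =>
  intro D hc hD
  rcases hc.eq_or_lt with rfl | hc'
  · obtain ⟨ν, -, hν⟩ := exists_nu (V := X)
    obtain ⟨t, t1, t2⟩ := (le_aleph0_iff_set_countable.mp hD).isSeparable.span (R := ℝ)
    obtain ⟨d, hd⟩ := (t1.insert 0).exists_eq_range (Set.insert_nonempty _ _)
    have hb : ∀ (n : ℕ) z, |((1 / ((n:ℝ) + 1)) • ν (d n)) z| ≤ 1 / ((n:ℝ) + 1) * ‖z‖ := by
      intro n z
      rw [ContinuousLinearMap.smul_apply, smul_eq_mul, abs_mul, abs_of_pos (by positivity)]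
      exact mul_le_mul_of_nonneg_left (le_trans (abs_apply_le _ _)
        (mul_le_of_le_one_left (norm_nonneg _) (hν _).1)) (by positivity)
    refine ⟨ℕ, fun n => (1 / ((n:ℝ) + 1)) • ν (d n), mk_le_aleph0, fun n =>
      ContinuousLinearMap.opNorm_le_bound _ zero_le_one fun z => le_trans (hb n z) ?_,
      fun z η hη => ?_, fun z hz h0 => ?_⟩
    · refine mul_le_mul_of_nonneg_right ?_ (norm_nonneg _)
      rw [div_le_one (by positivity)]
      linarith [Nat.cast_nonneg (α := ℝ) n]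
    · have h1 := (tendsto_one_div_add_atTop_nhds_zero_nat (𝕜 := ℝ)).mul_const ‖z‖
      rw [zero_mul, ← Nat.cofinite_eq_atTop] at h1
      exact (h1.eventually (gt_mem_nhds hη)).subset fun n hn h2 =>
        lt_asymm h2 (lt_of_lt_of_le hn (hb n z))
    · have h1 : z ∈ {a | ‖a‖ ≤ ‖a - z‖} := by
        refine closure_minimal (fun a ha => ?_) (isClosed_le continuous_norm (by fun_prop))
          (closure_minimal t2 isClosed_closure hz)
        obtain ⟨n, rfl⟩ : a ∈ Set.range d := hd ▸ Set.mem_insert_of_mem _ ha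
        have a1 : ν (d n) z = 0 :=
          (mul_eq_zero.mp (h0 n)).resolve_left (ne_of_gt (by positivity))
        have a2 := le_trans (le_abs_self _) (le_trans (abs_apply_le (ν (d n)) (d n - z))
          (mul_le_of_le_one_left (norm_nonneg _) (hν _).1))
        rwa [map_sub, a1, sub_zero, (hν _).2] at a2
      simpa using h1
  · let I := c.ord.ToType
    have hI : #I = c := mk_ord_toType c
    obtain ⟨e⟩ : Nonempty (D ↪ I) := (Cardinal.le_def _ _).mp (hI ▸ hD)
    obtain ⟨S, P, p1, p2, p3, p4, p5, p6, p7⟩ :=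
      hsk _ (Function.extend e Subtype.val 0)
    let Q : I → X →L[ℝ] X := fun i => P (Set.Iic i) - P (Set.Iio i)
    have hQ : ∀ i z, Q i z = P (Set.Iic i) z - P (Set.Iio i) z := fun _ _ => rfl
    have hlt : ∀ i : I, max #(Set.Iic i) ℵ₀ < c := by
      intro i
      refine max_lt ?_ hc'
      rw [← Set.Iio_insert]
      exact lt_of_le_of_lt mk_insert_le (add_lt_of_lt hc (mk_Iio_toType_ord_lt i)
        (one_lt_aleph0.trans hc'))
    choose Γ f f1 f2 f3 f4 using fun i : I => ih _ (hlt i) (Q i '' S (Set.Iic i))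
      (le_max_right _ _) (mk_image_le.trans (p7 _ _ (le_max_right _ _) (le_max_left _ _)))
    have hb : ∀ (i : I) γ z, |f i γ (Q i z)| ≤ ‖Q i z‖ := fun i γ z =>
      le_trans (abs_apply_le _ _) (mul_le_of_le_one_left (norm_nonneg _) (f2 i γ))
    refine ⟨Σ i, Γ i, fun p => (f p.1 p.2).comp ((Q p.1).comp ((1 / 2 : ℝ) • .id ℝ X)), ?_,
      fun p => ContinuousLinearMap.opNorm_le_bound _ zero_le_one fun z =>
        le_trans (hb p.1 p.2 ((1 / 2 : ℝ) • z)) ?_, fun z η hη => ?_, fun z hz h0 => ?_⟩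
    · rw [mk_sigma]
      exact le_trans (sum_le_mk_mul_iSup _) (mul_le_of_le hc hI.le
        (ciSup_le' fun i => (f1 i).trans (hlt i).le))
    · have a1 := p1 (Set.Iic p.1) ((1 / 2 : ℝ) • z)
      have a2 := p1 (Set.Iio p.1) ((1 / 2 : ℝ) • z)
      rw [norm_smul, Real.norm_eq_abs, abs_of_pos (by norm_num)] at a1 a2
      rw [hQ]
      linarith [norm_sub_le (P (Set.Iic p.1) ((1 / 2 : ℝ) • z)) (P (Set.Iio p.1) ((1 / 2 : ℝ) • z))]
    · set y := (1 / 2 : ℝ) • z
      have h1 : {i | η < ‖Q i y‖}.Finite := by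
        by_contra hinf
        let L : Set I := {j | ({i | η < ‖Q i y‖} ∩ Set.Iic j).Finite}
        have hL : ∀ i j, i ≤ j → j ∈ L → i ∈ L := fun i j h hj =>
          Set.Finite.subset hj (Set.inter_subset_inter_right _ (Set.Iic_subset_Iic.mpr h))
        have h2 : ({i | η < ‖Q i y‖} ∩ L).Infinite := by
          intro h3
          obtain ⟨m, m1, m2⟩ := wellFounded_lt.has_min ({i | η < ‖Q i y‖} \ L)
            (Set.nonempty_iff_ne_empty.mpr fun e => hinf (by
              rw [← Set.inter_union_diff {i | η < ‖Q i y‖} L, e, Set.union_empty]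
              exact h3))
          refine m1.2 ((h3.insert m).subset fun i hi => ?_)
          rcases (show i ≤ m from hi.2).eq_or_lt with h4 | h4
          · exact Or.inl h4
          · exact Or.inr ⟨hi.1, by_contra fun h5 => m2 i ⟨hi.1, h5⟩ h4⟩
        obtain ⟨s, s1, s2⟩ := p6 L y (η / 2) (by positivity)
        obtain ⟨i, i1, i2⟩ := h2.exists_notMem_finite
          (s.finite_toSet.biUnion (t := fun j => {i | η < ‖Q i y‖} ∩ Set.Iic j) fun j hj => s1 hj)
        have h3 : ↑s ⊆ Set.Iio i := fun j hj => (not_le.mp fun h4 : i ≤ j =>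
          i2 (Set.mem_biUnion hj ⟨i1.1, h4⟩) : j < i)
        have a1 := s2 (Set.Iio i) h3 fun j hj => hL j i (le_of_lt hj) i1.2
        have a2 := s2 (Set.Iic i) (h3.trans Set.Iio_subset_Iic_self) fun j hj => hL j i hj i1.2
        have a3 := norm_sub_le_norm_sub_add_norm_sub (P (Set.Iic i) y) (P L y) (P (Set.Iio i) y)
        rw [norm_sub_rev (P L y)] at a3
        have a4 : η < ‖P (Set.Iic i) y - P (Set.Iio i) y‖ := i1.1
        linarith
      refine (h1.biUnion (t := fun i => Sigma.mk i '' {γ | η < |f i γ (Q i y)|})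
        fun i _ => (f3 i _ η hη).image _).subset fun p hp => ?_
      exact Set.mem_biUnion (lt_of_lt_of_le hp (hb p.1 p.2 y)) ⟨p.2, hp, rfl⟩
    · have h1 : ∀ i, Q i z = 0 := by
        intro i
        refine f4 i _ ?_ fun γ => ?_
        · have a1 : Q i z = Q i (P (Set.Iic i) z) := by
            rw [hQ, hQ, p3 _ _ subset_rfl, p3 _ _ Set.Iio_subset_Iic_self]
          rw [a1]
          exact closure_mono Submodule.subset_span
            (map_mem_closure (Q i).continuous (p2 _ z) fun a ha => ⟨a, ha, rfl⟩)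
        · have a1 : f i γ (Q i ((1 / 2 : ℝ) • z)) = 0 := h0 ⟨i, γ⟩
          rw [map_smul, map_smul, smul_eq_mul] at a1
          linarith
      have h2 : ∀ L : Set I, (∀ i j, i ≤ j → j ∈ L → i ∈ L) → (∀ j ∈ L, P (Set.Iic j) z = 0) →
          P L z = 0 := by
        intro L hL h3
        refine norm_le_zero_iff.mp (le_of_forall_pos_le_add fun ε hε => ?_)
        obtain ⟨s, s1, s2⟩ := p6 L z ε hε
        rcases s.eq_empty_or_nonempty with rfl | hs
        · simpa [p4] using s2 ∅ (by simp) (by simp)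
        · have h4 := s1 (s.max'_mem hs)
          simpa [h3 _ h4] using s2 (Set.Iic (s.max' hs)) (fun j hj => s.le_max' j hj)
            fun j hj => hL j _ hj h4
      have h3 : ∀ i, P (Set.Iic i) z = 0 := by
        intro i
        induction i using WellFoundedLT.induction with
        | ind i ih' =>
          have := h1 i
          rwa [hQ, h2 (Set.Iio i) (fun a b h hb => lt_of_le_of_lt h hb) ih', sub_zero] at this
      have h4 : D ⊆ Set.range (Function.extend e Subtype.val 0) := fun a ha =>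
        ⟨e ⟨a, ha⟩, e.injective.extend_apply _ _ _⟩
      rw [← p5 z (closure_mono (Submodule.span_mono h4) hz)]
      exact h2 _ (fun _ _ _ _ => trivial) fun j _ => h3 j

/-- A symmetric weakly compact generating set. -/
structure WK (X : Type) [NormedAddCommGroup X] [NormedSpace ℝ X] where
  K : Set X
  M : ℝ
  hK : IsCompact (ev '' K)
  h0 : (0 : X) ∈ K
  hneg : ∀ k ∈ K, -k ∈ K
  h1 : ∀ k ∈ K, ‖k‖ ≤ M
  hd : ∀ f : StrongDual ℝ X, (∀ k ∈ K, f k = 0) → f = 0

variable (W : WK X)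

lemma WK.exists_max (f : StrongDual ℝ X) : ∃ k ∈ W.K, ∀ u ∈ W.K, f u ≤ f k := by
  obtain ⟨_, ⟨k, k1, rfl⟩, h⟩ := W.hK.exists_isMaxOn ⟨_, 0, W.h0, rfl⟩
    (continuous_apply f).continuousOn
  exact ⟨k, k1, fun u hu => h ⟨u, hu, rfl⟩⟩

/-- A maximiser. -/
noncomputable def WK.μ (f : StrongDual ℝ X) : X :=
  if f = 0 then 0 else (W.exists_max f).choose

lemma WK.μ_mem (f : StrongDual ℝ X) : W.μ f ∈ W.K := by
  simp only [WK.μ]
  split_ifs
  · exact W.h0
  · exact (W.exists_max f).choose_spec.1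

lemma WK.le_μ (f : StrongDual ℝ X) {u : X} (hu : u ∈ W.K) : f u ≤ f (W.μ f) := by
  simp only [WK.μ]
  split_ifs with h
  · simp [h]
  · exact (W.exists_max f).choose_spec.2 u hu

lemma WK.abs_le_μ (f : StrongDual ℝ X) {u : X} (hu : u ∈ W.K) : |f u| ≤ f (W.μ f) := by
  have h1 := W.le_μ f hu
  have h2 := W.le_μ f (W.hneg u hu)
  rw [map_neg] at h2
  exact abs_le.mpr ⟨by linarith, h1⟩

/-- The dual space with the norm of uniform convergence on the generating set. -/
def V (_ : WK X) : Type := StrongDual ℝ X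

noncomputable instance : AddCommGroup (V W) := inferInstanceAs (AddCommGroup (StrongDual ℝ X))
noncomputable instance : Module ℝ (V W) := inferInstanceAs (Module ℝ (StrongDual ℝ X))

/-- Identity map. -/
def ofV : V W ≃ₗ[ℝ] StrongDual ℝ X := LinearEquiv.refl ℝ (StrongDual ℝ X)

noncomputable instance : NormedAddCommGroup (V W) :=
  AddGroupNorm.toNormedAddCommGroup
    { toFun := fun f => ofV W f (W.μ (ofV W f))
      map_zero' := by simp
      add_le' := fun a b => by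
        have h1 := W.le_μ (ofV W a) (W.μ_mem (ofV W (a + b)))
        have h2 := W.le_μ (ofV W b) (W.μ_mem (ofV W (a + b)))
        rw [map_add] at *
        rw [ContinuousLinearMap.add_apply]
        linarith
      neg' := fun a => by
        have h1 := (abs_le.mp (W.abs_le_μ (ofV W a) (W.μ_mem (ofV W (-a))))).1
        have h2 := (abs_le.mp (W.abs_le_μ (ofV W (-a)) (W.μ_mem (ofV W a)))).1
        simp only [map_neg, ContinuousLinearMap.neg_apply] at h1 h2 ⊢
        linarith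
      eq_zero_of_map_eq_zero' := fun a ha => by
        refine (ofV W).injective ?_
        rw [map_zero]
        refine W.hd _ fun k hk => abs_nonpos_iff.mp ?_
        exact (W.abs_le_μ _ hk).trans ha.le }

lemma norm_V (f : V W) : ‖f‖ = ofV W f (W.μ (ofV W f)) := rfl

lemma abs_le_V (f : V W) {u : X} (hu : u ∈ W.K) : |ofV W f u| ≤ ‖f‖ := W.abs_le_μ _ hu

noncomputable instance : NormedSpace ℝ (V W) where
  norm_smul_le c f := by
    have h1 := abs_le_V W f (W.μ_mem (ofV W (c • f)))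
    rw [norm_V W (c • f), Real.norm_eq_abs]
    generalize W.μ (ofV W (c • f)) = u at *
    rw [map_smul, ContinuousLinearMap.smul_apply, smul_eq_mul]
    exact (le_abs_self _).trans (by
      rw [abs_mul]; exact mul_le_mul_of_nonneg_left h1 (abs_nonneg _))

lemma norm_V_le (f : StrongDual ℝ X) : ‖(ofV W).symm f‖ ≤ W.M * ‖f‖ := by
  rw [norm_V, LinearEquiv.apply_symm_apply, mul_comm]
  exact (le_abs_self _).trans ((abs_apply_le _ _).trans
    (mul_le_mul_of_nonneg_left (W.h1 _ (W.μ_mem f)) (norm_nonneg _)))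

lemma krein_V [CompleteSpace X] (Λ : StrongDual ℝ (V W)) : ∃ x : X, ∀ f, Λ f = ofV W f x := by
  have h0 := norm_nonneg Λ
  obtain ⟨x, hx⟩ := krein W.K W.hK W.h0 W.M W.h1
    ((1 / (‖Λ‖ + 1)) • Λ.comp (LinearMap.mkContinuous (ofV W).symm.toLinearMap W.M (norm_V_le W)))
    (fun f => ⟨W.μ f, W.μ_mem f, by
      have h1 := (le_abs_self _).trans (abs_apply_le Λ ((ofV W).symm f))
      have h2 := norm_nonneg ((ofV W).symm f)
      have h3 : ‖(ofV W).symm f‖ = f (W.μ f) := rfl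
      show 1 / (‖Λ‖ + 1) * Λ ((ofV W).symm f) ≤ _
      rw [← h3, one_div, inv_mul_le_iff₀ (by positivity)]
      nlinarith⟩)
  refine ⟨(‖Λ‖ + 1) • x, fun f => ?_⟩
  have h1 : 1 / (‖Λ‖ + 1) * Λ f = ofV W f x := hx (ofV W f)
  rw [map_smul, smul_eq_mul, ← h1]
  field_simp

lemma skeleton_V [CompleteSpace X] (I : Type) (x : I → V W) :
    ∃ (S : Set I → Set (V W)) (P : Set I → V W →L[ℝ] V W),
      (∀ L z, ‖P L z‖ ≤ ‖z‖) ∧ (∀ L z, P L z ∈ closure (S L)) ∧
      (∀ L L', L ⊆ L' → ∀ z, P L (P L' z) = P L z) ∧ (∀ z, P ∅ z = 0) ∧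
      (∀ z ∈ closure (Submodule.span ℝ (Set.range x) : Set (V W)), P Set.univ z = z) ∧
      (∀ L z, ∀ ε > 0, ∃ s : Finset I, ↑s ⊆ L ∧ ∀ B, ↑s ⊆ B → B ⊆ L → ‖P B z - P L z‖ ≤ ε) ∧
      ∀ (L : Set I) (c : Cardinal), ℵ₀ ≤ c → #L ≤ c → #(S L) ≤ c := by
  obtain ⟨ν, ν0, hν⟩ := exists_nu (V := X)
  let φ : Option ℚ → X × V W → X × V W → X × V W := fun k u v =>
    Option.casesOn k (W.μ (ofV W u.2), (ofV W).symm (ν u.1))
      fun q => (u.1 + (q:ℝ) • v.1, u.2 + (q:ℝ) • v.2)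
  let C : Set I → Set (X × V W) := fun L => Cl φ (insert (0, 0) ((fun i => (0, x i)) '' L))
  have hCm : ∀ L L', L ⊆ L' → C L ⊆ C L' := fun L L' h =>
    Cl_mono φ (Set.insert_subset_insert (Set.image_mono h))
  have hC0 : ∀ L, (0, 0) ∈ C L := fun L => subset_Cl φ _ (Set.mem_insert _ _)
  let E : Set I → Submodule ℝ X := fun L => clSub (Prod.fst '' C L) ⟨_, hC0 L, rfl⟩ (by
    rintro _ ⟨u, hu, rfl⟩ _ ⟨v, hv, rfl⟩ q
    exact ⟨_, Cl_op φ (some q) hu hv, rfl⟩)
  let F : Set I → Submodule ℝ (V W) := fun L => clSub (Prod.snd '' C L) ⟨_, hC0 L, rfl⟩ (by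
    rintro _ ⟨u, hu, rfl⟩ _ ⟨v, hv, rfl⟩ q
    exact ⟨_, Cl_op φ (some q) hu hv, rfl⟩)
  let F' : Set I → Submodule ℝ (StrongDual ℝ X) := fun L => (F L).comap (ofV W).symm.toLinearMap
  have hF : ∀ L, ∀ h : StrongDual ℝ X, (∀ k, (∀ g ∈ F' L, g k = 0) → h k = 0) → h ∈ F' L := by
    intro L h hh
    by_contra hc
    obtain ⟨ξ, b1, b2⟩ := sep (F L) isClosed_closure hc
    obtain ⟨k, hk⟩ := krein_V W ξ
    refine b2 ((hk _).trans (hh k fun g hg => ?_))
    exact (hk ((ofV W).symm g)).symm.trans (b1 _ hg)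
  have hq : ∀ L, ∀ g ∈ F L, ∀ h : V W, (∀ e ∈ E L, ofV W h e = 0) → ‖g‖ ≤ ‖g + h‖ := by
    intro L g hg h h0
    refine closure_minimal (t := {g : V W | ‖g‖ ≤ ‖g + h‖}) ?_
      (isClosed_le continuous_norm (by fun_prop)) hg
    rintro _ ⟨u, hu, rfl⟩
    have a1 : ofV W h (W.μ (ofV W u.2)) = 0 := h0 _ (subset_closure ⟨_, Cl_op φ none hu hu, rfl⟩)
    have a2 := (le_abs_self _).trans (abs_le_V W (u.2 + h) (W.μ_mem (ofV W u.2)))
    rwa [map_add, ContinuousLinearMap.add_apply, a1, add_zero] at a2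
  choose P p1 p2 p3 p4 p5 using fun L => exists_proj' (E L) isClosed_closure (F' L) (hF L)
    (fun e he k hk => by
      refine closure_minimal (t := {e | ‖e‖ ≤ ‖e + k‖}) ?_
        (isClosed_le continuous_norm (by fun_prop)) he
      rintro _ ⟨u, hu, rfl⟩
      have a1 : (ofV W).symm (ν u.1) ∈ F L := subset_closure ⟨_, Cl_op φ none hu hu, rfl⟩
      have a3 : ν u.1 k = 0 := hk (ν u.1) a1
      have a2 := le_trans (le_abs_self _) (le_trans (abs_apply_le (ν u.1) (u.1 + k))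
        (mul_le_of_le_one_left (norm_nonneg _) (hν _).1))
      rwa [map_add, a3, add_zero, (hν _).2] at a2) (fun h hh h0 => by
      have := hq L ((ofV W).symm h) hh (-(ofV W).symm h) fun e he => by simp [h0 e he]
      rw [add_neg_cancel, norm_zero] at this
      exact (ofV W).symm.injective ((norm_le_zero_iff.mp this).trans (map_zero _).symm))
  let R0 : Set I → V W →ₗ[ℝ] V W := fun L =>
    { toFun := fun f => (ofV W).symm ((ofV W f).comp (P L))
      map_add' := fun a b => by rw [map_add, ContinuousLinearMap.add_comp, map_add]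
      map_smul' := fun c a => by rw [map_smul, ContinuousLinearMap.smul_comp, map_smul]; rfl }
  have hR : ∀ L f z, ofV W (R0 L f) z = ofV W f (P L z) := fun _ _ _ => rfl
  have r2 : ∀ L f, R0 L f ∈ F L := fun L f => hF L ((ofV W f).comp (P L)) fun k hk => by
    simp [p4 L k hk]
  have r1 : ∀ L f, ‖R0 L f‖ ≤ 1 * ‖f‖ := fun L f => by
    have := hq L _ (r2 L f) (f - R0 L f) fun e he => by
      rw [map_sub, ContinuousLinearMap.sub_apply, hR, p3 L e he, sub_self]
    simpa using this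
  have r3 : ∀ L, ∀ f ∈ F L, R0 L f = f := by
    intro L f hf
    refine (ofV W).injective (ContinuousLinearMap.ext fun z => ?_)
    have := p5 L z (ofV W f) hf
    rw [map_sub] at this
    rw [hR]; linarith
  have hPP : ∀ L L', L ⊆ L' → ∀ z, R0 L (R0 L' z) = R0 L z := by
    intro L L' h f
    refine (ofV W).injective (ContinuousLinearMap.ext fun z => ?_)
    rw [hR, hR, hR, p3 L' _ (closure_mono (Set.image_mono (hCm L L' h)) (p2 L z))]
  refine ⟨fun L => Prod.snd '' C L, fun L => LinearMap.mkContinuous (R0 L) 1 (r1 L),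
    fun L z => by simpa using r1 L z, r2, hPP, fun z => ?_, fun z hz => r3 _ z ?_,
    fun L z ε hε => ?_, fun L c hc hL => le_trans mk_image_le (card_Cl φ hc ?_)⟩
  · have h1 : ∀ u ∈ C ∅, u = (0, 0) := by
      refine Cl_ind φ (by simp) ?_
      rintro (_ | q) _ _ rfl rfl
      · simp [φ, ν0, WK.μ]
      · simp [φ]
    have h2 : R0 ∅ z ∈ ({0} : Set (V W)) := by
      refine closure_minimal ?_ isClosed_singleton (r2 ∅ z)
      rintro _ ⟨u, hu, rfl⟩
      rw [h1 u hu]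
      rfl
    exact h2
  · refine closure_minimal (t := (F Set.univ : Set (V W))) (Submodule.span_le.mpr ?_)
      isClosed_closure hz
    rintro _ ⟨i, rfl⟩
    exact subset_closure ⟨_, subset_Cl φ _ (Set.mem_insert_of_mem _ ⟨i, trivial, rfl⟩), rfl⟩
  · obtain ⟨_, ⟨u, hu, rfl⟩, h1⟩ := Metric.mem_closure_iff.mp (r2 L z) (ε / 2) (by positivity)
    have h2 : ∃ s : Finset I, ↑s ⊆ L ∧ u ∈ C s := by
      refine Cl_ind φ (p := fun u => ∃ s : Finset I, ↑s ⊆ L ∧ u ∈ C s) ?_ ?_ u hu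
      · rintro _ (rfl | ⟨i, hi, rfl⟩)
        · exact ⟨∅, by simp, hC0 _⟩
        · exact ⟨{i}, by simpa using hi, subset_Cl φ _ (Set.mem_insert_of_mem _ ⟨i, by simp, rfl⟩)⟩
      · rintro k a b ⟨s, s1, s2⟩ ⟨t, t1, t2⟩
        exact ⟨s ∪ t, by simp [s1, t1], Cl_op φ k (hCm _ _ (by simp) s2) (hCm _ _ (by simp) t2)⟩
    obtain ⟨s, s1, s2⟩ := h2
    refine ⟨s, s1, fun B b1 b2 => ?_⟩
    have h3 : R0 B u.2 = u.2 := r3 B _ (subset_closure ⟨u, hCm _ _ b1 s2, rfl⟩)
    have h4 := r1 B (R0 L z - u.2)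
    rw [map_sub, h3, hPP B L b2, one_mul] at h4
    rw [dist_eq_norm] at h1
    have h5 := norm_sub_le_norm_sub_add_norm_sub (R0 B z) u.2 (R0 L z)
    rw [norm_sub_rev u.2] at h5
    show ‖R0 B z - R0 L z‖ ≤ ε
    linarith
  · exact le_trans mk_insert_le (add_le_of_le hc (mk_image_le.trans hL) (one_le_aleph0.trans hc))

theorem wcg_family [CompleteSpace X] (W : WK X) : ∃ (Γ : Type) (x : Γ → X) (M : ℝ),
    (∀ γ, ‖x γ‖ ≤ M) ∧ (∀ f : StrongDual ℝ X, ∀ η > 0, {γ | η < |f (x γ)|}.Finite) ∧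
      ∀ f : StrongDual ℝ X, (∀ γ, f (x γ) = 0) → f = 0 := by
  obtain ⟨Γ, f, -, f2, f3, f4⟩ := AL' (skeleton_V W) (max #(Set.univ : Set (V W)) ℵ₀) Set.univ
    (le_max_right _ _) (le_max_left _ _)
  choose x hx using fun γ => krein_V W (f γ)
  refine ⟨Γ, x, W.M, fun γ => ?_, fun g η hη => ?_, fun g hg => ?_⟩
  · obtain ⟨g, g1, g2⟩ := exists_dual_vector'' ℝ (x γ)
    have h1 : f γ ((ofV W).symm g) = ‖x γ‖ := (hx γ _).trans g2
    have h2 := (le_abs_self _).trans ((abs_apply_le (f γ) ((ofV W).symm g)).trans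
      (mul_le_of_le_one_left (norm_nonneg _) (f2 γ)))
    have h3 := norm_V_le W g
    have h4 : 0 ≤ W.M := by simpa using W.h1 0 W.h0
    nlinarith
  · simpa [hx] using f3 ((ofV W).symm g) η hη
  · have := f4 ((ofV W).symm g) (subset_closure (Submodule.subset_span trivial))
      fun γ => (hx γ _).trans (hg γ)
    simpa using this

end Pool.Agent.H2.Wc
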