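import Pool.Agent.H2.WcB

set_option autoImplicit false

namespace Pool.Agent.H2.Wc

open Filter Topology Pool.Agent.H2.Sm Pool.Agent.H2.Gs
open scoped Classical

variable {X : Type} [NormedAddCommGroup X] [NormedSpace ℝ X]

lemma count_gap {Γ : Type} (a : Γ → ℝ) (A s : Finset Γ) {r r' : ℝ} (hr : r' ≤ r) (hr' : 0 ≤ r')
    (h1 : ∀ γ ∈ A, r ≤ a γ) (h2 : ∀ γ, γ ∉ A → a γ ≤ r') (hc : s.card ≤ A.card) {γ0 : Γ}
    (h3 : γ0 ∈ A) (h4 : γ0 ∉ s) : ∑ γ ∈ s, a γ + (r - r') ≤ ∑ γ ∈ A, a γ := by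
  have e1 := Finset.sum_inter_add_sum_sdiff s A a
  have e2 := Finset.sum_inter_add_sum_sdiff A s a
  rw [Finset.inter_comm] at e2
  have b1 := Finset.sum_le_card_nsmul (s \ A) a r' fun γ hγ => h2 γ (Finset.mem_sdiff.mp hγ).2
  have b2 := Finset.card_nsmul_le_sum (A \ s) a r fun γ hγ => h1 γ (Finset.mem_sdiff.mp hγ).1
  rw [nsmul_eq_mul] at b1 b2
  have c1 : (s \ A).card ≤ (A \ s).card := by
    have := Finset.card_sdiff_add_card_inter s A
    have := Finset.card_sdiff_add_card_inter A s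
    rw [Finset.inter_comm] at this
    omega
  have c2 : 1 ≤ (A \ s).card := Finset.card_pos.mpr ⟨γ0, Finset.mem_sdiff.mpr ⟨h3, h4⟩⟩
  have c3 : ((s \ A).card : ℝ) ≤ (A \ s).card := by exact_mod_cast c1
  have c4 : (1 : ℝ) ≤ (A \ s).card := by exact_mod_cast c2
  nlinarith [mul_le_mul_of_nonneg_right c3 hr', mul_le_mul_of_nonneg_right c4 (sub_nonneg.mpr hr)]

lemma exists_day {Γ : Type} (x : Γ → X) (M : ℝ) (hM : ∀ γ, ‖x γ‖ ≤ M)
    (h0 : ∀ f : StrongDual ℝ X, ∀ η > 0, {γ | η < |f (x γ)|}.Finite)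
    (ht : ∀ f : StrongDual ℝ X, (∀ γ, f (x γ) = 0) → f = 0) :
    ∃ L : Seminorm ℝ (StrongDual ℝ X), Lsc L ∧ (∀ a b, D L a b ≤ 0 → a = b) ∧
      ∀ (f : StrongDual ℝ X) c, 0 ≤ c → (∀ γ, |f (x γ)| ≤ c) → L f ≤ c := by
  let S : ℕ → Set X := fun n => {y | ∃ (s : Finset Γ) (c : Γ → ℝ), s.card ≤ n ∧
    ∑ γ ∈ s, c γ ^ 2 ≤ 1 ∧ y = (1 / ((n : ℝ) + 1)) • ∑ γ ∈ s, c γ • x γ}
  have hS : ∀ n (f : StrongDual ℝ X) c, 0 ≤ c → (∀ γ, |f (x γ)| ≤ c) → ∀ y ∈ S n, |f y| ≤ c := by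
    rintro n f d hd hf _ ⟨s, c, s1, s2, rfl⟩
    simp only [map_smul, map_sum, smul_eq_mul]
    rw [abs_mul, abs_of_pos (by positivity), one_div, inv_mul_le_iff₀ (by positivity)]
    refine (Finset.abs_sum_le_sum_abs _ _).trans ((Finset.sum_le_card_nsmul _ _ d
      fun γ hγ => ?_).trans ?_)
    · have h1 : c γ ^ 2 ≤ 1 := (Finset.single_le_sum (f := fun γ => c γ ^ 2)
        (fun _ _ => sq_nonneg _) hγ).trans s2
      rw [abs_mul]
      exact (mul_le_of_le_one_left (abs_nonneg _) ((sq_le_one_iff_abs_le_one _).mp h1)).trans (hf γ)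
    · rw [nsmul_eq_mul]
      have : (s.card : ℝ) ≤ n := by exact_mod_cast s1
      nlinarith
  have hfb : ∀ (f : StrongDual ℝ X) γ, |f (x γ)| ≤ ‖f‖ * |M| := fun f γ =>
    (abs_apply_le f _).trans
      (mul_le_mul_of_nonneg_left ((hM γ).trans (le_abs_self _)) (norm_nonneg _))
  have hb : ∀ n (f : StrongDual ℝ X), ∃ C, ∀ y : S n, |evl (y : X) f| ≤ C := fun n f =>
    ⟨‖f‖ * |M|, fun y => hS n f _ (by positivity) (hfb f) y y.2⟩
  let N : ℕ → Seminorm ℝ (StrongDual ℝ X) := fun n => supSN (fun y : S n => evl (y : X)) (hb n)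
  have hN1 : ∀ n, ∀ y ∈ S n, ∀ f : StrongDual ℝ X, |f y| ≤ N n f := fun n y hy f =>
    le_supSN (hb n) ⟨y, hy⟩ f
  have hN2 : ∀ n (f : StrongDual ℝ X) c, 0 ≤ c → (∀ y ∈ S n, |f y| ≤ c) → N n f ≤ c :=
    fun n f c hc h => supSN_le (hb n) hc fun y => h y y.2
  have hB : Bd N := fun f => ⟨‖f‖ * |M|, fun n => hN2 n f _ (by positivity)
    (hS n f _ (by positivity) (hfb f))⟩
  have up : ∀ n (f : StrongDual ℝ X) (s : Finset Γ), s.card ≤ n →
      ∑ γ ∈ s, f (x γ) ^ 2 ≤ (((n : ℝ) + 1) * N n f) ^ 2 := by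
    intro n f s hs
    set Q := ∑ γ ∈ s, f (x γ) ^ 2 with hQ
    have hQ0 : 0 ≤ Q := Finset.sum_nonneg fun _ _ => sq_nonneg _
    rcases hQ0.eq_or_lt with h | h
    · rw [← h]; positivity
    · have hr := Real.sqrt_pos.mpr h
      have hr2 := Real.sq_sqrt hQ0
      have h1 := hN1 n _ ⟨s, fun γ => f (x γ) / √Q, hs, by
        simp only [div_pow]
        rw [← Finset.sum_div, hr2, div_self h.ne'], rfl⟩ f
      simp only [map_smul, map_sum, smul_eq_mul] at h1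
      have e : ∑ γ ∈ s, f (x γ) / √Q * f (x γ) = √Q := by
        simp only [div_mul_eq_mul_div, ← sq]
        rw [← Finset.sum_div, div_eq_iff hr.ne', ← sq, hr2]
      rw [e, abs_of_pos (by positivity), one_div, inv_mul_le_iff₀ (by positivity)] at h1
      rw [← hr2]
      exact pow_le_pow_left₀ hr.le h1 2
  have low : ∀ n (f : StrongDual ℝ X) (θ : ℝ), 0 < θ → ∃ s : Finset Γ, s.card ≤ n ∧
      (((n : ℝ) + 1) * N n f) ^ 2 - θ ≤ ∑ γ ∈ s, f (x γ) ^ 2 := by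
    intro n f θ hθ
    by_cases h : (((n : ℝ) + 1) * N n f) ^ 2 - θ ≤ 0
    · exact ⟨∅, by simp, by simpa using h⟩
    · push Not at h
      have hr2 := Real.sq_sqrt h.le
      have hr := Real.sqrt_nonneg ((((n : ℝ) + 1) * N n f) ^ 2 - θ)
      set r := √((((n : ℝ) + 1) * N n f) ^ 2 - θ)
      have h1 : r < ((n : ℝ) + 1) * N n f :=
        lt_of_pow_lt_pow_left₀ 2 (by positivity) (by linarith)
      obtain ⟨⟨_, s, c, s1, s2, rfl⟩, hy⟩ := lt_supSN (hb n) (v := f)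
        (show 0 ≤ r / ((n : ℝ) + 1) by positivity)
        (by rw [div_lt_iff₀' (by positivity)]; exact h1)
      refine ⟨s, s1, ?_⟩
      have h2 : r / ((n : ℝ) + 1) < |f ((1 / ((n : ℝ) + 1)) • ∑ γ ∈ s, c γ • x γ)| := hy
      simp only [map_smul, map_sum, smul_eq_mul] at h2
      rw [abs_mul, abs_of_pos (by positivity), one_div, ← div_eq_inv_mul,
        div_lt_div_iff_of_pos_right (by positivity)] at h2
      have h3 := Finset.sum_mul_sq_le_sq_mul_sq s c fun γ => f (x γ)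
      have h4 := pow_le_pow_left₀ hr h2.le 2
      rw [sq_abs] at h4
      have h5 := mul_le_of_le_one_left
        (Finset.sum_nonneg (s := s) fun γ _ => sq_nonneg (f (x γ))) s2
      linarith
  have key : ∀ a b : StrongDual ℝ X, (∀ n, D (N n) a b ≤ 0) → ∀ γ0, a (x γ0) ≠ 0 →
      a (x γ0) = b (x γ0) := by
    intro a b hD γ0 ha
    by_contra hne
    have hr : 0 < |a (x γ0)| := abs_pos.mpr ha
    have hfin := h0 a (|a (x γ0)| / 2) (by positivity)
    have hA : {γ | |a (x γ0)| ≤ |a (x γ)|}.Finite :=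
      hfin.subset fun γ hγ => by
        simp only [Set.mem_setOf_eq] at hγ ⊢
        linarith
    obtain ⟨r', r1, r2⟩ := ((hfin.inter_of_left {γ | |a (x γ)| < |a (x γ0)|}).image
      (fun γ => |a (x γ)|)).insert (|a (x γ0)| / 2) |>.isCompact.exists_isGreatest
      (Set.insert_nonempty _ _)
    have r3 : r' < |a (x γ0)| := by
      rcases r1 with rfl | ⟨γ, hγ, rfl⟩
      · linarith
      · exact hγ.2
    have r4 : |a (x γ0)| / 2 ≤ r' := r2 (Set.mem_insert _ _)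
    have r5 : ∀ γ, γ ∉ hA.toFinset → a (x γ) ^ 2 ≤ r' ^ 2 := by
      intro γ hγ
      rw [Set.Finite.mem_toFinset, Set.mem_setOf_eq, not_le] at hγ
      rw [← sq_abs]
      refine pow_le_pow_left₀ (abs_nonneg _) ?_ 2
      by_cases h : |a (x γ0)| / 2 < |a (x γ)|
      · exact r2 (Set.mem_insert_of_mem _ ⟨γ, ⟨h, hγ⟩, rfl⟩)
      · linarith
    have r6 : r' ^ 2 < |a (x γ0)| ^ 2 := pow_lt_pow_left₀ r3 (by linarith) two_ne_zero
    set n := hA.toFinset.card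
    have d1 := hD n
    have d2 := sq_le_D (N n) a b
    have d3 : N n a = N n b := by nlinarith [sq_nonneg (N n a - N n b)]
    have d4 : 0 < (a (x γ0) - b (x γ0)) ^ 2 := by
      have := sub_ne_zero.mpr hne
      positivity
    obtain ⟨s, s1, s2⟩ := low n (a + b) (min (|a (x γ0)| ^ 2 - r' ^ 2)
      ((a (x γ0) - b (x γ0)) ^ 2 / 2)) (lt_min (by linarith) (by linarith))
    have m1 := min_le_left (|a (x γ0)| ^ 2 - r' ^ 2) ((a (x γ0) - b (x γ0)) ^ 2 / 2)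
    have m2 := min_le_right (|a (x γ0)| ^ 2 - r' ^ 2) ((a (x γ0) - b (x γ0)) ^ 2 / 2)
    have u1 := up n a s s1
    have u2 := up n b s s1
    have u3 := up n a hA.toFinset le_rfl
    have e : ∑ γ ∈ s, (a + b) (x γ) ^ 2 + ∑ γ ∈ s, (a (x γ) - b (x γ)) ^ 2 =
        2 * ∑ γ ∈ s, a (x γ) ^ 2 + 2 * ∑ γ ∈ s, b (x γ) ^ 2 := by
      simp only [Finset.mul_sum, ← Finset.sum_add_distrib, ContinuousLinearMap.add_apply]
      exact Finset.sum_congr rfl fun _ _ => by ring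
    have d5 : 4 * (((n : ℝ) + 1) * N n a) ^ 2 ≤ (((n : ℝ) + 1) * N n (a + b)) ^ 2 := by
      simp only [D, ← d3] at d1
      have := mul_le_mul_of_nonneg_left d1 (sq_nonneg ((n : ℝ) + 1))
      nlinarith
    rw [← d3] at u2
    have p0 := Finset.sum_nonneg (s := s) fun γ _ => sq_nonneg (a (x γ) - b (x γ))
    by_cases hs : γ0 ∈ s
    · have := Finset.single_le_sum (f := fun γ => (a (x γ) - b (x γ)) ^ 2)
        (fun _ _ => sq_nonneg _) hs
      linarith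
    · have := count_gap (fun γ => a (x γ) ^ 2) hA.toFinset s r6.le (sq_nonneg _) (fun γ hγ => by
        rw [Set.Finite.mem_toFinset] at hγ
        rw [← sq_abs (a (x γ))]
        exact pow_le_pow_left₀ (abs_nonneg _) hγ 2) r5 s1 (γ0 := γ0) (by simp) hs
      linarith
  refine ⟨l2 N hB, lsc_l2 hB fun n => lsc_polar (hN1 n) (hN2 n), fun a b h => ?_,
    fun f c hc h => l2_le hB fun n => hN2 n f c hc (hS n f c hc h)⟩
  have h1 := D_comp_zero hB h
  refine sub_eq_zero.mp (ht _ fun γ => ?_)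
  rw [ContinuousLinearMap.sub_apply, sub_eq_zero]
  by_cases ha : a (x γ) = 0
  · by_contra hne
    exact hne (key b a (fun n => by rw [D_comm]; exact h1 n) γ (by rw [← ha]; exact Ne.symm hne)).symm
  · exact key a b h1 γ ha

theorem rough_norm (L : Seminorm ℝ (StrongDual ℝ X)) (hL1 : Lsc L)
    (hL2 : ∀ a b, D L a b ≤ 0 → a = b) {M : ℝ} (hM : 0 ≤ M) (hL3 : ∀ f, L f ≤ M * ‖f‖)
    (C : Set (StrongDual ℝ X)) (hne : C.Nonempty) (hc : Convex ℝ C) {R : ℝ} (hR : ∀ c ∈ C, ‖c‖ ≤ R)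
    (hcl : ∀ (U : Ultrafilter ℕ) (z : ℕ → StrongDual ℝ X) (z' : StrongDual ℝ X),
      (∀ x, Tendsto (fun k => z k x) U (𝓝 (z' x))) → (∀ k, z k ∈ C) → z' ∈ C)
    {ε : ℝ} (hε : 0 < ε) (hp : ∀ c ∈ C, ∃ g : ℕ → StrongDual ℝ X, (∀ k, g k ∈ C) ∧
      (∀ k, ε ≤ ‖g k - c‖) ∧ (∀ k : ℕ, L (g k - c) ≤ 1 / ((k : ℝ) + 1)) ∧
      ∀ x, Tendsto (fun k => g k x) (hyperfilter ℕ) (𝓝 (c x))) :
    ∃ p : Seminorm ℝ X, (∀ x, 1 / (M + 1) * ‖x‖ ≤ p x ∧ p x ≤ (2 * R + 1) * ‖x‖) ∧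
      (∀ x, x ≠ 0 → ∃ z, GD p x z) ∧ ∀ x, x ≠ 0 → ¬ DifferentiableAt ℝ p x := by
  obtain ⟨c0, hc0⟩ := hne
  have hR0 : 0 ≤ R := (norm_nonneg _).trans (hR c0 hc0)
  let K : Set (StrongDual ℝ X) := {f | ∃ (ρ : ℝ) (c c' b : StrongDual ℝ X), 0 ≤ ρ ∧ c ∈ C ∧
    c' ∈ C ∧ ‖b‖ ≤ 1 ∧ f = ρ • (c - c' + b) ∧ ρ ^ 2 + L f ^ 2 ≤ 1}
  have hsc : ∀ (t ρ : ℝ) (c c' b : StrongDual ℝ X), 0 ≤ t → 0 ≤ ρ → c ∈ C → c' ∈ C → ‖b‖ ≤ 1 →
      t ^ 2 * (ρ ^ 2 + L (ρ • (c - c' + b)) ^ 2) ≤ 1 → t • ρ • (c - c' + b) ∈ K := by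
    intro t ρ c c' b ht hρ h1 h2 h3 h4
    refine ⟨t * ρ, c, c', b, mul_nonneg ht hρ, h1, h2, h3, smul_smul _ _ _, ?_⟩
    rw [map_smul_eq_mul, Real.norm_eq_abs, abs_of_nonneg ht]
    linarith
  have hρ1 : ∀ ρ l : ℝ, 0 ≤ ρ → ρ ^ 2 + l ^ 2 ≤ 1 → ρ ≤ 1 := fun ρ l h1 h2 => by
    nlinarith [sq_nonneg l]
  have hKR : ∀ z ∈ K, ‖z‖ ≤ 2 * R + 1 := by
    rintro _ ⟨ρ, c, c', b, h0, h1, h2, h3, rfl, h4⟩
    have a1 := norm_add_le (c - c') b
    have a2 := norm_sub_le c c'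
    rw [norm_smul, Real.norm_eq_abs, abs_of_nonneg h0]
    refine (mul_le_of_le_one_left (norm_nonneg _) (hρ1 _ _ h0 h4)).trans ?_
    linarith [hR c h1, hR c' h2]
  have hKn : ∀ z ∈ K, -z ∈ K := by
    rintro _ ⟨ρ, c, c', b, h0, h1, h2, h3, rfl, h4⟩
    exact ⟨ρ, c', c, -b, h0, h2, h1, by simpa using h3, by module, by rwa [map_neg_eq_map]⟩
  have hK0 : ∀ b : StrongDual ℝ X, ‖b‖ ≤ 1 → (1 / (M + 1)) • b ∈ K := by
    intro b hb
    have := hsc (1 / (M + 1)) 1 c0 c0 b (by positivity) zero_le_one hc0 hc0 hb (by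
      rw [sub_self, zero_add, one_smul, div_pow, div_mul_eq_mul_div, div_le_one (by positivity)]
      have h1 := (hL3 b).trans (mul_le_of_le_one_right hM hb)
      have h2 := pow_le_pow_left₀ (apply_nonneg L b) h1 2
      nlinarith)
    simpa using this
  obtain ⟨p, p1, p2⟩ := exists_polarX K _ hKR
  have hle : ∀ z ∈ K, ∀ x, z x ≤ p x := fun z hz x => (le_abs_self _).trans (p1 z hz x)
  have hge : ∀ x c, (∀ z ∈ K, z x ≤ c) → p x ≤ c := by
    intro x c h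
    refine p2 x c (by simpa using h _ (hK0 0 (by simp))) fun z hz => abs_le.mpr ⟨?_, h z hz⟩
    have := h _ (hKn z hz)
    rw [ContinuousLinearMap.neg_apply] at this
    linarith
  have hlow : ∀ x, 1 / (M + 1) * ‖x‖ ≤ p x := by
    intro x
    obtain ⟨b, b1, b2⟩ := exists_dual_vector'' ℝ x
    have := hle _ (hK0 b b1) x
    rwa [ContinuousLinearMap.smul_apply, b2] at this
  have hKc : ∀ (U : Ultrafilter ℕ) (z : ℕ → StrongDual ℝ X), (∀ k, z k ∈ K) →
      ∃ z' ∈ K, ∀ x, Tendsto (fun k => z k x) U (𝓝 (z' x)) := by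
    intro U z hz
    choose ρ c c' b h0 h1 h2 h3 h4 h5 using hz
    obtain ⟨r, r1, r2⟩ := isCompact_Icc.ultrafilter_le_nhds (U.map ρ)
      (le_principal_iff.mpr (mem_map.mpr (univ_mem' fun k => ⟨h0 k, hρ1 _ _ (h0 k) (h5 k)⟩)))
    have r3 : Tendsto ρ U (𝓝 r) := r2
    obtain ⟨d, hd⟩ := limit_form U c R fun k => hR _ (h1 k)
    obtain ⟨d', hd'⟩ := limit_form U c' R fun k => hR _ (h2 k)
    obtain ⟨e, he⟩ := limit_form U b 1 h3
    have hl : ∀ x, Tendsto (fun k => z k x) U (𝓝 ((r • (d - d' + e)) x)) := fun x => by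
      simpa [h4, mul_add] using r3.mul (((hd x).sub (hd' x)).add (he x))
    refine ⟨_, ⟨r, d, d', e, r1.1, hcl U c d hd h1, hcl U c' d' hd' h2,
      ContinuousLinearMap.opNorm_le_bound _ zero_le_one fun x => le_of_tendsto' (he x).norm
        fun k => le_trans ((b k).le_opNorm x) (mul_le_mul_of_nonneg_right (h3 k) (norm_nonneg _)),
      rfl, ?_⟩, hl⟩
    refine le_of_forall_pos_le_add fun θ hθ => ?_
    have r4 : 0 ≤ 1 - r ^ 2 + θ := by nlinarith [r1.1, r1.2]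
    have := hL1 U z _ hl (√(1 - r ^ 2 + θ)) (by
      filter_upwards [(r3.pow 2).eventually (lt_mem_nhds (show r ^ 2 - θ < r ^ 2 by linarith))]
        with k hk
      exact Real.le_sqrt_of_sq_le (by linarith [h5 k]))
    have h6 := pow_le_pow_left₀ (apply_nonneg _ _) this 2
    rw [Real.sq_sqrt r4] at h6
    linarith
  have hpos : ∀ x, x ≠ 0 → 0 < p x := fun x hx =>
    lt_of_lt_of_le (mul_pos (by positivity) (norm_pos_iff.mpr hx)) (hlow x)
  have hatt : ∀ x, ∃ z ∈ K, z x = p x := by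
    intro x
    have : ∀ k : ℕ, ∃ z ∈ K, p x - 1 / ((k : ℝ) + 1) < z x := by
      intro k
      by_contra h
      push Not at h
      have := hge x _ h
      have : (0 : ℝ) < 1 / ((k : ℝ) + 1) := by positivity
      linarith
    choose z z1 z2 using this
    obtain ⟨z', h1, h2⟩ := hKc (hyperfilter ℕ) z z1
    refine ⟨z', h1, le_antisymm (hle _ h1 x) ?_⟩
    exact le_of_tendsto_of_tendsto' (by simpa using (tendsto_inv_U _ hyper_le).const_sub (p x))
      (h2 x) fun k => (z2 k).le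
  have huniq : ∀ x, x ≠ 0 → ∀ z ∈ K, ∀ z' ∈ K, z x = p x → z' x = p x → z = z' := by
    rintro x hx _ ⟨ρ, c, c', b, h0, h1, h2, h3, rfl, h4⟩ _ ⟨σ, d, d', e, k0, k1, k2, k3, rfl, k4⟩
      e1 e2
    have hp0 := hpos x hx
    refine hL2 _ _ (not_lt.mp fun hD => ?_)
    have hρ : 0 < ρ := h0.lt_of_ne fun h => by
      rw [← h] at e1
      simp at e1
      linarith
    have a1 : 0 ≤ ρ / (ρ + σ) := by positivity
    have a2 : 0 ≤ σ / (ρ + σ) := by positivity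
    have a3 : ρ / (ρ + σ) + σ / (ρ + σ) = 1 := by field_simp
    have e3 : ((ρ + σ) / 2) • (((ρ / (ρ + σ)) • c + (σ / (ρ + σ)) • d) -
        ((ρ / (ρ + σ)) • c' + (σ / (ρ + σ)) • d') + ((ρ / (ρ + σ)) • b + (σ / (ρ + σ)) • e)) =
        (1 / 2 : ℝ) • (ρ • (c - c' + b) + σ • (d - d' + e)) := by
      have : ρ + σ ≠ 0 := by positivity
      ext y
      simp only [ContinuousLinearMap.add_apply, ContinuousLinearMap.smul_apply,
        ContinuousLinearMap.sub_apply, smul_eq_mul]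
      field_simp
      ring
    set δ := D L (ρ • (c - c' + b)) (σ • (d - d' + e)) with hδ
    have h5 := hsc (1 + δ / 8) ((ρ + σ) / 2) _ _ _ (by positivity) (by positivity)
      (hc h1 k1 a1 a2 a3) (hc h2 k2 a1 a2 a3) (mem_closedBall_zero_iff.mp (convex_closedBall
        (0 : StrongDual ℝ X) 1 (mem_closedBall_zero_iff.mpr h3) (mem_closedBall_zero_iff.mpr k3)
        a1 a2 a3)) (by
      rw [e3, map_smul_eq_mul, Real.norm_eq_abs, abs_of_pos (by norm_num)]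
      have b1 : ((ρ + σ) / 2) ^ 2 + (1 / 2 * L (ρ • (c - c' + b) + σ • (d - d' + e))) ^ 2 ≤
          1 - δ / 4 := by
        simp only [hδ, D]
        nlinarith [sq_nonneg (ρ - σ)]
      have b2 := mul_le_mul_of_nonneg_left b1 (sq_nonneg (1 + δ / 8))
      nlinarith [mul_pos hD hD, mul_pos (mul_pos hD hD) hD])
    have h6 := hle _ h5 x
    rw [e3, ContinuousLinearMap.smul_apply, ContinuousLinearMap.smul_apply,
      ContinuousLinearMap.add_apply, e1, e2, smul_eq_mul, smul_eq_mul] at h6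
    nlinarith [mul_pos hD hp0]
  refine ⟨p, fun x => ⟨hlow x, hge x _ fun z hz => (le_abs_self _).trans ((abs_apply_le z x).trans
    (mul_le_mul_of_nonneg_right (hKR z hz) (norm_nonneg _)))⟩, fun x hx => ?_, fun x hx hd => ?_⟩
  · obtain ⟨z0, h1, h2⟩ := hatt x
    refine ⟨z0, S1G K _ hKR p hle hge x z0 h1 h2 fun U z hz hl => ?_⟩
    obtain ⟨z', k1, k2⟩ := hKc U z hz
    rw [huniq x hx z0 h1 z' k1 h2 (tendsto_nhds_unique (k2 x) hl)]
    exact k2
  · obtain ⟨_, hz0, h2⟩ := hatt x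
    obtain ⟨ρ, c, c', b, h0, h1, h1', h3, rfl, h4⟩ := id hz0
    have hp0 := hpos x hx
    have hρ : 0 < ρ := h0.lt_of_ne fun h => by
      rw [← h] at h2
      simp at h2
      linarith
    obtain ⟨g, g1, g2, g3, g4⟩ := hp c h1
    have t1 := S2t (l := ((hyperfilter ℕ : Ultrafilter ℕ) : Filter ℕ)) p x _ hd.hasFDerivAt (fun _ => ρ • (c - c' + b))
      (fun _ => 1) tendsto_const_nhds (fun _ y => by rw [one_mul]; exact hle _ hz0 y)
      (by rw [h2]; exact tendsto_const_nhds)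
    have t2 := S2t (l := ((hyperfilter ℕ : Ultrafilter ℕ) : Filter ℕ)) p x _ hd.hasFDerivAt (fun k => ρ • (g k - c' + b))
      (fun k => 1 + 1 / ((k : ℝ) + 1))
      (by simpa using (tendsto_inv_U _ hyper_le).const_add 1) (fun k y => by
        have a0 : (0 : ℝ) < 1 / ((k : ℝ) + 1) := by positivity
        set δ := 1 / ((k : ℝ) + 1)
        have a1 := map_add_le_add L (ρ • (c - c' + b)) (ρ • (g k - c))
        rw [show ρ • (c - c' + b) + ρ • (g k - c) = ρ • (g k - c' + b) by module,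
          map_smul_eq_mul L ρ (g k - c), Real.norm_eq_abs, abs_of_pos hρ] at a1
        have a2 : ρ * L (g k - c) ≤ δ :=
          (mul_le_of_le_one_left (apply_nonneg _ _) (hρ1 _ _ h0 h4)).trans (g3 k)
        have a3 := pow_le_pow_left₀ (apply_nonneg _ _) (a1.trans (add_le_add le_rfl a2)) 2
        have a4 : L (ρ • (c - c' + b)) ≤ 1 := hρ1 _ ρ (apply_nonneg _ _) (by linarith)
        have a5 := hle _ (hsc (1 + δ)⁻¹ ρ _ _ _ (by positivity) h0 (g1 k) h1' h3 (by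
          rw [inv_pow, inv_mul_le_iff₀ (by positivity)]
          nlinarith)) y
        rwa [ContinuousLinearMap.smul_apply, smul_eq_mul, inv_mul_le_iff₀ (by positivity)] at a5)
      (by
        rw [← h2]
        simpa [mul_add] using (((g4 x).sub_const (c' x)).add_const (b x)).const_mul ρ)
    have t3 := (t2.sub t1).norm
    rw [sub_self, norm_zero] at t3
    have t4 : ρ * ε ≤ 0 := ge_of_tendsto' t3 fun k => by
      rw [show ρ • (g k - c' + b) - ρ • (c - c' + b) = ρ • (g k - c) by module, norm_smul,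
        Real.norm_eq_abs, abs_of_pos hρ]
      exact mul_le_mul_of_nonneg_left (g2 k) h0
    linarith [mul_pos hρ hε]

end Pool.Agent.H2.Wc
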