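import Pool.Agent.H2.WcC

set_option autoImplicit false

namespace Pool.Agent.H2.Wc

open Filter Topology Pool.Agent.H2.Sm Pool.Agent.H2.Gs
open scoped Classical

lemma uniform_rough {E : Type} [AddCommGroup E] [Module ℝ E] [TopologicalSpace E]
    [IsTopologicalAddGroup E] [ContinuousSMul ℝ E] [LocallyConvexSpace ℝ E] [T2Space E]
    (d : E → E → ℝ) (C : Set E) (hne : C.Nonempty) (hc : Convex ℝ C) (hC : IsCompact C)
    (h : ∀ z ∈ C, ∃ ε : ℝ, 0 < ε ∧ ∀ U, IsOpen U → z ∈ U → ∃ y ∈ C ∩ U, ε ≤ d y z) :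
    ∃ (C' : Set E) (ε : ℝ), 0 < ε ∧ C'.Nonempty ∧ Convex ℝ C' ∧ IsCompact C' ∧
      ∀ W, IsOpen W → (C' ∩ W).Nonempty → ∃ y ∈ C' ∩ W, ∃ y' ∈ C' ∩ W, ε ≤ d y y' := by
  have := isCompact_iff_compactSpace.mp hC
  have := hne.to_subtype
  obtain ⟨n, u, hu⟩ := nonempty_interior_of_iUnion_of_closed (X := C) (f := fun n : ℕ =>
    {z | ∀ U, IsOpen U → z.1 ∈ U → ∃ y ∈ C ∩ U, ∃ y' ∈ C ∩ U, 1 / ((n : ℝ) + 1) ≤ d y y'})
    (fun n => isClosed_of_closure_subset fun z hz U hU hzU => by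
      obtain ⟨w, w1, w2⟩ := mem_closure_iff.mp hz _ (hU.preimage continuous_subtype_val) hzU
      exact w2 U hU w1)
    (Set.eq_univ_of_forall fun z => by
      obtain ⟨ε, hε, h1⟩ := h z z.2
      obtain ⟨n, hn⟩ := exists_nat_one_div_lt hε
      refine Set.mem_iUnion.mpr ⟨n, fun U hU hz => ?_⟩
      obtain ⟨y, y1, y2⟩ := h1 U hU hz
      exact ⟨y, y1, z, ⟨z.2, hz⟩, hn.le.trans y2⟩)
  obtain ⟨V, V1, V2⟩ := isOpen_induced_iff.mp (isOpen_interior (X := C) (s := {z | ∀ U, IsOpen U →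
    z.1 ∈ U → ∃ y ∈ C ∩ U, ∃ y' ∈ C ∩ U, 1 / ((n : ℝ) + 1) ≤ d y y'}))
  have huV : u.1 ∈ V := by rw [← V2] at hu; exact hu
  obtain ⟨Q0, ⟨q1, q2⟩, q3⟩ := (closed_nhds_basis u.1).mem_iff.mp (V1.mem_nhds huV)
  obtain ⟨Q1, ⟨q4, q5⟩, q6⟩ := (LocallyConvexSpace.convex_basis (𝕜 := ℝ) u.1).mem_iff.mp q1
  have hQ : closure Q1 ⊆ V := (closure_minimal q6 q2).trans q3
  have hQu : u.1 ∈ interior (closure Q1) :=
    mem_interior_iff_mem_nhds.mpr (mem_of_superset q4 subset_closure)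
  refine ⟨C ∩ closure Q1, 1 / ((n : ℝ) + 1), by positivity, ⟨u, u.2, interior_subset hQu⟩,
    hc.inter q5.closure, hC.inter_right isClosed_closure, fun W hW ⟨v, ⟨v1, v2⟩, v3⟩ => ?_⟩
  have h1 : Tendsto (fun s : ℝ => s • u.1 + (1 - s) • v) (𝓝[>] 0) (𝓝 v) := by
    have : Continuous fun s : ℝ => s • u.1 + (1 - s) • v := by fun_prop
    simpa using (this.tendsto 0).mono_left nhdsWithin_le_nhds
  obtain ⟨s, s1, s2⟩ := ((h1.eventually (hW.mem_nhds v3)).and (Ioo_mem_nhdsGT zero_lt_one)).exists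
  have a1 : s • u.1 + (1 - s) • v ∈ C := hc u.2 v1 s2.1.le (by linarith [s2.2]) (by ring)
  have a2 : s • u.1 + (1 - s) • v ∈ interior (closure Q1) :=
    q5.closure.combo_interior_self_mem_interior hQu v2 s2.1 (by linarith [s2.2]) (by ring)
  have a3 : (⟨_, a1⟩ : C) ∈ Subtype.val ⁻¹' V := hQ (interior_subset a2)
  rw [V2] at a3
  obtain ⟨y, y1, y', y2, y3⟩ := interior_subset a3 (W ∩ interior (closure Q1))
    (hW.inter isOpen_interior) ⟨s1, a2⟩
  exact ⟨y, ⟨⟨y1.1, interior_subset y1.2.2⟩, y1.2.1⟩, y',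
    ⟨⟨y2.1, interior_subset y2.2.2⟩, y2.2.1⟩, y3⟩

lemma exists_closed {Γ : Type} (ψ : Finset Γ → Set Γ) (hψ : ∀ F, (ψ F).Countable) :
    ∃ G : Set Γ, G.Countable ∧ ∀ F : Finset Γ, ↑F ⊆ G → ψ F ⊆ G := by
  let G : ℕ → Set Γ := fun n => Nat.rec ∅ (fun _ S => S ∪ ⋃ F ∈ {F : Finset Γ | ↑F ⊆ S}, ψ F) n
  have hG : ∀ n, G (n + 1) = G n ∪ ⋃ F ∈ {F : Finset Γ | ↑F ⊆ G n}, ψ F := fun _ => rfl
  have hm : Monotone G := monotone_nat_of_le_succ fun n => by
    rw [hG]; exact Set.subset_union_left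
  refine ⟨⋃ n, G n, Set.countable_iUnion fun n => ?_, fun F hF => ?_⟩
  · induction n with
    | zero => exact Set.countable_empty
    | succ n ih =>
      rw [hG]
      refine ih.union (Set.Countable.biUnion ?_ fun F _ => hψ F)
      refine ((Set.countable_setOf_finite_subset ih).preimage Finset.coe_injective).mono ?_
      intro F hF
      exact ⟨F.finite_toSet, hF⟩
  · obtain ⟨n, hn⟩ := ((eventually_all_finset F (l := atTop) (p := fun γ n => γ ∈ G n)).2
      fun γ hγ => by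
        obtain ⟨m, h⟩ := Set.mem_iUnion.mp (hF hγ)
        exact (eventually_ge_atTop m).mono fun n hn => hm hn h).exists
    refine Set.Subset.trans ?_ (Set.subset_iUnion G (n + 1))
    rw [hG]
    exact Set.subset_union_of_subset_right
      (Set.subset_biUnion_of_mem (u := ψ) (show F ∈ {F : Finset Γ | ↑F ⊆ G n} from hn)) _

variable {X : Type} [NormedAddCommGroup X] [NormedSpace ℝ X]

/-- The convex weak-star point of continuity property. -/
def CP (X : Type) [NormedAddCommGroup X] [NormedSpace ℝ X] : Prop :=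
  ∀ C : Set (WeakDual ℝ X), C.Nonempty → Convex ℝ C → IsCompact C →
    ∃ z ∈ C, ∀ ε : ℝ, 0 < ε → ∃ U : Set (WeakDual ℝ X), IsOpen U ∧ z ∈ U ∧
      ∀ y ∈ C ∩ U, ‖WeakDual.toStrongDual y - WeakDual.toStrongDual z‖ < ε

lemma wtend {ι : Type} {l : Filter ι} {z : ι → StrongDual ℝ X} {z' : StrongDual ℝ X}
    (h : ∀ x, Tendsto (fun k => z k x) l (𝓝 (z' x))) :
    Tendsto (fun k => StrongDual.toWeakDual (z k)) l (𝓝 (StrongDual.toWeakDual z')) :=
  tendsto_iff_forall_eval_tendsto_topDualPairing.mpr h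

lemma wmem {ι : Type} {l : Filter ι} [l.NeBot] {C : Set (WeakDual ℝ X)} (hC : IsClosed C)
    {z : ι → StrongDual ℝ X} {z' : StrongDual ℝ X}
    (h : ∀ x, Tendsto (fun k => z k x) l (𝓝 (z' x)))
    (hz : ∀ᶠ k in l, StrongDual.toWeakDual (z k) ∈ C) : StrongDual.toWeakDual z' ∈ C :=
  hC.mem_of_tendsto (wtend h) hz

theorem rough_of_not_cp [CompleteSpace X] (W : WK X) (h : ¬ CP X) :
    ∃ (p : Seminorm ℝ X) (a b : ℝ), 0 < a ∧ 0 < b ∧ (∀ x, a * ‖x‖ ≤ p x ∧ p x ≤ b * ‖x‖) ∧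
      (∀ x, x ≠ 0 → ∃ z, GD p x z) ∧ ∀ x, x ≠ 0 → ¬ DifferentiableAt ℝ p x := by
  obtain ⟨Γ, x, M0, hM0, hx0, hxt⟩ := wcg_family W
  have hM : ∀ γ, ‖x γ‖ ≤ |M0| := fun γ => (hM0 γ).trans (le_abs_self _)
  have hMn := abs_nonneg M0
  generalize |M0| = M at hM hMn
  simp only [CP] at h
  push Not at h
  obtain ⟨C0, c1, c2, c3, c4⟩ := h
  have : LocallyConvexSpace ℝ (WeakDual ℝ X) := WeakBilin.locallyConvexSpace
  obtain ⟨C, ε, hε, ⟨c0, hc0⟩, hc, hC, hW⟩ := uniform_rough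
    (fun y z => ‖WeakDual.toStrongDual y - WeakDual.toStrongDual z‖) C0 c1 c2 c3 c4
  obtain ⟨R0, hR0⟩ := banach_steinhaus (g := fun c : C => WeakDual.toStrongDual c.1) fun v => by
    obtain ⟨B, hB⟩ := (hC.image (WeakDual.eval_continuous v)).isBounded.exists_norm_le
    exact ⟨B, fun c => hB _ ⟨c, c.2, rfl⟩⟩
  have hR : ∀ c : StrongDual ℝ X, c ∈ C → ‖c‖ ≤ R0 := fun c hc => hR0 ⟨c, hc⟩
  have hRn : 0 ≤ R0 := (norm_nonneg _).trans (hR c0 hc0)
  have hsupp : ∀ f : StrongDual ℝ X, {γ | f (x γ) ≠ 0}.Countable := by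
    intro f
    refine (Set.countable_iUnion fun n : ℕ =>
      (hx0 f (1 / ((n : ℝ) + 1)) (by positivity)).countable).mono fun γ hγ => ?_
    obtain ⟨n, hn⟩ := exists_nat_one_div_lt (abs_pos.mpr hγ)
    exact Set.mem_iUnion.mpr ⟨n, hn⟩
  have hbox : ∀ (F : Finset Γ) (r : F → ℚ) (k : ℕ), ∃ y y' : StrongDual ℝ X,
      ∀ c : StrongDual ℝ X, c ∈ C → (∀ γ : F, |c (x γ) - r γ| < 1 / ((k : ℝ) + 1) / 2) →
        (y ∈ C ∧ ∀ γ : F, |y (x γ) - r γ| < 1 / ((k : ℝ) + 1) / 2) ∧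
        (y' ∈ C ∧ ∀ γ : F, |y' (x γ) - r γ| < 1 / ((k : ℝ) + 1) / 2) ∧ ε ≤ ‖y - y'‖ := by
    intro F r k
    by_cases h : (C ∩ {c : WeakDual ℝ X |
        ∀ γ : F, |c (x γ) - r γ| < 1 / ((k : ℝ) + 1) / 2}).Nonempty
    · obtain ⟨y, y1, y', y2, y3⟩ := hW _ (by
        simp only [Set.setOf_forall]
        exact isOpen_iInter_of_finite fun γ => isOpen_lt
          ((WeakDual.eval_continuous (x γ)).sub continuous_const).abs continuous_const) h
      exact ⟨y, y', fun _ _ _ => ⟨y1, y2, y3⟩⟩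
    · exact ⟨0, 0, fun c h1 h2 => (h ⟨c, h1, h2⟩).elim⟩
  choose y y' hy using hbox
  obtain ⟨G, G1, G2⟩ := exists_closed (fun F => {γ | c0 (x γ) ≠ 0} ∪
    ⋃ (r : F → ℚ) (k : ℕ), ({γ | y F r k (x γ) ≠ 0} ∪ {γ | y' F r k (x γ) ≠ 0}))
    fun F => (hsupp c0).union (Set.countable_iUnion fun r => Set.countable_iUnion fun k =>
      (hsupp _).union (hsupp _))
  obtain ⟨j, hj⟩ := Set.countable_iff_exists_injOn.mp G1
  let w : Γ → ℝ := fun γ => if γ ∈ G then 1 / ((j γ : ℝ) + 1) else 1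
  have w0 : ∀ γ, 0 < w γ := fun γ => by simp only [w]; split_ifs <;> positivity
  have w1 : ∀ γ, w γ ≤ 1 := fun γ => by
    simp only [w]; split_ifs
    · rw [div_le_one (by positivity)]; linarith [Nat.cast_nonneg (α := ℝ) (j γ)]
    · exact le_rfl
  have hw : ∀ (f : StrongDual ℝ X) γ, |f (w γ • x γ)| = w γ * |f (x γ)| := fun f γ => by
    rw [map_smul, smul_eq_mul, abs_mul, abs_of_pos (w0 γ)]
  have hw' : ∀ (f : StrongDual ℝ X) γ, |f (w γ • x γ)| ≤ |f (x γ)| := fun f γ => by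
    rw [hw]; exact mul_le_of_le_one_left (abs_nonneg _) (w1 γ)
  have hfx : ∀ (f : StrongDual ℝ X) γ, |f (x γ)| ≤ M * ‖f‖ := fun f γ => by
    rw [mul_comm]
    exact (abs_apply_le _ _).trans (mul_le_mul_of_nonneg_left (hM γ) (norm_nonneg _))
  obtain ⟨L, L1, L2, L3⟩ := exists_day (fun γ => w γ • x γ) M (fun γ => by
      rw [norm_smul, Real.norm_eq_abs, abs_of_pos (w0 γ)]
      exact (mul_le_of_le_one_left (norm_nonneg _) (w1 γ)).trans (hM γ))
    (fun f η hη => (hx0 f η hη).subset fun γ hγ => lt_of_lt_of_le hγ (hw' f γ))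
    (fun f hf => hxt f fun γ => by
      have := hf γ
      rw [map_smul, smul_eq_mul] at this
      exact (mul_eq_zero.mp this).resolve_left (w0 γ).ne')
  obtain ⟨p, p1, p2, p3⟩ := rough_norm L L1 L2 hMn
    (fun f => L3 f _ (by positivity) fun γ => (hw' f γ).trans (hfx f γ))
    {c : StrongDual ℝ X | c ∈ C ∧ ∀ γ, γ ∉ G → c (x γ) = 0}
    ⟨c0, hc0, fun γ hγ => by_contra fun h => hγ (G2 ∅ (by simp) (Or.inl h))⟩
    (fun a ha b hb s t hs ht hst => ⟨hc ha.1 hb.1 hs ht hst, fun γ hγ => by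
      simp [ha.2 γ hγ, hb.2 γ hγ]⟩) (R := R0) (fun c hc => hR c hc.1)
    (fun U z z' hl hz => ⟨wmem hC.isClosed hl
      (Eventually.of_forall fun k => (hz k).1), fun γ hγ =>
        tendsto_nhds_unique (hl (x γ)) (by simp [(hz _).2 γ hγ])⟩)
    (ε := ε / 2) (by positivity) (fun c hc => by
      have key : ∀ k : ℕ, ∃ g : StrongDual ℝ X, (g ∈ C ∧ ∀ γ, γ ∉ G → g (x γ) = 0) ∧
          ε / 2 ≤ ‖g - c‖ ∧ ∀ γ ∈ G, (j γ : ℝ) < (2 * R0 * M + 1) * (k + 1) →
            |(g - c) (x γ)| ≤ 1 / ((k : ℝ) + 1) := by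
        intro k
        obtain ⟨m, hm⟩ := exists_nat_gt ((2 * R0 * M + 1) * (k + 1))
        have hF : (G ∩ j ⁻¹' Set.Iio m).Finite :=
          Set.Finite.of_finite_image ((Set.finite_lt_nat m).subset (by
            rintro _ ⟨γ, hγ, rfl⟩; exact hγ.2)) (hj.mono Set.inter_subset_left)
        choose r hr using fun γ : hF.toFinset => exists_rat_near (c (x γ))
          (show 0 < 1 / ((k : ℝ) + 1) / 2 by positivity)
        obtain ⟨a1, a2, a3⟩ := hy hF.toFinset r k c hc.1 hr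
        have hs := G2 hF.toFinset fun γ hγ => ((Set.Finite.mem_toFinset _).mp hγ).1
        have b : ∀ g : StrongDual ℝ X, (∀ γ : hF.toFinset, |g (x γ) - r γ| <
            1 / ((k : ℝ) + 1) / 2) → ∀ γ ∈ G, (j γ : ℝ) < (2 * R0 * M + 1) * (k + 1) →
            |(g - c) (x γ)| ≤ 1 / ((k : ℝ) + 1) := by
          intro g hg γ h1 h2
          have h3 : γ ∈ hF.toFinset := (Set.Finite.mem_toFinset _).mpr ⟨h1, by
            have : (j γ : ℝ) < m := h2.trans hm
            exact_mod_cast this⟩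
          have h4 := abs_lt.mp (hg ⟨γ, h3⟩)
          have h5 := abs_lt.mp (hr ⟨γ, h3⟩)
          rw [ContinuousLinearMap.sub_apply, abs_le]
          constructor <;> linarith [h4.1, h4.2, h5.1, h5.2]
        by_cases h : ε / 2 ≤ ‖y hF.toFinset r k - c‖
        · exact ⟨_, ⟨a1.1, fun γ hγ => by_contra fun h => hγ (hs (Or.inr
            (Set.mem_iUnion₂.mpr ⟨r, k, Or.inl h⟩)))⟩, h, b _ a1.2⟩
        · refine ⟨_, ⟨a2.1, fun γ hγ => by_contra fun h => hγ (hs (Or.inr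
            (Set.mem_iUnion₂.mpr ⟨r, k, Or.inr h⟩)))⟩, ?_, b _ a2.2⟩
          have := norm_sub_le_norm_sub_add_norm_sub (y hF.toFinset r k) c (y' hF.toFinset r k)
          rw [norm_sub_rev c] at this
          linarith
      choose g g1 g2 g3 using key
      refine ⟨g, g1, g2, fun k => L3 _ _ (by positivity) fun γ => ?_, fun v => ?_⟩
      · by_cases hγ : γ ∈ G
        · by_cases h : (j γ : ℝ) < (2 * R0 * M + 1) * (k + 1)
          · exact (hw' _ γ).trans (g3 k γ hγ h)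
          · have h1 := hfx (g k - c) γ
            have h2 := (norm_sub_le (g k) c).trans (add_le_add (hR _ (g1 k).1) (hR _ hc.1))
            have h3 := mul_le_mul_of_nonneg_left h2 hMn
            rw [hw]
            simp only [w, if_pos hγ]
            rw [div_mul_eq_mul_div, one_mul, div_le_div_iff₀ (by positivity) (by positivity)]
            have h4 : (0 : ℝ) < k + 1 := by positivity
            have h5 := mul_le_mul_of_nonneg_right (h1.trans h3) h4.le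
            push Not at h
            nlinarith
        · refine (hw' _ γ).trans ?_
          rw [ContinuousLinearMap.sub_apply, (g1 k).2 γ hγ, hc.2 γ hγ, sub_zero, abs_zero]
          positivity
      · obtain ⟨z, hz⟩ := limit_form (hyperfilter ℕ) g R0 fun k => hR _ (g1 k).1
        have : z - c = 0 := hxt _ fun γ => by
          by_cases hγ : γ ∈ G
          · refine abs_nonpos_iff.mp (le_of_tendsto_of_tendsto
              (((hz (x γ)).sub_const (c (x γ))).abs) (tendsto_inv_U _ hyper_le) ?_)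
            filter_upwards [hyper_le (eventually_ge_atTop (j γ))] with k hk
            refine g3 k γ hγ ?_
            have h1 : (j γ : ℝ) ≤ k := by exact_mod_cast hk
            have h2 : (0 : ℝ) ≤ 2 * R0 * M * (k + 1) := by positivity
            linarith
          · rw [ContinuousLinearMap.sub_apply, hc.2 γ hγ, sub_zero]
            exact tendsto_nhds_unique (hz (x γ))
              (by simp [(g1 _).2 γ hγ])
        rw [← sub_eq_zero.mp this]
        exact hz v)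
  exact ⟨p, _, _, by positivity, by positivity, p1, p2, p3⟩

end Pool.Agent.H2.Wc
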