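import Pool.Agent.H2.WcD
import Pool.Agent.H95.Ekeland

set_option autoImplicit false

namespace Pool.Agent.H2.Wc

open Filter Topology Pool.Agent.H2.Sm Pool.Agent.H2.Gs
open scoped Classical

variable {X : Type} [NormedAddCommGroup X] [NormedSpace ℝ X]

/-- Approximate subgradients. -/
def sub (ψ : X → ℝ) (x : X) (β : ℝ) : Set (StrongDual ℝ X) := {g | ∀ y, ψ x + g (y - x) - β ≤ ψ y}

lemma convex_sub (ψ : X → ℝ) (x : X) (β : ℝ) : Convex ℝ (sub ψ x β) := by
  intro u hu v hv s t hs ht hst y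
  have h1 := mul_le_mul_of_nonneg_left (hu y) hs
  have h2 := mul_le_mul_of_nonneg_left (hv y) ht
  show ψ x + (s * u (y - x) + t * v (y - x)) - β ≤ ψ y
  obtain rfl : t = 1 - s := by linarith
  linarith

lemma GD.mem_sub {ψ : X → ℝ} (hψ : ConvexOn ℝ Set.univ ψ) {x : X} {g : StrongDual ℝ X}
    (h : GD ψ x g) : g ∈ sub ψ x 0 := by
  intro y
  have h1 : g (y - x) ≤ ψ y - ψ x := by
    refine le_of_tendsto (h.slope (y - x)) ?_
    filter_upwards [Ioo_mem_nhdsGT zero_lt_one] with t ht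
    have := hψ.2 (Set.mem_univ x) (Set.mem_univ y) (show 0 ≤ 1 - t by linarith [ht.2]) ht.1.le
      (by ring)
    rw [show (1 - t) • x + t • y = x + t • (y - x) by module] at this
    rw [inv_mul_le_iff₀ ht.1]
    simp only [smul_eq_mul] at this
    linarith
  linarith

lemma sub_tendsto {ψ : X → ℝ} {x : X} {f : StrongDual ℝ X} (h : GD ψ x f)
    {g : ℕ → StrongDual ℝ X} (hg : ∀ n : ℕ, g n ∈ sub ψ x (1 / ((n : ℝ) + 1))) (v : X) :
    Tendsto (fun n => g n v) atTop (𝓝 (f v)) := by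
  have key : ∀ v, ∀ θ > 0, ∀ᶠ n in atTop, g n v < f v + θ := by
    intro v θ hθ
    obtain ⟨t, t1, t2⟩ := (((h.slope v).eventually
      (gt_mem_nhds (show f v < f v + θ / 2 by linarith))).and self_mem_nhdsWithin).exists
    have t3 : (0 : ℝ) < t := t2
    filter_upwards [(tendsto_one_div_add_atTop_nhds_zero_nat (𝕜 := ℝ)).eventually
      (gt_mem_nhds (show 0 < t * (θ / 2) by positivity))] with n hn
    have h1 := hg n (x + t • v)
    rw [add_sub_cancel_left, map_smul, smul_eq_mul] at h1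
    rw [inv_mul_lt_iff₀ t3] at t1
    refine lt_of_mul_lt_mul_left ?_ t3.le
    linarith
  refine tendsto_order.mpr ⟨fun a ha => ?_, fun a ha => ?_⟩
  · filter_upwards [key (-v) (f v - a) (by linarith)] with n hn
    rw [map_neg, map_neg] at hn
    linarith
  · filter_upwards [key v (a - f v) (by linarith)] with n hn
    linarith

lemma gd_sq (p : Seminorm ℝ X) (hd : ∀ x, x ≠ 0 → ∃ z, GD p x z) (x0 x : X) :
    ∃ z, GD (fun y => p (y - x0) ^ 2) x z := by
  by_cases h : x - x0 = 0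
  · refine ⟨0, fun v => ?_⟩
    have e : (fun t : ℝ => p (x + t • v - x0) ^ 2) = fun t => t ^ 2 * p v ^ 2 := by
      funext t
      rw [show x + t • v - x0 = (x - x0) + t • v by abel, h, zero_add, map_smul_eq_mul, mul_pow,
        Real.norm_eq_abs, sq_abs]
    rw [e]
    simpa using ((hasDerivAt_id (0 : ℝ)).pow 2).mul_const (p v ^ 2)
  · obtain ⟨z, hz⟩ := hd _ h
    refine ⟨(2 * p (x - x0)) • z, fun v => ?_⟩
    have e : (fun t : ℝ => p (x + t • v - x0) ^ 2) = fun t => p (x - x0 + t • v) ^ 2 := by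
      funext t
      rw [show x + t • v - x0 = (x - x0) + t • v by abel]
    rw [e]
    simpa using (hz v).fun_pow 2

lemma dense_step [CompleteSpace X] (hcp : CP X) (p : Seminorm ℝ X) {a b : ℝ} (ha : 0 < a)
    (hb : 0 < b) (hp : ∀ x, a * ‖x‖ ≤ p x ∧ p x ≤ b * ‖x‖) (hd : ∀ x, x ≠ 0 → ∃ z, GD p x z)
    (x0 : X) {r ε : ℝ} (hr : 0 < r) (hr' : r ≤ ‖x0‖) (hε : 0 < ε) :
    ∃ x, ‖x - x0‖ < r ∧ ∃ ρ > 0, ∀ x' h, ‖x' - x‖ < ρ → ‖h‖ < ρ →
      p (x' + h) + p (x' - h) - 2 * p x' ≤ ε * ‖h‖ := by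
  have pc : Continuous p := continuous_of_bound p fun z => (hp z).2
  let ψ : X → ℝ := fun y => p y + p (y - x0) ^ 2
  have ψc : Continuous ψ := pc.add ((pc.comp (continuous_id.sub continuous_const)).pow 2)
  have hcv : ∀ (u v : X) (s t : ℝ), 0 ≤ s → 0 ≤ t → p (s • u + t • v) ≤ s * p u + t * p v := by
    intro u v s t hs ht
    have := map_add_le_add p (s • u) (t • v)
    rwa [map_smul_eq_mul, map_smul_eq_mul, Real.norm_eq_abs, Real.norm_eq_abs, abs_of_nonneg hs,
      abs_of_nonneg ht] at this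
  have hψ : ConvexOn ℝ Set.univ ψ := by
    refine ⟨convex_univ, fun u _ v _ s t hs ht hst => ?_⟩
    have h1 := hcv u v s t hs ht
    have h2 := hcv (u - x0) (v - x0) s t hs ht
    have e : s • u + t • v - x0 = s • (u - x0) + t • (v - x0) := by
      rw [show t = 1 - s by linarith]; module
    have h3 := pow_le_pow_left₀ (apply_nonneg _ _) h2 2
    simp only [ψ, smul_eq_mul, e]
    have h4 : (s * p (u - x0) + t * p (v - x0)) ^ 2 ≤ s * p (u - x0) ^ 2 + t * p (v - x0) ^ 2 := by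
      obtain rfl : t = 1 - s := by linarith
      nlinarith [mul_nonneg (mul_nonneg hs ht) (sq_nonneg (p (u - x0) - p (v - x0)))]
    linarith
  have hg : ∀ x, x ≠ 0 → ∃ z, GD ψ x z := by
    intro x hx
    obtain ⟨z, hz⟩ := hd x hx
    obtain ⟨w, hw⟩ := gd_sq p hd x0 x
    exact ⟨z + w, fun v => (hz v).add (hw v)⟩
  have hx0 : x0 ≠ 0 := norm_pos_iff.mp (hr.trans_le hr')
  obtain ⟨f0, hf0⟩ := hg x0 hx0
  have hf0' := GD.mem_sub hψ hf0
  set α := (a * r) ^ 2 / 8 with hα
  have hα0 : 0 < α := by positivity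
  have hbd : ∀ g ∈ sub ψ x0 α, ‖g‖ ≤ b + b ^ 2 + α := by
    intro g hg
    have key : ∀ v, ‖v‖ = 1 → g v ≤ b + b ^ 2 + α := by
      intro v hv
      have h1 := hg (x0 + v)
      have h2 := map_add_le_add p x0 v
      have h3 := (hp v).2
      rw [hv, mul_one] at h3
      have h4 := pow_le_pow_left₀ (apply_nonneg _ _) h3 2
      simp only [ψ, add_sub_cancel_left, sub_self, map_zero] at h1
      linarith
    refine ContinuousLinearMap.opNorm_le_of_unit_norm (by positivity) fun v hv => ?_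
    have h1 := key (-v) (by rwa [norm_neg])
    rw [map_neg] at h1
    exact abs_le.mpr ⟨by linarith, key v hv⟩
  obtain ⟨z, z1, z2⟩ := hcp (sub ψ x0 α) ⟨f0, fun y => by linarith [hf0' y]⟩
    (convex_sub ψ x0 α)
    ((WeakDual.isCompact_closedBall (0 : StrongDual ℝ X) (b + b ^ 2 + α)).of_isClosed_subset
      (by
        simp only [sub, Set.setOf_forall]
        exact isClosed_iInter fun y => isClosed_le ((continuous_const.add
          (WeakDual.eval_continuous (y - x0))).sub continuous_const) continuous_const)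
      fun g hg => mem_closedBall_zero_iff.mpr (hbd g hg))
  obtain ⟨U, U1, U2, U3⟩ := z2 (ε / 2) (by positivity)
  set z' := WeakDual.toStrongDual z with hz'
  have z3 : z' ∈ sub ψ x0 α := z1
  let U' : Set (StrongDual ℝ X) := (fun g => StrongDual.toWeakDual g) ⁻¹' U
  have U4 : IsOpen U' := U1.preimage NormedSpace.Dual.toWeakDual_continuous
  have U5 : z' ∈ U' := U2
  have h1 : Tendsto (fun s : ℝ => s • f0 + (1 - s) • z') (𝓝[>] 0) (𝓝 z') := by
    have : Continuous fun s : ℝ => s • f0 + (1 - s) • z' := by fun_prop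
    simpa using (this.tendsto 0).mono_left nhdsWithin_le_nhds
  obtain ⟨s, s1, s2⟩ := ((h1.eventually (U4.mem_nhds U5)).and (Ioo_mem_nhdsGT zero_lt_one)).exists
  set f1 := s • f0 + (1 - s) • z' with hf1
  have hf1' : f1 ∈ sub ψ x0 ((1 - s) * α) := fun y => by
    have a1 := mul_le_mul_of_nonneg_left (hf0' y) s2.1.le
    have a2 := mul_le_mul_of_nonneg_left (z3 y) (show 0 ≤ 1 - s by linarith [s2.2])
    show ψ x0 + (s * f0 (y - x0) + (1 - s) * z' (y - x0)) - (1 - s) * α ≤ ψ y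
    linarith
  obtain ⟨l0, l1, l2⟩ := Metric.isOpen_iff.mp U4 f1 s1
  have hsα : 0 < s * α := mul_pos s2.1 hα0
  set l := min (l0 / 2) (s * α / (2 * r)) with hl
  have hl0 : 0 < l := lt_min (by positivity) (by positivity)
  have hl1 : l < l0 := lt_of_le_of_lt (min_le_left _ _) (by linarith)
  have hl2 : l * r ≤ s * α / 2 := by
    have := min_le_right (l0 / 2) (s * α / (2 * r))
    rw [← hl, le_div_iff₀ (by positivity)] at this
    linarith
  obtain ⟨x, k1, k2⟩ := Pool.Agent.H95.Ekeland.ekeland (k := fun y => f1 y - ψ y)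
    (f1.continuous.sub ψc) (M := f1 x0 - ψ x0 + α) (fun y => by
      have := hf1' y
      rw [map_sub] at this
      linarith) hl0 x0
  have hx : ‖x - x0‖ < r := by
    have a1 := hf1' ((1 / 2 : ℝ) • x + (1 / 2 : ℝ) • x0)
    have a2 := hcv x x0 (1 / 2) (1 / 2) (by norm_num) (by norm_num)
    rw [show (1 / 2 : ℝ) • x + (1 / 2 : ℝ) • x0 - x0 = (1 / 2 : ℝ) • (x - x0) by module] at a1
    simp only [ψ] at a1 k1
    rw [show (1 / 2 : ℝ) • x + (1 / 2 : ℝ) • x0 - x0 = (1 / 2 : ℝ) • (x - x0) by module,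
      map_smul_eq_mul p, map_smul f1, map_sub f1, Real.norm_eq_abs, abs_of_pos (by norm_num),
      smul_eq_mul] at a1
    simp only [sub_self, map_zero] at a1 k1
    have a3 : p (x - x0) ^ 2 < (a * r) ^ 2 := by nlinarith
    have a4 := lt_of_pow_lt_pow_left₀ 2 (by positivity) a3
    exact lt_of_mul_lt_mul_left ((hp _).1.trans_lt a4) ha.le
  have hxn : x ≠ 0 := by
    rintro rfl
    rw [zero_sub, norm_neg] at hx
    linarith
  obtain ⟨f, hf⟩ := hg x hxn
  have hff : ‖f - f1‖ ≤ l := by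
    have key : ∀ v, f1 v - l * ‖v‖ ≤ f v := by
      intro v
      refine ge_of_tendsto (hf.slope v) ?_
      filter_upwards [self_mem_nhdsWithin] with t ht
      have t0 : (0 : ℝ) < t := ht
      have := k2 (x + t • v)
      rw [dist_self_add_right, norm_smul, Real.norm_eq_abs, abs_of_pos t0, map_add, map_smul,
        smul_eq_mul] at this
      rw [le_inv_mul_iff₀ t0]
      linarith
    refine ContinuousLinearMap.opNorm_le_bound _ hl0.le fun v => ?_
    have a1 := key v
    have a2 := key (-v)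
    rw [map_neg, map_neg, norm_neg] at a2
    rw [ContinuousLinearMap.sub_apply, Real.norm_eq_abs, abs_le]
    constructor <;> linarith
  have hfU : f ∈ U' := l2 (by rw [mem_ball_iff_norm]; linarith)
  obtain ⟨β, β0, hβ⟩ : ∃ β > 0, ∀ g ∈ sub ψ x β, g ∈ U' ∧ g ∈ sub ψ x0 α := by
    by_contra hc
    push Not at hc
    choose g g1 g2 using fun n : ℕ => hc (1 / ((n : ℝ) + 1)) (by positivity)
    have t1 := sub_tendsto hf g1
    have t2 := (wtend t1).eventually (U1.mem_nhds hfU)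
    have t3 := ((tendsto_one_div_add_atTop_nhds_zero_nat (𝕜 := ℝ)).sub (t1 (x0 - x))).eventually
      (gt_mem_nhds (show 0 - f (x0 - x) < α - ψ x0 + ψ x by
        have a1 := hf1' x
        have a2 := (abs_le.mp ((abs_apply_le (f - f1) (x - x0)).trans
          (mul_le_mul hff hx.le (norm_nonneg _) hl0.le))).2
        rw [ContinuousLinearMap.sub_apply] at a2
        rw [show x0 - x = -(x - x0) by abel, map_neg]
        linarith))
    obtain ⟨n, n1, n2⟩ := (t2.and t3).exists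
    refine g2 n n1 fun y => ?_
    have a1 := g1 n y
    simp only [map_sub] at a1 n2 ⊢
    linarith
  have hc2 : ContinuousAt (fun u => ψ x + ψ (u + (u - x)) - 2 * ψ u) x := by fun_prop
  obtain ⟨ρ, ρ0, hρ⟩ := Metric.eventually_nhds_iff.mp ((hc2.eventually
    (gt_mem_nhds (show ψ x + ψ (x + (x - x)) - 2 * ψ x < β by
      rw [sub_self, add_zero]; linarith))).and (isOpen_ne.mem_nhds hxn))
  have hnear : ∀ u, ‖u - x‖ < ρ → ∃ g ∈ sub ψ u 0, ‖g - z'‖ < ε / 2 := by
    intro u hu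
    obtain ⟨u1, u2⟩ := hρ (by rwa [dist_eq_norm])
    obtain ⟨g, hg'⟩ := hg u u2
    have g1 := GD.mem_sub hψ hg'
    obtain ⟨g2, g3⟩ := hβ g fun y => by
      have a1 := g1 y
      have a2 := g1 (u + (u - x))
      simp only [map_sub, map_add] at a1 a2 ⊢
      linarith
    exact ⟨g, g1, U3 (StrongDual.toWeakDual g) ⟨g3, g2⟩⟩
  refine ⟨x, hx, ρ / 2, by positivity, fun x' h h1 h2 => ?_⟩
  obtain ⟨g, g1, g2⟩ := hnear (x' + h) (by
    rw [show x' + h - x = (x' - x) + h by abel]; linarith [norm_add_le (x' - x) h])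
  obtain ⟨g', g3, g4⟩ := hnear (x' - h) (by
    rw [show x' - h - x = (x' - x) - h by abel]; linarith [norm_sub_le (x' - x) h])
  have a1 := g1 x'
  have a2 := g3 x'
  rw [show x' - (x' + h) = -h by abel, map_neg] at a1
  rw [sub_sub_cancel] at a2
  have a3 := norm_sub_le_norm_sub_add_norm_sub g z' g'
  rw [norm_sub_rev z'] at a3
  have a4 := (le_abs_self _).trans ((abs_apply_le (g - g') h).trans
    (mul_le_mul_of_nonneg_right (show ‖g - g'‖ ≤ ε by linarith) (norm_nonneg h)))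
  rw [ContinuousLinearMap.sub_apply] at a4
  have a5 := hcv (x' + h - x0) (x' - h - x0) (1 / 2) (1 / 2) (by norm_num) (by norm_num)
  rw [show (1 / 2 : ℝ) • (x' + h - x0) + (1 / 2 : ℝ) • (x' - h - x0) = x' - x0 by module] at a5
  have a6 := pow_le_pow_left₀ (apply_nonneg _ _) a5 2
  simp only [ψ] at a1 a2
  nlinarith [sq_nonneg (p (x' + h - x0) - p (x' - h - x0))]

theorem frechet_point [CompleteSpace X] [Nontrivial X] (hcp : CP X) (p : Seminorm ℝ X) {a b : ℝ}
    (ha : 0 < a) (hb : 0 < b) (hp : ∀ x, a * ‖x‖ ≤ p x ∧ p x ≤ b * ‖x‖)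
    (hd : ∀ x, x ≠ 0 → ∃ z, GD p x z) : ∃ x, x ≠ 0 ∧ DifferentiableAt ℝ p x := by
  have hD := dense_iInter_of_isOpen (f := fun n : ℕ => {x : X | x ≠ 0 → ∃ ρ > 0, ∀ x' h,
      ‖x' - x‖ < ρ → ‖h‖ < ρ → p (x' + h) + p (x' - h) - 2 * p x' ≤ 1 / ((n : ℝ) + 1) * ‖h‖} \ {0})
    (fun n => by
      refine Metric.isOpen_iff.mpr fun x hx => ?_
      obtain ⟨ρ, ρ0, hρ⟩ := hx.1 hx.2
      have h0 := norm_pos_iff.mpr hx.2
      refine ⟨min (ρ / 2) ‖x‖, lt_min (by positivity) h0, fun u hu => ?_⟩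
      rw [mem_ball_iff_norm, lt_min_iff] at hu
      refine ⟨fun _ => ⟨ρ / 2, by positivity, fun x' h h1 h2 => hρ x' h ?_ (by linarith)⟩, ?_⟩
      · linarith [norm_sub_le_norm_sub_add_norm_sub x' u x, hu.1]
      · rintro rfl
        simp at hu)
    (fun n => by
      refine Metric.dense_iff.mpr fun x r hr => ?_
      obtain ⟨x0, h1, h2⟩ := (dense_compl_singleton (0 : X)).exists_mem_open Metric.isOpen_ball
        (⟨x, Metric.mem_ball_self (half_pos hr)⟩ : (Metric.ball x (r / 2)).Nonempty)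
      have h0 := norm_pos_iff.mpr h1
      obtain ⟨u, u1, u2⟩ := dense_step hcp p ha hb hp hd x0 (lt_min (half_pos hr) h0)
        (min_le_right _ _) (show 0 < 1 / ((n : ℝ) + 1) by positivity)
      rw [lt_min_iff] at u1
      rw [mem_ball_iff_norm] at h2
      refine ⟨u, ?_, fun _ => u2, ?_⟩
      · rw [mem_ball_iff_norm]
        linarith [norm_sub_le_norm_sub_add_norm_sub u x0 x, u1.1]
      · rintro rfl
        simp at u1)
  obtain ⟨x, hx⟩ := hD.nonempty
  rw [Set.mem_iInter] at hx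
  have hx0 : x ≠ 0 := (hx 0).2
  obtain ⟨f, hf⟩ := hd x hx0
  obtain ⟨f1, f2⟩ := hf.support
  refine ⟨x, hx0, (hasFDerivAt_iff_isLittleO_nhds_zero.mpr
    (Asymptotics.isLittleO_iff.mpr fun c hc => ?_) : HasFDerivAt p f x).differentiableAt⟩
  obtain ⟨n, hn⟩ := exists_nat_one_div_lt hc
  obtain ⟨ρ, ρ0, hρ⟩ := (hx n).1 hx0
  filter_upwards [Metric.ball_mem_nhds (0 : X) ρ0] with h hh
  have a1 := hρ x h (by simpa using ρ0) (by simpa using hh)
  have a2 := f1 (x + h)
  have a3 := f1 (x - h)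
  rw [map_add] at a2
  rw [map_sub] at a3
  have a4 := mul_le_mul_of_nonneg_right hn.le (norm_nonneg h)
  rw [Real.norm_eq_abs, abs_of_nonneg (by linarith)]
  linarith

lemma exists_wk [CompleteSpace X] (K : Set X) (hK : IsCompact (ev '' K))
    (hd : Dense ((Submodule.span ℝ K : Submodule ℝ X) : Set X)) : Nonempty (WK X) := by
  obtain ⟨M, hM⟩ := banach_steinhaus
    (g := fun k : K => NormedSpace.inclusionInDoubleDual ℝ X k.1) fun f => by
      obtain ⟨B, hB⟩ := (hK.image (continuous_apply f)).isBounded.exists_norm_le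
      exact ⟨B, fun k => hB _ ⟨_, ⟨k, k.2, rfl⟩, rfl⟩⟩
  have hM' : ∀ k ∈ K, ‖k‖ ≤ |M| := fun k hk => by
    have := hM ⟨k, hk⟩
    rw [show ‖NormedSpace.inclusionInDoubleDual ℝ X k‖ = ‖k‖ from
      (NormedSpace.inclusionInDoubleDualLi ℝ (E := X)).norm_map k] at this
    exact this.trans (le_abs_self _)
  refine ⟨⟨insert 0 (K ∪ Neg.neg '' K), |M|, ?_, Set.mem_insert _ _, ?_, ?_, ?_⟩⟩
  · rw [Set.image_insert_eq, Set.image_union]
    refine (hK.union ?_).insert _
    convert hK.image continuous_neg using 1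
    rw [Set.image_image, Set.image_image]
    congr 1
    funext k f
    simp [ev]
  · rintro k (rfl | hk | ⟨k, hk, rfl⟩)
    · simp
    · exact Or.inr (Or.inr ⟨k, hk, rfl⟩)
    · exact Or.inr (Or.inl (by simpa using hk))
  · rintro k (rfl | hk | ⟨k, hk, rfl⟩)
    · simp
    · exact hM' k hk
    · simpa using hM' k hk
  · intro f hf
    refine ContinuousLinearMap.ext_on hd fun k hk => hf k (Or.inr (Or.inl hk))

end Pool.Agent.H2.Wc
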